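import Pool.Agent.Lib.MP_adc574_ag_DC.ADefs

/-!
# DC, Part A: the lattices (definitions)

`lo P E`: the elements which are in `E` after multiplication with an element outside of `P`. `EE k`: the module over
`R = κ[a]` generated by the classes of the forms of weight `≤ ν + e k`. `MM`: the union. `Bdd`: bounded vectors.
-/

set_option autoImplicit false
set_option linter.unusedSectionVars false

namespace MPadcDC

open MvPolynomial TensorProduct

universe u

section gen

variable {R : Type u} [CommRing R] {H : Type u} [AddCommGroup H] [Module R H]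

/-- The localization of a submodule at the prime ideal `P`. -/
def lo (P : Ideal R) (E : Submodule R H) : Set H := {x | ∃ s : R, s ∉ P ∧ s • x ∈ E}

end gen

section main

variable {κ : Type u} [Field κ] {Γ : Type} [Fintype Γ] {V : Type u} [AddCommGroup V] [Module κ V]
  {H : Type u} [AddCommGroup H] [Module (MvPolynomial Γ κ) H]

/-- The module over `R` generated by the classes of the forms of weight `≤ ν + e k`. -/
noncomputable def EE (G : Cx κ Γ V) (m : ℕ) (c : V →+ H) (k : ℕ) : Submodule (MvPolynomial Γ κ) H :=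
  Submodule.span _ {y | ∃ j, j ≤ k ∧ ∃ x ∈ G.Vd (m + 1) j, c x = y}

/-- The union. -/
noncomputable def MM (G : Cx κ Γ V) (m : ℕ) (c : V →+ H) : Submodule (MvPolynomial Γ κ) H :=
  Submodule.span _ {y | ∃ j, ∃ x ∈ G.Vd (m + 1) j, c x = y}

/-- `w` is bounded at `P = (π)` for the derivation `∂ / ∂ a_γ₀`. -/
def Bdd (G : Cx κ Γ V) (m : ℕ) (c : V →+ H) (nab : Γ → H →+ H) (P : Ideal (MvPolynomial Γ κ)) (γ₀ : Γ)
    (π : MvPolynomial Γ κ) (w : H) : Prop :=
  ∃ i j : ℕ, ∀ k : ℕ, π ^ i • (nab γ₀)^[k] w ∈ lo P (EE G m c j)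

end main

end MPadcDC
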