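import Mathlib

/-!
# DC: the forms of a graded ring and their families, abstract version

`κ` is a field of characteristic `0`, `Γ` a finite set of parameters `a_γ`, `R = κ[a]`. `V` is the space of differential
forms of the cone over `κ`, `Vd q k` the forms of degree `q` and weight `ν + e k`, `mul γ` the multiplication with `x ^ γ`,
`wd γ` the multiplication with `d (x ^ γ)`, `io` the contraction with the Euler field. The forms over `R` are
`R ⊗ V`; `TF` is the multiplication with `dF`, `F = ∑ a_γ x ^ γ`, and `nF = d + dF`.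
-/

set_option autoImplicit false

namespace MPadcDC

open MvPolynomial TensorProduct

universe u

/-- The data of the forms over `κ`. -/
structure Cx (κ : Type u) [Field κ] (Γ : Type) (V : Type u) [AddCommGroup V] [Module κ V] where
  /-- the forms of degree `q` and weight `ν + e k` -/
  Vd : ℕ → ℕ → Submodule κ V
  /-- the exterior derivative -/
  d : V →ₗ[κ] V
  /-- multiplication with `x ^ γ` -/
  mul : Γ → V →ₗ[κ] V
  /-- multiplication with `d (x ^ γ)` -/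
  wd : Γ → V →ₗ[κ] V
  /-- contraction with the Euler field -/
  io : V →ₗ[κ] V
  /-- the degree `e` -/
  e : κ
  /-- `ν / e` -/
  θ : κ

section

variable {κ : Type u} [Field κ] {Γ : Type} [Fintype Γ] {V : Type u} [AddCommGroup V] [Module κ V]

/-- The relations. -/
structure Cx.Ok (G : Cx κ Γ V) : Prop where
  fg : ∀ q k, (G.Vd q k).FG
  d_mem : ∀ q k, ∀ x ∈ G.Vd q k, G.d x ∈ G.Vd (q + 1) k
  mul_mem : ∀ γ q k, ∀ x ∈ G.Vd q k, G.mul γ x ∈ G.Vd q (k + 1)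
  wd_mem : ∀ γ q k, ∀ x ∈ G.Vd q k, G.wd γ x ∈ G.Vd (q + 1) (k + 1)
  io_mem : ∀ q k, ∀ x ∈ G.Vd (q + 1) k, G.io x ∈ G.Vd q k
  d_d : ∀ x, G.d (G.d x) = 0
  d_mul : ∀ γ x, G.d (G.mul γ x) = G.mul γ (G.d x) + G.wd γ x
  d_wd : ∀ γ x, G.d (G.wd γ x) = - G.wd γ (G.d x)
  mul_mul : ∀ γ γ' x, G.mul γ (G.mul γ' x) = G.mul γ' (G.mul γ x)
  mul_wd : ∀ γ γ' x, G.mul γ (G.wd γ' x) = G.wd γ' (G.mul γ x)
  wd_wd : ∀ γ γ' x, G.wd γ (G.wd γ' x) = - G.wd γ' (G.wd γ x)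
  io_wd : ∀ γ x, G.io (G.wd γ x) + G.wd γ (G.io x) = G.e • G.mul γ x
  cartan : ∀ q k, ∀ x ∈ G.Vd q k, G.io (G.d x) + G.d (G.io x) = (G.e * (G.θ + k)) • x
  e_ne : G.e ≠ 0
  θ_ne : ∀ z : ℤ, G.θ ≠ z
  /-- the forms of different weights are independent -/
  indep : ∀ q, iSupIndep (G.Vd q)

/-- The multiplication with `dF` on forms over `R`. -/
noncomputable def Cx.TF (G : Cx κ Γ V) :
    MvPolynomial Γ κ ⊗[κ] V →ₗ[MvPolynomial Γ κ] MvPolynomial Γ κ ⊗[κ] V :=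
  ∑ γ, (X γ : MvPolynomial Γ κ) • (G.wd γ).baseChange (MvPolynomial Γ κ)

/-- `d + dF` on forms over `R`. -/
noncomputable def Cx.nF (G : Cx κ Γ V) :
    MvPolynomial Γ κ ⊗[κ] V →ₗ[MvPolynomial Γ κ] MvPolynomial Γ κ ⊗[κ] V :=
  G.d.baseChange (MvPolynomial Γ κ) + G.TF

/-- The forms over `R` of degree `q` and weight `ν + e k`. -/
noncomputable def Cx.VR (G : Cx κ Γ V) (q k : ℕ) : Submodule (MvPolynomial Γ κ) (MvPolynomial Γ κ ⊗[κ] V) :=
  (G.Vd q k).baseChange (MvPolynomial Γ κ)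

/-- Koszul exactness in the degrees `q + 1` and high weights. -/
def Cx.Kos (G : Cx κ Γ V) (q : ℕ) : Prop :=
  ∃ k₀ : ℕ, ∀ k, k₀ ≤ k → ∀ x ∈ G.VR (q + 1) (k + 1), G.TF x = 0 → x ∈ (G.VR q k).map G.TF

/-- Koszul exactness in degree `0`: injectivity, all weights. -/
def Cx.Kos0 (G : Cx κ Γ V) : Prop :=
  ∃ k₀ : ℕ, ∀ k, k₀ ≤ k → ∀ x ∈ G.VR 0 k, G.TF x = 0 → x = 0

/-- The top degree `m + 1`: the prime ideal `P` of the discriminant kills the cokernel in high weights; if it is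
principal the cokernel is at `P` generated by one element. -/
structure Cx.Bad (G : Cx κ Γ V) (m : ℕ) (P : Ideal (MvPolynomial Γ κ)) (k₀ : ℕ) : Prop where
  prime : P.IsPrime
  ne : P ≠ ⊥
  kill : ∀ k, k₀ ≤ k → ∀ r ∈ P, ∀ x ∈ G.Vd (m + 1) (k + 1), r ⊗ₜ[κ] x ∈ (G.VR m k).map G.TF
  gen : ∀ π, P = Ideal.span {π} → ∃ γ₀ : Γ, pderiv γ₀ π ∉ P ∧ ∃ α ∈ G.Vd (m + 1) k₀,
    ∀ k, ∀ x ∈ G.Vd (m + 1) (k₀ + k + 1), ∃ s r : MvPolynomial Γ κ, s ∉ P ∧
      s ⊗ₜ[κ] x - r ⊗ₜ[κ] ((G.mul γ₀)^[k + 1] α) ∈ (G.VR m (k₀ + k)).map G.TF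

end

section

variable {κ : Type u} [Field κ] {Γ : Type} [Fintype Γ] {V : Type u} [AddCommGroup V] [Module κ V]
  {K : Type u} [Field K] [Algebra (MvPolynomial Γ κ) K] {H : Type u} [AddCommGroup H] [Module K H]

/-- The space `H` over `K = Frac R` with the connection `nab`, generated by the classes `c x` of the forms of degree
`m + 1`. -/
structure Con (G : Cx κ Γ V) (m : ℕ) (dK : Γ → Derivation ℤ K K) (nab : Γ → H →+ H) (c : V →+ H) : Prop where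
  dK_alg : ∀ γ r, dK γ (algebraMap (MvPolynomial Γ κ) K r) = algebraMap (MvPolynomial Γ κ) K (pderiv γ r)
  leib : ∀ γ (f : K) x, nab γ (f • x) = dK γ f • x + f • nab γ x
  comm : ∀ γ γ' x, nab γ (nab γ' x) = nab γ' (nab γ x)
  smul : ∀ (a : κ) x, c (a • x) = algebraMap (MvPolynomial Γ κ) K (C a) • c x
  span : ∀ h : H, h ∈ Submodule.span K {y | ∃ k, ∃ x ∈ G.Vd (m + 1) k, c x = y}
  nabc : ∀ γ k, ∀ x ∈ G.Vd (m + 1) k, nab γ (c x) = c (G.mul γ x)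
  rel : ∀ k, ∀ x ∈ G.Vd m k, c (G.d x) + ∑ γ, algebraMap (MvPolynomial Γ κ) K (X γ) • c (G.wd γ x) = 0
  eul : ∀ k, ∀ x ∈ G.Vd (m + 1) k,
    ∑ γ, algebraMap (MvPolynomial Γ κ) K (X γ) • c (G.mul γ x) =
      -(algebraMap (MvPolynomial Γ κ) K (C (G.θ + k)) • c x)

end

end MPadcDC
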