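import Pool.Agent.Lib.MP_adc574_ag_DC.ABase

/-!
# JOB AHull (DC): the hull lemma

Proof. `W := Submodule.span K (E : Set H)` is finite dimensional (span of the finite generating set of `E`). `M ≤ W`: for `x ∈ M` there is `r ≠ 0` with
`r • x ∈ E`, and `r` is invertible in `K`. Choose a `K`-basis `b : Fin d → W`; the coordinates of the generators of `E` have a common denominator `g ≠ 0`
in `R` (`IsLocalization.exist_integer_multiples_of_finset` or `..._of_finite`), so for every `x ∈ E` all coordinates of `g • x` are in the image of `R`.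
Let `x ∈ M` with `r, s` as in the hypothesis, `y = g * (coordinate of x)`: `r y` and `s y` are in the image of `R`. Then `y` is in the image of `R`: write
`y = p / q` in lowest terms (`IsLocalization`/`IsFractionRing`, or: `r y = algebraMap u`, `s y = algebraMap v`, so `u s = v r` in `R`; `IsRelPrime r s` gives
`r ∣ u` (`IsRelPrime.dvd_of_dvd_mul_right` or UniqueFactorizationMonoid / GCD version: `IsRelPrime r s`, `r ∣ u * s` implies `r ∣ u`; in a UFD
`UniqueFactorizationMonoid` gives a `DecompositionMonoid`, `IsRelPrime.dvd_of_dvd_mul_right`), `u = r w`, so `y = algebraMap w`, as `r ≠ 0`).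
So the map `x ↦ coordinates of g • x` embeds `M` (injective, `R`-linear) in `(Fin d → R)`, a noetherian module, so `M` is noetherian and `M.FG`
(`isNoetherian_of_injective`, `Module.Finite.iff_fg`). Do it with the `R`-linear map `M → (Fin d → K)`, `x ↦ g • repr x`, with range in the image of the
`R`-linear injective map `(Fin d → R) → (Fin d → K)`.
-/

set_option autoImplicit false
set_option linter.unusedSectionVars false

namespace MPadcDC

open MvPolynomial TensorProduct

universe u

section gen

variable {R K : Type u} [CommRing R] [IsDomain R] [Field K] [Algebra R K] [IsFractionRing R K]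
  {H : Type u} [AddCommGroup H] [Module K H] [Module R H] [IsScalarTower R K H]

variable (K) in
include K in
/-- The hull lemma; `K` is the field of fractions of `R`, `H` a vector space over `K`. -/
theorem hull [UniqueFactorizationMonoid R] [IsNoetherianRing R] {E M : Submodule R H} (hE : E.FG)
    (h : ∀ x ∈ M, ∃ r s : R, r ≠ 0 ∧ IsRelPrime r s ∧ r • x ∈ E ∧ s • x ∈ E) : M.FG := by
  classical
  obtain ⟨g, hg⟩ := hE
  have hinj : Function.Injective (algebraMap R K) := IsFractionRing.injective R K
  obtain ⟨W, hW⟩ : ∃ W : Submodule K H, W = Submodule.span K (g : Set H) := ⟨_, rfl⟩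
  have hfd : Module.Finite K W := by
    rw [hW]
    exact FiniteDimensional.span_finset K g
  have hEW : ∀ x ∈ E, x ∈ W := by
    intro x hx
    rw [← hg] at hx
    rw [hW]
    exact Submodule.span_subset_span R K _ hx
  have hsm : ∀ (r : R) (x : H), (algebraMap R K r) • x = r • x := fun r x => algebraMap_smul K r x
  have hMW : ∀ x ∈ M, x ∈ W := by
    intro x hx
    obtain ⟨r, s, hr, -, h1, -⟩ := h x hx
    have hr' : algebraMap R K r ≠ 0 := fun h0 => hr (hinj (by rw [h0, map_zero]))
    have h2 : x = (algebraMap R K r)⁻¹ • (r • x) := by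
      rw [← hsm, smul_smul, inv_mul_cancel₀ hr', one_smul]
    rw [h2]
    exact W.smul_mem _ (hEW _ h1)
  obtain ⟨d, b⟩ : ∃ d : ℕ, Nonempty (Module.Basis (Fin d) K W) := ⟨_, ⟨Module.finBasis K W⟩⟩
  obtain ⟨b⟩ := b
  obtain ⟨φ, hφ⟩ := LinearMap.exists_extend (b.equivFun : W →ₗ[K] (Fin d → K))
  have hφW : ∀ x ∈ W, φ x = 0 → x = 0 := by
    intro x hx h0
    have h1 : φ x = b.equivFun ⟨x, hx⟩ := by
      have := LinearMap.congr_fun hφ ⟨x, hx⟩
      exact this
    rw [h1] at h0
    have h2 : (⟨x, hx⟩ : W) = 0 := b.equivFun.injective (by rw [h0, map_zero])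
    exact congrArg Subtype.val h2
  obtain ⟨g₀, hg₀⟩ := IsLocalization.exist_integer_multiples_of_finset (nonZeroDivisors R)
    ((g ×ˢ (Finset.univ : Finset (Fin d))).image fun z => φ z.1 z.2)
  have hg₀0 : (g₀ : R) ≠ 0 := nonZeroDivisors.ne_zero g₀.2
  -- the integral vectors
  let ι : (Fin d → R) →ₗ[R] (Fin d → K) := (Algebra.linearMap R K).compLeft (Fin d)
  have hι : Function.Injective ι := by
    intro x y hxy
    funext i
    exact hinj (congrFun hxy i)
  let ψ : H →ₗ[R] (Fin d → K) := (g₀ : R) • (φ.restrictScalars R)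
  have hψ : ∀ x i, ψ x i = (g₀ : R) • φ x i := fun x i => rfl
  have hEN : ∀ x ∈ E, ψ x ∈ LinearMap.range ι := by
    intro x hx
    have h1 : E ≤ Submodule.comap ψ (LinearMap.range ι) := by
      rw [← hg, Submodule.span_le]
      intro y hy
      have h2 : ∀ i, ∃ w : R, algebraMap R K w = ψ y i := by
        intro i
        have := hg₀ (φ y i) (Finset.mem_image.2 ⟨(y, i), Finset.mem_product.2 ⟨hy, Finset.mem_univ i⟩, rfl⟩)
        obtain ⟨w, hw⟩ := this
        exact ⟨w, by rw [hψ]; exact hw⟩
      choose w hw using h2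
      exact ⟨w, funext fun i => hw i⟩
    exact h1 hx
  have hMN : ∀ x ∈ M, ψ x ∈ LinearMap.range ι := by
    intro x hx
    obtain ⟨r, s, hr, hrs, h1, h2⟩ := h x hx
    obtain ⟨u, hu⟩ := hEN _ h1
    obtain ⟨v, hv⟩ := hEN _ h2
    have hr' : algebraMap R K r ≠ 0 := fun h0 => hr (hinj (by rw [h0, map_zero]))
    have h3 : ∀ i, ∃ w : R, algebraMap R K w = ψ x i := by
      intro i
      have e1 : algebraMap R K (u i) = algebraMap R K r * ψ x i := by
        have e := congrFun hu i
        rw [map_smul, Pi.smul_apply, Algebra.smul_def] at e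
        exact e
      have e2 : algebraMap R K (v i) = algebraMap R K s * ψ x i := by
        have e := congrFun hv i
        rw [map_smul, Pi.smul_apply, Algebra.smul_def] at e
        exact e
      have e3 : u i * s = r * v i := by
        apply hinj
        rw [map_mul, map_mul, e1, e2]
        ring
      have e4 : r ∣ u i := hrs.dvd_of_dvd_mul_right (Dvd.intro _ e3.symm)
      obtain ⟨w, hw⟩ := e4
      refine ⟨w, ?_⟩
      rw [hw, map_mul] at e1
      exact mul_left_cancel₀ hr' e1
    choose w hw using h3
    exact ⟨w, funext fun i => hw i⟩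
  have hnr : IsNoetherian R (LinearMap.range ι) :=
    isNoetherian_of_linearEquiv (LinearEquiv.ofInjective ι hι)
  let θ : M →ₗ[R] LinearMap.range ι := (ψ.comp M.subtype).codRestrict _ fun x => hMN x.1 x.2
  have hθ : Function.Injective θ := by
    rw [← LinearMap.ker_eq_bot, LinearMap.ker_eq_bot']
    intro x hx
    have h1 : ψ x.1 = 0 := congrArg Subtype.val hx
    have h2 : φ x.1 = 0 := by
      funext i
      have h3 : (g₀ : R) • φ x.1 i = 0 := by
        rw [← hψ, h1]
        rfl
      rw [Algebra.smul_def] at h3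
      rcases mul_eq_zero.1 h3 with h4 | h4
      · exact absurd (hinj (by rw [h4, map_zero])) hg₀0
      · exact h4
    exact Subtype.ext (hφW x.1 (hMW x.1 x.2) h2)
  have hn : IsNoetherian R M := isNoetherian_of_injective θ hθ
  exact Module.Finite.iff_fg.1 inferInstance

end gen

end MPadcDC
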