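import Pool.Agent.Lib.MP_adc574_ag_DC.AIrr1

/-!
# JOB AIrr2 (DC): irreducibility, the two cases

In both proofs we may assume `H ≠ 0` (if all `h = 0` then `N = ⊥ = ⊤`), so `P = span {π}`, `π` prime (`principal`). For `s ∉ P`: `¬ π ∣ s`, so `IsRelPrime (π ^ i) s`.
* `irr_sub`: `N' := (N.restrictScalars R) ⊓ MM`, stable under `nab` (`nab_MM`). It is FG by `hull` with `E = EE j`: let `x ∈ N'`, `x ∈ EE (j + i)` for some `i` (`mem_MM`, `EE_mono`): `π ^ i • x ∈ EE j` (`EE_kill_pow`), and there is `s ∉ P` with `s • x ∈ EE j`: induction on `i`: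
  `x ∈ EE (j + i + 1)`, `x ∈ N`: `h (j + i)` gives `s • x ∈ EE (j + i)`, `s • x ∈ N`, by induction `s' • (s • x) ∈ EE j`, `s' * s ∉ P` (prime). So `N' = ⊥` (`sub_zero`). For `n ∈ N`: `EE_spn`: `r • n ∈ EE k₀ ≤ MM`, `r ≠ 0`, `r • n ∈ N`, so `r • n = 0`, `n = 0` (`H` is a `K`-space).
* `irr_quot`: `Q := (MM).map mkQ` in `H ⧸ N.restrictScalars R`. It is FG by `hull` applied in the `K`-space `H ⧸ N` (`Submodule.Quotient.restrictScalarsEquiv : (H ⧸ N.restrictScalars R) ≃ₗ[R] H ⧸ N`; if it is more convenient use the module `H ⧸ N` with the instances `Module R (H ⧸ N)`, `IsScalarTower R K (H ⧸ N)`, and transfer FG by the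
  equivalence), `E = image of EE j`: for `x ∈ EE (j + i)`: `π ^ i • x ∈ EE j`, and there are `s ∉ P`, `n ∈ N` with `s • x - n ∈ EE j`: induction on `i`: `h (j + i) x`: `x - n ∈ lo P (EE (j + i))`: `s • x - s • n ∈ EE (j + i)`; by induction
  applied to `s • x - s • n`: `s' • (s • x - s • n) - n' ∈ EE j`. So `N = ⊤` by `quot_zero`.
-/

set_option autoImplicit false
set_option linter.unusedSectionVars false

namespace MPadcDC

open MvPolynomial TensorProduct

universe u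

section main

variable {κ : Type u} [Field κ] [CharZero κ] {Γ : Type} [Fintype Γ] [DecidableEq Γ] {V : Type u}
  [AddCommGroup V] [Module κ V] {K : Type u} [Field K] [Algebra (MvPolynomial Γ κ) K]
  [IsFractionRing (MvPolynomial Γ κ) K] {H : Type u} [AddCommGroup H] [Module K H]
  [Module (MvPolynomial Γ κ) H] [IsScalarTower (MvPolynomial Γ κ) K H]
  {G : Cx κ Γ V} {m : ℕ} {P : Ideal (MvPolynomial Γ κ)} {k₀ : ℕ} {dK : Γ → Derivation ℤ K K}
  {nab : Γ → H →+ H} {c : V →+ H}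

theorem irr_sub (hG : G.Ok) (hB : G.Bad m P k₀) (hC : Con G m dK nab c) (N : Submodule K H)
    (hst : ∀ γ, ∀ x ∈ N, nab γ x ∈ N) {j : ℕ} (hj : k₀ ≤ j)
    (h : ∀ k, j ≤ k → ∀ x ∈ N, x ∈ EE G m c (k + 1) → x ∈ lo P (EE G m c k)) : N = ⊥ := by

  have hPp := hB.prime
  by_cases hH : ∃ h : H, h ≠ 0
  swap
  · push Not at hH
    rw [eq_bot_iff]
    intro x _
    exact hH x
  obtain ⟨π, hπ, hP⟩ := principal hG hB hC hH
  have hπP : π ∈ P := by
    rw [hP]
    exact Ideal.mem_span_singleton_self π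
  have hrel : ∀ s, s ∉ P → ∀ i, IsRelPrime (π ^ i) s := by
    intro s hs i
    have h1 : IsRelPrime π s := (hπ.irreducible.isRelPrime_iff_not_dvd).2 fun hd =>
      hs (by rw [hP]; exact Ideal.mem_span_singleton.2 hd)
    exact h1.pow_left
  have key : ∀ i, ∀ x ∈ N, x ∈ EE G m c (j + i) → ∃ s, s ∉ P ∧ s • x ∈ EE G m c j := by
    intro i
    induction i with
    | zero =>
      intro x _ hx
      exact ⟨1, (Ideal.ne_top_iff_one P).1 hPp.ne_top, by rw [one_smul]; exact hx⟩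
    | succ i ih =>
      intro x hxN hx
      obtain ⟨s, hs, hsx⟩ := h (j + i) (by omega) x hxN hx
      have hsN : s • x ∈ N := by
        rw [← algebraMap_smul K s x]
        exact N.smul_mem _ hxN
      obtain ⟨s', hs', hsx'⟩ := ih (s • x) hsN hsx
      refine ⟨s' * s, ?_, by rw [mul_smul]; exact hsx'⟩
      exact fun hm => (hPp.mem_or_mem hm).elim hs' hs
  have hfg : (N.restrictScalars (MvPolynomial Γ κ) ⊓ MM G m c).FG := by
    refine hull (K := K) (EE_fg hG hC j) ?_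
    rintro x ⟨hxN, hxM⟩
    obtain ⟨i, hi⟩ := mem_MM hxM
    have hi' : x ∈ EE G m c (j + i) := EE_mono (by omega) hi
    obtain ⟨s, hs, hsx⟩ := key i x hxN hi'
    exact ⟨π ^ i, s, pow_ne_zero i hπ.ne_zero, hrel s hs i, EE_kill_pow hG hB hC hj i hπP hi', hsx⟩
  have h0 := sub_zero hG hC (N.restrictScalars (MvPolynomial Γ κ) ⊓ MM G m c) inf_le_right
    (fun γ x hx => ⟨hst γ x hx.1, nab_MM hG hC γ hx.2⟩) hfg
  rw [eq_bot_iff]
  intro n hn
  obtain ⟨r, hr, hrn⟩ := EE_spn hG hB hC n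
  have h1 : r • n ∈ N.restrictScalars (MvPolynomial Γ κ) ⊓ MM G m c := by
    refine ⟨?_, EE_le_MM _ hrn⟩
    show r • n ∈ N
    rw [← algebraMap_smul K r n]
    exact N.smul_mem _ hn
  rw [h0] at h1
  have h2 : r • n = 0 := h1
  rw [← algebraMap_smul K r n] at h2
  have h3 : algebraMap (MvPolynomial Γ κ) K r ≠ 0 := fun h4 =>
    hr ((IsFractionRing.injective (MvPolynomial Γ κ) K) (by rw [h4, map_zero]))
  exact (smul_eq_zero.1 h2).resolve_left h3

theorem irr_quot (hG : G.Ok) (hB : G.Bad m P k₀) (hC : Con G m dK nab c) (N : Submodule K H)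
    (hst : ∀ γ, ∀ x ∈ N, nab γ x ∈ N) {j : ℕ} (hj : k₀ ≤ j)
    (h : ∀ k, j ≤ k → ∀ x ∈ EE G m c (k + 1), ∃ n ∈ N, x - n ∈ lo P (EE G m c k)) : N = ⊤ := by

  have hPp := hB.prime
  by_cases hH : ∃ h : H, h ≠ 0
  swap
  · push Not at hH
    rw [eq_top_iff]
    intro x _
    rw [hH x]
    exact N.zero_mem
  obtain ⟨π, hπ, hP⟩ := principal hG hB hC hH
  have hπP : π ∈ P := by
    rw [hP]
    exact Ideal.mem_span_singleton_self π
  have hrel : ∀ s, s ∉ P → ∀ i, IsRelPrime (π ^ i) s := by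
    intro s hs i
    have h1 : IsRelPrime π s := (hπ.irreducible.isRelPrime_iff_not_dvd).2 fun hd =>
      hs (by rw [hP]; exact Ideal.mem_span_singleton.2 hd)
    exact h1.pow_left
  have hNs : ∀ (s : MvPolynomial Γ κ) (x : H), x ∈ N → s • x ∈ N := by
    intro s x hx
    rw [← algebraMap_smul K s x]
    exact N.smul_mem _ hx
  have key : ∀ i, ∀ x ∈ EE G m c (j + i), ∃ s, s ∉ P ∧ ∃ n ∈ N, s • x - n ∈ EE G m c j := by
    intro i
    induction i with
    | zero =>
      intro x hx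
      refine ⟨1, (Ideal.ne_top_iff_one P).1 hPp.ne_top, 0, N.zero_mem, ?_⟩
      rw [one_smul, _root_.sub_zero]
      exact hx
    | succ i ih =>
      intro x hx
      obtain ⟨n, hn, s, hs, hsx⟩ := h (j + i) (by omega) x hx
      obtain ⟨s', hs', n', hn', hsx'⟩ := ih (s • (x - n)) hsx
      refine ⟨s' * s, fun hm => (hPp.mem_or_mem hm).elim hs' hs, (s' * s) • n + n',
        N.add_mem (hNs _ _ hn) hn', ?_⟩
      have e1 : (s' * s) • x - ((s' * s) • n + n') = s' • (s • (x - n)) - n' := by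
        rw [smul_smul, smul_sub]
        abel
      rw [e1]
      exact hsx'
  refine quot_zero hG hC N hst ?_
  let e := Submodule.Quotient.restrictScalarsEquiv (MvPolynomial Γ κ) N
  have he0 : ∀ n ∈ N, (N.restrictScalars (MvPolynomial Γ κ)).mkQ n = 0 := fun n hn =>
    (Submodule.Quotient.mk_eq_zero (N.restrictScalars (MvPolynomial Γ κ))).2 hn
  refine Submodule.fg_of_fg_map_injective e.toLinearMap e.injective ?_
  have hE : (((EE G m c j).map ((N.restrictScalars (MvPolynomial Γ κ)).mkQ)).map e.toLinearMap).FG :=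
    ((EE_fg hG hC j).map _).map _
  refine hull (K := K) hE ?_
  rintro y ⟨z, ⟨x, hx, rfl⟩, rfl⟩
  obtain ⟨i, hi⟩ := mem_MM hx
  have hi' : x ∈ EE G m c (j + i) := EE_mono (by omega) hi
  obtain ⟨s, hs, n, hn, hsx⟩ := key i x hi'
  refine ⟨π ^ i, s, pow_ne_zero i hπ.ne_zero, hrel s hs i, ?_, ?_⟩
  · refine ⟨(N.restrictScalars (MvPolynomial Γ κ)).mkQ (π ^ i • x),
      ⟨π ^ i • x, EE_kill_pow hG hB hC hj i hπP hi', rfl⟩, ?_⟩
    rw [map_smul, map_smul]
  · refine ⟨(N.restrictScalars (MvPolynomial Γ κ)).mkQ (s • x - n), ⟨s • x - n, hsx, rfl⟩, ?_⟩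
    rw [map_sub, he0 n hn, _root_.sub_zero, map_smul, map_smul]

end main

end MPadcDC
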