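import Pool.Agent.Lib.MP_adc574_ag_DC.ALat1

/-!
# JOB ALat2 (DC): the bad prime

Let `cR : MvPolynomial Γ κ ⊗[κ] V → H` be the `R`-linear map with `cR (f ⊗ v) = f • c v` (`TensorProduct.AlgebraTensorModule.lift` or `TensorProduct.lift`, balanced because
`c (a • v) = C a • c v`). KEY FACT: for `ω ∈ G.VR m k`: `cR (G.TF ω) ∈ EE k`. Proof: `ω` is a finite sum of `f ⊗ v`, `v ∈ Vd m k` (`Submodule.baseChange` is the span of the `1 ⊗ v`,
`Submodule.baseChange_span` / `Submodule.mem_baseChange`-type lemmas or `Submodule.span_induction` on `(Submodule.baseChange ..)` unfolded), `G.TF (f ⊗ v) = ∑ γ, (X γ * f) ⊗ G.wd γ v`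
(`LinearMap.baseChange_tmul`), so `cR (G.TF (f ⊗ v)) = f • ∑ γ, X γ • c (G.wd γ v) = - f • c (G.d v)` by `hC.rel`, and `G.d v ∈ Vd (m + 1) k` (`hG.d_mem`).
* `EE_kill`: on generators `c x`, `x ∈ Vd (m + 1) j`, `j ≤ k + 1`: if `j ≤ k` clear; if `j = k + 1`: `hB.kill k hk r hr x`, apply `cR` and the key fact. Extend by span induction.
* `EE_kill_pow`: induction on `i` (`EE (k + (i + 1))`, `r • x ∈ EE (k + i)`, then `r ^ i • (r • x) ∈ EE k`).
* `EE_spn`: `hC.span h`, span induction over `K`: for `h = c x`: `x ∈ Vd (m + 1) j`, choose `0 ≠ r ∈ P` (`hB.ne`, `Submodule.ne_bot_iff`), if `j ≤ k₀` clear (`r = 1`), else `r ^ (j - k₀) • c x ∈ EE k₀`;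
  sums: product of the two; `f • h`, `f ∈ K`: `f = algebraMap u / algebraMap v`, take `v * r`: `(v * r) • (f • h) = u • (r • h)`.
* `H_fin`: `H` is the `K`-span of `EE k₀` (by `EE_spn`), which is finitely generated over `R` (`EE_fg`): the `K`-span of a finite set is `⊤`.
* `EE_gen`: predicate on `x ∈ EE (k₀ + k + 1)`; generators: `c x`, `x ∈ Vd (m + 1) j`: `j ≤ k₀ + k`: `s = 1`, `r = 0`; `j = k₀ + k + 1`: `hgen x`, apply `cR` and the key fact
  (`cR (s ⊗ x - r ⊗ y) = s • c x - r • c y`). Sums: `s = s₁ s₂`, `r = s₂ r₁ + s₁ r₂` (`P` prime: `s₁ s₂ ∉ P`). Scalar `f`: `s`, `f r`.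
-/

set_option autoImplicit false
set_option linter.unusedSectionVars false

namespace MPadcDC

open MvPolynomial TensorProduct

universe u

section main

variable {κ : Type u} [Field κ] [CharZero κ] {Γ : Type} [Fintype Γ] [DecidableEq Γ] {V : Type u}
  [AddCommGroup V] [Module κ V] {K : Type u} [Field K] [Algebra (MvPolynomial Γ κ) K]
  [IsFractionRing (MvPolynomial Γ κ) K] {H : Type u} [AddCommGroup H] [Module K H]
  [Module (MvPolynomial Γ κ) H] [IsScalarTower (MvPolynomial Γ κ) K H]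
  {G : Cx κ Γ V} {m : ℕ} {P : Ideal (MvPolynomial Γ κ)} {k₀ : ℕ} {dK : Γ → Derivation ℤ K K}
  {nab : Γ → H →+ H} {c : V →+ H}

/-- The `R`-linear extension of `c`. -/
private theorem ALat2_cR (hC : Con G m dK nab c) :
    ∃ cR : MvPolynomial Γ κ ⊗[κ] V →ₗ[MvPolynomial Γ κ] H, ∀ r x, cR (r ⊗ₜ[κ] x) = r • c x := by
  let f : MvPolynomial Γ κ →+ V →+ H :=
    { toFun := fun r =>
        { toFun := fun x => r • c x
          map_zero' := by rw [map_zero, smul_zero]
          map_add' := fun x y => by rw [map_add, smul_add] }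
      map_zero' := AddMonoidHom.ext fun x => zero_smul _ _
      map_add' := fun r r' => AddMonoidHom.ext fun x => add_smul _ _ _ }
  have hf : ∀ r x, f r x = r • c x := fun r x => rfl
  have hc : ∀ (a : κ) x, c (a • x) = (C a : MvPolynomial Γ κ) • c x := by
    intro a x
    rw [hC.smul, algebraMap_smul]
  let g : MvPolynomial Γ κ ⊗[κ] V →+ H := TensorProduct.liftAddHom f (by
    intro a r x
    rw [hf, hf, hc, ← mul_smul, mul_comm, ← smul_eq_C_mul])
  have hg : ∀ r x, g (r ⊗ₜ[κ] x) = r • c x := fun r x => rfl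
  refine ⟨{ toFun := g, map_add' := g.map_add, map_smul' := ?_ }, hg⟩
  intro r ω
  rw [RingHom.id_apply]
  induction ω using TensorProduct.induction_on with
  | zero => rw [smul_zero, map_zero, smul_zero]
  | tmul s x => rw [TensorProduct.smul_tmul', hg, hg, smul_eq_mul, mul_smul]
  | add ω ω' h h' => rw [smul_add, map_add, map_add, h, h', smul_add]

/-- The key fact. -/
private theorem ALat2_key (hG : G.Ok) (hC : Con G m dK nab c)
    {cR : MvPolynomial Γ κ ⊗[κ] V →ₗ[MvPolynomial Γ κ] H} (hcR : ∀ r x, cR (r ⊗ₜ[κ] x) = r • c x)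
    {k : ℕ} {ω : MvPolynomial Γ κ ⊗[κ] V} (hω : ω ∈ G.VR m k) : cR (G.TF ω) ∈ EE G m c k := by
  have h0 : ∀ ω ∈ Submodule.span (MvPolynomial Γ κ)
      ((G.Vd m k).map (TensorProduct.mk κ (MvPolynomial Γ κ) V 1) :
        Set (MvPolynomial Γ κ ⊗[κ] V)), cR (G.TF ω) ∈ EE G m c k := by
    intro ω hω
    induction hω using Submodule.span_induction with
    | mem ω h =>
      obtain ⟨x, hx, rfl⟩ := h
      have h1 : cR (G.TF ((1 : MvPolynomial Γ κ) ⊗ₜ[κ] x)) = -c (G.d x) := by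
        have h2 := hC.rel k x hx
        rw [eq_neg_iff_add_eq_zero, add_comm, ← h2]
        refine congrArg (c (G.d x) + ·) ?_
        unfold Cx.TF
        rw [LinearMap.sum_apply, map_sum]
        refine Finset.sum_congr rfl fun γ _ => ?_
        rw [LinearMap.smul_apply, LinearMap.baseChange_tmul, map_smul, hcR, one_smul,
          algebraMap_smul]
      show cR (G.TF ((1 : MvPolynomial Γ κ) ⊗ₜ[κ] x)) ∈ _
      rw [h1]
      exact Submodule.neg_mem _ (Submodule.subset_span ⟨k, le_rfl, _, hG.d_mem m k x hx, rfl⟩)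
    | zero =>
      rw [map_zero, map_zero]
      exact Submodule.zero_mem _
    | add x y _ _ hx hy =>
      rw [map_add, map_add]
      exact Submodule.add_mem _ hx hy
    | smul r x _ hx =>
      rw [map_smul, map_smul]
      exact Submodule.smul_mem _ _ hx
  unfold Cx.VR at hω
  rw [Submodule.baseChange_eq_span] at hω
  exact h0 ω hω

theorem EE_kill (hG : G.Ok) (hB : G.Bad m P k₀) (hC : Con G m dK nab c) {k : ℕ} (hk : k₀ ≤ k)
    {r : MvPolynomial Γ κ} (hr : r ∈ P) {x : H} (hx : x ∈ EE G m c (k + 1)) : r • x ∈ EE G m c k := by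
  obtain ⟨cR, hcR⟩ := ALat2_cR hC
  unfold EE at hx
  induction hx using Submodule.span_induction with
  | mem y h =>
    obtain ⟨j, hj, x, hx, rfl⟩ := h
    rcases Nat.lt_or_ge k j with h1 | h1
    · have h2 : j = k + 1 := by omega
      subst h2
      obtain ⟨ω, hω, h3⟩ := hB.kill k hk r hr x hx
      rw [← hcR, ← h3]
      exact ALat2_key hG hC hcR hω
    · exact Submodule.smul_mem _ _ (Submodule.subset_span ⟨j, h1, x, hx, rfl⟩)
  | zero =>
    rw [smul_zero]
    exact Submodule.zero_mem _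
  | add x y _ _ h h' =>
    rw [smul_add]
    exact Submodule.add_mem _ h h'
  | smul s x _ h =>
    rw [smul_comm]
    exact Submodule.smul_mem _ _ h

theorem EE_kill_pow (hG : G.Ok) (hB : G.Bad m P k₀) (hC : Con G m dK nab c) {k : ℕ} (hk : k₀ ≤ k) (i : ℕ)
    {r : MvPolynomial Γ κ} (hr : r ∈ P) {x : H} (hx : x ∈ EE G m c (k + i)) : r ^ i • x ∈ EE G m c k := by
  induction i generalizing x with
  | zero =>
    rw [pow_zero, one_smul]
    exact hx
  | succ i ih =>
    rw [pow_succ, mul_smul]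
    exact ih (EE_kill hG hB hC (le_trans hk (Nat.le_add_right k i)) hr hx)

theorem EE_spn (hG : G.Ok) (hB : G.Bad m P k₀) (hC : Con G m dK nab c) (h : H) :
    ∃ r : MvPolynomial Γ κ, r ≠ 0 ∧ r • h ∈ EE G m c k₀ := by
  obtain ⟨r₀, hr₀, hr₀'⟩ := (Submodule.ne_bot_iff _).1 hB.ne
  have h0 := hC.span h
  induction h0 using Submodule.span_induction with
  | mem y h =>
    obtain ⟨j, x, hx, rfl⟩ := h
    refine ⟨r₀ ^ j, pow_ne_zero _ hr₀', EE_kill_pow hG hB hC le_rfl j hr₀ ?_⟩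
    exact Submodule.subset_span ⟨j, Nat.le_add_left j k₀, x, hx, rfl⟩
  | zero =>
    refine ⟨1, one_ne_zero, ?_⟩
    rw [smul_zero]
    exact Submodule.zero_mem _
  | add x y _ _ h h' =>
    obtain ⟨r, hr, h1⟩ := h
    obtain ⟨r', hr', h2⟩ := h'
    refine ⟨r * r', mul_ne_zero hr hr', ?_⟩
    rw [smul_add, mul_smul r r' y, mul_comm r r', mul_smul r' r x]
    exact Submodule.add_mem _ (Submodule.smul_mem _ _ h1) (Submodule.smul_mem _ _ h2)
  | smul f x _ h =>
    obtain ⟨r, hr, h1⟩ := h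
    obtain ⟨u, v, hv, rfl⟩ := IsFractionRing.div_surjective (A := MvPolynomial Γ κ) f
    have hv0 : v ≠ 0 := nonZeroDivisors.ne_zero hv
    have hv1 : algebraMap (MvPolynomial Γ κ) K v ≠ 0 := fun h2 =>
      hv0 ((map_eq_zero_iff _ (IsFractionRing.injective (MvPolynomial Γ κ) K)).1 h2)
    refine ⟨v * r, mul_ne_zero hv0 hr, ?_⟩
    have h2 : (v * r) • ((algebraMap (MvPolynomial Γ κ) K u / algebraMap (MvPolynomial Γ κ) K v) • x) =
        u • (r • x) := by
      rw [← algebraMap_smul K (v * r), ← algebraMap_smul K u, ← algebraMap_smul K r, smul_smul,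
        smul_smul, map_mul]
      refine congrArg (· • x) ?_
      field_simp
    rw [h2]
    exact Submodule.smul_mem _ _ h1

theorem H_fin (hG : G.Ok) (hB : G.Bad m P k₀) (hC : Con G m dK nab c) : Module.Finite K H := by
  obtain ⟨S, hS⟩ := EE_fg (k := k₀) hG hC
  refine ⟨⟨S, ?_⟩⟩
  rw [eq_top_iff]
  intro h _
  obtain ⟨r, hr, h1⟩ := EE_spn hG hB hC h
  rw [← hS] at h1
  have h2 : r • h ∈ Submodule.span K (S : Set H) :=
    Submodule.span_le_restrictScalars (MvPolynomial Γ κ) K (S : Set H) h1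
  have hr1 : algebraMap (MvPolynomial Γ κ) K r ≠ 0 := fun h3 =>
    hr ((map_eq_zero_iff _ (IsFractionRing.injective (MvPolynomial Γ κ) K)).1 h3)
  have h3 : h = (algebraMap (MvPolynomial Γ κ) K r)⁻¹ • (r • h) := by
    rw [← algebraMap_smul K r, smul_smul, inv_mul_cancel₀ hr1, one_smul]
  rw [h3]
  exact Submodule.smul_mem _ _ h2

/-- The generator at the bad prime. -/
theorem EE_gen (hG : G.Ok) (hC : Con G m dK nab c) {γ₀ : Γ} {α : V} {k₀ k : ℕ}
    (hgen : ∀ x ∈ G.Vd (m + 1) (k₀ + k + 1), ∃ s r : MvPolynomial Γ κ, s ∉ P ∧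
      s ⊗ₜ[κ] x - r ⊗ₜ[κ] ((G.mul γ₀)^[k + 1] α) ∈ (G.VR m (k₀ + k)).map G.TF)
    (hP : P.IsPrime) {x : H} (hx : x ∈ EE G m c (k₀ + k + 1)) :
    ∃ s r : MvPolynomial Γ κ, s ∉ P ∧ s • x - r • c ((G.mul γ₀)^[k + 1] α) ∈ EE G m c (k₀ + k) := by
  obtain ⟨cR, hcR⟩ := ALat2_cR hC
  have h1P : (1 : MvPolynomial Γ κ) ∉ P := (Ideal.ne_top_iff_one P).1 hP.ne_top
  unfold EE at hx
  induction hx using Submodule.span_induction with
  | mem y h =>
    obtain ⟨j, hj, x, hx, rfl⟩ := h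
    rcases Nat.lt_or_ge (k₀ + k) j with h1 | h1
    · have h2 : j = k₀ + k + 1 := by omega
      subst h2
      obtain ⟨s, r, hs, ω, hω, h3⟩ := hgen x hx
      refine ⟨s, r, hs, ?_⟩
      rw [← hcR, ← hcR, ← map_sub, ← h3]
      exact ALat2_key hG hC hcR hω
    · refine ⟨1, 0, h1P, ?_⟩
      rw [one_smul, zero_smul, sub_zero]
      exact Submodule.subset_span ⟨j, h1, x, hx, rfl⟩
  | zero =>
    refine ⟨1, 0, h1P, ?_⟩
    rw [smul_zero, zero_smul, sub_zero]
    exact Submodule.zero_mem _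
  | add x y _ _ h h' =>
    obtain ⟨s, r, hs, h1⟩ := h
    obtain ⟨s', r', hs', h2⟩ := h'
    refine ⟨s * s', s' * r + s * r', fun h3 => ?_, ?_⟩
    · rcases hP.mem_or_mem h3 with h4 | h4
      · exact hs h4
      · exact hs' h4
    · have h3 := Submodule.add_mem _ (Submodule.smul_mem _ s' h1) (Submodule.smul_mem _ s h2)
      have h4 : (s * s') • (x + y) - (s' * r + s * r') • c ((G.mul γ₀)^[k + 1] α) =
          s' • (s • x - r • c ((G.mul γ₀)^[k + 1] α)) +
            s • (s' • y - r' • c ((G.mul γ₀)^[k + 1] α)) := by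
        module
      rw [h4]
      exact h3
  | smul f x _ h =>
    obtain ⟨s, r, hs, h1⟩ := h
    refine ⟨s, f * r, hs, ?_⟩
    have h2 : s • (f • x) - (f * r) • c ((G.mul γ₀)^[k + 1] α) =
        f • (s • x - r • c ((G.mul γ₀)^[k + 1] α)) := by
      module
    rw [h2]
    exact Submodule.smul_mem _ _ h1

/-- The iterated derivative of a class. -/
theorem nab_iter (hG : G.Ok) (hC : Con G m dK nab c) (γ₀ : Γ) {α : V} {j : ℕ} (hα : α ∈ G.Vd (m + 1) j) (k : ℕ) :
    (nab γ₀)^[k] (c α) = c ((G.mul γ₀)^[k] α) := by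
  have h1 : ∀ k, (G.mul γ₀)^[k] α ∈ G.Vd (m + 1) (j + k) := by
    intro k
    induction k with
    | zero => exact hα
    | succ k ih =>
      rw [Function.iterate_succ_apply']
      exact hG.mul_mem γ₀ (m + 1) (j + k) _ ih
  induction k with
  | zero => rfl
  | succ k ih =>
    rw [Function.iterate_succ_apply', Function.iterate_succ_apply', ih]
    exact hC.nabc γ₀ (j + k) _ (h1 k)

end main

end MPadcDC
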