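import Pool.Agent.Lib.MP_adc574_ag_DC.ABase

/-!
# JOB ALow (DC): modules with an Euler operator

`Eu y := ∑ γ, X γ • dl γ y` (additive). Rules: `Eu (r • y) = (∑ γ, X γ * pderiv γ r) • y + r • Eu y`; for `a : κ`: `dl γ (C a • y) = C a • dl γ y` (`pderiv_C`),
`Eu (C a • y) = C a • Eu y`; `Eu (X γ • y) = X γ • y + X γ • Eu y`. Call `y` of weight `z : ℤ` if `Eu y = C (z - θ) • y` (these form an additive subgroup `W z`).
* `low`. (a) `X γ • W z ⊆ W (z + 1)`, `C a • W z ⊆ W z`, `dl γ (W z) ⊆ W (z - 1)`: `Eu (dl γ y) = ∑ X γ' • dl γ' (dl γ y) = ∑ X γ' • dl γ (dl γ' y) = dl γ (Eu y) - dl γ y`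
  (Leibniz: `dl γ (X γ' • u) = (if γ = γ' then u else 0) + X γ' • dl γ u`). (b) the `W z` are independent: if `∑_{z ∈ s} y_z = 0` (finite set `s`), `y_z ∈ W z`, then all `y_z = 0`
  (induction on `s`: apply `Eu - C (z₀ - θ)`: the coefficients `z - z₀` are invertible in `κ`, `CharZero`). (c) every element is a finite sum of weight elements (`heig`,
  `AddSubgroup.closure_induction`); so `M` is generated over `R` by finitely many weight elements `y_1 .. y_N` (replace the generators by their components), of weights `≥ z₀`. Then every element is a finite sum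
  of weight elements of weights `≥ z₀` (the monomials `C a * ∏ X` raise the weight), so by independence `W z = 0` for `z < z₀`: an `y ∈ W z`, `z < z₀`, is a sum of elements of weights `≥ z₀`.
  (d) suppose `W z ≠ 0` for some `z`; take the smallest such `z` (bounded below by `z₀`; `Int` well-founded induction: show by induction on `n : ℕ` that `W (z₀ + n) = 0`, and also `W z = 0` for `z < z₀`). For `y ∈ W z`, all smaller ones `0`:
  `dl γ y ∈ W (z - 1) = 0`, so `Eu y = 0 = C (z - θ) • y`, and `z - θ ≠ 0` by `hθ`, so `y = 0` (multiply with `C (z - θ)⁻¹`). So all `W z = 0` and `M = 0`.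
* `eig_sub`. `x = ∑_{z ∈ s} y_z` with `y_z ∈ W z` (closure induction; group equal weights). Show by induction on the number of elements of `s`: if `x ∈ N` then all `y_z ∈ N`: `Eu` preserves `N`; for `z₀ ∈ s`:
  `Eu x - C (z₀ - θ) • x = ∑_{z ≠ z₀} C (z - z₀) • y_z ∈ N`, so by induction `C (z - z₀) • y_z ∈ N`, hence `y_z ∈ N` for `z ≠ z₀`, and then `y_{z₀} = x - ∑ ∈ N`. So `x` is in the closure of the weight elements of `N`.
-/

set_option autoImplicit false
set_option linter.unusedSectionVars false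

namespace MPadcDC

open MvPolynomial TensorProduct

universe u

section low

variable {κ : Type u} [Field κ] [CharZero κ] {Γ : Type} [Fintype Γ] [DecidableEq Γ]

section aux

variable {M : Type u} [AddCommGroup M] [Module (MvPolynomial Γ κ) M]

/-- The Euler operator. -/
private noncomputable def ALow_Eu (dl : Γ → M →+ M) (y : M) : M := ∑ γ, (X γ : MvPolynomial Γ κ) • dl γ y

private theorem ALow_Eu_zero (dl : Γ → M →+ M) : ALow_Eu (κ := κ) dl (0 : M) = 0 := by
  unfold ALow_Eu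
  simp

private theorem ALow_Eu_add (dl : Γ → M →+ M) (x y : M) :
    ALow_Eu (κ := κ) dl (x + y) = ALow_Eu (κ := κ) dl x + ALow_Eu (κ := κ) dl y := by
  unfold ALow_Eu
  simp only [map_add, smul_add, Finset.sum_add_distrib]

private theorem ALow_Eu_neg (dl : Γ → M →+ M) (x : M) :
    ALow_Eu (κ := κ) dl (-x) = -ALow_Eu (κ := κ) dl x := by
  unfold ALow_Eu
  simp only [map_neg, smul_neg, Finset.sum_neg_distrib]

private theorem ALow_Eu_sum {ι : Type*} (dl : Γ → M →+ M) (s : Finset ι) (f : ι → M) :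
    ALow_Eu (κ := κ) dl (∑ i ∈ s, f i) = ∑ i ∈ s, ALow_Eu (κ := κ) dl (f i) := by
  classical
  induction s using Finset.induction with
  | empty => simp [ALow_Eu_zero]
  | insert a s ha ih => rw [Finset.sum_insert ha, Finset.sum_insert ha, ALow_Eu_add, ih]

private theorem ALow_dl_C (dl : Γ → M →+ M)
    (hleib : ∀ γ (r : MvPolynomial Γ κ) x, dl γ (r • x) = pderiv γ r • x + r • dl γ x) (γ : Γ) (a : κ)
    (y : M) : dl γ ((C a : MvPolynomial Γ κ) • y) = (C a : MvPolynomial Γ κ) • dl γ y := by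
  rw [hleib, pderiv_C, zero_smul, zero_add]

private theorem ALow_Eu_C (dl : Γ → M →+ M)
    (hleib : ∀ γ (r : MvPolynomial Γ κ) x, dl γ (r • x) = pderiv γ r • x + r • dl γ x) (a : κ) (y : M) :
    ALow_Eu (κ := κ) dl ((C a : MvPolynomial Γ κ) • y) =
      (C a : MvPolynomial Γ κ) • ALow_Eu (κ := κ) dl y := by
  unfold ALow_Eu
  rw [Finset.smul_sum]
  refine Finset.sum_congr rfl fun γ _ => ?_
  rw [ALow_dl_C dl hleib, smul_smul, smul_smul, mul_comm]

private theorem ALow_Eu_X (dl : Γ → M →+ M)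
    (hleib : ∀ γ (r : MvPolynomial Γ κ) x, dl γ (r • x) = pderiv γ r • x + r • dl γ x) (γ : Γ) (y : M) :
    ALow_Eu (κ := κ) dl ((X γ : MvPolynomial Γ κ) • y) =
      (X γ : MvPolynomial Γ κ) • y + (X γ : MvPolynomial Γ κ) • ALow_Eu (κ := κ) dl y := by
  unfold ALow_Eu
  have h1 : ∀ γ' : Γ, (X γ' : MvPolynomial Γ κ) • dl γ' ((X γ : MvPolynomial Γ κ) • y) =
      (if γ' = γ then (X γ : MvPolynomial Γ κ) • y else 0) +
        (X γ : MvPolynomial Γ κ) • ((X γ' : MvPolynomial Γ κ) • dl γ' y) := by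
    intro γ'
    rw [hleib, smul_add, smul_smul, smul_smul, smul_smul, mul_comm (X γ' : MvPolynomial Γ κ) (X γ)]
    congr 1
    split_ifs with h
    · subst h
      rw [pderiv_X_self, mul_one]
    · rw [pderiv_X_of_ne (Ne.symm h), mul_zero, zero_smul]
  rw [Finset.sum_congr rfl fun γ' _ => h1 γ', Finset.sum_add_distrib, Finset.sum_ite_eq' Finset.univ γ,
    if_pos (Finset.mem_univ γ), ← Finset.smul_sum]

private theorem ALow_Eu_dl (dl : Γ → M →+ M)
    (hleib : ∀ γ (r : MvPolynomial Γ κ) x, dl γ (r • x) = pderiv γ r • x + r • dl γ x)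
    (hcomm : ∀ γ γ' x, dl γ (dl γ' x) = dl γ' (dl γ x)) (γ : Γ) (y : M) :
    dl γ (ALow_Eu (κ := κ) dl y) = dl γ y + ALow_Eu (κ := κ) dl (dl γ y) := by
  unfold ALow_Eu
  rw [map_sum]
  have h1 : ∀ γ' : Γ, dl γ ((X γ' : MvPolynomial Γ κ) • dl γ' y) =
      (if γ' = γ then dl γ y else 0) + (X γ' : MvPolynomial Γ κ) • dl γ' (dl γ y) := by
    intro γ'
    rw [hleib, hcomm γ γ' y]
    congr 1
    split_ifs with h
    · subst h
      rw [pderiv_X_self, one_smul]
    · rw [pderiv_X_of_ne h, zero_smul]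
  rw [Finset.sum_congr rfl fun γ' _ => h1 γ', Finset.sum_add_distrib, Finset.sum_ite_eq' Finset.univ γ,
    if_pos (Finset.mem_univ γ)]

/-- Elements of weight `z`. -/
private def ALow_W (dl : Γ → M →+ M) (θ : κ) (z : ℤ) (y : M) : Prop :=
  ALow_Eu (κ := κ) dl y = (C ((z : κ) - θ) : MvPolynomial Γ κ) • y

private theorem ALow_W_zero (dl : Γ → M →+ M) (θ : κ) (z : ℤ) : ALow_W dl θ z (0 : M) := by
  unfold ALow_W
  rw [ALow_Eu_zero, smul_zero]

private theorem ALow_W_add (dl : Γ → M →+ M) (θ : κ) (z : ℤ) {x y : M} (hx : ALow_W dl θ z x)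
    (hy : ALow_W dl θ z y) : ALow_W dl θ z (x + y) := by
  unfold ALow_W at *
  rw [ALow_Eu_add, hx, hy, smul_add]

private theorem ALow_W_neg (dl : Γ → M →+ M) (θ : κ) (z : ℤ) {x : M} (hx : ALow_W dl θ z x) :
    ALow_W dl θ z (-x) := by
  unfold ALow_W at *
  rw [ALow_Eu_neg, hx, smul_neg]

private theorem ALow_W_C (dl : Γ → M →+ M)
    (hleib : ∀ γ (r : MvPolynomial Γ κ) x, dl γ (r • x) = pderiv γ r • x + r • dl γ x) (θ : κ) (z : ℤ)
    (a : κ) {x : M} (hx : ALow_W dl θ z x) : ALow_W dl θ z ((C a : MvPolynomial Γ κ) • x) := by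
  unfold ALow_W at *
  rw [ALow_Eu_C dl hleib, hx, smul_smul, smul_smul, mul_comm]

private theorem ALow_W_X (dl : Γ → M →+ M)
    (hleib : ∀ γ (r : MvPolynomial Γ κ) x, dl γ (r • x) = pderiv γ r • x + r • dl γ x) (θ : κ) (z : ℤ)
    (γ : Γ) {x : M} (hx : ALow_W dl θ z x) : ALow_W dl θ (z + 1) ((X γ : MvPolynomial Γ κ) • x) := by
  unfold ALow_W at *
  rw [ALow_Eu_X dl hleib, hx]
  have h1 : (((z + 1 : ℤ) : κ) - θ) = 1 + ((z : κ) - θ) := by
    push_cast
    ring
  rw [h1, C_add, C_1, add_smul, one_smul, smul_smul, smul_smul, mul_comm]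

private theorem ALow_W_dl (dl : Γ → M →+ M)
    (hleib : ∀ γ (r : MvPolynomial Γ κ) x, dl γ (r • x) = pderiv γ r • x + r • dl γ x)
    (hcomm : ∀ γ γ' x, dl γ (dl γ' x) = dl γ' (dl γ x)) (θ : κ) (z : ℤ) (γ : Γ) {x : M}
    (hx : ALow_W dl θ z x) : ALow_W dl θ (z - 1) (dl γ x) := by
  unfold ALow_W at *
  have h1 := ALow_Eu_dl dl hleib hcomm γ x
  rw [hx, ALow_dl_C dl hleib] at h1
  have h2 : ALow_Eu (κ := κ) dl (dl γ x) =
      (C ((z : κ) - θ) : MvPolynomial Γ κ) • dl γ x - dl γ x := by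
    rw [h1]
    abel
  rw [h2]
  have h3 : (((z - 1 : ℤ) : κ) - θ) = ((z : κ) - θ) - 1 := by
    push_cast
    ring
  have h4 : (C (((z : κ) - θ) - 1) : MvPolynomial Γ κ) = C ((z : κ) - θ) - 1 :=
    (map_sub (C : κ →+* MvPolynomial Γ κ) ((z : κ) - θ) 1).trans (by rw [C_1])
  rw [h3, h4, sub_smul, one_smul]

/-- The components are in a stable submodule. -/
private theorem ALow_comp (dl : Γ → M →+ M)
    (hleib : ∀ γ (r : MvPolynomial Γ κ) x, dl γ (r • x) = pderiv γ r • x + r • dl γ x) (θ : κ)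
    (N : Submodule (MvPolynomial Γ κ) M) (hN : ∀ x ∈ N, ALow_Eu (κ := κ) dl x ∈ N) (s : Finset ℤ) :
    ∀ y : ℤ → M, (∀ z ∈ s, ALow_W dl θ z (y z)) → ∑ z ∈ s, y z ∈ N → ∀ z ∈ s, y z ∈ N := by
  classical
  induction s using Finset.induction with
  | empty =>
    intro y _ _ z hz
    exact absurd hz (Finset.notMem_empty z)
  | insert z₀ s hz₀ ih =>
    intro y hy hsum
    have h1 : ∑ z ∈ s, (C ((z : κ) - (z₀ : κ)) : MvPolynomial Γ κ) • y z ∈ N := by
      have h2 : ALow_Eu (κ := κ) dl (∑ z ∈ insert z₀ s, y z) -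
          (C ((z₀ : κ) - θ) : MvPolynomial Γ κ) • ∑ z ∈ insert z₀ s, y z =
          ∑ z ∈ s, (C ((z : κ) - (z₀ : κ)) : MvPolynomial Γ κ) • y z := by
        rw [ALow_Eu_sum, Finset.smul_sum, ← Finset.sum_sub_distrib, Finset.sum_insert hz₀]
        have h3 : ALow_Eu (κ := κ) dl (y z₀) - (C ((z₀ : κ) - θ) : MvPolynomial Γ κ) • y z₀ = 0 := by
          rw [hy z₀ (Finset.mem_insert_self _ _), sub_self]
        rw [h3, zero_add]
        refine Finset.sum_congr rfl fun z hz => ?_
        rw [hy z (Finset.mem_insert_of_mem hz), ← sub_smul, ← C_sub]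
        have h4 : (z : κ) - θ - ((z₀ : κ) - θ) = (z : κ) - (z₀ : κ) := by ring
        rw [h4]
      rw [← h2]
      exact N.sub_mem (hN _ hsum) (N.smul_mem _ hsum)
    have h2 := ih (fun z => (C ((z : κ) - (z₀ : κ)) : MvPolynomial Γ κ) • y z)
      (fun z hz => ALow_W_C dl hleib θ z _ (hy z (Finset.mem_insert_of_mem hz))) h1
    have h3 : ∀ z ∈ s, y z ∈ N := by
      intro z hz
      have h4 : (z : κ) - (z₀ : κ) ≠ 0 := by
        rw [sub_ne_zero]
        intro h5
        have h6 : z = z₀ := by exact_mod_cast h5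
        exact hz₀ (h6 ▸ hz)
      have h5 := N.smul_mem (C ((z : κ) - (z₀ : κ))⁻¹ : MvPolynomial Γ κ) (h2 z hz)
      rw [smul_smul, ← C_mul, inv_mul_cancel₀ h4, C_1, one_smul] at h5
      exact h5
    intro z hz
    rcases Finset.mem_insert.1 hz with rfl | hz
    · rw [Finset.sum_insert hz₀] at hsum
      have h4 := N.sub_mem hsum (N.sum_mem h3)
      rw [add_sub_cancel_right] at h4
      exact h4
    · exact h3 z hz

/-- Decomposition of the elements of the closure. -/
private theorem ALow_dec (dl : Γ → M →+ M) (θ : κ) (p : ℤ → Prop) {x : M}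
    (hx : x ∈ AddSubgroup.closure {y : M | ∃ z : ℤ, p z ∧ ALow_W dl θ z y}) :
    ∃ f : ℤ →₀ M, (∀ z, ALow_W dl θ z (f z)) ∧ (∀ z, ¬ p z → f z = 0) ∧
      f.sum (fun _ m => m) = x := by
  classical
  induction hx using AddSubgroup.closure_induction with
  | mem y hy =>
    obtain ⟨z, hz, hy⟩ := hy
    refine ⟨Finsupp.single z y, fun z' => ?_, fun z' hz' => ?_, ?_⟩
    · rw [Finsupp.single_apply]
      split_ifs with h
      · subst h
        exact hy
      · exact ALow_W_zero dl θ z'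
    · rw [Finsupp.single_apply, if_neg]
      rintro rfl
      exact hz' hz
    · exact Finsupp.sum_single_index rfl
  | zero => exact ⟨0, fun z => ALow_W_zero dl θ z, fun _ _ => rfl, Finsupp.sum_zero_index⟩
  | add x y _ _ hx hy =>
    obtain ⟨f, f1, f2, f3⟩ := hx
    obtain ⟨g, g1, g2, g3⟩ := hy
    refine ⟨f + g, fun z => ALow_W_add dl θ z (f1 z) (g1 z), fun z hz => ?_, ?_⟩
    · rw [Finsupp.add_apply, f2 z hz, g2 z hz, add_zero]
    · rw [Finsupp.sum_add_index' (fun _ => rfl) (fun _ _ _ => rfl), f3, g3]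
  | neg x _ hx =>
    obtain ⟨f, f1, f2, f3⟩ := hx
    refine ⟨-f, fun z => ALow_W_neg dl θ z (f1 z), fun z hz => ?_, ?_⟩
    · rw [Finsupp.neg_apply, f2 z hz, neg_zero]
    · rw [Finsupp.sum_neg_index (fun _ => rfl), ← f3]
      unfold Finsupp.sum
      rw [Finset.sum_neg_distrib]

/-- The elements of weights at least `z₀` form a submodule. -/
private theorem ALow_smul (dl : Γ → M →+ M)
    (hleib : ∀ γ (r : MvPolynomial Γ κ) x, dl γ (r • x) = pderiv γ r • x + r • dl γ x) (θ : κ) (z₀ : ℤ)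
    (r : MvPolynomial Γ κ) {x : M}
    (hx : x ∈ AddSubgroup.closure {y : M | ∃ z : ℤ, z₀ ≤ z ∧ ALow_W dl θ z y}) :
    r • x ∈ AddSubgroup.closure {y : M | ∃ z : ℤ, z₀ ≤ z ∧ ALow_W dl θ z y} := by
  induction r using MvPolynomial.induction_on generalizing x with
  | C a =>
    induction hx using AddSubgroup.closure_induction with
    | mem y hy =>
      obtain ⟨z, hz, hy⟩ := hy
      exact AddSubgroup.subset_closure ⟨z, hz, ALow_W_C dl hleib θ z a hy⟩
    | zero =>
      rw [smul_zero]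
      exact AddSubgroup.zero_mem _
    | add x y _ _ hx hy =>
      rw [smul_add]
      exact AddSubgroup.add_mem _ hx hy
    | neg x _ hx =>
      rw [smul_neg]
      exact AddSubgroup.neg_mem _ hx
  | add p q hp hq =>
    rw [add_smul]
    exact AddSubgroup.add_mem _ (hp hx) (hq hx)
  | mul_X p γ hp =>
    rw [mul_smul]
    refine hp ?_
    induction hx using AddSubgroup.closure_induction with
    | mem y hy =>
      obtain ⟨z, hz, hy⟩ := hy
      exact AddSubgroup.subset_closure ⟨z + 1, by omega, ALow_W_X dl hleib θ z γ hy⟩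
    | zero =>
      rw [smul_zero]
      exact AddSubgroup.zero_mem _
    | add x y _ _ hx hy =>
      rw [smul_add]
      exact AddSubgroup.add_mem _ hx hy
    | neg x _ hx =>
      rw [smul_neg]
      exact AddSubgroup.neg_mem _ hx

end aux

/-- A finitely generated module over `κ[a]` with commuting operators `dl γ` over `∂ / ∂ a_γ` such that
`∑ a_γ dl γ` is diagonalizable with eigenvalues in `- θ + ℤ`, `θ` not an integer, is `0`. -/
theorem low {M : Type u} [AddCommGroup M] [Module (MvPolynomial Γ κ) M]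
    (hfg : Module.Finite (MvPolynomial Γ κ) M) (dl : Γ → M →+ M)
    (hleib : ∀ γ (r : MvPolynomial Γ κ) x, dl γ (r • x) = pderiv γ r • x + r • dl γ x)
    (hcomm : ∀ γ γ' x, dl γ (dl γ' x) = dl γ' (dl γ x)) (θ : κ) (hθ : ∀ z : ℤ, θ ≠ z)
    (heig : ∀ x : M, x ∈ AddSubgroup.closure {y : M | ∃ z : ℤ,
      ∑ γ, (X γ : MvPolynomial Γ κ) • dl γ y = (C ((z : κ) - θ) : MvPolynomial Γ κ) • y}) (x : M) : x = 0 := by
  classical
  -- everything has weights at least z₀
  have hS : ∀ g : M, ∃ z₀ : ℤ,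
      g ∈ AddSubgroup.closure {y : M | ∃ z : ℤ, z₀ ≤ z ∧ ALow_W dl θ z y} := by
    intro g
    have hg : g ∈ AddSubgroup.closure {y : M | ∃ z : ℤ, True ∧ ALow_W dl θ z y} := by
      refine AddSubgroup.closure_mono ?_ (heig g)
      rintro y ⟨z, hz⟩
      exact ⟨z, trivial, hz⟩
    obtain ⟨f, f1, -, f3⟩ := ALow_dec dl θ (fun _ => True) hg
    obtain ⟨z₀, hz₀⟩ : ∃ z₀ : ℤ, ∀ z ∈ f.support, z₀ ≤ z := by
      obtain ⟨b, hb⟩ := f.support.bddBelow
      exact ⟨b, fun z hz => hb hz⟩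
    refine ⟨z₀, ?_⟩
    rw [← f3]
    exact AddSubgroup.sum_mem _ fun z hz => AddSubgroup.subset_closure ⟨z, hz₀ z hz, f1 z⟩
  obtain ⟨G, hG⟩ := hfg.fg_top
  choose zz hzz using hS
  obtain ⟨z₀, hz₀⟩ : ∃ z₀ : ℤ, ∀ g ∈ G, z₀ ≤ zz g := by
    obtain ⟨b, hb⟩ := (G.image zz).bddBelow
    exact ⟨b, fun g hg => hb (Finset.mem_coe.2 (Finset.mem_image_of_mem _ hg))⟩
  have hall : ∀ y : M, y ∈ AddSubgroup.closure {y : M | ∃ z : ℤ, z₀ ≤ z ∧ ALow_W dl θ z y} := by
    intro y
    have hy : y ∈ Submodule.span (MvPolynomial Γ κ) (G : Set M) := by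
      rw [hG]
      trivial
    induction hy using Submodule.span_induction with
    | mem g hg =>
      refine AddSubgroup.closure_mono ?_ (hzz g)
      rintro y ⟨z, hz, hy⟩
      exact ⟨z, (hz₀ g hg).trans hz, hy⟩
    | zero => exact AddSubgroup.zero_mem _
    | add x y _ _ hx hy => exact AddSubgroup.add_mem _ hx hy
    | smul r x _ hx => exact ALow_smul dl hleib θ z₀ r hx
  -- no small weights
  have hlow : ∀ z < z₀, ∀ y : M, ALow_W dl θ z y → y = 0 := by
    intro z hz y hy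
    obtain ⟨f, f1, f2, f3⟩ := ALow_dec dl θ (fun z => z₀ ≤ z) (hall y)
    have h1 : (f - Finsupp.single z y).sum (fun _ m => m) = 0 := by
      rw [Finsupp.sum_sub_index (fun _ _ _ => rfl), f3, Finsupp.sum_single_index rfl, sub_self]
    have h2 : ∀ z', ALow_W dl θ z' ((f - Finsupp.single z y) z') := by
      intro z'
      rw [Finsupp.sub_apply, sub_eq_add_neg]
      refine ALow_W_add dl θ z' (f1 z') (ALow_W_neg dl θ z' ?_)
      rw [Finsupp.single_apply]
      split_ifs with h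
      · subst h
        exact hy
      · exact ALow_W_zero dl θ z'
    have h3 := ALow_comp dl hleib θ (⊥ : Submodule (MvPolynomial Γ κ) M) (by
      intro x hx
      rw [Submodule.mem_bot] at hx
      rw [hx, ALow_Eu_zero]
      exact Submodule.zero_mem _) (f - Finsupp.single z y).support
      (fun z' => (f - Finsupp.single z y) z') (fun z' _ => h2 z') (by
        have h4 : ∑ z' ∈ (f - Finsupp.single z y).support, (f - Finsupp.single z y) z' = 0 := h1
        rw [h4]
        exact Submodule.zero_mem _)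
    have h4 : (f - Finsupp.single z y) z = 0 := by
      by_contra h5
      exact h5 ((Submodule.mem_bot _).1 (h3 z (Finsupp.mem_support_iff.2 h5)))
    rw [Finsupp.sub_apply, Finsupp.single_eq_same, f2 z (by omega), zero_sub, neg_eq_zero] at h4
    exact h4
  have hstep : ∀ z : ℤ, (∀ y : M, ALow_W dl θ (z - 1) y → y = 0) →
      ∀ y : M, ALow_W dl θ z y → y = 0 := by
    intro z hz y hy
    have h1 : ALow_Eu (κ := κ) dl y = 0 := by
      unfold ALow_Eu
      refine Finset.sum_eq_zero fun γ _ => ?_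
      rw [hz _ (ALow_W_dl dl hleib hcomm θ z γ hy), smul_zero]
    have h2 : (C ((z : κ) - θ) : MvPolynomial Γ κ) • y = 0 := by
      rw [← hy, h1]
    have h3 : (z : κ) - θ ≠ 0 := sub_ne_zero.2 (hθ z).symm
    calc y = (C ((z : κ) - θ)⁻¹ : MvPolynomial Γ κ) • ((C ((z : κ) - θ) : MvPolynomial Γ κ) • y) := by
          rw [smul_smul, ← C_mul, inv_mul_cancel₀ h3, C_1, one_smul]
      _ = 0 := by rw [h2, smul_zero]
  have hW : ∀ z : ℤ, ∀ y : M, ALow_W dl θ z y → y = 0 := by
    intro z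
    rcases lt_or_ge z z₀ with hz | hz
    · exact hlow z hz
    · have h1 : ∀ z : ℤ, z₀ - 1 ≤ z → ∀ y : M, ALow_W dl θ z y → y = 0 := by
        intro z hz
        induction z, hz using Int.leInduction with
        | base => exact hlow (z₀ - 1) (by omega)
        | succ z _ ih =>
          refine hstep (z + 1) ?_
          rw [add_sub_cancel_right]
          exact ih
      exact h1 z (by omega)
  have hx := heig x
  have h1 : AddSubgroup.closure {y : M | ∃ z : ℤ,
      ∑ γ, (X γ : MvPolynomial Γ κ) • dl γ y = (C ((z : κ) - θ) : MvPolynomial Γ κ) • y} ≤ ⊥ := by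
    rw [AddSubgroup.closure_le]
    rintro y ⟨z, hz⟩
    exact (AddSubgroup.mem_bot).2 (hW z y hz)
  exact (AddSubgroup.mem_bot).1 (h1 hx)

/-- The components of an element of a stable submodule are in the submodule. -/
theorem eig_sub {M : Type u} [AddCommGroup M] [Module (MvPolynomial Γ κ) M]
    (dl : Γ → M →+ M) (hleib : ∀ γ (r : MvPolynomial Γ κ) x, dl γ (r • x) = pderiv γ r • x + r • dl γ x)
    (θ : κ) (N : Submodule (MvPolynomial Γ κ) M) (hN : ∀ γ, ∀ x ∈ N, dl γ x ∈ N) (x : M) (hx : x ∈ N)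
    (heig : x ∈ AddSubgroup.closure {y : M | ∃ z : ℤ,
      ∑ γ, (X γ : MvPolynomial Γ κ) • dl γ y = (C ((z : κ) - θ) : MvPolynomial Γ κ) • y}) :
    x ∈ AddSubgroup.closure {y : M | y ∈ N ∧ ∃ z : ℤ,
      ∑ γ, (X γ : MvPolynomial Γ κ) • dl γ y = (C ((z : κ) - θ) : MvPolynomial Γ κ) • y} := by
  classical
  have hx' : x ∈ AddSubgroup.closure {y : M | ∃ z : ℤ, True ∧ ALow_W dl θ z y} := by
    refine AddSubgroup.closure_mono ?_ heig
    rintro y ⟨z, hz⟩
    exact ⟨z, trivial, hz⟩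
  obtain ⟨f, f1, -, f3⟩ := ALow_dec dl θ (fun _ => True) hx'
  have hE : ∀ y ∈ N, ALow_Eu (κ := κ) dl y ∈ N := by
    intro y hy
    exact N.sum_mem fun γ _ => N.smul_mem _ (hN γ y hy)
  have h1 := ALow_comp dl hleib θ N hE f.support f (fun z _ => f1 z) (by
    have h2 : ∑ z ∈ f.support, f z = x := f3
    rw [h2]
    exact hx)
  rw [← f3]
  exact AddSubgroup.sum_mem _ fun z hz => AddSubgroup.subset_closure ⟨h1 z hz, z, f1 z⟩

end low

end MPadcDC
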