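import Pool.Agent.Lib.MP_adc574_ag_DC.ALat2
import Pool.Agent.Lib.MP_adc574_ag_DC.ALow

/-!
# JOB ALat3 (DC): finitely generated parts of MM are 0

* `MM_eig`: `MM` is additively generated by the `y = monomial d a • c x` (`x ∈ Vd (m + 1) k`), and `∑ γ, X γ • nab γ y = C (|d| - (θ + k)) • y` where `|d| = ∑ γ, d γ`:
  Leibniz `nab_smul`, `∑ γ, X γ * pderiv γ (monomial d a) = |d| * monomial d a` (`MvPolynomial` Euler identity; e.g. by `MvPolynomial.induction` or the formula for `pderiv_monomial`), `hC.nabc`, `hC.eul`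
  (`algebraMap (X γ) • .. = X γ • ..`, `algebraMap_smul`). So `z = |d| - k`: `C (z - θ)`. (Span induction; an element of the span is a sum of `r • c x`, and `r` is a sum of monomials; show that the closure is stable under
  multiplication with monomials or do an induction on `r`.)
* `sub_zero`: apply `low` to the module `↥N` (finitely generated: `Module.Finite.iff_fg`), `dl γ` the restriction of `nab γ` (`AddMonoidHom.codRestrict`-like, use `hst`), `hC.comm`, `θ = G.θ`, `hθ = hG.θ_ne`; `heig`: for `x ∈ N`,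
  `MM_eig` (as `N ≤ MM`) and `eig_sub` for the module `H` (the closure there has `y ∈ N`) and transfer to `↥N` (closure induction with the predicate: `∃ h : x ∈ N, ⟨x, h⟩ ∈ closure ..`).
* `quot_zero`: let `Q := (MM G m c).map (N.restrictScalars R).mkQ`, a submodule of `H ⧸ N.restrictScalars R`; `dl γ` on `H ⧸ N` is induced by `nab γ` (`QuotientAddGroup.map` or `Submodule.Quotient` lift as an additive map; `hst`), it preserves `Q`
  (`nab_MM`). Apply `low` to `↥Q`: `heig` from `MM_eig` (images of eigenvectors are eigenvectors). So `Q = ⊥`, i.e. `MM ≤ N`; `hC.span h` then gives `h ∈ N` for every `h` (`c x ∈ MM`).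
-/

set_option autoImplicit false
set_option linter.unusedSectionVars false

namespace MPadcDC

open MvPolynomial TensorProduct

universe u

section main

variable {κ : Type u} [Field κ] [CharZero κ] {Γ : Type} [Fintype Γ] [DecidableEq Γ] {V : Type u}
  [AddCommGroup V] [Module κ V] {K : Type u} [Field K] [Algebra (MvPolynomial Γ κ) K]
  [IsFractionRing (MvPolynomial Γ κ) K] {H : Type u} [AddCommGroup H] [Module K H]
  [Module (MvPolynomial Γ κ) H] [IsScalarTower (MvPolynomial Γ κ) K H]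
  {G : Cx κ Γ V} {m : ℕ} {P : Ideal (MvPolynomial Γ κ)} {k₀ : ℕ} {dK : Γ → Derivation ℤ K K}
  {nab : Γ → H →+ H} {c : V →+ H}

theorem ALat3_mon (hC : Con G m dK nab c) {k : ℕ} {x : V} (hx : x ∈ G.Vd (m + 1) k)
    (r : MvPolynomial Γ κ) :
    r • c x ∈ AddSubgroup.closure {y : H | y ∈ MM G m c ∧ ∃ z : ℤ,
      ∑ γ, (X γ : MvPolynomial Γ κ) • nab γ y = (C ((z : κ) - G.θ) : MvPolynomial Γ κ) • y} := by
  induction r using MvPolynomial.induction_on' with
  | monomial d a =>
    apply AddSubgroup.subset_closure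
    refine ⟨(MM G m c).smul_mem _ (Submodule.subset_span ⟨k, x, hx, rfl⟩), ((∑ γ, (d γ : ℤ)) - k : ℤ), ?_⟩
    have heul : ∑ γ, (X γ : MvPolynomial Γ κ) • c (G.mul γ x) = -((C (G.θ + k) : MvPolynomial Γ κ) • c x) := by
      have h := hC.eul k x hx
      simp only [algebraMap_smul] at h
      exact h
    have h1 : ∀ γ, (X γ : MvPolynomial Γ κ) • nab γ ((monomial d a : MvPolynomial Γ κ) • c x) =
        (C (d γ : κ) * monomial d a : MvPolynomial Γ κ) • c x +
          (monomial d a : MvPolynomial Γ κ) • ((X γ : MvPolynomial Γ κ) • c (G.mul γ x)) := by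
      intro γ
      rw [nab_smul hC, smul_add, smul_smul, X_mul_pderiv_monomial, hC.nabc γ k x hx, smul_smul, smul_smul,
        mul_comm (X γ)]
      congr 2
      rw [nsmul_eq_mul]
      congr 1
    rw [Finset.sum_congr rfl (fun γ _ => h1 γ), Finset.sum_add_distrib, ← Finset.smul_sum, heul,
      ← Finset.sum_smul, ← Finset.sum_mul, smul_neg, smul_smul, smul_smul, ← sub_eq_add_neg, ← sub_smul]
    congr 1
    rw [mul_comm (monomial d a) (C _), ← sub_mul]
    congr 1
    rw [← map_sum, ← map_sub]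
    congr 1
    push_cast
    ring
  | add p q hp hq =>
    rw [add_smul]
    exact add_mem hp hq

theorem MM_eig (hG : G.Ok) (hC : Con G m dK nab c) {x : H} (hx : x ∈ MM G m c) :
    x ∈ AddSubgroup.closure {y : H | y ∈ MM G m c ∧ ∃ z : ℤ,
      ∑ γ, (X γ : MvPolynomial Γ κ) • nab γ y = (C ((z : κ) - G.θ) : MvPolynomial Γ κ) • y} := by
  have key : ∀ r : MvPolynomial Γ κ, r • x ∈ AddSubgroup.closure {y : H | y ∈ MM G m c ∧ ∃ z : ℤ,
      ∑ γ, (X γ : MvPolynomial Γ κ) • nab γ y = (C ((z : κ) - G.θ) : MvPolynomial Γ κ) • y} := by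
    refine Submodule.span_induction (p := fun x _ => ∀ r : MvPolynomial Γ κ,
      r • x ∈ AddSubgroup.closure {y : H | y ∈ MM G m c ∧ ∃ z : ℤ,
        ∑ γ, (X γ : MvPolynomial Γ κ) • nab γ y = (C ((z : κ) - G.θ) : MvPolynomial Γ κ) • y}) ?_ ?_ ?_ ?_ hx
    · rintro y ⟨j, v, hv, rfl⟩ r
      exact ALat3_mon hC hv r
    · intro r
      rw [smul_zero]
      exact zero_mem _
    · intro y z _ _ hy hz r
      rw [smul_add]
      exact add_mem (hy r) (hz r)
    · intro a y _ hy r
      rw [smul_smul]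
      exact hy (r * a)
  have := key 1
  rwa [one_smul] at this

/-- A stable finitely generated submodule of `MM` is `0`. -/
theorem sub_zero (hG : G.Ok) (hC : Con G m dK nab c) (N : Submodule (MvPolynomial Γ κ) H) (hN : N ≤ MM G m c)
    (hst : ∀ γ, ∀ x ∈ N, nab γ x ∈ N) (hfg : N.FG) : N = ⊥ := by
  let dl : Γ → N →+ N := fun γ => AddMonoidHom.mk' (fun x => ⟨nab γ x, hst γ x x.2⟩) (by
    intro a b
    apply Subtype.ext
    simp)
  have hdl : ∀ γ (x : N), ((dl γ x : N) : H) = nab γ x := fun γ x => rfl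
  have hfin : Module.Finite (MvPolynomial Γ κ) N := Module.Finite.iff_fg.mpr hfg
  have hz : ∀ x : N, x = 0 := by
    refine low hfin dl ?_ ?_ G.θ hG.θ_ne ?_
    · intro γ r x
      apply Subtype.ext
      rw [hdl]
      simp only [Submodule.coe_smul, Submodule.coe_add, hdl]
      exact nab_smul hC γ r x
    · intro γ γ' x
      apply Subtype.ext
      rw [hdl, hdl, hdl, hdl]
      exact hC.comm γ γ' x
    · intro x
      have h1 : (x : H) ∈ AddSubgroup.closure {y : H | ∃ z : ℤ,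
          ∑ γ, (X γ : MvPolynomial Γ κ) • nab γ y = (C ((z : κ) - G.θ) : MvPolynomial Γ κ) • y} :=
        AddSubgroup.closure_mono (fun y hy => hy.2) (MM_eig hG hC (hN x.2))
      have h2 := eig_sub nab (nab_smul hC) G.θ N hst x x.2 h1
      have h3 : ∃ h : (x : H) ∈ N, (⟨x, h⟩ : N) ∈ AddSubgroup.closure {y : N | ∃ z : ℤ,
          ∑ γ, (X γ : MvPolynomial Γ κ) • dl γ y = (C ((z : κ) - G.θ) : MvPolynomial Γ κ) • y} := by
        refine AddSubgroup.closure_induction (p := fun y _ => ∃ h : y ∈ N,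
          (⟨y, h⟩ : N) ∈ AddSubgroup.closure {y : N | ∃ z : ℤ,
          ∑ γ, (X γ : MvPolynomial Γ κ) • dl γ y = (C ((z : κ) - G.θ) : MvPolynomial Γ κ) • y}) ?_ ?_ ?_ ?_ h2
        · rintro y ⟨hy, z, hz⟩
          refine ⟨hy, AddSubgroup.subset_closure ⟨z, ?_⟩⟩
          apply Subtype.ext
          rw [Submodule.coe_sum]
          simpa only [Submodule.coe_smul, hdl] using hz
        · exact ⟨N.zero_mem, zero_mem _⟩
        · rintro y z _ _ ⟨hy, hy'⟩ ⟨hz, hz'⟩
          exact ⟨N.add_mem hy hz, add_mem hy' hz'⟩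
        · rintro y _ ⟨hy, hy'⟩
          exact ⟨N.neg_mem hy, neg_mem hy'⟩
      obtain ⟨h, h4⟩ := h3
      exact h4
  rw [eq_bot_iff]
  intro x hx
  have := hz ⟨x, hx⟩
  simpa using congrArg Subtype.val this

/-- If the image of `MM` modulo a stable subspace is finitely generated it is `0`. -/
theorem quot_zero (hG : G.Ok) (hC : Con G m dK nab c) (N : Submodule K H) (hst : ∀ γ, ∀ x ∈ N, nab γ x ∈ N)
    (hfg : ((MM G m c).map ((N.restrictScalars (MvPolynomial Γ κ)).mkQ)).FG) : N = ⊤ := by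
  let N' : Submodule (MvPolynomial Γ κ) H := N.restrictScalars (MvPolynomial Γ κ)
  have hN' : ∀ x, x ∈ N' ↔ x ∈ N := fun x => Iff.rfl
  let Q : Submodule (MvPolynomial Γ κ) (H ⧸ N') := (MM G m c).map N'.mkQ
  have hQ : Q.FG := hfg
  have hwd : ∀ γ (x y : H), N'.mkQ x = N'.mkQ y → N'.mkQ (nab γ x) = N'.mkQ (nab γ y) := by
    intro γ x y h
    rw [Submodule.mkQ_apply, Submodule.mkQ_apply, Submodule.Quotient.eq] at h ⊢
    rw [← map_sub]
    exact hst γ _ h
  have hsur : ∀ q : H ⧸ N', ∃ x : H, N'.mkQ x = q := fun q => N'.mkQ_surjective q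
  choose s hs using hsur
  let dq : Γ → (H ⧸ N') →+ (H ⧸ N') := fun γ => AddMonoidHom.mk' (fun q => N'.mkQ (nab γ (s q))) (by
    intro a b
    show N'.mkQ (nab γ (s (a + b))) = N'.mkQ (nab γ (s a)) + N'.mkQ (nab γ (s b))
    rw [← map_add, ← map_add]
    apply hwd
    rw [hs, map_add, hs, hs])
  have hdq : ∀ γ (x : H), dq γ (N'.mkQ x) = N'.mkQ (nab γ x) := by
    intro γ x
    show N'.mkQ (nab γ (s (N'.mkQ x))) = _
    exact hwd γ _ _ (hs _)
  have hdQ : ∀ γ, ∀ q ∈ Q, dq γ q ∈ Q := by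
    rintro γ q ⟨x, hx, rfl⟩
    rw [hdq]
    exact Submodule.mem_map_of_mem (nab_MM hG hC γ hx)
  let dl : Γ → Q →+ Q := fun γ => AddMonoidHom.mk' (fun x => ⟨dq γ x, hdQ γ x x.2⟩) (by
    intro a b
    apply Subtype.ext
    simp)
  have hdl : ∀ γ (x : Q), ((dl γ x : Q) : H ⧸ N') = dq γ x := fun γ x => rfl
  have hfin : Module.Finite (MvPolynomial Γ κ) Q := Module.Finite.iff_fg.mpr hQ
  have hz : ∀ x : Q, x = 0 := by
    refine low hfin dl ?_ ?_ G.θ hG.θ_ne ?_
    · rintro γ r ⟨_, x, hx, rfl⟩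
      apply Subtype.ext
      rw [hdl]
      simp only [Submodule.coe_smul, Submodule.coe_add, hdl]
      rw [← map_smul, hdq, nab_smul hC, map_add, map_smul, map_smul, hdq]
    · rintro γ γ' ⟨_, x, hx, rfl⟩
      apply Subtype.ext
      rw [hdl, hdl, hdl, hdl]
      simp only [hdq]
      rw [hC.comm γ γ' x]
    · rintro ⟨_, x, hx, rfl⟩
      have h2 := MM_eig hG hC hx
      have h3 : ∃ h : N'.mkQ x ∈ Q, (⟨N'.mkQ x, h⟩ : Q) ∈ AddSubgroup.closure {y : Q | ∃ z : ℤ,
          ∑ γ, (X γ : MvPolynomial Γ κ) • dl γ y = (C ((z : κ) - G.θ) : MvPolynomial Γ κ) • y} := by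
        refine AddSubgroup.closure_induction (p := fun y _ => ∃ h : N'.mkQ y ∈ Q,
          (⟨N'.mkQ y, h⟩ : Q) ∈ AddSubgroup.closure {y : Q | ∃ z : ℤ,
          ∑ γ, (X γ : MvPolynomial Γ κ) • dl γ y = (C ((z : κ) - G.θ) : MvPolynomial Γ κ) • y}) ?_ ?_ ?_ ?_ h2
        · rintro y ⟨hy, z, hz⟩
          refine ⟨Submodule.mem_map_of_mem hy, AddSubgroup.subset_closure ⟨z, ?_⟩⟩
          apply Subtype.ext
          rw [Submodule.coe_sum]
          simp only [Submodule.coe_smul, hdl, hdq]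
          rw [← map_smul, ← hz, map_sum]
          simp only [map_smul]
        · refine ⟨by rw [map_zero]; exact Q.zero_mem, ?_⟩
          have : (⟨N'.mkQ 0, by rw [map_zero]; exact Q.zero_mem⟩ : Q) = 0 := Subtype.ext (map_zero _)
          rw [this]
          exact zero_mem _
        · rintro y z _ _ ⟨hy, hy'⟩ ⟨hz, hz'⟩
          refine ⟨by rw [map_add]; exact Q.add_mem hy hz, ?_⟩
          have : (⟨N'.mkQ (y + z), by rw [map_add]; exact Q.add_mem hy hz⟩ : Q) =
              ⟨N'.mkQ y, hy⟩ + ⟨N'.mkQ z, hz⟩ := Subtype.ext (map_add _ _ _)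
          rw [this]
          exact add_mem hy' hz'
        · rintro y _ ⟨hy, hy'⟩
          refine ⟨by rw [map_neg]; exact Q.neg_mem hy, ?_⟩
          have : (⟨N'.mkQ (-y), by rw [map_neg]; exact Q.neg_mem hy⟩ : Q) =
              -⟨N'.mkQ y, hy⟩ := Subtype.ext (map_neg _ _)
          rw [this]
          exact neg_mem hy'
      obtain ⟨h, h4⟩ := h3
      exact h4
  have hle : ∀ x ∈ MM G m c, x ∈ N := by
    intro x hx
    have h1 := hz ⟨N'.mkQ x, Submodule.mem_map_of_mem hx⟩
    have h2 : N'.mkQ x = 0 := congrArg Subtype.val h1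
    rw [Submodule.mkQ_apply, Submodule.Quotient.mk_eq_zero] at h2
    exact h2
  rw [eq_top_iff]
  intro h _
  have h1 := hC.span h
  refine (Submodule.span_le.mpr ?_) h1
  rintro y ⟨k, x, hx, rfl⟩
  exact hle _ (Submodule.subset_span ⟨k, x, hx, rfl⟩)

end main

end MPadcDC
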