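import Pool.Agent.Lib.MP_adc574_ag_DC.ALat2

/-!
# JOB ANb1 (DC): bounded vectors

Facts on `lo P E` (`P` prime): it is closed under sums, under multiplication with elements of `R`, `s • x ∈ lo P E`, `s ∉ P` implies `x ∈ lo P E`, and it is monotone in `E`. (Prove them first, as `lo_add`, `lo_smul`, `lo_div`, `lo_mono`; they are in the statement list.)
* `bdd_add`: `i + i'`, `max j j'` (`map_add` for iterates: `iterate_map_add`).
* `bdd_smul`: for fixed `i, j` with `∀ k, π ^ i • nab^[k] w ∈ lo P (EE j)` show by induction on `k`, for all `r` and all `l`: `π ^ i • nab^[k] (r • nab^[l] w) ∈ lo P (EE j)`: `nab (r • y) = pderiv r • y + r • nab y` (`nab_smul`), so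
  `nab^[k + 1] (r • nab^[l] w) = nab^[k] (pderiv γ₀ r • nab^[l] w) + nab^[k] (r • nab^[l + 1] w)`.
* `bdd_div`: given `∀ k, π ^ i • nab^[k] (s • w) ∈ lo P (EE j)` show by strong induction on `k`: `π ^ i • nab^[k] w ∈ lo P (EE j)`: by the Leibniz rule `nab^[k] (s • w) - s • nab^[k] w` is an `R`-combination of the `nab^[l] w`, `l < k`
  (prove this as a separate lemma by induction: membership in `Submodule.span R {nab^[l] w | l < k}`), so `s • π ^ i • nab^[k] w ∈ lo P (EE j)`, and `lo_div`.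
* `bdd_nab`: `nab γ₀^[k] (nab γ w) = nab γ (nab γ₀^[k] w)` (`hC.comm`). If `s • π ^ i • y ∈ EE j` (`s ∉ P`, `y = nab γ₀^[k] w`), then `nab γ (s π ^ i • y) = pderiv γ (s π ^ i) • y + s π ^ i • nab γ y ∈ EE (j + 1)`; multiply with `π`:
  `s • π ^ (i + 1) • nab γ y = π • nab γ (..) - (π * pderiv γ (s π ^ i)) • y`, and `π * pderiv γ (s * π ^ i)` is divisible by `π ^ i`, so `(..) • y ∈ lo P (EE j)`. So `i + 1`, `j + 1` work.
* `bdd_red`: a bounded vector is bounded with `j = k₀`: `π ∈ P`, `π ^ (j) • EE (k₀ + j) ⊆ EE k₀` (`EE_kill_pow`, `EE_mono`), so `π ^ (j + i)` and `k₀` work.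
-/

set_option autoImplicit false
set_option linter.unusedSectionVars false

namespace MPadcDC

open MvPolynomial TensorProduct

universe u

section loc

variable {R : Type u} [CommRing R] {H : Type u} [AddCommGroup H] [Module R H] {P : Ideal R} {E E' : Submodule R H}

theorem lo_add (hP : P.IsPrime) {x y : H} (hx : x ∈ lo P E) (hy : y ∈ lo P E) : x + y ∈ lo P E := by
  obtain ⟨s, hs, hsx⟩ := hx
  obtain ⟨t, ht, hty⟩ := hy
  refine ⟨s * t, fun h => (hP.mem_or_mem h).elim hs ht, ?_⟩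
  have h1 : (s * t) • (x + y) = t • (s • x) + s • (t • y) := by
    rw [smul_add, mul_smul, mul_smul, smul_comm s t x]
  rw [h1]
  exact E.add_mem (E.smul_mem _ hsx) (E.smul_mem _ hty)

theorem lo_smul {x : H} (r : R) (hx : x ∈ lo P E) : r • x ∈ lo P E := by
  obtain ⟨s, hs, hsx⟩ := hx
  refine ⟨s, hs, ?_⟩
  rw [smul_comm]
  exact E.smul_mem _ hsx

theorem lo_div (hP : P.IsPrime) {x : H} {s : R} (hs : s ∉ P) (hx : s • x ∈ lo P E) : x ∈ lo P E := by
  obtain ⟨t, ht, htx⟩ := hx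
  refine ⟨t * s, fun h => (hP.mem_or_mem h).elim ht hs, ?_⟩
  rw [mul_smul]
  exact htx

theorem lo_mono (h : E ≤ E') {x : H} (hx : x ∈ lo P E) : x ∈ lo P E' := by
  obtain ⟨s, hs, hsx⟩ := hx
  exact ⟨s, hs, h hsx⟩

theorem ANb1_zero (hP : P.IsPrime) : (0 : H) ∈ lo P E := by
  refine ⟨1, fun h => hP.ne_top ((Ideal.eq_top_iff_one _).2 h), ?_⟩
  rw [smul_zero]
  exact E.zero_mem

theorem ANb1_of (hP : P.IsPrime) {x : H} (hx : x ∈ E) : x ∈ lo P E := by
  refine ⟨1, fun h => hP.ne_top ((Ideal.eq_top_iff_one _).2 h), ?_⟩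
  rw [one_smul]
  exact hx

theorem ANb1_sub (hP : P.IsPrime) {x y : H} (hx : x ∈ lo P E) (hy : y ∈ lo P E) :
    x - y ∈ lo P E := by
  have h1 : x - y = x + (-1 : R) • y := by
    rw [neg_smul, one_smul, sub_eq_add_neg]
  rw [h1]
  exact lo_add hP hx (lo_smul _ hy)

theorem ANb1_span (hP : P.IsPrime) {r : R} {S : Set H} (hS : ∀ x ∈ S, r • x ∈ lo P E) {x : H}
    (hx : x ∈ Submodule.span R S) : r • x ∈ lo P E := by
  refine Submodule.span_induction (p := fun x _ => r • x ∈ lo P E) hS ?_ ?_ ?_ hx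
  · rw [smul_zero]
    exact ANb1_zero hP
  · intro x y _ _ h1 h2
    rw [smul_add]
    exact lo_add hP h1 h2
  · intro a x _ h1
    rw [smul_comm]
    exact lo_smul _ h1

end loc

section main

variable {κ : Type u} [Field κ] [CharZero κ] {Γ : Type} [Fintype Γ] [DecidableEq Γ] {V : Type u}
  [AddCommGroup V] [Module κ V] {K : Type u} [Field K] [Algebra (MvPolynomial Γ κ) K]
  [IsFractionRing (MvPolynomial Γ κ) K] {H : Type u} [AddCommGroup H] [Module K H]
  [Module (MvPolynomial Γ κ) H] [IsScalarTower (MvPolynomial Γ κ) K H]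
  {G : Cx κ Γ V} {m : ℕ} {P : Ideal (MvPolynomial Γ κ)} {k₀ : ℕ} {dK : Γ → Derivation ℤ K K}
  {nab : Γ → H →+ H} {c : V →+ H}

theorem bdd_add (hP : P.IsPrime) {γ₀ : Γ} {π : MvPolynomial Γ κ} {w w' : H}
    (h : Bdd G m c nab P γ₀ π w) (h' : Bdd G m c nab P γ₀ π w') : Bdd G m c nab P γ₀ π (w + w') := by
  obtain ⟨i, j, h⟩ := h
  obtain ⟨i', j', h'⟩ := h'
  refine ⟨i + i', max j j', fun k => ?_⟩
  have h1 := lo_mono (EE_mono (G := G) (m := m) (c := c) (le_max_left j j')) (h k)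
  have h2 := lo_mono (EE_mono (G := G) (m := m) (c := c) (le_max_right j j')) (h' k)
  have h3 : π ^ (i + i') • (nab γ₀)^[k] (w + w') =
      π ^ i' • (π ^ i • (nab γ₀)^[k] w) + π ^ i • (π ^ i' • (nab γ₀)^[k] w') := by
    rw [iterate_map_add, smul_add, pow_add, mul_smul, mul_smul,
      smul_comm (π ^ i) (π ^ i') ((nab γ₀)^[k] w)]
  rw [h3]
  exact lo_add hP (lo_smul _ h1) (lo_smul _ h2)

theorem bdd_smul (hC : Con G m dK nab c) (hP : P.IsPrime) {γ₀ : Γ} {π : MvPolynomial Γ κ} (r : MvPolynomial Γ κ)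
    {w : H} (h : Bdd G m c nab P γ₀ π w) : Bdd G m c nab P γ₀ π (r • w) := by
  obtain ⟨i, j, h⟩ := h
  have key : ∀ (k : ℕ) (r : MvPolynomial Γ κ) (l : ℕ),
      π ^ i • (nab γ₀)^[k] (r • (nab γ₀)^[l] w) ∈ lo P (EE G m c j) := by
    intro k
    induction k with
    | zero =>
      intro r l
      rw [Function.iterate_zero_apply, smul_comm]
      exact lo_smul _ (h l)
    | succ k ih =>
      intro r l
      rw [Function.iterate_succ_apply, nab_smul hC, iterate_map_add, smul_add,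
        ← Function.iterate_succ_apply' (nab γ₀) l w]
      exact lo_add hP (ih _ _) (ih _ _)
  exact ⟨i, j, fun k => key k r 0⟩

theorem ANb1_leib (hC : Con G m dK nab c) (γ₀ : Γ) (s : MvPolynomial Γ κ) (w : H) (k : ℕ) :
    (nab γ₀)^[k] (s • w) - s • (nab γ₀)^[k] w ∈
      Submodule.span (MvPolynomial Γ κ) {x | ∃ l, l < k ∧ (nab γ₀)^[l] w = x} := by
  induction k with
  | zero =>
    rw [Function.iterate_zero_apply, Function.iterate_zero_apply, sub_self]
    exact Submodule.zero_mem _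
  | succ k ih =>
    have hst : ∀ x ∈ Submodule.span (MvPolynomial Γ κ) {x | ∃ l, l < k ∧ (nab γ₀)^[l] w = x},
        x ∈ Submodule.span (MvPolynomial Γ κ) {x | ∃ l, l < k + 1 ∧ (nab γ₀)^[l] w = x} ∧
        nab γ₀ x ∈ Submodule.span (MvPolynomial Γ κ)
          {x | ∃ l, l < k + 1 ∧ (nab γ₀)^[l] w = x} := by
      intro x hx
      refine Submodule.span_induction (p := fun x _ =>
        x ∈ Submodule.span (MvPolynomial Γ κ) {x | ∃ l, l < k + 1 ∧ (nab γ₀)^[l] w = x} ∧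
        nab γ₀ x ∈ Submodule.span (MvPolynomial Γ κ)
          {x | ∃ l, l < k + 1 ∧ (nab γ₀)^[l] w = x}) ?_ ?_ ?_ ?_ hx
      · rintro x ⟨l, hl, rfl⟩
        refine ⟨Submodule.subset_span ⟨l, by omega, rfl⟩,
          Submodule.subset_span ⟨l + 1, by omega, ?_⟩⟩
        rw [Function.iterate_succ_apply']
      · rw [map_zero]
        exact ⟨Submodule.zero_mem _, Submodule.zero_mem _⟩
      · intro x y _ _ h1 h2
        rw [map_add]
        exact ⟨Submodule.add_mem _ h1.1 h2.1, Submodule.add_mem _ h1.2 h2.2⟩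
      · intro a x _ h1
        rw [nab_smul hC]
        exact ⟨Submodule.smul_mem _ _ h1.1,
          Submodule.add_mem _ (Submodule.smul_mem _ _ h1.1) (Submodule.smul_mem _ _ h1.2)⟩
    have h1 : (nab γ₀)^[k + 1] (s • w) - s • (nab γ₀)^[k + 1] w =
        nab γ₀ ((nab γ₀)^[k] (s • w) - s • (nab γ₀)^[k] w) +
          pderiv γ₀ s • (nab γ₀)^[k] w := by
      rw [map_sub, nab_smul hC, Function.iterate_succ_apply', Function.iterate_succ_apply']
      abel
    rw [h1]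
    exact Submodule.add_mem _ (hst _ ih).2
      (Submodule.smul_mem _ _ (Submodule.subset_span ⟨k, by omega, rfl⟩))

/-- Division by an element outside of `P`. -/
theorem bdd_div (hC : Con G m dK nab c) (hP : P.IsPrime) {γ₀ : Γ} {π : MvPolynomial Γ κ} {s : MvPolynomial Γ κ}
    (hs : s ∉ P) {w : H} (h : Bdd G m c nab P γ₀ π (s • w)) : Bdd G m c nab P γ₀ π w := by
  obtain ⟨i, j, h⟩ := h
  refine ⟨i, j, fun k => ?_⟩
  induction k using Nat.strong_induction_on with
  | _ k ih =>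
    refine lo_div hP hs ?_
    have h1 : s • (π ^ i • (nab γ₀)^[k] w) = π ^ i • (nab γ₀)^[k] (s • w) -
        π ^ i • ((nab γ₀)^[k] (s • w) - s • (nab γ₀)^[k] w) := by
      rw [smul_sub, sub_sub_cancel, smul_comm]
    rw [h1]
    refine ANb1_sub hP (h k) (ANb1_span hP ?_ (ANb1_leib hC γ₀ s w k))
    rintro x ⟨l, hl, rfl⟩
    exact ih l hl

theorem bdd_nab (hG : G.Ok) (hB : G.Bad m P k₀) (hC : Con G m dK nab c) {γ₀ : Γ} {π : MvPolynomial Γ κ}
    (hP : P = Ideal.span {π}) (γ : Γ) {w : H} (h : Bdd G m c nab P γ₀ π w) :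
    Bdd G m c nab P γ₀ π (nab γ w) := by
  obtain ⟨i, j, h⟩ := h
  have hPp := hB.prime
  refine ⟨i + 1, j + 1, fun k => ?_⟩
  have hcomm : (nab γ₀)^[k] (nab γ w) = nab γ ((nab γ₀)^[k] w) := by
    clear h
    induction k with
    | zero => rfl
    | succ k ih =>
      rw [Function.iterate_succ_apply', Function.iterate_succ_apply', ih, hC.comm]
  rw [hcomm]
  obtain ⟨y, hy⟩ : ∃ y, y = (nab γ₀)^[k] w := ⟨_, rfl⟩
  have h1 := h k
  rw [← hy] at h1 ⊢
  obtain ⟨s, hs, hsE⟩ := h1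
  have h2 := nab_EE hG hC γ hsE
  rw [← mul_smul, nab_smul hC] at h2
  have h3 : π * pderiv γ (s * π ^ i) = (π * pderiv γ s + s * (i * pderiv γ π)) * π ^ i := by
    rw [Derivation.leibniz, Derivation.leibniz_pow, smul_eq_mul, smul_eq_mul, nsmul_eq_mul,
      smul_eq_mul]
    rcases i with _ | i
    · simp
    · rw [Nat.add_sub_cancel]
      ring
  have h4 : s • (π ^ (i + 1) • nab γ y) =
      π • (pderiv γ (s * π ^ i) • y + (s * π ^ i) • nab γ y) -
        (π * pderiv γ s + s * (i * pderiv γ π)) • (π ^ i • y) := by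
    rw [smul_add, ← mul_smul, ← mul_smul, ← mul_smul, ← mul_smul, ← h3, add_sub_cancel_left]
    congr 1
    ring
  refine lo_div hPp hs ?_
  rw [h4]
  refine ANb1_sub hPp (lo_smul _ (ANb1_of hPp h2)) (lo_smul _ (lo_mono (EE_mono (Nat.le_succ j)) ?_))
  exact ⟨s, hs, hsE⟩

theorem bdd_red (hG : G.Ok) (hB : G.Bad m P k₀) (hC : Con G m dK nab c) {γ₀ : Γ} {π : MvPolynomial Γ κ}
    (hP : P = Ideal.span {π}) {w : H} (h : Bdd G m c nab P γ₀ π w) :
    ∃ i : ℕ, ∀ k : ℕ, π ^ i • (nab γ₀)^[k] w ∈ lo P (EE G m c k₀) := by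
  obtain ⟨i, j, h⟩ := h
  have hπ : π ∈ P := by
    rw [hP]
    exact Ideal.mem_span_singleton_self π
  refine ⟨j + i, fun k => ?_⟩
  obtain ⟨s, hs, hsE⟩ := h k
  refine ⟨s, hs, ?_⟩
  have h1 : s • (π ^ (j + i) • (nab γ₀)^[k] w) = π ^ j • (s • (π ^ i • (nab γ₀)^[k] w)) := by
    rw [pow_add, mul_smul, smul_comm s (π ^ j)]
  rw [h1]
  exact EE_kill_pow hG hB hC le_rfl j hπ (EE_mono (Nat.le_add_left j k₀) hsE)

end main

end MPadcDC
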