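import Pool.Agent.Lib.MP_adc574_ag_DC.ANb1

/-!
# JOB ANb2 (DC): the lattice of the bounded vectors

Notation `t = γ₀`, `δ = pderiv γ₀ π ∉ P`, `E = EE k₀`. `P = span {π}` is prime and `π ≠ 0` (`hB.ne`). `H` is finite dimensional over `K` (`H_fin`).
Step 1. For every `w` there are `r ≠ 0` with `Bdd (r • w)`; `r = s π ^ n` with `s ∉ P` (multiplicity of `π`, `exists_eq_pow_mul_and_not_dvd` / `FiniteMultiplicity.exists_eq_pow_mul_and_not_dvd`), so `Bdd (π ^ n • w)` by `bdd_div`.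
Take a `K`-basis `b_1 .. b_g` of `H`, `w_a = π ^ n_a • b_a` bounded, a common `i` (`bdd_red`, maximum; multiplication of the condition with a further power of `π` is fine): `∀ a k, π ^ i • nab^[k] w_a ∈ lo P E`.
Step 2. `Λ := {w | ∀ k, π ^ i • nab γ₀^[k] w ∈ lo P E}`. It is closed under `+`, `R`-multiples (as in `bdd_smul`: prove the version with fixed `i`), division by `s ∉ P` (as in `bdd_div`), stable under `nab γ₀`, and for every `w ∈ H` there is `p` with `π ^ p • w ∈ Λ`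
(`w = ∑ f_a w_a`, common denominator `r = s π ^ p`: `r • w` is an `R`-combination of the `w_a`, so in `Λ`; divide by `s`). Since `E` is finitely generated there is `n₁` with `π ^ n₁ • y ∈ Λ` for all `y ∈ lo P E` (finitely many generators; then `R`-combinations and division by `s`).
Step 3 (CLAIM): if `Bdd w` then `w ∈ Λ`. Let `p` be minimal with `x := π ^ p • w ∈ Λ` (`Nat.find`), suppose `p ≥ 1`. By induction on `k` there are `v_k ∉ P`, `l_k ∈ Λ` with `π ^ (p + k) • nab^[k] w = v_k • x + π • l_k`: `k = 0`: `v = 1`, `l = 0`. Step: `y = nab^[k] w`; apply `nab γ₀` to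
`π ^ (p + k) • y = v • x + π • l` and multiply with `π`: `((p + k) * δ * π ^ (p + k)) • y + π ^ (p + k + 1) • nab y = π • (pderiv v • x + v • nab x + δ • l + π • nab l)`, so
`π ^ (p + k + 1) • nab y = - ((p + k) δ v) • x + π • (- (p + k) δ • l + pderiv v • x + v • nab x + δ • l + π • nab l)`: `v_{k + 1} = -(p + k) δ v ∉ P` (`P` prime, `p + k` a nonzero constant, `C` of a unit, `CharZero`).
`bdd_red`: `i'` with `π ^ i' • nab^[k] w ∈ lo P E` for all `k`; take `k` with `p + k ≥ 1 + n₁ + i'`: `π ^ (p + k) • nab^[k] w = π • π ^ (rest) • π ^ n₁ • (π ^ i' • nab^[k] w) ∈ π • Λ`, so `v_k • x = π • l'` with `l' ∈ Λ`; in the `K`-space `H`: `v_k • (π ^ (p - 1) • w) = l' ∈ Λ` (cancel `π`), so `π ^ (p - 1) • w ∈ Λ` (division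
by `v_k ∉ P`), contradiction to the minimality. So `p = 0`, `w ∈ Λ`, and in particular `π ^ i • w ∈ lo P E`. This is the statement (`n = i`).
-/

set_option autoImplicit false
set_option linter.unusedSectionVars false

namespace MPadcDC

open MvPolynomial TensorProduct

universe u

section main

variable {κ : Type u} [Field κ] [CharZero κ] {Γ : Type} [Fintype Γ] [DecidableEq Γ] {V : Type u}
  [AddCommGroup V] [Module κ V] {K : Type u} [Field K] [Algebra (MvPolynomial Γ κ) K]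
  [IsFractionRing (MvPolynomial Γ κ) K] {H : Type u} [AddCommGroup H] [Module K H]
  [Module (MvPolynomial Γ κ) H] [IsScalarTower (MvPolynomial Γ κ) K H]
  {G : Cx κ Γ V} {m : ℕ} {P : Ideal (MvPolynomial Γ κ)} {k₀ : ℕ} {dK : Γ → Derivation ℤ K K}
  {nab : Γ → H →+ H} {c : V →+ H}

/-- All multiples `π ^ i • nab^[k] w` are in `lo P (EE k₀)`. -/
private def ANb2_L (G : Cx κ Γ V) (m : ℕ) (c : V →+ H) (nab : Γ → H →+ H) (P : Ideal (MvPolynomial Γ κ)) (k₀ : ℕ)
    (γ₀ : Γ) (π : MvPolynomial Γ κ) (i : ℕ) (w : H) : Prop :=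
  ∀ k : ℕ, π ^ i • (nab γ₀)^[k] w ∈ lo P (EE G m c k₀)

private theorem ANb2_zero (hP : P.IsPrime) {γ₀ : Γ} {π : MvPolynomial Γ κ} (i : ℕ) :
    ANb2_L G m c nab P k₀ γ₀ π i 0 := by
  intro k
  rw [iterate_map_zero, smul_zero]
  exact ⟨1, fun h => hP.ne_top ((Ideal.eq_top_iff_one P).2 h), by rw [smul_zero]; exact Submodule.zero_mem _⟩

private theorem ANb2_add (hP : P.IsPrime) {γ₀ : Γ} {π : MvPolynomial Γ κ} {i : ℕ} {w w' : H}
    (h : ANb2_L G m c nab P k₀ γ₀ π i w) (h' : ANb2_L G m c nab P k₀ γ₀ π i w') :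
    ANb2_L G m c nab P k₀ γ₀ π i (w + w') := by
  intro k
  rw [iterate_map_add, smul_add]
  exact lo_add hP (h k) (h' k)

private theorem ANb2_smul (hC : Con G m dK nab c) (hP : P.IsPrime) {γ₀ : Γ} {π : MvPolynomial Γ κ} {i : ℕ}
    (r : MvPolynomial Γ κ) {w : H} (h : ANb2_L G m c nab P k₀ γ₀ π i w) :
    ANb2_L G m c nab P k₀ γ₀ π i (r • w) := by
  have key : ∀ k l : ℕ, ∀ r : MvPolynomial Γ κ,
      π ^ i • (nab γ₀)^[k] (r • (nab γ₀)^[l] w) ∈ lo P (EE G m c k₀) := by
    intro k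
    induction k with
    | zero =>
      intro l r
      rw [Function.iterate_zero, id, smul_comm]
      exact lo_smul r (h l)
    | succ k ih =>
      intro l r
      rw [Function.iterate_succ_apply, nab_smul hC, iterate_map_add, smul_add, ← Function.iterate_succ_apply' (nab γ₀) l w]
      exact lo_add hP (ih l _) (ih (l + 1) _)
  intro k
  exact key k 0 r

private theorem ANb2_neg (hC : Con G m dK nab c) (hP : P.IsPrime) {γ₀ : Γ} {π : MvPolynomial Γ κ} {i : ℕ}
    {w : H} (h : ANb2_L G m c nab P k₀ γ₀ π i w) : ANb2_L G m c nab P k₀ γ₀ π i (-w) := by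
  have h1 := ANb2_smul hC hP (-1) h
  rwa [neg_one_smul] at h1

private theorem ANb2_leib (hC : Con G m dK nab c) (γ₀ : Γ) (s : MvPolynomial Γ κ) (w : H) (k : ℕ) :
    (nab γ₀)^[k] (s • w) - s • (nab γ₀)^[k] w ∈
      Submodule.span (MvPolynomial Γ κ) {y | ∃ l, l < k ∧ (nab γ₀)^[l] w = y} := by
  induction k with
  | zero =>
    rw [Function.iterate_zero, id, id, sub_self]
    exact Submodule.zero_mem _
  | succ k ih =>
    have hstep : ∀ y ∈ Submodule.span (MvPolynomial Γ κ) {y | ∃ l, l < k ∧ (nab γ₀)^[l] w = y},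
        y ∈ Submodule.span (MvPolynomial Γ κ) {y | ∃ l, l < k + 1 ∧ (nab γ₀)^[l] w = y} ∧
        nab γ₀ y ∈ Submodule.span (MvPolynomial Γ κ) {y | ∃ l, l < k + 1 ∧ (nab γ₀)^[l] w = y} := by
      intro y hy
      induction hy using Submodule.span_induction with
      | mem y hy =>
        obtain ⟨l, hl, rfl⟩ := hy
        refine ⟨Submodule.subset_span ⟨l, by omega, rfl⟩, Submodule.subset_span ⟨l + 1, by omega, ?_⟩⟩
        exact Function.iterate_succ_apply' _ _ _
      | zero =>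
        rw [map_zero]
        exact ⟨Submodule.zero_mem _, Submodule.zero_mem _⟩
      | add y z _ _ h1 h2 =>
        rw [map_add]
        exact ⟨Submodule.add_mem _ h1.1 h2.1, Submodule.add_mem _ h1.2 h2.2⟩
      | smul a y _ h1 =>
        rw [nab_smul hC]
        exact ⟨Submodule.smul_mem _ _ h1.1, Submodule.add_mem _ (Submodule.smul_mem _ _ h1.1) (Submodule.smul_mem _ _ h1.2)⟩
    have h1 := (hstep _ ih).2
    rw [map_sub, nab_smul hC, ← Function.iterate_succ_apply' (nab γ₀) k (s • w), ← Function.iterate_succ_apply' (nab γ₀) k w] at h1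
    have h2 : pderiv γ₀ s • (nab γ₀)^[k] w ∈
        Submodule.span (MvPolynomial Γ κ) {y | ∃ l, l < k + 1 ∧ (nab γ₀)^[l] w = y} :=
      Submodule.smul_mem _ _ (Submodule.subset_span ⟨k, Nat.lt_succ_self k, rfl⟩)
    have h3 := Submodule.add_mem _ h1 h2
    have e : (nab γ₀)^[k + 1] (s • w) - (pderiv γ₀ s • (nab γ₀)^[k] w + s • (nab γ₀)^[k + 1] w) +
        pderiv γ₀ s • (nab γ₀)^[k] w = (nab γ₀)^[k + 1] (s • w) - s • (nab γ₀)^[k + 1] w := by abel
    rw [e] at h3
    exact h3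

private theorem ANb2_div (hC : Con G m dK nab c) (hP : P.IsPrime) {γ₀ : Γ} {π : MvPolynomial Γ κ} {i : ℕ}
    {s : MvPolynomial Γ κ} (hs : s ∉ P) {w : H} (h : ANb2_L G m c nab P k₀ γ₀ π i (s • w)) :
    ANb2_L G m c nab P k₀ γ₀ π i w := by
  intro k
  induction k using Nat.strong_induction_on with
  | _ k ih =>
    have h1 : ∀ y ∈ Submodule.span (MvPolynomial Γ κ) {y | ∃ l, l < k ∧ (nab γ₀)^[l] w = y},
        π ^ i • y ∈ lo P (EE G m c k₀) := by
      intro y hy
      induction hy using Submodule.span_induction with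
      | mem y hy =>
        obtain ⟨l, hl, rfl⟩ := hy
        exact ih l hl
      | zero => exact ANb2_zero (G := G) (m := m) (c := c) (nab := nab) (k₀ := k₀) hP (γ₀ := γ₀) (π := π) i 0
      | add y z _ _ h1 h2 =>
        rw [smul_add]
        exact lo_add hP h1 h2
      | smul a y _ h1 =>
        rw [smul_comm]
        exact lo_smul a h1
    have h2 := h1 _ (ANb2_leib hC γ₀ s w k)
    have h3 : π ^ i • (nab γ₀)^[k] (s • w) + (-1 : MvPolynomial Γ κ) • (π ^ i • ((nab γ₀)^[k] (s • w) - s • (nab γ₀)^[k] w)) ∈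
        lo P (EE G m c k₀) := lo_add hP (h k) (lo_smul _ h2)
    have e : π ^ i • (nab γ₀)^[k] (s • w) + (-1 : MvPolynomial Γ κ) • (π ^ i • ((nab γ₀)^[k] (s • w) - s • (nab γ₀)^[k] w)) =
        s • (π ^ i • (nab γ₀)^[k] w) := by
      rw [neg_one_smul, smul_sub, smul_comm s (π ^ i)]
      abel
    rw [e] at h3
    exact lo_div hP hs h3

private theorem ANb2_nab {γ₀ : Γ} {π : MvPolynomial Γ κ} {i : ℕ} {w : H}
    (h : ANb2_L G m c nab P k₀ γ₀ π i w) : ANb2_L G m c nab P k₀ γ₀ π i (nab γ₀ w) := by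
  intro k
  rw [← Function.iterate_succ_apply]
  exact h (k + 1)

private theorem ANb2_pow {γ₀ : Γ} {π : MvPolynomial Γ κ} {i i' : ℕ} (hi : i ≤ i') {w : H}
    (h : ANb2_L G m c nab P k₀ γ₀ π i w) : ANb2_L G m c nab P k₀ γ₀ π i' w := by
  intro k
  rw [← Nat.sub_add_cancel hi, pow_add, mul_smul]
  exact lo_smul _ (h k)

private theorem ANb2_split {P : Ideal (MvPolynomial Γ κ)} (hPp : P.IsPrime) {π : MvPolynomial Γ κ}
    (hP : P = Ideal.span {π}) {r : MvPolynomial Γ κ} (hr : r ≠ 0) :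
    ∃ (n : ℕ) (s : MvPolynomial Γ κ), s ∉ P ∧ r = π ^ n * s := by
  have hu : ¬ IsUnit π := by
    intro h
    apply hPp.ne_top
    rw [hP, Ideal.span_singleton_eq_top]
    exact h
  have hf : FiniteMultiplicity π r := FiniteMultiplicity.of_not_isUnit hu hr
  obtain ⟨s, hs, hd⟩ := hf.exists_eq_pow_mul_and_not_dvd
  refine ⟨_, s, ?_, hs⟩
  rw [hP, Ideal.mem_span_singleton]
  exact hd

theorem bdd_lat (hG : G.Ok) (hB : G.Bad m P k₀) (hC : Con G m dK nab c) {γ₀ : Γ} {π : MvPolynomial Γ κ}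
    (hP : P = Ideal.span {π}) (hγ : pderiv γ₀ π ∉ P)
    (h : ∀ w : H, ∃ r : MvPolynomial Γ κ, r ≠ 0 ∧ Bdd G m c nab P γ₀ π (r • w)) :
    ∃ n : ℕ, ∀ w : H, Bdd G m c nab P γ₀ π w → π ^ n • w ∈ lo P (EE G m c k₀) := by
  classical
  have hPp : P.IsPrime := hB.prime
  have hπ : π ≠ 0 := by
    intro h0
    apply hB.ne
    rw [hP, h0, Ideal.span_singleton_eq_bot]
  have h1P : (1 : MvPolynomial Γ κ) ∉ P := fun h => hPp.ne_top ((Ideal.eq_top_iff_one P).2 h)
  have hcan : ∀ a b : H, π • a = π • b → a = b := by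
    intro a b hab
    rw [← algebraMap_smul K π a, ← algebraMap_smul K π b] at hab
    have hne : algebraMap (MvPolynomial Γ κ) K π ≠ 0 := by
      rw [Ne, IsFractionRing.to_map_eq_zero_iff]
      exact hπ
    exact smul_right_injective H hne hab
  -- a uniform exponent for the vectors
  have hone : ∀ w : H, ∃ n i : ℕ, ANb2_L G m c nab P k₀ γ₀ π i (π ^ n • w) := by
    intro w
    obtain ⟨r, hr, hb⟩ := h w
    obtain ⟨n, s, hs, rfl⟩ := ANb2_split hPp hP hr
    rw [mul_comm, mul_smul] at hb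
    obtain ⟨i, hi⟩ := bdd_red hG hB hC hP (bdd_div hC hPp hs hb)
    exact ⟨n, i, hi⟩
  choose nn ii hni using hone
  have := H_fin hG hB hC
  obtain ⟨S, hS⟩ := (Module.Finite.fg_top : (⊤ : Submodule K H).FG)
  obtain ⟨i, hi⟩ : ∃ i : ℕ, ∀ w ∈ S, ii w ≤ i := ⟨S.sup ii, fun w hw => Finset.le_sup hw⟩
  have hA : ∀ w : H, ∃ p : ℕ, ANb2_L G m c nab P k₀ γ₀ π i (π ^ p • w) := by
    intro w
    have hw : w ∈ Submodule.span K (S : Set H) := by
      rw [hS]
      exact Submodule.mem_top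
    induction hw using Submodule.span_induction with
    | mem w hw => exact ⟨nn w, ANb2_pow (hi w hw) (hni w)⟩
    | zero => exact ⟨0, by rw [smul_zero]; exact ANb2_zero hPp i⟩
    | add w w' _ _ h1 h2 =>
      obtain ⟨p1, h1⟩ := h1
      obtain ⟨p2, h2⟩ := h2
      refine ⟨p1 + p2, ?_⟩
      rw [smul_add]
      refine ANb2_add hPp ?_ ?_
      · rw [add_comm, pow_add, mul_smul]
        exact ANb2_smul hC hPp _ h1
      · rw [pow_add, mul_smul]
        exact ANb2_smul hC hPp _ h2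
    | smul f w _ h1 =>
      obtain ⟨p, h1⟩ := h1
      obtain ⟨u, v, hv, rfl⟩ := IsFractionRing.div_surjective (A := MvPolynomial Γ κ) f
      have hv0 : v ≠ 0 := nonZeroDivisors.ne_zero hv
      obtain ⟨q, s, hs, rfl⟩ := ANb2_split hPp hP hv0
      refine ⟨p + q, ANb2_div hC hPp hs ?_⟩
      have hvK : algebraMap (MvPolynomial Γ κ) K (π ^ q * s) ≠ 0 := by
        rw [Ne, IsFractionRing.to_map_eq_zero_iff]
        exact hv0
      have e : s • π ^ (p + q) • ((algebraMap (MvPolynomial Γ κ) K u / algebraMap (MvPolynomial Γ κ) K (π ^ q * s)) • w) =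
          u • (π ^ p • w) := by
        rw [← mul_smul, show s * π ^ (p + q) = (π ^ q * s) * π ^ p by ring, mul_smul, ← algebraMap_smul K (π ^ q * s),
          ← algebraMap_smul K (π ^ p) _, smul_smul, smul_smul, ← algebraMap_smul K u, ← algebraMap_smul K (π ^ p) w,
          smul_smul]
        congr 1
        rw [mul_assoc, mul_left_comm, mul_div_cancel₀ _ hvK, mul_comm]
      rw [e]
      exact ANb2_smul hC hPp _ h1
  choose pp hpp using hA
  obtain ⟨T, hT⟩ := EE_fg hG hC k₀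
  obtain ⟨n₁, hn₁⟩ : ∃ n₁ : ℕ, ∀ y ∈ T, pp y ≤ n₁ := ⟨T.sup pp, fun y hy => Finset.le_sup hy⟩
  have hlo : ∀ y ∈ lo P (EE G m c k₀), ANb2_L G m c nab P k₀ γ₀ π i (π ^ n₁ • y) := by
    rintro y ⟨s, hs, hy⟩
    refine ANb2_div hC hPp hs ?_
    rw [smul_comm]
    rw [← hT] at hy
    generalize s • y = z at hy
    induction hy using Submodule.span_induction with
    | mem y hy =>
      rw [← Nat.sub_add_cancel (hn₁ y hy), pow_add, mul_smul]
      exact ANb2_smul hC hPp _ (hpp y)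
    | zero => rw [smul_zero]; exact ANb2_zero hPp i
    | add y z _ _ h1 h2 =>
      rw [smul_add]
      exact ANb2_add hPp h1 h2
    | smul a y _ h1 =>
      rw [smul_comm]
      exact ANb2_smul hC hPp _ h1
  refine ⟨i, fun w hw => ?_⟩
  suffices hL : ANb2_L G m c nab P k₀ γ₀ π i w from hL 0
  have hex : ∃ p : ℕ, ANb2_L G m c nab P k₀ γ₀ π i (π ^ p • w) := ⟨pp w, hpp w⟩
  rcases Nat.eq_zero_or_pos (Nat.find hex) with h0 | hpos
  · have h1 := Nat.find_spec hex
    rw [h0, pow_zero, one_smul] at h1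
    exact h1
  exfalso
  obtain ⟨q, hq⟩ : ∃ q, Nat.find hex = q + 1 := ⟨Nat.find hex - 1, by omega⟩
  have hx := Nat.find_spec hex
  rw [hq] at hx
  have hmin : ¬ ANb2_L G m c nab P k₀ γ₀ π i (π ^ q • w) := Nat.find_min hex (by omega)
  have key : ∀ k : ℕ, ∃ v l, v ∉ P ∧ ANb2_L G m c nab P k₀ γ₀ π i l ∧
      π ^ (q + 1 + k) • (nab γ₀)^[k] w = v • (π ^ (q + 1) • w) + π • l := by
    intro k
    induction k with
    | zero =>
      refine ⟨1, 0, h1P, ANb2_zero hPp i, ?_⟩
      rw [smul_zero, one_smul, Function.iterate_zero, id, add_zero (q + 1), add_zero (π ^ (q + 1) • w)]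
    | succ k ih =>
      obtain ⟨v, l, hv, hl, e⟩ := ih
      obtain ⟨x, hxd⟩ : ∃ x, x = π ^ (q + 1) • w := ⟨_, rfl⟩
      rw [← hxd] at e hx ⊢
      obtain ⟨y, hyd⟩ : ∃ y, y = (nab γ₀)^[k] w := ⟨_, rfl⟩
      rw [← hyd] at e
      refine ⟨-(((q + 1 + k : ℕ) : MvPolynomial Γ κ) * pderiv γ₀ π * v),
        pderiv γ₀ v • x + v • nab γ₀ x + pderiv γ₀ π • l + π • nab γ₀ l +
          -((((q + 1 + k : ℕ) : MvPolynomial Γ κ) * pderiv γ₀ π) • l), ?_, ?_, ?_⟩
      · intro hmem
        rw [neg_mem_iff] at hmem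
        rcases hPp.mem_or_mem hmem with h1 | h1
        · rcases hPp.mem_or_mem h1 with h2 | h2
          · have hN : ((q + 1 + k : ℕ) : κ) ≠ 0 := by
              rw [Nat.cast_ne_zero]
              omega
            have hun : IsUnit (((q + 1 + k : ℕ) : MvPolynomial Γ κ)) := by
              rw [← map_natCast (C : κ →+* MvPolynomial Γ κ)]
              exact (IsUnit.mk0 _ hN).map C
            exact hPp.ne_top (Ideal.eq_top_of_isUnit_mem _ h2 hun)
          · exact hγ h2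
        · exact hv h1
      · exact ANb2_add hPp (ANb2_add hPp (ANb2_add hPp (ANb2_add hPp (ANb2_smul hC hPp _ hx)
          (ANb2_smul hC hPp _ (ANb2_nab hx))) (ANb2_smul hC hPp _ hl)) (ANb2_smul hC hPp _ (ANb2_nab hl)))
          (ANb2_neg hC hPp (ANb2_smul hC hPp _ hl))
      · have e1 := congrArg (nab γ₀) e
        rw [nab_smul hC, map_add, nab_smul hC, nab_smul hC, pderiv_pow] at e1
        have e2 := congrArg (fun z => π • z) e1
        simp only [smul_add] at e2
        rw [← mul_smul π (_ * _) y] at e2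
        have e3 : π * (((q + 1 + k : ℕ) : MvPolynomial Γ κ) * π ^ (q + 1 + k - 1) * pderiv γ₀ π) =
            (((q + 1 + k : ℕ) : MvPolynomial Γ κ) * pderiv γ₀ π) * π ^ (q + 1 + k) := by
          have : π ^ (q + 1 + k) = π * π ^ (q + 1 + k - 1) := by
            rw [← pow_succ']
            congr 1
            omega
          rw [this]
          ring
        rw [e3, mul_smul _ (π ^ (q + 1 + k)) y, e] at e2
        have e4 : π ^ (q + 1 + (k + 1)) • (nab γ₀)^[k + 1] w = π • (π ^ (q + 1 + k) • nab γ₀ y) := by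
          rw [Function.iterate_succ_apply', ← hyd, ← mul_smul, ← pow_succ']
          rfl
        rw [e4]
        linear_combination (norm := module) e2
  obtain ⟨i', hi'⟩ := bdd_red hG hB hC hP hw
  obtain ⟨v, l, hv, hl, e⟩ := key (n₁ + i')
  have hz := hlo _ (hi' (n₁ + i'))
  have e6 : π ^ (q + 1 + (n₁ + i')) • (nab γ₀)^[n₁ + i'] w =
      π • (π ^ q • (π ^ n₁ • (π ^ i' • (nab γ₀)^[n₁ + i'] w))) := by
    rw [← mul_smul, ← mul_smul, ← mul_smul]
    congr 1
    ring
  rw [e6, pow_succ', mul_smul, smul_comm v π, ← smul_add] at e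
  have e7 := hcan _ _ e
  refine hmin (ANb2_div hC hPp hv ?_)
  have e8 : v • (π ^ q • w) = π ^ q • (π ^ n₁ • (π ^ i' • (nab γ₀)^[n₁ + i'] w)) + -l := by
    rw [e7]
    abel
  rw [e8]
  exact ANb2_add hPp (ANb2_smul hC hPp _ hz) (ANb2_neg hC hPp hl)

end main

end MPadcDC
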