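import Pool.Agent.Lib.MP_adc574_ag_DC.ANb3

/-!
# JOB ANbd (DC): there are no bounded functionals

Notation: `O = {f ∈ K | ∃ s r, s ∉ P, algebraMap s * f = algebraMap r}`, a subring of `K` (`P` prime); `D := dK γ₀` maps `O` to `O` (quotient rule: `s f = r` gives `s D f = D r - (D s) f`, multiply with `s`) and also every `dK γ`. For `z : H →ₗ[K] K` and `γ` define `nst γ z : H →ₗ[K] K`, `x ↦ dK γ (z x) - z (nab γ x)` (`K`-linear by `hC.leib`). `nst γ` and
`nst γ₀` commute (`hC.comm`, and the `dK` commute on `K`: `dK γ (dK γ₀ f) = dK γ₀ (dK γ f)`, true on the image of `R` (`pderiv` commute: `MvPolynomial` lemma or `Derivation` extensionality) and so on fractions). The given `z k` is `(nst γ₀)^[k] (z 0)`.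
`BD i z := ∀ k, ∀ x ∈ EE k₀, algebraMap (π ^ i) * (nst γ₀^[k] z) x ∈ O`; `W := {z | ∃ i, BD i z}`.
(1) `W` is closed under `+` and multiplication with `algebraMap r` (Leibniz: `nst γ₀ (f z) = D f z + f nst γ₀ z`) (2) `nst γ (W) ⊆ W`: with `z' = nst γ₀^[k] z`: `(nst γ z') x = dK γ (z' x) - z' (nab γ x)`; `π ^ (i + 1) dK γ (z' x) ∈ O` (from `π ^ i (z' x) ∈ O` and Leibniz), `π • nab γ x ∈ EE k₀` for `x ∈ EE k₀`
(`nab_EE`, `EE_kill`, `π ∈ P`), so `π ^ (i + 1) z' (nab γ x) = π ^ i z' (π • nab γ x) ∈ O`. So `BD (i + 1) (nst γ z)`.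
(3) `N := {x | ∀ z ∈ W, z x = 0}` is a `K`-subspace of `H`, stable under `nab γ`: `z (nab γ x) = dK γ (z x) - (nst γ z) x = 0`. `irr`: `N = ⊤`: then `z 0 ∈ W` (hypothesis) is `0`: done. `N = ⊥`: then the `K`-span of `W` is the whole dual space (`H` finite dimensional: `H_fin`; `Subspace.dualCoannihilator` / `Submodule.span_eq_top_of_...`:
a proper subspace of the dual of a finite dimensional space is killed by some `x ≠ 0`), so `W` contains a basis `z_1 .. z_g` of the dual, with a common `i`. Let `e_1 .. e_g ∈ H` be the dual basis (`x = ∑ z_a(x) e_a`). We show: every `w ∈ H` has a multiple `r • w`, `r ≠ 0`, with `Bdd (r • w)`; then `bdd_all` gives `H = 0` and `z 0 = 0`.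
`Λ := {x | ∀ a k, (nst γ₀^[k] z_a) x ∈ O}` is stable under `nab γ₀` (`(nst^[k] z)(nab x) = D ((nst^[k] z) x) - (nst^[k+1] z) x`), contains `π ^ i • x` for `x ∈ EE k₀`. For `x ∈ Λ`: `x = ∑ z_a(x) e_a`, `z_a(x) ∈ O`, and there is `r₁ = s₁ π ^ n` with `r₁ • e_a ∈ EE k₀` for all `a` (`EE_spn`), so `s₁ π ^ n • x = ∑ z_a(x) • (r₁ • e_a)`
and `π ^ n • x ∈ lo P (EE k₀)` (clear the denominators of the `z_a(x) ∈ O`). For `w ∈ H`: `r • w ∈ EE k₀` (`EE_spn`), `w' := π ^ i • r • w ∈ Λ`, `nab γ₀^[k] w' ∈ Λ`, `π ^ n • nab^[k] w' ∈ lo P (EE k₀)`: `Bdd w'` with `(n, k₀)`.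
(Facts on `lo` are in ANb1: `lo_add`, `lo_smul`, `lo_div`.)
-/

set_option autoImplicit false
set_option linter.unusedSectionVars false

namespace MPadcDC

open MvPolynomial TensorProduct

universe u

section main

variable {κ : Type u} [Field κ] [CharZero κ] {Γ : Type} [Fintype Γ] [DecidableEq Γ] {V : Type u}
  [AddCommGroup V] [Module κ V] {K : Type u} [Field K] [Algebra (MvPolynomial Γ κ) K]
  [IsFractionRing (MvPolynomial Γ κ) K] {H : Type u} [AddCommGroup H] [Module K H]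
  [Module (MvPolynomial Γ κ) H] [IsScalarTower (MvPolynomial Γ κ) K H]
  {G : Cx κ Γ V} {m : ℕ} {P : Ideal (MvPolynomial Γ κ)} {k₀ : ℕ} {dK : Γ → Derivation ℤ K K}
  {nab : Γ → H →+ H} {c : V →+ H}

/-- The local ring at `P`, as a set. -/
private def ANbd_O (K : Type u) [Field K] [Algebra (MvPolynomial Γ κ) K] (P : Ideal (MvPolynomial Γ κ)) : Set K :=
  {f | ∃ s r : MvPolynomial Γ κ, s ∉ P ∧
    algebraMap (MvPolynomial Γ κ) K s * f = algebraMap (MvPolynomial Γ κ) K r}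

private theorem ANbd_mul_notMem (hP : P.IsPrime) {s t : MvPolynomial Γ κ} (hs : s ∉ P) (ht : t ∉ P) : s * t ∉ P :=
  fun h => (hP.mem_or_mem h).elim hs ht

private theorem ANbd_alg (hP : P.IsPrime) (r : MvPolynomial Γ κ) :
    algebraMap (MvPolynomial Γ κ) K r ∈ ANbd_O K P :=
  ⟨1, r, fun h => hP.ne_top ((Ideal.eq_top_iff_one P).2 h), by rw [map_one, one_mul]⟩

private theorem ANbd_mul (hP : P.IsPrime) {f g : K} (hf : f ∈ ANbd_O K P) (hg : g ∈ ANbd_O K P) :
    f * g ∈ ANbd_O K P := by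
  obtain ⟨s, r, hs, h⟩ := hf
  obtain ⟨s', r', hs', h'⟩ := hg
  refine ⟨s * s', r * r', ANbd_mul_notMem hP hs hs', ?_⟩
  rw [map_mul, map_mul, ← h, ← h']
  ring

private theorem ANbd_sub (hP : P.IsPrime) {f g : K} (hf : f ∈ ANbd_O K P) (hg : g ∈ ANbd_O K P) :
    f - g ∈ ANbd_O K P := by
  obtain ⟨s, r, hs, h⟩ := hf
  obtain ⟨s', r', hs', h'⟩ := hg
  refine ⟨s * s', s' * r - s * r', ANbd_mul_notMem hP hs hs', ?_⟩
  rw [map_sub, map_mul, map_mul, map_mul, ← h, ← h']
  ring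

private theorem ANbd_add (hP : P.IsPrime) {f g : K} (hf : f ∈ ANbd_O K P) (hg : g ∈ ANbd_O K P) :
    f + g ∈ ANbd_O K P := by
  obtain ⟨s, r, hs, h⟩ := hf
  obtain ⟨s', r', hs', h'⟩ := hg
  refine ⟨s * s', s' * r + s * r', ANbd_mul_notMem hP hs hs', ?_⟩
  rw [map_add, map_mul, map_mul, map_mul, ← h, ← h']
  ring

private theorem ANbd_dK (hC : Con G m dK nab c) (hP : P.IsPrime) (γ : Γ) {f : K} (hf : f ∈ ANbd_O K P) :
    dK γ f ∈ ANbd_O K P := by
  obtain ⟨s, r, hs, h⟩ := hf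
  refine ⟨s * s, s * pderiv γ r - r * pderiv γ s, ANbd_mul_notMem hP hs hs, ?_⟩
  have h1 := congrArg (dK γ) h
  rw [Derivation.leibniz, smul_eq_mul, smul_eq_mul, hC.dK_alg, hC.dK_alg] at h1
  rw [map_sub, map_mul, map_mul, map_mul, ← h1, ← h]
  ring

private theorem ANbd_dK_comm (hC : Con G m dK nab c) (γ γ' : Γ) (f : K) :
    dK γ (dK γ' f) = dK γ' (dK γ f) := by
  have key : ∀ r : MvPolynomial Γ κ, pderiv γ (pderiv γ' r) = pderiv γ' (pderiv γ r) := by
    intro r
    have h0 : ⁅(pderiv γ : Derivation κ (MvPolynomial Γ κ) (MvPolynomial Γ κ)),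
        (pderiv γ' : Derivation κ (MvPolynomial Γ κ) (MvPolynomial Γ κ))⁆ = 0 := by
      apply derivation_ext
      intro i
      rw [Derivation.commutator_apply, pderiv_X, pderiv_X]
      have e : ∀ (a b : Γ), pderiv a (Pi.single (M := fun _ : Γ => MvPolynomial Γ κ) b 1 i) =
          (0 : MvPolynomial Γ κ) := by
        intro a b
        by_cases hb : i = b
        · subst hb
          rw [Pi.single_eq_same, pderiv_one]
        · rw [Pi.single_eq_of_ne hb, map_zero]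
      rw [e, e]
      simp
    have h1 := congrArg (fun D => D r) h0
    simp only [Derivation.commutator_apply, Derivation.coe_zero, Pi.zero_apply] at h1
    exact sub_eq_zero.1 h1
  have halg : ∀ r : MvPolynomial Γ κ, ⁅dK γ, dK γ'⁆ (algebraMap (MvPolynomial Γ κ) K r) = 0 := by
    intro r
    rw [Derivation.commutator_apply, hC.dK_alg, hC.dK_alg, hC.dK_alg, hC.dK_alg, key, sub_self]
  obtain ⟨a, b, hb, hab⟩ := IsFractionRing.div_surjective (A := MvPolynomial Γ κ) f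
  have hb0 : algebraMap (MvPolynomial Γ κ) K b ≠ 0 :=
    IsFractionRing.to_map_ne_zero_of_mem_nonZeroDivisors hb
  have h2 : algebraMap (MvPolynomial Γ κ) K b * f = algebraMap (MvPolynomial Γ κ) K a := by
    rw [← hab]
    field_simp
  have h3 : ⁅dK γ, dK γ'⁆ (algebraMap (MvPolynomial Γ κ) K b * f) =
      ⁅dK γ, dK γ'⁆ (algebraMap (MvPolynomial Γ κ) K a) := by rw [h2]
  rw [Derivation.leibniz, halg, halg, smul_zero, add_zero, smul_eq_mul] at h3
  have h4 : ⁅dK γ, dK γ'⁆ f = 0 := (mul_eq_zero.1 h3).resolve_left hb0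
  rw [Derivation.commutator_apply] at h4
  exact sub_eq_zero.1 h4

/-- The dual connection. -/
private def ANbd_nst (hC : Con G m dK nab c) (γ : Γ) : (H →ₗ[K] K) →+ (H →ₗ[K] K) where
  toFun z :=
    { toFun := fun x => dK γ (z x) - z (nab γ x)
      map_add' := by
        intro x y
        rw [map_add, map_add, map_add, map_add]
        ring
      map_smul' := by
        intro f x
        have e : ∀ (g : K) (y : H), z (g • y) = g * z y := fun g y => by rw [map_smul, smul_eq_mul]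
        rw [hC.leib, map_add, e, e, e, Derivation.leibniz, smul_eq_mul, smul_eq_mul, RingHom.id_apply,
          smul_eq_mul]
        ring }
  map_zero' := by
    ext x
    simp
  map_add' := by
    intro z z'
    ext x
    simp only [LinearMap.add_apply, LinearMap.coe_mk, AddHom.coe_mk, map_add]
    ring

private theorem ANbd_nst_apply (hC : Con G m dK nab c) (γ : Γ) (z : H →ₗ[K] K) (x : H) :
    ANbd_nst hC γ z x = dK γ (z x) - z (nab γ x) := rfl

private theorem ANbd_nst_comm (hC : Con G m dK nab c) (γ γ' : Γ) (z : H →ₗ[K] K) :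
    ANbd_nst hC γ (ANbd_nst hC γ' z) = ANbd_nst hC γ' (ANbd_nst hC γ z) := by
  ext x
  rw [ANbd_nst_apply, ANbd_nst_apply, ANbd_nst_apply, ANbd_nst_apply, ANbd_nst_apply, ANbd_nst_apply,
    map_sub, map_sub, ANbd_dK_comm hC γ γ', hC.comm γ γ']
  ring

private theorem ANbd_nst_iter_comm (hC : Con G m dK nab c) (γ γ' : Γ) (k : ℕ) (z : H →ₗ[K] K) :
    (ANbd_nst hC γ)^[k] (ANbd_nst hC γ' z) = ANbd_nst hC γ' ((ANbd_nst hC γ)^[k] z) := by
  induction k with
  | zero => rfl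
  | succ k ih =>
    rw [Function.iterate_succ_apply', ih, ANbd_nst_comm hC γ γ', Function.iterate_succ_apply']

/-- Bounded functionals. -/
private def ANbd_BD (k₀ : ℕ) (P : Ideal (MvPolynomial Γ κ)) (hC : Con G m dK nab c) (γ₀ : Γ)
    (π : MvPolynomial Γ κ) (i : ℕ) (z : H →ₗ[K] K) : Prop :=
  ∀ k, ∀ x ∈ EE G m c k₀, algebraMap (MvPolynomial Γ κ) K (π ^ i) * ((ANbd_nst hC γ₀)^[k] z) x ∈ ANbd_O K P

private theorem ANbd_BD_mono (hC : Con G m dK nab c) (hP : P.IsPrime) {γ₀ : Γ} {π : MvPolynomial Γ κ} {i j : ℕ}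
    (hij : i ≤ j) {z : H →ₗ[K] K} (h : ANbd_BD k₀ P hC γ₀ π i z) : ANbd_BD k₀ P hC γ₀ π j z := by
  intro k x hx
  obtain ⟨d, rfl⟩ := Nat.exists_eq_add_of_le hij
  rw [pow_add, mul_comm (π ^ i), map_mul, mul_assoc]
  exact ANbd_mul hP (ANbd_alg hP _) (h k x hx)

private theorem ANbd_map_smul (z : H →ₗ[K] K) (r : MvPolynomial Γ κ) (x : H) :
    z (r • x) = algebraMap (MvPolynomial Γ κ) K r * z x := by
  rw [← algebraMap_smul K r x, map_smul, smul_eq_mul]

private theorem ANbd_pderiv_pow (γ : Γ) (π : MvPolynomial Γ κ) (i : ℕ) :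
    ∃ q : MvPolynomial Γ κ, π * pderiv γ (π ^ i) = q * π ^ i := by
  induction i with
  | zero =>
    refine ⟨0, ?_⟩
    rw [pow_zero, pderiv_one]
    ring
  | succ i ih =>
    obtain ⟨q, hq⟩ := ih
    refine ⟨q + pderiv γ π, ?_⟩
    rw [pow_succ, pderiv_mul]
    calc π * (pderiv γ (π ^ i) * π + π ^ i * pderiv γ π)
        = (π * pderiv γ (π ^ i)) * π + pderiv γ π * (π ^ i * π) := by ring
      _ = (q + pderiv γ π) * (π ^ i * π) := by rw [hq]; ring

private theorem ANbd_BD_nst (hG : G.Ok) (hB : G.Bad m P k₀) (hC : Con G m dK nab c) {γ₀ : Γ}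
    {π : MvPolynomial Γ κ} (hP : P = Ideal.span {π}) (γ : Γ) {i : ℕ} {z : H →ₗ[K] K}
    (h : ANbd_BD k₀ P hC γ₀ π i z) : ANbd_BD k₀ P hC γ₀ π (i + 1) (ANbd_nst hC γ z) := by
  have hp := hB.prime
  intro k x hx
  rw [ANbd_nst_iter_comm, ANbd_nst_apply]
  obtain ⟨z', hz'⟩ : ∃ z', z' = (ANbd_nst hC γ₀)^[k] z := ⟨_, rfl⟩
  have hb : ∀ y ∈ EE G m c k₀, algebraMap (MvPolynomial Γ κ) K (π ^ i) * z' y ∈ ANbd_O K P := by
    rw [hz']
    exact fun y hy => h k y hy
  rw [← hz']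
  have hπP : π ∈ P := by
    rw [hP]
    exact Ideal.mem_span_singleton_self π
  -- second term
  have h2 : algebraMap (MvPolynomial Γ κ) K (π ^ (i + 1)) * z' (nab γ x) ∈ ANbd_O K P := by
    have h3 := hb _ (EE_kill hG hB hC le_rfl hπP (nab_EE hG hC γ hx))
    rw [ANbd_map_smul, ← mul_assoc, ← map_mul, ← pow_succ] at h3
    exact h3
  -- first term
  have h1 : algebraMap (MvPolynomial Γ κ) K (π ^ (i + 1)) * dK γ (z' x) ∈ ANbd_O K P := by
    obtain ⟨q, hq⟩ := ANbd_pderiv_pow γ π i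
    have h4 := ANbd_dK hC hp γ (hb x hx)
    rw [Derivation.leibniz, smul_eq_mul, smul_eq_mul, hC.dK_alg] at h4
    have h5 := ANbd_sub hp (ANbd_mul hp (ANbd_alg hp π) h4) (ANbd_mul hp (ANbd_alg hp q) (hb x hx))
    have h6 : algebraMap (MvPolynomial Γ κ) K (π ^ (i + 1)) * dK γ (z' x) =
        algebraMap (MvPolynomial Γ κ) K π *
          (algebraMap (MvPolynomial Γ κ) K (π ^ i) * dK γ (z' x) +
            z' x * algebraMap (MvPolynomial Γ κ) K (pderiv γ (π ^ i))) -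
          algebraMap (MvPolynomial Γ κ) K q * (algebraMap (MvPolynomial Γ κ) K (π ^ i) * z' x) := by
      have h7 := congrArg (algebraMap (MvPolynomial Γ κ) K) hq
      rw [map_mul, map_mul] at h7
      rw [pow_succ, map_mul]
      linear_combination (-(z' x)) * h7
    rw [h6]
    exact h5
  rw [mul_sub]
  exact ANbd_sub hp h1 h2

/-- `f • y` for `f` in the local ring. -/
private theorem ANbd_smul_lo {E : Submodule (MvPolynomial Γ κ) H} {f : K} (hf : f ∈ ANbd_O K P) {y : H}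
    (hy : y ∈ E) : f • y ∈ lo P E := by
  obtain ⟨s, r, hs, h⟩ := hf
  refine ⟨s, hs, ?_⟩
  have e : s • (f • y) = r • y := by
    rw [← algebraMap_smul K s (f • y), smul_smul, h, algebraMap_smul]
  rw [e]
  exact E.smul_mem r hy

private theorem ANbd_sum_lo (hP : P.IsPrime) {E : Submodule (MvPolynomial Γ κ) H} {ι : Type*} (t : Finset ι)
    (f : ι → H) (h : ∀ a ∈ t, f a ∈ lo P E) : ∑ a ∈ t, f a ∈ lo P E := by
  classical
  induction t using Finset.induction_on with
  | empty =>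
    refine ⟨1, fun h => hP.ne_top ((Ideal.eq_top_iff_one P).2 h), ?_⟩
    rw [Finset.sum_empty, smul_zero]
    exact E.zero_mem
  | insert a t hat ih =>
    rw [Finset.sum_insert hat]
    exact lo_add hP (h a (Finset.mem_insert_self a t))
      (ih (fun b hb => h b (Finset.mem_insert_of_mem hb)))

/-- Finitely many functionals are enough. -/
private theorem ANbd_fin [Module.Finite K H] (W : Set (H →ₗ[K] K)) (hW : ∀ x : H, (∀ z ∈ W, z x = 0) → x = 0) :
    ∃ t : Finset W, ∀ x : H, (∀ a ∈ t, (a : H →ₗ[K] K) x = 0) → x = 0 := by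
  obtain ⟨t, ht⟩ := Finset.exists_inf_le (fun a : W => LinearMap.ker (a : H →ₗ[K] K))
  refine ⟨t, fun x hx => hW x ?_⟩
  intro z hz
  have h1 : x ∈ t.inf (fun a : W => LinearMap.ker (a : H →ₗ[K] K)) := by
    rw [Submodule.mem_finsetInf]
    intro a ha
    exact LinearMap.mem_ker.2 (hx a ha)
  exact LinearMap.mem_ker.1 (ht ⟨z, hz⟩ h1)

/-- The expansion of vectors. -/
private theorem ANbd_exp {W : Set (H →ₗ[K] K)} (t : Finset W)
    (ht : ∀ x : H, (∀ a ∈ t, (a : H →ₗ[K] K) x = 0) → x = 0) :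
    ∃ e : t → H, ∀ x : H, x = ∑ a : t, ((a : W) : H →ₗ[K] K) x • e a := by
  classical
  let Φ : H →ₗ[K] (t → K) := LinearMap.pi (fun a : t => ((a : W) : H →ₗ[K] K))
  have hker : LinearMap.ker Φ = ⊥ := by
    rw [LinearMap.ker_eq_bot']
    intro x hx
    apply ht
    intro a ha
    exact congrFun hx ⟨a, ha⟩
  obtain ⟨Ψ, hΨ⟩ := LinearMap.exists_leftInverse_of_injective Φ hker
  refine ⟨fun a => Ψ (Pi.single a 1), fun x => ?_⟩
  have h1 : Ψ (Φ x) = x := by
    rw [← LinearMap.comp_apply, hΨ, LinearMap.id_apply]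
  have h2 : Φ x = ∑ a : t, ((a : W) : H →ₗ[K] K) x • (Pi.single a (1 : K) : t → K) := by
    funext b
    rw [Finset.sum_apply, Finset.sum_eq_single b]
    · rw [Pi.smul_apply, Pi.single_eq_same, smul_eq_mul, mul_one]
      rfl
    · intro a _ hab
      rw [Pi.smul_apply, Pi.single_eq_of_ne (Ne.symm hab), smul_zero]
    · intro hb
      exact absurd (Finset.mem_univ b) hb
  rw [h2, map_sum] at h1
  conv_lhs => rw [← h1]
  refine Finset.sum_congr rfl (fun a _ => ?_)
  rw [map_smul]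

theorem nbd (hG : G.Ok) (hB : G.Bad m P k₀) (hC : Con G m dK nab c) {γ₀ : Γ} {π : MvPolynomial Γ κ}
    (hP : P = Ideal.span {π}) (hγ : pderiv γ₀ π ∉ P) (z : ℕ → H →ₗ[K] K)
    (hz : ∀ k x, z (k + 1) x = dK γ₀ (z k x) - z k (nab γ₀ x)) (i : ℕ)
    (h : ∀ k, ∀ x ∈ EE G m c k₀, ∃ s r : MvPolynomial Γ κ, s ∉ P ∧
      algebraMap (MvPolynomial Γ κ) K (s * π ^ i) * z k x = algebraMap (MvPolynomial Γ κ) K r) : z 0 = 0 := by
  classical
  have hp := hB.prime
  have hπ0 : π ≠ 0 := by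
    intro h0
    apply hB.ne
    rw [hP, h0, Ideal.span_singleton_eq_bot]
  have hπ : Prime π := (Ideal.span_singleton_prime hπ0).1 (hP ▸ hp)
  have hπP : π ∈ P := by
    rw [hP]
    exact Ideal.mem_span_singleton_self π
  have hzk : ∀ k, (ANbd_nst hC γ₀)^[k] (z 0) = z k := by
    intro k
    induction k with
    | zero => rfl
    | succ k ih =>
      rw [Function.iterate_succ_apply', ih]
      ext x
      rw [ANbd_nst_apply, hz]
  let W : Set (H →ₗ[K] K) := {y | ∃ i, ANbd_BD k₀ P hC γ₀ π i y}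
  have hz0 : z 0 ∈ W := by
    refine ⟨i, fun k x hx => ?_⟩
    obtain ⟨s, r, hs, hr⟩ := h k x hx
    refine ⟨s, r, hs, ?_⟩
    rw [hzk, ← hr, map_mul, mul_assoc]
  let N : Submodule K H :=
    { carrier := {x | ∀ y ∈ W, y x = 0}
      add_mem' := by
        intro a b ha hb y hy
        rw [map_add, ha y hy, hb y hy, add_zero]
      zero_mem' := fun y _ => map_zero y
      smul_mem' := by
        intro f a ha y hy
        rw [map_smul, ha y hy, smul_zero] }
  have hst : ∀ γ, ∀ x ∈ N, nab γ x ∈ N := by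
    intro γ x hx y hy
    obtain ⟨j, hj⟩ := hy
    have h1 : ANbd_nst hC γ y ∈ W := ⟨j + 1, ANbd_BD_nst hG hB hC hP γ hj⟩
    have h2 := hx _ h1
    rw [ANbd_nst_apply, hx y ⟨j, hj⟩, map_zero, zero_sub, neg_eq_zero] at h2
    exact h2
  rcases irr hG hB hC N hst with hN | hN
  · -- the functionals in W separate
    have hsep : ∀ x : H, (∀ y ∈ W, y x = 0) → x = 0 := by
      intro x hx
      have : x ∈ N := hx
      rw [hN] at this
      exact (Submodule.mem_bot K).1 this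
    have := H_fin hG hB hC
    obtain ⟨t, ht⟩ := ANbd_fin W hsep
    obtain ⟨e, he⟩ := ANbd_exp t ht
    -- common bound
    have hI : ∃ I : ℕ, ∀ a ∈ t, ANbd_BD k₀ P hC γ₀ π I (a : H →ₗ[K] K) := by
      choose ia hia using fun a : W => a.2
      refine ⟨t.sup ia, fun a ha => ?_⟩
      exact ANbd_BD_mono hC hp (Finset.le_sup ha) (hia a)
    obtain ⟨I, hI⟩ := hI
    let Λ : Set H := {x | ∀ a ∈ t, ∀ k, ((ANbd_nst hC γ₀)^[k] (a : H →ₗ[K] K)) x ∈ ANbd_O K P}
    have hΛ1 : ∀ x ∈ Λ, nab γ₀ x ∈ Λ := by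
      intro x hx a ha k
      have h1 : ((ANbd_nst hC γ₀)^[k] (a : H →ₗ[K] K)) (nab γ₀ x) =
          dK γ₀ (((ANbd_nst hC γ₀)^[k] (a : H →ₗ[K] K)) x) -
            ((ANbd_nst hC γ₀)^[k + 1] (a : H →ₗ[K] K)) x := by
        rw [Function.iterate_succ_apply', ANbd_nst_apply]
        ring
      rw [h1]
      exact ANbd_sub hp (ANbd_dK hC hp γ₀ (hx a ha k)) (hx a ha (k + 1))
    have hΛ1' : ∀ k, ∀ x ∈ Λ, (nab γ₀)^[k] x ∈ Λ := by
      intro k
      induction k with
      | zero => exact fun x hx => hx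
      | succ k ih =>
        intro x hx
        rw [Function.iterate_succ_apply']
        exact hΛ1 _ (ih x hx)
    have hΛ2 : ∀ x ∈ EE G m c k₀, π ^ I • x ∈ Λ := by
      intro x hx a ha k
      rw [ANbd_map_smul]
      exact hI a ha k x hx
    have hΛ3 : ∃ n : ℕ, ∀ x ∈ Λ, π ^ n • x ∈ lo P (EE G m c k₀) := by
      choose r hr0 hr using fun a : t => EE_spn hG hB hC (e a)
      have hr1 : (∏ a : t, r a) ≠ 0 := Finset.prod_ne_zero_iff.2 (fun a _ => hr0 a)
      have hr2 : ∀ a : t, (∏ b : t, r b) • e a ∈ EE G m c k₀ := by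
        intro a
        rw [← Finset.mul_prod_erase Finset.univ r (Finset.mem_univ a), mul_comm, mul_smul]
        exact Submodule.smul_mem _ _ (hr a)
      obtain ⟨s₁, hs₁, hs₁'⟩ := (FiniteMultiplicity.of_prime_left hπ hr1).exists_eq_pow_mul_and_not_dvd
      have hs₁P : s₁ ∉ P := by
        rw [hP, Ideal.mem_span_singleton]
        exact hs₁'
      refine ⟨multiplicity π (∏ a : t, r a), fun x hx => ?_⟩
      apply lo_div hp hs₁P
      rw [smul_smul, mul_comm s₁, ← hs₁, he x, Finset.smul_sum]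
      apply ANbd_sum_lo hp
      intro a _
      rw [smul_comm]
      exact ANbd_smul_lo (hx a a.2 0) (hr2 a)
    obtain ⟨n, hn⟩ := hΛ3
    have hH : ∀ w : H, w = 0 := by
      intro w
      apply bdd_all hG hB hC hP hγ _ w
      intro w
      obtain ⟨r, hr0, hr⟩ := EE_spn hG hB hC w
      refine ⟨π ^ I * r, mul_ne_zero (pow_ne_zero _ hπ0) hr0, n, k₀, fun k => ?_⟩
      rw [mul_smul]
      exact hn _ (hΛ1' k _ (hΛ2 _ hr))
    ext x
    rw [hH x, map_zero, map_zero]
  · ext x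
    have hx : x ∈ N := by
      rw [hN]
      trivial
    exact hx _ hz0

end main

end MPadcDC
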