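import Pool.Agent.Lib.MP_adc574_ag_DC.ADefs

/-!
# JOB AVan1 (DC): reduction of the weight

`nF = d + TF` (`Cx.nF`), `d : VR q k → VR (q + 1) k`, `TF : VR q k → VR (q + 1) (k + 1)` (on `f ⊗ v`: `LinearMap.baseChange_tmul`, `hG.d_mem`, `hG.wd_mem`; `VR q k = (Vd q k).baseChange R` is the span of the `1 ⊗ v`, `v ∈ Vd q k`).
First lemma `VR_indep`: `iSupIndep (G.VR q)` from `hG.indep q` (base change of independent subspaces; e.g. `κ` is a field: `R` is free over `κ`; the components: for `∑ x_k = 0`, `x_k ∈ VR q k`: choose a `κ`-basis `B` of `R` (`MvPolynomial.basisMonomials`), `R ⊗ V ≅ B →₀ V`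
(`Module.Basis.baseChange`-like or `TensorProduct.equivFinsuppOfBasisLeft`), and `x ∈ (Vd q k).baseChange R` iff all coordinates are in `Vd q k`). Or use the projections: there are `κ`-linear `p_k : ⨆ Vd q j → V`... any proof is fine.
* `van_red`: take `k₀` from `hK`, result with `k₀ + 1`. Let `x = ∑_{k ≤ N} x_k`, `x_k ∈ VR (q + 1) k`, `nF x = 0`. Induction on `N`: if `N ≤ k₀` done (`b = 0`). Else `N = k + 1`, `k ≥ k₀`: the component of `nF x = 0` in `VR (q + 2) (N + 1)` is `TF x_N` (all the others: `d x_j ∈ VR (q + 2) j`, `TF x_j ∈ VR (q + 2) (j + 1)`), so `TF x_N = 0` by independence;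
`hK.2`: `x_N = TF b`, `b ∈ VR q k`. `x' := x - nF b = ∑_{j < N} x_j - d b`, `d b ∈ VR (q + 1) k`, `k < N`, and `nF x' = 0` since `nF (nF b) = 0` (lemma `nF_nF`: from `d_d`, `d_wd`, `wd_wd`: `TF TF = 0` because `∑_{γ, γ'} X γ X γ' wd γ wd γ'` is antisymmetric, in characteristic `0`; `d TF + TF d = 0` by `d_wd`). Induct.
-/

set_option autoImplicit false
set_option linter.unusedSectionVars false

namespace MPadcDC

open MvPolynomial TensorProduct

universe u

section vanish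

variable {κ : Type u} [Field κ] [CharZero κ] {Γ : Type} [Fintype Γ] [DecidableEq Γ] {V : Type u}
  [AddCommGroup V] [Module κ V] {G : Cx κ Γ V}

private theorem AVan1_tmul {q k : ℕ} (r : MvPolynomial Γ κ) {v : V} (hv : v ∈ G.Vd q k) :
    r ⊗ₜ[κ] v ∈ G.VR q k :=
  Submodule.tmul_mem_baseChange_of_mem r hv

private theorem AVan1_ind {q k : ℕ} {p : MvPolynomial Γ κ ⊗[κ] V → Prop} (h0 : p 0)
    (hadd : ∀ x y, p x → p y → p (x + y)) (ht : ∀ (r : MvPolynomial Γ κ) (v : V), v ∈ G.Vd q k → p (r ⊗ₜ[κ] v))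
    {x : MvPolynomial Γ κ ⊗[κ] V} (hx : x ∈ G.VR q k) : p x := by
  obtain ⟨y, rfl⟩ : x ∈ LinearMap.range ((G.Vd q k).subtype.baseChange (MvPolynomial Γ κ)) := hx
  induction y using TensorProduct.induction_on with
  | zero => simpa using h0
  | tmul r v =>
    rw [LinearMap.baseChange_tmul]
    exact ht r v v.2
  | add y z hy hz =>
    rw [map_add]
    exact hadd _ _ hy hz

private theorem AVan1_proj (A W : Submodule κ V) (h : Disjoint A W) :
    ∃ p : V →ₗ[κ] V, (∀ a ∈ A, p a = a) ∧ ∀ w ∈ W, p w = 0 := by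
  obtain ⟨g, hg⟩ := LinearMap.exists_leftInverse_of_injective (W.mkQ.comp A.subtype) (by
    rw [LinearMap.ker_eq_bot']
    intro a ha
    have h1 : (a : V) ∈ W := by
      have h2 : W.mkQ (a : V) = 0 := ha
      rwa [Submodule.mkQ_apply, Submodule.Quotient.mk_eq_zero] at h2
    have h3 := (Submodule.disjoint_def.1 h) (a : V) a.2 h1
    exact Subtype.ext h3)
  refine ⟨A.subtype.comp (g.comp W.mkQ), fun a ha => ?_, fun w hw => ?_⟩
  · have h1 := LinearMap.congr_fun hg ⟨a, ha⟩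
    have h2 : g (W.mkQ a) = ⟨a, ha⟩ := h1
    rw [LinearMap.comp_apply, LinearMap.comp_apply, h2]
    rfl
  · have h1 : W.mkQ w = 0 := by rwa [Submodule.mkQ_apply, Submodule.Quotient.mk_eq_zero]
    rw [LinearMap.comp_apply, LinearMap.comp_apply, h1, map_zero, map_zero]

theorem VR_indep (hG : G.Ok) (q : ℕ) : iSupIndep (G.VR q) := by
  intro k
  obtain ⟨p, hp1, hp2⟩ := AVan1_proj (G.Vd q k) (⨆ (j) (_ : j ≠ k), G.Vd q j) (hG.indep q k)
  rw [Submodule.disjoint_def]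
  intro x hx hx'
  have h1 : p.baseChange (MvPolynomial Γ κ) x = x := by
    refine AVan1_ind (p := fun x => p.baseChange (MvPolynomial Γ κ) x = x) (map_zero _) ?_ ?_ hx
    · intro x y hx hy
      rw [map_add, hx, hy]
    · intro r v hv
      rw [LinearMap.baseChange_tmul, hp1 v hv]
  have h2 : p.baseChange (MvPolynomial Γ κ) x = 0 := by
    have h3 : (⨆ (j) (_ : j ≠ k), G.VR q j) ≤ LinearMap.ker (p.baseChange (MvPolynomial Γ κ)) := by
      refine iSup_le fun j => iSup_le fun hj => fun y hy => ?_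
      rw [LinearMap.mem_ker]
      refine AVan1_ind (p := fun x => p.baseChange (MvPolynomial Γ κ) x = 0) (map_zero _) ?_ ?_ hy
      · intro x y hx hy
        rw [map_add, hx, hy, add_zero]
      · intro r v hv
        have h4 : v ∈ ⨆ (j) (_ : j ≠ k), G.Vd q j :=
          Submodule.mem_iSup_of_mem j (Submodule.mem_iSup_of_mem hj hv)
        rw [LinearMap.baseChange_tmul, hp2 v h4, TensorProduct.tmul_zero]
    exact h3 hx'
  rw [← h1, h2]

theorem d_VR (hG : G.Ok) {q k : ℕ} {x : MvPolynomial Γ κ ⊗[κ] V} (hx : x ∈ G.VR q k) :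
    G.d.baseChange (MvPolynomial Γ κ) x ∈ G.VR (q + 1) k := by
  refine AVan1_ind (p := fun x => G.d.baseChange (MvPolynomial Γ κ) x ∈ G.VR (q + 1) k) ?_ ?_ ?_ hx
  · rw [map_zero]
    exact Submodule.zero_mem _
  · intro x y hx hy
    rw [map_add]
    exact Submodule.add_mem _ hx hy
  · intro r v hv
    rw [LinearMap.baseChange_tmul]
    exact AVan1_tmul r (hG.d_mem q k v hv)

private theorem AVan1_TF_tmul (r : MvPolynomial Γ κ) (v : V) :
    G.TF (r ⊗ₜ[κ] v) = ∑ γ, (X γ * r : MvPolynomial Γ κ) ⊗ₜ[κ] G.wd γ v := by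
  unfold Cx.TF
  rw [LinearMap.sum_apply]
  refine Finset.sum_congr rfl fun γ _ => ?_
  rw [LinearMap.smul_apply, LinearMap.baseChange_tmul, TensorProduct.smul_tmul', smul_eq_mul]

theorem TF_VR (hG : G.Ok) {q k : ℕ} {x : MvPolynomial Γ κ ⊗[κ] V} (hx : x ∈ G.VR q k) :
    G.TF x ∈ G.VR (q + 1) (k + 1) := by
  refine AVan1_ind (p := fun x => G.TF x ∈ G.VR (q + 1) (k + 1)) ?_ ?_ ?_ hx
  · rw [map_zero]
    exact Submodule.zero_mem _
  · intro x y hx hy
    rw [map_add]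
    exact Submodule.add_mem _ hx hy
  · intro r v hv
    rw [AVan1_TF_tmul]
    exact Submodule.sum_mem _ fun γ _ => AVan1_tmul _ (hG.wd_mem γ q k v hv)

private theorem AVan1_dd (hG : G.Ok) (x : MvPolynomial Γ κ ⊗[κ] V) :
    G.d.baseChange (MvPolynomial Γ κ) (G.d.baseChange (MvPolynomial Γ κ) x) = 0 := by
  induction x using TensorProduct.induction_on with
  | zero => simp
  | tmul r v => rw [LinearMap.baseChange_tmul, LinearMap.baseChange_tmul, hG.d_d, TensorProduct.tmul_zero]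
  | add y z hy hz => rw [map_add, map_add, hy, hz, add_zero]

private theorem AVan1_dT (hG : G.Ok) (x : MvPolynomial Γ κ ⊗[κ] V) :
    G.d.baseChange (MvPolynomial Γ κ) (G.TF x) = -G.TF (G.d.baseChange (MvPolynomial Γ κ) x) := by
  induction x using TensorProduct.induction_on with
  | zero => simp
  | tmul r v =>
    rw [AVan1_TF_tmul, map_sum, LinearMap.baseChange_tmul, AVan1_TF_tmul, ← Finset.sum_neg_distrib]
    refine Finset.sum_congr rfl fun γ _ => ?_
    rw [LinearMap.baseChange_tmul, hG.d_wd, TensorProduct.tmul_neg]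
  | add y z hy hz => rw [map_add, map_add, map_add, map_add, hy, hz, neg_add]

private theorem AVan1_TT (hG : G.Ok) (x : MvPolynomial Γ κ ⊗[κ] V) : G.TF (G.TF x) = 0 := by
  induction x using TensorProduct.induction_on with
  | zero => simp
  | tmul r v =>
    have h1 : G.TF (G.TF (r ⊗ₜ[κ] v)) =
        ∑ γ, ∑ γ', (X γ' * (X γ * r) : MvPolynomial Γ κ) ⊗ₜ[κ] G.wd γ' (G.wd γ v) := by
      rw [AVan1_TF_tmul, map_sum]
      exact Finset.sum_congr rfl fun γ _ => AVan1_TF_tmul _ _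
    have h2 : G.TF (G.TF (r ⊗ₜ[κ] v)) = -G.TF (G.TF (r ⊗ₜ[κ] v)) := by
      rw [h1]
      conv_lhs => rw [Finset.sum_comm]
      rw [← Finset.sum_neg_distrib]
      refine Finset.sum_congr rfl fun γ _ => ?_
      rw [← Finset.sum_neg_distrib]
      refine Finset.sum_congr rfl fun γ' _ => ?_
      rw [hG.wd_wd γ γ' v, TensorProduct.tmul_neg, mul_left_comm]
    have h3 : (2 : κ) • G.TF (G.TF (r ⊗ₜ[κ] v)) = 0 := by
      rw [two_smul]
      nth_rewrite 1 [h2]
      exact neg_add_cancel _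
    exact (smul_eq_zero.1 h3).resolve_left two_ne_zero
  | add y z hy hz => rw [map_add, map_add, hy, hz, add_zero]

theorem nF_nF (hG : G.Ok) (x : MvPolynomial Γ κ ⊗[κ] V) : G.nF (G.nF x) = 0 := by
  have h1 : ∀ y, G.nF y = G.d.baseChange (MvPolynomial Γ κ) y + G.TF y := fun y => rfl
  rw [h1, h1, map_add, map_add, AVan1_dd hG, AVan1_dT hG, AVan1_TT hG]
  abel

private theorem AVan1_mono {q : ℕ} {a b : ℕ} (hab : a ≤ b) :
    (⨆ k : {k : ℕ // k ≤ a}, G.VR q k) ≤ ⨆ k : {k : ℕ // k ≤ b}, G.VR q k :=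
  iSup_le fun k => le_iSup (fun k : {k : ℕ // k ≤ b} => G.VR q k) ⟨k.1, k.2.trans hab⟩

private theorem AVan1_le {q : ℕ} {a k : ℕ} (hk : k ≤ a) :
    G.VR q k ≤ ⨆ k : {k : ℕ // k ≤ a}, G.VR q k :=
  le_iSup (fun k : {k : ℕ // k ≤ a} => G.VR q k) ⟨k, hk⟩

private theorem AVan1_step (hG : G.Ok) {q : ℕ} {k₀ : ℕ}
    (hK : ∀ k, k₀ ≤ k → ∀ x ∈ G.VR (q + 1) (k + 1), G.TF x = 0 → x ∈ (G.VR q k).map G.TF) :
    ∀ N : ℕ, ∀ x ∈ ⨆ k : {k : ℕ // k ≤ N}, G.VR (q + 1) k, G.nF x = 0 →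
      ∃ b ∈ ⨆ k, G.VR q k, x - G.nF b ∈ ⨆ k : {k : ℕ // k ≤ k₀}, G.VR (q + 1) k := by
  intro N
  induction N with
  | zero =>
    intro x hx _
    refine ⟨0, Submodule.zero_mem _, ?_⟩
    rw [map_zero, sub_zero]
    exact AVan1_mono (Nat.zero_le _) hx
  | succ N ih =>
    intro x hx hn
    by_cases hN : N + 1 ≤ k₀
    · refine ⟨0, Submodule.zero_mem _, ?_⟩
      rw [map_zero, sub_zero]
      exact AVan1_mono hN hx
    have hN' : k₀ ≤ N := by omega
    have hsplit : (⨆ k : {k : ℕ // k ≤ N + 1}, G.VR (q + 1) k) ≤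
        (⨆ k : {k : ℕ // k ≤ N}, G.VR (q + 1) k) ⊔ G.VR (q + 1) (N + 1) := by
      refine iSup_le fun k => ?_
      by_cases hk : (k : ℕ) ≤ N
      · exact (AVan1_le hk).trans le_sup_left
      · have h1 : (k : ℕ) = N + 1 := by
          have := k.2
          omega
        rw [h1]
        exact le_sup_right
    obtain ⟨y, hy, z, hz, rfl⟩ := Submodule.mem_sup.1 (hsplit hx)
    have hdy : G.d.baseChange (MvPolynomial Γ κ) y ∈ ⨆ k : {k : ℕ // k ≤ N + 1}, G.VR (q + 1 + 1) k := by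
      have h1 : (⨆ k : {k : ℕ // k ≤ N}, G.VR (q + 1) k) ≤
          (⨆ k : {k : ℕ // k ≤ N + 1}, G.VR (q + 1 + 1) k).comap (G.d.baseChange (MvPolynomial Γ κ)) := by
        refine iSup_le fun k => fun w hw => ?_
        rw [Submodule.mem_comap]
        exact AVan1_le (k.2.trans (Nat.le_succ N)) (d_VR hG hw)
      exact h1 hy
    have hTy : G.TF y ∈ ⨆ k : {k : ℕ // k ≤ N + 1}, G.VR (q + 1 + 1) k := by
      have h1 : (⨆ k : {k : ℕ // k ≤ N}, G.VR (q + 1) k) ≤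
          (⨆ k : {k : ℕ // k ≤ N + 1}, G.VR (q + 1 + 1) k).comap G.TF := by
        refine iSup_le fun k => fun w hw => ?_
        rw [Submodule.mem_comap]
        exact AVan1_le (Nat.succ_le_succ k.2) (TF_VR hG hw)
      exact h1 hy
    have hdz : G.d.baseChange (MvPolynomial Γ κ) z ∈ ⨆ k : {k : ℕ // k ≤ N + 1}, G.VR (q + 1 + 1) k :=
      AVan1_le le_rfl (d_VR hG hz)
    have hTz : G.TF z ∈ G.VR (q + 1 + 1) (N + 2) := TF_VR hG hz
    have h1 : ∀ y, G.nF y = G.d.baseChange (MvPolynomial Γ κ) y + G.TF y := fun y => rfl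
    have hTz' : G.TF z ∈ ⨆ k : {k : ℕ // k ≤ N + 1}, G.VR (q + 1 + 1) k := by
      have h2 : G.TF z = -(G.d.baseChange (MvPolynomial Γ κ) y + G.TF y + G.d.baseChange (MvPolynomial Γ κ) z) := by
        rw [h1, map_add, map_add] at hn
        rw [eq_neg_iff_add_eq_zero, ← hn]
        abel
      rw [h2]
      exact Submodule.neg_mem _ (Submodule.add_mem _ (Submodule.add_mem _ hdy hTy) hdz)
    have hle : (⨆ k : {k : ℕ // k ≤ N + 1}, G.VR (q + 1 + 1) k) ≤ ⨆ (j) (_ : j ≠ N + 2), G.VR (q + 1 + 1) j := by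
      refine iSup_le fun k => ?_
      have hk : (k : ℕ) ≠ N + 2 := by
        have := k.2
        omega
      exact le_iSup_of_le (k : ℕ) (le_iSup (fun _ : (k : ℕ) ≠ N + 2 => G.VR (q + 1 + 1) k) hk)
    have hT0 : G.TF z = 0 :=
      Submodule.disjoint_def.1 (VR_indep hG (q + 1 + 1) (N + 2)) _ hTz (hle hTz')
    obtain ⟨b, hb, hbz⟩ := Submodule.mem_map.1 (hK N hN' z hz hT0)
    have hx' : y + z - G.nF b ∈ ⨆ k : {k : ℕ // k ≤ N}, G.VR (q + 1) k := by
      have h2 : y + z - G.nF b = y - G.d.baseChange (MvPolynomial Γ κ) b := by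
        rw [h1, hbz]
        abel
      rw [h2]
      exact Submodule.sub_mem _ hy (AVan1_le le_rfl (d_VR hG hb))
    obtain ⟨b', hb', hb2⟩ := ih _ hx' (by rw [map_sub, hn, nF_nF hG, sub_zero])
    refine ⟨b + b', Submodule.add_mem _ (Submodule.mem_iSup_of_mem N hb) hb', ?_⟩
    rw [map_add, ← sub_sub]
    exact hb2

theorem van_red (hG : G.Ok) {q : ℕ} (hK : G.Kos q) : ∃ k₀ : ℕ, ∀ x ∈ ⨆ k, G.VR (q + 1) k, G.nF x = 0 →
    ∃ b ∈ ⨆ k, G.VR q k, x - G.nF b ∈ ⨆ k : {k : ℕ // k ≤ k₀}, G.VR (q + 1) k := by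
  obtain ⟨k₀, hk₀⟩ := hK
  refine ⟨k₀, fun x hx hn => ?_⟩
  have h1 : ∃ N : ℕ, x ∈ ⨆ k : {k : ℕ // k ≤ N}, G.VR (q + 1) k := by
    refine Submodule.iSup_induction (G.VR (q + 1))
      (motive := fun x => ∃ N : ℕ, x ∈ ⨆ k : {k : ℕ // k ≤ N}, G.VR (q + 1) k) hx ?_ ?_ ?_
    · intro k y hy
      exact ⟨k, AVan1_le le_rfl hy⟩
    · exact ⟨0, Submodule.zero_mem _⟩
    · rintro y z ⟨a, ha⟩ ⟨b, hb⟩
      exact ⟨max a b, Submodule.add_mem _ (AVan1_mono (le_max_left a b) ha) (AVan1_mono (le_max_right a b) hb)⟩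
  obtain ⟨N, hN⟩ := h1
  exact AVan1_step hG hk₀ N x hN hn

end vanish

end MPadcDC
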