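import Pool.Agent.Lib.MP_adc574_ag_DC.AVan1
import Pool.Agent.Lib.MP_adc574_ag_DC.ALow

/-!
# JOB AVan2 (DC): vanishing

`R = MvPolynomial Γ κ`. `Zq := {x ∈ ⨆ k, VR (q + 1) k | nF x = 0}` (submodule), `Bq := (⨆ k, VR q k).map nF`, `≤ Zq` (`nF_nF`, `d_VR`, `TF_VR`), `M := Zq ⧸ Bq` (as a quotient of the module `↥Zq` by `Bq.submoduleOf Zq`). Show `M = 0` with `low`.
(1) `M` is finitely generated: by `van_red` it is the image of `Zq ⊓ ⨆_{k ≤ k₀} VR (q + 1) k`, a submodule of a finitely generated module over a noetherian ring (`VR q k` is finitely generated: base change of `hG.fg`; finite supremum).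
(2) `dl γ := (pderiv γ) ⊗ 1 + 1 ⊗ mul γ` on `R ⊗ V` (additive map: `TensorProduct.map` of the `κ`-linear maps `pderiv γ` and `id`, and `(G.mul γ).baseChange R`): `dl γ (r • x) = pderiv γ r • x + r • dl γ x`; it maps `⨆ VR (q + 1) k` to itself. The `dl γ` commute (`pderiv` commute, `mul_mul`). `dl γ (nF x) = nF (dl γ x)`: on `f ⊗ v`:
`[∂_γ, d] = 0`, `[∂_γ, TF] = wd γ` (from `X γ`), `[mul γ, d] = - wd γ` (`d_mul`), `[mul γ, TF] = 0` (`mul_wd`). So `dl γ` acts on `Zq`, `Bq`, `M`.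
(3) `heig`. For `v ∈ Vd (q + 1) k`, `f` homogeneous of degree `j` (monomial): on `f ⊗ v`: `∑ X γ • dl γ (f ⊗ v) = (j f) ⊗ v + ∑ (X γ f) ⊗ mul γ v`. `io` relations on `R ⊗ V`: `io nF + nF io = (io d + d io) + (io TF + TF io)`, on `f ⊗ v`: `= e (θ + k) (f ⊗ v) + e ∑ (X γ f) ⊗ mul γ v` (`cartan`, `io_wd`). So
`∑ X γ • dl γ x = (j - (θ + k)) x + e⁻¹ (io nF + nF io) x` for `x = f ⊗ v` of bidegree `(j, k)`. Let `W z ⊆ ⨆ VR (q + 1) k` be the `κ`-span of the `f ⊗ v` with `j - k = z` (`z : ℤ`): for `x ∈ Zq ∩ W z`: `∑ X γ • dl γ x = (z - θ) x + e⁻¹ nF (io x)`, `io x ∈ ⨆ VR q k` (`io_mem`), so the class of `x` in `M` is an eigenvector with eigenvalue `z - θ`.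
Every `x ∈ Zq` is the sum of its `W z`-components, and each component is in `Zq`: `nF` maps `W z` (of degree `q + 1`) to `W z` (of degree `q + 2`) (`d`: `(j, k) ↦ (j, k)`, `TF`: `(j + 1, k + 1)`), and the `W z` (degree `q + 2`) are independent. (Independence: the bigraded pieces are independent: `VR_indep` for `k` and the homogeneous components of
polynomials for `j`; e.g. use the operator `L := (Euler operator on the polynomials) - (k on VR (q + 2) k)`, or: the `κ`-linear projections `homogeneousComponent j ⊗ id` on `R ⊗ V` preserve `VR q k`; the sum over `(j, k)` with `j - k = z`.) Simplest implementation: for `x = ∑_k x_k` (`x_k ∈ VR (q + 1) k`) put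
`x^z := ∑_k (homogeneousComponent (z + k) ⊗ id) x_k` (0 if `z + k < 0`); `nF x = 0` means `d x_k + TF x_{k-1} = 0` for all `k` (`VR_indep`), apply `homogeneousComponent (z + k)`: `d` commutes and `TF` raises the degree by `1`, so `d x^z_k + TF x^z_{k-1} = 0`, i.e. `nF x^z = 0`; `x = ∑_z x^z` (finite).
(4) `low` (with `hG.θ_ne`) gives `M = 0`, so `x ∈ Bq`.
-/

set_option autoImplicit false
set_option linter.unusedSectionVars false

namespace MPadcDC

open MvPolynomial TensorProduct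

universe u

section vanish

variable {κ : Type u} [Field κ] [CharZero κ] {Γ : Type} [Fintype Γ] [DecidableEq Γ] {V : Type u}
  [AddCommGroup V] [Module κ V] {G : Cx κ Γ V}

section AVan2abs

variable {N : Type u} [AddCommGroup N] [Module (MvPolynomial Γ κ) N]

/-- The Euler operator corrected by a linear map. -/
private noncomputable def AVan2_A (D : Γ → N →+ N) (E : N →ₗ[MvPolynomial Γ κ] N) (x : N) : N :=
  ∑ γ, (X γ : MvPolynomial Γ κ) • D γ x - E x

private theorem AVan2_A_zero (D : Γ → N →+ N) (E : N →ₗ[MvPolynomial Γ κ] N) :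
    AVan2_A D E 0 = 0 := by
  unfold AVan2_A
  simp only [map_zero, smul_zero, Finset.sum_const_zero, sub_zero]

private theorem AVan2_A_add (D : Γ → N →+ N) (E : N →ₗ[MvPolynomial Γ κ] N) (x y : N) :
    AVan2_A D E (x + y) = AVan2_A D E x + AVan2_A D E y := by
  unfold AVan2_A
  simp only [map_add, smul_add, Finset.sum_add_distrib]
  abel

private theorem AVan2_A_neg (D : Γ → N →+ N) (E : N →ₗ[MvPolynomial Γ κ] N) (x : N) :
    AVan2_A D E (-x) = -AVan2_A D E x := by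
  have h := AVan2_A_add D E x (-x)
  rw [add_neg_cancel, AVan2_A_zero] at h
  exact (neg_eq_of_add_eq_zero_right h.symm).symm

private theorem AVan2_A_smul (D : Γ → N →+ N) (E : N →ₗ[MvPolynomial Γ κ] N)
    (hl : ∀ γ (r : MvPolynomial Γ κ) x, D γ (r • x) = pderiv γ r • x + r • D γ x)
    (r : MvPolynomial Γ κ) (x : N) :
    AVan2_A D E (r • x) = (∑ γ, X γ * pderiv γ r) • x + r • AVan2_A D E x := by
  unfold AVan2_A
  have e1 : ∀ γ, (X γ : MvPolynomial Γ κ) • D γ (r • x) =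
      (X γ * pderiv γ r) • x + r • ((X γ : MvPolynomial Γ κ) • D γ x) := by
    intro γ
    rw [hl, smul_add, smul_smul, smul_smul, smul_smul, mul_comm (X γ) r]
  rw [Finset.sum_congr rfl fun γ _ => e1 γ, Finset.sum_add_distrib, ← Finset.sum_smul,
    ← Finset.smul_sum, map_smul, smul_sub]
  abel

/-- Eigenvectors. -/
private def AVan2_W (D : Γ → N →+ N) (E : N →ₗ[MvPolynomial Γ κ] N) (θ : κ) (z : ℤ) :
    AddSubgroup N where
  carrier := {x | AVan2_A D E x = (C ((z : κ) - θ) : MvPolynomial Γ κ) • x}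
  zero_mem' := by
    show AVan2_A D E 0 = _
    rw [AVan2_A_zero, smul_zero]
  add_mem' := by
    intro x y hx hy
    show AVan2_A D E (x + y) = _
    rw [AVan2_A_add, smul_add]
    exact congrArg₂ (· + ·) hx hy
  neg_mem' := by
    intro x hx
    show AVan2_A D E (-x) = _
    rw [AVan2_A_neg, smul_neg]
    exact congrArg Neg.neg hx

private theorem AVan2_W_C (D : Γ → N →+ N) (E : N →ₗ[MvPolynomial Γ κ] N)
    (hl : ∀ γ (r : MvPolynomial Γ κ) x, D γ (r • x) = pderiv γ r • x + r • D γ x) (θ : κ)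
    {z : ℤ} (a : κ) {x : N} (hx : x ∈ AVan2_W D E θ z) :
    (C a : MvPolynomial Γ κ) • x ∈ AVan2_W D E θ z := by
  show AVan2_A D E _ = _
  have h1 : AVan2_A D E x = (C ((z : κ) - θ) : MvPolynomial Γ κ) • x := hx
  have h2 : ∑ γ, (X γ * pderiv γ (C a : MvPolynomial Γ κ)) = 0 := by
    refine Finset.sum_eq_zero fun γ _ => ?_
    rw [pderiv_C, mul_zero]
  rw [AVan2_A_smul D E hl, h2, zero_smul, zero_add, h1, smul_comm]

private theorem AVan2_W_X (D : Γ → N →+ N) (E : N →ₗ[MvPolynomial Γ κ] N)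
    (hl : ∀ γ (r : MvPolynomial Γ κ) x, D γ (r • x) = pderiv γ r • x + r • D γ x) (θ : κ)
    {z : ℤ} (γ : Γ) {x : N} (hx : x ∈ AVan2_W D E θ z) :
    (X γ : MvPolynomial Γ κ) • x ∈ AVan2_W D E θ (z + 1) := by
  show AVan2_A D E _ = _
  have h1 : AVan2_A D E x = (C ((z : κ) - θ) : MvPolynomial Γ κ) • x := hx
  have h2 : ∑ γ', (X γ' * pderiv γ' (X γ : MvPolynomial Γ κ)) = X γ := by
    rw [Finset.sum_eq_single γ]
    · rw [pderiv_X_self, mul_one]
    · intro b _ hb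
      rw [pderiv_X_of_ne hb.symm, mul_zero]
    · intro h
      exact absurd (Finset.mem_univ _) h
  have h3 : (C (((z + 1 : ℤ) : κ) - θ) : MvPolynomial Γ κ) = 1 + C ((z : κ) - θ) := by
    rw [← C_1, ← C_add]
    congr 1
    push_cast
    ring
  rw [AVan2_A_smul D E hl, h2, h1, h3, add_smul, one_smul,
    smul_comm (X γ : MvPolynomial Γ κ) (C ((z : κ) - θ) : MvPolynomial Γ κ)]

/-- The sum of the spaces of eigenvectors is stable under polynomials. -/
private theorem AVan2_W_smul (D : Γ → N →+ N) (E : N →ₗ[MvPolynomial Γ κ] N)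
    (hl : ∀ γ (r : MvPolynomial Γ κ) x, D γ (r • x) = pderiv γ r • x + r • D γ x) (θ : κ)
    (r : MvPolynomial Γ κ) :
    ∀ x ∈ ⨆ z, AVan2_W D E θ z, r • x ∈ ⨆ z, AVan2_W D E θ z := by
  induction r using MvPolynomial.induction_on with
  | C a =>
    intro x hx
    induction hx using AddSubgroup.iSup_induction' with
    | hp z x hx => exact AddSubgroup.mem_iSup_of_mem z (AVan2_W_C D E hl θ a hx)
    | h1 =>
      rw [smul_zero]
      exact AddSubgroup.zero_mem _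
    | hadd x y _ _ hx hy =>
      rw [smul_add]
      exact AddSubgroup.add_mem _ hx hy
  | add f g hf hg =>
    intro x hx
    rw [add_smul]
    exact AddSubgroup.add_mem _ (hf x hx) (hg x hx)
  | mul_X f γ hf =>
    intro x hx
    rw [mul_smul]
    refine hf _ ?_
    induction hx using AddSubgroup.iSup_induction' with
    | hp z x hx => exact AddSubgroup.mem_iSup_of_mem (z + 1) (AVan2_W_X D E hl θ γ hx)
    | h1 =>
      rw [smul_zero]
      exact AddSubgroup.zero_mem _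
    | hadd x y _ _ hx hy =>
      rw [smul_add]
      exact AddSubgroup.add_mem _ hx hy

/-- Finite sums of eigenvectors. -/
private theorem AVan2_W_sum (D : Γ → N →+ N) (E : N →ₗ[MvPolynomial Γ κ] N) (θ : κ) {x : N}
    (hx : x ∈ ⨆ z, AVan2_W D E θ z) :
    ∃ (s : Finset ℤ) (y : ℤ → N), (∀ z, y z ∈ AVan2_W D E θ z) ∧ ∑ z ∈ s, y z = x := by
  classical
  induction hx using AddSubgroup.iSup_induction' with
  | hp z x hx =>
    refine ⟨{z}, fun z' => if z' = z then x else 0, fun z' => ?_, ?_⟩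
    · show (if z' = z then x else 0) ∈ _
      split_ifs with h
      · rw [h]
        exact hx
      · exact AddSubgroup.zero_mem _
    · rw [Finset.sum_singleton, if_pos rfl]
  | h1 => exact ⟨∅, fun _ => 0, fun z => AddSubgroup.zero_mem _, Finset.sum_empty⟩
  | hadd x x' _ _ hx hy =>
    obtain ⟨s, y, h1, h2⟩ := hx
    obtain ⟨s', y', h1', h2'⟩ := hy
    refine ⟨s ∪ s', fun z => (if z ∈ s then y z else 0) + if z ∈ s' then y' z else 0,
      fun z => ?_, ?_⟩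
    · refine AddSubgroup.add_mem _ ?_ ?_
      · split_ifs
        · exact h1 z
        · exact AddSubgroup.zero_mem _
      · split_ifs
        · exact h1' z
        · exact AddSubgroup.zero_mem _
    · rw [Finset.sum_add_distrib, Finset.sum_ite_mem, Finset.sum_ite_mem,
        Finset.inter_eq_right.2 Finset.subset_union_left,
        Finset.inter_eq_right.2 Finset.subset_union_right, h2, h2']

/-- The components of an element of a stable submodule are in the submodule. -/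
private theorem AVan2_comp (D : Γ → N →+ N) (E : N →ₗ[MvPolynomial Γ κ] N)
    (hl : ∀ γ (r : MvPolynomial Γ κ) x, D γ (r • x) = pderiv γ r • x + r • D γ x) (θ : κ)
    (Z : Submodule (MvPolynomial Γ κ) N) (hZ : ∀ x ∈ Z, AVan2_A D E x ∈ Z) (s : Finset ℤ) :
    ∀ y : ℤ → N, (∀ z, y z ∈ AVan2_W D E θ z) → ∑ z ∈ s, y z ∈ Z → ∀ z ∈ s, y z ∈ Z := by
  classical
  induction s using Finset.induction_on with
  | empty =>
    intro y _ _ z hz
    exact absurd hz (Finset.notMem_empty z)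
  | insert a s ha ih =>
    intro y hy hsum
    have hA : ∀ t : Finset ℤ, AVan2_A D E (∑ z ∈ t, y z) =
        ∑ z ∈ t, (C ((z : κ) - θ) : MvPolynomial Γ κ) • y z := by
      intro t
      induction t using Finset.induction_on with
      | empty => rw [Finset.sum_empty, Finset.sum_empty, AVan2_A_zero]
      | insert b t hb iht =>
        rw [Finset.sum_insert hb, Finset.sum_insert hb, AVan2_A_add, iht]
        congr 1
        exact hy b
    have h1 : ∑ z ∈ s, (C ((z : κ) - a) : MvPolynomial Γ κ) • y z ∈ Z := by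
      have h2 := Z.sub_mem (hZ _ hsum) (Z.smul_mem (C ((a : κ) - θ)) hsum)
      rw [hA, Finset.sum_insert ha, Finset.sum_insert ha, smul_add, add_sub_add_left_eq_sub,
        Finset.smul_sum, ← Finset.sum_sub_distrib] at h2
      have h3 : ∀ z ∈ s, (C ((z : κ) - θ) : MvPolynomial Γ κ) • y z -
          (C ((a : κ) - θ) : MvPolynomial Γ κ) • y z =
          (C ((z : κ) - a) : MvPolynomial Γ κ) • y z := by
        intro z _
        rw [← sub_smul, ← C_sub]
        congr 2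
        ring
      rwa [Finset.sum_congr rfl h3] at h2
    have h4 := ih (fun z => (C ((z : κ) - a) : MvPolynomial Γ κ) • y z)
      (fun z => AVan2_W_C D E hl θ _ (hy z)) h1
    have h5 : ∀ z ∈ s, y z ∈ Z := by
      intro z hz
      have hza : (z : κ) - a ≠ 0 := by
        intro h
        have h6 : z = a := by exact_mod_cast sub_eq_zero.1 h
        exact ha (h6 ▸ hz)
      have h7 := Z.smul_mem (C ((z : κ) - a)⁻¹) (h4 z hz)
      have h8 : (C ((z : κ) - a)⁻¹ : MvPolynomial Γ κ) • ((C ((z : κ) - a) : MvPolynomial Γ κ) • y z) =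
          y z := by
        rw [smul_smul, ← C_mul, inv_mul_cancel₀ hza, C_1, one_smul]
      rwa [h8] at h7
    intro z hz
    rcases Finset.mem_insert.1 hz with rfl | hz
    · have h6 := Z.sub_mem hsum (Z.sum_mem h5)
      rw [Finset.sum_insert ha, add_sub_cancel_right] at h6
      exact h6
    · exact h5 z hz

private theorem AVan2_abs (D : Γ → N →+ N) (E : N →ₗ[MvPolynomial Γ κ] N)
    (hl : ∀ γ (r : MvPolynomial Γ κ) x, D γ (r • x) = pderiv γ r • x + r • D γ x)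
    (hc : ∀ γ γ' x, D γ (D γ' x) = D γ' (D γ x)) (Z B : Submodule (MvPolynomial Γ κ) N)
    (hBZ : ∀ y ∈ B, y ∈ Z) (hDZ : ∀ γ, ∀ y ∈ Z, D γ y ∈ Z) (hDB : ∀ γ, ∀ y ∈ B, D γ y ∈ B)
    (hE : ∀ y ∈ Z, E y ∈ B) (θ : κ) (hθ : ∀ z : ℤ, θ ≠ z) (T : Set N)
    (hT : ∀ t ∈ T, ∃ z : ℤ, AVan2_A D E t = (C ((z : κ) - θ) : MvPolynomial Γ κ) • t)
    (hZT : ∀ y ∈ Z, y ∈ Submodule.span (MvPolynomial Γ κ) T)
    (U₀ : Submodule (MvPolynomial Γ κ) N) (hU : U₀.FG) (hZU : ∀ y ∈ Z, ∃ b ∈ B, y - b ∈ U₀)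
    (x : N) (hx : x ∈ Z) : x ∈ B := by
  classical
  have hAZ : ∀ y ∈ Z, AVan2_A D E y ∈ Z := by
    intro y hy
    unfold AVan2_A
    exact Z.sub_mem (Z.sum_mem fun γ _ => Z.smul_mem _ (hDZ γ y hy)) (hBZ _ (hE y hy))
  have hall : ∀ y ∈ Z, y ∈ ⨆ z, AVan2_W D E θ z := by
    intro y hy
    have h := hZT y hy
    clear hy
    induction h using Submodule.span_induction with
    | mem x h =>
      obtain ⟨z, hz⟩ := hT x h
      exact AddSubgroup.mem_iSup_of_mem z hz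
    | zero => exact AddSubgroup.zero_mem _
    | add x y _ _ hx hy => exact AddSubgroup.add_mem _ hx hy
    | smul r x _ hx => exact AVan2_W_smul D E hl θ r x hx
  let B' : Submodule (MvPolynomial Γ κ) Z := B.comap Z.subtype
  let dZ : Γ → Z →+ Z := fun γ =>
    { toFun := fun y => ⟨D γ y, hDZ γ y y.2⟩
      map_zero' := Subtype.ext (map_zero (D γ))
      map_add' := fun y y' => Subtype.ext (map_add (D γ) _ _) }
  let dl : Γ → (Z ⧸ B') →+ (Z ⧸ B') := fun γ =>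
    QuotientAddGroup.map B'.toAddSubgroup B'.toAddSubgroup (dZ γ) fun y hy => hDB γ _ hy
  have hdl : ∀ γ (y : Z), dl γ (Submodule.Quotient.mk y) = Submodule.Quotient.mk (dZ γ y) :=
    fun γ y => rfl
  have hfg : Module.Finite (MvPolynomial Γ κ) (Z ⧸ B') := by
    have hN : IsNoetherian (MvPolynomial Γ κ) U₀ := isNoetherian_of_fg_of_noetherian U₀ hU
    have hfg1 : (Z ⊓ U₀).FG := isNoetherian_submodule.1 hN _ inf_le_right
    have hfin : Module.Finite (MvPolynomial Γ κ) ↥(Z ⊓ U₀) := Module.Finite.iff_fg.2 hfg1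
    refine Module.Finite.of_surjective
      (B'.mkQ.comp (Submodule.inclusion (inf_le_left : Z ⊓ U₀ ≤ Z))) ?_
    intro m
    obtain ⟨y, rfl⟩ := Submodule.mkQ_surjective B' m
    obtain ⟨b, hb, hb'⟩ := hZU y y.2
    have hyz : (y : N) - b ∈ Z ⊓ U₀ := ⟨Z.sub_mem y.2 (hBZ b hb), hb'⟩
    refine ⟨⟨_, hyz⟩, ?_⟩
    rw [LinearMap.comp_apply, Submodule.mkQ_apply, Submodule.mkQ_apply,
      Submodule.Quotient.eq]
    show (y : N) - b - y ∈ B
    have h1 : (y : N) - b - y = - b := by abel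
    rw [h1]
    exact B.neg_mem hb
  have hzero : ∀ m : Z ⧸ B', m = 0 := by
    refine low hfg dl ?_ ?_ θ hθ ?_
    · intro γ r m
      obtain ⟨y, rfl⟩ := Submodule.Quotient.mk_surjective B' m
      rw [← Submodule.Quotient.mk_smul, hdl, hdl, ← Submodule.Quotient.mk_smul,
        ← Submodule.Quotient.mk_smul, ← Submodule.Quotient.mk_add]
      congr 1
      exact Subtype.ext (hl γ r y)
    · intro γ γ' m
      obtain ⟨y, rfl⟩ := Submodule.Quotient.mk_surjective B' m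
      rw [hdl, hdl, hdl, hdl]
      congr 1
      exact Subtype.ext (hc γ γ' y)
    · intro m
      obtain ⟨y, rfl⟩ := Submodule.Quotient.mk_surjective B' m
      obtain ⟨s, c, hcW, hcs⟩ := AVan2_W_sum D E θ (hall y y.2)
      have hcZ : ∀ z ∈ s, c z ∈ Z := AVan2_comp D E hl θ Z hAZ s c hcW (by
        rw [hcs]
        exact y.2)
      have hy : y = ∑ z ∈ s.attach, (⟨c z.1, hcZ z.1 z.2⟩ : Z) := by
        apply Subtype.ext
        rw [AddSubmonoidClass.coe_finsetSum]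
        show (y : N) = ∑ z ∈ s.attach, c z.1
        rw [Finset.sum_attach s c, hcs]
      have hmk : (Submodule.Quotient.mk y : Z ⧸ B') =
          ∑ z ∈ s.attach, (Submodule.Quotient.mk (⟨c z.1, hcZ z.1 z.2⟩ : Z) : Z ⧸ B') := by
        have h1 := congrArg B'.mkQ hy
        rw [map_sum] at h1
        exact h1
      rw [hmk]
      refine AddSubgroup.sum_mem _ fun z _ => AddSubgroup.subset_closure ⟨z.1, ?_⟩
      have h1 : ∑ γ, (X γ : MvPolynomial Γ κ) • dl γ (Submodule.Quotient.mk ⟨c z.1, hcZ z.1 z.2⟩) =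
          (Submodule.Quotient.mk (∑ γ, (X γ : MvPolynomial Γ κ) • dZ γ ⟨c z.1, hcZ z.1 z.2⟩) :
            Z ⧸ B') := by
        have h2 := map_sum B'.mkQ (fun γ => (X γ : MvPolynomial Γ κ) •
          dZ γ ⟨c z.1, hcZ z.1 z.2⟩) Finset.univ
        exact h2.symm
      rw [h1, ← Submodule.Quotient.mk_smul, Submodule.Quotient.eq]
      show ((∑ γ, (X γ : MvPolynomial Γ κ) • dZ γ ⟨c z.1, hcZ z.1 z.2⟩ -
        (C ((z.1 : κ) - θ) : MvPolynomial Γ κ) • (⟨c z.1, hcZ z.1 z.2⟩ : Z) : Z) : N) ∈ B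
      have h3 : ((∑ γ, (X γ : MvPolynomial Γ κ) • dZ γ ⟨c z.1, hcZ z.1 z.2⟩ -
          (C ((z.1 : κ) - θ) : MvPolynomial Γ κ) • (⟨c z.1, hcZ z.1 z.2⟩ : Z) : Z) : N) =
          ∑ γ, (X γ : MvPolynomial Γ κ) • D γ (c z.1) -
            (C ((z.1 : κ) - θ) : MvPolynomial Γ κ) • c z.1 := by
        rw [AddSubgroupClass.coe_sub, AddSubmonoidClass.coe_finsetSum]
        rfl
      have h4 : AVan2_A D E (c z.1) = (C ((z.1 : κ) - θ) : MvPolynomial Γ κ) • c z.1 := hcW z.1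
      have h5 : ∑ γ, (X γ : MvPolynomial Γ κ) • D γ (c z.1) -
          (C ((z.1 : κ) - θ) : MvPolynomial Γ κ) • c z.1 = E (c z.1) := by
        rw [← h4]
        unfold AVan2_A
        abel
      rw [h3, h5]
      exact hE _ (hcZ z.1 z.2)
  have h1 := hzero (Submodule.Quotient.mk ⟨x, hx⟩)
  rw [Submodule.Quotient.mk_eq_zero] at h1
  exact h1

end AVan2abs

omit [CharZero κ] [DecidableEq Γ] [Fintype Γ] in
private theorem AVan2_pd (γ γ' : Γ) (f : MvPolynomial Γ κ) :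
    pderiv γ (pderiv γ' f) = pderiv γ' (pderiv γ f) := by
  classical
  induction f using MvPolynomial.induction_on with
  | C a => rw [pderiv_C, pderiv_C, map_zero, map_zero]
  | add f g hf hg => simp only [map_add, hf, hg]
  | mul_X f i hf =>
    simp only [pderiv_mul, map_add, hf, pderiv_X]
    have h1 : ∀ a b : Γ, pderiv a (Pi.single (M := fun _ => MvPolynomial Γ κ) b 1 i) = 0 := by
      intro a b
      by_cases h : i = b
      · rw [h, Pi.single_eq_same, pderiv_one]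
      · rw [Pi.single_eq_of_ne h, map_zero]
    rw [h1, h1]
    ring

/-- The connection on the forms over `R`. -/
private noncomputable def AVan2_Dl (G : Cx κ Γ V) (γ : Γ) :
    MvPolynomial Γ κ ⊗[κ] V →ₗ[κ] MvPolynomial Γ κ ⊗[κ] V :=
  TensorProduct.map ((pderiv γ : Derivation κ (MvPolynomial Γ κ) (MvPolynomial Γ κ)) :
    MvPolynomial Γ κ →ₗ[κ] MvPolynomial Γ κ) LinearMap.id +
    TensorProduct.map LinearMap.id (G.mul γ)

private theorem AVan2_Dl_tmul (G : Cx κ Γ V) (γ : Γ) (f : MvPolynomial Γ κ) (v : V) :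
    AVan2_Dl G γ (f ⊗ₜ[κ] v) = pderiv γ f ⊗ₜ[κ] v + f ⊗ₜ[κ] G.mul γ v := by
  unfold AVan2_Dl
  rw [LinearMap.add_apply, TensorProduct.map_tmul, TensorProduct.map_tmul]
  rfl

private theorem AVan2_Dl_smul (G : Cx κ Γ V) (γ : Γ) (r : MvPolynomial Γ κ)
    (x : MvPolynomial Γ κ ⊗[κ] V) :
    AVan2_Dl G γ (r • x) = pderiv γ r • x + r • AVan2_Dl G γ x := by
  induction x using TensorProduct.induction_on with
  | zero => rw [smul_zero, map_zero, smul_zero, smul_zero, add_zero]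
  | tmul f v =>
    rw [TensorProduct.smul_tmul', smul_eq_mul, AVan2_Dl_tmul, AVan2_Dl_tmul, pderiv_mul,
      TensorProduct.add_tmul, smul_add, TensorProduct.smul_tmul', TensorProduct.smul_tmul',
      TensorProduct.smul_tmul', smul_eq_mul, smul_eq_mul, smul_eq_mul, add_assoc]
  | add x y hx hy =>
    rw [smul_add, map_add, hx, hy, map_add, smul_add, smul_add]
    abel

private theorem AVan2_Dl_comm (hG : G.Ok) (γ γ' : Γ) (x : MvPolynomial Γ κ ⊗[κ] V) :
    AVan2_Dl G γ (AVan2_Dl G γ' x) = AVan2_Dl G γ' (AVan2_Dl G γ x) := by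
  induction x using TensorProduct.induction_on with
  | zero => simp only [map_zero]
  | tmul f v =>
    simp only [AVan2_Dl_tmul, map_add, AVan2_pd γ γ' f, hG.mul_mul γ γ' v]
    abel
  | add x y hx hy => simp only [map_add, hx, hy]

private theorem AVan2_nF_tmul (G : Cx κ Γ V) (v : V) :
    G.nF ((1 : MvPolynomial Γ κ) ⊗ₜ[κ] v) = 1 ⊗ₜ[κ] G.d v +
      ∑ γ, (X γ : MvPolynomial Γ κ) • ((1 : MvPolynomial Γ κ) ⊗ₜ[κ] G.wd γ v) := by
  unfold Cx.nF Cx.TF
  rw [LinearMap.add_apply, LinearMap.baseChange_tmul, LinearMap.sum_apply]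
  rfl

/-- The elements `1 ⊗ v` generate: an additive identity which is compatible with the
multiplication with polynomials holds everywhere. -/
private theorem AVan2_ind {P : MvPolynomial Γ κ ⊗[κ] V → Prop} (h0 : P 0)
    (hadd : ∀ x y, P x → P y → P (x + y)) (hsmul : ∀ (r : MvPolynomial Γ κ) x, P x → P (r • x))
    (h1 : ∀ v : V, P ((1 : MvPolynomial Γ κ) ⊗ₜ[κ] v)) (x : MvPolynomial Γ κ ⊗[κ] V) : P x := by
  induction x using TensorProduct.induction_on with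
  | zero => exact h0
  | tmul f v =>
    have h2 : f ⊗ₜ[κ] v = f • ((1 : MvPolynomial Γ κ) ⊗ₜ[κ] v) := by
      rw [TensorProduct.smul_tmul', smul_eq_mul, mul_one]
    rw [h2]
    exact hsmul f _ (h1 v)
  | add x y hx hy => exact hadd x y hx hy

private theorem AVan2_nF_Dl (hG : G.Ok) (γ : Γ) (x : MvPolynomial Γ κ ⊗[κ] V) :
    G.nF (AVan2_Dl G γ x) = AVan2_Dl G γ (G.nF x) := by
  refine AVan2_ind (P := fun x => G.nF (AVan2_Dl G γ x) = AVan2_Dl G γ (G.nF x)) ?_ ?_ ?_ ?_ x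
  · simp only [map_zero]
  · intro x y hx hy
    simp only [map_add, hx, hy]
  · intro r x hx
    rw [AVan2_Dl_smul, map_add, map_smul, map_smul, map_smul, AVan2_Dl_smul, hx]
  · intro v
    have e1 : AVan2_Dl G γ ((1 : MvPolynomial Γ κ) ⊗ₜ[κ] v) = 1 ⊗ₜ[κ] G.mul γ v := by
      rw [AVan2_Dl_tmul, pderiv_one, TensorProduct.zero_tmul, zero_add]
    have e2 : ∀ w : V, AVan2_Dl G γ ((1 : MvPolynomial Γ κ) ⊗ₜ[κ] w) = 1 ⊗ₜ[κ] G.mul γ w := by
      intro w
      rw [AVan2_Dl_tmul, pderiv_one, TensorProduct.zero_tmul, zero_add]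
    rw [e1, AVan2_nF_tmul, AVan2_nF_tmul, map_add, e2, map_sum, hG.d_mul, TensorProduct.tmul_add]
    have e3 : ∀ γ', AVan2_Dl G γ ((X γ' : MvPolynomial Γ κ) •
        ((1 : MvPolynomial Γ κ) ⊗ₜ[κ] G.wd γ' v)) =
        (if γ' = γ then ((1 : MvPolynomial Γ κ) ⊗ₜ[κ] G.wd γ' v) else 0) +
        (X γ' : MvPolynomial Γ κ) • ((1 : MvPolynomial Γ κ) ⊗ₜ[κ] G.wd γ' (G.mul γ v)) := by
      intro γ'
      rw [AVan2_Dl_smul, e2, hG.mul_wd γ γ' v, pderiv_X]
      split_ifs with h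
      · rw [h, Pi.single_eq_same, one_smul]
      · rw [Pi.single_eq_of_ne h, zero_smul]
    rw [Finset.sum_congr rfl fun γ' _ => e3 γ', Finset.sum_add_distrib, Finset.sum_ite_eq' _ γ,
      if_pos (Finset.mem_univ _)]
    abel

/-- The forms of degree `q` over `R` are spanned by the `1 ⊗ v`. -/
private theorem AVan2_U (G : Cx κ Γ V) (q : ℕ) : ⨆ k, G.VR q k =
    Submodule.span (MvPolynomial Γ κ) {y | ∃ k, ∃ v ∈ G.Vd q k,
      (1 : MvPolynomial Γ κ) ⊗ₜ[κ] v = y} := by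
  apply le_antisymm
  · refine iSup_le fun k => ?_
    unfold Cx.VR
    rw [Submodule.baseChange_eq_span, Submodule.span_le]
    rintro _ ⟨v, hv, rfl⟩
    exact Submodule.subset_span ⟨k, v, hv, rfl⟩
  · rw [Submodule.span_le]
    rintro _ ⟨k, v, hv, rfl⟩
    refine Submodule.mem_iSup_of_mem k ?_
    unfold Cx.VR
    exact Submodule.tmul_mem_baseChange_of_mem _ hv

private theorem AVan2_mem (G : Cx κ Γ V) {q k : ℕ} {v : V} (hv : v ∈ G.Vd q k) :
    (1 : MvPolynomial Γ κ) ⊗ₜ[κ] v ∈ ⨆ k, G.VR q k := by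
  rw [AVan2_U]
  exact Submodule.subset_span ⟨k, v, hv, rfl⟩

private theorem AVan2_Dl_mem (hG : G.Ok) (γ : Γ) (q : ℕ) {x : MvPolynomial Γ κ ⊗[κ] V}
    (hx : x ∈ ⨆ k, G.VR q k) : AVan2_Dl G γ x ∈ ⨆ k, G.VR q k := by
  rw [AVan2_U] at hx
  induction hx using Submodule.span_induction with
  | mem x h =>
    obtain ⟨k, v, hv, rfl⟩ := h
    rw [AVan2_Dl_tmul, pderiv_one, TensorProduct.zero_tmul, zero_add]
    exact AVan2_mem G (hG.mul_mem γ q k v hv)
  | zero =>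
    rw [map_zero]
    exact Submodule.zero_mem _
  | add x y _ _ hx hy =>
    rw [map_add]
    exact Submodule.add_mem _ hx hy
  | smul r x h hx =>
    rw [AVan2_Dl_smul]
    rw [← AVan2_U] at h
    exact Submodule.add_mem _ (Submodule.smul_mem _ _ h) (Submodule.smul_mem _ _ hx)

private theorem AVan2_nF_mem (hG : G.Ok) (q : ℕ) {x : MvPolynomial Γ κ ⊗[κ] V}
    (hx : x ∈ ⨆ k, G.VR q k) : G.nF x ∈ ⨆ k, G.VR (q + 1) k := by
  have h1 : ⨆ k, G.VR q k ≤ (⨆ k, G.VR (q + 1) k).comap G.nF := by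
    refine iSup_le fun k => ?_
    intro x hx
    rw [Submodule.mem_comap]
    unfold Cx.nF
    rw [LinearMap.add_apply]
    exact Submodule.add_mem _ (Submodule.mem_iSup_of_mem k (d_VR hG hx))
      (Submodule.mem_iSup_of_mem (k + 1) (TF_VR hG hx))
  exact h1 hx

private theorem AVan2_io_mem (hG : G.Ok) (q : ℕ) {x : MvPolynomial Γ κ ⊗[κ] V}
    (hx : x ∈ ⨆ k, G.VR (q + 1) k) :
    G.io.baseChange (MvPolynomial Γ κ) x ∈ ⨆ k, G.VR q k := by
  have h1 : ⨆ k, G.VR (q + 1) k ≤ (⨆ k, G.VR q k).comap (G.io.baseChange (MvPolynomial Γ κ)) := by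
    rw [AVan2_U, Submodule.span_le]
    rintro _ ⟨k, v, hv, rfl⟩
    have h2 : G.io.baseChange (MvPolynomial Γ κ) ((1 : MvPolynomial Γ κ) ⊗ₜ[κ] v) =
        (1 : MvPolynomial Γ κ) ⊗ₜ[κ] G.io v := LinearMap.baseChange_tmul _ _ _
    have h3 := AVan2_mem G (hG.io_mem q k v hv)
    rw [← h2] at h3
    exact h3
  exact h1 hx

/-- The homotopy term. -/
private noncomputable def AVan2_E (G : Cx κ Γ V) :
    MvPolynomial Γ κ ⊗[κ] V →ₗ[MvPolynomial Γ κ] MvPolynomial Γ κ ⊗[κ] V :=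
  (C G.e⁻¹ : MvPolynomial Γ κ) • ((G.io.baseChange (MvPolynomial Γ κ)).comp G.nF +
    G.nF.comp (G.io.baseChange (MvPolynomial Γ κ)))

private theorem AVan2_E_apply (G : Cx κ Γ V) (x : MvPolynomial Γ κ ⊗[κ] V) :
    AVan2_E G x = (C G.e⁻¹ : MvPolynomial Γ κ) • (G.io.baseChange (MvPolynomial Γ κ) (G.nF x) +
      G.nF (G.io.baseChange (MvPolynomial Γ κ) x)) := rfl

/-- `1 ⊗ v` is an eigenvector. -/
private theorem AVan2_A_tmul (hG : G.Ok) {q k : ℕ} {v : V} (hv : v ∈ G.Vd q k) :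
    AVan2_A (fun γ => (AVan2_Dl G γ).toAddMonoidHom) (AVan2_E G)
      ((1 : MvPolynomial Γ κ) ⊗ₜ[κ] v) =
      (C (((-(k : ℤ) : ℤ) : κ) - G.θ) : MvPolynomial Γ κ) • ((1 : MvPolynomial Γ κ) ⊗ₜ[κ] v) := by
  have e0 : AVan2_A (fun γ => (AVan2_Dl G γ).toAddMonoidHom) (AVan2_E G)
      ((1 : MvPolynomial Γ κ) ⊗ₜ[κ] v) = ∑ γ, (X γ : MvPolynomial Γ κ) •
        AVan2_Dl G γ ((1 : MvPolynomial Γ κ) ⊗ₜ[κ] v) -
      (C G.e⁻¹ : MvPolynomial Γ κ) • (G.io.baseChange (MvPolynomial Γ κ)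
        (G.nF ((1 : MvPolynomial Γ κ) ⊗ₜ[κ] v)) +
      G.nF (G.io.baseChange (MvPolynomial Γ κ) ((1 : MvPolynomial Γ κ) ⊗ₜ[κ] v))) := rfl
  have e1 : ∀ γ, AVan2_Dl G γ ((1 : MvPolynomial Γ κ) ⊗ₜ[κ] v) = 1 ⊗ₜ[κ] G.mul γ v := by
    intro γ
    rw [AVan2_Dl_tmul, pderiv_one, TensorProduct.zero_tmul, zero_add]
  have e2 : ∀ (a : κ) (w : V), (1 : MvPolynomial Γ κ) ⊗ₜ[κ] (a • w) =
      (C a : MvPolynomial Γ κ) • ((1 : MvPolynomial Γ κ) ⊗ₜ[κ] w) := by
    intro a w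
    rw [TensorProduct.smul_tmul', smul_eq_mul, mul_one, ← TensorProduct.smul_tmul]
    congr 1
    rw [smul_eq_C_mul, mul_one]
  have e3 : G.io.baseChange (MvPolynomial Γ κ) (G.nF ((1 : MvPolynomial Γ κ) ⊗ₜ[κ] v)) +
      G.nF (G.io.baseChange (MvPolynomial Γ κ) ((1 : MvPolynomial Γ κ) ⊗ₜ[κ] v)) =
      (C (G.e * (G.θ + k)) : MvPolynomial Γ κ) • ((1 : MvPolynomial Γ κ) ⊗ₜ[κ] v) +
      (C G.e : MvPolynomial Γ κ) • ∑ γ, (X γ : MvPolynomial Γ κ) •
        ((1 : MvPolynomial Γ κ) ⊗ₜ[κ] G.mul γ v) := by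
    rw [LinearMap.baseChange_tmul, AVan2_nF_tmul, AVan2_nF_tmul, map_add, map_sum,
      LinearMap.baseChange_tmul, ← e2, ← hG.cartan q k v hv, TensorProduct.tmul_add,
      Finset.smul_sum]
    have e4 : ∀ γ, (C G.e : MvPolynomial Γ κ) • ((X γ : MvPolynomial Γ κ) •
        ((1 : MvPolynomial Γ κ) ⊗ₜ[κ] G.mul γ v)) =
        G.io.baseChange (MvPolynomial Γ κ) ((X γ : MvPolynomial Γ κ) •
          ((1 : MvPolynomial Γ κ) ⊗ₜ[κ] G.wd γ v)) +
        (X γ : MvPolynomial Γ κ) • ((1 : MvPolynomial Γ κ) ⊗ₜ[κ] G.wd γ (G.io v)) := by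
      intro γ
      rw [smul_comm, ← e2, ← hG.io_wd, TensorProduct.tmul_add, smul_add, map_smul,
        LinearMap.baseChange_tmul]
    rw [Finset.sum_congr rfl fun γ _ => e4 γ, Finset.sum_add_distrib]
    abel
  have hce : (C G.e⁻¹ : MvPolynomial Γ κ) * C G.e = 1 := by
    rw [← C_mul, inv_mul_cancel₀ hG.e_ne, C_1]
  have hce' : (C G.e⁻¹ : MvPolynomial Γ κ) * C (G.e * (G.θ + k)) = C (G.θ + k) := by
    rw [← C_mul, inv_mul_cancel_left₀ hG.e_ne]
  have h5 : ((-(k : ℤ) : ℤ) : κ) - G.θ = -(G.θ + k) := by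
    push_cast
    ring
  have h6 := neg_smul (C (G.θ + k) : MvPolynomial Γ κ) ((1 : MvPolynomial Γ κ) ⊗ₜ[κ] v)
  rw [e0, Finset.sum_congr rfl fun γ _ => by rw [e1 γ], e3, smul_add, smul_smul, smul_smul, hce,
    hce', one_smul, h5, C_neg]
  refine Eq.trans ?_ h6.symm
  abel

/-- The parts of bounded weight are finitely generated. -/
private theorem AVan2_fg (hG : G.Ok) (q k₀ : ℕ) :
    (⨆ k : {k : ℕ // k ≤ k₀}, G.VR q k).FG := by
  have h1 : Finite {k : ℕ // k ≤ k₀} := by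
    have h2 : (Set.Iic k₀).Finite := Set.finite_Iic k₀
    exact h2.to_subtype
  refine Submodule.fg_iSup _ fun k => ?_
  unfold Cx.VR
  obtain ⟨s, hs⟩ := hG.fg q k
  rw [← hs, Submodule.baseChange_span]
  exact Submodule.fg_span (s.finite_toSet.image _)

theorem vanish (hG : G.Ok) {q : ℕ} (hK : G.Kos q) {x : MvPolynomial Γ κ ⊗[κ] V}
    (hx : x ∈ ⨆ k, G.VR (q + 1) k) (h0 : G.nF x = 0) : ∃ b ∈ ⨆ k, G.VR q k, G.nF b = x := by
  obtain ⟨k₀, hk₀⟩ := van_red hG hK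
  have hfg := AVan2_fg hG (q + 1) k₀
  have h := AVan2_abs (fun γ => (AVan2_Dl G γ).toAddMonoidHom) (AVan2_E G)
    (fun γ r y => AVan2_Dl_smul G γ r y) (fun γ γ' y => AVan2_Dl_comm hG γ γ' y)
    ((⨆ k, G.VR (q + 1) k) ⊓ LinearMap.ker G.nF) ((⨆ k, G.VR q k).map G.nF)
    (by
      rintro _ ⟨y, hy, rfl⟩
      exact ⟨AVan2_nF_mem hG q hy, nF_nF hG y⟩)
    (by
      rintro γ y ⟨hy1, hy2⟩
      refine ⟨AVan2_Dl_mem hG γ _ hy1, ?_⟩
      show G.nF (AVan2_Dl G γ y) = 0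
      have h2 : G.nF y = 0 := hy2
      rw [AVan2_nF_Dl hG, h2, map_zero])
    (by
      rintro γ _ ⟨b, hb, rfl⟩
      exact ⟨AVan2_Dl G γ b, AVan2_Dl_mem hG γ _ hb, AVan2_nF_Dl hG γ b⟩)
    (by
      rintro y ⟨hy1, hy2⟩
      have h2 : G.nF y = 0 := hy2
      have h3 : AVan2_E G y = (C G.e⁻¹ : MvPolynomial Γ κ) •
          G.nF (G.io.baseChange (MvPolynomial Γ κ) y) := by
        rw [AVan2_E_apply, h2, map_zero, zero_add]
      rw [h3]
      exact Submodule.smul_mem _ _ ⟨_, AVan2_io_mem hG q hy1, rfl⟩)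
    G.θ hG.θ_ne {y | ∃ k, ∃ v ∈ G.Vd (q + 1) k, (1 : MvPolynomial Γ κ) ⊗ₜ[κ] v = y}
    (by
      rintro _ ⟨k, v, hv, rfl⟩
      exact ⟨-(k : ℤ), AVan2_A_tmul hG hv⟩)
    (by
      rintro y ⟨hy1, hy2⟩
      rw [← AVan2_U]
      exact hy1)
    (⨆ k : {k : ℕ // k ≤ k₀}, G.VR (q + 1) k) hfg
    (by
      rintro y ⟨hy1, hy2⟩
      obtain ⟨b, hb, hb'⟩ := hk₀ y hy1 hy2
      exact ⟨G.nF b, ⟨b, hb, rfl⟩, hb'⟩)
    x ⟨hx, h0⟩
  obtain ⟨b, hb, hbx⟩ := h
  exact ⟨b, hb, hbx⟩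

end vanish

end MPadcDC
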