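import Pool.Agent.Lib.MP_adc574_ag_DC.CBase
import Pool.Agent.Lib.MP_adc574_ag_GP.BCd
import Pool.Agent.Lib.MP_adc574_ag_GP.Rep

/-!
# JOB C1A (DC): localization at ζ

`ζ := cq I C z hj = x_z / x_j ∈ chart I C`, `f := tr I (subset_insert z C)`.
* `loc_zeta`: `tr_isLocalization hI (subset_insert z C) hj` (GP/Mod2) says that `chart I (insert z C)` is the localization of `chart I C` away from `∏ l ∈ insert z C, cq I C l hj`. This product is `ζ` times units (`cq_isUnit` for `l ∈ C`) (if `z ∈ C`, `ζ` is a unit too), so associated to `ζ`: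
  `IsLocalization.Away` for associated elements: `IsLocalization.away_of_isUnit_of_bijective` is not needed; use `IsLocalization.Away.of_associated`-type lemma (`IsLocalization.of_le_of_exists_dvd` / `IsLocalization.algebra..`; or check the three axioms with powers: `Submonoid.powers`).
* `rs_inj`: the ring homomorphism `rz I z C` is `mp` of the localization map (`CovD.rs` is `mp _ (CC.of_algHom _)`; by `rfl` or `mp_congr` it is `mp (algebraMap ..) _` for the algebra structure of `tr`). Let `rz e = 0`; `mp_ker` (GP/FmLoc) gives `ζ ^ k` with `fz (ζ ^ k) * e = 0`. `Ω[chart I C⁄K]` is projective (`hs.smooth hI hC : Algebra.Smooth K (chart I C)`, gives `Module.Projective`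
  of `Ω`), so `Fm K (chart I C) = ExteriorAlgebra (chart I C) Ω` has no `ζ`-torsion: a projective module `P` is a direct summand of a free module; the exterior algebra of a projective module is projective, hence torsion free with respect to non zero divisors of the ring. (If the projectivity of the exterior algebra is not available: embed `P` in a free module `F` with
  `P → F → P` the identity; `ExteriorAlgebra P → ExteriorAlgebra F` is injective (a retraction exists, `ExteriorAlgebra.map`), and `ExteriorAlgebra F` for a free module with basis is free (`exteriorPower` basis) or at least `ζ`-torsion free: compare how helper7 / GP files treat this: GP/Cf, GP/FmLoc, `Fd` pieces: `⋀[R]^q P` with `P` finite projective: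
  `exteriorPower` of a finite projective module is projective: instance in Mathlib?). Any proof is fine.
* `rs_den`: `mp_surj` (GP/FmLoc) with `M = Submonoid.powers ζ`: `∃ m ∈ M, ∃ e₀ ∈ Fd K (chart I C) q, fz (algebraMap m) * η = mp .. e₀`, `m = ζ ^ k`, and `tr (cq I C z hj) = cq I (insert z C) z _` (`tr_cq`).
-/

set_option autoImplicit false
set_option linter.unusedSectionVars false

namespace MPadcDC

open MvPolynomial TensorProduct MPadcGP MPadcGP2

universe u

section pole

variable {K : Type u} [Field K] [CharZero K] {n : ℕ} {I : Ideal (MvPolynomial (Fin n) K)}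
  {z : Fin n} {C : Finset (Fin n)}

theorem loc_zeta (hI : IsHomog I) {j : Fin n} (hj : j ∈ C) :
    letI := (tr I (Finset.subset_insert z C)).toRingHom.toAlgebra
    IsLocalization.Away (cq I C z hj) (chart I (insert z C)) := by
  classical
  let _ := (tr I (Finset.subset_insert z C)).toRingHom.toAlgebra
  have h0 : IsLocalization.Away (∏ l ∈ insert z C, cq I C l hj) (chart I (insert z C)) :=
    tr_isLocalization hI (Finset.subset_insert z C) hj
  have hu : IsUnit (∏ l ∈ C, cq I C l hj) :=
    Finset.prod_induction _ _ (fun _ _ h1 h2 => h1.mul h2) isUnit_one fun l hl => cq_isUnit I C hl hj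
  have ha : Associated (∏ l ∈ insert z C, cq I C l hj) (cq I C z hj) := by
    by_cases hz : z ∈ C
    · rw [Finset.insert_eq_of_mem hz]
      exact (associated_one_iff_isUnit.2 hu).trans (associated_one_iff_isUnit.2 (cq_isUnit I C hz hj)).symm
    · rw [Finset.prod_insert hz]
      exact associated_mul_unit_left _ _ hu
  exact IsLocalization.Away.of_associated ha

private theorem C1A_pj {A : Type u} {R : Type u} [CommRing A] [CommRing R] [Algebra A R] (q : ℕ) (r : R)
    (e : Fm A R) : pj A q (fz A r * e) = fz A r * pj A q e := by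
  induction e using homog_ind with
  | h0 => rw [mul_zero, map_zero, mul_zero]
  | h1 s e he =>
    rcases eq_or_ne s q with rfl | h
    · rw [pj_of_mem he, pj_of_mem (fz_mul_mem r he)]
    · rw [pj_of_ne he h, pj_of_ne (fz_mul_mem r he) h, mul_zero]
  | h2 a b ha hb => rw [mul_add, map_add, ha, hb, map_add, mul_add]

private theorem C1A_zero {A : Type u} {R : Type u} [CommRing A] [CommRing R] [Algebra A R] {e : Fm A R}
    (h : ∀ q, pj A q e = 0) : e = 0 := by
  apply (DirectSum.decompose (fun i : ℕ => ⋀[R]^i (Ω[R⁄A]))).injective
  rw [DirectSum.decompose_zero]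
  refine DFinsupp.ext fun q => Subtype.ext ?_
  exact h q

private theorem C1A_tf {R : Type u} [CommRing R] {P : Type u} [AddCommGroup P] [Module R P]
    [Module.Projective R P] {r : R} (hr : r ∈ nonZeroDivisors R) {x : P} (hx : r • x = 0) : x = 0 := by
  obtain ⟨s, hs⟩ := Module.projective_def.1 (inferInstance : Module.Projective R P)
  have h1 : s x = 0 := by
    refine Finsupp.ext fun p => ?_
    have h2 : r * s x p = 0 := by
      have h3 := congrArg s hx
      rw [map_smul, map_zero] at h3
      have h4 := DFunLike.congr_fun h3 p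
      exact h4
    rw [mul_comm] at h2
    exact (mem_nonZeroDivisors_iff_right.1 hr) _ h2
  have h2 := hs x
  rw [h1, map_zero] at h2
  exact h2.symm

private theorem C1A_smul {A : Type u} {R : Type u} [CommRing A] [CommRing R] [Algebra A R]
    [Algebra.FormallySmooth A R] {r : R} (hr : r ∈ nonZeroDivisors R) {e : Fm A R}
    (he : fz A r * e = 0) : e = 0 := by
  refine C1A_zero fun q => ?_
  have h1 : fz A r * pj A q e = 0 := by
    rw [← C1A_pj, he, map_zero]
  have hp : Module.Projective R (⋀[R]^q (Ω[R⁄A])) := projective_ext q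
  have h2 : (⟨pj A q e, pj_mem q e⟩ : ⋀[R]^q (Ω[R⁄A])) = 0 := by
    refine C1A_tf (P := ⋀[R]^q (Ω[R⁄A])) hr ?_
    apply Subtype.ext
    change r • pj A q e = 0
    rw [fz_smul]
    exact h1
  exact congrArg Subtype.val h2

theorem rs_inj (hI : IsHomog I) (hs : IsSmoothProj I) {j : Fin n} (hj : j ∈ C)
    (hnz : cq I C z hj ∈ nonZeroDivisors (chart I C)) :
    Function.Injective (rz I z C) := by
  let _ := (tr I (Finset.subset_insert z C)).toRingHom.toAlgebra
  have hst : IsScalarTower K (chart I C) (chart I (insert z C)) :=
    IsScalarTower.of_algebraMap_eq fun a => ((tr I (Finset.subset_insert z C)).commutes a).symm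
  have hloc : IsLocalization.Away (cq I C z hj) (chart I (insert z C)) := loc_zeta hI hj
  have hsm : Algebra.Smooth K (chart I C) := hs.smooth hI ⟨j, hj⟩
  rw [injective_iff_map_eq_zero]
  intro e he
  have hcc : CC K K (algebraMap (chart I C) (chart I (insert z C))) := cc_alg
  have h1 : mp (algebraMap (chart I C) (chart I (insert z C))) hcc e = 0 := he
  obtain ⟨m, hm, h2⟩ := mp_ker (Submonoid.powers (cq I C z hj)) hcc h1
  obtain ⟨k, rfl⟩ := hm
  exact C1A_smul (pow_mem hnz k) h2

theorem rs_den (hI : IsHomog I) {j : Fin n} (hj : j ∈ C) {q : ℕ} {η : Fm K (chart I (insert z C))}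
    (hη : η ∈ Fd K (chart I (insert z C)) q) : ∃ (k : ℕ) (η₀ : Fm K (chart I C)), η₀ ∈ Fd K (chart I C) q ∧
      fz K (cq I (insert z C) z (Finset.mem_insert_of_mem hj) ^ k) * η =
        rz I z C η₀ := by
  let _ := (tr I (Finset.subset_insert z C)).toRingHom.toAlgebra
  have hst : IsScalarTower K (chart I C) (chart I (insert z C)) :=
    IsScalarTower.of_algebraMap_eq fun a => ((tr I (Finset.subset_insert z C)).commutes a).symm
  have hloc : IsLocalization.Away (cq I C z hj) (chart I (insert z C)) := loc_zeta hI hj
  have hcc : CC K K (algebraMap (chart I C) (chart I (insert z C))) := cc_alg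
  obtain ⟨m, hm, e₀, he₀, h1⟩ := mp_surj (Submonoid.powers (cq I C z hj)) hcc hη
  obtain ⟨k, rfl⟩ := hm
  refine ⟨k, e₀, he₀, ?_⟩
  have h2 : algebraMap (chart I C) (chart I (insert z C)) (cq I C z hj ^ k) =
      cq I (insert z C) z (Finset.mem_insert_of_mem hj) ^ k := by
    rw [map_pow]
    congr 1
    exact tr_cq I (Finset.subset_insert z C) z hj
  rw [← h2]
  exact h1

end pole

end MPadcDC
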