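import Pool.Agent.Lib.MP_adc574_ag_DC.CBase

/-!
# JOB C1B (DC): division by ζ

`R := chart I C` (any ring would do). `ζ = cq I C z hj`. `b := ct K D η` (GP/DR: `ct`, `ct_df_mul`, `ct_fz`, `ct_mul`, `ct_mem`, `ct_mem_zero`). Apply `ct K D` to `df ζ * η = fz ζ * x`: `ct_df_mul`: `fz (D ζ) * η - df ζ * ct D η = fz ζ * ct D x` (`ct` is `R`-linear: `ct (fz r * x) = fz r * ct x`, from `map_smul` and `fz_smul`). As `D ζ + g ζ = 1`:
`η = fz (D ζ) * η + fz (g * ζ) * η = df ζ * ct D η + fz ζ * (ct D x + fz g * η)`. `y := ct K D x + fz g * η ∈ Fd q` (`ct_mem`, `fz_mul_mem`). `b ∈ Fd r` if `r + 1 = q` (`ct_mem`); if `q = 0`, `ct K D η = 0` (`ct_mem_zero`), so `b = 0`.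
-/

set_option autoImplicit false
set_option linter.unusedSectionVars false

namespace MPadcDC

open MvPolynomial TensorProduct MPadcGP MPadcGP2

universe u

section gen

variable {A R : Type u} [CommRing A] [CommRing R] [Algebra A R]

private theorem C1B_gen (D : Derivation A R R) (ζ g : R) (hD : D ζ + g * ζ = 1) {η x : Fm A R}
    (h : df A ζ * η = fz A ζ * x) :
    η = df A ζ * ct A D η + fz A ζ * (ct A D x + fz A g * η) := by
  have h1 := congrArg (ct A D) h
  rw [ct_df_mul, ← fz_smul ζ x, map_smul, fz_smul] at h1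
  have e : fz A (D ζ) * η = df A ζ * ct A D η + fz A ζ * ct A D x := by
    rw [← h1]
    abel
  calc η = fz A (1 : R) * η := by rw [map_one, one_mul]
    _ = fz A (D ζ) * η + fz A (g * ζ) * η := by rw [← hD, map_add, add_mul]
    _ = df A ζ * ct A D η + fz A ζ * (ct A D x + fz A g * η) := by
      rw [e, mul_comm g, map_mul, mul_add, mul_assoc, add_assoc]

end gen

section pole

variable {K : Type u} [Field K] [CharZero K] {n : ℕ} {I : Ideal (MvPolynomial (Fin n) K)}
  {z : Fin n} {C : Finset (Fin n)}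

/-- Division by `ζ = x_z / x_j`. -/
theorem div_zeta {j : Fin n} (hj : j ∈ C) (D : Derivation K (chart I C) (chart I C)) (g : chart I C)
    (hD : D (cq I C z hj) + g * cq I C z hj = 1) {q : ℕ} {η x : Fm K (chart I C)}
    (hη : η ∈ Fd K (chart I C) q) (hx : x ∈ Fd K (chart I C) (q + 1))
    (h : df K (cq I C z hj) * η = fz K (cq I C z hj) * x) :
    ∃ b y : Fm K (chart I C), (∀ r, r + 1 = q → b ∈ Fd K (chart I C) r) ∧ (q = 0 → b = 0) ∧ y ∈ Fd K (chart I C) q ∧
      η = df K (cq I C z hj) * b + fz K (cq I C z hj) * y := by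
  refine ⟨ct K D η, ct K D x + fz K g * η, ?_, ?_, ?_, C1B_gen D _ g hD h⟩
  · intro r hr
    rw [← hr] at hη
    exact ct_mem D hη
  · intro hq
    rw [hq] at hη
    exact ct_mem_zero D hη
  · exact Submodule.add_mem _ (ct_mem D hx) (fz_mul_mem g hη)

end pole

end MPadcDC
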