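import Pool.Agent.Lib.MP_adc574_ag_DC.CBase

/-!
# JOB C1C (DC): forms of weight μ ≠ 0

The forms of degree `q` and weight `μ` on `chart I C` are combinations of products of `q'` functions `cq l j'` and `q` differentials `df (cq l j')` (`j' ∈ C`) with total weight `∑ (wt l - wt j') = μ`. (Literal weights: GP/GrW, `wtForms`, `grP_Wt`, `wp_gnr`, `wp_gnr_mul`; `chart_ind`, `fd_ind`.) Since `z ∉ C` all `wt j'` and `wt l`, `l ≠ z`, are equal, so if
`μ ≠ 0` at least one factor is `cq z j'` or `df (cq z j')`, and `cq I C z hj' = ζ * u` with `u = cq I C j hj'` (`cq_mul`), `ζ = cq I C z hj`, so `fz (cq z j') = fz ζ * fz u`, `df (cq z j') = fz ζ * df u + fz u * df ζ`. Suggested proof: let `S_q := {e ∈ Fd q | ∃ x y, ... e = fz ζ * x + df ζ * y}` (with the degree conditions), an additive group stable under left and right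
multiplication by functions and differentials (degree `q → q + 1`): `df t * (df ζ * y) = df ζ * (-(df t * y))`. Show for all forms `e ∈ Fd q` and all `ν ≠ 0`: `wp _ ν e ∈ S_q`, and `e - wp _ 0 e`.. by `fd_ind`: for `e = fz r * wd t`: it suffices to prove for `r` a monomial in the generators and `t i` monomials in the generators (`chart_ind`), multiplicativity:
`wp_mul`: `wp ν (a * b) = ∑_κ wp κ a * wp (ν - κ) b`: if `ν ≠ 0` then `κ ≠ 0` or `ν - κ ≠ 0`. So the property P(e) := `∀ ν ≠ 0, wp ν e ∈ S` (S = the two-sided ideal generated by `fz ζ`, `df ζ`, i.e. `{fz ζ * x + df ζ * y}`) is multiplicative: P(a), P(b) imply P(a * b). P(fz r) for all `r` by `chart_ind` (base: weight 0; `cq l hm`: `grC_c_cq`), P(df t) by `chart_ind` and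
`df_mul`, `wp_df`. Then `fm_ind` gives P(e) for all `e`. With `hbμ`: `b = fz ζ * x' + df ζ * y'`; finally project on the form degree `q` to get the degree conditions (use a projection of `Fm` to `Fd q`: the decomposition of the exterior algebra, see GP: lemmas on `Fd` decomposition, `DirectSum`/`GradedAlgebra`; if `q = 0` the `df ζ * y'` part has degree `≥ 1` and drops out). If it is
easier carry the degrees through: prove the statement by `fd_ind` for `e ∈ Fd q` directly.
-/

set_option autoImplicit false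
set_option linter.unusedSectionVars false

namespace MPadcDC

open MvPolynomial TensorProduct MPadcGP MPadcGP2

universe u

section pole

variable {K : Type u} [Field K] [CharZero K] {n : ℕ} {I : Ideal (MvPolynomial (Fin n) K)}
  {z : Fin n} {C : Finset (Fin n)}

variable {M : Type} [AddCommGroup M] [Fintype M] [DecidableEq M] {wt : Fin n → M}

/-- The multiples of `ζ` modulo `dζ`. -/
private def C1CS {A R : Type u} [CommRing A] [CommRing R] [Algebra A R] (ζ : R) (q : ℕ)
    (b : Fm A R) : Prop :=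
  ∃ x y : Fm A R, x ∈ Fd A R q ∧ (∀ r, r + 1 = q → y ∈ Fd A R r) ∧ (q = 0 → y = 0) ∧
    b = fz A ζ * x + df A ζ * y

private theorem C1CS_zero {A R : Type u} [CommRing A] [CommRing R] [Algebra A R] (ζ : R) (q : ℕ) :
    C1CS (A := A) ζ q 0 :=
  ⟨0, 0, Submodule.zero_mem _, fun _ _ => Submodule.zero_mem _, fun _ => rfl, by
    rw [mul_zero, mul_zero, add_zero]⟩

private theorem C1CS_add {A R : Type u} [CommRing A] [CommRing R] [Algebra A R] {ζ : R} {q : ℕ}
    {a b : Fm A R} (ha : C1CS ζ q a) (hb : C1CS ζ q b) : C1CS ζ q (a + b) := by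
  obtain ⟨x, y, h1, h2, h3, rfl⟩ := ha
  obtain ⟨x', y', h1', h2', h3', rfl⟩ := hb
  refine ⟨x + x', y + y', Submodule.add_mem _ h1 h1', fun r hr => Submodule.add_mem _ (h2 r hr)
    (h2' r hr), fun h => by rw [h3 h, h3' h, add_zero], ?_⟩
  rw [mul_add, mul_add]
  abel

private theorem C1CS_mul {A R : Type u} [CommRing A] [CommRing R] [Algebra A R] {ζ : R} {p q : ℕ}
    {a b : Fm A R} (ha : C1CS ζ p a) (hb : b ∈ Fd A R q) : C1CS ζ (p + q) (a * b) := by
  obtain ⟨x, y, h1, h2, h3, rfl⟩ := ha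
  refine ⟨x * b, y * b, fd_mul h1 hb, ?_, ?_, ?_⟩
  · intro r hr
    rcases p with _ | p
    · rw [h3 rfl, zero_mul]
      exact Submodule.zero_mem _
    · have h4 : r = p + q := by omega
      rw [h4]
      exact fd_mul (h2 p rfl) hb
  · intro h
    rw [h3 (by omega), zero_mul]
  · rw [add_mul, mul_assoc, mul_assoc]

private theorem C1C_inv_mem {A R : Type u} [CommRing A] [CommRing R] [Algebra A R] {p : ℕ}
    {a : Fm A R} (ha : a ∈ Fd A R p) : inv A a ∈ Fd A R p := by
  rw [inv_mem ha]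
  have h1 : ((-1) ^ p : Fm A R) = fz A ((-1) ^ p) := by
    rw [map_pow, map_neg, map_one]
  rw [h1]
  exact fz_mul_mem _ ha

private theorem C1CS_mul' {A R : Type u} [CommRing A] [CommRing R] [Algebra A R] {ζ : R} {p q : ℕ}
    {a b : Fm A R} (ha : a ∈ Fd A R p) (hb : C1CS ζ q b) : C1CS ζ (p + q) (a * b) := by
  obtain ⟨x, y, h1, h2, h3, rfl⟩ := hb
  refine ⟨a * x, inv A a * y, fd_mul ha h1, ?_, ?_, ?_⟩
  · intro r hr
    rcases q with _ | q
    · rw [h3 rfl, mul_zero]
      exact Submodule.zero_mem _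
    · have h4 : r = p + q := by omega
      rw [h4]
      exact fd_mul (C1C_inv_mem ha) (h2 q rfl)
  · intro h
    rw [h3 (by omega), mul_zero]
  · have h4 : a * df A ζ = df A ζ * inv A a := by
      rw [df_comm, MPadcGP.inv_inv]
    rw [mul_add, ← mul_assoc, ← mul_assoc, ← mul_assoc, ← mul_assoc, h4, fz_comm]

private theorem C1CS_sum {A R : Type u} [CommRing A] [CommRing R] [Algebra A R] {ζ : R} {q : ℕ}
    {ι : Type*} (s : Finset ι) (f : ι → Fm A R) (h : ∀ i ∈ s, C1CS ζ q (f i)) :
    C1CS ζ q (∑ i ∈ s, f i) := by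
  classical
  induction s using Finset.induction_on with
  | empty =>
    rw [Finset.sum_empty]
    exact C1CS_zero ζ q
  | insert i s hi ih =>
    rw [Finset.sum_insert hi]
    exact C1CS_add (h i (Finset.mem_insert_self i s))
      (ih fun k hk => h k (Finset.mem_insert_of_mem hk))

/-- The parts of nonzero weight are multiples of `ζ` modulo `dζ`. -/
private def C1CP {A R M : Type*} [CommRing A] [CommRing R] [Algebra A R] [AddCommGroup M]
    [Fintype M] [DecidableEq M] (G : Grd A R M) (S : ℕ → Fm A R → Prop) (q : ℕ) (e : Fm A R) :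
    Prop :=
  e ∈ Fd A R q ∧ ∀ ν : M, ν ≠ 0 → S q (wp G ν e)

/-- abstract form of `wt_zeta` -/
private theorem C1C_abs {A R : Type u} {M : Type} [CommRing A] [CommRing R] [Algebra A R] [AddCommGroup M]
    [Fintype M] [DecidableEq M] (G : Grd A R M) (ζ : R) {ι : Type} (x : ι → R)
    (hind : ∀ P : R → Prop, (∀ a, P (algebraMap A R a)) → (∀ i, P (x i)) → (∀ x y, P x → P y → P (x + y)) →
      (∀ x y, P x → P y → P (x * y)) → ∀ r, P r)
    (hx : ∀ (i : ι) (ν : M), ν ≠ 0 → G.c ν (x i) = 0 ∨ ∃ u, G.c ν (x i) = ζ * u) {μ : M} (hμ : μ ≠ 0) {q : ℕ}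
    {b : Fm A R} (hb : b ∈ Fd A R q) (hbμ : wp G μ b = b) : C1CS ζ q b := by
  classical
  -- products
  have hmul : ∀ {p q : ℕ} {a b : Fm A R}, C1CP G (C1CS ζ) p a →
      C1CP G (C1CS ζ) q b → C1CP G (C1CS ζ) (p + q) (a * b) := by
    intro p q a b ha hb
    refine ⟨fd_mul ha.1 hb.1, fun ν hν => ?_⟩
    rw [wp_mul]
    refine C1CS_sum _ _ fun κ _ => ?_
    by_cases hκ : κ = 0
    · subst hκ
      rw [sub_zero]
      exact C1CS_mul' (wp_mem G ha.1 0) (hb.2 ν hν)
    · exact C1CS_mul (ha.2 κ hκ) (wp_mem G hb.1 _)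
  have hadd : ∀ {q : ℕ} {a b : Fm A R}, C1CP G (C1CS ζ) q a →
      C1CP G (C1CS ζ) q b → C1CP G (C1CS ζ) q (a + b) := by
    intro q a b ha hb
    refine ⟨Submodule.add_mem _ ha.1 hb.1, fun ν hν => ?_⟩
    rw [wp_add]
    exact C1CS_add (ha.2 ν hν) (hb.2 ν hν)
  -- functions
  have hfz : ∀ r : R, C1CP G (C1CS ζ) 0 (fz A r) := by
    refine hind _ (fun a => ?_) (fun i => ?_) (fun x y hx hy => ?_) (fun x y hx hy => ?_)
    · refine ⟨fz_mem _, fun ν hν => ?_⟩
      rw [wp_fz, Grd.c_base, if_neg hν, map_zero]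
      exact C1CS_zero _ _
    · refine ⟨fz_mem _, fun ν hν => ?_⟩
      rw [wp_fz]
      rcases hx i ν hν with h | ⟨u, h⟩
      · rw [h, map_zero]
        exact C1CS_zero _ _
      · rw [h]
        refine ⟨fz A u, 0, fz_mem _, fun _ _ => Submodule.zero_mem _, fun _ => rfl, ?_⟩
        rw [mul_zero, add_zero, ← map_mul]
    · rw [map_add]
      exact hadd hx hy
    · rw [map_mul]
      exact hmul hx hy
  -- differentials
  have hdf : ∀ t : R, C1CP G (C1CS ζ) 1 (df A t) := by
    refine hind _ (fun a => ?_) (fun i => ?_) (fun x y hx hy => ?_) (fun x y hx hy => ?_)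
    · refine ⟨df_mem _, fun ν hν => ?_⟩
      rw [df_base, wp_zero]
      exact C1CS_zero _ _
    · refine ⟨df_mem _, fun ν hν => ?_⟩
      rw [wp_df]
      rcases hx i ν hν with h | ⟨u, h⟩
      · rw [h, df_zero]
        exact C1CS_zero _ _
      · rw [h]
        refine ⟨df A u, fz A u, df_mem _, ?_, ?_, ?_⟩
        · intro r hr
          have h5 : r = 0 := by omega
          rw [h5]
          exact fz_mem _
        · intro h5
          exact absurd h5 one_ne_zero
        · rw [← fz_comm, ← df_mul]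
    · rw [df_add]
      exact hadd hx hy
    · rw [df_mul]
      have h5 := hmul (hfz x) hy
      have h6 := hmul (hfz y) hx
      rw [zero_add] at h5 h6
      exact hadd h5 h6
  -- products of differentials
  have hwd : ∀ (q : ℕ) (t : Fin q → R), C1CP G (C1CS ζ) q (wd A t) := by
    intro q
    induction q with
    | zero =>
      intro t
      rw [wd_zero, ← map_one (fz A)]
      exact hfz 1
    | succ q ih =>
      intro t
      have h5 := hmul (hdf (t 0)) (ih (Fin.tail t))
      rw [Nat.add_comm 1 q] at h5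
      rw [wd_succ]
      exact h5
  have hall : C1CP G (C1CS ζ) q b := by
    refine fd_ind (P := fun e => C1CP G (C1CS ζ) q e) ?_ ?_ ?_ hb
    · refine ⟨Submodule.zero_mem _, fun ν _ => ?_⟩
      rw [wp_zero]
      exact C1CS_zero _ _
    · intro r t
      have h5 := hmul (hfz r) (hwd q t)
      rw [zero_add] at h5
      exact h5
    · intro a b ha hb
      exact hadd ha hb
  have h7 := hall.2 μ hμ
  rw [hbμ] at h7
  exact h7

private theorem C1C_cq (hI : IsHomog I) (hw : IsWHomog wt I) (hwt : ∀ l l' : Fin n, l ≠ z → l' ≠ z → wt l = wt l')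
    (hz : z ∉ C) {j : Fin n} (hj : j ∈ C) (i : Fin n × {m // m ∈ C}) (ν : M) (hν : ν ≠ 0) :
    (grC hI hw C).c ν (cq I C i.1 i.2.2) = 0 ∨ ∃ u, (grC hI hw C).c ν (cq I C i.1 i.2.2) = cq I C z hj * u := by
  obtain ⟨l, m, hm⟩ := i
  rw [grC_c_cq]
  split_ifs with h
  · right
    have hl : l = z := by
      by_contra hl
      have hm' : m ≠ z := by
        rintro rfl
        exact hz hm
      rw [hwt l m hl hm', sub_self] at h
      exact hν h.symm
    subst hl
    exact ⟨cq I C j hm, (cq_mul I C hj hm).symm⟩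
  · left
    rfl

/-- The forms of weight `μ ≠ 0` are multiples of `ζ` modulo `dζ`, if only `z` has a weight. -/
theorem wt_zeta (hI : IsHomog I) (hw : IsWHomog wt I) (hwt : ∀ l l' : Fin n, l ≠ z → l' ≠ z → wt l = wt l')
    (hz : z ∉ C) {j : Fin n} (hj : j ∈ C) {μ : M} (hμ : μ ≠ 0) {q : ℕ} {b : Fm K (chart I C)}
    (hb : b ∈ Fd K (chart I C) q) (hbμ : wp (grC hI hw C) μ b = b) :
    ∃ x y : Fm K (chart I C), x ∈ Fd K (chart I C) q ∧ (∀ r, r + 1 = q → y ∈ Fd K (chart I C) r) ∧ (q = 0 → y = 0) ∧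
      b = fz K (cq I C z hj) * x + df K (cq I C z hj) * y :=
  @C1C_abs K (chart I C) M _ _ _ _ _ _ (grC hI hw C) (cq I C z hj) (Fin n × {m // m ∈ C}) (fun i => cq I C i.1 i.2.2)
    (fun P h1 h2 h3 h4 r => @chart_ind K _ n I C P h1 (fun l m hm => h2 (l, ⟨m, hm⟩)) h3 h4 r)
    (C1C_cq hI hw hwt hz hj) μ hμ q b hb hbμ

end pole

end MPadcDC
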