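import Pool.Agent.Lib.MP_adc574_ag_DC.C1A
import Pool.Agent.Lib.MP_adc574_ag_DC.C1B
import Pool.Agent.Lib.MP_adc574_ag_DC.C1C

/-!
# JOB C1D (DC): pole reduction

Write `T = rz I z C`, `ζ ∈ chart I C`, `ζ' = cq I (insert z C) z _` (`T (fz ζ) = fz ζ'`, `T (df ζ) = df ζ'`: `CovD.rs_fz`, `rs_df`, `tr_cq`; `ζ'` is a unit), `T (dd e) = dd (T e)` (`rs_dd`), `T` injective (`rs_inj`), `T` respects the weights (`grP hI hw`, `GrX.wp_rs`).
CLAIM (induction on `k`): if `η ∈ Fd q`, `fz (ζ' ^ k) * η = T η₀` with `η₀ ∈ Fd q`, `dd η = T x`, `x ∈ Fd (q + 1)`, then there is `ξ` (`∈ Fd r` if `r + 1 = q`, `0` if `q = 0`) and `η₁ ∈ Fd q` with `fz ζ' * (η - dd ξ) = T η₁`. (pole order `≤ 1`.)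
`k ≤ 1`: `ξ = 0`. Step `k + 2`: differentiate `fz (ζ' ^ (k + 2)) * η = T η₀` and multiply with `ζ'`: `(k + 2) df ζ' * T η₀ + fz (ζ' ^ (k + 3)) * dd η = fz ζ' * T (dd η₀)`, so `(k + 2) df ζ * η₀ = fz ζ * (dd η₀ - fz (ζ ^ (k + 2)) * x)` (injectivity of `T`). `div_zeta` (divide by `k + 2 ≠ 0`): `η₀ = df ζ * b + fz ζ * y`. Put
`ξ₁ := -(k + 1)⁻¹ • (fz (ζ'⁻¹ ^ (k + 1)) * T b)`: `dd ξ₁ = fz (ζ'⁻¹ ^ (k + 2)) * df ζ' * T b - (k + 1)⁻¹ • fz (ζ'⁻¹ ^ (k + 1)) * T (dd b)`. So `fz (ζ' ^ (k + 1)) * (η - dd ξ₁) = T (y + (k + 1)⁻¹ • dd b)`, and `dd (η - dd ξ₁) = dd η`. Induct for `η - dd ξ₁`.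
So we may assume pole order `≤ 1` : `fz ζ' * η₂ = T η₁`, `η₂ = η - dd ξ`; replace `ξ` by `wp μ ξ`: `wp μ η₂ = η - dd (wp μ ξ)` and `fz ζ' * wp μ η₂ = T (wp (μ + wt z - wt j) η₁)` (or: `ζ'` is homogeneous of weight `wt z - wt j`). As before `df ζ * η₁ = fz ζ * (..)` (case `k = 1`: `df ζ' * T η₁ + fz (ζ' ^ 2) * dd η₂ = fz ζ' * T (dd η₁)`), `div_zeta`: `η₁ = df ζ * b + fz ζ * y`.
So `η₂ = fz (ζ'⁻¹) * df ζ' * T b + T y`. Project to weight `μ`: `fz (ζ'⁻¹) * df ζ'` has weight `0`, so `η₂ = fz (ζ'⁻¹) * df ζ' * T (wp μ b) + T (wp μ y)`. `wt_zeta` for `wp μ b` (form degree `r`, `r + 1 = q`; if `q = 0`, `b = 0`): `wp μ b = fz ζ * x' + df ζ * y'`, so `fz (ζ'⁻¹) * df ζ' * T (wp μ b) = df ζ' * T x' + fz (ζ'⁻¹) * df ζ' * df ζ' * T y' = T (df ζ * x')`.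
So `η₀ := df ζ * x' + wp μ y`, replaced by its weight `μ` part (`T` injective and weights).
-/

set_option autoImplicit false
set_option linter.unusedSectionVars false

namespace MPadcDC

open MvPolynomial TensorProduct MPadcGP MPadcGP2

universe u

section abs

variable {K : Type u} [Field K] [CharZero K] {R R' : Type u} [CommRing R] [Algebra K R] [CommRing R'] [Algebra K R']

omit [CharZero K] in
private theorem c1d_dfpow (t : R) (k : ℕ) :
    df K (t ^ k) = (k : R) • t ^ (k - 1) • df K t := by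
  unfold df
  rw [Derivation.leibniz_pow, map_nsmul, map_smul, Nat.cast_smul_eq_nsmul]

omit [CharZero K] in
private theorem c1d_dfinv {t s : R} (h : t * s = 1) :
    df K s = -(s ^ 2 • df K t) := by
  have h1 : df K (t * s) = 0 := by rw [h, df_one]
  rw [df_mul, ← fz_smul, ← fz_smul] at h1
  have h2 : s • (t • df K s + s • df K t) = 0 := by rw [h1, smul_zero]
  rw [smul_add, smul_smul, smul_smul, mul_comm s t, h, one_smul] at h2
  rw [pow_two]
  exact eq_neg_of_add_eq_zero_left h2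

omit [CharZero K] in
private theorem c1d_dds (r : R) (a : Fm K R) :
    dd K (r • a) = df K r * a + r • dd K a := by
  rw [fz_smul, dd_mul, dd_fz, inv_fz, fz_smul]

omit [CharZero K] in
private theorem c1d_ddk (c : K) (a : Fm K R) :
    dd K (algebraMap K R c • a) = algebraMap K R c • dd K a := by
  rw [c1d_dds, df_base, zero_mul, zero_add]

private theorem c1d_mod1 {E : Type u} [AddCommGroup E] [Module R E] (t m : R) (k : ℕ) (a b c : E)
    (h : m • t ^ (k + 1) • a + t ^ (k + 2) • b = c) : m • t ^ (k + 2) • a + t ^ (k + 3) • b = t • c := by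
  rw [← h, smul_add, smul_smul, smul_smul, smul_smul, smul_smul]
  congr 2
  · ring
  · ring

private theorem c1d_mod2 {E : Type u} [AddCommGroup E] [Module R E] {t m m' : R} {k : ℕ} {a b c : E}
    (h : m • a + t ^ (k + 3) • b = t • c) (hm : m' * m = 1) : a = t • m' • (c - t ^ (k + 2) • b) := by
  have h1 : a = m' • (m • a) := by rw [smul_smul, hm, one_smul]
  rw [h1, eq_sub_of_add_eq h, smul_comm t m', smul_sub t, smul_smul t, ← pow_succ']

private theorem c1d_mod3 {E : Type u} [AddCommGroup E] [Module R E] {t s : R} {k : ℕ} {a b c d : E}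
    (hu : t * s = 1) (h : t ^ (k + 2) • a = d) (hd : d = b + t • c) : t ^ (k + 1) • a = s • b + c := by
  have h1 : t ^ (k + 1) = s * t ^ (k + 2) := by
    rw [pow_succ t (k + 1), ← mul_assoc, mul_comm s, mul_assoc, mul_comm s, hu, mul_one]
  rw [h1, ← smul_smul, h, hd, smul_add, smul_smul s t, mul_comm s, hu, one_smul]

private theorem c1d_mod4 {E : Type u} [AddCommGroup E] [Module R E] {s m c : R} {k : ℕ} {p b d b' : E}
    (hc : c * m = 1) (hp : p = -(s ^ 2 • d)) (hb : b = m • s ^ k • p + s ^ (k + 1) • b') :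
    -(c • b) = s ^ (k + 2) • d - c • s ^ (k + 1) • b' := by
  rw [hb, hp, smul_add, smul_smul c m, hc, one_smul, smul_neg, smul_smul (s ^ k), ← pow_add, neg_add, neg_neg,
    sub_eq_add_neg]

private theorem c1d_mod5 {E : Type u} [AddCommGroup E] [Module R E] {t s c : R} {k : ℕ} {e p y b d : E}
    (hu : t * s = 1) (he : t ^ (k + 1) • e = s • p + y) (hd : d = s ^ (k + 2) • p - c • s ^ (k + 1) • b) :
    t ^ (k + 1) • (e - d) = y + c • b := by
  have e10 : t ^ (k + 1) * s ^ (k + 1) = 1 := by rw [← mul_pow, hu, one_pow]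
  rw [smul_sub, he, hd, smul_sub, smul_smul (t ^ (k + 1)) (s ^ (k + 2)), pow_succ s (k + 1), ← mul_assoc, e10, one_mul,
    smul_comm (t ^ (k + 1)) c, smul_smul (t ^ (k + 1)) (s ^ (k + 1)), e10, one_smul]
  abel

/-- pole order at most one -/
private theorem c1d_one {T : Fm K R →+* Fm K R'} {τ : R →ₐ[K] R'} {ζ : R} {u : R'}
    (hTs : ∀ r e, T (r • e) = τ r • T e) (hTdf : ∀ r, T (df K r) = df K (τ r)) (hTdd : ∀ e, T (dd K e) = dd K (T e))
    (hTm : ∀ q, ∀ e ∈ Fd K R q, T e ∈ Fd K R' q) (hT : Function.Injective T) (hu : τ ζ * u = 1) {q : ℕ}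
    (hdiv : ∀ η x : Fm K R, η ∈ Fd K R q → x ∈ Fd K R (q + 1) → df K ζ * η = ζ • x →
      ∃ b y : Fm K R, (∀ r, r + 1 = q → b ∈ Fd K R r) ∧ (q = 0 → b = 0) ∧ y ∈ Fd K R q ∧ η = df K ζ * b + ζ • y)
    {x : Fm K R} (hx : x ∈ Fd K R (q + 1)) (k : ℕ) :
    ∀ (η : Fm K R') (η₀ : Fm K R), η ∈ Fd K R' q → η₀ ∈ Fd K R q → dd K η = T x → (τ ζ) ^ k • η = T η₀ →
      ∃ (ξ : Fm K R') (η₁ : Fm K R),
        (∀ r, r + 1 = q → ξ ∈ Fd K R' r) ∧ (q = 0 → ξ = 0) ∧ η₁ ∈ Fd K R q ∧ τ ζ • (η - dd K ξ) = T η₁ := by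
  induction k using Nat.strong_induction_on with
  | _ k ih =>
    intro η η₀ hη hη₀ hd h0
    match k, ih, h0 with
    | 0, _, h0 =>
      rw [pow_zero, one_smul] at h0
      refine ⟨0, ζ • η₀, fun r _ => Submodule.zero_mem _, fun _ => rfl, Submodule.smul_mem _ _ hη₀, ?_⟩
      rw [map_zero, sub_zero, h0, hTs]
    | 1, _, h0 =>
      rw [pow_one] at h0
      refine ⟨0, η₀, fun r _ => Submodule.zero_mem _, fun _ => rfl, hη₀, ?_⟩
      rw [map_zero, sub_zero, h0]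
    | k + 2, ih, h0 =>
      have hk2 : ((k + 2 : ℕ) : K) ≠ 0 := Nat.cast_ne_zero.2 (by omega)
      have hk : ((k + 1 : ℕ) : K) ≠ 0 := Nat.cast_ne_zero.2 (by omega)
      have e1 : ((k + 2 : ℕ) : R') • τ ζ ^ (k + 1) • (df K (τ ζ) * η) + τ ζ ^ (k + 2) • T x = T (dd K η₀) := by
        rw [hTdd, ← h0, c1d_dds, c1d_dfpow, smul_mul_assoc, smul_mul_assoc, hd]
        rfl
      have e2 : ((k + 2 : ℕ) : R) • (df K ζ * η₀) + ζ ^ (k + 3) • x = ζ • dd K η₀ := by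
        apply hT
        rw [map_add, hTs, hTs, hTs, map_mul, hTdf, ← h0, mul_smul_comm, map_pow, map_natCast]
        exact c1d_mod1 _ _ _ _ _ _ e1
      have hm : algebraMap K R ((k + 2 : ℕ) : K)⁻¹ * ((k + 2 : ℕ) : R) = 1 := by
        rw [← map_natCast (algebraMap K R), ← map_mul, inv_mul_cancel₀ hk2, map_one]
      obtain ⟨b, y, hb, hb0, hy, e5⟩ := hdiv _ _ hη₀ (Submodule.smul_mem _ _ (Submodule.sub_mem _
        (dd_mem hη₀) (Submodule.smul_mem _ _ hx))) (c1d_mod2 e2 hm)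
      have e6 : τ ζ ^ (k + 1) • η = u • (df K (τ ζ) * T b) + T y := by
        refine c1d_mod3 hu h0 ?_
        rw [e5, map_add, map_mul, hTdf, hTs]
      have hc' : algebraMap K R' ((k + 1 : ℕ) : K)⁻¹ * ((k + 1 : ℕ) : R') = 1 := by
        rw [← map_natCast (algebraMap K R'), ← map_mul, inv_mul_cancel₀ hk, map_one]
      let c' := algebraMap K R' ((k + 1 : ℕ) : K)⁻¹
      let ξ₁ := -(c' • u ^ (k + 1) • T b)
      have e8 : dd K ξ₁ = u ^ (k + 2) • (df K (τ ζ) * T b) - c' • u ^ (k + 1) • T (dd K b) := by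
        change dd K (-(algebraMap K R' ((k + 1 : ℕ) : K)⁻¹ • u ^ (k + 1) • T b)) = _
        rw [map_neg, c1d_ddk]
        refine c1d_mod4 (p := df K u * T b) hc' ?_ ?_
        · rw [c1d_dfinv hu, neg_mul, smul_mul_assoc]
        · rw [c1d_dds, c1d_dfpow, smul_mul_assoc, smul_mul_assoc, hTdd]
          rfl
      have e11 : τ ζ ^ (k + 1) • (η - dd K ξ₁) = T (y + algebraMap K R ((k + 1 : ℕ) : K)⁻¹ • dd K b) := by
        rw [map_add, hTs, AlgHom.commutes]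
        exact c1d_mod5 hu e6 e8
      have hmb : ∀ r, r + 1 = q → ξ₁ ∈ Fd K R' r := fun r hr =>
        Submodule.neg_mem _ (Submodule.smul_mem _ _ (Submodule.smul_mem _ _ (hTm _ _ (hb r hr))))
      have hξ0 : q = 0 → ξ₁ = 0 := fun hq => by
        change -(c' • u ^ (k + 1) • T b) = 0
        rw [hb0 hq, map_zero, smul_zero, smul_zero, neg_zero]
      have hmd : dd K ξ₁ ∈ Fd K R' q := by
        rcases Nat.eq_zero_or_pos q with hq | hq
        · rw [hξ0 hq, map_zero]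
          exact Submodule.zero_mem _
        · obtain ⟨r, rfl⟩ := Nat.exists_eq_succ_of_ne_zero hq.ne'
          exact dd_mem (hmb r rfl)
      have hmdb : dd K b ∈ Fd K R q := by
        rcases Nat.eq_zero_or_pos q with hq | hq
        · rw [hb0 hq, map_zero]
          exact Submodule.zero_mem _
        · obtain ⟨r, rfl⟩ := Nat.exists_eq_succ_of_ne_zero hq.ne'
          exact dd_mem (hb r rfl)
      obtain ⟨ξ, η₁, h1, h2, h3, h4⟩ := ih (k + 1) (by omega) _ _ (Submodule.sub_mem _ hη hmd)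
        (Submodule.add_mem _ hy (Submodule.smul_mem _ _ hmdb)) (by rw [map_sub, dd_dd, sub_zero, hd]) e11
      refine ⟨ξ₁ + ξ, η₁, fun r hr => Submodule.add_mem _ (hmb r hr) (h1 r hr),
        fun hq => ?_, h3, ?_⟩
      · rw [h2 hq, hξ0 hq, add_zero]
      · rw [map_add, ← sub_sub, h4]

variable {M : Type} [AddCommGroup M] [Fintype M] [DecidableEq M]

/-- pole order at most one and weight `μ ≠ 0` -/
private theorem c1d_two {T : Fm K R →+* Fm K R'} {τ : R →ₐ[K] R'} {ζ : R} {u : R'}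
    (hTs : ∀ r e, T (r • e) = τ r • T e) (hTdf : ∀ r, T (df K r) = df K (τ r)) (hTdd : ∀ e, T (dd K e) = dd K (T e))
    (hT : Function.Injective T) (hu : τ ζ * u = 1) {q : ℕ}
    (hdiv : ∀ η x : Fm K R, η ∈ Fd K R q → x ∈ Fd K R (q + 1) → df K ζ * η = ζ • x →
      ∃ b y : Fm K R, (∀ r, r + 1 = q → b ∈ Fd K R r) ∧ (q = 0 → b = 0) ∧ y ∈ Fd K R q ∧ η = df K ζ * b + ζ • y)
    {G : Grd K R M} {G' : Grd K R' M} {μ : M} (hG : ∀ e, wp G' μ (T e) = T (wp G μ e))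
    (hG' : ∀ e, wp G' μ (u • (df K (τ ζ) * e)) = u • (df K (τ ζ) * wp G' μ e))
    (hwz : ∀ r, r + 1 = q → ∀ b ∈ Fd K R r, wp G μ b = b → ∃ x' ∈ Fd K R r, ∃ y', b = ζ • x' + df K ζ * y')
    {x : Fm K R} (hx : x ∈ Fd K R (q + 1)) {η : Fm K R'} {η₁ : Fm K R} (hη₁ : η₁ ∈ Fd K R q) (hd : dd K η = T x)
    (h1 : τ ζ • η = T η₁) (hημ : wp G' μ η = η) :
    ∃ η₀ : Fm K R, η₀ ∈ Fd K R q ∧ wp G μ η₀ = η₀ ∧ η = T η₀ := by
  have hu' : u * τ ζ = 1 := by rw [mul_comm, hu]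
  have e1 : df K (τ ζ) * η + τ ζ • T x = T (dd K η₁) := by rw [hTdd, ← h1, c1d_dds, hd]
  have e2 : df K ζ * η₁ = ζ • (dd K η₁ - ζ • x) := by
    apply hT
    rw [map_mul, hTdf, ← h1, hTs, map_sub, ← e1, hTs, mul_smul_comm, add_sub_cancel_right]
  obtain ⟨b, y, hb, hb0, hy, e5⟩ := hdiv _ _ hη₁ (Submodule.sub_mem _ (dd_mem hη₁) (Submodule.smul_mem _ _ hx)) e2
  have e6 : η = u • (df K (τ ζ) * T b) + T y := by
    have e7 : η = u • τ ζ • η := by rw [smul_smul, hu', one_smul]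
    rw [e7, h1, e5, map_add, map_mul, hTdf, hTs, smul_add, smul_smul u, hu', one_smul]
  have e8 : η = u • (df K (τ ζ) * T (wp G μ b)) + T (wp G μ y) := by
    have e9 : wp G' μ η = wp G' μ (u • (df K (τ ζ) * T b) + T y) := congrArg _ e6
    rw [hημ, wp_add, hG', hG, hG] at e9
    exact e9
  rcases Nat.eq_zero_or_pos q with hq | hq
  · refine ⟨wp G μ y, wp_mem _ hy μ, wp_self _ _ _, ?_⟩
    rw [hb0 hq, wp_zero, map_zero, mul_zero, smul_zero, zero_add] at e8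
    exact e8
  · obtain ⟨r, rfl⟩ := Nat.exists_eq_succ_of_ne_zero hq.ne'
    obtain ⟨x', hx', y', e9⟩ := hwz r rfl _ (wp_mem G (hb r rfl) μ) (wp_self _ _ _)
    have e10 : η = T (df K ζ * x' + wp G μ y) := by
      have e11 : u • (df K (τ ζ) * T (wp G μ b)) = T (df K ζ * x') := by
        rw [e9, map_add, hTs, map_mul, hTdf, mul_add, ← mul_assoc (df K (τ ζ)), df_sq, zero_mul,
          add_zero, mul_smul_comm, smul_smul, hu', one_smul, map_mul, hTdf]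
      rw [map_add, ← e11]
      exact e8
    have hm : df K ζ * x' + wp G μ y ∈ Fd K R (r + 1) := by
      refine Submodule.add_mem _ ?_ (wp_mem _ hy μ)
      have h4 : 1 + r = r + 1 := add_comm 1 r
      rw [← h4]
      exact fd_mul (df_mem _) hx'
    refine ⟨wp G μ (df K ζ * x' + wp G μ y), wp_mem _ hm μ, wp_self _ _ _, ?_⟩
    rw [← hG, ← e10, hημ]

/-- both steps -/
private theorem c1d_abs {T : Fm K R →+* Fm K R'} {τ : R →ₐ[K] R'} {ζ : R} {u z' : R'}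
    (hTf : ∀ r, T (fz K r) = fz K (τ r)) (hTdf : ∀ r, T (df K r) = df K (τ r)) (hTdd : ∀ e, T (dd K e) = dd K (T e))
    (hTm : ∀ q, ∀ e ∈ Fd K R q, T e ∈ Fd K R' q) (hT : Function.Injective T) (htr : τ ζ = z') (hu : u * z' = 1)
    {q : ℕ} (hdiv : ∀ (η x : Fm K R), η ∈ Fd K R q → x ∈ Fd K R (q + 1) → df K ζ * η = fz K ζ * x →
      ∃ b y : Fm K R, (∀ r, r + 1 = q → b ∈ Fd K R r) ∧ (q = 0 → b = 0) ∧ y ∈ Fd K R q ∧
        η = df K ζ * b + fz K ζ * y)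
    {G : Grd K R M} {G' : Grd K R' M} {μ ν ν' : M} (hG : ∀ μ e, wp G' μ (T e) = T (wp G μ e))
    (hGz : ∀ μ e, wp G' μ (fz K z' * e) = fz K z' * wp G' (μ - ν) e)
    (hGd : ∀ μ e, wp G' μ (df K z' * e) = df K z' * wp G' (μ - ν) e)
    (hGu : ∀ μ e, wp G' μ (fz K u * e) = fz K u * wp G' (μ - ν') e) (hνν : ∀ μ, μ - ν' - ν = μ)
    (hwz : ∀ r, r + 1 = q → ∀ b ∈ Fd K R r, wp G μ b = b → ∃ x' y' : Fm K R, x' ∈ Fd K R r ∧
      b = fz K ζ * x' + df K ζ * y')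
    {k : ℕ} {x : Fm K R} (hx : x ∈ Fd K R (q + 1)) {η : Fm K R'} {η₀ : Fm K R} (hη : η ∈ Fd K R' q)
    (hη₀ : η₀ ∈ Fd K R q) (hd : dd K η = T x) (h0 : fz K (z' ^ k) * η = T η₀) (hημ : wp G' μ η = η) :
    ∃ (ξ : Fm K R') (η₀ : Fm K R), (∀ r, r + 1 = q → ξ ∈ Fd K R' r) ∧ (q = 0 → ξ = 0) ∧ wp G' μ ξ = ξ ∧
      η₀ ∈ Fd K R q ∧ wp G μ η₀ = η₀ ∧ η - dd K ξ = T η₀ := by
  subst htr
  have hTs : ∀ (r : R) (e : Fm K R), T (r • e) = τ r • T e := by
    intro r e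
    rw [fz_smul, map_mul, fz_smul, hTf]
  have hu' : τ ζ * u = 1 := by rw [mul_comm, hu]
  have hdiv' : ∀ η x : Fm K R, η ∈ Fd K R q → x ∈ Fd K R (q + 1) → df K ζ * η = ζ • x →
      ∃ b y : Fm K R, (∀ r, r + 1 = q → b ∈ Fd K R r) ∧ (q = 0 → b = 0) ∧ y ∈ Fd K R q ∧ η = df K ζ * b + ζ • y := by
    intro η x h1 h2 h3
    rw [fz_smul] at h3
    obtain ⟨b, y, h4, h5, h6, h7⟩ := hdiv η x h1 h2 h3
    rw [← fz_smul] at h7
    exact ⟨b, y, h4, h5, h6, h7⟩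
  rw [← fz_smul] at h0
  obtain ⟨ξ, η₁, h1, h2, h3, h4⟩ := c1d_one (T := T) (τ := τ) hTs hTdf hTdd hTm hT hu' hdiv' hx k η η₀ hη hη₀ hd h0
  have h5 : wp G' μ (η - dd K ξ) = η - dd K (wp G' μ ξ) := by
    rw [wp_sub, hημ, wp_dd]
  have h6 : τ ζ • (η - dd K (wp G' μ ξ)) = T (wp G (μ + ν) η₁) := by
    rw [← hG, ← h4, fz_smul, fz_smul, hGz, add_sub_cancel_right, h5]
  have h61 : ∀ e, wp G' μ (u • (df K (τ ζ) * e)) = u • (df K (τ ζ) * wp G' μ e) := by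
    intro e
    rw [fz_smul, fz_smul, hGu, hGd, hνν]
  obtain ⟨η₂, h7, h8, h9⟩ := c1d_two (T := T) (τ := τ) hTs hTdf hTdd hT hu' hdiv' (G := G) (G' := G') (μ := μ)
    (hG μ) h61 (fun r hr b hb hbμ => by
      obtain ⟨x', y', hx', e9⟩ := hwz r hr b hb hbμ
      rw [← fz_smul] at e9
      exact ⟨x', hx', y', e9⟩) hx (wp_mem _ h3 _)
    (by rw [map_sub, dd_dd, sub_zero, hd]) h6 (by rw [← h5, wp_self])
  refine ⟨wp G' μ ξ, η₂, fun r hr => wp_mem _ (h1 r hr) μ, fun hq => ?_, wp_self _ _ _, h7, h8, h9⟩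
  rw [h2 hq, wp_zero]

end abs

section pole

variable {K : Type u} [Field K] [CharZero K] {n : ℕ} {I : Ideal (MvPolynomial (Fin n) K)}
  {z : Fin n} {C : Finset (Fin n)}

variable {M : Type} [AddCommGroup M] [Fintype M] [DecidableEq M] {wt : Fin n → M}

/-- Pole reduction. -/
theorem pole (hI : IsHomog I) (hs : IsSmoothProj I) (hw : IsWHomog wt I)
    (hwt : ∀ l l' : Fin n, l ≠ z → l' ≠ z → wt l = wt l') (hz : z ∉ C) {j : Fin n} (hj : j ∈ C)
    (hnz : cq I C z hj ∈ nonZeroDivisors (chart I C))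
    (hD : ∃ (D : Derivation K (chart I C) (chart I C)) (g : chart I C), D (cq I C z hj) + g * cq I C z hj = 1)
    {μ : M} (hμ : μ ≠ 0) {q : ℕ} {η : Fm K (chart I (insert z C))} (hη : η ∈ Fd K (chart I (insert z C)) q)
    (hημ : wp (grC hI hw (insert z C)) μ η = η)
    (hd : ∃ x ∈ Fd K (chart I C) (q + 1), dd K η = rz I z C x) :
    ∃ (ξ : Fm K (chart I (insert z C))) (η₀ : Fm K (chart I C)),
      (∀ r, r + 1 = q → ξ ∈ Fd K (chart I (insert z C)) r) ∧ (q = 0 → ξ = 0) ∧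
      wp (grC hI hw (insert z C)) μ ξ = ξ ∧ η₀ ∈ Fd K (chart I C) q ∧ wp (grC hI hw C) μ η₀ = η₀ ∧
      η - dd K ξ = rz I z C η₀ := by
  obtain ⟨x, hx, hd⟩ := hd
  obtain ⟨D, g, hDg⟩ := hD
  have hh := rs_den (z := z) hI hj hη
  obtain ⟨k, η₀, hη₀, h0⟩ := hh
  have hu : cq I (insert z C) j (Finset.mem_insert_self z C) * cq I (insert z C) z (Finset.mem_insert_of_mem hj) = 1 :=
    (cq_mul I (insert z C) (l := j) (j := z) (m := j) (Finset.mem_insert_self z C) (Finset.mem_insert_of_mem hj)).trans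
      (cq_self I (insert z C) (Finset.mem_insert_of_mem hj))
  exact @c1d_abs K _ _ (chart I C) (chart I (insert z C)) _ _ _ _ M _ _ _ (rz I z C) (tr I (Finset.subset_insert z C))
    (cq I C z hj) (cq I (insert z C) j (Finset.mem_insert_self z C))
    (cq I (insert z C) z (Finset.mem_insert_of_mem hj)) (CovD.rs_fz (X := prC I) (Finset.subset_insert z C))
    (CovD.rs_df (X := prC I) (Finset.subset_insert z C)) (CovD.rs_dd (X := prC I) (Finset.subset_insert z C))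
    (fun q e he => CovD.rs_mem (X := prC I) (Finset.subset_insert z C) he) (rs_inj (z := z) hI hs hj hnz)
    (tr_cq I (Finset.subset_insert z C) z hj) hu q (fun η x h1 h2 h3 => div_zeta hj D g hDg h1 h2 h3)
    (grC hI hw C) (grC hI hw (insert z C)) μ (wt z - wt j) (wt j - wt z)
    (fun μ e => GrX.wp_rs (grP hI hw) (Finset.subset_insert z C) μ e)
    (fun μ e => wp_gnr_mul hI hw false z ⟨j, Finset.mem_insert_of_mem hj⟩ e μ)
    (fun μ e => wp_gnr_mul hI hw true z ⟨j, Finset.mem_insert_of_mem hj⟩ e μ)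
    (fun μ e => wp_gnr_mul hI hw false j ⟨z, Finset.mem_insert_self z C⟩ e μ) (fun μ => by abel)
    (fun r _ b hb hbμ => by
      have hh := wt_zeta hI hw hwt hz hj hμ hb hbμ
      obtain ⟨x', y', hx', _, _, e9⟩ := hh
      exact ⟨x', y', hx', e9⟩) k x hx η η₀ hη hη₀ hd h0 hημ

end pole

end MPadcDC
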