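import Pool.Agent.Lib.MP_adc574_ag_DC.CBase

/-!
# JOB C2A (DC): acyclicity

Total complex: `Dt c J = dd (c J) + ∑_{j ∈ J} sg j J • rs (inv (c (J.erase j)))` (`Dt_apply`, `dc_apply`, `del_apply`, `ev_ic`, `ev_of`).
* `step_z`: if `m = 0`: for `D ∋ z` with `D.card = r + 2 ≥ 2`: `c D = 0` (`hc.2 D`, `m + 1 < D.card`), so `b = 0` works. Let `m = l + 1`. For `C` with `C.card = r + 1`, `z ∉ C`, put `D = insert z C` (`D.card = r + 2`). `Dt c D = 0`: the terms with `j ≠ z` contain `c (D.erase j)`, `z ∈ D.erase j`, `card = r + 1`, which is `0` (`hr`), the term `j = z` is `sg z D • rs (inv (c C))`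
  (`D.erase z = C`). So `dd (c D) = - sg z D • rs (inv (c C)) = rs (x)` with `x ∈ Fd (q + 1)` where `q + D.card = m + 1` (if `m + 1 < D.card` then `c D = 0`: take `ξ = 0`, `η₀ = 0`). `h.red C` with `η = c D` (weight: `hμ` at `D`: `W.P_apply`) gives `ξ_C`, `η₀_C`: `c D - dd ξ = rs η₀`. Define `b D := ξ_C` for `D = insert z C`, `C.card = r + 1`, `z ∉ C` (i.e. `z ∈ D`, `D.card = r + 2`, `C = D.erase z`),
  `b C := sg z D • inv η₀_C` for `z ∉ C`, `C.card = r + 1` (`D = insert z C`; sign so that `sg z D • rs (inv (b C)) = rs η₀`: `sg_sq`, `inv_inv`), `b = 0` elsewhere (`r + 1 ≥ 1`, so `b ∅ = 0`; `b {z} = 0` since `card {z} = 1 ≠ r + 2` and `z ∈ {z}`). Choose with `choose` / `Classical.choice` (`if h : .. then .. else 0`). `b ∈ Tt l`: degrees: `ξ ∈ Fd (q - 1)`, `(q - 1) + (r + 2) = l + 1`;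
  `η₀ ∈ Fd q`, `q + (r + 1) = l + 1`. Weight `μ`: `W.P_apply`. For `D ∋ z`, `D.card = r + 2`: `Dt b D = dd ξ + sg z D • rs (inv (b C)) + (terms b (D.erase j), j ≠ z: z ∈ D.erase j, card r + 1: zero) = dd ξ + rs η₀ = c D`. For `D ∋ z`, `D.card ≤ r + 1`: all terms are zero (`D.erase z` has `card ≤ r`) and `c D = 0`.
* `acyc_z`: iterate: by induction on `r`: there is `b_r` as in the statement (degree, weight, `b_r {z} = 0`) with `(c - Dt b_r) D = 0` for all `D ∋ z`, `D.card ≤ r + 1` (`r = 0`: `b = 0`, `D = {z}`; step: `step_z` for `c - Dt b_r`, `Dt (Dt b) = 0`: `Dt_Dt`, `Dt_mem`, `W.P_Dt`). Take `r = n`: `c' = c - Dt b` vanishes at all `D ∋ z`, `Dt c' = 0`: at `D = insert z C`, `C` nonempty, `z ∉ C`: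
  `sg z D • rs (inv (c' C)) = 0`, so `c' C = 0` by `h.inj` (`inv_inv`); `c' ∅ = 0` (`Tt`). So `c = Dt b`. (For `m = 0`: `b = 0`, so `c = Dt 0 = 0`.)
-/

set_option autoImplicit false
set_option linter.unusedSectionVars false

namespace MPadcDC

open MvPolynomial TensorProduct MPadcGP MPadcGP2

universe u

section restr

variable {A : Type u} [CommRing A] {n : ℕ} {X : CovD.{u, u} A n} {M : Type} [AddCommGroup M] [Fintype M]
  [DecidableEq M] {W : GrX X M} {z : Fin n} {μ : M}

theorem C2A_cast (c : X.Ch) {J K : Finset (Fin n)} (h : J ⊆ K) (e : J = K) : X.rs h (c J) = c K := by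
  subst e
  exact CovD.rs_id _ _ _

theorem C2A_term (c : X.Ch) (K J : Finset (Fin n)) (h : c K = 0) : X.ev (X.ic c) K J = 0 := by
  rw [CovD.ev_ic, CovD.ev_eq_zero h, map_zero]

/-- The total differential at a set containing `z`, if the components at the smaller sets containing `z` vanish. -/
theorem C2A_Dt (c : X.Ch) {D : Finset (Fin n)} (hz : z ∈ D) (h0 : ∀ j ∈ D, j ≠ z → c (D.erase j) = 0) :
    X.Dt c D = dd A (c D) + sg z D • inv A (X.rs (Finset.erase_subset z D) (c (D.erase z))) := by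
  rw [CovD.Dt_apply, Pi.add_apply, CovD.dc_apply, CovD.del_apply]
  congr 1
  rw [Finset.sum_eq_single z]
  · rw [CovD.ev_ic, CovD.ev_of (Finset.erase_subset z D)]
  · intro j hj hjz
    rw [C2A_term c _ _ (h0 j hj hjz), smul_zero]
  · intro h
    exact absurd hz h

/-- The choice of the components of the correction. -/
theorem C2A_ex (h : Pole W z μ) {m : ℕ} {c : X.Ch} (hc : c ∈ X.Tt m) (hμ : W.P μ c = c) (hd : X.Dt c = 0)
    {r : ℕ} (hr : ∀ C : Finset (Fin n), z ∈ C → C.card ≤ r + 1 → c C = 0) (C : Finset (Fin n)) (hzC : z ∉ C)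
    (hC : C.card = r + 1) :
    ∃ (ξ : X.E (insert z C)) (η₀ : X.E C), (∀ p, p + (r + 2) = m → ξ ∈ Fd A (X.R (insert z C)) p) ∧
      (m < r + 2 → ξ = 0) ∧ wp (W.G (insert z C)) μ ξ = ξ ∧ (∀ q, q + (r + 1) = m → η₀ ∈ Fd A (X.R C) q) ∧
      (m < r + 1 → η₀ = 0) ∧ wp (W.G C) μ η₀ = η₀ ∧
      c (insert z C) - dd A ξ = X.rs (Finset.subset_insert z C) η₀ := by
  have hcard : (insert z C).card = r + 2 := by rw [Finset.card_insert_of_notMem hzC, hC]
  rcases Nat.lt_or_ge (m + 1) (r + 2) with hm | hm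
  · refine ⟨0, 0, fun p _ => Submodule.zero_mem _, fun _ => rfl, wp_zero _ _, fun q _ => Submodule.zero_mem _,
      fun _ => rfl, wp_zero _ _, ?_⟩
    rw [map_zero, map_zero, sub_zero]
    exact (hc.2 _).2 (by omega)
  · obtain ⟨q, hq⟩ : ∃ q, q + (r + 2) = m + 1 := ⟨m + 1 - (r + 2), by omega⟩
    have hne : C.Nonempty := Finset.card_pos.1 (by omega)
    have h1 : X.Dt c (insert z C) = 0 := by
      rw [hd]
      rfl
    rw [C2A_Dt c (Finset.mem_insert_self z C) (fun j hj hjz => hr _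
      (Finset.mem_erase.2 ⟨Ne.symm hjz, Finset.mem_insert_self z C⟩) (by
        have := Finset.card_erase_add_one hj
        omega))] at h1
    have he : (insert z C).erase z = C := Finset.erase_insert hzC
    have h2 : X.rs (Finset.erase_subset z (insert z C)) (c ((insert z C).erase z)) =
        X.rs (Finset.subset_insert z C) (c C) := by
      have h3 : ∀ {K : Finset (Fin n)} (hK : K ⊆ insert z C) (e : K = C),
          X.rs hK (c K) = X.rs (Finset.subset_insert z C) (c C) := by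
        intro K hK e
        subst e
        rfl
      exact h3 _ he
    rw [h2, ← CovD.rs_inv] at h1
    have hx : ∃ x ∈ Fd A (X.R C) (q + 1), dd A (c (insert z C)) = X.rs (Finset.subset_insert z C) x := by
      refine ⟨-(sg z (insert z C) • inv A (c C)), ?_, ?_⟩
      · exact Submodule.neg_mem _ (zsmul_mem (inv_mem' ((hc.2 C).1 (q + 1) (by omega))) _)
      · rw [map_neg, map_zsmul]
        exact eq_neg_of_add_eq_zero_left h1
    obtain ⟨ξ, η₀, e1, e2, e3, e4, e5, e6⟩ := h.red C hne hzC q (c (insert z C)) ((hc.2 _).1 q (by omega))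
      (congrFun hμ (insert z C)) hx
    refine ⟨ξ, η₀, fun p hp => e1 p (by omega), fun hm2 => e2 (by omega), e3, fun q' hq' => ?_, fun hm2 => ?_, e5, e6⟩
    · have : q' = q := by omega
      subst this
      exact e4
    · omega

/-- One step: the components at the sets `∋ z` with `r + 2` elements can be removed. -/
theorem step_z (h : Pole W z μ) {m : ℕ} {c : X.Ch} (hc : c ∈ X.Tt m) (hμ : W.P μ c = c) (hd : X.Dt c = 0)
    {r : ℕ} (hr : ∀ C : Finset (Fin n), z ∈ C → C.card ≤ r + 1 → c C = 0) :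
    ∃ b : X.Ch, (∀ l, l + 1 = m → b ∈ X.Tt l) ∧ (m = 0 → b = 0) ∧ W.P μ b = b ∧ b {z} = 0 ∧
      ∀ C : Finset (Fin n), z ∈ C → C.card ≤ r + 2 → (c - X.Dt b) C = 0 := by
  rcases Nat.eq_zero_or_pos m with hm0 | hm0
  · subst hm0
    refine ⟨0, fun l hl => by omega, fun _ => rfl, map_zero _, rfl, fun C hz hC => ?_⟩
    rw [map_zero, sub_zero]
    rcases Nat.lt_or_ge (r + 1) C.card with h1 | h1
    · exact (hc.2 C).2 (by omega)
    · exact hr C hz h1
  choose ξ η₀ e1 e2 e3 e4 e5 e6 e7 using C2A_ex h hc hμ hd hr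
  have hins : ∀ {J : Finset (Fin n)}, z ∈ J → insert z (J.erase z) ⊆ J := fun hz => by
    rw [Finset.insert_erase hz]
  have hcd : ∀ {J : Finset (Fin n)}, z ∈ J → J.card = r + 2 → (J.erase z).card = r + 1 := fun hz hJ => by
    have := Finset.card_erase_add_one hz
    omega
  set b : X.Ch := fun J => if hz : z ∈ J then
      (if hJ : J.card = r + 2 then X.rs (hins hz) (ξ (J.erase z) (Finset.notMem_erase z J) (hcd hz hJ)) else 0) else
      (if hJ : J.card = r + 1 then sg z (insert z J) • inv A (η₀ J hz hJ) else 0) with hb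
  have b1 : ∀ {J : Finset (Fin n)} (hz : z ∈ J) (hJ : J.card = r + 2),
      b J = X.rs (hins hz) (ξ (J.erase z) (Finset.notMem_erase z J) (hcd hz hJ)) := by
    intro J hz hJ
    rw [hb]
    simp only [dif_pos hz, dif_pos hJ]
  have b2 : ∀ {J : Finset (Fin n)}, z ∈ J → J.card ≠ r + 2 → b J = 0 := by
    intro J hz hJ
    rw [hb]
    simp only [dif_pos hz, dif_neg hJ]
  have b3 : ∀ {J : Finset (Fin n)} (hz : z ∉ J) (hJ : J.card = r + 1), b J = sg z (insert z J) • inv A (η₀ J hz hJ) := by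
    intro J hz hJ
    rw [hb]
    simp only [dif_neg hz, dif_pos hJ]
  have b4 : ∀ {J : Finset (Fin n)}, z ∉ J → J.card ≠ r + 1 → b J = 0 := by
    intro J hz hJ
    rw [hb]
    simp only [dif_neg hz, dif_neg hJ]
  clear_value b
  refine ⟨b, ?_, fun h1 => absurd h1 hm0.ne', ?_, b2 (Finset.mem_singleton_self z) (by rw [Finset.card_singleton]; omega), ?_⟩
  · intro l hl
    refine ⟨b4 (Finset.notMem_empty z) (by rw [Finset.card_empty]; omega), fun J => ⟨fun q hq => ?_, fun hJ => ?_⟩⟩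
    · by_cases hz : z ∈ J
      · by_cases hJ : J.card = r + 2
        · rw [b1 hz hJ]
          exact CovD.rs_mem _ (e1 _ _ _ q (by omega))
        · rw [b2 hz hJ]
          exact Submodule.zero_mem _
      · by_cases hJ : J.card = r + 1
        · rw [b3 hz hJ]
          exact zsmul_mem (inv_mem' (e4 _ _ _ q (by omega))) _
        · rw [b4 hz hJ]
          exact Submodule.zero_mem _
    · by_cases hz : z ∈ J
      · by_cases hJ' : J.card = r + 2
        · rw [b1 hz hJ', e2 _ _ _ (by omega), map_zero]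
        · exact b2 hz hJ'
      · by_cases hJ' : J.card = r + 1
        · rw [b3 hz hJ', e5 _ _ _ (by omega), map_zero, smul_zero]
        · exact b4 hz hJ'
  · funext J
    rw [GrX.P_apply]
    by_cases hz : z ∈ J
    · by_cases hJ : J.card = r + 2
      · rw [b1 hz hJ, GrX.wp_rs, e3]
      · rw [b2 hz hJ, wp_zero]
    · by_cases hJ : J.card = r + 1
      · rw [b3 hz hJ, wp_zsmul, wp_inv, e6]
      · rw [b4 hz hJ, wp_zero]
  · intro D hz hD
    have h1 : ∀ j ∈ D, j ≠ z → b (D.erase j) = 0 := by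
      intro j hj hjz
      have := Finset.card_erase_add_one hj
      exact b2 (Finset.mem_erase.2 ⟨Ne.symm hjz, hz⟩) (by omega)
    rw [Pi.sub_apply, C2A_Dt b hz h1]
    by_cases hD' : D.card = r + 2
    · have hnz : z ∉ D.erase z := Finset.notMem_erase z D
      have hs : sg z (insert z (D.erase z)) = sg z D := by rw [Finset.insert_erase hz]
      rw [b1 hz hD', b3 hnz (hcd hz hD'), map_zsmul, map_zsmul, smul_smul, ← CovD.rs_dd, CovD.rs_inv, MPadcGP.inv_inv,
        hs, sg_sq, one_smul]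
      have h2 := congrArg (X.rs (hins hz)) (e7 (D.erase z) hnz (hcd hz hD'))
      rw [map_sub, CovD.rs_rs, C2A_cast c (hins hz) (Finset.insert_erase hz)] at h2
      rw [← h2]
      abel
    · rw [b2 hz hD', map_zero, zero_add, b4 (Finset.notMem_erase z D) (by
        have := Finset.card_erase_add_one hz
        omega), map_zero, map_zero, smul_zero, sub_zero]
      exact hr D hz (by omega)

theorem acyc_z (h : Pole W z μ) {m : ℕ} {c : X.Ch} (hc : c ∈ X.Tt m) (hμ : W.P μ c = c) (hd : X.Dt c = 0)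
    (hz : c {z} = 0) :
    ∃ b : X.Ch, (∀ l, l + 1 = m → b ∈ X.Tt l) ∧ (m = 0 → b = 0) ∧ W.P μ b = b ∧ b {z} = 0 ∧ X.Dt b = c := by
  have hT : ∀ b : X.Ch, (∀ l, l + 1 = m → b ∈ X.Tt l) → (m = 0 → b = 0) → c - X.Dt b ∈ X.Tt m := by
    intro b h1 h2
    refine Submodule.sub_mem _ hc ?_
    rcases Nat.eq_zero_or_pos m with h3 | h3
    · rw [h2 h3, map_zero]
      exact Submodule.zero_mem _
    · obtain ⟨l, rfl⟩ : ∃ l, m = l + 1 := ⟨m - 1, by omega⟩
      exact CovD.Dt_mem (h1 l rfl)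
  have hD : ∀ b : X.Ch, X.Dt (c - X.Dt b) = 0 := by
    intro b
    rw [map_sub, hd, CovD.Dt_Dt, sub_zero]
  have hP : ∀ b : X.Ch, W.P μ b = b → W.P μ (c - X.Dt b) = c - X.Dt b := by
    intro b hb
    rw [map_sub, hμ, GrX.P_Dt, hb]
  have key : ∀ r : ℕ, ∃ b : X.Ch, (∀ l, l + 1 = m → b ∈ X.Tt l) ∧ (m = 0 → b = 0) ∧ W.P μ b = b ∧ b {z} = 0 ∧
      ∀ C : Finset (Fin n), z ∈ C → C.card ≤ r + 1 → (c - X.Dt b) C = 0 := by
    intro r
    induction r with
    | zero =>
      refine ⟨0, fun l _ => Submodule.zero_mem _, fun _ => rfl, map_zero _, rfl, fun C hzC hC => ?_⟩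
      have h1 : C = {z} := by
        refine (Finset.eq_of_subset_of_card_le (Finset.singleton_subset_iff.2 hzC) ?_).symm
        rw [Finset.card_singleton]
        omega
      rw [map_zero, sub_zero, h1, hz]
    | succ r ih =>
      obtain ⟨b, h1, h2, h3, h4, h5⟩ := ih
      obtain ⟨b', g1, g2, g3, g4, g5⟩ := step_z h (hT b h1 h2) (hP b h3) (hD b) h5
      refine ⟨b + b', fun l hl => Submodule.add_mem _ (h1 l hl) (g1 l hl), fun hm => ?_, ?_, ?_, fun C hzC hC => ?_⟩
      · rw [h2 hm, g2 hm, add_zero]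
      · rw [map_add, h3, g3]
      · rw [Pi.add_apply, h4, g4, add_zero]
      · rw [map_add, ← sub_sub]
        exact g5 C hzC hC
  obtain ⟨b, h1, h2, h3, h4, h5⟩ := key n
  refine ⟨b, h1, h2, h3, h4, ?_⟩
  have h6 : ∀ C : Finset (Fin n), z ∈ C → (c - X.Dt b) C = 0 := fun C hzC => h5 C hzC (by
    have := Finset.card_le_univ C
    rw [Fintype.card_fin] at this
    omega)
  have h7 : c - X.Dt b = 0 := by
    funext C
    rw [Pi.zero_apply]
    by_cases hzC : z ∈ C
    · exact h6 C hzC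
    rcases C.eq_empty_or_nonempty with hC | hC
    · subst hC
      exact (hT b h1 h2).1
    · apply h.inj C hC hzC
      rw [map_zero]
      have h8 : X.Dt (c - X.Dt b) (insert z C) = 0 := by
        rw [hD b]
        rfl
      rw [C2A_Dt _ (Finset.mem_insert_self z C) (fun j hj hjz => h6 _
        (Finset.mem_erase.2 ⟨Ne.symm hjz, Finset.mem_insert_self z C⟩)), h6 _ (Finset.mem_insert_self z C), map_zero,
        zero_add] at h8
      have h9 : ∀ {K : Finset (Fin n)} (hK : K ⊆ insert z C) (e : K = C),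
          X.rs hK ((c - X.Dt b) K) = X.rs (Finset.subset_insert z C) ((c - X.Dt b) C) := by
        intro K hK e
        subst e
        rfl
      rw [h9 _ (Finset.erase_insert hzC)] at h8
      have h10 := congrArg (fun x => sg z (insert z C) • x) h8
      simp only [smul_smul, sg_sq, one_smul, smul_zero] at h10
      have h11 := congrArg (inv A) h10
      rwa [MPadcGP.inv_inv, map_zero] at h11
  exact (sub_eq_zero.1 h7).symm

end restr

end MPadcDC
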