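import Pool.Agent.Lib.MP_adc574_ag_DC.C2A
import Pool.Agent.Lib.MP_adc574_ag_GP.Parts2

/-!
# JOB C2C (DC): the isomorphism with the closed forms on U_z

(1) Existence: for `η ∈ ZB W z μ m` let `c₀ := Pi.single {z} η` (the cochain with the component `η` at `{z}`, `0` elsewhere); `c₀ ∈ Tt m`, weight `μ`. `e := Dt c₀ ∈ Tt (m + 1)`, weight `μ`, `Dt e = 0`, `e {z} = dd η + (term with c₀ ∅ = 0) = 0`. `acyc_z` for `e` (degree `m + 1`): `b ∈ Tt m`, weight `μ`, `b {z} = 0`, `Dt b = e`. `c := c₀ - b`: cocycle (`Zc m = Tt m ⊓ ker Dt`), weight `μ`, `c {z} = η`. This is the third claim.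
(2) Uniqueness: if `c`, `c'` are two such cocycles, `c - c'` has `{z}`-component `0`, `acyc_z` gives `b` with `Dt b = c - c'`, `b ∈ Tt l` (`m = l + 1`) or `m = 0`, `b = 0`: so `c - c' ∈ Bc m` and `cl c = cl c'` (`cl` is the quotient map `mkQ`, `Submodule.Quotient.mk_eq_zero`, `Submodule.mem_submoduleOf`).
(3) Define `s η := ⟨cl c, _⟩ ∈ W.HW m μ` (`W.mem_HW`) with a chosen `c`; additive and linear by uniqueness. Second claim = uniqueness. Surjective: `x ∈ HW m μ` is `cl c` with `c ∈ Zc m`, weight `μ` (`mem_HW`); `c {z} ∈ ZB`: `hc.1.2 {z}` with `card = 1` gives `Fd m`, `Dt c {z} = dd (c {z}) + 0 = 0`, weight from `W.P_apply`.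
(4) Fourth claim: `m = r + 1`, `η = dd ξ`. `c` cocycle with `c {z} = η`; `b₀ := Pi.single {z} ξ ∈ Tt r`; `c - Dt b₀` is a cocycle of weight `μ` with `{z}`-component `0`, so a coboundary, and so is `c`.
-/

set_option autoImplicit false
set_option linter.unusedSectionVars false

namespace MPadcDC

open MvPolynomial TensorProduct MPadcGP MPadcGP2

universe u

section restr

variable {A : Type u} [CommRing A] {n : ℕ} {X : CovD.{u, u} A n} {M : Type} [AddCommGroup M] [Fintype M]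
  [DecidableEq M] {W : GrX X M} {z : Fin n} {μ : M}

private theorem C2C_Dt_z {c : X.Ch} (h0 : c ∅ = 0) : X.Dt c {z} = dd A (c {z}) := by
  rw [CovD.Dt_apply, Pi.add_apply, CovD.dc_apply, CovD.del_apply, Finset.sum_singleton, CovD.ev_ic]
  have h1 : (({z} : Finset (Fin n)).erase z) = ∅ := by
    ext x
    simp
  have h2 : c (({z} : Finset (Fin n)).erase z) = 0 := by
    rw [h1]
    exact h0
  rw [CovD.ev_eq_zero h2, map_zero, smul_zero, add_zero]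

private theorem C2C_single_Tt {m : ℕ} {η : X.E {z}} (hη : η ∈ Fd A (X.R {z}) m) :
    (Pi.single ({z} : Finset (Fin n)) η : X.Ch) ∈ X.Tt m := by
  refine ⟨Pi.single_eq_of_ne (Finset.singleton_ne_empty z).symm η, fun J => ?_⟩
  by_cases hJ : J = {z}
  · subst hJ
    rw [Finset.card_singleton]
    refine ⟨fun q hq => ?_, fun hq => absurd hq (by omega)⟩
    have h1 : q = m := by omega
    subst h1
    rw [Pi.single_eq_same]
    exact hη
  · rw [Pi.single_eq_of_ne hJ]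
    exact ⟨fun q _ => Submodule.zero_mem _, fun _ => rfl⟩

private theorem C2C_single_P {η : X.E {z}} (hη : wp (W.G {z}) μ η = η) :
    W.P μ (Pi.single ({z} : Finset (Fin n)) η : X.Ch) = (Pi.single ({z} : Finset (Fin n)) η : X.Ch) := by
  funext J
  rw [GrX.P_apply]
  by_cases hJ : J = {z}
  · subst hJ
    rw [Pi.single_eq_same]
    exact hη
  · rw [Pi.single_eq_of_ne hJ, wp_zero]

private theorem C2C_ex (h : Pole W z μ) {m : ℕ} {η : X.E {z}} (hη : η ∈ ZB W z μ m) :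
    ∃ c : ↥(X.Zc m), (c : X.Ch) ∈ W.Wt μ ∧ (c : X.Ch) {z} = η := by
  obtain ⟨h1, h2, h3⟩ := hη
  have e1 := C2C_single_Tt (X := X) h1
  have e2 := C2C_single_P (W := W) h3
  have e3 : X.Dt (Pi.single ({z} : Finset (Fin n)) η : X.Ch) {z} = 0 := by
    rw [C2C_Dt_z e1.1, Pi.single_eq_same]
    exact h2
  obtain ⟨b, b1, -, b3, b4, b5⟩ := acyc_z h (CovD.Dt_mem e1) (by rw [W.P_Dt, e2]) (CovD.Dt_Dt _) e3
  refine ⟨⟨(Pi.single ({z} : Finset (Fin n)) η : X.Ch) - b, Submodule.sub_mem _ e1 (b1 m rfl), ?_⟩, ?_, ?_⟩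
  · change X.Dt ((Pi.single ({z} : Finset (Fin n)) η : X.Ch) - b) = 0
    rw [map_sub, b5, sub_self]
  · change (Pi.single ({z} : Finset (Fin n)) η : X.Ch) - b ∈ W.Wt μ
    rw [W.mem_Wt, map_sub, e2, b3]
  · change (Pi.single ({z} : Finset (Fin n)) η : X.Ch) {z} - b {z} = η
    rw [b4, sub_zero, Pi.single_eq_same]

private theorem C2C_un (h : Pole W z μ) {m : ℕ} {c c' : ↥(X.Zc m)} (hc : (c : X.Ch) ∈ W.Wt μ)
    (hc' : (c' : X.Ch) ∈ W.Wt μ) (he : (c : X.Ch) {z} = (c' : X.Ch) {z}) : X.cl m c = X.cl m c' := by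
  rw [CovD.cl_eq]
  have hD : ∀ x : ↥(X.Zc m), X.Dt (x : X.Ch) = 0 := fun x => x.2.2
  obtain ⟨b, b1, b2, -, -, b5⟩ := acyc_z h (c := (c : X.Ch) - (c' : X.Ch)) (m := m)
    (Submodule.sub_mem _ c.2.1 c'.2.1) (by rw [map_sub, W.mem_Wt.1 hc, W.mem_Wt.1 hc'])
    (by rw [map_sub, hD, hD, sub_zero]) (by rw [Pi.sub_apply, he, sub_self])
  rw [← b5]
  cases m with
  | zero =>
    rw [b2 rfl, map_zero]
    exact Submodule.zero_mem _
  | succ m => exact ⟨b, b1 m rfl, rfl⟩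

private theorem C2C_bd (h : Pole W z μ) {m r : ℕ} (hr : r + 1 = m) {c : ↥(X.Zc m)}
    (hc : (c : X.Ch) ∈ W.Wt μ) {ξ : X.E {z}} (hξ : ξ ∈ Fd A (X.R {z}) r) (hw : wp (W.G {z}) μ ξ = ξ)
    (he : (c : X.Ch) {z} = dd A ξ) : X.cl m c = 0 := by
  subst hr
  have e1 := C2C_single_Tt (X := X) hξ
  have e2 := C2C_single_P (W := W) hw
  have e3 : X.Dt (Pi.single ({z} : Finset (Fin n)) ξ : X.Ch) ∈ X.Zc (r + 1) :=
    ⟨CovD.Dt_mem e1, CovD.Dt_Dt _⟩
  have e4 : X.cl (r + 1) c = X.cl (r + 1) ⟨_, e3⟩ := by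
    refine C2C_un h hc ?_ ?_
    · change X.Dt (Pi.single ({z} : Finset (Fin n)) ξ : X.Ch) ∈ W.Wt μ
      rw [W.mem_Wt, W.P_Dt, e2]
    · change (c : X.Ch) {z} = X.Dt (Pi.single ({z} : Finset (Fin n)) ξ : X.Ch) {z}
      rw [C2C_Dt_z e1.1, Pi.single_eq_same, he]
  rw [e4, CovD.cl_eq_zero]
  exact ⟨_, e1, rfl⟩

private theorem C2C_mem {m : ℕ} {c : ↥(X.Zc m)} (hc : (c : X.Ch) ∈ W.Wt μ) :
    (c : X.Ch) {z} ∈ ZB W z μ m := by
  have h1 : X.Dt (c : X.Ch) = 0 := c.2.2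
  refine ⟨(c.2.1.2 {z}).1 m (by rw [Finset.card_singleton]), ?_, ?_⟩
  · rw [← C2C_Dt_z c.2.1.1, h1]
    rfl
  · have h2 := congrFun (W.mem_Wt.1 hc) {z}
    rw [GrX.P_apply] at h2
    exact h2

/-- The isomorphism of the cohomologies of weight `μ`. -/
theorem exists_sz (h : Pole W z μ) (m : ℕ) : ∃ s : ↥(ZB W z μ m) →ₗ[A] ↥(W.HW m μ), Function.Surjective s ∧
    (∀ (c : ↥(X.Zc m)) (hc : (c : X.Ch) ∈ W.Wt μ) (hz : (c : X.Ch) {z} ∈ ZB W z μ m),
      (s ⟨(c : X.Ch) {z}, hz⟩ : X.HdR m) = X.cl m c) ∧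
    (∀ (η : ↥(ZB W z μ m)), ∃ c : ↥(X.Zc m), (c : X.Ch) ∈ W.Wt μ ∧ (c : X.Ch) {z} = η) ∧
    (∀ (η : ↥(ZB W z μ m)) (r : ℕ) (ξ : X.E {z}), r + 1 = m → ξ ∈ Fd A (X.R {z}) r →
      wp (W.G {z}) μ ξ = ξ → (η : X.E {z}) = dd A ξ → s η = 0) := by
  have hex : ∀ η : ↥(ZB W z μ m), ∃ c : ↥(X.Zc m), (c : X.Ch) ∈ W.Wt μ ∧ (c : X.Ch) {z} = η :=
    fun η => C2C_ex h η.2
  choose f hf1 hf2 using hex
  let s : ↥(ZB W z μ m) →ₗ[A] ↥(W.HW m μ) :=
    { toFun := fun η => ⟨X.cl m (f η), W.mem_HW.2 ⟨f η, hf1 η, rfl⟩⟩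
      map_add' := fun η η' => by
        apply Subtype.ext
        change X.cl m (f (η + η')) = X.cl m (f η) + X.cl m (f η')
        rw [← map_add]
        refine C2C_un h (hf1 _) (Submodule.add_mem _ (hf1 η) (hf1 η')) ?_
        change (f (η + η') : X.Ch) {z} = (f η : X.Ch) {z} + (f η' : X.Ch) {z}
        rw [hf2, hf2, hf2]
        rfl
      map_smul' := fun a η => by
        apply Subtype.ext
        change X.cl m (f (a • η)) = a • X.cl m (f η)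
        rw [← map_smul]
        refine C2C_un h (hf1 _) (Submodule.smul_mem _ a (hf1 η)) ?_
        change (f (a • η) : X.Ch) {z} = a • (f η : X.Ch) {z}
        rw [hf2, hf2]
        rfl }
  have hs : ∀ η, (s η : X.HdR m) = X.cl m (f η) := fun η => rfl
  refine ⟨s, fun x => ?_, fun c hc hz => ?_, fun η => ⟨f η, hf1 η, hf2 η⟩, fun η r ξ hr hξ hw he => ?_⟩
  · obtain ⟨c, hc, hcx⟩ := W.mem_HW.1 x.2
    refine ⟨⟨(c : X.Ch) {z}, C2C_mem hc⟩, Subtype.ext ?_⟩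
    rw [hs, ← hcx]
    exact C2C_un h (hf1 _) hc (hf2 _)
  · rw [hs]
    exact C2C_un h (hf1 _) hc (hf2 _)
  · apply Subtype.ext
    rw [hs]
    exact C2C_bd h hr (hf1 η) hξ hw ((hf2 η).trans he)

end restr

end MPadcDC
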