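import Pool.Agent.Lib.MP_adc574_ag_DC.CBase
import Pool.Agent.Lib.MP_adc574_ag_GP.Parts2

/-!
# JOB C2D (DC): the connection on U_z

* `LL_mem_ZB`: `LL_mem` (DRm; `PC A Vz`: `fun a => ⟨D a, hV a⟩`), `LL_dd`, `wp_LL` (GrA/GrB: `wp G μ (LL A D e) = LL A D (wp G μ e)` for a graded derivation).
* `gm_sz`: `c` with `c {z} = η`, weight `μ` (`h2`). `V.Gm c ∈ Zc m` (`Gm_mem_Zc`), weight `μ` (`W.P_Gm hVg μ`, `c ∅ = 0`). Its `{z}`-component is `LL A (V.V {z} {z}) η`: `Gm = Lc - Ic (ic c)`, `Ic` at `{z}` has the single term `j = z` with `ev .. ∅ {z}`, `c ∅ = 0`, so `0` (`CovD.ev_eq_zero`). So by `h1`: `cl (V.Gm c) = s ⟨LL A (V.V {z} {z}) η, _⟩` and `gaussManin m D (cl c) (cl (V.Gm c))` holds by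
  definition (`⟨V, c, ⟨V.Gm c, _⟩, rfl, rfl, rfl⟩`), `cl c = s η` (`h1`). It remains: `s ⟨LL V' η⟩ = s ⟨LL Vz η⟩`, `V' = V.V {z} {z}`: both lift `D`, so `LL_sub` (GM.lean): `LL V' η - LL Vz η` is the Lie derivative of the `A`-derivation `θ = V' - Vz`, `= dd (ct θ η) + ct θ (dd η) = dd (ct θ η)` (`cartan`); `ct θ η ∈ Fd r` if `m = r + 1` (`ct_mem`), weight `μ` (`wp_ct` with `θ` graded); if `m = 0` then
  `ct θ η = 0` (`ct_mem_zero`) and the difference is `0`. `h3` (linearity of `s`).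
* `gm_unique`: `x = cl c = cl c₁`, `y = cl (V.Gm c)`, `y' = cl (V₁.Gm c₁)`: `c - c₁ ∈ Bc m`, `V.Gm c - V.Gm c₁ = V.Gm (c - c₁) ∈ Bc m` (`Gm_sub`, `Gm_mem_Bc`), `V.Gm c₁ - V₁.Gm c₁ ∈ Bc m` (`Gm_sub_mem_Bc`).
* `exists_nab`: `W.exists_isGr V`: a graded lift `V'`. For `x ∈ HW m μ` choose `c ∈ Zc m` of weight `μ` with `cl c = x` and put `nab x := cl (V'.Gm c) ∈ HW m μ` (`P_Gm`). It does not depend on `c` (`gm_unique`), additive (`Gm_add`), Leibniz (`Gm_smul`: `V.Gm (a • c) = a • V.Gm c + D a • c`).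
-/

set_option autoImplicit false
set_option linter.unusedSectionVars false

namespace MPadcDC

open MvPolynomial TensorProduct MPadcGP MPadcGP2

universe u

section restr

variable {A : Type u} [CommRing A] {n : ℕ} {X : CovD.{u, u} A n} {M : Type} [AddCommGroup M] [Fintype M]
  [DecidableEq M] {W : GrX X M} {z : Fin n} {μ : M}

theorem LL_mem_ZB {D : Derivation ℤ A A} (Vz : Derivation ℤ (X.R {z}) (X.R {z}))
    (hV : ∀ a, Vz (algebraMap A (X.R {z}) a) = algebraMap A (X.R {z}) (D a))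
    (hg : ∀ (ν : M) r, (W.G {z}).c ν (Vz r) = Vz ((W.G {z}).c ν r)) {m : ℕ} {η : X.E {z}}
    (hη : η ∈ ZB W z μ m) : LL A Vz η ∈ ZB W z μ m := by
  have hpc : PC A Vz := fun a => ⟨D a, hV a⟩
  obtain ⟨h1, h2, h3⟩ := hη
  refine ⟨LL_mem hpc h1, ?_, ?_⟩
  · rw [← LL_dd A hpc, h2, map_zero]
  · rw [wp_LL (W.G {z}) hpc hg, h3]

/-- The connection is the Lie derivative. -/
theorem gm_sz {D : Derivation ℤ A A} (Vz : Derivation ℤ (X.R {z}) (X.R {z}))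
    (hV : ∀ a, Vz (algebraMap A (X.R {z}) a) = algebraMap A (X.R {z}) (D a))
    (hg : ∀ (ν : M) r, (W.G {z}).c ν (Vz r) = Vz ((W.G {z}).c ν r)) (V : Lft X D) (hVg : W.IsGr V) {m : ℕ}
    (s : ↥(ZB W z μ m) →ₗ[A] ↥(W.HW m μ))
    (h1 : ∀ (c : ↥(X.Zc m)) (_ : (c : X.Ch) ∈ W.Wt μ) (hz : (c : X.Ch) {z} ∈ ZB W z μ m),
      (s ⟨(c : X.Ch) {z}, hz⟩ : X.HdR m) = X.cl m c)
    (h2 : ∀ (η : ↥(ZB W z μ m)), ∃ c : ↥(X.Zc m), (c : X.Ch) ∈ W.Wt μ ∧ (c : X.Ch) {z} = η)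
    (h3 : ∀ (η : ↥(ZB W z μ m)) (r : ℕ) (ξ : X.E {z}), r + 1 = m → ξ ∈ Fd A (X.R {z}) r →
      wp (W.G {z}) μ ξ = ξ → (η : X.E {z}) = dd A ξ → s η = 0)
    (η : ↥(ZB W z μ m)) (hη : LL A Vz (η : X.E {z}) ∈ ZB W z μ m) :
    X.gaussManin m D (s η : X.HdR m) (s ⟨LL A Vz (η : X.E {z}), hη⟩ : X.HdR m) := by
  have hpc : PC A Vz := fun a => ⟨D a, hV a⟩
  obtain ⟨c, hcW, hcz⟩ := h2 η
  have h0 : (c : X.Ch) ∅ = 0 := c.2.1.1
  have hsub : ({z} : Finset (Fin n)) ⊆ {z} := Finset.Subset.refl _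
  have hne : ({z} : Finset (Fin n)).Nonempty := Finset.singleton_nonempty z
  have hGz : V.Gm (c : X.Ch) ∈ X.Zc m := V.Gm_mem_Zc c.2
  have hGW : V.Gm (c : X.Ch) ∈ W.Wt μ := by
    rw [W.mem_Wt, W.P_Gm hVg μ h0, W.mem_Wt.1 hcW]
  have hGzz : V.Gm (c : X.Ch) {z} = LL A (V.V {z} {z}) (η : X.E {z}) := by
    change V.Lc (c : X.Ch) {z} - V.Ic (X.ic (c : X.Ch)) {z} = _
    have h01 : X.ic (c : X.Ch) (({z} : Finset (Fin n)).erase z) = 0 := by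
      rw [CovD.ic_apply, Finset.erase_singleton, h0, map_zero]
    rw [Lft.Lc_apply, Lft.Ic_apply, Finset.sum_singleton, CovD.ev_eq_zero h01, map_zero, smul_zero,
      sub_zero, hcz]
  have hη' : LL A (V.V {z} {z}) (η : X.E {z}) ∈ ZB W z μ m :=
    LL_mem_ZB (D := D) (V.V {z} {z}) (V.base {z} {z} hne hsub) (hVg {z} {z} hne hsub) η.2
  have e1 : (s ⟨LL A (V.V {z} {z}) (η : X.E {z}), hη'⟩ : X.HdR m) = X.cl m ⟨V.Gm (c : X.Ch), hGz⟩ := by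
    have h4 : V.Gm (c : X.Ch) {z} ∈ ZB W z μ m := by
      rw [hGzz]
      exact hη'
    have h5 := h1 ⟨V.Gm (c : X.Ch), hGz⟩ hGW h4
    have h6 : (⟨V.Gm (c : X.Ch) {z}, h4⟩ : ↥(ZB W z μ m)) =
        ⟨LL A (V.V {z} {z}) (η : X.E {z}), hη'⟩ := Subtype.ext hGzz
    rw [← h5, ← h6]
  have e2 : (s η : X.HdR m) = X.cl m c := by
    have h4 : (c : X.Ch) {z} ∈ ZB W z μ m := by
      rw [hcz]
      exact η.2
    have h5 := h1 c hcW h4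
    have h6 : (⟨(c : X.Ch) {z}, h4⟩ : ↥(ZB W z μ m)) = η := Subtype.ext hcz
    rw [← h5, h6]
  have hd : LL A (V.V {z} {z}) (η : X.E {z}) - LL A Vz (η : X.E {z}) =
      dd A (cz A (V.V {z} {z} - Vz) (η : X.E {z})) := by
    rw [LL_sub hpc (fun a => by rw [V.base {z} {z} hne hsub, hV]), η.2.2.1, map_zero, add_zero]
  have hcc : ∀ (ν : M) r, (W.G {z}).c ν ((V.V {z} {z} - Vz) r) = (V.V {z} {z} - Vz) ((W.G {z}).c ν r) := by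
    intro ν r
    rw [Derivation.sub_apply, Derivation.sub_apply, ← hVg {z} {z} hne hsub, ← hg]
    exact map_sub ((W.G {z}).cadd ν) _ _
  have key : s (⟨LL A (V.V {z} {z}) (η : X.E {z}), hη'⟩ - ⟨LL A Vz (η : X.E {z}), hη⟩) = 0 := by
    rcases m with _ | r
    · have h7 : (⟨LL A (V.V {z} {z}) (η : X.E {z}), hη'⟩ - ⟨LL A Vz (η : X.E {z}), hη⟩ :
          ↥(ZB W z μ 0)) = 0 := by
        refine Subtype.ext ?_
        refine hd.trans ?_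
        rw [cz_mem_zero η.2.1, map_zero]
        rfl
      rw [h7, map_zero]
    · exact h3 _ r (cz A (V.V {z} {z} - Vz) (η : X.E {z})) rfl (cz_mem η.2.1)
        (by rw [GrX.wp_cz (W.G {z}) hcc, η.2.2.2]) hd
  rw [map_sub, sub_eq_zero] at key
  rw [← key]
  exact ⟨V, c, ⟨V.Gm (c : X.Ch), hGz⟩, rfl, e2.symm, e1.symm⟩

theorem gm_unique {D : Derivation ℤ A A} {m : ℕ} {x y y' : X.HdR m} (h : X.gaussManin m D x y)
    (h' : X.gaussManin m D x y') : y = y' := by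
  obtain ⟨V, c, c', hc, rfl, rfl⟩ := h
  obtain ⟨V₁, c₁, c₁', hc₁, hx, rfl⟩ := h'
  rw [CovD.cl_eq] at hx ⊢
  have e : (c' : X.Ch) - (c₁' : X.Ch) = -(V.Gm ((c₁ : X.Ch) - (c : X.Ch))) +
      (V.Gm (c₁ : X.Ch) - V₁.Gm (c₁ : X.Ch)) := by
    rw [← hc, ← hc₁, V.Gm_sub]
    abel
  rw [e]
  exact Submodule.add_mem _ (Submodule.neg_mem _ (V.Gm_mem_Bc hx)) (Lft.Gm_sub_mem_Bc V V₁ c₁.2)

theorem exists_nab (W : GrX X M) (μ : M) (m : ℕ) {D : Derivation ℤ A A} (V : Lft X D) :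
    ∃ nab : ↥(W.HW m μ) →+ ↥(W.HW m μ), (∀ x : ↥(W.HW m μ), X.gaussManin m D (x : X.HdR m) (nab x : X.HdR m)) ∧
      ∀ (a : A) (x : ↥(W.HW m μ)), nab (a • x) = D a • x + a • nab x := by
  obtain ⟨V', hV'⟩ := W.exists_isGr V
  have hex : ∀ x : ↥(W.HW m μ), ∃ (y : ↥(W.HW m μ)) (c : ↥(X.Zc m)), X.cl m c = (x : X.HdR m) ∧
      X.cl m ⟨V'.Gm (c : X.Ch), V'.Gm_mem_Zc c.2⟩ = (y : X.HdR m) := by
    intro x
    obtain ⟨c, hcW, hcx⟩ := W.mem_HW.1 x.2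
    have hGW : V'.Gm (c : X.Ch) ∈ W.Wt μ := by
      rw [W.mem_Wt, W.P_Gm hV' μ c.2.1.1, W.mem_Wt.1 hcW]
    exact ⟨⟨X.cl m ⟨V'.Gm (c : X.Ch), V'.Gm_mem_Zc c.2⟩,
      W.mem_HW.2 ⟨⟨V'.Gm (c : X.Ch), V'.Gm_mem_Zc c.2⟩, hGW, rfl⟩⟩, c, hcx, rfl⟩
  choose f cc hcx hcy using hex
  have hgm : ∀ x : ↥(W.HW m μ), X.gaussManin m D (x : X.HdR m) (f x : X.HdR m) := fun x =>
    ⟨V', cc x, ⟨V'.Gm (cc x : X.Ch), V'.Gm_mem_Zc (cc x).2⟩, rfl, hcx x, hcy x⟩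
  have hun : ∀ (x : ↥(W.HW m μ)) (c c' : ↥(X.Zc m)), X.cl m c = (x : X.HdR m) →
      V'.Gm (c : X.Ch) = (c' : X.Ch) → (f x : X.HdR m) = X.cl m c' := fun x c c' hc hc' =>
    gm_unique (hgm x) ⟨V', c, c', hc', hc, rfl⟩
  have hadd : ∀ x y : ↥(W.HW m μ), f (x + y) = f x + f y := by
    intro x y
    refine Subtype.ext ?_
    have h1 := hun (x + y) (cc x + cc y) (⟨V'.Gm (cc x : X.Ch), V'.Gm_mem_Zc (cc x).2⟩ +
      ⟨V'.Gm (cc y : X.Ch), V'.Gm_mem_Zc (cc y).2⟩)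
      (by rw [map_add, hcx, hcx]; rfl) (V'.Gm_add _ _)
    rw [h1, map_add, hcy, hcy]
    rfl
  refine ⟨AddMonoidHom.mk' f hadd, hgm, fun a x => ?_⟩
  change f (a • x) = D a • x + a • f x
  refine Subtype.ext ?_
  have h1 := hun (a • x) (a • cc x) (a • ⟨V'.Gm (cc x : X.Ch), V'.Gm_mem_Zc (cc x).2⟩ + D a • cc x)
    (by rw [map_smul, hcx]; rfl) (Lft.Gm_smul a (cc x).2.1.1)
  rw [h1, map_add, map_smul, map_smul, hcy, hcx, add_comm]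
  rfl

end restr

end MPadcDC
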