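import Pool.Agent.Lib.MP_adc574_ag_DC.DefsL
import Pool.Agent.Lib.MP_adc574_ag_GP.FmLoc
import Pool.Agent.Lib.MP_adc574_ag_GP.GrW
import Pool.Agent.Lib.MP_adc574_ag_GP.GlGen

/-!
# DC, Part C: definitions

`rz`: the restriction of forms from `U_C` to `U_C ∩ U_z`. `Pole`: this restriction is injective and an isomorphism on the cohomology of weight `μ`. `ZB`: the closed forms of weight `μ` on `U_z`.
-/

set_option autoImplicit false
set_option linter.unusedSectionVars false

namespace MPadcDC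

open MvPolynomial TensorProduct MPadcGP MPadcGP2

universe u

section pole

/-- The restriction of forms from `U_C` to `U_C ∩ U_z`. -/
noncomputable def rz {K : Type u} [Field K] {n : ℕ} (I : Ideal (MvPolynomial (Fin n) K)) (z : Fin n)
    (C : Finset (Fin n)) : Fm K (chart I C) →+* Fm K (chart I (insert z C)) :=
  (prC I).rs (Finset.subset_insert z C)

end pole

section restr

variable {A : Type u} [CommRing A] {n : ℕ} {X : CovD.{u, u} A n} {M : Type} [AddCommGroup M] [Fintype M]
  [DecidableEq M] (W : GrX X M) (z : Fin n) (μ : M)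

/-- The restriction from `U_C` to `U_C ∩ U_z` is injective on forms and an isomorphism on the cohomology of weight `μ`. -/
structure Pole : Prop where
  inj : ∀ C : Finset (Fin n), C.Nonempty → z ∉ C → Function.Injective (X.rs (Finset.subset_insert z C))
  red : ∀ C : Finset (Fin n), C.Nonempty → z ∉ C → ∀ q, ∀ η ∈ Fd A (X.R (insert z C)) q,
    wp (W.G (insert z C)) μ η = η →
    (∃ x ∈ Fd A (X.R C) (q + 1), dd A η = X.rs (Finset.subset_insert z C) x) →
    ∃ (ξ : X.E (insert z C)) (η₀ : X.E C), (∀ r, r + 1 = q → ξ ∈ Fd A (X.R (insert z C)) r) ∧ (q = 0 → ξ = 0) ∧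
      wp (W.G (insert z C)) μ ξ = ξ ∧ η₀ ∈ Fd A (X.R C) q ∧ wp (W.G C) μ η₀ = η₀ ∧
      η - dd A ξ = X.rs (Finset.subset_insert z C) η₀

/-- The closed forms of degree `m` and weight `μ` on `U_z`. -/
noncomputable def ZB (m : ℕ) : Submodule A (X.E {z}) where
  carrier := {η | η ∈ Fd A (X.R {z}) m ∧ dd A η = 0 ∧ wp (W.G {z}) μ η = η}
  add_mem' ha hb := ⟨Submodule.add_mem _ ha.1 hb.1, by rw [map_add, ha.2.1, hb.2.1, add_zero],
    by rw [wp_add, ha.2.2, hb.2.2]⟩
  zero_mem' := ⟨Submodule.zero_mem _, map_zero _, wp_zero _ _⟩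
  smul_mem' a x hx := ⟨by
    rw [← algebraMap_smul (X.R {z})]
    exact Submodule.smul_mem _ _ hx.1, by rw [dd_smul, hx.2.1, smul_zero], by
    rw [smul_fm, wp_fz_base_mul, hx.2.2]⟩

end restr

end MPadcDC
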