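import Pool.Agent.Lib.MP_adc574_ag_DC.ADefs

/-!
# DC, Part C: forms over K

`TK`, `MK`: multiplication with `dF` and `F = ∑ a_γ x ^ γ` over `K`; `VK q k`: the forms over `K` of degree `q` and weight `ν + e k`. `Ph`: the relations between the forms on the cone and those on the chart `z`. `lam`: the constants `λ(ν + e k)`.
-/

set_option autoImplicit false
set_option linter.unusedSectionVars false

namespace MPadcDC

open MvPolynomial TensorProduct

universe u

section kforms

variable {κ : Type u} [Field κ] {Γ : Type} [Fintype Γ] {V : Type u} [AddCommGroup V] [Module κ V]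
  {K : Type u} [Field K] [Algebra κ K]

/-- Multiplication with `dF` over `K`, `F = ∑ a_γ x ^ γ`. -/
noncomputable def Cx.TK (G : Cx κ Γ V) (a : Γ → K) : K ⊗[κ] V →ₗ[K] K ⊗[κ] V := ∑ γ, a γ • (G.wd γ).baseChange K

/-- Multiplication with `F` over `K`. -/
noncomputable def Cx.MK (G : Cx κ Γ V) (a : Γ → K) : K ⊗[κ] V →ₗ[K] K ⊗[κ] V := ∑ γ, a γ • (G.mul γ).baseChange K

/-- The forms over `K` of degree `q` and weight `ν + e k`. -/
noncomputable def Cx.VK (G : Cx κ Γ V) (K : Type u) [Field K] [Algebra κ K] (q k : ℕ) : Submodule K (K ⊗[κ] V) :=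
  (G.Vd q k).baseChange K

/-- The relations between the forms on the cone and those on the chart. -/
structure Ph {U : Type u} [AddCommGroup U] [Module K U] (G : Cx κ Γ V) (a : Γ → K) (dU : U →ₗ[K] U)
    (φ : K ⊗[κ] V →ₗ[K] U) : Prop where
  mul : ∀ t, φ (G.MK a t) = φ t
  wd : ∀ t, φ (G.TK a t) = 0
  d : ∀ t, φ (G.d.baseChange K t) = dU (φ t)

/-- The constants. -/
def Cx.lam (G : Cx κ Γ V) : ℕ → κ
  | 0 => 1
  | k + 1 => -(G.θ + k) * G.lam k

end kforms

end MPadcDC
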