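import Pool.Agent.Lib.MP_adc574_ag_DC.GCx
import Pool.Agent.Lib.MP_adc574_ag_DC.CKf
import Pool.Agent.Lib.MP_adc574_ag_DC.CBase

/-!
# JOB C3A (DC): the chart z of the cyclic cover

`I' = cyc (bI (algebraMap κ K) J) (frm a) e ⊆ K[x_1..x_n, z]`, `z = Fin.last n`, `Bz = chart I' {z}` (`(Xc J a).R {z}` by definition of `prC`), `cq I' {z} l _ = x_l / z`.
* `exists_phiC`: ring homomorphism from `CR J = κ[x] ⧸ J`: `Ideal.Quotient.lift J (eval₂Hom ((algebraMap K Bz).comp (algebraMap κ K)) (fun l => cq .. (castSucc l)))`; for `f ∈ J`: `rename castSucc (map f) ∈ I'` (definition of `cyc`, `Ideal.mem_map_of_mem`, `le_sup_left`), and `eval₂_cq` (GP/Mod.lean; needs `IsHomog I'`: from `cyc_homC` in this file) says that elements of `I'` evaluate to `0` at the `cq`;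
  `eval₂_rename`, `eval₂_map`. 
* `cyc_homC`: the ideal is generated by homogeneous elements: `bI`-image of `J` (`IsHomog.map`), `z ^ e - F` (`frm a` is homogeneous of degree `e`: `mem_finsuppAntidiag`). helper24 proves the same in PHom.lean (`isHomog_cyc`); you may import it when it is in the store.
* `cyc_whomog`: same for the weights `wz` (`x_l`: `1`, `z`: `0` in `ZMod e`): components of an element of `J`: it is a sum of homogeneous elements of `J`, each of one weight; `z ^ e - F` has weight `0` (`(e : ZMod e) = 0`). (helper24: `isWHomog_cyc` in PHom.lean.)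
* `exists_phK`: `TensorProduct.AlgebraTensorModule.lift` or `LinearMap.baseChange`-adjunction (`LinearMap.liftBaseChange K`) of the `κ`-linear map `w ↦ ph w` (`ph (c • w) = algebraMap κ K c • ph w`: `smul_fm`/`fz_smul`, `mp_fz`, `phi_base`).
* `phi_F`: `eval₂_cq` for `z ^ e - rename castSucc (frm a) ∈ I'`: `1 - ∑ a g * phi (xm g.1) = 0` (`cq_self`: `cq {z} z = 1`; `phi (xm g) = ∏ (cq ..) ^ g l`).
* `phK_MK`, `phK_TK`, `phK_d`: check on `c ⊗ w` (`TensorProduct.induction_on`): `(cxS ..).mul g w = fz (xm g) * w`, `.wd g w = df (xm g) * w`, `.d w = dd κ w` (all by `rfl`), `ph` is a ring homomorphism with `mp_fz`, `mp_df`, `mp_dd`; `∑ a g • fz (phi (xm g)) = fz 1 = 1`; `∑ a g • df (phi (xm g)) = df (∑ a g • phi (xm g)) = df 1 = 0` (`df` is `K`-linear: `KaehlerDifferential.D`, `map_smul`).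
-/

set_option autoImplicit false
set_option linter.unusedSectionVars false

namespace MPadcDC

open MvPolynomial TensorProduct MPadcGP MPadcGP2

universe u

section aux

variable {A : Type u} [CommRing A]

private theorem C3A_hc {n : ℕ} {f : MvPolynomial (Fin n) A} {m : ℕ} (hf : f.IsHomogeneous m) (d : ℕ) :
    homogeneousComponent d f = if d = m then f else 0 := by
  have h1 := homogeneousComponent_of_mem (m := d) hf
  rw [h1]

private theorem C3A_mul {n : ℕ} {I : Ideal (MvPolynomial (Fin n) A)} {a x : MvPolynomial (Fin n) A}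
    (hx : ∀ d, homogeneousComponent d x ∈ I) (d : ℕ) : homogeneousComponent d (a * x) ∈ I := by
  have h1 : a * x = ∑ i ∈ Finset.range (a.totalDegree + 1), ∑ j ∈ Finset.range (x.totalDegree + 1),
      homogeneousComponent i a * homogeneousComponent j x := by
    rw [← Finset.sum_mul_sum, sum_homogeneousComponent, sum_homogeneousComponent]
  rw [h1, map_sum]
  refine Ideal.sum_mem _ fun i _ => ?_
  rw [map_sum]
  refine Ideal.sum_mem _ fun j _ => ?_
  rw [C3A_hc ((homogeneousComponent_isHomogeneous i a).mul (homogeneousComponent_isHomogeneous j x))]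
  split_ifs
  · exact Ideal.mul_mem_left _ _ (hx j)
  · exact Ideal.zero_mem _

private theorem C3A_span {n : ℕ} {S : Set (MvPolynomial (Fin n) A)}
    (hS : ∀ x ∈ S, ∀ d, homogeneousComponent d x ∈ Ideal.span S) : IsHomog (Ideal.span S) := by
  intro f hf
  induction hf using Submodule.span_induction with
  | mem x hx => exact hS x hx
  | zero => intro d; rw [map_zero]; exact Ideal.zero_mem _
  | add x y _ _ hx hy => intro d; rw [map_add]; exact Ideal.add_mem _ (hx d) (hy d)
  | smul a x _ hx => intro d; rw [smul_eq_mul]; exact C3A_mul hx d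

private theorem C3A_sup {n : ℕ} {I I' : Ideal (MvPolynomial (Fin n) A)} (hI : IsHomog I) (hI' : IsHomog I') :
    IsHomog (I ⊔ I') := by
  intro f hf d
  obtain ⟨x, hx, y, hy, rfl⟩ := Submodule.mem_sup.1 hf
  rw [map_add]
  exact Ideal.add_mem _ (Ideal.mem_sup_left (hI x hx d)) (Ideal.mem_sup_right (hI' y hy d))

private theorem C3A_ren {n : ℕ} (f : MvPolynomial (Fin n) A) (d : ℕ) :
    homogeneousComponent d (rename Fin.castSucc f) =
      rename (Fin.castSucc : Fin n → Fin (n + 1)) (homogeneousComponent d f) := by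
  have h1 : rename (Fin.castSucc : Fin n → Fin (n + 1)) f =
      ∑ i ∈ Finset.range (f.totalDegree + 1), rename Fin.castSucc (homogeneousComponent i f) := by
    rw [← map_sum, sum_homogeneousComponent]
  have h2 : homogeneousComponent d f = ∑ i ∈ Finset.range (f.totalDegree + 1),
      homogeneousComponent d (homogeneousComponent i f) := by
    rw [← map_sum, sum_homogeneousComponent]
  rw [h1, h2, map_sum, map_sum]
  refine Finset.sum_congr rfl fun i _ => ?_
  rw [C3A_hc (homogeneousComponent_isHomogeneous i f),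
    C3A_hc ((homogeneousComponent_isHomogeneous i f).rename_isHomogeneous)]
  split_ifs
  · rfl
  · rw [map_zero]

private theorem C3A_frm {n e : ℕ} (a : Mon n e → A) : (frm a).IsHomogeneous e := by
  unfold frm
  refine IsHomogeneous.sum _ _ _ fun g _ => isHomogeneous_monomial _ ?_
  have h1 := (Finset.mem_finsuppAntidiag.1 g.2).1
  rw [Finsupp.degree_eq_sum]
  exact h1

private theorem C3A_gen {n e : ℕ} (a : Mon n e → A) :
    (X (Fin.last n) ^ e - rename Fin.castSucc (frm a) : MvPolynomial (Fin (n + 1)) A).IsHomogeneous e := by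
  refine IsHomogeneous.sub ?_ ((C3A_frm a).rename_isHomogeneous)
  have h1 := (isHomogeneous_X A (Fin.last n)).pow e
  rwa [one_mul] at h1

private theorem C3A_map {n : ℕ} {I : Ideal (MvPolynomial (Fin n) A)} (hI : IsHomog I) :
    IsHomog (I.map (rename Fin.castSucc : MvPolynomial (Fin n) A →ₐ[A] MvPolynomial (Fin (n + 1)) A).toRingHom) := by
  unfold Ideal.map
  refine C3A_span ?_
  rintro x ⟨f, hf, rfl⟩ d
  refine Ideal.subset_span ⟨homogeneousComponent d f, hI f hf d, ?_⟩
  exact (C3A_ren f d).symm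

private theorem C3A_wc {n e : ℕ} [NeZero e] {f : MvPolynomial (Fin (n + 1)) A} {μ : ZMod e}
    (hf : IsWeightedHomogeneous (wz n e) f μ) (ν : ZMod e) :
    weightedHomogeneousComponent (wz n e) ν f = if ν = μ then f else 0 := by
  split_ifs with h
  · rw [h]
    exact hf.weightedHomogeneousComponent_same
  · exact hf.weightedHomogeneousComponent_ne ν (fun h' => h h')

private theorem C3A_wspan {n e : ℕ} [NeZero e] {S : Set (MvPolynomial (Fin (n + 1)) A)}
    (hS : ∀ x ∈ S, ∀ μ, weightedHomogeneousComponent (wz n e) μ x ∈ Ideal.span S) :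
    IsWHomog (wz n e) (Ideal.span S) := by
  intro f hf
  induction hf using Submodule.span_induction with
  | mem x hx => exact hS x hx
  | zero => intro d; rw [map_zero]; exact Ideal.zero_mem _
  | add x y _ _ hx hy => intro d; rw [map_add]; exact Ideal.add_mem _ (hx d) (hy d)
  | smul a x _ hx =>
    intro d
    rw [smul_eq_mul, whc_mul]
    exact Ideal.sum_mem _ fun ν _ => Ideal.mul_mem_left _ _ (hx _)

private theorem C3A_wren {n e : ℕ} {f : MvPolynomial (Fin n) A} {d : ℕ} (hf : f.IsHomogeneous d) :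
    IsWeightedHomogeneous (wz n e) (rename (Fin.castSucc : Fin n → Fin (n + 1)) f) (d : ZMod e) := by
  intro μ hμ
  obtain ⟨g, rfl, hg⟩ := coeff_rename_ne_zero _ _ _ hμ
  have h1 := hf hg
  rw [Finsupp.weight_apply, Finsupp.sum_fintype _ _ fun _ => by simp] at h1
  rw [Finsupp.weight_apply, Finsupp.sum_mapDomain_index (h := fun i c => c • wz n e i)
    (fun _ => zero_smul _ _) (fun _ _ _ => add_smul _ _ _),
    Finsupp.sum_fintype g (fun l m => m • wz n e (Fin.castSucc l)) fun _ => zero_smul _ _]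
  have h2 : ∀ l : Fin n, wz n e (Fin.castSucc l) = 1 := by
    intro l
    unfold wz
    rw [if_neg (Fin.castSucc_lt_last l).ne]
  have h3 : ∑ l, g l • wz n e (Fin.castSucc l) = ((∑ l, g l : ℕ) : ZMod e) := by
    rw [Nat.cast_sum]
    refine Finset.sum_congr rfl fun l _ => ?_
    rw [h2, nsmul_eq_mul, mul_one]
  rw [h3]
  congr 1
  rw [← h1]
  refine Finset.sum_congr rfl fun l _ => ?_
  simp

private theorem C3A_wmap {n e : ℕ} [NeZero e] {I : Ideal (MvPolynomial (Fin n) A)} (hI : IsHomog I) :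
    IsWHomog (wz n e)
      (I.map (rename Fin.castSucc : MvPolynomial (Fin n) A →ₐ[A] MvPolynomial (Fin (n + 1)) A).toRingHom) := by
  unfold Ideal.map
  refine C3A_wspan ?_
  rintro x ⟨f, hf, rfl⟩ μ
  have h1 : (rename Fin.castSucc : MvPolynomial (Fin n) A →ₐ[A] MvPolynomial (Fin (n + 1)) A).toRingHom f =
      ∑ i ∈ Finset.range (f.totalDegree + 1),
        (rename (Fin.castSucc : Fin n → Fin (n + 1)) (homogeneousComponent i f) : MvPolynomial (Fin (n + 1)) A) := by
    rw [← map_sum, sum_homogeneousComponent]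
    rfl
  rw [h1, map_sum]
  refine Ideal.sum_mem _ fun i _ => ?_
  rw [C3A_wc (C3A_wren (homogeneousComponent_isHomogeneous i f))]
  split_ifs
  · exact Ideal.subset_span ⟨homogeneousComponent i f, hI f hf i, rfl⟩
  · exact Ideal.zero_mem _

private theorem C3A_lift {κ : Type u} [Field κ] {K : Type u} [Field K] [Algebra κ K] {V : Type u} [AddCommGroup V]
    [Module κ V] {M : Type u} [AddCommGroup M] [Module K M] (f : V →+ M)
    (hf : ∀ (c : κ) v, f (c • v) = algebraMap κ K c • f v) :
    ∃ φ : K ⊗[κ] V →ₗ[K] M, ∀ c v, φ (c ⊗ₜ v) = c • f v := by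
  let _ : Module κ M := Module.compHom M (algebraMap κ K)
  have _ : IsScalarTower κ K M := ⟨fun x y z => by
    rw [Algebra.smul_def, mul_smul]
    rfl⟩
  let g : V →ₗ[κ] M := { f with map_smul' := fun c v => hf c v }
  exact ⟨LinearMap.liftBaseChange K g, fun c v => LinearMap.liftBaseChange_tmul (R := κ) (A := K) (l := g) c v⟩

private theorem C3A_fz_smul {K : Type u} [Field K] {R : Type u} [CommRing R] [Algebra K R] (c : K) (x : R) :
    fz K (c • x) = c • fz K x := by
  rw [Algebra.smul_def, map_mul, smul_fm]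

private theorem C3A_df_smul {K : Type u} [Field K] {R : Type u} [CommRing R] [Algebra K R] (c : K) (x : R) :
    df K (c • x) = c • df K x := by
  rw [Algebra.smul_def, df_mul, df_base, mul_zero, add_zero, smul_fm]

end aux

section chartz

variable {κ : Type u} [Field κ] [CharZero κ] {n : ℕ} {J : Ideal (MvPolynomial (Fin n) κ)} {K : Type u} [Field K]
  [Algebra κ K] {e : ℕ} {a : Mon n e → K}

/-- The cyclic cover over `K`. -/
noncomputable abbrev Xc (J : Ideal (MvPolynomial (Fin n) κ)) {K : Type u} [Field K] [Algebra κ K] {e : ℕ}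
    (a : Mon n e → K) : CovD.{u, u} K (n + 1) := prC (cyc (bI (algebraMap κ K) J) (frm a) e)

/-- The ring of functions on the chart `z` of the cyclic cover. -/
abbrev Bz (J : Ideal (MvPolynomial (Fin n) κ)) {K : Type u} [Field K] [Algebra κ K] {e : ℕ} (a : Mon n e → K) :
    Type u := (Xc J a).R {Fin.last n}

theorem cyc_homC (hJ : IsHomog J) (a : Mon n e → K) : IsHomog (cyc (bI (algebraMap κ K) J) (frm a) e) := by
  unfold cyc
  refine C3A_sup (C3A_map (hJ.map _)) (C3A_span ?_)
  intro x hx d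
  rw [Set.mem_singleton_iff] at hx
  rw [hx, C3A_hc (C3A_gen a)]
  split_ifs
  · exact Ideal.subset_span rfl
  · exact Ideal.zero_mem _

theorem cyc_whomog [NeZero e] (hJ : IsHomog J) (a : Mon n e → K) :
    IsWHomog (wz n e) (cyc (bI (algebraMap κ K) J) (frm a) e) := by
  unfold cyc
  have h1 : IsWeightedHomogeneous (wz n e)
      (X (Fin.last n) ^ e - rename Fin.castSucc (frm a) : MvPolynomial (Fin (n + 1)) K) 0 := by
    have h2 : IsWeightedHomogeneous (wz n e) (X (Fin.last n) ^ e : MvPolynomial (Fin (n + 1)) K) 0 := by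
      have h3 := (isWeightedHomogeneous_X K (wz n e) (Fin.last n)).pow e
      have h4 : wz n e (Fin.last n) = 0 := if_pos rfl
      rwa [h4, smul_zero] at h3
    have h3 : IsWeightedHomogeneous (wz n e)
        (rename (Fin.castSucc : Fin n → Fin (n + 1)) (frm a) : MvPolynomial (Fin (n + 1)) K) 0 := by
      have h4 := C3A_wren (e := e) (C3A_frm a)
      rwa [ZMod.natCast_self] at h4
    exact (weightedHomogeneousSubmodule K (wz n e) 0).sub_mem h2 h3
  intro f hf μ
  obtain ⟨x, hx, y, hy, rfl⟩ := Submodule.mem_sup.1 hf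
  rw [map_add]
  refine Ideal.add_mem _ (Ideal.mem_sup_left (C3A_wmap (hJ.map _) x hx μ)) (Ideal.mem_sup_right ?_)
  refine C3A_wspan ?_ y hy μ
  intro x hx ν
  rw [Set.mem_singleton_iff] at hx
  rw [hx, C3A_wc h1]
  split_ifs
  · exact Ideal.subset_span rfl
  · exact Ideal.zero_mem _

/-- The weights on the cyclic cover. -/
noncomputable def Wc [NeZero e] (hJ : IsHomog J) (a : Mon n e → K) :
    GrX (Xc J a) (ZMod e) :=
  grP (cyc_homC hJ a) (cyc_whomog hJ a)

theorem exists_phiC (hJ : IsHomog J) (a : Mon n e → K) : ∃ φ : CR J →+* Bz J a,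
    (∀ c : κ, φ (algebraMap κ (CR J) c) = algebraMap K (Bz J a) (algebraMap κ K c)) ∧
    ∀ l, φ (xv J l) = (cq (cyc (bI (algebraMap κ K) J) (frm a) e) {Fin.last n} (Fin.castSucc l)
      (Finset.mem_singleton_self _) : Bz J a) := by
  have h1 : ∀ f ∈ J, eval₂Hom ((algebraMap K (Bz J a)).comp (algebraMap κ K))
      (fun l => (cq (cyc (bI (algebraMap κ K) J) (frm a) e) {Fin.last n} (Fin.castSucc l)
        (Finset.mem_singleton_self _) : Bz J a)) f = 0 := by
    intro f hf
    have h2 : rename (Fin.castSucc : Fin n → Fin (n + 1)) (MvPolynomial.map (algebraMap κ K) f) ∈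
        cyc (bI (algebraMap κ K) J) (frm a) e := by
      unfold cyc
      refine Ideal.mem_sup_left ?_
      exact Ideal.mem_map_of_mem
        (rename Fin.castSucc : MvPolynomial (Fin n) K →ₐ[K] MvPolynomial (Fin (n + 1)) K).toRingHom
        (Ideal.mem_map_of_mem _ hf)
    have h3 := eval₂_cq (cyc_homC hJ a) (Finset.mem_singleton_self (Fin.last n)) h2
    rw [eval₂_rename, eval₂_map] at h3
    exact h3
  refine ⟨Ideal.Quotient.lift J _ h1, fun c => ?_, fun l => ?_⟩
  · have h2 : algebraMap κ (CR J) c = Ideal.Quotient.mk J (C c) := rfl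
    rw [h2, Ideal.Quotient.lift_mk, coe_eval₂Hom, eval₂_C]
    rfl
  · unfold xv
    rw [Ideal.Quotient.lift_mk, coe_eval₂Hom, eval₂_X]

/-- The homomorphism `x_l ↦ x_l / z`. -/
noncomputable def phi (hJ : IsHomog J) (a : Mon n e → K) : CR J →+* Bz J a := (exists_phiC hJ a).choose

theorem phi_base (hJ : IsHomog J) (a : Mon n e → K) (c : κ) :
    phi hJ a (algebraMap κ (CR J) c) = algebraMap K (Bz J a) (algebraMap κ K c) := (exists_phiC hJ a).choose_spec.1 c

theorem phi_xv (hJ : IsHomog J) (a : Mon n e → K) (l : Fin n) : phi hJ a (xv J l) =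
    (cq (cyc (bI (algebraMap κ K) J) (frm a) e) {Fin.last n} (Fin.castSucc l) (Finset.mem_singleton_self _) :
      Bz J a) :=
  (exists_phiC hJ a).choose_spec.2 l

/-- The induced map of forms. -/
noncomputable def ph (hJ : IsHomog J) (a : Mon n e → K) : Fm κ (CR J) →+* Fm K (Bz J a) :=
  mp (phi hJ a) fun c => ⟨algebraMap κ K c, phi_base hJ a c⟩

theorem exists_phK (hJ : IsHomog J) (a : Mon n e → K) : ∃ φ : K ⊗[κ] Fm κ (CR J) →ₗ[K] Fm K (Bz J a),
    ∀ c w, φ (c ⊗ₜ w) = c • ph hJ a w := by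
  refine C3A_lift (ph hJ a).toAddMonoidHom fun c w => ?_
  show ph hJ a (c • w) = algebraMap κ K c • ph hJ a w
  rw [smul_fm, map_mul, smul_fm]
  congr 1
  unfold ph
  rw [mp_fz, phi_base]

/-- The induced map of forms over `K`. -/
noncomputable def phK (hJ : IsHomog J) (a : Mon n e → K) : K ⊗[κ] Fm κ (CR J) →ₗ[K] Fm K (Bz J a) :=
  (exists_phK hJ a).choose

theorem phK_tmul (hJ : IsHomog J) (a : Mon n e → K) (c : K) (w : Fm κ (CR J)) :
    phK hJ a (c ⊗ₜ w) = c • ph hJ a w := (exists_phK hJ a).choose_spec c w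

private theorem C3A_xm (hJ : IsHomog J) (a : Mon n e → K) (g : Fin n →₀ ℕ) : phi hJ a (xm J g) =
    ∏ l, (cq (cyc (bI (algebraMap κ K) J) (frm a) e) {Fin.last n} (Fin.castSucc l)
      (Finset.mem_singleton_self _) : Bz J a) ^ g l := by
  have h1 : xm J g = ∏ l, xv J l ^ g l := by
    unfold xm xv
    rw [monomial_eq, C_1, one_mul, Finsupp.prod_fintype _ _ fun _ => pow_zero _, map_prod]
    simp only [map_pow]
  rw [h1, map_prod]
  simp only [map_pow, phi_xv]
  rfl

theorem phi_F (hJ : IsHomog J) (he : 1 ≤ e) (a : Mon n e → K) : ∑ g : Mon n e, a g • phi hJ a (xm J g.1) = 1 := by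
  have h1 : (X (Fin.last n) ^ e - rename Fin.castSucc (frm a) : MvPolynomial (Fin (n + 1)) K) ∈
      cyc (bI (algebraMap κ K) J) (frm a) e := by
    unfold cyc
    exact Ideal.mem_sup_right (Ideal.subset_span rfl)
  have h2 := eval₂_cq (cyc_homC hJ a) (Finset.mem_singleton_self (Fin.last n)) h1
  rw [eval₂_sub, eval₂_pow, eval₂_X, cq_self, one_pow, eval₂_rename, sub_eq_zero] at h2
  refine Eq.trans ?_ h2.symm
  unfold frm
  rw [eval₂_sum]
  refine Finset.sum_congr rfl fun g _ => ?_
  rw [C3A_xm, eval₂_monomial, Finsupp.prod_fintype _ _ fun _ => pow_zero _, Algebra.smul_def]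
  rfl

theorem phK_MK (hJ : IsHomog J) (he : 1 ≤ e) (a : Mon n e → K) (ν : ℕ) (t : K ⊗[κ] Fm κ (CR J)) :
    phK hJ a ((cxS hJ e ν).MK a t) = phK hJ a t := by
  induction t using TensorProduct.induction_on with
  | zero => rw [map_zero]
  | add x y hx hy => rw [map_add, map_add, map_add, hx, hy]
  | tmul c w =>
    have h1 : (cxS hJ e ν).MK a (c ⊗ₜ[κ] w) = ∑ γ, a γ • (c ⊗ₜ[κ] (fz κ (xm J γ.1) * w)) := by
      unfold Cx.MK
      rw [LinearMap.sum_apply]
      rfl
    rw [h1, map_sum, phK_tmul]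
    have h2 : ∀ γ : Mon n e, phK hJ a (a γ • (c ⊗ₜ[κ] (fz κ (xm J γ.1) * w))) =
        c • (fz K (a γ • phi hJ a (xm J γ.1)) * ph hJ a w) := by
      intro γ
      rw [map_smul, phK_tmul, map_mul, C3A_fz_smul, smul_mul_assoc, smul_comm]
      congr 3
      unfold ph
      rw [mp_fz]
    rw [Finset.sum_congr rfl fun γ _ => h2 γ, ← Finset.smul_sum, ← Finset.sum_mul, ← map_sum, phi_F hJ he a,
      map_one, one_mul]

theorem phK_TK (hJ : IsHomog J) (he : 1 ≤ e) (a : Mon n e → K) (ν : ℕ) (t : K ⊗[κ] Fm κ (CR J)) :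
    phK hJ a ((cxS hJ e ν).TK a t) = 0 := by
  induction t using TensorProduct.induction_on with
  | zero => rw [map_zero, map_zero]
  | add x y hx hy => rw [map_add, map_add, hx, hy, add_zero]
  | tmul c w =>
    have h1 : (cxS hJ e ν).TK a (c ⊗ₜ[κ] w) = ∑ γ, a γ • (c ⊗ₜ[κ] (df κ (xm J γ.1) * w)) := by
      unfold Cx.TK
      rw [LinearMap.sum_apply]
      rfl
    rw [h1, map_sum]
    have h2 : ∀ γ : Mon n e, phK hJ a (a γ • (c ⊗ₜ[κ] (df κ (xm J γ.1) * w))) =
        c • (df K (a γ • phi hJ a (xm J γ.1)) * ph hJ a w) := by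
      intro γ
      rw [map_smul, phK_tmul, map_mul, C3A_df_smul, smul_mul_assoc, smul_comm]
      congr 3
      unfold ph
      rw [mp_df]
    rw [Finset.sum_congr rfl fun γ _ => h2 γ, ← Finset.smul_sum, ← Finset.sum_mul, ← df_sum, phi_F hJ he a,
      df_one, zero_mul, smul_zero]

theorem phK_d (hJ : IsHomog J) (a : Mon n e → K) (ν : ℕ) (t : K ⊗[κ] Fm κ (CR J)) :
    phK hJ a ((cxS hJ e ν).d.baseChange K t) = dd K (phK hJ a t) := by
  induction t using TensorProduct.induction_on with
  | zero => rw [map_zero, map_zero, map_zero]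
  | add x y hx hy => rw [map_add, map_add, map_add, map_add, hx, hy]
  | tmul c w =>
    have h1 : (cxS hJ e ν).d.baseChange K (c ⊗ₜ[κ] w) = c ⊗ₜ[κ] dd κ w := rfl
    rw [h1, phK_tmul, phK_tmul, dd_smul]
    congr 1
    unfold ph
    rw [mp_dd]

end chartz

end MPadcDC
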