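import Pool.Agent.Lib.MP_adc574_ag_DC.C3A

/-!
# JOB C3C (DC): the forms of weight ν on the chart z

`W := (Wc hJ a).G {last} = grC _ _ {last}`; `grC_c_cq` (GP/GrW): `cq l` (here `= x_l / z`, weight `wz (castSucc l) - wz last = 1`) is homogeneous of weight `1`. `Om J q j` is the `κ`-span of `fz (xm g) * wd (xv (t i))` with `|g| + q = j`.
* `wp_ph`: on the generators: `ph (fz (xm g) * wd t) = fz (∏ (x_l / z) ^ g l) * wd (x_{t i} / z)`, a product of `|g|` functions and `q` differentials of weight `1`: `wp_mul`, `wp_fz`, `wp_df`, `grC_c_cq`; weight `j`. Linearity: `wp` is additive, `wp (c • x) = c • wp x` (`smul_fm`, `wp_fz_base_mul`).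
* `ph_mem`: `mp_mem`, and `Om J q j ≤ Fd` (`fz_mul_mem`, `wd_mem`).
* `ph_surj`: (1) every `η ∈ Fd K Bz q` is in the `K`-span of the `ph w`, `w ∈ Om J q j`, `j ∈ ℕ`: `fd_ind`: `η = fz r * wd t`; by `chart_ind` every element of `Bz` is a polynomial in the `x_l / z = phi (xv l)` (the generator `cq last = 1`), i.e. in the `K`-span of the `phi (xm g)`; `df` of such a span element is in the span of `phi(xm g') * df (phi (xv l))` (`df_mul`; or: `D (phi x)`); the set of such sums is closed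
  under products. (2) Take the component of weight `ν` (`hμ`, `wp_ph`): `η = ∑ c_i • ph w_i`, `w_i ∈ Om J q j_i` with `(j_i : ZMod e) = ν`, so `j_i = ν + e k_i` (`0 < ν < e`; `ZMod.natCast_eq_natCast_iff`, `Nat.ModEq`). (3) Multiply by powers of `F`: `t ∈ VK q k` implies `MK a t ∈ VK q (k + 1)` (`fz (xm g.1) * w ∈ Om J q (j + e)`: `xm (g + g') = xm g * xm g'`) and `phK (MK t) = phK t` (`phK_MK`): so all terms can be
  moved to the same `k = max k_i`.
-/

set_option autoImplicit false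
set_option linter.unusedSectionVars false

namespace MPadcDC

open MvPolynomial TensorProduct MPadcGP MPadcGP2

universe u v y

section omlem

variable {κ : Type u} [Field κ] {n : ℕ} (J : Ideal (MvPolynomial (Fin n) κ))

theorem c3c_xm_zero : xm J 0 = 1 := by
  unfold xm
  exact map_one (Ideal.Quotient.mk J)

theorem c3c_xm_add (g g' : Fin n →₀ ℕ) : xm J (g + g') = xm J g * xm J g' := by
  unfold xm
  rw [← map_mul, monomial_mul, one_mul]

theorem c3c_xm_single (l : Fin n) : xm J (Finsupp.single l 1) = xv J l := rfl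

theorem c3c_deg {e : ℕ} (g : Mon n e) : g.1.degree = e := by
  have h1 := (Finset.mem_finsuppAntidiag.1 g.2).1
  rw [Finsupp.degree_eq_sum]
  exact h1

theorem c3c_om_gen {q j : ℕ} (g : Fin n →₀ ℕ) (t : Fin q → Fin n) (h : g.degree + q = j) :
    fz κ (xm J g) * MPadcGP.wd κ (fun i => xv J (t i)) ∈ Om J q j := Submodule.subset_span ⟨g, t, h, rfl⟩

theorem c3c_om_fz {q j : ℕ} (g : Fin n →₀ ℕ) {w : Fm κ (CR J)} (hw : w ∈ Om J q j) :
    fz κ (xm J g) * w ∈ Om J q (j + g.degree) := by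
  unfold Om at hw
  induction hw using Submodule.span_induction with
  | mem x hx =>
    obtain ⟨g', t, h, rfl⟩ := hx
    rw [← mul_assoc, ← map_mul, ← c3c_xm_add]
    refine c3c_om_gen J (g + g') t ?_
    rw [map_add, ← h]
    ring
  | zero =>
    rw [mul_zero]
    exact Submodule.zero_mem _
  | add x y _ _ hx hy =>
    rw [mul_add]
    exact Submodule.add_mem _ hx hy
  | smul c x _ hx =>
    rw [mul_smul_comm]
    exact Submodule.smul_mem _ c hx

theorem c3c_om_df {q j : ℕ} (l : Fin n) {w : Fm κ (CR J)} (hw : w ∈ Om J q j) :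
    df κ (xv J l) * w ∈ Om J (q + 1) (j + 1) := by
  unfold Om at hw
  induction hw using Submodule.span_induction with
  | mem x hx =>
    obtain ⟨g', t, h, rfl⟩ := hx
    rw [← mul_assoc, ← fz_comm, mul_assoc]
    have h1 : df κ (xv J l) * MPadcGP.wd κ (fun i => xv J (t i)) =
        MPadcGP.wd κ (fun i => xv J ((Fin.cons l t : Fin (q + 1) → Fin n) i)) := by
      rw [MPadcGP.wd_succ]
      rfl
    rw [h1]
    refine c3c_om_gen J g' (Fin.cons l t) ?_
    rw [← h]
    ring
  | zero =>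
    rw [mul_zero]
    exact Submodule.zero_mem _
  | add x y _ _ hx hy =>
    rw [mul_add]
    exact Submodule.add_mem _ hx hy
  | smul c x _ hx =>
    rw [mul_smul_comm]
    exact Submodule.smul_mem _ c hx

theorem c3c_om_one : (1 : Fm κ (CR J)) ∈ Om J 0 0 := by
  have h1 := c3c_om_gen J (0 : Fin n →₀ ℕ) (Fin.elim0 : Fin 0 → Fin n) (j := 0) (by rw [map_zero])
  rw [c3c_xm_zero, map_one, one_mul, MPadcGP.wd_zero] at h1
  exact h1

theorem c3c_om_fd {q j : ℕ} {w : Fm κ (CR J)} (hw : w ∈ Om J q j) : w ∈ Fd κ (CR J) q := by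
  unfold Om at hw
  induction hw using Submodule.span_induction with
  | mem x hx =>
    obtain ⟨g', t, h, rfl⟩ := hx
    exact fz_mul_mem _ (MPadcGP.wd_mem _)
  | zero => exact Submodule.zero_mem _
  | add x y _ _ hx hy => exact Submodule.add_mem _ hx hy
  | smul c x _ hx =>
    rw [smul_fm]
    exact fz_mul_mem _ hx

end omlem

section hwlem

variable {A : Type u} {R : Type v} {M : Type y} [CommRing A] [CommRing R] [Algebra A R]
  [AddCommGroup M] [Fintype M] [DecidableEq M] (G : Grd A R M)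

/-- `x` has weight `μ`. -/
def C3cHw (μ : M) (x : Fm A R) : Prop := ∀ ν, wp G ν x = if ν = μ then x else 0

theorem c3c_hw_mul {μ μ' : M} {x y : Fm A R} (hx : C3cHw G μ x) (hy : C3cHw G μ' y) :
    C3cHw G (μ + μ') (x * y) := by
  intro ν
  rw [wp_mul, Finset.sum_eq_single μ]
  · rw [hx, hy, if_pos rfl]
    by_cases h : ν = μ + μ'
    · rw [if_pos (by rw [h, add_sub_cancel_left]), if_pos h]
    · rw [if_neg (fun h' => h (by rw [← h', add_sub_cancel])), if_neg h, mul_zero]
  · intro b _ hb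
    rw [hx, if_neg hb, zero_mul]
  · intro h
    exact absurd (Finset.mem_univ _) h

theorem c3c_hw_one : C3cHw G 0 (1 : Fm A R) := by
  intro ν
  rw [← map_one (fz A), wp_fz]
  have h2 := G.c_base ν (1 : A)
  rw [map_one] at h2
  rw [h2]
  split_ifs with h
  · rfl
  · rw [map_zero]

end hwlem

section chartz

variable {κ : Type u} [Field κ] [CharZero κ] {n : ℕ} {J : Ideal (MvPolynomial (Fin n) κ)} {K : Type u} [Field K]
  [Algebra κ K] {e : ℕ} {a : Mon n e → K}

theorem c3c_ph_smul (hJ : IsHomog J) (a : Mon n e → K) (c : κ) (w : Fm κ (CR J)) :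
    ph hJ a (c • w) = algebraMap κ K c • ph hJ a w := by
  rw [smul_fm, smul_fm]
  unfold ph
  rw [map_mul, mp_fz, phi_base]

theorem wp_ph [NeZero e] (hJ : IsHomog J) (a : Mon n e → K) {q j : ℕ} {w : Fm κ (CR J)} (hw : w ∈ Om J q j)
    (μ : ZMod e) : wp ((Wc hJ a).G {Fin.last n}) μ (ph hJ a w) = if μ = (j : ZMod e) then ph hJ a w else 0 := by
  have hcq : ∀ (l : Fin n) (ν : ZMod e), ((Wc hJ a).G {Fin.last n}).c ν (phi hJ a (xv J l)) =
      if ν = 1 then phi hJ a (xv J l) else 0 := by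
    intro l ν
    rw [phi_xv]
    refine (grC_c_cq (cyc_homC hJ a) (cyc_whomog hJ a) (Fin.castSucc l) (Finset.mem_singleton_self _) ν).trans ?_
    have h1 : wz n e (Fin.castSucc l) - wz n e (Fin.last n) = 1 := by
      unfold wz
      rw [if_neg (Fin.castSucc_lt_last l).ne, if_pos rfl, sub_zero]
    rw [h1]
    by_cases h : ν = 1
    · rw [if_pos h, if_pos h.symm]
    · rw [if_neg h, if_neg fun h' => h h'.symm]
      rfl
  have hfz : ∀ l : Fin n, C3cHw ((Wc hJ a).G {Fin.last n}) (1 : ZMod e) (fz K (phi hJ a (xv J l))) := by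
    intro l ν
    rw [wp_fz, hcq]
    split_ifs
    · rfl
    · rw [map_zero]
  have hdf : ∀ l : Fin n, C3cHw ((Wc hJ a).G {Fin.last n}) (1 : ZMod e) (df K (phi hJ a (xv J l))) := by
    intro l ν
    rw [wp_df, hcq]
    split_ifs
    · rfl
    · rw [df_zero]
  have hxm : ∀ g : Fin n →₀ ℕ, C3cHw ((Wc hJ a).G {Fin.last n}) ((g.degree : ℕ) : ZMod e)
      (fz K (phi hJ a (xm J g))) := by
    intro g
    induction g using Finsupp.induction_linear with
    | zero =>
      rw [c3c_xm_zero, map_one, map_one, map_zero, Nat.cast_zero]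
      exact c3c_hw_one _
    | add f g hf hg =>
      rw [c3c_xm_add, map_mul, map_mul, map_add, Nat.cast_add]
      exact c3c_hw_mul _ hf hg
    | single l m =>
      induction m with
      | zero =>
        rw [Finsupp.single_zero, c3c_xm_zero, map_one, map_one, map_zero, Nat.cast_zero]
        exact c3c_hw_one _
      | succ m ih =>
        rw [Finsupp.single_add, c3c_xm_add, map_mul, map_mul, map_add, Nat.cast_add, c3c_xm_single]
        refine c3c_hw_mul _ ih ?_
        rw [Finsupp.degree_single, Nat.cast_one]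
        exact hfz l
  have hwd : ∀ (q : ℕ) (t : Fin q → Fin n), C3cHw ((Wc hJ a).G {Fin.last n}) ((q : ℕ) : ZMod e)
      (MPadcGP.wd K (fun i => phi hJ a (xv J (t i)))) := by
    intro q
    induction q with
    | zero =>
      intro t
      rw [MPadcGP.wd_zero, Nat.cast_zero]
      exact c3c_hw_one _
    | succ q ih =>
      intro t
      rw [MPadcGP.wd_succ, Nat.cast_add, Nat.cast_one, add_comm ((q : ℕ) : ZMod e) 1]
      exact c3c_hw_mul _ (hdf (t 0)) (ih fun i => t i.succ)
  unfold Om at hw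
  induction hw using Submodule.span_induction generalizing μ with
  | mem x hx =>
    obtain ⟨g, t, h, rfl⟩ := hx
    have h1 : ph hJ a (fz κ (xm J g) * MPadcGP.wd κ (fun i => xv J (t i))) =
        fz K (phi hJ a (xm J g)) * MPadcGP.wd K (fun i => phi hJ a (xv J (t i))) := by
      unfold ph
      rw [map_mul, mp_fz, mp_wd]
    rw [h1, ← h, Nat.cast_add]
    exact c3c_hw_mul _ (hxm g) (hwd q t) μ
  | zero =>
    rw [map_zero, wp_zero, ite_self]
  | add x y _ _ hx hy =>
    rw [map_add, wp_add, hx, hy]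
    split_ifs
    · rfl
    · rw [add_zero]
  | smul c x _ hx =>
    rw [c3c_ph_smul, smul_fm, wp_fz_base_mul, hx]
    split_ifs
    · rfl
    · rw [mul_zero]

theorem ph_mem (hJ : IsHomog J) (a : Mon n e → K) {q j : ℕ} {w : Fm κ (CR J)} (hw : w ∈ Om J q j) :
    ph hJ a w ∈ Fd K (Bz J a) q := by
  exact mp_mem _ (c3c_om_fd J hw)

theorem MK_mem (hJ : IsHomog J) (a : Mon n e → K) {ν q k : ℕ} {t : K ⊗[κ] Fm κ (CR J)}
    (ht : t ∈ (cxS hJ e ν).VK K q k) : (cxS hJ e ν).MK a t ∈ (cxS hJ e ν).VK K q (k + 1) := by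
  have h0 : ∀ w ∈ (cxS hJ e ν).Vd q k, ∀ c : K, (cxS hJ e ν).MK a (c ⊗ₜ[κ] w) ∈ (cxS hJ e ν).VK K q (k + 1) := by
    intro w hw c
    unfold Cx.MK
    rw [LinearMap.sum_apply]
    refine Submodule.sum_mem _ fun g _ => ?_
    rw [LinearMap.smul_apply, LinearMap.baseChange_tmul]
    refine Submodule.smul_mem _ _ (Submodule.tmul_mem_baseChange_of_mem _ ?_)
    have h1 : fz κ (xm J g.1) * w ∈ Om J q ((ν + e * k) + g.1.degree) := c3c_om_fz J g.1 hw
    rw [c3c_deg] at h1
    have h2 : ν + e * k + e = ν + e * (k + 1) := by ring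
    rw [h2] at h1
    exact h1
  unfold Cx.VK at ht
  rw [Submodule.baseChange_eq_span] at ht
  induction ht using Submodule.span_induction with
  | mem x hx =>
    obtain ⟨w, hw, rfl⟩ := hx
    exact h0 w hw 1
  | zero =>
    rw [map_zero]
    exact Submodule.zero_mem _
  | add x y _ _ hx hy =>
    rw [map_add]
    exact Submodule.add_mem _ hx hy
  | smul c x _ hx =>
    rw [map_smul]
    exact Submodule.smul_mem _ c hx

/-- The span of the forms coming from the cone. -/
noncomputable def C3cS (hJ : IsHomog J) (a : Mon n e → K) (q : ℕ) : Submodule K (Fm K (Bz J a)) :=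
  Submodule.span K {y | ∃ j, ∃ w ∈ Om J q j, y = ph hJ a w}

/-- The span of the forms coming from the forms of weight `μ` on the cone. -/
noncomputable def C3cT (hJ : IsHomog J) (a : Mon n e → K) (q : ℕ) (μ : ZMod e) : Submodule K (Fm K (Bz J a)) :=
  Submodule.span K {y | ∃ j : ℕ, (j : ZMod e) = μ ∧ ∃ w ∈ Om J q j, y = ph hJ a w}

theorem c3c_ind (hJ : IsHomog J) (a : Mon n e → K) {P : Bz J a → Prop} (h0 : P 1)
    (h1 : ∀ c : K, P (algebraMap K (Bz J a) c)) (h2 : ∀ l, P (phi hJ a (xv J l)))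
    (h3 : ∀ x y, P x → P y → P (x + y)) (h4 : ∀ x y, P x → P y → P (x * y)) (r : Bz J a) : P r := by
  refine chart_ind (I := cyc (bI (algebraMap κ K) J) (frm a) e) (J := {Fin.last n}) (P := P) h1 ?_ h3 h4 r
  intro l m hm
  obtain rfl : m = Fin.last n := Finset.mem_singleton.1 hm
  rcases Fin.eq_castSucc_or_eq_last l with ⟨l', rfl⟩ | rfl
  · have h5 : (cq (cyc (bI (algebraMap κ K) J) (frm a) e) {Fin.last n} (Fin.castSucc l') hm : Bz J a) =
        phi hJ a (xv J l') := (phi_xv hJ a l').symm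
    exact h5 ▸ h2 l'
  · have h5 : (cq (cyc (bI (algebraMap κ K) J) (frm a) e) {Fin.last n} (Fin.last n) hm : Bz J a) = 1 :=
      cq_self _ _ hm
    exact h5 ▸ h0

theorem c3c_A (hJ : IsHomog J) (a : Mon n e → K) {q : ℕ} (r : Bz J a) {y : Fm K (Bz J a)}
    (hy : y ∈ C3cS hJ a q) : fz K r * y ∈ C3cS hJ a q := by
  revert y
  refine c3c_ind hJ a (P := fun r => ∀ {y : Fm K (Bz J a)}, y ∈ C3cS hJ a q → fz K r * y ∈ C3cS hJ a q)
    ?_ ?_ ?_ ?_ ?_ r
  · intro y hy
    rw [map_one, one_mul]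
    exact hy
  · intro c y hy
    rw [← smul_fm]
    exact Submodule.smul_mem _ c hy
  · intro l y hy
    unfold C3cS at hy
    induction hy using Submodule.span_induction with
    | mem x hx =>
      obtain ⟨j, w, hw, rfl⟩ := hx
      refine Submodule.subset_span ⟨j + (Finsupp.single l 1).degree, fz κ (xm J (Finsupp.single l 1)) * w,
        c3c_om_fz J _ hw, ?_⟩
      unfold ph
      rw [map_mul, mp_fz]
      rfl
    | zero =>
      rw [mul_zero]
      exact Submodule.zero_mem _
    | add x y _ _ hx hy =>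
      rw [mul_add]
      exact Submodule.add_mem _ hx hy
    | smul c x _ hx =>
      rw [mul_smul_comm]
      exact Submodule.smul_mem _ c hx
  · intro x z hx hz y hy
    rw [map_add, add_mul]
    exact Submodule.add_mem _ (hx hy) (hz hy)
  · intro x z hx hz y hy
    rw [map_mul, mul_assoc]
    exact hx (hz hy)

theorem c3c_B (hJ : IsHomog J) (a : Mon n e → K) {q : ℕ} (r : Bz J a) {y : Fm K (Bz J a)}
    (hy : y ∈ C3cS hJ a q) : df K r * y ∈ C3cS hJ a (q + 1) := by
  revert y
  refine c3c_ind hJ a (P := fun r => ∀ {y : Fm K (Bz J a)}, y ∈ C3cS hJ a q →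
    df K r * y ∈ C3cS hJ a (q + 1)) ?_ ?_ ?_ ?_ ?_ r
  · intro y hy
    rw [df_one, zero_mul]
    exact Submodule.zero_mem _
  · intro c y hy
    rw [df_base, zero_mul]
    exact Submodule.zero_mem _
  · intro l y hy
    unfold C3cS at hy
    induction hy using Submodule.span_induction with
    | mem x hx =>
      obtain ⟨j, w, hw, rfl⟩ := hx
      refine Submodule.subset_span ⟨j + 1, df κ (xv J l) * w, c3c_om_df J l hw, ?_⟩
      unfold ph
      rw [map_mul, mp_df]
    | zero =>
      rw [mul_zero]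
      exact Submodule.zero_mem _
    | add x y _ _ hx hy =>
      rw [mul_add]
      exact Submodule.add_mem _ hx hy
    | smul c x _ hx =>
      rw [mul_smul_comm]
      exact Submodule.smul_mem _ c hx
  · intro x z hx hz y hy
    rw [df_add, add_mul]
    exact Submodule.add_mem _ (hx hy) (hz hy)
  · intro x z hx hz y hy
    rw [df_mul, add_mul, mul_assoc, mul_assoc]
    exact Submodule.add_mem _ (c3c_A hJ a x (hz hy)) (c3c_A hJ a z (hx hy))

theorem c3c_wd (hJ : IsHomog J) (a : Mon n e → K) {q : ℕ} (t : Fin q → Bz J a) :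
    MPadcGP.wd K t ∈ C3cS hJ a q := by
  induction q with
  | zero =>
    rw [MPadcGP.wd_zero]
    exact Submodule.subset_span ⟨0, 1, c3c_om_one J, (map_one (ph hJ a)).symm⟩
  | succ q ih =>
    rw [MPadcGP.wd_succ]
    exact c3c_B hJ a _ (ih _)

theorem c3c_comp [NeZero e] (hJ : IsHomog J) (a : Mon n e → K) {q : ℕ} (μ : ZMod e) {y : Fm K (Bz J a)}
    (hy : y ∈ C3cS hJ a q) : wp ((Wc hJ a).G {Fin.last n}) μ y ∈ C3cT hJ a q μ := by
  unfold C3cS at hy
  induction hy using Submodule.span_induction with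
  | mem x hx =>
    obtain ⟨j, w, hw, rfl⟩ := hx
    rw [wp_ph hJ a hw]
    split_ifs with h
    · exact Submodule.subset_span ⟨j, h.symm, w, hw, rfl⟩
    · exact Submodule.zero_mem _
  | zero =>
    rw [wp_zero]
    exact Submodule.zero_mem _
  | add x y _ _ hx hy =>
    rw [wp_add]
    exact Submodule.add_mem _ hx hy
  | smul c x _ hx =>
    rw [smul_fm, wp_fz_base_mul, ← smul_fm]
    exact Submodule.smul_mem _ c hx

/-- The forms of weight `ν` come from forms of one degree `ν + e k`. -/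
theorem ph_surj [NeZero e] (hJ : IsHomog J) (he : 1 ≤ e) (a : Mon n e → K) {ν : ℕ} (h1 : 0 < ν) (h2 : ν < e) {q : ℕ}
    {η : Fm K (Bz J a)} (hη : η ∈ Fd K (Bz J a) q)
    (hμ : wp ((Wc hJ a).G {Fin.last n}) (ν : ZMod e) η = η) :
    ∃ k, ∃ t ∈ (cxS hJ e ν).VK K q k, phK hJ a t = η := by
  -- step 1
  have hA : ∀ (q : ℕ) (r : Bz J a), ∀ y ∈ C3cS hJ a q, fz K r * y ∈ C3cS hJ a q := fun q r y hy =>
    c3c_A hJ a r hy
  have h3 : η ∈ C3cS hJ a q := by
    refine fd_ind (P := fun e => e ∈ C3cS hJ a q) (Submodule.zero_mem _) ?_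
      (fun x y hx hy => Submodule.add_mem _ hx hy) hη
    intro r t
    exact hA q r _ (c3c_wd hJ a t)
  have h4 := c3c_comp hJ a (ν : ZMod e) h3
  rw [hμ] at h4
  have hup : ∀ (m k : ℕ) (t : K ⊗[κ] Fm κ (CR J)), t ∈ (cxS hJ e ν).VK K q k →
      ∃ t' ∈ (cxS hJ e ν).VK K q (k + m), phK hJ a t' = phK hJ a t := by
    intro m
    induction m with
    | zero =>
      intro k t ht
      exact ⟨t, ht, rfl⟩
    | succ m ih =>
      intro k t ht
      obtain ⟨t', ht', h5⟩ := ih k t ht
      refine ⟨(cxS hJ e ν).MK a t', ?_, ?_⟩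
      · exact MK_mem hJ a ht'
      · rw [phK_MK hJ he, h5]
  clear hA h3 hμ hη
  unfold C3cT at h4
  induction h4 using Submodule.span_induction with
  | mem x hx =>
    obtain ⟨j, hj, w, hw, rfl⟩ := hx
    have h5 : j % e = ν := by
      have h6 := (ZMod.natCast_eq_natCast_iff j ν e).1 hj
      have h7 : j % e = ν % e := h6
      rw [h7, Nat.mod_eq_of_lt h2]
    refine ⟨j / e, (1 : K) ⊗ₜ[κ] w, ?_, ?_⟩
    · refine Submodule.tmul_mem_baseChange_of_mem _ ?_
      have h6 : ν + e * (j / e) = j := by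
        rw [← h5]
        exact Nat.mod_add_div j e
      change w ∈ Om J q (ν + e * (j / e))
      rw [h6]
      exact hw
    · rw [phK_tmul, one_smul]
  | zero => exact ⟨0, 0, Submodule.zero_mem _, map_zero _⟩
  | add x y _ _ hx hy =>
    obtain ⟨k, t, ht, h5⟩ := hx
    obtain ⟨k', t', ht', h6⟩ := hy
    obtain ⟨t₂, ht₂, h7⟩ := hup k' k t ht
    obtain ⟨t₃, ht₃, h8⟩ := hup k k' t' ht'
    refine ⟨k + k', t₂ + t₃, ?_, ?_⟩
    · rw [add_comm k' k] at ht₃
      exact Submodule.add_mem _ ht₂ ht₃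
    · rw [map_add, h7, h8, h5, h6]
  | smul c x _ hx =>
    obtain ⟨k, t, ht, h5⟩ := hx
    refine ⟨k, c • t, Submodule.smul_mem _ c ht, ?_⟩
    rw [map_smul, h5]

end chartz

end MPadcDC
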