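import Pool.Agent.Lib.MP_adc574_ag_DC.C3A

/-!
# JOB C3D (DC): the kernel of the restriction to F = 1

Let `VK := K ⊗[κ] Fm κ (CR J)`, a ring (`Algebra.TensorProduct`), `Fe := ∑ a g • (1 ⊗ fz (xm g.1))` (central), `th := ∑ a g • (1 ⊗ df (xm g.1))`: `MK a t = Fe * t`, `TK a t = th * t` (check on `c ⊗ w`). `N := {Fe * x - x + th * y}` is a left ideal and a right ideal: `N = (Fe - 1) VK + th VK`; left multiplication: `w * th = th * w'` where `w' = -(1 ⊗ inv) w`..: by `df_comm` / `io_comm` (`df t * e = inv e * df t`), so for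
`w = c ⊗ v`: `w * th = th * (c ⊗ inv v)`. So `N` is two-sided; `E := VK ⧸ N` is a ring (`Ideal.Quotient.ring` with `Ideal.IsTwoSided`; `N` as an `Ideal VK` (left ideal)). Build a ring homomorphism `F₀ : Fm K Bz →+* E` with `F₀ (phK t) = mk t`:
(1) `ψ : Bz →+* E₀` with `E₀ := (K ⊗[κ] CR J) ⧸ span {F - 1}` (commutative; `F = ∑ a g ⊗ xm g.1`): `exists_chart_lift` (GP/Mod.lean) with `φ = ` structure map of `K`, `i = last`, `z (castSucc l) = class of 1 ⊗ xv l`, `z last = 1`; `hzI`: for `f ∈ I'`: on the generators: `rename castSucc (map g)`, `g ∈ J`, evaluates to the class of `1 ⊗ g(x) = 0`; `z ^ e - F ↦ 1 - F = 0` (`Submodule.span_induction`/`Ideal` induction: the kernel of `eval₂Hom` is an ideal).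
(2) `E₀ →+* E`: induced by `c ⊗ s ↦ c ⊗ fz s` (`Ideal.Quotient.lift`; `F - 1 ↦ Fe - 1 ∈ N`). `φ' : Bz →+* E` the composition; its image is central in `E`. (3) `δ : Bz →+ E`: the additive map `D₀ : K ⊗ CR J → E`, `c ⊗ s ↦ class (c ⊗ df s)`, satisfies Leibniz, kills `(F - 1) x`: `D₀ ((F - 1) x) = th * x + (Fe - 1) * D₀ x ∈ N`; so it factors through `E₀`; compose with `ψ`. (4) `exists_hom` (GP/DR.lean) for `A = K`, `R = Bz`: `φ'` central,
`δ (r t) = φ' r δ t + φ' t δ r`, `δ (algebraMap a) = 0`, `δ s δ t + δ t δ s = 0`, `δ s δ s = 0` (from `df_swap`, `df_sq`; for sums of `c ⊗ s`: bilinear; `δ s` is the class of a sum of `c ⊗ df s`, anticommuting elements of square zero). (5) `F₀ (ph w) = mk (1 ⊗ w)`: `hom_ext'` for `Fm κ (CR J)`: on `fz`: `ψ (phi s) = class of 1 ⊗ s` (generators `xv l`), on `df` the same. So `F₀ (phK t) = mk t` (`K`-linearity: `c • x = fz (algebraMap c) * x`).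
Then `phK t = 0` gives `mk t = 0`, `t ∈ N`.
-/

set_option autoImplicit false
set_option linter.unusedSectionVars false

namespace MPadcDC

open MvPolynomial TensorProduct MPadcGP MPadcGP2

universe u

section gen
variable {κ : Type u} [Field κ] {S : Type u} [CommRing S] [Algebra κ S] {K : Type u} [Field K] [Algebra κ K]

noncomputable def C3D_jz : K ⊗[κ] S →+* K ⊗[κ] Fm κ S :=
  (Algebra.TensorProduct.map (AlgHom.id K K) (IsScalarTower.toAlgHom κ S (Fm κ S))).toRingHom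

theorem C3D_jz_tmul (c : K) (s : S) : C3D_jz (c ⊗ₜ[κ] s) = c ⊗ₜ[κ] fz κ s := rfl

noncomputable def C3D_dfl : S →ₗ[κ] Fm κ S := (ExteriorAlgebra.ι S).restrictScalars κ ∘ₗ (KaehlerDifferential.D κ S).toLinearMap

theorem C3D_dfl_apply (s : S) : C3D_dfl s = df κ s := rfl

noncomputable def C3D_D : K ⊗[κ] S →+ K ⊗[κ] Fm κ S := (LinearMap.lTensor K (C3D_dfl (κ := κ) (S := S))).toAddMonoidHom

theorem C3D_D_tmul (c : K) (s : S) : C3D_D (c ⊗ₜ[κ] s) = c ⊗ₜ[κ] df κ s := rfl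

/-- functions are central -/
theorem C3D_central (s : K ⊗[κ] S) (v : K ⊗[κ] Fm κ S) : C3D_jz s * v = v * C3D_jz s := by
  induction s using TensorProduct.induction_on with
  | zero => rw [map_zero, zero_mul, mul_zero]
  | add x y hx hy => rw [map_add, add_mul, mul_add, hx, hy]
  | tmul c s =>
    induction v using TensorProduct.induction_on with
    | zero => rw [zero_mul, mul_zero]
    | add x y hx hy => rw [add_mul, mul_add, hx, hy]
    | tmul c' w =>
      rw [C3D_jz_tmul, Algebra.TensorProduct.tmul_mul_tmul, Algebra.TensorProduct.tmul_mul_tmul, mul_comm c c',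
        fz_comm]

theorem C3D_swap (x y : K ⊗[κ] S) : C3D_D x * C3D_D y + C3D_D y * C3D_D x = 0 := by
  induction x using TensorProduct.induction_on with
  | zero => rw [map_zero, zero_mul, mul_zero, add_zero]
  | add x x' hx hx' =>
    have h : C3D_D (x + x') * C3D_D y + C3D_D y * C3D_D (x + x') =
      (C3D_D x * C3D_D y + C3D_D y * C3D_D x) + (C3D_D x' * C3D_D y + C3D_D y * C3D_D x') := by
      rw [map_add, add_mul, mul_add]
      abel
    rw [h, hx, hx', add_zero]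
  | tmul c s =>
    induction y using TensorProduct.induction_on with
    | zero => rw [map_zero, zero_mul, mul_zero, add_zero]
    | add y y' hy hy' =>
      have h : C3D_D (c ⊗ₜ[κ] s) * C3D_D (y + y') + C3D_D (y + y') * C3D_D (c ⊗ₜ[κ] s) =
        (C3D_D (c ⊗ₜ[κ] s) * C3D_D y + C3D_D y * C3D_D (c ⊗ₜ[κ] s)) +
        (C3D_D (c ⊗ₜ[κ] s) * C3D_D y' + C3D_D y' * C3D_D (c ⊗ₜ[κ] s)) := by
        rw [map_add, add_mul, mul_add]
        abel
      rw [h, hy, hy', add_zero]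
    | tmul c' t =>
      rw [C3D_D_tmul, C3D_D_tmul, Algebra.TensorProduct.tmul_mul_tmul, Algebra.TensorProduct.tmul_mul_tmul, mul_comm c c',
        df_swap s t, TensorProduct.tmul_neg, neg_add_cancel]

theorem C3D_sq (x : K ⊗[κ] S) : C3D_D x * C3D_D x = 0 := by
  induction x using TensorProduct.induction_on with
  | zero => rw [map_zero, zero_mul]
  | add x y hx hy =>
    have h : C3D_D (x + y) * C3D_D (x + y) = C3D_D x * C3D_D x + C3D_D y * C3D_D y +
      (C3D_D x * C3D_D y + C3D_D y * C3D_D x) := by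
      rw [map_add, add_mul, mul_add, mul_add]
      abel
    rw [h, hx, hy, C3D_swap, add_zero, add_zero]
  | tmul c s => rw [C3D_D_tmul, Algebra.TensorProduct.tmul_mul_tmul, df_sq, TensorProduct.tmul_zero]

theorem C3D_leib (x y : K ⊗[κ] S) : C3D_D (x * y) = C3D_jz x * C3D_D y + C3D_jz y * C3D_D x := by
  induction x using TensorProduct.induction_on with
  | zero => rw [zero_mul, map_zero, map_zero, zero_mul, mul_zero, add_zero]
  | add x x' hx hx' =>
    rw [add_mul, map_add, hx, hx', map_add, map_add, add_mul, mul_add]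
    abel
  | tmul c s =>
    induction y using TensorProduct.induction_on with
    | zero => rw [mul_zero, map_zero, map_zero, zero_mul, mul_zero, add_zero]
    | add y y' hy hy' =>
      rw [mul_add, map_add, hy, hy', map_add, map_add, add_mul, mul_add]
      abel
    | tmul c' t =>
      rw [Algebra.TensorProduct.tmul_mul_tmul, C3D_D_tmul, C3D_D_tmul, C3D_D_tmul, C3D_jz_tmul, C3D_jz_tmul,
        Algebra.TensorProduct.tmul_mul_tmul, Algebra.TensorProduct.tmul_mul_tmul, mul_comm c' c, ← TensorProduct.tmul_add,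
        ← df_mul]

theorem C3D_odd (v : K ⊗[κ] Fm κ S) : ∃ v', ∀ y : K ⊗[κ] S, v * C3D_D y = C3D_D y * v' := by
  induction v using TensorProduct.induction_on with
  | zero => exact ⟨0, fun y => by rw [zero_mul, mul_zero]⟩
  | add v w hv hw =>
    obtain ⟨v', hv'⟩ := hv
    obtain ⟨w', hw'⟩ := hw
    exact ⟨v' + w', fun y => by rw [add_mul, mul_add, hv', hw']⟩
  | tmul c v =>
    refine ⟨c ⊗ₜ[κ] inv κ v, fun y => ?_⟩
    induction y using TensorProduct.induction_on with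
    | zero => rw [map_zero, zero_mul, mul_zero]
    | add y z hy hz => rw [map_add, add_mul, mul_add, hy, hz]
    | tmul c' t =>
      rw [C3D_D_tmul, Algebra.TensorProduct.tmul_mul_tmul, Algebra.TensorProduct.tmul_mul_tmul, mul_comm c c', df_comm,
        MPadcGP.inv_inv]

/-- The ideal of the relations. -/
noncomputable def C3D_N (f : K ⊗[κ] S) : Ideal (K ⊗[κ] Fm κ S) where
  carrier := {t | ∃ x y, t = C3D_jz f * x - x + C3D_D f * y}
  add_mem' := by
    rintro t t' ⟨x, y, rfl⟩ ⟨x', y', rfl⟩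
    refine ⟨x + x', y + y', ?_⟩
    rw [mul_add, mul_add]
    abel
  zero_mem' := ⟨0, 0, by rw [mul_zero, mul_zero, sub_zero, add_zero]⟩
  smul_mem' := by
    rintro v t ⟨x, y, rfl⟩
    obtain ⟨v', hv'⟩ := C3D_odd v
    refine ⟨v * x, v' * y, ?_⟩
    rw [smul_eq_mul, mul_add, mul_sub, ← mul_assoc, ← mul_assoc, ← mul_assoc, ← mul_assoc, C3D_central, hv']

theorem C3D_mem_N (f : K ⊗[κ] S) (t : K ⊗[κ] Fm κ S) : t ∈ C3D_N f ↔ ∃ x y, t = C3D_jz f * x - x + C3D_D f * y :=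
  Iff.rfl

instance C3D_N_two (f : K ⊗[κ] S) : (C3D_N f).IsTwoSided where
  mul_mem_of_left := by
    rintro t v ⟨x, y, rfl⟩
    refine ⟨x * v, y * v, ?_⟩
    rw [add_mul, sub_mul, mul_assoc, mul_assoc]

/-- The functions modulo `f - 1`. -/
def C3D_Q (f : K ⊗[κ] S) : Type u := (K ⊗[κ] S) ⧸ (Ideal.span {f - 1} : Ideal (K ⊗[κ] S))

noncomputable instance (f : K ⊗[κ] S) : CommRing (C3D_Q f) :=
  inferInstanceAs (CommRing ((K ⊗[κ] S) ⧸ (Ideal.span {f - 1} : Ideal (K ⊗[κ] S))))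

/-- The class. -/
noncomputable def C3D_mk (f : K ⊗[κ] S) : K ⊗[κ] S →+* C3D_Q f :=
  Ideal.Quotient.mk (Ideal.span {f - 1} : Ideal (K ⊗[κ] S))

theorem C3D_mk_self (f : K ⊗[κ] S) : C3D_mk f f = 1 := by
  rw [← sub_eq_zero, ← map_one (C3D_mk f), ← map_sub]
  exact Ideal.Quotient.eq_zero_iff_mem.2 (Ideal.mem_span_singleton_self _)

/-- The ring homomorphism from `K`. -/
noncomputable def C3D_b (f : K ⊗[κ] S) : K →+* C3D_Q f :=
  (C3D_mk f).comp (Algebra.TensorProduct.includeLeft : K →ₐ[K] K ⊗[κ] S).toRingHom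

theorem C3D_b_apply (f : K ⊗[κ] S) (c : K) : C3D_b f c = C3D_mk f (c ⊗ₜ[κ] (1 : S)) := rfl

/-- The ring homomorphism from `S`. -/
noncomputable def C3D_c (f : K ⊗[κ] S) : S →+* C3D_Q f :=
  (C3D_mk f).comp (Algebra.TensorProduct.includeRight : S →ₐ[κ] K ⊗[κ] S).toRingHom

theorem C3D_c_apply (f : K ⊗[κ] S) (s : S) : C3D_c f s = C3D_mk f ((1 : K) ⊗ₜ[κ] s) := rfl

theorem C3D_c_base (f : K ⊗[κ] S) (c : κ) : C3D_c f (algebraMap κ S c) = C3D_b f (algebraMap κ K c) := by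
  rw [C3D_c_apply, C3D_b_apply, Algebra.algebraMap_eq_smul_one, Algebra.algebraMap_eq_smul_one,
    TensorProduct.smul_tmul]

theorem C3D_tmul (f : K ⊗[κ] S) (c : K) (s : S) : C3D_mk f (c ⊗ₜ[κ] s) = C3D_b f c * C3D_c f s := by
  rw [C3D_b_apply, C3D_c_apply, ← map_mul, Algebra.TensorProduct.tmul_mul_tmul, mul_one, one_mul]

theorem C3D_main (f : K ⊗[κ] S) {B : Type u} [CommRing B] [Algebra K B] (φ : S →+* B)
    (hφ : ∀ c : κ, φ (algebraMap κ S c) = algebraMap K B (algebraMap κ K c))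
    (ψ : B →+* C3D_Q f)
    (h1 : ∀ c : K, ψ (algebraMap K B c) = C3D_b f c)
    (h2 : ∀ s, ψ (φ s) = C3D_c f s)
    (P : K ⊗[κ] Fm κ S →ₗ[K] Fm K B)
    (hP : ∀ c w, P (c ⊗ₜ[κ] w) = c • mp φ (fun c => ⟨algebraMap κ K c, hφ c⟩) w)
    {t : K ⊗[κ] Fm κ S} (ht : P t = 0) : t ∈ C3D_N f := by
  replace h1 : ∀ c : K, ψ (algebraMap K B c) = C3D_mk f (c ⊗ₜ[κ] (1 : S)) := h1
  replace h2 : ∀ s, ψ (φ s) = C3D_mk f ((1 : K) ⊗ₜ[κ] s) := h2
  have hk : ∀ x ∈ (Ideal.span {f - 1} : Ideal (K ⊗[κ] S)),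
      ((Ideal.Quotient.mk (C3D_N f)).comp C3D_jz) x = 0 := by
    intro x hx
    obtain ⟨y, rfl⟩ := Ideal.mem_span_singleton'.1 hx
    rw [RingHom.comp_apply, Ideal.Quotient.eq_zero_iff_mem, C3D_mem_N]
    refine ⟨C3D_jz y, 0, ?_⟩
    rw [mul_zero, add_zero, map_mul, map_sub, map_one, mul_sub, mul_one, C3D_central]
  let jE : C3D_Q f →+* (K ⊗[κ] Fm κ S) ⧸ C3D_N f :=
    Ideal.Quotient.lift (Ideal.span {f - 1} : Ideal (K ⊗[κ] S)) _ hk
  have hjE : ∀ x, jE (C3D_mk f x) = Ideal.Quotient.mk (C3D_N f) (C3D_jz x) := fun x => rfl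
  have hD : ∀ x ∈ (Ideal.span {f - 1} : Ideal (K ⊗[κ] S)), C3D_D x ∈ C3D_N f := by
    intro x hx
    obtain ⟨y, rfl⟩ := Ideal.mem_span_singleton'.1 hx
    rw [C3D_mem_N]
    refine ⟨C3D_D y, C3D_jz y, ?_⟩
    have h3 : C3D_D (1 : K ⊗[κ] S) = 0 := by
      rw [Algebra.TensorProduct.one_def, C3D_D_tmul, df_one, TensorProduct.tmul_zero]
    rw [C3D_leib, map_sub, map_sub, h3, sub_zero, map_one, sub_mul, one_mul, C3D_central y, add_comm]
  have hwd : ∀ x y : K ⊗[κ] S, C3D_mk f x = C3D_mk f y →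
      Ideal.Quotient.mk (C3D_N f) (C3D_D x) = Ideal.Quotient.mk (C3D_N f) (C3D_D y) := by
    intro x y hxy
    replace hxy := Ideal.Quotient.eq.1 hxy
    rw [Ideal.Quotient.eq]
    rw [← map_sub]
    exact hD _ hxy
  obtain ⟨sec, hsec⟩ : ∃ sec : C3D_Q f → K ⊗[κ] S, ∀ q, C3D_mk f (sec q) = q :=
    (Ideal.Quotient.mk_surjective (I := (Ideal.span {f - 1} : Ideal (K ⊗[κ] S)))).hasRightInverse
  let g : B →+ (K ⊗[κ] Fm κ S) ⧸ C3D_N f :=
    { toFun := fun b => Ideal.Quotient.mk (C3D_N f) (C3D_D (sec (ψ b)))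
      map_zero' := by
        rw [hwd _ 0 (by rw [hsec, map_zero, map_zero]), map_zero, map_zero]
      map_add' := fun b c => by
        rw [hwd _ (sec (ψ b) + sec (ψ c)) (by rw [hsec, map_add, map_add, hsec, hsec]), map_add, map_add] }
  have hg : ∀ b x, ψ b = C3D_mk f x → g b = Ideal.Quotient.mk (C3D_N f) (C3D_D x) := fun b x h =>
    hwd _ _ (by rw [hsec, h])
  have hr : ∀ b, ∃ x, ψ b = C3D_mk f x := fun b => ⟨sec (ψ b), (hsec _).symm⟩
  obtain ⟨F, hF1, hF2⟩ := exists_hom (A := K) (jE.comp ψ)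
    (by
      intro r v
      obtain ⟨x, hx⟩ := hr r
      obtain ⟨v, rfl⟩ := Ideal.Quotient.mk_surjective v
      rw [RingHom.comp_apply, hx, hjE, ← map_mul, ← map_mul, C3D_central])
    g
    (by
      intro r t
      obtain ⟨x, hx⟩ := hr r
      obtain ⟨y, hy⟩ := hr t
      rw [hg r x hx, hg t y hy, hg (r * t) (x * y) (by rw [map_mul, map_mul, hx, hy]), RingHom.comp_apply,
        RingHom.comp_apply, hx, hy, hjE, hjE, ← map_mul, ← map_mul, ← map_add, C3D_leib])
    (by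
      intro c
      rw [hg _ _ (h1 c), C3D_D_tmul, df_one, TensorProduct.tmul_zero, map_zero])
    (by
      intro s t
      obtain ⟨x, hx⟩ := hr s
      obtain ⟨y, hy⟩ := hr t
      rw [hg s x hx, hg t y hy, ← RingHom.map_mul, ← RingHom.map_mul, ← RingHom.map_add, C3D_swap, RingHom.map_zero])
    (by
      intro s
      obtain ⟨x, hx⟩ := hr s
      rw [hg s x hx, ← map_mul, C3D_sq, map_zero])
  have h5 : F.comp (mp φ (fun c => ⟨algebraMap κ K c, hφ c⟩)) =
      (Ideal.Quotient.mk (C3D_N f)).comp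
        (Algebra.TensorProduct.includeRight : Fm κ S →ₐ[κ] K ⊗[κ] Fm κ S).toRingHom := by
    refine hom_ext' (fun r => ?_) (fun t => ?_)
    · rw [RingHom.comp_apply, mp_fz, hF1, RingHom.comp_apply, h2, hjE, C3D_jz_tmul]
      rfl
    · rw [RingHom.comp_apply, mp_df, hF2, hg _ _ (h2 t), C3D_D_tmul]
      rfl
  have h6 : ∀ t, F (P t) = Ideal.Quotient.mk (C3D_N f) t := by
    intro t
    induction t using TensorProduct.induction_on with
    | zero => rw [map_zero, map_zero, map_zero]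
    | add x y hx hy => rw [map_add, map_add, map_add, hx, hy]
    | tmul c w =>
      have h7 : F (mp φ (fun c => ⟨algebraMap κ K c, hφ c⟩) w) =
          Ideal.Quotient.mk (C3D_N f) ((1 : K) ⊗ₜ[κ] w) := congrArg (fun G => G w) h5
      rw [hP, ← algebraMap_smul B, fz_smul, map_mul, hF1, RingHom.comp_apply, h1, hjE, C3D_jz_tmul, h7, ← map_mul,
        Algebra.TensorProduct.tmul_mul_tmul, mul_one, map_one, one_mul]
  have h8 := h6 t
  rw [ht, map_zero] at h8
  exact Ideal.Quotient.eq_zero_iff_mem.1 h8.symm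

private theorem C3D_gen {E : Type u} [Ring E] [Algebra κ E] {Γ : Type} [Fintype Γ] (a : Γ → K) (m : Γ → E)
    (L : Γ → E →ₗ[κ] E) (hL : ∀ g w, L g w = m g * w) (t : K ⊗[κ] E) :
    (∑ g, a g • (L g).baseChange K) t = (∑ g, a g ⊗ₜ[κ] m g) * t := by
  rw [Finset.sum_mul, LinearMap.sum_apply]
  refine Finset.sum_congr rfl fun g _ => ?_
  rw [LinearMap.smul_apply]
  induction t using TensorProduct.induction_on with
  | zero => rw [map_zero, smul_zero, mul_zero]
  | add x y hx hy => rw [map_add, smul_add, mul_add, hx, hy]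
  | tmul c w =>
    rw [LinearMap.baseChange_tmul, Algebra.TensorProduct.tmul_mul_tmul, TensorProduct.smul_tmul', smul_eq_mul, hL]

private theorem C3D_jzs {Γ : Type} [Fintype Γ] (a : Γ → K) (m : Γ → S) :
    C3D_jz (∑ g, a g ⊗ₜ[κ] m g : K ⊗[κ] S) = ∑ g, a g ⊗ₜ[κ] fz κ (m g) := by
  rw [map_sum]
  exact Finset.sum_congr rfl fun g _ => C3D_jz_tmul _ _

private theorem C3D_Ds {Γ : Type} [Fintype Γ] (a : Γ → K) (m : Γ → S) :
    C3D_D (∑ g, a g ⊗ₜ[κ] m g : K ⊗[κ] S) = ∑ g, a g ⊗ₜ[κ] df κ (m g) := by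
  rw [map_sum]
  exact Finset.sum_congr rfl fun g _ => C3D_D_tmul _ _

end gen

section chartz

variable {κ : Type u} [Field κ] [CharZero κ] {n : ℕ} {J : Ideal (MvPolynomial (Fin n) κ)} {K : Type u} [Field K]
  [Algebra κ K] {e : ℕ} {a : Mon n e → K}

/-- The form `F` over `K`. -/
noncomputable def C3D_f (J : Ideal (MvPolynomial (Fin n) κ)) (a : Mon n e → K) : K ⊗[κ] CR J :=
  ∑ g : Mon n e, a g ⊗ₜ[κ] xm J g.1

theorem C3D_MK (hJ : IsHomog J) (a : Mon n e → K) (ν : ℕ) (t : K ⊗[κ] Fm κ (CR J)) :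
    (cxS hJ e ν).MK a t = C3D_jz (C3D_f J a) * t := 
  (C3D_gen a (fun g : Mon n e => fz κ (xm J g.1)) (cxS hJ e ν).mul (fun _ _ => rfl) t).trans
    (congrArg (fun z => z * t) (C3D_jzs a fun g : Mon n e => xm J g.1).symm)

theorem C3D_TK (hJ : IsHomog J) (a : Mon n e → K) (ν : ℕ) (t : K ⊗[κ] Fm κ (CR J)) :
    (cxS hJ e ν).TK a t = C3D_D (C3D_f J a) * t := 
  (C3D_gen a (fun g : Mon n e => df κ (xm J g.1)) (cxS hJ e ν).wd (fun _ _ => rfl) t).trans
    (congrArg (fun z => z * t) (C3D_Ds a fun g : Mon n e => xm J g.1).symm)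

theorem C3D_psi (J : Ideal (MvPolynomial (Fin n) κ)) (a : Mon n e → K) :
    ∃ ψ : Bz J a →+* C3D_Q (C3D_f J a),
      (∀ c : K, ψ (algebraMap K (Bz J a) c) = C3D_b (C3D_f J a) c) ∧
      ∀ l, ψ (cq (cyc (bI (algebraMap κ K) J) (frm a) e) {Fin.last n} (Fin.castSucc l)
        (Finset.mem_singleton_self _) : Bz J a) = C3D_c (C3D_f J a) (xv J l) := by
  let z : Fin (n + 1) → C3D_Q (C3D_f J a) :=
    Fin.lastCases 1 fun l => C3D_c (C3D_f J a) (xv J l)
  have hz1 : z (Fin.last n) = 1 := Fin.lastCases_last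
  have hz2 : ∀ l, z (Fin.castSucc l) = C3D_c (C3D_f J a) (xv J l) := fun l => Fin.lastCases_castSucc l
  have hev : ∀ g : MvPolynomial (Fin n) κ, eval₂ ((C3D_b (C3D_f J a)).comp (algebraMap κ K))
      (z ∘ Fin.castSucc) g = C3D_c (C3D_f J a) (Ideal.Quotient.mk J g) := by
    intro g
    have h1 : eval₂Hom ((C3D_b (C3D_f J a)).comp (algebraMap κ K)) (z ∘ Fin.castSucc) =
        (C3D_c (C3D_f J a)).comp (Ideal.Quotient.mk J) := by
      refine MvPolynomial.ringHom_ext (fun c => ?_) (fun l => ?_)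
      · rw [eval₂Hom_C, RingHom.comp_apply, RingHom.comp_apply]
        exact (C3D_c_base _ c).symm
      · rw [eval₂Hom_X']
        exact hz2 l
    exact congrArg (fun F => F g) h1
  have hI : cyc (bI (algebraMap κ K) J) (frm a) e ≤ RingHom.ker (eval₂Hom (C3D_b (C3D_f J a)) z) := by
    unfold cyc
    refine sup_le ?_ ?_
    · unfold bI
      rw [Ideal.map_map, Ideal.map_le_iff_le_comap]
      intro g hg
      rw [Ideal.mem_comap, RingHom.mem_ker, RingHom.comp_apply]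
      change eval₂ (C3D_b (C3D_f J a)) z (rename Fin.castSucc (MvPolynomial.map (algebraMap κ K) g)) = 0
      rw [eval₂_rename, eval₂_map]
      refine (hev g).trans ?_
      rw [Ideal.Quotient.eq_zero_iff_mem.2 hg, map_zero]
    · rw [Ideal.span_singleton_le_iff_mem, RingHom.mem_ker, map_sub, map_pow, eval₂Hom_X', hz1, one_pow]
      change 1 - eval₂ (C3D_b (C3D_f J a)) z (rename Fin.castSucc (frm a)) = 0
      rw [eval₂_rename]
      have h4 : eval₂ (C3D_b (C3D_f J a)) (z ∘ Fin.castSucc) (frm a) = C3D_mk (C3D_f J a) (C3D_f J a) := by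
        have h6 : C3D_mk (C3D_f J a) (C3D_f J a) = ∑ g : Mon n e, C3D_mk (C3D_f J a) (a g ⊗ₜ[κ] xm J g.1) :=
          map_sum _ _ _
        rw [h6]
        unfold frm
        rw [eval₂_sum]
        refine Finset.sum_congr rfl fun g _ => ?_
        have h5 : C3D_c (C3D_f J a) (xm J g.1) = C3D_c (C3D_f J a) (Ideal.Quotient.mk J (monomial g.1 1)) := rfl
        rw [C3D_tmul, h5, ← hev, eval₂_monomial, eval₂_monomial, map_one, one_mul]
      rw [h4, C3D_mk_self, sub_self]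
  obtain ⟨ρ, h1, h2⟩ := exists_chart_lift (cyc (bI (algebraMap κ K) J) (frm a) e) {Fin.last n}
    (C3D_b (C3D_f J a)) (Finset.mem_singleton_self _) z hz1
    (by
      intro j hj
      rw [Finset.mem_singleton.1 hj, hz1]
      exact isUnit_one)
    (fun f hf => hI hf)
  exact ⟨ρ, h1, fun l => (h2 _).trans (hz2 l)⟩

/-- The kernel. -/
theorem ph_ker (hJ : IsHomog J) (he : 1 ≤ e) (a : Mon n e → K) (ν : ℕ) {t : K ⊗[κ] Fm κ (CR J)}
    (h : phK hJ a t = 0) : ∃ x y : K ⊗[κ] Fm κ (CR J),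
      t = (cxS hJ e ν).MK a x - x + (cxS hJ e ν).TK a y := by
  obtain ⟨ψ, h1, h2⟩ := C3D_psi J a
  have h3 : ∀ s, ψ (phi hJ a s) = C3D_c (C3D_f J a) s := by
    intro s
    have h4 : ψ.comp (phi hJ a) = C3D_c (C3D_f J a) := by
      refine Ideal.Quotient.ringHom_ext (MvPolynomial.ringHom_ext (fun c => ?_) (fun l => ?_))
      · have h5 : Ideal.Quotient.mk J (C c) = algebraMap κ (CR J) c := rfl
        rw [RingHom.comp_apply, RingHom.comp_apply, RingHom.comp_apply, h5, phi_base, h1]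
        exact (C3D_c_base _ c).symm
      · rw [RingHom.comp_apply, RingHom.comp_apply]
        refine (congrArg ψ (phi_xv hJ a l)).trans ?_
        rw [h2]
        rfl
    exact congrArg (fun F => F s) h4
  obtain ⟨x, y, hxy⟩ := C3D_main (C3D_f J a) (phi hJ a) (phi_base hJ a) ψ h1 h3 (phK hJ a) (phK_tmul hJ a) h
  exact ⟨x, y, by rw [C3D_MK, C3D_TK]; exact hxy⟩

end chartz

end MPadcDC
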