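import Pool.Agent.Lib.MP_adc574_ag_DC.C3D

/-!
# JOB C3E (DC): horizontal forms

Operators on `VK := K ⊗[κ] Fm κ (CR J)`: `M := MK a` (multiplication with `F`), `T := TK a` (multiplication with `dF`), `ι := io.baseChange K`. Relations (check on `c ⊗ w`; `ct_df_mul`, `eul` acts on `xm g` by `|g| = e`: `eul (xm g) = e • xm g`, lemma): `ι (T x) + T (ι x) = (e : K) • M x`, `T (T x) = 0`, `M`, `T` commute, `M` and `ι` commute.
`ph_ker`: `t = M x - x + T y`. Apply `T`: `T t = M (T x) - T x`. Apply `ι` and use `ι t = 0` (`hi`): `ι (T t) = e M t - T (ι t) = e M t`, so `e M t = M x' - x'` with `x' := ι (T x)`. Degrees: `exists_deg hJ` gives projections `p i`, `P i := (p i).baseChange K`: `P i t = t` for `i = ν + e k =: j` and `0` otherwise (`t ∈ VK q k = (Om J q j).baseChange K`); `P i (M x) = M (P (i - e) x)` if `e ≤ i`, `P i (M x) = 0` if `i < e`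
(every element of `Fm κ (CR J)` is a finite sum of elements of the `Om J q j'` (needs: `Fm κ (CR J) = ⨆ Om J q j`: from `fm_ind`; lemma), and `fz (xm g) * w ∈ Om J q (j' + e)`). So from `e M t = M x' - x'`: `P i`: for `i ≠ j + e`: `P i x' = M (P (i - e) x')` (or `0` if `i < e`); `i = j + e`: `e M t = M (P j x') - P (j + e) x'`. By induction (going down from `j` in steps of `e`, `e ≥ 1`) `P j x' = 0`:
for all `i ≤ j` (`i ≠ j + e`) `P i x' = 0` by strong induction. So `e M t = - P (j + e) x'`. And `P (j + e + s e) x' = M^s (P (j + e) x')` for all `s ≥ 1`, which is `0` for large `s` (finitely many degrees). So `M^[s + 1] t = 0` (`e ≠ 0` in `K`: `he` and `CharZero κ`).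
-/

set_option autoImplicit false
set_option linter.unusedSectionVars false

namespace MPadcDC

open MvPolynomial TensorProduct MPadcGP MPadcGP2

universe u

section cxabs

variable {κ : Type u} [Field κ] {Γ : Type} [Fintype Γ] {V : Type u} [AddCommGroup V] [Module κ V] {K : Type u} [Field K]
  [Algebra κ K] (G : Cx κ Γ V) (a : Γ → K)

private theorem C3E_TK (c : K) (x : V) : G.TK a (c ⊗ₜ[κ] x) = ∑ γ, a γ • (c ⊗ₜ[κ] G.wd γ x) := by
  unfold Cx.TK
  rw [LinearMap.sum_apply]
  refine Finset.sum_congr rfl fun γ _ => ?_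
  rw [LinearMap.smul_apply, LinearMap.baseChange_tmul]

private theorem C3E_MK (c : K) (x : V) : G.MK a (c ⊗ₜ[κ] x) = ∑ γ, a γ • (c ⊗ₜ[κ] G.mul γ x) := by
  unfold Cx.MK
  rw [LinearMap.sum_apply]
  refine Finset.sum_congr rfl fun γ _ => ?_
  rw [LinearMap.smul_apply, LinearMap.baseChange_tmul]

private theorem C3E_g1 (N : ℕ) (h : ∀ γ w, G.io (G.wd γ w) + G.wd γ (G.io w) = N • G.mul γ w) (x : K ⊗[κ] V) :
    G.io.baseChange K (G.TK a x) + G.TK a (G.io.baseChange K x) = N • G.MK a x := by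
  induction x using TensorProduct.induction_on with
  | zero => simp only [map_zero, add_zero, smul_zero]
  | add x y hx hy =>
    rw [map_add, map_add, map_add, map_add, map_add, smul_add, ← hx, ← hy]
    abel
  | tmul c w =>
    rw [C3E_TK, C3E_MK, LinearMap.baseChange_tmul, C3E_TK]
    simp only [map_sum, map_smul, LinearMap.baseChange_tmul]
    rw [← Finset.sum_add_distrib, Finset.smul_sum]
    refine Finset.sum_congr rfl fun γ _ => ?_
    rw [← smul_add, ← TensorProduct.tmul_add, h, TensorProduct.tmul_smul, smul_comm]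

private theorem C3E_g2 [CharZero K] (h : ∀ γ δ w, G.wd γ (G.wd δ w) = -G.wd δ (G.wd γ w)) (x : K ⊗[κ] V) :
    G.TK a (G.TK a x) = 0 := by
  induction x using TensorProduct.induction_on with
  | zero => rw [map_zero, map_zero]
  | add x y hx hy => rw [map_add, map_add, hx, hy, add_zero]
  | tmul c w =>
    have h1 : G.TK a (G.TK a (c ⊗ₜ w)) = ∑ γ, ∑ δ, (a γ * a δ) • (c ⊗ₜ[κ] (G.wd δ (G.wd γ w))) := by
      rw [C3E_TK, map_sum]
      refine Finset.sum_congr rfl fun γ _ => ?_
      rw [map_smul, C3E_TK, Finset.smul_sum]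
      exact Finset.sum_congr rfl fun δ _ => smul_smul _ _ _
    have h2 : G.TK a (G.TK a (c ⊗ₜ w)) = -G.TK a (G.TK a (c ⊗ₜ w)) := by
      rw [h1]
      conv_lhs => rw [Finset.sum_comm]
      rw [← Finset.sum_neg_distrib]
      refine Finset.sum_congr rfl fun γ _ => ?_
      rw [← Finset.sum_neg_distrib]
      refine Finset.sum_congr rfl fun δ _ => ?_
      rw [h, TensorProduct.tmul_neg, smul_neg, mul_comm (a δ) (a γ)]
    have h3 : (2 : K) • G.TK a (G.TK a (c ⊗ₜ w)) = 0 := by
      rw [two_smul]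
      nth_rewrite 1 [h2]
      rw [neg_add_cancel]
    exact (smul_eq_zero.1 h3).resolve_left two_ne_zero

private theorem C3E_g3 (h : ∀ γ δ w, G.wd γ (G.mul δ w) = G.mul δ (G.wd γ w)) (x : K ⊗[κ] V) :
    G.TK a (G.MK a x) = G.MK a (G.TK a x) := by
  induction x using TensorProduct.induction_on with
  | zero => simp only [map_zero]
  | add x y hx hy => rw [map_add, map_add, map_add, map_add, hx, hy]
  | tmul c w =>
    rw [C3E_MK, C3E_TK, map_sum, map_sum]
    have h1 : ∀ γ, G.TK a (a γ • c ⊗ₜ[κ] G.mul γ w) = ∑ δ, (a γ * a δ) • (c ⊗ₜ[κ] (G.mul γ (G.wd δ w))) := by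
      intro γ
      rw [map_smul, C3E_TK, Finset.smul_sum]
      exact Finset.sum_congr rfl fun δ _ => by rw [smul_smul, h]
    have h2 : ∀ γ, G.MK a (a γ • c ⊗ₜ[κ] G.wd γ w) = ∑ δ, (a γ * a δ) • (c ⊗ₜ[κ] (G.mul δ (G.wd γ w))) := by
      intro γ
      rw [map_smul, C3E_MK, Finset.smul_sum]
      exact Finset.sum_congr rfl fun δ _ => by rw [smul_smul]
    rw [Finset.sum_congr rfl fun γ _ => h1 γ, Finset.sum_congr rfl fun γ _ => h2 γ, Finset.sum_comm]
    exact Finset.sum_congr rfl fun γ _ => Finset.sum_congr rfl fun δ _ => by rw [mul_comm]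

private theorem C3E_g5 (p q : V →ₗ[κ] V) (h : ∀ γ w, p (G.mul γ w) = G.mul γ (q w)) (x : K ⊗[κ] V) :
    p.baseChange K (G.MK a x) = G.MK a (q.baseChange K x) := by
  induction x using TensorProduct.induction_on with
  | zero => simp only [map_zero]
  | add x y hx hy => rw [map_add, map_add, map_add, map_add, hx, hy]
  | tmul c w =>
    rw [C3E_MK, LinearMap.baseChange_tmul, C3E_MK, map_sum]
    exact Finset.sum_congr rfl fun γ _ => by rw [map_smul, LinearMap.baseChange_tmul, h]

private theorem C3E_g6 (p : V →ₗ[κ] V) (h : ∀ γ w, p (G.mul γ w) = 0) (x : K ⊗[κ] V) :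
    p.baseChange K (G.MK a x) = 0 := by
  induction x using TensorProduct.induction_on with
  | zero => rw [map_zero, map_zero]
  | add x y hx hy => rw [map_add, map_add, hx, hy, add_zero]
  | tmul c w =>
    rw [C3E_MK, map_sum]
    exact Finset.sum_eq_zero fun γ _ => by rw [map_smul, LinearMap.baseChange_tmul, h, TensorProduct.tmul_zero, smul_zero]

private theorem C3E_g7 (p : V →ₗ[κ] V) {q k : ℕ} (s : Prop) [Decidable s] (h : ∀ w ∈ G.Vd q k, p w = if s then w else 0)
    {t : K ⊗[κ] V} (ht : t ∈ G.VK K q k) : p.baseChange K t = if s then t else 0 := by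
  unfold Cx.VK at ht
  rw [Submodule.baseChange_eq_span] at ht
  induction ht using Submodule.span_induction with
  | mem t ht =>
    obtain ⟨w, hw, rfl⟩ := ht
    change p.baseChange K (1 ⊗ₜ w) = if s then (1 ⊗ₜ w) else 0
    rw [LinearMap.baseChange_tmul, h w hw]
    split_ifs
    · rfl
    · rw [TensorProduct.tmul_zero]
  | zero => rw [map_zero, ite_self]
  | add x y _ _ hx hy =>
    rw [map_add, hx, hy]
    split_ifs
    · rfl
    · rw [add_zero]
  | smul c x _ hx =>
    rw [map_smul, hx]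
    split_ifs
    · rfl
    · rw [smul_zero]

private theorem C3E_g8 (p : ℕ → V →ₗ[κ] V) (h : ∀ w, ∃ N, ∀ i, N ≤ i → p i w = 0) (x : K ⊗[κ] V) :
    ∃ N, ∀ i, N ≤ i → (p i).baseChange K x = 0 := by
  induction x using TensorProduct.induction_on with
  | zero => exact ⟨0, fun i _ => map_zero _⟩
  | add x y hx hy =>
    obtain ⟨N, hN⟩ := hx
    obtain ⟨N', hN'⟩ := hy
    refine ⟨max N N', fun i hi => ?_⟩
    rw [map_add, hN i (le_trans (le_max_left _ _) hi), hN' i (le_trans (le_max_right _ _) hi), add_zero]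
  | tmul c w =>
    obtain ⟨N, hN⟩ := h w
    refine ⟨N, fun i hi => ?_⟩
    rw [LinearMap.baseChange_tmul, hN i hi, TensorProduct.tmul_zero]

private theorem C3E_hor {E : Type u} [AddCommGroup E] [Module K E] [CharZero K] {e : ℕ} (he : 1 ≤ e) {j : ℕ}
    (M T io : E →ₗ[K] E)
    (P : ℕ → E →ₗ[K] E) (r1 : ∀ x, io (T x) + T (io x) = e • M x) (r2 : ∀ x, T (T x) = 0)
    (r3 : ∀ x, T (M x) = M (T x)) (r4 : ∀ x, io (M x) = M (io x)) {t x y : E} (hxy : t = M x - x + T y)
    (hi : io t = 0) (hPt : ∀ i, P i t = if i = j then t else 0) (hP2 : ∀ i x, P (i + e) (M x) = M (P i x))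
    (hP3 : ∀ i x, i < e → P i (M x) = 0) (hP4 : ∀ x, ∃ N, ∀ i, N ≤ i → P i x = 0) : ∃ N, M^[N] t = 0 := by
  obtain ⟨x', hx'⟩ : ∃ x', x' = io (T x) := ⟨_, rfl⟩
  have h1 : T t = M (T x) - T x := by
    rw [hxy, map_add, map_sub, r3, r2, add_zero]
  have h2 : io (T t) = M x' - x' := by
    rw [h1, map_sub, r4, ← hx']
  have h3 : e • M t = M x' - x' := by
    have h4 := r1 t
    rw [hi, map_zero, add_zero] at h4
    rw [← h4, h2]
  have hlow : ∀ i, i < e → P i x' = 0 := by
    intro i hi'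
    have h4 := congrArg (P i) h3
    rw [map_nsmul, map_sub, hP3 i t hi', hP3 i x' hi', smul_zero, zero_sub] at h4
    exact neg_eq_zero.1 h4.symm
  have hstep : ∀ i, P (i + e) x' = M (P i x') - e • (if i = j then M t else 0) := by
    intro i
    have h4 := congrArg (P (i + e)) h3
    rw [map_nsmul, map_sub, hP2 i t, hP2 i x', hPt i] at h4
    have h5 : M (if i = j then t else 0) = if i = j then M t else 0 := by
      split_ifs
      · rfl
      · exact map_zero _
    rw [h5] at h4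
    rw [h4]
    abel
  have hzero : ∀ i, i ≤ j → P i x' = 0 := by
    intro i
    induction i using Nat.strong_induction_on with
    | _ i ih =>
      intro hij
      rcases Nat.lt_or_ge i e with hlt | hge
      · exact hlow i hlt
      · obtain ⟨i', rfl⟩ := Nat.exists_eq_add_of_le' hge
        rw [hstep i', ih i' (by omega) (by omega), if_neg (by omega), map_zero, smul_zero, sub_zero]
  have hj1 : P (j + e) x' = -(e • M t) := by
    rw [hstep j, hzero j le_rfl, if_pos rfl, map_zero, zero_sub]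
  have hup : ∀ s : ℕ, P (j + e + s * e) x' = M^[s] (P (j + e) x') := by
    intro s
    induction s with
    | zero => rw [Nat.zero_mul, Nat.add_zero, Function.iterate_zero, id]
    | succ s ih =>
      have h4 : j + e + (s + 1) * e = (j + e + s * e) + e := by ring
      have h5 : 0 < e := he
      rw [h4, hstep, if_neg (by
        have : 0 ≤ s * e := Nat.zero_le _
        omega), smul_zero, sub_zero, ih, Function.iterate_succ_apply']
  obtain ⟨N, hN⟩ := hP4 x'
  have h5 : M^[N] (P (j + e) x') = 0 := by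
    rw [← hup N]
    refine hN _ ?_
    have : N ≤ N * e := Nat.le_mul_of_pos_right _ he
    omega
  have hlin : ∀ s : ℕ, ∀ z, M^[s] (-(e • z)) = -(e • M^[s] z) := by
    intro s
    induction s with
    | zero => intro z; rfl
    | succ s ih =>
      intro z
      rw [Function.iterate_succ_apply, Function.iterate_succ_apply, map_neg, map_nsmul, ih]
  rw [hj1, hlin] at h5
  have h6 : e • M^[N] (M t) = 0 := neg_eq_zero.1 h5
  refine ⟨N + 1, ?_⟩
  rw [Function.iterate_succ_apply]
  have h7 : (e : K) • M^[N] (M t) = 0 := by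
    rw [Nat.cast_smul_eq_nsmul]
    exact h6
  exact (smul_eq_zero.1 h7).resolve_left (Nat.cast_ne_zero.2 (by omega))

private theorem C3E_horG [CharZero K] {e : ℕ} (he : 1 ≤ e) {q k : ℕ} (j : ℕ) (p : ℕ → V →ₗ[κ] V)
    (s1 : ∀ γ w, G.io (G.wd γ w) + G.wd γ (G.io w) = e • G.mul γ w)
    (s2 : ∀ γ δ w, G.wd γ (G.wd δ w) = -G.wd δ (G.wd γ w))
    (s3 : ∀ γ δ w, G.wd γ (G.mul δ w) = G.mul δ (G.wd γ w))
    (s4 : ∀ γ w, G.io (G.mul γ w) = G.mul γ (G.io w))
    (p0 : ∀ i, ∀ w ∈ G.Vd q k, p i w = if i = j then w else 0)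
    (p1 : ∀ i γ w, p (i + e) (G.mul γ w) = G.mul γ (p i w)) (p2 : ∀ i, i < e → ∀ γ w, p i (G.mul γ w) = 0)
    (p3 : ∀ w, ∃ N, ∀ i, N ≤ i → p i w = 0) {t x y : K ⊗[κ] V} (hxy : t = G.MK a x - x + G.TK a y)
    (ht : t ∈ G.VK K q k) (hi : G.io.baseChange K t = 0) : ∃ N, (G.MK a)^[N] t = 0 :=
  C3E_hor he (j := j) (G.MK a) (G.TK a) (G.io.baseChange K)
    (fun i => (p i).baseChange K) (C3E_g1 G a e s1) (C3E_g2 G a s2) (C3E_g3 G a s3)
    (C3E_g5 G a G.io G.io s4) hxy hi
    (fun i => C3E_g7 G (p i) (i = j) (p0 i) ht)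
    (fun i x => C3E_g5 G a (p (i + e)) (p i) (p1 i) x)
    (fun i x hie => C3E_g6 G a (p i) (p2 i hie) x)
    (fun x => C3E_g8 p p3 x)

end cxabs

section fms

variable {A R : Type u} [CommRing A] [CommRing R] [Algebra A R]

private theorem C3E_m1 (θ : Derivation A R R) (r : R) {N : ℕ} (h : θ r = N • r) (w : Fm A R) :
    ct A θ (df A r * w) + df A r * ct A θ w = N • (fz A r * w) := by
  rw [ct_df_mul, h, map_nsmul, smul_mul_assoc, sub_add_cancel]

private theorem C3E_m2 (r s : R) (w : Fm A R) : df A r * (df A s * w) = -(df A s * (df A r * w)) := by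
  rw [← mul_assoc, df_swap, neg_mul, mul_assoc]

private theorem C3E_m3 (r s : R) (w : Fm A R) : df A r * (fz A s * w) = fz A s * (df A r * w) := by
  rw [← mul_assoc, ← mul_assoc, fz_comm]

private theorem C3E_m4 (θ : Derivation A R R) (r : R) (w : Fm A R) : ct A θ (fz A r * w) = fz A r * ct A θ w := by
  rw [← fz_smul, map_smul, fz_smul]

private theorem C3E_m5 {E : Type u} [Ring E] (p p' : E →+ E) (r : E) {x y : E} (hx : p (r * x) = r * p' x)
    (hy : p (r * y) = r * p' y) : p (r * (x + y)) = r * p' (x + y) := by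
  rw [mul_add, map_add, map_add, hx, hy, mul_add]

private theorem C3E_m6 {E : Type u} [Ring E] (p : E →+ E) (r : E) {x y : E} (hx : p (r * x) = 0)
    (hy : p (r * y) = 0) : p (r * (x + y)) = 0 := by
  rw [mul_add, map_add, hx, hy, add_zero]

end fms

section chartz

variable {κ : Type u} [Field κ] [CharZero κ] {n : ℕ} {J : Ideal (MvPolynomial (Fin n) κ)} {K : Type u} [Field K]
  [Algebra κ K] {e : ℕ} {a : Mon n e → K}

private theorem C3E_xm_add (g g' : Fin n →₀ ℕ) : xm J (g + g') = xm J g * xm J g' := by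
  unfold xm
  rw [← map_mul, monomial_mul, one_mul]

private theorem C3E_deg (γ : Mon n e) : γ.1.degree = e := by
  have h := (Finset.mem_finsuppAntidiag.1 γ.2).1
  rw [Finsupp.degree_eq_sum]
  exact h

private theorem C3E_xm_zero : xm J (0 : Fin n →₀ ℕ) = 1 := by
  unfold xm
  rw [← map_one (Ideal.Quotient.mk J)]
  rfl

private theorem C3E_eul (hJ : IsHomog J) (g : Fin n →₀ ℕ) : eul hJ (xm J g) = g.degree • xm J g := by
  have hx : ∀ l, eul hJ (xv J l) = xv J l := (exists_eul hJ).choose_spec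
  induction g using Finsupp.induction_linear with
  | zero =>
    rw [C3E_xm_zero, Derivation.map_one_eq_zero, map_zero, zero_smul]
  | add f g hf hg =>
    rw [C3E_xm_add, Derivation.leibniz, hf, hg, map_add, add_smul, smul_eq_mul, smul_eq_mul, mul_smul_comm,
      mul_smul_comm, mul_comm (xm J g) (xm J f), add_comm]
  | single l k =>
    have h1 : xm J (Finsupp.single l k) = xv J l ^ k := by
      unfold xm xv
      rw [← map_pow, X_pow_eq_monomial]
    rw [h1, Derivation.leibniz_pow, hx, Finsupp.degree_single]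
    rcases Nat.eq_zero_or_pos k with h0 | h0
    · rw [h0, zero_smul, zero_smul]
    · rw [smul_eq_mul, ← pow_succ, Nat.sub_add_cancel h0]

private theorem C3E_fz_om {q j : ℕ} (g : Fin n →₀ ℕ) {w : Fm κ (CR J)} (hw : w ∈ Om J q j) :
    fz κ (xm J g) * w ∈ Om J q (j + g.degree) := by
  unfold Om at hw ⊢
  induction hw using Submodule.span_induction with
  | mem w hw =>
    obtain ⟨g', t, h1, rfl⟩ := hw
    refine Submodule.subset_span ⟨g + g', t, ?_, ?_⟩
    · rw [map_add]
      omega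
    · rw [C3E_xm_add, map_mul, mul_assoc]
  | zero =>
    rw [mul_zero]
    exact Submodule.zero_mem _
  | add x y _ _ hx hy =>
    rw [mul_add]
    exact Submodule.add_mem _ hx hy
  | smul c x _ hx =>
    rw [mul_smul_comm]
    exact Submodule.smul_mem _ _ hx

private theorem C3E_df_om {q j : ℕ} (l : Fin n) {w : Fm κ (CR J)} (hw : w ∈ Om J q j) :
    df κ (xv J l) * w ∈ Om J (q + 1) (j + 1) := by
  unfold Om at hw ⊢
  induction hw using Submodule.span_induction with
  | mem w hw =>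
    obtain ⟨g', t, h1, rfl⟩ := hw
    refine Submodule.subset_span ⟨g', Fin.cons l t, ?_, ?_⟩
    · omega
    · have h2 : (fun i => xv J ((Fin.cons l t : Fin (q + 1) → Fin n) i)) =
          (Fin.cons (xv J l) (fun i => xv J (t i)) : Fin (q + 1) → CR J) := by
        funext i
        refine Fin.cases ?_ (fun i => ?_) i
        · rw [Fin.cons_zero, Fin.cons_zero]
        · rw [Fin.cons_succ, Fin.cons_succ]
      rw [h2, wd_cons, ← mul_assoc, ← mul_assoc, fz_comm]
  | zero =>
    rw [mul_zero]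
    exact Submodule.zero_mem _
  | add x y _ _ hx hy =>
    rw [mul_add]
    exact Submodule.add_mem _ hx hy
  | smul c x _ hx =>
    rw [mul_smul_comm]
    exact Submodule.smul_mem _ _ hx

/-- The span of all the homogeneous forms. -/
private noncomputable def C3E_S (J : Ideal (MvPolynomial (Fin n) κ)) : Submodule κ (Fm κ (CR J)) :=
  ⨆ q, ⨆ j, Om J q j

private theorem C3E_mem_S {q j : ℕ} {w : Fm κ (CR J)} (hw : w ∈ Om J q j) : w ∈ C3E_S J :=
  Submodule.mem_iSup_of_mem q (Submodule.mem_iSup_of_mem j hw)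

private theorem C3E_S_ind {P : Fm κ (CR J) → Prop} (h0 : P 0) (h1 : ∀ q j, ∀ w ∈ Om J q j, P w)
    (h2 : ∀ x y, P x → P y → P (x + y)) {w : Fm κ (CR J)} (hw : w ∈ C3E_S J) : P w := by
  unfold C3E_S at hw
  refine Submodule.iSup_induction (fun q => ⨆ j, Om J q j) (motive := P) hw (fun q x hx => ?_) h0 h2
  exact Submodule.iSup_induction (fun j => Om J q j) (motive := P) hx (fun j x hx => h1 q j x hx) h0 h2

private theorem C3E_fz_S (r : CR J) {w : Fm κ (CR J)} (hw : w ∈ C3E_S J) : fz κ r * w ∈ C3E_S J := by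
  obtain ⟨p, rfl⟩ := Ideal.Quotient.mk_surjective r
  induction p using MvPolynomial.induction_on' with
  | monomial g c =>
    have h1 : fz κ (Ideal.Quotient.mk J (monomial g c)) * w = c • (fz κ (xm J g) * w) := by
      have h2 : (Ideal.Quotient.mk J (monomial g c) : CR J) = c • xm J g := by
        unfold xm
        have h3 : (monomial g c : MvPolynomial (Fin n) κ) = c • monomial g 1 := by
          rw [smul_monomial, smul_eq_mul, mul_one]
        rw [h3]
        rfl
      rw [h2]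
      have h4 : fz κ (c • xm J g) = c • fz κ (xm J g) := by
        unfold fz
        rw [Algebra.algebraMap_eq_smul_one, smul_assoc, ← Algebra.algebraMap_eq_smul_one]
      rw [h4, smul_mul_assoc]
    rw [h1]
    refine Submodule.smul_mem _ _ ?_
    refine C3E_S_ind (P := fun w => fz κ (xm J g) * w ∈ C3E_S J) ?_ ?_ ?_ hw
    · rw [mul_zero]
      exact Submodule.zero_mem _
    · intro q j x hx
      exact C3E_mem_S (C3E_fz_om g hx)
    · intro x y hx hy
      rw [mul_add]
      exact Submodule.add_mem _ hx hy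
  | add p q hp hq =>
    rw [map_add, map_add, add_mul]
    exact Submodule.add_mem _ hp hq

private theorem C3E_df_S (r : CR J) {w : Fm κ (CR J)} (hw : w ∈ C3E_S J) : df κ r * w ∈ C3E_S J := by
  obtain ⟨p, rfl⟩ := Ideal.Quotient.mk_surjective r
  induction p using MvPolynomial.induction_on with
  | C c =>
    have h1 : (Ideal.Quotient.mk J (C c) : CR J) = algebraMap κ (CR J) c := rfl
    rw [h1, df_base, zero_mul]
    exact Submodule.zero_mem _
  | add p q hp hq =>
    rw [map_add, df_add, add_mul]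
    exact Submodule.add_mem _ hp hq
  | mul_X p l hp =>
    have hl : df κ (xv J l) * w ∈ C3E_S J := by
      refine C3E_S_ind (P := fun w => df κ (xv J l) * w ∈ C3E_S J) ?_ ?_ ?_ hw
      · rw [mul_zero]
        exact Submodule.zero_mem _
      · intro q j x hx
        exact C3E_mem_S (C3E_df_om l hx)
      · intro x y hx hy
        rw [mul_add]
        exact Submodule.add_mem _ hx hy
    rw [map_mul, df_mul, add_mul, mul_assoc, mul_assoc]
    exact Submodule.add_mem _ (C3E_fz_S _ hl) (C3E_fz_S _ hp)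

private theorem C3E_top (w : Fm κ (CR J)) : w ∈ C3E_S J := by
  have h1 : ∀ v ∈ C3E_S J, w * v ∈ C3E_S J := by
    induction w using fm_ind with
    | h1 r => exact fun v hv => C3E_fz_S r hv
    | h2 t => exact fun v hv => C3E_df_S t hv
    | h3 a b ha hb =>
      intro v hv
      rw [mul_assoc]
      exact ha _ (hb _ hv)
    | h4 a b ha hb =>
      intro v hv
      rw [add_mul]
      exact Submodule.add_mem _ (ha _ hv) (hb _ hv)
  have h2 : (1 : Fm κ (CR J)) ∈ C3E_S J := by
    refine C3E_mem_S (q := 0) (j := 0) (Submodule.subset_span ⟨0, Fin.elim0, ?_, ?_⟩)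
    · rw [map_zero]
    · rw [C3E_xm_zero, map_one, wd_zero, one_mul]
  have h3 := h1 1 h2
  rwa [mul_one] at h3

private theorem C3E_wt (hJ : IsHomog J) (γ : Mon n e) : eul hJ (xm J γ.1) = e • xm J γ.1 :=
  (C3E_eul hJ γ.1).trans (congrArg (fun d : ℕ => d • xm J γ.1) (C3E_deg γ))

private theorem C3E_om (γ : Mon n e) {q j : ℕ} {w : Fm κ (CR J)} (hw : w ∈ Om J q j) :
    fz κ (xm J γ.1) * w ∈ Om J q (j + e) := by
  have h2 := C3E_fz_om γ.1 hw
  rwa [C3E_deg] at h2

private theorem C3E_p1 {p : ℕ → (Fm κ (CR J) →ₗ[κ] Fm κ (CR J))}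
    (hp : ∀ q i j, ∀ w ∈ Om J q j, p i w = if i = j then w else 0) (i : ℕ) (γ : Mon n e) (w : Fm κ (CR J)) :
    p (i + e) (fz κ (xm J γ.1) * w) = fz κ (xm J γ.1) * p i w := by
  refine C3E_S_ind (P := fun w => p (i + e) (fz κ (xm J γ.1) * w) = fz κ (xm J γ.1) * p i w) ?_ ?_ ?_ (C3E_top w)
  · rw [mul_zero, map_zero, map_zero, mul_zero]
  · intro q j w hw
    rw [hp q (i + e) (j + e) _ (C3E_om γ hw), hp q i j _ hw]
    by_cases h : i = j
    · rw [if_pos h, if_pos (by omega)]
    · rw [if_neg h, if_neg (by omega), mul_zero]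
  · intro x y hx hy
    exact @C3E_m5 (Fm κ (CR J)) _ (p (i + e)).toAddMonoidHom (p i).toAddMonoidHom (fz κ (xm J γ.1)) x y hx hy

private theorem C3E_p2 {p : ℕ → (Fm κ (CR J) →ₗ[κ] Fm κ (CR J))}
    (hp : ∀ q i j, ∀ w ∈ Om J q j, p i w = if i = j then w else 0) {i : ℕ} (hi : i < e) (γ : Mon n e) (w : Fm κ (CR J)) :
    p i (fz κ (xm J γ.1) * w) = 0 := by
  refine C3E_S_ind (P := fun w => p i (fz κ (xm J γ.1) * w) = 0) ?_ ?_ ?_ (C3E_top w)
  · rw [mul_zero, map_zero]
  · intro q j w hw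
    rw [hp q i (j + e) _ (C3E_om γ hw), if_neg (by omega)]
  · intro x y hx hy
    exact @C3E_m6 (Fm κ (CR J)) _ (p i).toAddMonoidHom (fz κ (xm J γ.1)) x y hx hy

private theorem C3E_p3 {p : ℕ → (Fm κ (CR J) →ₗ[κ] Fm κ (CR J))}
    (hp : ∀ q i j, ∀ w ∈ Om J q j, p i w = if i = j then w else 0) (w : Fm κ (CR J)) : ∃ N, ∀ i, N ≤ i → p i w = 0 := by
  refine C3E_S_ind (P := fun w => ∃ N, ∀ i, N ≤ i → p i w = 0) ?_ ?_ ?_ (C3E_top w)
  · exact ⟨0, fun i _ => map_zero _⟩
  · intro q j w hw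
    refine ⟨j + 1, fun i hi => ?_⟩
    rw [hp q i j _ hw, if_neg (by omega)]
  · rintro x y ⟨N, hN⟩ ⟨N', hN'⟩
    refine ⟨max N N', fun i hi => ?_⟩
    rw [map_add, hN i (le_trans (le_max_left _ _) hi), hN' i (le_trans (le_max_right _ _) hi), add_zero]

theorem ph_horiz (hJ : IsHomog J) (he : 1 ≤ e) (a : Mon n e → K) {ν q k : ℕ} {t : K ⊗[κ] Fm κ (CR J)}
    (ht : t ∈ (cxS hJ e ν).VK K q k) (hi : (cxS hJ e ν).io.baseChange K t = 0) (h : phK hJ a t = 0) :
    ∃ N, ((cxS hJ e ν).MK a)^[N] t = 0 := by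
  have hK : CharZero K := charZero_of_injective_algebraMap (algebraMap κ K).injective
  have hk := ph_ker hJ he a ν h
  obtain ⟨x, y, hxy⟩ := hk
  have hd := exists_deg hJ
  obtain ⟨p, hp, -⟩ := hd
  have s1 : ∀ γ w, (cxS hJ e ν).io ((cxS hJ e ν).wd γ w) + (cxS hJ e ν).wd γ ((cxS hJ e ν).io w) =
      e • (cxS hJ e ν).mul γ w := fun γ w => C3E_m1 (eul hJ) (xm J γ.1) (C3E_wt hJ γ) w
  have s2 : ∀ γ δ w, (cxS hJ e ν).wd γ ((cxS hJ e ν).wd δ w) = -(cxS hJ e ν).wd δ ((cxS hJ e ν).wd γ w) :=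
    fun γ δ w => C3E_m2 (xm J γ.1) (xm J δ.1) w
  have s3 : ∀ γ δ w, (cxS hJ e ν).wd γ ((cxS hJ e ν).mul δ w) = (cxS hJ e ν).mul δ ((cxS hJ e ν).wd γ w) :=
    fun γ δ w => C3E_m3 (xm J γ.1) (xm J δ.1) w
  have s4 : ∀ γ w, (cxS hJ e ν).io ((cxS hJ e ν).mul γ w) = (cxS hJ e ν).mul γ ((cxS hJ e ν).io w) :=
    fun γ w => C3E_m4 (eul hJ) (xm J γ.1) w
  exact @C3E_horG κ _ (Mon n e) _ (Fm κ (CR J)) _ _ K _ _ (cxS hJ e ν) a hK e he q k (ν + e * k) p s1 s2 s3 s4
    (fun i w hw => hp q i (ν + e * k) w hw) (fun i γ w => C3E_p1 hp i γ w) (fun i hie γ w => C3E_p2 hp hie γ w)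
    (fun w => C3E_p3 hp w) t x y hxy ht hi

end chartz

end MPadcDC
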