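import Pool.Agent.Lib.MP_adc574_ag_DC.C3E
import Pool.Agent.Lib.MP_adc574_ag_DC.C3C

/-!
# JOB C3F (DC): closed forms on the chart z

Write `M = MK a`, `T = TK a`, `ι = io.baseChange K`, `d = d.baseChange K` (operators on `VK = K ⊗ Fm κ (CR J)`), `φ = phK`. Relations over `K` (from `hOk`: check on `c ⊗ w`): `ι T + T ι = e M`, `d T + T d = 0`, `d (M x) = M (d x) + T x`, `T T = 0`, `M T = T M`, `M ι = ι M` (from `ct` linear), `d d = 0`, `ι ι = 0` (`ct ct = 0`), on `VK q k`: `ι d + d ι = e (θ + k) = (ν + e k : K)` (`cartan`).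
`η ∈ ZB`: `η ∈ Fd q`, `dd η = 0`, weight `ν`. `ph_surj`: `t₁ ∈ VK q k`, `φ t₁ = η`. `t₂ := M t₁ - e⁻¹ T (ι t₁) ∈ VK q (k + 1)`: `ι t₂ = M ι t₁ - e⁻¹ (e M ι t₁ - T ι ι t₁) = 0`, `φ t₂ = φ t₁ = η` (`phK_MK`, `phK_TK`). (For `q = 0`: `ι t₁ = 0`, everything is fine: `io` of a function is `0`.) `t₃ := M (d t₂) - e⁻¹ T (ι (d t₂)) ∈ VK (q + 1) (k + 2)`: `ι t₃ = 0` (same computation), `φ t₃ = φ (d t₂) = dd η = 0`
(`phK_d`). `ph_horiz`: `M^[N] t₃ = 0`. With `j := e (θ + (k + 1)) = ν + e (k + 1)`: `ι (d t₂) = j t₂ - d (ι t₂) = j t₂`, so `M^[N] (M (d t₂) - (j / e) T t₂) = 0`. `ω := M^[N + 1] t₂ ∈ VK q (k + N + 2)`: `d ω = M^[N + 1] (d t₂) + (N + 1) T (M^[N] t₂)` (from `d M = M d + T`, `M T = T M`) `= T (M^[N] ((j / e + N + 1) t₂))`. So `T (d ω) = 0`, `d (d ω) = 0`, `ι (d ω) = (e (θ + (k + N + 2))) ω - d (ι ω) = j' ω`,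
`j' = ν + e (k + N + 2) ≠ 0` in `K` (`CharZero`), `ι ω = M^[N + 1] (ι t₂) = 0`. `t := j'⁻¹ • d ω ∈ VK (q + 1) (k + N + 2)`: `d t = 0`, `T t = 0`, `φ (ι t) = φ ω = φ t₂ = η` (`phK_MK` iterated).
-/

set_option autoImplicit false
set_option linter.unusedSectionVars false

namespace MPadcDC

open MvPolynomial TensorProduct MPadcGP MPadcGP2

universe u v w

section absc

variable {K : Type u} [Field K] {E : Type v} [AddCommGroup E] [Module K E] {U : Type w} [AddCommGroup U]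
  [Module K U]

/-- The abstract version. -/
theorem c3f_abs (M T i d : E →ₗ[K] E) (φ : E →ₗ[K] U) (D : U → U) (V : ℕ → ℕ → Submodule K E) (ε : K) (hε : ε ≠ 0)
    (c : ℕ → K) (hc : ∀ k, c k ≠ 0)
    (r1 : ∀ x, i (T x) + T (i x) = ε • M x) (r2 : ∀ x, d (M x) = M (d x) + T x)
    (r4 : ∀ x, T (T x) = 0) (r5 : ∀ x, M (T x) = T (M x)) (r6 : ∀ x, i (M x) = M (i x))
    (r7 : ∀ x, d (d x) = 0) (r8 : ∀ x, i (i x) = 0)
    (r9 : ∀ q k, ∀ x ∈ V q k, i (d x) + d (i x) = c k • x)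
    (m1 : ∀ q k, ∀ x ∈ V q k, M x ∈ V q (k + 1)) (m2 : ∀ q k, ∀ x ∈ V q k, T x ∈ V (q + 1) (k + 1))
    (m3 : ∀ q k, ∀ x ∈ V (q + 1) k, i x ∈ V q k) (m4 : ∀ q k, ∀ x ∈ V q k, d x ∈ V (q + 1) k)
    (f1 : ∀ x, φ (M x) = φ x) (f2 : ∀ x, φ (T x) = 0) (f3 : ∀ x, φ (d x) = D (φ x))
    (hor : ∀ q k, ∀ x ∈ V q k, i x = 0 → φ x = 0 → ∃ N, M^[N] x = 0)
    {q k : ℕ} {t₁ : E} (ht : t₁ ∈ V q k) (hD : D (φ t₁) = 0) :
    ∃ k', ∃ t ∈ V (q + 1) k', d t = 0 ∧ T t = 0 ∧ φ (i t) = φ t₁ := by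
  -- the horizontal projection
  have hh : ∀ x, ε⁻¹ • i (T x) = M x - ε⁻¹ • T (i x) := by
    intro x
    rw [eq_sub_iff_add_eq, ← smul_add, r1, smul_smul, inv_mul_cancel₀ hε, one_smul]
  have hhi : ∀ x, i (ε⁻¹ • i (T x)) = 0 := by
    intro x
    rw [map_smul, r8, smul_zero]
  have hhφ : ∀ x, φ (ε⁻¹ • i (T x)) = φ x := by
    intro x
    rw [hh, map_sub, map_smul, f1, f2, smul_zero, sub_zero]
  have hhm : ∀ q k, ∀ x ∈ V q k, ε⁻¹ • i (T x) ∈ V q (k + 1) := by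
    intro q k x hx
    exact Submodule.smul_mem _ _ (m3 _ _ _ (m2 _ _ _ hx))
  -- iterates
  have iφ : ∀ n x, φ (M^[n] x) = φ x := by
    intro n
    induction n with
    | zero => exact fun x => rfl
    | succ n ih =>
      intro x
      rw [Function.iterate_succ_apply', f1, ih]
  have im : ∀ n q k, ∀ x ∈ V q k, M^[n] x ∈ V q (k + n) := by
    intro n
    induction n with
    | zero => exact fun q k x hx => hx
    | succ n ih =>
      intro q k x hx
      rw [Function.iterate_succ_apply']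
      exact m1 _ _ _ (ih q k x hx)
  have iT : ∀ n x, M^[n] (T x) = T (M^[n] x) := by
    intro n
    induction n with
    | zero => exact fun x => rfl
    | succ n ih =>
      intro x
      rw [Function.iterate_succ_apply', Function.iterate_succ_apply', ih, r5]
  have ii : ∀ n x, i (M^[n] x) = M^[n] (i x) := by
    intro n
    induction n with
    | zero => exact fun x => rfl
    | succ n ih =>
      intro x
      rw [Function.iterate_succ_apply', Function.iterate_succ_apply', r6, ih]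
  have iadd : ∀ n x y, M^[n] (x + y) = M^[n] x + M^[n] y := by
    intro n
    induction n with
    | zero => exact fun x y => rfl
    | succ n ih =>
      intro x y
      rw [Function.iterate_succ_apply', Function.iterate_succ_apply', Function.iterate_succ_apply', ih, map_add]
  have ismul : ∀ n (r : K) x, M^[n] (r • x) = r • M^[n] x := by
    intro n
    induction n with
    | zero => exact fun r x => rfl
    | succ n ih =>
      intro r x
      rw [Function.iterate_succ_apply', Function.iterate_succ_apply', ih, map_smul]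
  have id' : ∀ (n : ℕ) x, d (M^[n + 1] x) = M^[n + 1] (d x) + ((n : K) + 1) • T (M^[n] x) := by
    intro n
    induction n with
    | zero =>
      intro x
      rw [Function.iterate_succ_apply', Function.iterate_zero_apply, Function.iterate_succ_apply',
        Function.iterate_zero_apply, r2, Nat.cast_zero, zero_add, one_smul]
    | succ n ih =>
      intro x
      rw [Function.iterate_succ_apply' M (n + 1), r2, ih, map_add, map_smul, r5,
        ← Function.iterate_succ_apply' M n, ← Function.iterate_succ_apply' M (n + 1), add_assoc, Nat.cast_add,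
        Nat.cast_one, add_smul ((n : K) + 1), one_smul]
  obtain ⟨t₂, h2m, h2i, h2φ⟩ : ∃ t₂ ∈ V q (k + 1), i t₂ = 0 ∧ φ t₂ = φ t₁ :=
    ⟨_, hhm q k t₁ ht, hhi t₁, hhφ t₁⟩
  obtain ⟨N, hN⟩ := hor (q + 1) (k + 1 + 1) (ε⁻¹ • i (T (d t₂))) (hhm _ _ _ (m4 _ _ _ h2m)) (hhi _)
    (by rw [hhφ, f3, h2φ, hD])
  have hid : i (d t₂) = c (k + 1) • t₂ := by
    have h1 := r9 q (k + 1) t₂ h2m
    rw [h2i, map_zero, add_zero] at h1
    exact h1
  rw [hh, hid] at hN
  have hN2 : M^[N + 1] (d t₂) = (ε⁻¹ * c (k + 1)) • T (M^[N] t₂) := by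
    have h1 : M (d t₂) = (M (d t₂) - ε⁻¹ • T (c (k + 1) • t₂)) + (ε⁻¹ * c (k + 1)) • T t₂ := by
      rw [map_smul, smul_smul, sub_add_cancel]
    rw [Function.iterate_succ_apply, h1, iadd, hN, zero_add, ismul, iT]
  have hdω : d (M^[N + 1] t₂) = (ε⁻¹ * c (k + 1) + ((N : K) + 1)) • T (M^[N] t₂) := by
    rw [id', hN2, ← add_smul]
  have hωm : M^[N + 1] t₂ ∈ V q (k + 1 + (N + 1)) := im _ _ _ _ h2m
  have hωi : i (M^[N + 1] t₂) = 0 := by
    rw [ii, h2i]
    have h1 := ismul (N + 1) 0 0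
    rw [zero_smul, zero_smul] at h1
    exact h1
  have hωd : i (d (M^[N + 1] t₂)) = c (k + 1 + (N + 1)) • M^[N + 1] t₂ := by
    have h1 := r9 q _ _ hωm
    rw [hωi, map_zero, add_zero] at h1
    exact h1
  refine ⟨k + 1 + (N + 1), (c (k + 1 + (N + 1)))⁻¹ • d (M^[N + 1] t₂), Submodule.smul_mem _ _ (m4 _ _ _ hωm),
    ?_, ?_, ?_⟩
  · rw [map_smul, r7, smul_zero]
  · rw [map_smul, hdω, map_smul, r4, smul_zero, smul_zero]
  · rw [map_smul, hωd, smul_smul, inv_mul_cancel₀ (hc _), one_smul, iφ, h2φ]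

end absc

section ext

variable {κ : Type u} [Field κ] {Γ : Type} [Fintype Γ] {V : Type u} [AddCommGroup V] [Module κ V]
  {K : Type u} [Field K] [Algebra κ K] (G : Cx κ Γ V) (a : Γ → K)

theorem c3f_TK_tmul (c : K) (x : V) : G.TK a (c ⊗ₜ[κ] x) = ∑ γ, a γ • (c ⊗ₜ[κ] G.wd γ x) := by
  unfold Cx.TK
  rw [LinearMap.sum_apply]
  refine Finset.sum_congr rfl fun γ _ => ?_
  rw [LinearMap.smul_apply, LinearMap.baseChange_tmul]

theorem c3f_MK_tmul (c : K) (x : V) : G.MK a (c ⊗ₜ[κ] x) = ∑ γ, a γ • (c ⊗ₜ[κ] G.mul γ x) := by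
  unfold Cx.MK
  rw [LinearMap.sum_apply]
  refine Finset.sum_congr rfl fun γ _ => ?_
  rw [LinearMap.smul_apply, LinearMap.baseChange_tmul]

/-- Two additive maps which agree on the pure tensors agree. -/
theorem c3f_ext {f g : K ⊗[κ] V → K ⊗[κ] V} (hf : ∀ x y, f (x + y) = f x + f y) (hg : ∀ x y, g (x + y) = g x + g y)
    (h : ∀ c x, f (c ⊗ₜ[κ] x) = g (c ⊗ₜ[κ] x)) (t : K ⊗[κ] V) : f t = g t := by
  induction t using TensorProduct.induction_on with
  | zero =>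
    have h1 := h 0 0
    rw [TensorProduct.zero_tmul] at h1
    exact h1
  | tmul c x => exact h c x
  | add x y hx hy => rw [hf, hg, hx, hy]

theorem c3f_r1 (hG : G.Ok) (t : K ⊗[κ] V) :
    G.io.baseChange K (G.TK a t) + G.TK a (G.io.baseChange K t) = algebraMap κ K G.e • G.MK a t := by
  refine c3f_ext (f := fun t => G.io.baseChange K (G.TK a t) + G.TK a (G.io.baseChange K t))
    (g := fun t => algebraMap κ K G.e • G.MK a t) ?_ ?_ ?_ t
  · intro x y
    simp only [map_add]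
    abel
  · intro x y
    simp only [map_add, smul_add]
  · intro c x
    change G.io.baseChange K (G.TK a (c ⊗ₜ[κ] x)) + G.TK a (G.io.baseChange K (c ⊗ₜ[κ] x)) =
      algebraMap κ K G.e • G.MK a (c ⊗ₜ[κ] x)
    rw [c3f_TK_tmul, LinearMap.baseChange_tmul, c3f_TK_tmul, c3f_MK_tmul, map_sum, Finset.smul_sum,
      ← Finset.sum_add_distrib]
    refine Finset.sum_congr rfl fun γ _ => ?_
    rw [map_smul, LinearMap.baseChange_tmul, ← smul_add, ← TensorProduct.tmul_add, hG.io_wd,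
      TensorProduct.tmul_smul, ← algebraMap_smul K G.e (c ⊗ₜ[κ] G.mul γ x), smul_comm]

theorem c3f_r2 (hG : G.Ok) (t : K ⊗[κ] V) :
    G.d.baseChange K (G.MK a t) = G.MK a (G.d.baseChange K t) + G.TK a t := by
  refine c3f_ext (f := fun t => G.d.baseChange K (G.MK a t))
    (g := fun t => G.MK a (G.d.baseChange K t) + G.TK a t) ?_ ?_ ?_ t
  · intro x y
    simp only [map_add]
  · intro x y
    simp only [map_add]
    abel
  · intro c x
    change G.d.baseChange K (G.MK a (c ⊗ₜ[κ] x)) = G.MK a (G.d.baseChange K (c ⊗ₜ[κ] x)) + G.TK a (c ⊗ₜ[κ] x)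
    rw [c3f_TK_tmul, LinearMap.baseChange_tmul, c3f_MK_tmul, c3f_MK_tmul, map_sum, ← Finset.sum_add_distrib]
    refine Finset.sum_congr rfl fun γ _ => ?_
    rw [map_smul, LinearMap.baseChange_tmul, ← smul_add, ← TensorProduct.tmul_add, hG.d_mul]

theorem c3f_r4 [CharZero κ] (hG : G.Ok) (t : K ⊗[κ] V) : G.TK a (G.TK a t) = 0 := by
  have h0 : G.TK a (G.TK a t) = -G.TK a (G.TK a t) := by
    refine c3f_ext (f := fun t => G.TK a (G.TK a t)) (g := fun t => -G.TK a (G.TK a t)) ?_ ?_ ?_ t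
    · intro x y
      simp only [map_add]
    · intro x y
      simp only [map_add, neg_add]
    · intro c x
      change G.TK a (G.TK a (c ⊗ₜ[κ] x)) = -G.TK a (G.TK a (c ⊗ₜ[κ] x))
      have h1 : G.TK a (G.TK a (c ⊗ₜ[κ] x)) =
          ∑ γ, ∑ γ', a γ • a γ' • (c ⊗ₜ[κ] G.wd γ' (G.wd γ x)) := by
        rw [c3f_TK_tmul, map_sum]
        refine Finset.sum_congr rfl fun γ _ => ?_
        rw [map_smul, c3f_TK_tmul, Finset.smul_sum]
      have h2 : G.TK a (G.TK a (c ⊗ₜ[κ] x)) =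
          -∑ γ, ∑ γ', a γ' • a γ • (c ⊗ₜ[κ] G.wd γ (G.wd γ' x)) := by
        rw [h1, ← Finset.sum_neg_distrib]
        refine Finset.sum_congr rfl fun γ _ => ?_
        rw [← Finset.sum_neg_distrib]
        refine Finset.sum_congr rfl fun γ' _ => ?_
        rw [hG.wd_wd γ' γ, TensorProduct.tmul_neg, smul_neg, smul_neg, smul_comm]
      rw [Finset.sum_comm] at h2
      rw [← h1] at h2
      exact h2
  have : CharZero K := charZero_of_injective_algebraMap (algebraMap κ K).injective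
  have h3 : (2 : K) • G.TK a (G.TK a t) = 0 := by
    rw [two_smul]
    nth_rewrite 1 [h0]
    rw [neg_add_cancel]
  exact (smul_eq_zero.1 h3).resolve_left two_ne_zero

theorem c3f_r5 (hG : G.Ok) (t : K ⊗[κ] V) : G.MK a (G.TK a t) = G.TK a (G.MK a t) := by
  refine c3f_ext (f := fun t => G.MK a (G.TK a t)) (g := fun t => G.TK a (G.MK a t)) ?_ ?_ ?_ t
  · intro x y
    simp only [map_add]
  · intro x y
    simp only [map_add]
  · intro c x
    change G.MK a (G.TK a (c ⊗ₜ[κ] x)) = G.TK a (G.MK a (c ⊗ₜ[κ] x))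
    have h1 : G.MK a (G.TK a (c ⊗ₜ[κ] x)) =
        ∑ γ, ∑ γ', a γ • a γ' • (c ⊗ₜ[κ] G.mul γ' (G.wd γ x)) := by
      rw [c3f_TK_tmul, map_sum]
      refine Finset.sum_congr rfl fun γ _ => ?_
      rw [map_smul, c3f_MK_tmul, Finset.smul_sum]
    have h2 : G.TK a (G.MK a (c ⊗ₜ[κ] x)) =
        ∑ γ, ∑ γ', a γ • a γ' • (c ⊗ₜ[κ] G.wd γ' (G.mul γ x)) := by
      rw [c3f_MK_tmul, map_sum]
      refine Finset.sum_congr rfl fun γ _ => ?_
      rw [map_smul, c3f_TK_tmul, Finset.smul_sum]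
    rw [h1, h2, Finset.sum_comm]
    refine Finset.sum_congr rfl fun γ _ => ?_
    refine Finset.sum_congr rfl fun γ' _ => ?_
    rw [hG.mul_wd, smul_comm]

theorem c3f_r6 (hm : ∀ γ x, G.io (G.mul γ x) = G.mul γ (G.io x)) (t : K ⊗[κ] V) :
    G.io.baseChange K (G.MK a t) = G.MK a (G.io.baseChange K t) := by
  refine c3f_ext (f := fun t => G.io.baseChange K (G.MK a t)) (g := fun t => G.MK a (G.io.baseChange K t))
    ?_ ?_ ?_ t
  · intro x y
    simp only [map_add]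
  · intro x y
    simp only [map_add]
  · intro c x
    change G.io.baseChange K (G.MK a (c ⊗ₜ[κ] x)) = G.MK a (G.io.baseChange K (c ⊗ₜ[κ] x))
    rw [LinearMap.baseChange_tmul, c3f_MK_tmul, c3f_MK_tmul, map_sum]
    refine Finset.sum_congr rfl fun γ _ => ?_
    rw [map_smul, LinearMap.baseChange_tmul, hm]

theorem c3f_sq (f : V →ₗ[κ] V) (hf : ∀ x, f (f x) = 0) (t : K ⊗[κ] V) :
    f.baseChange K (f.baseChange K t) = 0 := by
  refine c3f_ext (f := fun t => f.baseChange K (f.baseChange K t)) (g := fun _ => 0) ?_ ?_ ?_ t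
  · intro x y
    simp only [map_add]
  · intro x y
    rw [add_zero]
  · intro c x
    change f.baseChange K (f.baseChange K (c ⊗ₜ[κ] x)) = 0
    rw [LinearMap.baseChange_tmul, LinearMap.baseChange_tmul, hf, TensorProduct.tmul_zero]

theorem c3f_r9 (hG : G.Ok) (q k : ℕ) (t : K ⊗[κ] V) (ht : t ∈ G.VK K q k) :
    G.io.baseChange K (G.d.baseChange K t) + G.d.baseChange K (G.io.baseChange K t) =
      algebraMap κ K (G.e * (G.θ + k)) • t := by
  unfold Cx.VK at ht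
  rw [Submodule.baseChange_eq_span] at ht
  induction ht using Submodule.span_induction with
  | mem x hx =>
    obtain ⟨w, hw, rfl⟩ := hx
    change G.io.baseChange K (G.d.baseChange K ((1 : K) ⊗ₜ[κ] w)) +
      G.d.baseChange K (G.io.baseChange K ((1 : K) ⊗ₜ[κ] w)) = algebraMap κ K (G.e * (G.θ + k)) • ((1 : K) ⊗ₜ[κ] w)
    rw [LinearMap.baseChange_tmul, LinearMap.baseChange_tmul, LinearMap.baseChange_tmul, LinearMap.baseChange_tmul,
      ← TensorProduct.tmul_add, hG.cartan q k w hw, TensorProduct.tmul_smul, algebraMap_smul]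
  | zero => simp only [map_zero, smul_zero, add_zero]
  | add x y _ _ hx hy =>
    simp only [map_add, smul_add]
    rw [← hx, ← hy]
    abel
  | smul c x _ hx =>
    simp only [map_smul]
    rw [← smul_add, hx, smul_comm]

theorem c3f_mem {q k q' k' : ℕ} (f : K ⊗[κ] V →ₗ[K] K ⊗[κ] V)
    (hf : ∀ x ∈ G.Vd q k, f ((1 : K) ⊗ₜ[κ] x) ∈ G.VK K q' k') (t : K ⊗[κ] V) (ht : t ∈ G.VK K q k) :
    f t ∈ G.VK K q' k' := by
  unfold Cx.VK at ht
  rw [Submodule.baseChange_eq_span] at ht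
  induction ht using Submodule.span_induction with
  | mem x hx =>
    obtain ⟨w, hw, rfl⟩ := hx
    exact hf w hw
  | zero =>
    rw [map_zero]
    exact Submodule.zero_mem _
  | add x y _ _ hx hy =>
    rw [map_add]
    exact Submodule.add_mem _ hx hy
  | smul c x _ hx =>
    rw [map_smul]
    exact Submodule.smul_mem _ c hx

/-- The abstract version for a complex. -/
theorem c3f_cx [CharZero κ] {U : Type w} [AddCommGroup U] [Module K U] (hG : G.Ok)
    (hm : ∀ γ x, G.io (G.mul γ x) = G.mul γ (G.io x)) (hi : ∀ x, G.io (G.io x) = 0)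
    (hc : ∀ k : ℕ, G.e * (G.θ + k) ≠ 0) (m1 : ∀ q k, ∀ x ∈ G.VK K q k, G.MK a x ∈ G.VK K q (k + 1))
    (φ : K ⊗[κ] V →ₗ[K] U) (D : U → U) (f1 : ∀ x, φ (G.MK a x) = φ x) (f2 : ∀ x, φ (G.TK a x) = 0)
    (f3 : ∀ x, φ (G.d.baseChange K x) = D (φ x))
    (hor : ∀ q k, ∀ x ∈ G.VK K q k, G.io.baseChange K x = 0 → φ x = 0 → ∃ N, (G.MK a)^[N] x = 0)
    {q k : ℕ} {t₁ : K ⊗[κ] V} (ht : t₁ ∈ G.VK K q k) (hD : D (φ t₁) = 0) :
    ∃ k', ∃ t ∈ G.VK K (q + 1) k', G.d.baseChange K t = 0 ∧ G.TK a t = 0 ∧ φ (G.io.baseChange K t) = φ t₁ := by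
  have hj : Function.Injective (algebraMap κ K) := (algebraMap κ K).injective
  refine c3f_abs (G.MK a) (G.TK a) (G.io.baseChange K) (G.d.baseChange K) φ D (G.VK K) (algebraMap κ K G.e) ?_
    (fun k => algebraMap κ K (G.e * (G.θ + k))) ?_ (c3f_r1 G a hG) (c3f_r2 G a hG) (c3f_r4 G a hG) (c3f_r5 G a hG)
    (c3f_r6 G a hm) (c3f_sq _ hG.d_d) (c3f_sq _ hi) (c3f_r9 G hG) m1 ?_ ?_ ?_ f1 f2 f3 hor ht hD
  · rw [Ne, map_eq_zero_iff _ hj]
    exact hG.e_ne
  · intro k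
    rw [Ne, map_eq_zero_iff _ hj]
    exact hc k
  · intro q k
    refine c3f_mem _ _ fun x hx => ?_
    rw [c3f_TK_tmul]
    refine Submodule.sum_mem _ fun γ _ => Submodule.smul_mem _ _ ?_
    exact Submodule.tmul_mem_baseChange_of_mem _ (hG.wd_mem γ q k x hx)
  · intro q k
    refine c3f_mem _ _ fun x hx => ?_
    rw [LinearMap.baseChange_tmul]
    exact Submodule.tmul_mem_baseChange_of_mem _ (hG.io_mem q k x hx)
  · intro q k
    refine c3f_mem _ _ fun x hx => ?_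
    rw [LinearMap.baseChange_tmul]
    exact Submodule.tmul_mem_baseChange_of_mem _ (hG.d_mem q k x hx)

end ext

theorem c3f_ct_ct {A : Type u} {R : Type v} [CommRing A] [CommRing R] [Algebra A R] (θ : Derivation A R R)
    (x : Fm A R) : ct A θ (ct A θ x) = 0 := by
  induction x using fm_ind with
  | h1 r => rw [ct_fz, map_zero]
  | h2 t => rw [ct_df, ct_fz]
  | h3 x y hx hy =>
    rw [ct_mul, map_add, ct_mul, ct_mul, hx, hy, ct_inv, zero_mul, mul_zero, zero_add, add_zero, neg_mul,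
      add_neg_cancel]
  | h4 x y hx hy => rw [map_add, map_add, hx, hy, add_zero]

theorem c3f_ct_fz {A : Type u} {R : Type v} [CommRing A] [CommRing R] [Algebra A R] (θ : Derivation A R R) (r : R)
    (x : Fm A R) : ct A θ (fz A r * x) = fz A r * ct A θ x := by
  rw [← fz_smul, ← fz_smul, map_smul]

section chartz

variable {κ : Type u} [Field κ] [CharZero κ] {n : ℕ} {J : Ideal (MvPolynomial (Fin n) κ)} {K : Type u} [Field K]
  [Algebra κ K] {e : ℕ} {a : Mon n e → K}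

/-- Closed forms. -/
theorem ph_closed [NeZero e] (hJ : IsHomog J) (a : Mon n e → K) {ν : ℕ} (h1 : 0 < ν) (h2 : ν < e)
    (hOk : (cxS hJ e ν).Ok) {q : ℕ}
    {η : Fm K (Bz J a)} (hη : η ∈ ZB (Wc hJ a) (Fin.last n) (ν : ZMod e) q) :
    ∃ k, ∃ t ∈ (cxS hJ e ν).VK K (q + 1) k, (cxS hJ e ν).d.baseChange K t = 0 ∧ (cxS hJ e ν).TK a t = 0 ∧
      phK hJ a ((cxS hJ e ν).io.baseChange K t) = η := by
  have he : 1 ≤ e := le_trans (Nat.succ_le_of_lt h1) h2.le
  obtain ⟨hη1, hη2, hη3⟩ := hη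
  have hsj := ph_surj hJ he a h1 h2 hη1 hη3
  obtain ⟨k, t₁, ht₁, hφ⟩ := hsj
  have heκ : (e : κ) ≠ 0 := Nat.cast_ne_zero.2 (Nat.one_le_iff_ne_zero.1 he)
  have hcc : ∀ k : ℕ, (cxS hJ e ν).e * ((cxS hJ e ν).θ + k) ≠ 0 := by
    intro k
    change (e : κ) * ((ν : κ) / e + k) ≠ 0
    rw [mul_add, mul_div_cancel₀ _ heκ, ← Nat.cast_mul, ← Nat.cast_add, Ne, Nat.cast_eq_zero]
    omega
  have hm : ∀ γ x, (cxS hJ e ν).io ((cxS hJ e ν).mul γ x) = (cxS hJ e ν).mul γ ((cxS hJ e ν).io x) := fun γ x =>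
    c3f_ct_fz (eul hJ) (xm J γ.1) x
  have hmain := c3f_cx (cxS hJ e ν) a hOk hm (fun x => c3f_ct_ct (eul hJ) x) hcc (fun q k x hx => MK_mem hJ a hx)
    (phK hJ a) (dd K) (phK_MK hJ he a ν) (phK_TK hJ he a ν) (phK_d hJ a ν)
    (fun q k x hx hi hp => ph_horiz hJ he a hx hi hp) ht₁ ((congrArg (dd K) hφ).trans hη2)
  obtain ⟨k', t, ht, h3, h4, h5⟩ := hmain
  exact ⟨k', t, ht, h3, h4, h5.trans hφ⟩

end chartz

end MPadcDC
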