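import Pool.Agent.Lib.MP_adc574_ag_DC.C3A
import Pool.Agent.Lib.MP_adc574_ag_GP.Lifts

/-!
# JOB C3G (DC): the lift of a derivation to the chart z

* `exists_Vz`: a derivation `Vz` of `Bz` over `D` is the same as a ring homomorphism `Bz →+* TrivSqZeroExt Bz Bz` which is the identity modulo the square zero ideal (compare GP/Lifts.lean: `dnh`, `fst_mul'`, `snd_mul'`, the end of `exists_lift_der`). Use `exists_chart_lift` (GP/Mod.lean) for `chart I' {last}` with `R' = TrivSqZeroExt Bz Bz`, `φ = dnh (R := Bz) D` (`a ↦ (algebraMap a, algebraMap (D a))`), `i = last`,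
  `z last = 1`, `z (castSucc l) = (y_l, - e⁻¹ • (g y_l))` where `y_l = phi (xv l)`, `g = phi (xm γ.1)`. `hzI`: the `f` with `eval₂ φ z f = 0` form an ideal (kernel of `eval₂Hom`), so check generators of `I' = cyc ..`: (a) `rename castSucc (map (algebraMap κ K) f)`, `f ∈ J`; as `J` is homogeneous we may take `f` homogeneous of degree `d` (`f` = sum of its components, all in `J`): first component
  `phi (f) = 0`; second component: for `f` with coefficients in `κ` (`D` kills them): `eval₂` of a polynomial with constant coefficients at `(y_l, - e⁻¹ g y_l)`: `(f(y), - e⁻¹ g ∑ y_l (∂_l f)(y)) = (f(y), - e⁻¹ g d f(y)) = 0`. (On monomials: `∏ (y_l, c y_l) ^ m_l = (y ^ m, |m| c y ^ m)`.) (b) `z ^ e - F`: `1 - ∑ φ(a g') z^{g'}`: `φ (a g') = (a g', δ_{g' γ})`, so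
  the second component of `F` is `y ^ γ + ∑ a g' * (- e⁻¹ g e y ^ g') = g - g * 1 = 0` (`phi_F`, `|g'| = e`), the first is `1`. Then `Vz r := (ρ r).snd`, with `(ρ r).fst = r` (`chart_hom_ext'`). Graded: `((Wc ..).G _).c ν (Vz r) = Vz (.c ν r)`: both sides are additive in `r`; `chart_ind`: base elements (weight `0`), generators `y_l` (weight `1`, `Vz y_l = - e⁻¹ g y_l` has weight `e + 1 = 1`), products (`Grd.c_mul`; the statement for all `ν` is
  multiplicative by Leibniz).
* `LL_ph`: on generators `w = fz (xm g') * wd t`, `|g'| + q = j`, of `Om J q j` (`κ`-linearity: `D` kills `κ`). Both sides are `Derivation`-like: define `Λ w := LL Vz (ph w)` and `Λ' w := -(e⁻¹) • ph (fz g * (L w)) - e⁻¹ • ph (df g * ct (eul) w)` where `L w = j w` for `w ∈ Om J q j`; both satisfy the Leibniz rule: for `w = w₁ w₂`: `LL_mul`; `ct_mul`: `ct (w₁ w₂) = ct w₁ * w₂ + inv w₁ * ct w₂`, `df g * inv w₁ = w₁ * df g` (`df_comm`).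
  Check for `fz (xv l)`: `Vz y_l = - e⁻¹ g y_l`; `df (xv l)`: `LL (df y_l) = df (Vz y_l) = - e⁻¹ (fz g * df y_l + fz y_l * df g)`, and `ct (eul) (df (xv l)) = fz (xv l)`. Induct over the number of factors.
-/

set_option autoImplicit false
set_option linter.unusedSectionVars false

namespace MPadcDC

open MvPolynomial TensorProduct MPadcGP MPadcGP2

universe u

section chartz

variable {κ : Type u} [Field κ] [CharZero κ] {n : ℕ} {J : Ideal (MvPolynomial (Fin n) κ)} {K : Type u} [Field K]
  [Algebra κ K] {e : ℕ} {a : Mon n e → K}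

theorem C3G_ind {P : CR J → Prop} (h1 : ∀ c : κ, P (algebraMap κ (CR J) c)) (h2 : ∀ l, P (xv J l))
    (h3 : ∀ x y, P x → P y → P (x + y)) (h4 : ∀ x y, P x → P y → P (x * y)) (x : CR J) : P x := by
  obtain ⟨f, rfl⟩ := Ideal.Quotient.mk_surjective x
  induction f using MvPolynomial.induction_on with
  | C a => exact h1 a
  | add p q hp hq =>
    rw [map_add]
    exact h3 _ _ hp hq
  | mul_X p l hp =>
    rw [map_mul]
    exact h4 _ _ hp (h2 l)

theorem C3G_mon {P : (Fin n →₀ ℕ) → Prop} (h0 : P 0) (h1 : ∀ l, P (Finsupp.single l 1))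
    (h2 : ∀ f g, P f → P g → P (f + g)) (g : Fin n →₀ ℕ) : P g := by
  induction g using Finsupp.induction_linear with
  | zero => exact h0
  | add f g hf hg => exact h2 f g hf hg
  | single l k =>
    induction k with
    | zero =>
      rw [Finsupp.single_zero]
      exact h0
    | succ k ih =>
      rw [Finsupp.single_add]
      exact h2 _ _ ih (h1 l)

theorem C3G_xm_zero : xm J 0 = 1 := by
  unfold xm
  rw [MvPolynomial.monomial_zero', map_one, map_one]

theorem C3G_xm_add (f g : Fin n →₀ ℕ) : xm J (f + g) = xm J f * xm J g := by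
  unfold xm
  rw [← map_mul, MvPolynomial.monomial_mul, mul_one]

theorem C3G_xm_single (l : Fin n) : xm J (Finsupp.single l 1) = xv J l := rfl

theorem C3G_eul_xv (hJ : IsHomog J) (l : Fin n) : eul hJ (xv J l) = xv J l := (exists_eul hJ).choose_spec l

theorem C3G_eul_xm (hJ : IsHomog J) (g : Fin n →₀ ℕ) : eul hJ (xm J g) = (g.degree : CR J) * xm J g := by
  induction g using C3G_mon with
  | h0 => rw [C3G_xm_zero, Derivation.map_one_eq_zero, map_zero, Nat.cast_zero, zero_mul]
  | h1 l =>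
    rw [C3G_xm_single, C3G_eul_xv, Finsupp.degree_single, Nat.cast_one, one_mul]
  | h2 f g hf hg =>
    rw [C3G_xm_add, Derivation.leibniz, hf, hg, map_add, Nat.cast_add, smul_eq_mul, smul_eq_mul]
    ring

/-- The coaction on the monomials. -/
theorem C3G_gc [NeZero e] (hJ : IsHomog J) (a : Mon n e → K) (g : Fin n →₀ ℕ) :
    ((Wc hJ a).G {Fin.last n}).g (phi hJ a (xm J g)) =
      AddMonoidAlgebra.single ((g.degree : ℕ) : ZMod e) (phi hJ a (xm J g)) := by
  induction g using C3G_mon with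
  | h0 =>
    rw [C3G_xm_zero, map_one, map_one, map_zero, Nat.cast_zero]
    rfl
  | h1 l =>
    rw [C3G_xm_single, Finsupp.degree_single, Nat.cast_one, phi_xv]
    have h1 := gc_cq (cyc_homC hJ a) (cyc_whomog hJ a) {Fin.last n} (Fin.castSucc l)
      (Finset.mem_singleton_self (Fin.last n))
    have h2 : wz n e (Fin.castSucc l) - wz n e (Fin.last n) = 1 := by
      unfold wz
      rw [if_neg (Fin.castSucc_ne_last l), if_pos rfl, sub_zero]
    rw [h2] at h1
    exact h1
  | h2 f g hf hg =>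
    rw [C3G_xm_add, map_mul, map_mul, hf, hg, AddMonoidAlgebra.single_mul_single, map_add, Nat.cast_add]

/-- The homomorphism to the dual numbers. -/
noncomputable def C3G_hom (hJ : IsHomog J) (a : Mon n e → K) (c : Bz J a) : CR J →+* TrivSqZeroExt (Bz J a) (Bz J a) where
  toFun x := (phi hJ a x, c * phi hJ a (eul hJ x))
  map_one' := by
    refine TrivSqZeroExt.ext (map_one _) ?_
    change c * phi hJ a (eul hJ 1) = 0
    rw [Derivation.map_one_eq_zero, map_zero, mul_zero]
  map_mul' x y := by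
    refine TrivSqZeroExt.ext ?_ ?_
    · rw [fst_mul']
      exact map_mul _ _ _
    · rw [snd_mul']
      change c * phi hJ a (eul hJ (x * y)) =
        phi hJ a x * (c * phi hJ a (eul hJ y)) + phi hJ a y * (c * phi hJ a (eul hJ x))
      rw [Derivation.leibniz, map_add, smul_eq_mul, smul_eq_mul, map_mul, map_mul]
      ring
  map_zero' := by
    refine TrivSqZeroExt.ext (map_zero _) ?_
    change c * phi hJ a (eul hJ 0) = 0
    rw [map_zero, map_zero, mul_zero]
  map_add' x y := by
    refine TrivSqZeroExt.ext (map_add _ _ _) ?_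
    change c * phi hJ a (eul hJ (x + y)) = c * phi hJ a (eul hJ x) + c * phi hJ a (eul hJ y)
    rw [map_add, map_add, mul_add]

theorem C3G_hom_fst (hJ : IsHomog J) (a : Mon n e → K) (c : Bz J a) (x : CR J) :
    (C3G_hom hJ a c x).fst = phi hJ a x := rfl

theorem C3G_hom_snd (hJ : IsHomog J) (a : Mon n e → K) (c : Bz J a) (x : CR J) :
    (C3G_hom hJ a c x).snd = c * phi hJ a (eul hJ x) := rfl

/-- The ring homomorphism from the chart. -/
theorem C3G_lift [NeZero e] (hJ : IsHomog J) (a : Mon n e → K) (D : Derivation ℤ K K)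
    (hD : ∀ c : κ, D (algebraMap κ K c) = 0) (γ : Mon n e) (ha : ∀ γ', D (a γ') = if γ' = γ then 1 else 0)
    {c : Bz J a} (hc : c = -((e : K)⁻¹ • phi hJ a (xm J γ.1))) :
    ∃ ρ : Bz J a →+* TrivSqZeroExt (Bz J a) (Bz J a),
      (∀ x : K, ρ (algebraMap K (Bz J a) x) = dnh (R := Bz J a) D x) ∧
      ∀ l, ρ (phi hJ a (xv J l)) = C3G_hom hJ a c (xv J l) := by
  set z : Fin (n + 1) → TrivSqZeroExt (Bz J a) (Bz J a) :=
    Fin.snoc (α := fun _ => TrivSqZeroExt (Bz J a) (Bz J a)) (fun l : Fin n => C3G_hom hJ a c (xv J l)) 1 with hz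
  have hzl : z (Fin.last n) = 1 := Fin.snoc_last _ _
  have hzc : ∀ l : Fin n, z (Fin.castSucc l) = C3G_hom hJ a c (xv J l) := fun l => Fin.snoc_castSucc _ _ _
  have he0 : (e : K) ≠ 0 := by
    have : CharZero K := charZero_of_injective_algebraMap (algebraMap κ K).injective
    exact Nat.cast_ne_zero.2 (NeZero.ne e)
  have hev : ∀ f : MvPolynomial (Fin n) κ, eval₂ ((dnh (R := Bz J a) D).comp (algebraMap κ K)) (z ∘ Fin.castSucc) f =
      C3G_hom hJ a c (Ideal.Quotient.mk J f) := by
    intro f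
    induction f using MvPolynomial.induction_on with
    | C r =>
      rw [eval₂_C]
      refine TrivSqZeroExt.ext ?_ ?_
      · rw [C3G_hom_fst]
        exact (phi_base hJ a r).symm
      · rw [C3G_hom_snd]
        change algebraMap K (Bz J a) (D (algebraMap κ K r)) = _
        have h1 : eul hJ (Ideal.Quotient.mk J (C r)) = 0 := (eul hJ).map_algebraMap r
        rw [hD, h1, map_zero, map_zero, mul_zero]
    | add p q hp hq => rw [eval₂_add, hp, hq, map_add, map_add]
    | mul_X p l hp =>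
      rw [eval₂_mul, hp, eval₂_X, map_mul, map_mul, Function.comp_apply, hzc]
      rfl
  obtain ⟨ρ, h1, h2⟩ := exists_chart_lift (cyc (bI (algebraMap κ K) J) (frm a) e) {Fin.last n}
    (dnh (R := Bz J a) D) (Finset.mem_singleton_self (Fin.last n)) z hzl (fun j hj => by
      rw [Finset.mem_singleton.1 hj, hzl]
      exact isUnit_one) (fun f hf => by
      have h3 : cyc (bI (algebraMap κ K) J) (frm a) e ≤ RingHom.ker (eval₂Hom (dnh (R := Bz J a) D) z) := by
        unfold cyc
        refine sup_le ?_ ?_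
        · rw [Ideal.map_le_iff_le_comap]
          change Ideal.map (MvPolynomial.map (algebraMap κ K)) J ≤ _
          rw [Ideal.map_le_iff_le_comap]
          intro g hg
          change eval₂ (dnh (R := Bz J a) D) z (rename Fin.castSucc (MvPolynomial.map (algebraMap κ K) g)) = 0
          rw [eval₂_rename, eval₂_map, hev, Ideal.Quotient.eq_zero_iff_mem.2 hg, map_zero]
        · rw [Ideal.span_singleton_le_iff_mem]
          change eval₂ (dnh (R := Bz J a) D) z (X (Fin.last n) ^ e - rename Fin.castSucc (frm a)) = 0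
          rw [eval₂_sub, eval₂_pow, eval₂_X, hzl, one_pow, eval₂_rename, sub_eq_zero]
          have h4 : eval₂ (dnh (R := Bz J a) D) (z ∘ Fin.castSucc) (frm a) =
              ∑ g : Mon n e, dnh (R := Bz J a) D (a g) * C3G_hom hJ a c (xm J g.1) := by
            unfold frm
            rw [← coe_eval₂Hom, map_sum]
            refine Finset.sum_congr rfl fun g _ => ?_
            have h0 : (monomial g.1 (a g) : MvPolynomial (Fin n) K) = C (a g) * monomial g.1 1 := by
              rw [C_mul_monomial, mul_one]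
            rw [coe_eval₂Hom, h0, eval₂_mul, eval₂_C]
            congr 1
            have h5 : (monomial g.1 (1 : K) : MvPolynomial (Fin n) K) =
                MvPolynomial.map (algebraMap κ K) (monomial g.1 (1 : κ)) := by
              rw [map_monomial, map_one (algebraMap κ K)]
            rw [h5, eval₂_map, hev]
            rfl
          rw [h4]
          have hg : ∀ g : Mon n e, (g.1.degree : ℕ) = e := by
            intro g
            have := (Finset.mem_finsuppAntidiag.1 g.2).1
            rw [Finsupp.degree_eq_sum]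
            exact this
          have hF := phi_F hJ (NeZero.one_le (n := e)) a
          refine TrivSqZeroExt.ext ?_ ?_
          · rw [TrivSqZeroExt.fst_sum, TrivSqZeroExt.fst_one, ← hF]
            refine Finset.sum_congr rfl fun g _ => ?_
            rw [fst_mul', C3G_hom_fst, Algebra.smul_def]
            rfl
          · rw [TrivSqZeroExt.snd_sum, TrivSqZeroExt.snd_one]
            have h6 : ∀ g : Mon n e, (dnh (R := Bz J a) D (a g) * C3G_hom hJ a c (xm J g.1)).snd =
                c * (e : Bz J a) * (a g • phi hJ a (xm J g.1)) + (if g = γ then phi hJ a (xm J γ.1) else 0) := by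
              intro g
              rw [snd_mul', C3G_hom_fst, C3G_hom_snd, C3G_eul_xm, hg g, map_mul, map_natCast]
              change algebraMap K (Bz J a) (a g) * (c * ((e : Bz J a) * phi hJ a (xm J g.1))) +
                phi hJ a (xm J g.1) * algebraMap K (Bz J a) (D (a g)) = _
              rw [ha, Algebra.smul_def]
              split_ifs with h7
              · rw [h7, map_one]
                ring
              · rw [map_zero]
                ring
            rw [Finset.sum_congr rfl fun g _ => h6 g, Finset.sum_add_distrib, ← Finset.mul_sum, hF,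
              Finset.sum_ite_eq' Finset.univ γ, if_pos (Finset.mem_univ γ), hc, mul_one]
            have h8 : (e : Bz J a) = algebraMap K (Bz J a) (e : K) := (map_natCast (algebraMap K (Bz J a)) e).symm
            rw [h8, Algebra.smul_def, neg_mul, mul_right_comm, ← map_mul, inv_mul_cancel₀ he0, map_one, one_mul,
              neg_add_cancel]
      exact h3 hf)
  refine ⟨ρ, h1, fun l => ?_⟩
  rw [phi_xv]
  exact (h2 (Fin.castSucc l)).trans (hzc l)

theorem C3G_Bind (hJ : IsHomog J) (a : Mon n e → K) {P : Bz J a → Prop}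
    (h1 : ∀ x : K, P (algebraMap K (Bz J a) x)) (h2 : ∀ l, P (phi hJ a (xv J l)))
    (h3 : ∀ x y, P x → P y → P (x + y)) (h4 : ∀ x y, P x → P y → P (x * y)) (r : Bz J a) : P r := by
  refine chart_ind (I := cyc (bI (algebraMap κ K) J) (frm a) e) (J := {Fin.last n}) (P := P) h1 ?_ h3 h4 r
  intro l m hm
  have hm' : m = Fin.last n := Finset.mem_singleton.1 hm
  subst hm'
  induction l using Fin.lastCases with
  | last =>
    rw [cq_self]
    have h5 := h1 1
    rw [map_one] at h5
    exact h5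
  | cast l =>
    have h5 := h2 l
    rw [phi_xv] at h5
    exact h5

theorem C3G_comm [NeZero e] (hJ : IsHomog J) (a : Mon n e → K) {D : Derivation ℤ K K} (γ : Mon n e)
    (Vz : Derivation ℤ (Bz J a) (Bz J a)) (h1 : ∀ x : K, Vz (algebraMap K (Bz J a) x) = algebraMap K (Bz J a) (D x))
    (h2 : ∀ l, Vz (phi hJ a (xv J l)) = -((e : K)⁻¹ • (phi hJ a (xm J γ.1) * phi hJ a (xv J l)))) (r : Bz J a) :
    ∀ ν : ZMod e, ((Wc hJ a).G {Fin.last n}).c ν (Vz r) = Vz (((Wc hJ a).G {Fin.last n}).c ν r) := by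
  set G := (Wc hJ a).G {Fin.last n} with hG
  induction r using C3G_Bind hJ a with
  | h1 x =>
    intro ν
    rw [h1, G.c_base, G.c_base]
    split_ifs
    · exact (h1 x).symm
    · rw [map_zero]
  | h2 l =>
    intro ν
    have h4 : G.g (phi hJ a (xv J l)) = AddMonoidAlgebra.single (1 : ZMod e) (phi hJ a (xv J l)) := by
      have h5 := C3G_gc hJ a (Finsupp.single l 1)
      rw [C3G_xm_single, Finsupp.degree_single, Nat.cast_one] at h5
      exact h5
    have h6 : G.g (Vz (phi hJ a (xv J l))) = AddMonoidAlgebra.single (1 : ZMod e) (Vz (phi hJ a (xv J l))) := by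
      have h7 := C3G_gc hJ a γ.1
      have h8 : ((γ.1.degree : ℕ) : ZMod e) = 0 := by
        have h9 : (γ.1.degree : ℕ) = e := by
          rw [Finsupp.degree_eq_sum]
          exact (Finset.mem_finsuppAntidiag.1 γ.2).1
        rw [h9, ZMod.natCast_self]
      rw [h8] at h7
      have h10 : Vz (phi hJ a (xv J l)) = algebraMap K (Bz J a) (-(e : K)⁻¹) *
          (phi hJ a (xm J γ.1) * phi hJ a (xv J l)) := by
        rw [h2, Algebra.smul_def, map_neg, neg_mul]
      rw [h10, map_mul, map_mul, G.base, h7, h4, AddMonoidAlgebra.single_mul_single,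
        AddMonoidAlgebra.single_mul_single, zero_add, zero_add]
    have h11 : ∀ {r : Bz J a}, G.g r = AddMonoidAlgebra.single (1 : ZMod e) r →
        G.c ν r = if 1 = ν then r else 0 := by
      intro r hr
      unfold Grd.c
      rw [hr, AddMonoidAlgebra.coeff_single, Finsupp.single_apply]
    rw [h11 h4, h11 h6]
    split_ifs
    · rfl
    · rw [map_zero]
  | h3 x y hx hy =>
    intro ν
    rw [map_add, G.c_add, G.c_add, map_add, hx, hy]
  | h4 x y hx hy =>
    intro ν
    rw [Derivation.leibniz, smul_eq_mul, smul_eq_mul, G.c_add, G.c_mul, G.c_mul, G.c_mul, map_sum]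
    have h5 : ∑ ν', G.c ν' y * G.c (ν - ν') (Vz x) = ∑ ν', G.c (ν - ν') y * G.c ν' (Vz x) := by
      refine (Equiv.sum_comp (Equiv.subLeft ν) fun ν' => G.c ν' y * G.c (ν - ν') (Vz x)).symm.trans ?_
      refine Finset.sum_congr rfl fun ν' _ => ?_
      rw [Equiv.subLeft_apply, sub_sub_cancel]
    rw [h5, ← Finset.sum_add_distrib]
    refine Finset.sum_congr rfl fun ν' _ => ?_
    rw [Derivation.leibniz, smul_eq_mul, smul_eq_mul, hx, hy]

/-- The derivation `∂_γ - x ^ γ E / e` on the chart `z`. -/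
theorem exists_Vz [NeZero e] (hJ : IsHomog J) (a : Mon n e → K) (D : Derivation ℤ K K)
    (hD : ∀ c : κ, D (algebraMap κ K c) = 0) (γ : Mon n e) (ha : ∀ γ', D (a γ') = if γ' = γ then 1 else 0) :
    ∃ Vz : Derivation ℤ (Bz J a) (Bz J a), (∀ x : K, Vz (algebraMap K (Bz J a) x) = algebraMap K (Bz J a) (D x)) ∧
      (∀ l, Vz (phi hJ a (xv J l)) = -((e : K)⁻¹ • (phi hJ a (xm J γ.1) * phi hJ a (xv J l)))) ∧
      ∀ (ν : ZMod e) r, ((Wc hJ a).G {Fin.last n}).c ν (Vz r) = Vz (((Wc hJ a).G {Fin.last n}).c ν r) := by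
  obtain ⟨ρ, h1, h2⟩ := C3G_lift hJ a D hD γ ha rfl
  have h3 : ((TrivSqZeroExt.fstHom K (Bz J a) (Bz J a)).toRingHom.comp ρ) = RingHom.id (Bz J a) := by
    refine chart_hom_ext' (cyc (bI (algebraMap κ K) J) (frm a) e) {Fin.last n}
      (Finset.mem_singleton_self (Fin.last n)) (fun x => ?_) (fun l => ?_)
    · change (ρ (algebraMap K (Bz J a) x)).fst = algebraMap K (Bz J a) x
      rw [h1]
      rfl
    · induction l using Fin.lastCases with
      | last =>
        rw [cq_self, map_one, map_one]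
      | cast l =>
        have h4 := phi_xv hJ a l
        rw [← h4]
        change (ρ (phi hJ a (xv J l))).fst = _
        rw [h2, C3G_hom_fst]
        rfl
  have h4 : ∀ r, (ρ r).fst = r := fun r => RingHom.congr_fun h3 r
  let V0 : Bz J a →+ Bz J a :=
    { toFun := fun r => (ρ r).snd
      map_zero' := by rw [map_zero, TrivSqZeroExt.snd_zero]
      map_add' := fun r s => by rw [map_add, TrivSqZeroExt.snd_add] }
  let Vz : Derivation ℤ (Bz J a) (Bz J a) := Derivation.mk' V0.toIntLinearMap fun r s => by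
    change (ρ (r * s)).snd = r * (ρ s).snd + s * (ρ r).snd
    rw [map_mul, snd_mul', h4, h4]
  have h5 : ∀ x : K, Vz (algebraMap K (Bz J a) x) = algebraMap K (Bz J a) (D x) := by
    intro x
    change (ρ (algebraMap K (Bz J a) x)).snd = _
    rw [h1]
    rfl
  have h6 : ∀ l, Vz (phi hJ a (xv J l)) = -((e : K)⁻¹ • (phi hJ a (xm J γ.1) * phi hJ a (xv J l))) := by
    intro l
    change (ρ (phi hJ a (xv J l))).snd = _
    rw [h2, C3G_hom_snd, C3G_eul_xv, neg_mul, smul_mul_assoc]
  exact ⟨Vz, h5, h6, fun ν r => C3G_comm hJ a γ Vz h5 h6 r ν⟩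

/-- The Lie derivative. -/
noncomputable def C3G_Lie {R : Type u} [CommRing R] [Algebra κ R] (θ : Derivation κ R R) : Fm κ R →+ Fm κ R :=
  LL κ (θ.restrictScalars ℤ)

theorem C3G_PC {R : Type u} [CommRing R] [Algebra κ R] (θ : Derivation κ R R) : PC κ (θ.restrictScalars ℤ) :=
  fun c => ⟨0, by
    rw [map_zero]
    exact θ.map_algebraMap c⟩

theorem C3G_Lie_fz {R : Type u} [CommRing R] [Algebra κ R] (θ : Derivation κ R R) (r : R) :
    C3G_Lie θ (fz κ r) = fz κ (θ r) := LL_fz κ (C3G_PC θ) r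

theorem C3G_Lie_df {R : Type u} [CommRing R] [Algebra κ R] (θ : Derivation κ R R) (r : R) :
    C3G_Lie θ (df κ r) = df κ (θ r) := LL_df κ (C3G_PC θ) r

theorem C3G_Lie_mul {R : Type u} [CommRing R] [Algebra κ R] (θ : Derivation κ R R) (x y : Fm κ R) :
    C3G_Lie θ (x * y) = C3G_Lie θ x * y + x * C3G_Lie θ y := LL_mul κ (C3G_PC θ) x y

theorem C3G_Vphi [NeZero e] (hJ : IsHomog J) (a : Mon n e → K) {D : Derivation ℤ K K} {γ : Mon n e}
    (Vz : Derivation ℤ (Bz J a) (Bz J a)) (h1 : ∀ x : K, Vz (algebraMap K (Bz J a) x) = algebraMap K (Bz J a) (D x))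
    (hD : ∀ c : κ, D (algebraMap κ K c) = 0)
    (h2 : ∀ l, Vz (phi hJ a (xv J l)) = -((e : K)⁻¹ • (phi hJ a (xm J γ.1) * phi hJ a (xv J l)))) (x : CR J) :
    Vz (phi hJ a x) = -((e : K)⁻¹ • phi hJ a (xm J γ.1 * eul hJ x)) := by
  induction x using C3G_ind with
  | h1 c =>
    rw [phi_base, h1, hD, map_zero, (eul hJ).map_algebraMap, mul_zero, map_zero, smul_zero, neg_zero]
  | h2 l => rw [h2, C3G_eul_xv, map_mul]
  | h3 x y hx hy => rw [map_add, map_add, hx, hy, map_add, mul_add, map_add, smul_add, neg_add]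
  | h4 x y hx hy =>
    rw [map_mul, Derivation.leibniz, Derivation.leibniz, hx, hy, smul_eq_mul, smul_eq_mul, smul_eq_mul, smul_eq_mul,
      mul_add, map_add, map_mul, map_mul, map_mul, map_mul, map_mul, map_mul, Algebra.smul_def, Algebra.smul_def,
      Algebra.smul_def]
    ring

/-- The Lie derivative of the pulled back forms. -/
theorem C3G_LL [NeZero e] (hJ : IsHomog J) (a : Mon n e → K) {D : Derivation ℤ K K} {γ : Mon n e}
    (Vz : Derivation ℤ (Bz J a) (Bz J a)) (h1 : ∀ x : K, Vz (algebraMap K (Bz J a) x) = algebraMap K (Bz J a) (D x))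
    (hD : ∀ c : κ, D (algebraMap κ K c) = 0)
    (h2 : ∀ l, Vz (phi hJ a (xv J l)) = -((e : K)⁻¹ • (phi hJ a (xm J γ.1) * phi hJ a (xv J l))))
    (w : Fm κ (CR J)) :
    LL K Vz (ph hJ a w) = -((e : K)⁻¹ • ph hJ a (fz κ (xm J γ.1) * C3G_Lie (eul hJ) w +
      df κ (xm J γ.1) * ct κ (eul hJ) w)) := by
  have hV : PC K Vz := fun x => ⟨D x, h1 x⟩
  have hphi := C3G_Vphi hJ a Vz h1 hD h2
  have hfz : ∀ r : CR J, ph hJ a (fz κ r) = fz K (phi hJ a r) := fun r => mp_fz _ _
  have hdf : ∀ r : CR J, ph hJ a (df κ r) = df K (phi hJ a r) := fun r => mp_df _ _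
  have hsm : ∀ (c : K) (x : Fm K (Bz J a)), c • x = fz K (algebraMap K (Bz J a) c) * x := fun c x => smul_fm K _ c x
  induction w using fm_ind with
  | h1 r =>
    rw [hfz, LL_fz K hV, hphi, C3G_Lie_fz, ct_fz, mul_zero, add_zero, ← map_mul (fz κ), hfz, hsm, ← map_mul, ← map_neg,
      Algebra.smul_def]
  | h2 t =>
    rw [hdf, LL_df K hV, hphi, C3G_Lie_df, ct_df]
    have h3 : fz κ (xm J γ.1) * df κ (eul hJ t) + df κ (xm J γ.1) * fz κ (eul hJ t) =
        df κ (xm J γ.1 * eul hJ t) := by
      rw [df_mul, ← fz_comm (eul hJ t)]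
    rw [h3, hdf]
    have h4 : ∀ (c : K) (r : Bz J a), df K (c • r) = c • df K r := by
      intro c r
      rw [Algebra.smul_def, df_mul, df_base, mul_zero, add_zero, hsm]
    have h5 : ∀ r : Bz J a, df K (-r) = -df K r := by
      intro r
      rw [eq_neg_iff_add_eq_zero, ← df_add, neg_add_cancel, df_zero]
    rw [h5, h4]
  | h3 x y hx hy =>
    rw [map_mul, LL_mul K hV, hx, hy, C3G_Lie_mul, ct_mul]
    have h3 : fz κ (xm J γ.1) * (C3G_Lie (eul hJ) x * y + x * C3G_Lie (eul hJ) y) +
        df κ (xm J γ.1) * (ct κ (eul hJ) x * y + inv κ x * ct κ (eul hJ) y) =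
        (fz κ (xm J γ.1) * C3G_Lie (eul hJ) x + df κ (xm J γ.1) * ct κ (eul hJ) x) * y +
          x * (fz κ (xm J γ.1) * C3G_Lie (eul hJ) y + df κ (xm J γ.1) * ct κ (eul hJ) y) := by
      rw [mul_add, mul_add, mul_add, add_mul, ← mul_assoc, ← mul_assoc, ← mul_assoc, ← mul_assoc, ← mul_assoc,
        ← mul_assoc, df_comm (xm J γ.1) (inv κ x), MPadcGP.inv_inv, fz_comm (xm J γ.1) x]
      abel
    rw [h3]
    have h4 : ∀ U W : Fm κ (CR J), -((e : K)⁻¹ • ph hJ a U) * ph hJ a y + ph hJ a x * -((e : K)⁻¹ • ph hJ a W) =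
        -((e : K)⁻¹ • ph hJ a (U * y + x * W)) := by
      intro U W
      rw [map_add, map_mul, map_mul, smul_add, neg_add, neg_mul, mul_neg, smul_mul_assoc, mul_smul_comm]
    exact h4 _ _
  | h4 x y hx hy =>
    have h3 : fz κ (xm J γ.1) * C3G_Lie (eul hJ) (x + y) + df κ (xm J γ.1) * ct κ (eul hJ) (x + y) =
        (fz κ (xm J γ.1) * C3G_Lie (eul hJ) x + df κ (xm J γ.1) * ct κ (eul hJ) x) +
          (fz κ (xm J γ.1) * C3G_Lie (eul hJ) y + df κ (xm J γ.1) * ct κ (eul hJ) y) := by
      rw [map_add, map_add, mul_add, mul_add, add_add_add_comm]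
    have h4 : ∀ U W : Fm κ (CR J), -((e : K)⁻¹ • ph hJ a U) + -((e : K)⁻¹ • ph hJ a W) =
        -((e : K)⁻¹ • ph hJ a (U + W)) := by
      intro U W
      rw [map_add, smul_add, neg_add]
    rw [map_add, map_add, hx, hy, h3]
    exact h4 _ _

theorem C3G_LE (hJ : IsHomog J) {q j : ℕ} {w : Fm κ (CR J)} (hw : w ∈ Om J q j) :
    C3G_Lie (eul hJ) w = (j : κ) • w := by
  have hwd : ∀ (q : ℕ) (t : Fin q → Fin n), C3G_Lie (eul hJ) (wd κ fun i => xv J (t i)) =
      (q : κ) • (wd κ fun i => xv J (t i)) := by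
    intro q
    induction q with
    | zero =>
      intro t
      rw [wd_zero, Nat.cast_zero, zero_smul, ← map_one (fz κ), C3G_Lie_fz]
      have h1 : eul hJ (1 : CR J) = 0 := (eul hJ).map_one_eq_zero
      rw [h1, map_zero]
    | succ q ih =>
      intro t
      rw [wd_succ, C3G_Lie_mul, C3G_Lie_df]
      have h1 : eul hJ (xv J (t 0)) = xv J (t 0) := C3G_eul_xv hJ _
      have h2 : C3G_Lie (eul hJ) (wd κ (Fin.tail fun i => xv J (t i))) =
          (q : κ) • wd κ (Fin.tail fun i => xv J (t i)) := ih (fun i => t i.succ)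
      rw [h1, h2, mul_smul_comm, Nat.cast_succ, add_smul, one_smul, add_comm]
  unfold Om at hw
  induction hw using Submodule.span_induction with
  | mem x hx =>
    obtain ⟨g, t, h1, rfl⟩ := hx
    rw [C3G_Lie_mul, hwd, C3G_Lie_fz]
    have h2 : eul hJ (xm J g) = algebraMap κ (CR J) (g.degree : κ) * xm J g := by
      rw [map_natCast]
      exact C3G_eul_xm hJ g
    rw [h2, map_mul, mul_assoc, ← smul_fm, mul_smul_comm, ← add_smul, ← Nat.cast_add, h1]
  | zero => rw [map_zero, smul_zero]
  | add x y _ _ hx hy => rw [map_add, hx, hy, smul_add]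
  | smul c x _ hx =>
    rw [smul_fm, C3G_Lie_mul, C3G_Lie_fz]
    have h1 : eul hJ (algebraMap κ (CR J) c) = 0 := (eul hJ).map_algebraMap c
    rw [h1, map_zero, zero_mul, zero_add, hx, mul_smul_comm]

theorem LL_ph [NeZero e] (hJ : IsHomog J) (a : Mon n e → K) {D : Derivation ℤ K K} {γ : Mon n e}
    (Vz : Derivation ℤ (Bz J a) (Bz J a)) (h1 : ∀ x : K, Vz (algebraMap K (Bz J a) x) = algebraMap K (Bz J a) (D x))
    (hD : ∀ c : κ, D (algebraMap κ K c) = 0)
    (h2 : ∀ l, Vz (phi hJ a (xv J l)) = -((e : K)⁻¹ • (phi hJ a (xm J γ.1) * phi hJ a (xv J l)))) {q j : ℕ}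
    {w : Fm κ (CR J)} (hw : w ∈ Om J q j) :
    LL K Vz (ph hJ a w) = -(((j : K) / e) • ph hJ a (fz κ (xm J γ.1) * w)) -
      (e : K)⁻¹ • ph hJ a (df κ (xm J γ.1) * ct κ (eul hJ) w) := by
  rw [C3G_LL hJ a Vz h1 hD h2, C3G_LE hJ hw, map_add, smul_add, neg_add, ← sub_eq_add_neg]
  congr 2
  have h3 : ph hJ a (fz κ (xm J γ.1) * ((j : κ) • w)) = (j : K) • ph hJ a (fz κ (xm J γ.1) * w) := by
    rw [mul_smul_comm, smul_fm, map_mul]
    have h4 : ph hJ a (fz κ (algebraMap κ (CR J) (j : κ))) = fz K (algebraMap K (Bz J a) (j : K)) := by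
      refine (mp_fz _ _).trans ?_
      rw [phi_base, map_natCast (algebraMap κ K)]
    rw [h4, smul_fm]
  rw [h3, smul_smul, div_eq_inv_mul]

end chartz

end MPadcDC
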