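import Pool.Agent.Lib.MP_adc574_ag_DC.CKf
import Pool.Agent.Lib.MP_adc574_ag_DC.AVan2

/-!
# JOB C4A (DC): the homotopy formula and exactness

* `lam_ne`: induction: `G.θ + k ≠ 0` (`hG.θ_ne (-k)`).
* `ph_rel`: over `K` (check on `c ⊗ v`, `v ∈ Vd q k`, span induction for `VK q k`): `ι (d u) + d (ι u) = (e (θ + k)) • u` (`cartan`), `ι (T u) + T (ι u) = e • M u` (`io_wd`; `T = TK a`, `M = MK a`, all `u`). So `φ (ι (d u)) = e (θ + k) φ u - dU (φ (ι u))`, `φ (ι (T u)) = e φ u` (`hP.mul`, `hP.wd`, `hP.d`). Sum with the coefficients `lam k`, `lam (k + 1) = -(θ + k) lam k`: the `φ u` terms cancel.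
* `exact_of_vanish`: `R = MvPolynomial Γ κ`. The natural map `ι_R : R ⊗[κ] V → K ⊗[κ] V` (`algebraMap ⊗ id`, e.g. `LinearMap.rTensor V`), injective (`V` is flat over the field `κ`), intertwines `TF` and `TK`, `d`, `io`, and every `x ∈ K ⊗ V` has a multiple `algebraMap r • x = ι_R x'`, `r ≠ 0`; if `x ∈ VK q k` then `x'` can be taken in `VR q k` (write `x = ∑ f_i ⊗ v_i`, `v_i ∈ Vd q k`, common denominator). So for `t`:
  `algebraMap r • t = ι_R t'`, `t' ∈ VR (q + 1) k`, `nF t' = d t' + TF t' = 0` (injectivity). `vanish hG hK`: `t' = nF b`, `b ∈ ⨆ VR q k`, `b = ∑_{i ∈ s} b_i`, `b_i ∈ VR q i`. Comparing components in `VR (q + 1) i` (`VR_indep`, `d_VR`, `TF_VR`): `d b_i + TF b_{i-1} = δ_{i k} t'`. Put `Φ_i := lam i • φ ∘ ι`, `β := ∑ lam i • b_i` (in `K ⊗ V`). Summing `lam i •` the component equations: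
  `lam k • φ (ι t') = ∑_i [lam i • φ (ι (d b_i)) + lam (i + 1) • φ (ι (T b_i))] = - ∑ lam i • dU (φ (ι b_i))` by `ph_rel`. So `φ (ι t) = dU (φ (ι b))` with `b := - (algebraMap r * lam k)⁻¹ • ∑ lam i • ι_R b_i ∈ ⨆ VK q i`.
-/

set_option autoImplicit false
set_option linter.unusedSectionVars false

namespace MPadcDC

open MvPolynomial TensorProduct

universe u

section abs

variable {κ : Type u} [Field κ] [CharZero κ] {Γ : Type} [Fintype Γ] [DecidableEq Γ] {V : Type u}
  [AddCommGroup V] [Module κ V] {K : Type u} [Field K] [Algebra κ K] {U : Type u} [AddCommGroup U] [Module K U]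

/-- Induction on the elements of a base change. -/
private theorem C4A_ind {A : Type u} [CommRing A] [Algebra κ A] {W : Submodule κ V} {p : A ⊗[κ] V → Prop}
    (h0 : p 0) (h1 : ∀ v ∈ W, p ((1 : A) ⊗ₜ[κ] v)) (h2 : ∀ x y, p x → p y → p (x + y))
    (h3 : ∀ (c : A) x, p x → p (c • x)) {u : A ⊗[κ] V} (hu : u ∈ W.baseChange A) : p u := by
  rw [Submodule.baseChange_eq_span] at hu
  refine Submodule.span_induction ?_ h0 (fun x y _ _ => h2 x y) (fun c x _ => h3 c x) hu
  rintro x ⟨v, hv, rfl⟩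
  exact h1 v hv

private theorem C4A_TK_tmul (G : Cx κ Γ V) (a : Γ → K) (c : K) (v : V) :
    G.TK a (c ⊗ₜ[κ] v) = ∑ γ, a γ • (c ⊗ₜ[κ] G.wd γ v) := by
  unfold Cx.TK
  rw [LinearMap.sum_apply]
  exact Finset.sum_congr rfl fun γ _ => by rw [LinearMap.smul_apply, LinearMap.baseChange_tmul]

private theorem C4A_MK_tmul (G : Cx κ Γ V) (a : Γ → K) (c : K) (v : V) :
    G.MK a (c ⊗ₜ[κ] v) = ∑ γ, a γ • (c ⊗ₜ[κ] G.mul γ v) := by
  unfold Cx.MK
  rw [LinearMap.sum_apply]
  exact Finset.sum_congr rfl fun γ _ => by rw [LinearMap.smul_apply, LinearMap.baseChange_tmul]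

/-- The Cartan formula over `K`. -/
private theorem C4A_cartan {G : Cx κ Γ V} (hG : G.Ok) {q k : ℕ} {u : K ⊗[κ] V} (hu : u ∈ G.VK K q k) :
    G.io.baseChange K (G.d.baseChange K u) + G.d.baseChange K (G.io.baseChange K u) =
      algebraMap κ K (G.e * (G.θ + k)) • u := by
  unfold Cx.VK at hu
  refine C4A_ind (p := fun u => G.io.baseChange K (G.d.baseChange K u) +
    G.d.baseChange K (G.io.baseChange K u) = algebraMap κ K (G.e * (G.θ + k)) • u) ?_ ?_ ?_ ?_ hu
  · simp only [map_zero, add_zero, smul_zero]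
  · intro v hv
    simp only [LinearMap.baseChange_tmul]
    rw [← TensorProduct.tmul_add, hG.cartan q k v hv, TensorProduct.tmul_smul, algebraMap_smul]
  · intro x y hx hy
    simp only [map_add, smul_add]
    rw [← hx, ← hy]
    abel
  · intro c x hx
    simp only [map_smul]
    rw [← smul_add, hx, smul_comm]

/-- `ι` and the multiplication with `dF`. -/
private theorem C4A_io_TK {G : Cx κ Γ V} (hG : G.Ok) (a : Γ → K) (u : K ⊗[κ] V) :
    G.io.baseChange K (G.TK a u) + G.TK a (G.io.baseChange K u) = algebraMap κ K G.e • G.MK a u := by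
  induction u using TensorProduct.induction_on with
  | zero => simp only [map_zero, add_zero, smul_zero]
  | tmul c v =>
    rw [LinearMap.baseChange_tmul, C4A_TK_tmul, C4A_TK_tmul, C4A_MK_tmul, map_sum, ← Finset.sum_add_distrib,
      Finset.smul_sum]
    refine Finset.sum_congr rfl fun γ _ => ?_
    rw [map_smul, LinearMap.baseChange_tmul, ← smul_add, ← TensorProduct.tmul_add, hG.io_wd,
      TensorProduct.tmul_smul, smul_comm (algebraMap κ K G.e) (a γ), algebraMap_smul]
  | add x y hx hy =>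
    simp only [map_add, smul_add]
    rw [← hx, ← hy]
    abel

theorem lam_ne (G : Cx κ Γ V) (hG : G.Ok) (k : ℕ) : G.lam k ≠ 0 := by
  induction k with
  | zero => exact one_ne_zero
  | succ k ih =>
    have h1 : G.θ + k ≠ 0 := by
      intro h
      apply hG.θ_ne (-(k : ℤ))
      rw [Int.cast_neg, Int.cast_natCast]
      exact eq_neg_of_add_eq_zero_left h
    exact mul_ne_zero (neg_ne_zero.mpr h1) ih

theorem ph_rel {G : Cx κ Γ V} (hG : G.Ok) {a : Γ → K} {dU : U →ₗ[K] U} {φ : K ⊗[κ] V →ₗ[K] U} (hP : Ph G a dU φ)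
    {q k : ℕ} {u : K ⊗[κ] V} (hu : u ∈ G.VK K q k) :
    φ (G.io.baseChange K (algebraMap κ K (G.lam k) • G.d.baseChange K u +
      algebraMap κ K (G.lam (k + 1)) • G.TK a u)) =
      -(algebraMap κ K (G.lam k) • dU (φ (G.io.baseChange K u))) := by
  have h1 : φ (G.io.baseChange K (G.d.baseChange K u)) =
      algebraMap κ K (G.e * (G.θ + k)) • φ u - dU (φ (G.io.baseChange K u)) := by
    rw [← hP.d, eq_sub_iff_add_eq, ← map_add, C4A_cartan hG hu, map_smul]
  have h2 : φ (G.io.baseChange K (G.TK a u)) = algebraMap κ K G.e • φ u := by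
    have h3 := congrArg φ (C4A_io_TK hG a u)
    rw [map_add, map_smul, hP.mul, hP.wd, add_zero] at h3
    exact h3
  have h4 : G.lam (k + 1) = -(G.θ + k) * G.lam k := rfl
  rw [map_add, map_add, map_smul, map_smul, map_smul, map_smul, h1, h2, h4, smul_sub, smul_smul, smul_smul,
    ← map_mul, ← map_mul]
  have h5 : -(G.θ + (k : κ)) * G.lam k * G.e = -(G.lam k * (G.e * (G.θ + k))) := by ring
  rw [h5, map_neg, neg_smul]
  abel

section frac

variable [Algebra (MvPolynomial Γ κ) K] [IsScalarTower κ (MvPolynomial Γ κ) K]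

/-- The natural map from the forms over `R` to the forms over `K`. -/
private noncomputable def C4A_io (Γ : Type) [Fintype Γ] (κ : Type u) [Field κ] (V : Type u) [AddCommGroup V]
    [Module κ V] (K : Type u) [Field K] [Algebra κ K] [Algebra (MvPolynomial Γ κ) K]
    [IsScalarTower κ (MvPolynomial Γ κ) K] : MvPolynomial Γ κ ⊗[κ] V →ₗ[κ] K ⊗[κ] V :=
  LinearMap.rTensor V (IsScalarTower.toAlgHom κ (MvPolynomial Γ κ) K).toLinearMap

private theorem C4A_io_tmul (r : MvPolynomial Γ κ) (v : V) :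
    C4A_io Γ κ V K (r ⊗ₜ[κ] v) = algebraMap (MvPolynomial Γ κ) K r ⊗ₜ[κ] v := by
  unfold C4A_io
  rw [LinearMap.rTensor_tmul]
  rfl

private theorem C4A_io_smul (r : MvPolynomial Γ κ) (x : MvPolynomial Γ κ ⊗[κ] V) :
    C4A_io Γ κ V K (r • x) = algebraMap (MvPolynomial Γ κ) K r • C4A_io Γ κ V K x := by
  induction x using TensorProduct.induction_on with
  | zero => simp only [smul_zero, map_zero]
  | tmul f v =>
    rw [TensorProduct.smul_tmul', C4A_io_tmul, C4A_io_tmul, TensorProduct.smul_tmul', smul_eq_mul, smul_eq_mul,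
      map_mul]
  | add x y hx hy => rw [smul_add, map_add, map_add, smul_add, hx, hy]

private theorem C4A_io_bc (f : V →ₗ[κ] V) (x : MvPolynomial Γ κ ⊗[κ] V) :
    C4A_io Γ κ V K (f.baseChange (MvPolynomial Γ κ) x) = f.baseChange K (C4A_io Γ κ V K x) := by
  induction x using TensorProduct.induction_on with
  | zero => simp only [map_zero]
  | tmul r v => rw [LinearMap.baseChange_tmul, C4A_io_tmul, C4A_io_tmul, LinearMap.baseChange_tmul]
  | add x y hx hy => simp only [map_add, hx, hy]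

private theorem C4A_io_TF (G : Cx κ Γ V) (x : MvPolynomial Γ κ ⊗[κ] V) :
    C4A_io Γ κ V K (G.TF x) =
      G.TK (fun γ => algebraMap (MvPolynomial Γ κ) K (X γ)) (C4A_io Γ κ V K x) := by
  unfold Cx.TF Cx.TK
  rw [LinearMap.sum_apply, LinearMap.sum_apply, map_sum]
  refine Finset.sum_congr rfl fun γ _ => ?_
  rw [LinearMap.smul_apply, LinearMap.smul_apply, C4A_io_smul, C4A_io_bc]

private theorem C4A_io_mem (G : Cx κ Γ V) {q k : ℕ} {x : MvPolynomial Γ κ ⊗[κ] V} (hx : x ∈ G.VR q k) :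
    C4A_io Γ κ V K x ∈ G.VK K q k := by
  unfold Cx.VR at hx
  refine C4A_ind (p := fun x => C4A_io Γ κ V K x ∈ G.VK K q k) ?_ ?_ ?_ ?_ hx
  · rw [map_zero]
    exact Submodule.zero_mem _
  · intro v hv
    rw [C4A_io_tmul]
    exact Submodule.tmul_mem_baseChange_of_mem _ hv
  · intro x y hx hy
    rw [map_add]
    exact Submodule.add_mem _ hx hy
  · intro c x hx
    rw [C4A_io_smul]
    exact Submodule.smul_mem _ _ hx

private theorem C4A_io_inj [IsFractionRing (MvPolynomial Γ κ) K] :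
    Function.Injective (C4A_io Γ κ V K) := by
  unfold C4A_io
  refine Module.Flat.rTensor_preserves_injective_linearMap _ ?_
  exact IsFractionRing.injective (MvPolynomial Γ κ) K

private theorem C4A_den [IsFractionRing (MvPolynomial Γ κ) K] (G : Cx κ Γ V) {q k : ℕ} {x : K ⊗[κ] V}
    (hx : x ∈ G.VK K q k) : ∃ r : MvPolynomial Γ κ, r ≠ 0 ∧ ∃ x' ∈ G.VR q k,
      algebraMap (MvPolynomial Γ κ) K r • x = C4A_io Γ κ V K x' := by
  unfold Cx.VK at hx
  refine C4A_ind (p := fun x => ∃ r : MvPolynomial Γ κ, r ≠ 0 ∧ ∃ x' ∈ G.VR q k,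
      algebraMap (MvPolynomial Γ κ) K r • x = C4A_io Γ κ V K x') ?_ ?_ ?_ ?_ hx
  · exact ⟨1, one_ne_zero, 0, Submodule.zero_mem _, by rw [smul_zero, map_zero]⟩
  · intro v hv
    refine ⟨1, one_ne_zero, 1 ⊗ₜ[κ] v, Submodule.tmul_mem_baseChange_of_mem _ hv, ?_⟩
    rw [C4A_io_tmul, map_one, one_smul]
  · rintro x y ⟨r, hr, x', hx', h1⟩ ⟨s, hs, y', hy', h2⟩
    refine ⟨r * s, mul_ne_zero hr hs, s • x' + r • y',
      Submodule.add_mem _ (Submodule.smul_mem _ _ hx') (Submodule.smul_mem _ _ hy'), ?_⟩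
    rw [map_add, C4A_io_smul, C4A_io_smul, ← h1, ← h2, smul_add, smul_smul, smul_smul, ← map_mul, ← map_mul,
      mul_comm s r]
  · rintro c x ⟨r, hr, x', hx', h1⟩
    obtain ⟨a, b, hb, rfl⟩ := IsFractionRing.div_surjective (A := MvPolynomial Γ κ) c
    have hb0 : b ≠ 0 := nonZeroDivisors.ne_zero hb
    have hb1 : algebraMap (MvPolynomial Γ κ) K b ≠ 0 := fun h => hb0
      ((IsFractionRing.injective (MvPolynomial Γ κ) K) (h.trans (map_zero _).symm))
    refine ⟨b * r, mul_ne_zero hb0 hr, a • x', Submodule.smul_mem _ _ hx', ?_⟩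
    rw [C4A_io_smul, ← h1, smul_smul, smul_smul, map_mul]
    congr 1
    field_simp

end frac

theorem exact_of_vanish [Algebra (MvPolynomial Γ κ) K] [IsScalarTower κ (MvPolynomial Γ κ) K]
    [IsFractionRing (MvPolynomial Γ κ) K] {G : Cx κ Γ V} (hG : G.Ok) {q : ℕ} (hK : G.Kos q) {dU : U →ₗ[K] U}
    {φ : K ⊗[κ] V →ₗ[K] U} (hP : Ph G (fun γ => algebraMap (MvPolynomial Γ κ) K (X γ)) dU φ) {k : ℕ}
    {t : K ⊗[κ] V} (ht : t ∈ G.VK K (q + 1) k) (h1 : G.d.baseChange K t = 0)
    (h2 : G.TK (fun γ => algebraMap (MvPolynomial Γ κ) K (X γ)) t = 0) :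
    ∃ b ∈ ⨆ k, G.VK K q k, φ (G.io.baseChange K t) = dU (φ (G.io.baseChange K b)) := by
  obtain ⟨r, hr, t', ht', h3⟩ := C4A_den G ht
  have hn : G.nF t' = 0 := by
    apply C4A_io_inj (Γ := Γ) (κ := κ) (V := V) (K := K)
    unfold Cx.nF
    rw [LinearMap.add_apply, map_add, C4A_io_bc, C4A_io_TF, ← h3, map_smul, map_smul, h1, h2, smul_zero,
      add_zero, map_zero]
  obtain ⟨b, hb, hb'⟩ := vanish hG hK (Submodule.mem_iSup_of_mem k ht') hn
  obtain ⟨f, hf, rfl⟩ := (Submodule.mem_iSup_iff_exists_finsupp _ _).mp hb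
  obtain ⟨N, hN⟩ : ∃ N : ℕ, k < N ∧ ∀ i, N ≤ i → f i = 0 := by
    refine ⟨max (k + 1) (f.support.sup id + 1), lt_of_lt_of_le (Nat.lt_succ_self k) (le_max_left _ _), ?_⟩
    intro i hi
    by_contra h
    have h4 : i ≤ f.support.sup id := Finset.le_sup (f := id) (Finsupp.mem_support_iff.mpr h)
    have h5 := le_trans (le_max_right _ _) hi
    omega
  obtain ⟨hkN, hN⟩ := hN
  have hsum : (f.sum fun _ x => x) = ∑ i ∈ Finset.range (N + 1), f i := by
    unfold Finsupp.sum
    refine Finset.sum_subset ?_ fun i _ hi => Finsupp.notMem_support_iff.mp hi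
    intro i hi
    rw [Finset.mem_range]
    by_contra h
    exact Finsupp.mem_support_iff.mp hi (hN i (by omega))
  rw [hsum] at hb'
  -- the components
  let c : ℕ → MvPolynomial Γ κ ⊗[κ] V := fun i => G.d.baseChange (MvPolynomial Γ κ) (f i) +
    (if i = 0 then 0 else G.TF (f (i - 1))) - (if i = k then t' else 0)
  have hc : ∀ i, c i ∈ G.VR (q + 1) i := by
    intro i
    refine Submodule.sub_mem _ (Submodule.add_mem _ (d_VR hG (hf i)) ?_) ?_
    · rcases i with _ | i
      · rw [if_pos rfl]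
        exact Submodule.zero_mem _
      · rw [if_neg (Nat.succ_ne_zero i), Nat.add_sub_cancel]
        exact TF_VR hG (hf i)
    · split_ifs with h
      · rw [h]
        exact ht'
      · exact Submodule.zero_mem _
  have hT : ∑ i ∈ Finset.range (N + 1), (if i = 0 then 0 else G.TF (f (i - 1))) =
      ∑ i ∈ Finset.range (N + 1), G.TF (f i) := by
    rw [Finset.sum_range_succ', Finset.sum_range_succ, if_pos rfl, hN N le_rfl, map_zero]
    congr 1
  have hc0 : ∑ i ∈ Finset.range (N + 1), c i = 0 := by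
    rw [Finset.sum_sub_distrib, Finset.sum_add_distrib, hT, Finset.sum_ite_eq' (Finset.range (N + 1)) k,
      if_pos (Finset.mem_range.mpr (by omega)), ← Finset.sum_add_distrib, ← hb', map_sum, sub_eq_zero]
    rfl
  have hc1 := (iSupIndep_iff_finsetSum_eq_zero_imp_eq_zero _).mp (VR_indep hG (q + 1)) (Finset.range (N + 1)) c
    (fun i _ => hc i) hc0
  -- the sum with the constants
  let g : ℕ → K ⊗[κ] V := fun i => C4A_io Γ κ V K (f i)
  let a : Γ → K := fun γ => algebraMap (MvPolynomial Γ κ) K (X γ)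
  let L : ℕ → K := fun i => algebraMap κ K (G.lam i)
  have hg : ∀ i, g i ∈ G.VK K q i := fun i => C4A_io_mem G (hf i)
  have hgN : g N = 0 := by
    change C4A_io Γ κ V K (f N) = 0
    rw [hN N le_rfl, map_zero]
  have e1 : ∀ i, L i • φ (G.io.baseChange K (G.d.baseChange K (g i))) +
      L (i + 1) • φ (G.io.baseChange K (G.TK a (g i))) = -(L i • dU (φ (G.io.baseChange K (g i)))) := by
    intro i
    have h5 := ph_rel hG hP (hg i)
    rw [map_add, map_add, map_smul, map_smul, map_smul, map_smul] at h5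
    exact h5
  have e2 : ∀ i ∈ Finset.range (N + 1), L i • φ (G.io.baseChange K (G.d.baseChange K (g i))) +
      (if i = 0 then 0 else L i • φ (G.io.baseChange K (G.TK a (g (i - 1))))) =
      if i = k then L k • φ (G.io.baseChange K (C4A_io Γ κ V K t')) else 0 := by
    intro i hi
    have h5 := congrArg (fun y => L i • φ (G.io.baseChange K (C4A_io Γ κ V K y))) (hc1 i hi)
    simp only [c, map_sub, map_add, map_zero, smul_zero, smul_sub, smul_add] at h5
    rw [sub_eq_zero, C4A_io_bc] at h5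
    have h6 : L i • φ (G.io.baseChange K (C4A_io Γ κ V K (if i = 0 then 0 else G.TF (f (i - 1))))) =
        if i = 0 then 0 else L i • φ (G.io.baseChange K (G.TK a (g (i - 1)))) := by
      split_ifs with h
      · simp only [map_zero, smul_zero]
      · rw [C4A_io_TF]
    have h7 : L i • φ (G.io.baseChange K (C4A_io Γ κ V K (if i = k then t' else 0))) =
        if i = k then L k • φ (G.io.baseChange K (C4A_io Γ κ V K t')) else 0 := by
      split_ifs with h
      · rw [h]
      · simp only [map_zero, smul_zero]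
    rw [h6, h7] at h5
    exact h5
  have e3 : L k • φ (G.io.baseChange K (C4A_io Γ κ V K t')) =
      -∑ i ∈ Finset.range (N + 1), L i • dU (φ (G.io.baseChange K (g i))) := by
    have h5 := Finset.sum_congr rfl e2
    rw [Finset.sum_ite_eq' (Finset.range (N + 1)) k, if_pos (Finset.mem_range.mpr (by omega)),
      Finset.sum_add_distrib] at h5
    have h6 : ∑ i ∈ Finset.range (N + 1),
        (if i = 0 then 0 else L i • φ (G.io.baseChange K (G.TK a (g (i - 1))))) =
        ∑ i ∈ Finset.range (N + 1), L (i + 1) • φ (G.io.baseChange K (G.TK a (g i))) := by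
      rw [Finset.sum_range_succ', Finset.sum_range_succ, if_pos rfl, hgN]
      simp only [map_zero, smul_zero]
      congr 1
    rw [h6, ← Finset.sum_add_distrib] at h5
    rw [← h5, ← Finset.sum_neg_distrib]
    exact Finset.sum_congr rfl fun i _ => e1 i
  have hr1 : algebraMap (MvPolynomial Γ κ) K r ≠ 0 := fun h => hr
    ((IsFractionRing.injective (MvPolynomial Γ κ) K) (h.trans (map_zero _).symm))
  have hL : L k ≠ 0 := fun h => lam_ne G hG k
    ((algebraMap κ K).injective (h.trans (map_zero _).symm))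
  rw [← h3, map_smul, map_smul, smul_smul] at e3
  refine ⟨-((L k * algebraMap (MvPolynomial Γ κ) K r)⁻¹ • ∑ i ∈ Finset.range (N + 1), L i • g i), ?_, ?_⟩
  · refine Submodule.neg_mem _ (Submodule.smul_mem _ _ (Submodule.sum_mem _ fun i _ => ?_))
    exact Submodule.smul_mem _ _ (Submodule.mem_iSup_of_mem i (hg i))
  · have h8 : φ (G.io.baseChange K t) = (L k * algebraMap (MvPolynomial Γ κ) K r)⁻¹ •
        ((L k * algebraMap (MvPolynomial Γ κ) K r) • φ (G.io.baseChange K t)) := by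
      rw [smul_smul, inv_mul_cancel₀ (mul_ne_zero hL hr1), one_smul]
    rw [h8, e3, map_neg, map_neg, map_neg, map_smul, map_smul, map_smul, smul_neg, map_sum, map_sum, map_sum]
    congr 2
    refine Finset.sum_congr rfl fun i _ => ?_
    rw [map_smul, map_smul, map_smul]

end abs

end MPadcDC
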