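import Pool.Agent.Lib.MP_adc574_ag_DC.C4A

/-!
# JOB C4C (DC): the class map

(1) `c`: the `Vd (m + 1) k`, `k ∈ ℕ`, are independent (`hG.indep (m + 1)`), so there is a `κ`-linear map `c : V → H` (H as a `κ`-space: `a • h := algebraMap κ K a • h`, `Module.compHom`) with `c w = lam k • s ⟨φ (1 ⊗ io w), _⟩` for `w ∈ Vd (m + 1) k`: general lemma `exists_glue`: for an independent family of submodules `A k` of a vector space `V` and linear maps `f k : A k → H` there is a linear `c : V → H` with `c = f k` on `A k`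
(`DirectSum.toModule`/`iSupIndep.dfinsupp_lsum_injective` gives `(⨁ A k) ≃ ⨆ A k`, extend from the subspace to `V`: `LinearMap.exists_extend`).
(2) `Con`: `dK_alg`: `hdK`. `leib`: `hleib`. `smul`: linearity (`algebraMap κ K a = algebraMap R K (C a)`, scalar tower). `span`: `hs`: `h = s η`, `hsp η`: `η` is a `K`-combination of the `φ (1 ⊗ io w)`, `w ∈ Vd (m + 1) k`, which are in `Z` (`hZ`), so `s η` is the combination of the `s ⟨..⟩ = (lam k)⁻¹ • c w` (`lam_ne`; induct with the predicate `∃ h : η ∈ Z, s ⟨η, h⟩ ∈ span ..`). `nabc`: `nab γ (c w) = nab γ (lam k • s ..) =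
lam k • nab γ (s ..)` (`dK γ` kills the constants: `pderiv_C`) `= lam k * (-(θ + k)) • s ⟨φ (1 ⊗ io (mul γ w)), _⟩ = c (mul γ w)`, `mul γ w ∈ Vd (m + 1) (k + 1)` (`hnab`, `hG.mul_mem`). `rel`: `u ∈ Vd m k`: `c (d u) + ∑ a_γ c (wd γ u) = s ⟨φ (ι (lam k • d + lam (k + 1) • TK)(1 ⊗ u))⟩ = s ⟨- lam k • dU (φ (1 ⊗ io u))⟩ = 0` (`ph_rel`, `hex`; `hG.d_mem`, `wd_mem`). `eul`: `∑ a_γ c (mul γ w) = lam (k + 1) • s ⟨∑ a_γ φ (1 ⊗ io (mul γ w))⟩`, `io (mul γ w) = mul γ (io w)` (`hio`),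
`∑ a_γ φ (1 ⊗ mul γ (io w)) = φ (MK (1 ⊗ io w)) = φ (1 ⊗ io w)` (`hP.mul`), so `= lam (k + 1) • s ⟨φ (1 ⊗ io w)⟩ = -(θ + k) • c w`. `comm`: `nab γ` and `nab γ'` commute on the `c w` (`nabc`, `mul_mul`) and, by Leibniz and the commutation of `dK γ` and `dK γ'` (on `R`: `pderiv` commute; on fractions by the quotient rule), on all of `H` (`span`, span induction).
-/

set_option autoImplicit false
set_option linter.unusedSectionVars false

namespace MPadcDC

open MvPolynomial TensorProduct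

universe u

/-- Gluing of linear maps on independent submodules. -/
private theorem C4C_glue {κ : Type u} [Field κ] {V : Type u} [AddCommGroup V] [Module κ V]
    {H : Type u} [AddCommGroup H] [Module κ H] (A : ℕ → Submodule κ V) (hA : iSupIndep A)
    (f : ∀ k, A k →ₗ[κ] H) : ∃ c : V →ₗ[κ] H, ∀ k x (hx : x ∈ A k), c x = f k ⟨x, hx⟩ := by
  classical
  obtain ⟨g, hg⟩ := LinearMap.exists_leftInverse_of_injective
    (DFinsupp.lsum ℕ fun k => (A k).subtype)
    (LinearMap.ker_eq_bot.2 hA.dfinsupp_lsum_injective)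
  refine ⟨(DFinsupp.lsum ℕ f).comp g, fun k x hx => ?_⟩
  have h1 : x = (DFinsupp.lsum ℕ fun k => (A k).subtype)
      (DFinsupp.single k (⟨x, hx⟩ : A k)) := by
    rw [DFinsupp.lsum_single]
    rfl
  have h2 : g x = DFinsupp.single k (⟨x, hx⟩ : A k) := by
    conv_lhs => rw [h1]
    exact LinearMap.congr_fun hg _
  rw [LinearMap.comp_apply, h2, DFinsupp.lsum_single]

/-- The partial derivatives commute. -/
private theorem C4C_pderiv {κ : Type u} [Field κ] {Γ : Type} (γ γ' : Γ) (r : MvPolynomial Γ κ) :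
    pderiv γ (pderiv γ' r) = pderiv γ' (pderiv γ r) := by
  classical
  have h1 : ⁅(pderiv γ : Derivation κ (MvPolynomial Γ κ) (MvPolynomial Γ κ)),
      (pderiv γ' : Derivation κ (MvPolynomial Γ κ) (MvPolynomial Γ κ))⁆ = 0 := by
    refine MvPolynomial.derivation_ext fun i => ?_
    rw [Derivation.commutator_apply, pderiv_X, pderiv_X, Derivation.zero_apply]
    have h2 : ∀ j l : Γ, pderiv j (Pi.single (M := fun _ => MvPolynomial Γ κ) l 1 i) = 0 := by
      intro j l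
      by_cases h3 : i = l
      · subst h3
        rw [Pi.single_eq_same, pderiv_one]
      · rw [Pi.single_eq_of_ne h3, map_zero]
    rw [h2, h2, sub_zero]
  have h2 := Derivation.congr_fun h1 r
  rw [Derivation.commutator_apply, Derivation.zero_apply, sub_eq_zero] at h2
  exact h2

section abs

variable {κ : Type u} [Field κ] [CharZero κ] {Γ : Type} [Fintype Γ] [DecidableEq Γ] {V : Type u}
  [AddCommGroup V] [Module κ V] {K : Type u} [Field K] [Algebra κ K] {U : Type u} [AddCommGroup U] [Module K U]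

theorem exists_con [Algebra (MvPolynomial Γ κ) K] [IsScalarTower κ (MvPolynomial Γ κ) K]
    [IsFractionRing (MvPolynomial Γ κ) K] {G : Cx κ Γ V} (hG : G.Ok)
    (hio : ∀ γ x, G.io (G.mul γ x) = G.mul γ (G.io x)) {m : ℕ} {dU : U →ₗ[K] U}
    {φ : K ⊗[κ] V →ₗ[K] U} (hP : Ph G (fun γ => algebraMap (MvPolynomial Γ κ) K (X γ)) dU φ)
    {dK : Γ → Derivation ℤ K K}
    (hdK : ∀ γ r, dK γ (algebraMap (MvPolynomial Γ κ) K r) = algebraMap (MvPolynomial Γ κ) K (pderiv γ r))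
    {H : Type u} [AddCommGroup H] [Module K H] {nab : Γ → H →+ H}
    (hleib : ∀ γ (f : K) x, nab γ (f • x) = dK γ f • x + f • nab γ x) (Z : Submodule K U) (s : ↥Z →ₗ[K] H)
    (hs : Function.Surjective s)
    (hZ : ∀ k, ∀ w ∈ G.Vd (m + 1) k, φ (1 ⊗ₜ G.io w) ∈ Z)
    (hex : ∀ k, ∀ u ∈ G.Vd m k, ∀ h : dU (φ (1 ⊗ₜ G.io u)) ∈ Z, s ⟨_, h⟩ = 0)
    (hsp : ∀ η ∈ Z, η ∈ Submodule.span K {y | ∃ k, ∃ w ∈ G.Vd (m + 1) k, φ (1 ⊗ₜ G.io w) = y})
    (hnab : ∀ γ k w (hw : w ∈ G.Vd (m + 1) k) (h' : φ (1 ⊗ₜ G.io (G.mul γ w)) ∈ Z),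
      nab γ (s ⟨_, hZ k w hw⟩) = -(algebraMap κ K (G.θ + k) • s ⟨_, h'⟩)) :
    ∃ c : V →+ H, Con G m dK nab c := by
  classical
  let modH : Module κ H := Module.compHom H (algebraMap κ K)
  have hsm : ∀ (a : κ) (h : H), a • h = algebraMap κ K a • h := fun a h => rfl
  have hphi : ∀ (a : κ) (v : V), φ (1 ⊗ₜ (a • v)) = algebraMap κ K a • φ (1 ⊗ₜ v) := by
    intro a v
    rw [TensorProduct.tmul_smul, ← algebraMap_smul K a, map_smul]
  -- the maps on the pieces
  have hf : ∀ k, ∃ f : G.Vd (m + 1) k →ₗ[κ] H, ∀ w (hw : w ∈ G.Vd (m + 1) k),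
      f ⟨w, hw⟩ = algebraMap κ K (G.lam k) • s ⟨φ (1 ⊗ₜ G.io w), hZ k w hw⟩ := by
    intro k
    refine ⟨{ toFun := fun w => algebraMap κ K (G.lam k) • s ⟨φ (1 ⊗ₜ G.io w.1), hZ k w.1 w.2⟩
              map_add' := ?_, map_smul' := ?_ }, fun w hw => rfl⟩
    · intro x y
      rw [← smul_add, ← map_add]
      refine congrArg (fun t => algebraMap κ K (G.lam k) • s t) (Subtype.ext ?_)
      show φ (1 ⊗ₜ G.io (x.1 + y.1)) = φ (1 ⊗ₜ G.io x.1) + φ (1 ⊗ₜ G.io y.1)
      rw [map_add, TensorProduct.tmul_add, map_add]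
    · intro a x
      have h1 : (⟨φ (1 ⊗ₜ G.io (a • x).1), hZ k (a • x).1 (a • x).2⟩ : Z) =
          algebraMap κ K a • ⟨φ (1 ⊗ₜ G.io x.1), hZ k x.1 x.2⟩ := by
        refine Subtype.ext ?_
        show φ (1 ⊗ₜ G.io (a • x.1)) = algebraMap κ K a • φ (1 ⊗ₜ G.io x.1)
        rw [map_smul, hphi]
      rw [RingHom.id_apply, hsm, h1, map_smul, smul_comm]
  choose f hf using hf
  obtain ⟨c, hc⟩ := C4C_glue (G.Vd (m + 1)) (hG.indep (m + 1)) f
  have hcw : ∀ k w (hw : w ∈ G.Vd (m + 1) k), c w =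
      algebraMap κ K (G.lam k) • s ⟨φ (1 ⊗ₜ G.io w), hZ k w hw⟩ := by
    intro k w hw
    rw [hc k w hw, hf k w hw]
  have hlam : ∀ k, algebraMap κ K (G.lam k) ≠ 0 := fun k h =>
    lam_ne G hG k ((map_eq_zero_iff _ (algebraMap κ K).injective).1 h)
  have hlam1 : ∀ k, algebraMap κ K (G.lam (k + 1)) =
      -(algebraMap κ K (G.θ + k) * algebraMap κ K (G.lam k)) := by
    intro k
    rw [← map_mul, ← map_neg]
    refine congrArg (algebraMap κ K) ?_
    show -(G.θ + k) * G.lam k = _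
    ring
  have halg : ∀ a : κ, algebraMap (MvPolynomial Γ κ) K (C a) = algebraMap κ K a := by
    intro a
    rw [IsScalarTower.algebraMap_apply κ (MvPolynomial Γ κ) K a, MvPolynomial.algebraMap_eq]
  have hdC : ∀ γ (a : κ), dK γ (algebraMap κ K a) = 0 := by
    intro γ a
    rw [← halg, hdK, pderiv_C, map_zero]
  have hspan : ∀ h : H, h ∈ Submodule.span K {y | ∃ k, ∃ x ∈ G.Vd (m + 1) k, c x = y} := by
    intro h
    obtain ⟨η, rfl⟩ := hs h
    have h1 : ∀ x ∈ Submodule.span K {y | ∃ k, ∃ w ∈ G.Vd (m + 1) k, φ (1 ⊗ₜ G.io w) = y},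
        ∃ hx : x ∈ Z, s ⟨x, hx⟩ ∈
          Submodule.span K {y | ∃ k, ∃ x ∈ G.Vd (m + 1) k, c x = y} := by
      intro x hx
      induction hx using Submodule.span_induction with
      | mem y h =>
        obtain ⟨k, w, hw, rfl⟩ := h
        refine ⟨hZ k w hw, ?_⟩
        have h2 : s ⟨φ (1 ⊗ₜ G.io w), hZ k w hw⟩ = (algebraMap κ K (G.lam k))⁻¹ • c w := by
          rw [hcw k w hw, smul_smul, inv_mul_cancel₀ (hlam k), one_smul]
        rw [h2]
        exact Submodule.smul_mem _ _ (Submodule.subset_span ⟨k, w, hw, rfl⟩)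
      | zero =>
        refine ⟨Submodule.zero_mem _, ?_⟩
        have h2 : (⟨0, Submodule.zero_mem _⟩ : Z) = 0 := rfl
        rw [h2, map_zero]
        exact Submodule.zero_mem _
      | add x y _ _ h h' =>
        obtain ⟨hx, h1⟩ := h
        obtain ⟨hy, h2⟩ := h'
        refine ⟨Submodule.add_mem _ hx hy, ?_⟩
        have h3 : (⟨x + y, Submodule.add_mem _ hx hy⟩ : Z) = ⟨x, hx⟩ + ⟨y, hy⟩ := rfl
        rw [h3, map_add]
        exact Submodule.add_mem _ h1 h2
      | smul a x _ h =>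
        obtain ⟨hx, h1⟩ := h
        refine ⟨Submodule.smul_mem _ _ hx, ?_⟩
        have h3 : (⟨a • x, Submodule.smul_mem _ _ hx⟩ : Z) = a • ⟨x, hx⟩ := rfl
        rw [h3, map_smul]
        exact Submodule.smul_mem _ _ h1
    exact (h1 η.1 (hsp η.1 η.2)).2
  have hnabc : ∀ γ k, ∀ x ∈ G.Vd (m + 1) k, nab γ (c x) = c (G.mul γ x) := by
    intro γ k x hx
    have hx' := hG.mul_mem γ (m + 1) k x hx
    rw [hcw k x hx, hcw (k + 1) _ hx', hleib, hdC, zero_smul, zero_add,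
      hnab γ k x hx (hZ (k + 1) _ hx'), hlam1, smul_neg, neg_smul, smul_smul, mul_comm]
  have hcommD : ∀ γ γ' (x : K), dK γ (dK γ' x) = dK γ' (dK γ x) := by
    intro γ γ' x
    have h1 : ∀ r : MvPolynomial Γ κ,
        ⁅dK γ, dK γ'⁆ (algebraMap (MvPolynomial Γ κ) K r) = 0 := by
      intro r
      rw [Derivation.commutator_apply, hdK, hdK, hdK, hdK, C4C_pderiv, sub_self]
    obtain ⟨u, v, hv, rfl⟩ := IsFractionRing.div_surjective (A := MvPolynomial Γ κ) x
    have hv1 : algebraMap (MvPolynomial Γ κ) K v ≠ 0 := fun h2 =>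
      nonZeroDivisors.ne_zero hv
        ((map_eq_zero_iff _ (IsFractionRing.injective (MvPolynomial Γ κ) K)).1 h2)
    have h2 := h1 u
    have h3 : algebraMap (MvPolynomial Γ κ) K u = algebraMap (MvPolynomial Γ κ) K v *
        (algebraMap (MvPolynomial Γ κ) K u / algebraMap (MvPolynomial Γ κ) K v) := by
      field_simp
    rw [h3, Derivation.leibniz, h1 v, smul_zero, add_zero, smul_eq_mul] at h2
    have h4 := (mul_eq_zero.1 h2).resolve_left hv1
    rw [Derivation.commutator_apply, sub_eq_zero] at h4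
    exact h4
  refine ⟨c.toAddMonoidHom, hdK, hleib, ?_, ?_, hspan, hnabc, ?_, ?_⟩
  · -- commutation
    intro γ γ' x
    have hx := hspan x
    induction hx using Submodule.span_induction with
    | mem y h =>
      obtain ⟨k, w, hw, rfl⟩ := h
      rw [hnabc γ' k w hw, hnabc γ (k + 1) _ (hG.mul_mem γ' (m + 1) k w hw),
        hnabc γ k w hw, hnabc γ' (k + 1) _ (hG.mul_mem γ (m + 1) k w hw), hG.mul_mul]
    | zero => simp only [map_zero]
    | add x y _ _ h h' => rw [map_add, map_add, map_add, map_add, h, h']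
    | smul a x _ h =>
      rw [hleib γ', hleib γ, map_add, map_add, hleib, hleib, hleib, hleib, h, hcommD γ γ' a]
      abel
  · intro a x
    show c (a • x) = _
    rw [map_smul, halg]
    rfl
  · -- the relation
    intro k x hx
    have hd := hG.d_mem m k x hx
    have hw := fun γ => hG.wd_mem γ m k x hx
    show c (G.d x) + ∑ γ, algebraMap (MvPolynomial Γ κ) K (X γ) • c (G.wd γ x) = 0
    have hu : (1 : K) ⊗ₜ[κ] x ∈ G.VK K m k := Submodule.tmul_mem_baseChange_of_mem 1 hx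
    have h1 := ph_rel hG hP hu
    have h2 : φ (G.io.baseChange K (algebraMap κ K (G.lam k) • G.d.baseChange K ((1 : K) ⊗ₜ[κ] x) +
        algebraMap κ K (G.lam (k + 1)) •
          G.TK (fun γ => algebraMap (MvPolynomial Γ κ) K (X γ)) ((1 : K) ⊗ₜ[κ] x))) =
        algebraMap κ K (G.lam k) • φ (1 ⊗ₜ G.io (G.d x)) +
          ∑ γ, algebraMap (MvPolynomial Γ κ) K (X γ) •
            (algebraMap κ K (G.lam (k + 1)) • φ (1 ⊗ₜ G.io (G.wd γ x))) := by
      rw [map_add, map_add, map_smul, map_smul, map_smul, map_smul, LinearMap.baseChange_tmul,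
        LinearMap.baseChange_tmul]
      refine congrArg (algebraMap κ K (G.lam k) • φ (1 ⊗ₜ G.io (G.d x)) + ·) ?_
      unfold Cx.TK
      rw [LinearMap.sum_apply, map_sum, map_sum, Finset.smul_sum]
      refine Finset.sum_congr rfl fun γ _ => ?_
      rw [LinearMap.smul_apply, LinearMap.baseChange_tmul, map_smul, map_smul,
        LinearMap.baseChange_tmul, smul_comm]
    rw [h2, LinearMap.baseChange_tmul] at h1
    have hmem : algebraMap κ K (G.lam k) • φ (1 ⊗ₜ G.io (G.d x)) +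
          ∑ γ, algebraMap (MvPolynomial Γ κ) K (X γ) •
            (algebraMap κ K (G.lam (k + 1)) • φ (1 ⊗ₜ G.io (G.wd γ x))) ∈ Z :=
      Submodule.add_mem _ (Submodule.smul_mem _ _ (hZ k _ hd)) (Submodule.sum_mem _ fun γ _ =>
        Submodule.smul_mem _ _ (Submodule.smul_mem _ _ (hZ (k + 1) _ (hw γ))))
    have hmem2 : dU (φ (1 ⊗ₜ G.io x)) ∈ Z := by
      rw [h1] at hmem
      have h3 := Submodule.smul_mem Z (-(algebraMap κ K (G.lam k))⁻¹) hmem
      rw [smul_neg, neg_smul, neg_neg, smul_smul, inv_mul_cancel₀ (hlam k), one_smul] at h3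
      exact h3
    have h4 : c (G.d x) + ∑ γ, algebraMap (MvPolynomial Γ κ) K (X γ) • c (G.wd γ x) =
        s ⟨_, hmem⟩ := by
      rw [hcw k _ hd]
      have h5 : ∀ γ, algebraMap (MvPolynomial Γ κ) K (X γ) • c (G.wd γ x) =
          s (algebraMap (MvPolynomial Γ κ) K (X γ) • algebraMap κ K (G.lam (k + 1)) •
            ⟨φ (1 ⊗ₜ G.io (G.wd γ x)), hZ (k + 1) _ (hw γ)⟩) := by
        intro γ
        rw [hcw (k + 1) _ (hw γ), map_smul, map_smul]
      rw [Finset.sum_congr rfl fun γ _ => h5 γ, ← map_sum, ← map_smul, ← map_add]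
      refine congrArg s (Subtype.ext ?_)
      rw [Submodule.coe_add, Submodule.coe_smul, Submodule.coe_sum]
      rfl
    rw [h4]
    have h6 : (⟨_, hmem⟩ : Z) = -(algebraMap κ K (G.lam k) • ⟨dU (φ (1 ⊗ₜ G.io x)), hmem2⟩) :=
      Subtype.ext h1
    rw [h6, map_neg, map_smul, hex k x hx hmem2, smul_zero, neg_zero]
  · -- the Euler relation
    intro k x hx
    have hw := fun γ => hG.mul_mem γ (m + 1) k x hx
    show ∑ γ, algebraMap (MvPolynomial Γ κ) K (X γ) • c (G.mul γ x) =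
      -(algebraMap (MvPolynomial Γ κ) K (C (G.θ + k)) • c x)
    have h5 : ∀ γ, algebraMap (MvPolynomial Γ κ) K (X γ) • c (G.mul γ x) =
        algebraMap κ K (G.lam (k + 1)) • s (algebraMap (MvPolynomial Γ κ) K (X γ) •
          ⟨φ (1 ⊗ₜ G.io (G.mul γ x)), hZ (k + 1) _ (hw γ)⟩) := by
      intro γ
      rw [hcw (k + 1) _ (hw γ), map_smul, smul_comm]
    rw [Finset.sum_congr rfl fun γ _ => h5 γ, ← Finset.smul_sum, ← map_sum]
    have h6 : (∑ γ, algebraMap (MvPolynomial Γ κ) K (X γ) •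
        (⟨φ (1 ⊗ₜ G.io (G.mul γ x)), hZ (k + 1) _ (hw γ)⟩ : Z)) =
        ⟨φ (1 ⊗ₜ G.io x), hZ k x hx⟩ := by
      refine Subtype.ext ?_
      rw [Submodule.coe_sum]
      show ∑ γ, algebraMap (MvPolynomial Γ κ) K (X γ) • φ (1 ⊗ₜ G.io (G.mul γ x)) = φ (1 ⊗ₜ G.io x)
      rw [← hP.mul ((1 : K) ⊗ₜ[κ] G.io x)]
      unfold Cx.MK
      rw [LinearMap.sum_apply, map_sum]
      refine Finset.sum_congr rfl fun γ _ => ?_
      rw [LinearMap.smul_apply, LinearMap.baseChange_tmul, map_smul, hio]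
    rw [h6, hcw k x hx, hlam1, halg, neg_smul, smul_smul]

end abs

end MPadcDC
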