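import Pool.Agent.Lib.MP_adc574_ag_DC.GKosC

/-!
# GTop: forms of degree `> m + 1` vanish

JOB GTop. `Fd κ C q = 0` for `q > card Γ` (spanned by products of the `db_g`: `Fra.sum`, `df_sq`, `df_swap`, pigeonhole); downward
induction for `q > m + 1`: if `Fd (q+1) = 0` then `0 = ∑_g ct_g (db_g w) = (m + 1) w - q w` (`ct_df_mul`, `Fra.tr`, `Fra.num`).
-/

set_option autoImplicit false

namespace MPadcDC

open MvPolynomial TensorProduct MPadcGP

universe u v

variable {κ : Type u} [Field κ] [CharZero κ] {Γ : Type} [Fintype Γ] {C : Type u} [CommRing C] [Algebra κ C]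
  {b : Γ → C} {D : Γ → Derivation κ C C} {m : ℕ}

omit [CharZero κ] in
private theorem GTop_wd (hF : Fra κ b D m) {q : ℕ} (hq : Fintype.card Γ < q) (t : Fin q → C) : wd κ t = 0 := by
  classical
  have h1 : (fun i => KaehlerDifferential.D κ C (t i)) =
      fun i => ∑ g, D g (t i) • KaehlerDifferential.D κ C (b g) :=
    funext fun i => hF.der (KaehlerDifferential.D κ C) (t i)
  unfold wd
  rw [h1]
  refine (MultilinearMap.map_sum (ExteriorAlgebra.ιMulti C q).toMultilinearMap
    (fun i g => D g (t i) • KaehlerDifferential.D κ C (b g))).trans ?_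
  refine Finset.sum_eq_zero fun r _ => ?_
  refine (MultilinearMap.map_smul_univ (ExteriorAlgebra.ιMulti C q).toMultilinearMap
    (fun i => D (r i) (t i)) (fun i => KaehlerDifferential.D κ C (b (r i)))).trans ?_
  have h2 : ¬ Function.Injective r := by
    intro h
    have h3 := Fintype.card_le_of_injective r h
    rw [Fintype.card_fin] at h3
    omega
  have h4 : (ExteriorAlgebra.ιMulti C q) (fun i => KaehlerDifferential.D κ C (b (r i))) = 0 := by
    refine AlternatingMap.map_eq_zero_of_not_injective _ _ ?_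
    intro h5
    exact h2 (Function.Injective.of_comp (f := fun g => KaehlerDifferential.D κ C (b g)) h5)
  have h6 : (ExteriorAlgebra.ιMulti C q).toMultilinearMap (fun i => KaehlerDifferential.D κ C (b (r i))) = 0 := h4
  rw [h6, smul_zero]

omit [CharZero κ] in
private theorem GTop_base (hF : Fra κ b D m) {q : ℕ} (hq : Fintype.card Γ < q) {w : Fm κ C}
    (hw : w ∈ Fd κ C q) : w = 0 := by
  refine fd_ind (P := fun w => w = 0) rfl (fun c t => ?_) (fun x y hx hy => ?_) hw
  · rw [GTop_wd hF hq t, mul_zero]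
  · rw [hx, hy, add_zero]

private theorem GTop_step (hF : Fra κ b D m) {q : ℕ} (hq : m + 1 < q)
    (h : ∀ w : Fm κ C, w ∈ Fd κ C (q + 1) → w = 0) {w : Fm κ C} (hw : w ∈ Fd κ C q) : w = 0 := by
  have h1 : ∀ g, ct κ (D g) (df κ (b g) * w) = 0 := by
    intro g
    have h2 : df κ (b g) * w ∈ Fd κ C (1 + q) := fd_mul (df_mem (b g)) hw
    rw [add_comm] at h2
    rw [h _ h2, map_zero]
  have h3 : ∑ g, ct κ (D g) (df κ (b g) * w) = ((m + 1 : ℕ) : κ) • w - (q : κ) • w := by
    have h4 : ∀ g, ct κ (D g) (df κ (b g) * w) = fz κ (D g (b g)) * w - df κ (b g) * ct κ (D g) w :=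
      fun g => ct_df_mul κ (D g) (b g) w
    rw [Finset.sum_congr rfl fun g _ => h4 g, Finset.sum_sub_distrib, hF.num hw, ← Finset.sum_mul, ← map_sum,
      hF.tr, map_natCast, Nat.cast_smul_eq_nsmul, Nat.cast_smul_eq_nsmul, nsmul_eq_mul, nsmul_eq_mul]
  rw [Finset.sum_congr rfl fun g _ => h1 g, Finset.sum_const_zero, ← sub_smul] at h3
  have h5 : ((m + 1 : ℕ) : κ) - (q : κ) ≠ 0 := by
    rw [sub_ne_zero]
    intro h6
    have h7 : m + 1 = q := Nat.cast_injective h6
    omega
  exact (smul_eq_zero.mp h3.symm).resolve_left h5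

theorem topC (hF : Fra κ b D m) {q : ℕ} (hq : m + 1 < q) {w : Fm κ C} (hw : w ∈ Fd κ C q) : w = 0 := by
  have key : ∀ k q : ℕ, m + 1 < q → Fintype.card Γ < q + k → ∀ w : Fm κ C, w ∈ Fd κ C q → w = 0 := by
    intro k
    induction k with
    | zero => exact fun q _ hq w hw => GTop_base hF hq hw
    | succ k ih =>
      intro q hq hk w hw
      exact GTop_step hF hq (ih (q + 1) (by omega) (by omega)) hw
  exact key (Fintype.card Γ + 1) q hq (by omega) w hw

theorem topG (hF : Fra κ b D m) {q : ℕ} (hq : m + 1 < q) {w : FG κ Γ C} (hw : w ∈ FdG κ Γ q) : w = 0 := by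
  refine FdG_ind (P := fun w => w = 0) rfl (fun r c t => ?_) (fun x y hx hy => ?_) hw
  · rw [topC hF hq (fz_mul_mem c (wd_mem t)), TensorProduct.tmul_zero]
  · rw [hx, hy, add_zero]

end MPadcDC
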