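import Pool.Agent.Lib.MP_adc574_ag_DC.GFra
import Pool.Agent.Lib.MP_adc574_ag_DC.GTop
import Pool.Agent.Lib.MP_adc574_ag_GP.BCd
import Pool.Agent.Lib.MP_adc574_ag_GP.Mod3

/-!
# GBaseC: vanishing of the forms of high degree

JOB GBaseC.
* `LR_top`: `exists_fra` (`e = 1`), `topC` (`x_l ∈ J`: the ring is zero).
* `chart_top` for `C = {l}`, `x_l ∉ J`: `ι : A0 → S[1/x_l]`, `T = x_l`, `E` the derivation with `E T = T`, `E = 0` on `A0` (`ext_chart`).
  `w` of degree `q > m` on `A0`: `dT * ι w = 0` by `LR_top`; contraction with `E`: `0 = T ι w - dT * ct E (ι w) = T ι w`. So `ι w = 0`,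
  and `ι` has a left inverse (`exists_ret`; `mp` is functorial). If `x_l ∈ J` for some `l ∈ C` the ring
  `chart J C` is zero. In general `chart J C` is a localization of `chart J {l}`, `l ∈ C` (`tr_isLocalization`, `mp_surj`).
* `chart_topK`: the ring `chart (bI J) C` is generated over `K` by the image of `chart J C` (`cmA`), so `Fd K _ q` is spanned by the products of functions and
  images (`mp`) of forms in `Fd κ (chart J C) q = 0`.

-/

set_option autoImplicit false

namespace MPadcDC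

open MvPolynomial TensorProduct MPadcGP

universe u v

variable {κ : Type u} [Field κ] [CharZero κ] {n : ℕ} {J : Ideal (MvPolynomial (Fin n) κ)} {m : ℕ}

omit [CharZero κ] in
/-- a retract, abstract -/
private theorem GBaseC_a1 {A0 R : Type u} [CommRing A0] [CommRing R] [Algebra κ A0] [Algebra κ R] (ι : A0 →ₐ[κ] R)
    (p : R →ₐ[κ] A0) (hp : ∀ x, p (ι x) = x) (E : Derivation κ R R) {T : R} (hT : IsUnit T) (hE1 : E T = T)
    (hE0 : ∀ x, E (ι x) = 0) {q : ℕ} (top : ∀ w ∈ Fd κ R (1 + q), w = 0) {w : Fm κ A0} (hw : w ∈ Fd κ A0 q) : w = 0 := by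
  have hι : CC κ κ (ι : A0 →+* R) := CC.of_algHom ι
  have hp' : CC κ κ (p : R →+* A0) := CC.of_algHom p
  have hw' : mp (ι : A0 →+* R) hι w ∈ Fd κ R q := mp_mem hι hw
  have h1 : df κ T * mp (ι : A0 →+* R) hι w = 0 := top _ (fd_mul (df_mem (A := κ) T) hw')
  have h2 : ct κ E (mp (ι : A0 →+* R) hι w) = 0 := by
    have h3 : ∀ x : A0, (ι : A0 →+* R) (((0 : A0) • (0 : Derivation κ A0 A0)) x) = E ((ι : A0 →+* R) x) := by
      intro x
      have h4 : E ((ι : A0 →+* R) x) = 0 := hE0 x
      rw [h4, zero_smul]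
      exact map_zero _
    rw [← mp_ct hι h3 w, ct_smul, map_zero, zero_mul, map_zero]
  have h5 : fz κ T * mp (ι : A0 →+* R) hι w = 0 := by
    have h6 := ct_df_mul κ E T (mp (ι : A0 →+* R) hι w)
    rw [h1, h2, mul_zero, sub_zero, map_zero, hE1] at h6
    exact h6.symm
  have h7 : mp (ι : A0 →+* R) hι w = 0 := by
    obtain ⟨t, ht⟩ := hT.exists_left_inv
    rw [← one_mul (mp (ι : A0 →+* R) hι w), ← map_one (fz κ : R →+* _), ← ht, map_mul, mul_assoc, h5, mul_zero]
  have h8 : (p : R →+* A0).comp (ι : A0 →+* R) = RingHom.id _ := RingHom.ext fun x => hp x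
  have h9 := mp_comp hι hp' (hι.comp hp') w
  rw [h7, map_zero, mp_congr (hι.comp hp') CC.id h8 w, mp_id] at h9
  exact h9

omit [CharZero κ] in
/-- a localization, abstract -/
private theorem GBaseC_a2 {R S : Type u} [CommRing R] [CommRing S] [Algebra κ R] [Algebra κ S] (τ : R →ₐ[κ] S) (g : R)
    (hloc : @IsLocalization.Away R _ g S _ τ.toRingHom.toAlgebra) {q : ℕ} (top : ∀ w ∈ Fd κ R q, w = 0) {w : Fm κ S}
    (hw : w ∈ Fd κ S q) : w = 0 := by
  let _ : Algebra R S := τ.toRingHom.toAlgebra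
  have h1 : IsScalarTower κ R S := IsScalarTower.of_algebraMap_eq fun a => (τ.commutes a).symm
  have h2 : IsLocalization.Away g S := hloc
  obtain ⟨s, hs, e₀, he₀, h3⟩ := mp_surj (Submonoid.powers g) cc_alg hw
  rw [top _ he₀, map_zero] at h3
  have h5 : IsUnit (algebraMap R S s) := IsLocalization.map_units _ (⟨s, hs⟩ : Submonoid.powers g)
  obtain ⟨t, ht⟩ := h5.exists_left_inv
  rw [← one_mul w, ← map_one (fz κ : S →+* _), ← ht, map_mul, mul_assoc, h3, mul_zero]

omit [CharZero κ] in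
/-- base change, abstract -/
private theorem GBaseC_a3 {K : Type u} [Field K] [Algebra κ K] {R R' : Type u} [CommRing R] [Algebra κ R] [CommRing R']
    [Algebra K R'] (f : R →+* R') (hb : HB κ K f) (g : K ⊗[κ] R →ₐ[K] R')
    (hg : ∀ (c : K) (r : R), g (c ⊗ₜ[κ] r) = algebraMap K R' c * f r) (hgb : Function.Bijective g) {q : ℕ}
    (top : ∀ w ∈ Fd κ R q, w = 0) {w : Fm K R'} (hw : w ∈ Fd K R' q) : w = 0 := by
  have h2 : ∀ x : K ⊗[κ] R, bcr hb x = g x := by
    intro x
    induction x using TensorProduct.induction_on with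
    | zero => exact (map_zero _).trans (map_zero _).symm
    | tmul b r =>
      rw [hg, ← Algebra.smul_def]
      exact bcr_tmul _ b r
    | add x y hx hy =>
      refine (map_add (bcr hb) x y).trans ?_
      exact (congrArg₂ (· + ·) hx hy).trans (map_add g x y).symm
  have hbij : Function.Bijective (bcr hb) := by
    have h3 : (bcr hb : K ⊗[κ] R → R') = (g : K ⊗[κ] R → R') := funext h2
    rw [h3]
    exact hgb
  obtain ⟨x, hx⟩ := (bc_fo hb hbij (some q)).2 ⟨w, mem_FdO_some.2 hw⟩
  have h4 : ∀ x : K ⊗[κ] ↥(FdO κ R (some q)), x = 0 := by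
    intro x
    induction x using TensorProduct.induction_on with
    | zero => rfl
    | tmul b e =>
      have h5 : e = 0 := Subtype.ext (top _ (mem_FdO_some.1 e.2))
      rw [h5, TensorProduct.tmul_zero]
    | add x y hx hy => rw [hx, hy, add_zero]
  rw [h4 x, map_zero] at hx
  exact (congrArg Subtype.val hx).symm

/-- forms over the zero ring vanish -/
private theorem GBaseC_fm_zero {A R : Type u} [CommRing A] [CommRing R] [Algebra A R] [Subsingleton R]
    (w : Fm A R) : w = 0 := by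
  rw [← one_mul w, ← map_one (fz A : R →+* Fm A R), Subsingleton.elim (1 : R) 0, map_zero, zero_mul]

omit [CharZero κ] in
private theorem GBaseC_LR_zero {C : Finset (Fin n)} {l : Fin n} (hl : l ∈ C)
    (h : (X l : MvPolynomial (Fin n) κ) ∈ J) : Subsingleton (LR J C) := by
  have h1 : lx J C l = 0 := by
    unfold lx
    rw [Ideal.Quotient.eq_zero_iff_mem.2 h, map_zero]
  have h2 : IsUnit (0 : LR J C) := h1 ▸ lx_isUnit J C hl
  exact subsingleton_of_zero_eq_one (isUnit_zero_iff.1 h2)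

omit [CharZero κ] in
private theorem GBaseC_chart_zero {C : Finset (Fin n)} {l : Fin n} (hl : l ∈ C)
    (h : (X l : MvPolynomial (Fin n) κ) ∈ J) : Subsingleton (chart J C) := by
  have h1 := GBaseC_LR_zero hl h
  exact ⟨fun a b => Subtype.ext (Subsingleton.elim _ _)⟩

theorem LR_top (hJ : Good J m) {l : Fin n} {q : ℕ} (hq : m + 1 < q) {w : Fm κ (LR J {l})} (hw : w ∈ Fd κ (LR J {l}) q) :
    w = 0 := by
  by_cases hl : (X l : MvPolynomial (Fin n) κ) ∈ J
  · have h1 := GBaseC_LR_zero (Finset.mem_singleton_self l) hl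
    exact GBaseC_fm_zero w
  · obtain ⟨D, hD, -⟩ := exists_fra (e := 1) hJ le_rfl hl
    exact topC hD hq hw

private theorem GBaseC_top1 (hJ : Good J m) {l : Fin n} {q : ℕ} (hq : m < q) {w : Fm κ (chart J {l})}
    (hw : w ∈ Fd κ (chart J {l}) q) : w = 0 := by
  by_cases hl : (X l : MvPolynomial (Fin n) κ) ∈ J
  · have h1 := GBaseC_chart_zero (Finset.mem_singleton_self l) hl
    exact GBaseC_fm_zero w
  · have hh1 := @ext_chart κ _ n J l hJ.homog 0 (lx J {l} l)
    have hh2 := @exists_ret κ _ n J l hJ.homog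
    obtain ⟨E, hE0, hE1⟩ := hh1
    obtain ⟨p, hp⟩ := hh2
    exact @GBaseC_a1 κ _ (chart J {l}) (LR J {l}) _ _ _ _ (chart J {l}).val p hp E _
      (lx_isUnit J {l} (Finset.mem_singleton_self l)) hE1 hE0 q (fun w hw => LR_top hJ (by omega) hw) w hw

theorem chart_top (hJ : Good J m) {C : Finset (Fin n)} (hC : C.Nonempty) {q : ℕ} (hq : m < q) {w : Fm κ (chart J C)}
    (hw : w ∈ Fd κ (chart J C) q) : w = 0 := by
  obtain ⟨i, hi⟩ := hC
  have hsub : ({i} : Finset (Fin n)) ⊆ C := Finset.singleton_subset_iff.2 hi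
  exact @GBaseC_a2 κ _ (chart J {i}) (chart J C) _ _ _ _ (tr J hsub) _
    (tr_isLocalization hJ.homog hsub (Finset.mem_singleton_self i)) q (fun w hw => GBaseC_top1 hJ hq hw) w hw

theorem chart_topK (hJ : Good J m) {K : Type u} [Field K] [Algebra κ K] {C : Finset (Fin n)} (hC : C.Nonempty) {q : ℕ}
    (hq : m < q) {w : Fm K (chart (bI (algebraMap κ K) J) C)} (hw : w ∈ Fd K (chart (bI (algebraMap κ K) J) C) q) : w = 0 := by
  have hb : HB κ K (cmA (B := K) J C : chart J C →+* chart (bI (algebraMap κ K) J) C) := fun a =>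
    cmap_base (algebraMap κ K) (bI_mem _ J) (Finset.Subset.refl C) a
  exact @GBaseC_a3 κ _ K _ _ (chart J C) (chart (bI (algebraMap κ K) J) C) _ _ _ _
    (cmA (B := K) J C : chart J C →+* chart (bI (algebraMap κ K) J) C) hb (bcm J C) (fun c r => bcm_tmul J C c r)
    (bcm_bijective (B := K) hJ.homog hC) q (fun w hw => chart_top hJ hC hq hw) w hw

end MPadcDC
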