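import Pool.Agent.Lib.MP_adc574_ag_DC.GCycB
import Pool.Agent.Lib.MP_adc574_ag_GP.Mod3

/-!
# GNz: `ζ` is a nonzerodivisor

`K` is any field over `κ`, no primality over `K`.
* `f_nzd`: `A0 = chart J C` is a domain or zero (if `x_l ∉ J` for all `l ∈ C` it is a subring of a localization of the domain `S`, otherwise zero).
  `κ[a] ⊗ A0` is a domain and `f0 = ∑ a_g ⊗ y_g ≠ 0`, `y_g = x^g/x_j^e` (`y_{mon0} = 1`), so the multiplication with `f0` on `κ[a] ⊗ A0` is injective. `K` is flat over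
  `κ[a]` (`a_g ↦ a_g ∈ K` is injective: `K` is flat over `Frac κ[a]`, which is flat over `κ[a]`), so the multiplication with `∑ a_g ⊗ y_g` on
  `K ⊗_κ A0 = K ⊗_{κ[a]} (κ[a] ⊗_κ A0)` is injective; `chart (bI J) C = K ⊗ A0` (`bce`).
* `zeta_nzd`: `exists_adj`: `B = A0_K[ζ]/(ζ^e - f)` is free over `A0_K`, `ζ^e = f` acts injectively.
-/

set_option autoImplicit false

namespace MPadcDC

open MvPolynomial TensorProduct MPadcGP

universe u v

private theorem GNz_mul {R K B : Type u} [CommRing R] [CommRing K] [CommRing B] [Algebra R K] [Algebra R B] (f : B)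
    (t : K ⊗[R] B) : LinearMap.lTensor K (LinearMap.mulLeft R f) t = (1 ⊗ₜ f) * t := by
  induction t using TensorProduct.induction_on with
  | zero => rw [map_zero, mul_zero]
  | tmul b x =>
    rw [LinearMap.lTensor_tmul, Algebra.TensorProduct.tmul_mul_tmul, one_mul, LinearMap.mulLeft_apply]
  | add s t hs ht => rw [map_add, hs, ht, mul_add]

private theorem GNz_pow {R : Type u} [CommRing R] {e : ℕ} (he : 1 ≤ e) {x r : R} (h : x * r = 0) : x * r ^ e = 0 := by
  obtain ⟨k, rfl⟩ : ∃ k, e = k + 1 := ⟨e - 1, by omega⟩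
  rw [pow_succ', ← mul_assoc, h, zero_mul]

/-- a generic linear combination of `y_g`, not all zero, is a nonzerodivisor -/
private theorem GNz_gen {κ : Type u} [Field κ] {Γ : Type} [Fintype Γ] {K : Type u} [Field K] [Algebra κ K] {a : Γ → K}
    (ha : AlgebraicIndependent κ a) {A : Type u} [CommRing A] [IsDomain A] [Algebra κ A] (y : Γ → A) {g0 : Γ} (hy : y g0 ≠ 0)
    (x : K ⊗[κ] A) (hx : (∑ g, a g ⊗ₜ[κ] y g) * x = 0) : x = 0 := by
  classical
  let _ : Algebra (MvPolynomial Γ κ) K := (aeval a : MvPolynomial Γ κ →ₐ[κ] K).toRingHom.toAlgebra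
  have hst : IsScalarTower κ (MvPolynomial Γ κ) K := IsScalarTower.of_algebraMap_eq fun c => ((aeval a).commutes c).symm
  have hf : FaithfulSMul (MvPolynomial Γ κ) K := (faithfulSMul_iff_algebraMap_injective _ _).2 ha
  let _ := FractionRing.liftAlgebra (MvPolynomial Γ κ) K
  have _ := FractionRing.isScalarTower_liftAlgebra (MvPolynomial Γ κ) K
  have _ : Module.Flat (MvPolynomial Γ κ) (FractionRing (MvPolynomial Γ κ)) := IsLocalization.flat _ (nonZeroDivisors _)
  have hflat : Module.Flat (MvPolynomial Γ κ) K := Module.Flat.trans _ (FractionRing (MvPolynomial Γ κ)) _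
  let e1 : (MvPolynomial Γ κ) ⊗[κ] A ≃ₐ[κ] MvPolynomial Γ A :=
    (Algebra.TensorProduct.comm κ (MvPolynomial Γ κ) A).trans
      ((MvPolynomial.algebraTensorAlgEquiv (σ := Γ) κ A).restrictScalars κ)
  have hdom : IsDomain ((MvPolynomial Γ κ) ⊗[κ] A) := e1.toMulEquiv.isDomain _
  let f0 : (MvPolynomial Γ κ) ⊗[κ] A := ∑ g, X g ⊗ₜ[κ] y g
  have hf0 : f0 ≠ 0 := by
    intro h
    have h1 : e1 f0 = 0 := by rw [h, map_zero]
    have h2 : e1 f0 = ∑ g, C (y g) * X g := by
      rw [map_sum]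
      refine Finset.sum_congr rfl fun g _ => ?_
      have h3 : e1 (X g ⊗ₜ[κ] y g) = MvPolynomial.algebraTensorAlgEquiv κ A (y g ⊗ₜ[κ] X g) := rfl
      rw [h3, MvPolynomial.algebraTensorAlgEquiv_tmul, map_X, MvPolynomial.smul_eq_C_mul]
    rw [h2] at h1
    have h4 := congrArg (coeff (Finsupp.single g0 1)) h1
    rw [coeff_zero, coeff_sum, Finset.sum_eq_single g0] at h4
    · rw [coeff_C_mul, coeff_X, if_pos rfl, mul_one] at h4
      exact hy h4
    · intro g _ hg
      rw [coeff_C_mul, coeff_X, if_neg, mul_zero]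
      intro h5
      exact hg (Finsupp.single_left_injective one_ne_zero h5)
    · intro h5
      exact absurd (Finset.mem_univ _) h5
  let E := Algebra.TensorProduct.cancelBaseChange κ (MvPolynomial Γ κ) (MvPolynomial Γ κ) K A
  have hinj := Module.Flat.lTensor_preserves_injective_linearMap (M := K)
    (LinearMap.mulLeft (MvPolynomial Γ κ) f0) (mul_right_injective₀ hf0)
  have hE : E (1 ⊗ₜ f0) = ∑ g, a g ⊗ₜ[κ] y g := by
    rw [tmul_sum, map_sum]
    refine Finset.sum_congr rfl fun g _ => ?_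
    rw [Algebra.TensorProduct.cancelBaseChange_tmul, Algebra.smul_def, mul_one]
    have h6 : algebraMap (MvPolynomial Γ κ) K (X g) = a g := aeval_X a g
    rw [h6]
  have h7 : E.symm x = 0 := by
    apply hinj
    rw [map_zero]
    refine (GNz_mul f0 (E.symm x)).trans ?_
    apply E.injective
    rw [map_mul, hE, AlgEquiv.apply_symm_apply, hx, map_zero]
  rw [← E.apply_symm_apply x, h7, map_zero]

private theorem GNz_zeta {K A B : Type u} [Field K] [CommRing A] [Algebra K A] [CommRing B] [Algebra K B] {f0 : A} {e : ℕ}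
    (he : 1 ≤ e) (hf : f0 ∈ nonZeroDivisors A) (Ψ : AdE A f0 e ≃ₐ[K] B) {z : B} (h1 : Ψ (AdjoinRoot.root _) = z) :
    z ∈ nonZeroDivisors B := by
  have hmon : (Polynomial.X ^ e - Polynomial.C f0 : Polynomial A).Monic :=
    Polynomial.monic_X_pow_sub_C _ (Nat.one_le_iff_ne_zero.1 he)
  have hfree := hmon.free_adjoinRoot
  have hreg : IsSMulRegular (AdE A f0 e) f0 := Module.Flat.isSMulRegular_of_nonZeroDivisors hf
  rw [mem_nonZeroDivisors_iff_right]
  intro z' hz
  obtain ⟨x, rfl⟩ := Ψ.surjective z'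
  rw [← h1, ← map_mul] at hz
  have h3 := (map_eq_zero_iff _ Ψ.injective).1 hz
  have h4 : (AdjoinRoot.root (Polynomial.X ^ e - Polynomial.C f0)) ^ e = AdjoinRoot.of _ f0 := by
    have h5 := AdjoinRoot.eval₂_root (Polynomial.X ^ e - Polynomial.C f0)
    rw [Polynomial.eval₂_sub, Polynomial.eval₂_pow, Polynomial.eval₂_X, Polynomial.eval₂_C] at h5
    exact sub_eq_zero.1 h5
  have h6 : x = 0 := by
    apply hreg
    refine Eq.trans ?_ (smul_zero _).symm
    refine (Algebra.smul_def _ _).trans ?_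
    have h7 : algebraMap A (AdE A f0 e) f0 = AdjoinRoot.of _ f0 := rfl
    rw [h7, ← h4, mul_comm]
    exact GNz_pow he h3
  rw [h6, map_zero]

private theorem GNz_f {κ K A A' : Type u} [Field κ] [Field K] [Algebra κ K] [CommRing A] [Algebra κ A] [CommRing A']
    [Algebra K A'] {n e : ℕ} {a : Mon n e → K} (ha : AlgebraicIndependent κ a) (Φ : K ⊗[κ] A ≃ₐ[K] A') (c : A →+* A')
    (hΦ : ∀ (b : K) (x : A), Φ (b ⊗ₜ[κ] x) = algebraMap K A' b * c x) (hcb : ∀ x : κ, c (algebraMap κ A x) =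
      algebraMap K A' (algebraMap κ K x)) (ξ : Fin n → A) (ξ' : Fin n → A')
    (hc : ∀ l, c (ξ l) = ξ' l) {j : Fin n} (hj : ξ j = 1) (hdom : IsDomain A ∨ Subsingleton A) :
    aeval ξ' (frm a) ∈ nonZeroDivisors A' := by
  rw [mem_nonZeroDivisors_iff_right]
  intro z hz
  obtain ⟨x, rfl⟩ := Φ.surjective z
  have h0 : ∀ g : Mon n e, aeval ξ' (monomial g.1 (a g)) = algebraMap K A' (a g) * c (aeval ξ (monomial g.1 (1 : κ))) := by
    intro g
    rw [aeval_monomial, aeval_monomial, map_one, one_mul]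
    refine congrArg _ ?_
    refine Eq.trans ?_ (map_prod c _ _).symm
    refine Finset.prod_congr rfl fun i _ => ?_
    rw [map_pow, hc]
  have h1 : aeval ξ' (frm a) = Φ (∑ g, a g ⊗ₜ[κ] aeval ξ (monomial g.1 (1 : κ))) := by
    unfold frm
    rw [map_sum, map_sum]
    refine Finset.sum_congr rfl fun g _ => ?_
    rw [hΦ, h0]
  rw [h1, ← map_mul, mul_comm] at hz
  have h2 := (map_eq_zero_iff _ Φ.injective).1 hz
  rcases hdom with h3 | h3
  · have h4 : x = 0 := by
      refine GNz_gen ha (fun g => aeval ξ (monomial g.1 (1 : κ))) (g0 := mon0 e j) ?_ x h2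
      have h5 : (monomial (mon0 e j).1 (1 : κ)) = X j ^ e := by
        rw [X_pow_eq_monomial]
        rfl
      have h6 : aeval ξ (X j ^ e : MvPolynomial (Fin n) κ) = 1 := by
        rw [map_pow, aeval_X, hj, one_pow]
      simp only [h5, h6]
      exact one_ne_zero
    rw [h4, map_zero]
  · have h5 : Subsingleton (K ⊗[κ] A) := inferInstance
    rw [Subsingleton.elim x 0, map_zero]

variable {κ : Type u} [Field κ] [CharZero κ] {n : ℕ} {J : Ideal (MvPolynomial (Fin n) κ)} {e m : ℕ}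
  {K : Type u} [Field K] [Algebra κ K] {a : Mon n e → K}

/-- the charts are domains or zero -/
private theorem GNz_dom (hp : J.IsPrime) (C : Finset (Fin n)) : IsDomain (chart J C) ∨ Subsingleton (chart J C) := by
  by_cases h : (∏ j ∈ C, (X j : MvPolynomial (Fin n) κ)) ∈ J
  · right
    have h1 : Subsingleton (LR J C) := by
      apply IsLocalization.subsingleton (M := Submonoid.powers (Ideal.Quotient.mk J (∏ j ∈ C, X j))) 
      rw [Ideal.Quotient.eq_zero_iff_mem.2 h]
      exact Submonoid.mem_powers _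
    exact Subtype.val_injective.subsingleton
  · left
    have h2 : IsDomain (CR J) := (Ideal.Quotient.isDomain_iff_prime _).2 hp
    have h3 : Ideal.Quotient.mk J (∏ j ∈ C, X j) ≠ 0 := fun h4 => h (Ideal.Quotient.eq_zero_iff_mem.1 h4)
    have h5 : IsDomain (LR J C) :=
      IsLocalization.isDomain_localization (powers_le_nonZeroDivisors_of_noZeroDivisors h3)
    infer_instance

theorem f_nzd (hJ : Good J m) (he : 1 ≤ e) (ha : AlgebraicIndependent κ a) {C : Finset (Fin n)} {j : Fin n} (hj : j ∈ C) :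
    dh (bI (algebraMap κ K) J) C hj (frm a) ∈ nonZeroDivisors (chart (bI (algebraMap κ K) J) C) :=
  @GNz_f κ K (chart J C) (chart (bI (algebraMap κ K) J) C) _ _ _ _ _ _ _ n e a ha (bce (B := K) hJ.homog ⟨j, hj⟩)
    (cmA (B := K) J C : chart J C →+* chart (bI (algebraMap κ K) J) C) (fun b x => bce_tmul (B := K) hJ.homog ⟨j, hj⟩ b x)
    (fun x => cmap_base (algebraMap κ K) (bI_mem (algebraMap κ K) J) (Finset.Subset.refl C) x) (fun l => cq J C l hj) _
    (fun l => cmA_cq (B := K) J C l hj) j (cq_self J C hj) (GNz_dom hJ.prime C)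

theorem zeta_nzd (hJ : Good J m) (he : 1 ≤ e) (ha : AlgebraicIndependent κ a)
    {C : Finset (Fin (n + 1))} (hC : Fin.last n ∉ C) {j : Fin (n + 1)} (hj : j ∈ C) :
    cq (cyc (bI (algebraMap κ K) J) (frm a) e) C (Fin.last n) hj ∈
      nonZeroDivisors (chart (cyc (bI (algebraMap κ K) J) (frm a) e) C) := by
  obtain ⟨C', rfl⟩ := exists_cs hC
  obtain ⟨j', hj', rfl⟩ := Finset.mem_map.1 hj
  have hh := exists_adj (F := frm a) (e := e) (hJ.homog.map (algebraMap κ K)) (frm_hom a) C' hj'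
  obtain ⟨Ψ, -, h1⟩ := hh
  exact @GNz_zeta K (chart (bI (algebraMap κ K) J) C') (chart (cyc (bI (algebraMap κ K) J) (frm a) e) (cs C')) _ _ _ _ _ _ e
    he (f_nzd (K := K) hJ he ha hj') Ψ _ h1

end MPadcDC
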