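import Pool.Agent.Lib.MP_adc574_ag_DC.GSm
import Pool.Agent.Lib.MP_adc574_ag_DC.GNz
import Pool.Agent.Lib.MP_adc574_ag_DC.GBaseC

/-!
# GCT: forms of degree `> m` on the charts of the cover vanish

(helper3) `I = bI J`, `F = frm a`, `q > m`.
* `cs C`, `C` nonempty: `A0 = chart I C`, `B = A0[ζ]/(ζ^e - f)` (`exists_adj`). If `A0` is the zero ring, so is `B`. `Fd K B q` is spanned
  by `b ι(w0)` and `b ι(w1) dζ`, `ι(w0)`, `ι(w1)` the images of forms of degree `q`, `q - 1` of `A0`, `b ∈ B`. By `chart_topK` `w0 = 0`, and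
  `w1 = 0` if `q > m + 1`. If `q = m + 1`: `e ζ^(e-1) dζ = ι(df)`, so `ζ^(e-1) w = 0` (`w1 * df` has degree `m + 1`). `ζ` is a
  nonzerodivisor of `B` (`zeta_nzd`), and `Fm K B` is flat over `B` (`B` smooth: `Ω` projective). So `w = 0`.
* `C` contains `last` and another coordinate: `chart C` is a localization of `chart (C.erase last)` (`tr_isLocalization`, `mp_surj`).
* `C = {last}`: the functions `y_l = x_l/z` generate the unit ideal (`F(y) = 1`), so their powers do; `y_l^N w = 0` by the case `{last, l}` and `mp_ker`.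
-/

set_option autoImplicit false

namespace MPadcDC

open MvPolynomial TensorProduct MPadcGP

universe u v w

section reg

variable {B : Type u} [CommRing B] {M : Type v} [AddCommGroup M] [Module B M]

/-- A nonzerodivisor acts injectively on a free module. -/
theorem GCT_free {F : Type v} [AddCommGroup F] [Module B F] {I : Type w} (b : Module.Basis I B F) {z : B}
    (hz : z ∈ nonZeroDivisors B) {x : F} (hx : z • x = 0) : x = 0 := by
  apply b.repr.injective
  rw [map_zero]
  ext i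
  have h1 : z * b.repr x i = 0 := by
    have h2 := congrArg (fun y => b.repr y i) hx
    simpa using h2
  rw [mul_comm] at h1
  exact (mem_nonZeroDivisors_iff.1 hz).2 _ h1

/-- A nonzerodivisor acts injectively on the exterior algebra of a projective module. -/
theorem GCT_proj [Module.Projective B M] {z : B} (hz : z ∈ nonZeroDivisors B) {x : ExteriorAlgebra B M}
    (hx : z • x = 0) : x = 0 := by
  classical
  obtain ⟨s, hs⟩ := (inferInstance : Module.Projective B M)
  let r : (M →₀ B) →ₗ[B] M := Finsupp.linearCombination B id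
  have h1 : r.comp s = LinearMap.id := LinearMap.ext fun y => hs y
  have h2 : Function.Injective (ExteriorAlgebra.map s) := ExteriorAlgebra.map_injective ⟨r, h1⟩
  apply h2
  rw [map_zero]
  let _ : LinearOrder M := linearOrderOfSTO WellOrderingRel
  let b : Module.Basis M B (M →₀ B) := Finsupp.basisSingleOne
  refine GCT_free b.ExteriorAlgebra hz ?_
  rw [← map_smul, hx, map_zero]

end reg

section gen

variable {K A B : Type u} [Field K] [CharZero K] [CommRing A] [CommRing B] [Algebra K A] [Algebra K B]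
  (φ : A →ₐ[K] B) (ζ : B)

/-- The span of the `ι(w0)`, `ι(w1) dζ`. -/
noncomputable def GCT_N (q : ℕ) : Submodule B (Fm K B) :=
  Submodule.span B {x | (∃ w0 ∈ Fd K A q, x = mp (φ : A →+* B) (CC.of_algHom φ) w0) ∨
    ∃ p, p + 1 = q ∧ ∃ w1 ∈ Fd K A p, x = mp (φ : A →+* B) (CC.of_algHom φ) w1 * df K ζ}

variable {φ ζ}

theorem GCT_N_left {q : ℕ} {w0 : Fm K A} (h : w0 ∈ Fd K A q) :
    mp (φ : A →+* B) (CC.of_algHom φ) w0 ∈ GCT_N φ ζ q :=
  Submodule.subset_span (Or.inl ⟨w0, h, rfl⟩)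

theorem GCT_N_right {q : ℕ} {w1 : Fm K A} (h : w1 ∈ Fd K A q) :
    mp (φ : A →+* B) (CC.of_algHom φ) w1 * df K ζ ∈ GCT_N φ ζ (q + 1) :=
  Submodule.subset_span (Or.inr ⟨q, rfl, w1, h, rfl⟩)

/-- Multiplication with `dζ`. -/
theorem GCT_N_dz {q : ℕ} {x : Fm K B} (hx : x ∈ GCT_N φ ζ q) : df K ζ * x ∈ GCT_N φ ζ (q + 1) := by
  unfold GCT_N at hx
  induction hx using Submodule.span_induction with
  | mem x hx =>
    rcases hx with ⟨w0, h0, rfl⟩ | ⟨p, hp, w1, h1, rfl⟩
    · rw [df_comm, ← mp_inv]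
      exact GCT_N_right (inv_mem' h0)
    · rw [← mul_assoc, df_comm, mul_assoc, df_sq, mul_zero]
      exact Submodule.zero_mem _
  | zero => rw [mul_zero]; exact Submodule.zero_mem _
  | add x y _ _ hx hy => rw [mul_add]; exact Submodule.add_mem _ hx hy
  | smul b x _ hx =>
    rw [mul_smul_comm]
    exact Submodule.smul_mem _ _ hx

/-- Multiplication with `ι(da)`. -/
theorem GCT_N_da {q : ℕ} (a : A) {x : Fm K B} (hx : x ∈ GCT_N φ ζ q) : df K (φ a) * x ∈ GCT_N φ ζ (q + 1) := by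
  have h3 : df K (φ a) = mp (φ : A →+* B) (CC.of_algHom φ) (df K a) := (mp_df (CC.of_algHom φ) a).symm
  unfold GCT_N at hx
  induction hx using Submodule.span_induction with
  | mem x hx =>
    rcases hx with ⟨w0, h0, rfl⟩ | ⟨p, hp, w1, h1, rfl⟩
    · rw [h3, ← map_mul, add_comm]
      exact GCT_N_left (fd_mul (df_mem a) h0)
    · rw [h3, ← mul_assoc, ← map_mul]
      have h4 := fd_mul (df_mem a) h1
      rw [add_comm, hp] at h4
      exact GCT_N_right h4
  | zero => rw [mul_zero]; exact Submodule.zero_mem _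
  | add x y _ _ hx hy => rw [mul_add]; exact Submodule.add_mem _ hx hy
  | smul b x _ hx =>
    rw [mul_smul_comm]
    exact Submodule.smul_mem _ _ hx

/-- Multiplication with `db`. -/
theorem GCT_N_db (hgen : ∀ b : B, ∃ p : Polynomial A, p.eval₂ (φ : A →+* B) ζ = b) {q : ℕ} (b : B) {x : Fm K B}
    (hx : x ∈ GCT_N φ ζ q) : df K b * x ∈ GCT_N φ ζ (q + 1) := by
  have hmul : ∀ b c : B, df K b * x ∈ GCT_N φ ζ (q + 1) → df K c * x ∈ GCT_N φ ζ (q + 1) →
      df K (b * c) * x ∈ GCT_N φ ζ (q + 1) := by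
    intro b c hb hc
    rw [df_mul, add_mul, mul_assoc, mul_assoc, ← fz_smul, ← fz_smul]
    exact Submodule.add_mem _ (Submodule.smul_mem _ _ hc) (Submodule.smul_mem _ _ hb)
  have hz : ∀ k : ℕ, df K (ζ ^ k) * x ∈ GCT_N φ ζ (q + 1) := by
    intro k
    induction k with
    | zero => rw [pow_zero, df_one, zero_mul]; exact Submodule.zero_mem _
    | succ k ih => rw [pow_succ]; exact hmul _ _ ih (GCT_N_dz hx)
  obtain ⟨p, rfl⟩ := hgen b
  induction p using Polynomial.induction_on' with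
  | add p p' h h' =>
    rw [Polynomial.eval₂_add, df_add, add_mul]
    exact Submodule.add_mem _ h h'
  | monomial k a =>
    rw [Polynomial.eval₂_monomial]
    exact hmul _ _ (GCT_N_da a hx) (hz k)

theorem GCT_N_wd (hgen : ∀ b : B, ∃ p : Polynomial A, p.eval₂ (φ : A →+* B) ζ = b) {q : ℕ} (t : Fin q → B) :
    wd K t ∈ GCT_N φ ζ q := by
  induction q with
  | zero =>
    rw [wd_zero]
    have h1 : (1 : Fm K B) = mp (φ : A →+* B) (CC.of_algHom φ) 1 := (map_one _).symm
    rw [h1]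
    refine GCT_N_left ?_
    have h2 := fz_mem (A := K) (1 : A)
    rwa [map_one] at h2
  | succ q ih =>
    rw [wd_succ]
    exact GCT_N_db hgen _ (ih _)

theorem GCT_N_Fd (hgen : ∀ b : B, ∃ p : Polynomial A, p.eval₂ (φ : A →+* B) ζ = b) {q : ℕ} {x : Fm K B}
    (hx : x ∈ Fd K B q) : x ∈ GCT_N φ ζ q := by
  refine fd_ind (P := fun x => x ∈ GCT_N φ ζ q) (Submodule.zero_mem _) ?_ (fun _ _ => Submodule.add_mem _) hx
  intro r t
  rw [← fz_smul]
  exact Submodule.smul_mem _ _ (GCT_N_wd hgen t)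

theorem GCT_dpow (z : B) (k : ℕ) : df K (z ^ (k + 1)) = fz K (((k + 1 : ℕ) : B) * z ^ k) * df K z := by
  induction k with
  | zero => rw [zero_add, pow_one, pow_zero, Nat.cast_one, mul_one, map_one, one_mul]
  | succ k ih =>
    rw [pow_succ, df_mul, ih, ← mul_assoc, ← map_mul, ← add_mul, ← map_add]
    congr 2
    push_cast
    ring

/-- The key step: forms of degree `> m` are killed by `ζ ^ (e - 1)`. -/
theorem GCT_key {e m : ℕ} {f : A} (he : 1 ≤ e) (hζ : ζ ^ e = φ f)
    (hgen : ∀ b : B, ∃ p : Polynomial A, p.eval₂ (φ : A →+* B) ζ = b)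
    (htop : ∀ q, m < q → ∀ w : Fm K A, w ∈ Fd K A q → w = 0) {q : ℕ} (hq : m < q) {x : Fm K B}
    (hx : x ∈ Fd K B q) : (ζ ^ (e - 1)) • x = 0 := by
  have h1 := GCT_N_Fd hgen hx
  clear hx
  unfold GCT_N at h1
  induction h1 using Submodule.span_induction with
  | mem x hx =>
    rcases hx with ⟨w0, h0, rfl⟩ | ⟨p, hp, w1, h1, rfl⟩
    · rw [htop q hq w0 h0, map_zero, smul_zero]
    · rcases Nat.lt_or_ge m p with h2 | h2
      · rw [htop p h2 w1 h1, map_zero, zero_mul, smul_zero]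
      · have h3 : w1 * df K f = 0 := htop (p + 1) (by omega) _ (fd_mul h1 (df_mem f))
        have h4 : mp (φ : A →+* B) (CC.of_algHom φ) w1 * df K (φ f) = 0 := by
          have h5 := congrArg (mp (φ : A →+* B) (CC.of_algHom φ)) h3
          rw [map_mul, map_zero, mp_df] at h5
          exact h5
        obtain ⟨k, rfl⟩ : ∃ k, e = k + 1 := ⟨e - 1, by omega⟩
        rw [← hζ, GCT_dpow, map_mul, mul_assoc, ← mul_assoc, ← fz_comm, mul_assoc] at h4
        have hu : IsUnit (((k + 1 : ℕ) : B)) := by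
          have h6 : IsUnit (((k + 1 : ℕ) : K)) := (Nat.cast_ne_zero.2 (Nat.succ_ne_zero k)).isUnit
          have h7 := h6.map (algebraMap K B)
          rwa [map_natCast] at h7
        rw [← fz_smul] at h4
        have h8 := (hu.smul_eq_zero).1 h4
        rw [Nat.add_sub_cancel, fz_smul, ← mul_assoc, fz_comm, mul_assoc]
        exact h8
  | zero => exact smul_zero _
  | add x y _ _ hx hy => rw [smul_add, hx, hy, add_zero]
  | smul b x _ hx => rw [smul_comm, hx, smul_zero]

end gen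

/-- the cover of an affine chart, abstract -/
private theorem GCT_aa {K A B : Type u} [Field K] [CharZero K] [CommRing A] [CommRing B] [Algebra K A] [Algebra K B]
    (hsm : Algebra.Smooth K B) {f0 : A} {e m : ℕ} (Ψ : AdE A f0 e ≃ₐ[K] B) {z : B}
    (hΨ2 : Ψ (AdjoinRoot.root _) = z) (hz : z ∈ nonZeroDivisors B) (he : 1 ≤ e)
    (htop : ∀ q, m < q → ∀ w : Fm K A, w ∈ Fd K A q → w = 0) {q : ℕ} (hq : m < q) {w : Fm K B} (hw : w ∈ Fd K B q) :
    w = 0 := by
  let φ : A →ₐ[K] B := (Ψ : AdE A f0 e →ₐ[K] B).comp (IsScalarTower.toAlgHom K A (AdE A f0 e))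
  have hφ : ∀ x, φ x = Ψ (AdjoinRoot.of _ x) := fun x => rfl
  have h1 : z ^ e = φ f0 := by
    rw [← hΨ2, ← map_pow, hφ]
    congr 1
    have h2 := AdjoinRoot.eval₂_root (Polynomial.X ^ e - Polynomial.C f0 : Polynomial A)
    rw [Polynomial.eval₂_sub, Polynomial.eval₂_pow, Polynomial.eval₂_X, Polynomial.eval₂_C, sub_eq_zero] at h2
    exact h2
  have h3 : ∀ b, ∃ p : Polynomial A, p.eval₂ (φ : A →+* B) z = b := by
    intro b
    obtain ⟨p, hp⟩ := AdjoinRoot.mk_surjective (Ψ.symm b)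
    refine ⟨p, ?_⟩
    have h4 : Ψ (AdjoinRoot.mk _ p) = b := by rw [hp, AlgEquiv.apply_symm_apply]
    rw [← h4, ← hΨ2]
    have h5 : AdjoinRoot.mk (Polynomial.X ^ e - Polynomial.C f0) p =
        p.eval₂ (AdjoinRoot.of _) (AdjoinRoot.root _) := by
      rw [← AdjoinRoot.aeval_eq]
      rfl
    have h6 := Polynomial.hom_eval₂ p (AdjoinRoot.of (Polynomial.X ^ e - Polynomial.C f0))
      (Ψ : AdE A f0 e →ₐ[K] B).toRingHom (AdjoinRoot.root _)
    have h7 : Ψ (AdjoinRoot.mk (Polynomial.X ^ e - Polynomial.C f0) p) =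
        (Ψ : AdE A f0 e →ₐ[K] B).toRingHom (p.eval₂ (AdjoinRoot.of _) (AdjoinRoot.root _)) :=
      congrArg _ h5
    rw [h7, h6]
    rfl
  have h8 := GCT_key he h1 h3 htop hq hw
  have h9 : Algebra.FormallySmooth K B := hsm.formallySmooth
  exact GCT_proj (pow_mem hz _) h8

/-- a localization, abstract -/
private theorem GCT_ab {K R S : Type u} [Field K] [CommRing R] [CommRing S] [Algebra K R] [Algebra K S] (τ : R →ₐ[K] S)
    (g : R) (hloc : @IsLocalization.Away R _ g S _ τ.toRingHom.toAlgebra) {q : ℕ} (top : ∀ w ∈ Fd K R q, w = 0)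
    {w : Fm K S} (hw : w ∈ Fd K S q) : w = 0 := by
  let _ : Algebra R S := τ.toRingHom.toAlgebra
  have h1 : IsScalarTower K R S := IsScalarTower.of_algebraMap_eq fun a => (τ.commutes a).symm
  have h2 : IsLocalization.Away g S := hloc
  obtain ⟨s, hs, w0, hw0, h3⟩ := mp_surj (A := K) (R := R) (S := S) (Submonoid.powers g) cc_alg hw
  rw [top _ hw0, map_zero] at h3
  have h4 := IsLocalization.map_units S (⟨s, hs⟩ : Submonoid.powers g)
  rw [← fz_smul] at h3
  exact (h4.smul_eq_zero).1 h3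

/-- a form which vanishes after inverting each of the `g`, which generate the unit ideal, abstract -/
private theorem GCT_ac {K R : Type u} {L : Type} [Field K] [CommRing R] [Algebra K R] (g : L → R)
    (hg : Ideal.span (Set.range g) = ⊤) {w : Fm K R} (h : ∀ l, ∃ k : ℕ, fz K (g l ^ k) * w = 0) : w = 0 := by
  let Ann : Ideal R := LinearMap.ker (LinearMap.toSpanSingleton R (Fm K R) w)
  have hAnn : ∀ b, b ∈ Ann ↔ b • w = 0 := fun b => Iff.rfl
  have h3 : Ideal.span (Set.range g) ≤ Ann.radical := by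
    rw [Ideal.span_le]
    rintro _ ⟨l, rfl⟩
    obtain ⟨k, hk⟩ := h l
    refine ⟨k, ?_⟩
    rw [hAnn, fz_smul]
    exact hk
  rw [hg, top_le_iff, Ideal.radical_eq_top] at h3
  have h4 : (1 : R) ∈ Ann := h3 ▸ Submodule.mem_top
  rw [hAnn, one_smul] at h4
  exact h4

private theorem GCT_ad {K R S : Type u} [Field K] [CommRing R] [CommRing S] [Algebra K R] [Algebra K S] (τ : R →ₐ[K] S)
    {g g' : R} (hloc : @IsLocalization.Away R _ g S _ τ.toRingHom.toAlgebra) (hg : g = g') {q : ℕ}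
    (top : ∀ w ∈ Fd K S q, w = 0) {w : Fm K R} (hw : w ∈ Fd K R q) : ∃ k : ℕ, fz K (g' ^ k) * w = 0 := by
  subst hg
  let _ : Algebra R S := τ.toRingHom.toAlgebra
  have h1 : IsScalarTower K R S := IsScalarTower.of_algebraMap_eq fun a => (τ.commutes a).symm
  have h2 : IsLocalization.Away g S := hloc
  have h8 : mp (algebraMap R S) (cc_alg (A := K)) w = 0 := top _ (mp_mem _ hw)
  obtain ⟨s, hs, h9⟩ := mp_ker (A := K) (R := R) (S := S) (Submonoid.powers g) cc_alg h8
  obtain ⟨k, rfl⟩ := hs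
  exact ⟨k, h9⟩

variable {κ : Type u} [Field κ] [CharZero κ] {n : ℕ} {J : Ideal (MvPolynomial (Fin n) κ)} {e m : ℕ}
  {K : Type u} [Field K] [Algebra κ K] {a : Mon n e → K}

theorem GCT_last {n : ℕ} (C : Finset (Fin n)) : Fin.last n ∉ cs C := by
  intro h
  unfold cs at h
  rw [Finset.mem_map] at h
  obtain ⟨k, _, hk⟩ := h
  exact Fin.castSucc_ne_last k hk

/-- The charts `cs C`. -/
theorem GCT_a (hJ : Good J m) (he : 1 ≤ e) (ha : AlgebraicIndependent κ a)
    {C : Finset (Fin n)} (hC : C.Nonempty) {q : ℕ} (hq : m < q)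
    {w : Fm K (chart (cyc (bI (algebraMap κ K) J) (frm a) e) (cs C))}
    (hw : w ∈ Fd K (chart (cyc (bI (algebraMap κ K) J) (frm a) e) (cs C)) q) : w = 0 := by
  have hchar : CharZero K := charZero_of_injective_algebraMap (algebraMap κ K).injective
  have hsm := smooth_cs hJ he ha hC
  obtain ⟨j, hj⟩ := hC
  have hh := exists_adj (hJ.homog.map (algebraMap κ K)) (frm_hom a) C hj
  obtain ⟨Ψ, -, hΨ2⟩ := hh
  exact @GCT_aa K (chart (bI (algebraMap κ K) J) C) (chart (cyc (bI (algebraMap κ K) J) (frm a) e) (cs C)) _ _ _ _ _ _ hsm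
    _ e m Ψ _ hΨ2 (zeta_nzd hJ he ha (GCT_last C) (mem_cs.2 hj)) he (fun q hq w hw => chart_topK hJ ⟨j, hj⟩ hq hw) q hq
    w hw

/-- The charts where `z` and another coordinate do not vanish. -/
theorem GCT_b (hJ : Good J m) (he : 1 ≤ e) (ha : AlgebraicIndependent κ a)
    {C : Finset (Fin n)} (hC : C.Nonempty) {C' : Finset (Fin (n + 1))} (hC' : cs C ⊆ C') {q : ℕ} (hq : m < q)
    {w : Fm K (chart (cyc (bI (algebraMap κ K) J) (frm a) e) C')}
    (hw : w ∈ Fd K (chart (cyc (bI (algebraMap κ K) J) (frm a) e) C') q) : w = 0 := by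
  have hI : IsHomog (cyc (bI (algebraMap κ K) J) (frm a) e) := cyc_homog (hJ.homog.map _) (frm_hom a)
  obtain ⟨j, hj⟩ := id hC
  exact @GCT_ab K (chart (cyc (bI (algebraMap κ K) J) (frm a) e) (cs C))
    (chart (cyc (bI (algebraMap κ K) J) (frm a) e) C') _ _ _ _ _ (tr _ hC') _
    (tr_isLocalization hI hC' (mem_cs.2 hj)) q (fun w hw => GCT_a hJ he ha hC hq hw) w hw

theorem cyc_top (hJ : Good J m) (he : 1 ≤ e) (ha : AlgebraicIndependent κ a)
    {C : Finset (Fin (n + 1))} (hC : C.Nonempty) {q : ℕ} (hq : m < q)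
    {w : Fm K (chart (cyc (bI (algebraMap κ K) J) (frm a) e) C)}
    (hw : w ∈ Fd K (chart (cyc (bI (algebraMap κ K) J) (frm a) e) C) q) : w = 0 := by
  classical
  by_cases h1 : ∃ l : Fin n, l.castSucc ∈ C
  · obtain ⟨l, hl⟩ := h1
    refine GCT_b hJ he ha (C := {l}) (Finset.singleton_nonempty l) ?_ hq hw
    intro k hk
    unfold cs at hk
    rw [Finset.mem_map] at hk
    obtain ⟨k', h2, rfl⟩ := hk
    rw [Finset.mem_singleton.1 h2]
    exact hl
  · have h2 : C = {Fin.last n} := by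
      apply Finset.eq_singleton_iff_nonempty_unique_mem.2
      refine ⟨hC, fun x hx => ?_⟩
      induction x using Fin.lastCases with
      | last => rfl
      | cast l => exact absurd ⟨l, hx⟩ h1
    subst h2
    have hI : IsHomog (cyc (bI (algebraMap κ K) J) (frm a) e) := cyc_homog (hJ.homog.map _) (frm_hom a)
    refine @GCT_ac K (chart (cyc (bI (algebraMap κ K) J) (frm a) e) {Fin.last n}) (Fin n) _ _ _ _
      (span_y (hJ.homog.map _) (frm_hom a) he) w fun l => ?_
    have h4 : ({Fin.last n} : Finset (Fin (n + 1))) ⊆ {Fin.last n, l.castSucc} := by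
      intro x hx
      rw [Finset.mem_singleton.1 hx]
      exact Finset.mem_insert_self _ _
    have h5 : cs {l} ⊆ ({Fin.last n, l.castSucc} : Finset (Fin (n + 1))) := by
      intro k hk
      unfold cs at hk
      rw [Finset.mem_map] at hk
      obtain ⟨k', h2, rfl⟩ := hk
      rw [Finset.mem_singleton.1 h2]
      exact Finset.mem_insert_of_mem (Finset.mem_singleton_self _)
    have h10 : (∏ k ∈ ({Fin.last n, l.castSucc} : Finset (Fin (n + 1))),
        cq (cyc (bI (algebraMap κ K) J) (frm a) e) {Fin.last n} k (Finset.mem_singleton_self _)) =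
        cq (cyc (bI (algebraMap κ K) J) (frm a) e) {Fin.last n} l.castSucc (Finset.mem_singleton_self _) := by
      rw [Finset.prod_pair (Fin.castSucc_ne_last l).symm, cq_self, one_mul]
    exact @GCT_ad K (chart (cyc (bI (algebraMap κ K) J) (frm a) e) {Fin.last n})
      (chart (cyc (bI (algebraMap κ K) J) (frm a) e) {Fin.last n, l.castSucc}) _ _ _ _ _ (tr _ h4) _ _
      (tr_isLocalization hI h4 (Finset.mem_singleton_self _)) h10 q
      (fun w hw => GCT_b hJ he ha (Finset.singleton_nonempty l) h5 hq hw) w hw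

end MPadcDC
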