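import Pool.Agent.Lib.MP_adc574_ag_DC.GCxK
import Pool.Agent.Lib.MP_adc574_ag_DC.GCT

/-!
# DC, Part C: the statements of Part G in the form of Part C, first part
-/

set_option autoImplicit false
set_option linter.unusedSectionVars false

namespace MPadcDC

open MvPolynomial TensorProduct MPadcGP

universe u

section fromG

variable {κ : Type u} [Field κ] [CharZero κ] {n : ℕ} {J : Ideal (MvPolynomial (Fin n) κ)} {K : Type u} [Field K]
  [Algebra κ K] {e : ℕ} {a : Mon n e → K}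

theorem fd_cyc_eq_bot {m : ℕ} (hJ : Good J m) (he : 1 ≤ e) (ha : AlgebraicIndependent κ a)
    {C : Finset (Fin (n + 1))} (hC : C.Nonempty) {q : ℕ} (hq : m < q)
    {x : Fm K (chart (cyc (bI (algebraMap κ K) J) (frm a) e) C)}
    (hx : x ∈ Fd K (chart (cyc (bI (algebraMap κ K) J) (frm a) e) C) q) : x = 0 :=
  cyc_top hJ he ha hC hq hx

theorem cxS_okC {m : ℕ} (hJ : Good J m) {ν : ℕ} (h1 : 0 < ν) (h2 : ν < e) : (cxS hJ.homog e ν).Ok :=
  cxS_ok hJ.homog h1 h2

theorem cxS_kosC {m : ℕ} (hJ : Good J m) (_he : 1 ≤ e) {ν : ℕ} (h1 : 0 < ν) (h2 : ν < e) {q : ℕ} (hq : q < m) :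
    (cxS hJ.homog e ν).Kos q :=
  cxS_kos hJ h1 h2 hq

end fromG

end MPadcDC
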