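import Pool.Agent.Lib.MP_adc574_ag_DC.C5P
import Pool.Agent.Lib.MP_adc574_ag_DC.CGk
import Pool.Agent.Lib.MP_adc574_ag_DC.C1D
import Pool.Agent.Lib.MP_adc574_ag_DC.C2C
import Pool.Agent.Lib.MP_adc574_ag_DC.C3F
import Pool.Agent.Lib.MP_adc574_ag_DC.C4A

/-!
# JOB C5A (DC): Pole for the cyclic cover, vanishing

* `pole_cyc`: `inj`: `rs_inj` (C1A) with `hI = cyc_homC`, `hs = (cyc_smooth hJ he ha).2` (GInt), `j ∈ C` from `C.Nonempty`, `zeta_nzd`; `red`: `pole` (C1D) with `wt = wz n e` (`wz l = wz l'` for `l, l' ≠ last`: `wz` is `if l = last then 0 else 1`), `hD` from `exists_der_chart`. (`rz` is `(prC I).rs ..` by definition; `(Wc hJ a).G C = grC _ _ C` by `rfl`.)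
* `ak_indep`: `AlgebraicIndependent κ (fun g => algebraMap (Ra κ n e) K (X g))`: the composition of the algebraically independent family `X` with the injective `κ`-algebra map `Ra → K` (`MvPolynomial.algebraicIndependent_X`, `AlgebraicIndependent.map'`).
* `ph_cyc`: `phK_MK`, `phK_TK`, `phK_d` (`ddl_apply`).
* `HW_eq_bot`: let `ν : ℕ` be the representative of `μ` with `0 < ν < e` (`ZMod.val`, `ZMod.natCast_zmod_val`, `μ ≠ 0`). `exists_sz (pole_cyc ..) q`: `s` surjective; to show `s η = 0` for all `η`. If `m < q`: `η = 0` by `fd_cyc_eq_bot` (`C = {last}`). If `q < m`: `ph_closed` (`cxS_okC`): `k, t` with `phK (io t) = η`; `exact_of_vanish` (`cxS_okC`, `cxS_kosC`, `ph_cyc`): `η = dd (phK (io b))`, `b ∈ ⨆ VK q i`. If `q = r + 1`: `ξ := phK (io b) ∈ Fd r` with weight `ν`: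
  `io` maps `VK (r + 1) i` to `VK r i` (`hG.io_mem`), `ph_mem`, `wp_ph` (degree `ν + e i`, i.e. weight `ν` in `ZMod e`) (`c • x`, sums): fourth property of `s`. If `q = 0`: `io` of functions is `0` (`ct_mem_zero`, `Om J 0 j ≤ Fd 0`), so `η = dd 0 = 0`.
-/

set_option autoImplicit false
set_option linter.unusedSectionVars false

namespace MPadcDC

open MvPolynomial TensorProduct MPadcGP MPadcGP2

universe u

section c5

variable {κ : Type u} [Field κ] [CharZero κ] {n : ℕ} {J : Ideal (MvPolynomial (Fin n) κ)} {K : Type u} [Field K]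
  [Algebra κ K] {e : ℕ} {a : Mon n e → K}

private theorem C5A_wz (n e : ℕ) :
    ∀ l l' : Fin (n + 1), l ≠ Fin.last n → l' ≠ Fin.last n → wz n e l = wz n e l' := by
  intro l l' h h'
  unfold wz
  rw [if_neg h, if_neg h']

/-- Induction for the forms over `K` of degree `q` and weight `ν + e k`. -/
private theorem C5A_ind {Γ : Type} [Fintype Γ] {V : Type u} [AddCommGroup V] [Module κ V] {G : Cx κ Γ V} {q k : ℕ}
    {P : K ⊗[κ] V → Prop} (h0 : P 0) (ha : ∀ x y, P x → P y → P (x + y))
    (ht : ∀ (c : K), ∀ v ∈ G.Vd q k, P (c ⊗ₜ[κ] v)) {b : K ⊗[κ] V} (hb : b ∈ G.VK K q k) : P b := by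
  obtain ⟨b', rfl⟩ := hb
  induction b' using TensorProduct.induction_on with
  | zero => rw [map_zero]; exact h0
  | tmul c v =>
    rw [LinearMap.baseChange_tmul]
    exact ht c _ v.2
  | add x y hx hy => rw [map_add]; exact ha _ _ hx hy

/-- Induction for the forms over `K` of degree `q`. -/
private theorem C5A_sup {Γ : Type} [Fintype Γ] {V : Type u} [AddCommGroup V] [Module κ V] {G : Cx κ Γ V} {q : ℕ}
    {P : K ⊗[κ] V → Prop} (h0 : P 0) (ha : ∀ x y, P x → P y → P (x + y))
    (ht : ∀ (c : K) (k : ℕ), ∀ v ∈ G.Vd q k, P (c ⊗ₜ[κ] v)) {b : K ⊗[κ] V} (hb : b ∈ ⨆ k, G.VK K q k) : P b := by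
  induction hb using Submodule.iSup_induction' with
  | mem k x hx => exact C5A_ind h0 ha (fun c v hv => ht c k v hv) hx
  | zero => exact h0
  | add x y _ _ hx hy => exact ha x y hx hy

theorem pole_cyc [NeZero e] {m : ℕ} (hJ : Good J m) (ha : AlgebraicIndependent κ a) {μ : ZMod e} (hμ : μ ≠ 0) :
    Pole (Wc hJ.homog a) (Fin.last n) μ := by
  have : CharZero K := charZero_of_injective_algebraMap (algebraMap κ K).injective
  have he : 1 ≤ e := NeZero.one_le
  refine ⟨?_, ?_⟩
  · intro C hC hz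
    obtain ⟨j, hj⟩ := hC
    exact rs_inj (cyc_homC hJ.homog a) (cyc_smooth hJ he ha).2 hj (zeta_nzd hJ he ha hz hj)
  · intro C hC hz q η hη hμη hx
    obtain ⟨j, hj⟩ := hC
    exact pole (cyc_homC hJ.homog a) (cyc_smooth hJ he ha).2 (cyc_whomog hJ.homog a) (C5A_wz n e) hz hj
      (zeta_nzd hJ he ha hz hj) (exists_der_chart hJ he ha hz hj) hμ hη hμη hx

/-- The contraction of functions is `0`. -/
private theorem C5A_io0 (hJ : IsHomog J) {ν j : ℕ} {v : Fm κ (CR J)} (hv : v ∈ Om J 0 j) :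
    (cxS hJ e ν).io v = 0 := by
  have h1 : v ∈ Fd κ (CR J) 0 := by
    have h2 : Om J 0 j ≤ (Fd κ (CR J) 0).restrictScalars κ := by
      refine Submodule.span_le.mpr ?_
      rintro w ⟨g, t, -, rfl⟩
      exact fz_mul_mem _ (wd_mem _)
    exact h2 hv
  exact ct_mem_zero (eul hJ) h1

variable [Algebra (Ra κ n e) K] [IsScalarTower κ (Ra κ n e) K] [IsFractionRing (Ra κ n e) K]

/-- The part of weight `μ ≠ 0` of the cohomology of degree `q ≠ m` is `0`. -/
theorem HW_eq_bot [NeZero e] {m : ℕ} (hJ : Good J m) {q : ℕ} (hq : q ≠ m) {μ : ZMod e} (hμ : μ ≠ 0) :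
    (Wc hJ.homog (ak κ n e K)).HW q μ = ⊥ := by
  have he : 1 ≤ e := NeZero.one_le
  have ha : AlgebraicIndependent κ (ak κ n e K) := ak_indep
  obtain ⟨ν, hν, h2⟩ : ∃ ν : ℕ, (ν : ZMod e) = μ ∧ ν < e := ⟨μ.val, ZMod.natCast_zmod_val μ, ZMod.val_lt μ⟩
  have h1 : 0 < ν := by
    rcases Nat.eq_zero_or_pos ν with h | h
    · rw [h, Nat.cast_zero] at hν
      exact absurd hν.symm hμ
    · exact h
  obtain ⟨s, hs, -, -, h4⟩ := exists_sz (pole_cyc hJ ha hμ) q
  have key : ∀ η, s η = 0 := by
    intro η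
    have hη0 : (η : Fm K (Bz J (ak κ n e K))) = 0 → s η = 0 := by
      intro h
      have h' : η = 0 := Subtype.ext h
      rw [h', map_zero]
    rcases lt_or_gt_of_ne hq with h | h
    · have hOk : (cxS hJ.homog e ν).Ok := cxS_okC hJ h1 h2
      have hηm : (η : Fm K (Bz J (ak κ n e K))) ∈
          ZB (Wc hJ.homog (ak κ n e K)) (Fin.last n) (ν : ZMod e) q := by
        rw [hν]
        exact η.2
      obtain ⟨k, t, ht, hd, hT, hφ⟩ := ph_closed hJ.homog (ak κ n e K) h1 h2 hOk hηm
      obtain ⟨b, hb, hE⟩ := exact_of_vanish hOk (cxS_kosC hJ he h1 h2 h) (ph_cyc hJ.homog ν) ht hd hT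
      have hE' : (η : Fm K (Bz J (ak κ n e K))) =
          dd K (phK hJ.homog (ak κ n e K) ((cxS hJ.homog e ν).io.baseChange K b)) := by
        rw [← hφ, hE, ddl_apply]
      cases q with
      | zero =>
        apply hη0
        have h0 : phK hJ.homog (ak κ n e K) ((cxS hJ.homog e ν).io.baseChange K b) = 0 := by
          refine C5A_sup (P := fun b => phK hJ.homog (ak κ n e K) ((cxS hJ.homog e ν).io.baseChange K b) = 0)
            ?_ ?_ ?_ hb
          · rw [map_zero, map_zero]
          · intro x y hx hy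
            rw [map_add, map_add, hx, hy, add_zero]
          · intro c k v hv
            have hv0 : (cxS hJ.homog e ν).io v = 0 := C5A_io0 hJ.homog hv
            rw [LinearMap.baseChange_tmul, hv0, TensorProduct.tmul_zero, map_zero]
        rw [hE', h0, map_zero]
      | succ r =>
        have hr : phK hJ.homog (ak κ n e K) ((cxS hJ.homog e ν).io.baseChange K b) ∈ Fd K (Bz J (ak κ n e K)) r ∧
            wp ((Wc hJ.homog (ak κ n e K)).G {Fin.last n}) μ
              (phK hJ.homog (ak κ n e K) ((cxS hJ.homog e ν).io.baseChange K b)) =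
              phK hJ.homog (ak κ n e K) ((cxS hJ.homog e ν).io.baseChange K b) := by
          refine C5A_sup (P := fun b =>
            phK hJ.homog (ak κ n e K) ((cxS hJ.homog e ν).io.baseChange K b) ∈ Fd K (Bz J (ak κ n e K)) r ∧
            wp ((Wc hJ.homog (ak κ n e K)).G {Fin.last n}) μ
              (phK hJ.homog (ak κ n e K) ((cxS hJ.homog e ν).io.baseChange K b)) =
              phK hJ.homog (ak κ n e K) ((cxS hJ.homog e ν).io.baseChange K b)) ?_ ?_ ?_ hb
          · rw [map_zero, map_zero]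
            exact ⟨Submodule.zero_mem _, wp_zero _ _⟩
          · intro x y hx hy
            rw [map_add, map_add]
            exact ⟨Submodule.add_mem _ hx.1 hy.1, by rw [wp_add, hx.2, hy.2]⟩
          · intro c k v hv
            have hv' : (cxS hJ.homog e ν).io v ∈ Om J r (ν + e * k) := hOk.io_mem r k v hv
            have hwt : μ = ((ν + e * k : ℕ) : ZMod e) := by
              rw [Nat.cast_add, Nat.cast_mul, ZMod.natCast_self, zero_mul, add_zero, hν]
            rw [LinearMap.baseChange_tmul, phK_tmul]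
            refine ⟨?_, ?_⟩
            · rw [smul_fm]
              exact fz_mul_mem _ (ph_mem hJ.homog (ak κ n e K) hv')
            · rw [smul_fm, wp_fz_base_mul, wp_ph hJ.homog (ak κ n e K) hv' μ, if_pos hwt]
        exact h4 η r _ rfl hr.1 hr.2 hE'
    · apply hη0
      exact fd_cyc_eq_bot hJ he ha (Finset.singleton_nonempty (Fin.last n)) h η.2.1
  rw [Submodule.eq_bot_iff]
  intro x hx
  obtain ⟨η, hη⟩ := hs ⟨x, hx⟩
  have h5 := key η
  rw [hη] at h5
  exact congrArg Subtype.val h5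

end c5

end MPadcDC
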