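import Pool.Agent.Lib.MP_adc574_ag_DC.C5A
import Pool.Agent.Lib.MP_adc574_ag_DC.C2D
import Pool.Agent.Lib.MP_adc574_ag_DC.C3G
import Pool.Agent.Lib.MP_adc574_ag_DC.C4C

/-!
# JOB C5C (DC): the connection of the cyclic cover

`ν` = the representative of `μ`, `0 < ν < e`. Lifts: `exists_lft` (GP/Lifts: `Nonempty (Lft (prC I) D)`, `cyc_homC`, `(cyc_smooth ..).2`), `W.exists_isGr`. `nab γ` from `exists_nab W μ m (V γ)` for `D = dK γ`. `exists_sz (pole_cyc hJ ak_indep hμ) m`: `s`, `h0..h3`. Apply `exists_con` with `G = cxS hJ.homog e ν`, `hio` (`ct` is linear over the ring: `ct (fz r * x) = fz r * ct x`), `φ = phK`, `dU = ddl`, `hP = ph_cyc`, `Z = ZB W last μ m`: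
* `hZ`: `w ∈ Vd (m + 1) k = Om J (m + 1) (ν + e k)`: `io w ∈ Om J m (ν + e k)` (`cxS_okC.io_mem`), `ph_mem`, `wp_ph`; closed: `dd (ph (io w)) ∈ Fd (m + 1)` is `0` by `fd_cyc_eq_bot` (`C = {last}`).
* `hex`: `dd (ph (io u))`, `u ∈ Vd m k`: if `m = r + 1`: `ξ = ph (io u) ∈ Fd r`, weight `ν`, fourth property of `s`; if `m = 0`: `io u = 0`, so the element is `0` and `s 0 = 0`.
* `hsp`: `ph_closed`: `η = phK (io t)`, `t ∈ VK (m + 1) k`: `t` is a `K`-combination of the `1 ⊗ w`, `w ∈ Vd (m + 1) k`.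
* `hnab`: `Vz` from `exists_Vz` (`D = dK γ`; `hD`: constants; `ha`: `dK γ (algebraMap (X γ')) = algebraMap (pderiv γ (X γ'))`, `pderiv_X`), `gm_sz` and `gm_unique` (the Gauss-Manin derivative is unique): `nab γ (s η) = s ⟨LL Vz η⟩`. `LL_ph` for `io w ∈ Om J m (ν + e k)`: `LL Vz (ph (io w)) = -((ν + e k) / e) • ph (fz (xm γ) * io w) - e⁻¹ • ph (df (xm γ) * ct (ct w))`, `ct ct = 0`, so `= -(θ + k) • ph (io (mul γ w))` (`θ = ν / e`, `io (mul γ w) = mul γ (io w)`).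
-/

set_option autoImplicit false
set_option linter.unusedSectionVars false

namespace MPadcDC

open MvPolynomial TensorProduct MPadcGP MPadcGP2

universe u

section c5

variable {κ : Type u} [Field κ] [CharZero κ] {n : ℕ} {J : Ideal (MvPolynomial (Fin n) κ)} {K : Type u} [Field K]
  [Algebra κ K] {e : ℕ} {a : Mon n e → K}

variable [Algebra (Ra κ n e) K] [IsScalarTower κ (Ra κ n e) K] [IsFractionRing (Ra κ n e) K]

theorem c5c_ct_mul (θ : Derivation κ (CR J) (CR J)) (r : CR J) (x : Fm κ (CR J)) :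
    ct κ θ (fz κ r * x) = fz κ r * ct κ θ x := by
  rw [← fz_smul, map_smul, fz_smul]

theorem c5c_om_fd {q j : ℕ} {w : Fm κ (CR J)} (hw : w ∈ Om J q j) : w ∈ Fd κ (CR J) q := by
  unfold Om at hw
  induction hw using Submodule.span_induction with
  | mem x hx =>
    obtain ⟨g, t, _, rfl⟩ := hx
    exact fz_mul_mem _ (wd_mem _)
  | zero => exact Submodule.zero_mem _
  | add x y _ _ hx hy => exact Submodule.add_mem _ hx hy
  | smul c x _ hx =>
    rw [smul_fm]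
    exact fz_mul_mem _ hx

theorem con_nat [NeZero e] {m : ℕ} (hJ : Good J m) {ν : ℕ} (h1 : 0 < ν) (h2 : ν < e)
    {dK : Mon n e → Derivation ℤ K K}
    (hdK : ∀ γ r, dK γ (algebraMap (Ra κ n e) K r) = algebraMap (Ra κ n e) K (pderiv γ r)) :
    ∃ (nab : Mon n e → ↥((Wc hJ.homog (ak κ n e K)).HW m (ν : ZMod e)) →+
        ↥((Wc hJ.homog (ak κ n e K)).HW m (ν : ZMod e)))
      (c : Fm κ (CR J) →+ ↥((Wc hJ.homog (ak κ n e K)).HW m (ν : ZMod e))),
      Con (cxS hJ.homog e ν) m dK nab c ∧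
      ∀ γ (x : ↥((Wc hJ.homog (ak κ n e K)).HW m (ν : ZMod e))),
        (Xc J (ak κ n e K)).gaussManin m (dK γ) (x : (Xc J (ak κ n e K)).HdR m) (nab γ x) := by
  classical
  have he : 1 ≤ e := by omega
  have hμ : (ν : ZMod e) ≠ 0 := by
    rw [Ne, ZMod.natCast_eq_zero_iff]
    exact fun h => absurd (Nat.le_of_dvd h1 h) (by omega)
  have hch : CharZero K := charZero_of_injective_algebraMap (algebraMap κ K).injective
  have hOk : (cxS hJ.homog e ν).Ok := cxS_okC hJ h1 h2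
  have hLft : ∀ γ, ∃ V : Lft (Xc J (ak κ n e K)) (dK γ), (Wc hJ.homog (ak κ n e K)).IsGr V := fun γ => by
    have hh0 := exists_lft (cyc_homC hJ.homog (ak κ n e K)) (cyc_smooth hJ he ak_indep).2 (dK γ)
    obtain ⟨V⟩ := hh0
    exact (Wc hJ.homog (ak κ n e K)).exists_isGr V
  choose V hV using hLft
  have hnb := fun γ => exists_nab (Wc hJ.homog (ak κ n e K)) (ν : ZMod e) m (V γ)
  choose nab hgm hleib using hnb
  have hh1 := exists_sz (pole_cyc hJ (ak_indep (κ := κ) (n := n) (e := e) (K := K)) hμ) m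
  obtain ⟨s, hs, hs1, hs2, hs3⟩ := hh1
  have hwt : ∀ k : ℕ, (ν : ZMod e) = ((ν + e * k : ℕ) : ZMod e) := fun k => by
    rw [Nat.cast_add, Nat.cast_mul, ZMod.natCast_self, zero_mul, add_zero]
  have hio1 : ∀ x : Fm κ (CR J), (cxS hJ.homog e ν).io x = ct κ (eul hJ.homog) x := fun x => rfl
  have hphi : ∀ x : Fm κ (CR J), phK hJ.homog (ak κ n e K) (1 ⊗ₜ[κ] x) = ph hJ.homog (ak κ n e K) x := fun x => by
    rw [phK_tmul, one_smul]
  -- weight
  have hwp : ∀ (q k : ℕ) (x : Fm κ (CR J)), x ∈ (cxS hJ.homog e ν).Vd q k →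
      wp ((Wc hJ.homog (ak κ n e K)).G {Fin.last n}) (ν : ZMod e) (phK hJ.homog (ak κ n e K) (1 ⊗ₜ[κ] x)) =
        phK hJ.homog (ak κ n e K) (1 ⊗ₜ[κ] x) := fun q k x hx => by
    rw [hphi, wp_ph hJ.homog (ak κ n e K) (q := q) (j := ν + e * k) hx, if_pos (hwt k)]
  have hfd : ∀ (q k : ℕ) (x : Fm κ (CR J)), x ∈ (cxS hJ.homog e ν).Vd q k →
      phK hJ.homog (ak κ n e K) (1 ⊗ₜ[κ] x) ∈ Fd K (Bz J (ak κ n e K)) q := fun q k x hx => by
    rw [hphi]
    exact ph_mem hJ.homog (ak κ n e K) (j := ν + e * k) hx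
  have hZ : ∀ k, ∀ w ∈ (cxS hJ.homog e ν).Vd (m + 1) k,
      phK hJ.homog (ak κ n e K) (1 ⊗ₜ[κ] (cxS hJ.homog e ν).io w) ∈
        ZB (Wc hJ.homog (ak κ n e K)) (Fin.last n) (ν : ZMod e) m := fun k w hw => by
    have h3 := hOk.io_mem m k w hw
    refine ⟨hfd m k _ h3, ?_, hwp m k _ h3⟩
    exact fd_cyc_eq_bot hJ he (ak_indep (κ := κ) (n := n) (e := e) (K := K)) (C := {Fin.last n})
      (Finset.singleton_nonempty _) (q := m + 1) (Nat.lt_succ_self m) (dd_mem (hfd m k _ h3))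
  have hcK : ∀ γ (c : κ), dK γ (algebraMap κ K c) = 0 := fun γ c => by
    rw [IsScalarTower.algebraMap_apply κ (Ra κ n e) K, hdK, MvPolynomial.algebraMap_eq, pderiv_C, map_zero]
  have haK : ∀ γ γ', dK γ (ak κ n e K γ') = if γ' = γ then 1 else 0 := fun γ γ' => by
    unfold ak
    rw [hdK, pderiv_X, Pi.single_apply]
    split_ifs
    · exact map_one _
    · exact map_zero _
  have hcon : ∃ c : Fm κ (CR J) →+ ↥((Wc hJ.homog (ak κ n e K)).HW m (ν : ZMod e)),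
      Con (cxS hJ.homog e ν) m dK nab c := by
    refine exists_con hOk (fun γ x => c5c_ct_mul _ _ _) (ph_cyc hJ.homog ν) hdK hleib
      (ZB (Wc hJ.homog (ak κ n e K)) (Fin.last n) (ν : ZMod e) m) s hs hZ ?_ ?_ ?_
    · intro k u hu h
      cases m with
      | zero =>
        have h3 : (cxS hJ.homog e ν).io u = 0 := ct_mem_zero _ (c5c_om_fd (j := ν + e * k) hu)
        have h4 : (⟨_, h⟩ : ↥(ZB (Wc hJ.homog (ak κ n e K)) (Fin.last n) (ν : ZMod e) 0)) = 0 :=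
          Subtype.ext (by
            change ddl K (Bz J (ak κ n e K)) (phK hJ.homog (ak κ n e K) (1 ⊗ₜ[κ] (cxS hJ.homog e ν).io u)) = 0
            rw [h3, tmul_zero, map_zero, map_zero])
        rw [h4, map_zero]
      | succ r =>
        have h3 := hOk.io_mem r k u hu
        exact hs3 ⟨_, h⟩ r _ rfl (hfd r k _ h3) (hwp r k _ h3) rfl
    · intro η hη
      have hh2 := ph_closed hJ.homog (ak κ n e K) h1 h2 hOk hη
      obtain ⟨k, t, ht, hd0, hT0, rfl⟩ := hh2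
      clear hd0 hT0
      unfold Cx.VK at ht
      rw [Submodule.baseChange_eq_span] at ht
      clear hη
      induction ht using Submodule.span_induction with
      | mem x hx =>
        obtain ⟨w, hw, rfl⟩ := hx
        refine Submodule.subset_span ⟨k, w, hw, ?_⟩
        rw [TensorProduct.mk_apply, LinearMap.baseChange_tmul]
      | zero =>
        rw [map_zero, map_zero]
        exact Submodule.zero_mem _
      | add x y _ _ hx hy =>
        rw [map_add, map_add]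
        exact Submodule.add_mem _ hx hy
      | smul c x _ hx =>
        rw [map_smul, map_smul]
        exact Submodule.smul_mem _ _ hx
    · intro γ k w hw h'
      have hh3 := exists_Vz hJ.homog (ak κ n e K) (dK γ) (hcK γ) γ (haK γ)
      obtain ⟨Vz, hVz1, hVz2, hVz3⟩ := hh3
      have h3 := hOk.io_mem m k w hw
      have hLL : LL K Vz (phK hJ.homog (ak κ n e K) (1 ⊗ₜ[κ] (cxS hJ.homog e ν).io w)) ∈
          ZB (Wc hJ.homog (ak κ n e K)) (Fin.last n) (ν : ZMod e) m :=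
        LL_mem_ZB Vz hVz1 hVz3 (hZ k w hw)
      have g1 := gm_sz Vz hVz1 hVz3 (V γ) (hV γ) s hs1 hs2 hs3 ⟨_, hZ k w hw⟩ hLL
      have g2 : nab γ (s ⟨_, hZ k w hw⟩) = s ⟨_, hLL⟩ := Subtype.ext (gm_unique (hgm γ (s ⟨_, hZ k w hw⟩)) g1)
      rw [g2, ← map_smul, ← map_neg]
      refine congrArg s (Subtype.ext ?_)
      change LL K Vz (phK hJ.homog (ak κ n e K) (1 ⊗ₜ[κ] (cxS hJ.homog e ν).io w)) =
        -(algebraMap κ K ((cxS hJ.homog e ν).θ + k) •
          phK hJ.homog (ak κ n e K) (1 ⊗ₜ[κ] (cxS hJ.homog e ν).io ((cxS hJ.homog e ν).mul γ w)))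
      have h4 : (cxS hJ.homog e ν).io ((cxS hJ.homog e ν).mul γ w) =
          fz κ (xm J γ.1) * (cxS hJ.homog e ν).io w := c5c_ct_mul _ _ _
      have h5 : ct κ (eul hJ.homog) ((cxS hJ.homog e ν).io w) = 0 :=
        CliffordAlgebra.contractLeft_contractLeft _ _
      have h6 : algebraMap κ K ((cxS hJ.homog e ν).θ + k) = ((ν + e * k : ℕ) : K) / e := by
        have h7 : (cxS hJ.homog e ν).θ = (ν : κ) / e := rfl
        have h8 : (e : K) ≠ 0 := Nat.cast_ne_zero.2 (by omega)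
        rw [h7, map_add, map_div₀, map_natCast, map_natCast, map_natCast, Nat.cast_add, Nat.cast_mul,
          add_div, mul_div_cancel_left₀ _ h8]
      rw [h4, hphi, hphi, h6, LL_ph hJ.homog (ak κ n e K) Vz hVz1 (hcK γ) hVz2 (j := ν + e * k) h3, h5,
        mul_zero, map_zero, smul_zero, sub_zero]
  obtain ⟨c, hc⟩ := hcon
  exact ⟨nab, c, hc, hgm⟩

theorem con_cyc [NeZero e] {m : ℕ} (hJ : Good J m) {μ : ZMod e} (hμ : μ ≠ 0) {dK : Mon n e → Derivation ℤ K K}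
    (hdK : ∀ γ r, dK γ (algebraMap (Ra κ n e) K r) = algebraMap (Ra κ n e) K (pderiv γ r)) :
    ∃ (ν : ℕ) (nab : Mon n e → ↥((Wc hJ.homog (ak κ n e K)).HW m μ) →+ ↥((Wc hJ.homog (ak κ n e K)).HW m μ))
      (c : Fm κ (CR J) →+ ↥((Wc hJ.homog (ak κ n e K)).HW m μ)), 0 < ν ∧ ν < e ∧
      Con (cxS hJ.homog e ν) m dK nab c ∧
      ∀ γ (x : ↥((Wc hJ.homog (ak κ n e K)).HW m μ)),
        (Xc J (ak κ n e K)).gaussManin m (dK γ) (x : (Xc J (ak κ n e K)).HdR m) (nab γ x) := by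
  have h1 : 0 < μ.val := Nat.pos_of_ne_zero fun h => hμ ((ZMod.val_eq_zero μ).1 h)
  have h2 : ((μ.val : ℕ) : ZMod e) = μ := ZMod.natCast_zmod_val μ
  have h3 := con_nat (K := K) hJ h1 (ZMod.val_lt μ) hdK
  rw [h2] at h3
  obtain ⟨nab, c, h4, h5⟩ := h3
  exact ⟨μ.val, nab, c, h1, ZMod.val_lt μ, h4, h5⟩

end c5

end MPadcDC
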