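import Pool.Agent.Lib.MP_adc574_ag_DC.GEps

/-!
# GReg: functions are nonzerodivisors on forms

`tz_reg`: `Ω[C⁄κ]` is a direct summand of the free module `Γ → C` (`Fra.sum`: `dx ↦ (D_g x)_g` is a section of `c ↦ ∑ c_g db_g`), so
`Fm κ C` has a finite dual basis over `C` (`GReg_dual`): coordinates `φ_i : Fm κ C → C` and elements `v_i` with `∑ φ_i(x) v_i = x`.
After base change to `κ[a]` the coordinates are linear over `κ[a] ⊗ C`, which is a domain (`dom`).
-/

set_option autoImplicit false

namespace MPadcDC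

open MvPolynomial TensorProduct MPadcGP

universe u v

variable {κ : Type u} [Field κ] {Γ : Type} [Fintype Γ] {C : Type u} [CommRing C] [Algebra κ C]
  {b : Γ → C} {D : Γ → Derivation κ C C} {m : ℕ}

/-- The finite dual basis of the algebra of forms. -/
private theorem GReg_dual (hF : Fra κ b D m) : ∃ (I : Type) (_ : Fintype I) (φ : I → (Fm κ C →ₗ[C] C))
    (v : I → Fm κ C), ∀ x, ∑ i, φ i x • v i = x := by
  classical
  let s : Ω[C⁄κ] →ₗ[C] (Γ → C) := LinearMap.pi fun g => (D g).liftKaehlerDifferential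
  let r : (Γ → C) →ₗ[C] Ω[C⁄κ] := Fintype.linearCombination C (fun g => KaehlerDifferential.D κ C (b g))
  have hs : ∀ (x : C) (g : Γ), s (KaehlerDifferential.D κ C x) g = D g x := fun x g =>
    (D g).liftKaehlerDifferential_comp_D x
  have hr : ∀ c : Γ → C, r c = ∑ g, c g • KaehlerDifferential.D κ C (b g) := fun c =>
    Fintype.linearCombination_apply C _ c
  have hrs : r ∘ₗ s = LinearMap.id := by
    apply LinearMap.ext
    intro y
    have hy : y ∈ Submodule.span C (Set.range (KaehlerDifferential.D κ C)) := by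
      rw [KaehlerDifferential.span_range_derivation]
      exact Submodule.mem_top
    induction hy using Submodule.span_induction with
    | mem y hy =>
      obtain ⟨x, rfl⟩ := hy
      rw [LinearMap.comp_apply, LinearMap.id_apply, hr]
      have h1 := hF.sum x
      unfold df at h1
      have h2 : ∀ g, fz κ (D g x) * ExteriorAlgebra.ι C (KaehlerDifferential.D κ C (b g)) =
          (ExteriorAlgebra.ι C (D g x • KaehlerDifferential.D κ C (b g)) : Fm κ C) := by
        intro g
        rw [map_smul, fz_smul]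
      rw [Finset.sum_congr rfl fun g _ => h2 g, ← map_sum, ExteriorAlgebra.ι_inj] at h1
      exact (Finset.sum_congr rfl fun g _ => by rw [hs]).trans h1
    | zero => rw [map_zero, map_zero]
    | add y z _ _ hy hz => rw [map_add, map_add, hy, hz]
    | smul c y _ hy => rw [map_smul, map_smul, hy]
  let _ : LinearOrder Γ := linearOrderOfSTO WellOrderingRel
  let B := (Pi.basisFun C Γ).ExteriorAlgebra
  refine ⟨Finset Γ, inferInstance, fun i => (B.coord i) ∘ₗ (ExteriorAlgebra.map s).toLinearMap,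
    fun i => ExteriorAlgebra.map r (B i), fun x => ?_⟩
  have h1 : ExteriorAlgebra.map r (ExteriorAlgebra.map s x) = x := by
    have h2 : (ExteriorAlgebra.map r).comp (ExteriorAlgebra.map s) = AlgHom.id C (Fm κ C) := by
      rw [ExteriorAlgebra.map_comp_map, hrs, ExteriorAlgebra.map_id]
    exact congrArg (fun f : Fm κ C →ₐ[C] Fm κ C => f x) h2
  have h3 := congrArg (ExteriorAlgebra.map r) (B.sum_repr (ExteriorAlgebra.map s x))
  rw [h1, map_sum] at h3
  refine Eq.trans (Finset.sum_congr rfl fun i _ => ?_) h3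
  rw [map_smul]
  rfl

theorem tz_reg [IsDomain C] (hF : Fra κ b D m) {t : MvPolynomial Γ κ ⊗[κ] C} (ht : t ≠ 0) {w : FG κ Γ C}
    (h : (tz t : FG κ Γ C) * w = 0) : w = 0 := by
  obtain ⟨I, _, φ, v, hv⟩ := GReg_dual hF
  have _ : IsDomain (MvPolynomial Γ κ ⊗[κ] C) := dom
  let Φ : I → (FG κ Γ C →ₗ[MvPolynomial Γ κ] MvPolynomial Γ κ ⊗[κ] C) := fun i =>
    ((φ i).restrictScalars κ).baseChange (MvPolynomial Γ κ)
  have hΦ : ∀ i (p : MvPolynomial Γ κ) (x : Fm κ C), Φ i (p ⊗ₜ[κ] x) = p ⊗ₜ[κ] φ i x := fun i p x => rfl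
  -- linearity over `κ[a] ⊗ C`
  have h1 : ∀ i (t : MvPolynomial Γ κ ⊗[κ] C) (w : FG κ Γ C), Φ i (tz t * w) = t * Φ i w := by
    intro i t w
    induction t using TensorProduct.induction_on with
    | zero => rw [map_zero, zero_mul, zero_mul, map_zero]
    | add x y hx hy => rw [map_add, add_mul, map_add, hx, hy, add_mul]
    | tmul p c =>
      induction w using TensorProduct.induction_on with
      | zero => rw [mul_zero, map_zero, mul_zero]
      | add x y hx hy => rw [mul_add, map_add, map_add, hx, hy, mul_add]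
      | tmul q x =>
        rw [tz_tmul, Algebra.TensorProduct.tmul_mul_tmul, hΦ, hΦ, Algebra.TensorProduct.tmul_mul_tmul,
          ← fz_smul, map_smul, smul_eq_mul]
  -- the dual basis
  have h2 : ∀ w : FG κ Γ C, ∑ i, (tz (Φ i w) : FG κ Γ C) * ((1 : MvPolynomial Γ κ) ⊗ₜ[κ] v i) = w := by
    intro w
    induction w using TensorProduct.induction_on with
    | zero =>
      refine Finset.sum_eq_zero fun i _ => ?_
      rw [map_zero, map_zero, zero_mul]
    | add x y hx hy =>
      refine Eq.trans ?_ (congrArg₂ (· + ·) hx hy)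
      change _ = (∑ i, (tz (Φ i x) : FG κ Γ C) * ((1 : MvPolynomial Γ κ) ⊗ₜ[κ] v i)) +
        ∑ i, (tz (Φ i y) : FG κ Γ C) * ((1 : MvPolynomial Γ κ) ⊗ₜ[κ] v i)
      rw [← Finset.sum_add_distrib]
      refine Finset.sum_congr rfl fun i _ => ?_
      rw [map_add, map_add, add_mul]
    | tmul q x =>
      have h3 : ∀ i, (tz (Φ i (q ⊗ₜ[κ] x)) : FG κ Γ C) * ((1 : MvPolynomial Γ κ) ⊗ₜ[κ] v i) =
          q ⊗ₜ[κ] (φ i x • v i) := by
        intro i
        rw [hΦ, tz_tmul, Algebra.TensorProduct.tmul_mul_tmul, mul_one, ← fz_smul]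
      rw [Finset.sum_congr rfl fun i _ => h3 i, ← TensorProduct.tmul_sum, hv]
  rw [← h2 w]
  refine Finset.sum_eq_zero fun i _ => ?_
  have h4 : t * Φ i w = 0 := by
    rw [← h1, h, map_zero]
  rw [(mul_eq_zero.1 h4).resolve_left ht, map_zero, zero_mul]

end MPadcDC
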