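import Pool.Agent.Lib.MP_adc574_ag_DC.GRankC
import Pool.Agent.Lib.MP_adc574_ag_DC.GReg

/-!
# GIncA: proportional forms, abstract version of the induction in GInc
-/

set_option autoImplicit false

namespace MPadcDC

open MvPolynomial TensorProduct MPadcGP

universe u v

variable {κ : Type u} [Field κ] {Γ : Type} [Fintype Γ] {C C' : Type u} [CommRing C] [Algebra κ C]
  [CommRing C'] [Algebra κ C'] {b : Γ → C} {D : Γ → Derivation κ C C} {φ : C' →ₐ[κ] C}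

/-- `w` is proportional to `β`. -/
def PrC (b : Γ → C) (D : Γ → Derivation κ C C) (φ : C' →ₐ[κ] C) (β w : Fm κ C') : Prop :=
  ∃ s r : MvPolynomial Γ κ, eps0 b D (s ⊗ₜ[κ] 1) ≠ 0 ∧ epsG b D (loG Γ φ (s ⊗ₜ[κ] w - r ⊗ₜ[κ] β)) = 0

theorem tmul_smul1 (r : MvPolynomial Γ κ) (w : Fm κ C') :
    (r ⊗ₜ[κ] w : FG κ Γ C') = r • ((1 : MvPolynomial Γ κ) ⊗ₜ[κ] w) := by
  rw [TensorProduct.smul_tmul', smul_eq_mul, mul_one]

theorem eps0_one_ne [IsDomain C] : eps0 b D ((1 : MvPolynomial Γ κ) ⊗ₜ[κ] (1 : C)) ≠ 0 := by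
  have hd : IsDomain (MvPolynomial Γ κ ⊗[κ] C) := dom
  have h1 : ((1 : MvPolynomial Γ κ) ⊗ₜ[κ] (1 : C)) = 1 := rfl
  rw [h1, map_one]
  exact one_ne_zero

theorem PrC.zero [IsDomain C] (β : Fm κ C') : PrC b D φ β 0 := by
  refine ⟨1, 0, eps0_one_ne, ?_⟩
  rw [TensorProduct.tmul_zero, TensorProduct.zero_tmul, sub_zero, map_zero, map_zero]

theorem PrC.add [IsDomain C] {β x y : Fm κ C'} (hx : PrC b D φ β x) (hy : PrC b D φ β y) :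
    PrC b D φ β (x + y) := by
  have hd : IsDomain (MvPolynomial Γ κ ⊗[κ] C) := dom
  obtain ⟨s, r, hs, h⟩ := hx
  obtain ⟨s', r', hs', h'⟩ := hy
  refine ⟨s * s', s' * r + s * r', ?_, ?_⟩
  · rw [eps0_tm]
    exact mul_ne_zero hs hs'
  · have e1 : ((s * s') ⊗ₜ[κ] (x + y) - (s' * r + s * r') ⊗ₜ[κ] β : FG κ Γ C') =
        s' • (s ⊗ₜ[κ] x - r ⊗ₜ[κ] β) + s • (s' ⊗ₜ[κ] y - r' ⊗ₜ[κ] β) := by
      rw [smul_sub, smul_sub, TensorProduct.smul_tmul', TensorProduct.smul_tmul', TensorProduct.smul_tmul',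
        TensorProduct.smul_tmul', TensorProduct.tmul_add, TensorProduct.add_tmul]
      simp only [smul_eq_mul]
      rw [mul_comm s' s]
      abel
    rw [e1, map_add, map_add, epsG_loG_smul, epsG_loG_smul, h, h', mul_zero, mul_zero, add_zero]

theorem PrC.smul (c : κ) {β x : Fm κ C'} (hx : PrC b D φ β x) : PrC b D φ β (c • x) := by
  obtain ⟨s, r, hs, h⟩ := hx
  refine ⟨s, c • r, hs, ?_⟩
  have e1 : (s ⊗ₜ[κ] (c • x) - (c • r) ⊗ₜ[κ] β : FG κ Γ C') = (MvPolynomial.C c : MvPolynomial Γ κ) • (s ⊗ₜ[κ] x - r ⊗ₜ[κ] β) := by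
    rw [smul_sub, TensorProduct.smul_tmul', TensorProduct.smul_tmul', TensorProduct.tmul_smul,
      TensorProduct.smul_tmul', smul_eq_mul, smul_eq_mul, ← C_mul', ← C_mul']
  rw [e1, epsG_loG_smul, h, mul_zero]

theorem epsG_loG_fz2 (q s : MvPolynomial Γ κ) (c : C') (y : Fm κ C') :
    epsG b D (loG Γ φ ((q * s) ⊗ₜ[κ] (fz κ c * y))) =
      tz (eps0 b D (q ⊗ₜ[κ] φ c)) * epsG b D (loG Γ φ (s ⊗ₜ[κ] y)) := by
  have h2 : ((q * s) ⊗ₜ[κ] (fz κ c * y) : FG κ Γ C') = s • (q ⊗ₜ[κ] (fz κ c * y)) := by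
    rw [TensorProduct.smul_tmul', smul_eq_mul, mul_comm s q]
  rw [h2, epsG_loG_smul, epsG_loG_fz, tmul_smul1 s y, epsG_loG_smul, ← mul_assoc, ← mul_assoc, tz_comm]

theorem PrC.step [IsDomain C] {β w : Fm κ C'} (hw : PrC b D φ β w) {c c0 : C'} {p q : MvPolynomial Γ κ}
    (hp : eps0 b D (p ⊗ₜ[κ] 1) ≠ 0) (hr : eps0 b D (q ⊗ₜ[κ] φ c0) = eps0 b D (p ⊗ₜ[κ] φ c)) :
    PrC b D φ (fz κ c0 * β) (fz κ c * w) := by
  have hd : IsDomain (MvPolynomial Γ κ ⊗[κ] C) := dom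
  obtain ⟨s, r, hs, h⟩ := hw
  refine ⟨p * s, q * r, ?_, ?_⟩
  · rw [eps0_tm]
    exact mul_ne_zero hp hs
  · rw [map_sub, map_sub, sub_eq_zero] at h ⊢
    rw [epsG_loG_fz2, epsG_loG_fz2, h, hr]

/-- The start of the induction. -/
theorem PrC.start {Q : Fm κ C' → Prop} (hQ0 : Q 0) [IsDomain C] [CharZero κ] {m : ℕ} (hF : Fra κ b D m)
    (hpair : ∀ w w' : Fm κ C', Q w → Q w' → ∃ s r : MvPolynomial Γ κ,
      (eps0 b D (s ⊗ₜ[κ] 1) ≠ 0 ∨ eps0 b D (r ⊗ₜ[κ] 1) ≠ 0) ∧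
        epsG b D (loG Γ φ (s • ((1 : MvPolynomial Γ κ) ⊗ₜ[κ] w) - r • ((1 : MvPolynomial Γ κ) ⊗ₜ[κ] w'))) = 0) :
    ∃ α, Q α ∧ ∀ w, Q w → PrC b D φ α w := by
  by_cases hall : ∀ w, Q w → epsG b D (loG Γ φ ((1 : MvPolynomial Γ κ) ⊗ₜ[κ] w)) = 0
  · refine ⟨0, hQ0, fun w hw => ⟨1, 0, eps0_one_ne, ?_⟩⟩
    rw [TensorProduct.tmul_zero, sub_zero, hall w hw]
  · push Not at hall
    obtain ⟨α, hα, hne⟩ := hall
    refine ⟨α, hα, fun w hw => ?_⟩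
    obtain ⟨s, r, hsr, h⟩ := hpair w α hw hα
    refine ⟨s, r, ?_, ?_⟩
    · intro hs
      have hr := hsr.resolve_left fun h => h hs
      rw [map_sub, map_sub, epsG_loG_smul, epsG_loG_smul, hs, map_zero, zero_mul, zero_sub, neg_eq_zero] at h
      exact hne (tz_reg hF hr h)
    · rw [tmul_smul1 s, tmul_smul1 r]
      exact h

end MPadcDC
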