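import Pool.Agent.Lib.MP_adc574_ag_DC.GEpsB
import Pool.Agent.Lib.MP_adc574_ag_DC.GReg

/-!
# GPb: the prime ideal of `κ[a]`

JOB GPb. `PbC b D` is the kernel of `κ[a] → κ[a] ⊗ C → κ[a] ⊗ C` (`eps0`), a domain (`dom`).
* `pb_kill`: `epsG (r • w) = tz (eps0 (r ⊗ 1)) * epsG w = 0`, `eps_top`.
* `pb_tf`: apply `epsG`, `tz_reg`, `eps_top`.
* `pb_char`: if `x ≠ 0` in `C` and `x^N r w ∈ im` for all top forms `w` of the form `1 ⊗ w0` then `r ∈ PbC`.
-/

set_option autoImplicit false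

namespace MPadcDC

open MvPolynomial TensorProduct MPadcGP

universe u v

variable {κ : Type u} [Field κ] [CharZero κ] {Γ : Type} [Fintype Γ] {C : Type u} [CommRing C] [IsDomain C] [Algebra κ C]

/-- The ideal of the discriminant. -/
noncomputable def PbC (b : Γ → C) (D : Γ → Derivation κ C C) : Ideal (MvPolynomial Γ κ) :=
  RingHom.ker (((eps0 b D).comp Algebra.TensorProduct.includeLeft : MvPolynomial Γ κ →ₐ[κ] MvPolynomial Γ κ ⊗[κ] C) :
    MvPolynomial Γ κ →+* MvPolynomial Γ κ ⊗[κ] C)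

variable {b : Γ → C} {D : Γ → Derivation κ C C} {m : ℕ}

omit [CharZero κ] [IsDomain C] in
theorem mem_PbC {r : MvPolynomial Γ κ} : r ∈ PbC b D ↔ eps0 b D (r ⊗ₜ[κ] (1 : C)) = 0 := Iff.rfl

theorem PbC_prime (hF : Fra κ b D m) : (PbC b D).IsPrime := by
  have h1 : IsDomain (MvPolynomial Γ κ ⊗[κ] C) := dom
  exact RingHom.ker_isPrime _

omit [CharZero κ] [IsDomain C] in
private theorem GPb_smul (r : MvPolynomial Γ κ) (w : FG κ Γ C) : r • w = (tz (r ⊗ₜ[κ] (1 : C)) : FG κ Γ C) * w := by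
  rw [tz_tmul, map_one]
  induction w using TensorProduct.induction_on with
  | zero => rw [smul_zero, mul_zero]
  | tmul s v => rw [Algebra.TensorProduct.tmul_mul_tmul, one_mul]; rfl
  | add x y hx hy => rw [smul_add, mul_add, hx, hy]

omit [CharZero κ] [IsDomain C] in
private theorem GPb_one {w : Fm κ C} (h : ((1 : MvPolynomial Γ κ) ⊗ₜ[κ] w : FG κ Γ C) = 0) : w = 0 := by
  have h1 := congrArg (TensorProduct.lid κ (Fm κ C) ∘
    LinearMap.rTensor (Fm κ C) (MvPolynomial.aeval (fun _ => 0) : MvPolynomial Γ κ →ₐ[κ] κ).toLinearMap) h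
  simp only [Function.comp_apply, LinearMap.rTensor_tmul, AlgHom.toLinearMap_apply, map_one, map_zero,
    TensorProduct.lid_tmul, one_smul] at h1
  exact h1

theorem pb_kill (hF : Fra κ b D m) {r : MvPolynomial Γ κ} (hr : r ∈ PbC b D) {w : FG κ Γ C} (hw : w ∈ FdG κ Γ (m + 1)) :
    ∃ x ∈ FdG κ Γ (C := C) m, thG κ b * x = r • w := by
  refine eps_top hF (Submodule.smul_mem _ r hw) ?_
  rw [GPb_smul, map_mul, epsG_tz, mem_PbC.1 hr, map_zero, zero_mul]

/-- membership in `dF ∧ (forms)` in top degree, up to a factor -/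
theorem pb_iff (hF : Fra κ b D m) {w : FG κ Γ C} (hw : w ∈ FdG κ Γ (m + 1)) :
    (∃ x ∈ FdG κ Γ (C := C) m, thG κ b * x = w) ↔ epsG b D w = 0 := by
  constructor
  · rintro ⟨x, -, rfl⟩
    rw [map_mul, epsG_thG hF, zero_mul]
  · intro h
    exact eps_top hF hw h

theorem pb_tf (hF : Fra κ b D m) {t : MvPolynomial Γ κ ⊗[κ] C} (ht : eps0 b D t ≠ 0) {w : FG κ Γ C}
    (hw : w ∈ FdG κ Γ (m + 1)) (h : ∃ x ∈ FdG κ Γ (C := C) m, thG κ b * x = (tz t : FG κ Γ C) * w) :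
    ∃ x ∈ FdG κ Γ (C := C) m, thG κ b * x = w := by
  obtain ⟨x, -, hx⟩ := h
  refine (pb_iff hF hw).2 ?_
  have h1 := congrArg (epsG b D) hx
  rw [map_mul, epsG_thG hF, zero_mul, map_mul, epsG_tz] at h1
  exact tz_reg hF ht h1.symm

/-- There is a nonzero top form over `κ`. -/
theorem exists_top (hF : Fra κ b D m) : ∃ w ∈ Fd κ C (m + 1), w ≠ 0 := by
  by_contra hc
  push Not at hc
  have h1 : ∀ k, k ≤ m + 1 → ∀ w ∈ Fd κ C (m + 1 - k), w = 0 := by
    intro k
    induction k with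
    | zero => exact fun _ w hw => hc w hw
    | succ k ih =>
      intro hk w hw
      have h2 : ∀ g, ct κ (D g) (df κ (b g) * w) = 0 := by
        intro g
        rw [ih (by omega) (df κ (b g) * w) (by
          have h3 := fd_mul (df_mem (A := κ) (b g)) hw
          rw [show 1 + (m + 1 - (k + 1)) = m + 1 - k by omega] at h3
          exact h3), map_zero]
      have h3 : ∑ g, ct κ (D g) (df κ (b g) * w) =
          fz κ (∑ g, D g (b g)) * w - ∑ g, df κ (b g) * ct κ (D g) w := by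
        rw [map_sum, Finset.sum_mul, ← Finset.sum_sub_distrib]
        exact Finset.sum_congr rfl fun g _ => ct_df_mul _ _ _ _
      rw [Finset.sum_eq_zero fun g _ => h2 g, hF.tr, hF.num hw] at h3
      have h4 : fz κ (((m + 1 : ℕ) : C)) * w = ((m + 1 : ℕ) : κ) • w := by
        rw [map_natCast, Nat.cast_smul_eq_nsmul, nsmul_eq_mul]
      rw [h4, ← sub_smul] at h3
      have h5 : (((m + 1 : ℕ) : κ) - ((m + 1 - (k + 1) : ℕ) : κ)) = ((k + 1 : ℕ) : κ) := by
        rw [← Nat.cast_sub (by omega), show m + 1 - (m + 1 - (k + 1)) = k + 1 by omega]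
      rw [h5] at h3
      exact (smul_eq_zero.1 h3.symm).resolve_left (Nat.cast_ne_zero.2 (Nat.succ_ne_zero k))
  have h2 := h1 (m + 1) le_rfl (fz κ (1 : C)) (by
    rw [Nat.sub_self]
    exact fz_mem 1)
  rw [map_one] at h2
  exact one_ne_zero h2

theorem pb_char (hF : Fra κ b D m) {w : Fm κ C} (hw : w ∈ Fd κ C (m + 1)) (hw0 : w ≠ 0) {r : MvPolynomial Γ κ}
    (h : ∃ x ∈ FdG κ Γ (C := C) m, thG κ b * x = r ⊗ₜ[κ] w) : r ∈ PbC b D := by
  obtain ⟨x, -, hx⟩ := h
  rw [mem_PbC]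
  by_contra hr
  have h1 := congrArg (epsG b D) hx
  rw [map_mul, epsG_thG hF, zero_mul, epsG_tmul] at h1
  exact hw0 (GPb_one (tz_reg hF hr h1.symm))

end MPadcDC
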