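import Pool.Agent.Lib.MP_adc574_ag_DC.GDer
import Pool.Agent.Lib.MP_adc574_ag_DC.GPb

/-!
# GDerB: the ideal `PbC` is not zero, and the ratios of the coordinates

JOB GDerB. Hypothesis `hE`: `E b_g = e b_g` for a derivation `E`, `e ≠ 0`; so `eps0 (∑ a_g b_g) = 0` (`eps0_der`).
`L` = the fraction field of `κ[a] ⊗ C` (a domain: `dom`), `ρ(r) = eps0 (r ⊗ 1)`, `σ(c) = 1 ⊗ c`; `eps0_uu` gives the hypothesis `h1` of GDer.
* `pb_ne`: `PbC ≠ ⊥` if some `b g ≠ 0`: otherwise `vec_rel` with `p = 0`, `d = Pi.single g 1` gives `σ(b_g) = 0`.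
* `ratio`: `vec_rel` with `d_g = ρ(∂_h p)`, `d_h = - ρ(∂_g p)` (`eps0` is a homomorphism: `eps0 (r ⊗ c) = ρ(r) σ(c)`).
* `pderiv_not_dvd`: `p` is not constant (`PbC` is prime, not `⊥`), so some `∂_h p ≠ 0` has smaller degree than `p` and is not divisible by `p`. If
  `p ∣ ∂_g p` then `ratio` gives `ρ(∂_h p) σ(b_g) = 0`, `σ(b_g) ≠ 0`, so `∂_h p ∈ PbC = (p)`.
-/

set_option autoImplicit false

namespace MPadcDC

open MvPolynomial TensorProduct MPadcGP

universe u v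

variable {κ : Type u} [Field κ] [CharZero κ] {Γ : Type} [Fintype Γ] {C : Type u} [CommRing C] [Algebra κ C]
  {b : Γ → C} {D : Γ → Derivation κ C C} {m : ℕ} [IsDomain C] {E : Derivation κ C C} {e : κ}

omit [CharZero κ] [Fintype Γ] in
/-- A polynomial which is not constant has a nonzero derivative of smaller degree. -/
private theorem GDerB_pd [CharZero κ] {p : MvPolynomial Γ κ} (hp : p.totalDegree ≠ 0) :
    ∃ h, pderiv h p ≠ 0 ∧ (pderiv h p).totalDegree < p.totalDegree := by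
  classical
  have hp0 : p ≠ 0 := by
    intro h
    rw [h, totalDegree_zero] at hp
    exact hp rfl
  have hs : p.support.Nonempty := by
    rw [Finset.nonempty_iff_ne_empty]
    intro h
    exact hp0 (support_eq_empty.mp h)
  obtain ⟨a, ha, hda⟩ := Finset.exists_mem_eq_sup p.support hs fun s => s.sum fun _ e => e
  have hda' : p.totalDegree = a.sum fun _ e => e := hda
  have ha0 : ∃ h, a h ≠ 0 := by
    by_contra hcon
    push Not at hcon
    apply hp
    rw [hda']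
    have h1 : a = 0 := Finsupp.ext hcon
    rw [h1, Finsupp.sum_zero_index]
  obtain ⟨h, hh⟩ := ha0
  refine ⟨h, ?_, ?_⟩
  · intro h1
    have h2 : coeff (a - Finsupp.single h 1) (pderiv h p) = 0 := by rw [h1, coeff_zero]
    rw [coeff_pderiv, tsub_add_cancel_of_le (Finsupp.single_le_iff.mpr (Nat.one_le_iff_ne_zero.mpr hh))] at h2
    rcases mul_eq_zero.mp h2 with h3 | h3
    · exact mem_support_iff.mp ha h3
    · exact Nat.cast_add_one_ne_zero _ h3
  · unfold totalDegree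
    rw [Finset.sup_lt_iff]
    · intro c hc
      have h1 : c + Finsupp.single h 1 ∈ p.support := by
        rw [mem_support_iff]
        intro h2
        rw [mem_support_iff, coeff_pderiv, h2, zero_mul] at hc
        exact hc rfl
      have h2 := le_totalDegree h1
      rw [Finsupp.sum_add_index' (fun _ => rfl) (fun _ _ _ => rfl), Finsupp.sum_single_index rfl] at h2
      exact h2
    · exact Nat.pos_of_ne_zero hp

omit [CharZero κ] [IsDomain C] in
private theorem GDerB_tmul (r : MvPolynomial Γ κ) (c : C) :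
    eps0 b D (r ⊗ₜ[κ] c) = eps0 b D (r ⊗ₜ[κ] 1) * ((1 : MvPolynomial Γ κ) ⊗ₜ[κ] c) := by
  have h1 : (r ⊗ₜ[κ] c : MvPolynomial Γ κ ⊗[κ] C) = (r ⊗ₜ[κ] 1) * ((1 : MvPolynomial Γ κ) ⊗ₜ[κ] c) := by
    rw [Algebra.TensorProduct.tmul_mul_tmul, mul_one, one_mul]
  rw [h1, map_mul, eps0_C]

theorem eps0_F (hF : Fra κ b D m) (he : e ≠ 0) (hE : ∀ g, E (b g) = e • b g) :
    eps0 b D (∑ g, (X g : MvPolynomial Γ κ) ⊗ₜ[κ] b g) = 0 := by
  have h1 := eps0_der hF E
  have h2 : ∑ g, (X g : MvPolynomial Γ κ) ⊗ₜ[κ] E (b g) = e • ∑ g, (X g : MvPolynomial Γ κ) ⊗ₜ[κ] b g := by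
    rw [Finset.smul_sum]
    exact Finset.sum_congr rfl fun g _ => by rw [hE, TensorProduct.tmul_smul]
  rw [h2, map_smul] at h1
  have h3 := congrArg (fun x => e⁻¹ • x) h1
  simp only [smul_smul, inv_mul_cancel₀ he, one_smul, smul_zero] at h3
  exact h3

/-- The relations over the fraction field of `κ[a] ⊗ C`. -/
private theorem GDerB_main (hF : Fra κ b D m) (he : e ≠ 0) (hE : ∀ g, E (b g) = e • b g) {p : MvPolynomial Γ κ}
    (hp : PbC b D = Ideal.span {p}) (c : Γ → MvPolynomial Γ κ)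
    (hc : ∑ g, eps0 b D (c g ⊗ₜ[κ] 1) * eps0 b D (pderiv g p ⊗ₜ[κ] 1) = 0) :
    ∑ g, eps0 b D (c g ⊗ₜ[κ] b g) = 0 := by
  have hdom : IsDomain (MvPolynomial Γ κ ⊗[κ] C) := dom
  let L := FractionRing (MvPolynomial Γ κ ⊗[κ] C)
  let ι : MvPolynomial Γ κ ⊗[κ] C →ₐ[κ] L := IsScalarTower.toAlgHom κ (MvPolynomial Γ κ ⊗[κ] C) L
  have hι : Function.Injective ι := IsFractionRing.injective (MvPolynomial Γ κ ⊗[κ] C) L
  let ρ : MvPolynomial Γ κ →ₐ[κ] L := ι.comp ((eps0 b D).comp Algebra.TensorProduct.includeLeft)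
  let σ : C →ₐ[κ] L := ι.comp Algebra.TensorProduct.includeRight
  have hρσ : ∀ (r : MvPolynomial Γ κ) (x : C), ρ r * σ x = ι (eps0 b D (r ⊗ₜ[κ] x)) := by
    intro r x
    rw [GDerB_tmul, map_mul]
    rfl
  have h1 : ∀ g, ∑ h, ρ (X h) * σ (D g (b h)) = 0 := by
    intro g
    simp only [hρσ]
    rw [← map_sum, ← map_sum]
    have h2 := eps0_uu hF g
    unfold uu at h2
    rw [h2, map_zero]
  have h2 : ∑ h, ρ (X h) * σ (b h) = 0 := by
    simp only [hρσ]
    rw [← map_sum, ← map_sum, eps0_F hF he hE, map_zero]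
  have h3 : ∀ r, ρ r = 0 ↔ p ∣ r := by
    intro r
    rw [← Ideal.mem_span_singleton, ← hp, mem_PbC]
    constructor
    · intro h
      exact hι (by rw [map_zero]; exact h)
    · intro h
      show ι (eps0 b D (r ⊗ₜ[κ] (1 : C))) = 0
      rw [h, map_zero]
  have h4 := vec_rel ρ σ hF h1 h2 h3 (fun g => ρ (c g)) (by
    have h5 : ∀ g, ρ (c g) * ρ (pderiv g p) =
        ι (eps0 b D (c g ⊗ₜ[κ] 1) * eps0 b D (pderiv g p ⊗ₜ[κ] 1)) := fun g => by
      rw [map_mul]
      rfl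
    rw [Finset.sum_congr rfl fun g _ => h5 g, ← map_sum, hc, map_zero])
  simp only [hρσ] at h4
  rw [← map_sum] at h4
  exact hι (by rw [map_zero]; exact h4)

omit [CharZero κ] [IsDomain C] in
private theorem GDerB_zero (g : Γ) : eps0 b D (((0 : MvPolynomial Γ κ)) ⊗ₜ[κ] b g) = 0 := by
  rw [TensorProduct.zero_tmul, map_zero]

omit [CharZero κ] [IsDomain C] in
private theorem GDerB_inj {c : C} (h : eps0 b D ((1 : MvPolynomial Γ κ) ⊗ₜ[κ] c) = 0) : c = 0 := by
  rw [eps0_C] at h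
  have h1 : Function.Injective (Algebra.TensorProduct.includeRight : C →ₐ[κ] MvPolynomial Γ κ ⊗[κ] C) :=
    Algebra.TensorProduct.includeRight_injective (MvPolynomial.C_injective Γ κ)
  exact h1 (by rw [map_zero]; exact h)

theorem pb_ne (hF : Fra κ b D m) (he : e ≠ 0) (hE : ∀ g, E (b g) = e • b g) {g : Γ} (hg : b g ≠ 0) : PbC b D ≠ ⊥ := by
  classical
  intro h0
  have h1 := GDerB_main hF he hE (p := 0) (by rw [h0, Ideal.span_singleton_eq_bot.mpr rfl])
    (Pi.single g 1) (Finset.sum_eq_zero fun i _ => by rw [map_zero, TensorProduct.zero_tmul, map_zero, mul_zero])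
  rw [Finset.sum_eq_single g (fun i _ hi => by rw [Pi.single_eq_of_ne hi, GDerB_zero])
    (fun h => absurd (Finset.mem_univ g) h), Pi.single_eq_same] at h1
  exact hg (GDerB_inj h1)

theorem ratio (hF : Fra κ b D m) (he : e ≠ 0) (hE : ∀ g, E (b g) = e • b g) {p : MvPolynomial Γ κ}
    (hp : PbC b D = Ideal.span {p}) (g h : Γ) :
    eps0 b D (pderiv h p ⊗ₜ[κ] b g) = eps0 b D (pderiv g p ⊗ₜ[κ] b h) := by
  classical
  have hs : ∀ (i : Γ) (r : MvPolynomial Γ κ) (f : Γ → MvPolynomial Γ κ → MvPolynomial Γ κ ⊗[κ] C)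
      (_ : ∀ j, f j 0 = 0), ∑ j, f j ((Pi.single i r : Γ → MvPolynomial Γ κ) j) = f i r := by
    intro i r f hf
    rw [Finset.sum_eq_single i (fun j _ hj => by rw [Pi.single_eq_of_ne hj, hf])
      (fun h => absurd (Finset.mem_univ i) h), Pi.single_eq_same]
  have h1 := GDerB_main hF he hE hp (Pi.single g (pderiv h p) - Pi.single h (pderiv g p)) (by
    have h2 : ∀ j, eps0 b D (((Pi.single g (pderiv h p) - Pi.single h (pderiv g p) :
        Γ → MvPolynomial Γ κ) j) ⊗ₜ[κ] (1 : C)) * eps0 b D (pderiv j p ⊗ₜ[κ] 1) =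
        eps0 b D (((Pi.single g (pderiv h p) : Γ → MvPolynomial Γ κ) j) ⊗ₜ[κ] (1 : C)) *
          eps0 b D (pderiv j p ⊗ₜ[κ] 1) -
        eps0 b D (((Pi.single h (pderiv g p) : Γ → MvPolynomial Γ κ) j) ⊗ₜ[κ] (1 : C)) *
          eps0 b D (pderiv j p ⊗ₜ[κ] 1) := fun j => by
      rw [Pi.sub_apply, TensorProduct.sub_tmul, map_sub, sub_mul]
    rw [Finset.sum_congr rfl fun j _ => h2 j, Finset.sum_sub_distrib]
    rw [hs g (pderiv h p) (fun j r => eps0 b D (r ⊗ₜ[κ] 1) * eps0 b D (pderiv j p ⊗ₜ[κ] 1)) fun j => by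
        rw [TensorProduct.zero_tmul, map_zero, zero_mul],
      hs h (pderiv g p) (fun j r => eps0 b D (r ⊗ₜ[κ] 1) * eps0 b D (pderiv j p ⊗ₜ[κ] 1)) fun j => by
        rw [TensorProduct.zero_tmul, map_zero, zero_mul]]
    rw [mul_comm, sub_self])
  have h3 : ∀ j, eps0 b D (((Pi.single g (pderiv h p) - Pi.single h (pderiv g p) :
      Γ → MvPolynomial Γ κ) j) ⊗ₜ[κ] b j) =
      eps0 b D (((Pi.single g (pderiv h p) : Γ → MvPolynomial Γ κ) j) ⊗ₜ[κ] b j) -
      eps0 b D (((Pi.single h (pderiv g p) : Γ → MvPolynomial Γ κ) j) ⊗ₜ[κ] b j) := fun j => by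
    rw [Pi.sub_apply, TensorProduct.sub_tmul, map_sub]
  rw [Finset.sum_congr rfl fun j _ => h3 j, Finset.sum_sub_distrib,
    hs g (pderiv h p) (fun j r => eps0 b D (r ⊗ₜ[κ] b j)) fun j => by
      rw [TensorProduct.zero_tmul, map_zero],
    hs h (pderiv g p) (fun j r => eps0 b D (r ⊗ₜ[κ] b j)) fun j => by
      rw [TensorProduct.zero_tmul, map_zero]] at h1
  exact sub_eq_zero.mp h1

theorem pderiv_not_dvd (hF : Fra κ b D m) (he : e ≠ 0) (hE : ∀ g, E (b g) = e • b g) {p : MvPolynomial Γ κ}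
    (hp : PbC b D = Ideal.span {p}) {g : Γ} (hg : b g ≠ 0) : ¬ p ∣ pderiv g p := by
  intro hdiv
  have hdom : IsDomain (MvPolynomial Γ κ ⊗[κ] C) := dom
  have hprime : (Ideal.span {p}).IsPrime := hp ▸ PbC_prime hF
  have hp0 : p ≠ 0 := by
    intro h
    refine pb_ne hF he hE hg ?_
    rw [hp, h, Ideal.span_singleton_eq_bot.mpr rfl]
  have hdeg : p.totalDegree ≠ 0 := by
    intro h
    rw [totalDegree_eq_zero_iff_eq_C] at h
    apply hprime.ne_top
    rw [Ideal.span_singleton_eq_top, h]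
    refine (IsUnit.mk0 (coeff 0 p) fun h1 => hp0 ?_).map (MvPolynomial.C : κ →+* MvPolynomial Γ κ)
    rw [h, h1, MvPolynomial.C_0]
  obtain ⟨h, hh0, hhd⟩ := GDerB_pd hdeg
  have hnd : ¬ p ∣ pderiv h p := by
    rintro ⟨r, hr⟩
    have hr0 : r ≠ 0 := by
      intro h1
      rw [h1, mul_zero] at hr
      exact hh0 hr
    rw [hr, totalDegree_mul_of_isDomain hp0 hr0] at hhd
    omega
  have h1 := ratio hF he hE hp g h
  have h2 : eps0 b D (pderiv g p ⊗ₜ[κ] (1 : C)) = 0 := by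
    rw [← mem_PbC, hp, Ideal.mem_span_singleton]
    exact hdiv
  rw [GDerB_tmul (pderiv g p) (b h), h2, zero_mul, GDerB_tmul] at h1
  rcases mul_eq_zero.mp h1 with h3 | h3
  · apply hnd
    rw [← Ideal.mem_span_singleton, ← hp, mem_PbC]
    exact h3
  · refine hg (GDerB_inj (b := b) (D := D) (κ := κ) (Γ := Γ) ?_)
    rw [eps0_C]
    exact h3

end MPadcDC
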