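import Pool.Agent.Lib.MP_adc574_ag_DC.GDefs

/-!
# GDom: the localizations are domains

JOB GDom. `CR J` is a domain (`J` prime), `LR J {l}` its localization at the powers of `x_l ≠ 0` (`∏ j ∈ {l}, X j = X l`); the chart is a subring.

-/

set_option autoImplicit false

namespace MPadcDC

open MvPolynomial TensorProduct MPadcGP

universe u v

variable {κ : Type u} [Field κ] {n : ℕ} {J : Ideal (MvPolynomial (Fin n) κ)} {l : Fin n}

private theorem GDom_mk_ne {k : Fin n} (hk : (X k : MvPolynomial (Fin n) κ) ∉ J) :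
    (Ideal.Quotient.mk J (X k) : CR J) ≠ 0 := by
  intro h
  exact hk (Ideal.Quotient.eq_zero_iff_mem.1 h)

private theorem GDom_le (hp : J.IsPrime) (hl : (X l : MvPolynomial (Fin n) κ) ∉ J) :
    Submonoid.powers (Ideal.Quotient.mk J (∏ j ∈ ({l} : Finset (Fin n)), X j) : CR J) ≤
      nonZeroDivisors (CR J) := by
  have : IsDomain (CR J) := Ideal.Quotient.isDomain J
  refine powers_le_nonZeroDivisors_of_noZeroDivisors ?_
  rw [Finset.prod_singleton]
  exact GDom_mk_ne hl

theorem LR_domain (hp : J.IsPrime) (hl : (X l : MvPolynomial (Fin n) κ) ∉ J) : IsDomain (LR J {l}) := by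
  have : IsDomain (CR J) := Ideal.Quotient.isDomain J
  exact IsLocalization.isDomain_localization (GDom_le hp hl)

theorem LR_inj (hp : J.IsPrime) (hl : (X l : MvPolynomial (Fin n) κ) ∉ J) :
    Function.Injective (algebraMap (CR J) (LR J {l})) :=
  IsLocalization.injective (LR J {l}) (GDom_le hp hl)

theorem lx_ne (hp : J.IsPrime) (hl : (X l : MvPolynomial (Fin n) κ) ∉ J) {k : Fin n}
    (hk : (X k : MvPolynomial (Fin n) κ) ∉ J) : lx J {l} k ≠ 0 := by
  intro h
  unfold lx at h
  exact GDom_mk_ne hk (LR_inj hp hl (by rw [h, map_zero]))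

theorem chart_domain (hp : J.IsPrime) (hl : (X l : MvPolynomial (Fin n) κ) ∉ J) : IsDomain (chart J {l}) := by
  have := LR_domain hp hl
  infer_instance

end MPadcDC
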