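import Pool.Agent.Lib.MP_adc574_ag_DC.GDefs

/-!
# GHom: homogeneous derivations of `S[1/x_l]`
-/

set_option autoImplicit false

namespace MPadcDC

open MvPolynomial TensorProduct MPadcGP

universe u v

variable {κ : Type u} [Field κ] {n : ℕ} {J : Ideal (MvPolynomial (Fin n) κ)} {l : Fin n} {e : ℕ}

/-- The derivations `D g` have the degree `-e`. -/
def HomD (D : Mon n e → Derivation κ (LR J {l}) (LR J {l})) : Prop :=
  ∀ g k, D g (lx J {l} k) * lx J {l} l ^ (e - 1) ∈ chart J {l}

end MPadcDC
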