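import Pool.Agent.Lib.MP_adc574_ag_DC.GExt
import Pool.Agent.Lib.MP_adc574_ag_DC.GHom
import Pool.Agent.Lib.MP_adc574_ag_DC.GDom

/-!
# GEul: the Euler derivation of `S[1/x_l]`

JOB GEul. `exists_eulL`: `ext_chart` with `δ = 0`, `τ = x_l`: `E(x_k) = E((x_k/x_l) x_l) = x_k`; `E` of a monomial of degree `e`. `bl_ne`: `bl` of
`mon0 e l` is `x_l^e`, a unit. `chart_fg`: the chart is generated by the `x_k/x_l` (`chart_ind`, `cq_mul`, `J = {l}`).
`Fra.ne`: `bl e l g` for `g` with nonzero class.

-/

set_option autoImplicit false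

namespace MPadcDC

open MvPolynomial TensorProduct MPadcGP

universe u v

private theorem GEul_mon {κ C : Type u} [Field κ] [CommRing C] [Algebra κ C] {n : ℕ} (E : Derivation κ C C)
    (φ : MvPolynomial (Fin n) κ →ₐ[κ] C) (hE : ∀ k, E (φ (X k)) = φ (X k)) (g : Fin n →₀ ℕ) :
    E (φ (monomial g 1)) = (g.degree : κ) • φ (monomial g 1) := by
  induction g using Finsupp.induction_linear with
  | zero =>
    have h1 : (monomial (0 : Fin n →₀ ℕ) (1 : κ)) = 1 := rfl
    rw [h1, map_one, Derivation.map_one_eq_zero]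
    simp
  | add g h hg hh =>
    have h1 : monomial (g + h) (1 : κ) = monomial g 1 * monomial h 1 := by
      rw [monomial_mul, one_mul]
    rw [h1, map_mul, Derivation.leibniz, hg, hh]
    have h2 : (g + h).degree = g.degree + h.degree := map_add Finsupp.degree g h
    rw [h2, Nat.cast_add, add_smul, smul_eq_mul, smul_eq_mul, mul_smul_comm, mul_smul_comm,
      mul_comm (φ (monomial h 1)) (φ (monomial g 1)), add_comm]
  | single i m =>
    have h1 : monomial (Finsupp.single i m) (1 : κ) = X i ^ m := (X_pow_eq_monomial).symm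
    have h3 : (Finsupp.single i m).degree = m := Finsupp.degree_single i m
    rw [h1, h3, map_pow, Derivation.leibniz_pow, hE, smul_eq_mul]
    cases m with
    | zero => simp
    | succ m =>
      rw [Nat.add_sub_cancel, ← pow_succ]
      exact (Nat.cast_smul_eq_nsmul κ (m + 1) _).symm

private theorem GEul_x {κ C : Type u} [Field κ] [CommRing C] [Algebra κ C] (E : Derivation κ C C) {x c t : C}
    (h : c * t = x) (hc : E c = 0) (ht : E t = t) : E x = x := by
  rw [← h, Derivation.leibniz, ht, hc, smul_zero, add_zero, smul_eq_mul]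

variable {κ : Type u} [Field κ] [CharZero κ] {n : ℕ} {J : Ideal (MvPolynomial (Fin n) κ)} {l : Fin n} {e : ℕ}

/-- the Euler derivation of `S[1/x_l]` -/
theorem exists_eulL (hJ : IsHomog J) : ∃ E : Derivation κ (LR J {l}) (LR J {l}), (∀ k, E (lx J {l} k) = lx J {l} k) ∧
    ∀ g : Mon n e, E (bl J e l g) = (e : κ) • bl J e l g := by
  obtain ⟨E, h0, h1⟩ := ext_chart (l := l) hJ (0 : Derivation κ (chart J {l}) (LR J {l})) (lx J {l} l)
  have hE : ∀ k, E (lx J {l} k) = lx J {l} k := fun k =>
    GEul_x E (cq_mul_lx J {l} k (Finset.mem_singleton_self l)) (h0 _) h1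
  refine ⟨E, hE, fun g => ?_⟩
  have h4 : g.1.degree = e := by
    have h5 := (Finset.mem_finsuppAntidiag.mp g.2).1
    rw [Finsupp.degree_eq_sum]
    exact h5
  have h6 := GEul_mon E ((lm J l).comp (Ideal.Quotient.mkₐ κ J)) hE g.1
  rw [h4] at h6
  exact h6

theorem bl_mon0 : bl J e l (mon0 e l) = lx J {l} l ^ e := by
  have h2 : xm J (mon0 e l : Mon n e).1 = (Ideal.Quotient.mk J (X l)) ^ e := by
    unfold xm
    rw [← map_pow, X_pow_eq_monomial]
    rfl
  unfold bl
  rw [h2, map_pow]
  rfl

theorem bl_ne (hp : J.IsPrime) (hl : (X l : MvPolynomial (Fin n) κ) ∉ J) : bl J e l (mon0 e l) ≠ 0 := by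
  have hd : IsDomain (LR J {l}) := LR_domain hp hl
  rw [bl_mon0]
  exact ((lx_isUnit J {l} (Finset.mem_singleton_self l)).pow e).ne_zero

theorem chart_fg : (⊤ : Subalgebra κ (chart J {l})) =
    Algebra.adjoin κ (Set.range fun k => cq J {l} k (Finset.mem_singleton_self l)) := by
  symm
  rw [eq_top_iff]
  intro x _
  induction x using chart_ind with
  | h1 a => exact Subalgebra.algebraMap_mem _ a
  | h2 k m hm =>
    obtain rfl := Finset.mem_singleton.mp hm
    exact Algebra.subset_adjoin ⟨k, rfl⟩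
  | h3 x y hx hy => exact Subalgebra.add_mem _ (hx trivial) (hy trivial)
  | h4 x y hx hy => exact Subalgebra.mul_mem _ (hx trivial) (hy trivial)

end MPadcDC
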