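import Pool.Agent.Lib.MP_adc574_ag_DC.GTr
import Pool.Agent.Lib.MP_adc574_ag_DC.GEul

/-!
# GFra: the derivations `D_g` of `S[1/x_l]`

JOB GFra. `A0 = chart J {l}` is smooth over `κ` (so `Ω[A0⁄κ]` is projective of finite type) and a domain. `y_g = x^g / x_l^e ∈ A0`
(`g : Mon n e`), `T = x_l`.
* `exists_y`: the elements `y_g` and the fact that the `dy_g` span `Ω[A0⁄κ]` (`y_g` for `g = (e-1) ε_l + ε_k` is `x_k/x_l`, and these generate
  `A0`: `chart_fg`; `KaehlerDifferential` is spanned by the `d` of generators); `exists_split` (rank `m`).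
* `exists_fra`: `δ_g` from `exists_y`. `D_g := ext_chart (x ↦ T^(-e) δ_g x) 0` for `g ≠ g0 := mon0 e l`, and
  `D_{g0} := ext_chart (x ↦ T^(-e) (δ_{g0} x - ∑_g y_g δ_g x)) (T^(1-e) / e)`. Check `∑ D_g(x) d(x^g) = dx` on `x ∈ A0`
  (`d(x^g) = T^e dy_g + e y_g T^(e-1) dT`, `d(x^{g0}) = e T^(e-1) dT`) and on `x = T`; both sides are derivations.
  Trace: `D_g(x^g) = δ_g(y_g)` for `g ≠ g0`; `D_{g0}(T^e) = 1`; `y_{g0} = 1`, `δ_{g0}(1) = 0`. Degree: `D_g(x_k) T^(e-1) ∈ A0`, `x_k = y T`.

-/

set_option autoImplicit false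

namespace MPadcDC

open MvPolynomial TensorProduct MPadcGP

universe u v

variable {κ : Type u} [Field κ] [CharZero κ] {n : ℕ} {J : Ideal (MvPolynomial (Fin n) κ)} {l : Fin n} {e : ℕ}

private theorem GFra_sum (g : Mon n e) : ∑ k, g.1 k = e := by
  have h1 := g.2
  rw [Finset.mem_finsuppAntidiag] at h1
  exact h1.1

/-- the function `x^g / x_l^e` -/
private noncomputable def GFra_y (J : Ideal (MvPolynomial (Fin n) κ)) (l : Fin n) (g : Fin n →₀ ℕ) : chart J {l} :=
  ∏ k, cq J {l} k (Finset.mem_singleton_self l) ^ g k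

omit [CharZero κ] in
private theorem GFra_bl (g : Mon n e) : bl J e l g = ∏ k, lx J {l} k ^ g.1 k := by
  have h1 : bl J e l g = algebraMap (CR J) (LR J {l}) (Ideal.Quotient.mk J (monomial g.1 1)) := rfl
  have h2 : (monomial g.1 1 : MvPolynomial (Fin n) κ) = ∏ k, X k ^ g.1 k := by
    rw [monomial_eq, C_1, one_mul, Finsupp.prod_fintype _ _ (fun i => pow_zero _)]
  have h3 : ((algebraMap (CR J) (LR J {l})).comp (Ideal.Quotient.mk J)) (∏ k, X k ^ g.1 k) =
      ∏ k, lx J {l} k ^ g.1 k := by
    refine (map_prod ((algebraMap (CR J) (LR J {l})).comp (Ideal.Quotient.mk J)) (fun k => X k ^ g.1 k)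
      Finset.univ).trans (Finset.prod_congr rfl fun k _ => ?_)
    exact map_pow ((algebraMap (CR J) (LR J {l})).comp (Ideal.Quotient.mk J)) (X k) (g.1 k)
  exact h1.trans ((congrArg ((algebraMap (CR J) (LR J {l})).comp (Ideal.Quotient.mk J)) h2).trans h3)

omit [CharZero κ] in
private theorem GFra_y_mul (g : Mon n e) : (GFra_y J l g.1 : LR J {l}) * lx J {l} l ^ e = bl J e l g := by
  have h1 : (GFra_y J l g.1 : LR J {l}) =
      ∏ k, (cq J {l} k (Finset.mem_singleton_self l) : LR J {l}) ^ g.1 k := by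
    have h2 : (GFra_y J l g.1 : LR J {l}) = (chart J {l}).val (GFra_y J l g.1) := rfl
    rw [h2, GFra_y, map_prod]
    refine Finset.prod_congr rfl fun k _ => ?_
    rw [map_pow]
    rfl
  have h3 : lx J {l} l ^ e = ∏ k, lx J {l} l ^ g.1 k := by
    rw [Finset.prod_pow_eq_pow_sum, GFra_sum]
  rw [h1, h3, GFra_bl, ← Finset.prod_mul_distrib]
  refine Finset.prod_congr rfl fun k _ => ?_
  rw [← mul_pow, cq_mul_lx]

omit [CharZero κ] in
private theorem GFra_y_single (k : Fin n) :
    GFra_y J l (Finsupp.single l (e - 1) + Finsupp.single k 1) = cq J {l} k (Finset.mem_singleton_self l) := by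
  rw [GFra_y]
  simp only [Finsupp.coe_add, Pi.add_apply, pow_add, Finset.prod_mul_distrib]
  rw [Finset.prod_eq_single l (fun j _ hj => by rw [Finsupp.single_eq_of_ne hj, pow_zero])
        (fun h => absurd (Finset.mem_univ l) h),
        Finset.prod_eq_single k (fun j _ hj => by rw [Finsupp.single_eq_of_ne hj, pow_zero])
        (fun h => absurd (Finset.mem_univ k) h), Finsupp.single_eq_same, Finsupp.single_eq_same, cq_self, one_pow,
        one_mul, pow_one]

private theorem GFra_deg (he : 1 ≤ e) (k : Fin n) : (Finsupp.single l (e - 1) + Finsupp.single k 1 : Fin n →₀ ℕ) ∈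
    (Finset.univ : Finset (Fin n)).finsuppAntidiag e := by
  rw [Finset.mem_finsuppAntidiag]
  refine ⟨?_, Finset.subset_univ _⟩
  simp only [Finsupp.coe_add, Pi.add_apply, Finset.sum_add_distrib]
  rw [Finset.sum_eq_single l (fun j _ hj => Finsupp.single_eq_of_ne hj) (fun h => absurd (Finset.mem_univ l) h),
    Finset.sum_eq_single k (fun j _ hj => Finsupp.single_eq_of_ne hj) (fun h => absurd (Finset.mem_univ k) h),
    Finsupp.single_eq_same, Finsupp.single_eq_same]
  omega

private theorem GFra_span' {R : Type u} [CommRing R] [Algebra κ R] {ι Γ : Type} {q : ι → R} {y : Γ → R}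
    (hq : (⊤ : Subalgebra κ R) = Algebra.adjoin κ (Set.range q)) (hy : ∀ k, ∃ g, y g = q k) :
    Submodule.span R (Set.range fun g : Γ => KaehlerDifferential.D κ R (y g)) = ⊤ := by
  have hall : ∀ x : R, KaehlerDifferential.D κ R x ∈
      Submodule.span R (Set.range fun g : Γ => KaehlerDifferential.D κ R (y g)) := by
    intro x
    have hx : x ∈ Algebra.adjoin κ (Set.range q) := by
      rw [← hq]
      exact Algebra.mem_top
    induction hx using Algebra.adjoin_induction with
    | mem x hx =>
      obtain ⟨k, rfl⟩ := hx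
      obtain ⟨g, hg⟩ := hy k
      exact Submodule.subset_span ⟨g, congrArg (KaehlerDifferential.D κ R) hg⟩
    | algebraMap r =>
      rw [Derivation.map_algebraMap]
      exact Submodule.zero_mem _
    | add x y _ _ hx hy =>
      rw [map_add]
      exact Submodule.add_mem _ hx hy
    | mul x y _ _ hx hy =>
      rw [Derivation.leibniz]
      exact Submodule.add_mem _ (Submodule.smul_mem _ _ hy) (Submodule.smul_mem _ _ hx)
  rw [eq_top_iff, ← KaehlerDifferential.span_range_derivation κ R, Submodule.span_le]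
  rintro _ ⟨x, rfl⟩
  exact hall x

private theorem GFra_ex {R : Type u} [CommRing R] [Algebra κ R] [IsDomain R] (hs : Algebra.Smooth κ R) {Γ : Type} [Fintype Γ]
    [DecidableEq Γ] {m : ℕ} (hm : Module.finrank R (Ω[R⁄κ]) = m) {y : Γ → R}
    (hy : Submodule.span R (Set.range fun g : Γ => KaehlerDifferential.D κ R (y g)) = ⊤) :
    ∃ δ : Γ → Derivation κ R R, (∀ x, ∑ g, δ g x • KaehlerDifferential.D κ R (y g) = KaehlerDifferential.D κ R x) ∧
      ∑ g, δ g (y g) = (m : R) := by
  have h3 : Module.Finite R (Ω[R⁄κ]) := inferInstance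
  have h4 : Module.Projective R (Ω[R⁄κ]) := inferInstance
  exact exists_split hm y hy

theorem exists_y {m : ℕ} (hJ : Good J m) (he : 1 ≤ e) (hl : (X l : MvPolynomial (Fin n) κ) ∉ J) :
    ∃ (y : Mon n e → chart J {l}) (δ : Mon n e → Derivation κ (chart J {l}) (chart J {l})),
      (∀ g, (y g : LR J {l}) * lx J {l} l ^ e = bl J e l g) ∧ y (mon0 e l) = 1 ∧
      (∀ x, ∑ g, δ g x • KaehlerDifferential.D κ (chart J {l}) (y g) = KaehlerDifferential.D κ (chart J {l}) x) ∧
      ∑ g, δ g (y g) = (m : chart J {l}) := by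
  have h1 : IsDomain (chart J {l}) := chart_domain hJ.prime hl
  obtain ⟨δ, h5, h6⟩ := GFra_ex (hJ.smooth l) (hJ.rank l hl) (GFra_span' chart_fg (y := fun g : Mon n e => GFra_y J l g.1)
    fun k => ⟨⟨Finsupp.single l (e - 1) + Finsupp.single k 1, GFra_deg he k⟩, GFra_y_single k⟩)
  refine ⟨fun g => GFra_y J l g.1, δ, fun g => GFra_y_mul g, ?_, h5, h6⟩
  change GFra_y J l (Finsupp.single l e) = 1
  rw [GFra_y, Finset.prod_eq_single l (fun j _ hj => by rw [Finsupp.single_eq_of_ne hj, pow_zero])
        (fun h => absurd (Finset.mem_univ l) h), cq_self, one_pow]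

omit [CharZero κ] in
/-- a derivation which vanishes on generators of the denominators and numerators is zero -/
private theorem GFra_dz {B : Type u} [CommRing B] [Algebra κ B] {M : Type*} [AddCommGroup M] [Module B M] [Module κ M]
    [IsScalarTower κ B M] (D : Derivation κ B M) (φ : MvPolynomial (Fin n) κ →ₐ[κ] B) {c : Fin n → B} {t : B} (ht : IsUnit t)
    (hφ : ∀ k, c k * t = φ (X k)) (h1 : ∀ k, D (c k) = 0) (h2 : D t = 0) {z : B} (hz : ∃ (N : ℕ) (p : MvPolynomial (Fin n) κ), z * t ^ N = φ p) :
    D z = 0 := by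
  have hlx : ∀ k, D (φ (X k)) = 0 := by
    intro k
    rw [← hφ k, Derivation.leibniz, h1, h2, smul_zero, smul_zero, add_zero]
  have hp : ∀ p : MvPolynomial (Fin n) κ, D (φ p) = 0 := by
    intro p
    induction p using MvPolynomial.induction_on with
    | C a =>
      have h3 : φ (C a) = algebraMap κ B a := φ.commutes a
      rw [h3, Derivation.map_algebraMap]
    | add p q hp hq => rw [map_add, map_add, hp, hq, add_zero]
    | mul_X p k hp => rw [map_mul, Derivation.leibniz, hp, hlx, smul_zero, smul_zero, add_zero]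
  obtain ⟨N, p, hs⟩ := hz
  have h5 := congrArg D hs
  rw [hp, Derivation.leibniz, Derivation.leibniz_pow, h2, smul_zero, smul_zero, smul_zero, zero_add] at h5
  exact ((ht.pow N).smul_eq_zero).1 h5

omit [CharZero κ] in
private theorem GFra_surj (z : LR J {l}) : ∃ (N : ℕ) (p : MvPolynomial (Fin n) κ), z * lx J {l} l ^ N =
    ((lm J l).comp (Ideal.Quotient.mkₐ κ J)) p := by
  obtain ⟨N, s, hs⟩ := IsLocalization.Away.surj (Ideal.Quotient.mk J (∏ j ∈ ({l} : Finset (Fin n)), X j)) z
  obtain ⟨p, rfl⟩ := Ideal.Quotient.mk_surjective s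
  refine ⟨N, p, Eq.trans ?_ hs⟩
  have h4 : algebraMap (CR J) (LR J {l}) (Ideal.Quotient.mk J (∏ j ∈ ({l} : Finset (Fin n)), X j)) = lx J {l} l :=
    congrArg (fun t => algebraMap (CR J) (LR J {l}) (Ideal.Quotient.mk J t)) (Finset.prod_singleton X l)
  rw [h4]

/-- the construction of the derivations over an abstract ring -/
private theorem GFra_gen {Γ : Type} [Fintype Γ] [DecidableEq Γ] {B : Type u} [CommRing B] [Algebra κ B]
    (A0 : Subalgebra κ B) {T V : B} (hV : V * T = 1) (he : 1 ≤ e) (g0 : Γ) (y : Γ → A0)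
    (δ : Γ → Derivation κ A0 A0) (hy0 : y g0 = 1)
    (hδ : ∀ x, ∑ g, δ g x • KaehlerDifferential.D κ A0 (y g) = KaehlerDifferential.D κ A0 x) {m : ℕ}
    (htr : ∑ g, δ g (y g) = (m : A0)) (b : Γ → B) (hb : ∀ g, b g = (y g : B) * T ^ e)
    (hext : ∀ (d : Derivation κ A0 B) (τ : B), ∃ D : Derivation κ B B, (∀ x : A0, D (x : B) = d x) ∧ D T = τ)
    (hzero : ∀ D : Derivation κ B (Ω[B⁄κ]), (∀ x : A0, D (x : B) = 0) → D T = 0 → ∀ z, D z = 0) :
    ∃ D : Γ → Derivation κ B B, Fra κ b D m ∧ ∀ g (x : A0), D g ((x : B) * T) * T ^ (e - 1) ∈ A0 := by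
  have hVe : V ^ e * T ^ e = 1 := by rw [← mul_pow, hV, one_pow]
  have he0 : (e : κ) ≠ 0 := Nat.cast_ne_zero.2 (by omega)
  have hTe : T ^ e = T ^ (e - 1) * T := by
    rw [← pow_succ]
    congr 1
    omega
  have hco : ((1 : A0) : B) = 1 := rfl
  -- the derivations of the chart
  let δ' : Γ → Derivation κ A0 A0 := fun g => δ g - if g = g0 then ∑ h, y h • δ h else 0
  have hδ' : ∀ g x, δ' g x = δ g x - if g = g0 then ∑ h, y h * δ h x else 0 := by
    intro g x
    change (δ g - if g = g0 then ∑ h, y h • δ h else 0 : Derivation κ A0 A0) x = _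
    rw [Derivation.sub_apply]
    congr 1
    split_ifs with hg
    · have h1 : (∑ h, y h • δ h : Derivation κ A0 A0) x = ∑ h, (y h • δ h) x := by
        have h2 := map_sum (Derivation.coeFnAddMonoidHom (R := κ) (A := A0) (M := A0))
          (fun h => y h • δ h) Finset.univ
        have h3 := congrFun h2 x
        rw [Finset.sum_apply] at h3
        exact h3
      rw [h1]
      rfl
    · rfl
  let c : Γ → κ := fun g => if g = g0 then (e : κ)⁻¹ else 0
  let q : A0 →ₗ[A0] B := (LinearMap.mulLeft A0 (V ^ e)).comp (Algebra.linearMap A0 B)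
  have hex : ∀ g : Γ, ∃ D : Derivation κ B B,
      (∀ x : A0, D (x : B) = V ^ e * (δ' g x : B)) ∧ D T = algebraMap κ B (c g) * (T * V ^ e) := by
    intro g
    obtain ⟨D, hD1, hD2⟩ := hext (q.compDer (δ' g)) (algebraMap κ B (c g) * (T * V ^ e))
    exact ⟨D, fun x => (hD1 x).trans rfl, hD2⟩
  choose D hD1 hD2 using hex
  have hcc : algebraMap κ B (e : κ) * algebraMap κ B (e : κ)⁻¹ = 1 := by
    rw [← map_mul, mul_inv_cancel₀ he0, map_one]
  -- values on powers of `T`
  have hDp : ∀ g, D g (T ^ e) = if g = g0 then 1 else 0 := by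
    intro g
    have h0 : D g (T ^ e) = algebraMap κ B (e : κ) * (T ^ (e - 1) * (algebraMap κ B (c g) * (T * V ^ e))) := by
      rw [Derivation.leibniz_pow, hD2, map_natCast, nsmul_eq_mul, smul_eq_mul]
    by_cases hg : g = g0
    · have h1 : c g = (e : κ)⁻¹ := if_pos hg
      rw [h0, h1, if_pos hg]
      have h2 : algebraMap κ B (e : κ) * (T ^ (e - 1) * (algebraMap κ B (e : κ)⁻¹ * (T * V ^ e))) =
          (algebraMap κ B (e : κ) * algebraMap κ B (e : κ)⁻¹) * (V ^ e * (T ^ (e - 1) * T)) := by
        ring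
      rw [h2, ← hTe, hVe, hcc, one_mul]
    · have h1 : c g = 0 := if_neg hg
      rw [h0, h1, if_neg hg, map_zero, zero_mul, mul_zero, mul_zero]
  have hdT : KaehlerDifferential.D κ B (T ^ e) =
      (algebraMap κ B (e : κ) * T ^ (e - 1)) • KaehlerDifferential.D κ B T := by
    rw [Derivation.leibniz_pow, map_natCast, mul_smul, Nat.cast_smul_eq_nsmul]
  have hd1 : KaehlerDifferential.D κ B (1 : B) = 0 := by
    rw [← map_one (algebraMap κ B), Derivation.map_algebraMap]
  refine ⟨D, ⟨?_, ?_⟩, ?_⟩
  · -- the sum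
    have key : ∀ x : B, ∑ g, D g x • KaehlerDifferential.D κ B (b g) = KaehlerDifferential.D κ B x := by
      intro x
      let Δ : Derivation κ B (Ω[B⁄κ]) :=
        (∑ g, (LinearMap.toSpanSingleton B (Ω[B⁄κ])
          (KaehlerDifferential.D κ B (b g))).compDer (D g)) - KaehlerDifferential.D κ B
      have hΔ : ∀ x, Δ x = ∑ g, D g x • KaehlerDifferential.D κ B (b g) - KaehlerDifferential.D κ B x := by
        intro x
        change ((∑ g, (LinearMap.toSpanSingleton B (Ω[B⁄κ])
          (KaehlerDifferential.D κ B (b g))).compDer (D g)) -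
            KaehlerDifferential.D κ B : Derivation κ B (Ω[B⁄κ])) x = _
        rw [Derivation.sub_apply]
        congr 1
        have h2 := map_sum (Derivation.coeFnAddMonoidHom (R := κ) (A := B) (M := Ω[B⁄κ]))
          (fun g => (LinearMap.toSpanSingleton B (Ω[B⁄κ])
          (KaehlerDifferential.D κ B (b g))).compDer (D g)) Finset.univ
        have h3 := congrFun h2 x
        rw [Finset.sum_apply] at h3
        exact h3
      have h0 : Δ x = 0 := by
        refine hzero Δ ?_ ?_ x
        · intro x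
          rw [hΔ, sub_eq_zero]
          have h1 : ∀ g, D g (x : B) • KaehlerDifferential.D κ B (b g) =
              (δ g x : B) • KaehlerDifferential.D κ B (y g : B) +
              ((V ^ e * (y g : B) * (δ g x : B)) • KaehlerDifferential.D κ B (T ^ e) -
              (if g = g0 then (V ^ e * ∑ h, (y h : B) * (δ h x : B)) •
                KaehlerDifferential.D κ B (T ^ e) else 0)) := by
            intro g
            rw [hD1, hδ', hb, Derivation.leibniz, add_comm]
            by_cases hg : g = g0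
            · rw [if_pos hg, if_pos hg, hg, hy0]
              have h2 : ((δ g0 x - ∑ h, y h * δ h x : A0) : B) =
                  (δ g0 x : B) - ∑ h, (y h : B) * (δ h x : B) := by
                have h3 := map_sub A0.val (δ g0 x) (∑ h, y h * δ h x)
                rw [map_sum] at h3
                refine h3.trans ?_
                rfl
              rw [h2, hco, hd1, smul_zero, smul_zero, zero_add, zero_add, one_smul, mul_one, mul_sub, sub_smul]
            · rw [if_neg hg, if_neg hg, sub_zero, sub_zero, smul_add, smul_smul, smul_smul]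
              have h2 : V ^ e * (δ g x : B) * T ^ e = (δ g x : B) := by
                rw [mul_comm (V ^ e), mul_assoc, hVe, mul_one]
              have h3 : V ^ e * (δ g x : B) * (y g : B) = V ^ e * (y g : B) * (δ g x : B) := by ring
              rw [h2, h3]
          rw [Finset.sum_congr rfl fun g _ => h1 g, Finset.sum_add_distrib, Finset.sum_sub_distrib,
            Finset.sum_ite_eq' Finset.univ g0, if_pos (Finset.mem_univ _), ← Finset.sum_smul]
          have h6 : ∑ g, V ^ e * (y g : B) * (δ g x : B) = V ^ e * ∑ h, (y h : B) * (δ h x : B) := by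
            rw [Finset.mul_sum]
            exact Finset.sum_congr rfl fun g _ => mul_assoc _ _ _
          rw [h6, sub_self, add_zero]
          have h7 := congrArg (KaehlerDifferential.map κ κ A0 B) (hδ x)
          rw [map_sum, KaehlerDifferential.map_D] at h7
          refine Eq.trans (Finset.sum_congr rfl fun g _ => ?_) h7
          rw [map_smul, KaehlerDifferential.map_D]
          rfl
        · rw [hΔ, sub_eq_zero]
          have h1 : ∀ g, D g T • KaehlerDifferential.D κ B (b g) =
              if g = g0 then KaehlerDifferential.D κ B T else 0 := by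
            intro g
            rw [hD2]
            by_cases hg : g = g0
            · have h2 : c g = (e : κ)⁻¹ := if_pos hg
              rw [if_pos hg, h2, hb, hg, hy0, hco, one_mul, hdT, smul_smul]
              have h5 : algebraMap κ B (e : κ)⁻¹ * (T * V ^ e) * (algebraMap κ B (e : κ) * T ^ (e - 1)) =
                  (algebraMap κ B (e : κ) * algebraMap κ B (e : κ)⁻¹) * (V ^ e * (T ^ (e - 1) * T)) := by
                ring
              rw [h5, ← hTe, hVe, hcc, one_mul, one_smul]
            · have h2 : c g = 0 := if_neg hg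
              rw [if_neg hg, h2, map_zero, zero_mul, zero_smul]
          rw [Finset.sum_congr rfl fun g _ => h1 g, Finset.sum_ite_eq' Finset.univ g0,
            if_pos (Finset.mem_univ _)]
      rw [hΔ, sub_eq_zero] at h0
      exact h0
    intro x
    have h1 := congrArg (ExteriorAlgebra.ι B) (key x)
    rw [map_sum] at h1
    refine Eq.trans (Finset.sum_congr rfl fun g _ => ?_) h1
    rw [map_smul, fz_smul]
    rfl
  · -- the trace
    have h1 : ∀ g, D g (b g) = (δ g (y g) : B) + (if g = g0 then 1 else 0) := by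
      intro g
      rw [hb, Derivation.leibniz, hDp, hD1, hδ', smul_eq_mul, smul_eq_mul]
      by_cases hg : g = g0
      · rw [if_pos hg, if_pos hg, hg, hy0]
        have h2 : ∀ h : Γ, δ h (1 : A0) = 0 := by
          intro h
          rw [← map_one (algebraMap κ A0), Derivation.map_algebraMap]
        have h3 : ∑ h, y h * δ h (1 : A0) = 0 :=
          Finset.sum_eq_zero fun h _ => by rw [h2, mul_zero]
        have h5 : ((0 : A0) : B) = 0 := rfl
        rw [h3, h2, sub_zero, hco, h5, mul_one, mul_zero, mul_zero, add_zero, zero_add]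
      · rw [if_neg hg, if_neg hg, sub_zero, mul_zero, zero_add, add_zero, ← mul_assoc,
          mul_comm (T ^ e), hVe, one_mul]
    rw [Finset.sum_congr rfl fun g _ => h1 g, Finset.sum_add_distrib,
      Finset.sum_ite_eq' Finset.univ g0, if_pos (Finset.mem_univ _)]
    have h2 := congrArg A0.val htr
    rw [map_sum, map_natCast] at h2
    rw [Nat.cast_add, Nat.cast_one]
    congr 1
  · -- the degree
    intro g x
    have h1 : D g ((x : B) * T) * T ^ (e - 1) = ((algebraMap κ A0 (c g) * x + δ' g x : A0) : B) := by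
      have h2 : ((algebraMap κ A0 (c g) * x + δ' g x : A0) : B) =
          algebraMap κ B (c g) * (x : B) + (δ' g x : B) := rfl
      rw [h2, Derivation.leibniz, hD1, hD2, smul_eq_mul, smul_eq_mul]
      have h3 : ((x : B) * (algebraMap κ B (c g) * (T * V ^ e)) + T * (V ^ e * (δ' g x : B))) * T ^ (e - 1) =
          (algebraMap κ B (c g) * (x : B) + (δ' g x : B)) * (V ^ e * (T ^ (e - 1) * T)) := by
        ring
      rw [h3, ← hTe, hVe, mul_one]
    rw [h1]
    exact Subtype.property _

theorem exists_fra {m : ℕ} (hJ : Good J m) (he : 1 ≤ e) (hl : (X l : MvPolynomial (Fin n) κ) ∉ J) :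
    ∃ D : Mon n e → Derivation κ (LR J {l}) (LR J {l}), Fra κ (bl J e l) D m ∧ HomD D := by
  classical
  obtain ⟨y, δ, hy, hy0, hδ, htr⟩ := exists_y hJ he hl
  have hl0 : l ∈ ({l} : Finset (Fin n)) := Finset.mem_singleton_self l
  obtain ⟨V, hV⟩ : ∃ V : LR J {l}, V * lx J {l} l = 1 :=
    ⟨↑(lx_isUnit J {l} hl0).unit⁻¹, IsUnit.val_inv_mul (lx_isUnit J {l} hl0)⟩
  obtain ⟨D, h1, h2⟩ := GFra_gen (chart J {l}) hV he (mon0 e l) y δ hy0 hδ htr (bl J e l) (fun g => (hy g).symm)
    (fun d τ => ext_chart (l := l) hJ.homog d τ) (fun D h1 h2 z => GFra_dz D ((lm J l).comp (Ideal.Quotient.mkₐ κ J))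
      (lx_isUnit J {l} hl0) (fun k => cq_mul_lx J {l} k hl0) (fun k => h1 _) h2 (GFra_surj z))
  refine ⟨D, h1, fun g k => ?_⟩
  have h3 := h2 g (cq J {l} k hl0)
  rw [cq_mul_lx] at h3
  exact h3

end MPadcDC
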