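import Pool.Agent.Lib.MP_adc574_ag_DC.GGr
import Pool.Agent.Lib.MP_adc574_ag_GP.BC

/-!
# GGrB: the homogeneous components

JOB GGrB.
* `Om_indep`, `exists_pr`: the sum of the spaces `⨆ q, Om J q j` over `j` is direct, as they are in the eigenspaces of the Lie derivative
  for the eigenvalues `j` (`LL_Om`, `Module.End.eigenspaces_iSupIndep`, characteristic `0`). For `exists_pr`: a projection of `Fm` (a vector space) to
  the eigenspace of `j` which is zero on the other eigenspaces (left inverse of the injective map from the direct sum,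
  `LinearMap.exists_leftInverse_of_injective`).
* `exists_deg`: `prS`; every form is a finite sum of forms in the `Fd κ (CR J) q` (`fm_ind`, products of such forms).
* `fd_sum`: `fd_ind` (GP); `fz r * wd t`, `r` and the `t i` sums of monomials (`span_xm`); `df_xm`, `Om_mul`.
-/

set_option autoImplicit false

namespace MPadcDC

open MvPolynomial TensorProduct MPadcGP

universe u v

variable {κ : Type u} [Field κ] [CharZero κ] {n : ℕ} {J : Ideal (MvPolynomial (Fin n) κ)}

/-- The Lie derivative of the Euler field, as a linear map. -/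
private noncomputable def GGrB_E (hJ : IsHomog J) : Module.End κ (Fm κ (CR J)) :=
  { LL κ ((eul hJ).restrictScalars ℤ) with
    map_smul' := by
      intro c e
      have hD : ∀ a : κ, ∃ a', ((eul hJ).restrictScalars ℤ) (algebraMap κ (CR J) a) =
          algebraMap κ (CR J) a' := by
        intro a
        refine ⟨0, ?_⟩
        rw [map_zero]
        exact (eul hJ).map_algebraMap a
      change LL κ ((eul hJ).restrictScalars ℤ) (c • e) = c • LL κ ((eul hJ).restrictScalars ℤ) e
      have h0 : LL κ ((eul hJ).restrictScalars ℤ) (fz κ (algebraMap κ (CR J) c)) = 0 :=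
        (LL_fz κ hD _).trans ((congrArg (fz κ) ((eul hJ).map_algebraMap c)).trans (map_zero _))
      rw [smul_fm, LL_mul κ hD, h0, zero_mul, zero_add, smul_fm] }

private theorem GGrB_le (hJ : IsHomog J) (q j : ℕ) :
    Om J q j ≤ (GGrB_E hJ).eigenspace ((j : ℕ) : κ) := by
  intro w hw
  rw [Module.End.mem_eigenspace_iff]
  exact LL_Om hJ hw

private theorem GGrB_ind (hJ : IsHomog J) :
    iSupIndep (fun j : ℕ => (GGrB_E hJ).eigenspace ((j : ℕ) : κ)) :=
  (Module.End.eigenspaces_iSupIndep (GGrB_E hJ)).comp Nat.cast_injective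

/-- The forms of different degrees are independent. -/
theorem Om_indep (hJ : IsHomog J) (q : ℕ) : iSupIndep (Om J q) :=
  (GGrB_ind hJ).mono (GGrB_le hJ q)

theorem exists_pr (hJ : IsHomog J) : ∃ p : ℕ → Fm κ (CR J) →ₗ[κ] Fm κ (CR J),
    ∀ (q i j : ℕ) (w : Fm κ (CR J)), w ∈ Om J q i → p j w = if i = j then w else 0 := by
  classical
  obtain ⟨G, hG⟩ := LinearMap.exists_leftInverse_of_injective _
    (LinearMap.ker_eq_bot.2 (GGrB_ind hJ).dfinsupp_lsum_injective)
  refine ⟨fun j => ((GGrB_E hJ).eigenspace ((j : ℕ) : κ)).subtype ∘ₗ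
    DFinsupp.lapply (R := κ) (M := fun j : ℕ => (GGrB_E hJ).eigenspace ((j : ℕ) : κ)) j ∘ₗ G, ?_⟩
  intro q i j w hw
  have h1 : G w = DFinsupp.single (β := fun j : ℕ => (GGrB_E hJ).eigenspace ((j : ℕ) : κ)) i
      ⟨w, GGrB_le hJ q i hw⟩ := by
    have h2 := LinearMap.congr_fun hG
      (DFinsupp.single (β := fun j : ℕ => (GGrB_E hJ).eigenspace ((j : ℕ) : κ)) i
        ⟨w, GGrB_le hJ q i hw⟩)
    rw [LinearMap.comp_apply, DFinsupp.lsum_single] at h2
    exact h2
  change ((G w) j : Fm κ (CR J)) = _
  rw [h1]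
  by_cases hij : i = j
  · subst hij
    rw [if_pos rfl, DFinsupp.single_eq_same]
  · rw [if_neg hij, DFinsupp.single_eq_of_ne (Ne.symm hij)]
    rfl

variable (J) in
open Classical in
/-- The component of degree `j`. -/
noncomputable def prS (j : ℕ) : Fm κ (CR J) →ₗ[κ] Fm κ (CR J) :=
  if h : ∃ p : ℕ → Fm κ (CR J) →ₗ[κ] Fm κ (CR J),
    ∀ (q i j : ℕ) (w : Fm κ (CR J)), w ∈ Om J q i → p j w = if i = j then w else 0 then h.choose j else 0

theorem prS_Om (hJ : IsHomog J) {q i : ℕ} (j : ℕ) {w : Fm κ (CR J)} (hw : w ∈ Om J q i) :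
    prS J j w = if i = j then w else 0 := by
  unfold prS
  rw [dif_pos (exists_pr hJ)]
  exact (exists_pr hJ).choose_spec q i j w hw

/-- Products of sums of homogeneous forms. -/
private theorem GGrB_mul {q q' : ℕ} {w w' : Fm κ (CR J)} (hw : w ∈ ⨆ j, Om J q j)
    (hw' : w' ∈ ⨆ j, Om J q' j) : w * w' ∈ ⨆ j, Om J (q + q') j := by
  induction hw using Submodule.iSup_induction' with
  | mem i x hx =>
    induction hw' using Submodule.iSup_induction' with
    | mem i' y hy => exact Submodule.mem_iSup_of_mem (i + i') (Om_mul hx hy)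
    | zero =>
      rw [mul_zero]
      exact Submodule.zero_mem _
    | add y z _ _ hy hz =>
      rw [mul_add]
      exact Submodule.add_mem _ hy hz
  | zero =>
    rw [zero_mul]
    exact Submodule.zero_mem _
  | add y z _ _ hy hz =>
    rw [add_mul]
    exact Submodule.add_mem _ hy hz

private theorem GGrB_fz (r : CR J) : fz κ r ∈ ⨆ j, Om J 0 j := by
  have hr : r ∈ Submodule.span κ (Set.range (xm J)) := by
    rw [span_xm]
    exact Submodule.mem_top
  induction hr using Submodule.span_induction with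
  | mem x hx =>
    obtain ⟨g, rfl⟩ := hx
    exact Submodule.mem_iSup_of_mem g.degree (fz_xm_mem g)
  | zero =>
    rw [map_zero]
    exact Submodule.zero_mem _
  | add x y _ _ hx hy =>
    rw [map_add]
    exact Submodule.add_mem _ hx hy
  | smul c x _ hx =>
    have h1 : fz κ (c • x) = c • fz κ x := (fzl κ (CR J)).map_smul c x
    rw [h1]
    exact Submodule.smul_mem _ _ hx

private theorem GGrB_df (r : CR J) : df κ r ∈ ⨆ j, Om J 1 j := by
  have hr : r ∈ Submodule.span κ (Set.range (xm J)) := by
    rw [span_xm]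
    exact Submodule.mem_top
  induction hr using Submodule.span_induction with
  | mem x hx =>
    obtain ⟨g, rfl⟩ := hx
    exact Submodule.mem_iSup_of_mem g.degree (df_xm_mem g)
  | zero =>
    rw [df_zero]
    exact Submodule.zero_mem _
  | add x y _ _ hx hy =>
    rw [df_add]
    exact Submodule.add_mem _ hx hy
  | smul c x _ hx =>
    have h1 : df κ (c • x) = c • df κ x := (dfl κ (CR J)).map_smul c x
    rw [h1]
    exact Submodule.smul_mem _ _ hx

private theorem GGrB_wd (q : ℕ) (t : Fin q → CR J) : wd κ t ∈ ⨆ j, Om J q j := by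
  induction q with
  | zero =>
    rw [wd_zero, ← map_one (fz κ)]
    exact GGrB_fz 1
  | succ q ih =>
    rw [wd_succ]
    have h := GGrB_mul (GGrB_df (t 0)) (ih (Fin.tail t))
    rwa [add_comm] at h

/-- Every form of form degree `q` is a finite sum of homogeneous forms. -/
theorem fd_sum {q : ℕ} {w : Fm κ (CR J)} (hw : w ∈ Fd κ (CR J) q) : w ∈ ⨆ j, Om J q j := by
  refine fd_ind (P := fun w => w ∈ ⨆ j, Om J q j) (Submodule.zero_mem _) ?_
    (fun a b ha hb => Submodule.add_mem _ ha hb) hw
  intro r t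
  have h := GGrB_mul (GGrB_fz r) (GGrB_wd q t)
  rwa [zero_add] at h

theorem prS_mem (hJ : IsHomog J) {q : ℕ} {w : Fm κ (CR J)} (hw : w ∈ Fd κ (CR J) q) (j : ℕ) :
    prS J j w ∈ Om J q j := by
  have h := fd_sum hw
  clear hw
  induction h using Submodule.iSup_induction' with
  | mem i x hx =>
    rw [prS_Om hJ j hx]
    split_ifs with hij
    · rw [← hij]
      exact hx
    · exact Submodule.zero_mem _
  | zero =>
    rw [map_zero]
    exact Submodule.zero_mem _
  | add y z _ _ hy hz =>
    rw [map_add]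
    exact Submodule.add_mem _ hy hz

private theorem GGrB_sum (hJ : IsHomog J) {q : ℕ} {w : Fm κ (CR J)} (hw : w ∈ ⨆ j, Om J q j) :
    ∃ N, ∀ M, N ≤ M → w = ∑ j ∈ Finset.range M, prS J j w := by
  induction hw using Submodule.iSup_induction' with
  | mem i x hx =>
    refine ⟨i + 1, fun M hM => ?_⟩
    rw [Finset.sum_eq_single i]
    · rw [prS_Om hJ i hx, if_pos rfl]
    · intro j _ hj
      rw [prS_Om hJ j hx, if_neg (Ne.symm hj)]
    · intro hi
      exact absurd (Finset.mem_range.2 hM) hi
  | zero =>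
    refine ⟨0, fun M _ => ?_⟩
    simp
  | add y z _ _ hy hz =>
    obtain ⟨N, hN⟩ := hy
    obtain ⟨N', hN'⟩ := hz
    refine ⟨max N N', fun M hM => ?_⟩
    simp only [map_add, Finset.sum_add_distrib]
    rw [← hN M (le_trans (le_max_left _ _) hM), ← hN' M (le_trans (le_max_right _ _) hM)]

private theorem GGrB_all (w : Fm κ (CR J)) : w ∈ ⨆ q, ⨆ j, Om J q j := by
  induction w using fm_ind with
  | h1 r => exact Submodule.mem_iSup_of_mem 0 (GGrB_fz r)
  | h2 t => exact Submodule.mem_iSup_of_mem 1 (GGrB_df t)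
  | h3 a b ha hb =>
    induction ha using Submodule.iSup_induction' with
    | mem i x hx =>
      induction hb using Submodule.iSup_induction' with
      | mem i' y hy => exact Submodule.mem_iSup_of_mem (i + i') (GGrB_mul hx hy)
      | zero =>
        rw [mul_zero]
        exact Submodule.zero_mem _
      | add y z _ _ hy hz =>
        rw [mul_add]
        exact Submodule.add_mem _ hy hz
    | zero =>
      rw [zero_mul]
      exact Submodule.zero_mem _
    | add y z _ _ hy hz =>
      rw [add_mul]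
      exact Submodule.add_mem _ hy hz
  | h4 a b ha hb => exact Submodule.add_mem _ ha hb

theorem exists_deg (hJ : IsHomog J) : ∃ p : ℕ → (Fm κ (CR J) →ₗ[κ] Fm κ (CR J)),
    (∀ q i j, ∀ w ∈ Om J q j, p i w = if i = j then w else 0) ∧ ∀ w, ∃ N, w = ∑ i ∈ Finset.range N, p i w := by
  refine ⟨prS J, ?_, ?_⟩
  · intro q i j w hw
    rw [prS_Om hJ i hw]
    by_cases h : i = j
    · rw [if_pos h, if_pos h.symm]
    · rw [if_neg h, if_neg (Ne.symm h)]
  · intro w
    have h : ∃ N, ∀ M, N ≤ M → w = ∑ j ∈ Finset.range M, prS J j w := by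
      have hw := GGrB_all w
      induction hw using Submodule.iSup_induction' with
      | mem i x hx => exact GGrB_sum hJ hx
      | zero =>
        refine ⟨0, fun M _ => ?_⟩
        simp
      | add y z _ _ hy hz =>
        obtain ⟨N, hN⟩ := hy
        obtain ⟨N', hN'⟩ := hz
        refine ⟨max N N', fun M hM => ?_⟩
        simp only [map_add, Finset.sum_add_distrib]
        rw [← hN M (le_trans (le_max_left _ _) hM), ← hN' M (le_trans (le_max_right _ _) hM)]
    obtain ⟨N, hN⟩ := h
    exact ⟨N, hN N le_rfl⟩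

theorem sum_prS (hJ : IsHomog J) {q : ℕ} {w : Fm κ (CR J)} (hw : w ∈ Fd κ (CR J) q) :
    ∃ N, ∀ M, N ≤ M → w = ∑ j ∈ Finset.range M, prS J j w :=
  GGrB_sum hJ (fd_sum hw)

end MPadcDC
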