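import Pool.Agent.Lib.MP_adc574_ag_DC.GGrR
import Pool.Agent.Lib.MP_adc574_ag_DC.GGrB

/-!
# GGrS: the homogeneous components over `R`

JOB GGrS. Everything follows from GGrB by linearity (`Submodule.baseChange` is spanned by the `1 ⊗ w`:
`Submodule.baseChange_eq_span`, `TensorProduct.induction_on`).
-/

set_option autoImplicit false

namespace MPadcDC

open MvPolynomial TensorProduct MPadcGP

universe u v

variable {κ : Type u} [Field κ] {Γ : Type} [Fintype Γ] {C : Type u} [CommRing C] [Algebra κ C]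

section ind

theorem GGrS_bcInd {A M : Type u} [CommRing A] [Algebra κ A] [AddCommGroup M] [Module κ M] {p : Submodule κ M}
    {P : A ⊗[κ] M → Prop} (h0 : P 0) (h1 : ∀ (r : A) (w : M), w ∈ p → P (r ⊗ₜ[κ] w))
    (h2 : ∀ x y, P x → P y → P (x + y)) {w : A ⊗[κ] M} (hw : w ∈ p.baseChange A) : P w := by
  have key : ∀ r : A, P (r • w) := by
    rw [Submodule.baseChange_eq_span] at hw
    induction hw using Submodule.span_induction with
    | mem x hx =>
      intro r
      obtain ⟨y, hy, rfl⟩ := hx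
      have h3 : r • (TensorProduct.mk κ A M 1 y) = r ⊗ₜ[κ] y := by
        rw [TensorProduct.mk_apply, TensorProduct.smul_tmul', smul_eq_mul, mul_one]
      rw [h3]
      exact h1 r y hy
    | zero => intro r; rw [smul_zero]; exact h0
    | add x y _ _ hx hy => intro r; rw [smul_add]; exact h2 _ _ (hx r) (hy r)
    | smul a x _ hx => intro r; rw [smul_smul]; exact hx (r * a)
  have h4 := key 1
  rwa [one_smul] at h4

end ind

section FRd

variable [CharZero κ] {n : ℕ} {J : Ideal (MvPolynomial (Fin n) κ)} {e : ℕ}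

variable (J e) in
/-- The component of degree `j` over `R`. -/
noncomputable def prR (j : ℕ) : FR J e →ₗ[Ra κ n e] FR J e := (prS J j).baseChange (Ra κ n e)

theorem tmul_OmR {q j : ℕ} (r : Ra κ n e) {w : Fm κ (CR J)} (hw : w ∈ Om J q j) : r ⊗ₜ[κ] w ∈ OmR J e q j :=
  Submodule.tmul_mem_baseChange_of_mem r hw

theorem GGrS_prR_tmul (j : ℕ) (r : Ra κ n e) (w : Fm κ (CR J)) :
    prR J e j (r ⊗ₜ[κ] w) = r ⊗ₜ[κ] prS J j w := LinearMap.baseChange_tmul _ _ _

theorem OmR_le {q j : ℕ} {w : FR J e} (hw : w ∈ OmR J e q j) : w ∈ FdG κ (Mon n e) (C := CR J) q := by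
  refine GGrS_bcInd (P := fun w => w ∈ FdG κ (Mon n e) (C := CR J) q) (Submodule.zero_mem _) ?_ ?_ hw
  · intro r w hw
    exact tmul_FdG r (Om_le hw)
  · intro x y hx hy
    exact Submodule.add_mem _ hx hy

theorem prR_OmR (hJ : IsHomog J) {q i : ℕ} (j : ℕ) {w : FR J e} (hw : w ∈ OmR J e q i) :
    prR J e j w = if i = j then w else 0 := by
  refine GGrS_bcInd (P := fun w => prR J e j w = if i = j then w else 0) ?_ ?_ ?_ hw
  · rw [map_zero, ite_self]
  · intro r w hw
    rw [GGrS_prR_tmul, prS_Om hJ j hw]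
    split_ifs
    · rfl
    · exact TensorProduct.tmul_zero _ _
  · intro x y hx hy
    rw [map_add, hx, hy]
    split_ifs
    · rfl
    · exact add_zero 0

theorem prR_mem (hJ : IsHomog J) {q : ℕ} {w : FR J e} (hw : w ∈ FdG κ (Mon n e) (C := CR J) q) (j : ℕ) :
    prR J e j w ∈ OmR J e q j := by
  refine GGrS_bcInd (P := fun w => prR J e j w ∈ OmR J e q j) ?_ ?_ ?_ hw
  · rw [map_zero]; exact Submodule.zero_mem _
  · intro r w hw
    rw [GGrS_prR_tmul]
    exact tmul_OmR r (prS_mem hJ hw j)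
  · intro x y hx hy
    rw [map_add]
    exact Submodule.add_mem _ hx hy

theorem sum_prR (hJ : IsHomog J) {q : ℕ} {w : FR J e} (hw : w ∈ FdG κ (Mon n e) (C := CR J) q) :
    ∃ N, ∀ M, N ≤ M → w = ∑ j ∈ Finset.range M, prR J e j w := by
  refine GGrS_bcInd (P := fun w => ∃ N, ∀ M, N ≤ M → w = ∑ j ∈ Finset.range M, prR J e j w) ?_ ?_ ?_ hw
  · refine ⟨0, fun M _ => ?_⟩
    rw [Finset.sum_eq_zero]
    intro j _
    exact map_zero _
  · intro r w hw
    obtain ⟨N, hN⟩ := sum_prS hJ hw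
    refine ⟨N, fun M hM => ?_⟩
    have h1 : ∀ j ∈ Finset.range M, prR J e j (r ⊗ₜ[κ] w) = r ⊗ₜ[κ] prS J j w := fun j _ => GGrS_prR_tmul j r w
    rw [Finset.sum_congr rfl h1, ← TensorProduct.tmul_sum, ← hN M hM]
  · rintro x y ⟨N, hN⟩ ⟨N', hN'⟩
    refine ⟨max N N', fun M hM => ?_⟩
    have h1 := hN M (le_trans (le_max_left _ _) hM)
    have h2 := hN' M (le_trans (le_max_right _ _) hM)
    have h3 : ∀ j ∈ Finset.range M, prR J e j (x + y) = prR J e j x + prR J e j y := fun j _ => map_add _ _ _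
    rw [Finset.sum_congr rfl h3, Finset.sum_add_distrib, ← h1, ← h2]

theorem thF_mul_mem {q j : ℕ} {w : FR J e} (hw : w ∈ OmR J e q j) : thF J e * w ∈ OmR J e (q + 1) (j + e) := by
  refine GGrS_bcInd (P := fun w => thF J e * w ∈ OmR J e (q + 1) (j + e)) ?_ ?_ ?_ hw
  · rw [mul_zero]; exact Submodule.zero_mem _
  · intro r w hw
    unfold thF thG
    rw [Finset.sum_mul]
    refine Submodule.sum_mem _ fun g _ => ?_
    rw [Algebra.TensorProduct.tmul_mul_tmul]
    have h1 := Om_mul (df_xm_mem (J := J) g.1) hw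
    rw [mon_degree g, add_comm 1 q, add_comm e j] at h1
    exact tmul_OmR _ h1
  · intro x y hx hy
    rw [mul_add]
    exact Submodule.add_mem _ hx hy

theorem prR_thF (hJ : IsHomog J) {q : ℕ} {w : FR J e} (hw : w ∈ FdG κ (Mon n e) (C := CR J) q) (j : ℕ) :
    prR J e (j + e) (thF J e * w) = thF J e * prR J e j w := by
  obtain ⟨N, hN⟩ := sum_prR hJ hw
  have h := hN N le_rfl
  have key : ∀ i ∈ Finset.range N, prR J e (j + e) (thF J e * prR J e i w) = thF J e * prR J e j (prR J e i w) := by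
    intro i _
    have h1 := prR_mem hJ hw i
    rw [prR_OmR hJ (j + e) (thF_mul_mem h1), prR_OmR hJ j h1]
    by_cases hij : i = j
    · rw [if_pos hij, if_pos (by rw [hij])]
    · rw [if_neg hij, if_neg (by omega), mul_zero]
  calc prR J e (j + e) (thF J e * w)
      = prR J e (j + e) (thF J e * ∑ i ∈ Finset.range N, prR J e i w) := by rw [← h]
    _ = ∑ i ∈ Finset.range N, prR J e (j + e) (thF J e * prR J e i w) := by rw [Finset.mul_sum, map_sum]
    _ = ∑ i ∈ Finset.range N, thF J e * prR J e j (prR J e i w) := Finset.sum_congr rfl key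
    _ = thF J e * prR J e j (∑ i ∈ Finset.range N, prR J e i w) := by rw [map_sum, Finset.mul_sum]
    _ = thF J e * prR J e j w := by rw [← h]

/-- no component of degree `< e` -/
theorem prR_thF_lt (hJ : IsHomog J) {q : ℕ} {w : FR J e} (hw : w ∈ FdG κ (Mon n e) (C := CR J) q) {j : ℕ} (hj : j < e) :
    prR J e j (thF J e * w) = 0 := by
  obtain ⟨N, hN⟩ := sum_prR hJ hw
  have h := hN N le_rfl
  calc prR J e j (thF J e * w)
      = prR J e j (thF J e * ∑ i ∈ Finset.range N, prR J e i w) := by rw [← h]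
    _ = ∑ i ∈ Finset.range N, prR J e j (thF J e * prR J e i w) := by rw [Finset.mul_sum, map_sum]
    _ = 0 := by
      refine Finset.sum_eq_zero fun i _ => ?_
      rw [prR_OmR hJ j (thF_mul_mem (prR_mem hJ hw i)), if_neg (by omega)]

theorem xm_mul_mem {q j : ℕ} (g : Fin n →₀ ℕ) {w : FR J e} (hw : w ∈ OmR J e q j) :
    (1 : Ra κ n e) ⊗ₜ[κ] fz κ (xm J g) * w ∈ OmR J e q (j + g.degree) := by
  refine GGrS_bcInd (P := fun w => (1 : Ra κ n e) ⊗ₜ[κ] fz κ (xm J g) * w ∈ OmR J e q (j + g.degree)) ?_ ?_ ?_ hw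
  · rw [mul_zero]; exact Submodule.zero_mem _
  · intro r w hw
    rw [Algebra.TensorProduct.tmul_mul_tmul]
    have h1 := Om_mul (fz_xm_mem (J := J) g) hw
    rw [zero_add, add_comm g.degree j] at h1
    exact tmul_OmR _ h1
  · intro x y hx hy
    rw [mul_add]
    exact Submodule.add_mem _ hx hy

theorem prR_xm (hJ : IsHomog J) {q : ℕ} (g : Fin n →₀ ℕ) {w : FR J e} (hw : w ∈ FdG κ (Mon n e) (C := CR J) q) (j : ℕ) :
    prR J e (j + g.degree) ((1 : Ra κ n e) ⊗ₜ[κ] fz κ (xm J g) * w) =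
      (1 : Ra κ n e) ⊗ₜ[κ] fz κ (xm J g) * prR J e j w := by
  obtain ⟨N, hN⟩ := sum_prR hJ hw
  have h := hN N le_rfl
  have key : ∀ i ∈ Finset.range N, prR J e (j + g.degree) ((1 : Ra κ n e) ⊗ₜ[κ] fz κ (xm J g) * prR J e i w)
      = (1 : Ra κ n e) ⊗ₜ[κ] fz κ (xm J g) * prR J e j (prR J e i w) := by
    intro i _
    have h1 := prR_mem hJ hw i
    rw [prR_OmR hJ (j + g.degree) (xm_mul_mem g h1), prR_OmR hJ j h1]
    by_cases hij : i = j
    · rw [if_pos hij, if_pos (by rw [hij])]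
    · rw [if_neg hij, if_neg (by omega), mul_zero]
  calc prR J e (j + g.degree) ((1 : Ra κ n e) ⊗ₜ[κ] fz κ (xm J g) * w)
      = prR J e (j + g.degree) ((1 : Ra κ n e) ⊗ₜ[κ] fz κ (xm J g) * ∑ i ∈ Finset.range N, prR J e i w) := by
        rw [← h]
    _ = ∑ i ∈ Finset.range N, prR J e (j + g.degree) ((1 : Ra κ n e) ⊗ₜ[κ] fz κ (xm J g) * prR J e i w) := by
        rw [Finset.mul_sum, map_sum]
    _ = ∑ i ∈ Finset.range N, (1 : Ra κ n e) ⊗ₜ[κ] fz κ (xm J g) * prR J e j (prR J e i w) :=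
        Finset.sum_congr rfl key
    _ = (1 : Ra κ n e) ⊗ₜ[κ] fz κ (xm J g) * prR J e j (∑ i ∈ Finset.range N, prR J e i w) := by
        rw [map_sum, Finset.mul_sum]
    _ = (1 : Ra κ n e) ⊗ₜ[κ] fz κ (xm J g) * prR J e j w := by rw [← h]

end FRd

end MPadcDC
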