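import Pool.Agent.Lib.MP_adc574_ag_DC.GEps
import Pool.Agent.Lib.MP_adc574_ag_DC.GTop
import Pool.Agent.Lib.MP_adc574_ag_GP.Cup

/-!
# GEpsB: the top degree

JOB GEpsB.
* `eps_top`: for a top form `w` with `epsG w = 0`: `w = w - epsG w`, and `w` is a sum of `r ⊗ (fz c * wd t) = tz (r ⊗ c) * (1 ⊗ wd t)`, so
  `w = ∑_g tz(u_g) w_g` with top forms `w_g` (`sub_eps0`). `tz(u_g) w_g = ctG (D g) (θ w_g) + θ ctG (D g) w_g = θ ctG (D g) w_g`
  (`ctG_thG_mul`, `topG`).
* `top_zero`: `∑_g db_g ct_g w = (m + 1) w` (`Fra.num`), iterated.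
* `top_rank`: for forms `u`, `v` of degrees `k`, `l` with `k + l ≥ m + 2`: `u v = 0` (`topG`), so `ct_g(u) v = (-1)^(k+1) u ct_g(v)`. Move the
  contractions one by one: `(ct_{g_0} ... ct_{g_m} w) w' = (ct_{g_1} ... ct_{g_m} w) ct_{g_0} w' = - (ct_{g_2} ... w) ct_{g_1} ct_{g_0} w' = ...`; the signs `(-1)^(k+1)`,
  `k = 1, ..., m + 1`, and the reversal of the order of the contractions (they anticommute) cancel.
-/

set_option autoImplicit false

namespace MPadcDC

open MvPolynomial TensorProduct MPadcGP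

universe u v

variable {κ : Type u} [Field κ] {Γ : Type} [Fintype Γ] {C : Type u} [CommRing C] [Algebra κ C]
  {b : Γ → C} {D : Γ → Derivation κ C C} {m : ℕ}

private theorem GEpsB_ct_tz (θ : Derivation κ C C) (t : MvPolynomial Γ κ ⊗[κ] C) (w : FG κ Γ C) :
    ctG θ ((tz t : FG κ Γ C) * w) = (tz t : FG κ Γ C) * ctG θ w := by
  induction t using TensorProduct.induction_on with
  | zero => rw [map_zero, zero_mul, zero_mul, map_zero]
  | add x y hx hy => rw [map_add, add_mul, add_mul, map_add, hx, hy]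
  | tmul r c =>
    induction w using TensorProduct.induction_on with
    | zero => rw [mul_zero, map_zero, mul_zero]
    | add x y hx hy => rw [mul_add, map_add, map_add, mul_add, hx, hy]
    | tmul r' w =>
      rw [tz_tmul, Algebra.TensorProduct.tmul_mul_tmul, ← fz_smul]
      show (r * r') ⊗ₜ[κ] (ct κ θ (c • w)) = (r ⊗ₜ[κ] fz κ c) * (r' ⊗ₜ[κ] ct κ θ w)
      rw [map_smul, Algebra.TensorProduct.tmul_mul_tmul, fz_smul]

private theorem GEpsB_span [CharZero κ] (hF : Fra κ b D m) {w : FG κ Γ C} (hw : w ∈ FdG κ Γ (m + 1))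
    {s : MvPolynomial Γ κ ⊗[κ] C} (hs : s ∈ Ideal.span (Set.range (uu b D))) :
    ∃ x ∈ FdG κ Γ (C := C) m, thG κ b * x = tz s * w := by
  induction hs using Submodule.span_induction with
  | mem s hs =>
    obtain ⟨g, rfl⟩ := hs
    refine ⟨ctG (D g) w, ctG_mem _ hw, ?_⟩
    have h1 := ctG_thG_mul (b := b) (D g) w
    rw [topG hF (Nat.lt_succ_self (m + 1)) (thG_mul_mem b hw), map_zero] at h1
    have h2 : (tz (uu b D g) : FG κ Γ C) = ∑ h, (X h : MvPolynomial Γ κ) ⊗ₜ[κ] fz κ (D g (b h)) := by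
      unfold uu
      rw [map_sum]
      exact Finset.sum_congr rfl fun h _ => tz_tmul _ _
    rw [h2]
    exact (sub_eq_zero.1 h1.symm).symm
  | zero => exact ⟨0, Submodule.zero_mem _, by rw [mul_zero, map_zero, zero_mul]⟩
  | add x y _ _ hx hy =>
    obtain ⟨x', hx1, hx2⟩ := hx
    obtain ⟨y', hy1, hy2⟩ := hy
    exact ⟨x' + y', Submodule.add_mem _ hx1 hy1, by rw [mul_add, hx2, hy2, map_add, add_mul]⟩
  | smul a x _ hx =>
    obtain ⟨x', hx1, hx2⟩ := hx
    refine ⟨tz a * x', tz_mul_FdG a hx1, ?_⟩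
    rw [smul_eq_mul, tz_mul, mul_assoc, ← hx2, ← mul_assoc, ← tz_comm, mul_assoc]

theorem eps_top [CharZero κ] (hF : Fra κ b D m) {w : FG κ Γ C} (hw : w ∈ FdG κ Γ (m + 1)) (h : epsG b D w = 0) :
    ∃ x ∈ FdG κ Γ (C := C) m, thG κ b * x = w := by
  have h1 : ∃ x ∈ FdG κ Γ (C := C) m, thG κ b * x = w - epsG b D w := by
    refine FdG_ind (P := fun w => ∃ x ∈ FdG κ Γ (C := C) m, thG κ b * x = w - epsG b D w) ?_
      (fun r c t => ?_) (fun x y hx hy => ?_) hw
    · exact ⟨0, Submodule.zero_mem _, by rw [mul_zero, map_zero, sub_zero]⟩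
    · have h2 : (r ⊗ₜ[κ] (fz κ c * wd κ t) : FG κ Γ C) =
          tz (r ⊗ₜ[κ] c) * (1 : MvPolynomial Γ κ) ⊗ₜ[κ] wd κ t := by
        rw [tz_tmul, Algebra.TensorProduct.tmul_mul_tmul, mul_one]
      obtain ⟨x, hx1, hx2⟩ := GEpsB_span hF (tmul_FdG (1 : MvPolynomial Γ κ) (wd_mem (A := κ) t))
        (sub_eps0 (b := b) (D := D) (r ⊗ₜ[κ] c))
      refine ⟨x, hx1, ?_⟩
      show _ = _ - epsG b D _
      rw [hx2, h2, map_mul, epsG_tz, epsG_one_tmul, map_sub, sub_mul]
    · obtain ⟨x', hx1, hx2⟩ := hx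
      obtain ⟨y', hy1, hy2⟩ := hy
      refine ⟨x' + y', Submodule.add_mem _ hx1 hy1, ?_⟩
      show _ = _ - epsG b D _
      rw [mul_add, hx2, hy2, map_add]
      abel
  rwa [h, sub_zero] at h1

private theorem GEpsB_num (hF : Fra κ b D m) {q : ℕ} {w : FG κ Γ C} (hw : w ∈ FdG κ Γ q) :
    ∑ g, ((1 : MvPolynomial Γ κ) ⊗ₜ[κ] df κ (b g) : FG κ Γ C) * ctG (D g) w = (q : κ) • w := by
  refine FdG_ind (P := fun w => ∑ g, ((1 : MvPolynomial Γ κ) ⊗ₜ[κ] df κ (b g) : FG κ Γ C) * ctG (D g) w =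
    (q : κ) • w) ?_ (fun r c t => ?_) (fun x y hx hy => ?_) hw
  · simp only [map_zero, mul_zero, Finset.sum_const_zero, smul_zero]
  · have h1 : ∀ g, ((1 : MvPolynomial Γ κ) ⊗ₜ[κ] df κ (b g) : FG κ Γ C) * ctG (D g) (r ⊗ₜ[κ] (fz κ c * wd κ t)) =
        r ⊗ₜ[κ] (df κ (b g) * ct κ (D g) (fz κ c * wd κ t)) := by
      intro g
      show ((1 : MvPolynomial Γ κ) ⊗ₜ[κ] df κ (b g) : FG κ Γ C) * (r ⊗ₜ[κ] ct κ (D g) (fz κ c * wd κ t)) = _
      rw [Algebra.TensorProduct.tmul_mul_tmul, one_mul]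
    show ∑ g, ((1 : MvPolynomial Γ κ) ⊗ₜ[κ] df κ (b g) : FG κ Γ C) * ctG (D g) (r ⊗ₜ[κ] (fz κ c * wd κ t)) = _
    rw [Finset.sum_congr rfl fun g _ => h1 g, ← TensorProduct.tmul_sum,
      hF.num (fz_mul_mem c (wd_mem t)), TensorProduct.tmul_smul]
  · simp only [map_add, mul_add, Finset.sum_add_distrib, smul_add, hx, hy]

/-- The iterated contractions. -/
private noncomputable def GEpsB_c (L : List (Derivation κ C C)) (w : FG κ Γ C) : FG κ Γ C :=
  L.foldr (fun θ x => ctG θ x) w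

private theorem GEpsB_eq {k : ℕ} (G : Fin k → Γ) (w : FG κ Γ C) :
    (List.ofFn fun i => (ctG (D (G i)) : FG κ Γ C →ₗ[κ] FG κ Γ C)).foldr (fun f x => f x) w =
      GEpsB_c (List.ofFn fun i => D (G i)) w := by
  have h1 : (List.ofFn fun i => (ctG (D (G i)) : FG κ Γ C →ₗ[κ] FG κ Γ C)) =
      (List.ofFn fun i => D (G i)).map fun θ => (ctG θ : FG κ Γ C →ₗ[κ] FG κ Γ C) := by
    rw [List.map_ofFn]
    rfl
  rw [h1, List.foldr_map]
  rfl

private theorem GEpsB_zero [CharZero κ] (hF : Fra κ b D m) {q : ℕ} {w : FG κ Γ C} (hw : w ∈ FdG κ Γ q)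
    (h : ∀ G : Fin q → Γ, GEpsB_c (List.ofFn fun i => D (G i)) w = 0) : w = 0 := by
  induction q generalizing w with
  | zero => simpa [GEpsB_c] using h Fin.elim0
  | succ q ih =>
    have h1 : ∀ g, ctG (D g) w = 0 := by
      intro g
      refine ih (ctG_mem _ hw) fun G => ?_
      have h2 := h (Fin.snoc G g)
      rw [List.ofFn_succ', List.concat_eq_append] at h2
      unfold GEpsB_c at h2 ⊢
      rw [List.foldr_append] at h2
      simpa only [Fin.snoc_castSucc, Fin.snoc_last, List.foldr_cons, List.foldr_nil] using h2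
    have h3 := GEpsB_num hF hw
    rw [Finset.sum_eq_zero fun g _ => by rw [h1 g, mul_zero]] at h3
    exact (smul_eq_zero.1 h3.symm).resolve_left (Nat.cast_ne_zero.2 (Nat.succ_ne_zero q))

/-- a top form is zero if all its `m + 1`-fold contractions are -/
theorem top_zero [CharZero κ] (hF : Fra κ b D m) {w : FG κ Γ C} (hw : w ∈ FdG κ Γ (m + 1))
    (h : ∀ G : Fin (m + 1) → Γ, (List.ofFn fun i => ctG (D (G i))).foldr (fun f x => f x) w = 0) : w = 0 :=
  GEpsB_zero hF hw fun G => (GEpsB_eq G w).symm.trans (h G)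

private theorem GEpsB_mul (θ : Derivation κ C C) {k : ℕ} {u : FG κ Γ C} (hu : u ∈ FdG κ Γ k) (v : FG κ Γ C) :
    ctG θ (u * v) = ctG θ u * v + ((-1 : ℤ) ^ k) • (u * ctG θ v) := by
  refine FdG_ind (P := fun u => ctG θ (u * v) = ctG θ u * v + ((-1 : ℤ) ^ k) • (u * ctG θ v)) ?_
    (fun r c t => ?_) (fun x y hx hy => ?_) hu
  · simp only [map_zero, zero_mul, smul_zero, add_zero]
  · show ctG θ (_ * v) = ctG θ _ * v + ((-1 : ℤ) ^ k) • (_ * ctG θ v)
    induction v using TensorProduct.induction_on with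
    | zero => simp only [map_zero, mul_zero, add_zero, smul_zero]
    | add x y hx hy =>
      rw [mul_add, map_add, hx, hy, map_add, mul_add, mul_add, smul_add]
      abel
    | tmul r' v =>
      rw [Algebra.TensorProduct.tmul_mul_tmul]
      show (r * r') ⊗ₜ[κ] ct κ θ (fz κ c * wd κ t * v) =
        (r ⊗ₜ[κ] ct κ θ (fz κ c * wd κ t)) * r' ⊗ₜ[κ] v +
          ((-1 : ℤ) ^ k) • (r ⊗ₜ[κ] (fz κ c * wd κ t) * r' ⊗ₜ[κ] ct κ θ v)
      rw [Algebra.TensorProduct.tmul_mul_tmul, Algebra.TensorProduct.tmul_mul_tmul, ct_mul,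
        inv_zsmul κ (fz_mul_mem c (wd_mem t)), TensorProduct.tmul_add, smul_mul_assoc]
      congr 1
      exact map_zsmul (TensorProduct.mk κ (MvPolynomial Γ κ) (Fm κ C) (r * r')) _ _
  · rw [add_mul, map_add, hx, hy, map_add, add_mul, add_mul, smul_add]
    abel

private theorem GEpsB_anti (θ θ' : Derivation κ C C) (x : FG κ Γ C) : ctG θ (ctG θ' x) = -ctG θ' (ctG θ x) := by
  induction x using TensorProduct.induction_on with
  | zero => simp only [map_zero, neg_zero]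
  | add x y hx hy =>
    simp only [map_add, hx, hy]
    abel
  | tmul r w =>
    show (r ⊗ₜ[κ] ct κ θ (ct κ θ' w) : FG κ Γ C) = -(r ⊗ₜ[κ] ct κ θ' (ct κ θ w))
    have h1 : ct κ θ (ct κ θ' w) = -ct κ θ' (ct κ θ w) := CliffordAlgebra.contractLeft_comm _ _ _
    rw [h1, TensorProduct.tmul_neg]

private theorem GEpsB_mem {q : ℕ} (L : List (Derivation κ C C)) {w : FG κ Γ C} (hw : w ∈ FdG κ Γ (q + L.length)) :
    GEpsB_c L w ∈ FdG κ Γ q := by
  induction L generalizing q with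
  | nil => exact hw
  | cons θ L ih =>
    have h1 : GEpsB_c L w ∈ FdG κ Γ (q + 1) := ih (by
      rw [List.length_cons] at hw
      rwa [add_assoc, add_comm 1])
    exact ctG_mem θ h1

/-- The sign. -/
private noncomputable def GEpsB_s (j k : ℕ) : ℤ := ∏ i ∈ Finset.range k, (-1) ^ (j + i)

private theorem GEpsB_s_succ (j k : ℕ) : GEpsB_s j (k + 1) = (-1) ^ j * GEpsB_s (j + 1) k := by
  unfold GEpsB_s
  rw [Finset.prod_range_succ', mul_comm, add_zero]
  congr 1
  exact Finset.prod_congr rfl fun i _ => by rw [add_assoc, add_comm 1]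

private theorem GEpsB_s_sq (k : ℕ) : GEpsB_s 0 k * GEpsB_s 0 k = 1 := by
  unfold GEpsB_s
  rw [← Finset.prod_mul_distrib]
  refine Finset.prod_eq_one fun i _ => ?_
  rw [← mul_pow]
  norm_num

/-- Moving the contractions. -/
private theorem GEpsB_move [CharZero κ] (hF : Fra κ b D m) (L : List (Derivation κ C C)) {j l : ℕ}
    (hj : m + 1 ≤ j + L.length + l) {w v : FG κ Γ C} (hw : w ∈ FdG κ Γ (j + L.length))
    (hv : v ∈ FdG κ Γ (l + L.length)) :
    GEpsB_c L w * v = GEpsB_s j L.length • (w * L.foldl (fun x θ => ctG θ x) v) := by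
  induction L generalizing j v with
  | nil =>
    show w * v = GEpsB_s j 0 • (w * v)
    rw [GEpsB_s, Finset.prod_range_zero, one_smul]
  | cons θ L ih =>
    rw [List.length_cons] at hj hw hv
    have hw' : w ∈ FdG κ Γ (j + 1 + L.length) := by rwa [add_assoc, add_comm 1]
    have hv' : v ∈ FdG κ Γ (l + L.length + 1) := hv
    have h1 : GEpsB_c L w ∈ FdG κ Γ (j + 1) := GEpsB_mem L hw'
    have h2 := FdG_mul h1 hv'
    have h3 : GEpsB_c L w * v = 0 := topG hF (by omega) h2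
    have h4 := GEpsB_mul θ h1 v
    rw [h3, map_zero] at h4
    have h5 : ctG θ (GEpsB_c L w) * v = ((-1 : ℤ) ^ j) • (GEpsB_c L w * ctG θ v) := by
      have h6 := eq_neg_of_add_eq_zero_left h4.symm
      rw [h6, pow_succ, mul_neg_one, neg_smul, neg_neg]
    show ctG θ (GEpsB_c L w) * v = GEpsB_s j (L.length + 1) • (w * L.foldl (fun x θ => ctG θ x) (ctG θ v))
    rw [h5, ih (by omega) hw' (ctG_mem θ hv'), GEpsB_s_succ, mul_smul]

private theorem GEpsB_comm (L : List (Derivation κ C C)) (θ : Derivation κ C C) (v : FG κ Γ C) :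
    GEpsB_c L (ctG θ v) = ((-1 : ℤ) ^ L.length) • ctG θ (GEpsB_c L v) := by
  induction L with
  | nil =>
    show ctG θ v = ((-1 : ℤ) ^ 0) • ctG θ v
    rw [pow_zero, one_smul]
  | cons θ' L ih =>
    show ctG θ' (GEpsB_c L (ctG θ v)) = ((-1 : ℤ) ^ (L.length + 1)) • ctG θ (ctG θ' (GEpsB_c L v))
    rw [ih, map_zsmul, GEpsB_anti θ' θ, pow_succ, mul_neg_one, neg_smul, smul_neg]

private theorem GEpsB_rev (L : List (Derivation κ C C)) (v : FG κ Γ C) :
    L.foldl (fun x θ => ctG θ x) v = GEpsB_s 0 L.length • GEpsB_c L v := by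
  induction L generalizing v with
  | nil =>
    show v = GEpsB_s 0 0 • v
    rw [GEpsB_s, Finset.prod_range_zero, one_smul]
  | cons θ L ih =>
    show L.foldl (fun x θ => ctG θ x) (ctG θ v) = GEpsB_s 0 (L.length + 1) • ctG θ (GEpsB_c L v)
    rw [ih, GEpsB_comm, smul_smul]
    congr 1
    unfold GEpsB_s
    rw [Finset.prod_range_succ, zero_add]

private theorem GEpsB_cen {u : FG κ Γ C} (hu : u ∈ FdG κ Γ 0) (v : FG κ Γ C) : u * v = v * u := by
  refine FdG_ind (P := fun u => u * v = v * u) ?_ (fun r c t => ?_) (fun x y hx hy => ?_) hu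
  · rw [zero_mul, mul_zero]
  · show r ⊗ₜ[κ] (fz κ c * wd κ t) * v = v * _
    rw [wd_zero, mul_one, ← tz_tmul]
    exact tz_comm _ _
  · rw [add_mul, mul_add, hx, hy]

/-- rank one: for top forms `w`, `w'` and contractions `G`: `ℓ_G(w) w' = ℓ_G(w') w` -/
theorem top_rank [CharZero κ] (hF : Fra κ b D m) {w w' : FG κ Γ C} (hw : w ∈ FdG κ Γ (m + 1)) (hw' : w' ∈ FdG κ Γ (m + 1))
    (G : Fin (m + 1) → Γ) :
    (List.ofFn fun i => ctG (D (G i))).foldr (fun f x => f x) w * w' =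
      (List.ofFn fun i => ctG (D (G i))).foldr (fun f x => f x) w' * w := by
  have h0 : (List.ofFn fun i => D (G i)).length = m + 1 := List.length_ofFn
  have h1 : w ∈ FdG κ Γ (0 + (List.ofFn fun i => D (G i)).length) := by rwa [h0, zero_add]
  have h2 : w' ∈ FdG κ Γ (0 + (List.ofFn fun i => D (G i)).length) := by rwa [h0, zero_add]
  have h3 : (List.ofFn fun i => ctG (D (G i))).foldr (fun f x => f x) w =
      GEpsB_c (List.ofFn fun i => D (G i)) w := GEpsB_eq G w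
  have h4 : (List.ofFn fun i => ctG (D (G i))).foldr (fun f x => f x) w' =
      GEpsB_c (List.ofFn fun i => D (G i)) w' := GEpsB_eq G w'
  rw [h3, h4, GEpsB_move hF _ (by rw [h0, zero_add, add_zero]) h1 h2, GEpsB_rev, mul_smul_comm, smul_smul,
    GEpsB_s_sq, one_smul]
  exact (GEpsB_cen (GEpsB_mem _ h2) w).symm

end MPadcDC
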