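import Pool.Agent.Lib.MP_adc574_ag_DC.GRankA
import Pool.Agent.Lib.MP_adc574_ag_DC.GEpsB

/-!
# GRankC: relations between top forms, abstract version of GRankB
-/

set_option autoImplicit false

namespace MPadcDC

open MvPolynomial TensorProduct MPadcGP

universe u v

section algebra

variable {T F : Type*} [CommRing T] [Ring F] {t : T → F} (ht : ∀ x y, t (x * y) = t x * t y)

include ht

private theorem GRankC_a1 {a1 a2 f f' : T} {E E' : F} (h : t f' * E = t f * E') :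
    t (a2 * (a1 * f')) * E = t (a1 * (a2 * f)) * E' := by
  rw [ht, ht, mul_assoc, mul_assoc, h, mul_left_comm a1 a2 f, ht, ht, mul_assoc, mul_assoc]

private theorem GRankC_a2 {x y f f' : T} {L L' W W' : F} (hf : t x * L = t (f * y)) (hf' : t x * L' = t (f' * y))
    (hrk : L' * W = L * W') : t y * (t f' * W) = t y * (t f * W') := by
  rw [← mul_assoc, ← ht, mul_comm y f', ← hf', mul_assoc, hrk, ← mul_assoc, hf, mul_comm f y, ht, mul_assoc]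

private theorem GRankC_a3 (h1 : t 1 = 1) {v x : T} (hv : v * x = 1) {w : F} (hw : t x * w = 0) : w = 0 := by
  rw [← one_mul w, ← h1, ← hv, ht, mul_assoc, hw, mul_zero]

private theorem GRankC_a4 (h1 : t 1 = 1) {v x : T} (hv : v * x = 1) {w w' : F} (hw : t x * w = t x * w') : w = w' := by
  rw [← one_mul w, ← one_mul w', ← h1, ← hv, ht, mul_assoc, mul_assoc, hw]

end algebra

variable {κ : Type u} [Field κ] {Γ : Type} [Fintype Γ] {C : Type u} [CommRing C] [Algebra κ C]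
  {b : Γ → C} {D : Γ → Derivation κ C C} {m : ℕ} {A0 : Subalgebra κ C} {ℓ : C}

/-- The iterated contraction. -/
noncomputable def ellC (D : Γ → Derivation κ C C) (m : ℕ) (G : Fin (m + 1) → Γ) (w : FG κ Γ C) : FG κ Γ C :=
  (List.ofFn fun i => ctG (κ := κ) (Γ := Γ) (D (G i))).foldr (fun f x => f x) w

/-- `κ[a] ⊗ A0 → κ[a] ⊗ C` -/
noncomputable def icC (Γ : Type) [Fintype Γ] (A0 : Subalgebra κ C) :
    MvPolynomial Γ κ ⊗[κ] A0 →ₐ[κ] MvPolynomial Γ κ ⊗[κ] C :=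
  Algebra.TensorProduct.map (AlgHom.id κ (MvPolynomial Γ κ)) A0.val

/-- `f` is a quotient of elements of `κ[a]`. -/
def GenC (b : Γ → C) (D : Γ → Derivation κ C C) (f : MvPolynomial Γ κ ⊗[κ] C) : Prop :=
  ∃ s r : MvPolynomial Γ κ, eps0 b D (s ⊗ₜ[κ] 1) ≠ 0 ∧ eps0 b D (s ⊗ₜ[κ] 1 * f) = eps0 b D (r ⊗ₜ[κ] 1)

theorem eps0_tm (x y : MvPolynomial Γ κ) : eps0 b D ((x * y) ⊗ₜ[κ] (1 : C)) =
    eps0 b D (x ⊗ₜ[κ] 1) * eps0 b D (y ⊗ₜ[κ] 1) := by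
  rw [← map_mul, Algebra.TensorProduct.tmul_mul_tmul, mul_one]

theorem GenC.add [IsDomain C] {f f' : MvPolynomial Γ κ ⊗[κ] C} (h : GenC b D f) (h' : GenC b D f') :
    GenC b D (f + f') := by
  have hd : IsDomain (MvPolynomial Γ κ ⊗[κ] C) := dom
  obtain ⟨s, r, hs, h⟩ := h
  obtain ⟨s', r', hs', h'⟩ := h'
  refine ⟨s * s', s' * r + s * r', ?_, ?_⟩
  · rw [eps0_tm]
    exact mul_ne_zero hs hs'
  · rw [map_mul] at h h'
    rw [TensorProduct.add_tmul, map_mul, map_add, map_add, eps0_tm, eps0_tm, eps0_tm, ← h, ← h']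
    ring

theorem GenC.mul [IsDomain C] {f f' : MvPolynomial Γ κ ⊗[κ] C} (h : GenC b D f) (h' : GenC b D f') :
    GenC b D (f * f') := by
  have hd : IsDomain (MvPolynomial Γ κ ⊗[κ] C) := dom
  obtain ⟨s, r, hs, h⟩ := h
  obtain ⟨s', r', hs', h'⟩ := h'
  refine ⟨s * s', r * r', ?_, ?_⟩
  · rw [eps0_tm]
    exact mul_ne_zero hs hs'
  · rw [map_mul] at h h'
    rw [map_mul, map_mul, eps0_tm, eps0_tm, ← h, ← h']
    ring

theorem GenC.base [IsDomain C] (r : MvPolynomial Γ κ) : GenC b D (r ⊗ₜ[κ] 1) := by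
  have hd : IsDomain (MvPolynomial Γ κ ⊗[κ] C) := dom
  refine ⟨1, r, ?_, ?_⟩
  · have h1 : ((1 : MvPolynomial Γ κ) ⊗ₜ[κ] (1 : C)) = 1 := rfl
    rw [h1, map_one]
    exact one_ne_zero
  · rw [Algebra.TensorProduct.tmul_mul_tmul, one_mul, mul_one]

theorem GenC.all [IsDomain C] (h : ∀ x : A0, GenC b D (icC Γ A0 (1 ⊗ₜ[κ] x))) (f : MvPolynomial Γ κ ⊗[κ] A0) :
    GenC b D (icC Γ A0 f) := by
  induction f using TensorProduct.induction_on with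
  | zero =>
    rw [map_zero]
    have h0 := GenC.base (b := b) (D := D) (0 : MvPolynomial Γ κ)
    rw [TensorProduct.zero_tmul] at h0
    exact h0
  | tmul r x =>
    have e1 : r ⊗ₜ[κ] x = r ⊗ₜ[κ] 1 * (1 : MvPolynomial Γ κ) ⊗ₜ[κ] x := by
      rw [Algebra.TensorProduct.tmul_mul_tmul, one_mul, mul_one]
    rw [e1, map_mul]
    exact (GenC.base r).mul (h x)
  | add x y hx hy =>
    rw [map_add]
    exact hx.add hy

/-- The generators. -/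
theorem GenC.gen {x : C} {g h : Γ} {u : C} (hu : IsUnit u) (hg : b g = u) (hh : b h = x * u)
    {p q : MvPolynomial Γ κ} (hp : eps0 b D (p ⊗ₜ[κ] 1) ≠ 0) (hr : eps0 b D (q ⊗ₜ[κ] b g) = eps0 b D (p ⊗ₜ[κ] b h)) :
    GenC b D ((1 : MvPolynomial Γ κ) ⊗ₜ[κ] x) := by
  refine ⟨p, q, hp, ?_⟩
  have hu1 : IsUnit ((1 : MvPolynomial Γ κ) ⊗ₜ[κ] u : MvPolynomial Γ κ ⊗[κ] C) :=
    hu.map (Algebra.TensorProduct.includeRight : C →ₐ[κ] MvPolynomial Γ κ ⊗[κ] C)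
  have hu' := hu1.map (eps0 b D)
  apply hu'.mul_left_cancel
  rw [← map_mul, ← map_mul]
  have e1 : (1 : MvPolynomial Γ κ) ⊗ₜ[κ] u * (p ⊗ₜ[κ] (1 : C) * (1 : MvPolynomial Γ κ) ⊗ₜ[κ] x) = p ⊗ₜ[κ] b h := by
    rw [Algebra.TensorProduct.tmul_mul_tmul, Algebra.TensorProduct.tmul_mul_tmul, one_mul, mul_one, one_mul, hh,
      mul_comm]
  have e3 : (1 : MvPolynomial Γ κ) ⊗ₜ[κ] u * q ⊗ₜ[κ] (1 : C) = q ⊗ₜ[κ] b g := by
    rw [Algebra.TensorProduct.tmul_mul_tmul, one_mul, mul_one, hg]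
  rw [e1, e3, hr]

/-- `epsG` is semilinear. -/
theorem epsG_smul (r : MvPolynomial Γ κ) (w : FG κ Γ C) :
    epsG b D (r • w) = tz (eps0 b D (r ⊗ₜ[κ] 1)) * epsG b D w := by
  have h1 : r • w = tz (r ⊗ₜ[κ] (1 : C)) * w := by
    rw [tz_tmul, map_one]
    exact FG_smul r w
  rw [h1, map_mul, epsG_tz]

/-- `loG` is linear over `κ[a]`. -/
theorem loG_smul {C' : Type u} [CommRing C'] [Algebra κ C'] (φ : C →ₐ[κ] C') (r : MvPolynomial Γ κ) (w : FG κ Γ C) :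
    loG Γ φ (r • w) = r • loG Γ φ w := by
  induction w using TensorProduct.induction_on with
  | zero => rw [smul_zero, map_zero, smul_zero]
  | tmul s w => rw [TensorProduct.smul_tmul', loG_tmul, loG_tmul, TensorProduct.smul_tmul']
  | add x y hx hy => rw [smul_add, map_add, hx, hy, map_add, smul_add]

private theorem GRankC_fold (L : List (Derivation κ C C)) (w : FG κ Γ C) :
    epsG b D ((L.map fun d => (ctG (κ := κ) (Γ := Γ) d)).foldr (fun f x => f x) w) =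
      (L.map fun d => (ctG (κ := κ) (Γ := Γ) d)).foldr (fun f x => f x) (epsG b D w) := by
  induction L with
  | nil => rfl
  | cons d L ih =>
    rw [List.map_cons, List.foldr_cons, List.foldr_cons, epsG_ctG, ih]

theorem epsG_ellC (G : Fin (m + 1) → Γ) (w : FG κ Γ C) : epsG b D (ellC D m G w) = ellC D m G (epsG b D w) := by
  have h1 : (List.ofFn fun i => ctG (κ := κ) (Γ := Γ) (D (G i))) =
      (List.ofFn fun i => D (G i)).map fun d => (ctG (κ := κ) (Γ := Γ) d) := by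
    rw [List.map_ofFn]
    rfl
  unfold ellC
  rw [h1]
  exact GRankC_fold _ _

private theorem GRankC_tz1 : (tz (1 : MvPolynomial Γ κ ⊗[κ] C) : FG κ Γ C) = 1 := by
  rw [Algebra.TensorProduct.one_def, tz_tmul, map_one]
  rfl

/-- The powers of `ℓ` are units. -/
private theorem GRankC_u (hℓ : IsUnit ℓ) (N : ℕ) :
    ∃ v, v * ((1 : MvPolynomial Γ κ) ⊗ₜ[κ] ℓ ^ N : MvPolynomial Γ κ ⊗[κ] C) = 1 :=
  ((hℓ.map (Algebra.TensorProduct.includeRight : C →ₐ[κ] MvPolynomial Γ κ ⊗[κ] C)).pow N).exists_left_inv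

private theorem GRankC_X (N : ℕ) :
    eps0 b D ((1 : MvPolynomial Γ κ) ⊗ₜ[κ] ℓ ^ N) = (1 : MvPolynomial Γ κ) ⊗ₜ[κ] ℓ ^ N := by
  rw [map_pow, eps0_C]

/-- The relation between two forms. -/
theorem rel_top (hℓ : IsUnit ℓ) {j : ℕ} {W W' : FG κ Γ C} {G : Fin (m + 1) → Γ} {N : ℕ} {f f' : MvPolynomial Γ κ ⊗[κ] C}
    (hf : (tz ((1 : MvPolynomial Γ κ) ⊗ₜ[κ] ℓ ^ N) : FG κ Γ C) * ellC D m G W = tz (f * (1 : MvPolynomial Γ κ) ⊗ₜ[κ] ℓ ^ j))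
    (hf' : (tz ((1 : MvPolynomial Γ κ) ⊗ₜ[κ] ℓ ^ N) : FG κ Γ C) * ellC D m G W' =
      tz (f' * (1 : MvPolynomial Γ κ) ⊗ₜ[κ] ℓ ^ j))
    (hrk : ellC D m G W' * W = ellC D m G W * W') : tz f' * W = tz f * W' := by
  obtain ⟨v, hv⟩ := GRankC_u (κ := κ) (Γ := Γ) hℓ j
  exact GRankC_a4 (t := fun x => (tz x : FG κ Γ C)) tz_mul GRankC_tz1 hv
    (GRankC_a2 (t := fun x => (tz x : FG κ Γ C)) tz_mul hf hf' hrk)

theorem ne_top' (hℓ : IsUnit ℓ) {j : ℕ} {W' : FG κ Γ C} {G : Fin (m + 1) → Γ} {N : ℕ} {f' : MvPolynomial Γ κ ⊗[κ] C}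
    (hf' : (tz ((1 : MvPolynomial Γ κ) ⊗ₜ[κ] ℓ ^ N) : FG κ Γ C) * ellC D m G W' =
      tz (f' * (1 : MvPolynomial Γ κ) ⊗ₜ[κ] ℓ ^ j))
    (hG : ellC D m G (epsG b D W') ≠ 0) : eps0 b D f' ≠ 0 := by
  intro h3
  apply hG
  obtain ⟨v, hv⟩ := GRankC_u (κ := κ) (Γ := Γ) hℓ N
  refine GRankC_a3 (t := fun x => (tz x : FG κ Γ C)) tz_mul GRankC_tz1 hv ?_
  have h4 := congrArg (epsG b D) hf'
  rw [map_mul, epsG_tz, GRankC_X, epsG_ellC, epsG_tz, map_mul, h3, zero_mul, map_zero] at h4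
  exact h4

theorem fin_top {W W' : FG κ Γ C} {f f' : MvPolynomial Γ κ ⊗[κ] C} (hrel : tz f' * W = tz f * W')
    {s1 s2 r1 r2 : MvPolynomial Γ κ} (h1 : eps0 b D (s1 ⊗ₜ[κ] 1 * f') = eps0 b D (r1 ⊗ₜ[κ] 1))
    (h2 : eps0 b D (s2 ⊗ₜ[κ] 1 * f) = eps0 b D (r2 ⊗ₜ[κ] 1)) :
    epsG b D ((s2 * r1) • W) = epsG b D ((s1 * r2) • W') := by
  have hrel2 := congrArg (epsG b D) hrel
  rw [map_mul, map_mul, epsG_tz, epsG_tz] at hrel2
  have e1 : eps0 b D ((s2 * r1) ⊗ₜ[κ] 1) = eps0 b D (s2 ⊗ₜ[κ] 1) * (eps0 b D (s1 ⊗ₜ[κ] 1) * eps0 b D f') := by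
    rw [eps0_tm, ← h1, map_mul]
  have e2 : eps0 b D ((s1 * r2) ⊗ₜ[κ] 1) = eps0 b D (s1 ⊗ₜ[κ] 1) * (eps0 b D (s2 ⊗ₜ[κ] 1) * eps0 b D f) := by
    rw [eps0_tm, ← h2, map_mul]
  rw [epsG_smul, epsG_smul, e1, e2]
  exact GRankC_a1 (t := fun x => (tz x : FG κ Γ C)) tz_mul hrel2

theorem epsG_loG_smul {C' : Type u} [CommRing C'] [Algebra κ C'] (φ : C' →ₐ[κ] C) (r : MvPolynomial Γ κ)
    (w : FG κ Γ C') : epsG b D (loG Γ φ (r • w)) = tz (eps0 b D (r ⊗ₜ[κ] 1)) * epsG b D (loG Γ φ w) := by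
  rw [loG_smul, epsG_smul]

theorem epsG_loG_fz {C' : Type u} [CommRing C'] [Algebra κ C'] (φ : C' →ₐ[κ] C) (r : MvPolynomial Γ κ) (c : C')
    (w : Fm κ C') : epsG b D (loG Γ φ (r ⊗ₜ[κ] (fz κ c * w))) =
      tz (eps0 b D (r ⊗ₜ[κ] φ c)) * epsG b D (loG Γ φ ((1 : MvPolynomial Γ κ) ⊗ₜ[κ] w)) := by
  have h1 : (r ⊗ₜ[κ] (fz κ c * w) : FG κ Γ C') = tz (r ⊗ₜ[κ] c) * ((1 : MvPolynomial Γ κ) ⊗ₜ[κ] w) := by
    rw [tz_tmul, Algebra.TensorProduct.tmul_mul_tmul, mul_one]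
  rw [h1, map_mul, map_mul, loG_tz, epsG_tz]
  rfl

theorem epsG_loG_th {C' : Type u} [CommRing C'] [Algebra κ C'] (φ : C' →ₐ[κ] C) (hF : Fra κ b D m)
    {x y : FG κ Γ C'} (hx : loG Γ φ x = thG κ b) : epsG b D (loG Γ φ (x * y)) = 0 := by
  rw [map_mul, hx, map_mul, epsG_thG hF, zero_mul]

/-- Two top forms are proportional. -/
theorem pair_top [CharZero κ] [IsDomain C] (hF : Fra κ b D m) (hℓ : IsUnit ℓ) {j N : ℕ} {W W' : FG κ Γ C}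
    (hW : W ∈ FdG κ Γ (m + 1)) (hW' : W' ∈ FdG κ Γ (m + 1))
    (hc : ∀ G : Fin (m + 1) → Γ, ∃ f : MvPolynomial Γ κ ⊗[κ] A0,
      (tz ((1 : MvPolynomial Γ κ) ⊗ₜ[κ] ℓ ^ N) : FG κ Γ C) * ellC D m G W =
        tz (icC Γ A0 f * (1 : MvPolynomial Γ κ) ⊗ₜ[κ] ℓ ^ j))
    (hc' : ∀ G : Fin (m + 1) → Γ, ∃ f : MvPolynomial Γ κ ⊗[κ] A0,
      (tz ((1 : MvPolynomial Γ κ) ⊗ₜ[κ] ℓ ^ N) : FG κ Γ C) * ellC D m G W' =
        tz (icC Γ A0 f * (1 : MvPolynomial Γ κ) ⊗ₜ[κ] ℓ ^ j))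
    (hgen : ∀ f : MvPolynomial Γ κ ⊗[κ] A0, GenC b D (icC Γ A0 f)) :
    ∃ s r : MvPolynomial Γ κ, (eps0 b D (s ⊗ₜ[κ] 1) ≠ 0 ∨ eps0 b D (r ⊗ₜ[κ] 1) ≠ 0) ∧
      epsG b D (s • W - r • W') = 0 := by
  have hd : IsDomain (MvPolynomial Γ κ ⊗[κ] C) := dom
  have h1P : eps0 b D ((1 : MvPolynomial Γ κ) ⊗ₜ[κ] (1 : C)) ≠ 0 := by
    have h1 : ((1 : MvPolynomial Γ κ) ⊗ₜ[κ] (1 : C)) = 1 := rfl
    rw [h1, map_one]
    exact one_ne_zero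
  by_cases hw0 : epsG b D W = 0
  · refine ⟨1, 0, Or.inl h1P, ?_⟩
    rw [one_smul, zero_smul, sub_zero, hw0]
  by_cases hw0' : epsG b D W' = 0
  · refine ⟨0, 1, Or.inr h1P, ?_⟩
    rw [one_smul, zero_smul, zero_sub, map_neg, hw0', neg_zero]
  obtain ⟨G, hG⟩ : ∃ G : Fin (m + 1) → Γ, ellC D m G (epsG b D W') ≠ 0 := by
    by_contra hcon
    exact hw0' (top_zero hF (epsG_mem hW') fun G => not_not.mp fun h => hcon ⟨G, h⟩)
  obtain ⟨f, hf⟩ := hc G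
  obtain ⟨f', hf'⟩ := hc' G
  have hrk : ellC D m G W' * W = ellC D m G W * W' := top_rank hF hW' hW G
  obtain ⟨s1, r1, hs1, h1⟩ := hgen f'
  obtain ⟨s2, r2, hs2, h2⟩ := hgen f
  have hrel := rel_top hℓ hf hf' hrk
  have hf0 := ne_top' hℓ hf' hG
  have hr1 : eps0 b D (r1 ⊗ₜ[κ] 1) ≠ 0 := by
    rw [← h1, map_mul]
    exact mul_ne_zero hs1 hf0
  refine ⟨s2 * r1, s1 * r2, Or.inl ?_, ?_⟩
  · rw [eps0_tm]
    exact mul_ne_zero hs2 hr1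
  · rw [map_sub, sub_eq_zero]
    exact fin_top hrel h1 h2

end MPadcDC
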