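import Pool.Agent.Lib.MP_adc574_ag_DC.GRank
import Pool.Agent.Lib.MP_adc574_ag_DC.GRankC
import Pool.Agent.Lib.MP_adc574_ag_DC.GDerB
import Pool.Agent.Lib.MP_adc574_ag_DC.GFra
import Pool.Agent.Lib.MP_adc574_ag_DC.GGrS

/-!
# GRankB: the cokernel of `dF ∧` in top degree has rank one at `(p)`

JOB GRankB.
* `chart_gen`: `κ[a] ⊗ A0` is generated over `κ[a]` by the `x_k / x_l` (`chart_fg`), and `ratio` for `g = mon0 e l`, `h = (e-1) ε_l + ε_k` gives
  `∂_{g0} p · x_k/x_l ≡ ∂_h p` modulo `ker eps0` (cancel `x_l^e`: `dom`); `s` = a power of `∂_{g0} p` (`pderiv_not_dvd`).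
* `pair`: if `epsG (loF w') = 0` take `s = 0, r = 1`; if `epsG (loF w) = 0` take `s = 1`, `r = 0`; otherwise choose `G` with
  `ℓ_G (epsG (loF w')) ≠ 0` (`top_zero`, `epsG_ctG`); `top_rank`: `ℓ_G(loF w') loF w = ℓ_G(loF w) loF w'`; `contr_hom` for both (the same factor
  `x_l^j x_l^{-e(m+1)}`), `chart_gen` for both `f`: `s1 f' ≡ r1`, `s2 f ≡ r2`, so with `s = s2 r1`, `r = s1 r2`: `epsG(s loF w - r loF w')` is killed by
  something `≠ 0`; `tz_reg`.

-/

set_option autoImplicit false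

namespace MPadcDC

open MvPolynomial TensorProduct MPadcGP

universe u v


variable {κ : Type u} [Field κ] [CharZero κ] {n : ℕ} {J : Ideal (MvPolynomial (Fin n) κ)} {l : Fin n} {e m : ℕ}

omit [CharZero κ] in
/-- The exponent of `x_l ^ (e - 1) x_k`. -/
private theorem GRankB_ex (he : 1 ≤ e) (k : Fin n) :
    ∃ h : Mon n e, bl J e l h = ((cq J {l} k (Finset.mem_singleton_self l) : chart J {l}) : LR J {l}) * lx J {l} l ^ e := by
  refine ⟨⟨Finsupp.single l (e - 1) + Finsupp.single k 1, ?_⟩, ?_⟩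
  · rw [Finset.mem_finsuppAntidiag]
    refine ⟨?_, Finset.subset_univ _⟩
    simp only [Finsupp.add_apply, Finset.sum_add_distrib, Finsupp.single_apply, Finset.sum_ite_eq, Finset.mem_univ,
      if_true]
    omega
  · unfold bl
    rw [xm_add, xm_single, xm_single, map_mul, map_pow, map_pow, pow_one]
    have h1 : lm J l (xv J l) = lx J {l} l := rfl
    have h2 : lm J l (xv J k) = lx J {l} k := rfl
    obtain ⟨e', rfl⟩ : ∃ e', e = e' + 1 := ⟨e - 1, by omega⟩
    rw [h1, h2, ← cq_mul_lx J {l} k (Finset.mem_singleton_self l), Nat.add_sub_cancel]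
    ring

/-- The generators of the chart. -/
private theorem GRankB_gen {D : Mon n e → Derivation κ (LR J {l}) (LR J {l})} (hJ : Good J m) (he : 1 ≤ e) (hl : (X l : MvPolynomial (Fin n) κ) ∉ J)
    (hF : Fra κ (bl J e l) D m) {p : Ra κ n e} (hp : PbC (bl J e l) D = Ideal.span {p}) (x : chart J {l}) :
    GenC (bl J e l) D (icC (Mon n e) (chart J {l}) (1 ⊗ₜ[κ] x)) := by
  have hdom : IsDomain (LR J {l}) := LR_domain hJ.prime hl
  have he0 : (e : κ) ≠ 0 := Nat.cast_ne_zero.mpr (by omega)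
  obtain ⟨E, -, hE⟩ := exists_eulL (e := e) (l := l) hJ.homog
  have hg0 : pderiv (mon0 e l) p ∉ PbC (bl J e l) D := by
    rw [hp, Ideal.mem_span_singleton]
    exact pderiv_not_dvd hF he0 hE hp (bl_ne hJ.prime hl)
  induction x using chart_ind with
  | h1 a =>
    have e1 : (1 : Ra κ n e) ⊗ₜ[κ] algebraMap κ (chart J {l}) a = (C a) ⊗ₜ[κ] 1 := by
      rw [Algebra.algebraMap_eq_smul_one, ← TensorProduct.smul_tmul, MvPolynomial.C_eq_smul_one]
    rw [e1]
    exact GenC.base (b := bl J e l) (D := D) (C a)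
  | h2 k j hj =>
    have e1 : j = l := Finset.mem_singleton.mp hj
    subst e1
    obtain ⟨h, hh⟩ := GRankB_ex (J := J) (l := j) he k
    exact GenC.gen (g := mon0 e j) (h := h) (u := lx J {j} j ^ e) ((lx_isUnit J {j} (Finset.mem_singleton_self j)).pow e)
      bl_mon0 hh (fun h0 => hg0 (mem_PbC.mpr h0)) (ratio hF he0 hE hp (mon0 e j) h)
  | h3 x y hx hy =>
    rw [TensorProduct.tmul_add, map_add]
    exact hx.add hy
  | h4 x y hx hy =>
    have e1 : (1 : Ra κ n e) ⊗ₜ[κ] (x * y) = 1 ⊗ₜ[κ] x * 1 ⊗ₜ[κ] y := by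
      rw [Algebra.TensorProduct.tmul_mul_tmul, one_mul]
    rw [e1, map_mul]
    exact hx.mul hy

theorem chart_gen {D : Mon n e → Derivation κ (LR J {l}) (LR J {l})} (hJ : Good J m) (he : 1 ≤ e) (hl : (X l : MvPolynomial (Fin n) κ) ∉ J) (hF : Fra κ (bl J e l) D m)
    {p : Ra κ n e} (hp : PbC (bl J e l) D = Ideal.span {p}) (f : Ra κ n e ⊗[κ] chart J {l}) :
    ∃ s r : Ra κ n e, s ∉ PbC (bl J e l) D ∧
      eps0 (bl J e l) D (s ⊗ₜ[κ] 1 * ic J e l f) = eps0 (bl J e l) D (r ⊗ₜ[κ] 1) := by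
  have hdom : IsDomain (LR J {l}) := LR_domain hJ.prime hl
  obtain ⟨s, r, hs, h⟩ := GenC.all (A0 := chart J {l}) (GRankB_gen hJ he hl hF hp) f
  exact ⟨s, r, fun h0 => hs (mem_PbC.mp h0), h⟩

theorem pair {D : Mon n e → Derivation κ (LR J {l}) (LR J {l})} (hJ : Good J m) (he : 1 ≤ e) (hl : (X l : MvPolynomial (Fin n) κ) ∉ J) (hF : Fra κ (bl J e l) D m)
    (hD : HomD D) {p : Ra κ n e} (hp : PbC (bl J e l) D = Ideal.span {p}) {j : ℕ} {w w' : FR J e}
    (hw : w ∈ OmR J e (m + 1) j) (hw' : w' ∈ OmR J e (m + 1) j) :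
    ∃ s r : Ra κ n e, (s ∉ PbC (bl J e l) D ∨ r ∉ PbC (bl J e l) D) ∧
      epsG (bl J e l) D (loF J e l (s • w - r • w')) = 0 := by
  have hdom : IsDomain (LR J {l}) := LR_domain hJ.prime hl
  obtain ⟨s, r, hsr, h⟩ := pair_top (A0 := chart J {l}) hF (lx_isUnit J {l} (Finset.mem_singleton_self l))
    (loG_mem (lm J l) (OmR_le hw)) (loG_mem (lm J l) (OmR_le hw')) (fun G => contr_hom hD he hw G)
    (fun G => contr_hom hD he hw' G) (fun f => GenC.all (A0 := chart J {l}) (GRankB_gen hJ he hl hF hp) f)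
  refine ⟨s, r, hsr.imp (fun h1 h0 => h1 (mem_PbC.mp h0)) (fun h1 h0 => h1 (mem_PbC.mp h0)), ?_⟩
  have h2 : loF J e l (s • w - r • w') = s • loF J e l w - r • loF J e l w' :=
    (map_sub (loF J e l) _ _).trans (congrArg₂ (· - ·) (loG_smul (lm J l) s w) (loG_smul (lm J l) r w'))
  exact (congrArg (epsG (bl J e l) D) h2).trans h

end MPadcDC
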