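import Pool.Agent.Lib.MP_adc574_ag_DC.GSatI
import Pool.Agent.Lib.MP_adc574_ag_DC.GRankB
import Pool.Agent.Lib.MP_adc574_ag_DC.GIncA

/-!
# GInc: the incidence variety

JOB GInc. `Pb = PbC_l` for one `l` with `x_l ∉ J`; `j0` from `satF_high`. Top forms over `R` of degree `j + e ≥ j0 + e` in `satF` are in
`imF`.
* `r ∈ Pb`: `epsG (loF (r • w)) = 0` (`epsG_tmul`), `sat_iff`. `r ∉ Pb`: `epsG (loF (r • w)) = tz (eps0 (r ⊗ 1)) epsG (loF w)`, `tz_reg`, `sat_iff`.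
* `Pb = (p)`: `pderiv_not_dvd` at every `l` (`pb_indep`, `bl_ne`).
* `α`: if all `w ∈ Om (m+1) (j+e)` have `1 ⊗ w ∈ satF` take `α = 0`, otherwise `α` with `1 ⊗ α ∉ satF`; `pair` gives
  `s w - r α ∈ satF` with `s ∉ Pb` or `r ∉ Pb`; `s ∈ Pb` would give `r α ∈ satF`, `r ∉ Pb`, so `α ∈ satF`. Step `k → k + 1`: a form of degree
  `j + e + e (k + 1)` is `∑_g x^g w_g`, `g : Mon n e` (on generators `x^h dx_{t_0} ... dx_{t_m}`, `|h| ≥ e` if `j ≥ m + 1`); `ratio` at `l`: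
  `∂_{g0} p ⊗ w - ∑_g ∂_g p ⊗ x^{g0} w_g ∈ satF` (`sat_iff`, `epsG_tmul`), `g0 = mon0 e l`; apply the case `k` to the forms `w_g`.

-/

set_option autoImplicit false

namespace MPadcDC

open MvPolynomial TensorProduct MPadcGP

universe u v

variable {κ : Type u} [Field κ] [CharZero κ] {n : ℕ} {J : Ideal (MvPolynomial (Fin n) κ)} {e m : ℕ}

omit [CharZero κ] in
private theorem ginc_split {q j : ℕ} {w : Fm κ (CR J)} (hj : q ≤ j) (hw : w ∈ Om J q (j + e)) :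
    w ∈ Submodule.span κ {w | ∃ (g : Mon n e), ∃ w' ∈ Om J q j, w = fz κ (xm J g.1) * w'} := by
  refine Submodule.span_le.2 ?_ hw
  rintro _ ⟨h, t, hdeg, rfl⟩
  obtain ⟨g, hg, hgd⟩ : ∃ g : Fin n →₀ ℕ, g ≤ h ∧ g.degree = e := by
    have h1 : e ≤ h.degree := by omega
    obtain ⟨g, h2, h3⟩ := Finsupp.exists_le_degree_eq h e h1
    exact ⟨g, h2, h3⟩
  obtain ⟨h', rfl⟩ : ∃ h', h = g + h' := ⟨h - g, (add_tsub_cancel_of_le hg).symm⟩
  have hdd : (g + h').degree = g.degree + h'.degree := map_add _ _ _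
  refine Submodule.subset_span ⟨⟨g, ?_⟩, fz κ (xm J h') * wd κ (fun i => xv J (t i)), ?_, ?_⟩
  · rw [Finset.mem_finsuppAntidiag]
    refine ⟨?_, Finset.subset_univ _⟩
    rw [← hgd, Finsupp.degree_eq_sum]
  · exact Submodule.subset_span ⟨h', t, by omega, rfl⟩
  · rw [xm_add, map_mul, mul_assoc]

section one

variable {l : Fin n}

/-- The criterion for exactness. -/
private theorem ginc_iff {D : Mon n e → Derivation κ (LR J {l}) (LR J {l})} (hJ : Good J m) (he : 1 ≤ e) (hl : (X l : MvPolynomial (Fin n) κ) ∉ J)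
    (hF : Fra κ (bl J e l) D m) {j0 : ℕ}
    (hj0 : ∀ j, j0 ≤ j → ∀ w ∈ satF J e m, w ∈ OmR J e (m + 1) (j + e) → Exd J e m j w) {j : ℕ} (hj : j0 ≤ j)
    {w : FR J e} (hw : w ∈ OmR J e (m + 1) (j + e)) :
    Exd J e m j w ↔ epsG (bl J e l) D (loF J e l w) = 0 := by
  constructor
  · rintro ⟨b, -, rfl⟩
    exact epsG_loG_th (lm J l) hF (loF_thF l)
  · intro h
    exact hj0 j hj w ((sat_iff hJ he hl hF (OmR_le hw)).2 h) hw

/-- The top forms are multiples of one form. -/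
private theorem ginc_gen {D : Mon n e → Derivation κ (LR J {l}) (LR J {l})} (hJ : Good J m) (he : 1 ≤ e) (hl : (X l : MvPolynomial (Fin n) κ) ∉ J)
    (hF : Fra κ (bl J e l) D m) (hD : HomD D) {p : Ra κ n e} (hp : PbC (bl J e l) D = Ideal.span {p}) (j : ℕ)
    (hjm : m + 1 ≤ j) :
    ∃ α ∈ Om J (m + 1) (j + e), ∀ k, ∀ w ∈ Om J (m + 1) (j + e + e * k),
      ∃ s r : Ra κ n e, s ∉ PbC (bl J e l) D ∧ epsG (bl J e l) D (loF J e l
        (s ⊗ₜ[κ] w - r ⊗ₜ[κ] (fz κ (xm J (mon0 e l).1) ^ k * α))) = 0 := by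
  have hdom : IsDomain (LR J {l}) := LR_domain hJ.prime hl
  obtain ⟨E, -, hE⟩ := exists_eulL (l := l) (e := e) hJ.homog
  have he0 : (e : κ) ≠ 0 := Nat.cast_ne_zero.2 (by omega)
  have hq : eps0 (bl J e l) D (pderiv (mon0 e l) p ⊗ₜ[κ] 1) ≠ 0 := fun h0 => by
    have h1 := mem_PbC.2 h0
    rw [hp, Ideal.mem_span_singleton] at h1
    exact pderiv_not_dvd hF he0 hE hp (bl_ne (e := e) hJ.prime hl) h1
  have hpair : ∀ w w' : Fm κ (CR J), w ∈ Om J (m + 1) (j + e) → w' ∈ Om J (m + 1) (j + e) → ∃ s r : Ra κ n e,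
      (eps0 (bl J e l) D (s ⊗ₜ[κ] 1) ≠ 0 ∨ eps0 (bl J e l) D (r ⊗ₜ[κ] 1) ≠ 0) ∧
        epsG (bl J e l) D (loG (Mon n e) (lm J l) (s • ((1 : Ra κ n e) ⊗ₜ[κ] w) - r • ((1 : Ra κ n e) ⊗ₜ[κ] w'))) = 0 := by
    intro w w' hw hw'
    obtain ⟨s, r, hsr, h⟩ := pair hJ he hl hF hD hp (tmul_OmR (1 : Ra κ n e) hw) (tmul_OmR (1 : Ra κ n e) hw')
    exact ⟨s, r, hsr.imp (fun h1 h0 => h1 (mem_PbC.2 h0)) (fun h1 h0 => h1 (mem_PbC.2 h0)), h⟩
  obtain ⟨α, hα, h0⟩ := PrC.start (φ := lm J l) (Submodule.zero_mem (Om J (m + 1) (j + e))) hF hpair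
  have key : ∀ k, ∀ w ∈ Om J (m + 1) (j + e + e * k),
      PrC (bl J e l) D (lm J l) (fz κ (xm J (mon0 e l).1) ^ k * α) w := by
    intro k
    induction k with
    | zero =>
      intro w hw
      rw [mul_zero, add_zero] at hw
      rw [pow_zero, one_mul]
      exact h0 w hw
    | succ k ih =>
      intro w hw
      have hw' : w ∈ Om J (m + 1) ((j + e + e * k) + e) := by
        have h1 : j + e + e * k + e = j + e + e * (k + 1) := by ring
        rw [h1]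
        exact hw
      have hsp := ginc_split (by omega : m + 1 ≤ j + e + e * k) hw'
      clear hw hw'
      rw [pow_succ', mul_assoc]
      induction hsp using Submodule.span_induction with
      | mem x hx =>
        obtain ⟨g, w', hw', rfl⟩ := hx
        exact (ih w' hw').step hq (ratio hF he0 hE hp (mon0 e l) g)
      | zero => exact PrC.zero _
      | add x y _ _ hx hy => exact hx.add hy
      | smul c x _ hx => exact hx.smul c
  refine ⟨α, hα, fun k w hw => ?_⟩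
  obtain ⟨s, r, hs, h⟩ := key k w hw
  exact ⟨s, r, fun h1 => hs (mem_PbC.1 h1), h⟩

end one

/-- (G2), (G3) The incidence variety. -/
theorem incidence (hJ : Good J m) (he : 1 ≤ e) :
    ∃ (Pb : Ideal (Ra κ n e)) (j0 : ℕ), Pb.IsPrime ∧ Pb ≠ ⊥ ∧
      (∀ j, j0 ≤ j → ∀ r ∈ Pb, ∀ w ∈ OmR J e (m + 1) (j + e), Exd J e m j (r • w)) ∧
      (∀ j, j0 ≤ j → ∀ r ∉ Pb, ∀ w ∈ OmR J e (m + 1) (j + e), Exd J e m j (r • w) → Exd J e m j w) ∧
      ∀ p : Ra κ n e, Pb = Ideal.span {p} → ∀ l, (X l : MvPolynomial (Fin n) κ) ∉ J →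
        ¬ p ∣ pderiv (mon0 e l) p ∧
        ∀ j, j0 ≤ j → ∃ α ∈ Om J (m + 1) (j + e), ∀ k, ∀ w ∈ Om J (m + 1) (j + e + e * k),
          ∃ s r : Ra κ n e, ¬ p ∣ s ∧ Exd J e m (j + e * k)
            (s ⊗ₜ[κ] w - r ⊗ₜ[κ] (fz κ (xm J (mon0 e l).1) ^ k * α)) := by
  obtain ⟨l0, hl0⟩ := hJ.ne
  obtain ⟨D, hF, hD⟩ := exists_fra hJ he hl0
  obtain ⟨j0, hj0⟩ := satF_high hJ.homog he m
  have hdom : IsDomain (LR J {l0}) := LR_domain hJ.prime hl0
  have hpr : (PbC (bl J e l0) D).IsPrime := PbC_prime hF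
  obtain ⟨E, -, hE⟩ := exists_eulL (l := l0) (e := e) hJ.homog
  have he0 : (e : κ) ≠ 0 := Nat.cast_ne_zero.2 (by omega)
  refine ⟨PbC (bl J e l0) D, max j0 (m + 1), hpr, pb_ne hF he0 hE (bl_ne hJ.prime hl0), ?_, ?_, ?_⟩
  · intro j hj r hr w hw
    refine (ginc_iff hJ he hl0 hF hj0 (le_trans (le_max_left _ _) hj) (Submodule.smul_mem _ r hw)).2 ?_
    refine (epsG_loG_smul (lm J l0) r w).trans ?_
    exact mul_eq_zero_of_left ((congrArg _ (mem_PbC.1 hr)).trans (map_zero _)) _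
  · intro j hj r hr w hw h
    have h1 := (ginc_iff hJ he hl0 hF hj0 (le_trans (le_max_left _ _) hj) (Submodule.smul_mem _ r hw)).1 h
    refine (ginc_iff hJ he hl0 hF hj0 (le_trans (le_max_left _ _) hj) hw).2 ?_
    exact tz_reg hF (fun h2 => hr (mem_PbC.2 h2)) ((epsG_loG_smul (lm J l0) r w).symm.trans h1)
  · intro p hp l hl
    obtain ⟨D', hF', hD'⟩ := exists_fra hJ he hl
    have hpb : PbC (bl J e l) D' = PbC (bl J e l0) D := pb_indep hJ he hl hl0 hF' hF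
    have hp' : PbC (bl J e l) D' = Ideal.span {p} := hpb.trans hp
    have hdom' : IsDomain (LR J {l}) := LR_domain hJ.prime hl
    obtain ⟨E', -, hE'⟩ := exists_eulL (l := l) (e := e) hJ.homog
    refine ⟨pderiv_not_dvd hF' he0 hE' hp' (bl_ne hJ.prime hl), fun j hj => ?_⟩
    obtain ⟨α, hα, h⟩ := ginc_gen hJ he hl hF' hD' hp' j (le_trans (le_max_right _ _) hj)
    refine ⟨α, hα, fun k w hw => ?_⟩
    obtain ⟨s, r, hs, hsr⟩ := h k w hw
    have hpow : ∀ k : ℕ, (fz κ (xm J (mon0 e l).1) ^ k * α : Fm κ (CR J)) ∈ Om J (m + 1) (j + e + e * k) := by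
      intro k
      induction k with
      | zero =>
        rw [pow_zero, one_mul, mul_zero, add_zero]
        exact hα
      | succ k ih =>
        rw [pow_succ', mul_assoc]
        have h1 := Om_mul (fz_xm_mem (J := J) (mon0 e l).1) ih
        rw [mon_degree, zero_add] at h1
        have h2 : e + (j + e + e * k) = j + e + e * (k + 1) := by ring
        rw [h2] at h1
        exact h1
    refine ⟨s, r, fun h1 => hs (hp'.symm ▸ Ideal.mem_span_singleton.2 h1), ?_⟩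
    have hjk : j0 ≤ j + e * k := le_trans (le_trans (le_max_left _ _) hj) (Nat.le_add_right _ _)
    have hidx : j + e + e * k = j + e * k + e := by ring
    have hk := hpow k
    rw [hidx] at hk hw
    exact (ginc_iff hJ he hl hF' hj0 hjk (Submodule.sub_mem _ (tmul_OmR s hw) (tmul_OmR r hk))).2 hsr

end MPadcDC
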