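import Pool.Agent.Lib.MP_adc574_ag_DC.GCxK
import Pool.Agent.Lib.MP_adc574_ag_DC.GInc

/-!
# GCxB: Koszul exactness and the incidence variety for the complex `cxS`

JOB GCxB. `TF_eq`: `TF` is the left multiplication with `thF` (`TensorProduct.induction_on`). `kos`, `kos0`: `koszul` with `j = ν + e k`.
`bad`: `incidence` with `j = ν + e (k₀ - 1)`, `k₀ ≥ 1` and `j ≥ j0`; `γ₀ = mon0 e l` for some `l` with `x_l ∉ J`;
`(mul γ₀)^[k+1] α = fz (x^γ₀)^(k+1) * α`. The ideal `P` does not depend on `ν`.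
-/

set_option autoImplicit false

namespace MPadcDC

open MvPolynomial TensorProduct MPadcGP

universe u v

variable {κ : Type u} [Field κ] [CharZero κ] {n : ℕ} {J : Ideal (MvPolynomial (Fin n) κ)} {e m ν : ℕ}

theorem cxS_bad (hJ : Good J m) (he : 1 ≤ e) :
    ∃ P : Ideal (Ra κ n e), ∀ ν, 0 < ν → ν < e → ∃ k₀, (cxS hJ.homog e ν).Bad m P k₀ := by
  obtain ⟨P, j0, hP, hP0, h1, _, h3⟩ := incidence (e := e) hJ he
  refine ⟨P, fun ν _ _ => ⟨j0 + 1, hP, hP0, fun k hk r hr x hx => ?_, fun π hπ => ?_⟩⟩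
  · have h4 : ν + e * k + e = ν + e * (k + 1) := by ring
    have h5 := h1 (ν + e * k) (GCxB_le he ((Nat.le_succ j0).trans hk)) r hr ((1 : Ra κ n e) ⊗ₜ[κ] x) (by
      rw [h4]
      exact Submodule.tmul_mem_baseChange_of_mem 1 hx)
    rw [TensorProduct.smul_tmul', smul_eq_mul, mul_one] at h5
    exact GCxB_map hJ.homog h5
  · obtain ⟨l, hl⟩ := hJ.ne
    obtain ⟨h4, h5⟩ := h3 π hπ l hl
    obtain ⟨α, hα, h6⟩ := h5 (ν + e * j0) (GCxB_le he le_rfl)
    refine ⟨mon0 e l, fun h => h4 ?_, α, ?_, fun k x hx => ?_⟩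
    · rw [hπ] at h
      exact Ideal.mem_span_singleton.mp h
    · have h7 : ν + e * j0 + e = ν + e * (j0 + 1) := by ring
      rw [h7] at hα
      exact hα
    · have h7 : ν + e * (j0 + 1 + k + 1) = ν + e * j0 + e + e * (k + 1) := by ring
      have hx' : x ∈ Om J (m + 1) (ν + e * j0 + e + e * (k + 1)) := by
        rw [← h7]
        exact hx
      obtain ⟨s, r, hs, hr⟩ := h6 (k + 1) x hx'
      refine ⟨s, r, fun h => hs ?_, ?_⟩
      · rw [hπ] at h
        exact Ideal.mem_span_singleton.mp h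
      · rw [GCxB_it]
        have h8 : ν + e * j0 + e * (k + 1) = ν + e * (j0 + 1 + k) := by ring
        rw [h8] at hr
        exact GCxB_map hJ.homog hr

end MPadcDC
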