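import Pool.Agent.Lib.MP_adc574_ag_DC.CGk
import Pool.Agent.Lib.MP_adc574_ag_DC.GCxB

/-!
# DC, Part C: the statements of Part G in the form of Part C
-/

set_option autoImplicit false
set_option linter.unusedSectionVars false

namespace MPadcDC

open MvPolynomial TensorProduct MPadcGP

universe u

section fromG

variable {κ : Type u} [Field κ] [CharZero κ] {n : ℕ} {J : Ideal (MvPolynomial (Fin n) κ)} {K : Type u} [Field K]
  [Algebra κ K] {e : ℕ} {a : Mon n e → K}

theorem cxS_badC {m : ℕ} (hJ : Good J m) {ν : ℕ} (h1 : 0 < ν) (h2 : ν < e) :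
    ∃ (P : Ideal (Ra κ n e)) (k₀ : ℕ), (cxS hJ.homog e ν).Bad m P k₀ := by
  obtain ⟨P, hP⟩ := cxS_bad hJ (show 1 ≤ e by omega)
  exact ⟨P, hP ν h1 h2⟩

end fromG

end MPadcDC
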