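import Pool.Agent.Lib.MP_adc574_ag_DC.LBri2
import Pool.Agent.Lib.MP_adc574_ag_DC.ANb3
import Pool.Agent.Lib.MP_adc574_ag_DC.ANbd

/-!
# JOB LBri3 (DC): the bridge, boundedness

* `bri_nb`: let `E` be FG over `k[X]` and `w` with `∀ n, ∃ s, ¬ i π ∣ s ∧ s • nab^[n] w ∈ E`. Generators `e_1 .. e_N` of `E`: `EE_spn`: `r_a • e_a ∈ EE k₀`, `r_a ≠ 0`; `r₀ = ∏ r_a ≠ 0`, so `r₀ • x ∈ span k[X] (EE k₀)` for all `x ∈ E` (`bri_smul`). `r₀ = s₀ * π ^ j`, `¬ π ∣ s₀`. We show `Bdd G m c nab P γ₀ π w` with `(j, k₀)`, then `nb`. For `n`: `y = nab^[n] w`,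
  `s • y ∈ E`. `hb.clear s`: `c₀, s', c'` with `i c₀ = C c'`, `C c' * s = i s'`; `¬ π ∣ s'`: otherwise `i π ∣ i s' = C c' * s`, `C c'` is a unit, so `i π ∣ s`. `s' • y = C c' • s • y ∈ E`, `r₀ • s' • y ∈ span (EE k₀)`, `bri_clear`: `c₁ • r₀ • s' • y ∈ EE k₀`, `¬ π ∣ c₁`: so `(c₁ s₀ s') • (π ^ j • y) ∈ EE k₀`, `c₁ s₀ s' ∉ P` (`P = span {π}`, `Ideal.mem_span_singleton`, `hπ`).
* `bri_nbd`: `E` spanning, `z` as in `NBD`. Define `z₁ n : H →ₗ[K] K`, `x ↦ φ.symm (z n x)` (`K`-linear: `z n (f • x) = z n (φ f • x) = φ f * z n x`). `z₁ (n + 1) x = dK γ₀ (z₁ n x) - z₁ n (nab γ₀ x)` (`hb.dphi`). Generators `y_1 .. y_N` of `EE k₀` (`EE_fg`): `f_a • y_a ∈ E`, `f_a ≠ 0` in `k[X]`; `f₀ = ∏ f_a = s₀ * (i π) ^ j`, `¬ i π ∣ s₀`.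
  For `x ∈ EE k₀`: `f₀ • x ∈ E` so `InO (i π) (z n (f₀ • x))`: `f₀ • x = (s₀ (i π)^j) • x`: `A s * A (s₀ (i π)^j) * z n x = A r`, `¬ i π ∣ s s₀` (`hb.irr.prime`). `hb.clear` for `s s₀` and `r` (take the product of the two `c`'s): `C c' * (s s₀) = i s'`, `C c' * r = i r'`, so `A (i s') * A (i π)^j * z n x = A (i r')`, apply `φ.symm` (`hb.alg`):
  `algebraMap (s' * π ^ j) * z₁ n x = algebraMap r'`, `s' ∉ P`. `nbd` (with `i := j`) gives `z₁ 0 = 0`, so `z 0 = 0`.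
-/

set_option autoImplicit false
set_option linter.unusedSectionVars false

namespace MPadcDC

open TensorProduct MPadcLP MPadcHM

universe u

section bridge

open MvPolynomial

variable {κ : Type u} [Field κ] [CharZero κ] {Γ : Type} [Fintype Γ] [DecidableEq Γ]
  {K : Type u} [Field K] [Algebra (MvPolynomial Γ κ) K] [IsFractionRing (MvPolynomial Γ κ) K]
  {V : Type u} [AddCommGroup V] [Module κ V] {H : Type u} [AddCommGroup H] [Module K H]
  [Module (MvPolynomial Γ κ) H] [IsScalarTower (MvPolynomial Γ κ) K H]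
  {G : Cx κ Γ V} {m : ℕ} {P : Ideal (MvPolynomial Γ κ)} {k₀ : ℕ} {dK : Γ → Derivation ℤ K K}
  {nab : Γ → H →+ H} {c : V →+ H} {γ₀ : Γ} {π : MvPolynomial Γ κ}
  {k : Type u} [Field k] [CharZero k] {i : MvPolynomial Γ κ →+* Polynomial k} {φ : K ≃+* RatFunc k}
  [Module (RatFunc k) H] [Module (Polynomial k) H] [IsScalarTower (Polynomial k) (RatFunc k) H]

private theorem LBri3_prod {R M : Type*} [CommRing R] [IsDomain R] [AddCommGroup M] [Module R M]
    (E : Submodule R M) (S : Finset M) (h : ∀ x ∈ S, ∃ r : R, r ≠ 0 ∧ r • x ∈ E) :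
    ∃ r : R, r ≠ 0 ∧ ∀ x ∈ S, r • x ∈ E := by
  classical
  induction S using Finset.induction_on with
  | empty => exact ⟨1, one_ne_zero, fun x hx => absurd hx (Finset.notMem_empty x)⟩
  | insert a S ha ih =>
    obtain ⟨r, hr, h1⟩ := ih fun x hx => h x (Finset.mem_insert_of_mem hx)
    obtain ⟨q, hq, h2⟩ := h a (Finset.mem_insert_self a S)
    refine ⟨r * q, mul_ne_zero hr hq, fun x hx => ?_⟩
    rcases Finset.mem_insert.1 hx with rfl | hx
    · rw [mul_smul]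
      exact E.smul_mem _ h2
    · rw [mul_comm, mul_smul]
      exact E.smul_mem _ (h1 x hx)

private theorem LBri3_unit {k : Type*} [Field k] {a f g : Polynomial k} {c : k} (hc : c ≠ 0)
    (h : Polynomial.C c * f = g) (hd : a ∣ g) : a ∣ f := by
  rw [← h] at hd
  exact ((Polynomial.isUnit_C.2 (isUnit_iff_ne_zero.2 hc)).dvd_mul_left).1 hd

theorem bri_nb (hG : G.Ok) (hB : G.Bad m P k₀) (hC : Con G m dK nab c) (hπ : Prime π)
    (hP : P = Ideal.span {π}) (hγ : pderiv γ₀ π ∉ P)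
    (hb : Bri γ₀ π (dK γ₀) k i φ) (hφ : ∀ (f : K) (x : H), φ f • x = f • x) : NB (nab γ₀) (i π) := by
  classical
  intro E hE w hw
  obtain ⟨S, hS⟩ := hE
  have hspn : ∀ h : H, ∃ f : Polynomial k, f ≠ 0 ∧
      f • h ∈ Submodule.span (Polynomial k) (EE G m c k₀ : Set H) := by
    intro h
    obtain ⟨r, hr, h1⟩ := EE_spn hG hB hC h
    refine ⟨i r, ?_, ?_⟩
    · intro h0
      apply hr
      have h2 : φ (algebraMap (MvPolynomial Γ κ) K r) = 0 := by rw [hb.alg, h0, map_zero]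
      have h3 : algebraMap (MvPolynomial Γ κ) K r = 0 := by
        apply φ.injective
        rw [h2, map_zero]
      exact (IsFractionRing.injective (MvPolynomial Γ κ) K) (by rw [h3, map_zero])
    · rw [bri_smul hb hφ]
      exact Submodule.subset_span h1
  obtain ⟨f₀, hf₀, h1⟩ := LBri3_prod (Submodule.span (Polynomial k) (EE G m c k₀ : Set H)) S
    fun x _ => hspn x
  have h2 : ∀ x ∈ E, f₀ • x ∈ Submodule.span (Polynomial k) (EE G m c k₀ : Set H) := by
    intro x hx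
    rw [← hS] at hx
    induction hx using Submodule.span_induction with
    | mem y hy => exact h1 y hy
    | zero => rw [smul_zero]; exact Submodule.zero_mem _
    | add y z _ _ hy hz => rw [smul_add]; exact Submodule.add_mem _ hy hz
    | smul a y _ hy => rw [smul_comm]; exact Submodule.smul_mem _ _ hy
  obtain ⟨c₂, r₀, c₂', hc₂', -, -, hr⟩ := hb.clear f₀
  have hr₀ : r₀ ≠ 0 := by
    rintro rfl
    rw [map_zero] at hr
    rcases mul_eq_zero.1 hr with h | h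
    · exact hc₂' (Polynomial.C_eq_zero.1 h)
    · exact hf₀ h
  have h3 : ∀ x ∈ E, r₀ • x ∈ Submodule.span (Polynomial k) (EE G m c k₀ : Set H) := by
    intro x hx
    rw [← bri_smul hb hφ, ← hr, mul_smul]
    exact Submodule.smul_mem _ _ (h2 x hx)
  obtain ⟨j, s₀, hs₀, hrs⟩ := WfDvdMonoid.max_power_factor hr₀ hπ.irreducible
  refine nb hG hB hC hP hγ w ⟨j, k₀, fun n => ?_⟩
  obtain ⟨s, hs, hy⟩ := hw n
  obtain ⟨c₀, s', c', hc', -, -, hcs⟩ := hb.clear s
  have hs' : ¬ π ∣ s' := fun hd => hs (LBri3_unit hc' hcs (map_dvd i hd))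
  have h4 : s' • (nab γ₀)^[n] w ∈ E := by
    rw [← bri_smul hb hφ, ← hcs, mul_smul]
    exact E.smul_mem _ hy
  obtain ⟨c₁, hc₁, h5⟩ := bri_clear hb hφ hπ _ (h3 _ h4)
  refine ⟨c₁ * s₀ * s', ?_, ?_⟩
  · rw [hP, Ideal.mem_span_singleton]
    exact hπ.not_dvd_mul (hπ.not_dvd_mul hc₁ hs₀) hs'
  · have h6 : (c₁ * s₀ * s') • π ^ j • (nab γ₀)^[n] w = c₁ • r₀ • s' • (nab γ₀)^[n] w := by
      rw [smul_smul, smul_smul, smul_smul, hrs]
      congr 1
      ring
    rw [h6]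
    exact h5

theorem bri_nbd (hG : G.Ok) (hB : G.Bad m P k₀) (hC : Con G m dK nab c) (hπ : Prime π)
    (hP : P = Ideal.span {π}) (hγ : pderiv γ₀ π ∉ P)
    (hb : Bri γ₀ π (dK γ₀) k i φ) (hφ : ∀ (f : K) (x : H), φ f • x = f • x) : NBD (nab γ₀) (i π) := by
  classical
  intro E hE z hz hin
  have hsy : ∀ y : RatFunc k, dK γ₀ (φ.symm y) = φ.symm (DZ k y) := by
    intro y
    apply φ.injective
    rw [hb.dphi, RingEquiv.apply_symm_apply, RingEquiv.apply_symm_apply]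
  let z₁ : ℕ → H →ₗ[K] K := fun n =>
    { toFun := fun x => φ.symm (z n x)
      map_add' := fun x y => by rw [map_add, map_add]
      map_smul' := fun f x => by
        rw [← hφ, (z n).map_smul, smul_eq_mul, map_mul, RingEquiv.symm_apply_apply, RingHom.id_apply,
          smul_eq_mul] }
  have hz₁a : ∀ n x, z₁ n x = φ.symm (z n x) := fun n x => rfl
  have hz₁ : ∀ n x, z₁ (n + 1) x = dK γ₀ (z₁ n x) - z₁ n (nab γ₀ x) := by
    intro n x
    rw [hz₁a, hz₁a, hz₁a, hz, map_sub, hsy]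
  obtain ⟨S, hS⟩ := EE_fg hG hC k₀
  obtain ⟨f₀, hf₀, h1⟩ := LBri3_prod E S fun x _ => hE x
  have h2 : ∀ x ∈ EE G m c k₀, f₀ • x ∈ E := by
    intro x hx
    rw [← hS] at hx
    induction hx using Submodule.span_induction with
    | mem y hy => exact h1 y hy
    | zero => rw [smul_zero]; exact Submodule.zero_mem _
    | add y z _ _ hy hz => rw [smul_add]; exact Submodule.add_mem _ hy hz
    | smul a y _ hy => rw [← bri_smul hb hφ, smul_comm]; exact Submodule.smul_mem _ _ hy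
  obtain ⟨j, s₀, hs₀, hrs⟩ := WfDvdMonoid.max_power_factor hf₀ hb.irr
  have h3 : z₁ 0 = 0 := by
    refine nbd hG hB hC hP hγ z₁ hz₁ j ?_
    intro n x hx
    obtain ⟨s, r, hs, hsr⟩ := hin n _ (h2 x hx)
    have h4 : z n (f₀ • x) = algebraMap (Polynomial k) (RatFunc k) f₀ * z n x := by
      rw [← algebraMap_smul (RatFunc k) f₀ x, (z n).map_smul, smul_eq_mul]
    obtain ⟨c₁, s', c₁', hc₁', hic₁, hc₁, hs'⟩ := hb.clear (s * s₀)
    obtain ⟨c₂, r', c₂', hc₂', hic₂, hc₂, hr'⟩ := hb.clear r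
    have h5 : ¬ π ∣ s' := fun hd => by
      rcases hb.irr.prime.dvd_or_dvd (LBri3_unit hc₁' hs' (map_dvd i hd)) with h | h
      · exact hs h
      · exact hs₀ h
    refine ⟨c₂ * s', c₁ * r', ?_, ?_⟩
    · rw [hP, Ideal.mem_span_singleton]
      exact hπ.not_dvd_mul hc₂ h5
    · apply φ.injective
      rw [map_mul, hb.alg, hb.alg, hz₁a, RingEquiv.apply_symm_apply]
      have h6 : i (c₂ * s' * π ^ j) = Polynomial.C c₂' * (Polynomial.C c₁' * (s * s₀)) * i π ^ j := by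
        rw [map_mul, map_mul, map_pow, hic₂, hs']
      have h7 : i (c₁ * r') = Polynomial.C c₁' * (Polynomial.C c₂' * r) := by
        rw [map_mul, hic₁, hr']
      rw [h6, h7]
      have h8 : algebraMap (Polynomial k) (RatFunc k) s *
          (algebraMap (Polynomial k) (RatFunc k) (i π ^ j * s₀) * z n x) =
          algebraMap (Polynomial k) (RatFunc k) r := by
        rw [← hrs, ← h4]
        exact hsr
      simp only [map_mul] at h8 ⊢
      rw [← h8]
      ring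
  apply LinearMap.ext
  intro x
  have h9 : φ (z₁ 0 x) = z 0 x := by rw [hz₁a, RingEquiv.apply_symm_apply]
  rw [← h9, h3, LinearMap.zero_apply, map_zero, LinearMap.zero_apply]

end bridge

end MPadcDC
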