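import Pool.Agent.Lib.MP_adc574_ag_DC.LStp1

/-!
# JOB LCoord (DC): boundedness in coordinates

`ΓK i j := b.repr (nab (b j)) i`. `A = algebraMap k[X] (RatFunc k)`.
* `nb_coord`: let `ω := ∑ w i • b i ∈ H`. `nab (∑ w i • b i) = ∑ (nb1 ΓK w) i • b i` (`hleib`: `∑ DZ (w i) • b i + ∑ w j • nab (b j)`, `nab (b j) = ∑ i, ΓK i j • b i`), so `nab^[n] ω = ∑ (nb1 ΓK)^[n] w i • b i` (induction). `E := Submodule.span k[X] (Set.range b)`, FG. For every `n`: choose `s_i` with `A s_i * (coordinate i) = A r_i`, `¬ δ ∣ s_i`;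
  `s = ∏ s_i`, `¬ δ ∣ s` (`δ` prime: `hδ.prime`), `s • nab^[n] ω ∈ E`. `hnb E _ ω` gives `ω = 0`, so `w = 0`.
* `nbd_coord`: define `z' n : H →ₗ RatFunc k`, `x ↦ ∑ i, ((nb2 ΓK)^[n] z) i * b.repr x i` (e.g. `∑ i, c i • b.coord i`). `z' (n + 1) x = DZ (z' n x) - z' n (nab x)`: with `c = (nb2 ΓK)^[n] z`: for `x = ∑ x_j b_j`: `DZ (∑ c_j x_j) - ∑_i c_i (DZ x_i + ∑_j ΓK i j x_j) = ∑_j (DZ c_j - ∑_i ΓK i j c_i) x_j` (`Function.iterate_succ_apply'`).
  `E = span k[X] (range b)` has the spanning property (common denominators). On `E` the values are regular: sums and `k[X]`-multiples of regular functions are regular. `hnbd` gives `z' 0 = 0`, so `z i = z' 0 (b i) = 0`.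
-/

set_option autoImplicit false
set_option linter.unusedSectionVars false

namespace MPadcDC

open TensorProduct MPadcLP MPadcHM

universe u

section main1

variable {k : Type u} [Field k] [CharZero k] {H : Type u} [AddCommGroup H] [Module (RatFunc k) H]
  [Module (Polynomial k) H] [IsScalarTower (Polynomial k) (RatFunc k) H]


private theorem lcoord_zero {δ : Polynomial k} (hδ : Irreducible δ) : InO δ (0 : RatFunc k) :=
  ⟨1, 0, fun h => hδ.not_isUnit (isUnit_of_dvd_one h), by rw [mul_zero, map_zero]⟩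

private theorem lcoord_add {δ : Polynomial k} (hδ : Irreducible δ) {f g : RatFunc k} (hf : InO δ f)
    (hg : InO δ g) : InO δ (f + g) := by
  obtain ⟨s, r, hs, h1⟩ := hf
  obtain ⟨s', r', hs', h2⟩ := hg
  refine ⟨s * s', s' * r + s * r', fun h => (hδ.prime.dvd_or_dvd h).elim hs hs', ?_⟩
  rw [map_mul, map_add, map_mul, map_mul, ← h1, ← h2]
  ring

private theorem lcoord_smul {δ : Polynomial k} (q : Polynomial k) {f : RatFunc k} (hf : InO δ f) :
    InO δ (algebraMap (Polynomial k) (RatFunc k) q * f) := by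
  obtain ⟨s, r, hs, h1⟩ := hf
  refine ⟨s, q * r, hs, ?_⟩
  rw [map_mul, ← h1]
  ring

private theorem lcoord_repr {nab : H →+ H}
    (hleib : ∀ (f : RatFunc k) x, nab (f • x) = DZ k f • x + f • nab x) {r : ℕ}
    (b : Module.Basis (Fin r) (RatFunc k) H) (x : H) (i : Fin r) :
    b.repr (nab x) i = nb1 (Matrix.of fun i j => b.repr (nab (b j)) i) (b.repr x) i := by
  have h1 : nab x = ∑ j, (DZ k (b.repr x j) • b j + b.repr x j • nab (b j)) := by
    conv_lhs => rw [← b.sum_repr x]
    rw [map_sum]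
    exact Finset.sum_congr rfl fun j _ => hleib _ _
  rw [h1, map_sum, Finsupp.finsetSum_apply]
  have h2 : ∀ j ∈ Finset.univ, (b.repr (DZ k (b.repr x j) • b j + b.repr x j • nab (b j))) i =
      (if j = i then DZ k (b.repr x j) else 0) + b.repr x j * b.repr (nab (b j)) i := by
    intro j _
    rw [map_add, map_smul, map_smul, Finsupp.add_apply, Finsupp.smul_apply, Finsupp.smul_apply,
      b.repr_self, Finsupp.single_apply, smul_eq_mul, smul_eq_mul, mul_ite, mul_one, mul_zero]
  rw [Finset.sum_congr rfl h2, Finset.sum_add_distrib, Finset.sum_ite_eq' Finset.univ i,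
    if_pos (Finset.mem_univ i)]
  show _ = DZ k (b.repr x i) + ∑ j, b.repr (nab (b j)) i * b.repr x j
  congr 1
  exact Finset.sum_congr rfl fun j _ => mul_comm _ _

private theorem lcoord_iter {nab : H →+ H}
    (hleib : ∀ (f : RatFunc k) x, nab (f • x) = DZ k f • x + f • nab x) {r : ℕ}
    (b : Module.Basis (Fin r) (RatFunc k) H) (w : Fin r → RatFunc k) (n : ℕ) :
    nab^[n] (∑ i, w i • b i) =
      ∑ i, ((nb1 (Matrix.of fun i j => b.repr (nab (b j)) i))^[n] w) i • b i := by
  induction n with
  | zero => rfl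
  | succ n ih =>
    rw [Function.iterate_succ_apply', Function.iterate_succ_apply', ih]
    set v := (nb1 (Matrix.of fun i j => b.repr (nab (b j)) i))^[n] w with hv
    have h1 : (b.repr (∑ i, v i • b i) : Fin r → RatFunc k) = v := by
      funext i
      rw [b.repr_sum_self]
    conv_lhs => rw [← b.sum_repr (nab (∑ i, v i • b i))]
    refine Finset.sum_congr rfl fun i _ => ?_
    rw [lcoord_repr hleib b, h1]

theorem nb_coord {nab : H →+ H} (hleib : ∀ (f : RatFunc k) x, nab (f • x) = DZ k f • x + f • nab x)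
    {δ : Polynomial k} (hδ : Irreducible δ) (hnb : NB nab δ) {r : ℕ} (b : Module.Basis (Fin r) (RatFunc k) H)
    (w : Fin r → RatFunc k)
    (h : ∀ n : ℕ, ∀ i, InO δ ((nb1 (Matrix.of fun i j => b.repr (nab (b j)) i))^[n] w i)) : w = 0 := by

  classical
  set ΓK : Matrix (Fin r) (Fin r) (RatFunc k) := Matrix.of fun i j => b.repr (nab (b j)) i with hΓK
  have key := hnb (Submodule.span (Polynomial k) (Set.range b))
    (Submodule.fg_span (Set.finite_range b)) (∑ i, w i • b i) ?_
  · funext i
    exact Fintype.linearIndependent_iff.1 b.linearIndependent w key i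
  · intro n
    choose s q hs hq using fun i => h n i
    refine ⟨∏ i, s i, ?_, ?_⟩
    · intro hd
      obtain ⟨i, _, hi⟩ := (hδ.prime.dvd_finsetProd_iff _).1 hd
      exact hs i hi
    · rw [lcoord_iter hleib b w n, Finset.smul_sum]
      refine Submodule.sum_mem _ fun i _ => ?_
      have h1 : (∏ i, s i) • ((nb1 ΓK)^[n] w i • b i) =
          ((∏ j ∈ Finset.univ.erase i, s j) * q i) • b i := by
        rw [← Finset.mul_prod_erase Finset.univ s (Finset.mem_univ i), mul_comm (s i), mul_smul,
          mul_smul]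
        congr 1
        rw [← algebraMap_smul (RatFunc k) (s i), smul_smul, hq i, algebraMap_smul]
      rw [h1]
      exact Submodule.smul_mem _ _ (Submodule.subset_span ⟨i, rfl⟩)

theorem nbd_coord {nab : H →+ H} (hleib : ∀ (f : RatFunc k) x, nab (f • x) = DZ k f • x + f • nab x)
    {δ : Polynomial k} (hδ : Irreducible δ) (hnbd : NBD nab δ) {r : ℕ}
    (b : Module.Basis (Fin r) (RatFunc k) H) (z : Fin r → RatFunc k)
    (h : ∀ n : ℕ, ∀ i, InO δ ((nb2 (Matrix.of fun i j => b.repr (nab (b j)) i))^[n] z i)) : z = 0 := by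

  classical
  set ΓK : Matrix (Fin r) (Fin r) (RatFunc k) := Matrix.of fun i j => b.repr (nab (b j)) i with hΓK
  let z' : ℕ → H →ₗ[RatFunc k] RatFunc k := fun n => ∑ i, ((nb2 ΓK)^[n] z) i • b.coord i
  have hz' : ∀ n x, z' n x = ∑ i, ((nb2 ΓK)^[n] z) i * b.repr x i := by
    intro n x
    show (∑ i, ((nb2 ΓK)^[n] z) i • b.coord i) x = _
    rw [LinearMap.sum_apply]
    refine Finset.sum_congr rfl fun i _ => ?_
    rw [LinearMap.smul_apply, Module.Basis.coord_apply, smul_eq_mul]
  have hzb : ∀ n i, z' n (b i) = ((nb2 ΓK)^[n] z) i := by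
    intro n i
    rw [hz', Finset.sum_eq_single i]
    · rw [b.repr_self, Finsupp.single_eq_same, mul_one]
    · intro j _ hj
      rw [b.repr_self, Finsupp.single_eq_of_ne hj, mul_zero]
    · intro hi
      exact absurd (Finset.mem_univ i) hi
  have hspn : ∀ x : H, ∃ q : Polynomial k, q ≠ 0 ∧
      q • x ∈ Submodule.span (Polynomial k) (Set.range b) := by
    intro x
    obtain ⟨d, hd⟩ := IsLocalization.exist_integer_multiples_of_finite
      (nonZeroDivisors (Polynomial k)) (fun i : Fin r => b.repr x i)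
    refine ⟨d, nonZeroDivisors.ne_zero d.2, ?_⟩
    rw [← b.sum_repr x, Finset.smul_sum]
    refine Submodule.sum_mem _ fun i _ => ?_
    obtain ⟨c, hc⟩ := hd i
    have h1 : (d : Polynomial k) • (b.repr x i • b i) = c • b i := by
      rw [← smul_assoc, ← hc, algebraMap_smul]
    rw [h1]
    exact Submodule.smul_mem _ _ (Submodule.subset_span ⟨i, rfl⟩)
  have hrec : ∀ n x, z' (n + 1) x = DZ k (z' n x) - z' n (nab x) := by
    intro n x
    rw [hz', hz', hz', Function.iterate_succ_apply', map_sum]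
    set c := (nb2 ΓK)^[n] z with hc
    have h1 : ∑ i, c i * b.repr (nab x) i =
        ∑ i, c i * DZ k (b.repr x i) + ∑ i, (∑ j, ΓK j i * c j) * b.repr x i := by
      have h2 : ∀ i ∈ Finset.univ, c i * b.repr (nab x) i =
          c i * DZ k (b.repr x i) + ∑ j, c i * (ΓK i j * b.repr x j) := by
        intro i _
        rw [lcoord_repr hleib b x i]
        show c i * (DZ k (b.repr x i) + ∑ j, ΓK i j * b.repr x j) = _
        rw [mul_add, Finset.mul_sum]
      rw [Finset.sum_congr rfl h2, Finset.sum_add_distrib, Finset.sum_comm]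
      congr 1
      refine Finset.sum_congr rfl fun i _ => ?_
      rw [Finset.sum_mul]
      exact Finset.sum_congr rfl fun j _ => by ring
    have h3 : ∑ i, DZ k (c i * b.repr x i) =
        ∑ i, c i * DZ k (b.repr x i) + ∑ i, DZ k (c i) * b.repr x i := by
      rw [← Finset.sum_add_distrib]
      refine Finset.sum_congr rfl fun i _ => ?_
      rw [DZ_apply, DZ_apply, DZ_apply, Derivation.leibniz, smul_eq_mul, smul_eq_mul]
      ring
    rw [h1, h3, add_sub_add_left_eq_sub, ← Finset.sum_sub_distrib]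
    refine Finset.sum_congr rfl fun i _ => ?_
    show (DZ k (c i) - ∑ j, ΓK j i * c j) * b.repr x i = _
    rw [sub_mul]
  have hreg : ∀ n, ∀ x ∈ Submodule.span (Polynomial k) (Set.range b), InO δ (z' n x) := by
    intro n x hx
    induction hx using Submodule.span_induction with
    | mem x hx =>
      obtain ⟨i, rfl⟩ := hx
      rw [hzb]
      exact h n i
    | zero =>
      rw [map_zero]
      exact lcoord_zero hδ
    | add x y _ _ hx hy =>
      rw [map_add]
      exact lcoord_add hδ hx hy
    | smul q x _ hx =>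
      rw [← algebraMap_smul (RatFunc k) q x, map_smul, smul_eq_mul]
      exact lcoord_smul q hx
  have h0 := hnbd _ hspn z' hrec hreg
  funext i
  have h1 := hzb 0 i
  rw [h0] at h1
  exact h1.symm

end main1

end MPadcDC
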