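import Pool.Agent.Lib.MP_adc574_ag_DC.LStp1

/-!
# JOB LMat (DC): the matrix of the connection

`E` is a finitely generated torsion free module over the principal ideal domain `k[X]` (torsion free: `H` is a vector space over `RatFunc k`, so `q • x = 0` implies `q = 0` or `x = 0`), so it has a basis `e : Basis (Fin r) k[X] E` (`Module.basisOfFiniteTypeTorsionFree'` or `Module.Free` + `Module.finBasis`).
`b i := (e i : H)` is a basis of `H` over `RatFunc k`: independent (`LinearIndependent.iff_fractionRing`, `IsFractionRing (Polynomial k) (RatFunc k)`), spanning by `h.spn` (`r • h ∈ E` is a combination of the `e i`, divide by `r`). For `x ∈ E`: `b.repr x i = algebraMap (e.repr ⟨x, _⟩ i)`.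
`δ • u = ∑ ε i • b i` (`h.du`). For every `j`: `h.nabE (b j)`: `nab (b j) = q j • u + ∑ i, Em i j • b i`. Multiply with `δ`: `δ • nab (b j) = ∑ i, (q j * ε i + δ * Em i j) • b i`: compare coordinates: first claim.
Second claim: `nab (δ • u) = nab (∑ ε i • b i) = ∑ (ε i)' • b i + ∑ ε i • nab (b i) ∈ (∑ ε i * q i) • u + E` (`nab_poly`), and `∈ p • u + E` (`h.pu`), so `(∑ ε i q i - p) • u ∈ E`. KEY: `u ∉ E` (see below), and `{f : k[X] | f • u ∈ E}` is an ideal containing `δ`; if `¬ δ ∣ f` and `f • u ∈ E` then
`IsCoprime δ f` gives `u ∈ E`. So `δ ∣ ∑ ε i q i - p`.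
`u ∉ E`: otherwise `nab E ⊆ E` (`nabE`), so for every `x ∈ E`: `nab^[n] x ∈ E` for all `n`, so `x = 0` by `hnb E h.fg x` (`s = 1`; `δ` is not a unit), so `E = 0` and `H = 0` by `spn`, contradiction to `hH`. Third: if all `δ ∣ ε i` then `δ • u = δ • y` with `y ∈ E`, so `u = y ∈ E` (cancel `δ` in the vector space). Fourth: if all
`δ ∣ q j` then `nab (b j) ∈ E` for all `j` (`q j • u ∈ k[X] • δ • u ⊆ E`), so `nab E ⊆ E` (`nab_poly`) and the same contradiction.
-/

set_option autoImplicit false
set_option linter.unusedSectionVars false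

namespace MPadcDC

open TensorProduct MPadcLP MPadcHM

universe u

section step

variable {k : Type u} [Field k] [CharZero k] {H : Type u} [AddCommGroup H] [Module (RatFunc k) H]
  [Module (Polynomial k) H] [IsScalarTower (Polynomial k) (RatFunc k) H]

/-- The matrix of the connection in a basis of the lattice. -/
theorem stp_matrix {nab : H →+ H} (hleib : ∀ (f : RatFunc k) x, nab (f • x) = DZ k f • x + f • nab x)
    {δ : Polynomial k} (hδ : Irreducible δ) {E : Submodule (Polynomial k) H} {u : H} {p : Polynomial k}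
    (h : Stp nab δ E u p) (hH : ∃ h : H, h ≠ 0) (hnb : NB nab δ) :
    ∃ (r : ℕ) (b : Module.Basis (Fin r) (RatFunc k) H) (Em : Matrix (Fin r) (Fin r) (Polynomial k))
      (ε q : Fin r → Polynomial k),
      (∀ i j, algebraMap (Polynomial k) (RatFunc k) δ * b.repr (nab (b j)) i =
        algebraMap (Polynomial k) (RatFunc k) (ε i * q j + δ * Em i j)) ∧
      (δ ∣ (∑ i, ε i * q i) - p) ∧ (∃ i, ¬ δ ∣ ε i) ∧ (∃ j, ¬ δ ∣ q j) := by
  classical
  have hsm : ∀ (r : Polynomial k) (y : H), r • y = algebraMap (Polynomial k) (RatFunc k) r • y :=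
    fun r y => (algebraMap_smul (RatFunc k) r y).symm
  have hinj : ∀ r : Polynomial k, r ≠ 0 → algebraMap (Polynomial k) (RatFunc k) r ≠ 0 := by
    intro r hr h0
    exact hr ((map_eq_zero_iff _ (IsFractionRing.injective (Polynomial k) (RatFunc k))).mp h0)
  have hcan : ∀ (r : Polynomial k) (y : H), r ≠ 0 → r • y = 0 → y = 0 := by
    intro r y hr h0
    rw [hsm, smul_eq_zero] at h0
    exact h0.resolve_left (hinj r hr)
  have hstab : ¬ ∀ x ∈ E, nab x ∈ E := by
    intro hst
    have h0 : ∀ x ∈ E, x = 0 := by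
      intro x hx
      refine hnb E h.fg x fun n => ⟨1, fun hd => hδ.not_isUnit (isUnit_of_dvd_one hd), ?_⟩
      rw [one_smul]
      induction n with
      | zero => exact hx
      | succ n ih =>
        rw [Function.iterate_succ_apply']
        exact hst _ ih
    obtain ⟨y, hy⟩ := hH
    obtain ⟨r, hr, hry⟩ := h.spn y
    exact hy (hcan r y hr (h0 _ hry))
  have huE : u ∉ E := by
    intro hu
    apply hstab
    intro x hx
    obtain ⟨q, hq⟩ := h.nabE x hx
    have h1 := E.add_mem hq (E.smul_mem q hu)
    rwa [sub_add_cancel] at h1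
  have hideal : ∀ f : Polynomial k, f • u ∈ E → δ ∣ f := by
    intro f hf
    by_contra hnd
    obtain ⟨a, b, hab⟩ : IsCoprime δ f := (Irreducible.coprime_iff_not_dvd hδ).2 hnd
    apply huE
    have h1 : u = a • (δ • u) + b • (f • u) := by
      rw [← mul_smul, ← mul_smul, ← add_smul, hab, one_smul]
    rw [h1]
    exact E.add_mem (E.smul_mem _ h.du) (E.smul_mem _ hf)
  have hfin : Module.Finite (Polynomial k) E := Module.Finite.iff_fg.mpr h.fg
  have htf : Module.IsTorsionFree (Polynomial k) E := by
    refine Module.IsTorsionFree.of_smul_eq_zero ?_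
    intro r x h0
    rcases eq_or_ne r 0 with hr | hr
    · exact Or.inl hr
    · right
      have h1 : r • (x : H) = 0 := by
        rw [← Submodule.coe_smul, h0, Submodule.coe_zero]
      exact Subtype.ext (hcan r x hr h1)
  obtain ⟨r, e⟩ : Σ n, Module.Basis (Fin n) (Polynomial k) E := Module.basisOfFiniteTypeTorsionFree'
  have hlat : Submodule.IsLattice (RatFunc k) E := by
    refine ⟨h.fg, ?_⟩
    rw [eq_top_iff]
    intro y _
    obtain ⟨s, hs, hsy⟩ := h.spn y
    have h1 : y = (algebraMap (Polynomial k) (RatFunc k) s)⁻¹ • (s • y) := by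
      rw [hsm, smul_smul, inv_mul_cancel₀ (hinj s hs), one_smul]
    rw [h1]
    exact Submodule.smul_mem _ _ (Submodule.subset_span hsy)
  obtain ⟨b, hb⟩ : ∃ b : Module.Basis (Fin r) (RatFunc k) H, ∀ i, b i = (e i : H) :=
    ⟨e.extendOfIsLattice (RatFunc k), fun i => Module.Basis.extendOfIsLattice_apply _ _ _⟩
  have hsum : ∀ x : E, (x : H) = ∑ i, e.repr x i • b i := by
    intro x
    have h1 : ((∑ i, e.repr x i • e i : E) : H) = (x : H) := by rw [e.sum_repr x]
    rw [← h1, Submodule.coe_sum]
    refine Finset.sum_congr rfl fun i _ => ?_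
    rw [Submodule.coe_smul, hb]
  have hrepr : ∀ (x : E) i, b.repr (x : H) i = algebraMap (Polynomial k) (RatFunc k) (e.repr x i) := by
    intro x i
    have h1 : (x : H) = ∑ i, algebraMap (Polynomial k) (RatFunc k) (e.repr x i) • b i := by
      rw [hsum x]
      exact Finset.sum_congr rfl fun i _ => hsm _ _
    rw [h1, b.repr_sum_self]
  have hbE : ∀ i, b i ∈ E := by
    intro i
    rw [hb]
    exact (e i).2
  choose q hq using fun j => h.nabE (b j) (hbE j)
  obtain ⟨y, hy⟩ : ∃ y : Fin r → E, ∀ j, (y j : H) = nab (b j) - q j • u :=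
    ⟨fun j => ⟨nab (b j) - q j • u, hq j⟩, fun j => rfl⟩
  obtain ⟨du, hdu⟩ : ∃ du : E, (du : H) = δ • u := ⟨⟨δ • u, h.du⟩, rfl⟩
  have hnsum : ∀ c : Fin r → Polynomial k, nab (∑ i, c i • b i) =
      ∑ i, (Polynomial.derivative (c i) • b i + c i • nab (b i)) := by
    intro c
    rw [map_sum]
    exact Finset.sum_congr rfl fun i _ => nab_poly hleib _ _
  refine ⟨r, b, fun i j => e.repr (y j) i, fun i => e.repr du i, q, ?_, ?_, ?_, ?_⟩
  · intro i j
    have h1 : algebraMap (Polynomial k) (RatFunc k) δ • nab (b j) =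
        ((q j • du + δ • y j : E) : H) := by
      rw [Submodule.coe_add, Submodule.coe_smul, Submodule.coe_smul, hdu, hy, ← hsm, smul_sub,
        smul_comm (q j) δ u]
      abel
    have h2 : algebraMap (Polynomial k) (RatFunc k) δ * b.repr (nab (b j)) i =
        b.repr (algebraMap (Polynomial k) (RatFunc k) δ • nab (b j)) i := by
      rw [map_smul]
      rfl
    rw [h2, h1, hrepr]
    congr 1
    rw [map_add, map_smul, map_smul, Finsupp.add_apply, Finsupp.smul_apply, Finsupp.smul_apply,
      smul_eq_mul, smul_eq_mul, mul_comm (q j)]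
  · apply hideal
    have h1 : nab (δ • u) = ∑ i, (Polynomial.derivative (e.repr du i) • b i +
        e.repr du i • nab (b i)) := by
      rw [← hdu, hsum du]
      exact hnsum _
    have h2 : ∀ i, Polynomial.derivative (e.repr du i) • b i + e.repr du i • nab (b i) =
        (Polynomial.derivative (e.repr du i) • b i + e.repr du i • (y i : H)) +
          (e.repr du i * q i) • u := by
      intro i
      rw [hy, smul_sub, mul_smul]
      abel
    have h3 : ((∑ i, e.repr du i * q i) - p) • u = (nab (δ • u) - p • u) -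
        ∑ i, (Polynomial.derivative (e.repr du i) • b i + e.repr du i • (y i : H)) := by
      rw [h1, Finset.sum_congr rfl fun i _ => h2 i, Finset.sum_add_distrib (f := fun i =>
        Polynomial.derivative (e.repr du i) • b i + e.repr du i • (y i : H)), sub_smul,
        Finset.sum_smul]
      abel
    rw [h3]
    refine E.sub_mem h.pu (E.sum_mem fun i _ => E.add_mem (E.smul_mem _ (hbE i))
      (E.smul_mem _ (y i).2))
  · by_contra hcon
    push Not at hcon
    choose c hc using hcon
    apply huE
    have h1 : δ • (u - ∑ i, c i • b i) = 0 := by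
      rw [smul_sub, ← hdu, hsum du, Finset.smul_sum, ← Finset.sum_sub_distrib]
      refine Finset.sum_eq_zero fun i _ => ?_
      rw [hc i, mul_smul, sub_self]
    have h2 := hcan δ _ hδ.ne_zero h1
    rw [sub_eq_zero] at h2
    rw [h2]
    exact E.sum_mem fun i _ => E.smul_mem _ (hbE i)
  · by_contra hcon
    push Not at hcon
    choose c hc using hcon
    apply hstab
    have h1 : ∀ j, nab (b j) ∈ E := by
      intro j
      have h2 : nab (b j) = (y j : H) + c j • (du : H) := by
        rw [hy, hdu, ← mul_smul, mul_comm (c j), ← hc j]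
        abel
      rw [h2]
      exact E.add_mem (y j).2 (E.smul_mem _ du.2)
    intro x hx
    have h2 : nab x = ∑ i, (Polynomial.derivative (e.repr ⟨x, hx⟩ i) • b i +
        e.repr ⟨x, hx⟩ i • nab (b i)) := by
      have h3 := hsum ⟨x, hx⟩
      simp only at h3
      rw [← hnsum, ← h3]
    rw [h2]
    exact E.sum_mem fun i _ => E.add_mem (E.smul_mem _ (hbE i)) (E.smul_mem _ (h1 i))

end step

end MPadcDC
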