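import Pool.Agent.Lib.MP_adc574_ag_DC.LSer

/-!
# JOB LIndA (DC): the entries of a are independent

The same as JOB LIndL (read its header) for the dual connection: let `∑ z_i jE (a_i) = 0`, `z̃ = A q • z` with polynomial entries. CLAIM: for every `n` there is `y : ι → F⟦X⟧` with `jE (y i) = B ((nb2 ΓK)^[n] z̃ i)` and `∑ y_i a_i = 0`. Step: the constant coefficient of `∑_j Γ j i y_j` is `l_i(0) ∑_j a_j(0) y_j(0) = 0` (`h0`), so `∑_j Γ j i y_j = X * x_i`;
`y' i := derivative (y i) - x_i`. (a) `jE (y' i) = B (DZ (z' i) - ∑_j ΓK j i z' j)`. (b) `X ∑ y'_i a_i = 0`: `0 = X (∑ y_i a_i)' = ∑ X y_i' a_i + ∑ y_i (X a_i') = ∑ X y_i' a_i - ∑_i y_i ∑_j Γ i j a_j + C α ∑ y_i a_i = ∑_j a_j (X y_j' - ∑_i Γ i j y_i) = X ∑_j a_j y'_j` (`ha`). Then `inO_of_series` and `hnbd`.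
-/

set_option autoImplicit false
set_option linter.unusedSectionVars false

namespace MPadcDC

open TensorProduct MPadcLP MPadcHM

universe u

section pkg

variable {k : Type u} [Field k] [CharZero k] {ι : Type} [Fintype ι] [DecidableEq ι]

open PowerSeries in
theorem indep_a' {F E : Type u} [Field F] [Algebra k F] [Field E]
    [Algebra (RatFunc k) E] (τ : F) (δ : Polynomial k) (hδ0 : δ ≠ 0)
    (hτ : ∀ q : Polynomial k, Polynomial.aeval τ q = 0 → δ ∣ q) (hδ : Polynomial.aeval τ δ = 0)
    (G : Matrix ι ι (Polynomial k)) (Γ : Matrix ι ι F⟦X⟧)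
    (hΓ : ∀ i j, pl k τ δ * Γ i j = X * pl k τ (G i j)) (α : F)
    (a l : ι → F⟦X⟧)
    (ha : ∀ i, X * PowerSeries.derivative F (a i) = -(Γ.mulVec a i) + C α * a i)
    (h0 : ∀ i j, constantCoeff (Γ i j) = constantCoeff (a i) * constantCoeff (l j))
    (jE : F⟦X⟧ →+* E) (hinj : Function.Injective jE) (hjE : ∀ p : Polynomial k, jE (pl k τ p) =
      algebraMap (RatFunc k) E (algebraMap (Polynomial k) (RatFunc k) p))
    (ΓK : Matrix ι ι (RatFunc k))
    (hΓK : ∀ i j, algebraMap (Polynomial k) (RatFunc k) δ * ΓK i j =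
      algebraMap (Polynomial k) (RatFunc k) (G i j))
    (hnbd : ∀ z : ι → RatFunc k, (∀ n : ℕ, ∀ i, InO δ ((nb2 ΓK)^[n] z i)) → z = 0) :
    LinearIndependent (RatFunc k) fun i => jE (a i) := by
  classical
  obtain ⟨A, hAd⟩ : ∃ A, A = algebraMap (Polynomial k) (RatFunc k) := ⟨_, rfl⟩
  obtain ⟨B, hBd⟩ : ∃ B, B = algebraMap (RatFunc k) E := ⟨_, rfl⟩
  have hA0 : ∀ p : Polynomial k, p ≠ 0 → A p ≠ 0 := by
    intro p hp h
    rw [hAd] at h
    exact hp ((map_eq_zero_iff _ (IsFractionRing.injective (Polynomial k) (RatFunc k))).1 h)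
  have hB0 : ∀ f : RatFunc k, f ≠ 0 → B f ≠ 0 := by
    intro f hf h
    exact hf ((map_eq_zero_iff B B.injective).1 h)
  have hjE' : ∀ p : Polynomial k, jE (pl k τ p) = B (A p) := by
    intro p
    rw [hAd, hBd]
    exact hjE p
  have hX0 : jE X ≠ 0 := by
    intro h
    exact X_ne_zero (hinj (h.trans (map_zero jE).symm))
  have hΓE : ∀ i j, jE (Γ i j) = jE X * B (ΓK i j) := by
    intro i j
    have h1 := congrArg jE (hΓ i j)
    rw [map_mul, map_mul, hjE', hjE'] at h1
    have h2 := hΓK i j
    rw [← hAd] at h2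
    rw [← h2, map_mul] at h1
    refine mul_left_cancel₀ (hB0 _ (hA0 δ hδ0)) ?_
    rw [h1]
    ring
  rw [Fintype.linearIndependent_iff]
  intro z hz
  have hz' : ∑ i, B (z i) * jE (a i) = 0 := by
    rw [← hz]
    refine Finset.sum_congr rfl fun i _ => ?_
    rw [Algebra.smul_def, hBd]
  obtain ⟨⟨q, hq⟩, hqw⟩ := IsLocalization.exist_integer_multiples_of_finite
    (nonZeroDivisors (Polynomial k)) z
  have hq0 : q ≠ 0 := nonZeroDivisors.ne_zero hq
  choose v hv using hqw
  have hv' : ∀ i, A (v i) = A q * z i := by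
    intro i
    have h1 := hv i
    rw [Algebra.smul_def] at h1
    rw [hAd]
    exact h1
  obtain ⟨w, hw⟩ : ∃ w : ι → RatFunc k, w = fun i => A (v i) := ⟨_, rfl⟩
  have key : ∀ n : ℕ, ∃ y : ι → F⟦X⟧, (∀ i, jE (y i) = B ((nb2 ΓK)^[n] w i)) ∧
      ∑ i, y i * a i = 0 := by
    intro n
    induction n with
    | zero =>
      refine ⟨fun i => pl k τ (v i), fun i => ?_, ?_⟩
      · rw [hjE', Function.iterate_zero_apply, hw]
      · apply hinj
        rw [map_sum, map_zero]
        have h1 : ∀ i, jE (pl k τ (v i) * a i) = B (A q) * (B (z i) * jE (a i)) := by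
          intro i
          rw [map_mul, hjE', hv', map_mul, mul_assoc]
        rw [Finset.sum_congr rfl fun i _ => h1 i, ← Finset.mul_sum, hz', mul_zero]
    | succ n ih =>
      obtain ⟨y, hy, hya⟩ := ih
      obtain ⟨z', hz'd⟩ : ∃ z', z' = (nb2 ΓK)^[n] w := ⟨_, rfl⟩
      rw [← hz'd] at hy
      rw [Function.iterate_succ_apply', ← hz'd]
      have hdvd : ∀ i, ∃ x : F⟦X⟧, ∑ j, Γ j i * y j = X * x := by
        intro i
        have h1 : constantCoeff (∑ j, Γ j i * y j) = 0 := by
          rw [map_sum]
          have h2 : ∀ j, constantCoeff (Γ j i * y j) =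
              constantCoeff (l i) * constantCoeff (y j * a j) := by
            intro j
            rw [map_mul, h0, map_mul]
            ring
          rw [Finset.sum_congr rfl fun j _ => h2 j, ← Finset.mul_sum, ← map_sum, hya, map_zero,
            mul_zero]
        exact X_dvd_iff.2 h1
      choose x hx using hdvd
      refine ⟨fun i => PowerSeries.derivative F (y i) - x i, fun i => ?_, ?_⟩
      · have h1 : jE (PowerSeries.derivative F (y i)) = B (DZ k (z' i)) := by
          rw [hBd]
          refine jE_deriv τ jE hinj hjE (y i) (z' i) ?_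
          rw [hy, hBd]
        have h2 : jE (x i) = B (∑ j, ΓK j i * z' j) := by
          refine mul_left_cancel₀ hX0 ?_
          rw [← map_mul, ← hx, map_sum, map_sum, Finset.mul_sum]
          refine Finset.sum_congr rfl fun j _ => ?_
          rw [map_mul, hΓE, hy, map_mul, mul_assoc]
        rw [map_sub, h1, h2, ← map_sub]
        rfl
      · have h1 : PowerSeries.derivative F (∑ i, y i * a i) = 0 := by rw [hya, map_zero]
        rw [map_sum] at h1
        have h2 : ∀ i, X * PowerSeries.derivative F (y i * a i) =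
            X * (PowerSeries.derivative F (y i) * a i) - (y i * ∑ j, Γ i j * a j) +
              C α * (y i * a i) := by
          intro i
          have h3 := ha i
          rw [Derivation.leibniz, smul_eq_mul, smul_eq_mul]
          have h4 : Γ.mulVec a i = ∑ j, Γ i j * a j := rfl
          rw [h4] at h3
          calc X * (y i * PowerSeries.derivative F (a i) + a i * PowerSeries.derivative F (y i))
              = y i * (X * PowerSeries.derivative F (a i)) +
                X * (PowerSeries.derivative F (y i) * a i) := by ring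
            _ = _ := by rw [h3]; ring
        have h3 : ∑ i, X * (PowerSeries.derivative F (y i) * a i) =
            ∑ i, y i * ∑ j, Γ i j * a j := by
          have h4 : X * ∑ i, PowerSeries.derivative F (y i * a i) = 0 := by rw [h1, mul_zero]
          rw [Finset.mul_sum, Finset.sum_congr rfl fun i _ => h2 i, Finset.sum_add_distrib,
            Finset.sum_sub_distrib, ← Finset.mul_sum (s := Finset.univ) (a := C α), hya,
            mul_zero, add_zero] at h4
          exact sub_eq_zero.1 h4
        have h4 : ∑ i, y i * ∑ j, Γ i j * a j = ∑ i, X * (x i * a i) := by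
          simp only [Finset.mul_sum]
          rw [Finset.sum_comm]
          refine Finset.sum_congr rfl fun i _ => ?_
          rw [← mul_assoc, ← hx, Finset.sum_mul]
          refine Finset.sum_congr rfl fun j _ => ?_
          ring
        have h5 : X * ∑ i, (PowerSeries.derivative F (y i) - x i) * a i = 0 := by
          rw [Finset.mul_sum]
          have h6 : ∀ i, X * ((PowerSeries.derivative F (y i) - x i) * a i) =
              X * (PowerSeries.derivative F (y i) * a i) - X * (x i * a i) := by
            intro i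
            ring
          rw [Finset.sum_congr rfl fun i _ => h6 i, Finset.sum_sub_distrib, h3, h4, sub_self]
        exact (mul_eq_zero.1 h5).resolve_left X_ne_zero
  have h1 := hnbd w fun n i => by
    obtain ⟨y, hy, _⟩ := key n
    refine inO_of_series τ δ hτ hδ jE hinj hjE (y i) _ ?_
    rw [hy, hBd]
  intro i
  have h2 := congrFun h1 i
  rw [hw, Pi.zero_apply] at h2
  have h3 : A q * z i = 0 := (hv' i).symm.trans h2
  exact (mul_eq_zero.1 h3).resolve_left (hA0 q hq0)

end pkg

end MPadcDC
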