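import Pool.Agent.Lib.MP_adc574_ag_DC.LIndL
import Pool.Agent.Lib.MP_adc574_ag_DC.LIndA

/-!
# JOB LPkg (DC): the local package

Copy `MPadcHM.asmA_main` and `local_package` (Pool/Agent/Lib/MP_adc574_ag_HM/AsmA.lean) with these changes: `F := AdjoinRoot δ`, `τ := AdjoinRoot.root δ` (`Fact (Irreducible δ)`), `α ∈ F` directly (instead of `algebraMap κ F α`; `exists_series_a`, `exists_series_l`, `series_pair`, `loc_final` take `α : F` with `α = 0 ∨ ∀ m : ℤ, α ≠ m`);
`aeval τ q = 0 ↔ δ ∣ q` (`AdjoinRoot.aeval_eq`, `AdjoinRoot.mk_eq_zero`); `aeval τ δ' ≠ 0` (separable in characteristic 0). `∑ l0 i * a0 i = α` from `hα` (`AdjoinRoot.aeval_eq`). The independence from `indep_a'`, `indep_l'` instead of `indep_a`, `indep_l` (`h00` is their hypothesis `h0`).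
-/

set_option autoImplicit false
set_option linter.unusedSectionVars false

namespace MPadcDC

open TensorProduct MPadcLP MPadcHM

universe u

open PowerSeries in
private theorem LPkg_unit {κ F : Type u} [Field κ] [Field F] [Algebra κ F] (τ : F)
    (δ : Polynomial κ) (hδ : Polynomial.aeval τ δ = 0) :
    ∃ v : F⟦X⟧, pl κ τ δ = X * v ∧
      constantCoeff v = Polynomial.aeval τ (Polynomial.derivative δ) := by
  have h1 : (X : F⟦X⟧) ∣ pl κ τ δ := by
    rw [PowerSeries.X_dvd_iff, constantCoeff_pl, hδ]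
  obtain ⟨v, hv⟩ := h1
  refine ⟨v, hv, ?_⟩
  have h2 := congrArg (fun f => constantCoeff (PowerSeries.derivative F f)) hv
  simp only [pl_derivative, Derivation.leibniz, smul_eq_mul, map_add, map_mul,
    constantCoeff_X, zero_mul, zero_add, PowerSeries.derivative_X, mul_one,
    constantCoeff_pl] at h2
  exact h2.symm

open PowerSeries in
private theorem LPkg_main {κ F : Type u} [Field κ] [CharZero κ] [Field F] [Algebra κ F] (τ : F)
    (δ : Polynomial κ) (hδ0 : δ ≠ 0) (hτ : ∀ q : Polynomial κ, Polynomial.aeval τ q = 0 → δ ∣ q)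
    (hδ : Polynomial.aeval τ δ = 0)
    (hδ' : Polynomial.aeval τ (Polynomial.derivative δ) ≠ 0) {r : ℕ}
    (G Em : Matrix (Fin r) (Fin r) (Polynomial κ))
    (ε p : Fin r → Polynomial κ) (hG : ∀ i j, G i j = ε i * p j + δ * Em i j) (α : F)
    (hα : Polynomial.aeval τ (∑ i, ε i * p i) =
      α * Polynomial.aeval τ (Polynomial.derivative δ))
    (hα' : α = 0 ∨ ∀ m : ℤ, α ≠ m)
    (ΓK : Matrix (Fin r) (Fin r) (RatFunc κ))
    (hΓK : ∀ i j, algebraMap (Polynomial κ) (RatFunc κ) δ * ΓK i j =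
      algebraMap (Polynomial κ) (RatFunc κ) (G i j))
    (hnb : ∀ w : Fin r → RatFunc κ, (∀ n : ℕ, ∀ i, InO δ ((nb1 ΓK)^[n] w i)) → w = 0)
    (hnbd : ∀ z : Fin r → RatFunc κ, (∀ n : ℕ, ∀ i, InO δ ((nb2 ΓK)^[n] z i)) → z = 0) :
    ∃ (E : Type u) (_ : Field E) (_ : Algebra (RatFunc κ) E) (a l : Fin r → E),
      LinearIndependent (RatFunc κ) a ∧ LinearIndependent (RatFunc κ) l ∧
      ∀ (g : ℕ) (c : (Fin g → Fin r) → RatFunc κ), Alt c →
        ∀ μ : (Fin g → Fin r) → RatFunc κ,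
        (∀ k : ℕ, μ ⬝ᵥ ((nabT (DZ κ) 1 ΓK)^[k] c) = 0) →
        (fun J => algebraMap (RatFunc κ) E (μ J)) ⬝ᵥ
          act (Matrix.vecMulVec a l) (fun J => algebraMap (RatFunc κ) E (c J)) = 0 := by
  have hchar : CharZero F := charZero_of_injective_algebraMap (algebraMap κ F).injective
  obtain ⟨v, hv, hv0⟩ := LPkg_unit τ δ hδ
  have hvne : constantCoeff v ≠ 0 := by
    rw [hv0]
    exact hδ'
  -- the connection matrix
  set Γ : Matrix (Fin r) (Fin r) F⟦X⟧ := Matrix.of fun i j => v⁻¹ * pl κ τ (G i j) with hΓdef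
  have hΓ : ∀ i j, pl κ τ δ * Γ i j = X * pl κ τ (G i j) := by
    intro i j
    change pl κ τ δ * (v⁻¹ * pl κ τ (G i j)) = X * pl κ τ (G i j)
    have h1 := PowerSeries.mul_inv_cancel v hvne
    calc pl κ τ δ * (v⁻¹ * pl κ τ (G i j)) = X * (v * v⁻¹) * pl κ τ (G i j) := by
          rw [hv]
          ring
      _ = X * pl κ τ (G i j) := by rw [h1, mul_one]
  set a0 : Fin r → F := fun i => Polynomial.aeval τ (ε i) with ha0
  set l0 : Fin r → F := fun j =>
    (Polynomial.aeval τ (Polynomial.derivative δ))⁻¹ * Polynomial.aeval τ (p j) with hl0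
  have hΓ0 : ∀ i j, constantCoeff (Γ i j) = a0 i * l0 j := by
    intro i j
    change constantCoeff (v⁻¹ * pl κ τ (G i j)) = Polynomial.aeval τ (ε i) *
      ((Polynomial.aeval τ (Polynomial.derivative δ))⁻¹ * Polynomial.aeval τ (p j))
    rw [map_mul, PowerSeries.constantCoeff_inv, hv0, constantCoeff_pl, hG, map_add, map_mul,
      map_mul, hδ, zero_mul, add_zero]
    ring
  have hsum : ∑ i, l0 i * a0 i = α := by
    have h1 := hα
    rw [map_sum] at h1
    have h2 : ∑ i, l0 i * a0 i = (Polynomial.aeval τ (Polynomial.derivative δ))⁻¹ *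
        ∑ i, Polynomial.aeval τ (ε i * p i) := by
      rw [Finset.mul_sum]
      refine Finset.sum_congr rfl fun i _ => ?_
      rw [map_mul]
      change (Polynomial.aeval τ (Polynomial.derivative δ))⁻¹ * Polynomial.aeval τ (p i) *
        Polynomial.aeval τ (ε i) = _
      ring
    rw [h2, h1, mul_comm, mul_assoc, mul_inv_cancel₀ hδ', mul_one]
  obtain ⟨a, haa, ha⟩ := exists_series_a Γ a0 l0 α hΓ0 hsum hα'
  obtain ⟨l, hll, hl⟩ := exists_series_l Γ a0 l0 α hΓ0 hsum hα'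
  have hla : ∑ i, l i * a i = C α := by
    refine series_pair Γ α a l ha hl ?_
    rw [← hsum]
    refine Finset.sum_congr rfl fun i _ => ?_
    rw [haa, hll]
  have h00 : ∀ i j, constantCoeff (Γ i j) = constantCoeff (a i) * constantCoeff (l j) := by
    intro i j
    rw [hΓ0, haa, hll]
  -- the field
  have hjEinj : Function.Injective (algebraMap F⟦X⟧ (FractionRing F⟦X⟧)) :=
    IsFractionRing.injective F⟦X⟧ (FractionRing F⟦X⟧)
  have hPinj : Function.Injective ((algebraMap F⟦X⟧ (FractionRing F⟦X⟧)).comp (pl κ τ)) := by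
    intro x y hxy
    exact pl_injective τ (hjEinj hxy)
  let ψ : RatFunc κ →+* FractionRing F⟦X⟧ := IsFractionRing.lift hPinj
  let algE : Algebra (RatFunc κ) (FractionRing F⟦X⟧) := ψ.toAlgebra
  have hjE : ∀ q : Polynomial κ, algebraMap F⟦X⟧ (FractionRing F⟦X⟧) (pl κ τ q) =
      algebraMap (RatFunc κ) (FractionRing F⟦X⟧) (algebraMap (Polynomial κ) (RatFunc κ) q) := by
    intro q
    exact (IsFractionRing.lift_algebraMap hPinj q).symm
  refine ⟨FractionRing F⟦X⟧, inferInstance, algE,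
    fun i => algebraMap F⟦X⟧ (FractionRing F⟦X⟧) (a i),
    fun i => algebraMap F⟦X⟧ (FractionRing F⟦X⟧) (l i), ?_, ?_, ?_⟩
  · exact indep_a' τ δ hδ0 hτ hδ G Γ hΓ α a l ha h00
      (algebraMap F⟦X⟧ (FractionRing F⟦X⟧)) hjEinj hjE ΓK hΓK hnbd
  · exact indep_l' τ δ hδ0 hτ hδ G Γ hΓ α a l hl h00
      (algebraMap F⟦X⟧ (FractionRing F⟦X⟧)) hjEinj hjE ΓK hΓK hnb
  · intro g c hc μ hμ
    exact loc_final τ δ hδ hδ' G Γ hΓ α hα' a l ha hl hla h00
      (algebraMap F⟦X⟧ (FractionRing F⟦X⟧)) hjE ΓK hΓK g c hc μ hμ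

section pkg

variable {k : Type u} [Field k] [CharZero k]

theorem local_pkg (δ : Polynomial k) (hδ : Irreducible δ) {r : ℕ}
    (G Em : Matrix (Fin r) (Fin r) (Polynomial k))
    (ε p : Fin r → Polynomial k) (hG : ∀ i j, G i j = ε i * p j + δ * Em i j) (α : AdjoinRoot δ)
    (hα : AdjoinRoot.mk δ (∑ i, ε i * p i) = α * AdjoinRoot.mk δ (Polynomial.derivative δ))
    (hα' : α = 0 ∨ ∀ m : ℤ, α ≠ m)
    (ΓK : Matrix (Fin r) (Fin r) (RatFunc k))
    (hΓK : ∀ i j, algebraMap (Polynomial k) (RatFunc k) δ * ΓK i j =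
      algebraMap (Polynomial k) (RatFunc k) (G i j))
    (hnb : ∀ w : Fin r → RatFunc k, (∀ n : ℕ, ∀ i, InO δ ((nb1 ΓK)^[n] w i)) → w = 0)
    (hnbd : ∀ z : Fin r → RatFunc k, (∀ n : ℕ, ∀ i, InO δ ((nb2 ΓK)^[n] z i)) → z = 0) :
    ∃ (E : Type u) (_ : Field E) (_ : Algebra (RatFunc k) E) (a l : Fin r → E),
      LinearIndependent (RatFunc k) a ∧ LinearIndependent (RatFunc k) l ∧
      ∀ (g : ℕ) (c : (Fin g → Fin r) → RatFunc k), Alt c →
        ∀ μ : (Fin g → Fin r) → RatFunc k,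
        (∀ n : ℕ, μ ⬝ᵥ ((nabT (DZ k) 1 ΓK)^[n] c) = 0) →
        (fun J => algebraMap (RatFunc k) E (μ J)) ⬝ᵥ
          act (Matrix.vecMulVec a l) (fun J => algebraMap (RatFunc k) E (c J)) = 0 := by
  have : Fact (Irreducible δ) := ⟨hδ⟩
  have hroot : Polynomial.aeval (AdjoinRoot.root δ) δ = 0 := by
    rw [AdjoinRoot.aeval_eq, AdjoinRoot.mk_self]
  have hτ : ∀ q : Polynomial k, Polynomial.aeval (AdjoinRoot.root δ) q = 0 → δ ∣ q := by
    intro q hq
    rwa [AdjoinRoot.aeval_eq, AdjoinRoot.mk_eq_zero] at hq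
  have hδ' : Polynomial.aeval (AdjoinRoot.root δ) (Polynomial.derivative δ) ≠ 0 := by
    intro h
    obtain ⟨u, w, huw⟩ := hδ.separable
    have h2 := congrArg (Polynomial.aeval (AdjoinRoot.root δ)) huw
    rw [map_add, map_mul, map_mul, hroot, h, mul_zero, mul_zero, add_zero, map_one] at h2
    exact zero_ne_one h2
  refine LPkg_main (AdjoinRoot.root δ) δ hδ.ne_zero hτ hroot hδ' G Em ε p hG α ?_ hα' ΓK hΓK
    hnb hnbd
  rw [AdjoinRoot.aeval_eq, AdjoinRoot.aeval_eq]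
  exact hα

end pkg

end MPadcDC
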