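import Pool.Agent.Lib.MP_adc574_ag_DC.LStp2
import Pool.Agent.Lib.MP_adc574_ag_DC.LMat
import Pool.Agent.Lib.MP_adc574_ag_DC.LPkg
import Pool.Agent.Lib.MP_adc574_ag_DC.LCoord

/-!
# JOB LMain (DC): the package for a step lattice, the key lemma over k(t)

* `lmain`: `stp_shift` gives `E', u', p', α`; `stp_matrix` for them gives `r, b, Em, ε, q`; `local_pkg` with `G i j = ε i * q j + δ * Em i j`, `ΓK = Matrix.of fun i j => b.repr (nab (b j)) i`; `hα`: `mk δ (∑ ε i q i) = mk δ p'` (`δ ∣ difference`); `hnb`, `hnbd` from `nb_coord`, `nbd_coord`.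
* `lkey`: if `H = 0` (all `h = 0`): `hf` forces `g = 0` (a zero vector is not independent), and the determinant of an empty matrix is `1`. Otherwise `lmain` gives `r, b, F, a, l`. `IsDomain (L ⊗[RatFunc k] F)` by `MPadcHM.isDomain_tensor hcl`. Apply `MPadcBK.key_gen` with `K := RatFunc k`, `E := F`, `DK' := DZ k`, `ι := Fin r`, `Γ := ΓK`, `c v j := cv v (b j)`,
  `f u i := b.repr (f u) i`: `hc`: `hst v (b j)` and `cv v (nab (b j)) = ∑ i, ΓK i j * cv v (b i)` (linearity; `smul = algebraMap *`). `hci`: `∑ lam v * cv v (b j) = 0` for all `j` implies `∑ lam v * cv v x = 0` for all `x`, so `lam = 0` (`Fintype.linearIndependent_iff`, functions `c v : Fin r → L`). `hf`: `b.repr` (`b.equivFun`) is an isomorphism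
  (`LinearIndependent.map'`). The determinant: `∑ i, cv v (b i) * algebraMap (b.repr (f u) i) = cv v (f u)`.
-/

set_option autoImplicit false
set_option linter.unusedSectionVars false

namespace MPadcDC

open TensorProduct MPadcLP MPadcHM

universe u

section main1

variable {k : Type u} [Field k] [CharZero k] {H : Type u} [AddCommGroup H] [Module (RatFunc k) H]
  [Module (Polynomial k) H] [IsScalarTower (Polynomial k) (RatFunc k) H]


private theorem lmain_expand {L : Type u} [Field L] [Algebra (RatFunc k) L] {r : ℕ}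
    (b : Module.Basis (Fin r) (RatFunc k) H) (c : H →ₗ[RatFunc k] L) (x : H) :
    c x = ∑ i, c (b i) * algebraMap (RatFunc k) L (b.repr x i) := by
  conv_lhs => rw [← b.sum_repr x]
  rw [map_sum]
  refine Finset.sum_congr rfl fun i _ => ?_
  rw [map_smul, Algebra.smul_def, mul_comm]

theorem lmain {nab : H →+ H} (hleib : ∀ (f : RatFunc k) x, nab (f • x) = DZ k f • x + f • nab x)
    {δ : Polynomial k} (hδ : Irreducible δ) {E : Submodule (Polynomial k) H} {u : H} {p : Polynomial k}
    (h : Stp nab δ E u p) (hH : ∃ h : H, h ≠ 0) (hnb : NB nab δ) (hnbd : NBD nab δ) :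
    ∃ (r : ℕ) (b : Module.Basis (Fin r) (RatFunc k) H) (F : Type u) (_ : Field F) (_ : Algebra (RatFunc k) F)
      (a l : Fin r → F),
      LinearIndependent (RatFunc k) a ∧ LinearIndependent (RatFunc k) l ∧
      ∀ (g : ℕ) (c : (Fin g → Fin r) → RatFunc k), Alt c →
        ∀ μ : (Fin g → Fin r) → RatFunc k,
        (∀ n : ℕ, μ ⬝ᵥ ((nabT (DZ k) 1 (Matrix.of fun i j => b.repr (nab (b j)) i))^[n] c) = 0) →
        (fun J => algebraMap (RatFunc k) F (μ J)) ⬝ᵥ
          act (Matrix.vecMulVec a l) (fun J => algebraMap (RatFunc k) F (c J)) = 0 := by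

  obtain ⟨E', u', p', α, hS, hα, hα'⟩ := stp_shift hleib hδ h
  obtain ⟨r, b, Em, ε, q, h1, h2, h3, h4⟩ := stp_matrix hleib hδ hS hH hnb
  have hα2 : AdjoinRoot.mk δ (∑ i, ε i * q i) = α * AdjoinRoot.mk δ (Polynomial.derivative δ) := by
    rw [← hα, AdjoinRoot.mk_eq_mk]
    exact h2
  obtain ⟨F, i1, i2, a, l, ha, hl, hm⟩ := local_pkg δ hδ
    (Matrix.of fun i j => ε i * q j + δ * Em i j) Em ε q (fun i j => rfl) α hα2 hα'
    (Matrix.of fun i j => b.repr (nab (b j)) i) (fun i j => h1 i j)
    (fun w hw => nb_coord hleib hδ hnb b w hw) (fun z hz => nbd_coord hleib hδ hnbd b z hz)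
  exact ⟨r, b, F, i1, i2, a, l, ha, hl, hm⟩

/-- The key lemma over `k(t)`. -/
theorem lkey {nab : H →+ H} (hleib : ∀ (f : RatFunc k) x, nab (f • x) = DZ k f • x + f • nab x)
    {δ : Polynomial k} (hδ : Irreducible δ) {E : Submodule (Polynomial k) H} {u : H} {p : Polynomial k}
    (h : Stp nab δ E u p) (hnb : NB nab δ) (hnbd : NBD nab δ)
    {L : Type u} [Field L] [Algebra (RatFunc k) L]
    (hcl : ∀ x : L, IsAlgebraic (RatFunc k) x → x ∈ (algebraMap (RatFunc k) L).range) (DL : Derivation ℤ L L)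
    (hDL : ∀ x, DL (algebraMap (RatFunc k) L x) = algebraMap (RatFunc k) L (DZ k x)) {g : ℕ}
    (cv : Fin g → H →ₗ[RatFunc k] L)
    (hci : ∀ lam : Fin g → L, (∀ x, ∑ v, lam v * cv v x = 0) → lam = 0)
    (ν : Matrix (Fin g) (Fin g) L)
    (hst : ∀ v x, DL (cv v x) = cv v (nab x) + ∑ v', ν v v' * cv v' x) (f : Fin g → H)
    (hf : LinearIndependent (RatFunc k) f) :
    (Matrix.of fun v u : Fin g => cv v (f u)).det ≠ 0 := by

  classical
  by_cases hH : ∃ h : H, h ≠ 0
  swap
  · push Not at hH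
    rcases Nat.eq_zero_or_pos g with hg | hg
    · subst hg
      rw [Matrix.det_isEmpty]
      exact one_ne_zero
    · exact absurd (hH (f ⟨0, hg⟩)) (hf.ne_zero _)
  obtain ⟨r, b, F, i1, i2, a, l, ha, hl, hm⟩ := lmain hleib hδ h hH hnb hnbd
  have hdom : IsDomain (L ⊗[RatFunc k] F) := isDomain_tensor hcl
  have hc : ∀ v j, DL (cv v (b j)) =
      ∑ i, cv v (b i) * algebraMap (RatFunc k) L
        ((Matrix.of fun i j => b.repr (nab (b j)) i : Matrix (Fin r) (Fin r) (RatFunc k)) i j) +
        ∑ v', ν v v' * cv v' (b j) := by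
    intro v j
    rw [hst v (b j), lmain_expand b (cv v) (nab (b j))]
    rfl
  have hci' : LinearIndependent L (fun (v : Fin g) (j : Fin r) => cv v (b j)) := by
    rw [Fintype.linearIndependent_iff]
    intro lam hlam v
    have h0 : ∀ j, ∑ v, lam v * cv v (b j) = 0 := by
      intro j
      have h1 := congrFun hlam j
      rw [Finset.sum_apply] at h1
      exact h1
    have h2 := hci lam fun x => by
      have h3 : ∀ v ∈ Finset.univ, lam v * cv v x =
          ∑ j, (lam v * cv v (b j)) * algebraMap (RatFunc k) L (b.repr x j) := by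
        intro v _
        rw [lmain_expand b (cv v) x, Finset.mul_sum]
        exact Finset.sum_congr rfl fun j _ => by ring
      rw [Finset.sum_congr rfl h3, Finset.sum_comm]
      refine Finset.sum_eq_zero fun j _ => ?_
      rw [← Finset.sum_mul, h0 j, zero_mul]
    rw [h2]
    rfl
  have hf' : LinearIndependent (RatFunc k) (fun (u : Fin g) (i : Fin r) => b.repr (f u) i) :=
    hf.map' b.equivFun.toLinearMap (LinearEquiv.ker _)
  have hkey := MPadcBK.key_gen (DZ k) DL hDL (Matrix.of fun i j => b.repr (nab (b j)) i) a l ha hl hm g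
    (fun v j => cv v (b j)) ν hc hci' (fun u i => b.repr (f u) i) hf'
  have hmat : (Matrix.of fun v u : Fin g => cv v (f u)) =
      Matrix.of fun v u : Fin g => ∑ i, cv v (b i) * algebraMap (RatFunc k) L (b.repr (f u) i) := by
    ext v u
    exact lmain_expand b (cv v) (f u)
  rw [hmat]
  exact hkey

end main1

end MPadcDC
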