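import Pool.Agent.Lib.MP_adc574_ag_DC.LBri1
import Pool.Agent.Lib.MP_adc574_ag_DC.LBri3
import Pool.Agent.Lib.MP_adc574_ag_DC.LMain
import Pool.Agent.Lib.MP_adc574_ag_DC.AIrr1

/-!
# JOB LPos (DC): the key lemma

If `H = 0`: `hf` forces `g = 0`, the determinant is `1`. Otherwise `principal` gives `π` prime with `P = span {π}`; `hB.gen π` gives `γ₀`, `pderiv γ₀ π ∉ P`, `α`, the generation. `exists_bri γ₀ π` (with `dK γ₀`, `hC.dK_alg γ₀`) gives `k, i, φ, hb`. Module structures on `H`: `let _ : Module (RatFunc k) H := Module.compHom H (φ.symm : RatFunc k →+* K)`,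
`let _ : Module (Polynomial k) H := Module.compHom H (algebraMap (Polynomial k) (RatFunc k))`, `IsScalarTower (Polynomial k) (RatFunc k) H` (`IsScalarTower.of_algebraMap_smul fun _ _ => rfl`), `hφ : φ f • x = f • x` (`φ.symm (φ f) = f`). On `L`: `let _ : Algebra (RatFunc k) L := ((algebraMap K L).comp (φ.symm : RatFunc k →+* K)).toAlgebra`. `bri_stp` (its `hgen`
is the case `k = 0` of the generation), `bri_nb`, `bri_nbd`, `bri_leib`; apply `lkey` with `DL := DL γ₀`, `ν` chosen from `hst γ₀ v`, the linear maps `cv v` as `RatFunc k`-linear maps (`{ toFun := cv v, map_smul' }`: `f • x = φ.symm f • x`), `hcl`: an element of `L` algebraic over `RatFunc k` is algebraic over `K` (transport a polynomial along `φ.symm`: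
`IsAlgebraic` with `Polynomial.map`), `hDL`: `DL γ₀ (algebraMap K L (φ.symm x)) = algebraMap K L (dK γ₀ (φ.symm x))` and `dK γ₀ (φ.symm x) = φ.symm (DZ k x)` (`hb.dphi`), `hf`: independence over `K` gives independence over `RatFunc k` (`Fintype.linearIndependent_iff`).
-/

set_option autoImplicit false
set_option linter.unusedSectionVars false

namespace MPadcDC

open TensorProduct MPadcLP MPadcHM

universe u

section key

open MvPolynomial

variable {κ : Type u} [Field κ] [CharZero κ] {Γ : Type} [Fintype Γ] [DecidableEq Γ] {V : Type u}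
  [AddCommGroup V] [Module κ V] {K : Type u} [Field K] [Algebra (MvPolynomial Γ κ) K]
  [IsFractionRing (MvPolynomial Γ κ) K] {H : Type u} [AddCommGroup H] [Module K H]
  [Module (MvPolynomial Γ κ) H] [IsScalarTower (MvPolynomial Γ κ) K H]
  {G : Cx κ Γ V} {m : ℕ} {P : Ideal (MvPolynomial Γ κ)} {k₀ : ℕ} {dK : Γ → Derivation ℤ K K}
  {nab : Γ → H →+ H} {c : V →+ H}

theorem keypos (hG : G.Ok) (hB : G.Bad m P k₀) (hC : Con G m dK nab c) {L : Type u} [Field L] [Algebra K L]
    (hcl : ∀ x : L, IsAlgebraic K x → x ∈ (algebraMap K L).range) (DL : Γ → Derivation ℤ L L)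
    (hDL : ∀ γ x, DL γ (algebraMap K L x) = algebraMap K L (dK γ x)) {g : ℕ} (cv : Fin g → H →ₗ[K] L)
    (hci : ∀ lam : Fin g → L, (∀ x, ∑ v, lam v * cv v x = 0) → lam = 0)
    (hst : ∀ γ v, ∃ ν : Fin g → L, ∀ x, DL γ (cv v x) = cv v (nab γ x) + ∑ v', ν v' * cv v' x)
    (f : Fin g → H) (hf : LinearIndependent K f) : (Matrix.of fun v u : Fin g => cv v (f u)).det ≠ 0 := by
  classical
  by_cases hH : ∃ h : H, h ≠ 0
  swap
  · have hg : g = 0 := by
      rcases Nat.eq_zero_or_pos g with h | h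
      · exact h
      · exact absurd ⟨f ⟨0, h⟩, hf.ne_zero _⟩ hH
    subst hg
    rw [Matrix.det_isEmpty]
    exact one_ne_zero
  obtain ⟨π, hπ, hP⟩ := principal hG hB hC hH
  obtain ⟨γ₀, hγ, α, hα, hgen⟩ := hB.gen π hP
  have hγ0 : pderiv γ₀ π ≠ 0 := by
    intro h
    apply hγ
    rw [h]
    exact P.zero_mem
  obtain ⟨k, _, _, i, φ, hb⟩ := exists_bri γ₀ π hπ hγ0 (dK γ₀) (hC.dK_alg γ₀)
  let _ : Module (RatFunc k) H := Module.compHom H (φ.symm : RatFunc k →+* K)
  let _ : Module (Polynomial k) H := Module.compHom H (algebraMap (Polynomial k) (RatFunc k))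
  have _ : IsScalarTower (Polynomial k) (RatFunc k) H := IsScalarTower.of_algebraMap_smul fun _ _ => rfl
  have hsm : ∀ (y : RatFunc k) (x : H), y • x = φ.symm y • x := fun _ _ => rfl
  have hφ : ∀ (y : K) (x : H), φ y • x = y • x := by
    intro y x
    rw [hsm, RingEquiv.symm_apply_apply]
  let _ : Algebra (RatFunc k) L := ((algebraMap K L).comp (φ.symm : RatFunc k →+* K)).toAlgebra
  have hal : ∀ y : RatFunc k, algebraMap (RatFunc k) L y = algebraMap K L (φ.symm y) := fun _ => rfl
  obtain ⟨p, hstp⟩ := bri_stp hG hB hC hπ hP hb hφ hα (hgen 0)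
  choose ν hν using hst γ₀
  let cv' : Fin g → H →ₗ[RatFunc k] L := fun v =>
    { toFun := fun x => cv v x
      map_add' := fun x y => (cv v).map_add x y
      map_smul' := fun y x => by
        rw [hsm, (cv v).map_smul, Algebra.smul_def, RingHom.id_apply, Algebra.smul_def, hal] }
  have hcv : ∀ v x, cv' v x = cv v x := fun _ _ => rfl
  have hcl' : ∀ x : L, IsAlgebraic (RatFunc k) x → x ∈ (algebraMap (RatFunc k) L).range := by
    rintro x ⟨q, hq, hx⟩
    obtain ⟨y, hy⟩ := hcl x ⟨q.map (φ.symm : RatFunc k →+* K), by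
      intro h0
      apply hq
      apply Polynomial.map_injective (φ.symm : RatFunc k →+* K) φ.symm.injective
      rw [h0, Polynomial.map_zero], by
      rw [Polynomial.aeval_def, Polynomial.eval₂_map]
      exact hx⟩
    exact ⟨φ y, by rw [hal, RingEquiv.symm_apply_apply, hy]⟩
  have hDL' : ∀ x, DL γ₀ (algebraMap (RatFunc k) L x) = algebraMap (RatFunc k) L (DZ k x) := by
    intro x
    have h1 : dK γ₀ (φ.symm x) = φ.symm (DZ k x) := by
      apply φ.injective
      rw [hb.dphi, RingEquiv.apply_symm_apply, RingEquiv.apply_symm_apply]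
    rw [hal, hDL, h1, hal]
  have hf' : LinearIndependent (RatFunc k) f := by
    rw [Fintype.linearIndependent_iff] at hf ⊢
    intro q hq v
    have h1 := hf (fun v => φ.symm (q v)) (by simpa only [hsm] using hq) v
    apply φ.symm.injective
    rw [h1, map_zero]
  exact lkey (bri_leib hC hb hφ) hb.irr hstp (bri_nb hG hB hC hπ hP hγ hb hφ)
    (bri_nbd hG hB hC hπ hP hγ hb hφ) hcl' (DL γ₀) hDL' cv' hci (Matrix.of ν)
    (fun v x => hν v x) f hf'

end key

end MPadcDC
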