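import Pool.Agent.Lib.MP_adc574_ag_DC.C5C
import Pool.Agent.Lib.MP_adc574_ag_DC.LPos
import Pool.Agent.Lib.MP_adc574_ag_DC.CGs

/-!
# JOB C5D (DC): the key lemma for the generic cyclic cover

If `m' ≠ m`: `HW m' μ = ⊥` (`HW_eq_bot`), so `f` independent forces `g` empty (`IsEmpty g`: an independent family has no zero vector), and the determinant of a matrix over an empty index is `1` (`Matrix.det_isEmpty`). If `m' = m` (subst): `con_cyc` gives `ν, nab, c`. `H := ↥(HW m μ)` is a `K`-space; `let _ : Module (Ra κ n e) H := Module.compHom H (algebraMap (Ra κ n e) K)`, `IsScalarTower`.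
Reindex `g ≃ Fin N` (`Fintype.equivFin g`), `Matrix.det_submatrix_equiv_self`/`Matrix.det_reindex_self`, apply `keypos` (LPos) with `cxS_okC`, `cxS_badC`, `Con`: `hst γ v`: choose `ν` and apply it with `y = nab γ x` (the gaussManin relation of `con_cyc`).
-/

set_option autoImplicit false
set_option linter.unusedSectionVars false

namespace MPadcDC

open MvPolynomial TensorProduct MPadcGP MPadcGP2

universe u

section c5

variable {κ : Type u} [Field κ] [CharZero κ] {n : ℕ} {J : Ideal (MvPolynomial (Fin n) κ)} {K : Type u} [Field K]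
  [Algebra κ K] {e : ℕ} {a : Mon n e → K}

variable [Algebra (Ra κ n e) K] [IsScalarTower κ (Ra κ n e) K] [IsFractionRing (Ra κ n e) K]

/-- The key lemma for the generic cyclic cover. -/
theorem keypos_cyc' [NeZero e] {m : ℕ} (hJ : Good J m) {m' : ℕ} {μ : ZMod e} (hμ : μ ≠ 0)
    {dK : Mon n e → Derivation ℤ K K}
    (hdK : ∀ γ r, dK γ (algebraMap (Ra κ n e) K r) = algebraMap (Ra κ n e) K (pderiv γ r))
    {L : Type u} [Field L] [Algebra K L]
    (hcl : ∀ x : L, IsAlgebraic K x → x ∈ (algebraMap K L).range) (DL : Mon n e → Derivation ℤ L L)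
    (hDL : ∀ γ x, DL γ (algebraMap K L x) = algebraMap K L (dK γ x)) {g : Type} [Fintype g] [DecidableEq g]
    (cv : g → ↥((Wc hJ.homog (ak κ n e K)).HW m' μ) →ₗ[K] L)
    (hci : ∀ lam : g → L, (∀ x, ∑ v, lam v * cv v x = 0) → lam = 0)
    (hst : ∀ γ v, ∃ ν : g → L, ∀ x y : ↥((Wc hJ.homog (ak κ n e K)).HW m' μ),
      (Xc J (ak κ n e K)).gaussManin m' (dK γ) (x : (Xc J (ak κ n e K)).HdR m') (y : (Xc J (ak κ n e K)).HdR m') →
        DL γ (cv v x) = cv v y + ∑ v', ν v' * cv v' x)
    (f : g → ↥((Wc hJ.homog (ak κ n e K)).HW m' μ)) (hf : LinearIndependent K f) :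
    (Matrix.of fun v u : g => cv v (f u)).det ≠ 0 := by
  by_cases hm : m' = m
  · subst hm
    obtain ⟨ν, nab, c, h0, h1, hC, hgm⟩ := con_cyc hJ hμ hdK
    obtain ⟨P, k₀, hB⟩ := cxS_badC hJ h0 h1
    let iM : Module (Ra κ n e) ↥((Wc hJ.homog (ak κ n e K)).HW m' μ) :=
      Module.compHom _ (algebraMap (Ra κ n e) K)
    have iT : IsScalarTower (Ra κ n e) K ↥((Wc hJ.homog (ak κ n e K)).HW m' μ) :=
      IsScalarTower.of_algebraMap_smul fun r x => rfl
    let E := Fintype.equivFin g
    have key := keypos (cxS_okC hJ h0 h1) hB hC hcl DL hDL (fun i => cv (E.symm i)) (fun lam hl => by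
        have h2 := hci (fun v => lam (E v)) (fun x => by
          rw [← hl x, ← E.symm.sum_comp]
          simp only [Equiv.apply_symm_apply])
        funext i
        have h3 := congrFun h2 (E.symm i)
        simpa only [Equiv.apply_symm_apply, Pi.zero_apply] using h3)
      (fun γ v => by
        obtain ⟨ν', h2⟩ := hst γ (E.symm v)
        refine ⟨fun i => ν' (E.symm i), fun x => ?_⟩
        rw [h2 x (nab γ x) (hgm γ x), ← E.symm.sum_comp])
      (fun i => f (E.symm i)) (hf.comp E.symm E.symm.injective)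
    have h4 : (Matrix.of fun v u : Fin (Fintype.card g) => cv (E.symm v) (f (E.symm u))) =
        (Matrix.of fun v u : g => cv v (f u)).submatrix E.symm E.symm := rfl
    rw [h4, Matrix.det_submatrix_equiv_self] at key
    exact key
  · have h1 := HW_eq_bot hJ hm hμ (K := K)
    have h2 : IsEmpty g := by
      by_contra h
      rw [not_isEmpty_iff] at h
      obtain ⟨v⟩ := h
      refine hf.ne_zero v (Subtype.ext ?_)
      exact (Submodule.mem_bot K).1 (h1.le (f v).2)
    rw [Matrix.det_isEmpty]
    exact one_ne_zero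

end c5

end MPadcDC
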