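import Pool.Agent.Lib.MP_adc574_ag_DC.DefsL

/-!
# The coefficients of the generic form
-/

set_option autoImplicit false
set_option linter.unusedSectionVars false

namespace MPadcDC

open MvPolynomial TensorProduct MPadcGP

universe u

section c5

variable {κ : Type u} [Field κ] [CharZero κ] {n : ℕ} {J : Ideal (MvPolynomial (Fin n) κ)} {K : Type u} [Field K]
  [Algebra κ K] {e : ℕ} {a : Mon n e → K}

variable [Algebra (Ra κ n e) K] [IsScalarTower κ (Ra κ n e) K] [IsFractionRing (Ra κ n e) K]

/-- The coefficients of the generic form. -/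
noncomputable def ak (κ : Type u) [Field κ] (n e : ℕ) (K : Type u) [Field K] [Algebra (Ra κ n e) K] : Mon n e → K :=
  fun g => algebraMap (Ra κ n e) K (X g)

theorem ak_indep : AlgebraicIndependent κ (ak κ n e K) := by
  have h2 : Function.Injective (algebraMap (Ra κ n e) K) := IsFractionRing.injective (Ra κ n e) K
  have h3 : (aeval (ak κ n e K) : Ra κ n e →ₐ[κ] K) = IsScalarTower.toAlgHom κ (Ra κ n e) K := by
    refine MvPolynomial.algHom_ext fun g => ?_
    rw [aeval_X]
    rfl
  have h4 : Function.Injective (aeval (ak κ n e K) : Ra κ n e →ₐ[κ] K) := by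
    rw [h3]
    exact h2
  exact algebraicIndependent_iff_injective_aeval.mpr h4

end c5

end MPadcDC
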