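import Pool.Agent.Lib.MP_adc574_ag_DC.C5K
import Pool.Agent.Lib.MP_adc574_ag_DC.C3A

/-!
# The map `ph` for the cyclic cover
-/

set_option autoImplicit false
set_option linter.unusedSectionVars false

namespace MPadcDC

open MvPolynomial TensorProduct MPadcGP MPadcGP2

universe u

section c5

variable {κ : Type u} [Field κ] [CharZero κ] {n : ℕ} {J : Ideal (MvPolynomial (Fin n) κ)} {K : Type u} [Field K]
  [Algebra κ K] {e : ℕ} {a : Mon n e → K}

variable [Algebra (Ra κ n e) K] [IsScalarTower κ (Ra κ n e) K] [IsFractionRing (Ra κ n e) K]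

theorem ph_cyc [NeZero e] (hJ : IsHomog J) (ν : ℕ) :
    Ph (cxS hJ e ν) (fun γ => algebraMap (Ra κ n e) K (X γ)) (ddl K (Bz J (ak κ n e K))) (phK hJ (ak κ n e K)) := by
  have he : 1 ≤ e := NeZero.one_le
  exact ⟨fun t => phK_MK hJ he (ak κ n e K) ν t, fun t => phK_TK hJ he (ak κ n e K) ν t,
    fun t => phK_d hJ (ak κ n e K) ν t⟩

end c5

end MPadcDC
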