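import Pool.Agent.Lib.MP_adc574_ag_DC.GDom
import Pool.Agent.Lib.MP_adc574_ag_GP.Mod2

/-!
# GBaseA: the dimension

JOB GBaseA. `exists_good`: for `x_l, x_k ∉ J` the ring `chart J {l, k}` is a localization of both charts `chart J {l}`, `chart J {k}`
(`tr_isLocalization`), it is a domain (subring of `LR`, a localization of the domain `S`), `Ω` localizes (`KaehlerDifferential`, `IsLocalizedModule`), and
`finrank` of a finitely generated module over a domain is the dimension over the fraction field (`finrank_frac`), so both ranks agree.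

-/

set_option autoImplicit false

namespace MPadcDC

open MvPolynomial TensorProduct MPadcGP

universe u v

/-- the rank of a module over a domain does not change under localization -/
theorem finrank_loc {A B M N : Type u} [CommRing A] [IsDomain A] [CommRing B] [IsDomain B] [Algebra A B] (W : Submonoid A)
    (hW : W ≤ nonZeroDivisors A) [IsLocalization W B] [AddCommGroup M] [Module A M] [AddCommGroup N] [Module A N]
    [Module B N] [IsScalarTower A B N] (f : M →ₗ[A] N) [IsLocalizedModule W f] : Module.finrank B N = Module.finrank A M :=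
  (IsLocalization.finrank_eq B W hW).trans (IsLocalizedModule.finrank_eq W f hW)

variable {κ : Type u} [Field κ] [CharZero κ] {n : ℕ} {J : Ideal (MvPolynomial (Fin n) κ)} {m : ℕ}

omit [CharZero κ] in
private theorem GBaseA_key (h1 : IsHomog J) (h2 : J.IsPrime) {l : Fin n}
    (T : Finset (Fin n)) (hT : {l} ⊆ T) (hne : ∀ k ∈ T, (X k : MvPolynomial (Fin n) κ) ∉ J) :
    Module.finrank (chart J T) (Ω[chart J T⁄κ]) = Module.finrank (chart J {l}) (Ω[chart J {l}⁄κ]) := by
  classical
  have hlT : l ∈ T := hT (Finset.mem_singleton_self l)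
  have hl := hne l hlT
  let _ := (tr J hT).toRingHom.toAlgebra
  have hst : IsScalarTower κ (chart J {l}) (chart J T) :=
    IsScalarTower.of_algebraMap_eq fun a => ((tr J hT).commutes a).symm
  obtain ⟨g, hg⟩ : ∃ g, g = ∏ k ∈ T, cq J {l} k (Finset.mem_singleton_self l) := ⟨_, rfl⟩
  have hloc : IsLocalization.Away g (chart J T) := by
    rw [hg]
    exact tr_isLocalization h1 hT (Finset.mem_singleton_self l)
  have hd : IsDomain (chart J {l}) := chart_domain h2 hl
  have hg0 : g ≠ 0 := by
    rw [hg, Finset.prod_ne_zero_iff]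
    intro k hk h0
    have h3 := cq_mul_lx J {l} k (Finset.mem_singleton_self l)
    rw [h0] at h3
    exact lx_ne h2 hl (hne k hk) (by rw [← h3]; exact zero_mul _)
  have hW : Submonoid.powers g ≤ nonZeroDivisors (chart J {l}) := powers_le_nonZeroDivisors_of_noZeroDivisors hg0
  have hdT : IsDomain (chart J T) := IsLocalization.isDomain_of_le_nonZeroDivisors (chart J T) hW
  have hfe : Algebra.FormallyEtale (chart J {l}) (chart J T) :=
    Algebra.FormallyEtale.of_isLocalization (Submonoid.powers g)
  have hbc : IsBaseChange (chart J T) (KaehlerDifferential.map κ κ (chart J {l}) (chart J T)) :=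
    KaehlerDifferential.isBaseChange_of_formallyEtale κ (chart J {l}) (chart J T)
  have hlm : IsLocalizedModule (Submonoid.powers g) (KaehlerDifferential.map κ κ (chart J {l}) (chart J T)) :=
    (isLocalizedModule_iff_isBaseChange (Submonoid.powers g) (chart J T) _).2 hbc
  exact finrank_loc (Submonoid.powers g) hW (KaehlerDifferential.map κ κ (chart J {l}) (chart J T))

/-- (G0) -/
theorem exists_good (h1 : IsHomog J) (h2 : J.IsPrime) (h3 : IsSmoothProj J)
    (h4 : ∃ l, (X l : MvPolynomial (Fin n) κ) ∉ J) : ∃ m, Good J m := by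
  classical
  obtain ⟨l₀, hl₀⟩ := h4
  refine ⟨Module.finrank (chart J {l₀}) (Ω[chart J {l₀}⁄κ]), h1, h2, h3, ⟨l₀, hl₀⟩, fun l hl => ?_⟩
  have hne : ∀ k ∈ ({l, l₀} : Finset (Fin n)), (X k : MvPolynomial (Fin n) κ) ∉ J := by
    intro k hk
    rcases Finset.mem_insert.1 hk with h | h
    · rw [h]
      exact hl
    · rw [Finset.mem_singleton.1 h]
      exact hl₀
  have e1 := GBaseA_key h1 h2 (l := l) {l, l₀} (by simp) hne
  have e2 := GBaseA_key h1 h2 (l := l₀) {l, l₀} (by simp) hne
  rw [← e1, e2]

end MPadcDC
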