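import Mathlib

/-!
# GAdD: a derivation of `B = A[ζ]/(ζ^e - f)`

JOB GAdD. `der_adj`: the derivation `V` of `B` with `V = e ζ^(e-1) v` on `A` and `V ζ = v f = 1 - g ζ^e`: well defined as `V(ζ^e) = e ζ^(e-1) v f = V f`. So
`V ζ + (g ζ^(e-1)) ζ = 1`. (First the derivation `A[X] → B`, `∑ c_i X^i ↦ e ζ^(e-1) ∑ v(c_i) ζ^i + (∑ i c_i ζ^(i-1)) v f`; it kills the ideal
`(X^e - f)`.)

-/

set_option autoImplicit false

namespace MPadcDC

open MvPolynomial TensorProduct

universe u v

variable {K A : Type u} [Field K] [CommRing A] [Algebra K A] {e : ℕ} {f g : A} {v : Derivation K A A}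

/-- A derivation of `A` extends to `A[X]` coefficientwise. -/
private theorem GAdD_coef (v : Derivation K A A) :
    ∃ E : Derivation K (Polynomial A) (Polynomial A),
      E Polynomial.X = 0 ∧ ∀ a, E (Polynomial.C a) = Polynomial.C (v a) := by
  refine ⟨PolynomialModule.equivPolynomialSelf.compDer v.mapCoeffs, ?_, ?_⟩
  · simp
  · intro a
    simp

/-- The derivation of `A[X]`. -/
private theorem GAdD_der (v : Derivation K A A) (e : ℕ) (f : A) :
    ∃ E : Derivation K (Polynomial A) (Polynomial A),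
      E Polynomial.X = Polynomial.C (v f) ∧
      E (Polynomial.X ^ e - Polynomial.C f) = 0 := by
  obtain ⟨E, h1, h2⟩ := GAdD_coef v
  refine ⟨((e : Polynomial A) * Polynomial.X ^ (e - 1)) • E +
    (Polynomial.C (v f)) • (Polynomial.derivative'.restrictScalars K), ?_, ?_⟩
  · simp [h1]
  · simp [h1, h2, Polynomial.derivative_X_pow]
    ring

theorem der_adj (he : 1 ≤ e) (h : v f + g * f = 1) :
    ∃ (V : Derivation K (AdjoinRoot (Polynomial.X ^ e - Polynomial.C f : Polynomial A))
        (AdjoinRoot (Polynomial.X ^ e - Polynomial.C f : Polynomial A)))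
      (g' : AdjoinRoot (Polynomial.X ^ e - Polynomial.C f : Polynomial A)),
      V (AdjoinRoot.root _) + g' * AdjoinRoot.root _ = 1 := by
  obtain ⟨E, h1, h2⟩ := GAdD_der v e f
  set p : Polynomial A := Polynomial.X ^ e - Polynomial.C f with hp
  let π : Polynomial A →ₐ[K] AdjoinRoot p := (AdjoinRoot.mkₐ p).restrictScalars K
  have hπ : ∀ q, π q = AdjoinRoot.mk p q := fun q => rfl
  have hs : Function.Surjective π := AdjoinRoot.mk_surjective
  have hd : ∀ x, π x = 0 → π (E x) = 0 := by
    intro x hx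
    rw [hπ, AdjoinRoot.mk_eq_zero] at hx
    obtain ⟨y, rfl⟩ := hx
    rw [hπ, AdjoinRoot.mk_eq_zero]
    rw [Derivation.leibniz, h2]
    simp
  refine ⟨Derivation.liftOfSurjective hs hd,
    AdjoinRoot.of p g * AdjoinRoot.root p ^ (e - 1), ?_⟩
  have h3 : Derivation.liftOfSurjective hs hd (AdjoinRoot.root p) = AdjoinRoot.of p (v f) := by
    have h4 := Derivation.liftOfSurjective_apply hs hd Polynomial.X
    rw [h1] at h4
    exact h4
  rw [h3, mul_assoc, ← pow_succ, Nat.sub_add_cancel he]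
  have h5 : AdjoinRoot.root p ^ e = AdjoinRoot.of p f := by
    have h6 : AdjoinRoot.mk p p = 0 := AdjoinRoot.mk_self
    rw [hp] at h6
    rw [map_sub, map_pow, AdjoinRoot.mk_X, AdjoinRoot.mk_C] at h6
    exact sub_eq_zero.mp h6
  rw [h5, ← map_mul, ← map_add, h, map_one]

end MPadcDC
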