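import Mathlib

/-!
# GAdj: `B = A[ζ]/(ζ^e - f)` for a smooth `K`-algebra `A` with a derivation `v`, `v f + g f = 1`

JOB GAdj. `h = ζ^e - f` in `A[ζ]`.
* `smooth_adj`: `A[ζ]` is smooth over `K`; the derivation `V = - v + (g/e) ζ d/dζ` of `A[ζ]` (`v` acting on the coefficients) has
  `V h = v f + g ζ^e ≡ v f + g f = 1` modulo `h`. So `B ⊗ Ω[A[ζ]⁄K] → B → (h)/(h)^2`, `dx ↦ V x ↦ V x · h` is a retraction of
  `(h)/(h)^2 → B ⊗ Ω[A[ζ]⁄K]`, and `B` is formally smooth (`Algebra.FormallySmooth.iff_split_injection`); finitely presented.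
-/

set_option autoImplicit false

namespace MPadcDC

universe u

variable {K A : Type u} [Field K] [CharZero K] [CommRing A] [Algebra K A] {e : ℕ} {f g : A} {v : Derivation K A A}

omit [CharZero K] in
/-- A derivation of `A` extends to `A[X]` coefficientwise. -/
private theorem GAdj_coef (v : Derivation K A A) :
    ∃ E : Derivation K (Polynomial A) (Polynomial A),
      E Polynomial.X = 0 ∧ ∀ a, E (Polynomial.C a) = Polynomial.C (v a) := by
  refine ⟨PolynomialModule.equivPolynomialSelf.compDer v.mapCoeffs, ?_, ?_⟩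
  · simp
  · intro a
    simp

/-- The derivation of `A[X]` with value congruent to `1` on `X ^ e - f`. -/
private theorem GAdj_der (v : Derivation K A A) (he : 1 ≤ e) (h : v f + g * f = 1) :
    ∃ (E : Derivation K (Polynomial A) (Polynomial A)) (r : Polynomial A),
      E (Polynomial.X ^ e - Polynomial.C f) = 1 + r * (Polynomial.X ^ e - Polynomial.C f) := by
  obtain ⟨E, h1, h2⟩ := GAdj_coef v
  have he' : (e : K) ≠ 0 := by
    have : e ≠ 0 := by omega
    exact_mod_cast this
  refine ⟨-E + (Polynomial.C (algebraMap K A (e : K)⁻¹) * Polynomial.C g * Polynomial.X) •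
    (Polynomial.derivative'.restrictScalars K), Polynomial.C g, ?_⟩
  obtain ⟨n, rfl⟩ : ∃ n, e = n + 1 := ⟨e - 1, by omega⟩
  have h3 : Polynomial.C (algebraMap K A ((n + 1 : ℕ) : K)⁻¹) * ((n + 1 : ℕ) : Polynomial A) = 1 := by
    have h4 : ((n + 1 : ℕ) : Polynomial A) = Polynomial.C (algebraMap K A ((n + 1 : ℕ) : K)) := by
      simp
    rw [h4, ← Polynomial.C_mul, ← map_mul, inv_mul_cancel₀ he', map_one, Polynomial.C_1]
  have h5 : Polynomial.C (v f) = 1 - Polynomial.C g * Polynomial.C f := by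
    rw [← Polynomial.C_mul, ← Polynomial.C_1, ← Polynomial.C_sub, ← h, add_sub_cancel_right]
  have h6 : E (Polynomial.X ^ (n + 1)) = 0 := by simp [h1]
  have h7 : Polynomial.derivative (Polynomial.X ^ (n + 1) - Polynomial.C f) =
      ((n + 1 : ℕ) : Polynomial A) * Polynomial.X ^ n := by
    simp
  rw [Derivation.add_apply, Derivation.neg_apply, map_sub, h6, h2, Derivation.smul_apply,
    Derivation.restrictScalars_apply]
  change -(0 - Polynomial.C (v f)) + _ • Polynomial.derivative _ = _
  rw [h7, h5, smul_eq_mul]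
  linear_combination (Polynomial.C g * Polynomial.X ^ (n + 1)) * h3

theorem smooth_adj [Algebra.Smooth K A] (he : 1 ≤ e) (h : v f + g * f = 1) :
    Algebra.Smooth K (AdjoinRoot (Polynomial.X ^ e - Polynomial.C f : Polynomial A)) := by
  obtain ⟨E, r, hE⟩ := GAdj_der v he h
  set p : Polynomial A := Polynomial.X ^ e - Polynomial.C f with hp
  have hfp : Algebra.FinitePresentation K (AdjoinRoot p) :=
    Algebra.FinitePresentation.trans K A (AdjoinRoot p)
  have hAX : Algebra.FormallySmooth A (Polynomial A) :=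
    Algebra.FormallySmooth.of_equiv (MvPolynomial.uniqueAlgEquiv A Unit)
  have hKX : Algebra.FormallySmooth K (Polynomial A) := Algebra.FormallySmooth.comp K A _
  let π : Polynomial A →ₐ[K] AdjoinRoot p := (AdjoinRoot.mkₐ p).restrictScalars K
  have hπ : ∀ q, π q = AdjoinRoot.mk p q := fun q => rfl
  have hs : Function.Surjective π := AdjoinRoot.mk_surjective
  have hker : ∀ x, x ∈ RingHom.ker π.toRingHom ↔ ∃ c, x = p * c := by
    intro x
    rw [RingHom.mem_ker]
    change AdjoinRoot.mk p x = 0 ↔ _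
    rw [AdjoinRoot.mk_eq_zero]
    rfl
  have hpk : p ∈ RingHom.ker π.toRingHom := (hker p).2 ⟨1, by ring⟩
  set I := RingHom.ker π.toRingHom with hI
  have hsq : Ideal.Quotient.mk (I ^ 2) p * Ideal.Quotient.mk (I ^ 2) p = 0 := by
    rw [← map_mul, Ideal.Quotient.eq_zero_iff_mem, pow_two]
    exact Ideal.mul_mem_mul hpk hpk
  -- the map `x ↦ x - E x * p`
  let φ : Polynomial A →ₐ[K] (Polynomial A ⧸ I ^ 2) :=
    { toFun := fun x => Ideal.Quotient.mk (I ^ 2) (x - E x * p)
      map_one' := by simp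
      map_mul' := by
        intro x y
        simp only [Derivation.leibniz, smul_eq_mul, map_sub, map_add, map_mul]
        linear_combination (-(Ideal.Quotient.mk (I ^ 2) (E x)) * Ideal.Quotient.mk (I ^ 2) (E y)) * hsq
      map_zero' := by simp
      map_add' := by
        intro x y
        simp only [map_sub, map_add, map_mul]
        ring
      commutes' := by
        intro c
        rw [Derivation.map_algebraMap]
        simp only [zero_mul, sub_zero]
        rfl }
  have hφ : ∀ x, φ x = Ideal.Quotient.mk (I ^ 2) (x - E x * p) := fun x => rfl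
  have hφ0 : ∀ x, AdjoinRoot.mk p x = 0 → φ x = 0 := by
    intro x hx
    rw [AdjoinRoot.mk_eq_zero] at hx
    obtain ⟨c, rfl⟩ := hx
    rw [hφ, Derivation.leibniz, hE]
    simp only [smul_eq_mul, map_sub, map_add, map_mul, map_one]
    linear_combination (-(Ideal.Quotient.mk (I ^ 2) (E c)) -
      Ideal.Quotient.mk (I ^ 2) c * Ideal.Quotient.mk (I ^ 2) r) * hsq
  let ψ : AdjoinRoot p →ₐ[K] (Polynomial A ⧸ I ^ 2) :=
    Ideal.Quotient.liftₐ (Ideal.span {p}) φ (fun x hx => hφ0 x (AdjoinRoot.mk_eq_zero.2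
      (Ideal.mem_span_singleton.1 hx)))
  have hψ : ∀ x, ψ (AdjoinRoot.mk p x) = φ x := fun x => rfl
  have hfs : Algebra.FormallySmooth K (AdjoinRoot p) := by
    refine Algebra.FormallySmooth.of_split π ψ ?_
    apply AlgHom.ext
    intro x
    obtain ⟨x, rfl⟩ := AdjoinRoot.mk_surjective x
    rw [AlgHom.comp_apply, hψ, hφ]
    change π (x - E x * p) = _
    rw [hπ, map_sub, map_mul, AdjoinRoot.mk_self, mul_zero, sub_zero]
    rfl
  exact ⟨hfs, hfp⟩

end MPadcDC
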