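import Pool.Agent.Lib.MP_adc574_ag_DC.GCyc

/-!
# GCycB: presentations of the charts of the cyclic cover

JOB GCycB. `exists_adj`: forward: `chart I C → chart (cyc I F e) (cs C)` (`exists_chart_lift`: the coordinates satisfy the relations of `I` by
`eval₂_cq` for `cyc I F e`, units by `cq_isUnit`), `AdjoinRoot.lift` with `root ↦ cq (last)`, `ζ ^ e = F(x/x_j)` by `eval₂_cq` for the
polynomial `z ^ e - F`. Backward: `exists_chart_lift` for `cyc I F e`. Inverse to each other on generators (`chart_hom_ext`, `AdjoinRoot` ext).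

-/

set_option autoImplicit false

namespace MPadcDC

open MvPolynomial TensorProduct MPadcGP

universe u v

variable {A : Type u} [CommRing A] {n : ℕ} {I : Ideal (MvPolynomial (Fin n) A)} {F : MvPolynomial (Fin n) A} {e : ℕ}

private theorem GCycB_abs {R0 R1 : Type u} [CommRing R0] [CommRing R1] [Algebra A R0] [Algebra A R1]
    (ξ : Fin n → R0) (ξ' : Fin (n + 1) → R1) (j : Fin n) (C : Finset (Fin n)) {f0 : R0}
    (hf0 : f0 = eval₂ (algebraMap A R0) ξ F) (r0 : ∀ f ∈ I, eval₂ (algebraMap A R0) ξ f = 0)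
    (r1 : ∀ f ∈ cyc I F e, eval₂ (algebraMap A R1) ξ' f = 0)
    (u0 : ∀ l ∈ C, IsUnit (ξ l)) (j0 : ξ j = 1) (u1 : ∀ l ∈ C, IsUnit (ξ' l.castSucc)) (j1 : ξ' j.castSucc = 1)
    (lift0 : ∀ y : Fin n → R1, y j = 1 → (∀ l ∈ C, IsUnit (y l)) → (∀ f ∈ I, eval₂ (algebraMap A R1) y f = 0) →
      ∃ φ : R0 →+* R1, (∀ a, φ (algebraMap A R0 a) = algebraMap A R1 a) ∧ ∀ l, φ (ξ l) = y l)
    (lift1 : ∀ y : Fin (n + 1) → AdE R0 f0 e, y j.castSucc = 1 → (∀ l ∈ cs C, IsUnit (y l)) →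
      (∀ f ∈ cyc I F e, eval₂ (algebraMap A (AdE R0 f0 e)) y f = 0) →
      ∃ φ : R1 →+* AdE R0 f0 e, (∀ a, φ (algebraMap A R1 a) = algebraMap A (AdE R0 f0 e) a) ∧ ∀ l, φ (ξ' l) = y l)
    (ext0 : ∀ g h : R0 →+* AdE R0 f0 e, (∀ a, g (algebraMap A R0 a) = h (algebraMap A R0 a)) →
      (∀ l, g (ξ l) = h (ξ l)) → g = h)
    (ext1 : ∀ g h : R1 →+* R1, (∀ a, g (algebraMap A R1 a) = h (algebraMap A R1 a)) →
      (∀ l, g (ξ' l) = h (ξ' l)) → g = h) :
    ∃ Ψ : AdE R0 f0 e ≃ₐ[A] R1, (∀ l, Ψ (AdjoinRoot.of _ (ξ l)) = ξ' l.castSucc) ∧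
      Ψ (AdjoinRoot.root _) = ξ' (Fin.last n) := by
  have hmem : ∀ f ∈ I, rename Fin.castSucc f ∈ cyc I F e := fun f hf =>
    Ideal.mem_sup_left (Ideal.mem_map_of_mem
      (rename Fin.castSucc : MvPolynomial (Fin n) A →ₐ[A] MvPolynomial (Fin (n + 1)) A).toRingHom hf)
  have hmem' : (X (Fin.last n) ^ e - rename Fin.castSucc F : MvPolynomial (Fin (n + 1)) A) ∈ cyc I F e :=
    Ideal.mem_sup_right (Ideal.subset_span rfl)
  -- forward
  obtain ⟨φ₀, hφ₀, hφ₁⟩ := lift0 (fun l => ξ' l.castSucc) j1 u1 (fun f hf => by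
      have h1 := r1 _ (hmem f hf)
      rw [eval₂_rename] at h1
      exact h1)
  have hφF : φ₀ f0 = eval₂ (algebraMap A R1) (fun l => ξ' l.castSucc) F := by
    rw [hf0, eval₂_comp_left φ₀]
    have h2 : φ₀.comp (algebraMap A R0) = algebraMap A R1 := RingHom.ext hφ₀
    have h3 : (φ₀ ∘ ξ) = fun l => ξ' l.castSucc := funext hφ₁
    rw [h2, h3]
  have hroot : Polynomial.eval₂ φ₀ (ξ' (Fin.last n)) (Polynomial.X ^ e - Polynomial.C f0 : Polynomial R0) = 0 := by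
    rw [Polynomial.eval₂_sub, Polynomial.eval₂_pow, Polynomial.eval₂_X, Polynomial.eval₂_C, hφF]
    have h1 := r1 _ hmem'
    rw [eval₂_sub, eval₂_pow, eval₂_X, eval₂_rename] at h1
    exact h1
  obtain ⟨Φ, hΦ1, hΦ2⟩ : ∃ Φ : AdE R0 f0 e →+* R1, (∀ x, Φ (AdjoinRoot.of _ x) = φ₀ x) ∧
      Φ (AdjoinRoot.root _) = ξ' (Fin.last n) :=
    ⟨AdjoinRoot.lift φ₀ _ hroot, fun x => AdjoinRoot.lift_of hroot, AdjoinRoot.lift_root hroot⟩
  -- backward
  have halg : ∀ a, algebraMap A (AdE R0 f0 e) a = AdjoinRoot.of _ (algebraMap A R0 a) := fun a => rfl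
  obtain ⟨z, hz⟩ : ∃ z : Fin (n + 1) → AdE R0 f0 e, z = Fin.lastCases (AdjoinRoot.root _)
      (fun l => AdjoinRoot.of _ (ξ l)) := ⟨_, rfl⟩
  have hz1 : z (Fin.last n) = AdjoinRoot.root _ := by
    rw [hz]
    exact Fin.lastCases_last
  have hz2 : ∀ l : Fin n, z l.castSucc = AdjoinRoot.of _ (ξ l) := by
    intro l
    rw [hz]
    exact Fin.lastCases_castSucc l
  have hofF : ∀ f : MvPolynomial (Fin n) A,
      eval₂ (algebraMap A (AdE R0 f0 e)) (z ∘ Fin.castSucc) f =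
        AdjoinRoot.of _ (eval₂ (algebraMap A R0) ξ f) := by
    intro f
    rw [eval₂_comp_left (AdjoinRoot.of _)]
    have h3 : (z ∘ Fin.castSucc) = ((AdjoinRoot.of (Polynomial.X ^ e - Polynomial.C f0 : Polynomial R0)) ∘ ξ) :=
      funext hz2
    rw [h3]
    rfl
  have hker : ∀ f ∈ cyc I F e, eval₂ (algebraMap A (AdE R0 f0 e)) z f = 0 := by
    intro f hf
    have h1 : cyc I F e ≤ RingHom.ker (eval₂Hom (algebraMap A (AdE R0 f0 e)) z) := by
      refine sup_le ?_ ?_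
      · rw [Ideal.map_le_iff_le_comap]
        intro g hg
        rw [Ideal.mem_comap, RingHom.mem_ker]
        change eval₂ (algebraMap A (AdE R0 f0 e)) z (rename Fin.castSucc g) = 0
        rw [eval₂_rename, hofF, r0 g hg, map_zero]
      · rw [Ideal.span_le, Set.singleton_subset_iff]
        change eval₂ (algebraMap A (AdE R0 f0 e)) z (X (Fin.last n) ^ e - rename Fin.castSucc F) = 0
        rw [eval₂_sub, eval₂_pow, eval₂_X, eval₂_rename, hofF, hz1, ← hf0]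
        have h2 := AdjoinRoot.eval₂_root (Polynomial.X ^ e - Polynomial.C f0 : Polynomial R0)
        rw [Polynomial.eval₂_sub, Polynomial.eval₂_pow, Polynomial.eval₂_X, Polynomial.eval₂_C] at h2
        exact h2
    exact h1 hf
  obtain ⟨Θ, hΘ1, hΘ2⟩ := lift1 z (by rw [hz2, j0, map_one])
    (fun l hl => by
      obtain ⟨l', hl', rfl⟩ := Finset.mem_map.1 hl
      change IsUnit (z l'.castSucc)
      rw [hz2]
      exact (u0 l' hl').map _) hker
  have h1 : Φ.comp Θ = RingHom.id _ := by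
    refine ext1 _ _ (fun a => ?_) fun l => ?_
    · rw [RingHom.comp_apply, hΘ1, halg, hΦ1, hφ₀]
      rfl
    · rw [RingHom.comp_apply, hΘ2]
      refine Fin.lastCases ?_ (fun l => ?_) l
      · rw [hz1, hΦ2]
        rfl
      · rw [hz2, hΦ1, hφ₁]
        rfl
  have h2 : Θ.comp Φ = RingHom.id _ := by
    have h3 : Θ.comp φ₀ = AdjoinRoot.of _ := by
      refine ext0 _ _ (fun a => ?_) fun l => ?_
      · rw [RingHom.comp_apply, hφ₀, hΘ1]
        rfl
      · rw [RingHom.comp_apply, hφ₁, hΘ2, hz2]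
    have h4 : (Θ.comp Φ).comp (AdjoinRoot.mk _) = AdjoinRoot.mk _ := by
      refine Polynomial.ringHom_ext (fun x => ?_) ?_
      · change Θ (Φ (AdjoinRoot.of _ x)) = AdjoinRoot.of _ x
        rw [hΦ1]
        exact RingHom.congr_fun h3 x
      · change Θ (Φ (AdjoinRoot.root _)) = AdjoinRoot.root _
        rw [hΦ2, hΘ2, hz1]
    refine RingHom.ext fun x => ?_
    obtain ⟨p, rfl⟩ := AdjoinRoot.mk_surjective x
    exact RingHom.congr_fun h4 p
  refine ⟨AlgEquiv.ofRingEquiv (f := RingEquiv.ofRingHom Φ Θ h1 h2) fun a => ?_, fun l => ?_, hΦ2⟩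
  · change Φ (algebraMap A _ a) = _
    rw [halg, hΦ1, hφ₀]
  · change Φ (AdjoinRoot.of _ (ξ l)) = _
    rw [hΦ1, hφ₁]

theorem exists_adj (hI : IsHomog I) (hF : F.IsHomogeneous e) (C : Finset (Fin n)) {j : Fin n} (hj : j ∈ C) :
    ∃ Ψ : AdE (chart I C) (dh I C hj F) e ≃ₐ[A] chart (cyc I F e) (cs C),
      (∀ l, Ψ (AdjoinRoot.of _ (cq I C l hj)) = cq (cyc I F e) (cs C) l.castSucc (mem_cs.2 hj)) ∧
      Ψ (AdjoinRoot.root _) = cq (cyc I F e) (cs C) (Fin.last n) (mem_cs.2 hj) := by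
  have hI' : IsHomog (cyc I F e) := cyc_homog hI hF
  exact @GCycB_abs A _ n I F e (chart I C) (chart (cyc I F e) (cs C)) _ _ _ _ (fun l => cq I C l hj)
    (fun l => cq (cyc I F e) (cs C) l (mem_cs.2 hj)) j C _ rfl (fun f hf => eval₂_cq hI hj hf)
    (fun f hf => eval₂_cq hI' (mem_cs.2 hj) hf) (fun l hl => cq_isUnit I C hl hj) (cq_self _ _ _)
    (fun l hl => cq_isUnit (cyc I F e) (cs C) (mem_cs.2 hl) (mem_cs.2 hj)) (cq_self _ _ _)
    (fun y h1 h2 h3 => exists_chart_lift I C (algebraMap A _) hj y h1 h2 h3)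
    (fun y h1 h2 h3 => exists_chart_lift (cyc I F e) (cs C) (algebraMap A _) (mem_cs.2 hj) y h1 h2 h3)
    (fun g h h1 h2 => chart_hom_ext' I C hj h1 h2)
    (fun g h h1 h2 => chart_hom_ext' (cyc I F e) (cs C) (mem_cs.2 hj) h1 h2)

end MPadcDC
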