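import Pool.Agent.Lib.MP_adc574_ag_DC.GMk

/-!
# GV0: the derivation on the charts

`dh I C hj F = F / x_j^e` in `chart I C`, `j ∈ C`.
JOB GV0.
* `dh_mul`: `frm a / x_j ^ e` (all monomials of `frm a` have the degree `e`).
* `exists_v0`: `C = {j}`, `x_j ∉ J`: with `w` of `exists_der`, `T = x_j`, `F = f T^e`: `1 = w(F) = T^e w(f) + e T^(e-1) w(T) f`. So
  `v = T^e w` on `chart` and `g = e T^(e-1) w(T)`. (`T^e w` maps the chart to itself: on generators `x_k/T`:
  `T^e w(x_k/T) = T^(e-1) w(x_k) - (x_k/T) T^(e-1) w(T)`.) If `x_j ∈ J` the chart is the zero ring. General `C`: `chart I C` is a localization of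
  `chart I {j}` (`tr_isLocalization`, needs `IsHomog`), `v` extends to the localization, `tr (cq I {j} k) = cq I C k`.
-/

set_option autoImplicit false

namespace MPadcDC

open MvPolynomial TensorProduct MPadcGP

universe u v

/-- The restriction of `ℓ ^ e w` to a subalgebra, abstract version. -/
private theorem gV0_abs {A C : Type u} [CommRing A] [CommRing C] [Algebra A C] {A0 : Subalgebra A C} {ι : Type} {x : ι → C} {ℓ : C}
    (hind : ∀ P : A0 → Prop, (∀ a, P (algebraMap A A0 a)) → (∀ (k : ι) (c : A0), (c : C) * ℓ = x k → P c) →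
      (∀ y z, P y → P z → P (y + z)) → (∀ y z, P y → P z → P (y * z)) → ∀ z, P z)
    (w : Derivation A C C) {e : ℕ} (he : 1 ≤ e) (hw : ∀ k, w (x k) * ℓ ^ (e - 1) ∈ A0) (hl : w ℓ * ℓ ^ (e - 1) ∈ A0) :
    ∃ v : Derivation A A0 A0, ∀ z, (v z : C) = ℓ ^ e * w z := by
  obtain ⟨e', rfl⟩ : ∃ e', e = e' + 1 := ⟨e - 1, by omega⟩
  rw [Nat.add_sub_cancel] at hw hl
  have hst : ∀ z : A0, ℓ ^ (e' + 1) * w z ∈ A0 := by
    refine hind (fun z => ℓ ^ (e' + 1) * w z ∈ A0) (fun a => ?_) (fun k c hc => ?_) (fun y z hy hz => ?_) (fun y z hy hz => ?_)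
    · have h1 : ((algebraMap A A0 a : A0) : C) = algebraMap A C a := rfl
      rw [h1, w.map_algebraMap, mul_zero]
      exact Subalgebra.zero_mem _
    · have h1 := congrArg w hc
      rw [Derivation.leibniz, smul_eq_mul, smul_eq_mul] at h1
      have h2 : ℓ ^ (e' + 1) * w (c : C) = w (x k) * ℓ ^ e' - (c : C) * (w ℓ * ℓ ^ e') := by
        rw [← h1]
        ring
      rw [h2]
      exact Subalgebra.sub_mem _ (hw k) (Subalgebra.mul_mem _ c.2 hl)
    · rw [Subalgebra.coe_add, map_add, mul_add]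
      exact Subalgebra.add_mem _ hy hz
    · rw [Subalgebra.coe_mul, Derivation.leibniz, smul_eq_mul, smul_eq_mul, mul_add]
      have h1 : ℓ ^ (e' + 1) * ((y : C) * w z) = y * (ℓ ^ (e' + 1) * w z) := by ring
      have h2 : ℓ ^ (e' + 1) * ((z : C) * w y) = z * (ℓ ^ (e' + 1) * w y) := by ring
      rw [h1, h2]
      exact Subalgebra.add_mem _ (Subalgebra.mul_mem _ y.2 hz) (Subalgebra.mul_mem _ z.2 hy)
  let v0 : A0 →ₗ[A] A0 :=
    { toFun := fun z => ⟨ℓ ^ (e' + 1) * w z, hst z⟩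
      map_add' := fun y z => Subtype.ext (by
        change ℓ ^ (e' + 1) * w ((y : C) + z) = ℓ ^ (e' + 1) * w y + ℓ ^ (e' + 1) * w z
        rw [map_add, mul_add])
      map_smul' := fun c z => Subtype.ext (by
        change ℓ ^ (e' + 1) * w (c • (z : C)) = c • (ℓ ^ (e' + 1) * w z)
        rw [Derivation.map_smul, mul_smul_comm]) }
  refine ⟨Derivation.mk' v0 fun y z => Subtype.ext ?_, fun z => rfl⟩
  change ℓ ^ (e' + 1) * w ((y : C) * z) = (y : C) * (ℓ ^ (e' + 1) * w z) + (z : C) * (ℓ ^ (e' + 1) * w y)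
  rw [Derivation.leibniz, smul_eq_mul, smul_eq_mul]
  ring

section

variable {A : Type u} [CommRing A] {n : ℕ} (I : Ideal (MvPolynomial (Fin n) A)) (C : Finset (Fin n))

/-- The dehomogenization. -/
noncomputable def dh {j : Fin n} (hj : j ∈ C) (f : MvPolynomial (Fin n) A) : chart I C :=
  aeval (fun l => cq I C l hj) f

theorem gV0_eval (f : MvPolynomial (Fin n) A) : aeval (lx I C) f = mkL I C f := by
  have h1 : (aeval (lx I C) : MvPolynomial (Fin n) A →ₐ[A] LR I C) =
      (IsScalarTower.toAlgHom A (CR I) (LR I C)).comp (Ideal.Quotient.mkₐ A I) := by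
    refine MvPolynomial.algHom_ext fun l => ?_
    rw [aeval_X]
    rfl
  rw [h1]
  rfl

theorem gV0_coe {j : Fin n} (hj : j ∈ C) (f : MvPolynomial (Fin n) A) :
    (dh I C hj f : LR I C) = aeval (fun l => (cq I C l hj : LR I C)) f := by
  have h1 : (chart I C).val.comp (aeval (fun l => cq I C l hj)) =
      (aeval (fun l => (cq I C l hj : LR I C)) : MvPolynomial (Fin n) A →ₐ[A] LR I C) := by
    refine MvPolynomial.algHom_ext fun l => ?_
    rw [AlgHom.comp_apply, aeval_X, aeval_X]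
    rfl
  rw [← h1]
  rfl

theorem dh_mul {j : Fin n} (hj : j ∈ C) {e : ℕ} {f : MvPolynomial (Fin n) A} (hf : f.IsHomogeneous e) :
    (dh I C hj f : LR I C) * lx I C j ^ e = mkL I C f := by
  rw [gV0_coe, ← gV0_eval, aeval_def, aeval_def, eval₂_eq', eval₂_eq', Finset.sum_mul]
  refine Finset.sum_congr rfl fun d hd => ?_
  have h4 : ∑ l, d l = e := by
    have h5 := hf (mem_support_iff.1 hd)
    rw [Finsupp.weight_apply, Finsupp.sum_fintype _ _ (fun _ => by simp)] at h5
    simpa using h5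
  rw [mul_assoc, ← h4, ← Finset.prod_pow_eq_pow_sum, ← Finset.prod_mul_distrib]
  congr 1
  refine Finset.prod_congr rfl fun l _ => ?_
  rw [← mul_pow, cq_mul_lx]

theorem gV0_tr {C' : Finset (Fin n)} (h : C ⊆ C') {j : Fin n} (hj : j ∈ C) (f : MvPolynomial (Fin n) A) :
    tr I h (dh I C hj f) = dh I C' (h hj) f := by
  have h1 : (tr I h).comp (aeval (fun l => cq I C l hj)) =
      (aeval (fun l => cq I C' l (h hj)) : MvPolynomial (Fin n) A →ₐ[A] chart I C') := by
    refine MvPolynomial.algHom_ext fun l => ?_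
    rw [AlgHom.comp_apply, aeval_X, aeval_X, tr_cq]
  exact AlgHom.congr_fun h1 f

theorem frm_hom {e : ℕ} (a : Mon n e → A) : (frm a).IsHomogeneous e := by
  unfold frm
  refine MvPolynomial.IsHomogeneous.sum _ _ _ fun g _ => isHomogeneous_monomial _ ?_
  rw [Finsupp.degree_eq_sum]
  exact (Finset.mem_finsuppAntidiag.1 g.2).1

/-- The restriction of a derivation to a chart. -/
theorem gV0_res {j : Fin n} (w : Derivation A (LR I {j}) (LR I {j})) {e : ℕ} (he : 1 ≤ e)
    (hw : ∀ k, w (lx I {j} k) * lx I {j} j ^ (e - 1) ∈ chart I {j}) :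
    ∃ v : Derivation A (chart I {j}) (chart I {j}), ∀ x, (v x : LR I {j}) = lx I {j} j ^ e * w x :=
  gV0_abs (A0 := chart I {j}) (x := lx I {j}) (fun P h1 h2 h3 h4 z => chart_ind I {j} (P := P) h1
    (fun l m hm => h2 l _ ((Finset.mem_singleton.1 hm) ▸ cq_mul_lx I {j} l hm)) h3 h4 z) w he hw (hw j)

end

end MPadcDC
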