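import Pool.Agent.Lib.MP_adc574_ag_DC.GK
import Pool.Agent.Lib.MP_adc574_ag_DC.GV0a

/-!
# GV0: the derivation on the charts

JOB GV0.
* `exists_v0`: `C = {j}`, `x_j ∉ J`: with `w` of `exists_der`, `T = x_j`, `F = f T^e`: `1 = w(F) = T^e w(f) + e T^(e-1) w(T) f`. So
  `v = T^e w` on `chart` and `g = e T^(e-1) w(T)`. (`T^e w` maps the chart to itself: on generators `x_k/T`:
  `T^e w(x_k/T) = T^(e-1) w(x_k) - (x_k/T) T^(e-1) w(T)`.) If `x_j ∈ J` the chart is the zero ring. General `C`: `chart I C` is a localization of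
  `chart I {j}` (`tr_isLocalization`, needs `IsHomog`), `v` extends to the localization, `tr (cq I {j} k) = cq I C k`.
-/

set_option autoImplicit false

namespace MPadcDC

open MvPolynomial TensorProduct MPadcGP

universe u v

variable {κ : Type u} [Field κ] [CharZero κ] {n : ℕ} {J : Ideal (MvPolynomial (Fin n) κ)} {e m : ℕ}
  {K : Type u} [Field K] [Algebra κ K] {a : Mon n e → K}

theorem gV0_one (hJ : Good J m) (he : 1 ≤ e) (ha : AlgebraicIndependent κ a) (j : Fin n) :
    ∃ (v : Derivation K (chart (bI (algebraMap κ K) J) {j}) (chart (bI (algebraMap κ K) J) {j}))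
      (g : chart (bI (algebraMap κ K) J) {j}),
      v (dh (bI (algebraMap κ K) J) {j} (Finset.mem_singleton_self j) (frm a)) +
        g * dh (bI (algebraMap κ K) J) {j} (Finset.mem_singleton_self j) (frm a) = 1 := by
  by_cases hj : (X j : MvPolynomial (Fin n) κ) ∈ J
  · have h1 : (X j : MvPolynomial (Fin n) K) ∈ bI (algebraMap κ K) J := by
      have h2 := bI_mem (algebraMap κ K) J _ hj
      rwa [map_X] at h2
    have h2 : lx (bI (algebraMap κ K) J) {j} j = 0 := by
      unfold lx
      rw [Ideal.Quotient.eq_zero_iff_mem.2 h1, map_zero]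
    have h3 : IsUnit (0 : LR (bI (algebraMap κ K) J) {j}) := by
      rw [← h2]
      exact lx_isUnit _ _ (Finset.mem_singleton_self j)
    have h4 : (0 : LR (bI (algebraMap κ K) J) {j}) = 1 := isUnit_zero_iff.1 h3
    have h5 : Subsingleton (LR (bI (algebraMap κ K) J) {j}) := subsingleton_of_zero_eq_one h4
    exact ⟨0, 0, Subtype.ext (Subsingleton.elim _ _)⟩
  · obtain ⟨w, hw1, hw2⟩ := exists_der hJ he ha hj
    obtain ⟨v, hv⟩ := gV0_res (bI (algebraMap κ K) J) w he hw2
    refine ⟨v, (e : chart (bI (algebraMap κ K) J) {j}) *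
      ⟨w (lx (bI (algebraMap κ K) J) {j} j) * lx (bI (algebraMap κ K) J) {j} j ^ (e - 1), hw2 j⟩,
      Subtype.ext ?_⟩
    rw [Subalgebra.coe_add, hv, Subalgebra.coe_mul, Subalgebra.coe_mul, Subalgebra.coe_one, ← hw1,
      ← dh_mul (bI (algebraMap κ K) J) {j} (Finset.mem_singleton_self j) (frm_hom a), Derivation.leibniz,
      Derivation.leibniz_pow, smul_eq_mul, smul_eq_mul, smul_eq_mul, nsmul_eq_mul]
    have h1 : ((e : chart (bI (algebraMap κ K) J) {j}) : LR (bI (algebraMap κ K) J) {j}) =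
        (e : LR (bI (algebraMap κ K) J) {j}) := rfl
    rw [h1]
    ring

theorem exists_v0 (hJ : Good J m) (he : 1 ≤ e) (ha : AlgebraicIndependent κ a) (C : Finset (Fin n)) {j : Fin n}
    (hj : j ∈ C) :
    ∃ (v : Derivation K (chart (bI (algebraMap κ K) J) C) (chart (bI (algebraMap κ K) J) C))
      (g : chart (bI (algebraMap κ K) J) C),
      v (dh (bI (algebraMap κ K) J) C hj (frm a)) + g * dh (bI (algebraMap κ K) J) C hj (frm a) = 1 := by
  obtain ⟨v0, g0, h0⟩ := gV0_one hJ he ha j
  have hsub : ({j} : Finset (Fin n)) ⊆ C := Finset.singleton_subset_iff.2 hj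
  let _ : Algebra (chart (bI (algebraMap κ K) J) {j}) (chart (bI (algebraMap κ K) J) C) :=
    (tr (bI (algebraMap κ K) J) hsub).toRingHom.toAlgebra
  have h2 : IsScalarTower K (chart (bI (algebraMap κ K) J) {j}) (chart (bI (algebraMap κ K) J) C) :=
    IsScalarTower.of_algebraMap_eq fun b => ((tr (bI (algebraMap κ K) J) hsub).commutes b).symm
  have h3 : IsLocalization (Submonoid.powers (∏ l ∈ C, cq (bI (algebraMap κ K) J) {j} l
      (Finset.mem_singleton_self j))) (chart (bI (algebraMap κ K) J) C) :=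
    tr_isLocalization (hJ.homog.map _) hsub (Finset.mem_singleton_self j)
  obtain ⟨v, hv⟩ := exists_der_loc (k := K) (Submonoid.powers (∏ l ∈ C, cq (bI (algebraMap κ K) J) {j} l
      (Finset.mem_singleton_self j))) ((Algebra.linearMap (chart (bI (algebraMap κ K) J) {j})
        (chart (bI (algebraMap κ K) J) C)).compDer v0)
  have hal : ∀ x, algebraMap (chart (bI (algebraMap κ K) J) {j}) (chart (bI (algebraMap κ K) J) C) x =
      tr (bI (algebraMap κ K) J) hsub x := fun x => rfl
  have hv' : ∀ x, v (tr (bI (algebraMap κ K) J) hsub x) = tr (bI (algebraMap κ K) J) hsub (v0 x) := fun x => hv x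
  refine ⟨v, tr (bI (algebraMap κ K) J) hsub g0, ?_⟩
  rw [← gV0_tr (bI (algebraMap κ K) J) {j} hsub (Finset.mem_singleton_self j), hv', ← map_mul, ← map_add, h0, map_one]

end MPadcDC
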