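import Pool.Agent.Lib.MP_adc574_ag_DC.GSmL
import Pool.Agent.Lib.MP_adc574_ag_DC.GV0
import Pool.Agent.Lib.MP_adc574_ag_DC.GCycB
import Pool.Agent.Lib.MP_adc574_ag_DC.GAdj
import Pool.Agent.Lib.MP_adc574_ag_DC.GAdD

/-!
# GSm: the generic cyclic cover is smooth

JOB GSm. `I = bI J`, `F = frm a`.
* `smooth_cs`: the charts `chart (cyc I F e) (cs C)`, `C` nonempty: `exists_adj`, `smooth_adj`, `exists_v0`, `IsSmoothProj.smooth`.
* `cyc_smooth`: `cyc_homog`, `frm_hom`, `smooth_last`; `exists_der_chart` (transport `der_adj` with `Ψ`; `C = cs C'` by `exists_cs`).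

-/

set_option autoImplicit false

namespace MPadcDC

open MvPolynomial TensorProduct MPadcGP

universe u v

theorem GSm_tr {K : Type u} {A B : Type v} [Field K] [CommRing A] [Algebra K A] [CommRing B] [Algebra K B]
    (Ψ : A ≃ₐ[K] B) (V : Derivation K A A) {z g : A} (h : V z + g * z = 1) :
    ∃ (W : Derivation K B B) (g' : B), W (Ψ z) + g' * Ψ z = 1 := by
  let W0 : B →ₗ[K] B := Ψ.toLinearMap ∘ₗ (V : A →ₗ[K] A) ∘ₗ Ψ.symm.toLinearMap
  have hW0 : ∀ x, W0 x = Ψ (V (Ψ.symm x)) := fun x => rfl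
  let W : Derivation K B B :=
    Derivation.mk' W0 fun x y => by
      rw [hW0, hW0, hW0, map_mul, Derivation.leibniz, map_add, smul_eq_mul, smul_eq_mul, map_mul, map_mul,
        AlgEquiv.apply_symm_apply, AlgEquiv.apply_symm_apply, smul_eq_mul, smul_eq_mul]
  have h4 : ∀ x, W x = Ψ (V (Ψ.symm x)) := fun x => rfl
  refine ⟨W, Ψ g, ?_⟩
  rw [h4, AlgEquiv.symm_apply_apply, ← map_mul, ← map_add, h, map_one]

variable {κ : Type u} [Field κ] [CharZero κ] {n : ℕ} {J : Ideal (MvPolynomial (Fin n) κ)} {e m : ℕ}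
  {K : Type u} [Field K] [Algebra κ K] {a : Mon n e → K}

theorem smooth_cs (hJ : Good J m) (he : 1 ≤ e) (ha : AlgebraicIndependent κ a) {C : Finset (Fin n)} (hC : C.Nonempty) :
    Algebra.Smooth K (chart (cyc (bI (algebraMap κ K) J) (frm a) e) (cs C)) := by
  obtain ⟨j, hj⟩ := hC
  have hK : CharZero K := charZero_of_injective_algebraMap (algebraMap κ K).injective
  have hI : IsHomog (bI (algebraMap κ K) J) := IsHomog.map _ hJ.homog
  have hs : IsSmoothProj (bI (algebraMap κ K) J) := hJ.smooth.map hJ.homog _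
  have h1 : Algebra.Smooth K (chart (bI (algebraMap κ K) J) C) := IsSmoothProj.smooth hI hs ⟨j, hj⟩
  obtain ⟨v, g, hvg⟩ := exists_v0 hJ he ha C hj
  obtain ⟨Ψ, _, _⟩ := exists_adj hI (frm_hom a) C hj
  have h2 := smooth_adj he hvg
  exact Algebra.Smooth.of_equiv Ψ

/-- (G5) The cyclic cover is smooth. -/
theorem cyc_smooth (hJ : Good J m) (he : 1 ≤ e) (ha : AlgebraicIndependent κ a) :
    IsHomog (cyc (bI (algebraMap κ K) J) (frm a) e) ∧ IsSmoothProj (cyc (bI (algebraMap κ K) J) (frm a) e) := by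
  have hI : IsHomog (bI (algebraMap κ K) J) := IsHomog.map _ hJ.homog
  refine ⟨cyc_homog hI (frm_hom a), fun i => ?_⟩
  induction i using Fin.lastCases with
  | last => exact smooth_last hI (frm_hom a) he fun l => smooth_cs hJ he ha (Finset.singleton_nonempty l)
  | cast l =>
    have h1 := smooth_cs (K := K) hJ he ha (Finset.singleton_nonempty l)
    have h2 : cs ({l} : Finset (Fin n)) = {l.castSucc} := Finset.map_singleton _ _
    rwa [h2] at h1

/-- (G5') A derivation of the functions on `U_C` (`C` a nonempty set of coordinates `x_l`) with `v ζ + g ζ = 1`, `ζ = z / x_j`. -/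
theorem exists_der_chart (hJ : Good J m) (he : 1 ≤ e) (ha : AlgebraicIndependent κ a)
    {C : Finset (Fin (n + 1))} (hC : Fin.last n ∉ C) {j : Fin (n + 1)} (hj : j ∈ C) :
    ∃ (v : Derivation K (chart (cyc (bI (algebraMap κ K) J) (frm a) e) C) (chart (cyc (bI (algebraMap κ K) J) (frm a) e) C))
      (g : chart (cyc (bI (algebraMap κ K) J) (frm a) e) C),
      v (cq (cyc (bI (algebraMap κ K) J) (frm a) e) C (Fin.last n) hj) +
        g * cq (cyc (bI (algebraMap κ K) J) (frm a) e) C (Fin.last n) hj = 1 := by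
  obtain ⟨C', rfl⟩ := exists_cs hC
  obtain ⟨j', hj', rfl⟩ := Finset.mem_map.1 hj
  have hI : IsHomog (bI (algebraMap κ K) J) := IsHomog.map _ hJ.homog
  obtain ⟨v, g, hvg⟩ := exists_v0 hJ he ha C' hj'
  obtain ⟨Ψ, _, hΨ⟩ := exists_adj hI (frm_hom a) C' hj'
  obtain ⟨V, g', hV⟩ := der_adj he hvg
  obtain ⟨W, g'', hW⟩ := GSm_tr Ψ V hV
  rw [hΨ] at hW
  exact ⟨W, g'', hW⟩

end MPadcDC
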