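import Pool.Agent.Lib.MP_adc574_ag_DC.PHom
import Pool.Agent.Lib.MP_adc574_ag_GP.Parts2

/-!
# DC, Part P: the position theorem over `κ` (definition)
-/

set_option autoImplicit false

namespace MPadcDC

open MvPolynomial MPadcGP

universe u v w

/-- The weight `μ` part of `H^m_dR` of the generic cyclic cover over `K`. -/
noncomputable abbrev HK {κ : Type u} [Field κ] {n : ℕ} (e : ℕ) [NeZero e] {J : Ideal (MvPolynomial (Fin n) κ)} (hJ : IsHomog J)
    (K : Type u) [Field K] [Algebra (Ra κ n e) K] (m : ℕ) (μ : ZMod e) :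
    Submodule K ((prC (bI (algebraMap (Ra κ n e) K) (cycG J e))).HdR m) :=
  (grP ((isHomog_cycG (e := e) hJ).map (algebraMap (Ra κ n e) K))
    ((isWHomog_cycG (e := e) hJ).map (algebraMap (Ra κ n e) K))).HW m μ

/-- The position theorem for the generic cyclic covers of degree `e` of the scheme with the ideal `J` over `κ`. -/
def KeyPos {κ : Type u} [Field κ] {n : ℕ} (e : ℕ) [NeZero e] {J : Ideal (MvPolynomial (Fin n) κ)} (hJ : IsHomog J) :
    Prop :=
  ∀ (K : Type u) [Field K] [Algebra (Ra κ n e) K] [IsFractionRing (Ra κ n e) K] (DK : Mon n e → Derivation ℤ K K),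
    (∀ γ P, DK γ (algebraMap (Ra κ n e) K P) = algebraMap (Ra κ n e) K (pderiv γ P)) →
    ∀ (L : Type u) [Field L] [Algebra K L], (∀ x : L, IsAlgebraic K x → x ∈ (algebraMap K L).range) →
    ∀ (DL : Mon n e → Derivation ℤ L L), (∀ γ x, DL γ (algebraMap K L x) = algebraMap K L (DK γ x)) →
    ∀ (m : ℕ) (μ : ZMod e), μ ≠ 0 → ∀ (g : Type) [Fintype g] [DecidableEq g]
      (c : g → (↥(HK e hJ K m μ) →ₗ[K] L)), (∀ lam : g → L, (∀ x, ∑ v, lam v * c v x = 0) → lam = 0) →
      ∀ (ν : Mon n e → Matrix g g L),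
        (∀ (γ : Mon n e) (v : g) (x y : ↥(HK e hJ K m μ)),
          (prC (bI (algebraMap (Ra κ n e) K) (cycG J e))).gaussManin m (DK γ) x y →
            DL γ (c v x) = c v y + ∑ v', ν γ v v' * c v' x) →
        ∀ f : g → ↥(HK e hJ K m μ), LinearIndependent K f → (Matrix.of fun v u => c v (f u)).det ≠ 0

end MPadcDC
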