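import Pool.Agent.Lib.MP_adc574_ag_DC.C5D
import Pool.Agent.Lib.MP_adc574_ag_DC.PDefs
import Pool.Agent.Lib.MP_adc574_ag_DC.GBaseA
import Pool.Agent.Lib.MP_adc574_ag_DC.GSm

/-!
# DC: the key lemma for the generic cyclic cover in the form of Part P
-/

set_option autoImplicit false
set_option linter.unusedSectionVars false

namespace MPadcDC

open MvPolynomial TensorProduct MPadcGP MPadcGP2

universe u v w

/-- The generic cyclic cover is smooth. -/
theorem cyc_smoothP {κ K : Type u} [Field κ] [CharZero κ] [Field K] [Algebra κ K] {n e : ℕ} (he : 2 ≤ e)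
    {J : Ideal (MvPolynomial (Fin n) κ)} (hJ : IsHomog J) (hpr : J.IsPrime) (hs : IsSmoothProj J)
    (hX : ∃ l, (X l : MvPolynomial (Fin n) κ) ∉ J) (a : Mon n e → K) (ha : AlgebraicIndependent κ a) :
    IsSmoothProj (cyc (bI (algebraMap κ K) J) (frm a) e) := by
  obtain ⟨m, hG⟩ := exists_good hJ hpr hs hX
  exact (cyc_smooth hG (by omega) ha).2

section key

variable {κ : Type u} [Field κ] [CharZero κ] {n : ℕ} {J : Ideal (MvPolynomial (Fin n) κ)} {K : Type u} [Field K]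
  [Algebra κ K] {e : ℕ}

variable [Algebra (Ra κ n e) K] [IsScalarTower κ (Ra κ n e) K] [IsFractionRing (Ra κ n e) K]

private theorem CKey_aux [NeZero e] {m : ℕ} (hJ : Good J m) (I : Ideal (MvPolynomial (Fin (n + 1)) K))
    (hI : I = cyc (bI (algebraMap κ K) J) (frm (ak κ n e K)) e) (h1 : IsHomog I) (h2 : IsWHomog (wz n e) I)
    {m' : ℕ} {μ : ZMod e} (hμ : μ ≠ 0) {dK : Mon n e → Derivation ℤ K K}
    (hdK : ∀ γ r, dK γ (algebraMap (Ra κ n e) K r) = algebraMap (Ra κ n e) K (pderiv γ r))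
    {L : Type u} [Field L] [Algebra K L]
    (hcl : ∀ x : L, IsAlgebraic K x → x ∈ (algebraMap K L).range) (DL : Mon n e → Derivation ℤ L L)
    (hDL : ∀ γ x, DL γ (algebraMap K L x) = algebraMap K L (dK γ x)) {g : Type} [Fintype g] [DecidableEq g]
    (cv : g → ↥((grP h1 h2).HW m' μ) →ₗ[K] L)
    (hci : ∀ lam : g → L, (∀ x, ∑ v, lam v * cv v x = 0) → lam = 0)
    (ν : Mon n e → Matrix g g L)
    (hst : ∀ (γ : Mon n e) (v : g) (x y : ↥((grP h1 h2).HW m' μ)),
      (prC I).gaussManin m' (dK γ) (x : (prC I).HdR m') (y : (prC I).HdR m') →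
        DL γ (cv v x) = cv v y + ∑ v', ν γ v v' * cv v' x)
    (f : g → ↥((grP h1 h2).HW m' μ)) (hf : LinearIndependent K f) :
    (Matrix.of fun v u : g => cv v (f u)).det ≠ 0 := by
  subst hI
  exact keypos_cyc' hJ hμ hdK hcl DL hDL cv hci (fun γ v => ⟨ν γ v, fun x y => hst γ v x y⟩) f hf

end key

/-- The key lemma: Parts A, L, C, G. -/
theorem keypos_cyc {κ : Type u} [Field κ] [CharZero κ] {n e : ℕ} [NeZero e] (he : 2 ≤ e)
    {J : Ideal (MvPolynomial (Fin n) κ)} (hJ : IsHomog J) (hpr : J.IsPrime) (hs : IsSmoothProj J)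
    (hX : ∃ l, (X l : MvPolynomial (Fin n) κ) ∉ J) : KeyPos e hJ := by
  intro K _ _ _ DK hDK L _ _ hcl DL hDL m μ hμ g _ _ c hci ν hst f hf
  letI : Algebra κ K := ((algebraMap (Ra κ n e) K).comp (algebraMap κ (Ra κ n e))).toAlgebra
  haveI : IsScalarTower κ (Ra κ n e) K := IsScalarTower.of_algebraMap_eq' rfl
  obtain ⟨m0, hG⟩ := exists_good hJ hpr hs hX
  have hI : bI (algebraMap (Ra κ n e) K) (cycG J e) = cyc (bI (algebraMap κ K) J) (frm (ak κ n e K)) e :=
    bI_cycG (algebraMap (Ra κ n e) K) J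
  exact CKey_aux hG _ hI _ _ hμ hDK hcl DL hDL c hci ν hst f hf

end MPadcDC
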