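import Pool.Agent.Lib.MP_adc574_ag_DC.DefsL
import Pool.Agent.Lib.MP_adc574_ag_GP.Fin4a

/-!
# DC: common definitions (in DefsL), with the library GP
-/
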