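import Pool.Agent.Lib.MP_adc574_ag_GP.Mod4

/-!
# DC: common definitions

* `Mon n e`: the exponents of degree `e` in `n` variables; `Ra A n e = A[a_γ]`.
* `frm a = ∑ a_γ x ^ γ`, `cyc I F e = (I, z ^ e - F)` (`z` the last variable), `cycG I e`: the same over `A[a]` for the
  generic form `∑ X_γ x ^ γ`.
* `wz`: the weights in `ZMod e`: `1` for the `x_l`, `0` for `z`.
-/

set_option autoImplicit false

namespace MPadcDC

open MvPolynomial MPadcGP

universe u v w

/-- The exponents of degree `e`. -/
abbrev Mon (n e : ℕ) : Type := {g : Fin n →₀ ℕ // g ∈ (Finset.univ : Finset (Fin n)).finsuppAntidiag e}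

/-- The polynomials in the coefficients `a_γ`. -/
abbrev Ra (A : Type u) [CommRing A] (n e : ℕ) : Type u := MvPolynomial (Mon n e) A

section

variable {A : Type u} [CommRing A] {n e : ℕ}

/-- The form with the coefficients `a`. -/
noncomputable def frm (a : Mon n e → A) : MvPolynomial (Fin n) A := ∑ g : Mon n e, monomial g.1 (a g)

/-- The ideal `(I, z ^ e - F)`; `z` is the last variable. -/
noncomputable def cyc (I : Ideal (MvPolynomial (Fin n) A)) (F : MvPolynomial (Fin n) A) (e : ℕ) :
    Ideal (MvPolynomial (Fin (n + 1)) A) :=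
  I.map (rename Fin.castSucc : MvPolynomial (Fin n) A →ₐ[A] MvPolynomial (Fin (n + 1)) A).toRingHom ⊔
    Ideal.span {X (Fin.last n) ^ e - rename Fin.castSucc F}

/-- The generic cyclic cover over `A[a]`. -/
noncomputable def cycG (I : Ideal (MvPolynomial (Fin n) A)) (e : ℕ) :
    Ideal (MvPolynomial (Fin (n + 1)) (Ra A n e)) :=
  cyc (bI (C : A →+* Ra A n e) I) (frm (X : Mon n e → Ra A n e)) e

/-- The weights. -/
def wz (n e : ℕ) : Fin (n + 1) → ZMod e := fun l => if l = Fin.last n then 0 else 1

theorem bI_frm {B : Type v} [CommRing B] (φ : A →+* B) (a : Mon n e → A) :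
    MvPolynomial.map φ (frm a) = frm fun g => φ (a g) := by
  unfold frm
  rw [map_sum]
  refine Finset.sum_congr rfl fun g _ => ?_
  rw [map_monomial]

theorem bI_cyc {B : Type v} [CommRing B] (φ : A →+* B) (I : Ideal (MvPolynomial (Fin n) A))
    (F : MvPolynomial (Fin n) A) : bI φ (cyc I F e) = cyc (bI φ I) (MvPolynomial.map φ F) e := by
  unfold bI cyc
  rw [Ideal.map_sup, Ideal.map_map, Ideal.map_map, Ideal.map_span, Set.image_singleton, map_sub, map_pow, map_X,
    map_rename]
  congr 2
  refine RingHom.ext fun x => ?_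
  exact map_rename φ Fin.castSucc x

theorem bI_cycG {B : Type v} [CommRing B] (Φ : Ra A n e →+* B) (I : Ideal (MvPolynomial (Fin n) A)) :
    bI Φ (cycG I e) = cyc (bI (Φ.comp C) I) (frm fun g => Φ (X g)) e := by
  unfold cycG
  rw [bI_cyc, bI_frm, bI_bI]

theorem bI_cycG_map {B : Type v} [CommRing B] (φ : A →+* B) (I : Ideal (MvPolynomial (Fin n) A)) :
    bI (MvPolynomial.map φ : Ra A n e →+* Ra B n e) (cycG I e) = cycG (bI φ I) e := by
  unfold cycG
  rw [bI_cyc, bI_frm, bI_bI, bI_bI]
  have h1 : (MvPolynomial.map φ : Ra A n e →+* Ra B n e).comp C = (C : B →+* Ra B n e).comp φ :=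
    RingHom.ext fun x => map_C φ x
  have h2 : (fun g : Mon n e => MvPolynomial.map φ (X g : Ra A n e)) = fun g => (X g : Ra B n e) :=
    funext fun g => map_X φ g
  rw [h1, h2]

end

end MPadcDC
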