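import Pool.Agent.Lib.MP_adc574_ag_GP.Mod4

/-!
# GAC: prime ideals over an algebraically closed field stay prime

JOB GAC. `S = κ[x]/J` a domain, `κ` algebraically closed: `K ⊗ S` is a domain. Let `u v = 0` in `K ⊗ S`, `u = ∑ c_i ⊗ s_i` with `s_i`
linearly independent over `κ`, `v = ∑ d_j ⊗ t_j` the same. Let `A ⊆ K` be the `κ`-algebra generated by the `c_i`, `d_j`; `A ⊗ S → K ⊗ S` is injective, so
`u v = 0` in `A ⊗ S`. For every homomorphism `φ : A → κ` of `κ`-algebras `φ(u) φ(v) = 0` in `S`, so `φ(c_i) = 0` for all `i` or `φ(d_j) = 0` for all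
`j`; so `c_i d_j` is in all maximal ideals of `A` (residue fields are `κ`: Nullstellensatz,
`Ideal.IsMaximal` + `Algebra.FiniteType` + `IsAlgClosed`), `A` is a Jacobson ring and a domain, so `c_i d_j = 0`.
`tensor_domain` first, then `bI_prime` (`K[x]/bI J = K ⊗ κ[x]/J`: `Algebra.TensorProduct` quotient lemmas, or directly: the homomorphism
`K[x] → K ⊗ S` has the kernel `bI J`).
-/

set_option autoImplicit false

namespace MPadcDC

open MvPolynomial TensorProduct MPadcGP

universe u v

private theorem GAC_key {κ : Type u} [Field κ] [IsAlgClosed κ] {K S : Type u} [Field K] [Algebra κ K]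
    [CommRing S] [Algebra κ S] [IsDomain S] {ι : Type u} (b : Module.Basis ι κ S) (s t : Finset ι) (c d : ι → K)
    (h : ∀ k, ∑ i : s, ∑ j : t, c i * d j * algebraMap κ K (b.repr (b i * b j) k) = 0) (i0 : s) (j0 : t) :
    c i0 * d j0 = 0 := by
  let f : s ⊕ t → K := Sum.elim (fun i => c i) (fun j => d j)
  let φ : MvPolynomial (s ⊕ t) κ →ₐ[κ] K := aeval f
  have hprime : (RingHom.ker φ.toRingHom).IsPrime := RingHom.ker_isPrime φ.toRingHom
  have hF : ∀ k, (∑ i : s, ∑ j : t, X (Sum.inl i) * X (Sum.inr j) * C (b.repr (b i * b j) k) :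
      MvPolynomial (s ⊕ t) κ) ∈ RingHom.ker φ.toRingHom := by
    intro k
    rw [RingHom.mem_ker]
    change φ _ = 0
    rw [← h k, map_sum]
    refine Finset.sum_congr rfl fun i _ => ?_
    rw [map_sum]
    refine Finset.sum_congr rfl fun j _ => ?_
    rw [map_mul, map_mul]
    change aeval f (X (Sum.inl i)) * aeval f (X (Sum.inr j)) * aeval f (C _) = _
    rw [aeval_X, aeval_X, algHom_C]
    rfl
  have hp : (X (Sum.inl i0) * X (Sum.inr j0) : MvPolynomial (s ⊕ t) κ) ∈
      vanishingIdeal κ (zeroLocus κ (RingHom.ker φ.toRingHom)) := by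
    rw [mem_vanishingIdeal_iff]
    intro x hx
    rw [mem_zeroLocus_iff] at hx
    rw [map_mul, aeval_X, aeval_X]
    have hmul : (∑ i : s, x (Sum.inl i) • b i) * (∑ j : t, x (Sum.inr j) • b j) = 0 := by
      apply b.repr.injective
      refine Finsupp.ext fun k => ?_
      have h1 := hx _ (hF k)
      rw [map_sum] at h1
      rw [Finset.sum_mul_sum, map_sum, Finsupp.finsetSum_apply, map_zero, Finsupp.zero_apply, ← h1]
      refine Finset.sum_congr rfl fun i _ => ?_
      rw [map_sum, Finsupp.finsetSum_apply, map_sum]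
      refine Finset.sum_congr rfl fun j _ => ?_
      rw [smul_mul_smul_comm, map_smul, Finsupp.smul_apply, smul_eq_mul, map_mul (aeval x), map_mul (aeval x),
        aeval_X, aeval_X, algHom_C]
      rfl
    rcases mul_eq_zero.1 hmul with h2 | h2
    · have h3 := Fintype.linearIndependent_iff.1 (b.linearIndependent.comp (Subtype.val : s → ι)
        Subtype.val_injective) (fun i => x (Sum.inl i)) h2 i0
      rw [h3, zero_mul]
    · have h3 := Fintype.linearIndependent_iff.1 (b.linearIndependent.comp (Subtype.val : t → ι)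
        Subtype.val_injective) (fun j => x (Sum.inr j)) h2 j0
      rw [h3, mul_zero]
  rw [vanishingIdeal_zeroLocus_eq_radical, hprime.radical, RingHom.mem_ker] at hp
  have h4 : φ (X (Sum.inl i0) * X (Sum.inr j0)) = 0 := hp
  rw [map_mul] at h4
  change aeval f (X (Sum.inl i0)) * aeval f (X (Sum.inr j0)) = 0 at h4
  rw [aeval_X, aeval_X] at h4
  exact h4

theorem tensor_domain {κ : Type u} [Field κ] [IsAlgClosed κ] (K S : Type u) [Field K] [Algebra κ K] [CommRing S]
    [Algebra κ S] [IsDomain S] : IsDomain (K ⊗[κ] S) := by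
  let b := Module.Basis.ofVectorSpace κ S
  let B := Algebra.TensorProduct.basis K b
  have hne : Nonempty (Module.Basis.ofVectorSpaceIndex κ S) := b.index_nonempty
  have hnt : Nontrivial (K ⊗[κ] S) := ⟨⟨B (Classical.arbitrary _), 0, B.ne_zero _⟩⟩
  have hnz : NoZeroDivisors (K ⊗[κ] S) := by
    refine ⟨fun {u v} huv => ?_⟩
    by_contra hcon
    rw [not_or] at hcon
    obtain ⟨hu, hv⟩ := hcon
    have hu1 : B.repr u ≠ 0 := fun h => hu (B.repr.injective (by rw [h, map_zero]))
    have hv1 : B.repr v ≠ 0 := fun h => hv (B.repr.injective (by rw [h, map_zero]))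
    obtain ⟨i0, hi0⟩ := Finsupp.ne_iff.1 hu1
    obtain ⟨j0, hj0⟩ := Finsupp.ne_iff.1 hv1
    rw [Finsupp.zero_apply] at hi0 hj0
    have hu2 : u = ∑ i : (B.repr u).support, B.repr u i • B i := by
      rw [Finset.sum_coe_sort (B.repr u).support (fun i => B.repr u i • B i)]
      exact (B.linearCombination_repr u).symm
    have hv2 : v = ∑ j : (B.repr v).support, B.repr v j • B j := by
      rw [Finset.sum_coe_sort (B.repr v).support (fun i => B.repr v i • B i)]
      exact (B.linearCombination_repr v).symm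
    have key := GAC_key b (B.repr u).support (B.repr v).support (B.repr u) (B.repr v) (fun k => by
      have h1 : B.repr (u * v) k = 0 := by
        rw [huv, map_zero]
        rfl
      rw [← h1]
      conv_rhs => rw [hu2, hv2]
      rw [Finset.sum_mul_sum, map_sum, Finsupp.finsetSum_apply]
      refine Finset.sum_congr rfl fun i _ => ?_
      rw [map_sum, Finsupp.finsetSum_apply]
      refine Finset.sum_congr rfl fun j _ => ?_
      rw [smul_mul_smul_comm, map_smul, Finsupp.smul_apply, smul_eq_mul]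
      congr 1
      change _ = (Algebra.TensorProduct.basis K b).repr
        (Algebra.TensorProduct.basis K b i * Algebra.TensorProduct.basis K b j) k
      rw [Algebra.TensorProduct.basis_apply, Algebra.TensorProduct.basis_apply,
        Algebra.TensorProduct.tmul_mul_tmul, Algebra.TensorProduct.basis_repr_tmul, mul_one, one_smul,
        Finsupp.mapRange_apply]) ⟨i0, Finsupp.mem_support_iff.2 hi0⟩ ⟨j0, Finsupp.mem_support_iff.2 hj0⟩
    rcases mul_eq_zero.1 key with h5 | h5
    · exact hi0 h5
    · exact hj0 h5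
  exact NoZeroDivisors.to_isDomain _

theorem bI_prime {κ : Type u} [Field κ] [IsAlgClosed κ] {n : ℕ} {J : Ideal (MvPolynomial (Fin n) κ)} (hJ : J.IsPrime)
    (K : Type u) [Field K] [Algebra κ K] : (bI (algebraMap κ K) J).IsPrime := by
  have hD : IsDomain (MvPolynomial (Fin n) κ ⧸ J) := Ideal.Quotient.isDomain J
  have hT : IsDomain (K ⊗[κ] (MvPolynomial (Fin n) κ ⧸ J)) := tensor_domain K _
  let g : MvPolynomial (Fin n) κ →ₐ[κ] (MvPolynomial (Fin n) κ ⧸ J) := Ideal.Quotient.mkₐ κ J
  have hg : Function.Surjective g := Ideal.Quotient.mkₐ_surjective κ J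
  let e := algebraTensorAlgEquiv (σ := Fin n) κ K
  have h1 := Algebra.TensorProduct.lTensor_ker (A := K) g hg
  have hk : RingHom.ker g = J := Ideal.Quotient.mkₐ_ker κ J
  rw [hk] at h1
  have hx : ∀ x : MvPolynomial (Fin n) κ, MvPolynomial.map (algebraMap κ K) x =
      e.toRingEquiv ((Algebra.TensorProduct.includeRight :
      MvPolynomial (Fin n) κ →ₐ[κ] K ⊗[κ] MvPolynomial (Fin n) κ) x) := fun x => by
    change MvPolynomial.map (algebraMap κ K) x = e (1 ⊗ₜ[κ] x)
    rw [algebraTensorAlgEquiv_tmul, one_smul]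
  have h2 : bI (algebraMap κ K) J = (J.map (Algebra.TensorProduct.includeRight :
      MvPolynomial (Fin n) κ →ₐ[κ] K ⊗[κ] MvPolynomial (Fin n) κ)).map e.toRingEquiv := by
    apply le_antisymm
    · rw [Ideal.map_le_iff_le_comap]
      intro x hxJ
      rw [Ideal.mem_comap, hx]
      exact Ideal.mem_map_of_mem _ (Ideal.mem_map_of_mem _ hxJ)
    · rw [Ideal.map_le_iff_le_comap, Ideal.map_le_iff_le_comap]
      intro x hxJ
      rw [Ideal.mem_comap, Ideal.mem_comap, ← hx]
      exact Ideal.mem_map_of_mem _ hxJ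
  rw [h2, ← h1]
  have h3 : (RingHom.ker (Algebra.TensorProduct.map (AlgHom.id κ K) g)).IsPrime := RingHom.ker_isPrime _
  exact Ideal.map_isPrime_of_equiv e.toRingEquiv

end MPadcDC
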