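import Mathlib

/-!
# GAdm: `S[X]/(X^e - F)` is a domain if `X^e - F` is irreducible over the fraction field

JOB GAdm. `adj_domain`: `S[X]/(X^e - F) → L[X]/(X^e - F)` is injective as `X^e - F` is monic (`L = Frac S`): division with remainder
commutes with `S → L` (`Polynomial.map_modByMonic`).

-/

set_option autoImplicit false

namespace MPadcDC

open MvPolynomial TensorProduct

universe u v

theorem adj_domain {S L : Type u} [CommRing S] [IsDomain S] [Field L] [Algebra S L] [IsFractionRing S L] {e : ℕ} (he : 1 ≤ e)
    {F : S} (h : Irreducible (Polynomial.X ^ e - Polynomial.C (algebraMap S L F) : Polynomial L)) :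
    IsDomain (AdjoinRoot (Polynomial.X ^ e - Polynomial.C F : Polynomial S)) := by
  have he0 : e ≠ 0 := Nat.one_le_iff_ne_zero.1 he
  have hm : (Polynomial.X ^ e - Polynomial.C F : Polynomial S).Monic :=
    Polynomial.monic_X_pow_sub_C F he0
  have hinj : Function.Injective (algebraMap S L) := IsFractionRing.injective S L
  have hmap : (Polynomial.X ^ e - Polynomial.C F : Polynomial S).map (algebraMap S L) =
      Polynomial.X ^ e - Polynomial.C (algebraMap S L F) := by
    rw [Polynomial.map_sub, Polynomial.map_pow, Polynomial.map_X, Polynomial.map_C]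
  refine AdjoinRoot.isDomain_of_prime ⟨hm.ne_zero, ?_, ?_⟩
  · intro hu
    apply h.not_isUnit
    rw [← hmap]
    exact hu.map (Polynomial.mapRingHom (algebraMap S L))
  · intro a b hab
    have h1 : Polynomial.X ^ e - Polynomial.C (algebraMap S L F) ∣
        a.map (algebraMap S L) * b.map (algebraMap S L) := by
      rw [← hmap, ← Polynomial.map_mul]
      exact Polynomial.map_dvd (algebraMap S L) hab
    rw [← hmap] at h1 h
    rcases h.prime.2.2 _ _ h1 with h2 | h2
    · exact Or.inl ((Polynomial.map_dvd_map _ hinj hm).1 h2)
    · exact Or.inr ((Polynomial.map_dvd_map _ hinj hm).1 h2)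

end MPadcDC
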