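import Pool.Agent.Lib.MP_adc574_ag_DC.GBaseA
import Pool.Agent.Lib.MP_adc574_ag_GP.Mod3

/-!
# GBaseB: extension of the field

JOB GBaseB.
* `X_mem_bI`: choose a `κ`-linear projection `π : K → κ`, `π 1 = 1`; it maps `bI J` to `J` coefficientwise (`bI J` is spanned over `K` by the
  `map f`, `f ∈ J`, as a `K`-module). More generally `map f ∈ bI J ↔ f ∈ J`.
* `Good.map`: `IsHomog.map`, `IsSmoothProj.map`, `bce` (`chart (bI J) C = K ⊗ chart J C`), `KaehlerDifferential.tensorKaehlerEquiv`
  (`Ω` commutes with base change); rank: `Ω[A0⁄κ]` becomes free over a localization of `A0` (or: pass to the fraction fields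
  `Frac A0 → Frac (K ⊗ A0)`, `finrank_loc`, `Module.finrank_baseChange` for vector spaces).

-/

set_option autoImplicit false

namespace MPadcDC

open MvPolynomial TensorProduct MPadcGP

universe u v

variable {κ : Type u} [Field κ] [CharZero κ] {n : ℕ} {J : Ideal (MvPolynomial (Fin n) κ)} {m : ℕ}

attribute [local instance] MvPolynomial.algebraMvPolynomial in
omit [CharZero κ] in
private theorem GBaseB_ff {K : Type u} [Field K] [Algebra κ K] :
    Module.FaithfullyFlat (MvPolynomial (Fin n) κ) (MvPolynomial (Fin n) K) := by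
  have h1 : IsBaseChange (MvPolynomial (Fin n) κ)
      (IsScalarTower.toAlgHom κ K (MvPolynomial (Fin n) K)).toLinearMap :=
    (inferInstance : Algebra.IsPushout κ (MvPolynomial (Fin n) κ) K (MvPolynomial (Fin n) K)).out
  exact Module.FaithfullyFlat.of_linearEquiv _ _ h1.equiv.symm

attribute [local instance] MvPolynomial.algebraMvPolynomial in
omit [CharZero κ] in
theorem mem_bI {K : Type u} [Field K] [Algebra κ K] (f : MvPolynomial (Fin n) κ) :
    MvPolynomial.map (algebraMap κ K) f ∈ bI (algebraMap κ K) J ↔ f ∈ J := by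
  have h0 : Module.FaithfullyFlat (MvPolynomial (Fin n) κ) (MvPolynomial (Fin n) K) := GBaseB_ff
  have h1 : (J.map (algebraMap (MvPolynomial (Fin n) κ) (MvPolynomial (Fin n) K))).comap
      (algebraMap (MvPolynomial (Fin n) κ) (MvPolynomial (Fin n) K)) = J :=
    Ideal.comap_map_eq_self_of_faithfullyFlat J
  constructor
  · intro h
    rw [← h1, Ideal.mem_comap]
    exact h
  · intro h
    exact bI_mem _ J f h

omit [CharZero κ] in
theorem X_mem_bI {K : Type u} [Field K] [Algebra κ K] (l : Fin n) :
    (X l : MvPolynomial (Fin n) K) ∈ bI (algebraMap κ K) J ↔ (X l : MvPolynomial (Fin n) κ) ∈ J := by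
  rw [← mem_bI (K := K) (X l : MvPolynomial (Fin n) κ), map_X]

omit [CharZero κ] in
private theorem GBaseB_rank {K : Type u} [Field K] [Algebra κ K] (hJ : Good J m)
    (hp : (bI (algebraMap κ K) J).IsPrime) {l : Fin n}
    (hl : (X l : MvPolynomial (Fin n) κ) ∉ J) (hl' : (X l : MvPolynomial (Fin n) K) ∉ bI (algebraMap κ K) J) :
    Module.finrank (chart (bI (algebraMap κ K) J) {l}) (Ω[chart (bI (algebraMap κ K) J) {l}⁄K]) =
      Module.finrank (chart J {l}) (Ω[chart J {l}⁄κ]) := by
  have hd := chart_domain hJ.prime hl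
  have hd' := chart_domain hp hl'
  let _ : Algebra (chart J {l}) (chart (bI (algebraMap κ K) J) {l}) := (cmA (B := K) J {l}).toRingHom.toAlgebra
  have ht : IsScalarTower κ (chart J {l}) (chart (bI (algebraMap κ K) J) {l}) :=
    IsScalarTower.of_algebraMap_eq fun a => ((cmA (B := K) J {l}).commutes a).symm
  have hbc : IsBaseChange K (cmA (B := K) J {l}).toLinearMap :=
    cmA_isBaseChange hJ.homog (Finset.singleton_nonempty l)
  have hpo : Algebra.IsPushout κ K (chart J {l}) (chart (bI (algebraMap κ K) J) {l}) := ⟨hbc⟩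
  have hinj : Function.Injective (algebraMap (chart J {l}) (chart (bI (algebraMap κ K) J) {l})) := by
    have h1 : Function.Injective ((TensorProduct.mk κ K (chart J {l})) 1) :=
      Module.FaithfullyFlat.tensorProduct_mk_injective (chart J {l})
    intro x y hxy
    apply h1
    apply hbc.equiv.injective
    rw [TensorProduct.mk_apply, TensorProduct.mk_apply, hbc.equiv_tmul, hbc.equiv_tmul]
    exact congrArg _ hxy
  have hf : FaithfulSMul (chart J {l}) (chart (bI (algebraMap κ K) J) {l}) :=
    (faithfulSMul_iff_algebraMap_injective _ _).2 hinj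
  have hk : IsBaseChange (chart (bI (algebraMap κ K) J) {l})
      (((KaehlerDifferential.tensorKaehlerEquiv κ K (chart J {l})
        (chart (bI (algebraMap κ K) J) {l})).toLinearMap.restrictScalars (chart J {l})).comp
        (TensorProduct.mk (chart J {l}) (chart (bI (algebraMap κ K) J) {l}) (Ω[chart J {l}⁄κ]) 1)) :=
    IsBaseChange.of_equiv (KaehlerDifferential.tensorKaehlerEquiv κ K (chart J {l})
        (chart (bI (algebraMap κ K) J) {l})) fun x => rfl
  exact hk.finrank_eq

omit [CharZero κ] in
theorem Good.map {K : Type u} [Field K] [Algebra κ K] (hJ : Good J m) (hp : (bI (algebraMap κ K) J).IsPrime) :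
    Good (bI (algebraMap κ K) J) m := by
  refine ⟨hJ.homog.map _, hp, hJ.smooth.map hJ.homog _, ?_, fun l hl => ?_⟩
  · obtain ⟨l, hl⟩ := hJ.ne
    exact ⟨l, fun h => hl ((X_mem_bI l).1 h)⟩
  · have hl0 : (X l : MvPolynomial (Fin n) κ) ∉ J := fun h => hl ((X_mem_bI l).2 h)
    rw [GBaseB_rank hJ hp hl0 hl]
    exact hJ.rank l hl0

end MPadcDC
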