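import Pool.Agent.Lib.MP_adc574_ag_DC.GMk

/-!
# GExK: extension of derivations to a bigger field

`K ⊇ κ` a field, `J_K = bI J`.
JOB GExK. `exists_extK`: the derivation `D` of `S[1/x_l]` extends to `S_K[1/x_l]`, linear over `K`: the derivation
`K[x] → S_K[1/x_l]` with `x_k ↦ lK (D x_k)` (`MvPolynomial.mkDerivation`) maps `map f` to `lK (D f)` for `f ∈ κ[x]`, so it kills the generators of
`J_K`, hence (product rule) `J_K`; it descends to `S_K` and extends to the localization (`exists_der_loc`: a derivation `A → M` with values in a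
module over the localization extends, `D(a/s) = (s D a - a D s)/s^2`; or with `KaehlerDifferential`, formally étale).
-/

set_option autoImplicit false

namespace MPadcDC

open MvPolynomial TensorProduct MPadcGP

universe u v

variable {κ : Type u} [Field κ] {n : ℕ} {J : Ideal (MvPolynomial (Fin n) κ)} {l : Fin n} {e m : ℕ}

variable (J) in
/-- `S[1/x_l] → S_K[1/x_l]` -/
noncomputable abbrev lK (K : Type u) [Field K] [Algebra κ K] (l : Fin n) :
    LR J {l} →+* LR (bI (algebraMap κ K) J) {l} :=
  lmap (algebraMap κ K) (bI_mem (algebraMap κ K) J) (Finset.Subset.refl {l})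

variable {K : Type u} [Field K] [Algebra κ K] {a : Mon n e → K}

theorem exists_der_loc {k A B : Type u} [CommRing k] [CommRing A] [CommRing B] [Algebra k A] [Algebra k B] [Algebra A B]
    [IsScalarTower k A B] (M : Submonoid A) [IsLocalization M B] (D : Derivation k A B) :
    ∃ D' : Derivation k B B, ∀ x : A, D' (algebraMap A B x) = D x := by
  have h1 : Algebra.FormallyEtale A B := Algebra.FormallyEtale.of_isLocalization M
  let L : B ⊗[A] Ω[A⁄k] →ₗ[B] B := LinearMap.liftBaseChange B D.liftKaehlerDifferential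
  let L' : Ω[B⁄k] →ₗ[B] B :=
    L ∘ₗ (KaehlerDifferential.tensorKaehlerEquivOfFormallyEtale k A B).symm.toLinearMap
  refine ⟨L'.compDer (KaehlerDifferential.D k B), fun x => ?_⟩
  show L ((KaehlerDifferential.tensorKaehlerEquivOfFormallyEtale k A B).symm
    (KaehlerDifferential.D k B (algebraMap A B x))) = D x
  rw [KaehlerDifferential.tensorKaehlerEquivOfFormallyEtale_symm_D_algebraMap]
  show LinearMap.liftBaseChange B D.liftKaehlerDifferential (1 ⊗ₜ KaehlerDifferential.D k A x) = D x
  rw [LinearMap.liftBaseChange_tmul, one_smul, Derivation.liftKaehlerDifferential_comp_D]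

private theorem GExK_ext {R : Type u} [CommRing R] (f g : MvPolynomial (Fin n) κ →+* R) (hC : ∀ c, f (C c) = g (C c))
    (hX : ∀ i, f (X i) = g (X i)) (p : MvPolynomial (Fin n) κ) : f p = g p :=
  congrArg (fun h : MvPolynomial (Fin n) κ →+* R => h p) (MvPolynomial.ringHom_ext hC hX)

private theorem GExK_C (J' : Ideal (MvPolynomial (Fin n) K)) (c : κ) :
    mkL J' {l} (MvPolynomial.map (algebraMap κ K) (C c)) = algebraMap K (LR J' {l}) (algebraMap κ K c) :=
  congrArg (mkL J' {l}) (map_C (algebraMap κ K) c)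

private theorem GExK_lmap (f : MvPolynomial (Fin n) κ) :
    lK J K l (mkL J {l} f) = mkL (bI (algebraMap κ K) J) {l} (MvPolynomial.map (algebraMap κ K) f) :=
  @GExK_ext κ _ n (LR (bI (algebraMap κ K) J) {l}) _
    ((lK J K l).comp ((algebraMap (CR J) (LR J {l})).comp (Ideal.Quotient.mk J)))
    (((algebraMap (CR (bI (algebraMap κ K) J)) (LR (bI (algebraMap κ K) J) {l})).comp
      (Ideal.Quotient.mk (bI (algebraMap κ K) J))).comp (MvPolynomial.map (algebraMap κ K)))
    (fun c => (lmap_base (algebraMap κ K) (bI_mem (algebraMap κ K) J) (Finset.Subset.refl {l}) c).trans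
      (GExK_C (bI (algebraMap κ K) J) c).symm)
    (fun i => (lmap_lx (algebraMap κ K) (bI_mem (algebraMap κ K) J) (Finset.Subset.refl {l}) i).trans
      (congrArg (mkL (bI (algebraMap κ K) J) {l}) (map_X (algebraMap κ K) i)).symm) f

private theorem GExK_abs {R S B : Type u} [CommRing R] [Algebra κ R] [CommRing S] [Algebra K S] [CommRing B] [Algebra K B]
    [Algebra B S] [IsScalarTower K B S] (J : Ideal (MvPolynomial (Fin n) κ)) (N : Submonoid B) [IsLocalization N S]
    (g : MvPolynomial (Fin n) κ →+* R) (hgc : ∀ c, g (C c) = algebraMap κ R c) (hgJ : ∀ f ∈ J, g f = 0)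
    (p : MvPolynomial (Fin n) K →ₐ[K] B) (hp : Function.Surjective p)
    (hker : ∀ f, p f = 0 ↔ f ∈ J.map (MvPolynomial.map (algebraMap κ K)))
    (φ : R →+* S) (hφ : ∀ f, φ (g f) = algebraMap B S (p (MvPolynomial.map (algebraMap κ K) f)))
    (D : Derivation κ R R) (hloc : ∀ x : R, ∃ f u, x * g u = g f ∧ IsUnit (g u)) :
    ∃ D' : Derivation K S S, ∀ x, D' (φ x) = φ (D x) := by
  let _ : Algebra (MvPolynomial (Fin n) K) S := ((algebraMap B S).comp (p : MvPolynomial (Fin n) K →+* B)).toAlgebra
  have hact : ∀ (x : MvPolynomial (Fin n) K) (z : S), x • z = algebraMap B S (p x) * z := fun x z => rfl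
  have hst : IsScalarTower K (MvPolynomial (Fin n) K) S := IsScalarTower.of_algebraMap_eq fun a => by
    refine (IsScalarTower.algebraMap_apply K B S a).trans ?_
    exact congrArg (algebraMap B S) (p.commutes a).symm
  obtain ⟨d0, hd0⟩ : ∃ d0 : Derivation K (MvPolynomial (Fin n) K) S, d0 = mkDerivation K fun k => φ (D (g (X k))) :=
    ⟨_, rfl⟩
  have h1 : ∀ f : MvPolynomial (Fin n) κ, d0 (MvPolynomial.map (algebraMap κ K) f) = φ (D (g f)) := by
    intro f
    induction f using MvPolynomial.induction_on with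
    | C c =>
      rw [map_C, hgc, Derivation.map_algebraMap, map_zero]
      exact d0.map_algebraMap (algebraMap κ K c)
    | add f h hf hh =>
      rw [map_add, map_add, hf, hh, map_add, map_add, map_add]
    | mul_X f i hf =>
      have h3 : d0 (X i) = φ (D (g (X i))) := by
        rw [hd0, mkDerivation_X]
      have h4 := hφ (X i)
      rw [map_X] at h4
      rw [map_mul, map_X, Derivation.leibniz, hf, h3, map_mul, Derivation.leibniz, hact, hact, map_add,
        smul_eq_mul, smul_eq_mul, map_mul, map_mul, hφ, h4]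
  have h2 : ∀ f ∈ J.map (MvPolynomial.map (algebraMap κ K)), d0 f = 0 := by
    intro f hf
    unfold Ideal.map at hf
    induction hf using Submodule.span_induction with
    | mem x hx =>
      obtain ⟨h, hh, rfl⟩ := hx
      have h3 := h1 h
      rw [hgJ h hh, map_zero, map_zero] at h3
      exact h3
    | zero => rw [map_zero]
    | add x y _ _ hx hy => rw [map_add, hx, hy, add_zero]
    | smul c x hx hx' =>
      have h3 : p x = 0 := (hker x).2 hx
      rw [smul_eq_mul, Derivation.leibniz, hx', smul_zero, zero_add, hact, h3, map_zero, zero_mul]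
  choose sec hsec using hp
  have hδ : ∀ f : MvPolynomial (Fin n) K, d0 (sec (p f)) = d0 f := by
    intro f
    have h3 : p (sec (p f) - f) = 0 := by rw [map_sub, hsec, sub_self]
    have h4 := h2 _ ((hker _).1 h3)
    rw [map_sub, sub_eq_zero] at h4
    exact h4
  let δl : B →ₗ[K] S :=
    { toFun := fun s => d0 (sec s)
      map_add' := by
        intro x y
        have h3 := hδ (sec x + sec y)
        rw [map_add, hsec, hsec, map_add] at h3
        exact h3
      map_smul' := by
        intro c x
        have h3 := hδ (c • sec x)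
        rw [map_smul, hsec, Derivation.map_smul] at h3
        exact h3 }
  let δ : Derivation K B S :=
    Derivation.mk' δl (by
      intro x y
      have h3 := hδ (sec x * sec y)
      rw [map_mul, hsec, hsec, Derivation.leibniz, hact, hact, hsec, hsec] at h3
      rw [Algebra.smul_def, Algebra.smul_def]
      exact h3)
  obtain ⟨D', hD'⟩ := exists_der_loc N δ
  refine ⟨D', ?_⟩
  have h3 : ∀ f : MvPolynomial (Fin n) κ, D' (φ (g f)) = φ (D (g f)) := by
    intro f
    rw [hφ, ← h1, hD']
    exact hδ _
  intro x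
  obtain ⟨f, u, h4, h5⟩ := hloc x
  have h6 := congrArg (fun z => D' (φ z)) h4
  have h7 := congrArg (fun z => φ (D z)) h4
  simp only [map_mul, Derivation.leibniz, smul_eq_mul, map_add, h3] at h6 h7
  have h8 : φ (g u) * (D' (φ x) - φ (D x)) = 0 := by
    linear_combination h6 - h7
  have h9 := (h5.map φ).mul_right_eq_zero.1 h8
  exact sub_eq_zero.1 h9

theorem exists_extK (D : Derivation κ (LR J {l}) (LR J {l})) :
    ∃ D' : Derivation K (LR (bI (algebraMap κ K) J) {l}) (LR (bI (algebraMap κ K) J) {l}),
      ∀ x, D' (lK J K l x) = lK J K l (D x) := by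
  have hloc : ∀ x : LR J {l}, ∃ f u : MvPolynomial (Fin n) κ, x * mkL J {l} u = mkL J {l} f ∧ IsUnit (mkL J {l} u) := by
    intro x
    have hh := IsLocalization.surj (Submonoid.powers (Ideal.Quotient.mk J (∏ j ∈ {l}, X j))) x
    obtain ⟨⟨s, t⟩, hst⟩ := hh
    obtain ⟨f, hf⟩ := Ideal.Quotient.mk_surjective s
    obtain ⟨g, hg⟩ := Ideal.Quotient.mk_surjective (t : CR J)
    refine ⟨f, g, ?_, ?_⟩
    · unfold mkL
      rw [hg, hf]
      exact hst
    · unfold mkL
      rw [hg]
      exact IsLocalization.map_units _ t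
  exact @GExK_abs κ _ n K _ _ (LR J {l}) (LR (bI (algebraMap κ K) J) {l}) (CR (bI (algebraMap κ K) J)) _ _ _ _ _ _ _ _
    J (Submonoid.powers (Ideal.Quotient.mk (bI (algebraMap κ K) J) (∏ j ∈ {l}, X j))) _
    ((algebraMap (CR J) (LR J {l})).comp (Ideal.Quotient.mk J)) (fun _ => rfl)
    (fun f hf => (congrArg (algebraMap (CR J) (LR J {l})) (Ideal.Quotient.eq_zero_iff_mem.2 hf)).trans (map_zero _))
    (Ideal.Quotient.mkₐ K (bI (algebraMap κ K) J)) Ideal.Quotient.mk_surjective
    (fun f => Ideal.Quotient.eq_zero_iff_mem) (lK J K l) GExK_lmap D hloc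

end MPadcDC
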