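import Pool.Agent.Lib.MP_adc574_ag_DC.GExD
import Pool.Agent.Lib.MP_adc574_ag_DC.GExK
import Pool.Agent.Lib.MP_adc574_ag_GP.Lifts

/-!
# GCoef: derivations of the coefficients

JOB GCoef.
* `exists_dK`: `ext_der` for `κ[a] → K` and `pderiv g0`.
* `exists_coefD`: the derivation of `K[x]` acting on the coefficients kills `map f`, `f ∈ κ[x]`, so it maps `bI J` to itself; it descends and extends to
  the localization (`exists_der_loc`).

-/

set_option autoImplicit false

namespace MPadcDC

open MvPolynomial TensorProduct MPadcGP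

universe u v

variable {κ : Type u} [Field κ] [CharZero κ] {n : ℕ} {J : Ideal (MvPolynomial (Fin n) κ)} {e m : ℕ} {l : Fin n}
  {K : Type u} [Field K] [Algebra κ K] {a : Mon n e → K}


/-- There is only one structure of algebra over the integers. -/
private theorem GCoef_int {B : Type u} [CommRing B] (i : Algebra ℤ B)
    (D : @Derivation ℤ B B _ _ _ (Ring.toIntAlgebra B) _ (AddCommGroup.toIntModule B)) :
    ∃ D' : @Derivation ℤ B B _ _ _ i _ (AddCommGroup.toIntModule B), ∀ x, D' x = D x := by
  obtain rfl : i = Ring.toIntAlgebra B := Subsingleton.elim _ _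
  exact ⟨D, fun _ => rfl⟩

theorem exists_dK (ha : AlgebraicIndependent κ a) (g0 : Mon n e) :
    ∃ d : Derivation ℤ K K, (∀ c : κ, d (algebraMap κ K c) = 0) ∧ d (a g0) = 1 ∧ ∀ g, g ≠ g0 → d (a g) = 0 := by

  have hK : CharZero K := charZero_of_injective_algebraMap (algebraMap κ K).injective
  let _ : Algebra (MvPolynomial (Mon n e) κ) K :=
    (aeval a : MvPolynomial (Mon n e) κ →ₐ[κ] K).toRingHom.toAlgebra
  have hi : Function.Injective (algebraMap (MvPolynomial (Mon n e) κ) K) := ha
  let δ0 : MvPolynomial (Mon n e) κ →+ K :=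
    { toFun := fun x => aeval a (pderiv g0 x)
      map_zero' := by rw [map_zero, map_zero]
      map_add' := fun x y => by rw [map_add, map_add] }
  let δ : Derivation ℤ (MvPolynomial (Mon n e) κ) K := Derivation.mk' δ0.toIntLinearMap (fun x y => by
    change aeval a (pderiv g0 (x * y)) =
      aeval a x * aeval a (pderiv g0 y) + aeval a y * aeval a (pderiv g0 x)
    rw [Derivation.leibniz, map_add, smul_eq_mul, smul_eq_mul, map_mul, map_mul])
  obtain ⟨d, hd⟩ := ext_der hi δ
  have hd' : ∀ x, d (aeval a x) = aeval a (pderiv g0 x) := fun x => hd x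
  refine ⟨d, fun c => ?_, ?_, fun g hg => ?_⟩
  · have h1 := hd' (C c)
    rw [aeval_C, pderiv_C, map_zero] at h1
    exact h1
  · have h1 := hd' (X g0)
    rw [aeval_X, pderiv_X_self, map_one] at h1
    exact h1
  · have h1 := hd' (X g)
    rw [aeval_X, pderiv_X_of_ne hg, map_zero] at h1
    exact h1

theorem exists_coefD (d : Derivation ℤ K K) (hd : ∀ c : κ, d (algebraMap κ K c) = 0) :
    ∃ D : Derivation ℤ (LR (bI (algebraMap κ K) J) {l}) (LR (bI (algebraMap κ K) J) {l}),
      (∀ c : K, D (algebraMap K _ c) = algebraMap K _ (d c)) ∧ ∀ k, D (lx (bI (algebraMap κ K) J) {l} k) = 0 := by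

  obtain ⟨V, hV⟩ := exists_lift_der (R := MvPolynomial (Fin n) K) d
  let E : Derivation K (MvPolynomial (Fin n) K) (MvPolynomial (Fin n) K) :=
    mkDerivation K fun k => V (X k)
  let D0 : MvPolynomial (Fin n) K →+ MvPolynomial (Fin n) K :=
    { toFun := fun x => V x - E x
      map_zero' := by rw [map_zero, map_zero, sub_zero]
      map_add' := fun x y => by rw [map_add, map_add]; ring }
  have hmul : ∀ x y, D0 (x * y) = x * D0 y + y * D0 x := by
    intro x y
    change V (x * y) - E (x * y) = x * (V y - E y) + y * (V x - E x)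
    rw [V.leibniz, E.leibniz, smul_eq_mul, smul_eq_mul, smul_eq_mul, smul_eq_mul]
    ring
  have hC : ∀ c, D0 (C c) = C (d c) := by
    intro c
    change V (C c) - E (C c) = C (d c)
    rw [derivation_C, sub_zero]
    exact hV c
  have hX : ∀ k, D0 (X k) = 0 := by
    intro k
    change V (X k) - E (X k) = 0
    rw [mkDerivation_X, sub_self]
  have hmap : ∀ f : MvPolynomial (Fin n) κ, D0 (MvPolynomial.map (algebraMap κ K) f) = 0 := by
    intro f
    induction f using MvPolynomial.induction_on with
    | C c => rw [map_C, hC, hd, map_zero]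
    | add p q hp hq => rw [map_add, map_add, hp, hq, add_zero]
    | mul_X p k hp => rw [map_mul, map_X, hmul, hX, hp, mul_zero, mul_zero, add_zero]
  set I := bI (algebraMap κ K) J with hIdef
  have hI : ∀ x ∈ I, D0 x ∈ I := by
    intro x hx
    induction hx using Submodule.span_induction with
    | mem x hx =>
      obtain ⟨f, _, rfl⟩ := hx
      rw [hmap]
      exact I.zero_mem
    | zero =>
      rw [map_zero]
      exact I.zero_mem
    | add x y _ _ hx hy =>
      rw [map_add]
      exact I.add_mem hx hy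
    | smul b x hxI hx =>
      rw [smul_eq_mul, hmul]
      exact I.add_mem (I.mul_mem_left _ hx) (I.mul_mem_right _ hxI)
  obtain ⟨s, hs⟩ : ∃ s : CR I → MvPolynomial (Fin n) K, ∀ y, Ideal.Quotient.mk I (s y) = y :=
    ⟨Function.surjInv Ideal.Quotient.mk_surjective, Function.surjInv_eq Ideal.Quotient.mk_surjective⟩
  have hmk : ∀ x, Ideal.Quotient.mk I (D0 (s (Ideal.Quotient.mk I x))) = Ideal.Quotient.mk I (D0 x) := by
    intro x
    have h1 : s (Ideal.Quotient.mk I x) - x ∈ I := by
      rw [← Ideal.Quotient.eq]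
      exact hs _
    rw [Ideal.Quotient.eq, ← map_sub]
    exact hI _ h1
  let D10 : CR I →+ CR I :=
    { toFun := fun y => Ideal.Quotient.mk I (D0 (s y))
      map_zero' := by
        have h1 := hmk 0
        rw [map_zero, map_zero] at h1
        rw [h1, map_zero]
      map_add' := fun y z => by
        have h1 := hmk (s y + s z)
        rw [map_add, hs, hs, map_add, map_add] at h1
        exact h1 }
  have hD10 : ∀ x, D10 (Ideal.Quotient.mk I x) = Ideal.Quotient.mk I (D0 x) := hmk
  let D1 : Derivation ℤ (CR I) (CR I) := Derivation.mk' D10.toIntLinearMap (fun y z => by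
    change D10 (y * z) = y * D10 z + z * D10 y
    obtain ⟨x, rfl⟩ := Ideal.Quotient.mk_surjective y
    obtain ⟨w, rfl⟩ := Ideal.Quotient.mk_surjective z
    rw [← map_mul, hD10, hD10, hD10, hmul, map_add, map_mul, map_mul])
  have hD1 : ∀ x, D1 (Ideal.Quotient.mk I x) = Ideal.Quotient.mk I (D0 x) := hmk
  have hsm : Algebra.FormallySmooth (CR I) (LR I {l}) :=
    Algebra.FormallySmooth.of_isLocalization (Submonoid.powers (Ideal.Quotient.mk I (∏ j ∈ {l}, X j)))
  obtain ⟨D, hD⟩ := exists_lift_der (R := LR I {l}) D1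
  have hD2 : ∀ x, D (algebraMap (CR I) (LR I {l}) (Ideal.Quotient.mk I x)) =
      algebraMap (CR I) (LR I {l}) (Ideal.Quotient.mk I (D0 x)) := fun x =>
    (hD (Ideal.Quotient.mk I x)).trans (congrArg _ (hD1 x))
  obtain ⟨D', hD'⟩ := GCoef_int (B := LR I {l}) OreLocalization.instAlgebra D
  refine ⟨D', ?_, ?_⟩
  · intro c
    have h1 := hD2 (C c)
    rw [hC, ← hD'] at h1
    exact h1
  · intro k
    have h1 := hD2 (X k)
    rw [hX, map_zero, map_zero, ← hD'] at h1
    exact h1

end MPadcDC
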