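import Pool.Agent.Lib.MP_adc574_ag_DC.GGrB
import Pool.Agent.Lib.MP_adc574_ag_DC.ADefs

/-!
# GCx: the forms on the cone are a complex in the sense of ADefs

JOB GCx. `ok`: `Om_fg`, `dd_mul`, `dd_dd`, `ct_df_mul`, `cartan` with `LL_Om`, `Om_mul`, `fz_xm_mem`, `df_xm_mem`, `Om_indep`
(compose the independent family `Om J q` with the injection `k ↦ ν + e k`: `iSupIndep.comp`); `d` maps `Om J q j` to `Om J (q+1) j` and the
contraction with `eul` maps `Om J (q+1) j` to `Om J q j` (generators). `θ_ne`: `ν/e` is not an integer as `0 < ν < e`.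
-/

set_option autoImplicit false

namespace MPadcDC

open MvPolynomial TensorProduct MPadcGP

universe u v

variable {κ : Type u} [Field κ] [CharZero κ] {n : ℕ} {J : Ideal (MvPolynomial (Fin n) κ)} {e m ν : ℕ}

variable (κ) in
/-- The exterior derivative as a linear map. -/
noncomputable def ddl (C : Type u) [CommRing C] [Algebra κ C] : Fm κ C →ₗ[κ] Fm κ C where
  toFun := dd κ
  map_add' := map_add _
  map_smul' a x := dd_smul κ a x

omit [CharZero κ] in
theorem ddl_apply {C : Type u} [CommRing C] [Algebra κ C] (x : Fm κ C) : ddl κ C x = dd κ x := by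

  rfl

/-- The forms of the weights `ν + e k` on the cone. -/
noncomputable def cxS (hJ : IsHomog J) (e ν : ℕ) : Cx κ (Mon n e) (Fm κ (CR J)) where
  Vd q k := Om J q (ν + e * k)
  d := ddl κ (CR J)
  mul g := LinearMap.mulLeft κ (fz κ (xm J g.1))
  wd g := LinearMap.mulLeft κ (df κ (xm J g.1))
  io := (ct κ (eul hJ)).restrictScalars κ
  e := (e : κ)
  θ := (ν : κ) / (e : κ)


omit [CharZero κ] in
private theorem GCx_xm_zero : xm J 0 = 1 := map_one (Ideal.Quotient.mk J)

omit [CharZero κ] in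
private theorem GCx_xv (l : Fin n) : xv J l = xm J (Finsupp.single l 1) := by
  rw [xm_single, pow_one]

private theorem GCx_wd {q : ℕ} (t : Fin q → Fin n) : wd κ (fun i => xv J (t i)) ∈ Om J q q := by
  refine Submodule.subset_span ⟨0, t, ?_, ?_⟩
  · rw [map_zero, zero_add]
  · rw [GCx_xm_zero, map_one, one_mul]

private theorem GCx_cast {q q' j j' : ℕ} {w : Fm κ (CR J)} (h : w ∈ Om J q j) (hq : q = q') (hj : j = j') :
    w ∈ Om J q' j' := by
  subst hq hj
  exact h

private theorem GCx_smul (a : κ) (y : Fm κ (CR J)) : a • y = fz κ (algebraMap κ (CR J) a) * y := by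
  rw [← fz_smul]
  exact (algebraMap_smul (CR J) a y).symm

theorem dd_Om_mem {q j : ℕ} {w : Fm κ (CR J)} (hw : w ∈ Om J q j) : dd κ w ∈ Om J (q + 1) j := by

  unfold Om at hw
  induction hw using Submodule.span_induction with
  | mem w hw =>
    obtain ⟨g, t, hg, rfl⟩ := hw
    rw [dd_mul, dd_wd, mul_zero, add_zero, dd_fz]
    exact GCx_cast (Om_mul (df_xm_mem g) (GCx_wd t)) (Nat.add_comm _ _) hg
  | zero =>
    rw [map_zero]
    exact Submodule.zero_mem _
  | add x y _ _ hx hy =>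
    rw [map_add]
    exact Submodule.add_mem _ hx hy
  | smul a x _ hx =>
    rw [dd_smul]
    exact Submodule.smul_mem _ _ hx


private theorem GCx_ct (hJ : IsHomog J) {q : ℕ} (t : Fin (q + 1) → Fin n) :
    ct κ (eul hJ) (wd κ (fun i => xv J (t i))) ∈ Om J q (q + 1) := by
  induction q with
  | zero =>
    rw [wd_succ, wd_zero, mul_one, ct_df, eul_xv, GCx_xv]
    exact GCx_cast (fz_xm_mem _) rfl (by rw [Finsupp.degree_single])
  | succ q ih =>
    rw [wd_succ, ct_df_mul, eul_xv]
    refine Submodule.sub_mem _ ?_ ?_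
    · rw [GCx_xv]
      refine GCx_cast (Om_mul (fz_xm_mem _) (GCx_wd (fun i => t i.succ))) (Nat.zero_add _) ?_
      rw [Finsupp.degree_single]
      omega
    · rw [GCx_xv]
      refine GCx_cast (Om_mul (df_xm_mem _) (ih (fun i => t i.succ))) (Nat.add_comm _ _) ?_
      rw [Finsupp.degree_single]
      omega

theorem ct_Om_mem (hJ : IsHomog J) {q j : ℕ} {w : Fm κ (CR J)} (hw : w ∈ Om J (q + 1) j) : ct κ (eul hJ) w ∈ Om J q j := by

  unfold Om at hw
  induction hw using Submodule.span_induction with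
  | mem w hw =>
    obtain ⟨g, t, hg, rfl⟩ := hw
    rw [← fz_smul, map_smul, fz_smul]
    exact GCx_cast (Om_mul (fz_xm_mem g) (GCx_ct hJ t)) (Nat.zero_add _) hg
  | zero =>
    rw [map_zero]
    exact Submodule.zero_mem _
  | add x y _ _ hx hy =>
    rw [map_add]
    exact Submodule.add_mem _ hx hy
  | smul a x _ hx =>
    have h1 : ct κ (eul hJ) (a • x) = a • ct κ (eul hJ) x := by
      rw [GCx_smul, ← fz_smul, map_smul, fz_smul, ← GCx_smul]
    rw [h1]
    exact Submodule.smul_mem _ _ hx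

theorem cxS_ok (hJ : IsHomog J) (hν : 0 < ν) (hν' : ν < e) : (cxS hJ e ν).Ok := by

  have he : (e : κ) ≠ 0 := by
    rw [Nat.cast_ne_zero]
    omega
  constructor
  · intro q k
    exact Om_fg _ _
  · intro q k x hx
    exact dd_Om_mem hx
  · intro γ q k x hx
    change fz κ (xm J γ.1) * x ∈ Om J q (ν + e * (k + 1))
    refine GCx_cast (Om_mul (fz_xm_mem γ.1) hx) (Nat.zero_add _) ?_
    rw [mon_degree]
    ring
  · intro γ q k x hx
    change df κ (xm J γ.1) * x ∈ Om J (q + 1) (ν + e * (k + 1))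
    refine GCx_cast (Om_mul (df_xm_mem γ.1) hx) (Nat.add_comm _ _) ?_
    rw [mon_degree]
    ring
  · intro q k x hx
    exact ct_Om_mem hJ hx
  · intro x
    exact dd_dd κ x
  · intro γ x
    change dd κ (fz κ (xm J γ.1) * x) = fz κ (xm J γ.1) * dd κ x + df κ (xm J γ.1) * x
    rw [dd_mul, dd_fz, inv_fz, add_comm]
  · intro γ x
    change dd κ (df κ (xm J γ.1) * x) = -(df κ (xm J γ.1) * dd κ x)
    rw [dd_mul, dd_df, inv_df, zero_mul, zero_add, neg_mul]
  · intro γ γ' x
    change fz κ (xm J γ.1) * (fz κ (xm J γ'.1) * x) = fz κ (xm J γ'.1) * (fz κ (xm J γ.1) * x)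
    rw [← mul_assoc, ← mul_assoc, ← map_mul, ← map_mul, mul_comm (xm J γ.1)]
  · intro γ γ' x
    change fz κ (xm J γ.1) * (df κ (xm J γ'.1) * x) = df κ (xm J γ'.1) * (fz κ (xm J γ.1) * x)
    rw [← mul_assoc, ← mul_assoc, fz_comm]
  · intro γ γ' x
    change df κ (xm J γ.1) * (df κ (xm J γ'.1) * x) = -(df κ (xm J γ'.1) * (df κ (xm J γ.1) * x))
    rw [← mul_assoc, ← mul_assoc, df_swap, neg_mul]
  · intro γ x
    change ct κ (eul hJ) (df κ (xm J γ.1) * x) + df κ (xm J γ.1) * ct κ (eul hJ) x =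
      (e : κ) • (fz κ (xm J γ.1) * x)
    have h0 : ∀ (a : κ) (y : CR J), a • y = algebraMap κ (CR J) a * y := by
      intro a y
      obtain ⟨f, rfl⟩ := Ideal.Quotient.mk_surjective y
      exact (congrArg (Ideal.Quotient.mk J) (smul_eq_C_mul f a)).trans (map_mul _ _ _)
    have h1 : eul hJ (xm J γ.1) = algebraMap κ (CR J) ((γ.1.degree : ℕ) : κ) * xm J γ.1 :=
      (eul_xm hJ γ.1).trans (h0 _ _)
    rw [mon_degree] at h1
    rw [ct_df_mul, sub_add_cancel, h1, GCx_smul, map_mul, mul_assoc]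
  · intro q k x hx
    change ct κ (eul hJ) (dd κ x) + dd κ (ct κ (eul hJ) x) = ((e : κ) * ((ν : κ) / (e : κ) + (k : κ))) • x
    have h1 : dd κ (ct κ (eul hJ) x) + ct κ (eul hJ) (dd κ x) = ((ν + e * k : ℕ) : κ) • x :=
      (cartan κ (eul hJ) x).symm.trans (LL_Om hJ hx)
    rw [add_comm, h1]
    congr 1
    push_cast
    field_simp
  · exact he
  · intro z hz
    change (ν : κ) / (e : κ) = (z : κ) at hz
    rw [div_eq_iff he] at hz
    have h1 : (ν : ℤ) = z * (e : ℤ) := by exact_mod_cast hz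
    rcases le_or_gt z 0 with h2 | h2
    · nlinarith [mul_nonneg (neg_nonneg.2 h2) (Int.natCast_nonneg e)]
    · nlinarith [mul_nonneg (sub_nonneg.2 (Int.add_one_le_iff.2 h2)) (Int.natCast_nonneg e)]
  · intro q
    refine (Om_indep hJ q).comp ?_
    intro k k' hk
    have h1 : e * k = e * k' := Nat.add_left_cancel hk
    exact Nat.eq_of_mul_eq_mul_left (by omega) h1

end MPadcDC
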