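import Pool.Agent.Lib.MP_adc574_ag_DC.GKosA

/-!
# GKosC: the homotopy formula

JOB GKosC.
* `Fra.num`: `∑_g db_g * ct (D g) w = q w` on `q`-forms; `fd_ind`, induction on `q`: for `w = df t * w'`:
  `∑ db_g (D_g t) w' - ∑ db_g dt ct_g w' = dt w' + dt ∑ db_g ct_g w'`.
* `anti`: with `θ = ∑ a_g db_g`, `F_g = ∑_h a_h D_g(b_h)`: `Δ(θ w) = ∑_g ct_g (db_g w + θ dX_g w) = ∑_g (D_g(b_g) w - db_g ct_g w + F_g dX_g w
  - θ ct_g dX_g w) = (m + 1) w - q w + L w - θ Δ w` (`dX_thG`, `ctG_thG_mul`, `ct_df_mul`, `Fra.tr`, `Fra.num`).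
* `Lop_th`: `L(θ w) = ∑_g F_g db_g w + θ L w` and `∑_g F_g db_g = ∑_h a_h ∑_g D_g(b_h) db_g = θ`.
-/

set_option autoImplicit false
set_option linter.unusedSectionVars false

namespace MPadcDC

open MvPolynomial TensorProduct MPadcGP

universe u v

variable {κ : Type u} [Field κ] {Γ : Type} [Fintype Γ] {C : Type u} [CommRing C] [Algebra κ C]
  {b : Γ → C} {D : Γ → Derivation κ C C} {m : ℕ}

private theorem gkosC_wd (hF : Fra κ b D m) {q : ℕ} (t : Fin q → C) :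
    ∑ g, df κ (b g) * ct κ (D g) (wd κ t) = (q : κ) • wd κ t := by
  induction q with
  | zero =>
    rw [Nat.cast_zero, zero_smul]
    refine Finset.sum_eq_zero fun g _ => ?_
    rw [ct_mem_zero _ (wd_mem t), mul_zero]
  | succ q ih =>
    have h1 : ∀ g, df κ (b g) * ct κ (D g) (wd κ t) =
        fz κ (D g (t 0)) * df κ (b g) * wd κ (Fin.tail t) +
          df κ (t 0) * (df κ (b g) * ct κ (D g) (wd κ (Fin.tail t))) := by
      intro g
      have h2 : wd κ t = df κ (t 0) * wd κ (Fin.tail t) := wd_succ t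
      rw [h2, ct_df_mul, mul_sub, ← mul_assoc, ← mul_assoc, ← mul_assoc, ← fz_comm, df_swap (b g) (t 0), neg_mul,
        sub_neg_eq_add]
    rw [Finset.sum_congr rfl fun g _ => h1 g, Finset.sum_add_distrib, ← Finset.sum_mul, hF.sum, ← Finset.mul_sum,
      ih (Fin.tail t), mul_smul_comm]
    have h2 : wd κ t = df κ (t 0) * wd κ (Fin.tail t) := wd_succ t
    rw [← h2, Nat.cast_succ, add_smul, one_smul, add_comm]

theorem Fra.num (hF : Fra κ b D m) {q : ℕ} {w : Fm κ C} (hw : w ∈ Fd κ C q) :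
    ∑ g, df κ (b g) * ct κ (D g) w = (q : κ) • w := by
  refine fd_ind (P := fun w => ∑ g, df κ (b g) * ct κ (D g) w = (q : κ) • w) ?_ (fun r t => ?_)
    (fun x y hx hy => ?_) hw
  · rw [smul_zero]
    refine Finset.sum_eq_zero fun g _ => ?_
    rw [map_zero, mul_zero]
  · have h1 : ∀ g, df κ (b g) * ct κ (D g) (fz κ r * wd κ t) = fz κ r * (df κ (b g) * ct κ (D g) (wd κ t)) := by
      intro g
      rw [← fz_smul, map_smul, fz_smul, ← mul_assoc, ← mul_assoc, fz_comm]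
    rw [Finset.sum_congr rfl fun g _ => h1 g, ← Finset.mul_sum, gkosC_wd hF, mul_smul_comm]
  · rw [smul_add, ← hx, ← hy, ← Finset.sum_add_distrib]
    refine Finset.sum_congr rfl fun g _ => ?_
    rw [map_add, mul_add]

private theorem gkosC_Dlt (w : FG κ Γ C) : Dlt D w = ∑ g, ctG (D g) (dX g w) := by
  unfold Dlt
  rw [LinearMap.sum_apply]
  rfl

private theorem gkosC_Lop (w : FG κ Γ C) :
    Lop b D w = ∑ g, ∑ h, ((X h : MvPolynomial Γ κ) ⊗ₜ[κ] fz κ (D g (b h)) : FG κ Γ C) * dX g w := by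
  unfold Lop
  rw [LinearMap.sum_apply]
  refine Finset.sum_congr rfl fun g _ => ?_
  rw [LinearMap.sum_apply]
  rfl

private theorem gkosC_comm (r : MvPolynomial Γ κ) (c : C) (w : FG κ Γ C) :
    (r ⊗ₜ[κ] fz κ c : FG κ Γ C) * w = w * (r ⊗ₜ[κ] fz κ c : FG κ Γ C) := by
  induction w using TensorProduct.induction_on with
  | zero => rw [mul_zero, zero_mul]
  | tmul s e => rw [Algebra.TensorProduct.tmul_mul_tmul, Algebra.TensorProduct.tmul_mul_tmul, mul_comm, fz_comm]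
  | add x y hx hy => rw [mul_add, add_mul, hx, hy]

private theorem gkosC_ct (θ : Derivation κ C C) (t : C) (w : FG κ Γ C) :
    ctG θ (((1 : MvPolynomial Γ κ) ⊗ₜ[κ] df κ t : FG κ Γ C) * w) =
      ((1 : MvPolynomial Γ κ) ⊗ₜ[κ] fz κ (θ t) : FG κ Γ C) * w -
        ((1 : MvPolynomial Γ κ) ⊗ₜ[κ] df κ t : FG κ Γ C) * ctG θ w := by
  induction w using TensorProduct.induction_on with
  | zero => rw [mul_zero, map_zero, mul_zero, mul_zero, sub_zero]
  | tmul s e =>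
    have h1 : ∀ (s : MvPolynomial Γ κ) (e : Fm κ C), ctG θ (s ⊗ₜ[κ] e) = s ⊗ₜ[κ] ct κ θ e := fun s e => rfl
    rw [Algebra.TensorProduct.tmul_mul_tmul, h1, h1, Algebra.TensorProduct.tmul_mul_tmul,
      Algebra.TensorProduct.tmul_mul_tmul, ct_df_mul, TensorProduct.tmul_sub]
  | add x y hx hy =>
    rw [mul_add, map_add, hx, hy, map_add, mul_add, mul_add]
    abel

private theorem gkosC_num (hF : Fra κ b D m) {q : ℕ} {w : FG κ Γ C} (hw : w ∈ FdG κ Γ q) :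
    ∑ g, ((1 : MvPolynomial Γ κ) ⊗ₜ[κ] df κ (b g) : FG κ Γ C) * ctG (D g) w = (q : κ) • w := by
  refine FdG_ind (P := fun w => ∑ g, ((1 : MvPolynomial Γ κ) ⊗ₜ[κ] df κ (b g) : FG κ Γ C) * ctG (D g) w =
    (q : κ) • w) ?_ (fun r c t => ?_) (fun x y hx hy => ?_) hw
  · rw [smul_zero]
    refine Finset.sum_eq_zero fun g _ => ?_
    rw [map_zero, mul_zero]
  · have h1 : ∀ g, ((1 : MvPolynomial Γ κ) ⊗ₜ[κ] df κ (b g) : FG κ Γ C) *
        ctG (D g) (r ⊗ₜ[κ] (fz κ c * wd κ t)) =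
        r ⊗ₜ[κ] (df κ (b g) * ct κ (D g) (fz κ c * wd κ t)) := by
      intro g
      have h2 : ctG (D g) (r ⊗ₜ[κ] (fz κ c * wd κ t)) = r ⊗ₜ[κ] ct κ (D g) (fz κ c * wd κ t) := rfl
      rw [h2, Algebra.TensorProduct.tmul_mul_tmul, one_mul]
    rw [Finset.sum_congr rfl fun g _ => h1 g, ← TensorProduct.tmul_sum, hF.num (fz_mul_mem c (wd_mem t)),
      TensorProduct.tmul_smul]
  · rw [smul_add, ← hx, ← hy, ← Finset.sum_add_distrib]
    refine Finset.sum_congr rfl fun g _ => ?_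
    rw [map_add, mul_add]

theorem anti (hF : Fra κ b D m) {q : ℕ} {w : FG κ Γ C} (hw : w ∈ FdG κ Γ q) :
    thG κ b * Dlt D w + Dlt D (thG κ b * w) = Lop b D w + ((m : κ) + 1 - q) • w := by
  have h1 : ∀ g, ctG (D g) (dX g (thG κ b * w)) =
      ((1 : MvPolynomial Γ κ) ⊗ₜ[κ] fz κ (D g (b g)) : FG κ Γ C) * w -
        ((1 : MvPolynomial Γ κ) ⊗ₜ[κ] df κ (b g) : FG κ Γ C) * ctG (D g) w +
        ((∑ h, ((X h : MvPolynomial Γ κ) ⊗ₜ[κ] fz κ (D g (b h)) : FG κ Γ C) * dX g w) -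
          thG κ b * ctG (D g) (dX g w)) := by
    intro g
    rw [dX_thG, map_add, gkosC_ct, ctG_thG_mul, Finset.sum_mul]
  have h2 : ∑ g, ((1 : MvPolynomial Γ κ) ⊗ₜ[κ] fz κ (D g (b g)) : FG κ Γ C) * w = ((m : κ) + 1) • w := by
    rw [← Finset.sum_mul, ← TensorProduct.tmul_sum, ← map_sum, hF.tr]
    have h3 : ((1 : MvPolynomial Γ κ) ⊗ₜ[κ] fz κ ((m + 1 : ℕ) : C) : FG κ Γ C) = ((m : κ) + 1) • (1 : FG κ Γ C) := by
      rw [map_natCast, Algebra.TensorProduct.one_def, TensorProduct.smul_tmul', TensorProduct.smul_tmul]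
      congr 1
      rw [← Nat.cast_succ, Nat.cast_smul_eq_nsmul, nsmul_eq_mul, mul_one]
    rw [h3, smul_mul_assoc, one_mul]
  have h4 : ((m : κ) + 1 - q) • w = ((m : κ) + 1) • w - (q : κ) • w :=
    sub_smul (R := κ) (M := MvPolynomial Γ κ ⊗[κ] Fm κ C) ((m : κ) + 1) (q : κ) w
  rw [gkosC_Dlt (thG κ b * w), Finset.sum_congr rfl fun g _ => h1 g, Finset.sum_add_distrib,
    Finset.sum_sub_distrib, Finset.sum_sub_distrib, h2, gkosC_num hF hw, ← Finset.mul_sum, ← gkosC_Dlt,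
    ← gkosC_Lop, h4]
  abel

theorem Lop_th (hF : Fra κ b D m) (w : FG κ Γ C) : Lop b D (thG κ b * w) = thG κ b * (Lop b D w + w) := by
  have h1 : ∀ g h, ((X h : MvPolynomial Γ κ) ⊗ₜ[κ] fz κ (D g (b h)) : FG κ Γ C) * dX g (thG κ b * w) =
      ((X h : MvPolynomial Γ κ) ⊗ₜ[κ] (fz κ (D g (b h)) * df κ (b g)) : FG κ Γ C) * w +
        thG κ b * (((X h : MvPolynomial Γ κ) ⊗ₜ[κ] fz κ (D g (b h)) : FG κ Γ C) * dX g w) := by
    intro g h
    rw [dX_thG, mul_add, ← mul_assoc, ← mul_assoc, Algebra.TensorProduct.tmul_mul_tmul, mul_one,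
      gkosC_comm _ _ (thG κ b), mul_assoc]
  have h2 : ∑ g, ∑ h, ((X h : MvPolynomial Γ κ) ⊗ₜ[κ] (fz κ (D g (b h)) * df κ (b g)) : FG κ Γ C) * w =
      thG κ b * w := by
    rw [Finset.sum_comm]
    unfold thG
    rw [Finset.sum_mul]
    refine Finset.sum_congr rfl fun h _ => ?_
    rw [← Finset.sum_mul, ← TensorProduct.tmul_sum, hF.sum]
  rw [gkosC_Lop (thG κ b * w), Finset.sum_congr rfl fun g _ => Finset.sum_congr rfl fun h _ => h1 g h]
  have h3 : ∀ g, ∑ h, (((X h : MvPolynomial Γ κ) ⊗ₜ[κ] (fz κ (D g (b h)) * df κ (b g)) : FG κ Γ C) * w +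
      thG κ b * (((X h : MvPolynomial Γ κ) ⊗ₜ[κ] fz κ (D g (b h)) : FG κ Γ C) * dX g w)) =
      (∑ h, ((X h : MvPolynomial Γ κ) ⊗ₜ[κ] (fz κ (D g (b h)) * df κ (b g)) : FG κ Γ C) * w) +
        thG κ b * ∑ h, ((X h : MvPolynomial Γ κ) ⊗ₜ[κ] fz κ (D g (b h)) : FG κ Γ C) * dX g w := by
    intro g
    rw [Finset.sum_add_distrib, Finset.mul_sum]
  rw [Finset.sum_congr rfl fun g _ => h3 g, Finset.sum_add_distrib, h2, ← Finset.mul_sum, ← gkosC_Lop, mul_add,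
    add_comm]

end MPadcDC
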