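import Pool.Agent.Lib.MP_adc574_ag_DC.GLop
import Pool.Agent.Lib.MP_adc574_ag_DC.GKosC

/-!
# GKosB: Koszul exactness on `C`

JOB GKosB. `w` with `θ w = 0`, form degree `q ≤ m`; `c := m + 1 - q > 0`: `(L + c) w = θ Δ w` (`anti`; `Δ w = 0` if `q = 0`: `Dlt_zero`). The space
`K` of the forms `w` of degree `q` with `θ w = 0` is stable under `L` (`Lop_th`: `θ L w = L(θ w) - θ w`). `p(T) = ∏_{i<N} (T - i)` kills `w`
(`Lop_ann`), `p(-c) ≠ 0`, `p(T) = p(-c) + (T + c) r(T)`; so `p(-c) w = -(L + c) (r(L) w) = -θ Δ (r(L) w)`, `r(L) w ∈ K`.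
-/

set_option autoImplicit false

namespace MPadcDC

open MvPolynomial TensorProduct MPadcGP

universe u v

variable {κ : Type u} [Field κ] [CharZero κ] {Γ : Type} [Fintype Γ] {C : Type u} [CommRing C] [Algebra κ C]
  {b : Γ → C} {D : Γ → Derivation κ C C} {m : ℕ}

private theorem GKosB_smul {q : ℕ} {w : FG κ Γ C} (hw : w ∈ FdG κ Γ q) (a : κ) : a • w ∈ FdG κ Γ q :=
  Submodule.smul_of_tower_mem _ a hw

private theorem GKosB_pow (hF : Fra κ b D m) {q : ℕ} {w : FG κ Γ C} (hw : w ∈ FdG κ Γ q) (h : thG κ b * w = 0) (k : ℕ) :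
    ((Lop b D : Module.End κ (FG κ Γ C)) ^ k) w ∈ FdG κ Γ q ∧
      thG κ b * ((Lop b D : Module.End κ (FG κ Γ C)) ^ k) w = 0 := by
  induction k with
  | zero => exact ⟨by simpa using hw, by simpa using h⟩
  | succ k ih =>
    have e : ((Lop b D : Module.End κ (FG κ Γ C)) ^ (k + 1)) w = Lop b D (((Lop b D : Module.End κ (FG κ Γ C)) ^ k) w) := by
      rw [pow_succ']; rfl
    rw [e]
    refine ⟨Lop_mem ih.1, ?_⟩
    have h1 := Lop_th hF (((Lop b D : Module.End κ (FG κ Γ C)) ^ k) w)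
    rw [ih.2, map_zero, mul_add, ih.2, add_zero] at h1
    exact h1.symm

private theorem GKosB_poly (hF : Fra κ b D m) {q : ℕ} {w : FG κ Γ C} (hw : w ∈ FdG κ Γ q) (h : thG κ b * w = 0)
    (r : Polynomial κ) :
    (Polynomial.aeval (Lop b D : Module.End κ (FG κ Γ C)) r) w ∈ FdG κ Γ q ∧
      thG κ b * (Polynomial.aeval (Lop b D : Module.End κ (FG κ Γ C)) r) w = 0 := by
  induction r using Polynomial.induction_on' with
  | add p s hp hs =>
    rw [map_add, LinearMap.add_apply]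
    exact ⟨Submodule.add_mem _ hp.1 hs.1, by rw [mul_add, hp.2, hs.2, add_zero]⟩
  | monomial n a =>
    have e : (Polynomial.aeval (Lop b D : Module.End κ (FG κ Γ C)) (Polynomial.monomial n a)) w =
        a • ((Lop b D : Module.End κ (FG κ Γ C)) ^ n) w := by
      rw [Polynomial.aeval_monomial, Module.algebraMap_end_eq_smul_id]
      rfl
    rw [e]
    obtain ⟨h1, h2⟩ := GKosB_pow hF hw h n
    exact ⟨GKosB_smul h1 a, by rw [mul_smul_comm, h2, smul_zero]⟩

private theorem GKosB_eval (N c : ℕ) (hc : 0 < c) :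
    (∏ i ∈ Finset.range N, (Polynomial.X - Polynomial.C (i : κ))).eval (-(c : κ)) ≠ 0 := by
  rw [Polynomial.eval_prod, Finset.prod_ne_zero_iff]
  intro i _
  rw [Polynomial.eval_sub, Polynomial.eval_X, Polynomial.eval_C]
  intro h0
  have : ((c + i : ℕ) : κ) = 0 := by
    push_cast
    linear_combination -h0
  have h1 : c + i = 0 := by exact_mod_cast this
  omega

private theorem GKosB_key (hF : Fra κ b D m) {w : FG κ Γ C} (c : ℕ) (hc : 0 < c) :
    ∃ (e : κ) (r : Polynomial κ), e ≠ 0 ∧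
      -(e • w) = Lop b D ((Polynomial.aeval (Lop b D : Module.End κ (FG κ Γ C)) r) w) +
        (c : κ) • (Polynomial.aeval (Lop b D : Module.End κ (FG κ Γ C)) r) w := by
  obtain ⟨N, hN⟩ := Lop_ann hF w
  obtain ⟨r, hr⟩ := Polynomial.X_sub_C_dvd_sub_C_eval (a := -(c : κ))
    (p := ∏ i ∈ Finset.range N, (Polynomial.X - Polynomial.C (i : κ)))
  refine ⟨_, r, GKosB_eval N c hc, ?_⟩
  have h1 := congrArg (fun p => (Polynomial.aeval (Lop b D : Module.End κ (FG κ Γ C)) p) w) hr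
  simp only [map_sub, map_mul, LinearMap.sub_apply, Polynomial.aeval_X, Polynomial.aeval_C, Module.End.mul_apply,
    Module.algebraMap_end_apply, hN, zero_sub] at h1
  rw [h1, neg_smul, sub_neg_eq_add]

theorem kosC_zero (hF : Fra κ b D m) {w : FG κ Γ C} (hw : w ∈ FdG κ Γ 0) (h : thG κ b * w = 0) : w = 0 := by
  obtain ⟨e, r, he, h1⟩ := GKosB_key (w := w) hF (m + 1) (Nat.succ_pos m)
  obtain ⟨h2, h3⟩ := GKosB_poly hF hw h r
  have h4 := anti hF h2
  rw [h3, map_zero, Dlt_zero h2, mul_zero, add_zero] at h4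
  have h5 : -(e • w) = 0 := by
    rw [h1, h4]
    congr 2
    push_cast
    ring
  rw [neg_eq_zero] at h5
  exact (smul_eq_zero.mp h5).resolve_left he

theorem kosC (hF : Fra κ b D m) {q : ℕ} (hq : q < m) {w : FG κ Γ C} (hw : w ∈ FdG κ Γ (q + 1)) (h : thG κ b * w = 0) :
    ∃ x ∈ FdG κ Γ (C := C) q, thG κ b * x = w := by
  obtain ⟨e, r, he, h1⟩ := GKosB_key (w := w) hF (m - q) (Nat.sub_pos_of_lt hq)
  obtain ⟨h2, h3⟩ := GKosB_poly hF hw h r
  have h4 := anti hF h2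
  rw [h3, map_zero, add_zero] at h4
  refine ⟨(-e⁻¹) • Dlt D ((Polynomial.aeval (Lop b D : Module.End κ (FG κ Γ C)) r) w),
    GKosB_smul (Dlt_mem h2) _, ?_⟩
  have h5 : -(e • w) = thG κ b * Dlt D ((Polynomial.aeval (Lop b D : Module.End κ (FG κ Γ C)) r) w) := by
    rw [h1, h4]
    congr 2
    rw [Nat.cast_sub hq.le]
    push_cast
    ring
  rw [mul_smul_comm, ← h5, smul_neg, ← neg_smul, neg_neg, smul_smul, inv_mul_cancel₀ he, one_smul]

end MPadcDC
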