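import Pool.Agent.Lib.MP_adc574_ag_DC.GDefs

/-!
# GLocL: the forms over `R` on `x_l ≠ 0` (definitions)
-/

set_option autoImplicit false

namespace MPadcDC

open MvPolynomial TensorProduct MPadcGP

universe u v

variable {κ : Type u} [Field κ] {n : ℕ} {J : Ideal (MvPolynomial (Fin n) κ)} {e : ℕ} (l : Fin n)

variable (J e) in
/-- The forms over `R` on `x_l ≠ 0`. -/
abbrev FL := FG κ (Mon n e) (LR J {l})

variable (J e) in
/-- The localization map of forms over `R`. -/
noncomputable abbrev loF : FR J e →ₐ[κ] FL J e l := loG (Mon n e) (lm J l)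

end MPadcDC
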