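import Pool.Agent.Lib.MP_adc574_ag_DC.GLoc
import Pool.Agent.Lib.MP_adc574_ag_DC.GLocL

/-!
# GLocB: localization of the forms over `R` at `x_l`

JOB GLocB. `LR J {l} = Localization.Away (mk (∏ j ∈ {l}, X j))`, so `M` is the submonoid of the powers of `x_l`.
* `loF_surj`, `loF_ker` from `loG_surj`, `loG_ker`. `loF_im`: `→` by `loF_surj` for `b`, `loF_ker` for the difference; `←` `x_l` is a unit in `LR J {l}`.
-/

set_option autoImplicit false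

namespace MPadcDC

open MvPolynomial TensorProduct MPadcGP

universe u v

section abs

private theorem GLocB_a1 {E : Type u} {E' : Type u} [Ring E] [Ring E'] (f : E →+* E') {T w0 z w : E} {T' z' b : E'}
    (hT : f T = T') (hz : f z = z') (hc : z' * T' = T' * z') (h1 : T' * b = f w) (h2 : f w0 = z' * b) :
    f (T * w0 - z * w) = 0 := by
  rw [map_sub, map_mul, map_mul, hT, hz, h2, ← h1, ← mul_assoc, ← mul_assoc, hc, sub_self]

private theorem GLocB_a2 {E : Type u} [Ring E] {T w0 z w z2 z3 : E} (h : z2 * (T * w0 - z * w) = 0)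
    (hc : z2 * T = T * z2) (hm : z2 * z = z3) : T * (z2 * w0) = z3 * w := by
  rw [mul_sub, sub_eq_zero, ← mul_assoc, ← mul_assoc, hc, hm] at h
  rw [← mul_assoc, h]

private theorem GLocB_a3 {E : Type u} {E' : Type u} [Ring E] [Ring E'] (f : E →+* E') {T b z w : E} {T' z' u' : E'}
    (hT : f T = T') (hz : f z = z') (hc : u' * T' = T' * u') (hu : u' * z' = 1) (h : T * b = z * w) :
    T' * (u' * f b) = f w := by
  have h2 := congrArg f h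
  rw [map_mul, map_mul, hT, hz] at h2
  rw [← mul_assoc, ← hc, mul_assoc, h2, ← mul_assoc, hu, one_mul]

end abs

section spec

variable {κ : Type u} [Field κ] {n : ℕ} {J : Ideal (MvPolynomial (Fin n) κ)} {e : ℕ} (l : Fin n)

theorem loF_thF : loF J e l (thF J e) = thG κ (bl J e l) := by
  exact loG_thG (lm J l) (fun g : Mon n e => xm J g.1)

private theorem GLocB_prod : Ideal.Quotient.mk J (∏ j ∈ ({l} : Finset (Fin n)), X j) = xv J l := by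
  rw [Finset.prod_singleton]
  rfl

private theorem GLocB_lm (N : ℕ) : lm J l (xv J l ^ N) = lx J {l} l ^ N := by
  rw [map_pow]
  rfl

private theorem GLocB_comm {C : Type u} [CommRing C] [Algebra κ C] {Γ : Type} [Fintype Γ] (c : C) (z : FG κ Γ C) :
    ((1 : MvPolynomial Γ κ) ⊗ₜ[κ] fz κ c : FG κ Γ C) * z = z * ((1 : MvPolynomial Γ κ) ⊗ₜ[κ] fz κ c : FG κ Γ C) := by
  induction z using TensorProduct.induction_on with
  | zero => rw [mul_zero, zero_mul]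
  | tmul r w => rw [Algebra.TensorProduct.tmul_mul_tmul, Algebra.TensorProduct.tmul_mul_tmul, one_mul, mul_one, fz_comm]
  | add x y hx hy => rw [mul_add, add_mul, hx, hy]

private theorem GLocB_mul {C : Type u} [CommRing C] [Algebra κ C] {Γ : Type} [Fintype Γ] (c d : C) :
    ((1 : MvPolynomial Γ κ) ⊗ₜ[κ] fz κ c : FG κ Γ C) * ((1 : MvPolynomial Γ κ) ⊗ₜ[κ] fz κ d : FG κ Γ C) =
      (1 : MvPolynomial Γ κ) ⊗ₜ[κ] fz κ (c * d) := by
  rw [Algebra.TensorProduct.tmul_mul_tmul, one_mul, map_mul]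

private theorem GLocB_mem {C : Type u} [CommRing C] [Algebra κ C] {Γ : Type} [Fintype Γ] (c : C) {q : ℕ}
    {w : FG κ Γ C} (hw : w ∈ FdG κ Γ q) :
    ((1 : MvPolynomial Γ κ) ⊗ₜ[κ] fz κ c : FG κ Γ C) * w ∈ FdG κ Γ q := by
  have h1 := FdG_mul (tmul_FdG (Γ := Γ) 1 (fz_mem (A := κ) c)) hw
  rwa [zero_add] at h1

private theorem GLocB_lo (c : CR J) : loF J e l ((1 : Ra κ n e) ⊗ₜ[κ] fz κ c : FR J e) =
    ((1 : Ra κ n e) ⊗ₜ[κ] fz κ (lm J l c) : FL J e l) := by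
  refine (loG_tmul (lm J l) _ _).trans ?_
  rw [mp_fz]
  rfl

theorem loF_surj {q : ℕ} {w : FL J e l} (hw : w ∈ FdG κ (Mon n e) (C := LR J {l}) q) :
    ∃ N : ℕ, ∃ w0 ∈ FdG κ (Mon n e) (C := CR J) q,
      loF J e l w0 = ((1 : Ra κ n e) ⊗ₜ[κ] fz κ (lx J {l} l ^ N) : FL J e l) * w := by
  obtain ⟨m, hm, w0, hw0, h1⟩ := loG_surj (κ := κ) (C := CR J) (C' := LR J {l})
    (Submonoid.powers (Ideal.Quotient.mk J (∏ j ∈ ({l} : Finset (Fin n)), X j))) hw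
  obtain ⟨N, rfl⟩ := hm
  refine ⟨N, w0, hw0, ?_⟩
  have h2 : algebraMap (CR J) (LR J {l}) (Ideal.Quotient.mk J (∏ j ∈ ({l} : Finset (Fin n)), X j) ^ N) =
      lx J {l} l ^ N := by
    exact (map_pow _ _ _).trans (congrArg (fun c => algebraMap (CR J) (LR J {l}) c ^ N) (GLocB_prod l))
  refine h1.symm.trans ?_
  exact congrArg (fun c => ((1 : Ra κ n e) ⊗ₜ[κ] fz κ c : FL J e l) * w) h2

theorem loF_ker {w : FR J e} (hw : loF J e l w = 0) :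
    ∃ N : ℕ, ((1 : Ra κ n e) ⊗ₜ[κ] fz κ (xv J l ^ N) : FR J e) * w = 0 := by
  obtain ⟨m, hm, h1⟩ := loG_ker (κ := κ) (C := CR J) (C' := LR J {l})
    (Submonoid.powers (Ideal.Quotient.mk J (∏ j ∈ ({l} : Finset (Fin n)), X j))) hw
  obtain ⟨N, rfl⟩ := hm
  refine ⟨N, ?_⟩
  have h2 : (Ideal.Quotient.mk J (∏ j ∈ ({l} : Finset (Fin n)), X j) ^ N : CR J) = xv J l ^ N := by
    rw [GLocB_prod]
  refine Eq.trans ?_ h1
  exact congrArg (fun c => ((1 : Ra κ n e) ⊗ₜ[κ] fz κ c : FR J e) * w) h2.symm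

/-- If `x_l ∈ J` a power of `x_l` is zero in `S`. -/
theorem xv_zero (h : (X l : MvPolynomial (Fin n) κ) ∈ J) : xv J l = 0 :=
  Ideal.Quotient.eq_zero_iff_mem.mpr h

/-- membership in `dF ∧ (forms)` is local -/
theorem loF_im {q : ℕ} {w : FR J e} (hw : w ∈ FdG κ (Mon n e) (C := CR J) (q + 1)) :
    (∃ b ∈ FdG κ (Mon n e) (C := LR J {l}) q, thG κ (bl J e l) * b = loF J e l w) ↔
      ∃ N : ℕ, ∃ b ∈ FdG κ (Mon n e) (C := CR J) q,
        thF J e * b = ((1 : Ra κ n e) ⊗ₜ[κ] fz κ (xv J l ^ N) : FR J e) * w := by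
  have hc : ∀ c : LR J {l}, ((1 : Ra κ n e) ⊗ₜ[κ] fz κ c : FL J e l) * thG κ (bl J e l) =
      thG κ (bl J e l) * ((1 : Ra κ n e) ⊗ₜ[κ] fz κ c : FL J e l) := fun c => GLocB_comm c _
  constructor
  · rintro ⟨b, hb, h1⟩
    have hh := loF_surj l hb
    obtain ⟨N, w0, hw0, h2⟩ := hh
    have h3 := @GLocB_a1 (FR J e) (FL J e l) _ _ (loF J e l).toRingHom (thF J e) w0
      ((1 : Ra κ n e) ⊗ₜ[κ] fz κ (xv J l ^ N)) w (thG κ (bl J e l)) ((1 : Ra κ n e) ⊗ₜ[κ] fz κ (lx J {l} l ^ N)) b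
      (loF_thF l) ((GLocB_lo l _).trans (congrArg (fun c => (1 : Ra κ n e) ⊗ₜ[κ] fz κ c) (GLocB_lm l N))) (hc _) h1 h2
    have hh2 := loF_ker l h3
    obtain ⟨N', h4⟩ := hh2
    exact ⟨N' + N, ((1 : Ra κ n e) ⊗ₜ[κ] fz κ (xv J l ^ N') : FR J e) * w0, GLocB_mem _ hw0,
      @GLocB_a2 (FR J e) _ _ _ _ _ _ _ h4 (GLocB_comm _ _)
        ((GLocB_mul _ _).trans (congrArg (fun c => (1 : Ra κ n e) ⊗ₜ[κ] fz κ c) (pow_add _ _ _).symm))⟩
  · rintro ⟨N, b, hb, h1⟩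
    have hu : IsUnit (lx J {l} l) := lx_isUnit J {l} (Finset.mem_singleton_self l)
    obtain ⟨u, hu⟩ := hu
    have h5 : ((u⁻¹ : (LR J {l})ˣ) : LR J {l}) ^ N * lx J {l} l ^ N = 1 := by
      rw [← mul_pow, ← hu, Units.inv_mul, one_pow]
    have h6 : ((1 : Ra κ n e) ⊗ₜ[κ] fz κ (((u⁻¹ : (LR J {l})ˣ) : LR J {l}) ^ N) : FL J e l) *
        ((1 : Ra κ n e) ⊗ₜ[κ] fz κ (lx J {l} l ^ N) : FL J e l) = 1 :=
      (GLocB_mul _ _).trans ((congrArg (fun c => (1 : Ra κ n e) ⊗ₜ[κ] fz κ c) h5).trans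
        (congrArg (fun c => (1 : Ra κ n e) ⊗ₜ[κ] c) (map_one (fz κ))))
    exact ⟨((1 : Ra κ n e) ⊗ₜ[κ] fz κ (((u⁻¹ : (LR J {l})ˣ) : LR J {l}) ^ N) : FL J e l) * loF J e l b,
      GLocB_mem _ (loG_mem (lm J l) hb),
      @GLocB_a3 (FR J e) (FL J e l) _ _ (loF J e l).toRingHom (thF J e) b ((1 : Ra κ n e) ⊗ₜ[κ] fz κ (xv J l ^ N)) w
        (thG κ (bl J e l)) ((1 : Ra κ n e) ⊗ₜ[κ] fz κ (lx J {l} l ^ N)) _ (loF_thF l)
        ((GLocB_lo l _).trans (congrArg (fun c => (1 : Ra κ n e) ⊗ₜ[κ] fz κ c) (GLocB_lm l N))) (hc _) h6 h1⟩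

end spec

end MPadcDC
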