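import Pool.Agent.Lib.MP_adc574_ag_DC.GSat
import Pool.Agent.Lib.MP_adc574_ag_DC.GLocB
import Pool.Agent.Lib.MP_adc574_ag_DC.GKosB
import Pool.Agent.Lib.MP_adc574_ag_DC.GFra

/-!
# GMain: Koszul exactness

JOB GMain. `koszul`: for every `q`: `high` with `Z = kerF (q+1)`, `I = imF q` (and `Z = kerF 0`, `I = ⊥` in degree `0`); for `l` with `x_l ∉ J`
`exists_fra`, `kosC` (`kosC_zero`, `loF_ker`) on `S[1/x_l]`, then `loF_im`; for `x_l ∈ J` `xv_zero`. Then `imF_hom`. Take the maximum of the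
finitely many bounds.

-/

set_option autoImplicit false
set_option linter.unusedSectionVars false

namespace MPadcDC

open MvPolynomial TensorProduct MPadcGP

universe u v

variable {κ : Type u} [Field κ] [CharZero κ] {n : ℕ} {J : Ideal (MvPolynomial (Fin n) κ)} {e m : ℕ}

theorem GMain_zero {l : Fin n} (h : (X l : MvPolynomial (Fin n) κ) ∈ J) (w : FR J e) :
    ((1 : Ra κ n e) ⊗ₜ[κ] fz κ (xv J l ^ 1) : FR J e) * w = 0 := by
  rw [xv_zero l h, pow_one, map_zero, TensorProduct.tmul_zero, zero_mul]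

theorem GMain_bot : Sta J e 0 (⊥ : AddSubgroup (FR J e)) where
  le w hw := by
    rw [AddSubgroup.mem_bot.1 hw]
    exact Submodule.zero_mem _
  mul t w hw := by
    rw [AddSubgroup.mem_bot.1 hw, mul_zero]
    exact AddSubgroup.zero_mem _
  pr j w hw := by
    rw [AddSubgroup.mem_bot.1 hw, map_zero]
    exact AddSubgroup.zero_mem _

theorem GMain_ker {q : ℕ} {w : FR J e} (hw : w ∈ kerF J e q) (l : Fin n) :
    w ∈ FdG κ (Mon n e) (C := CR J) q ∧ loF J e l w ∈ FdG κ (Mon n e) (C := LR J {l}) q ∧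
      thG κ (bl J e l) * loF J e l w = 0 := by
  obtain ⟨h1, h2⟩ := AddSubgroup.mem_inf.1 hw
  have h3 : thF J e * w = 0 := (AddMonoidHom.mem_ker).1 h2
  refine ⟨h1, loG_mem _ h1, ?_⟩
  rw [← loF_thF, ← map_mul, h3, map_zero]

theorem GMain_q0 (hJ : Good J m) (he : 1 ≤ e) :
    ∃ j0, ∀ j, j0 ≤ j → ∀ w ∈ OmR J e 0 j, thF J e * w = 0 → w = 0 := by
  obtain ⟨j0, h0⟩ := high hJ.homog (kerF_sta hJ.homog he 0) GMain_bot (fun w hw l => by
    by_cases hl : (X l : MvPolynomial (Fin n) κ) ∈ J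
    · exact ⟨1, by rw [GMain_zero hl]; exact AddSubgroup.zero_mem _⟩
    · obtain ⟨D, hF, _⟩ := exists_fra hJ he hl
      obtain ⟨_, h2, h3⟩ := GMain_ker hw l
      obtain ⟨N, hN⟩ := loF_ker l (kosC_zero hF h2 h3)
      exact ⟨N, by rw [hN]; exact AddSubgroup.zero_mem _⟩)
  refine ⟨j0, fun j hj w hw h => ?_⟩
  exact AddSubgroup.mem_bot.1 (h0 j hj w (AddSubgroup.mem_inf.2 ⟨OmR_le hw, AddMonoidHom.mem_ker.2 h⟩) hw)

theorem GMain_q (hJ : Good J m) (he : 1 ≤ e) (q : ℕ) (hq : q < m) :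
    ∃ j0, ∀ j, j0 ≤ j → ∀ w ∈ OmR J e (q + 1) (j + e), thF J e * w = 0 → Exd J e q j w := by
  obtain ⟨j0, h0⟩ := high hJ.homog (kerF_sta hJ.homog he (q + 1)) (imF_sta hJ.homog q) (fun w hw l => by
    by_cases hl : (X l : MvPolynomial (Fin n) κ) ∈ J
    · exact ⟨1, by rw [GMain_zero hl]; exact AddSubgroup.zero_mem _⟩
    · obtain ⟨D, hF, _⟩ := exists_fra hJ he hl
      obtain ⟨h1, h2, h3⟩ := GMain_ker hw l
      obtain ⟨N, b, hb, hN⟩ := (loF_im l h1).1 (kosC hF hq h2 h3)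
      exact ⟨N, b, hb, hN⟩)
  refine ⟨j0, fun j hj w hw h => ?_⟩
  exact imF_hom hJ.homog (h0 (j + e) (le_trans hj (Nat.le_add_right _ _)) w
    (AddSubgroup.mem_inf.2 ⟨OmR_le hw, AddMonoidHom.mem_ker.2 h⟩) hw) hw

/-- (G1) Koszul exactness in high degrees. -/
theorem koszul (hJ : Good J m) (he : 1 ≤ e) : ∃ j0, ∀ j, j0 ≤ j →
    (∀ w ∈ OmR J e 0 j, thF J e * w = 0 → w = 0) ∧
    ∀ q, q < m → ∀ w ∈ OmR J e (q + 1) (j + e), thF J e * w = 0 → Exd J e q j w := by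
  obtain ⟨j0, h0⟩ := GMain_q0 hJ he
  have h1 : ∀ q, ∃ j1, q < m → ∀ j, j1 ≤ j → ∀ w ∈ OmR J e (q + 1) (j + e), thF J e * w = 0 → Exd J e q j w := by
    intro q
    by_cases hq : q < m
    · obtain ⟨j1, h1⟩ := GMain_q hJ he q hq
      exact ⟨j1, fun _ => h1⟩
    · exact ⟨0, fun h => absurd h hq⟩
  choose f hf using h1
  refine ⟨max j0 ((Finset.range m).sup f), fun j hj => ⟨h0 j (le_trans (le_max_left _ _) hj), fun q hq => ?_⟩⟩
  exact hf q hq j (le_trans (le_trans (Finset.le_sup (Finset.mem_range.2 hq)) (le_max_right _ _)) hj)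

end MPadcDC
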