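import Pool.Agent.Lib.MP_adc574_ag_DC.GCx
import Pool.Agent.Lib.MP_adc574_ag_DC.GMain

/-!
# GCxK: Koszul exactness for the complex `cxS`
-/

set_option autoImplicit false

namespace MPadcDC

open MvPolynomial TensorProduct MPadcGP

universe u v

variable {κ : Type u} [Field κ] [CharZero κ] {n : ℕ} {J : Ideal (MvPolynomial (Fin n) κ)} {e m ν : ℕ}

theorem cxS_TF (hJ : IsHomog J) (w : FR J e) : (cxS hJ e ν).TF w = thF J e * w := by
  unfold Cx.TF thF thG
  rw [LinearMap.sum_apply, Finset.sum_mul]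
  refine Finset.sum_congr rfl fun g _ => ?_
  rw [LinearMap.smul_apply]
  induction w using TensorProduct.induction_on with
  | zero => rw [map_zero, smul_zero, mul_zero]
  | tmul r x =>
    rw [LinearMap.baseChange_tmul, TensorProduct.smul_tmul', smul_eq_mul, Algebra.TensorProduct.tmul_mul_tmul]
    rfl
  | add x y hx hy => rw [map_add, smul_add, hx, hy, mul_add]

theorem cxS_nF (hJ : IsHomog J) (w : FR J e) :
    (cxS hJ e ν).nF w = (ddl κ (CR J)).baseChange (Ra κ n e) w + thF J e * w := by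
  unfold Cx.nF
  rw [LinearMap.add_apply, cxS_TF]
  rfl

theorem cxS_VR (hJ : IsHomog J) (q k : ℕ) : (cxS hJ e ν).VR q k = OmR J e q (ν + e * k) := rfl

theorem GCxB_map (hJ : IsHomog J) {q k : ℕ} {w : FR J e} (h : Exd J e q (ν + e * k) w) :
    w ∈ ((cxS hJ e ν).VR q k).map (cxS hJ e ν).TF := by
  obtain ⟨b, hb, h1⟩ := h
  exact ⟨b, hb, (cxS_TF hJ b).trans h1⟩

theorem GCxB_le {j0 k ν e : ℕ} (he : 0 < e) (hk : j0 ≤ k) : j0 ≤ ν + e * k :=
  hk.trans ((Nat.le_mul_of_pos_left k he).trans (Nat.le_add_left _ _))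

theorem GCxB_it (hJ : IsHomog J) (g : Mon n e) (α : Fm κ (CR J)) (k : ℕ) :
    ((cxS hJ e ν).mul g)^[k] α = fz κ (xm J g.1) ^ k * α := by
  induction k with
  | zero => rw [Function.iterate_zero_apply, pow_zero, one_mul]
  | succ k ih =>
    rw [Function.iterate_succ_apply', ih, pow_succ', mul_assoc]
    rfl

theorem cxS_kos (hJ : Good J m) (hν : 0 < ν) (hν' : ν < e) {q : ℕ} (hq : q < m) : (cxS hJ.homog e ν).Kos q := by
  have he : 0 < e := hν.trans hν'
  obtain ⟨j0, h0⟩ := koszul (e := e) hJ he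
  refine ⟨j0, fun k hk x hx hTx => ?_⟩
  rw [cxS_TF] at hTx
  refine GCxB_map hJ.homog ((h0 (ν + e * k) (GCxB_le he hk)).2 q hq x ?_ hTx)
  rw [cxS_VR] at hx
  have h1 : ν + e * k + e = ν + e * (k + 1) := by ring
  rw [h1]
  exact hx

theorem cxS_kos0 (hJ : Good J m) (hν : 0 < ν) (hν' : ν < e) : (cxS hJ.homog e ν).Kos0 := by
  have he : 0 < e := hν.trans hν'
  obtain ⟨j0, h0⟩ := koszul (e := e) hJ he
  refine ⟨j0, fun k hk x hx hTx => ?_⟩
  rw [cxS_TF] at hTx
  exact (h0 (ν + e * k) (GCxB_le he hk)).1 x hx hTx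

end MPadcDC
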