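import Pool.Agent.Lib.MP_adc574_ag_DC.GV0a

/-!
# GCyc: the homogeneous coordinate ring of the cyclic cover

`I` a homogeneous ideal of `A[x]`, `F` homogeneous of degree `e`. `cs C` is the set of the coordinates `x_l`, `l ∈ C`, in
`Fin (n + 1)`; `AdE B f e = B[ζ]/(ζ^e - f)`.
JOB GCyc.
* `cyc_homog`: the ideal is generated by homogeneous elements; a homogeneous component of `∑ c_i g_i`, `g_i` homogeneous of degree `d_i`, is
  `∑ (component of c_i) g_i`. (Compare `IsHomog.map` in GP/Mod3.)
* `exists_cr`: forward `AdjoinRoot.lift` of `CR I → CR (cyc I F e)`, `root ↦ z`; backward `Ideal.Quotient.lift` of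
  `A[x, z] → AdE`, `x_l ↦ x_l`, `z ↦ root` (`MvPolynomial.aeval`, `Fin.lastCases`); inverse to each other on generators.
-/

set_option autoImplicit false

namespace MPadcDC

open MvPolynomial TensorProduct MPadcGP

universe u v

/-- `B[ζ]/(ζ^e - f)` -/
abbrev AdE (B : Type u) [CommRing B] (f : B) (e : ℕ) : Type u :=
  AdjoinRoot (Polynomial.X ^ e - Polynomial.C f : Polynomial B)

/-- The coordinates `x_l`, `l ∈ C`. -/
def cs {n : ℕ} (C : Finset (Fin n)) : Finset (Fin (n + 1)) := C.map Fin.castSuccEmb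

theorem mem_cs {n : ℕ} {C : Finset (Fin n)} {j : Fin n} : j.castSucc ∈ cs C ↔ j ∈ C := by
  unfold cs
  rw [Finset.mem_map]
  constructor
  · rintro ⟨a, ha, h⟩
    have h1 : a = j := Fin.castSucc_injective n h
    rw [← h1]
    exact ha
  · intro h
    exact ⟨j, h, rfl⟩

theorem exists_cs {n : ℕ} {C : Finset (Fin (n + 1))} (hC : Fin.last n ∉ C) : ∃ C' : Finset (Fin n), C = cs C' := by
  classical
  refine ⟨Finset.univ.filter fun j => j.castSucc ∈ C, ?_⟩
  ext i
  induction i using Fin.lastCases with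
  | last =>
    constructor
    · intro h
      exact absurd h hC
    · intro h
      unfold cs at h
      rw [Finset.mem_map] at h
      obtain ⟨a, _, h1⟩ := h
      exact absurd h1 (Fin.castSucc_ne_last a)
  | cast j =>
    rw [mem_cs, Finset.mem_filter]
    constructor
    · intro h
      exact ⟨Finset.mem_univ _, h⟩
    · intro h
      exact h.2

variable {A : Type u} [CommRing A] {n : ℕ} {I : Ideal (MvPolynomial (Fin n) A)} {F : MvPolynomial (Fin n) A} {e : ℕ}

/-- An ideal generated by homogeneous elements. -/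
private theorem gcyc_span {S : Set (MvPolynomial (Fin n) A)} (hS : ∀ f ∈ S, ∃ d : ℕ, f.IsHomogeneous d) :
    IsHomog (Ideal.span S) := by
  intro f hf d
  induction hf using Submodule.span_induction generalizing d with
  | mem x hx =>
    obtain ⟨c, hc⟩ := hS x hx
    have h1 := homogeneousComponent_of_mem (m := d) (show x ∈ homogeneousSubmodule (Fin n) A c from hc)
    rw [h1]
    split_ifs
    · exact Ideal.subset_span hx
    · exact Ideal.zero_mem _
  | zero => rw [map_zero]; exact Ideal.zero_mem _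
  | add x y _ _ hx hy => rw [map_add]; exact Ideal.add_mem _ (hx d) (hy d)
  | smul a x _ hx =>
    rw [smul_eq_mul, ← sum_homogeneousComponent a, Finset.sum_mul, map_sum]
    refine Ideal.sum_mem _ fun e _ => ?_
    rw [← sum_homogeneousComponent x, Finset.mul_sum, map_sum]
    refine Ideal.sum_mem _ fun m _ => ?_
    have h4 := (homogeneousComponent_isHomogeneous e a).mul (homogeneousComponent_isHomogeneous m x)
    have h5 := homogeneousComponent_of_mem (m := d)
      (show homogeneousComponent e a * homogeneousComponent m x ∈ homogeneousSubmodule (Fin n) A (e + m) from h4)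
    rw [h5]
    split_ifs
    · exact Ideal.mul_mem_left _ _ (hx m)
    · exact Ideal.zero_mem _

/-- A homogeneous ideal is generated by its homogeneous elements. -/
private theorem gcyc_eq_span (hI : IsHomog I) :
    I = Ideal.span {f | f ∈ I ∧ ∃ d : ℕ, f.IsHomogeneous d} := by
  apply le_antisymm
  · intro f hf
    rw [← sum_homogeneousComponent f]
    exact Ideal.sum_mem _ fun d _ => Ideal.subset_span ⟨hI f hf d, d, homogeneousComponent_isHomogeneous d f⟩
  · exact Ideal.span_le.2 fun f hf => hf.1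

theorem cyc_homog (hI : IsHomog I) (hF : F.IsHomogeneous e) : IsHomog (cyc I F e) := by
  have h1 : cyc I F e = Ideal.span ((fun f => rename Fin.castSucc f) '' {f | f ∈ I ∧ ∃ d : ℕ, f.IsHomogeneous d} ∪
      {X (Fin.last n) ^ e - rename Fin.castSucc F}) := by
    unfold cyc
    rw [Ideal.span_union]
    congr 1
    conv_lhs => rw [gcyc_eq_span hI]
    rw [Ideal.map_span]
    rfl
  rw [h1]
  refine gcyc_span fun f hf => ?_
  rcases hf with ⟨g, ⟨_, d, hd⟩, rfl⟩ | hf
  · exact ⟨d, hd.rename_isHomogeneous⟩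
  · rw [Set.mem_singleton_iff] at hf
    rw [hf]
    refine ⟨e, ?_⟩
    have h2 : (X (Fin.last n) ^ e : MvPolynomial (Fin (n + 1)) A).IsHomogeneous e := isHomogeneous_X_pow _ _
    have h3 : (rename Fin.castSucc F : MvPolynomial (Fin (n + 1)) A).IsHomogeneous e := hF.rename_isHomogeneous
    exact h2.sub h3

theorem exists_cr (I : Ideal (MvPolynomial (Fin n) A)) (F : MvPolynomial (Fin n) A) (e : ℕ) :
    ∃ Ψ : AdE (CR I) (Ideal.Quotient.mk I F) e ≃ₐ[A] CR (cyc I F e),
      (∀ f, Ψ (AdjoinRoot.of _ (Ideal.Quotient.mk I f)) = Ideal.Quotient.mk (cyc I F e) (rename Fin.castSucc f)) ∧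
      Ψ (AdjoinRoot.root _) = Ideal.Quotient.mk (cyc I F e) (X (Fin.last n)) := by
  let p : Polynomial (CR I) := Polynomial.X ^ e - Polynomial.C (Ideal.Quotient.mk I F)
  let i₀ : CR I →ₐ[A] CR (cyc I F e) := Ideal.Quotient.liftₐ I
    ((Ideal.Quotient.mkₐ A (cyc I F e)).comp (rename Fin.castSucc)) (fun a ha => by
      change Ideal.Quotient.mk (cyc I F e) (rename Fin.castSucc a) = 0
      rw [Ideal.Quotient.eq_zero_iff_mem]
      exact Ideal.mem_sup_left (Ideal.mem_map_of_mem _ ha))
  have hi₀ : ∀ f : MvPolynomial (Fin n) A,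
      i₀ (Ideal.Quotient.mk I f) = Ideal.Quotient.mk (cyc I F e) (rename Fin.castSucc f) := fun f => rfl
  have hroot : p.eval₂ (i₀ : CR I →+* CR (cyc I F e)) (Ideal.Quotient.mk (cyc I F e) (X (Fin.last n))) = 0 := by
    rw [Polynomial.eval₂_sub, Polynomial.eval₂_pow, Polynomial.eval₂_X, Polynomial.eval₂_C]
    change _ - Ideal.Quotient.mk (cyc I F e) (rename Fin.castSucc F) = 0
    rw [← map_pow, ← map_sub, Ideal.Quotient.eq_zero_iff_mem]
    exact Ideal.mem_sup_right (Ideal.subset_span rfl)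
  let Φ : AdE (CR I) (Ideal.Quotient.mk I F) e →ₐ[A] CR (cyc I F e) :=
    AdjoinRoot.liftAlgHom p i₀ (Ideal.Quotient.mk (cyc I F e) (X (Fin.last n))) hroot
  have hΦo : ∀ x : CR I, Φ (AdjoinRoot.of _ x) = i₀ x := fun x => AdjoinRoot.liftAlgHom_of p i₀ _ hroot x
  have hΦr : Φ (AdjoinRoot.root _) = Ideal.Quotient.mk (cyc I F e) (X (Fin.last n)) :=
    AdjoinRoot.liftAlgHom_root p i₀ _ hroot
  let g : MvPolynomial (Fin (n + 1)) A →ₐ[A] AdE (CR I) (Ideal.Quotient.mk I F) e :=
    aeval (Fin.lastCases (AdjoinRoot.root p) fun l => AdjoinRoot.of p (Ideal.Quotient.mk I (X l)))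
  have hgX : ∀ l : Fin n, g (X l.castSucc) = AdjoinRoot.of p (Ideal.Quotient.mk I (X l)) := by
    intro l
    change aeval _ (X l.castSucc) = _
    rw [aeval_X, Fin.lastCases_castSucc]
  have hgL : g (X (Fin.last n)) = AdjoinRoot.root p := by
    change aeval _ (X (Fin.last n)) = _
    rw [aeval_X, Fin.lastCases_last]
  have hgr : ∀ f : MvPolynomial (Fin n) A, g (rename Fin.castSucc f) = AdjoinRoot.of p (Ideal.Quotient.mk I f) := by
    intro f
    have h1 : g.comp (rename Fin.castSucc) = (AdjoinRoot.ofAlgHom A p).comp (Ideal.Quotient.mkₐ A I) := by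
      refine MvPolynomial.algHom_ext fun l => ?_
      change g (rename Fin.castSucc (X l)) = AdjoinRoot.of p (Ideal.Quotient.mk I (X l))
      rw [rename_X, hgX]
    exact DFunLike.congr_fun h1 f
  have hg : cyc I F e ≤ RingHom.ker g := by
    refine sup_le ?_ ?_
    · refine Ideal.map_le_iff_le_comap.2 fun f hf => ?_
      change g (rename Fin.castSucc f) = 0
      rw [hgr, Ideal.Quotient.eq_zero_iff_mem.2 hf, map_zero]
    · rw [Ideal.span_singleton_le_iff_mem]
      change g (X (Fin.last n) ^ e - rename Fin.castSucc F) = 0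
      rw [map_sub, map_pow, hgL, hgr]
      have h1 : AdjoinRoot.mk p p = 0 := AdjoinRoot.mk_self
      have h2 : AdjoinRoot.mk p (Polynomial.X ^ e - Polynomial.C (Ideal.Quotient.mk I F)) =
          AdjoinRoot.root p ^ e - AdjoinRoot.of p (Ideal.Quotient.mk I F) := by
        rw [map_sub, map_pow, AdjoinRoot.mk_X, AdjoinRoot.mk_C]
      rw [← h2]
      exact h1
  let Θ : CR (cyc I F e) →ₐ[A] AdE (CR I) (Ideal.Quotient.mk I F) e := Ideal.Quotient.liftₐ (cyc I F e) g
    fun a ha => hg ha
  have hΘ : ∀ f, Θ (Ideal.Quotient.mk (cyc I F e) f) = g f := fun f => rfl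
  have e1 : Φ.comp Θ = AlgHom.id A _ := by
    refine Ideal.Quotient.algHom_ext A (MvPolynomial.algHom_ext fun l => ?_)
    change Φ (g (X l)) = Ideal.Quotient.mk (cyc I F e) (X l)
    induction l using Fin.lastCases with
    | last => rw [hgL, hΦr]
    | cast l => rw [hgX, hΦo, hi₀, rename_X]
  have e2 : Θ.comp Φ = AlgHom.id A _ := by
    refine AdjoinRoot.algHom_ext' ?_ ?_
    · refine Ideal.Quotient.algHom_ext A (MvPolynomial.algHom_ext fun l => ?_)
      change Θ (Φ (AdjoinRoot.of p (Ideal.Quotient.mk I (X l)))) = AdjoinRoot.of p (Ideal.Quotient.mk I (X l))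
      rw [hΦo, hi₀, hΘ, hgr]
    · change Θ (Φ (AdjoinRoot.root p)) = AdjoinRoot.root p
      rw [hΦr, hΘ, hgL]
  exact ⟨AlgEquiv.ofAlgHom Φ Θ e1 e2, fun f => hΦo _, hΦr⟩

end MPadcDC
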