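import Pool.Agent.Lib.MP_adc574_ag_DC.DefsL
import Pool.Agent.Lib.MP_adc574_ag_GP.FmLoc

/-!
# The definitions of Part G

`κ` is a field, `J` a homogeneous ideal of `κ[x]`, `S = CR J` the homogeneous coordinate ring, `R = Ra κ n e` the
polynomial ring over `κ` in the coefficients `a_g` (`g : Mon n e`) of the generic form `F` of degree `e`.

* `Om J q j`: the `q`-forms of degree `j` on `S` (`x_l` and `dx_l` have the degree `1`); `OmR J e q j`: the same
  over `R`, in the ring `FR J e = R ⊗ Fm κ S`.
* `thF J e`: the form `dF = ∑ a_g dx^g`.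
* General version: `C` a `κ`-algebra, `b : Γ → C`; `FG κ Γ C = κ[a] ⊗ Fm κ C`, `thG b = ∑ a_g db_g`,
  `tz : κ[a] ⊗ C → FG κ Γ C` (stream GP, file BC: functions as forms of degree `0`).
-/

set_option autoImplicit false

namespace MPadcDC

open MvPolynomial TensorProduct MPadcGP

universe u v

/-- The exponent of `x_l ^ e`. -/
noncomputable def mon0 {n : ℕ} (e : ℕ) (l : Fin n) : Mon n e :=
  ⟨Finsupp.single l e, by
    rw [Finset.mem_finsuppAntidiag]
    refine ⟨?_, Finset.subset_univ _⟩
    simp [Finsupp.single_apply]⟩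

section general

variable (κ : Type u) [Field κ] (Γ : Type) [Fintype Γ] (C : Type u) [CommRing C] [Algebra κ C]

/-- Forms of the `κ`-algebra `C` with coefficients in `κ[a]`. -/
abbrev FG := MvPolynomial Γ κ ⊗[κ] Fm κ C

variable {C}

/-- The forms of degree `q` in `FG κ Γ C`. -/
noncomputable def FdG (q : ℕ) : Submodule (MvPolynomial Γ κ) (FG κ Γ C) :=
  ((Fd κ C q).restrictScalars κ).baseChange (MvPolynomial Γ κ)

variable {Γ}

/-- The form `dF = ∑ a_g db_g`, `F = ∑ a_g b_g`. -/
noncomputable def thG (b : Γ → C) : FG κ Γ C := ∑ g, (X g : MvPolynomial Γ κ) ⊗ₜ[κ] df κ (b g)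

/-- Derivations `D g` with `∑ D_g(x) db_g = dx` for all `x`; their trace `∑ D_g(b_g)`, the rank of the module of
differentials, is `m + 1`. -/
structure Fra (b : Γ → C) (D : Γ → Derivation κ C C) (m : ℕ) : Prop where
  sum : ∀ x, ∑ g, fz κ (D g x) * df κ (b g) = df κ x
  tr : ∑ g, D g (b g) = ((m + 1 : ℕ) : C)

variable {κ}

/-- The homomorphism of algebras of forms over `κ`, as a homomorphism of `κ`-algebras. -/
noncomputable def mpA {C' : Type u} [CommRing C'] [Algebra κ C'] (φ : C →ₐ[κ] C') : Fm κ C →ₐ[κ] Fm κ C' :=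
  { mp (φ : C →+* C') (CC.of_algHom φ) with
    commutes' := fun r => by
      have h1 : algebraMap κ (Fm κ C) r = fz κ (algebraMap κ C r) := rfl
      have h2 : algebraMap κ (Fm κ C') r = fz κ (algebraMap κ C' r) := rfl
      rw [h1, h2]
      refine (mp_fz (CC.of_algHom φ) (algebraMap κ C r)).trans ?_
      exact congrArg _ (φ.commutes r) }

variable (Γ)

/-- The map of forms over `κ[a]`. -/
noncomputable def loG {C' : Type u} [CommRing C'] [Algebra κ C'] (φ : C →ₐ[κ] C') : FG κ Γ C →ₐ[κ] FG κ Γ C' :=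
  Algebra.TensorProduct.map (AlgHom.id κ (MvPolynomial Γ κ)) (mpA φ)

end general

section forms

variable {κ : Type u} [Field κ] {n : ℕ} (J : Ideal (MvPolynomial (Fin n) κ))

/-- The coordinate `x_l` in `S`. -/
noncomputable def xv (l : Fin n) : CR J := Ideal.Quotient.mk J (X l)

/-- The monomial `x^g` in `S`. -/
noncomputable def xm (g : Fin n →₀ ℕ) : CR J := Ideal.Quotient.mk J (monomial g 1)

/-- The forms of form degree `q` and total degree `j` on `S`. -/
noncomputable def Om (q j : ℕ) : Submodule κ (Fm κ (CR J)) :=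
  Submodule.span κ {w | ∃ (g : Fin n →₀ ℕ) (t : Fin q → Fin n), g.degree + q = j ∧
    w = fz κ (xm J g) * wd κ (fun i => xv J (t i))}

/-- Forms over `R`. -/
abbrev FR (e : ℕ) := FG κ (Mon n e) (CR J)

/-- The forms of form degree `q` and total degree `j` over `R`. -/
noncomputable def OmR (e q j : ℕ) : Submodule (Ra κ n e) (FR J e) := (Om J q j).baseChange (Ra κ n e)

/-- The form `dF`. -/
noncomputable def thF (e : ℕ) : FR J e := thG κ (fun g : Mon n e => xm J g.1)

/-- `w` is in `dF ∧ (forms of form degree q and degree j)`. -/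
def Exd (e q j : ℕ) (w : FR J e) : Prop := ∃ b ∈ OmR J e q j, thF J e * b = w

/-- `Proj S` is a smooth integral scheme of dimension `m` over `κ`. -/
structure Good (m : ℕ) : Prop where
  homog : IsHomog J
  prime : J.IsPrime
  smooth : IsSmoothProj J
  ne : ∃ l, (X l : MvPolynomial (Fin n) κ) ∉ J
  rank : ∀ l, (X l : MvPolynomial (Fin n) κ) ∉ J → Module.finrank (chart J {l}) (Ω[chart J {l}⁄κ]) = m

/-- The localization `S → S[1/x_l]`, as a homomorphism of `κ`-algebras. -/
noncomputable def lm (l : Fin n) : CR J →ₐ[κ] LR J {l} := IsScalarTower.toAlgHom κ (CR J) (LR J {l})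

/-- The monomials `x^g` of degree `e` in `S[1/x_l]`. -/
noncomputable def bl (e : ℕ) (l : Fin n) (g : Mon n e) : LR J {l} := lm J l (xm J g.1)

end forms

end MPadcDC
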