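import Pool.Agent.Lib.MP_adc574_ag_DC.GGrR

/-!
# GKosA: the operators of the homotopy

`C` a `κ`-algebra with a family `D` of derivations as in `Fra`. Operators on `FG κ Γ C = κ[a] ⊗ Fm κ C`:
`dX g = ∂/∂a_g ⊗ 1`, `ctG θ = 1 ⊗ (contraction with θ)`, `Dlt D = ∑ ctG (D g) dX g`,
`Lop b D = ∑_{g,h} a_h D_g(b_h) dX g`.
JOB GKosA. `ct_df_mul`, `ct_mul`, `FdG_ind` (or `TensorProduct.induction_on`). `ctG_dX`: on pure tensors.
`Fra.der`: apply the linear map `Ω[C⁄κ] → M` of `v` (`Derivation.liftKaehlerDifferential`) to `Fra.sum` (`df` is injective on `Ω`: the inclusion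
`ExteriorAlgebra.ι` is injective, `ExteriorAlgebra.ι_leftInverse`). `Fra.idem`: `Fra.der` for `v = D g`, `x = b h`.
-/

set_option autoImplicit false
set_option linter.unusedSectionVars false

namespace MPadcDC

open MvPolynomial TensorProduct MPadcGP

universe u v

variable {κ : Type u} [Field κ] {Γ : Type} [Fintype Γ] {C : Type u} [CommRing C] [Algebra κ C]

/-- The derivative with respect to `a_g`. -/
noncomputable def dX (g : Γ) : FG κ Γ C →ₗ[κ] FG κ Γ C :=
  LinearMap.rTensor (Fm κ C) ((pderiv g : Derivation κ (MvPolynomial Γ κ) (MvPolynomial Γ κ)) : _ →ₗ[κ] _)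

/-- The contraction with a derivation of `C`. -/
noncomputable def ctG (θ : Derivation κ C C) : FG κ Γ C →ₗ[κ] FG κ Γ C :=
  LinearMap.lTensor (MvPolynomial Γ κ) ((ct κ θ).restrictScalars κ)

/-- The homotopy. -/
noncomputable def Dlt (D : Γ → Derivation κ C C) : FG κ Γ C →ₗ[κ] FG κ Γ C := ∑ g, ctG (D g) ∘ₗ dX g

/-- The derivation `∑ a_h D_g(b_h) ∂/∂a_g`. -/
noncomputable def Lop (b : Γ → C) (D : Γ → Derivation κ C C) : FG κ Γ C →ₗ[κ] FG κ Γ C :=
  ∑ g, ∑ h, LinearMap.mulLeft κ ((X h : MvPolynomial Γ κ) ⊗ₜ[κ] fz κ (D g (b h)) : FG κ Γ C) ∘ₗ dX g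

private theorem GKosA_dX (g : Γ) (r : MvPolynomial Γ κ) (w : Fm κ C) :
    dX g (r ⊗ₜ[κ] w : FG κ Γ C) = pderiv g r ⊗ₜ[κ] w := rfl

private theorem GKosA_ct (θ : Derivation κ C C) (r : MvPolynomial Γ κ) (w : Fm κ C) :
    ctG θ (r ⊗ₜ[κ] w : FG κ Γ C) = r ⊗ₜ[κ] ct κ θ w := rfl

private theorem GKosA_mul (r s : MvPolynomial Γ κ) (v w : Fm κ C) :
    (r ⊗ₜ[κ] v : FG κ Γ C) * s ⊗ₜ[κ] w = (r * s) ⊗ₜ[κ] (v * w) :=
  Algebra.TensorProduct.tmul_mul_tmul r s v w

private theorem GKosA_X (g h : Γ) [Decidable (h = g)] :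
    pderiv g (X h : MvPolynomial Γ κ) = if h = g then 1 else 0 := by
  split_ifs with hgh
  · rw [hgh, pderiv_X_self]
  · exact pderiv_X_of_ne hgh

private theorem GKosA_mem {q : ℕ} (c : C) (t : Fin q → C) : fz κ c * wd κ t ∈ Fd κ C q :=
  fz_mul_mem c (wd_mem t)

variable {b : Γ → C} {D : Γ → Derivation κ C C} {m : ℕ}

/-- a derivation with values in a `C`-module is determined by its values on the `b g` -/
theorem Fra.der (hF : Fra κ b D m) {M : Type*} [AddCommGroup M] [Module κ M] [Module C M] [IsScalarTower κ C M]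
    (v : Derivation κ C M) (x : C) : v x = ∑ g, D g x • v (b g) := by
  have h1 : ∑ g, D g x • KaehlerDifferential.D κ C (b g) = KaehlerDifferential.D κ C x := by
    have h2 := hF.sum x
    unfold df at h2
    rw [Finset.sum_congr rfl fun g _ => (fz_smul (A := κ) (D g x) _).symm] at h2
    have h3 : ExteriorAlgebra.ι C (∑ g, D g x • KaehlerDifferential.D κ C (b g)) =
        (ExteriorAlgebra.ι C (KaehlerDifferential.D κ C x) : Fm κ C) := by
      rw [map_sum, ← h2]
      exact Finset.sum_congr rfl fun g _ => map_smul _ _ _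
    exact (ExteriorAlgebra.ι_inj C _ _).1 h3
  have h4 := congrArg v.liftKaehlerDifferential h1
  rw [map_sum, Derivation.liftKaehlerDifferential_comp_D] at h4
  rw [← h4]
  refine Finset.sum_congr rfl fun g _ => ?_
  rw [map_smul, Derivation.liftKaehlerDifferential_comp_D]

theorem Fra.idem (hF : Fra κ b D m) (g h : Γ) : ∑ k, D g (b k) * D k (b h) = D g (b h) := by
  have h := hF.der (D g) (b h)
  rw [h]
  refine Finset.sum_congr rfl fun k _ => ?_
  rw [smul_eq_mul, mul_comm]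

theorem dX_mem (g : Γ) {q : ℕ} {w : FG κ Γ C} (hw : w ∈ FdG κ Γ q) : dX g w ∈ FdG κ Γ q := by
  refine FdG_ind (P := fun w => dX g w ∈ FdG κ Γ q) ?_ ?_ ?_ hw
  · rw [map_zero]
    exact Submodule.zero_mem _
  · intro r c t
    rw [GKosA_dX]
    exact tmul_FdG _ (GKosA_mem c t)
  · intro x y hx hy
    rw [map_add]
    exact Submodule.add_mem _ hx hy

theorem ctG_dX (θ : Derivation κ C C) (g : Γ) (w : FG κ Γ C) : ctG θ (dX g w) = dX g (ctG θ w) := by
  induction w using TensorProduct.induction_on with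
  | zero => simp only [map_zero]
  | tmul r w => rw [GKosA_dX, GKosA_ct, GKosA_ct, GKosA_dX]
  | add x y hx hy => simp only [map_add, hx, hy]

theorem dX_tz_mul (g : Γ) (r : MvPolynomial Γ κ) (c : C) (w : FG κ Γ C) :
    dX g ((r ⊗ₜ[κ] fz κ c : FG κ Γ C) * w) =
      (pderiv g r ⊗ₜ[κ] fz κ c : FG κ Γ C) * w + (r ⊗ₜ[κ] fz κ c : FG κ Γ C) * dX g w := by
  induction w using TensorProduct.induction_on with
  | zero => simp only [map_zero, mul_zero, add_zero]
  | tmul s w =>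
    rw [GKosA_mul, GKosA_dX, GKosA_dX, GKosA_mul, GKosA_mul, pderiv_mul, TensorProduct.add_tmul]
  | add x y hx hy =>
    simp only [map_add, mul_add, hx, hy]
    abel

/-- `∂/∂a_g (θ w) = db_g w + θ ∂/∂a_g w` -/
theorem dX_thG (g : Γ) (w : FG κ Γ C) :
    dX g (thG κ b * w) = ((1 : MvPolynomial Γ κ) ⊗ₜ[κ] df κ (b g) : FG κ Γ C) * w + thG κ b * dX g w := by
  classical
  unfold thG
  induction w using TensorProduct.induction_on with
  | zero => simp only [map_zero, mul_zero, add_zero]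
  | tmul s w =>
    rw [Finset.sum_mul, map_sum, GKosA_mul, one_mul, GKosA_dX, Finset.sum_mul]
    have h1 : ∀ h : Γ, dX g ((X h : MvPolynomial Γ κ) ⊗ₜ[κ] df κ (b h) * s ⊗ₜ[κ] w : FG κ Γ C) =
        (if h = g then (s ⊗ₜ[κ] (df κ (b h) * w) : FG κ Γ C) else 0) +
          (X h : MvPolynomial Γ κ) ⊗ₜ[κ] df κ (b h) * (pderiv g s) ⊗ₜ[κ] w := by
      intro h
      rw [GKosA_mul, GKosA_dX, pderiv_mul, GKosA_X, TensorProduct.add_tmul, GKosA_mul]
      congr 1
      split_ifs with hgh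
      · rw [one_mul]
      · rw [zero_mul, TensorProduct.zero_tmul]
    rw [Finset.sum_congr rfl fun h _ => h1 h, Finset.sum_add_distrib, Finset.sum_ite_eq',
      if_pos (Finset.mem_univ _)]
  | add x y hx hy =>
    simp only [map_add, mul_add, hx, hy]
    abel

theorem Dlt_mem {q : ℕ} {w : FG κ Γ C} (hw : w ∈ FdG κ Γ (q + 1)) : Dlt D w ∈ FdG κ Γ q := by
  unfold Dlt
  rw [LinearMap.sum_apply]
  refine Submodule.sum_mem _ fun g _ => ?_
  rw [LinearMap.comp_apply]
  refine FdG_ind (P := fun w => ctG (D g) w ∈ FdG κ Γ q) ?_ ?_ ?_ (dX_mem g hw)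
  · rw [map_zero]
    exact Submodule.zero_mem _
  · intro r c t
    rw [GKosA_ct]
    exact tmul_FdG _ (ct_mem _ (GKosA_mem c t))
  · intro x y hx hy
    rw [map_add]
    exact Submodule.add_mem _ hx hy

theorem Dlt_zero {w : FG κ Γ C} (hw : w ∈ FdG κ Γ 0) : Dlt D w = 0 := by
  unfold Dlt
  rw [LinearMap.sum_apply]
  refine Finset.sum_eq_zero fun g _ => ?_
  rw [LinearMap.comp_apply]
  refine FdG_ind (P := fun w => ctG (D g) w = 0) ?_ ?_ ?_ (dX_mem g hw)
  · exact map_zero _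
  · intro r c t
    rw [GKosA_ct, ct_mem_zero _ (GKosA_mem c t), TensorProduct.tmul_zero]
  · intro x y hx hy
    rw [map_add, hx, hy, add_zero]

theorem Lop_mem {q : ℕ} {w : FG κ Γ C} (hw : w ∈ FdG κ Γ q) : Lop b D w ∈ FdG κ Γ q := by
  unfold Lop
  rw [LinearMap.sum_apply]
  refine Submodule.sum_mem _ fun g _ => ?_
  rw [LinearMap.sum_apply]
  refine Submodule.sum_mem _ fun h _ => ?_
  rw [LinearMap.comp_apply, LinearMap.mulLeft_apply]
  exact tz_mul_FdG ((X h : MvPolynomial Γ κ) ⊗ₜ[κ] D g (b h)) (dX_mem g hw)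

/-- `ctG θ (thG b) = F_θ`, `F_θ = ∑ a_g θ(b_g)`, and the product rule -/
theorem ctG_thG_mul (θ : Derivation κ C C) (w : FG κ Γ C) :
    ctG θ (thG κ b * w) = (∑ g, (X g : MvPolynomial Γ κ) ⊗ₜ[κ] fz κ (θ (b g))) * w - thG κ b * ctG θ w := by
  unfold thG
  induction w using TensorProduct.induction_on with
  | zero => simp only [map_zero, mul_zero, sub_zero]
  | tmul s w =>
    rw [Finset.sum_mul, map_sum, GKosA_ct, Finset.sum_mul, Finset.sum_mul,
      ← Finset.sum_sub_distrib]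
    refine Finset.sum_congr rfl fun h _ => ?_
    rw [GKosA_mul, GKosA_ct, GKosA_mul, GKosA_mul, ct_df_mul, TensorProduct.tmul_sub]
  | add x y hx hy =>
    simp only [map_add, mul_add, hx, hy]
    abel

theorem ctG_mem (θ : Derivation κ C C) {q : ℕ} {w : FG κ Γ C} (hw : w ∈ FdG κ Γ (q + 1)) : ctG θ w ∈ FdG κ Γ q := by
  refine FdG_ind (P := fun w => ctG θ w ∈ FdG κ Γ q) ?_ ?_ ?_ hw
  · rw [map_zero]
    exact Submodule.zero_mem _
  · intro r c t
    rw [GKosA_ct]
    exact tmul_FdG _ (ct_mem _ (GKosA_mem c t))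
  · intro x y hx hy
    rw [map_add]
    exact Submodule.add_mem _ hx hy

theorem ctG_zero (θ : Derivation κ C C) {w : FG κ Γ C} (hw : w ∈ FdG κ Γ 0) : ctG θ w = 0 := by
  refine FdG_ind (P := fun w => ctG θ w = 0) ?_ ?_ ?_ hw
  · exact map_zero _
  · intro r c t
    rw [GKosA_ct, ct_mem_zero _ (GKosA_mem c t), TensorProduct.tmul_zero]
  · intro x y hx hy
    rw [map_add, hx, hy, add_zero]

end MPadcDC
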