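import Pool.Agent.Lib.MP_adc574_ag_DC.GExD
import Pool.Agent.Lib.MP_adc574_ag_DC.GKosA

/-!
# GDer: derivations of a field over which `dF = 0` and `F = 0`

JOB GDer.
* `der_rel`: `ρ : κ[a] → L`, `σ : C → L` homomorphisms of `κ`-algebras with `∑_h ρ(a_h) σ(D_g(b_h)) = 0` for all `g` and
  `∑_h ρ(a_h) σ(b_h) = 0`. For every derivation `∂` of `L` over `κ`: `∑_g ∂(ρ a_g) σ(b_g) = 0`. [`0 = ∂(∑ ρ(a_h) σ(b_h))`, and
  `∑_h ρ(a_h) ∂(σ b_h) = ∑_g (∑_h ρ(a_h) σ(D_g b_h)) ∂(σ b_g) = 0` by `Fra.der` for the derivation `∂ ∘ σ : C → L`.]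
* `vec_rel`: moreover `ker ρ = (p)`; `d : Γ → L` with `∑_g d_g ρ(∂p/∂a_g) = 0`. Then `∑_g d_g σ(b_g) = 0`. [`r ↦ ∑_g d_g ρ(∂_g r)`
  kills `(p)`, gives a derivation `κ[a]/(p) → L`, `ext_der` for `B` the image of `ρ`; it is linear over `κ`.]
-/

set_option autoImplicit false
set_option linter.unusedSectionVars false

namespace MPadcDC

open MvPolynomial TensorProduct MPadcGP

universe u v

variable {κ : Type u} [Field κ] [CharZero κ] {Γ : Type} [Fintype Γ] {C : Type u} [CommRing C] [Algebra κ C]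
  {b : Γ → C} {D : Γ → Derivation κ C C} {m : ℕ}
  {L : Type u} [Field L] [Algebra κ L] (ρ : MvPolynomial Γ κ →ₐ[κ] L) (σ : C →ₐ[κ] L)

theorem der_rel (hF : Fra κ b D m) (h1 : ∀ g, ∑ h, ρ (X h) * σ (D g (b h)) = 0) (h2 : ∑ h, ρ (X h) * σ (b h) = 0)
    (d : Derivation κ L L) : ∑ g, d (ρ (X g)) * σ (b g) = 0 := by
  let _ : Module C L := Module.compHom L σ.toRingHom
  have hsm : ∀ (c : C) (x : L), c • x = σ c * x := fun c x => rfl
  have _ : IsScalarTower κ C L := ⟨fun a c x => by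
    rw [hsm, hsm, map_smul, smul_mul_assoc]⟩
  let δ : Derivation κ C L := Derivation.mk' (d.toLinearMap ∘ₗ σ.toLinearMap) (by
    intro x y
    rw [hsm, hsm]
    show d (σ (x * y)) = σ x * d (σ y) + σ y * d (σ x)
    rw [map_mul, Derivation.leibniz, smul_eq_mul, smul_eq_mul])
  have hδ : ∀ x, δ x = d (σ x) := fun x => rfl
  have h3 : ∀ h, d (σ (b h)) = ∑ g, σ (D g (b h)) * d (σ (b g)) := fun h => hF.der δ (b h)
  have h4 : ∑ h, ρ (X h) * d (σ (b h)) = 0 := by
    calc ∑ h, ρ (X h) * d (σ (b h)) = ∑ h, ∑ g, ρ (X h) * σ (D g (b h)) * d (σ (b g)) := by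
          refine Finset.sum_congr rfl fun h _ => ?_
          rw [h3, Finset.mul_sum]
          exact Finset.sum_congr rfl fun g _ => (mul_assoc _ _ _).symm
      _ = ∑ g, (∑ h, ρ (X h) * σ (D g (b h))) * d (σ (b g)) := by
          rw [Finset.sum_comm]
          refine Finset.sum_congr rfl fun g _ => ?_
          rw [Finset.sum_mul]
      _ = 0 := by
          refine Finset.sum_eq_zero fun g _ => ?_
          rw [h1, zero_mul]
  have h5 : d (∑ h, ρ (X h) * σ (b h)) = 0 := by rw [h2, map_zero]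
  rw [map_sum] at h5
  have h6 : ∀ h, d (ρ (X h) * σ (b h)) = ρ (X h) * d (σ (b h)) + d (ρ (X h)) * σ (b h) := by
    intro h
    rw [Derivation.leibniz, smul_eq_mul, smul_eq_mul, mul_comm (σ (b h))]
  rw [Finset.sum_congr rfl fun h _ => h6 h, Finset.sum_add_distrib, h4, zero_add] at h5
  exact h5

theorem vec_rel (hF : Fra κ b D m) (h1 : ∀ g, ∑ h, ρ (X h) * σ (D g (b h)) = 0) (h2 : ∑ h, ρ (X h) * σ (b h) = 0)
    {p : MvPolynomial Γ κ} (hp : ∀ r, ρ r = 0 ↔ p ∣ r) (d : Γ → L) (hd : ∑ g, d g * ρ (pderiv g p) = 0) :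
    ∑ g, d g * σ (b g) = 0 := by
  classical
  have hL : CharZero L := charZero_of_injective_algebraMap (algebraMap κ L).injective
  let E : MvPolynomial Γ κ → L := fun r => ∑ g, d g * ρ (pderiv g r)
  have hEa : ∀ r s, E (r + s) = E r + E s := by
    intro r s
    show ∑ g, d g * ρ (pderiv g (r + s)) = ∑ g, d g * ρ (pderiv g r) + ∑ g, d g * ρ (pderiv g s)
    rw [← Finset.sum_add_distrib]
    refine Finset.sum_congr rfl fun g _ => ?_
    rw [map_add, map_add, mul_add]
  have hEm : ∀ r s, E (r * s) = ρ r * E s + ρ s * E r := by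
    intro r s
    show ∑ g, d g * ρ (pderiv g (r * s)) =
      ρ r * ∑ g, d g * ρ (pderiv g s) + ρ s * ∑ g, d g * ρ (pderiv g r)
    rw [Finset.mul_sum, Finset.mul_sum, ← Finset.sum_add_distrib]
    refine Finset.sum_congr rfl fun g _ => ?_
    rw [pderiv_mul, map_add, map_mul, map_mul]
    ring
  have hEX : ∀ g, E (X g) = d g := by
    intro g
    show ∑ h, d h * ρ (pderiv h (X g)) = d g
    rw [Finset.sum_eq_single g]
    · rw [pderiv_X_self, map_one, mul_one]
    · intro h _ hh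
      rw [pderiv_X_of_ne hh.symm, map_zero, mul_zero]
    · intro h
      exact absurd (Finset.mem_univ _) h
  have hEC : ∀ a : κ, E (MvPolynomial.C a) = 0 := by
    intro a
    refine Finset.sum_eq_zero fun g _ => ?_
    rw [pderiv_C, map_zero, mul_zero]
  have hρp : ρ p = 0 := (hp p).2 dvd_rfl
  have hE : ∀ r s, ρ r = ρ s → E r = E s := by
    intro r s h
    have h3 : ρ (r - s) = 0 := by rw [map_sub, h, sub_self]
    obtain ⟨t, ht⟩ := (hp _).1 h3
    have h4 : r = s + p * t := by rw [← ht, add_sub_cancel]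
    have h5 : E p = 0 := hd
    rw [h4, hEa, hEm, hρp, h5, zero_mul, mul_zero, add_zero, add_zero]
  -- the derivation on the image
  let pre : ρ.range → MvPolynomial Γ κ := fun x => Classical.choose ((AlgHom.mem_range ρ).1 x.2)
  have hpre : ∀ x, ρ (pre x) = x := fun x => Classical.choose_spec ((AlgHom.mem_range ρ).1 x.2)
  let δ0 : ρ.range →+ L :=
    { toFun := fun x => E (pre x)
      map_zero' := by
        have h3 : ρ (pre 0) = ρ 0 := by
          rw [hpre, map_zero]
          rfl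
        rw [hE _ _ h3]
        have h4 := hEC 0
        rwa [map_zero] at h4
      map_add' := by
        intro x y
        rw [← hEa]
        apply hE
        rw [hpre, map_add, hpre, hpre]
        rfl }
  let δ : Derivation ℤ ρ.range L := Derivation.mk' δ0.toIntLinearMap (by
    intro x y
    show E (pre (x * y)) = (x : L) * E (pre y) + (y : L) * E (pre x)
    have h3 : ρ (pre (x * y)) = ρ (pre x * pre y) := by
      rw [hpre, map_mul, hpre, hpre]
      rfl
    rw [hE _ _ h3, hEm, hpre, hpre])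
  have hδ : ∀ x, δ x = E (pre x) := fun x => rfl
  obtain ⟨d1, hd1⟩ := ext_der (B := ρ.range) (L := L) Subtype.val_injective δ
  have hd2 : ∀ r, d1 (ρ r) = E r := by
    intro r
    have h3 := hd1 ⟨ρ r, ⟨r, rfl⟩⟩
    rw [hδ] at h3
    exact h3.trans (hE _ _ (hpre _))
  let d2 : Derivation κ L L := Derivation.mk'
    { toFun := d1
      map_add' := map_add d1
      map_smul' := by
        intro a x
        have h3 : d1 (algebraMap κ L a) = 0 := by
          have h4 : algebraMap κ L a = ρ (MvPolynomial.C a) := (ρ.commutes a).symm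
          rw [h4, hd2, hEC]
        rw [Algebra.smul_def, Derivation.leibniz, h3, smul_zero, add_zero, RingHom.id_apply,
          smul_eq_mul, Algebra.smul_def] }
    (fun x y => d1.leibniz x y)
  have h3 := der_rel ρ σ hF h1 h2 d2
  have h4 : ∀ g, d2 (ρ (X g)) = d g := fun g => (hd2 (X g)).trans (hEX g)
  rwa [Finset.sum_congr rfl fun g _ => by rw [h4 g]] at h3

end MPadcDC
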