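import Pool.Agent.Lib.MP_adc574_ag_DC.GKosA

/-!
# GEps: the retraction `eps` and the top degree

`eps0 b D` is the `C`-algebra endomorphism of `κ[a] ⊗ C` with `a_g ↦ a_g - ∑_h D_g(b_h) a_h`, `epsG` the same on forms.

JOB GEps.
* `exists_epsG`: `κ[a] ⊗ Fm κ C`: `Algebra.TensorProduct.lift` of `a_g ↦ tz (a_g ⊗ 1 - u_g)` (in the center: `tz_comm`) and `w ↦ 1 ⊗ w`.
* `epsG_thG`: `∑ (a_g - u_g) db_g = θ - ∑_h a_h ∑_g D_g(b_h) db_g = 0` (`Fra.sum`). `eps0_uu`, `eps0_idem`: `Fra.idem`.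
* `eps0_der`: `θ(b_h) = ∑_g D_g(b_h) θ(b_g)` (`Fra.der`), so `∑_h a_h θ(b_h) = ∑_g u_g θ(b_g)`.
* `sub_eps0`: induction on `t`; the set of the `t` with `t - eps0 t` in the ideal is a subalgebra.
* `dom`: `κ[a] ⊗ C ≃ MvPolynomial Γ C` (`MvPolynomial.algebraTensorAlgEquiv`).
-/

set_option autoImplicit false

namespace MPadcDC

open MvPolynomial TensorProduct MPadcGP

universe u v

variable {κ : Type u} [Field κ] {Γ : Type} [Fintype Γ] {C : Type u} [CommRing C] [Algebra κ C]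

/-- `u_g = ∑_h D_g(b_h) a_h = D_g(F)` -/
noncomputable def uu (b : Γ → C) (D : Γ → Derivation κ C C) (g : Γ) : MvPolynomial Γ κ ⊗[κ] C :=
  ∑ h, (X h : MvPolynomial Γ κ) ⊗ₜ[κ] D g (b h)

/-- The retraction on functions. -/
noncomputable def eps0 (b : Γ → C) (D : Γ → Derivation κ C C) :
    MvPolynomial Γ κ ⊗[κ] C →ₐ[κ] MvPolynomial Γ κ ⊗[κ] C :=
  Algebra.TensorProduct.lift (MvPolynomial.aeval fun g => (X g : MvPolynomial Γ κ) ⊗ₜ[κ] (1 : C) - uu b D g)
    Algebra.TensorProduct.includeRight fun _ _ => Commute.all _ _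

theorem GEps_eps0_C (b : Γ → C) (D : Γ → Derivation κ C C) (c : C) :
    eps0 b D ((1 : MvPolynomial Γ κ) ⊗ₜ[κ] c) = 1 ⊗ₜ[κ] c := by
  unfold eps0
  rw [Algebra.TensorProduct.lift_tmul, map_one, one_mul, Algebra.TensorProduct.includeRight_apply]

/-- Functions, as a homomorphism of algebras. -/
private noncomputable def GEps_tzA : MvPolynomial Γ κ ⊗[κ] C →ₐ[κ] FG κ Γ C :=
  Algebra.TensorProduct.map (AlgHom.id κ (MvPolynomial Γ κ)) (IsScalarTower.toAlgHom κ C (Fm κ C))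

private theorem GEps_tzA_apply (t : MvPolynomial Γ κ ⊗[κ] C) : GEps_tzA t = (tz t : FG κ Γ C) := by
  induction t using TensorProduct.induction_on with
  | zero => rw [map_zero, map_zero]
  | tmul r c => rfl
  | add x y hx hy => rw [map_add, map_add, hx, hy]

/-- The retraction on forms. -/
theorem exists_epsG (b : Γ → C) (D : Γ → Derivation κ C C) : ∃ E : FG κ Γ C →ₐ[κ] FG κ Γ C,
    (∀ t, E (tz t) = tz (eps0 b D t)) ∧ ∀ w : Fm κ C, E ((1 : MvPolynomial Γ κ) ⊗ₜ[κ] w) = 1 ⊗ₜ[κ] w := by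
  have hc : ∀ (r : MvPolynomial Γ κ) (w : Fm κ C),
      Commute ((GEps_tzA.comp ((eps0 b D).comp Algebra.TensorProduct.includeLeft)) r)
        ((Algebra.TensorProduct.includeRight : Fm κ C →ₐ[κ] FG κ Γ C) w) := by
    intro r w
    show GEps_tzA _ * _ = _ * GEps_tzA _
    rw [GEps_tzA_apply]
    exact tz_comm _ _
  refine ⟨Algebra.TensorProduct.lift (GEps_tzA.comp ((eps0 b D).comp Algebra.TensorProduct.includeLeft))
    Algebra.TensorProduct.includeRight hc, fun t => ?_, fun w => ?_⟩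
  · induction t using TensorProduct.induction_on with
    | zero => simp only [map_zero]
    | tmul r c =>
      have h1 : (r ⊗ₜ[κ] c : MvPolynomial Γ κ ⊗[κ] C) = r ⊗ₜ[κ] 1 * 1 ⊗ₜ[κ] c := by
        rw [Algebra.TensorProduct.tmul_mul_tmul, mul_one, one_mul]
      rw [tz_tmul, Algebra.TensorProduct.lift_tmul, h1, map_mul, GEps_eps0_C, tz_mul]
      show GEps_tzA _ * _ = _
      rw [GEps_tzA_apply]
      rfl
    | add x y hx hy => simp only [map_add, hx, hy]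
  · rw [Algebra.TensorProduct.lift_tmul, map_one, one_mul, Algebra.TensorProduct.includeRight_apply]

/-- The retraction on forms. -/
noncomputable def epsG (b : Γ → C) (D : Γ → Derivation κ C C) : FG κ Γ C →ₐ[κ] FG κ Γ C := (exists_epsG b D).choose

variable {b : Γ → C} {D : Γ → Derivation κ C C} {m : ℕ}

theorem epsG_tz (t : MvPolynomial Γ κ ⊗[κ] C) : epsG b D (tz t) = tz (eps0 b D t) := (exists_epsG b D).choose_spec.1 t

theorem epsG_one_tmul (w : Fm κ C) : epsG b D ((1 : MvPolynomial Γ κ) ⊗ₜ[κ] w) = 1 ⊗ₜ[κ] w :=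
  (exists_epsG b D).choose_spec.2 w

theorem epsG_tmul (r : MvPolynomial Γ κ) (w : Fm κ C) :
    epsG b D (r ⊗ₜ[κ] w) = tz (eps0 b D (r ⊗ₜ[κ] 1)) * ((1 : MvPolynomial Γ κ) ⊗ₜ[κ] w) := by
  have h1 : (r ⊗ₜ[κ] w : FG κ Γ C) = tz (r ⊗ₜ[κ] 1) * (1 : MvPolynomial Γ κ) ⊗ₜ[κ] w := by
    rw [tz_tmul, map_one, Algebra.TensorProduct.tmul_mul_tmul, mul_one, one_mul]
  rw [h1, map_mul, epsG_tz, epsG_one_tmul]

theorem eps0_X (g : Γ) : eps0 b D ((X g : MvPolynomial Γ κ) ⊗ₜ[κ] 1) = (X g : MvPolynomial Γ κ) ⊗ₜ[κ] (1 : C) - uu b D g := by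
  unfold eps0
  rw [Algebra.TensorProduct.lift_tmul, map_one, mul_one, aeval_X]

theorem eps0_C (c : C) : eps0 b D ((1 : MvPolynomial Γ κ) ⊗ₜ[κ] c) = 1 ⊗ₜ[κ] c := GEps_eps0_C b D c

private theorem GEps_mul (r : MvPolynomial Γ κ) (c : C) :
    (r ⊗ₜ[κ] c : MvPolynomial Γ κ ⊗[κ] C) = r ⊗ₜ[κ] 1 * 1 ⊗ₜ[κ] c := by
  rw [Algebra.TensorProduct.tmul_mul_tmul, mul_one, one_mul]

private theorem GEps_mul' (r : MvPolynomial Γ κ) (c c' : C) :
    (r ⊗ₜ[κ] c : MvPolynomial Γ κ ⊗[κ] C) * 1 ⊗ₜ[κ] c' = r ⊗ₜ[κ] (c * c') := by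
  rw [Algebra.TensorProduct.tmul_mul_tmul, mul_one]

theorem eps0_uu (hF : Fra κ b D m) (g : Γ) : eps0 b D (uu b D g) = 0 := by
  have h1 : eps0 b D (uu b D g) = uu b D g - ∑ h, uu b D h * (1 : MvPolynomial Γ κ) ⊗ₜ[κ] D g (b h) := by
    conv_lhs => rw [uu, map_sum]
    conv_rhs => rw [uu, ← Finset.sum_sub_distrib]
    refine Finset.sum_congr rfl fun h _ => ?_
    rw [GEps_mul, map_mul, eps0_X, eps0_C, sub_mul]
  have h2 : ∑ h, uu b D h * (1 : MvPolynomial Γ κ) ⊗ₜ[κ] D g (b h) = uu b D g := by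
    simp only [uu, Finset.sum_mul, GEps_mul']
    rw [Finset.sum_comm]
    refine Finset.sum_congr rfl fun k _ => ?_
    rw [← TensorProduct.tmul_sum]
    congr 1
    rw [← hF.idem g k]
    exact Finset.sum_congr rfl fun h _ => mul_comm _ _
  rw [h1, h2, sub_self]

theorem eps0_idem (hF : Fra κ b D m) (t : MvPolynomial Γ κ ⊗[κ] C) : eps0 b D (eps0 b D t) = eps0 b D t := by
  have h1 : (eps0 b D).comp (eps0 b D) = eps0 b D := by
    refine Algebra.TensorProduct.ext' fun r c => ?_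
    have h2 : ((eps0 b D).comp ((eps0 b D).comp Algebra.TensorProduct.includeLeft) : MvPolynomial Γ κ →ₐ[κ] _) =
        (eps0 b D).comp Algebra.TensorProduct.includeLeft := by
      refine MvPolynomial.algHom_ext fun g => ?_
      show eps0 b D (eps0 b D (X g ⊗ₜ[κ] 1)) = eps0 b D (X g ⊗ₜ[κ] 1)
      rw [eps0_X, map_sub, eps0_uu hF, sub_zero, eps0_X]
    have h3 : eps0 b D (eps0 b D (r ⊗ₜ[κ] (1 : C))) = eps0 b D (r ⊗ₜ[κ] 1) := DFunLike.congr_fun h2 r
    rw [AlgHom.comp_apply, GEps_mul, map_mul, map_mul, h3, eps0_C, eps0_C]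
  exact DFunLike.congr_fun h1 t

theorem epsG_thG (hF : Fra κ b D m) : epsG b D (thG κ b) = 0 := by
  have h1 : epsG b D (thG κ b) = thG κ b -
      ∑ g, (tz (uu b D g) : FG κ Γ C) * (1 : MvPolynomial Γ κ) ⊗ₜ[κ] df κ (b g) := by
    unfold thG
    rw [map_sum, ← Finset.sum_sub_distrib]
    refine Finset.sum_congr rfl fun g _ => ?_
    rw [epsG_tmul, eps0_X, map_sub, sub_mul, tz_tmul, map_one, Algebra.TensorProduct.tmul_mul_tmul, mul_one, one_mul]
  have h2 : ∑ g, (tz (uu b D g) : FG κ Γ C) * (1 : MvPolynomial Γ κ) ⊗ₜ[κ] df κ (b g) = thG κ b := by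
    have h3 : ∀ g, (tz (uu b D g) : FG κ Γ C) * (1 : MvPolynomial Γ κ) ⊗ₜ[κ] df κ (b g) =
        ∑ h, (X h : MvPolynomial Γ κ) ⊗ₜ[κ] (fz κ (D g (b h)) * df κ (b g)) := by
      intro g
      unfold uu
      rw [map_sum, Finset.sum_mul]
      refine Finset.sum_congr rfl fun h _ => ?_
      rw [tz_tmul, Algebra.TensorProduct.tmul_mul_tmul, mul_one]
    rw [Finset.sum_congr rfl fun g _ => h3 g, Finset.sum_comm]
    unfold thG
    refine Finset.sum_congr rfl fun h _ => ?_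
    rw [← TensorProduct.tmul_sum, hF.sum]
  rw [h1, h2, sub_self]

theorem epsG_mem {q : ℕ} {w : FG κ Γ C} (hw : w ∈ FdG κ Γ q) : epsG b D w ∈ FdG κ Γ q := by
  refine FdG_ind (P := fun w => epsG b D w ∈ FdG κ Γ q) ?_ (fun r c t => ?_) (fun x y hx hy => ?_) hw
  · show epsG b D 0 ∈ _
    rw [map_zero]
    exact Submodule.zero_mem _
  · show epsG b D _ ∈ _
    rw [epsG_tmul]
    exact tz_mul_FdG _ (tmul_FdG _ (by
      rw [← fz_smul]
      exact Submodule.smul_mem _ _ (wd_mem t)))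
  · show epsG b D (x + y) ∈ _
    rw [map_add]
    exact Submodule.add_mem _ hx hy

private theorem GEps_ctG_tz (θ : Derivation κ C C) (t : MvPolynomial Γ κ ⊗[κ] C) (w : FG κ Γ C) :
    ctG θ ((tz t : FG κ Γ C) * w) = (tz t : FG κ Γ C) * ctG θ w := by
  induction t using TensorProduct.induction_on with
  | zero => rw [map_zero, zero_mul, zero_mul, map_zero]
  | add x y hx hy => rw [map_add, add_mul, add_mul, map_add, hx, hy]
  | tmul r c =>
    induction w using TensorProduct.induction_on with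
    | zero => rw [mul_zero, map_zero, mul_zero]
    | add x y hx hy => rw [mul_add, map_add, map_add, mul_add, hx, hy]
    | tmul r' w =>
      rw [tz_tmul, Algebra.TensorProduct.tmul_mul_tmul, ← fz_smul]
      show (r * r') ⊗ₜ[κ] (ct κ θ (c • w)) = (r ⊗ₜ[κ] fz κ c) * (r' ⊗ₜ[κ] ct κ θ w)
      rw [map_smul, Algebra.TensorProduct.tmul_mul_tmul, fz_smul]

theorem epsG_ctG (θ : Derivation κ C C) (w : FG κ Γ C) : epsG b D (ctG θ w) = ctG θ (epsG b D w) := by
  induction w using TensorProduct.induction_on with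
  | zero => simp only [map_zero]
  | add x y hx hy => simp only [map_add, hx, hy]
  | tmul r w =>
    rw [epsG_tmul, GEps_ctG_tz]
    exact epsG_tmul r (ct κ θ w)

/-- `θ(F)` is killed by `eps0` for every derivation `θ` of `C` -/
theorem eps0_der (hF : Fra κ b D m) (θ : Derivation κ C C) :
    eps0 b D (∑ g, (X g : MvPolynomial Γ κ) ⊗ₜ[κ] θ (b g)) = 0 := by
  have h1 : ∑ g, (X g : MvPolynomial Γ κ) ⊗ₜ[κ] θ (b g) = ∑ g, uu b D g * (1 : MvPolynomial Γ κ) ⊗ₜ[κ] θ (b g) := by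
    simp only [uu, Finset.sum_mul, GEps_mul']
    rw [Finset.sum_comm]
    refine Finset.sum_congr rfl fun h _ => ?_
    rw [← TensorProduct.tmul_sum]
    congr 1
    exact hF.der θ (b h)
  rw [h1, map_sum]
  refine Finset.sum_eq_zero fun g _ => ?_
  rw [map_mul, eps0_uu hF, zero_mul]

/-- The kernel of `eps0` is generated by the `u_g`. -/
theorem sub_eps0 (t : MvPolynomial Γ κ ⊗[κ] C) : t - eps0 b D t ∈ Ideal.span (Set.range (uu b D)) := by
  let q := Ideal.Quotient.mkₐ κ (Ideal.span (Set.range (uu b D)))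
  have h1 : q.comp (eps0 b D) = q := by
    refine Algebra.TensorProduct.ext' fun r c => ?_
    have h2 : (q.comp ((eps0 b D).comp Algebra.TensorProduct.includeLeft) : MvPolynomial Γ κ →ₐ[κ] _) =
        q.comp Algebra.TensorProduct.includeLeft := by
      refine MvPolynomial.algHom_ext fun g => ?_
      show q (eps0 b D (X g ⊗ₜ[κ] 1)) = q (X g ⊗ₜ[κ] 1)
      rw [eps0_X, map_sub, sub_eq_self]
      exact Ideal.Quotient.eq_zero_iff_mem.2 (Ideal.subset_span ⟨g, rfl⟩)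
    have h3 : q (eps0 b D (r ⊗ₜ[κ] (1 : C))) = q (r ⊗ₜ[κ] 1) := DFunLike.congr_fun h2 r
    rw [AlgHom.comp_apply, GEps_mul, map_mul, map_mul, h3, eps0_C, map_mul]
  have h4 : q (eps0 b D t) = q t := DFunLike.congr_fun h1 t
  exact Ideal.Quotient.eq.1 h4.symm

theorem dom [IsDomain C] : IsDomain (MvPolynomial Γ κ ⊗[κ] C) :=
  ((Algebra.TensorProduct.comm κ (MvPolynomial Γ κ) C).toRingEquiv.trans
    (MvPolynomial.algebraTensorAlgEquiv κ C).toRingEquiv).toMulEquiv.isDomain _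

end MPadcDC
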