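import Mathlib

/-!
# GExD: extension of derivations

JOB GExD. `ext_der`: derivations of a domain `B` contained in a field `L` of characteristic `0`, with values in `L`, extend to `L`: first to
`Frac B`, then to `Frac B (t_i)` with a transcendence basis (`0` on it), then to the algebraic (separable) extension `L`
(`Algebra.FormallyEtale`, `Derivation` extension: see `exists_extend_etale`, `exists_derivation_field` in MP_adc574_ag_GM/JDer).
Here: `L` is formally smooth over `B`, so `L ⊗ Ω[B/ℤ] → Ω[L/ℤ]` is injective, and it has a left inverse.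
-/

set_option autoImplicit false

namespace MPadcDC

open MvPolynomial TensorProduct

universe u v

private theorem GExD_smooth {B L : Type u} [CommRing B] [IsDomain B] [Field L] [CharZero L] [Algebra B L]
    (hi : Function.Injective (algebraMap B L)) : Algebra.FormallySmooth B L := by
  have hf : FaithfulSMul B L := (faithfulSMul_iff_algebraMap_injective B L).2 hi
  letI : Algebra (FractionRing B) L := FractionRing.liftAlgebra B L
  haveI : IsScalarTower B (FractionRing B) L := FractionRing.isScalarTower_liftAlgebra B L
  haveI : CharZero B := ⟨fun m n h => by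
    have h1 : algebraMap B L (m : B) = algebraMap B L (n : B) := by rw [h]
    rw [map_natCast, map_natCast] at h1
    exact Nat.cast_injective h1⟩
  haveI : CharZero (FractionRing B) := inferInstance
  obtain ⟨X, hX⟩ := exists_isTranscendenceBasis (FractionRing B) L
  haveI h1 : Algebra.IsAlgebraic (IntermediateField.adjoin (FractionRing B) (Set.range ((↑) : X → L))) L :=
    hX.isAlgebraic_field
  haveI : CharZero (IntermediateField.adjoin (FractionRing B) (Set.range ((↑) : X → L))) := inferInstance
  haveI h2 : Algebra.IsSeparable (IntermediateField.adjoin (FractionRing B) (Set.range ((↑) : X → L))) L :=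
    inferInstance
  haveI h3 : Algebra.FormallySmooth (FractionRing B) L :=
    Algebra.FormallySmooth.of_algebraicIndependent_of_isSeparable hX.1
  haveI h4 : Algebra.FormallySmooth B (FractionRing B) := Algebra.FormallySmooth.of_isLocalization (nonZeroDivisors B)
  exact Algebra.FormallySmooth.comp B (FractionRing B) L

theorem ext_der {B L : Type u} [CommRing B] [IsDomain B] [Field L] [CharZero L] [Algebra B L]
    (hi : Function.Injective (algebraMap B L)) (δ : Derivation ℤ B L) :
    ∃ d : Derivation ℤ L L, ∀ x, d (algebraMap B L x) = δ x := by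
  have hsm := GExD_smooth hi
  have hinj : Function.Injective (KaehlerDifferential.mapBaseChange ℤ B L) := by
    rw [injective_iff_map_eq_zero]
    intro x hx
    obtain ⟨x, rfl⟩ := (Algebra.H1Cotangent.exact_δ_mapBaseChange ℤ B L x).mp hx
    rw [Subsingleton.elim x 0, map_zero]
  obtain ⟨ρ, hρ⟩ := (KaehlerDifferential.mapBaseChange ℤ B L).exists_leftInverse_of_injective
    (LinearMap.ker_eq_bot.2 hinj)
  let τ : L ⊗[B] Ω[B⁄ℤ] →ₗ[L] L := TensorProduct.AlgebraTensorModule.lift
    ((LinearMap.lsmul L (Ω[B⁄ℤ] →ₗ[B] L)).flip δ.liftKaehlerDifferential)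
  refine ⟨(τ ∘ₗ ρ).compDer (KaehlerDifferential.D ℤ L), ?_⟩
  intro x
  have h1 : KaehlerDifferential.D ℤ L (algebraMap B L x) =
      KaehlerDifferential.mapBaseChange ℤ B L (1 ⊗ₜ KaehlerDifferential.D ℤ B x) := by
    rw [KaehlerDifferential.mapBaseChange_tmul, one_smul, KaehlerDifferential.map_D]
  change τ (ρ (KaehlerDifferential.D ℤ L (algebraMap B L x))) = δ x
  have h2 : ρ (KaehlerDifferential.mapBaseChange ℤ B L (1 ⊗ₜ KaehlerDifferential.D ℤ B x)) =
      1 ⊗ₜ KaehlerDifferential.D ℤ B x := LinearMap.congr_fun hρ _
  rw [h1, h2]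
  simp [τ]

end MPadcDC
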