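import Mathlib

/-!
# GExtA: extension of derivations to Laurent polynomials (abstract version)
-/

set_option autoImplicit false

namespace MPadcDC

universe u v

variable {κ : Type u} [CommRing κ] {A L : Type u} [CommRing A] [CommRing L] [Algebra κ A] [Algebra A L] [Algebra κ L]
  [IsScalarTower κ A L]

theorem ext_laurent (Φ : LaurentPolynomial A ≃ₐ[A] L) (δ : Derivation κ A L) (τ : L)
    (hu0 : IsUnit (Φ (LaurentPolynomial.T 1))) :
    ∃ D : Derivation κ L L, (∀ x : A, D (algebraMap A L x) = δ x) ∧ D (Φ (LaurentPolynomial.T 1)) = τ := by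
  have hC : ∀ x : A, Φ.symm (algebraMap A L x) = LaurentPolynomial.C x := by
    intro x
    rw [AlgEquiv.symm_apply_eq]
    have h1 : Φ (algebraMap A (LaurentPolynomial A) x) = algebraMap A L x := Φ.commutes x
    rw [← LaurentPolynomial.C_eq_algebraMap] at h1
    exact h1.symm
  let e0 : A →+* TrivSqZeroExt L L :=
    { toFun := fun a => TrivSqZeroExt.inl (algebraMap A L a) + TrivSqZeroExt.inr (δ a)
      map_one' := by
        ext
        · simp
        · simp
      map_mul' := fun a b => by
        ext
        · simp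
        · simp only [TrivSqZeroExt.snd_mul, TrivSqZeroExt.snd_add, TrivSqZeroExt.snd_inl, TrivSqZeroExt.snd_inr,
            TrivSqZeroExt.fst_add, TrivSqZeroExt.fst_inl, TrivSqZeroExt.fst_inr, zero_add, add_zero,
            Derivation.leibniz, Algebra.smul_def, op_smul_eq_smul, smul_eq_mul]
          rfl
      map_zero' := by
        ext
        · simp
        · simp
      map_add' := fun a b => by
        ext
        · simp
        · simp }
  have hu : IsUnit (TrivSqZeroExt.inl (Φ (LaurentPolynomial.T 1)) + TrivSqZeroExt.inr τ : TrivSqZeroExt L L) := by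
    rw [TrivSqZeroExt.isUnit_iff_isUnit_fst]
    simpa using hu0
  let E : LaurentPolynomial A →+* TrivSqZeroExt L L := LaurentPolynomial.eval₂ e0 hu.unit
  have hEC : ∀ x, E (LaurentPolynomial.C x) = TrivSqZeroExt.inl (algebraMap A L x) + TrivSqZeroExt.inr (δ x) :=
    fun x => LaurentPolynomial.eval₂_C _ _ _
  have hET : E (LaurentPolynomial.T 1) = TrivSqZeroExt.inl (Φ (LaurentPolynomial.T 1)) + TrivSqZeroExt.inr τ := by
    have h1 : E (LaurentPolynomial.T 1) = ((hu.unit ^ (1 : ℤ) : (TrivSqZeroExt L L)ˣ) : TrivSqZeroExt L L) :=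
      LaurentPolynomial.eval₂_T _ _ _
    rw [h1, zpow_one, IsUnit.unit_spec]
  have hfst : ∀ y, (E y).fst = Φ y := by
    have hTp : ∀ m : ℕ, (E (LaurentPolynomial.T (m : ℤ))).fst = Φ (LaurentPolynomial.T (m : ℤ)) := by
      intro m
      have h7 : (LaurentPolynomial.T (m : ℤ) : LaurentPolynomial A) = LaurentPolynomial.T 1 ^ m := by
        rw [LaurentPolynomial.T_pow, mul_one]
      rw [h7, map_pow, map_pow, TrivSqZeroExt.fst_pow, hET]
      simp
    have hT : ∀ m : ℤ, (E (LaurentPolynomial.T m)).fst = Φ (LaurentPolynomial.T m) := by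
      intro m
      obtain ⟨m, rfl | rfl⟩ := m.eq_nat_or_neg
      · exact hTp m
      · have hu1 : IsUnit (Φ (LaurentPolynomial.T (m : ℤ))) :=
          (LaurentPolynomial.isUnit_T (R := A) (m : ℤ)).map Φ
        apply hu1.mul_right_cancel
        rw [← map_mul, ← LaurentPolynomial.T_add, neg_add_cancel, LaurentPolynomial.T_zero, map_one,
          ← hTp m, ← TrivSqZeroExt.fst_mul, ← map_mul, ← LaurentPolynomial.T_add, neg_add_cancel,
          LaurentPolynomial.T_zero, map_one, TrivSqZeroExt.fst_one]
    intro y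
    induction y using LaurentPolynomial.induction_on' with
    | add p q hp hq => rw [map_add, map_add, TrivSqZeroExt.fst_add, hp, hq]
    | C_mul_T m a =>
      rw [map_mul, map_mul, TrivSqZeroExt.fst_mul, hT, hEC]
      have h1 : Φ (LaurentPolynomial.C a) = algebraMap A L a := by
        rw [← hC a, AlgEquiv.apply_symm_apply]
      rw [h1]
      simp
  let D0 : L →ₗ[κ] L :=
    { toFun := fun x => (E (Φ.symm x)).snd
      map_add' := fun x y => by rw [map_add, map_add, TrivSqZeroExt.snd_add]
      map_smul' := fun r x => by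
        have h1 : r • x = algebraMap A L (algebraMap κ A r) * x := by
          rw [Algebra.smul_def, ← IsScalarTower.algebraMap_apply]
        rw [h1, map_mul, hC, map_mul, TrivSqZeroExt.snd_mul, hEC, Derivation.map_algebraMap]
        simp [Algebra.smul_def, ← IsScalarTower.algebraMap_apply] }
  have hD0 : ∀ x, D0 x = (E (Φ.symm x)).snd := fun x => rfl
  refine ⟨Derivation.mk' D0 fun x y => ?_, fun x => ?_, ?_⟩
  · rw [hD0, map_mul, map_mul, TrivSqZeroExt.snd_mul, hfst, hfst, AlgEquiv.apply_symm_apply,
      AlgEquiv.apply_symm_apply, op_smul_eq_smul]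
    rfl
  · change (E (Φ.symm (algebraMap A L x))).snd = δ x
    rw [hC, hEC]
    simp
  · change (E (Φ.symm (Φ (LaurentPolynomial.T 1)))).snd = τ
    rw [AlgEquiv.symm_apply_apply, hET]
    simp

end MPadcDC
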