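import Pool.Agent.Lib.MP_adc574_ag_DC.GDefs
import Pool.Agent.Lib.MP_adc574_ag_DC.GExtA

/-!
# GExt: the ring `S[1/x_l]` is the ring of Laurent polynomials in `x_l` over its subring `chart J {l}`

JOB GExt.
* `exists_laurent`: the ring homomorphism `S → chart J {l} [T, T⁻¹]`, `x_k ↦ (x_k/x_l) T`, is well defined since `J` is homogeneous (`eval₂_cq`
  for the homogeneous components of `f ∈ J`); `x_l ↦ T` is a unit, so it extends to `S[1/x_l]`; it is inverse to `T ↦ x_l` (on generators; the
  generators `z` of the chart, `z x_j = x_l`, map to constants).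
* `ext_chart`: derivations of `A0[T, T⁻¹]` with values in `M` are given by their restriction to `A0` and the value at `T` (`LR J {l}` is a
  localization of `A0[T]`; Mathlib: `KaehlerDifferential` of polynomial rings / `Derivation` on `Polynomial`, or explicitly
  `D(∑ c_i T^i) = ∑ δ(c_i) T^i + (∑ i c_i T^(i-1)) τ`).
* `chart_proj`: the coefficient of `T^0`. `exists_ret`: `T ↦ 1`.

-/

set_option autoImplicit false

namespace MPadcDC

open MvPolynomial TensorProduct MPadcGP

universe u v

variable {κ : Type u} [Field κ] {n : ℕ} {J : Ideal (MvPolynomial (Fin n) κ)} {l : Fin n}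

private theorem GExt_hl : l ∈ ({l} : Finset (Fin n)) := Finset.mem_singleton_self l

private theorem GExt_hom {R' : Type*} [CommRing R'] (φ : κ →+* R') (z : Fin n → R') (t : R') {d : ℕ}
    {g : MvPolynomial (Fin n) κ} (hg : g.IsHomogeneous d) :
    eval₂ φ (fun k => z k * t) g = eval₂ φ z g * t ^ d := by
  rw [eval₂_eq', eval₂_eq', Finset.sum_mul]
  refine Finset.sum_congr rfl fun e he => ?_
  have h4 : ∑ l, e l = d := by
    have h5 := hg (mem_support_iff.1 he)
    rw [Finsupp.weight_apply, Finsupp.sum_fintype _ _ (fun _ => by simp)] at h5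
    simpa using h5
  rw [mul_assoc, ← h4, ← Finset.prod_pow_eq_pow_sum, ← Finset.prod_mul_distrib]
  refine congrArg _ (Finset.prod_congr rfl fun k _ => ?_)
  rw [mul_pow]

private theorem GExt_eval (hJ : IsHomog J) {f : MvPolynomial (Fin n) κ} (hf : f ∈ J) :
    eval₂Hom ((LaurentPolynomial.C : chart J {l} →+* LaurentPolynomial (chart J {l})).comp (algebraMap κ (chart J {l})))
      (fun k => LaurentPolynomial.C (cq J {l} k GExt_hl) * LaurentPolynomial.T 1) f = 0 := by
  have key : ∀ d, ∀ g : MvPolynomial (Fin n) κ, g.IsHomogeneous d → g ∈ J →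
      eval₂Hom ((LaurentPolynomial.C : chart J {l} →+* LaurentPolynomial (chart J {l})).comp
        (algebraMap κ (chart J {l})))
        (fun k => LaurentPolynomial.C (cq J {l} k GExt_hl) * LaurentPolynomial.T 1) g = 0 := by
    intro d g hg hgJ
    have h1 := eval₂_cq hJ (GExt_hl (l := l)) hgJ
    have h2 := GExt_hom ((LaurentPolynomial.C : chart J {l} →+* LaurentPolynomial (chart J {l})).comp
        (algebraMap κ (chart J {l}))) (fun k => LaurentPolynomial.C (cq J {l} k GExt_hl))
        (LaurentPolynomial.T 1) hg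
    have h3 := eval₂_comp_left (LaurentPolynomial.C : chart J {l} →+* LaurentPolynomial (chart J {l}))
      (algebraMap κ (chart J {l})) (fun l' => cq J {l} l' GExt_hl) g
    rw [coe_eval₂Hom, h2]
    have h4 : eval₂ ((LaurentPolynomial.C : chart J {l} →+* LaurentPolynomial (chart J {l})).comp
        (algebraMap κ (chart J {l}))) (fun k => LaurentPolynomial.C (cq J {l} k GExt_hl)) g = 0 := by
      refine h3.symm.trans ?_
      rw [h1, map_zero]
    rw [h4, zero_mul]
  rw [← sum_homogeneousComponent f, map_sum]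
  exact Finset.sum_eq_zero fun d _ => key d _ (homogeneousComponent_isHomogeneous d f) (hJ f hf d)

private theorem GExt_psi (hJ : IsHomog J) : ∃ ψ : LR J {l} →+* LaurentPolynomial (chart J {l}),
    (∀ a : κ, ψ (algebraMap κ _ a) = LaurentPolynomial.C (algebraMap κ _ a)) ∧
    ∀ k, ψ (lx J {l} k) = LaurentPolynomial.C (cq J {l} k GExt_hl) * LaurentPolynomial.T 1 := by
  let g0 : CR J →+* LaurentPolynomial (chart J {l}) := Ideal.Quotient.lift J
    (eval₂Hom ((LaurentPolynomial.C : chart J {l} →+* LaurentPolynomial (chart J {l})).comp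
      (algebraMap κ (chart J {l})))
      (fun k => LaurentPolynomial.C (cq J {l} k GExt_hl) * LaurentPolynomial.T 1)) fun f hf => GExt_eval hJ hf
  have hg0 : ∀ f, g0 (Ideal.Quotient.mk J f) =
      eval₂Hom ((LaurentPolynomial.C : chart J {l} →+* LaurentPolynomial (chart J {l})).comp
      (algebraMap κ (chart J {l})))
      (fun k => LaurentPolynomial.C (cq J {l} k GExt_hl) * LaurentPolynomial.T 1) f := fun f => rfl
  have hu : IsUnit (g0 (Ideal.Quotient.mk J (∏ j ∈ ({l} : Finset (Fin n)), X j))) := by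
    have h1 : (∏ j ∈ ({l} : Finset (Fin n)), X j : MvPolynomial (Fin n) κ) = X l := Finset.prod_singleton _ _
    have h2 : g0 (Ideal.Quotient.mk J (∏ j ∈ ({l} : Finset (Fin n)), X j)) = LaurentPolynomial.T 1 := by
      refine (congrArg (fun f => g0 (Ideal.Quotient.mk J f)) h1).trans ?_
      refine (hg0 (X l)).trans ?_
      rw [eval₂Hom_X', cq_self, map_one, one_mul]
    rw [h2]
    exact LaurentPolynomial.isUnit_T 1
  let g : LR J {l} →+* LaurentPolynomial (chart J {l}) :=
    IsLocalization.Away.lift (Ideal.Quotient.mk J (∏ j ∈ ({l} : Finset (Fin n)), X j)) hu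
  have hg : ∀ x, g (algebraMap (CR J) (LR J {l}) x) = g0 x := fun x => IsLocalization.Away.lift_eq _ hu x
  refine ⟨g, fun a => ?_, fun k => ?_⟩
  · have h1 : algebraMap κ (LR J {l}) a = algebraMap (CR J) (LR J {l}) (Ideal.Quotient.mk J (C a)) := by
      rw [IsScalarTower.algebraMap_apply κ (CR J) (LR J {l})]
      rfl
    rw [h1, hg, hg0, eval₂Hom_C, RingHom.comp_apply]
  · rw [lx, hg, hg0, eval₂Hom_X']

/-- The isomorphism with the Laurent polynomials over the chart. -/
theorem exists_laurent (hJ : IsHomog J) : ∃ Φ : LaurentPolynomial (chart J {l}) ≃ₐ[chart J {l}] LR J {l},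
    Φ (LaurentPolynomial.T 1) = lx J {l} l := by
  obtain ⟨ψ, hψ0, hψ⟩ := GExt_psi (l := l) hJ
  let φ : LaurentPolynomial (chart J {l}) →+* LR J {l} :=
    LaurentPolynomial.eval₂ (algebraMap (chart J {l}) (LR J {l})) (lx_isUnit J {l} (GExt_hl (l := l))).unit
  have hφC : ∀ x : chart J {l}, φ (LaurentPolynomial.C x) = (x : LR J {l}) := fun x =>
    LaurentPolynomial.eval₂_C _ _ _
  have hφT : φ (LaurentPolynomial.T 1) = lx J {l} l := by
    have h1 : φ (LaurentPolynomial.T 1) = (((lx_isUnit J {l} (GExt_hl (l := l))).unit ^ (1 : ℤ) :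
        (LR J {l})ˣ) : LR J {l}) := LaurentPolynomial.eval₂_T _ _ _
    rw [h1, zpow_one, IsUnit.unit_spec]
  have hTu : IsUnit (LaurentPolynomial.T 1 : LaurentPolynomial (chart J {l})) := LaurentPolynomial.isUnit_T 1
  have h1 : φ.comp ψ = RingHom.id (LR J {l}) := by
    refine IsLocalization.ringHom_ext (Submonoid.powers
      (Ideal.Quotient.mk J (∏ j ∈ ({l} : Finset (Fin n)), X j))) ?_
    have h9 : (((φ.comp ψ).comp (algebraMap (CR J) (LR J {l}))).comp (Ideal.Quotient.mk J)) =
        (((RingHom.id (LR J {l})).comp (algebraMap (CR J) (LR J {l}))).comp (Ideal.Quotient.mk J)) := ?_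
    · exact Ideal.Quotient.ringHom_ext h9
    refine MvPolynomial.ringHom_ext (f := (((φ.comp ψ).comp (algebraMap (CR J) (LR J {l}))).comp
      (Ideal.Quotient.mk J))) (fun a => ?_) fun k => ?_
    · have h2 : algebraMap κ (LR J {l}) a = algebraMap (CR J) (LR J {l}) (Ideal.Quotient.mk J (C a)) := by
        rw [IsScalarTower.algebraMap_apply κ (CR J) (LR J {l})]
        rfl
      change φ (ψ (algebraMap (CR J) (LR J {l}) (Ideal.Quotient.mk J (C a)))) =
        algebraMap (CR J) (LR J {l}) (Ideal.Quotient.mk J (C a))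
      rw [← h2, hψ0, hφC]
      rfl
    · change φ (ψ (lx J {l} k)) = lx J {l} k
      rw [hψ, map_mul, hφC, hφT, cq_mul_lx]
  have h2 : ψ.comp φ = RingHom.id (LaurentPolynomial (chart J {l})) := by
    have h3 : ∀ x : chart J {l}, ψ (x : LR J {l}) = LaurentPolynomial.C x := by
      have h4 : ψ.comp (chart J {l}).val.toRingHom = LaurentPolynomial.C := by
        refine chart_hom_ext' J {l} (R' := LaurentPolynomial (chart J {l})) (GExt_hl (l := l))
          (fun a => ?_) fun k => ?_
        · exact hψ0 a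
        · apply hTu.mul_right_cancel
          have h5 : ψ (lx J {l} l) = LaurentPolynomial.T 1 := by
            rw [hψ, cq_self, map_one, one_mul]
          change ψ (cq J {l} k GExt_hl : LR J {l}) * LaurentPolynomial.T 1 =
            LaurentPolynomial.C (cq J {l} k GExt_hl) * LaurentPolynomial.T 1
          rw [← hψ k, ← h5, ← map_mul, cq_mul_lx]
      intro x
      exact congrArg (fun f : chart J {l} →+* LaurentPolynomial (chart J {l}) => f x) h4
    have h5 : ψ (lx J {l} l) = LaurentPolynomial.T 1 := by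
      rw [hψ, cq_self, map_one, one_mul]
    have h6 : ∀ n : ℤ, ψ (φ (LaurentPolynomial.T n)) = LaurentPolynomial.T n := by
      have hp : ∀ n : ℕ, ψ (φ (LaurentPolynomial.T n)) = LaurentPolynomial.T n := by
        intro n
        have h7 : (LaurentPolynomial.T (n : ℤ) : LaurentPolynomial (chart J {l})) = LaurentPolynomial.T 1 ^ n := by
          rw [LaurentPolynomial.T_pow, mul_one]
        rw [h7, map_pow, map_pow, hφT, h5]
      intro n
      obtain ⟨m, rfl | rfl⟩ := n.eq_nat_or_neg
      · exact hp m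
      · apply (LaurentPolynomial.isUnit_T (R := chart J {l}) (m : ℤ)).mul_right_cancel
        have h8 : ψ (φ (LaurentPolynomial.T (-(m : ℤ)))) * LaurentPolynomial.T (m : ℤ) =
            ψ (φ (LaurentPolynomial.T (-(m : ℤ)) * LaurentPolynomial.T (m : ℤ))) := by
          rw [map_mul, map_mul, hp m]
        rw [h8, ← LaurentPolynomial.T_add, neg_add_cancel, LaurentPolynomial.T_zero, map_one, map_one]
    refine RingHom.ext fun p => ?_
    induction p using LaurentPolynomial.induction_on' with
    | add p q hp hq => rw [map_add, map_add, hp, hq]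
    | C_mul_T n a =>
      rw [RingHom.comp_apply, RingHom.id_apply, map_mul, map_mul, hφC, h3, h6]
  refine ⟨AlgEquiv.ofRingEquiv (f := RingEquiv.ofRingHom φ ψ h1 h2) fun x => ?_, ?_⟩
  · exact hφC x
  · exact hφT

private theorem GExt_C (hJ : IsHomog J) {Φ : LaurentPolynomial (chart J {l}) ≃ₐ[chart J {l}] LR J {l}}
    (x : chart J {l}) : Φ.symm (x : LR J {l}) = LaurentPolynomial.C x := by
  rw [AlgEquiv.symm_apply_eq]
  have h1 : Φ (algebraMap (chart J {l}) (LaurentPolynomial (chart J {l})) x) = (x : LR J {l}) := Φ.commutes x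
  rw [← LaurentPolynomial.C_eq_algebraMap] at h1
  exact h1.symm

theorem ext_chart (hJ : IsHomog J) (δ : Derivation κ (chart J {l}) (LR J {l})) (τ : LR J {l}) :
    ∃ D : Derivation κ (LR J {l}) (LR J {l}), (∀ x : chart J {l}, D (x : LR J {l}) = δ x) ∧ D (lx J {l} l) = τ := by
  obtain ⟨Φ, hΦ⟩ := exists_laurent (l := l) hJ
  obtain ⟨D, h1, h2⟩ := ext_laurent Φ δ τ (hΦ ▸ lx_isUnit J {l} (GExt_hl (l := l)))
  exact ⟨D, h1, (congrArg D hΦ).symm.trans h2⟩

/-- `S[1/x_l]` is flat over the chart, and the chart is a direct summand -/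
theorem chart_proj (hJ : IsHomog J) : ∃ p : LR J {l} →ₗ[chart J {l}] chart J {l}, ∀ x : chart J {l}, p (x : LR J {l}) = x := by
  obtain ⟨Φ, hΦ⟩ := exists_laurent (l := l) hJ
  let q : LaurentPolynomial (chart J {l}) →ₗ[chart J {l}] chart J {l} :=
    { toFun := fun f => f.coeff 0
      map_add' := fun f g => by simp
      map_smul' := fun r f => by simp }
  refine ⟨q.comp Φ.symm.toLinearMap, fun x => ?_⟩
  change (Φ.symm (x : LR J {l})).coeff 0 = x
  rw [GExt_C hJ, LaurentPolynomial.C_apply, if_pos rfl]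

theorem exists_ret (hJ : IsHomog J) : ∃ p : LR J {l} →ₐ[κ] chart J {l}, ∀ x : chart J {l}, p (x : LR J {l}) = x := by
  obtain ⟨Φ, hΦ⟩ := exists_laurent (l := l) hJ
  let q : LaurentPolynomial (chart J {l}) →+* chart J {l} := LaurentPolynomial.eval₂ (RingHom.id _) 1
  have hq : ∀ x : chart J {l}, q (Φ.symm (x : LR J {l})) = x := fun x => by
    rw [GExt_C hJ]
    exact LaurentPolynomial.eval₂_C _ _ _
  refine ⟨{ q.comp (Φ.symm : LR J {l} →+* LaurentPolynomial (chart J {l})) with
    commutes' := fun r => hq (algebraMap κ (chart J {l}) r) }, hq⟩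

end MPadcDC
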