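import Pool.Agent.Lib.MP_adc574_ag_DC.GNUb
import Pool.Agent.Lib.MP_adc574_ag_DC.GFra
import Pool.Agent.Lib.MP_adc574_ag_DC.GV0

/-!
# GFnu: the generic form is not a unit on `x_l ≠ 0` if `m ≥ 1`

JOB GFnu. `A0 = chart J {l}`, `y_g`, `δ_g` from `exists_y` for `m + 1`: `∑ δ_g(y_g) = m + 1 ≠ 0`, so `δ_g(y_g) ≠ 0` for some `g`. If `F` is a unit in
`S_K[1/x_l]`, then `f = F/x_l^e` is a unit there, and `chart_proj` gives an inverse of `f` in `chart (bI J) {l} = K ⊗ A0` (`bce`, `bcm_tmul`, `cmA_cq`);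
`f` is the image of `∑ a_g ⊗ y_g`; `not_unit_gen`.

-/

set_option autoImplicit false

namespace MPadcDC

open MvPolynomial TensorProduct MPadcGP

universe u v

variable {κ : Type u} [Field κ] [CharZero κ] {n : ℕ} {J : Ideal (MvPolynomial (Fin n) κ)} {e m : ℕ} {l : Fin n}
  {K : Type u} [Field K] [Algebra κ K] {a : Mon n e → K}

private theorem GFnu_mkL {A : Type u} {B : Type u} [CommRing A] [CommRing B] (φ : A →+* B)
    {I : Ideal (MvPolynomial (Fin n) A)} {I' : Ideal (MvPolynomial (Fin n) B)}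
    (h : ∀ f ∈ I, MvPolynomial.map φ f ∈ I') {C C' : Finset (Fin n)} (hC : C ⊆ C') (f : MvPolynomial (Fin n) A) :
    lmap φ h hC (algebraMap (CR I) (LR I C) (Ideal.Quotient.mk I f)) =
      algebraMap (CR I') (LR I' C') (Ideal.Quotient.mk I' (MvPolynomial.map φ f)) := by
  have h1 : ((lmap φ h hC).comp (algebraMap (CR I) (LR I C))).comp (Ideal.Quotient.mk I) =
      ((algebraMap (CR I') (LR I' C')).comp (Ideal.Quotient.mk I')).comp (MvPolynomial.map φ) := by
    refine MvPolynomial.ringHom_ext (fun a => ?_) fun l => ?_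
    · have h2 : algebraMap (CR I) (LR I C) (Ideal.Quotient.mk I (MvPolynomial.C a)) = algebraMap A (LR I C) a := by
        rw [IsScalarTower.algebraMap_apply A (CR I) (LR I C)]
        rfl
      have h3 : algebraMap (CR I') (LR I' C') (Ideal.Quotient.mk I' (MvPolynomial.C (φ a))) =
          algebraMap B (LR I' C') (φ a) := by
        rw [IsScalarTower.algebraMap_apply B (CR I') (LR I' C')]
        rfl
      rw [RingHom.comp_apply, RingHom.comp_apply, RingHom.comp_apply, RingHom.comp_apply, h2, lmap_base, map_C, h3]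
    · rw [RingHom.comp_apply, RingHom.comp_apply, RingHom.comp_apply, RingHom.comp_apply, map_X]
      exact lmap_lx φ h hC l
  exact congrArg (fun q : MvPolynomial (Fin n) A →+* LR I' C' => q f) h1

theorem F_not_unit (hJ : Good J (m + 1)) (he : 1 ≤ e) (ha : AlgebraicIndependent κ a)
    (hl : (X l : MvPolynomial (Fin n) κ) ∉ J) : ¬ IsUnit (mkL (bI (algebraMap κ K) J) {l} (frm a)) := by
  classical
  intro hu
  obtain ⟨y, δ, hy, hy0, hsp, htr⟩ := exists_y (e := e) hJ he hl
  have hdom : IsDomain (chart J {l}) := chart_domain hJ.prime hl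
  have hne : ((m + 1 : ℕ) : chart J {l}) ≠ 0 := by
    have h1 : ((m + 1 : ℕ) : chart J {l}) = algebraMap κ (chart J {l}) ((m + 1 : ℕ) : κ) := by
      rw [map_natCast]
    rw [h1]
    intro h2
    have h3 : ((m + 1 : ℕ) : κ) = 0 :=
      (algebraMap κ (chart J {l})).injective (h2.trans (map_zero _).symm)
    exact Nat.succ_ne_zero m (Nat.cast_eq_zero.1 h3)
  obtain ⟨g1, hg1⟩ : ∃ g, δ g (y g) ≠ 0 := by
    by_contra hcon
    push Not at hcon
    rw [Finset.sum_eq_zero fun g _ => hcon g] at htr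
    exact hne htr.symm
  refine not_unit_gen (δ := δ g1) hy0 ⟨g1, hg1⟩ ha ?_
  set J' : Ideal (MvPolynomial (Fin n) K) := bI (algebraMap κ K) J with hJ'
  have hH : IsHomog J' := hJ.homog.map (algebraMap κ K)
  let t : K ⊗[κ] chart J {l} := ∑ g, a g ⊗ₜ[κ] y g
  let f : chart J' {l} := bce hJ.homog (Finset.singleton_nonempty l) t
  have hfF : (f : LR J' {l}) * lx J' {l} l ^ e = mkL J' {l} (frm a) := by
    have h1 : f = ∑ g, algebraMap K (chart J' {l}) (a g) * cmA (B := K) J {l} (y g) := by
      have h2 : f = ∑ g, bce hJ.homog (Finset.singleton_nonempty l) (a g ⊗ₜ[κ] y g) := map_sum _ _ _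
      rw [h2]
      exact Finset.sum_congr rfl fun g _ => bce_tmul hJ.homog (Finset.singleton_nonempty l) (a g) (y g)
    have h3 : (f : LR J' {l}) = ∑ g, algebraMap K (LR J' {l}) (a g) *
        (cmA (B := K) J {l} (y g) : LR J' {l}) := by
      have h4 := congrArg (chart J' {l}).val h1
      rw [map_sum] at h4
      refine h4.trans (Finset.sum_congr rfl fun g _ => ?_)
      rw [map_mul]
      rfl
    have h5 : ∀ g : Mon n e, (cmA (B := K) J {l} (y g) : LR J' {l}) * lx J' {l} l ^ e =
        mkL J' {l} (monomial g.1 1) := by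
      intro g
      have h6 : (cmA (B := K) J {l} (y g) : LR J' {l}) = lK J K l (y g : LR J {l}) := rfl
      have h7 : lx J' {l} l = lK J K l (lx J {l} l) :=
        (lmap_lx (algebraMap κ K) (bI_mem (algebraMap κ K) J) (Finset.Subset.refl {l}) l).symm
      rw [h6, h7, ← map_pow, ← map_mul, hy g]
      have h8 := GFnu_mkL (algebraMap κ K) (bI_mem (algebraMap κ K) J) (Finset.Subset.refl {l})
        (monomial g.1 (1 : κ))
      rw [map_monomial, (algebraMap κ K).map_one] at h8
      exact h8
    rw [h3, Finset.sum_mul]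
    have h9 : mkL J' {l} (frm a) = ∑ g, mkL J' {l} (monomial g.1 (a g)) := by
      unfold mkL frm
      rw [map_sum, map_sum]
    rw [h9]
    refine Finset.sum_congr rfl fun g _ => ?_
    rw [mul_assoc, h5 g]
    have h10 : (monomial g.1 (a g) : MvPolynomial (Fin n) K) = C (a g) * monomial g.1 1 := by
      rw [C_mul_monomial, mul_one]
    unfold mkL
    rw [h10, map_mul, map_mul, IsScalarTower.algebraMap_apply K (CR J') (LR J' {l})]
    rfl
  have hfu : IsUnit (f : LR J' {l}) := by
    rw [← hfF] at hu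
    exact isUnit_of_mul_isUnit_left hu
  obtain ⟨w, hw⟩ := hfu.exists_right_inv
  obtain ⟨p, hp⟩ := chart_proj (l := l) hH
  have hinv : f * p w = 1 := by
    have h1 : p (f • w) = f • p w := map_smul p f w
    have h2 : f • w = ((1 : chart J' {l}) : LR J' {l}) := by
      rw [Algebra.smul_def]
      exact hw
    rw [h2, hp] at h1
    exact h1.symm
  have hfu' : IsUnit f := IsUnit.of_mul_eq_one (p w) hinv
  have h1 := hfu'.map (bce (B := K) hJ.homog (Finset.singleton_nonempty l)).symm
  have h2 : (bce (B := K) hJ.homog (Finset.singleton_nonempty l)).symm f = t :=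
    AlgEquiv.symm_apply_apply _ t
  rw [h2] at h1
  exact h1

end MPadcDC
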