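import Pool.Agent.Lib.MP_adc574_ag_DC.GDefs

/-!
# GGr: the grading of the forms on the cone

JOB GGr. `κ` has characteristic `0`: the Lie derivative of the Euler field acts on `Om J q j` as `j`.
* `exists_eul`: the derivation `∑ x_l ∂_l` of `κ[x]` (`mkDerivation κ X`) acts on a homogeneous polynomial of degree `d` as `d`; it maps `J` to `J`
  (homogeneous components) and descends to the quotient.
* `eul_xm`: product rule, or `monomial g 1 = ∏ X i ^ g i`.
* `LL_Om`: on generators: `LL_mul`, `LL_fz`, `LL_df`; `wd κ t` is the product of the `df (t i)`.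
* `df_xm`: `d(x^g)` is a combination of the `x^(g - ε_l) dx_l`.
-/

set_option autoImplicit false

namespace MPadcDC

open MvPolynomial TensorProduct MPadcGP

universe u v

variable {κ : Type u} [Field κ] [CharZero κ] {n : ℕ} {J : Ideal (MvPolynomial (Fin n) κ)}

omit [CharZero κ] in
theorem mon_degree {e : ℕ} (g : Mon n e) : g.1.degree = e := by
  have h := (Finset.mem_finsuppAntidiag.1 g.2).1
  rw [Finsupp.degree_eq_sum]
  exact h

omit [CharZero κ] in
theorem xm_add (g h : Fin n →₀ ℕ) : xm J (g + h) = xm J g * xm J h := by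
  unfold xm
  rw [← map_mul, monomial_mul, one_mul]

omit [CharZero κ] in
theorem xm_single (l : Fin n) (k : ℕ) : xm J (Finsupp.single l k) = xv J l ^ k := by
  unfold xm xv
  rw [← map_pow, X_pow_eq_monomial]

omit [CharZero κ] in
theorem xm_zero : xm J (0 : Fin n →₀ ℕ) = 1 := by
  unfold xm
  exact map_one (Ideal.Quotient.mk J)

omit [CharZero κ] in
/-- every element of the ring is a combination of the monomials -/
theorem span_xm : Submodule.span κ (Set.range (xm J)) = ⊤ := by
  rw [eq_top_iff]
  rintro x -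
  obtain ⟨p, rfl⟩ := Ideal.Quotient.mk_surjective x
  induction p using MvPolynomial.induction_on' with
  | monomial g a =>
    have h1 : (monomial g a : MvPolynomial (Fin n) κ) = a • monomial g 1 := by
      rw [smul_monomial, smul_eq_mul, mul_one]
    have h2 : Ideal.Quotient.mk J (monomial g a) = a • xm J g := by
      rw [h1]
      rfl
    rw [h2]
    exact Submodule.smul_mem _ _ (Submodule.subset_span ⟨g, rfl⟩)
  | add p q hp hq =>
    rw [map_add]
    exact Submodule.add_mem _ hp hq

/-- The Euler derivation of the polynomial ring. -/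
noncomputable def eulP (κ : Type u) [Field κ] (n : ℕ) :
    Derivation κ (MvPolynomial (Fin n) κ) (MvPolynomial (Fin n) κ) := mkDerivation κ X

omit [CharZero κ] in
theorem eulP_monomial (g : Fin n →₀ ℕ) (a : κ) :
    eulP κ n (monomial g a) = (g.degree : κ) • monomial g a := by
  unfold eulP
  rw [mkDerivation_monomial, Finsupp.sum, Finsupp.degree_apply, Nat.cast_sum, Finset.sum_smul, Finset.smul_sum]
  refine Finset.sum_congr rfl fun i hi => ?_
  have hi' : g i ≠ 0 := Finsupp.mem_support_iff.1 hi
  rw [smul_eq_mul, X, monomial_mul, mul_one]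
  have h1 : g - Finsupp.single i 1 + Finsupp.single i 1 = g := by
    refine tsub_add_cancel_of_le ?_
    rw [Finsupp.single_le_iff]
    omega
  rw [h1, smul_monomial, smul_monomial, smul_eq_mul, smul_eq_mul, mul_comm]

omit [CharZero κ] in
theorem eulP_homog {d : ℕ} {f : MvPolynomial (Fin n) κ} (hf : f.IsHomogeneous d) :
    eulP κ n f = (d : κ) • f := by
  rw [f.as_sum, map_sum, Finset.smul_sum]
  refine Finset.sum_congr rfl fun g hg => ?_
  rw [eulP_monomial]
  have h1 : g.degree = d := by
    rw [Finsupp.degree_eq_weight_one]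
    exact hf (mem_support_iff.1 hg)
  rw [h1]

omit [CharZero κ] in
theorem eulP_mem (hJ : IsHomog J) {f : MvPolynomial (Fin n) κ} (hf : f ∈ J) : eulP κ n f ∈ J := by
  rw [← sum_homogeneousComponent f, map_sum]
  refine Ideal.sum_mem _ fun d _ => ?_
  rw [eulP_homog (homogeneousComponent_isHomogeneous d f)]
  exact Submodule.smul_of_tower_mem J (d : κ) (hJ f hf d)

theorem exists_eul (hJ : IsHomog J) : ∃ E : Derivation κ (CR J) (CR J), ∀ l, E (xv J l) = xv J l := by
  let L : MvPolynomial (Fin n) κ →ₗ[κ] CR J := (Ideal.Quotient.mkₐ κ J).toLinearMap ∘ₗ (eulP κ n).toLinearMap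
  have hL : ∀ f, L f = Ideal.Quotient.mk J (eulP κ n f) := fun f => rfl
  have hJL : J.restrictScalars κ ≤ LinearMap.ker L := by
    intro f hf
    rw [LinearMap.mem_ker, hL]
    exact Ideal.Quotient.eq_zero_iff_mem.2 (eulP_mem hJ hf)
  let E0 : CR J →ₗ[κ] CR J := (J.restrictScalars κ).liftQ L hJL
  have hE0 : ∀ f, E0 (Ideal.Quotient.mk J f) = Ideal.Quotient.mk J (eulP κ n f) := fun f => rfl
  refine ⟨Derivation.mk' E0 ?_, fun l => ?_⟩
  · intro x y
    obtain ⟨p, rfl⟩ := Ideal.Quotient.mk_surjective x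
    obtain ⟨q, rfl⟩ := Ideal.Quotient.mk_surjective y
    rw [← map_mul, hE0, hE0, hE0, Derivation.leibniz, smul_eq_mul, smul_eq_mul, smul_eq_mul, smul_eq_mul, map_add,
      map_mul, map_mul]
  · change E0 (Ideal.Quotient.mk J (X l)) = Ideal.Quotient.mk J (X l)
    rw [hE0]
    congr 1
    exact mkDerivation_X _ _ _

/-- The Euler derivation. -/
noncomputable def eul (hJ : IsHomog J) : Derivation κ (CR J) (CR J) := (exists_eul hJ).choose

theorem eul_xv (hJ : IsHomog J) (l : Fin n) : eul hJ (xv J l) = xv J l := (exists_eul hJ).choose_spec l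

theorem eul_xm (hJ : IsHomog J) (g : Fin n →₀ ℕ) : eul hJ (xm J g) = (g.degree : κ) • xm J g := by
  induction g using Finsupp.induction_linear with
  | zero =>
    rw [xm_zero, Derivation.map_one_eq_zero, map_zero, Nat.cast_zero, zero_smul]
  | add g h hg hh =>
    rw [xm_add, Derivation.leibniz, hg, hh, map_add, Nat.cast_add, add_smul, smul_eq_mul, smul_eq_mul,
      mul_smul_comm, mul_smul_comm, mul_comm (xm J h), add_comm]
  | single l k =>
    rw [xm_single, Derivation.leibniz_pow, eul_xv, Finsupp.degree_single, smul_eq_mul]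
    rcases k with _ | k
    · simp
    · rw [Nat.add_sub_cancel, ← pow_succ, Nat.cast_smul_eq_nsmul]

omit [CharZero κ] in
theorem df_xm (g : Fin n →₀ ℕ) :
    df κ (xm J g) = ∑ l, (g l : κ) • (fz κ (xm J (g - Finsupp.single l 1)) * df κ (xv J l)) := by
  induction g using Finsupp.induction_linear with
  | zero =>
    rw [xm_zero, df_one]
    symm
    refine Finset.sum_eq_zero fun l _ => ?_
    rw [Finsupp.coe_zero, Pi.zero_apply, Nat.cast_zero, zero_smul]
  | add g h hg hh =>
    rw [xm_add, df_mul, hg, hh, Finset.mul_sum, Finset.mul_sum, ← Finset.sum_add_distrib]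
    refine Finset.sum_congr rfl fun l _ => ?_
    have key : ∀ g h : Fin n →₀ ℕ, fz κ (xm J g) * ((h l : κ) • (fz κ (xm J (h - Finsupp.single l 1)) * df κ (xv J l))) =
        (h l : κ) • (fz κ (xm J (g + h - Finsupp.single l 1)) * df κ (xv J l)) := by
      intro g h
      rcases Nat.eq_zero_or_pos (h l) with h0 | h0
      · rw [h0, Nat.cast_zero, zero_smul, zero_smul, mul_zero]
      · have h1 : g + h - Finsupp.single l 1 = g + (h - Finsupp.single l 1) := by
          refine add_tsub_assoc_of_le ?_ _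
          rw [Finsupp.single_le_iff]
          omega
        rw [h1, xm_add, map_mul, mul_assoc, mul_smul_comm]
    rw [key, key, add_comm h g, ← add_smul, Finsupp.add_apply, Nat.cast_add, add_comm (h l : κ)]
  | single l k =>
    rw [Finset.sum_eq_single l]
    · rw [Finsupp.single_eq_same, xm_single]
      induction k with
      | zero => rw [pow_zero, df_one, Nat.cast_zero, zero_smul]
      | succ k ih =>
        have h1 : ∀ k : ℕ, (Finsupp.single l (k + 1) - Finsupp.single l 1 : Fin n →₀ ℕ) = Finsupp.single l k := by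
          intro k
          rw [← Finsupp.single_tsub, Nat.add_sub_cancel]
        rw [pow_succ, df_mul, ih, h1, xm_single, mul_smul_comm]
        rcases k with _ | k
        · simp
        · rw [h1, xm_single, ← mul_assoc, ← map_mul, ← pow_succ']
          rw [Nat.cast_succ (k + 1), add_smul, one_smul, add_comm]
    · intro b _ hb
      rw [Finsupp.single_eq_of_ne hb, Nat.cast_zero, zero_smul]
    · intro h
      exact absurd (Finset.mem_univ l) h

omit [CharZero κ] in
theorem Om_ind {q j : ℕ} {P : Fm κ (CR J) → Prop} (h0 : P 0) (h1 : ∀ (g : Fin n →₀ ℕ) (t : Fin q → Fin n),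
    g.degree + q = j → P (fz κ (xm J g) * wd κ (fun i => xv J (t i)))) (h2 : ∀ a b, P a → P b → P (a + b))
    (h3 : ∀ (a : κ) w, P w → P (a • w)) {w : Fm κ (CR J)} (hw : w ∈ Om J q j) : P w := by
  unfold Om at hw
  induction hw using Submodule.span_induction with
  | mem w h =>
    obtain ⟨g, t, h, rfl⟩ := h
    exact h1 g t h
  | zero => exact h0
  | add x y _ _ hx hy => exact h2 x y hx hy
  | smul a x _ hx => exact h3 a x hx

theorem LL_Om (hJ : IsHomog J) {q j : ℕ} {w : Fm κ (CR J)} (hw : w ∈ Om J q j) :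
    LL κ ((eul hJ).restrictScalars ℤ) w = (j : κ) • w := by
  have hD : ∀ a : κ, ∃ a', ((eul hJ).restrictScalars ℤ) (algebraMap κ (CR J) a) = algebraMap κ (CR J) a' :=
    fun a => ⟨0, by
      rw [map_zero]
      exact (eul hJ).map_algebraMap a⟩
  have hfz : ∀ g : Fin n →₀ ℕ, LL κ ((eul hJ).restrictScalars ℤ) (fz κ (xm J g)) = (g.degree : κ) • fz κ (xm J g) := by
    intro g
    rw [LL_fz κ hD]
    change fz κ (eul hJ (xm J g)) = _
    rw [eul_xm, smul_fm, ← map_mul, ← Algebra.smul_def]
  have hdf : ∀ l, LL κ ((eul hJ).restrictScalars ℤ) (df κ (xv J l)) = df κ (xv J l) := by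
    intro l
    rw [LL_df κ hD]
    change df κ (eul hJ (xv J l)) = _
    rw [eul_xv]
  have hwd : ∀ (q : ℕ) (t : Fin q → Fin n), LL κ ((eul hJ).restrictScalars ℤ) (wd κ (fun i => xv J (t i))) =
      (q : κ) • wd κ (fun i => xv J (t i)) := by
    intro q
    induction q with
    | zero =>
      intro t
      rw [wd_zero, Nat.cast_zero, zero_smul, ← map_one (fz κ), LL_fz κ hD]
      change fz κ (eul hJ 1) = 0
      rw [Derivation.map_one_eq_zero, map_zero]
    | succ q ih =>
      intro t
      have h1 : wd κ (Fin.tail fun i => xv J (t i)) = wd κ (fun i => xv J (Fin.tail t i)) := rfl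
      rw [wd_succ, h1, LL_mul κ hD, hdf, ih, Nat.cast_succ, mul_smul_comm, add_smul, one_smul, add_comm]
  refine Om_ind (P := fun w => LL κ ((eul hJ).restrictScalars ℤ) w = (j : κ) • w) ?_ ?_ ?_ ?_ hw
  · rw [map_zero, smul_zero]
  · intro g t h
    rw [LL_mul κ hD, hfz, hwd, smul_mul_assoc, mul_smul_comm, ← add_smul, ← Nat.cast_add, h]
  · intro a b ha hb
    rw [map_add, ha, hb, smul_add]
  · intro a w h
    have h1 : a • w = fz κ (algebraMap κ (CR J) a) * w := smul_fm _ _ _ _
    have h2 : LL κ ((eul hJ).restrictScalars ℤ) (fz κ (algebraMap κ (CR J) a)) = 0 := by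
      rw [LL_fz κ hD]
      change fz κ (eul hJ (algebraMap κ (CR J) a)) = 0
      rw [Derivation.map_algebraMap, map_zero]
    rw [h1, LL_mul κ hD, h2, zero_mul, zero_add, h, mul_smul_comm]

theorem Om_le {q j : ℕ} {w : Fm κ (CR J)} (hw : w ∈ Om J q j) : w ∈ Fd κ (CR J) q := by
  refine Om_ind (P := fun w => w ∈ Fd κ (CR J) q) (Submodule.zero_mem _) ?_ ?_ ?_ hw
  · intro g t _
    exact fz_mul_mem _ (wd_mem _)
  · intro a b ha hb
    exact Submodule.add_mem _ ha hb
  · intro a w h
    rw [smul_fm]
    exact fz_mul_mem _ h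

theorem Om_fg (q j : ℕ) : (Om J q j).FG := by
  unfold Om
  refine Submodule.fg_span ?_
  have h1 : {g : Fin n →₀ ℕ | g.degree + q = j}.Finite := by
    refine Set.Finite.subset ((Finset.univ : Finset (Fin n)).finsuppAntidiag (j - q)).finite_toSet ?_
    intro g hg
    have hg : g.degree + q = j := hg
    rw [Finset.mem_coe, Finset.mem_finsuppAntidiag]
    refine ⟨?_, Finset.subset_univ _⟩
    rw [Finsupp.degree_eq_sum] at hg
    exact Nat.eq_sub_of_add_eq hg
  refine ((h1.prod (Set.finite_univ : (Set.univ : Set (Fin q → Fin n)).Finite)).image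
    fun p => fz κ (xm J p.1) * wd κ (fun i => xv J (p.2 i))).subset ?_
  rintro w ⟨g, t, h, rfl⟩
  exact ⟨(g, t), ⟨h, Set.mem_univ _⟩, rfl⟩

omit [CharZero κ] in
theorem Om_fz_mul {q j : ℕ} (g : Fin n →₀ ℕ) {w : Fm κ (CR J)} (hw : w ∈ Om J q j) :
    fz κ (xm J g) * w ∈ Om J q (g.degree + j) := by
  refine Om_ind (P := fun w => fz κ (xm J g) * w ∈ Om J q (g.degree + j)) ?_ ?_ ?_ ?_ hw
  · rw [mul_zero]
    exact Submodule.zero_mem _
  · intro h t hj
    rw [← mul_assoc, ← map_mul, ← xm_add]
    exact Submodule.subset_span ⟨g + h, t, by rw [map_add, add_assoc, hj], rfl⟩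
  · intro a b ha hb
    rw [mul_add]
    exact Submodule.add_mem _ ha hb
  · intro a w h
    rw [mul_smul_comm]
    exact Submodule.smul_mem _ _ h

omit [CharZero κ] in
theorem Om_df_mul {q j : ℕ} (l : Fin n) {w : Fm κ (CR J)} (hw : w ∈ Om J q j) :
    df κ (xv J l) * w ∈ Om J (q + 1) (j + 1) := by
  refine Om_ind (P := fun w => df κ (xv J l) * w ∈ Om J (q + 1) (j + 1)) ?_ ?_ ?_ ?_ hw
  · rw [mul_zero]
    exact Submodule.zero_mem _
  · intro h t hj
    rw [← mul_assoc, ← fz_comm, mul_assoc, ← wd_cons]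
    have h1 : (Fin.cons (xv J l) (fun i => xv J (t i)) : Fin (q + 1) → CR J) =
        fun i => xv J ((Fin.cons l t : Fin (q + 1) → Fin n) i) := by
      funext i
      induction i using Fin.cases with
      | zero => rfl
      | succ i => rfl
    rw [h1]
    exact Submodule.subset_span ⟨h, Fin.cons l t, by omega, rfl⟩
  · intro a b ha hb
    rw [mul_add]
    exact Submodule.add_mem _ ha hb
  · intro a w h
    rw [mul_smul_comm]
    exact Submodule.smul_mem _ _ h

omit [CharZero κ] in
theorem Om_wd_mul {q' j' : ℕ} {w : Fm κ (CR J)} (hw : w ∈ Om J q' j') (q : ℕ) (t : Fin q → Fin n) :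
    wd κ (fun i => xv J (t i)) * w ∈ Om J (q + q') (q + j') := by
  induction q with
  | zero =>
    rw [wd_zero, one_mul, zero_add, zero_add]
    exact hw
  | succ q ih =>
    have h1 : wd κ (Fin.tail fun i => xv J (t i)) = wd κ (fun i => xv J (Fin.tail t i)) := rfl
    rw [wd_succ, h1, mul_assoc]
    have h2 := Om_df_mul (t 0) (ih (Fin.tail t))
    have h3 : q + q' + 1 = q + 1 + q' := by omega
    have h4 : q + j' + 1 = q + 1 + j' := by omega
    rwa [h3, h4] at h2

/-- Products. -/
theorem Om_mul {q q' j j' : ℕ} {w w' : Fm κ (CR J)} (hw : w ∈ Om J q j) (hw' : w' ∈ Om J q' j') :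
    w * w' ∈ Om J (q + q') (j + j') := by
  refine Om_ind (P := fun w => w * w' ∈ Om J (q + q') (j + j')) ?_ ?_ ?_ ?_ hw
  · rw [zero_mul]
    exact Submodule.zero_mem _
  · intro g t hj
    rw [mul_assoc]
    have h1 := Om_fz_mul g (Om_wd_mul hw' q t)
    rwa [← add_assoc, hj] at h1
  · intro a b ha hb
    rw [add_mul]
    exact Submodule.add_mem _ ha hb
  · intro a w h
    rw [smul_mul_assoc]
    exact Submodule.smul_mem _ _ h

theorem fz_xm_mem (g : Fin n →₀ ℕ) : fz κ (xm J g) ∈ Om J 0 g.degree :=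
  Submodule.subset_span ⟨g, Fin.elim0, add_zero _, by rw [wd_zero, mul_one]⟩

theorem df_xm_mem (g : Fin n →₀ ℕ) : df κ (xm J g) ∈ Om J 1 g.degree := by
  rw [df_xm]
  refine Submodule.sum_mem _ fun l _ => ?_
  rcases Nat.eq_zero_or_pos (g l) with h0 | h0
  · rw [h0, Nat.cast_zero, zero_smul]
    exact Submodule.zero_mem _
  · refine Submodule.smul_mem _ _ (Submodule.subset_span ⟨g - Finsupp.single l 1, fun _ => l, ?_, ?_⟩)
    · have h1 : g - Finsupp.single l 1 + Finsupp.single l 1 = g := by
        refine tsub_add_cancel_of_le ?_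
        rw [Finsupp.single_le_iff]
        omega
      have h2 := congrArg Finsupp.degree h1
      rwa [map_add, Finsupp.degree_single] at h2
    · rw [wd_succ, wd_zero, mul_one]

end MPadcDC
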