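import Pool.Agent.Lib.MP_adc574_ag_DC.GDefs
import Pool.Agent.Lib.MP_adc574_ag_GP.BC

/-!
# GGrR: forms with coefficients in `κ[a]`

JOB GGrR. `FdG_ind`: `Submodule.baseChange` is spanned by the `1 ⊗ w` (`Submodule.baseChange_eq_span`), `fd_ind` of GP for the forms `w`.
The rest by `FdG_ind` or `TensorProduct.induction_on`.
-/

set_option autoImplicit false

namespace MPadcDC

open MvPolynomial TensorProduct MPadcGP

universe u v

variable {κ : Type u} [Field κ] {Γ : Type} [Fintype Γ] {C : Type u} [CommRing C] [Algebra κ C]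

section FGd

theorem FdG_ind {q : ℕ} {P : FG κ Γ C → Prop} (h0 : P 0)
    (h1 : ∀ (r : MvPolynomial Γ κ) (c : C) (t : Fin q → C), P (r ⊗ₜ[κ] (fz κ c * wd κ t)))
    (h2 : ∀ x y, P x → P y → P (x + y)) {w : FG κ Γ C} (hw : w ∈ FdG κ Γ q) : P w := by
  unfold FdG Submodule.baseChange at hw
  obtain ⟨z, rfl⟩ := hw
  induction z using TensorProduct.induction_on with
  | zero =>
    rw [map_zero]
    exact h0
  | add x y hx hy =>
    rw [map_add]
    exact h2 _ _ hx hy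
  | tmul r x =>
    obtain ⟨x, hx⟩ := x
    change P (r ⊗ₜ[κ] x)
    refine fd_ind (P := fun x => P (r ⊗ₜ[κ] x)) ?_ (h1 r) ?_ hx
    · rw [TensorProduct.tmul_zero]
      exact h0
    · intro a b ha hb
      rw [TensorProduct.tmul_add]
      exact h2 _ _ ha hb

theorem tmul_FdG {q : ℕ} (r : MvPolynomial Γ κ) {w : Fm κ C} (hw : w ∈ Fd κ C q) : r ⊗ₜ[κ] w ∈ FdG κ Γ q :=
  Submodule.tmul_mem_baseChange_of_mem r hw

theorem FdG_mul {q q' : ℕ} {w w' : FG κ Γ C} (hw : w ∈ FdG κ Γ q) (hw' : w' ∈ FdG κ Γ q') :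
    w * w' ∈ FdG κ Γ (q + q') := by
  refine FdG_ind (P := fun w => w * w' ∈ FdG κ Γ (q + q')) ?_ ?_ ?_ hw
  · rw [zero_mul]
    exact Submodule.zero_mem _
  · intro r c t
    refine FdG_ind (P := fun w' => (r ⊗ₜ[κ] (fz κ c * wd κ t)) * w' ∈ FdG κ Γ (q + q')) ?_ ?_ ?_ hw'
    · rw [mul_zero]
      exact Submodule.zero_mem _
    · intro r' c' t'
      rw [Algebra.TensorProduct.tmul_mul_tmul]
      exact tmul_FdG _ (fd_mul (fz_mul_mem _ (wd_mem _)) (fz_mul_mem _ (wd_mem _)))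
    · intro x y hx hy
      rw [mul_add]
      exact Submodule.add_mem _ hx hy
  · intro x y hx hy
    rw [add_mul]
    exact Submodule.add_mem _ hx hy

theorem thG_mem (b : Γ → C) : thG κ b ∈ FdG κ Γ 1 :=
  Submodule.sum_mem _ fun g _ => tmul_FdG _ (df_mem (b g))

theorem thG_mul_mem (b : Γ → C) {q : ℕ} {w : FG κ Γ C} (hw : w ∈ FdG κ Γ q) : thG κ b * w ∈ FdG κ Γ (q + 1) := by
  have h := FdG_mul (thG_mem b) hw
  rwa [add_comm] at h

omit [Fintype Γ] in
private theorem GGrR_swap (r r' : MvPolynomial Γ κ) (s s' : C) :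
    (r ⊗ₜ[κ] df κ s : FG κ Γ C) * (r' ⊗ₜ[κ] df κ s') + (r' ⊗ₜ[κ] df κ s') * (r ⊗ₜ[κ] df κ s) = 0 := by
  rw [Algebra.TensorProduct.tmul_mul_tmul, Algebra.TensorProduct.tmul_mul_tmul, mul_comm r' r,
    ← TensorProduct.tmul_add, df_swap, neg_add_cancel, TensorProduct.tmul_zero]

private theorem GGrR_sq (b : Γ → C) (s : Finset Γ) :
    (∑ g ∈ s, (X g : MvPolynomial Γ κ) ⊗ₜ[κ] df κ (b g) : FG κ Γ C) *
      ∑ g ∈ s, (X g : MvPolynomial Γ κ) ⊗ₜ[κ] df κ (b g) = 0 := by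
  classical
  induction s using Finset.induction_on with
  | empty => rw [Finset.sum_empty, zero_mul]
  | insert g s hg ih =>
    rw [Finset.sum_insert hg, add_mul, mul_add, mul_add, ih, add_zero, add_assoc]
    have h1 : (X g : MvPolynomial Γ κ) ⊗ₜ[κ] df κ (b g) * (X g : MvPolynomial Γ κ) ⊗ₜ[κ] df κ (b g) = 0 := by
      rw [Algebra.TensorProduct.tmul_mul_tmul, df_sq, TensorProduct.tmul_zero]
    rw [h1, zero_add, Finset.mul_sum, Finset.sum_mul, ← Finset.sum_add_distrib]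
    exact Finset.sum_eq_zero fun g' _ => GGrR_swap _ _ _ _

theorem thG_sq (b : Γ → C) : thG κ b * thG κ b = 0 := GGrR_sq b Finset.univ

theorem tz_FdG (t : MvPolynomial Γ κ ⊗[κ] C) : (tz t : FG κ Γ C) ∈ FdG κ Γ 0 := by
  induction t using TensorProduct.induction_on with
  | zero =>
    rw [map_zero]
    exact Submodule.zero_mem _
  | add x y hx hy =>
    rw [map_add]
    exact Submodule.add_mem _ hx hy
  | tmul r c =>
    rw [tz_tmul]
    exact tmul_FdG _ (fz_mem c)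

theorem tz_mul_FdG {q : ℕ} (t : MvPolynomial Γ κ ⊗[κ] C) {w : FG κ Γ C} (hw : w ∈ FdG κ Γ q) :
    (tz t : FG κ Γ C) * w ∈ FdG κ Γ q := by
  have h := FdG_mul (tz_FdG t) hw
  rwa [zero_add] at h

variable {C' : Type u} [CommRing C'] [Algebra κ C'] (φ : C →ₐ[κ] C')

theorem loG_tmul (r : MvPolynomial Γ κ) (w : Fm κ C) :
    loG Γ φ (r ⊗ₜ[κ] w) = r ⊗ₜ[κ] mp (φ : C →+* C') (CC.of_algHom φ) w := rfl

theorem loG_mem {q : ℕ} {w : FG κ Γ C} (hw : w ∈ FdG κ Γ q) : loG Γ φ w ∈ FdG κ Γ q := by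
  refine FdG_ind (P := fun w => loG Γ φ w ∈ FdG κ Γ q) ?_ ?_ ?_ hw
  · rw [map_zero]
    exact Submodule.zero_mem _
  · intro r c t
    rw [loG_tmul]
    exact tmul_FdG _ (mp_mem _ (fz_mul_mem _ (wd_mem _)))
  · intro x y hx hy
    rw [map_add]
    exact Submodule.add_mem _ hx hy

theorem loG_thG (b : Γ → C) : loG Γ φ (thG κ b) = thG κ (fun g => φ (b g)) := by
  unfold thG
  rw [map_sum]
  refine Finset.sum_congr rfl fun g _ => ?_
  rw [loG_tmul, mp_df]
  rfl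

theorem loG_tz (t : MvPolynomial Γ κ ⊗[κ] C) :
    loG Γ φ (tz t) = tz (Algebra.TensorProduct.map (AlgHom.id κ (MvPolynomial Γ κ)) φ t) := by
  induction t using TensorProduct.induction_on with
  | zero => rw [map_zero, map_zero, map_zero, map_zero]
  | add x y hx hy => rw [map_add, map_add, hx, hy, map_add, map_add]
  | tmul r c =>
    rw [tz_tmul, loG_tmul, mp_fz, Algebra.TensorProduct.map_tmul, tz_tmul]
    rfl

end FGd

end MPadcDC
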