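import Pool.Agent.Lib.MP_adc574_ag_DC.GGrS

/-!
# GHigh: graded submodules which agree after inverting every coordinate agree in high degrees

`FG κ Γ S` is a module over `R ⊗ S` (via `tz`), the forms of degree `q` are finitely generated, `R ⊗ S` is
noetherian. So `Z` is generated by finitely many homogeneous elements `w_i ∈ Z` of degree `d_i` (take the components
`prR` of generators); choose `N` with `x_l ^ N w_i ∈ I` for all `i`, `l`. A homogeneous `w ∈ Z` of degree `j` is
`∑ s_i w_i` with `s_i ∈ R ⊗ S`, and one may take the component of degree `j - d_i` of `s_i`; for `j - d_i > n N` every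
monomial of `s_i` is divisible by some `x_l ^ N`.
-/

set_option autoImplicit false

namespace MPadcDC

open MvPolynomial TensorProduct MPadcGP

universe u v

variable {κ : Type u} [Field κ] [CharZero κ] {n : ℕ} {J : Ideal (MvPolynomial (Fin n) κ)} {e : ℕ}

variable (J e) in
/-- Graded submodules of the module of forms of degree `q` over `R`. -/
structure Sta (q : ℕ) (Z : AddSubgroup (FR J e)) : Prop where
  le : ∀ w ∈ Z, w ∈ FdG κ (Mon n e) (C := CR J) q
  mul : ∀ (t : Ra κ n e ⊗[κ] CR J), ∀ w ∈ Z, (tz t : FR J e) * w ∈ Z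
  pr : ∀ j, ∀ w ∈ Z, prR J e j w ∈ Z

omit [CharZero κ] in
private theorem high_noeth : IsNoetherianRing (Ra κ n e ⊗[κ] CR J) := by
  have h1 : Algebra.FiniteType κ (CR J) :=
    Algebra.FiniteType.of_surjective (Ideal.Quotient.mkₐ κ J) (Ideal.Quotient.mkₐ_surjective κ J)
  have h2 : Algebra.FiniteType (Ra κ n e) (Ra κ n e ⊗[κ] CR J) := inferInstance
  exact Algebra.FiniteType.isNoetherianRing (Ra κ n e) (Ra κ n e ⊗[κ] CR J)

private theorem high_pi {A : Type u} [CommRing A] (hA : IsNoetherianRing A) {ι : Type} [Finite ι] {P : (ι → A) → Prop}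
    (h0 : P 0) (ha : ∀ x y, P x → P y → P (x + y)) (hs : ∀ (a : A) (x : ι → A), P x → P fun t => a * x t) :
    ∃ S : Finset (ι → A), (∀ c ∈ S, P c) ∧ ∀ Q : (ι → A) → Prop, Q 0 → (∀ x y, Q x → Q y → Q (x + y)) →
      (∀ (a : A) (x : ι → A), Q x → Q fun t => a * x t) → (∀ c ∈ S, Q c) → ∀ c, P c → Q c := by
  let Z : Submodule A (ι → A) :=
    { carrier := {c | P c}
      zero_mem' := h0
      add_mem' := fun {x y} hx hy => ha x y hx hy
      smul_mem' := fun a x hx => hs a x hx }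
  obtain ⟨S, hS⟩ : Z.FG := IsNoetherian.noetherian Z
  refine ⟨S, fun c hc => ?_, fun Q q0 qa qs qS c hc => ?_⟩
  · have h1 : c ∈ Z := by
      rw [← hS]
      exact Submodule.subset_span hc
    exact h1
  · have h1 : c ∈ Submodule.span A (S : Set (ι → A)) := by
      rw [hS]
      exact hc
    induction h1 using Submodule.span_induction with
    | zero => exact q0
    | add x y hx hy h1 h2 =>
      refine qa x y (h1 ?_) (h2 ?_)
      · rw [hS] at hx
        exact hx
      · rw [hS] at hy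
        exact hy
    | smul a x hx h1 =>
      refine qs a x (h1 ?_)
      rw [hS] at hx
      exact hx
    | mem x hx => exact qS x hx

omit [CharZero κ] in
private theorem high_xm_split {N : ℕ} {g : Fin n →₀ ℕ} (h : n * N + 1 ≤ g.degree) :
    ∃ (l : Fin n) (g' : Fin n →₀ ℕ), xm J g = xm J g' * xv J l ^ N := by
  have h1 : ∃ l, N ≤ g l := by
    by_contra h2
    push Not at h2
    have h3 : g.degree ≤ n * N := by
      rw [Finsupp.degree_eq_sum]
      calc ∑ i, g i ≤ ∑ _i : Fin n, N := Finset.sum_le_sum fun i _ => (h2 i).le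
        _ = n * N := by rw [Finset.sum_const, Finset.card_univ, Fintype.card_fin, smul_eq_mul]
    omega
  obtain ⟨l, hl⟩ := h1
  refine ⟨l, g - Finsupp.single l N, ?_⟩
  rw [← xm_single, ← xm_add, tsub_add_cancel_of_le]
  rw [Finsupp.single_le_iff]
  exact hl

omit [CharZero κ] in
private theorem high_tz_one (s : CR J) :
    (tz ((1 : Ra κ n e) ⊗ₜ[κ] s) : FR J e) = (1 : Ra κ n e) ⊗ₜ[κ] fz κ s := tz_tmul _ _

omit [CharZero κ] in
private theorem high_z1 {Γ : Type} [Fintype Γ] {C : Type u} [CommRing C] [Algebra κ C] (P : FG κ Γ C →+ FG κ Γ C)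
    (I : AddSubgroup (FG κ Γ C)) (w : FG κ Γ C) : P ((tz (0 : MvPolynomial Γ κ ⊗[κ] C) : FG κ Γ C) * w) ∈ I := by
  rw [map_zero, zero_mul, map_zero]
  exact I.zero_mem

omit [CharZero κ] in
private theorem high_z2 {Γ : Type} [Fintype Γ] {C : Type u} [CommRing C] [Algebra κ C] (P : FG κ Γ C →+ FG κ Γ C)
    (I : AddSubgroup (FG κ Γ C)) (w : FG κ Γ C) {x y : MvPolynomial Γ κ ⊗[κ] C} (hx : P ((tz x : FG κ Γ C) * w) ∈ I)
    (hy : P ((tz y : FG κ Γ C) * w) ∈ I) : P ((tz (x + y) : FG κ Γ C) * w) ∈ I := by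
  rw [map_add, add_mul, map_add]
  exact I.add_mem hx hy

omit [CharZero κ] in
private theorem high_z3 {Γ : Type} [Fintype Γ] {C : Type u} [CommRing C] [Algebra κ C] (r : MvPolynomial Γ κ) (c : C)
    (w : FG κ Γ C) : (tz (r ⊗ₜ[κ] c) : FG κ Γ C) * w = r • ((1 : MvPolynomial Γ κ) ⊗ₜ[κ] fz κ c * w) := by
  rw [← smul_mul_assoc, TensorProduct.smul_tmul', smul_eq_mul, mul_one, tz_tmul]

omit [CharZero κ] in
private theorem high_z4 {Γ : Type} [Fintype Γ] {C : Type u} [CommRing C] [Algebra κ C] (r : MvPolynomial Γ κ) (c d : C)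
    (w : FG κ Γ C) : (tz (r ⊗ₜ[κ] (c * d)) : FG κ Γ C) * w =
      (tz (r ⊗ₜ[κ] c) : FG κ Γ C) * (((1 : MvPolynomial Γ κ) ⊗ₜ[κ] fz κ d : FG κ Γ C) * w) := by
  rw [← mul_assoc, tz_tmul, tz_tmul, Algebra.TensorProduct.tmul_mul_tmul, mul_one, map_mul]

/-- one homogeneous generator -/
private theorem high_one (hJ : IsHomog J) {q : ℕ} {I : AddSubgroup (FR J e)} (hI : Sta J e q I) {N d : ℕ}
    {w : FR J e} (hw : w ∈ OmR J e q d)
    (h : ∀ l, ((1 : Ra κ n e) ⊗ₜ[κ] fz κ (xv J l ^ N) : FR J e) * w ∈ I) {j : ℕ} (hj : d + n * N + 1 ≤ j)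
    (t : Ra κ n e ⊗[κ] CR J) : prR J e j ((tz t : FR J e) * w) ∈ I := by
  induction t using TensorProduct.induction_on with
  | zero => exact high_z1 (prR J e j).toAddMonoidHom I w
  | add x y hx hy => exact high_z2 (prR J e j).toAddMonoidHom I w hx hy
  | tmul r c =>
    have hc : c ∈ Submodule.span κ (Set.range (xm J)) := by
      rw [span_xm]
      exact Submodule.mem_top
    induction hc using Submodule.span_induction generalizing r with
    | zero =>
      rw [TensorProduct.tmul_zero]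
      exact high_z1 (prR J e j).toAddMonoidHom I w
    | add x y _ _ hx hy =>
      rw [TensorProduct.tmul_add]
      exact high_z2 (prR J e j).toAddMonoidHom I w (hx r) (hy r)
    | smul a x _ hx =>
      rw [← TensorProduct.smul_tmul]
      exact hx (a • r)
    | mem x hx =>
      obtain ⟨g, rfl⟩ := hx
      have h1 : (tz (r ⊗ₜ[κ] xm J g) : FR J e) * w = r • ((1 : Ra κ n e) ⊗ₜ[κ] fz κ (xm J g) * w) :=
        high_z3 r (xm J g) w
      have h2 := xm_mul_mem g hw
      rw [h1, map_smul, prR_OmR hJ j h2]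
      split_ifs with h3
      · have h4 : n * N + 1 ≤ g.degree := by omega
        have hh0 := high_xm_split (J := J) h4
        obtain ⟨l, g', h5⟩ := hh0
        have h6 : r • ((1 : Ra κ n e) ⊗ₜ[κ] fz κ (xm J g) * w) =
            (tz (r ⊗ₜ[κ] xm J g') : FR J e) * (((1 : Ra κ n e) ⊗ₜ[κ] fz κ (xv J l ^ N) : FR J e) * w) := by
          rw [← h1, h5]
          exact high_z4 r (xm J g') (xv J l ^ N) w
        rw [h6]
        exact hI.mul _ _ (h l)
      · rw [smul_zero]
        exact I.zero_mem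

variable (J e) in
/-- the presentation of the forms of degree `q` -/
private noncomputable def highPhi (q : ℕ) : ((Fin q → Fin n) → Ra κ n e ⊗[κ] CR J) →+ FR J e where
  toFun c := ∑ t, (tz (c t) : FR J e) * ((1 : Ra κ n e) ⊗ₜ[κ] wd κ (fun i => xv J (t i)))
  map_zero' := by
    refine Finset.sum_eq_zero fun t _ => ?_
    rw [Pi.zero_apply, map_zero, zero_mul]
  map_add' c d := by
    rw [← Finset.sum_add_distrib]
    refine Finset.sum_congr rfl fun t _ => ?_
    rw [Pi.add_apply, map_add, add_mul]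

omit [CharZero κ] in
private theorem highPhi_apply (q : ℕ) (c : (Fin q → Fin n) → Ra κ n e ⊗[κ] CR J) :
    highPhi J e q c = ∑ t, (tz (c t) : FR J e) * ((1 : Ra κ n e) ⊗ₜ[κ] wd κ (fun i => xv J (t i))) := rfl

omit [CharZero κ] in
private theorem highPhi_smul (q : ℕ) (a : Ra κ n e ⊗[κ] CR J) (c : (Fin q → Fin n) → Ra κ n e ⊗[κ] CR J) :
    highPhi J e q (fun t => a * c t) = (tz a : FR J e) * highPhi J e q c := by
  rw [highPhi_apply, highPhi_apply, Finset.mul_sum]
  refine Finset.sum_congr rfl fun t _ => ?_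
  rw [tz_mul, mul_assoc]

private theorem highPhi_surj {q : ℕ} {w : FR J e} (hw : w ∈ FdG κ (Mon n e) (C := CR J) q) :
    ∃ c, highPhi J e q c = w := by
  classical
  have h1 : ∀ w : Fm κ (CR J), w ∈ Fd κ (CR J) q → ∀ r : Ra κ n e, ∃ c, highPhi J e q c = r ⊗ₜ[κ] w := by
    intro w hw
    have h2 := fd_sum hw
    let W : Submodule κ (Fm κ (CR J)) :=
      { carrier := {w | ∀ r : Ra κ n e, ∃ c, highPhi J e q c = r ⊗ₜ[κ] w}
        zero_mem' := fun r => ⟨0, by rw [map_zero, TensorProduct.tmul_zero]⟩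
        add_mem' := fun {x y} hx hy r => by
          have hh1 := hx r
          obtain ⟨c, hc⟩ := hh1
          have hh2 := hy r
          obtain ⟨d, hd⟩ := hh2
          exact ⟨c + d, by rw [map_add, hc, hd, TensorProduct.tmul_add]⟩
        smul_mem' := fun a x hx r => by
          have hh3 := hx (a • r)
          obtain ⟨c, hc⟩ := hh3
          exact ⟨c, by rw [hc, TensorProduct.smul_tmul]⟩ }
    have h3 : (⨆ j, Om J q j) ≤ W := by
      refine iSup_le fun j => Submodule.span_le.2 ?_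
      rintro _ ⟨g, t, -, rfl⟩
      change ∀ r : Ra κ n e, ∃ c, highPhi J e q c = r ⊗ₜ[κ] (fz κ (xm J g) * wd κ fun i => xv J (t i))
      intro r
      refine ⟨Pi.single t (r ⊗ₜ[κ] xm J g), ?_⟩
      rw [highPhi_apply, Finset.sum_eq_single t]
      · rw [Pi.single_eq_same, tz_tmul, Algebra.TensorProduct.tmul_mul_tmul, mul_one]
      · intro s _ hs
        rw [Pi.single_eq_of_ne hs, map_zero, zero_mul]
      · intro h
        exact absurd (Finset.mem_univ t) h
    exact h3 h2
  refine FdG_ind (P := fun w => ∃ c, highPhi J e q c = w) ?_ ?_ ?_ hw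
  · exact ⟨0, map_zero _⟩
  · intro r c t
    exact h1 _ (fz_mul_mem _ (wd_mem _)) r
  · rintro x y ⟨c, hc⟩ ⟨d, hd⟩
    exact ⟨c + d, by rw [map_add, hc, hd]⟩

theorem high (hJ : IsHomog J) {q : ℕ} {Z I : AddSubgroup (FR J e)} (hZ : Sta J e q Z) (hI : Sta J e q I)
    (h : ∀ w ∈ Z, ∀ l, ∃ N : ℕ, ((1 : Ra κ n e) ⊗ₜ[κ] fz κ (xv J l ^ N) : FR J e) * w ∈ I) :
    ∃ j0, ∀ j, j0 ≤ j → ∀ w ∈ Z, w ∈ OmR J e q j → w ∈ I := by
  classical
  have hN : IsNoetherianRing (Ra κ n e ⊗[κ] CR J) := high_noeth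
  have hh4 := high_pi (P := fun c => highPhi J e q c ∈ Z) hN (by
      rw [map_zero]
      exact Z.zero_mem) (fun x y hx hy => by
      rw [map_add]
      exact Z.add_mem hx hy) (fun a x hx => by
      rw [highPhi_smul]
      exact hZ.mul _ _ hx)
  obtain ⟨S, hSZ, hSQ⟩ := hh4
  -- every component is uniformly controlled
  have h1 : ∀ c ∈ S, ∃ j1, ∀ t : Ra κ n e ⊗[κ] CR J, ∀ j, j1 ≤ j →
      prR J e j ((tz t : FR J e) * highPhi J e q c) ∈ I := by
    intro c hc
    have hh5 := sum_prR hJ (hZ.le _ (hSZ c hc))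
    obtain ⟨M, hM⟩ := hh5
    have hM' := hM M le_rfl
    have h2 : ∀ i l, ∃ N : ℕ, ((1 : Ra κ n e) ⊗ₜ[κ] fz κ (xv J l ^ N) : FR J e) * prR J e i (highPhi J e q c) ∈ I :=
      fun i l => h _ (hZ.pr i _ (hSZ c hc)) l
    choose N hN3 using h2
    let N0 : ℕ := ∑ i ∈ Finset.range M, ∑ l, N i l
    have h3 : ∀ i ∈ Finset.range M, ∀ l, ((1 : Ra κ n e) ⊗ₜ[κ] fz κ (xv J l ^ N0) : FR J e) *
        prR J e i (highPhi J e q c) ∈ I := by
      intro i hi l
      have h4 : N i l ≤ N0 :=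
        (Finset.single_le_sum (f := fun l => N i l) (fun _ _ => Nat.zero_le _) (Finset.mem_univ l)).trans
          (Finset.single_le_sum (f := fun i => ∑ l, N i l) (fun _ _ => Nat.zero_le _) hi)
      have h5 : ((1 : Ra κ n e) ⊗ₜ[κ] fz κ (xv J l ^ N0) : FR J e) * prR J e i (highPhi J e q c) =
          (tz ((1 : Ra κ n e) ⊗ₜ[κ] (xv J l ^ (N0 - N i l))) : FR J e) *
            (((1 : Ra κ n e) ⊗ₜ[κ] fz κ (xv J l ^ N i l) : FR J e) * prR J e i (highPhi J e q c)) := by
        rw [← mul_assoc, ← high_tz_one, ← high_tz_one, ← tz_mul, Algebra.TensorProduct.tmul_mul_tmul, mul_one,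
          ← pow_add, Nat.sub_add_cancel h4]
      rw [h5]
      exact hI.mul _ _ (hN3 i l)
    refine ⟨M + n * N0 + 1, fun t j hj => ?_⟩
    have h6 : (tz t : FR J e) * highPhi J e q c =
        ∑ i ∈ Finset.range M, (tz t : FR J e) * prR J e i (highPhi J e q c) := by
      rw [← Finset.mul_sum]
      exact congrArg _ hM'
    rw [h6, map_sum]
    refine I.sum_mem fun i hi => ?_
    have h7 := Finset.mem_range.1 hi
    exact high_one hJ hI (prR_mem hJ (hZ.le _ (hSZ c hc)) i) (h3 i hi) (by omega) t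
  choose! j1 hj1 using h1
  refine ⟨∑ c ∈ S, j1 c, fun j hj w hw hwj => ?_⟩
  have hh6 := highPhi_surj (hZ.le w hw)
  obtain ⟨c, rfl⟩ := hh6
  have h10 := hSQ (fun c => ∀ t : Ra κ n e ⊗[κ] CR J, prR J e j ((tz t : FR J e) * highPhi J e q c) ∈ I)
    (fun t => by
      rw [map_zero, mul_zero, map_zero]
      exact I.zero_mem)
    (fun x y hx hy t => by
      rw [map_add, mul_add, map_add]
      exact I.add_mem (hx t) (hy t))
    (fun a x hx t => by
      rw [highPhi_smul, ← mul_assoc, ← tz_mul]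
      exact hx (t * a))
    (fun x hx t => hj1 x hx t j ((Finset.single_le_sum (f := j1) (fun _ _ => Nat.zero_le _) hx).trans hj))
    c hw 1
  have h11 : (tz (1 : Ra κ n e ⊗[κ] CR J) : FR J e) = 1 := by
    rw [Algebra.TensorProduct.one_def, tz_tmul, map_one, ← Algebra.TensorProduct.one_def]
  rw [h11, one_mul, prR_OmR hJ j hwj, if_pos rfl] at h10
  exact h10

end MPadcDC
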