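import Pool.Agent.Lib.MP_adc574_ag_DC.GEps

/-!
# GKA: the derivation of GK, abstract version

`A0 ⊆ C` over `κ`, `A0' ⊆ C'` over `K`, `θ : C → C'` semilinear; in GK `C = S[1/x_l]`, `C' = S_K[1/x_l]`, `A0`, `A0'` the functions of degree `0`.
-/

set_option autoImplicit false

namespace MPadcDC

open MvPolynomial TensorProduct

universe u

private theorem GKA_sum {A B : Type u} [CommRing A] [CommRing B] [Algebra A B] {ι : Type} (s : Finset ι)
    (c : ι → B) (D : ι → Derivation A B B) (x : B) : (∑ i ∈ s, c i • D i) x = ∑ i ∈ s, c i * D i x := by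
  classical
  induction s using Finset.induction_on with
  | empty => rw [Finset.sum_empty, Finset.sum_empty]; rfl
  | insert i s hi ih =>
    rw [Finset.sum_insert hi, Finset.sum_insert hi, Derivation.add_apply, ih]
    rfl

theorem gk_abs {κ : Type u} [Field κ] {Γ : Type} [Fintype Γ] {C : Type u} [CommRing C] [Algebra κ C] {A0 : Subalgebra κ C}
    {K : Type u} [Field K] [Algebra κ K] {C' : Type u} [CommRing C'] [Algebra K C'] {A0' : Subalgebra K C'}
    {b : Γ → C} {D : Γ → Derivation κ C C} (hb : ∀ g h, D g (b h) ∈ A0) (p : C →ₗ[A0] A0) (hp : p 1 = 1)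
    {r : MvPolynomial Γ κ} (hr : eps0 b D (r ⊗ₜ[κ] 1) = 0) (a : Γ → K) (hra : aeval a r ≠ 0) (θ : C →+* C')
    (hθκ : ∀ s : κ, θ (algebraMap κ C s) = algebraMap K C' (algebraMap κ K s)) (hθ0 : ∀ c ∈ A0, θ c ∈ A0')
    (D' : Γ → Derivation K C' C') (hD' : ∀ g x, D' g (θ x) = θ (D g x)) :
    ∃ w : Derivation K C' C', w (∑ h, algebraMap K C' (a h) * θ (b h)) = 1 ∧
      ∀ x y : C, (∀ g, D g x * y ∈ A0) → w (θ x) * θ y ∈ A0' := by
  have h1 := sub_eps0 (b := b) (D := D) (r ⊗ₜ[κ] (1 : C))
  rw [hr, sub_zero, Ideal.mem_span_range_iff_exists_fun] at h1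
  obtain ⟨f, hf⟩ := h1
  let cm : A0 →+* A0' :=
    { toFun := fun c => ⟨θ c, hθ0 c c.2⟩
      map_one' := Subtype.ext θ.map_one
      map_mul' := fun x y => Subtype.ext (θ.map_mul x y)
      map_zero' := Subtype.ext θ.map_zero
      map_add' := fun x y => Subtype.ext (θ.map_add x y) }
  have hcm : ∀ c, (cm c : C') = θ c := fun c => rfl
  let _ : Algebra κ A0' := ((algebraMap K A0').comp (algebraMap κ K)).toAlgebra
  have hal : ∀ s : κ, algebraMap κ A0' s = algebraMap K A0' (algebraMap κ K s) := fun s => rfl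
  have hcs : ∀ s : κ, cm (algebraMap κ A0 s) = algebraMap κ A0' s := fun s => Subtype.ext (hθκ s)
  let B : MvPolynomial Γ κ →ₗ[κ] C →ₗ[κ] A0' := LinearMap.mk₂ κ
    (fun s x => algebraMap K A0' (aeval a s) * cm (p x))
    (fun s s' x => by rw [map_add, map_add, add_mul])
    (fun c s x => by
      rw [Algebra.smul_def, Algebra.smul_def, map_mul, map_mul, mul_assoc]
      congr 1
      rw [hal, MvPolynomial.algebraMap_eq, MvPolynomial.aeval_C])
    (fun s x x' => by rw [map_add, map_add, mul_add])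
    (fun c s x => by
      have h2 : p (c • x) = algebraMap κ A0 c * p x := by
        have h3 := p.map_smul (algebraMap κ A0 c) x
        rw [smul_eq_mul, Algebra.smul_def] at h3
        rw [Algebra.smul_def]
        exact h3
      rw [h2, map_mul, hcs, Algebra.smul_def, mul_left_comm])
  let L : MvPolynomial Γ κ ⊗[κ] C →ₗ[κ] A0' := TensorProduct.lift B
  have hL : ∀ s x, L (s ⊗ₜ[κ] x) = algebraMap K A0' (aeval a s) * cm (p x) := fun s x => rfl
  let U : Γ → A0' := fun g => ∑ h, algebraMap K A0' (a h) * cm ⟨D g (b h), hb g h⟩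
  have hLU : ∀ g t, L (t * uu b D g) = L t * U g := by
    intro g t
    induction t using TensorProduct.induction_on with
    | zero => rw [zero_mul, map_zero, zero_mul]
    | add t t' ht ht' => rw [add_mul, map_add, ht, ht', map_add, add_mul]
    | tmul s x =>
      change L (s ⊗ₜ[κ] x * ∑ h, (X h : MvPolynomial Γ κ) ⊗ₜ[κ] D g (b h)) = L (s ⊗ₜ[κ] x) * ∑ h, algebraMap K A0' (a h) * cm ⟨D g (b h), hb g h⟩
      rw [Finset.mul_sum, map_sum, Finset.mul_sum]
      refine Finset.sum_congr rfl fun h _ => ?_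
      have h3 : p (x * D g (b h)) = (⟨D g (b h), hb g h⟩ : A0) * p x := by
        have h4 := p.map_smul (⟨D g (b h), hb g h⟩ : A0) x
        rw [smul_eq_mul, Algebra.smul_def, mul_comm] at h4
        exact h4
      rw [Algebra.TensorProduct.tmul_mul_tmul, hL, hL, h3, map_mul, map_mul, map_mul, aeval_X]
      ring
  have hDU : ∀ g, D' g (∑ h, algebraMap K C' (a h) * θ (b h)) = U g := by
    intro g
    change _ = ((∑ h, algebraMap K A0' (a h) * cm ⟨D g (b h), hb g h⟩ : A0') : C')
    rw [map_sum, AddSubmonoidClass.coe_finsetSum]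
    refine Finset.sum_congr rfl fun h _ => ?_
    rw [← Algebra.smul_def, Derivation.map_smul, hD', Algebra.smul_def]
    rfl
  let c : Γ → A0' := fun g => algebraMap K A0' (aeval a r)⁻¹ * L (f g)
  have hsum : ∑ g, c g * U g = 1 := by
    have h3 : ∀ g, c g * U g = algebraMap K A0' (aeval a r)⁻¹ * L (f g * uu b D g) := fun g => by
      rw [hLU, ← mul_assoc]
    rw [Finset.sum_congr rfl fun g _ => h3 g, ← Finset.mul_sum, ← map_sum, hf, hL, hp, map_one, mul_one, ← map_mul,
      inv_mul_cancel₀ hra, map_one]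
  refine ⟨∑ g, (c g : C') • D' g, ?_, fun x y hxy => ?_⟩
  · rw [GKA_sum, Finset.sum_congr rfl fun g _ => congrArg (fun z => (c g : C') * z) (hDU g)]
    have h4 := congrArg (fun z : A0' => (z : C')) hsum
    rw [AddSubmonoidClass.coe_finsetSum] at h4
    exact h4
  · rw [GKA_sum, Finset.sum_mul]
    refine Subalgebra.sum_mem _ fun g _ => ?_
    rw [mul_assoc, hD', ← map_mul]
    exact Subalgebra.mul_mem _ (c g).2 (hθ0 _ (hxy g))

end MPadcDC
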