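import Pool.Agent.Lib.MP_adc574_ag_DC.GTz
import Pool.Agent.Lib.MP_adc574_ag_DC.GEps

/-!
# GRankA: contractions of homogeneous forms, abstract version

`A0` a subalgebra of `C`, `ℓ : C`, `x : Fin n → C` (in GRank: `C = S[1/x_l]`, `A0` the functions of degree `0`, `ℓ = x_l`).
-/

set_option autoImplicit false

namespace MPadcDC

open MvPolynomial TensorProduct MPadcGP

universe u v

variable {κ : Type u} [Field κ] {Γ : Type} [Fintype Γ] {C : Type u} [CommRing C] [Algebra κ C] {n : ℕ}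
  {A0 : Subalgebra κ C} {ℓ : C} {x : Fin n → C}

/-- The forms of form degree `q` and total degree `j`. -/
noncomputable def GV (A0 : Subalgebra κ C) (ℓ : C) (x : Fin n → C) (q j : ℕ) : AddSubgroup (Fm κ C) :=
  AddSubgroup.closure {w | ∃ c ∈ A0, ∃ (a : ℕ) (t : Fin q → Fin n), a + q = j ∧
    w = fz κ (c * ℓ ^ a) * wd κ (fun i => x (t i))}

theorem GV_fz {q j b : ℕ} {c : C} (hc : c ∈ A0) {w : Fm κ C} (hw : w ∈ GV A0 ℓ x q j) :
    fz κ (c * ℓ ^ b) * w ∈ GV A0 ℓ x q (j + b) := by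
  induction hw using AddSubgroup.closure_induction with
  | mem w hw =>
    obtain ⟨d, hd, a, t, hj, rfl⟩ := hw
    refine AddSubgroup.subset_closure ⟨c * d, Subalgebra.mul_mem _ hc hd, a + b, t, by omega, ?_⟩
    rw [← mul_assoc, ← map_mul, pow_add]
    congr 2
    ring
  | zero =>
    rw [mul_zero]
    exact zero_mem _
  | add x y _ _ hx hy =>
    rw [mul_add]
    exact add_mem hx hy
  | neg x _ hx =>
    rw [mul_neg]
    exact neg_mem hx

theorem GV_df {q j : ℕ} (k : Fin n) {w : Fm κ C} (hw : w ∈ GV A0 ℓ x q j) :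
    df κ (x k) * w ∈ GV A0 ℓ x (q + 1) (j + 1) := by
  induction hw using AddSubgroup.closure_induction with
  | mem w hw =>
    obtain ⟨d, hd, a, t, hj, rfl⟩ := hw
    refine AddSubgroup.subset_closure ⟨d, hd, a, Fin.cons k t, by omega, ?_⟩
    rw [← mul_assoc, ← fz_comm, mul_assoc]
    congr 1
    rw [← wd_cons]
    congr 1
    funext i
    refine Fin.cases ?_ (fun i => ?_) i
    · rfl
    · rfl
  | zero =>
    rw [mul_zero]
    exact zero_mem _
  | add x y _ _ hx hy =>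
    rw [mul_add]
    exact add_mem hx hy
  | neg x _ hx =>
    rw [mul_neg]
    exact neg_mem hx

theorem GV_wd {q : ℕ} (t : Fin q → Fin n) : wd κ (fun i => x (t i)) ∈ GV A0 ℓ x q q := by
  refine AddSubgroup.subset_closure ⟨1, Subalgebra.one_mem _, 0, t, by omega, ?_⟩
  rw [pow_zero, mul_one, map_one, one_mul]

theorem GV_ct_wd {θ : Derivation κ C C} {e : ℕ} (hθ : ∀ k, ∃ c ∈ A0, θ (x k) * ℓ ^ e = c * ℓ) {q : ℕ}
    (t : Fin (q + 1) → Fin n) : fz κ (ℓ ^ e) * ct κ θ (wd κ (fun i => x (t i))) ∈ GV A0 ℓ x q (q + 1) := by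
  induction q with
  | zero =>
    rw [wd_succ, wd_zero, mul_one, ct_df, ← map_mul, mul_comm]
    obtain ⟨c, hc, h1⟩ := hθ (t 0)
    rw [h1]
    refine AddSubgroup.subset_closure ⟨c, hc, 1, Fin.elim0, by omega, ?_⟩
    rw [wd_zero, mul_one, pow_one]
  | succ q ih =>
    rw [wd_succ, ct_df_mul, mul_sub, ← mul_assoc, ← map_mul, mul_comm (ℓ ^ e) (θ _)]
    obtain ⟨c, hc, h1⟩ := hθ (t 0)
    rw [h1]
    refine sub_mem ?_ ?_
    · have h2 := GV_fz (b := 1) hc (GV_wd (A0 := A0) (ℓ := ℓ) (x := x) (Fin.tail t))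
      rw [pow_one] at h2
      exact h2
    · rw [← mul_assoc, fz_comm, mul_assoc]
      exact GV_df (t 0) (ih (Fin.tail t))

theorem GV_ct {θ : Derivation κ C C} {e : ℕ} (hθ : ∀ k, ∃ c ∈ A0, θ (x k) * ℓ ^ e = c * ℓ) {q j : ℕ} {w : Fm κ C}
    (hw : w ∈ GV A0 ℓ x (q + 1) j) : fz κ (ℓ ^ e) * ct κ θ w ∈ GV A0 ℓ x q j := by
  induction hw using AddSubgroup.closure_induction with
  | mem w hw =>
    obtain ⟨d, hd, a, t, hj, rfl⟩ := hw
    rw [← fz_smul (d * ℓ ^ a), map_smul, fz_smul, ← mul_assoc, fz_comm, mul_assoc]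
    have h1 := GV_fz (b := a) hd (GV_ct_wd hθ t)
    have h2 : q + 1 + a = j := by omega
    rw [h2] at h1
    exact h1
  | zero =>
    rw [map_zero, mul_zero]
    exact zero_mem _
  | add x y _ _ hx hy =>
    rw [map_add, mul_add]
    exact add_mem hx hy
  | neg x _ hx =>
    rw [map_neg, mul_neg]
    exact neg_mem hx

theorem GV_zero {j : ℕ} {w : Fm κ C} (hw : w ∈ GV A0 ℓ x 0 j) : ∃ c ∈ A0, w = fz κ (c * ℓ ^ j) := by
  induction hw using AddSubgroup.closure_induction with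
  | mem w hw =>
    obtain ⟨d, hd, a, t, hj, rfl⟩ := hw
    refine ⟨d, hd, ?_⟩
    rw [wd_zero, mul_one, ← hj, add_zero]
  | zero => exact ⟨0, Subalgebra.zero_mem _, by rw [zero_mul, map_zero]⟩
  | add x y _ _ hx hy =>
    obtain ⟨c, hc, rfl⟩ := hx
    obtain ⟨d, hd, rfl⟩ := hy
    exact ⟨c + d, Subalgebra.add_mem _ hc hd, by rw [add_mul, map_add]⟩
  | neg x _ hx =>
    obtain ⟨c, hc, rfl⟩ := hx
    exact ⟨-c, Subalgebra.neg_mem _ hc, by rw [neg_mul, map_neg]⟩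

theorem GV_smul {q j : ℕ} (s : κ) {w : Fm κ C} (hw : w ∈ GV A0 ℓ x q j) : s • w ∈ GV A0 ℓ x q j := by
  have h1 := GV_fz (b := 0) (A0.algebraMap_mem s) hw
  rw [pow_zero, mul_one, add_zero, ← fz_smul, algebraMap_smul] at h1
  exact h1

/-- The same over `κ[a]`. -/
noncomputable def GW (Γ : Type) [Fintype Γ] (A0 : Subalgebra κ C) (ℓ : C) (x : Fin n → C) (q j : ℕ) :
    AddSubmonoid (FG κ Γ C) :=
  AddSubmonoid.closure {w | ∃ (r : MvPolynomial Γ κ), ∃ v ∈ GV A0 ℓ x q j, w = r ⊗ₜ[κ] v}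

theorem GW_ct {θ : Derivation κ C C} {e : ℕ} (hθ : ∀ k, ∃ c ∈ A0, θ (x k) * ℓ ^ e = c * ℓ) {q j : ℕ}
    {w : FG κ Γ C} (hw : w ∈ GW Γ A0 ℓ x (q + 1) j) :
    (tz ((1 : MvPolynomial Γ κ) ⊗ₜ[κ] (ℓ ^ e)) : FG κ Γ C) * ctG θ w ∈ GW Γ A0 ℓ x q j := by
  induction hw using AddSubmonoid.closure_induction with
  | mem w hw =>
    obtain ⟨r, v, hv, rfl⟩ := hw
    refine AddSubmonoid.subset_closure ⟨r, _, GV_ct hθ hv, ?_⟩
    rw [ctG_apply, tz_smul_apply]
  | zero =>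
    rw [map_zero, mul_zero]
    exact zero_mem _
  | add x y _ _ hx hy =>
    rw [map_add, mul_add]
    exact add_mem hx hy

theorem GW_list {D : Γ → Derivation κ C C} {e : ℕ} (hD : ∀ g k, ∃ c ∈ A0, D g (x k) * ℓ ^ e = c * ℓ) {j : ℕ}
    (L : List Γ) (p : ℕ) {w : FG κ Γ C} (hw : w ∈ GW Γ A0 ℓ x (p + L.length) j) :
    (tz ((1 : MvPolynomial Γ κ) ⊗ₜ[κ] (ℓ ^ (e * L.length))) : FG κ Γ C) *
      (L.map fun g => ctG (κ := κ) (Γ := Γ) (D g)).foldr (fun f x => f x) w ∈ GW Γ A0 ℓ x p j := by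
  induction L generalizing p with
  | nil =>
    rw [List.length_nil, mul_zero, pow_zero, List.map_nil, List.foldr_nil, tz1_one]
    exact hw
  | cons g L ih =>
    rw [List.map_cons, List.foldr_cons, List.length_cons]
    have hw' : w ∈ GW Γ A0 ℓ x (p + 1 + L.length) j := by
      have h1 : p + 1 + L.length = p + (g :: L).length := by rw [List.length_cons]; omega
      rw [h1]
      exact hw
    have h2 := GW_ct (hD g) (ih (p + 1) hw')
    have h3 : ℓ ^ (e * (L.length + 1)) = ℓ ^ e * ℓ ^ (e * L.length) := by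
      rw [← pow_add]
      congr 1
      ring
    rw [h3, ctG_step]
    exact h2

theorem GW_zero {j : ℕ} {w : FG κ Γ C} (hw : w ∈ GW Γ A0 ℓ x 0 j) :
    ∃ f : MvPolynomial Γ κ ⊗[κ] A0, w = tz (Algebra.TensorProduct.map (AlgHom.id κ (MvPolynomial Γ κ)) A0.val f *
      (1 : MvPolynomial Γ κ) ⊗ₜ[κ] (ℓ ^ j)) := by
  induction hw using AddSubmonoid.closure_induction with
  | mem w hw =>
    obtain ⟨r, v, hv, rfl⟩ := hw
    obtain ⟨c, hc, rfl⟩ := GV_zero hv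
    refine ⟨r ⊗ₜ[κ] ⟨c, hc⟩, ?_⟩
    rw [Algebra.TensorProduct.map_tmul, Algebra.TensorProduct.tmul_mul_tmul, mul_one]
    rfl
  | zero => exact ⟨0, by rw [map_zero, zero_mul, map_zero]⟩
  | add x y _ _ hx hy =>
    obtain ⟨f, rfl⟩ := hx
    obtain ⟨g, rfl⟩ := hy
    exact ⟨f + g, by rw [map_add, add_mul, map_add]⟩

theorem GW_mul {q j : ℕ} (r : MvPolynomial Γ κ) {w : FG κ Γ C} (hw : w ∈ GW Γ A0 ℓ x q j) :
    (r ⊗ₜ[κ] (1 : Fm κ C) : FG κ Γ C) * w ∈ GW Γ A0 ℓ x q j := by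
  induction hw using AddSubmonoid.closure_induction with
  | mem x hx =>
    obtain ⟨s, v, hv, rfl⟩ := hx
    exact AddSubmonoid.subset_closure ⟨r * s, v, hv, FG_mul_mul r s v⟩
  | zero =>
    rw [mul_zero]
    exact zero_mem _
  | add x y _ _ hx hy =>
    rw [mul_add]
    exact add_mem hx hy

/-- `eps0` over a subalgebra. -/
theorem eps0_sub {b : Γ → C} {D : Γ → Derivation κ C C} (hDb : ∀ g h, D g (b h) ∈ A0)
    (f : MvPolynomial Γ κ ⊗[κ] A0) :
    ∃ f', eps0 b D (Algebra.TensorProduct.map (AlgHom.id κ (MvPolynomial Γ κ)) A0.val f) =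
      Algebra.TensorProduct.map (AlgHom.id κ (MvPolynomial Γ κ)) A0.val f' := by
  let ι : MvPolynomial Γ κ ⊗[κ] A0 →ₐ[κ] MvPolynomial Γ κ ⊗[κ] C :=
    Algebra.TensorProduct.map (AlgHom.id κ (MvPolynomial Γ κ)) A0.val
  have hι : ∀ (r : MvPolynomial Γ κ) (c : A0), ι (r ⊗ₜ[κ] c) = r ⊗ₜ[κ] (c : C) := fun r c =>
    Algebra.TensorProduct.map_tmul _ _ _ _
  have huu : ∀ g, uu b D g ∈ ι.range := by
    intro g
    unfold uu
    refine Subalgebra.sum_mem _ fun h _ => ?_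
    exact ⟨X h ⊗ₜ[κ] ⟨D g (b h), hDb g h⟩, hι _ _⟩
  have hX : ∀ g, (X g : MvPolynomial Γ κ) ⊗ₜ[κ] (1 : C) ∈ ι.range := fun g => ⟨X g ⊗ₜ[κ] 1, hι _ _⟩
  have hr : ∀ r : MvPolynomial Γ κ, eps0 b D (r ⊗ₜ[κ] (1 : C)) ∈ ι.range := by
    intro r
    induction r using MvPolynomial.induction_on with
    | C a =>
      refine ⟨(MvPolynomial.C a : MvPolynomial Γ κ) ⊗ₜ[κ] 1, ?_⟩
      have h1 : (MvPolynomial.C a : MvPolynomial Γ κ) ⊗ₜ[κ] (1 : C) = algebraMap κ (MvPolynomial Γ κ ⊗[κ] C) a := rfl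
      have h2 : (MvPolynomial.C a : MvPolynomial Γ κ) ⊗ₜ[κ] (1 : A0) = algebraMap κ (MvPolynomial Γ κ ⊗[κ] A0) a := rfl
      rw [h1, h2]
      exact (ι.commutes a).trans ((eps0 b D).commutes a).symm
    | add p q hp hq =>
      rw [TensorProduct.add_tmul, map_add]
      exact Subalgebra.add_mem _ hp hq
    | mul_X p g hp =>
      have h1 : (p * X g : MvPolynomial Γ κ) ⊗ₜ[κ] (1 : C) = p ⊗ₜ[κ] (1 : C) * (X g : MvPolynomial Γ κ) ⊗ₜ[κ] (1 : C) := by
        rw [Algebra.TensorProduct.tmul_mul_tmul, mul_one]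
      rw [h1, map_mul, eps0_X]
      exact Subalgebra.mul_mem _ hp (Subalgebra.sub_mem _ (hX g) (huu g))
  have key : eps0 b D (ι f) ∈ ι.range := by
    induction f using TensorProduct.induction_on with
    | zero =>
      rw [map_zero, map_zero]
      exact Subalgebra.zero_mem _
    | add x y hx hy =>
      rw [map_add, map_add]
      exact Subalgebra.add_mem _ hx hy
    | tmul r c =>
      have h1 : ι (r ⊗ₜ[κ] c) = r ⊗ₜ[κ] (1 : C) * (1 : MvPolynomial Γ κ) ⊗ₜ[κ] (c : C) := by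
        rw [Algebra.TensorProduct.tmul_mul_tmul, mul_one, one_mul]
        exact hι r c
      rw [h1, map_mul, eps0_C]
      exact Subalgebra.mul_mem _ (hr r) ⟨1 ⊗ₜ[κ] c, hι _ _⟩
  obtain ⟨f', hf'⟩ := key
  exact ⟨f', hf'.symm⟩

end MPadcDC
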