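import Pool.Agent.Lib.MP_adc574_ag_DC.GHom
import Pool.Agent.Lib.MP_adc574_ag_DC.GRankA

/-!
# GRankM: monomials in `S[1/x_l]` and homogeneous derivations; `eps0` over the chart
-/

set_option autoImplicit false

namespace MPadcDC

open MvPolynomial TensorProduct MPadcGP

universe u v

section abstr

variable {k₀ : Type u} {B : Type v} [CommRing k₀] [CommRing B] [Algebra k₀ B] {A0 : Subalgebra k₀ B} {z : B} {n : ℕ}
  {x : (Fin n →₀ ℕ) → B}

private theorem GRankM_pow (x0 : x 0 = 1) (xa : ∀ g h, x (g + h) = x g * x h) (k : Fin n) (b : ℕ) :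
    x (Finsupp.single k b) = x (Finsupp.single k 1) ^ b := by
  induction b with
  | zero => rw [Finsupp.single_zero, x0, pow_zero]
  | succ b ih => rw [Finsupp.single_add, xa, ih, pow_succ]

private theorem GRankM_mon (x0 : x 0 = 1) (xa : ∀ g h, x (g + h) = x g * x h)
    (hx : ∀ k, ∃ c ∈ A0, x (Finsupp.single k 1) = c * z) (g : Fin n →₀ ℕ) : ∃ c ∈ A0, x g = c * z ^ g.degree := by
  induction g using Finsupp.induction_linear with
  | zero => exact ⟨1, Subalgebra.one_mem _, by rw [x0, map_zero, pow_zero, mul_one]⟩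
  | add g h hg hh =>
    obtain ⟨c, hc, h1⟩ := hg
    obtain ⟨d, hd, h2⟩ := hh
    refine ⟨c * d, Subalgebra.mul_mem _ hc hd, ?_⟩
    rw [xa, h1, h2, map_add, pow_add]
    ring
  | single k b =>
    obtain ⟨c, hc, h1⟩ := hx k
    refine ⟨c ^ b, Subalgebra.pow_mem _ hc b, ?_⟩
    rw [GRankM_pow x0 xa, h1, mul_pow, Finsupp.degree_single]

private theorem GRankM_D (D : Derivation k₀ B B) {e : ℕ} (x0 : x 0 = 1) (xa : ∀ g h, x (g + h) = x g * x h)
    (hx : ∀ k, ∃ c ∈ A0, x (Finsupp.single k 1) = c * z)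
    (hD : ∀ k, ∃ c ∈ A0, D (x (Finsupp.single k 1)) * z ^ e = c * z) (h : Fin n →₀ ℕ) :
    ∃ c ∈ A0, D (x h) * z ^ e = c * z ^ h.degree := by
  have key : ∀ (b : ℕ) (k : Fin n), ∃ c ∈ A0,
      D (x (Finsupp.single k b)) * z ^ e = c * z ^ (Finsupp.single k b).degree := by
    intro b k
    induction b with
    | zero =>
      refine ⟨0, Subalgebra.zero_mem _, ?_⟩
      rw [Finsupp.single_zero, x0, Derivation.map_one_eq_zero, zero_mul, zero_mul]
    | succ b ih =>
      obtain ⟨c, hc, h1⟩ := ih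
      obtain ⟨d, hd, h2⟩ := hD k
      obtain ⟨c', hc', h1'⟩ := GRankM_mon x0 xa hx (Finsupp.single k b)
      obtain ⟨d', hd', h2'⟩ := hx k
      refine ⟨c' * d + d' * c, Subalgebra.add_mem _ (Subalgebra.mul_mem _ hc' hd) (Subalgebra.mul_mem _ hd' hc), ?_⟩
      rw [Finsupp.single_add, xa, Derivation.leibniz, smul_eq_mul, smul_eq_mul, add_mul,
        mul_assoc, h2, mul_assoc, h1, h1', h2', map_add, pow_add, Finsupp.degree_single, Finsupp.degree_single]
      ring
  induction h using Finsupp.induction_linear with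
  | zero =>
    refine ⟨0, Subalgebra.zero_mem _, ?_⟩
    rw [x0, Derivation.map_one_eq_zero, zero_mul, zero_mul]
  | add h h' ih ih' =>
    obtain ⟨c, hc, h1⟩ := ih
    obtain ⟨d, hd, h2⟩ := ih'
    obtain ⟨c', hc', h1'⟩ := GRankM_mon x0 xa hx h
    obtain ⟨d', hd', h2'⟩ := GRankM_mon x0 xa hx h'
    refine ⟨c' * d + d' * c, Subalgebra.add_mem _ (Subalgebra.mul_mem _ hc' hd) (Subalgebra.mul_mem _ hd' hc), ?_⟩
    rw [xa, Derivation.leibniz, smul_eq_mul, smul_eq_mul, add_mul, mul_assoc, h2, mul_assoc, h1, h1', h2',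
      map_add, pow_add]
    ring
  | single k b => exact key b k

end abstr

variable {κ : Type u} [Field κ] {n : ℕ} {J : Ideal (MvPolynomial (Fin n) κ)} {l : Fin n} {e m : ℕ}

/-- `κ[a] ⊗ A0 → κ[a] ⊗ C` -/
noncomputable def ic (J : Ideal (MvPolynomial (Fin n) κ)) (e : ℕ) (l : Fin n) :
    Ra κ n e ⊗[κ] chart J {l} →ₐ[κ] Ra κ n e ⊗[κ] LR J {l} :=
  Algebra.TensorProduct.map (AlgHom.id κ (Ra κ n e)) (chart J {l}).val

section monomials

theorem GRank_lm_add (g h : Fin n →₀ ℕ) : lm J l (xm J (g + h)) = lm J l (xm J g) * lm J l (xm J h) := by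
  rw [← map_mul]
  unfold xm
  rw [← map_mul, monomial_mul, mul_one]

theorem GRank_lm_zero : lm J l (xm J 0) = 1 := by
  unfold xm
  have h : (monomial 0 1 : MvPolynomial (Fin n) κ) = 1 := rfl
  rw [h, map_one, map_one]

theorem GRank_lm_single (k : Fin n) : lm J l (xm J (Finsupp.single k 1)) = lx J {l} k := rfl

theorem GRank_cq (k : Fin n) : ∃ c ∈ chart J {l}, lx J {l} k = c * lx J {l} l :=
  ⟨_, (cq J {l} k (Finset.mem_singleton_self l)).2, (cq_mul_lx J {l} k (Finset.mem_singleton_self l)).symm⟩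

/-- The monomials. -/
theorem GRank_mon (g : Fin n →₀ ℕ) : ∃ c ∈ chart J {l}, lm J l (xm J g) = c * lx J {l} l ^ g.degree :=
  GRankM_mon (B := LR J {l}) (x := fun g => lm J l (xm J g)) GRank_lm_zero GRank_lm_add GRank_cq g

theorem GRank_deg (h : Mon n e) : h.1.degree = e := by
  have h1 := (Finset.mem_finsuppAntidiag.1 h.2).1
  rw [Finsupp.degree_eq_sum]
  exact h1

end monomials

variable {D : Mon n e → Derivation κ (LR J {l}) (LR J {l})}

theorem GRank_D (hD : HomD D) (he : 1 ≤ e) (g : Mon n e) (k : Fin n) :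
    ∃ c ∈ chart J {l}, D g (lx J {l} k) * lx J {l} l ^ e = c * lx J {l} l := by
  refine ⟨_, hD g k, ?_⟩
  rw [mul_assoc, ← pow_succ, Nat.sub_add_cancel he]

theorem GRank_Dmon (hD : HomD D) (he : 1 ≤ e) (g : Mon n e) (h : Fin n →₀ ℕ) :
    ∃ c ∈ chart J {l}, D g (lm J l (xm J h)) * lx J {l} l ^ e = c * lx J {l} l ^ h.degree :=
  GRankM_D (B := LR J {l}) (x := fun g => lm J l (xm J g)) (D g) GRank_lm_zero GRank_lm_add GRank_cq
    (GRank_D hD he g) h

theorem D_chart (hD : HomD D) (g h : Mon n e) : D g (bl J e l h) ∈ chart J {l} := by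
  rcases Nat.eq_zero_or_pos e with he | he
  · have h1 : h.1 = 0 := by
      have h2 := (GRank_deg h).trans he
      exact (Finsupp.degree_eq_zero_iff _).1 h2
    unfold bl
    rw [h1, GRank_lm_zero, Derivation.map_one_eq_zero]
    exact Subalgebra.zero_mem _
  · obtain ⟨c, hc, h1⟩ := GRank_Dmon hD he g h.1
    rw [GRank_deg] at h1
    have h2 : IsUnit (lx J {l} l ^ e) := (lx_isUnit J {l} (Finset.mem_singleton_self l)).pow e
    have h3 := h2.mul_right_cancel h1
    unfold bl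
    rw [h3]
    exact hc

variable [CharZero κ]

omit [CharZero κ] in
theorem eps0_ic (hD : HomD D) (f : Ra κ n e ⊗[κ] chart J {l}) : ∃ f', eps0 (bl J e l) D (ic J e l f) = ic J e l f' :=
  eps0_sub (A0 := chart J {l}) (b := bl J e l) (D := D) (D_chart hD) f

end MPadcDC
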