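import Pool.Agent.Lib.MP_adc574_ag_DC.GExK
import Pool.Agent.Lib.MP_adc574_ag_DC.GKA
import Pool.Agent.Lib.MP_adc574_ag_DC.GRankM
import Pool.Agent.Lib.MP_adc574_ag_DC.GDerB
import Pool.Agent.Lib.MP_adc574_ag_DC.GFra
import Pool.Agent.Lib.MP_adc574_ag_GP.Mod3

/-!
# GK: the generic form over a field `K` has a derivation `w` with `w F = 1` on `x_l ≠ 0`

`K ⊇ κ` a field, `a_g ∈ K` algebraically independent over `κ`, `J_K = bI J`, `F = frm a`.
JOB GK. `D` from `exists_fra`, `r ≠ 0` in `PbC` (`pb_ne`, `exists_eulL`, `bl_ne`). By `sub_eps0` `r ⊗ 1 = ∑_g u_g f_g` with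
`u_g = D_g(F) = uu g ∈ κ[a] ⊗ chart` (`D_chart`). Apply `chart_proj` (linear over the chart): one may take
`f_g ∈ κ[a] ⊗ chart J {l}`. The homomorphism `κ[a] ⊗ S[1/x_l] → S_K[1/x_l]`, `a_g ↦ a_g ∈ K`, maps `r` to `r(a) ≠ 0`, `u_g` to `D'_g(F)`
(`D'_g` the extension of `D_g`) and `f_g` to the chart. So `w = r(a)⁻¹ ∑_g f_g D'_g`.

-/

set_option autoImplicit false

namespace MPadcDC

open MvPolynomial TensorProduct MPadcGP

universe u v

variable {κ : Type u} [Field κ] {n : ℕ} {J : Ideal (MvPolynomial (Fin n) κ)} {l : Fin n} {e m : ℕ}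
  {K : Type u} [Field K] [Algebra κ K] {a : Mon n e → K}

private theorem GK_mkL (f : MvPolynomial (Fin n) κ) :
    lK J K l (mkL J {l} f) = mkL (bI (algebraMap κ K) J) {l} (MvPolynomial.map (algebraMap κ K) f) := by
  have key : ((lK J K l).comp ((algebraMap (CR J) (LR J {l})).comp (Ideal.Quotient.mk J))) =
      ((algebraMap (CR (bI (algebraMap κ K) J)) (LR (bI (algebraMap κ K) J) {l})).comp
        (Ideal.Quotient.mk (bI (algebraMap κ K) J))).comp (MvPolynomial.map (algebraMap κ K)) := by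
    refine MvPolynomial.ringHom_ext (fun r => ?_) (fun k => ?_)
    · have h1 : algebraMap (CR J) (LR J {l}) (Ideal.Quotient.mk J (C r)) = algebraMap κ (LR J {l}) r := by
        rw [IsScalarTower.algebraMap_apply κ (CR J) (LR J {l})]
        rfl
      rw [RingHom.comp_apply, RingHom.comp_apply, h1, RingHom.comp_apply, map_C, RingHom.comp_apply]
      refine (lmap_base _ _ _ r).trans ?_
      rw [IsScalarTower.algebraMap_apply K (CR (bI (algebraMap κ K) J)) (LR (bI (algebraMap κ K) J) {l})]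
      rfl
    · rw [RingHom.comp_apply, RingHom.comp_apply, RingHom.comp_apply, map_X, RingHom.comp_apply]
      exact lmap_lx _ _ _ k
  exact congrArg (fun g : MvPolynomial (Fin n) κ →+* LR (bI (algebraMap κ K) J) {l} => g f) key

private theorem GK_frm : mkL (bI (algebraMap κ K) J) {l} (frm a) =
    ∑ g : Mon n e, algebraMap K (LR (bI (algebraMap κ K) J) {l}) (a g) * lK J K l (bl J e l g) := by
  unfold frm mkL
  rw [map_sum, map_sum]
  refine Finset.sum_congr rfl fun g _ => ?_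
  have h1 : (monomial g.1 (a g) : MvPolynomial (Fin n) K) =
      C (a g) * MvPolynomial.map (algebraMap κ K) (monomial g.1 1) := by
    rw [map_monomial, map_one, C_mul_monomial, mul_one]
  have h2 : lK J K l (bl J e l g) = mkL (bI (algebraMap κ K) J) {l} (MvPolynomial.map (algebraMap κ K) (monomial g.1 1)) :=
    GK_mkL (monomial g.1 1)
  rw [h1, h2, map_mul, map_mul, IsScalarTower.algebraMap_apply K (CR (bI (algebraMap κ K) J)) (LR (bI (algebraMap κ K) J) {l})]
  rfl

/-- (G4) -/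
theorem exists_der [CharZero κ] (hJ : Good J m) (he : 1 ≤ e) (ha : AlgebraicIndependent κ a)
    (hl : (X l : MvPolynomial (Fin n) κ) ∉ J) :
    ∃ w : Derivation K (LR (bI (algebraMap κ K) J) {l}) (LR (bI (algebraMap κ K) J) {l}),
      w (mkL (bI (algebraMap κ K) J) {l} (frm a)) = 1 ∧
      ∀ k, w (lx (bI (algebraMap κ K) J) {l} k) * lx (bI (algebraMap κ K) J) {l} l ^ (e - 1) ∈
        chart (bI (algebraMap κ K) J) {l} := by
  obtain ⟨D, hF, hD⟩ := exists_fra hJ he hl
  obtain ⟨E, -, hE⟩ := exists_eulL (l := l) (e := e) hJ.homog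
  have hdom : IsDomain (LR J {l}) := LR_domain hJ.prime hl
  have he0 : (e : κ) ≠ 0 := Nat.cast_ne_zero.2 (by omega)
  have hne := pb_ne hF he0 hE (bl_ne (e := e) hJ.prime hl)
  obtain ⟨r, hr, hr0⟩ := Submodule.exists_mem_ne_zero_of_ne_bot hne
  obtain ⟨p, hp⟩ := chart_proj (l := l) hJ.homog
  choose D' hD' using fun g => exists_extK (K := K) (D g)
  have hra : aeval a r ≠ 0 := fun h => hr0 (ha.eq_zero_of_aeval_eq_zero _ h)
  have key := gk_abs (A0 := chart J {l}) (A0' := chart (bI (algebraMap κ K) J) {l}) (D_chart hD) p (hp 1)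
    (mem_PbC.1 hr) a hra (lK J K l) (fun s => lmap_base _ _ _ s)
    (fun c hc => (cmap (algebraMap κ K) (bI_mem (algebraMap κ K) J) (Finset.Subset.refl {l}) ⟨c, hc⟩).2) D' hD'
  obtain ⟨w, h1, h2⟩ := key
  refine ⟨w, (congrArg w GK_frm).trans h1, fun k => ?_⟩
  have h3 := h2 (lx J {l} k) (lx J {l} l ^ (e - 1)) (fun g => hD g k)
  rw [map_pow] at h3
  have h4 : lx (bI (algebraMap κ K) J) {l} k = lK J K l (lx J {l} k) := (lmap_lx _ _ _ k).symm
  have h5 : lx (bI (algebraMap κ K) J) {l} l = lK J K l (lx J {l} l) := (lmap_lx _ _ _ l).symm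
  rw [h4, h5]
  exact h3

end MPadcDC
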