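import Mathlib

/-!
# GKum: the polynomial `X^e - a` over a field with the roots of unity

JOB GKum.
* `irr_of_not_pow`: let `g` be a monic irreducible factor of `X^e - a` of degree `d`, `0 < d < e`, `α` a root of `g` in the algebraic closure `Ω` (`α ≠ 0`, as
  `a = 0` would be a power if `e > 1`). All roots of `X^e - a` in `Ω` are `ζ^i α`, so the constant term of `g` is `± ζ^k α^d`: `α^d ∈ L`.
  With `α^e = a ∈ L`: `α^(gcd d e) ∈ L` (Bezout, `Int.gcd_eq_gcd_ab`, `α` a unit). `d' = gcd d e < e`; a prime `ℓ ∣ e / d'`; `a = (α^(e/ℓ))^ℓ` and `d' ∣ e/ℓ`,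
  so `α^(e/ℓ) ∈ L`: contradiction.
-/

set_option autoImplicit false

namespace MPadcDC

universe u

open Polynomial in
private theorem GKum_prod {L Ω : Type u} [Field L] [Field Ω] [Algebra L Ω] {e : ℕ} {ζ : L}
    (hζ : IsPrimitiveRoot ζ e) (he : 1 ≤ e) {α : Ω} (hα : α ≠ 0) (s : Multiset Ω) (hs : ∀ r ∈ s, r ^ e = α ^ e) :
    ∃ k : ℕ, s.prod = algebraMap L Ω (ζ ^ k) * α ^ (Multiset.card s) := by
  induction s using Multiset.induction_on with
  | empty => exact ⟨0, by simp⟩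
  | cons r s ih =>
    obtain ⟨k, hk⟩ := ih fun r' hr' => hs r' (Multiset.mem_cons_of_mem hr')
    have hr : r ^ e = α ^ e := hs r (Multiset.mem_cons_self r s)
    have hζ' : IsPrimitiveRoot (algebraMap L Ω ζ) e := hζ.map_of_injective (algebraMap L Ω).injective
    have h1 : (r / α) ^ e = 1 := by rw [div_pow, hr, div_self (pow_ne_zero _ hα)]
    have : NeZero e := ⟨by omega⟩
    obtain ⟨i, -, hi⟩ := hζ'.eq_pow_of_pow_eq_one h1
    refine ⟨i + k, ?_⟩
    have hr' : r = algebraMap L Ω ζ ^ i * α := by rw [hi, div_mul_cancel₀ _ hα]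
    rw [Multiset.prod_cons, hk, Multiset.card_cons, pow_succ, pow_add, map_mul, map_pow, map_pow, hr']
    ring

private theorem GKum_gcd {L Ω : Type u} [Field L] [Field Ω] [Algebra L Ω] {α : Ω} (hα : α ≠ 0) {d e : ℕ}
    (hd : ∃ b : L, algebraMap L Ω b = α ^ d) (he : ∃ b : L, algebraMap L Ω b = α ^ e) :
    ∃ b : L, algebraMap L Ω b = α ^ (Nat.gcd d e) := by
  obtain ⟨b, hb⟩ := hd
  obtain ⟨c, hc⟩ := he
  refine ⟨b ^ (Nat.gcdA d e) * c ^ (Nat.gcdB d e), ?_⟩
  rw [map_mul, map_zpow₀, map_zpow₀, hb, hc, ← zpow_natCast α d, ← zpow_natCast α e, ← zpow_mul, ← zpow_mul,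
    ← zpow_add₀ hα, ← Nat.gcd_eq_gcd_ab, zpow_natCast]

open Polynomial in
theorem irr_of_not_pow {L : Type u} [Field L] {e : ℕ} (he : 1 ≤ e) {ζ : L} (hζ : IsPrimitiveRoot ζ e) {a : L}
    (ha : ∀ ℓ : ℕ, ℓ.Prime → ℓ ∣ e → ∀ b : L, b ^ ℓ ≠ a) : Irreducible (Polynomial.X ^ e - Polynomial.C a : Polynomial L) := by
  have he0 : e ≠ 0 := by omega
  rcases eq_or_ne a 0 with h0 | h0
  · rcases eq_or_ne e 1 with h1 | h1
    · subst h1
      rw [pow_one]
      exact irreducible_X_sub_C a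
    · obtain ⟨ℓ, hℓ, hℓe⟩ := Nat.exists_prime_and_dvd h1
      exact absurd (by rw [h0, zero_pow hℓ.ne_zero]) (ha ℓ hℓ hℓe 0)
  have hmon : (X ^ e - C a : L[X]).Monic := monic_X_pow_sub_C a he0
  have hdeg : (X ^ e - C a : L[X]).natDegree = e := natDegree_X_pow_sub_C
  obtain ⟨α, hα⟩ := IsAlgClosed.exists_pow_nat_eq (algebraMap L (AlgebraicClosure L) a) (n := e) (by omega)
  have hα0 : α ≠ 0 := by
    rintro rfl
    rw [zero_pow he0] at hα
    exact h0 ((algebraMap L (AlgebraicClosure L)).injective (by rw [← hα, map_zero]))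
  have haev : aeval α (X ^ e - C a : L[X]) = 0 := by
    rw [map_sub, map_pow, aeval_X, aeval_C, hα, sub_self]
  have hint : IsIntegral L α := ⟨X ^ e - C a, hmon, by rw [← aeval_def]; exact haev⟩
  have hdvd : minpoly L α ∣ (X ^ e - C a : L[X]) := minpoly.dvd L α haev
  have hle : (minpoly L α).natDegree ≤ e := by
    rw [← hdeg]; exact natDegree_le_of_dvd hdvd hmon.ne_zero
  have hpos : 0 < (minpoly L α).natDegree := minpoly.natDegree_pos hint
  have hsp : ((minpoly L α).map (algebraMap L (AlgebraicClosure L))).Splits := IsAlgClosed.splits _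
  have hmm : ((minpoly L α).map (algebraMap L (AlgebraicClosure L))).Monic := (minpoly.monic hint).map _
  rcases eq_or_lt_of_le hle with heq | hlt
  · have : (X ^ e - C a : L[X]) = minpoly L α := by
      refine (eq_of_monic_of_dvd_of_natDegree_le (minpoly.monic hint) hmon hdvd ?_)
      rw [hdeg, heq]
    rw [this]
    exact minpoly.irreducible hint
  exfalso
  set d := (minpoly L α).natDegree with hd
  have hroots : ∀ r ∈ ((minpoly L α).map (algebraMap L (AlgebraicClosure L))).roots, r ^ e = α ^ e := by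
    intro r hr
    have h1 : aeval r (minpoly L α) = 0 := by
      have := isRoot_of_mem_roots hr
      rw [IsRoot.def, eval_map] at this
      exact this
    have h2 : aeval r (X ^ e - C a : L[X]) = 0 := by
      obtain ⟨q, hq⟩ := hdvd
      rw [hq, map_mul, h1, zero_mul]
    rw [map_sub, map_pow, aeval_X, aeval_C, sub_eq_zero] at h2
    rw [h2, hα]
  obtain ⟨k, hk⟩ := GKum_prod hζ he hα0 _ hroots
  have hcard : Multiset.card ((minpoly L α).map (algebraMap L (AlgebraicClosure L))).roots = d := by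
    rw [splits_iff_card_roots.mp hsp, natDegree_map]
  have hcoeff : algebraMap L (AlgebraicClosure L) ((minpoly L α).coeff 0) =
      (-1) ^ d * (algebraMap L (AlgebraicClosure L) (ζ ^ k) * α ^ d) := by
    have h3 := hsp.coeff_zero_eq_prod_roots_of_monic hmm
    rw [coeff_map, natDegree_map, hk, hcard] at h3
    exact h3
  have hαd : ∃ b : L, algebraMap L (AlgebraicClosure L) b = α ^ d := by
    have hζ0 : ζ ≠ 0 := hζ.ne_zero he0
    refine ⟨(-1) ^ d * (ζ ^ k)⁻¹ * (minpoly L α).coeff 0, ?_⟩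
    have hz : algebraMap L (AlgebraicClosure L) (ζ ^ k) ≠ 0 := by
      rw [Ne, map_eq_zero]
      exact pow_ne_zero _ hζ0
    rw [map_mul, map_mul, hcoeff, map_pow, map_neg, map_one, map_inv₀]
    have h4 : ((-1 : AlgebraicClosure L) ^ d) * (-1) ^ d = 1 := by
      rw [← mul_pow]; simp
    calc (-1 : AlgebraicClosure L) ^ d * (algebraMap L (AlgebraicClosure L) (ζ ^ k))⁻¹ *
          ((-1) ^ d * (algebraMap L (AlgebraicClosure L) (ζ ^ k) * α ^ d))
        = ((-1 : AlgebraicClosure L) ^ d * (-1) ^ d) *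
          ((algebraMap L (AlgebraicClosure L) (ζ ^ k))⁻¹ * algebraMap L (AlgebraicClosure L) (ζ ^ k)) * α ^ d := by ring
      _ = α ^ d := by rw [h4, inv_mul_cancel₀ hz, one_mul, one_mul]
  obtain ⟨c, hc⟩ := GKum_gcd hα0 hαd ⟨a, hα.symm⟩
  have hg0 : 0 < Nat.gcd d e := Nat.gcd_pos_of_pos_left _ hpos
  obtain ⟨t, ht⟩ := Nat.gcd_dvd_right d e
  have ht1 : t ≠ 1 := by
    rintro rfl
    have h5 : Nat.gcd d e ≤ d := Nat.gcd_le_left _ hpos
    omega
  obtain ⟨ℓ, hℓ, s, hs⟩ := Nat.exists_prime_and_dvd ht1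
  refine ha ℓ hℓ ⟨Nat.gcd d e * s, by rw [mul_left_comm, ← hs]; exact ht⟩ (c ^ s) ?_
  apply (algebraMap L (AlgebraicClosure L)).injective
  rw [map_pow, map_pow, hc, ← hα, ← pow_mul, ← pow_mul]
  have h6 : Nat.gcd d e * (s * ℓ) = e := by rw [mul_comm s ℓ, ← hs]; exact ht.symm
  rw [h6]

end MPadcDC
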