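import Pool.Agent.Lib.MP_adc574_ag_DC.GGrR

/-!
# GLoc: localization of the forms over `κ[a]`

JOB GLoc. From `mp_surj`, `mp_ker` (GP/FmLoc) by linearity: `κ[a]` is free over `κ`, write an element of
`κ[a] ⊗ Fm` as `∑ (monomial s 1) ⊗ w_s` with finitely many `w_s` (unique), and choose a common `m ∈ M` (product).
-/

set_option autoImplicit false

namespace MPadcDC

open MvPolynomial TensorProduct MPadcGP

universe u v

section gen

variable {κ : Type u} [Field κ] {Γ : Type} [Fintype Γ] {C : Type u} [CommRing C] [Algebra κ C]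
  {C' : Type u} [CommRing C'] [Algebra κ C'] [Algebra C C'] [IsScalarTower κ C C'] (M : Submonoid C) [IsLocalization M C']

theorem loG_surj {q : ℕ} {w : FG κ Γ C'} (hw : w ∈ FdG κ Γ q) :
    ∃ m ∈ M, ∃ w0 ∈ FdG κ Γ (C := C) q,
      ((1 : MvPolynomial Γ κ) ⊗ₜ[κ] fz κ (algebraMap C C' m) : FG κ Γ C') * w =
        loG Γ (IsScalarTower.toAlgHom κ C C') w0 := by
  refine FdG_ind (P := fun w => ∃ m ∈ M, ∃ w0 ∈ FdG κ Γ (C := C) q,
      ((1 : MvPolynomial Γ κ) ⊗ₜ[κ] fz κ (algebraMap C C' m) : FG κ Γ C') * w =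
        loG Γ (IsScalarTower.toAlgHom κ C C') w0) ?_ ?_ ?_ hw
  · exact ⟨1, M.one_mem, 0, Submodule.zero_mem _, by rw [mul_zero, map_zero]⟩
  · intro r c t
    obtain ⟨m, hm, e0, he0, h1⟩ := mp_surj (A := κ) (R := C) (S := C') M
      (CC.of_algHom (IsScalarTower.toAlgHom κ C C')) (fz_mul_mem c (wd_mem t) : fz κ c * wd κ t ∈ Fd κ C' q)
    refine ⟨m, hm, r ⊗ₜ[κ] e0, tmul_FdG r he0, ?_⟩
    rw [Algebra.TensorProduct.tmul_mul_tmul, one_mul, loG_tmul]
    exact congrArg (fun z => r ⊗ₜ[κ] z) h1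
  · rintro a b ⟨m, hm, a0, ha0, h1⟩ ⟨m', hm', b0, hb0, h2⟩
    refine ⟨m * m', M.mul_mem hm hm', ((1 : MvPolynomial Γ κ) ⊗ₜ[κ] fz κ m') * a0 +
      ((1 : MvPolynomial Γ κ) ⊗ₜ[κ] fz κ m) * b0, Submodule.add_mem _ ?_ ?_, ?_⟩
    · have h3 := FdG_mul (q := 0) (tmul_FdG (Γ := Γ) (1 : MvPolynomial Γ κ) (fz_mem (A := κ) m')) ha0
      rw [zero_add] at h3
      exact h3
    · have h3 := FdG_mul (q := 0) (tmul_FdG (Γ := Γ) (1 : MvPolynomial Γ κ) (fz_mem (A := κ) m)) hb0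
      rw [zero_add] at h3
      exact h3
    · have h4 : ∀ x : C, loG Γ (IsScalarTower.toAlgHom κ C C') ((1 : MvPolynomial Γ κ) ⊗ₜ[κ] fz κ x) =
          (1 : MvPolynomial Γ κ) ⊗ₜ[κ] fz κ (algebraMap C C' x) := by
        intro x
        rw [loG_tmul]
        exact congrArg (fun z => (1 : MvPolynomial Γ κ) ⊗ₜ[κ] z) (mp_fz _ x)
      have h5 : ∀ x y : C, ((1 : MvPolynomial Γ κ) ⊗ₜ[κ] fz κ (algebraMap C C' (x * y)) : FG κ Γ C') =
          ((1 : MvPolynomial Γ κ) ⊗ₜ[κ] fz κ (algebraMap C C' x)) *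
          ((1 : MvPolynomial Γ κ) ⊗ₜ[κ] fz κ (algebraMap C C' y)) := by
        intro x y
        rw [Algebra.TensorProduct.tmul_mul_tmul, one_mul, map_mul, map_mul]
      rw [map_add, map_mul (loG Γ (IsScalarTower.toAlgHom κ C C')), map_mul (loG Γ (IsScalarTower.toAlgHom κ C C')),
        h4, h4, ← h1, ← h2, mul_add, ← mul_assoc, ← mul_assoc, ← h5, ← h5, mul_comm m' m]

theorem loG_ker {w : FG κ Γ C} (hw : loG Γ (IsScalarTower.toAlgHom κ C C') w = 0) :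
    ∃ m ∈ M, ((1 : MvPolynomial Γ κ) ⊗ₜ[κ] fz κ m : FG κ Γ C) * w = 0 := by
  classical
  obtain ⟨c, rfl⟩ := TensorProduct.eq_repr_basis_left (MvPolynomial.basisMonomials Γ κ) w
  have h1 : ∀ s, mp ((IsScalarTower.toAlgHom κ C C' : C →ₐ[κ] C') : C →+* C')
      (CC.of_algHom (IsScalarTower.toAlgHom κ C C')) (c s) = 0 := by
    have h2 : (c.mapRange (fun z => mpA (IsScalarTower.toAlgHom κ C C') z) (map_zero _)) = 0 := by
      refine TensorProduct.sum_tmul_basis_left_eq_zero (MvPolynomial.basisMonomials Γ κ) _ ?_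
      rw [Finsupp.sum_mapRange_index (fun a => TensorProduct.tmul_zero _ _), ← hw, Finsupp.sum, Finsupp.sum, map_sum]
      refine Finset.sum_congr rfl fun s _ => ?_
      rfl
    intro s
    exact DFunLike.congr_fun h2 s
  have h3 : ∀ s, ∃ m ∈ M, fz κ m * c s = 0 := fun s =>
    mp_ker (A := κ) (R := C) (S := C') M (CC.of_algHom (IsScalarTower.toAlgHom κ C C')) (h1 s)
  choose m hm h4 using h3
  refine ⟨∏ s ∈ c.support, m s, Submonoid.prod_mem M fun s _ => hm s, ?_⟩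
  rw [Finsupp.sum, Finset.mul_sum]
  refine Finset.sum_eq_zero fun s hs => ?_
  rw [Algebra.TensorProduct.tmul_mul_tmul, one_mul, ← Finset.mul_prod_erase _ _ hs, mul_comm, map_mul, mul_assoc,
    h4, mul_zero, TensorProduct.tmul_zero]

end gen

end MPadcDC
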