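import Pool.Agent.Lib.MP_adc574_ag_DC.GKosA

/-!
# GLop: the operator `Lop` has the eigenvalues `0, 1, 2, ...`

JOB GLop. `Lop (tz t * (1 ⊗ w)) = tz (L0 t) * (1 ⊗ w)`, `L0` the derivation of
`κ[a] ⊗ C` over `C` with `L0 a_g = u_g := ∑_h D_g(b_h) a_h`. The matrix `(D_g(b_h))` is idempotent (`Fra.idem`), so `L0 u_g = u_g`,
`L0 (a_g - u_g) = 0`. By induction on the polynomial: if `∏_{i<N} (L - i)` kills `f` then `∏_{i<N+1} (L - i)` kills
`u_g f` (as `(L - i)(u_g f) = u_g (L - (i - 1)) f`) and `(a_g - u_g) f`, hence `a_g f`. For sums take the larger `N`.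
-/

set_option autoImplicit false

namespace MPadcDC

open MvPolynomial TensorProduct MPadcGP

universe u v

variable {κ : Type u} [Field κ] [CharZero κ] {Γ : Type} [Fintype Γ] {C : Type u} [CommRing C] [Algebra κ C]
  {b : Γ → C} {D : Γ → Derivation κ C C} {m : ℕ}

private theorem GLop_inter {k V W : Type*} [Field k] [AddCommGroup V] [Module k V] [AddCommGroup W] [Module k W]
    (f : V →ₗ[k] W) (T : Module.End k W) (T' : Module.End k V) (h : ∀ v, T (f v) = f (T' v)) (p : Polynomial k) (v : V) :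
    Polynomial.aeval T p (f v) = f (Polynomial.aeval T' p v) := by
  induction p using Polynomial.induction_on' with
  | add p q hp hq => rw [map_add, map_add, LinearMap.add_apply, LinearMap.add_apply, map_add, hp, hq]
  | monomial n a =>
    have h1 : ∀ n : ℕ, ∀ v, (T ^ n) (f v) = f ((T' ^ n) v) := by
      intro n
      induction n with
      | zero => intro v; simp
      | succ n ih =>
        intro v
        rw [pow_succ, pow_succ, Module.End.mul_apply, Module.End.mul_apply, h, ih]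
    rw [Polynomial.aeval_monomial, Polynomial.aeval_monomial, Module.End.mul_apply, Module.End.mul_apply,
      Module.algebraMap_end_apply, Module.algebraMap_end_apply, h1, map_smul]

/-- the product of the `X - i`, `i < N` -/
private noncomputable def GLop_P (k : Type*) [Field k] (N : ℕ) : Polynomial k :=
  ∏ i ∈ Finset.range N, (Polynomial.X - Polynomial.C (i : k))

private theorem GLop_mono {k V : Type*} [Field k] [AddCommGroup V] [Module k V] (T : Module.End k V) {N M : ℕ}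
    (h : N ≤ M) {v : V} (hv : Polynomial.aeval T (GLop_P k N) v = 0) : Polynomial.aeval T (GLop_P k M) v = 0 := by
  obtain ⟨q, hq⟩ : GLop_P k N ∣ GLop_P k M :=
    Finset.prod_dvd_prod_of_subset _ _ _ (Finset.range_mono h)
  rw [hq, mul_comm, map_mul, Module.End.mul_apply, hv, map_zero]

private theorem GLop_comp (k : Type*) [Field k] (N : ℕ) :
    (GLop_P k (N + 1)).comp (Polynomial.X + 1) = (Polynomial.X + 1) * GLop_P k N := by
  rw [GLop_P, Finset.prod_range_succ', Polynomial.mul_comp, Polynomial.prod_comp]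
  rw [GLop_P]
  have h1 : ∀ i ∈ Finset.range N, ((Polynomial.X : Polynomial k) - Polynomial.C ((i + 1 : ℕ) : k)).comp (Polynomial.X + 1) =
      Polynomial.X - Polynomial.C (i : k) := by
    intro i _
    rw [Polynomial.sub_comp, Polynomial.X_comp, Polynomial.C_comp, Nat.cast_add, Nat.cast_one, map_add, Polynomial.C_1]
    ring
  rw [Finset.prod_congr rfl h1]
  simp [mul_comm]

private theorem GLop_shift {k V : Type*} [Field k] [AddCommGroup V] [Module k V] (T : Module.End k V) (p : Polynomial k) :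
    Polynomial.aeval (T + 1) p = Polynomial.aeval T (p.comp (Polynomial.X + 1)) := by
  rw [Polynomial.aeval_comp]
  simp

private theorem GLop_cen (r : MvPolynomial Γ κ) (c : C) (w : FG κ Γ C) :
    (r ⊗ₜ[κ] fz κ c : FG κ Γ C) * w = w * (r ⊗ₜ[κ] fz κ c : FG κ Γ C) := by
  induction w using TensorProduct.induction_on with
  | zero => rw [mul_zero, zero_mul]
  | tmul x y => rw [Algebra.TensorProduct.tmul_mul_tmul, Algebra.TensorProduct.tmul_mul_tmul, fz_comm, mul_comm]
  | add x y hx hy => rw [mul_add, add_mul, hx, hy]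

private theorem GLop_apply (w : FG κ Γ C) :
    Lop b D w = ∑ g, ∑ h, ((X h : MvPolynomial Γ κ) ⊗ₜ[κ] fz κ (D g (b h)) : FG κ Γ C) * dX g w := by
  unfold Lop
  rw [LinearMap.sum_apply]
  refine Finset.sum_congr rfl fun g _ => ?_
  rw [LinearMap.sum_apply]
  rfl

/-- the product rule -/
private theorem GLop_mul (g : Γ) (c : C) (w : FG κ Γ C) :
    Lop b D (((X g : MvPolynomial Γ κ) ⊗ₜ[κ] fz κ c : FG κ Γ C) * w) =
      (∑ h, ((X h : MvPolynomial Γ κ) ⊗ₜ[κ] fz κ (c * D g (b h)) : FG κ Γ C)) * w +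
      ((X g : MvPolynomial Γ κ) ⊗ₜ[κ] fz κ c : FG κ Γ C) * Lop b D w := by
  classical
  rw [GLop_apply, GLop_apply]
  have h1 : ∀ g' h : Γ, ((X h : MvPolynomial Γ κ) ⊗ₜ[κ] fz κ (D g' (b h)) : FG κ Γ C) *
      dX g' (((X g : MvPolynomial Γ κ) ⊗ₜ[κ] fz κ c : FG κ Γ C) * w) =
      (if g' = g then ((X h : MvPolynomial Γ κ) ⊗ₜ[κ] fz κ (c * D g (b h)) : FG κ Γ C) * w else 0) +
      ((X g : MvPolynomial Γ κ) ⊗ₜ[κ] fz κ c : FG κ Γ C) *
        (((X h : MvPolynomial Γ κ) ⊗ₜ[κ] fz κ (D g' (b h)) : FG κ Γ C) * dX g' w) := by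
    intro g' h
    rw [dX_tz_mul, mul_add]
    congr 1
    · by_cases hg : g' = g
      · subst hg
        rw [if_pos rfl, pderiv_X_self, ← mul_assoc, Algebra.TensorProduct.tmul_mul_tmul, mul_one, ← map_mul, mul_comm c]
      · rw [if_neg hg, pderiv_X_of_ne (fun h => hg h.symm), TensorProduct.zero_tmul, zero_mul, mul_zero]
    · rw [← mul_assoc, ← mul_assoc, GLop_cen (X h)]
  have h2 : ∑ g', ∑ h, ((X h : MvPolynomial Γ κ) ⊗ₜ[κ] fz κ (D g' (b h)) : FG κ Γ C) *
      dX g' (((X g : MvPolynomial Γ κ) ⊗ₜ[κ] fz κ c : FG κ Γ C) * w) =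
      ∑ g', ∑ h, ((if g' = g then ((X h : MvPolynomial Γ κ) ⊗ₜ[κ] fz κ (c * D g (b h)) : FG κ Γ C) * w else 0) +
      ((X g : MvPolynomial Γ κ) ⊗ₜ[κ] fz κ c : FG κ Γ C) *
        (((X h : MvPolynomial Γ κ) ⊗ₜ[κ] fz κ (D g' (b h)) : FG κ Γ C) * dX g' w)) :=
    Finset.sum_congr rfl fun g' _ => Finset.sum_congr rfl fun h _ => h1 g' h
  rw [h2]
  simp_rw [Finset.sum_add_distrib]
  congr 1
  · rw [Finset.sum_comm, Finset.sum_mul]
    refine Finset.sum_congr rfl fun h _ => ?_
    rw [Finset.sum_ite_eq' Finset.univ g, if_pos (Finset.mem_univ g)]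
  · rw [Finset.mul_sum]
    refine Finset.sum_congr rfl fun g' _ => ?_
    rw [Finset.mul_sum]

/-- the eigenvector `u_g` -/
private noncomputable def GLop_u (b : Γ → C) (D : Γ → Derivation κ C C) (g : Γ) : FG κ Γ C :=
  ∑ h, ((X h : MvPolynomial Γ κ) ⊗ₜ[κ] fz κ (D g (b h)) : FG κ Γ C)

private theorem GLop_a (g : Γ) (w : FG κ Γ C) :
    Lop b D (((X g : MvPolynomial Γ κ) ⊗ₜ[κ] fz κ 1 : FG κ Γ C) * w) =
      GLop_u b D g * w + ((X g : MvPolynomial Γ κ) ⊗ₜ[κ] fz κ 1 : FG κ Γ C) * Lop b D w := by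
  rw [GLop_mul]
  simp_rw [one_mul]
  rfl

private theorem GLop_uu (hF : Fra κ b D m) (g : Γ) (w : FG κ Γ C) :
    Lop b D (GLop_u b D g * w) = GLop_u b D g * w + GLop_u b D g * Lop b D w := by
  have h1 : GLop_u b D g * w = ∑ h, ((X h : MvPolynomial Γ κ) ⊗ₜ[κ] fz κ (D g (b h)) : FG κ Γ C) * w := by
    rw [GLop_u, Finset.sum_mul]
  rw [h1, map_sum]
  simp_rw [GLop_mul]
  rw [Finset.sum_add_distrib]
  congr 1
  · rw [← Finset.sum_mul, ← Finset.sum_mul, Finset.sum_comm]
    congr 1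
    refine Finset.sum_congr rfl fun h _ => ?_
    rw [← TensorProduct.tmul_sum, ← map_sum, hF.idem]
  · rw [GLop_u, Finset.sum_mul]

theorem Lop_ann (hF : Fra κ b D m) (w : FG κ Γ C) :
    ∃ N : ℕ, (Polynomial.aeval (Lop b D : Module.End κ (FG κ Γ C))
      (∏ i ∈ Finset.range N, (Polynomial.X - Polynomial.C (i : κ)))) w = 0 := by
  change ∃ N : ℕ, (Polynomial.aeval (Lop b D : Module.End κ (FG κ Γ C)) (GLop_P κ N)) w = 0
  set T : Module.End κ (FG κ Γ C) := Lop b D with hT
  have step : ∀ (g : Γ) (w : FG κ Γ C) (N : ℕ), Polynomial.aeval T (GLop_P κ N) w = 0 →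
      Polynomial.aeval T (GLop_P κ (N + 1)) (((X g : MvPolynomial Γ κ) ⊗ₜ[κ] fz κ 1 : FG κ Γ C) * w) = 0 := by
    intro g w N hw
    have e : ((X g : MvPolynomial Γ κ) ⊗ₜ[κ] fz κ 1 : FG κ Γ C) * w = GLop_u b D g * w +
        (((X g : MvPolynomial Γ κ) ⊗ₜ[κ] fz κ 1 : FG κ Γ C) - GLop_u b D g) * w := by
      rw [← add_mul, add_sub_cancel]
    have e1 : Polynomial.aeval T (GLop_P κ (N + 1)) (GLop_u b D g * w) = 0 := by
      have h1 := GLop_inter (LinearMap.mulLeft κ (GLop_u b D g)) T (T + 1) (fun v => by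
        rw [LinearMap.mulLeft_apply, LinearMap.mulLeft_apply, hT, GLop_uu hF, LinearMap.add_apply, mul_add, add_comm]
        rfl) (GLop_P κ (N + 1)) w
      rw [LinearMap.mulLeft_apply, LinearMap.mulLeft_apply] at h1
      rw [h1, GLop_shift, GLop_comp, map_mul, Module.End.mul_apply, hw, map_zero, mul_zero]
    have e2 : Polynomial.aeval T (GLop_P κ (N + 1))
        ((((X g : MvPolynomial Γ κ) ⊗ₜ[κ] fz κ 1 : FG κ Γ C) - GLop_u b D g) * w) = 0 := by
      have h1 := GLop_inter (LinearMap.mulLeft κ (((X g : MvPolynomial Γ κ) ⊗ₜ[κ] fz κ 1 : FG κ Γ C) - GLop_u b D g))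
        T T (fun v => by
        rw [LinearMap.mulLeft_apply, LinearMap.mulLeft_apply, hT, sub_mul, map_sub, GLop_a, GLop_uu hF, sub_mul]
        abel) (GLop_P κ (N + 1)) w
      rw [LinearMap.mulLeft_apply, LinearMap.mulLeft_apply] at h1
      rw [h1, GLop_mono T (Nat.le_succ N) hw, mul_zero]
    rw [e, map_add, e1, e2, add_zero]
  induction w using TensorProduct.induction_on with
  | zero => exact ⟨0, map_zero _⟩
  | add x y hx hy =>
    obtain ⟨N, hN⟩ := hx
    obtain ⟨M, hM⟩ := hy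
    refine ⟨max N M, ?_⟩
    rw [map_add, GLop_mono T (le_max_left N M) hN, GLop_mono T (le_max_right N M) hM, add_zero]
  | tmul r w =>
    induction r using MvPolynomial.induction_on with
    | C a =>
      refine ⟨1, ?_⟩
      have h1 : GLop_P κ 1 = Polynomial.X := by simp [GLop_P]
      rw [h1, Polynomial.aeval_X, hT, GLop_apply]
      refine Finset.sum_eq_zero fun g _ => Finset.sum_eq_zero fun h _ => ?_
      have h2 : dX g ((MvPolynomial.C a : MvPolynomial Γ κ) ⊗ₜ[κ] w : FG κ Γ _) = 0 := by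
        rw [dX, LinearMap.rTensor_tmul]
        change (pderiv g (MvPolynomial.C a) : MvPolynomial Γ κ) ⊗ₜ[κ] w = 0
        rw [pderiv_C, TensorProduct.zero_tmul]
      rw [h2, mul_zero]
    | add p q hp hq =>
      obtain ⟨N, hN⟩ := hp
      obtain ⟨M, hM⟩ := hq
      refine ⟨max N M, ?_⟩
      rw [TensorProduct.add_tmul, map_add, GLop_mono T (le_max_left N M) hN, GLop_mono T (le_max_right N M) hM,
        add_zero]
    | mul_X p g hp =>
      obtain ⟨N, hN⟩ := hp
      refine ⟨N + 1, ?_⟩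
      have h1 := step g _ N hN
      rwa [Algebra.TensorProduct.tmul_mul_tmul, map_one, one_mul, mul_comm] at h1

end MPadcDC
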