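import Pool.Agent.Lib.MP_adc574_ag_DC.GExt

/-!
# GLs: `S[1/x_l]` is smooth

JOB GLs. `LR_smooth`: `exists_laurent`; the Laurent polynomials over the smooth algebra `chart J {l}` are a localization of the polynomial ring, so
smooth (`Algebra.Smooth.comp`, `LaurentPolynomial` `IsLocalization`).

-/

set_option autoImplicit false

namespace MPadcDC

open MvPolynomial TensorProduct MPadcGP

universe u v

theorem LR_smooth {κ : Type u} [Field κ] {n : ℕ} {J : Ideal (MvPolynomial (Fin n) κ)} (hJ : IsHomog J)
    (hs : IsSmoothProj J) (l : Fin n) : Algebra.Smooth κ (LR J {l}) := by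
  obtain ⟨Φ, -⟩ := exists_laurent (l := l) hJ
  have h1 : Algebra.Smooth κ (chart J {l}) := hs l
  have h2 : Algebra.Smooth (chart J {l}) (Polynomial (chart J {l})) :=
    { formallySmooth := inferInstance, finitePresentation := inferInstance }
  have h3 : Algebra.Smooth (Polynomial (chart J {l})) (LaurentPolynomial (chart J {l})) :=
    Algebra.Smooth.of_isLocalization_Away (Polynomial.X : Polynomial (chart J {l}))
  have h4 : IsScalarTower (chart J {l}) (Polynomial (chart J {l})) (LaurentPolynomial (chart J {l})) :=
    IsScalarTower.of_algebraMap_eq fun a => (Polynomial.toLaurent_C a).symm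
  have h5 : Algebra.Smooth (chart J {l}) (LaurentPolynomial (chart J {l})) :=
    Algebra.Smooth.comp (chart J {l}) (Polynomial (chart J {l})) (LaurentPolynomial (chart J {l}))
  have h6 : Algebra.Smooth (chart J {l}) (LR J {l}) := Algebra.Smooth.of_equiv
    (A := LaurentPolynomial (chart J {l})) (B := LR J {l}) Φ
  exact Algebra.Smooth.comp κ (chart J {l}) (LR J {l})

end MPadcDC
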