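import Pool.Agent.Lib.MP_adc574_ag_DC.GDefs

/-!
# GMk: the homomorphism to the localization
-/

set_option autoImplicit false

namespace MPadcDC

open MvPolynomial TensorProduct MPadcGP

universe u v

variable {n : ℕ}

/-- The class of a polynomial in `S[1/∏ x_j]`. -/
noncomputable def mkL {A : Type u} [CommRing A] (I : Ideal (MvPolynomial (Fin n) A)) (C : Finset (Fin n))
    (f : MvPolynomial (Fin n) A) : LR I C := algebraMap (CR I) (LR I C) (Ideal.Quotient.mk I f)

end MPadcDC
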