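import Mathlib

/-!
# GNU: the generic linear combination is not a unit

`A` a domain over `κ`, `y : Γ → A`, `y g0 = 1`, `δ` a derivation of `A` over `κ` with `δ(y g) ≠ 0` for some `g`; `a : Γ → K` algebraically
independent over `κ`.
JOB GNU.
* `sub_inj`: `φ : κ[a] ⊗ A → κ[a] ⊗ A` the homomorphism of `A`-algebras with `a_g ↦ a_g` (`g ≠ g0`), `a_{g0} ↦ -s`, `s = ∑_{g ≠ g0} a_g ⊗ y_g`. If
  `φ(r ⊗ 1) = 0` then `r = 0`: induction on the degree of `r` in `a_{g0}`. `δ' = 1 ⊗ δ`: `0 = δ'(φ(r ⊗ 1)) = - φ(∂_{g0} r ⊗ 1) δ'(s)` (both sides are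
  derivations in `r`), `δ'(s) = ∑ a_g ⊗ δ(y_g) ≠ 0`, and `κ[a] ⊗ A` is a domain. So `∂_{g0} r = 0`, so `a_{g0}` does not occur in `r`
  (characteristic `0`), and `φ(r ⊗ 1) = r ⊗ 1`.
-/

set_option autoImplicit false

namespace MPadcDC

open MvPolynomial TensorProduct

universe u

variable {κ A : Type u} [Field κ] [CharZero κ] [CommRing A] [IsDomain A] [Algebra κ A] {Γ : Type} [Fintype Γ] [DecidableEq Γ]
  {y : Γ → A} {g0 : Γ} {δ : Derivation κ A A}

variable (κ y g0) in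
/-- The substitution. -/
noncomputable def phiS : MvPolynomial Γ κ ⊗[κ] A →ₐ[κ] MvPolynomial Γ κ ⊗[κ] A :=
  Algebra.TensorProduct.lift
    (MvPolynomial.aeval fun g => if g = g0 then -∑ h ∈ Finset.univ.erase g0, (X h : MvPolynomial Γ κ) ⊗ₜ[κ] y h
      else (X g : MvPolynomial Γ κ) ⊗ₜ[κ] (1 : A))
    Algebra.TensorProduct.includeRight fun _ _ => Commute.all _ _

omit [CharZero κ] [Fintype Γ] [DecidableEq Γ] in
private theorem GNU_dom : IsDomain (MvPolynomial Γ κ ⊗[κ] A) :=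
  ((Algebra.TensorProduct.comm κ (MvPolynomial Γ κ) A).toRingEquiv.trans
    (MvPolynomial.algebraTensorAlgEquiv (σ := Γ) κ A).toRingEquiv).toMulEquiv.isDomain (MvPolynomial Γ A)

omit [CharZero κ] [IsDomain A] [Fintype Γ] [DecidableEq Γ] in
/-- The derivation of the coefficients. -/
private theorem GNU_der (δ : Derivation κ A A) :
    ∃ Δ : Derivation κ (MvPolynomial Γ κ ⊗[κ] A) (MvPolynomial Γ κ ⊗[κ] A),
      ∀ (r : MvPolynomial Γ κ) (a : A), Δ (r ⊗ₜ[κ] a) = r ⊗ₜ[κ] δ a := by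
  let Λ : MvPolynomial Γ κ ⊗[κ] A →ₗ[κ] MvPolynomial Γ κ ⊗[κ] A :=
    LinearMap.lTensor (MvPolynomial Γ κ) (δ : A →ₗ[κ] A)
  have hΛ : ∀ (r : MvPolynomial Γ κ) (a : A), Λ (r ⊗ₜ[κ] a) = r ⊗ₜ[κ] δ a := fun r a =>
    LinearMap.lTensor_tmul _ _ _ _
  refine ⟨Derivation.mk' Λ fun x z => ?_, fun r a => hΛ r a⟩
  rw [smul_eq_mul, smul_eq_mul]
  induction x using TensorProduct.induction_on with
  | zero => rw [zero_mul, map_zero, zero_mul, mul_zero, add_zero]
  | add x x' hx hx' =>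
    rw [add_mul, map_add, hx, hx', map_add, mul_add, add_mul]
    abel
  | tmul r a =>
    induction z using TensorProduct.induction_on with
    | zero => rw [mul_zero, map_zero, mul_zero, zero_mul, add_zero]
    | add z z' hz hz' =>
      rw [mul_add, map_add, hz, hz', map_add, mul_add, add_mul]
      abel
    | tmul r' a' =>
      rw [Algebra.TensorProduct.tmul_mul_tmul, hΛ, hΛ, hΛ, Algebra.TensorProduct.tmul_mul_tmul,
        Algebra.TensorProduct.tmul_mul_tmul, Derivation.leibniz, smul_eq_mul, smul_eq_mul, TensorProduct.tmul_add,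
        mul_comm r' r]

variable (κ y g0) in
/-- The element `s`. -/
private noncomputable def GNU_s : MvPolynomial Γ κ ⊗[κ] A :=
  ∑ h ∈ Finset.univ.erase g0, (X h : MvPolynomial Γ κ) ⊗ₜ[κ] y h

omit [CharZero κ] [IsDomain A] in
private theorem GNU_X (g : Γ) : phiS κ y g0 ((X g : MvPolynomial Γ κ) ⊗ₜ[κ] 1) =
    if g = g0 then -GNU_s κ y g0 else (X g : MvPolynomial Γ κ) ⊗ₜ[κ] (1 : A) := by
  unfold phiS
  rw [Algebra.TensorProduct.lift_tmul, aeval_X, map_one, mul_one]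
  rfl

omit [CharZero κ] [IsDomain A] in
private theorem GNU_mul (r t : MvPolynomial Γ κ) : phiS κ y g0 ((r * t) ⊗ₜ[κ] 1) =
    phiS κ y g0 (r ⊗ₜ[κ] 1) * phiS κ y g0 (t ⊗ₜ[κ] 1) := by
  rw [← map_mul, Algebra.TensorProduct.tmul_mul_tmul, mul_one]

omit [CharZero κ] [IsDomain A] in
private theorem GNU_C (a : κ) : phiS κ y g0 ((C a : MvPolynomial Γ κ) ⊗ₜ[κ] 1) =
    (C a : MvPolynomial Γ κ) ⊗ₜ[κ] (1 : A) := by
  have h1 : ((C a : MvPolynomial Γ κ) ⊗ₜ[κ] (1 : A)) = algebraMap κ (MvPolynomial Γ κ ⊗[κ] A) a := rfl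
  rw [h1]
  exact AlgHom.commutes _ _

omit [CharZero κ] [IsDomain A] in
/-- The derivative of the substitution. -/
private theorem GNU_key {Δ : Derivation κ (MvPolynomial Γ κ ⊗[κ] A) (MvPolynomial Γ κ ⊗[κ] A)}
    (hΔ : ∀ (r : MvPolynomial Γ κ) (a : A), Δ (r ⊗ₜ[κ] a) = r ⊗ₜ[κ] δ a) (r : MvPolynomial Γ κ) :
    Δ (phiS κ y g0 (r ⊗ₜ[κ] 1)) = -(phiS κ y g0 (pderiv g0 r ⊗ₜ[κ] 1) * Δ (GNU_s κ y g0)) := by
  induction r using MvPolynomial.induction_on with
  | C a =>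
    rw [GNU_C, hΔ, Derivation.map_one_eq_zero, TensorProduct.tmul_zero, pderiv_C, TensorProduct.zero_tmul, map_zero,
      zero_mul, neg_zero]
  | add p q hp hq =>
    rw [TensorProduct.add_tmul, map_add, map_add, hp, hq, map_add, TensorProduct.add_tmul, map_add, add_mul, neg_add]
  | mul_X p g hp =>
    rw [GNU_mul, Derivation.leibniz, smul_eq_mul, smul_eq_mul, hp, Derivation.leibniz, smul_eq_mul, smul_eq_mul,
      TensorProduct.add_tmul, map_add, GNU_mul, GNU_mul, GNU_X]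
    by_cases hg : g = g0
    · subst hg
      rw [if_pos rfl, pderiv_X_self, map_neg]
      have h1 : phiS κ y g ((1 : MvPolynomial Γ κ) ⊗ₜ[κ] (1 : A)) = 1 := map_one _
      rw [h1]
      ring
    · rw [if_neg hg, hΔ, Derivation.map_one_eq_zero, TensorProduct.tmul_zero, pderiv_X_of_ne hg,
        TensorProduct.zero_tmul, map_zero]
      ring

omit [CharZero κ] [IsDomain A] in
private theorem GNU_ne {Δ : Derivation κ (MvPolynomial Γ κ ⊗[κ] A) (MvPolynomial Γ κ ⊗[κ] A)}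
    (hΔ : ∀ (r : MvPolynomial Γ κ) (a : A), Δ (r ⊗ₜ[κ] a) = r ⊗ₜ[κ] δ a)
    (hy : y g0 = 1) (hδ : ∃ g, δ (y g) ≠ 0) : Δ (GNU_s κ y g0) ≠ 0 := by
  obtain ⟨g, hg⟩ := hδ
  have hg0 : g ≠ g0 := by
    intro h
    rw [h, hy, Derivation.map_one_eq_zero] at hg
    exact hg rfl
  intro h0
  let f : MvPolynomial Γ κ ⊗[κ] A →ₗ[κ] A :=
    (TensorProduct.lid κ A).toLinearMap.comp (LinearMap.rTensor A (MvPolynomial.lcoeff κ (Finsupp.single g 1)))
  have hf : ∀ (r : MvPolynomial Γ κ) (a : A), f (r ⊗ₜ[κ] a) = coeff (Finsupp.single g 1) r • a := by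
    intro r a
    show (TensorProduct.lid κ A) (LinearMap.rTensor A _ (r ⊗ₜ[κ] a)) = _
    rw [LinearMap.rTensor_tmul, TensorProduct.lid_tmul]
    rfl
  apply hg
  have h1 := congrArg f h0
  unfold GNU_s at h1
  rw [map_sum, map_sum, map_zero] at h1
  have h2 : ∀ h, f (Δ ((X h : MvPolynomial Γ κ) ⊗ₜ[κ] y h)) = if h = g then δ (y g) else 0 := by
    intro h
    rw [hΔ, hf, coeff_X]
    by_cases hh : h = g
    · rw [if_pos hh, if_pos (by rw [hh]), one_smul, hh]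
    · rw [if_neg hh, if_neg, zero_smul]
      intro h3
      exact hh (Finsupp.single_left_injective one_ne_zero h3)
  rw [Finset.sum_congr rfl fun h _ => h2 h, Finset.sum_ite_eq' (Finset.univ.erase g0) g,
    if_pos (Finset.mem_erase.mpr ⟨hg0, Finset.mem_univ g⟩)] at h1
  exact h1

omit [CharZero κ] [IsDomain A] in
/-- The substitution on polynomials without `a_{g0}`. -/
private theorem GNU_free {r : MvPolynomial Γ κ} (h : ∀ m ∈ r.support, m g0 = 0) :
    phiS κ y g0 (r ⊗ₜ[κ] 1) = r ⊗ₜ[κ] (1 : A) := by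
  have key : ∀ (m : Γ →₀ ℕ) (a : κ), m g0 = 0 →
      phiS κ y g0 (monomial m a ⊗ₜ[κ] 1) = monomial m a ⊗ₜ[κ] (1 : A) := by
    intro m a hm
    rw [monomial_eq, GNU_mul, GNU_C]
    have h1 : ∀ t : MvPolynomial Γ κ, phiS κ y g0 (t ⊗ₜ[κ] 1) =
        ((phiS κ y g0).comp Algebra.TensorProduct.includeLeft : MvPolynomial Γ κ →ₐ[κ] _) t := fun _ => rfl
    have h2 : phiS κ y g0 ((m.prod fun n e => (X n : MvPolynomial Γ κ) ^ e) ⊗ₜ[κ] 1) =
        (Algebra.TensorProduct.includeLeft : MvPolynomial Γ κ →ₐ[κ] MvPolynomial Γ κ ⊗[κ] A)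
          (m.prod fun n e => (X n : MvPolynomial Γ κ) ^ e) := by
      rw [h1, Finsupp.prod, map_prod, map_prod]
      refine Finset.prod_congr rfl fun i hi => ?_
      rw [map_pow, map_pow, ← h1, GNU_X, if_neg]
      · rfl
      · intro h3
        rw [h3, Finsupp.mem_support_iff] at hi
        exact hi hm
    rw [h2]
    show _ * ((m.prod fun n e => (X n : MvPolynomial Γ κ) ^ e) ⊗ₜ[κ] (1 : A)) = _
    rw [Algebra.TensorProduct.tmul_mul_tmul, mul_one]
  have h1 : r ⊗ₜ[κ] (1 : A) = ∑ m ∈ r.support, (monomial m (coeff m r)) ⊗ₜ[κ] (1 : A) := by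
    rw [← TensorProduct.sum_tmul, support_sum_monomial_coeff]
  rw [h1, map_sum]
  exact Finset.sum_congr rfl fun m hm => key m _ (h m hm)

private theorem GNU_ind (hy : y g0 = 1) (hδ : ∃ g, δ (y g) ≠ 0) (n : ℕ) :
    ∀ r : MvPolynomial Γ κ, (∀ m ∈ r.support, m g0 < n) → phiS κ y g0 (r ⊗ₜ[κ] 1) = 0 → r = 0 := by
  have hdom : IsDomain (MvPolynomial Γ κ ⊗[κ] A) := GNU_dom
  obtain ⟨Δ, hΔ⟩ := GNU_der (Γ := Γ) δ
  induction n with
  | zero =>
    intro r hr _
    rw [← support_eq_empty, Finset.eq_empty_iff_forall_notMem]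
    exact fun m hm => absurd (hr m hm) (Nat.not_lt_zero _)
  | succ n ih =>
    intro r hr h0
    have h1 := GNU_key (y := y) (g0 := g0) hΔ r
    rw [h0, map_zero] at h1
    have h2 : phiS κ y g0 (pderiv g0 r ⊗ₜ[κ] 1) = 0 := by
      rcases mul_eq_zero.mp (neg_eq_zero.mp h1.symm) with h3 | h3
      · exact h3
      · exact absurd h3 (GNU_ne hΔ hy hδ)
    have h3 : pderiv g0 r = 0 := by
      refine ih _ (fun m hm => ?_) h2
      have h4 : m + Finsupp.single g0 1 ∈ r.support := by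
        rw [mem_support_iff]
        intro h5
        rw [mem_support_iff, coeff_pderiv, h5, zero_mul] at hm
        exact hm rfl
      have h5 := hr _ h4
      rw [Finsupp.add_apply, Finsupp.single_eq_same] at h5
      omega
    have h4 : ∀ m ∈ r.support, m g0 = 0 := by
      intro m hm
      by_contra h5
      have h6 : coeff (m - Finsupp.single g0 1) (pderiv g0 r) = 0 := by rw [h3, coeff_zero]
      rw [coeff_pderiv, tsub_add_cancel_of_le
        (Finsupp.single_le_iff.mpr (Nat.one_le_iff_ne_zero.mpr h5))] at h6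
      rcases mul_eq_zero.mp h6 with h7 | h7
      · exact mem_support_iff.mp hm h7
      · exact Nat.cast_add_one_ne_zero _ h7
    rw [GNU_free h4] at h0
    have h5 : Function.Injective (Algebra.TensorProduct.includeLeft : MvPolynomial Γ κ →ₐ[κ] MvPolynomial Γ κ ⊗[κ] A) :=
      Algebra.TensorProduct.includeLeft_injective (algebraMap κ A).injective
    exact h5 (by rw [map_zero]; exact h0)

theorem sub_inj (hy : y g0 = 1) (hδ : ∃ g, δ (y g) ≠ 0) {r : MvPolynomial Γ κ} (hr : phiS κ y g0 (r ⊗ₜ[κ] 1) = 0) : r = 0 :=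
  GNU_ind hy hδ (r.degreeOf g0 + 1) r (fun _ hm => Nat.lt_succ_of_le (monomial_le_degreeOf g0 hm)) hr

end MPadcDC
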