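import Pool.Agent.Lib.MP_adc574_ag_DC.GNU

/-!
# GNUb: the generic linear combination is not a unit

JOB GNUb. `not_unit_gen`: let `f u = 1` in `K ⊗ A`, `f = ∑ a_g ⊗ y_g`. `L = Frac κ[a] → K` (`ha`); a projection `π : K → L` linear over `L` with
`π 1 = 1` gives `f u' = 1` with `u' ∈ L ⊗ A`; clear the denominators: `f u'' = r ⊗ 1` in `κ[a] ⊗ A`, `r ≠ 0` (`κ[a] ⊗ A → L ⊗ A` is injective).
`φ(f) = 0` for `φ = phiS κ y g0`, so `φ(r ⊗ 1) = 0`: contradiction to `sub_inj`.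
(Or directly: a `κ[a]`-linear map `π : K → L`.)

-/

set_option autoImplicit false

namespace MPadcDC

open MvPolynomial TensorProduct

universe u v

variable {κ A : Type u} [Field κ] [CharZero κ] [CommRing A] [IsDomain A] [Algebra κ A] {Γ : Type} [Fintype Γ] [DecidableEq Γ]
  {y : Γ → A} {g0 : Γ} {δ : Derivation κ A A}

omit [CharZero κ] [IsDomain A] in
/-- The generic form is zero after the substitution. -/
private theorem GNUb_phi (hy : y g0 = 1) :
    phiS κ y g0 (∑ g, (X g : MvPolynomial Γ κ) ⊗ₜ[κ] y g) = 0 := by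
  have h1 : ∀ g, phiS κ y g0 ((X g : MvPolynomial Γ κ) ⊗ₜ[κ] y g) =
      (if g = g0 then -∑ h ∈ Finset.univ.erase g0, (X h : MvPolynomial Γ κ) ⊗ₜ[κ] y h
      else (X g : MvPolynomial Γ κ) ⊗ₜ[κ] (1 : A)) * (1 ⊗ₜ[κ] y g) := by
    intro g
    unfold phiS
    rw [Algebra.TensorProduct.lift_tmul, MvPolynomial.aeval_X]
    rfl
  rw [map_sum, ← Finset.add_sum_erase _ _ (Finset.mem_univ g0), h1 g0, if_pos rfl, hy]
  have h2 : ∀ g ∈ Finset.univ.erase g0, phiS κ y g0 ((X g : MvPolynomial Γ κ) ⊗ₜ[κ] y g) =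
      (X g : MvPolynomial Γ κ) ⊗ₜ[κ] y g := by
    intro g hg
    rw [h1 g, if_neg (Finset.ne_of_mem_erase hg), Algebra.TensorProduct.tmul_mul_tmul, mul_one,
      one_mul]
  rw [Finset.sum_congr rfl h2, ← Algebra.TensorProduct.one_def, mul_one, neg_add_cancel]

theorem not_unit_gen (hy : y g0 = 1) (hδ : ∃ g, δ (y g) ≠ 0) {K : Type u} [Field K] [Algebra κ K] {a : Γ → K}
    (ha : AlgebraicIndependent κ a) : ¬ IsUnit (∑ g, a g ⊗ₜ[κ] y g : K ⊗[κ] A) := by
  intro hu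
  obtain ⟨u, hu⟩ := hu.exists_right_inv
  let ι : MvPolynomial Γ κ →ₐ[κ] K := MvPolynomial.aeval a
  have hι : Function.Injective ι := ha
  let _ : Algebra (MvPolynomial Γ κ) K := ι.toRingHom.toAlgebra
  have hmap : ∀ p, algebraMap (MvPolynomial Γ κ) K p = ι p := fun p => rfl
  have _ : IsScalarTower κ (MvPolynomial Γ κ) K := IsScalarTower.of_algebraMap_eq
    (fun c => (ι.commutes c).symm)
  have _ : FaithfulSMul (MvPolynomial Γ κ) K := (faithfulSMul_iff_algebraMap_injective _ _).2 hι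
  let L := FractionRing (MvPolynomial Γ κ)
  let _ : Algebra L K := FractionRing.liftAlgebra (MvPolynomial Γ κ) K
  have _ : IsScalarTower (MvPolynomial Γ κ) L K := FractionRing.isScalarTower_liftAlgebra _ _
  have _ : IsScalarTower κ L K := IsScalarTower.of_algebraMap_eq (fun c => by
    rw [IsScalarTower.algebraMap_apply κ (MvPolynomial Γ κ) K,
      IsScalarTower.algebraMap_apply κ (MvPolynomial Γ κ) L,
      ← IsScalarTower.algebraMap_apply (MvPolynomial Γ κ) L K])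
  obtain ⟨π, hπ⟩ := LinearMap.exists_leftInverse_of_injective (Algebra.linearMap L K)
    (LinearMap.ker_eq_bot.2 (FaithfulSMul.algebraMap_injective L K))
  have hπ1 : π 1 = 1 := by
    have h := LinearMap.congr_fun hπ 1
    rw [LinearMap.comp_apply, Algebra.linearMap_apply, map_one] at h
    exact h
  -- the forms over `L`
  let Q : K ⊗[κ] A →ₗ[κ] L ⊗[κ] A := LinearMap.rTensor A (π.restrictScalars κ)
  have hQ : ∀ k b, Q (k ⊗ₜ[κ] b) = π k ⊗ₜ[κ] b := fun k b => rfl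
  let j : MvPolynomial Γ κ ⊗[κ] A →ₐ[κ] L ⊗[κ] A :=
    Algebra.TensorProduct.map (IsScalarTower.toAlgHom κ (MvPolynomial Γ κ) L) (AlgHom.id κ A)
  have hj : ∀ p b, j (p ⊗ₜ[κ] b) = algebraMap (MvPolynomial Γ κ) L p ⊗ₜ[κ] b := fun p b => rfl
  have hjinj : Function.Injective j := by
    have h := Module.Flat.rTensor_preserves_injective_linearMap (M := A)
      (IsScalarTower.toAlgHom κ (MvPolynomial Γ κ) L).toLinearMap
      (IsFractionRing.injective (MvPolynomial Γ κ) L)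
    intro x z hxz
    exact h hxz
  have h1 : ∀ u : K ⊗[κ] A, Q ((∑ g, a g ⊗ₜ[κ] y g) * u) =
      j (∑ g, (X g : MvPolynomial Γ κ) ⊗ₜ[κ] y g) * Q u := by
    intro u
    induction u using TensorProduct.induction_on with
    | zero => rw [mul_zero, map_zero, mul_zero]
    | add u v hu hv => rw [mul_add, map_add, hu, hv, map_add, mul_add]
    | tmul k b =>
      rw [Finset.sum_mul, map_sum, map_sum, Finset.sum_mul]
      refine Finset.sum_congr rfl fun g _ => ?_
      rw [Algebra.TensorProduct.tmul_mul_tmul, hQ, hQ, hj, Algebra.TensorProduct.tmul_mul_tmul]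
      congr 1
      have h2 : a g * k = algebraMap (MvPolynomial Γ κ) L (X g) • k := by
        rw [Algebra.smul_def, ← IsScalarTower.algebraMap_apply (MvPolynomial Γ κ) L K, hmap]
        change _ = (MvPolynomial.aeval a) (X g) * k
        rw [MvPolynomial.aeval_X]
      rw [h2, map_smul, smul_eq_mul]
  have h2 : j (∑ g, (X g : MvPolynomial Γ κ) ⊗ₜ[κ] y g) * Q u = 1 := by
    rw [← h1, hu, Algebra.TensorProduct.one_def, hQ, hπ1]
    rfl
  -- denominators
  have h3 : ∀ u : L ⊗[κ] A, ∃ r : MvPolynomial Γ κ, r ≠ 0 ∧ ∃ w, j (r ⊗ₜ[κ] 1) * u = j w := by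
    intro u
    induction u using TensorProduct.induction_on with
    | zero => exact ⟨1, one_ne_zero, 0, by rw [mul_zero, map_zero]⟩
    | add u v hu hv =>
      obtain ⟨r, hr, w, hw⟩ := hu
      obtain ⟨r', hr', w', hw'⟩ := hv
      refine ⟨r * r', mul_ne_zero hr hr', (r' ⊗ₜ[κ] 1) * w + (r ⊗ₜ[κ] 1) * w', ?_⟩
      have e : (r * r') ⊗ₜ[κ] (1 : A) = (r ⊗ₜ[κ] 1) * (r' ⊗ₜ[κ] 1) := by
        rw [Algebra.TensorProduct.tmul_mul_tmul, mul_one]
      rw [e, map_add, map_mul, map_mul, map_mul, ← hw, ← hw']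
      ring
    | tmul l b =>
      obtain ⟨p, s, rfl⟩ := IsLocalization.exists_mk'_eq (nonZeroDivisors (MvPolynomial Γ κ)) l
      refine ⟨s, nonZeroDivisors.coe_ne_zero s, p ⊗ₜ[κ] b, ?_⟩
      rw [hj, hj, Algebra.TensorProduct.tmul_mul_tmul, IsLocalization.mk'_spec', one_mul]
  obtain ⟨r, hr, w, hw⟩ := h3 (Q u)
  have h4 : (∑ g, (X g : MvPolynomial Γ κ) ⊗ₜ[κ] y g) * w = r ⊗ₜ[κ] 1 := by
    apply hjinj
    rw [map_mul, ← hw, mul_left_comm, h2, mul_one]
  have h5 : phiS κ y g0 (r ⊗ₜ[κ] 1) = 0 := by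
    rw [← h4, map_mul, GNUb_phi hy, zero_mul]
  exact hr (sub_inj hy hδ h5)

end MPadcDC
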