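import Mathlib

/-!
# GNor: smooth domains over a field are integrally closed

JOB GNor. `smooth_icl`: every prime of `S` has a basic open neighbourhood `S' = S_f` which is standard étale over `P = K[t_1, ..., t_r]`
(`Algebra.IsSmoothAt.exists_isStandardEtale_mvPolynomial`); by `TensorProduct.toIntegralClosure_bijective_of_smooth`
(`R = P`, `B = Frac P`; `integralClosure P (Frac P) = P`, `P` is a UFD) `S'` is integrally closed in `S' ⊗_P Frac P`. This ring is the
localization of the domain `S'` at `P \ 0` (`P → S'` is injective by flatness), étale over the field `Frac P`, so finite over it, so it is a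
field, the fraction field of `S'`. So `S'` is integrally closed. An element of `Frac S` integral over `S` is in all these `S_f`, so in `S`
(the `s ∈ S` with `s u ∈ S` form an ideal in no prime ideal).

-/

set_option autoImplicit false

namespace MPadcDC

open MvPolynomial TensorProduct

universe u v

private theorem GNor_inj (P T : Type u) [CommRing P] [IsDomain P] [CommRing T] [IsDomain T]
    [Algebra P T] [Module.Flat P T] : Function.Injective (algebraMap P T) := by
  have h1 : Module.IsTorsionFree P T := inferInstance
  exact FaithfulSMul.algebraMap_injective P T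

private theorem GNor_le (P T : Type u) [CommRing P] [IsDomain P] [CommRing T] [IsDomain T]
    [Algebra P T] [Module.Flat P T] :
    Algebra.algebraMapSubmonoid T (nonZeroDivisors P) ≤ nonZeroDivisors T := by
  rintro _ ⟨p, hp, rfl⟩
  rw [mem_nonZeroDivisors_iff_ne_zero]
  intro h0
  exact (mem_nonZeroDivisors_iff_ne_zero.mp hp) (GNor_inj P T (h0.trans (map_zero _).symm))

private theorem GNor_field (P T : Type u) [CommRing P] [IsDomain P] [CommRing T] [IsDomain T]
    [Algebra P T] [Algebra.Etale P T] : IsField (T ⊗[P] FractionRing P) := by
  have hdom : IsDomain (T ⊗[P] FractionRing P) :=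
    IsLocalization.isDomain_of_le_nonZeroDivisors (R := T) (M := Algebra.algebraMapSubmonoid T (nonZeroDivisors P))
      _ (GNor_le P T)
  have e : (T ⊗[P] FractionRing P) ≃+* (FractionRing P ⊗[P] T) :=
    (Algebra.TensorProduct.comm P T (FractionRing P)).toRingEquiv
  have hdom2 : IsDomain (FractionRing P ⊗[P] T) := MulEquiv.isDomain _ e.symm.toMulEquiv
  have het : Algebra.Etale (FractionRing P) (FractionRing P ⊗[P] T) := inferInstance
  have hfin : Module.Finite (FractionRing P) (FractionRing P ⊗[P] T) :=
    Algebra.FormallyUnramified.finite_of_free _ _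
  have hint : Algebra.IsIntegral (FractionRing P) (FractionRing P ⊗[P] T) := inferInstance
  have hf : IsField (FractionRing P ⊗[P] T) :=
    isField_of_isIntegral_of_isField' (R := FractionRing P) (Field.toIsField _)
  exact e.toMulEquiv.isField hf

private theorem GNor_etale (P T : Type u) [CommRing P] [IsDomain P] [IsIntegrallyClosed P] [CommRing T] [IsDomain T]
    [Algebra P T] [Algebra.Etale P T] : IsIntegrallyClosed T := by
  have hF := GNor_field P T
  have hinjB : Function.Injective (algebraMap T (T ⊗[P] FractionRing P)) :=
    IsLocalization.injective (M := Algebra.algebraMapSubmonoid T (nonZeroDivisors P)) (T ⊗[P] FractionRing P) (GNor_le P T)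
  let fB : Field (T ⊗[P] FractionRing P) := hF.toField
  rw [isIntegrallyClosed_iff (FractionRing T)]
  intro u hu
  let g : FractionRing T →ₐ[T] (T ⊗[P] FractionRing P) :=
    IsFractionRing.liftAlgHom (g := Algebra.ofId T (T ⊗[P] FractionRing P)) hinjB
  have hgu : IsIntegral T (g u) := hu.map g
  obtain ⟨z, hz⟩ := (TensorProduct.toIntegralClosure_bijective_of_smooth (R := P) (S := T)
    (B := FractionRing P)).2 ⟨g u, hgu⟩
  have key : ∀ z : T ⊗[P] integralClosure P (FractionRing P), ∃ t : T,
      ((TensorProduct.toIntegralClosure P T (FractionRing P) z : T ⊗[P] FractionRing P)) =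
        algebraMap T (T ⊗[P] FractionRing P) t := by
    intro z
    induction z with
    | zero => exact ⟨0, by simp⟩
    | add x y hx hy =>
      obtain ⟨a, ha⟩ := hx
      obtain ⟨b, hb⟩ := hy
      refine ⟨a + b, ?_⟩
      rw [map_add, map_add, ← ha, ← hb]
      rfl
    | tmul x y =>
      obtain ⟨p, hp⟩ := (isIntegrallyClosed_iff (FractionRing P)).mp (inferInstance : IsIntegrallyClosed P) y.2
      refine ⟨p • x, ?_⟩
      have h1 : ((TensorProduct.toIntegralClosure P T (FractionRing P) (x ⊗ₜ[P] y) : T ⊗[P] FractionRing P)) =
        x ⊗ₜ[P] (y : FractionRing P) := rfl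
      rw [h1, ← hp, Algebra.TensorProduct.algebraMap_apply, Algebra.algebraMap_eq_smul_one, TensorProduct.tmul_smul,
        Algebra.algebraMap_self, RingHom.id_apply, TensorProduct.smul_tmul']
  obtain ⟨t, ht⟩ := key z
  refine ⟨t, ?_⟩
  apply (g : FractionRing T →+* (T ⊗[P] FractionRing P)).injective
  have h2 : g (algebraMap T (FractionRing T) t) = algebraMap T (T ⊗[P] FractionRing P) t := g.commutes t
  have h3 : ((TensorProduct.toIntegralClosure P T (FractionRing P) z : T ⊗[P] FractionRing P)) = g u := by rw [hz]
  exact h2.trans (ht.symm.trans h3)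

theorem smooth_icl (K S : Type u) [Field K] [CommRing S] [IsDomain S] [Algebra K S] [Algebra.Smooth K S] :
    IsIntegrallyClosed S := by
  apply IsIntegrallyClosed.of_localization_maximal
  intro p _ hp
  obtain ⟨f, hfp, n, alg, tow, het⟩ := Algebra.IsSmoothAt.exists_isStandardEtale_mvPolynomial (R := K) (p := p)
  have hf0 : f ≠ 0 := fun h => hfp (h ▸ p.zero_mem)
  have hle : Submonoid.powers f ≤ nonZeroDivisors S := powers_le_nonZeroDivisors_of_noZeroDivisors hf0
  have hdom : IsDomain (Localization.Away f) := IsLocalization.isDomain_localization hle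
  have hicl : IsIntegrallyClosed (Localization.Away f) := GNor_etale (MvPolynomial (Fin n) K) (Localization.Away f)
  have hle2 : Submonoid.powers f ≤ p.primeCompl := by
    rw [Submonoid.powers_le]
    exact hfp
  let alg2 : Algebra (Localization.Away f) (Localization.AtPrime p) :=
    IsLocalization.localizationAlgebraOfSubmonoidLe _ _ (Submonoid.powers f) p.primeCompl hle2
  have tow2 : IsScalarTower S (Localization.Away f) (Localization.AtPrime p) :=
    IsLocalization.localization_isScalarTower_of_submonoid_le _ _ (Submonoid.powers f) p.primeCompl hle2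
  have hloc := IsLocalization.isLocalization_of_submonoid_le (Localization.Away f) (Localization.AtPrime p)
    (Submonoid.powers f) p.primeCompl hle2
  refine isIntegrallyClosed_of_isLocalization (R := Localization.Away f) (Localization.AtPrime p)
    (p.primeCompl.map (algebraMap S (Localization.Away f))) ?_
  rintro _ ⟨s, hs, rfl⟩
  rw [mem_nonZeroDivisors_iff_ne_zero]
  intro h0
  have h1 : s = 0 := IsLocalization.injective (Localization.Away f) hle (h0.trans (map_zero _).symm)
  exact hs (h1 ▸ p.zero_mem)

end MPadcDC
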