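import Pool.Agent.Lib.MP_adc574_ag_DC.GFnu
import Pool.Agent.Lib.MP_adc574_ag_DC.GCoef
import Pool.Agent.Lib.MP_adc574_ag_DC.GNor
import Pool.Agent.Lib.MP_adc574_ag_DC.GLs
import Pool.Agent.Lib.MP_adc574_ag_DC.GKum
import Pool.Agent.Lib.MP_adc574_ag_DC.GAdm
import Pool.Agent.Lib.MP_adc574_ag_DC.GCyc
import Pool.Agent.Lib.MP_adc574_ag_DC.GBaseB

/-!
# GPr: the generic cyclic cover is integral

* `F_not_pow`: `u ^ ℓ = F`, `u ∈ Frac(S_K)`, `l` with `x_l ∉ J` (`Good.ne`, `X_mem_bI`): `u` is integral over `S_K[1/x_l]`, integrally closed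
  (`IsSmoothProj.map`, `LR_smooth`, `smooth_icl`, `LR_domain`), so `F = u^ℓ` in `S_K[1/x_l]`. `D` = `exists_coefD` for the derivation of `exists_dK`, `g0 = mon0 e l`:
  `x_l^e = D F = ℓ u^(ℓ-1) D u`, so `u` is a unit (`ℓ ≥ 2`), so `F` is: contradiction to `F_not_unit`.
* `cyc_prime`: `exists_cr`, `adj_domain`, `irr_of_not_pow` (`IsAlgClosed K`, characteristic `0`: `K` has a primitive root of unity of order `e`), `F_not_pow`.

-/

set_option autoImplicit false

namespace MPadcDC

open MvPolynomial TensorProduct MPadcGP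

universe u v

variable {κ : Type u} [Field κ] [CharZero κ] {n : ℕ} {J : Ideal (MvPolynomial (Fin n) κ)} {e m : ℕ} {l : Fin n}
  {K : Type u} [Field K] [Algebra κ K] {a : Mon n e → K}

/-- `mkL` as a ring homomorphism -/
private noncomputable def GPr_m {A : Type u} [CommRing A] (I : Ideal (MvPolynomial (Fin n) A)) (C : Finset (Fin n)) :
    MvPolynomial (Fin n) A →+* LR I C := (algebraMap (CR I) (LR I C)).comp (Ideal.Quotient.mk I)

private theorem GPr_D (D : Derivation ℤ (LR (bI (algebraMap κ K) J) {l}) (LR (bI (algebraMap κ K) J) {l}))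
    (d : Derivation ℤ K K) (h1 : ∀ c : K, D (algebraMap K _ c) = algebraMap K _ (d c))
    (h2 : ∀ k, D (lx (bI (algebraMap κ K) J) {l} k) = 0) (g : Fin n →₀ ℕ) (c : K) :
    D (GPr_m (bI (algebraMap κ K) J) {l} (monomial g c)) =
      algebraMap K _ (d c) * GPr_m (bI (algebraMap κ K) J) {l} (monomial g 1) := by
  have h3 : D (GPr_m (bI (algebraMap κ K) J) {l} (monomial g 1)) = 0 := by
    induction g using Finsupp.induction with
    | zero =>
      have : (monomial (0 : Fin n →₀ ℕ) (1 : K)) = 1 := rfl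
      rw [this, map_one, D.map_one_eq_zero]
    | single_add k b f _ _ ih =>
      have : (monomial (Finsupp.single k b + f) (1 : K)) = X k ^ b * monomial f 1 := by
        rw [X_pow_eq_monomial, monomial_mul, one_mul]
      rw [this, map_mul, map_pow, Derivation.leibniz, ih, Derivation.leibniz_pow]
      have h4 : D (GPr_m (bI (algebraMap κ K) J) {l} (X k)) = 0 := h2 k
      rw [h4]
      simp
  have h5 : (monomial g c : MvPolynomial (Fin n) K) = C c * monomial g 1 := by
    rw [C_mul_monomial, mul_one]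
  have h6 : GPr_m (bI (algebraMap κ K) J) {l} (C c) = algebraMap K _ c := rfl
  rw [h5, map_mul, Derivation.leibniz, h3, h6, h1, smul_zero, zero_add, smul_eq_mul, mul_comm]

/-- `D F = x_l ^ e` -/
private theorem GPr_DF (D : Derivation ℤ (LR (bI (algebraMap κ K) J) {l}) (LR (bI (algebraMap κ K) J) {l}))
    (d : Derivation ℤ K K) (h1 : ∀ c : K, D (algebraMap K _ c) = algebraMap K _ (d c))
    (h2 : ∀ k, D (lx (bI (algebraMap κ K) J) {l} k) = 0) (h3 : d (a (mon0 e l)) = 1) (h4 : ∀ g, g ≠ mon0 e l → d (a g) = 0) :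
    D (GPr_m (bI (algebraMap κ K) J) {l} (frm a)) = lx (bI (algebraMap κ K) J) {l} l ^ e := by
  unfold frm
  rw [map_sum, map_sum, Finset.sum_eq_single (mon0 e l)]
  · rw [GPr_D D d h1 h2, h3, map_one, one_mul]
    have h5 : (monomial (mon0 e l).1 (1 : K)) = X l ^ e := by
      rw [X_pow_eq_monomial]
      rfl
    rw [h5, map_pow]
    rfl
  · intro g _ hg
    rw [GPr_D D d h1 h2, h4 g hg, map_zero, zero_mul]
  · intro h
    exact absurd (Finset.mem_univ _) h

theorem F_not_pow (hJ : Good J (m + 1)) (he : 1 ≤ e) (ha : AlgebraicIndependent κ a)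
    (hp : (bI (algebraMap κ K) J).IsPrime) {ℓ : ℕ} (hℓ : 2 ≤ ℓ) {L : Type u} [Field L]
    [Algebra (CR (bI (algebraMap κ K) J)) L] [IsFractionRing (CR (bI (algebraMap κ K) J)) L] (u : L) :
    u ^ ℓ ≠ algebraMap (CR (bI (algebraMap κ K) J)) L (Ideal.Quotient.mk _ (frm a)) := by
  intro hu
  obtain ⟨l, hl⟩ := hJ.ne
  have hl' : (X l : MvPolynomial (Fin n) K) ∉ bI (algebraMap κ K) J := fun h => hl ((X_mem_bI l).1 h)
  have hd : IsDomain (LR (bI (algebraMap κ K) J) {l}) := LR_domain hp hl'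
  have hdS : IsDomain (CR (bI (algebraMap κ K) J)) := (Ideal.Quotient.isDomain_iff_prime _).2 hp
  have hsm : Algebra.Smooth K (LR (bI (algebraMap κ K) J) {l}) :=
    LR_smooth (hJ.homog.map _) (hJ.smooth.map hJ.homog _) l
  have hic : IsIntegrallyClosed (LR (bI (algebraMap κ K) J) {l}) := smooth_icl K _
  have hx : (Ideal.Quotient.mk (bI (algebraMap κ K) J) (∏ j ∈ {l}, X j)) ≠ 0 := by
    rw [Finset.prod_singleton]
    intro h
    exact hl' (Ideal.Quotient.eq_zero_iff_mem.1 h)
  have hun : ∀ y : Submonoid.powers (Ideal.Quotient.mk (bI (algebraMap κ K) J) (∏ j ∈ {l}, X j)),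
      IsUnit (algebraMap (CR (bI (algebraMap κ K) J)) L y) := by
    rintro ⟨y, k, rfl⟩
    rw [isUnit_iff_ne_zero]
    intro h
    exact pow_ne_zero k hx ((IsFractionRing.injective (CR (bI (algebraMap κ K) J)) L) (h.trans (map_zero _).symm))
  let _ : Algebra (LR (bI (algebraMap κ K) J) {l}) L := (IsLocalization.lift hun).toAlgebra
  have hst : IsScalarTower (CR (bI (algebraMap κ K) J)) (LR (bI (algebraMap κ K) J) {l}) L :=
    IsScalarTower.of_algebraMap_eq fun x => (IsLocalization.lift_eq hun x).symm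
  have hfr : IsFractionRing (LR (bI (algebraMap κ K) J) {l}) L :=
    IsFractionRing.isFractionRing_of_isDomain_of_isLocalization
      (Submonoid.powers (Ideal.Quotient.mk (bI (algebraMap κ K) J) (∏ j ∈ {l}, X j))) _ _
  have hF : algebraMap (CR (bI (algebraMap κ K) J)) L (Ideal.Quotient.mk _ (frm a)) =
      algebraMap (LR (bI (algebraMap κ K) J) {l}) L (GPr_m (bI (algebraMap κ K) J) {l} (frm a)) :=
    IsScalarTower.algebraMap_apply (CR (bI (algebraMap κ K) J)) (LR (bI (algebraMap κ K) J) {l}) L _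
  have hint : IsIntegral (LR (bI (algebraMap κ K) J) {l}) u := by
    refine IsIntegral.of_pow (lt_of_lt_of_le two_pos hℓ) ?_
    rw [hu, hF]
    exact isIntegral_algebraMap
  obtain ⟨v, rfl⟩ := IsIntegrallyClosed.algebraMap_eq_of_integral hint
  rw [hF, ← map_pow] at hu
  have hv := IsFractionRing.injective (LR (bI (algebraMap κ K) J) {l}) L hu
  obtain ⟨d, hd1, hd2, hd3⟩ := exists_dK ha (mon0 e l)
  obtain ⟨D, hD1, hD2⟩ := exists_coefD (J := J) (l := l) d hd1
  have hDF := GPr_DF (a := a) D d hD1 hD2 hd2 hd3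
  rw [← hv, Derivation.leibniz_pow] at hDF
  have hux : IsUnit (lx (bI (algebraMap κ K) J) {l} l ^ e) := (lx_isUnit _ _ (Finset.mem_singleton_self l)).pow e
  rw [← hDF] at hux
  have hvu : IsUnit v := by
    refine isUnit_of_dvd_unit ?_ hux
    rw [nsmul_eq_mul, smul_eq_mul]
    exact ((dvd_pow_self v (by omega)).mul_right _).mul_left _
  have := F_not_unit (K := K) (a := a) hJ he ha hl
  apply this
  have h9 : mkL (bI (algebraMap κ K) J) {l} (frm a) = GPr_m (bI (algebraMap κ K) J) {l} (frm a) := rfl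
  rw [h9, ← hv]
  exact hvu.pow ℓ

/-- (G6) The cyclic cover is integral (`m ≥ 1`, `K` algebraically closed). -/
theorem cyc_prime (hJ : Good J (m + 1)) (he : 1 ≤ e) (hK : IsAlgClosed K) (ha : AlgebraicIndependent κ a)
    (hp : (bI (algebraMap κ K) J).IsPrime) : (cyc (bI (algebraMap κ K) J) (frm a) e).IsPrime := by
  have : CharZero K := charZero_of_injective_algebraMap (algebraMap κ K).injective
  obtain ⟨Ψ, -, -⟩ := exists_cr (bI (algebraMap κ K) J) (frm a) e
  have h0 : NeZero (e : K) := ⟨by exact_mod_cast (Nat.one_le_iff_ne_zero.1 he)⟩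
  obtain ⟨ζ, hζ⟩ := IsAlgClosed.exists_root (Polynomial.cyclotomic e K)
    (Polynomial.degree_cyclotomic_pos e K (Nat.pos_of_ne_zero (Nat.one_le_iff_ne_zero.1 he))).ne'
  have hζ' : IsPrimitiveRoot ζ e := Polynomial.isRoot_cyclotomic_iff.1 hζ
  have hζ'' : IsPrimitiveRoot (algebraMap K (FractionRing (CR (bI (algebraMap κ K) J))) ζ) e :=
    hζ'.map_of_injective (algebraMap K (FractionRing (CR (bI (algebraMap κ K) J)))).injective
  have h1 := irr_of_not_pow he hζ'' (fun ℓ hℓ _ b => F_not_pow hJ he ha hp hℓ.two_le b)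
  have h2 : IsDomain (AdE (CR (bI (algebraMap κ K) J)) (Ideal.Quotient.mk _ (frm a)) e) := adj_domain he h1
  have h3 : IsDomain (CR (cyc (bI (algebraMap κ K) J) (frm a) e)) := Ψ.symm.toMulEquiv.isDomain _
  exact (Ideal.Quotient.isDomain_iff_prime _).1 h3

end MPadcDC
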