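import Pool.Agent.Lib.MP_adc574_ag_DC.GRankA

/-!
# GRankE: images of forms in `GV`, `GW`, and the contractions, abstract version
-/

set_option autoImplicit false

namespace MPadcDC

open MvPolynomial TensorProduct MPadcGP

universe u v

variable {κ : Type u} [Field κ] {Γ : Type} [Fintype Γ] {C : Type u} [CommRing C] [Algebra κ C] {n : ℕ}
  {A0 : Subalgebra κ C} {ℓ : C} {x : Fin n → C} {C₀ : Type u} [CommRing C₀] [Algebra κ C₀]

theorem GV_span (φ : C₀ →ₐ[κ] C) {S : Set (Fm κ C₀)} {q j : ℕ}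
    (h : ∀ v ∈ S, mp (φ : C₀ →+* C) (CC.of_algHom φ) v ∈ GV A0 ℓ x q j) {w : Fm κ C₀} (hw : w ∈ Submodule.span κ S) :
    mp (φ : C₀ →+* C) (CC.of_algHom φ) w ∈ GV A0 ℓ x q j := by
  induction hw using Submodule.span_induction with
  | mem w hw => exact h w hw
  | zero =>
    rw [map_zero]
    exact zero_mem _
  | add x y _ _ hx hy =>
    rw [map_add]
    exact add_mem hx hy
  | smul s x _ hx =>
    have h1 : mp (φ : C₀ →+* C) (CC.of_algHom φ) (s • x) = s • mp (φ : C₀ →+* C) (CC.of_algHom φ) x := by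
      rw [← algebraMap_smul C₀ s x, mp_smul, ← algebraMap_smul C s]
      congr 1
      exact φ.commutes s
    rw [h1]
    exact GV_smul s hx

theorem GW_base (φ : C₀ →ₐ[κ] C) {S : Submodule κ (Fm κ C₀)} {q j : ℕ}
    (h : ∀ v ∈ S, mp (φ : C₀ →+* C) (CC.of_algHom φ) v ∈ GV A0 ℓ x q j) {w : FG κ Γ C₀}
    (hw : w ∈ S.baseChange (MvPolynomial Γ κ)) : loG Γ φ w ∈ GW Γ A0 ℓ x q j := by
  rw [Submodule.baseChange_eq_span] at hw
  have key : ∀ (r : MvPolynomial Γ κ) (v : Fm κ C₀), v ∈ S → loG Γ φ (r ⊗ₜ[κ] v) ∈ GW Γ A0 ℓ x q j := by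
    intro r v hv
    exact AddSubmonoid.subset_closure ⟨r, _, h v hv, loG_tmul φ r v⟩
  have h2 : ∀ (r : MvPolynomial Γ κ) (y : FG κ Γ C₀),
      loG Γ φ (r • y) = (r ⊗ₜ[κ] (1 : Fm κ C) : FG κ Γ C) * loG Γ φ y := by
    intro r y
    have h3 : loG Γ φ (r ⊗ₜ[κ] (1 : Fm κ C₀)) = (r ⊗ₜ[κ] (1 : Fm κ C) : FG κ Γ C) := by
      refine (loG_tmul φ r 1).trans ?_
      rw [map_one]
    exact ((congrArg (loG Γ φ) (FG_smul r y)).trans (map_mul (loG Γ φ) _ _)).trans (congrArg (· * _) h3)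
  induction hw using Submodule.span_induction with
  | mem x hx =>
    obtain ⟨v, hv, rfl⟩ := hx
    exact key 1 v hv
  | zero =>
    rw [map_zero]
    exact zero_mem _
  | add x y _ _ hx hy =>
    rw [map_add]
    exact add_mem hx hy
  | smul r y _ hy =>
    rw [h2]
    exact GW_mul r hy

theorem GW_contr {D : Γ → Derivation κ C C} {e : ℕ} (hD : ∀ g k, ∃ c ∈ A0, D g (x k) * ℓ ^ e = c * ℓ) {m j : ℕ}
    {w : FG κ Γ C} (hw : w ∈ GW Γ A0 ℓ x (m + 1) j) (G : Fin (m + 1) → Γ) :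
    ∃ f : MvPolynomial Γ κ ⊗[κ] A0, (tz ((1 : MvPolynomial Γ κ) ⊗ₜ[κ] ℓ ^ (e * (m + 1))) : FG κ Γ C) *
      (List.ofFn fun i => ctG (κ := κ) (Γ := Γ) (D (G i))).foldr (fun f x => f x) w =
      tz (Algebra.TensorProduct.map (AlgHom.id κ (MvPolynomial Γ κ)) A0.val f *
        (1 : MvPolynomial Γ κ) ⊗ₜ[κ] ℓ ^ j) := by
  have h1 : w ∈ GW Γ A0 ℓ x (0 + (List.ofFn G).length) j := by
    rw [List.length_ofFn, zero_add]
    exact hw
  obtain ⟨f, hf⟩ := GW_zero (GW_list hD (List.ofFn G) 0 h1)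
  rw [List.length_ofFn, List.map_ofFn] at hf
  refine ⟨f, ?_⟩
  rw [Algebra.TensorProduct.tmul_pow, Algebra.TensorProduct.tmul_pow, one_pow, one_pow]
  exact hf

end MPadcDC
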