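import Pool.Agent.Lib.MP_adc574_ag_DC.GLocL
import Pool.Agent.Lib.MP_adc574_ag_DC.GRankM
import Pool.Agent.Lib.MP_adc574_ag_DC.GRankE

/-!
# GRank: contractions of homogeneous forms

`C = S[1/x_l]`, `A0 = chart J {l}` its part of degree `0`.
* `contr_hom`: the `m+1`-fold contractions of `loF w`, `w` homogeneous of degree `j`, are `f x_l^j x_l^{-e(m+1)}`, `f ∈ κ[a] ⊗ A0`: on
  generators `x^h dx_{t_0} ∧ … ∧ dx_{t_m}`, `|h| + m + 1 = j`; the contraction is a sum of products of `x^h` and the `D_g(x_k) ∈ A0 x_l^(1-e)`.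
-/

set_option autoImplicit false

namespace MPadcDC

open MvPolynomial TensorProduct MPadcGP

universe u v

variable {κ : Type u} [Field κ] {n : ℕ} {J : Ideal (MvPolynomial (Fin n) κ)} {l : Fin n} {e m : ℕ}

/-- the `m+1`-fold contraction -/
noncomputable def ell (D : Mon n e → Derivation κ (LR J {l}) (LR J {l})) (m : ℕ) (G : Fin (m + 1) → Mon n e)
    (w : FL J e l) : FL J e l :=
  (List.ofFn fun i => ctG (κ := κ) (Γ := Mon n e) (D (G i))).foldr (fun f x => f x) w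

private theorem GRank_Om {q j : ℕ} {w : Fm κ (CR J)} (hw : w ∈ Om J q j) :
    mp (lm J l : CR J →+* LR J {l}) (CC.of_algHom _) w ∈ GV (chart J {l}) (lx J {l} l) (lx J {l}) q j := by
  refine GV_span (C := LR J {l}) (C₀ := CR J) (lm J l) (fun w hw => ?_) hw
  obtain ⟨g, t, hj, rfl⟩ := hw
  obtain ⟨c, hc, h1⟩ := GRank_mon (J := J) (l := l) g
  refine AddSubgroup.subset_closure ⟨c, hc, g.degree, t, hj, ?_⟩
  rw [map_mul, mp_fz, mp_wd, ← h1]
  rfl

theorem contr_hom {D : Mon n e → Derivation κ (LR J {l}) (LR J {l})} (hD : HomD D) (he : 1 ≤ e) {j : ℕ} {w : FR J e}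
    (hw : w ∈ OmR J e (m + 1) j) (G : Fin (m + 1) → Mon n e) :
    ∃ f : Ra κ n e ⊗[κ] chart J {l}, (tz ((1 : Ra κ n e) ⊗ₜ[κ] lx J {l} l ^ (e * (m + 1))) : FL J e l) * ell D m G (loF J e l w) =
      tz (ic J e l f * (1 : Ra κ n e) ⊗ₜ[κ] lx J {l} l ^ j) :=
  GW_contr (C := LR J {l}) (A0 := chart J {l}) (ℓ := lx J {l} l) (x := lx J {l}) (D := D) (fun g k => GRank_D hD he g k)
    (GW_base (C := LR J {l}) (C₀ := CR J) (lm J l) (fun v hv => GRank_Om hv) hw) G

end MPadcDC
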