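import Pool.Agent.Lib.MP_adc574_ag_DC.GPr
import Pool.Agent.Lib.MP_adc574_ag_DC.GNz
import Pool.Agent.Lib.MP_adc574_ag_DC.GSm

/-!
# GRk: the cyclic cover has the same dimension

`I = cyc (bI J) (frm a) e`.
* `rank_adj`: `A` a domain over `K`, `B = A[ζ]/(ζ^e - f)` a domain: `Frac B` is an algebraic separable
  extension of `Frac A`, so `Ω[B⁄K]` has the rank of `Ω[A⁄K]`.
* `cyc_good`: by `exists_good` the cover is good for some `m'`; the rank is computed on the chart of `x_l`, `x_l ∉ J` (`exists_adj`, `Good.map`, `rank_adj`).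
-/

set_option autoImplicit false

namespace MPadcDC

open MvPolynomial TensorProduct MPadcGP

universe u v

private theorem GRk_frac {K A : Type u} [CommRing K] [CommRing A] [IsDomain A] [Algebra K A] :
    Module.finrank (FractionRing A) (Ω[FractionRing A⁄K]) = Module.finrank A (Ω[A⁄K]) :=
  finrank_loc (nonZeroDivisors A) le_rfl (KaehlerDifferential.map K K A (FractionRing A))

/-- invariance under isomorphisms -/
private theorem GRk_equiv {K A B : Type u} [CommRing K] [CommRing A] [IsDomain A] [CommRing B] [IsDomain B] [Algebra K A]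
    [Algebra K B] (e : A ≃ₐ[K] B) : Module.finrank B (Ω[B⁄K]) = Module.finrank A (Ω[A⁄K]) := by
  let : Algebra A B := (e : A →ₐ[K] B).toRingHom.toAlgebra
  have : IsScalarTower K A B := IsScalarTower.of_algebraMap_eq fun x => (e.commutes x).symm
  have : IsLocalization (⊥ : Submonoid A) B := by
    refine IsLocalization.of_le_isUnit_of_bijective ?_ e.bijective
    rintro x ⟨y, hy, rfl⟩
    rw [SetLike.mem_coe, Submonoid.mem_bot] at hy
    rw [hy]
    exact isUnit_one.map _
  exact finrank_loc (⊥ : Submonoid A) bot_le (KaehlerDifferential.map K K A B)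

theorem rank_adj {K A : Type u} [Field K] [CharZero K] [CommRing A] [IsDomain A] [Algebra K A] {e : ℕ} (he : 1 ≤ e) {f : A}
    (hf : f ≠ 0) [IsDomain (AdE A f e)] :
    Module.finrank (AdE A f e) (Ω[AdE A f e⁄K]) = Module.finrank A (Ω[A⁄K]) := by
  have hmon : (Polynomial.X ^ e - Polynomial.C f : Polynomial A).Monic :=
    Polynomial.monic_X_pow_sub_C f (Nat.one_le_iff_ne_zero.1 he)
  have hdeg : (Polynomial.X ^ e - Polynomial.C f : Polynomial A).degree ≠ 0 := by
    rw [Polynomial.degree_X_pow_sub_C he f]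
    exact_mod_cast (Nat.one_le_iff_ne_zero.1 he)
  have hinj : Function.Injective (algebraMap A (AdE A f e)) := AdjoinRoot.of.injective_of_degree_ne_zero hdeg
  have : FaithfulSMul A (AdE A f e) := (faithfulSMul_iff_algebraMap_injective A (AdE A f e)).2 hinj
  have : Module.Finite A (AdE A f e) := hmon.finite_adjoinRoot
  have : Algebra.IsAlgebraic A (AdE A f e) := inferInstance
  let := FractionRing.liftAlgebra A (FractionRing (AdE A f e))
  have := FractionRing.isScalarTower_liftAlgebra A (FractionRing (AdE A f e))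
  have h1 : Algebra.IsAlgebraic A (FractionRing (AdE A f e)) :=
    (IsFractionRing.isAlgebraic_iff' A (AdE A f e) (FractionRing (AdE A f e))).1 inferInstance
  have h2 : Algebra.IsAlgebraic (FractionRing A) (FractionRing (AdE A f e)) :=
    (IsFractionRing.comap_isAlgebraic_iff (A := A) (K := FractionRing A)).1 h1
  have : CharZero (FractionRing A) := charZero_of_injective_algebraMap (algebraMap K (FractionRing A)).injective
  have : Algebra.FormallyEtale (FractionRing A) (FractionRing (AdE A f e)) := Algebra.FormallyEtale.of_isSeparable _ _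
  have : IsScalarTower K (FractionRing A) (FractionRing (AdE A f e)) := IsScalarTower.to₁₃₄ _ A _ _
  rw [← GRk_frac (K := K) (A := AdE A f e), ← GRk_frac (K := K) (A := A),
    ← (KaehlerDifferential.tensorKaehlerEquivOfFormallyEtale K (FractionRing A) (FractionRing (AdE A f e))).finrank_eq,
    Module.finrank_baseChange]

variable {κ : Type u} [Field κ] [CharZero κ] {n : ℕ} {J : Ideal (MvPolynomial (Fin n) κ)} {e m : ℕ}
  {K : Type u} [Field K] [Algebra κ K] {a : Mon n e → K}

theorem cyc_good (hJ : Good J (m + 1)) (he : 1 ≤ e) (hK : IsAlgClosed K) (ha : AlgebraicIndependent κ a)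
    (hp : (bI (algebraMap κ K) J).IsPrime) : Good (cyc (bI (algebraMap κ K) J) (frm a) e) (m + 1) := by
  have : CharZero K := charZero_of_injective_algebraMap (algebraMap κ K).injective
  obtain ⟨hh, hs⟩ := cyc_smooth hJ he ha
  have hpr := cyc_prime hJ he hK ha hp
  have hK' := hJ.map (K := K) hp
  obtain ⟨l, hl⟩ := hK'.ne
  have := hp
  have hdeg : (Polynomial.X ^ e - Polynomial.C (Ideal.Quotient.mk (bI (algebraMap κ K) J) (frm a)) :
      Polynomial (CR (bI (algebraMap κ K) J))).degree ≠ 0 := by
    rw [Polynomial.degree_X_pow_sub_C he]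
    exact_mod_cast (Nat.one_le_iff_ne_zero.1 he)
  have hl' : (X l.castSucc : MvPolynomial (Fin (n + 1)) K) ∉ cyc (bI (algebraMap κ K) J) (frm a) e := by
    intro h
    obtain ⟨Ψ, h1, -⟩ := exists_cr (bI (algebraMap κ K) J) (frm a) e
    have h2 := h1 (X l)
    rw [rename_X, Ideal.Quotient.eq_zero_iff_mem.2 h] at h2
    have h3 := (map_eq_zero_iff Ψ Ψ.injective).1 h2
    have h4 := (map_eq_zero_iff _ (AdjoinRoot.of.injective_of_degree_ne_zero hdeg)).1 h3
    exact hl (Ideal.Quotient.eq_zero_iff_mem.1 h4)
  obtain ⟨m', hm'⟩ := exists_good hh hpr hs ⟨l.castSucc, hl'⟩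
  have key : m' = m + 1 := by
    rw [← hm'.rank l.castSucc hl', ← hK'.rank l hl]
    have d1 := chart_domain hp hl
    have d2 := chart_domain hpr hl'
    have hf := f_nzd (K := K) hJ he ha (Finset.mem_singleton_self l)
    have hf' := nonZeroDivisors.ne_zero hf
    obtain ⟨Ψ, -, -⟩ := exists_adj (F := frm a) (e := e) hK'.homog (frm_hom a) {l} (Finset.mem_singleton_self l)
    have hc : cs ({l} : Finset (Fin n)) = {l.castSucc} := Finset.map_singleton _ _
    rw [hc] at Ψ
    have d3 : IsDomain (AdE (chart (bI (algebraMap κ K) J) {l}) (dh (bI (algebraMap κ K) J) {l} (Finset.mem_singleton_self l)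
      (frm a)) e) := Ψ.toMulEquiv.isDomain _
    rw [GRk_equiv Ψ]
    exact rank_adj he hf'
  rw [← key]
  exact hm'

end MPadcDC
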