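import Pool.Agent.Lib.MP_adc574_ag_DC.GHigh

/-!
# GSat: the image and the kernel of `dF ∧`, the saturation of the image

JOB GSat.
* `imF_sta`: `tz t * (thF * b) = thF * (tz t * b)` (`tz_comm`), `prR_thF`, `prR_thF_lt`. `imF_hom`: `w = prR (j+e) w = thF * prR j b`.
* `satF` is closed under addition: take the maximum of the exponents. `satF_sta`: `prR_xm` with `g = single l N` (`xm_single`):
  `x_l^N * prR j w = prR (j + N) (x_l^N w)`.
* `satF_high`: `high` with `Z = satF`, `I = imF`, then `imF_hom`.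
-/

set_option autoImplicit false
set_option linter.unusedSectionVars false

namespace MPadcDC

open MvPolynomial TensorProduct MPadcGP

universe u v

variable {κ : Type u} [Field κ] [CharZero κ] {n : ℕ} {J : Ideal (MvPolynomial (Fin n) κ)} {e : ℕ}

variable (J e) in
/-- `dF ∧ (forms of degree q)` -/
noncomputable def imF (q : ℕ) : AddSubgroup (FR J e) :=
  (FdG κ (Mon n e) (C := CR J) q).toAddSubgroup.map (AddMonoidHom.mulLeft (thF J e))

private theorem GSat_imF {q : ℕ} {w : FR J e} :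
    w ∈ imF J e q ↔ ∃ b ∈ FdG κ (Mon n e) (C := CR J) q, thF J e * b = w := Iff.rfl

private theorem GSat_comm (t : Ra κ n e ⊗[κ] CR J) (x y : FR J e) :
    x * ((tz t : FR J e) * y) = (tz t : FR J e) * (x * y) := by
  rw [← mul_assoc, ← tz_comm t x, mul_assoc]

private theorem GSat_mul {q : ℕ} (t : Ra κ n e ⊗[κ] CR J) {w : FR J e} (hw : w ∈ imF J e q) :
    (tz t : FR J e) * w ∈ imF J e q := by
  obtain ⟨b, hb, rfl⟩ := GSat_imF.1 hw
  exact GSat_imF.2 ⟨(tz t : FR J e) * b, tz_mul_FdG t hb, GSat_comm t _ _⟩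

private theorem GSat_tz (c : CR J) : ((1 : Ra κ n e) ⊗ₜ[κ] fz κ c : FR J e) =
    (tz ((1 : Ra κ n e) ⊗ₜ[κ] c) : FR J e) := rfl

private theorem GSat_pow (l : Fin n) (N M : ℕ) (w : FR J e) :
    ((1 : Ra κ n e) ⊗ₜ[κ] fz κ (xv J l ^ (N + M)) : FR J e) * w =
      ((1 : Ra κ n e) ⊗ₜ[κ] fz κ (xv J l ^ M) : FR J e) *
        (((1 : Ra κ n e) ⊗ₜ[κ] fz κ (xv J l ^ N) : FR J e) * w) := by
  rw [← mul_assoc, Algebra.TensorProduct.tmul_mul_tmul, ← map_mul, ← pow_add, mul_one, add_comm N M]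

theorem imF_sta (hJ : IsHomog J) (q : ℕ) : Sta J e (q + 1) (imF J e q) := by
  refine ⟨?_, ?_, ?_⟩
  · intro w hw
    obtain ⟨b, hb, rfl⟩ := GSat_imF.1 hw
    exact thG_mul_mem _ hb
  · intro t w hw
    exact GSat_mul t hw
  · intro j w hw
    obtain ⟨b, hb, rfl⟩ := GSat_imF.1 hw
    rcases lt_or_ge j e with hj | hj
    · rw [prR_thF_lt hJ hb hj]
      exact AddSubgroup.zero_mem _
    · obtain ⟨i, rfl⟩ := Nat.exists_eq_add_of_le' hj
      rw [prR_thF hJ hb i]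
      exact GSat_imF.2 ⟨prR J e i b, OmR_le (prR_mem hJ hb i), rfl⟩

theorem imF_hom (hJ : IsHomog J) {q j : ℕ} {w : FR J e} (h1 : w ∈ imF J e q) (h2 : w ∈ OmR J e (q + 1) (j + e)) :
    Exd J e q j w := by
  obtain ⟨b, hb, rfl⟩ := GSat_imF.1 h1
  have h3 := prR_OmR hJ (j + e) h2
  rw [if_pos rfl, prR_thF hJ hb j] at h3
  exact ⟨prR J e j b, prR_mem hJ hb j, h3⟩

variable (J e) in
/-- The kernel of `dF ∧` on forms of degree `q`. -/
noncomputable def kerF (q : ℕ) : AddSubgroup (FR J e) :=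
  (FdG κ (Mon n e) (C := CR J) q).toAddSubgroup ⊓ (AddMonoidHom.mulLeft (thF J e)).ker

theorem kerF_sta (hJ : IsHomog J) (he : 1 ≤ e) (q : ℕ) : Sta J e q (kerF J e q) := by
  refine ⟨fun w hw => hw.1, ?_, ?_⟩
  · intro t w hw
    have h1 : thF J e * w = 0 := hw.2
    refine ⟨tz_mul_FdG t hw.1, ?_⟩
    show thF J e * ((tz t : FR J e) * w) = 0
    rw [GSat_comm, h1, mul_zero]
  · intro j w hw
    have h1 : thF J e * w = 0 := hw.2
    refine ⟨OmR_le (prR_mem hJ hw.1 j), ?_⟩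
    show thF J e * prR J e j w = 0
    rw [← prR_thF hJ hw.1 j, h1, map_zero]

variable (J e) in
/-- The saturation of `dF ∧ (forms of degree q)`. -/
noncomputable def satF (q : ℕ) : AddSubgroup (FR J e) where
  carrier := {w | w ∈ FdG κ (Mon n e) (C := CR J) (q + 1) ∧
    ∀ l, ∃ N : ℕ, ((1 : Ra κ n e) ⊗ₜ[κ] fz κ (xv J l ^ N) : FR J e) * w ∈ imF J e q}
  zero_mem' := by
    refine ⟨Submodule.zero_mem _, fun l => ⟨0, ?_⟩⟩
    rw [mul_zero]
    exact AddSubgroup.zero_mem _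
  add_mem' := by
    intro w w' hw hw'
    refine ⟨Submodule.add_mem _ hw.1 hw'.1, fun l => ?_⟩
    obtain ⟨N, hN⟩ := hw.2 l
    obtain ⟨M, hM⟩ := hw'.2 l
    refine ⟨N + M, ?_⟩
    rw [mul_add]
    refine AddSubgroup.add_mem _ ?_ ?_
    · rw [GSat_pow]
      exact GSat_mul ((1 : Ra κ n e) ⊗ₜ[κ] (xv J l ^ M)) hN
    · rw [add_comm N M, GSat_pow]
      exact GSat_mul ((1 : Ra κ n e) ⊗ₜ[κ] (xv J l ^ N)) hM
  neg_mem' := by
    intro w hw
    refine ⟨Submodule.neg_mem _ hw.1, fun l => ?_⟩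
    obtain ⟨N, hN⟩ := hw.2 l
    refine ⟨N, ?_⟩
    have h1 : ((1 : Ra κ n e) ⊗ₜ[κ] fz κ (xv J l ^ N) : FR J e) * (-w) =
        -(((1 : Ra κ n e) ⊗ₜ[κ] fz κ (xv J l ^ N) : FR J e) * w) := by
      refine (neg_eq_of_add_eq_zero_right ?_).symm
      rw [← mul_add, add_neg_cancel, mul_zero]
    rw [h1]
    exact AddSubgroup.neg_mem _ hN

theorem satF_sta (hJ : IsHomog J) (he : 1 ≤ e) (q : ℕ) : Sta J e (q + 1) (satF J e q) := by
  refine ⟨fun w hw => hw.1, ?_, ?_⟩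
  · intro t w hw
    refine ⟨tz_mul_FdG t hw.1, fun l => ?_⟩
    obtain ⟨N, hN⟩ := hw.2 l
    refine ⟨N, ?_⟩
    rw [GSat_comm]
    exact GSat_mul t hN
  · intro j w hw
    refine ⟨OmR_le (prR_mem hJ hw.1 j), fun l => ?_⟩
    obtain ⟨N, hN⟩ := hw.2 l
    refine ⟨N, ?_⟩
    have h1 := prR_xm hJ (Finsupp.single l N) hw.1 j
    rw [xm_single] at h1
    rw [← h1]
    exact (imF_sta hJ q).pr _ _ hN

/-- `satF` and `imF` agree in high degrees -/
theorem satF_high (hJ : IsHomog J) (he : 1 ≤ e) (q : ℕ) :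
    ∃ j0, ∀ j, j0 ≤ j → ∀ w ∈ satF J e q, w ∈ OmR J e (q + 1) (j + e) → Exd J e q j w := by
  obtain ⟨j0, h0⟩ := high hJ (satF_sta hJ he q) (imF_sta hJ q) fun w hw l => hw.2 l
  exact ⟨j0, fun j hj w hw hw' => imF_hom hJ (h0 (j + e) (le_trans hj (Nat.le_add_right j e)) w hw hw') hw'⟩

end MPadcDC
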