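import Pool.Agent.Lib.MP_adc574_ag_DC.GSat
import Pool.Agent.Lib.MP_adc574_ag_DC.GLocB
import Pool.Agent.Lib.MP_adc574_ag_DC.GPb
import Pool.Agent.Lib.MP_adc574_ag_DC.GFra

/-!
# GSatI: the saturation can be tested at one coordinate

JOB GSatI.
* `sat_iff`: for a top form `w` over `R` and one `l` with `x_l ∉ J`: `w ∈ satF J e m ↔ epsG (loF_l w) = 0`. [`→`: `loF_im`, `pb_iff`. `←`: `x_l^N w ∈ imF` by
  `pb_iff`, `loF_im`. For another `l'` with `x_{l'} ∉ J` (with `exists_fra`): so `epsG' (loF' (x_l^N w)) = 0`, i.e. `tz (1 ⊗ x_l^N) * epsG' (loF' w) = 0` at `l'`,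
  `x_l ≠ 0` in `S[1/x_{l'}]` (`lx_ne`), `tz_reg`. For `x_{l'} ∈ J`: `xv_zero`.]
* `pb_indep`: the ideals `PbC` at `l` and `l'` are equal. [Choose a form `w0 ∈ Fd κ S (m+1)` with nonzero image at `l'` (`exists_top`, `mp_surj`);
  `r ∈ PbC_l` gives `epsG (loF (r ⊗ w0)) = 0` (`epsG_tmul`), so `r ⊗ w0 ∈ satF`, so `epsG' = 0` at `l'`, `pb_iff`, `pb_char`.]

-/

set_option autoImplicit false

namespace MPadcDC

open MvPolynomial TensorProduct MPadcGP

universe u v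

variable {κ : Type u} [Field κ] [CharZero κ] {n : ℕ} {J : Ideal (MvPolynomial (Fin n) κ)} {e m : ℕ}

omit [CharZero κ] in
private theorem GSatI_ne {Γ : Type} [Fintype Γ] {C : Type u} [CommRing C] [Algebra κ C] {c : C} (hc : c ≠ 0) :
    ((1 : MvPolynomial Γ κ) ⊗ₜ[κ] c) ≠ 0 := by
  intro h
  let φ : MvPolynomial Γ κ ⊗[κ] C →ₐ[κ] C :=
    Algebra.TensorProduct.lift (MvPolynomial.aeval fun _ => (0 : C)) (AlgHom.id κ C) fun _ _ => Commute.all _ _
  have h1 : φ ((1 : MvPolynomial Γ κ) ⊗ₜ[κ] c) = c := by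
    change Algebra.TensorProduct.lift (MvPolynomial.aeval fun _ => (0 : C)) (AlgHom.id κ C)
      (fun _ _ => Commute.all _ _) ((1 : MvPolynomial Γ κ) ⊗ₜ[κ] c) = c
    rw [Algebra.TensorProduct.lift_tmul, map_one, one_mul]
    rfl
  rw [h, map_zero] at h1
  exact hc h1.symm

private theorem GSatI_e {Γ : Type} [Fintype Γ] {C : Type u} [CommRing C] [IsDomain C] [Algebra κ C] {b : Γ → C}
    {D : Γ → Derivation κ C C} {m : ℕ} (hF : Fra κ b D m) {c : C} (hc : c ≠ 0) {y w : FG κ Γ C}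
    (h : thG κ b * y = (tz ((1 : MvPolynomial Γ κ) ⊗ₜ[κ] c) : FG κ Γ C) * w) : epsG b D w = 0 := by
  have h1 := congrArg (epsG b D) h
  rw [map_mul, epsG_thG hF, zero_mul, map_mul, epsG_tz, eps0_C] at h1
  exact tz_reg hF (GSatI_ne hc) h1.symm

omit [CharZero κ] in
private theorem GSatI_pb {Γ : Type} [Fintype Γ] {C : Type u} [CommRing C] [Algebra κ C] {b : Γ → C}
    {D : Γ → Derivation κ C C} {r : MvPolynomial Γ κ} (hr : r ∈ PbC b D) (w : Fm κ C) :
    epsG b D (r ⊗ₜ[κ] w) = 0 := by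
  rw [epsG_tmul, mem_PbC.1 hr, map_zero, zero_mul]

omit [CharZero κ] in
private theorem GSatI_f {E : Type u} {E' : Type u} [Ring E] [Ring E'] (f : E →+* E') {T b z w : E} {T' z' : E'}
    (hT : f T = T') (hz : f (z * w) = z' * f w) (h : T * b = z * w) : T' * f b = z' * f w := by
  rw [← hT, ← map_mul, h, hz]

omit [CharZero κ] in
private theorem GSatI_g {E : Type u} {E' : Type u} [Ring E] [Ring E'] (f : E →+* E') {z w : E} {z' : E'}
    (hz : f z = z') : f (z * w) = z' * f w := by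
  rw [map_mul, hz]

omit [CharZero κ] in
private theorem GSatI_top {C C' : Type u} [CommRing C] [CommRing C'] [Algebra κ C] [Algebra κ C'] [Algebra C C']
    [IsScalarTower κ C C'] (M : Submonoid C) [IsLocalization M C'] (hcc : CC κ κ (algebraMap C C')) {q : ℕ}
    {w' : Fm κ C'} (hw' : w' ∈ Fd κ C' q) (hw0 : w' ≠ 0) : ∃ w ∈ Fd κ C q, mp (algebraMap C C') hcc w ≠ 0 := by
  obtain ⟨x, hx, w, hw, h1⟩ := mp_surj (A := κ) M hcc hw'
  refine ⟨w, hw, ?_⟩
  rw [← h1]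
  intro h2
  have h3 : IsUnit (algebraMap C C' x) := IsLocalization.map_units C' (⟨x, hx⟩ : M)
  obtain ⟨y, hy⟩ := h3.exists_left_inv
  have h4 : fz κ y * (fz κ (algebraMap C C' x) * w') = w' := by
    rw [← mul_assoc, ← map_mul, hy, map_one, one_mul]
  rw [h2, mul_zero] at h4
  exact hw0 h4.symm

omit [CharZero κ] in
private theorem GSatI_loF (l l' : Fin n) (N : ℕ) (w : FR J e) :
    loF J e l' (((1 : Ra κ n e) ⊗ₜ[κ] fz κ (xv J l ^ N) : FR J e) * w) =
      (tz ((1 : Ra κ n e) ⊗ₜ[κ] (lx J {l'} l ^ N)) : FL J e l') * loF J e l' w := by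
  have h1 : mp (lm J l' : CR J →+* LR J {l'}) (CC.of_algHom (lm J l')) (fz κ (xv J l ^ N)) =
      fz κ (lx J {l'} l ^ N) := by
    refine (mp_fz (CC.of_algHom (lm J l')) (xv J l ^ N)).trans ?_
    rw [map_pow]
    rfl
  exact @GSatI_g (FR J e) (FL J e l') _ _ (loF J e l').toRingHom _ _ _
    ((loG_tmul (lm J l') (1 : Ra κ n e) (fz κ (xv J l ^ N))).trans (congrArg (fun z => (1 : Ra κ n e) ⊗ₜ[κ] z) h1))

theorem sat_iff (hJ : Good J m) (he : 1 ≤ e) {l : Fin n} (hl : (X l : MvPolynomial (Fin n) κ) ∉ J)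
    {D : Mon n e → Derivation κ (LR J {l}) (LR J {l})} (hF : Fra κ (bl J e l) D m) {w : FR J e}
    (hw : w ∈ FdG κ (Mon n e) (C := CR J) (m + 1)) : w ∈ satF J e m ↔ epsG (bl J e l) D (loF J e l w) = 0 := by
  have hdl : IsDomain (LR J {l}) := LR_domain hJ.prime hl
  have hw' : loF J e l w ∈ FdG κ (Mon n e) (C := LR J {l}) (m + 1) := loG_mem (lm J l) hw
  constructor
  · intro hs
    obtain ⟨N, hN⟩ := hs.2 l
    obtain ⟨b, hb, hb'⟩ := hN
    rw [← pb_iff hF hw']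
    exact (loF_im l hw).2 ⟨N, b, hb, hb'⟩
  · intro h0
    have hh := (loF_im l hw).1 ((pb_iff hF hw').2 h0)
    obtain ⟨N, b, hb, hb'⟩ := hh
    refine ⟨hw, fun l' => ?_⟩
    by_cases hl' : (X l' : MvPolynomial (Fin n) κ) ∈ J
    · refine ⟨1, ?_⟩
      rw [xv_zero l' hl', pow_one, map_zero, TensorProduct.tmul_zero, zero_mul]
      exact AddSubgroup.zero_mem _
    · have hdl' : IsDomain (LR J {l'}) := LR_domain hJ.prime hl'
      have hfr := exists_fra hJ he hl'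
      obtain ⟨D', hF', -⟩ := hfr
      have hw'' : loF J e l' w ∈ FdG κ (Mon n e) (C := LR J {l'}) (m + 1) := loG_mem (lm J l') hw
      have h2 : epsG (bl J e l') D' (loF J e l' w) = 0 :=
        GSatI_e hF' (pow_ne_zero N (lx_ne hJ.prime hl' hl))
          (@GSatI_f (FR J e) (FL J e l') _ _ (loF J e l').toRingHom _ _ _ _ _ _ (loF_thF l') (GSatI_loF l l' N w) hb')
      have hh2 := (loF_im l' hw).1 ((pb_iff hF' hw'').2 h2)
      obtain ⟨N', b', hb1, hb2⟩ := hh2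
      exact ⟨N', b', hb1, hb2⟩

theorem pb_indep (hJ : Good J m) (he : 1 ≤ e) {l l' : Fin n} (hl : (X l : MvPolynomial (Fin n) κ) ∉ J)
    (hl' : (X l' : MvPolynomial (Fin n) κ) ∉ J)
    {D : Mon n e → Derivation κ (LR J {l}) (LR J {l})} (hF : Fra κ (bl J e l) D m)
    {D' : Mon n e → Derivation κ (LR J {l'}) (LR J {l'})} (hF' : Fra κ (bl J e l') D' m) :
    PbC (bl J e l) D = PbC (bl J e l') D' := by
  have key : ∀ {l l' : Fin n}, (X l : MvPolynomial (Fin n) κ) ∉ J → (X l' : MvPolynomial (Fin n) κ) ∉ J →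
      ∀ {D : Mon n e → Derivation κ (LR J {l}) (LR J {l})}, Fra κ (bl J e l) D m →
      ∀ {D' : Mon n e → Derivation κ (LR J {l'}) (LR J {l'})}, Fra κ (bl J e l') D' m →
      PbC (bl J e l) D ≤ PbC (bl J e l') D' := by
    intro l l' hl hl' D hF D' hF' r hr
    have hdl : IsDomain (LR J {l}) := LR_domain hJ.prime hl
    have hdl' : IsDomain (LR J {l'}) := LR_domain hJ.prime hl'
    have ht := exists_top hF'
    obtain ⟨w', hw', hw0⟩ := ht
    have hs := @GSatI_top κ _ (CR J) (LR J {l'}) _ _ _ _ _ _ (Submonoid.powers (Ideal.Quotient.mk J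
      (∏ j ∈ ({l'} : Finset (Fin n)), X j))) _ cc_alg _ w' hw' hw0
    obtain ⟨w, hw, hne⟩ := hs
    have hmp : mp (algebraMap (CR J) (LR J {l'})) cc_alg w ∈ Fd κ (LR J {l'}) (m + 1) := mp_mem _ hw
    have hrw : (r ⊗ₜ[κ] w : FR J e) ∈ FdG κ (Mon n e) (C := CR J) (m + 1) := tmul_FdG r hw
    have hsat : (r ⊗ₜ[κ] w : FR J e) ∈ satF J e m := by
      rw [sat_iff hJ he hl hF hrw]
      have h2 : loF J e l (r ⊗ₜ[κ] w : FR J e) = r ⊗ₜ[κ] mp (lm J l : CR J →+* LR J {l}) (CC.of_algHom (lm J l)) w :=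
        loG_tmul (lm J l) r w
      exact (congrArg (epsG (bl J e l) D) h2).trans (GSatI_pb hr _)
    rw [sat_iff hJ he hl' hF' hrw] at hsat
    have hw2 : loF J e l' (r ⊗ₜ[κ] w : FR J e) ∈ FdG κ (Mon n e) (C := LR J {l'}) (m + 1) := loG_mem (lm J l') hrw
    have h5 := (pb_iff hF' hw2).2 hsat
    have h6 : loF J e l' (r ⊗ₜ[κ] w : FR J e) = r ⊗ₜ[κ] mp (algebraMap (CR J) (LR J {l'})) cc_alg w :=
      loG_tmul (lm J l') r w
    rw [h6] at h5
    exact pb_char hF' hmp hne h5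
  exact le_antisymm (key hl hl' hF hF') (key hl' hl hF' hF)

end MPadcDC
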