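import Pool.Agent.Lib.MP_adc574_ag_DC.GCyc
import Pool.Agent.Lib.MP_adc574_ag_GP.Mod5

/-!
# GSmL: the chart `z ≠ 0` of the cyclic cover

`B = chart (cyc I F e) {last}` with the functions `y_l = x_l / z`.
* `span_y`: `F(y) = 1` and `F` is homogeneous of degree `e ≥ 1`, so the `y_l` generate the unit ideal.
* `smooth_last`: the localization of `B` at `y_l` is `chart {last, l}`, also a localization of `chart {l}`, so smooth;
  smoothness is local.
-/

set_option autoImplicit false

namespace MPadcDC

open MvPolynomial TensorProduct MPadcGP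

universe u v

variable {A : Type u} [Field A] {n e : ℕ} {I : Ideal (MvPolynomial (Fin n) A)} {F : MvPolynomial (Fin n) A}

theorem span_y (hI : IsHomog I) (hF : F.IsHomogeneous e) (he : 1 ≤ e) :
    Ideal.span (Set.range fun l : Fin n => cq (cyc I F e) {Fin.last n} l.castSucc (Finset.mem_singleton_self _)) = ⊤ := by
  rw [Ideal.eq_top_iff_one]
  have h1 : (X (Fin.last n) ^ e - rename Fin.castSucc F : MvPolynomial (Fin (n + 1)) A) ∈ cyc I F e :=
    Ideal.mem_sup_right (Ideal.subset_span rfl)
  have h2 := eval₂_cq (cyc_homog hI hF) (J := {Fin.last n}) (Finset.mem_singleton_self _) h1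
  rw [eval₂_sub, eval₂_pow, eval₂_X, cq_self, one_pow, eval₂_rename] at h2
  have h3 := sub_eq_zero.1 h2
  rw [h3, eval₂_eq']
  refine Ideal.sum_mem _ fun d hd => Ideal.mul_mem_left _ _ ?_
  have h4 : ∑ l, d l = e := by
    have h5 := hF (mem_support_iff.1 hd)
    rw [Finsupp.weight_apply, Finsupp.sum_fintype _ _ (fun _ => by simp)] at h5
    simpa using h5
  have h5 : ∃ l, d l ≠ 0 := by
    by_contra h
    push Not at h
    rw [Finset.sum_eq_zero fun l _ => h l] at h4
    omega
  obtain ⟨l, hl⟩ := h5
  refine Ideal.mem_of_dvd _ ((dvd_pow_self _ hl).trans (Finset.dvd_prod_of_mem _ (Finset.mem_univ l))) ?_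
  exact Ideal.subset_span ⟨l, rfl⟩

theorem smooth_last (hI : IsHomog I) (hF : F.IsHomogeneous e) (he : 1 ≤ e)
    (h : ∀ l : Fin n, Algebra.Smooth A (chart (cyc I F e) (cs {l}))) :
    Algebra.Smooth A (chart (cyc I F e) {Fin.last n}) := by
  have hH : IsHomog (cyc I F e) := cyc_homog hI hF
  have hfp : Algebra.FinitePresentation A (chart (cyc I F e) {Fin.last n}) := chart_finitePresentation _ _
  have key : ∀ l : Fin n, Algebra.FormallySmooth A (Localization.Away
      (cq (cyc I F e) {Fin.last n} l.castSucc (Finset.mem_singleton_self _))) := by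
    intro l
    have hne : Fin.last n ≠ l.castSucc := (Fin.castSucc_lt_last l).ne'
    have hs1 : ({Fin.last n} : Finset (Fin (n + 1))) ⊆ {Fin.last n, l.castSucc} :=
      Finset.singleton_subset_iff.2 (Finset.mem_insert_self _ _)
    have hs2 : cs {l} ⊆ ({Fin.last n, l.castSucc} : Finset (Fin (n + 1))) := by
      unfold cs
      rw [Finset.map_singleton]
      exact Finset.singleton_subset_iff.2 (Finset.mem_insert_of_mem (Finset.mem_singleton_self _))
    have hl : l.castSucc ∈ cs {l} := mem_cs.2 (Finset.mem_singleton_self _)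
    -- smooth
    have h1 : Algebra.Smooth A (chart (cyc I F e) {Fin.last n, l.castSucc}) := by
      let _ : Algebra (chart (cyc I F e) (cs {l})) (chart (cyc I F e) {Fin.last n, l.castSucc}) :=
        (tr (cyc I F e) hs2).toRingHom.toAlgebra
      have h2 : IsScalarTower A (chart (cyc I F e) (cs {l})) (chart (cyc I F e) {Fin.last n, l.castSucc}) :=
        IsScalarTower.of_algebraMap_eq fun a => ((tr (cyc I F e) hs2).commutes a).symm
      have h3 : IsLocalization.Away (∏ j ∈ ({Fin.last n, l.castSucc} : Finset (Fin (n + 1))),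
          cq (cyc I F e) (cs {l}) j hl) (chart (cyc I F e) {Fin.last n, l.castSucc}) :=
        tr_isLocalization hH hs2 hl
      have h4 : Algebra.Smooth (chart (cyc I F e) (cs {l})) (chart (cyc I F e) {Fin.last n, l.castSucc}) :=
        Algebra.Smooth.of_isLocalization_Away (∏ j ∈ ({Fin.last n, l.castSucc} : Finset (Fin (n + 1))),
          cq (cyc I F e) (cs {l}) j hl)
      have h5 := h l
      exact Algebra.Smooth.comp A (chart (cyc I F e) (cs {l})) (chart (cyc I F e) {Fin.last n, l.castSucc})
    -- localization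
    let _ : Algebra (chart (cyc I F e) {Fin.last n}) (chart (cyc I F e) {Fin.last n, l.castSucc}) :=
      (tr (cyc I F e) hs1).toRingHom.toAlgebra
    have h2 : IsScalarTower A (chart (cyc I F e) {Fin.last n}) (chart (cyc I F e) {Fin.last n, l.castSucc}) :=
      IsScalarTower.of_algebraMap_eq fun a => ((tr (cyc I F e) hs1).commutes a).symm
    have h3 : IsLocalization.Away (∏ j ∈ ({Fin.last n, l.castSucc} : Finset (Fin (n + 1))),
        cq (cyc I F e) {Fin.last n} j (Finset.mem_singleton_self _)) (chart (cyc I F e) {Fin.last n, l.castSucc}) :=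
      tr_isLocalization hH hs1 (Finset.mem_singleton_self _)
    rw [Finset.prod_pair hne, cq_self, one_mul] at h3
    have h4 := (IsLocalization.algEquiv (Submonoid.powers
      (cq (cyc I F e) {Fin.last n} l.castSucc (Finset.mem_singleton_self _)))
      (chart (cyc I F e) {Fin.last n, l.castSucc}) (Localization.Away
      (cq (cyc I F e) {Fin.last n} l.castSucc (Finset.mem_singleton_self _)))).restrictScalars A
    exact Algebra.FormallySmooth.of_equiv h4
  refine ⟨?_, hfp⟩
  rw [← Algebra.smoothLocus_eq_univ_iff, ← Set.univ_subset_iff, ← TopologicalSpace.Opens.coe_top,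
    ← PrimeSpectrum.iSup_basicOpen_eq_top_iff.2 (span_y hI hF he), TopologicalSpace.Opens.coe_iSup,
    Set.iUnion_subset_iff]
  intro l
  exact Algebra.basicOpen_subset_smoothLocus_iff.2 (key l)

end MPadcDC
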