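import Mathlib

/-!
# GTr: derivations and the rank of the module of differentials

JOB GTr. The `A`-linear map `π : (Γ → A) → Ω[A⁄κ]`, `c ↦ ∑ c_g d(y_g)` is surjective (`hy`), so it has a section `s` (projective);
`δ g x = (s (dx)) g`. The trace `∑ δ_g(y_g)` is the trace of the idempotent endomorphism `s ∘ π` of `Γ → A`; it is the rank: pass to the
fraction field `L` of `A` (base change of `s ∘ π` is a projection of `Γ → L` onto a subspace of dimension `finrank`;
`LinearMap.IsProj.trace`, `LinearMap.trace_baseChange`, `finrank` of a module over a domain = dimension over `L`: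
`IsLocalizedModule.finrank_eq` / `Module.finrank_of_isFractionRing`).
-/

set_option autoImplicit false

namespace MPadcDC

universe u

open TensorProduct in
private theorem GTr_trace {A : Type u} [CommRing A] [IsDomain A] {M : Type u} [AddCommGroup M] [Module A M]
    [Module.Finite A M] {Γ : Type} [Fintype Γ] (π : (Γ → A) →ₗ[A] M) (s : M →ₗ[A] (Γ → A))
    (h : π ∘ₗ s = LinearMap.id) : LinearMap.trace A (Γ → A) (s ∘ₗ π) = (Module.finrank A M : A) := by
  let L := FractionRing A
  have hinj : Function.Injective (algebraMap A L) := IsFractionRing.injective A L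
  apply hinj
  have hloc : IsLocalizedModule (nonZeroDivisors A) (TensorProduct.mk A L M 1) :=
    (isLocalizedModule_iff_isBaseChange (nonZeroDivisors A) L _).2 (TensorProduct.isBaseChange A M L)
  have h1 : Module.finrank L (L ⊗[A] M) = Module.finrank A M := by
    rw [IsLocalization.finrank_eq L (nonZeroDivisors A) le_rfl]
    exact IsLocalizedModule.finrank_eq (nonZeroDivisors A) (TensorProduct.mk A L M 1) le_rfl
  rw [← LinearMap.trace_baseChange, LinearMap.baseChange_comp, LinearMap.trace_comp_comm', ← LinearMap.baseChange_comp, h,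
    LinearMap.baseChange_id, LinearMap.trace_id, h1, map_natCast]

theorem exists_split {κ : Type u} [Field κ] [CharZero κ] {A : Type u} [CommRing A] [IsDomain A] [Algebra κ A]
    [Module.Finite A (Ω[A⁄κ])] [Module.Projective A (Ω[A⁄κ])] {m : ℕ} (hm : Module.finrank A (Ω[A⁄κ]) = m)
    {Γ : Type} [Fintype Γ] (y : Γ → A) (hy : Submodule.span A (Set.range fun g => KaehlerDifferential.D κ A (y g)) = ⊤) :
    ∃ δ : Γ → Derivation κ A A,
      (∀ x, ∑ g, δ g x • KaehlerDifferential.D κ A (y g) = KaehlerDifferential.D κ A x) ∧
      ∑ g, δ g (y g) = (m : A) := by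
  classical
  let π : (Γ → A) →ₗ[A] Ω[A⁄κ] := Fintype.linearCombination A (fun g => KaehlerDifferential.D κ A (y g))
  have hπ : Function.Surjective π := by
    rw [← LinearMap.range_eq_top, Fintype.range_linearCombination]
    exact hy
  obtain ⟨s, hs⟩ := Module.projective_lifting_property π LinearMap.id hπ
  have hπc : ∀ c : Γ → A, π c = ∑ g, c g • KaehlerDifferential.D κ A (y g) := fun c =>
    Fintype.linearCombination_apply A _ c
  refine ⟨fun g => ((LinearMap.proj g : (Γ → A) →ₗ[A] A) ∘ₗ s).compDer (KaehlerDifferential.D κ A), ?_, ?_⟩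
  · intro x
    have h1 := LinearMap.congr_fun hs (KaehlerDifferential.D κ A x)
    rw [LinearMap.comp_apply, hπc] at h1
    exact h1
  · have h1 := GTr_trace π s hs
    rw [hm, LinearMap.trace_eq_matrix_trace A (Pi.basisFun A Γ)] at h1
    rw [← h1, Matrix.trace]
    refine Finset.sum_congr rfl fun g _ => ?_
    rw [Matrix.diag_apply, LinearMap.toMatrix_apply]
    have h2 : π (Pi.basisFun A Γ g) = KaehlerDifferential.D κ A (y g) := by
      rw [hπc]
      rw [Finset.sum_eq_single g]
      · simp
      · intro b _ hb
        simp [Pi.basisFun_apply, Pi.single_eq_of_ne hb]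
      · intro h; exact absurd (Finset.mem_univ g) h
    rw [LinearMap.comp_apply, h2]
    simp [Pi.basisFun_repr]

end MPadcDC
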