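import Pool.Agent.Lib.MP_adc574_ag_DC.GKosA

/-!
# GTz: multiplication with functions in `FG κ Γ C`
-/

set_option autoImplicit false

namespace MPadcDC

open MvPolynomial TensorProduct MPadcGP

universe u v

variable {κ : Type u} [Field κ] {Γ : Type} [Fintype Γ] {C : Type u} [CommRing C] [Algebra κ C]

theorem tz_apply (r : MvPolynomial Γ κ) (c : C) : (tz (r ⊗ₜ[κ] c) : FG κ Γ C) = r ⊗ₜ[κ] fz κ c := rfl

theorem FG_mul (r s : MvPolynomial Γ κ) (v w : Fm κ C) :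
    ((r ⊗ₜ[κ] v : FG κ Γ C) * (s ⊗ₜ[κ] w : FG κ Γ C)) = (r * s) ⊗ₜ[κ] (v * w) :=
  Algebra.TensorProduct.tmul_mul_tmul ..

theorem ctG_apply (θ : Derivation κ C C) (r : MvPolynomial Γ κ) (v : Fm κ C) :
    ctG θ (r ⊗ₜ[κ] v : FG κ Γ C) = r ⊗ₜ[κ] ct κ θ v := rfl

theorem ctG_tz1 (θ : Derivation κ C C) (c : C) (w : FG κ Γ C) :
    ctG θ ((tz ((1 : MvPolynomial Γ κ) ⊗ₜ[κ] c) : FG κ Γ C) * w) =
      (tz ((1 : MvPolynomial Γ κ) ⊗ₜ[κ] c) : FG κ Γ C) * ctG θ w := by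
  induction w using TensorProduct.induction_on with
  | zero => rw [mul_zero, map_zero, mul_zero]
  | add x y hx hy => rw [mul_add, map_add, hx, hy, map_add, mul_add]
  | tmul r v =>
    rw [tz_apply, FG_mul, ctG_apply, ctG_apply, FG_mul, ← fz_smul, map_smul, fz_smul]

theorem tz1_tz1 (c c' : C) (w : FG κ Γ C) :
    (tz ((1 : MvPolynomial Γ κ) ⊗ₜ[κ] c) : FG κ Γ C) * ((tz ((1 : MvPolynomial Γ κ) ⊗ₜ[κ] c') : FG κ Γ C) * w) =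
      (tz ((1 : MvPolynomial Γ κ) ⊗ₜ[κ] (c * c')) : FG κ Γ C) * w := by
  rw [← mul_assoc, ← tz_mul, Algebra.TensorProduct.tmul_mul_tmul, one_mul]

theorem tz1_one (w : FG κ Γ C) : (tz ((1 : MvPolynomial Γ κ) ⊗ₜ[κ] (1 : C)) : FG κ Γ C) * w = w := by
  have h1 : (tz ((1 : MvPolynomial Γ κ) ⊗ₜ[κ] (1 : C)) : FG κ Γ C) = 1 := by
    rw [tz_apply, map_one]
    rfl
  rw [h1, one_mul]

theorem ctG_step (θ : Derivation κ C C) (a b : C) (w : FG κ Γ C) :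
    (tz ((1 : MvPolynomial Γ κ) ⊗ₜ[κ] (a * b)) : FG κ Γ C) * ctG θ w =
      (tz ((1 : MvPolynomial Γ κ) ⊗ₜ[κ] a) : FG κ Γ C) *
        ctG θ ((tz ((1 : MvPolynomial Γ κ) ⊗ₜ[κ] b) : FG κ Γ C) * w) := by
  rw [ctG_tz1, tz1_tz1]

theorem tz_smul_apply (a : C) (r : MvPolynomial Γ κ) (v : Fm κ C) :
    (tz ((1 : MvPolynomial Γ κ) ⊗ₜ[κ] a) : FG κ Γ C) * (r ⊗ₜ[κ] v : FG κ Γ C) = r ⊗ₜ[κ] (fz κ a * v) := by
  rw [tz_apply, FG_mul, one_mul]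

theorem tz_smul_tz (r : MvPolynomial Γ κ) (c : C) (w : FG κ Γ C) :
    (tz (r ⊗ₜ[κ] c) : FG κ Γ C) * w = r • ((tz ((1 : MvPolynomial Γ κ) ⊗ₜ[κ] c) : FG κ Γ C) * w) := by
  have h1 : (tz (r ⊗ₜ[κ] c) : FG κ Γ C) = r • (tz ((1 : MvPolynomial Γ κ) ⊗ₜ[κ] c) : FG κ Γ C) := by
    rw [tz_apply, tz_apply, TensorProduct.smul_tmul', smul_eq_mul, mul_one]
  rw [h1, smul_mul_assoc]

theorem FG_smul (r : MvPolynomial Γ κ) (w : FG κ Γ C) :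
    r • w = (r ⊗ₜ[κ] (1 : Fm κ C) : FG κ Γ C) * w := by
  induction w using TensorProduct.induction_on with
  | zero => rw [smul_zero, mul_zero]
  | add x y hx hy => rw [smul_add, mul_add, hx, hy]
  | tmul a x => rw [Algebra.TensorProduct.tmul_mul_tmul, one_mul, TensorProduct.smul_tmul', smul_eq_mul]

theorem FG_mul_mul (r s : MvPolynomial Γ κ) (v : Fm κ C) :
    (r ⊗ₜ[κ] (1 : Fm κ C) : FG κ Γ C) * (s ⊗ₜ[κ] v : FG κ Γ C) = (r * s) ⊗ₜ[κ] v := by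
  rw [Algebra.TensorProduct.tmul_mul_tmul, one_mul]

end MPadcDC
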