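import Pool.Agent.Lib.MP_adc574_ag_DC.ABase
import Pool.Agent.Lib.MP_adc574_ag_BK.KeyG
import Pool.Agent.Lib.MP_adc574_ag_HM.AsmA
import Pool.Agent.Lib.MP_adc574_ag_HM.RegC

/-!
# DC, Part L: definitions

`k` is a field of characteristic `0`, `H` a vector space over `k(t) = RatFunc k` with a connection `nab` (`nab (f • x) = f' • x + f • nab x`, `f' = DZ k f`), `δ` an irreducible polynomial.
`InO δ f`: `f` is regular at `δ`. `Stp`: a lattice `E` over `k[t]` with `nab E ⊆ E + k[t] u`. `NB`, `NBD`: there are no bounded vectors / functionals. `nb1`, `nb2`: the connection and the dual connection in coordinates.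
`Bri`: the bridge between `κ[a]` and `k[t]`, `t = a_γ₀`.
-/

set_option autoImplicit false
set_option linter.unusedSectionVars false

namespace MPadcDC

open TensorProduct MPadcLP MPadcHM

universe u

section step

variable {k : Type u} [Field k] [CharZero k] {H : Type u} [AddCommGroup H] [Module (RatFunc k) H]
  [Module (Polynomial k) H] [IsScalarTower (Polynomial k) (RatFunc k) H]

/-- `f` is regular at `δ`. -/
def InO (δ : Polynomial k) (f : RatFunc k) : Prop :=
  ∃ s r : Polynomial k, ¬ δ ∣ s ∧ algebraMap (Polynomial k) (RatFunc k) s * f =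
    algebraMap (Polynomial k) (RatFunc k) r

/-- A lattice `E` with `nab E` in `E + k[X] u`. -/
structure Stp (nab : H →+ H) (δ : Polynomial k) (E : Submodule (Polynomial k) H) (u : H) (p : Polynomial k) :
    Prop where
  fg : E.FG
  spn : ∀ h : H, ∃ r : Polynomial k, r ≠ 0 ∧ r • h ∈ E
  du : δ • u ∈ E
  nabE : ∀ x ∈ E, ∃ q : Polynomial k, nab x - q • u ∈ E
  pu : nab (δ • u) - p • u ∈ E

/-- There are no bounded vectors. -/
def NB (nab : H →+ H) (δ : Polynomial k) : Prop :=
  ∀ E : Submodule (Polynomial k) H, E.FG → ∀ w : H,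
    (∀ n : ℕ, ∃ s : Polynomial k, ¬ δ ∣ s ∧ s • nab^[n] w ∈ E) → w = 0

/-- There are no bounded functionals. -/
def NBD (nab : H →+ H) (δ : Polynomial k) : Prop :=
  ∀ E : Submodule (Polynomial k) H, (∀ h : H, ∃ r : Polynomial k, r ≠ 0 ∧ r • h ∈ E) →
    ∀ z : ℕ → H →ₗ[RatFunc k] RatFunc k, (∀ n x, z (n + 1) x = DZ k (z n x) - z n (nab x)) →
      (∀ n, ∀ x ∈ E, InO δ (z n x)) → z 0 = 0

end step

section pkg

variable {k : Type u} [Field k] {ι : Type} [Fintype ι] [DecidableEq ι]

/-- The connection in coordinates. -/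
noncomputable def nb1 (Γ : Matrix ι ι (RatFunc k)) (w : ι → RatFunc k) : ι → RatFunc k :=
  fun i => DZ k (w i) + Γ.mulVec w i

/-- The dual connection in coordinates. -/
noncomputable def nb2 (Γ : Matrix ι ι (RatFunc k)) (z : ι → RatFunc k) : ι → RatFunc k :=
  fun i => DZ k (z i) - ∑ j, Γ j i * z j

end pkg

section bridge

open MvPolynomial

variable {κ : Type u} [Field κ] {Γ : Type} [Fintype Γ] [DecidableEq Γ]
  {K : Type u} [Field K] [Algebra (MvPolynomial Γ κ) K]

/-- The bridge between `κ[a]` and `k[t]`, `t = a_γ₀`. -/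
structure Bri (γ₀ : Γ) (π : MvPolynomial Γ κ) (dK : Derivation ℤ K K) (k : Type u) [Field k]
    (i : MvPolynomial Γ κ →+* Polynomial k) (φ : K ≃+* RatFunc k) : Prop where
  deriv : ∀ r, i (pderiv γ₀ r) = Polynomial.derivative (i r)
  irr : Irreducible (i π)
  dvd : ∀ s, i π ∣ i s → π ∣ s
  clear : ∀ f : Polynomial k, ∃ (c r : MvPolynomial Γ κ) (c' : k), c' ≠ 0 ∧ i c = Polynomial.C c' ∧
    ¬ π ∣ c ∧ Polynomial.C c' * f = i r
  alg : ∀ r, φ (algebraMap _ K r) = algebraMap (Polynomial k) (RatFunc k) (i r)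
  dphi : ∀ x, φ (dK x) = DZ k (φ x)

end bridge

end MPadcDC
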