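import Pool.Agent.Lib.MP_adc574_ag_DC.LBase

/-!
# JOB LBri1 (DC): the bridge

`Γ' := {γ // γ ≠ γ₀}`, `A' := MvPolynomial Γ' κ` (a UFD), `k := FractionRing A'`. `MvPolynomial Γ κ ≃ₐ MvPolynomial (Option Γ') κ ≃ₐ Polynomial A'` (`Equiv` `Γ ≃ Option Γ'`: `Equiv.optionSubtypeNe`-like (`Equiv.optionSubtypeNe γ₀ : Option {γ // γ ≠ γ₀} ≃ Γ`); `MvPolynomial.renameEquiv`, `MvPolynomial.optionEquivLeft κ Γ'`), called `ψ`; `ψ (X γ₀) = Polynomial.X`,
`ψ (X γ) = C (X γ)` for `γ ≠ γ₀`, `ψ (C c) = C (C c)`. `i := (Polynomial.mapRingHom (algebraMap A' k)).comp ψ`, injective.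
* `deriv`: both sides are derivations over `κ` (along `i`): check on the generators (`MvPolynomial.induction_on`: `C`, `+`, `* X`).
* `irr`: `ψ π` is prime in `A'[X]`, of positive degree (otherwise `derivative (ψ π) = 0`, so `pderiv γ₀ π = 0`), so it is primitive (a prime of positive degree is primitive: `Irreducible.isPrimitive` with `natDegree ≠ 0`), and irreducible over `k` by Gauss: `Polynomial.IsPrimitive.irreducible_iff_irreducible_map_fraction_map` (needs `NormalizedGCDMonoid A'`: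
  `UniqueFactorizationMonoid.toGCDMonoid` / `Classical.choice`-instances; `noncomputable`/`letI`).
* `dvd`: `i π ∣ i s` implies `ψ π ∣ ψ s`: `Polynomial.IsPrimitive.dvd_iff_fraction_map_dvd_fraction_map` needs both primitive; for general `s`: `s = 0` clear; `ψ s = C (content) * primPart` (`Polynomial.eq_C_content_mul_primPart`), the content is a unit in `k[X]`, so `i π ∣ map (primPart)`, so `ψ π ∣ primPart ∣ ψ s`; apply `ψ.symm`.
* `clear`: `IsLocalization.exist_integer_multiples` / `IsLocalization.integerNormalization` for the coefficients of `f`: `b : A'`, `b ≠ 0`, `C (algebraMap b) * f = map (..) g`, `g : A'[X]`; `c := ψ.symm (C b)`, `r := ψ.symm g`, `c' := algebraMap b`; `¬ π ∣ c`: `ψ π` has positive degree and `C b ≠ 0` has degree `0`.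
* `φ`: `K` and `RatFunc k` are both fraction fields of `MvPolynomial Γ κ` (`RatFunc k` via `i`: every element of `k[X]` is `i r / i c` by `clear`), e.g. define `φ := RingEquiv.ofBijective (IsFractionRing.lift (g := (algebraMap k[X] (RatFunc k)).comp i) injective)`; surjective: an element of `RatFunc k` is `algebraMap f / algebraMap g`, use `clear`. `alg` is `IsFractionRing.lift_algebraMap`.
* `dphi`: `x = algebraMap r / algebraMap s`: both sides satisfy the Leibniz rule: from `algebraMap s * x = algebraMap r`: `φ (dK ..)`: `i s * φ (dK x) + (i s)' * φ x = (i r)'`, the same equation as for `DZ k (φ x)` (`DZ_apply`, `DK_poly`, `deriv`); cancel `i s ≠ 0`.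
-/

set_option autoImplicit false
set_option linter.unusedSectionVars false

namespace MPadcDC

open TensorProduct MPadcLP MPadcHM

universe u

section psi

open MvPolynomial

variable {κ : Type u} [Field κ] {Γ : Type} [DecidableEq Γ]

/-- The isomorphism with the polynomials in the variable `γ₀`. -/
private noncomputable def LBri1_psi (κ : Type u) [Field κ] {Γ : Type} [DecidableEq Γ] (γ₀ : Γ) :
    MvPolynomial Γ κ ≃ₐ[κ] Polynomial (MvPolynomial {γ // γ ≠ γ₀} κ) :=
  (renameEquiv κ (Equiv.optionSubtypeNe γ₀).symm).trans (optionEquivLeft κ {γ // γ ≠ γ₀})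

private theorem LBri1_X0 (γ₀ : Γ) :
    LBri1_psi κ γ₀ (X γ₀) = Polynomial.X := by
  unfold LBri1_psi
  rw [AlgEquiv.trans_apply, renameEquiv_apply, rename_X, Equiv.optionSubtypeNe_symm_self,
    optionEquivLeft_X_none]

private theorem LBri1_X (γ₀ γ : Γ) (h : γ ≠ γ₀) :
    LBri1_psi κ γ₀ (X γ) = Polynomial.C (X ⟨γ, h⟩) := by
  unfold LBri1_psi
  rw [AlgEquiv.trans_apply, renameEquiv_apply, rename_X, Equiv.optionSubtypeNe_symm_of_ne h,
    optionEquivLeft_X_some]

private theorem LBri1_C (γ₀ : Γ) (c : κ) :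
    LBri1_psi κ γ₀ (C c) = Polynomial.C (C c) := by
  unfold LBri1_psi
  rw [AlgEquiv.trans_apply, renameEquiv_apply, rename_C, optionEquivLeft_C]

private theorem LBri1_der (γ₀ : Γ) (r : MvPolynomial Γ κ) :
    LBri1_psi κ γ₀ (pderiv γ₀ r) = Polynomial.derivative (LBri1_psi κ γ₀ r) := by
  induction r using MvPolynomial.induction_on with
  | C c => rw [pderiv_C, map_zero, LBri1_C, Polynomial.derivative_C]
  | add p q hp hq => rw [map_add, map_add, map_add, map_add, hp, hq]
  | mul_X p γ hp =>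
    rw [Derivation.leibniz, smul_eq_mul, smul_eq_mul, map_add, map_mul, map_mul, map_mul,
      Polynomial.derivative_mul, hp]
    by_cases h : γ = γ₀
    · subst h
      rw [pderiv_X_self, map_one, LBri1_X0, Polynomial.derivative_X]
      ring
    · rw [pderiv_X_of_ne h, map_zero, LBri1_X γ₀ γ h, Polynomial.derivative_C]
      ring

end psi

section frac

open MvPolynomial

variable {κ : Type u} [Field κ] {Γ : Type} [DecidableEq Γ] {k : Type u} [Field k]

/-- The embedding of `κ[a]` into `k[t]`. -/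
private noncomputable def LBri1_i (γ₀ : Γ) [Algebra (MvPolynomial {γ // γ ≠ γ₀} κ) k] :
    MvPolynomial Γ κ →+* Polynomial k :=
  (Polynomial.mapRingHom (algebraMap (MvPolynomial {γ // γ ≠ γ₀} κ) k)).comp
    (LBri1_psi κ γ₀).toRingEquiv.toRingHom

variable (γ₀ : Γ) [Algebra (MvPolynomial {γ // γ ≠ γ₀} κ) k]

private theorem LBri1_i_apply (r : MvPolynomial Γ κ) :
    LBri1_i (k := k) γ₀ r =
      (LBri1_psi κ γ₀ r).map (algebraMap (MvPolynomial {γ // γ ≠ γ₀} κ) k) := rfl

variable [IsFractionRing (MvPolynomial {γ // γ ≠ γ₀} κ) k]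

private theorem LBri1_i_inj : Function.Injective (LBri1_i (κ := κ) (k := k) γ₀) := by
  intro a b h
  rw [LBri1_i_apply, LBri1_i_apply] at h
  exact (LBri1_psi κ γ₀).injective (Polynomial.map_injective _ (IsFractionRing.injective _ _) h)

private theorem LBri1_deg {π : MvPolynomial Γ κ} (hγ : pderiv γ₀ π ≠ 0) :
    (LBri1_psi κ γ₀ π).natDegree ≠ 0 := by
  intro h
  refine hγ ((LBri1_psi κ γ₀).injective ?_)
  rw [map_zero, LBri1_der]
  rw [Polynomial.natDegree_eq_zero] at h
  obtain ⟨c, hc⟩ := h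
  rw [← hc, Polynomial.derivative_C]

private theorem LBri1_prim {π : MvPolynomial Γ κ} (hπ : Prime π) (hγ : pderiv γ₀ π ≠ 0) :
    (LBri1_psi κ γ₀ π).IsPrimitive := by
  have h1 : Prime (LBri1_psi κ γ₀ π) := (MulEquiv.prime_iff (LBri1_psi κ γ₀).toMulEquiv).2 hπ
  exact h1.irreducible.isPrimitive (LBri1_deg γ₀ hγ)

private theorem LBri1_irr {π : MvPolynomial Γ κ} (hπ : Prime π) (hγ : pderiv γ₀ π ≠ 0) :
    Irreducible (LBri1_i (k := k) γ₀ π) := by
  classical
  let _ : NormalizedGCDMonoid (MvPolynomial {γ // γ ≠ γ₀} κ) :=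
    Classical.choice (inferInstance : Nonempty (NormalizedGCDMonoid (MvPolynomial {γ // γ ≠ γ₀} κ)))
  have h1 : Prime (LBri1_psi κ γ₀ π) := (MulEquiv.prime_iff (LBri1_psi κ γ₀).toMulEquiv).2 hπ
  rw [LBri1_i_apply]
  exact (Polynomial.IsPrimitive.irreducible_iff_irreducible_map_fraction_map
    (LBri1_prim γ₀ hπ hγ)).1 h1.irreducible

private theorem LBri1_dvd {π : MvPolynomial Γ κ} (hπ : Prime π) (hγ : pderiv γ₀ π ≠ 0)
    (s : MvPolynomial Γ κ) (h : LBri1_i (k := k) γ₀ π ∣ LBri1_i (k := k) γ₀ s) : π ∣ s := by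
  classical
  let _ : NormalizedGCDMonoid (MvPolynomial {γ // γ ≠ γ₀} κ) :=
    Classical.choice (inferInstance : Nonempty (NormalizedGCDMonoid (MvPolynomial {γ // γ ≠ γ₀} κ)))
  rw [LBri1_i_apply, LBri1_i_apply] at h
  have h1 := Polynomial.IsPrimitive.dvd_of_fraction_map_dvd_fraction_map
    (LBri1_prim γ₀ hπ hγ) h
  obtain ⟨c, hc⟩ := h1
  refine ⟨(LBri1_psi κ γ₀).symm c, (LBri1_psi κ γ₀).injective ?_⟩
  rw [map_mul, AlgEquiv.apply_symm_apply, hc]

private theorem LBri1_clear {π : MvPolynomial Γ κ} (hγ : pderiv γ₀ π ≠ 0) (f : Polynomial k) :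
    ∃ (c r : MvPolynomial Γ κ) (c' : k), c' ≠ 0 ∧ LBri1_i (k := k) γ₀ c = Polynomial.C c' ∧
      ¬ π ∣ c ∧ Polynomial.C c' * f = LBri1_i (k := k) γ₀ r := by
  obtain ⟨b, hb, hbf⟩ := IsLocalization.integerNormalization_spec
    (nonZeroDivisors (MvPolynomial {γ // γ ≠ γ₀} κ)) f
  have hb0 : b ≠ 0 := nonZeroDivisors.ne_zero hb
  refine ⟨(LBri1_psi κ γ₀).symm (Polynomial.C b), (LBri1_psi κ γ₀).symm
    (IsLocalization.integerNormalization
      (nonZeroDivisors (MvPolynomial {γ // γ ≠ γ₀} κ)) f),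
    algebraMap (MvPolynomial {γ // γ ≠ γ₀} κ) k b, ?_, ?_, ?_, ?_⟩
  · intro h
    exact hb0 (IsFractionRing.injective (MvPolynomial {γ // γ ≠ γ₀} κ) k (h.trans (map_zero _).symm))
  · rw [LBri1_i_apply, AlgEquiv.apply_symm_apply, Polynomial.map_C]
  · rintro ⟨c, hc⟩
    have h1 : Polynomial.C b = LBri1_psi κ γ₀ π * LBri1_psi κ γ₀ c := by
      rw [← map_mul, ← hc, AlgEquiv.apply_symm_apply]
    have h2 := LBri1_deg γ₀ hγ
    have h3 : LBri1_psi κ γ₀ π ≠ 0 := fun h => h2 (by rw [h, Polynomial.natDegree_zero])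
    have h4 : LBri1_psi κ γ₀ c ≠ 0 := by
      intro h
      rw [h, mul_zero] at h1
      exact hb0 (Polynomial.C_eq_zero.1 h1)
    have h5 := congrArg Polynomial.natDegree h1
    rw [Polynomial.natDegree_C, Polynomial.natDegree_mul h3 h4] at h5
    omega
  · rw [LBri1_i_apply, AlgEquiv.apply_symm_apply, hbf, ← Polynomial.smul_eq_C_mul,
      algebraMap_smul]

end frac

section bridge

open MvPolynomial

variable {κ : Type u} [Field κ] [CharZero κ] {Γ : Type} [Fintype Γ] [DecidableEq Γ]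
  {K : Type u} [Field K] [Algebra (MvPolynomial Γ κ) K] [IsFractionRing (MvPolynomial Γ κ) K]

theorem exists_bri (γ₀ : Γ) (π : MvPolynomial Γ κ) (hπ : Prime π) (hγ : pderiv γ₀ π ≠ 0)
    (dK : Derivation ℤ K K) (hd : ∀ r : MvPolynomial Γ κ, dK (algebraMap (MvPolynomial Γ κ) K r) =
      algebraMap (MvPolynomial Γ κ) K (pderiv γ₀ r)) :
    ∃ (k : Type u) (_ : Field k) (_ : CharZero k) (i : MvPolynomial Γ κ →+* Polynomial k)
      (φ : K ≃+* RatFunc k), Bri γ₀ π dK k i φ := by
  classical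
  obtain ⟨k, _, _, _, _⟩ : ∃ (k : Type u) (_ : Field k)
      (_ : Algebra (MvPolynomial {γ // γ ≠ γ₀} κ) k)
      (_ : IsFractionRing (MvPolynomial {γ // γ ≠ γ₀} κ) k), CharZero k := by
    refine ⟨FractionRing (MvPolynomial {γ // γ ≠ γ₀} κ), inferInstance, inferInstance,
      inferInstance, ?_⟩
    have h1 : Function.Injective ((algebraMap (MvPolynomial {γ // γ ≠ γ₀} κ)
        (FractionRing (MvPolynomial {γ // γ ≠ γ₀} κ))).comp C) :=
      (IsFractionRing.injective (MvPolynomial {γ // γ ≠ γ₀} κ)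
        (FractionRing (MvPolynomial {γ // γ ≠ γ₀} κ))).comp (C_injective _ _)
    exact charZero_of_injective_ringHom h1
  have hinj := LBri1_i_inj (κ := κ) (k := k) γ₀
  obtain ⟨g, hg⟩ : ∃ g : MvPolynomial Γ κ →+* RatFunc k,
      g = (algebraMap (Polynomial k) (RatFunc k)).comp (LBri1_i γ₀) := ⟨_, rfl⟩
  have hg' : ∀ r, g r = algebraMap (Polynomial k) (RatFunc k) (LBri1_i γ₀ r) := by
    intro r
    rw [hg]
    rfl
  have hgi : Function.Injective g := by
    rw [hg]
    exact (RatFunc.algebraMap_injective k).comp hinj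
  have hlift : ∀ r, IsFractionRing.lift hgi (algebraMap (MvPolynomial Γ κ) K r) = g r :=
    fun r => IsFractionRing.lift_algebraMap hgi r
  have hsurj : Function.Surjective (IsFractionRing.lift hgi : K →+* RatFunc k) := by
    intro y
    obtain ⟨p, q, hq, rfl⟩ := IsFractionRing.div_surjective (A := Polynomial k) y
    have key : ∀ p : Polynomial k, ∃ x : K,
        IsFractionRing.lift hgi x = algebraMap (Polynomial k) (RatFunc k) p := by
      intro p
      obtain ⟨c, r, c', hc', hc, -, hr⟩ := LBri1_clear (k := k) γ₀ hγ p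
      refine ⟨algebraMap _ K r / algebraMap _ K c, ?_⟩
      have h2 : algebraMap (Polynomial k) (RatFunc k) (Polynomial.C c') ≠ 0 := by
        intro h
        have h3 := RatFunc.algebraMap_injective k (h.trans (map_zero _).symm)
        exact hc' (Polynomial.C_eq_zero.1 h3)
      rw [map_div₀, hlift, hlift, hg', hg', hc, ← hr, map_mul, mul_div_cancel_left₀ _ h2]
    obtain ⟨x, hx⟩ := key p
    obtain ⟨x', hx'⟩ := key q
    exact ⟨x / x', by rw [map_div₀, hx, hx']⟩
  obtain ⟨φ, hφ⟩ : ∃ φ : K ≃+* RatFunc k, ∀ x, φ x = IsFractionRing.lift hgi x :=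
    ⟨RingEquiv.ofBijective (IsFractionRing.lift hgi) ⟨RingHom.injective _, hsurj⟩, fun x => rfl⟩
  have halg : ∀ r : MvPolynomial Γ κ, φ (algebraMap _ K r) =
      algebraMap (Polynomial k) (RatFunc k) (LBri1_i (κ := κ) γ₀ r) := by
    intro r
    rw [hφ, hlift, hg']
  have hder : ∀ r : MvPolynomial Γ κ, LBri1_i (k := k) γ₀ (pderiv γ₀ r) =
      Polynomial.derivative (LBri1_i (k := k) γ₀ r) := by
    intro r
    rw [LBri1_i_apply, LBri1_i_apply, LBri1_der, Polynomial.derivative_map]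
  refine ⟨k, inferInstance, inferInstance, LBri1_i γ₀, φ, hder, LBri1_irr (k := k) γ₀ hπ hγ,
    LBri1_dvd (k := k) γ₀ hπ hγ, LBri1_clear (k := k) γ₀ hγ, halg, ?_⟩
  have hdr : ∀ r : MvPolynomial Γ κ, φ (dK (algebraMap _ K r)) = DZ k (φ (algebraMap _ K r)) := by
    intro r
    rw [hd, halg, halg, hder, DZ_apply, DK_poly]
  intro x
  obtain ⟨r, s, hs, rfl⟩ := IsFractionRing.div_surjective (A := MvPolynomial Γ κ) x
  have hs0 : algebraMap (MvPolynomial Γ κ) K s ≠ 0 := by
    intro h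
    exact nonZeroDivisors.ne_zero hs (IsFractionRing.injective (MvPolynomial Γ κ) K
      (h.trans (map_zero _).symm))
  obtain ⟨x, hx⟩ : ∃ x, x = algebraMap (MvPolynomial Γ κ) K r / algebraMap _ K s := ⟨_, rfl⟩
  rw [← hx]
  have h1 : algebraMap (MvPolynomial Γ κ) K s * x = algebraMap _ K r := by
    rw [hx, mul_div_cancel₀ _ hs0]
  have h2 : φ (algebraMap _ K s) * φ (dK x) + φ x * φ (dK (algebraMap _ K s)) =
      φ (dK (algebraMap _ K r)) := by
    rw [← h1, Derivation.leibniz, smul_eq_mul, smul_eq_mul, map_add, map_mul, map_mul]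
  have h3 : φ (algebraMap _ K s) * DZ k (φ x) + φ x * DZ k (φ (algebraMap _ K s)) =
      DZ k (φ (algebraMap _ K r)) := by
    rw [← h1, map_mul, DZ_apply, DZ_apply, DZ_apply, Derivation.leibniz, smul_eq_mul, smul_eq_mul]
  rw [hdr, hdr, ← h3] at h2
  have h4 : φ (algebraMap _ K s) ≠ 0 := by
    intro h
    exact hs0 (φ.injective (h.trans (map_zero φ).symm))
  exact mul_left_cancel₀ h4 (add_right_cancel h2)

end bridge

end MPadcDC
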