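import Pool.Agent.Lib.MP_adc574_ag_DC.LBase

/-!
# JOB LStp1 (DC): changing the step lattice

Leibniz for polynomials: for `q : k[X]`: `q • x = algebraMap q • x` (`algebraMap_smul`), `DZ k (algebraMap q) = algebraMap (derivative q)` (`DK_poly` in MPadcLP, `DZ_apply`), so `nab (q • x) = derivative q • x + q • nab x` (first lemma `nab_poly`).
* `stp_up`: `E' = E ⊔ span {u}`, elements `e + f • u` (`Submodule.mem_sup`, `mem_span_singleton`). `fg`, `spn` clear. `du`: `δ • nab u = nab (δ • u) - δ' • u`, `nab (δ • u) ∈ p • u + E`. `nabE`: `x = e + f • u`: `nab x = nab e + f' • u + f • nab u`, `nab e ∈ q • u + E`; take the polynomial `f`. `pu`: `δ • nab u = e₁ + (p - δ') • u` with `e₁ ∈ E`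
  (`e₁ = nab (δ • u) - p • u`), so `nab (δ • nab u) = nab e₁ + (p - δ')' • u + (p - δ') • nab u`, `nab e₁ ∈ E + k[X] u`.
* `stp_down`: `E' := {x ∈ E | nab x ∈ E}` is a `k[X]`-submodule (`nab (f • x) = f' • x + f • nab x`). `fg`: submodule of a finitely generated module over the noetherian ring `k[X]`. `δ • E ⊆ E'`: `nab (δ • x) = δ' • x + δ • nab x`, `δ • nab x ∈ q • (δ • u) + E ⊆ E`. `spn`: `r • h ∈ E`, so `(δ * r) • h ∈ E'`. Put `u' = δ • u`.
  `du`: `δ • u' ∈ E` as `u' ∈ E`, i.e. `δ • u' ∈ δ • E ⊆ E'`. `pu`: `nab (δ • u') = δ' • u' + δ • nab u'`, `nab u' = p • u + e` (`e ∈ E`), so `nab (δ • u') = (δ' + p) • u' + δ • e`, `δ • e ∈ E'`. `nabE`: `x ∈ E'`, `y = nab x ∈ E`, `nab y = q₀ • u + e`. For a polynomial `q`: `nab (q • u') = q' • u' + q • nab u' ∈ (q p) • u + E`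
  (`u' ∈ E`). As `δ` is irreducible and `¬ δ ∣ p` there is `q` with `δ ∣ q₀ - q p` (`IsCoprime δ p`: `Irreducible.coprime_iff_not_dvd`). Then `y - q • u' ∈ E` and `nab (y - q • u') ∈ (q₀ - q p) • u + E ⊆ E` (`δ • u ∈ E`). So `y - q • u' ∈ E'`.
-/

set_option autoImplicit false
set_option linter.unusedSectionVars false

namespace MPadcDC

open TensorProduct MPadcLP MPadcHM

universe u

section step

variable {k : Type u} [Field k] [CharZero k] {H : Type u} [AddCommGroup H] [Module (RatFunc k) H]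
  [Module (Polynomial k) H] [IsScalarTower (Polynomial k) (RatFunc k) H]

theorem nab_poly {nab : H →+ H} (hleib : ∀ (f : RatFunc k) x, nab (f • x) = DZ k f • x + f • nab x)
    (q : Polynomial k) (x : H) : nab (q • x) = Polynomial.derivative q • x + q • nab x := by
  have e : ∀ (r : Polynomial k) (y : H), r • y = algebraMap (Polynomial k) (RatFunc k) r • y :=
    fun r y => (algebraMap_smul (RatFunc k) r y).symm
  rw [e q x, hleib, e _ x, e q (nab x), DZ_apply, DK_poly]

theorem stp_up {nab : H →+ H} (hleib : ∀ (f : RatFunc k) x, nab (f • x) = DZ k f • x + f • nab x)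
    {δ : Polynomial k} {E : Submodule (Polynomial k) H} {u : H} {p : Polynomial k} (h : Stp nab δ E u p) :
    Stp nab δ (E ⊔ Submodule.span _ {u}) (nab u) (p - Polynomial.derivative δ) := by
  have hu : u ∈ E ⊔ Submodule.span (Polynomial k) {u} :=
    Submodule.mem_sup_right (Submodule.mem_span_singleton_self u)
  have hE : ∀ x ∈ E, x ∈ E ⊔ Submodule.span (Polynomial k) {u} := fun x hx => Submodule.mem_sup_left hx
  have hsm : ∀ q : Polynomial k, q • u ∈ E ⊔ Submodule.span (Polynomial k) {u} :=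
    fun q => Submodule.smul_mem _ q hu
  have hnab : ∀ x ∈ E, nab x ∈ E ⊔ Submodule.span (Polynomial k) {u} := by
    intro x hx
    obtain ⟨q, hq⟩ := h.nabE x hx
    have e : nab x = (nab x - q • u) + q • u := by rw [sub_add_cancel]
    rw [e]
    exact Submodule.add_mem _ (hE _ hq) (hsm q)
  have hd : δ • nab u = (nab (δ • u) - p • u) + (p - Polynomial.derivative δ) • u := by
    rw [nab_poly hleib, sub_smul]
    abel
  refine ⟨h.fg.sup (Submodule.fg_span_singleton u), ?_, ?_, ?_, ?_⟩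
  · intro x
    obtain ⟨r, hr, hrx⟩ := h.spn x
    exact ⟨r, hr, hE _ hrx⟩
  · rw [hd]
    exact Submodule.add_mem _ (hE _ h.pu) (hsm _)
  · intro x hx
    obtain ⟨e, he, z, hz, rfl⟩ := Submodule.mem_sup.1 hx
    obtain ⟨f, rfl⟩ := Submodule.mem_span_singleton.1 hz
    refine ⟨f, ?_⟩
    rw [map_add, nab_poly hleib]
    have e1 : nab e + (Polynomial.derivative f • u + f • nab u) - f • nab u =
        nab e + Polynomial.derivative f • u := by abel
    rw [e1]
    exact Submodule.add_mem _ (hnab e he) (hsm _)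
  · have e1 : nab (δ • nab u) - (p - Polynomial.derivative δ) • nab u =
        nab (nab (δ • u) - p • u) + Polynomial.derivative (p - Polynomial.derivative δ) • u := by
      rw [hd, map_add, nab_poly hleib (p - Polynomial.derivative δ) u]
      abel
    rw [e1]
    exact Submodule.add_mem _ (hnab _ h.pu) (hsm _)

theorem stp_down {nab : H →+ H} (hleib : ∀ (f : RatFunc k) x, nab (f • x) = DZ k f • x + f • nab x)
    {δ : Polynomial k} (hδ : Irreducible δ) {E : Submodule (Polynomial k) H} {u : H} {p : Polynomial k}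
    (h : Stp nab δ E u p) (hp : ¬ δ ∣ p) :
    ∃ E' : Submodule (Polynomial k) H, Stp nab δ E' (δ • u) (p + Polynomial.derivative δ) := by
  obtain ⟨E', hE'⟩ : ∃ E' : Submodule (Polynomial k) H, ∀ x, x ∈ E' ↔ x ∈ E ∧ nab x ∈ E := by
    refine ⟨{ carrier := {x | x ∈ E ∧ nab x ∈ E}, add_mem' := ?_, zero_mem' := ?_, smul_mem' := ?_ },
      fun x => Iff.rfl⟩
    · rintro x y ⟨hx1, hx2⟩ ⟨hy1, hy2⟩
      refine ⟨E.add_mem hx1 hy1, ?_⟩
      rw [map_add]
      exact E.add_mem hx2 hy2
    · refine ⟨E.zero_mem, ?_⟩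
      rw [map_zero]
      exact E.zero_mem
    · rintro f x ⟨hx1, hx2⟩
      refine ⟨E.smul_mem f hx1, ?_⟩
      rw [nab_poly hleib]
      exact E.add_mem (E.smul_mem _ hx1) (E.smul_mem _ hx2)
  have hδE : ∀ x ∈ E, δ • x ∈ E' := by
    intro x hx
    rw [hE']
    refine ⟨E.smul_mem δ hx, ?_⟩
    obtain ⟨q, hq⟩ := h.nabE x hx
    have e : nab (δ • x) = Polynomial.derivative δ • x + (q • (δ • u) + δ • (nab x - q • u)) := by
      rw [nab_poly hleib, smul_sub, smul_comm q δ u]
      abel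
    rw [e]
    exact E.add_mem (E.smul_mem _ hx) (E.add_mem (E.smul_mem _ h.du) (E.smul_mem _ hq))
  have hnu : nab (δ • u) = p • u + (nab (δ • u) - p • u) := by abel
  refine ⟨E', ?_, ?_, hδE _ h.du, ?_, ?_⟩
  · have hN : IsNoetherian (Polynomial k) E := isNoetherian_of_fg_of_noetherian E h.fg
    exact isNoetherian_submodule.1 hN E' (fun x hx => ((hE' x).1 hx).1)
  · intro x
    obtain ⟨r, hr, hrx⟩ := h.spn x
    refine ⟨δ * r, mul_ne_zero hδ.ne_zero hr, ?_⟩
    rw [mul_smul]
    exact hδE _ hrx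
  · intro x hx
    obtain ⟨hx1, hx2⟩ := (hE' x).1 hx
    obtain ⟨q₀, hq₀⟩ := h.nabE _ hx2
    obtain ⟨a, b, hab⟩ : IsCoprime δ p := (Irreducible.coprime_iff_not_dvd hδ).2 hp
    refine ⟨q₀ * b, ?_⟩
    rw [hE']
    refine ⟨E.sub_mem hx2 (E.smul_mem _ h.du), ?_⟩
    have e1 : q₀ - q₀ * b * p = q₀ * a * δ := by
      have : q₀ * 1 - q₀ * b * p = q₀ * a * δ := by
        rw [← hab]
        ring
      rwa [mul_one] at this
    have e : nab (nab x - (q₀ * b) • (δ • u)) = (nab (nab x) - q₀ • u) + (q₀ * a) • (δ • u) -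
        Polynomial.derivative (q₀ * b) • (δ • u) - (q₀ * b) • (nab (δ • u) - p • u) := by
      have e2 : (q₀ * a) • (δ • u) = q₀ • u - (q₀ * b) • (p • u) := by
        rw [← mul_smul, ← e1, sub_smul, ← mul_smul]
      rw [map_sub, nab_poly hleib (q₀ * b) (δ • u), e2, smul_sub]
      abel
    rw [e]
    exact E.sub_mem (E.sub_mem (E.add_mem hq₀ (E.smul_mem _ h.du)) (E.smul_mem _ h.du))
      (E.smul_mem _ h.pu)
  · have e : nab (δ • (δ • u)) - (p + Polynomial.derivative δ) • (δ • u) =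
        δ • (nab (δ • u) - p • u) := by
      rw [nab_poly hleib δ (δ • u), add_smul, smul_sub, smul_comm δ p u]
      abel
    rw [e]
    exact hδE _ h.pu

end step

end MPadcDC
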