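import Pool.Agent.Lib.MP_adc574_ag_DC.LBase
import Pool.Agent.Lib.MP_adc574_ag_DC.LStp1
import Pool.Agent.Lib.MP_adc574_ag_DC.ALat2

/-!
# JOB LBri2 (DC): the bridge, lattices

* `bri_smul`: `i r • x = algebraMap (i r) • x = φ (algebraMap r) • x = algebraMap r • x = r • x` (`algebraMap_smul` for both towers, `hb.alg`, `hφ`).
* `bri_leib`: `f = φ f'` (`φ` surjective), `φ f' • x = f' • x`, `hC.leib`, `hb.dphi`.
* `bri_clear`: span induction: `x = e ∈ E`: `c = 1` (`hπ.not_unit`); `0`; sums: product of the two (`hπ` prime: `¬ π ∣ c₁ c₂`); `f • x`, `f : k[X]`: `hb.clear f`: `c₀, r, c'` with `i c₀ = C c'`, `C c' * f = i r`; `c • x ∈ E`: `(c₀ * c) • (f • x) = c • (i c₀ * f) • x = c • i r • x = r • c • x ∈ E` (`bri_smul`; the actions of `R` and `k[X]` commute because both act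
  through fields: rewrite everything with `bri_smul` as an action of `k[X]`).
* `bri_stp`: `E'' := span k[X] (EE k₀)`. `fg`: the finite generating set of `EE k₀` (`EE_fg`) generates `E''` (`bri_smul`). `spn`: `EE_spn`: `r • h ∈ EE k₀`, `r ≠ 0`, `i r • h ∈ E''`, `i r ≠ 0` (`i` is injective: if `i r = 0` then `algebraMap r = 0` by `hb.alg` and injectivity of `φ`). `u = nab γ₀ (c α) = c (G.mul γ₀ α) ∈ EE (k₀ + 1)` (`hC.nabc`, `hG.mul_mem`).
  `du`: `i π • u = π • u ∈ EE k₀` (`EE_kill`, `π ∈ P`). `nabE` first for `x ∈ EE k₀`: `nab γ₀ x ∈ EE (k₀ + 1)` (`nab_EE`), `EE_gen` (`k = 0`, `hgen` in the form with `(G.mul γ₀)^[0 + 1] α`): `s • nab x - r • u ∈ EE k₀`, `s ∉ P`, i.e. `¬ π ∣ s`, `¬ i π ∣ i s` (`hb.dvd`), so `IsCoprime (i s) (i π)` (`hb.irr`): `a₁ * i s + b₁ * i π = 1`,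
  `nab x = a₁ • (i s • nab x) + b₁ • (i π • nab x) ∈ (a₁ * i r) • u + E''` (`π • nab x ∈ EE k₀` by `EE_kill`). General `x ∈ E''`: span induction with `nab (f • x) = f' • x + f • nab x` (`bri_leib`, `nab_poly` of LStp1 can be imported). `pu`: `nabE` for `x = i π • u ∈ E''` gives `p`.
-/

set_option autoImplicit false
set_option linter.unusedSectionVars false

namespace MPadcDC

open TensorProduct MPadcLP MPadcHM

universe u

section bridge

open MvPolynomial

variable {κ : Type u} [Field κ] [CharZero κ] {Γ : Type} [Fintype Γ] [DecidableEq Γ]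
  {K : Type u} [Field K] [Algebra (MvPolynomial Γ κ) K] [IsFractionRing (MvPolynomial Γ κ) K]
  {V : Type u} [AddCommGroup V] [Module κ V] {H : Type u} [AddCommGroup H] [Module K H]
  [Module (MvPolynomial Γ κ) H] [IsScalarTower (MvPolynomial Γ κ) K H]
  {G : Cx κ Γ V} {m : ℕ} {P : Ideal (MvPolynomial Γ κ)} {k₀ : ℕ} {dK : Γ → Derivation ℤ K K}
  {nab : Γ → H →+ H} {c : V →+ H} {γ₀ : Γ} {π : MvPolynomial Γ κ}
  {k : Type u} [Field k] [CharZero k] {i : MvPolynomial Γ κ →+* Polynomial k} {φ : K ≃+* RatFunc k}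
  [Module (RatFunc k) H] [Module (Polynomial k) H] [IsScalarTower (Polynomial k) (RatFunc k) H]

theorem bri_smul (hb : Bri γ₀ π (dK γ₀) k i φ) (hφ : ∀ (f : K) (x : H), φ f • x = f • x)
    (r : MvPolynomial Γ κ) (x : H) : i r • x = r • x := by
  rw [← algebraMap_smul (RatFunc k) (i r) x, ← hb.alg, hφ, algebraMap_smul]

theorem bri_leib (hC : Con G m dK nab c) (hb : Bri γ₀ π (dK γ₀) k i φ)
    (hφ : ∀ (f : K) (x : H), φ f • x = f • x) (f : RatFunc k) (x : H) :
    nab γ₀ (f • x) = DZ k f • x + f • nab γ₀ x := by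
  obtain ⟨g, rfl⟩ := φ.surjective f
  rw [← hb.dphi, hφ, hφ, hφ, hC.leib]

/-- Clearing of denominators. -/
theorem bri_clear (hb : Bri γ₀ π (dK γ₀) k i φ) (hφ : ∀ (f : K) (x : H), φ f • x = f • x)
    (hπ : Prime π) (E : Submodule (MvPolynomial Γ κ) H) {x : H}
    (hx : x ∈ Submodule.span (Polynomial k) (E : Set H)) :
    ∃ c : MvPolynomial Γ κ, ¬ π ∣ c ∧ c • x ∈ E := by
  induction hx using Submodule.span_induction with
  | mem y h =>
    refine ⟨1, hπ.not_dvd_one, ?_⟩
    rw [one_smul]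
    exact h
  | zero =>
    refine ⟨1, hπ.not_dvd_one, ?_⟩
    rw [smul_zero]
    exact E.zero_mem
  | add y z _ _ hy hz =>
    obtain ⟨a, ha, h1⟩ := hy
    obtain ⟨b, hb', h2⟩ := hz
    refine ⟨a * b, fun hd => (hπ.dvd_or_dvd hd).elim ha hb', ?_⟩
    rw [smul_add]
    refine E.add_mem ?_ ?_
    · rw [mul_comm, mul_smul]
      exact E.smul_mem _ h1
    · rw [mul_smul]
      exact E.smul_mem _ h2
  | smul f y _ hy =>
    obtain ⟨a, ha, h1⟩ := hy
    obtain ⟨c₀, r, c', hc', h2, h3, h4⟩ := hb.clear f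
    refine ⟨c₀ * a, fun hd => (hπ.dvd_or_dvd hd).elim h3 ha, ?_⟩
    have h5 : (c₀ * a) • (f • y) = r • (a • y) := by
      rw [← bri_smul hb hφ, ← bri_smul hb hφ a y, ← bri_smul hb hφ r, smul_smul, smul_smul, map_mul, h2, ← h4]
      congr 1
      ring
    rw [h5]
    exact E.smul_mem _ h1

theorem bri_stp (hG : G.Ok) (hB : G.Bad m P k₀) (hC : Con G m dK nab c) (hπ : Prime π)
    (hP : P = Ideal.span {π}) (hb : Bri γ₀ π (dK γ₀) k i φ) (hφ : ∀ (f : K) (x : H), φ f • x = f • x)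
    {α : V} (hα : α ∈ G.Vd (m + 1) k₀)
    (hgen : ∀ x ∈ G.Vd (m + 1) (k₀ + 1), ∃ s r : MvPolynomial Γ κ, s ∉ P ∧
      s ⊗ₜ[κ] x - r ⊗ₜ[κ] (G.mul γ₀ α) ∈ (G.VR m k₀).map G.TF) :
    ∃ p : Polynomial k, Stp (nab γ₀) (i π)
      (Submodule.span (Polynomial k) (EE G m c k₀ : Set H)) (nab γ₀ (c α)) p := by
  have hpr : P.IsPrime := hB.prime
  have hπP : π ∈ P := by
    rw [hP]
    exact Ideal.mem_span_singleton_self π
  have hsub : ∀ x ∈ EE G m c k₀, x ∈ Submodule.span (Polynomial k) (EE G m c k₀ : Set H) :=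
    fun x hx => Submodule.subset_span hx
  have hu : nab γ₀ (c α) ∈ EE G m c (k₀ + 1) := by
    rw [hC.nabc γ₀ k₀ α hα]
    exact Submodule.subset_span ⟨k₀ + 1, le_rfl, _, hG.mul_mem γ₀ (m + 1) k₀ α hα, rfl⟩
  have hleib := bri_leib (H := H) hC hb hφ
  have hdu : i π • nab γ₀ (c α) ∈ Submodule.span (Polynomial k) (EE G m c k₀ : Set H) := by
    rw [bri_smul hb hφ]
    exact hsub _ (EE_kill hG hB hC le_rfl hπP hu)
  have hE : ∀ x ∈ Submodule.span (Polynomial k) (EE G m c k₀ : Set H),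
      ∃ q : Polynomial k, nab γ₀ x - q • nab γ₀ (c α) ∈
        Submodule.span (Polynomial k) (EE G m c k₀ : Set H) := by
    intro x hx
    induction hx using Submodule.span_induction with
    | mem x hx =>
      have hx' : x ∈ EE G m c k₀ := hx
      have h1 : nab γ₀ x ∈ EE G m c (k₀ + 1) := nab_EE hG hC γ₀ hx'
      obtain ⟨s, r, hs, h2⟩ := EE_gen (γ₀ := γ₀) (α := α) (k₀ := k₀) (k := 0) hG hC hgen hpr h1
      have h2' : s • nab γ₀ x - r • nab γ₀ (c α) ∈ EE G m c k₀ := by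
        rw [hC.nabc γ₀ k₀ α hα]
        exact h2
      have h3 : ¬ i π ∣ i s := by
        intro hd
        apply hs
        rw [hP]
        exact Ideal.mem_span_singleton.mpr (hb.dvd s hd)
      have h4 : IsCoprime (i s) (i π) := ((hb.irr.coprime_iff_not_dvd).mpr h3).symm
      obtain ⟨a, b, hab⟩ := h4
      refine ⟨a * i r, ?_⟩
      have h5 : nab γ₀ x - (a * i r) • nab γ₀ (c α) =
          a • (s • nab γ₀ x - r • nab γ₀ (c α)) + b • (π • nab γ₀ x) := by
        rw [← bri_smul hb hφ s, ← bri_smul hb hφ r, ← bri_smul hb hφ π, smul_sub, smul_smul, smul_smul,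
          smul_smul, sub_add_eq_add_sub, ← add_smul, hab, one_smul]
      rw [h5]
      exact Submodule.add_mem _ (Submodule.smul_mem _ _ (hsub _ h2'))
        (Submodule.smul_mem _ _ (hsub _ (EE_kill hG hB hC le_rfl hπP h1)))
    | zero =>
      refine ⟨0, ?_⟩
      rw [map_zero, zero_smul, sub_zero]
      exact Submodule.zero_mem _
    | add x y _ _ hx hy =>
      obtain ⟨q, hq⟩ := hx
      obtain ⟨q', hq'⟩ := hy
      refine ⟨q + q', ?_⟩
      have h1 : nab γ₀ (x + y) - (q + q') • nab γ₀ (c α) =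
          (nab γ₀ x - q • nab γ₀ (c α)) + (nab γ₀ y - q' • nab γ₀ (c α)) := by
        rw [map_add, add_smul]
        abel
      rw [h1]
      exact Submodule.add_mem _ hq hq'
    | smul f x hx0 hx =>
      obtain ⟨q, hq⟩ := hx
      refine ⟨f * q, ?_⟩
      have h1 : nab γ₀ (f • x) - (f * q) • nab γ₀ (c α) =
          Polynomial.derivative f • x + f • (nab γ₀ x - q • nab γ₀ (c α)) := by
        rw [nab_poly hleib, smul_sub, smul_smul]
        abel
      rw [h1]
      exact Submodule.add_mem _ (Submodule.smul_mem _ _ hx0) (Submodule.smul_mem _ _ hq)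
  obtain ⟨p, hp⟩ := hE _ hdu
  refine ⟨p, ?_, ?_, hdu, hE, hp⟩
  · obtain ⟨S, hS⟩ := EE_fg (k := k₀) hG hC
    refine ⟨S, le_antisymm ?_ ?_⟩
    · rw [Submodule.span_le]
      intro x hx
      apply hsub
      rw [← hS]
      exact Submodule.subset_span hx
    · rw [Submodule.span_le]
      intro x hx
      have hx' : x ∈ EE G m c k₀ := hx
      rw [← hS] at hx'
      show x ∈ Submodule.span (Polynomial k) (S : Set H)
      clear hx
      induction hx' using Submodule.span_induction with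
      | mem y h => exact Submodule.subset_span h
      | zero => exact Submodule.zero_mem _
      | add y z _ _ hy hz => exact Submodule.add_mem _ hy hz
      | smul r y _ hy =>
        rw [← bri_smul hb hφ]
        exact Submodule.smul_mem _ _ hy
  · intro h
    obtain ⟨r, hr, h1⟩ := EE_spn hG hB hC h
    refine ⟨i r, ?_, ?_⟩
    · intro h0
      have h2 : φ (algebraMap (MvPolynomial Γ κ) K r) = 0 := by
        rw [hb.alg, h0, map_zero]
      have h3 : algebraMap (MvPolynomial Γ κ) K r = 0 := by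
        apply φ.injective
        rw [h2, map_zero]
      exact hr ((map_eq_zero_iff _ (IsFractionRing.injective (MvPolynomial Γ κ) K)).1 h3)
    · rw [bri_smul hb hφ]
      exact hsub _ h1

end bridge

end MPadcDC
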