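import Pool.Agent.Lib.MP_adc574_ag_DC.LSer

/-!
# JOB LIndL (DC): the entries of l are independent

Compare `MPadcHM.indep_l` (HM/LocG.lean). Let `∑ w_i jE (l_i) = 0` with `w : ι → RatFunc k` (`Fintype.linearIndependent_iff`, scalars through `B = algebraMap (RatFunc k) E`); to show `w = 0`. Common denominator: `q ≠ 0` in `k[X]` with `A q * w_i = A (v_i)` (`IsLocalization.exist_integer_multiples_of_finite`), so `w̃ = A q • w` satisfies the same relation; it is
enough to show `w̃ = 0`, by `hnb`. CLAIM by induction on `n`: there is `y : ι → F⟦X⟧` with `jE (y i) = B ((nb1 ΓK)^[n] w̃ i)` and `∑ y_i l_i = 0`. `n = 0`: `y i = pl k τ (v i)` (`hjE`), the relation by `hinj`. Step (`Function.iterate_succ_apply'`): the constant coefficient of `(Γ.mulVec y) i = ∑_j Γ i j y_j` is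
`a_i(0) ∑_j l_j(0) y_j(0) = 0` (`h0` and the constant coefficient of `∑ l_j y_j = 0`), so `Γ.mulVec y i = X * x_i` (`PowerSeries.X_dvd_iff`). Put `y' i := derivative (y i) + x_i`. (a) `jE (y' i) = B (DZ (w' i) + (ΓK.mulVec w') i)` with `w' = (nb1 ΓK)^[n] w̃`: `jE_deriv` and `B (ΓK i j) * jE X = jE (Γ i j)`: from `hΓ`, `hΓK`: `B (A δ) * jE (Γ i j) = jE (pl δ * Γ i j) =
jE (X * pl (G i j)) = jE X * B (A (G i j)) = jE X * B (A δ) * B (ΓK i j)`, cancel `B (A δ) ≠ 0` (`hδ0`). So `jE X * jE (x_i) = ∑_j jE (Γ i j) * B (w' j) = jE X * B ((ΓK.mulVec w') i)`, cancel `jE X ≠ 0` (`hinj`, `X ≠ 0`). (b) `∑ y'_i l_i = 0`: multiply with `X`: differentiate `∑ y_i l_i = 0`: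
`0 = ∑ X y_i' l_i + y_i (X l_i') = ∑ X y_i' l_i + ∑_i y_i (∑_m Γ m i l_m) - C α ∑ y_i l_i = ∑_m l_m (X y_m' + (Γ.mulVec y) m) = X ∑_m l_m y'_m` (`hl`). So by `inO_of_series` all `(nb1 ΓK)^[n] w̃ i` are regular and `hnb` gives `w̃ = 0`.
-/

set_option autoImplicit false
set_option linter.unusedSectionVars false

namespace MPadcDC

open TensorProduct MPadcLP MPadcHM

universe u

section pkg

variable {k : Type u} [Field k] [CharZero k] {ι : Type} [Fintype ι] [DecidableEq ι]

open PowerSeries in
theorem indep_l' {F E : Type u} [Field F] [Algebra k F] [Field E]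
    [Algebra (RatFunc k) E] (τ : F) (δ : Polynomial k) (hδ0 : δ ≠ 0)
    (hτ : ∀ q : Polynomial k, Polynomial.aeval τ q = 0 → δ ∣ q) (hδ : Polynomial.aeval τ δ = 0)
    (G : Matrix ι ι (Polynomial k)) (Γ : Matrix ι ι F⟦X⟧)
    (hΓ : ∀ i j, pl k τ δ * Γ i j = X * pl k τ (G i j)) (α : F)
    (a l : ι → F⟦X⟧)
    (hl : ∀ j, X * PowerSeries.derivative F (l j) = (∑ i, Γ i j * l i) - C α * l j)
    (h0 : ∀ i j, constantCoeff (Γ i j) = constantCoeff (a i) * constantCoeff (l j))
    (jE : F⟦X⟧ →+* E) (hinj : Function.Injective jE) (hjE : ∀ p : Polynomial k, jE (pl k τ p) =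
      algebraMap (RatFunc k) E (algebraMap (Polynomial k) (RatFunc k) p))
    (ΓK : Matrix ι ι (RatFunc k))
    (hΓK : ∀ i j, algebraMap (Polynomial k) (RatFunc k) δ * ΓK i j =
      algebraMap (Polynomial k) (RatFunc k) (G i j))
    (hnb : ∀ w : ι → RatFunc k, (∀ n : ℕ, ∀ i, InO δ ((nb1 ΓK)^[n] w i)) → w = 0) :
    LinearIndependent (RatFunc k) fun i => jE (l i) := by
  classical
  let A := algebraMap (Polynomial k) (RatFunc k)
  let B := algebraMap (RatFunc k) E
  have hA0 : ∀ p : Polynomial k, p ≠ 0 → A p ≠ 0 := by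
    intro p hp h
    exact hp ((map_eq_zero_iff A (IsFractionRing.injective (Polynomial k) (RatFunc k))).1 h)
  have hB0 : ∀ f : RatFunc k, f ≠ 0 → B f ≠ 0 := by
    intro f hf h
    exact hf ((map_eq_zero_iff B B.injective).1 h)
  rw [Fintype.linearIndependent_iff]
  intro w hw
  have hw' : ∑ i, B (w i) * jE (l i) = 0 := by
    rw [← hw]
    exact Finset.sum_congr rfl fun i _ => (Algebra.smul_def _ _).symm
  obtain ⟨⟨q, hq⟩, hqw⟩ := IsLocalization.exist_integer_multiples_of_finite
    (nonZeroDivisors (Polynomial k)) w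
  have hq0 : q ≠ 0 := nonZeroDivisors.ne_zero hq
  choose v hv using hqw
  have hv' : ∀ i, A (v i) = A q * w i := by
    intro i
    have h1 := hv i
    rw [Algebra.smul_def] at h1
    exact h1
  have hS : ∑ i, pl k τ (v i) * l i = 0 := by
    apply hinj
    rw [map_sum, map_zero]
    have h1 : ∀ i, jE (pl k τ (v i) * l i) = B (A q) * (B (w i) * jE (l i)) := by
      intro i
      rw [map_mul, hjE]
      change B (A (v i)) * jE (l i) = _
      rw [hv', map_mul, mul_assoc]
    rw [Finset.sum_congr rfl fun i _ => h1 i, ← Finset.mul_sum, hw', mul_zero]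
  have hδA : A δ ≠ 0 := hA0 δ hδ0
  have hXE : jE X ≠ 0 := by
    intro h
    exact X_ne_zero (hinj (by rw [h, map_zero]) : (X : F⟦X⟧) = 0)
  have hkey : ∀ i j, B (ΓK i j) * jE X = jE (Γ i j) := by
    intro i j
    have h1 : B (A δ) * jE (Γ i j) = jE X * B (A (G i j)) := by
      have h2 := congrArg jE (hΓ i j)
      rw [map_mul, map_mul, hjE, hjE] at h2
      exact h2
    have h3 : A δ * ΓK i j = A (G i j) := hΓK i j
    rw [← h3, map_mul] at h1
    apply mul_left_cancel₀ (hB0 _ hδA)
    rw [h1]
    ring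
  have hclaim : ∀ n : ℕ, ∃ y : ι → F⟦X⟧, (∀ i, jE (y i) = B ((nb1 ΓK)^[n] (fun i => A (v i)) i)) ∧
      ∑ i, y i * l i = 0 := by
    intro n
    induction n with
    | zero => exact ⟨fun i => pl k τ (v i), fun i => hjE (v i), hS⟩
    | succ n ih =>
      obtain ⟨y, hy1, hy2⟩ := ih
      obtain ⟨w', hw'd⟩ : ∃ w', w' = (nb1 ΓK)^[n] (fun i => A (v i)) := ⟨_, rfl⟩
      rw [← hw'd] at hy1
      have hc : ∀ i, X ∣ Γ.mulVec y i := by
        intro i
        rw [X_dvd_iff]
        have h1 : constantCoeff (Γ.mulVec y i) = constantCoeff (a i) * constantCoeff (∑ j, y j * l j) := by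
          rw [Matrix.mulVec, dotProduct, map_sum, map_sum, Finset.mul_sum]
          refine Finset.sum_congr rfl fun j _ => ?_
          rw [map_mul, map_mul, h0]
          ring
        rw [h1, hy2, map_zero, mul_zero]
      choose x hx using hc
      refine ⟨fun i => PowerSeries.derivative F (y i) + x i, fun i => ?_, ?_⟩
      · rw [Function.iterate_succ_apply', ← hw'd]
        change jE (PowerSeries.derivative F (y i) + x i) = B (DZ k (w' i) + ΓK.mulVec w' i)
        rw [map_add, map_add, jE_deriv τ jE hinj hjE (y i) (w' i) (hy1 i)]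
        congr 1
        apply mul_left_cancel₀ hXE
        rw [← map_mul, ← hx i, Matrix.mulVec, Matrix.mulVec, dotProduct, dotProduct, map_sum, map_sum,
          Finset.mul_sum]
        refine Finset.sum_congr rfl fun j _ => ?_
        rw [map_mul, map_mul, hy1 j, ← hkey i j]
        ring
      · have h1 : X * PowerSeries.derivative F (∑ i, y i * l i) = 0 := by rw [hy2, map_zero, mul_zero]
        rw [map_sum, Finset.mul_sum] at h1
        have h2 : ∀ i ∈ (Finset.univ : Finset ι), X * PowerSeries.derivative F (y i * l i) =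
            X * PowerSeries.derivative F (y i) * l i + (∑ m, y i * Γ m i * l m) - C α * (y i * l i) := by
          intro i _
          rw [Derivation.leibniz, smul_eq_mul, smul_eq_mul]
          have h3 : ∑ m, y i * Γ m i * l m = y i * ∑ m, Γ m i * l m := by
            rw [Finset.mul_sum]
            exact Finset.sum_congr rfl fun m _ => mul_assoc _ _ _
          rw [h3]
          have h4 := hl i
          calc X * (y i * PowerSeries.derivative F (l i) + l i * PowerSeries.derivative F (y i))
              = y i * (X * PowerSeries.derivative F (l i)) + X * PowerSeries.derivative F (y i) * l i := by ring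
            _ = _ := by
              rw [h4]
              ring
        rw [Finset.sum_congr rfl h2, Finset.sum_sub_distrib, Finset.sum_add_distrib, ← Finset.mul_sum, hy2,
          mul_zero, sub_zero, Finset.sum_comm, ← Finset.sum_add_distrib] at h1
        have h5 : X * ∑ i, (PowerSeries.derivative F (y i) + x i) * l i = 0 := by
          rw [← h1, Finset.mul_sum]
          refine Finset.sum_congr rfl fun i _ => ?_
          have h6 : ∑ j, y j * Γ i j * l i = (X * x i) * l i := by
            rw [← hx i, Matrix.mulVec, dotProduct, Finset.sum_mul]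
            refine Finset.sum_congr rfl fun j _ => ?_
            ring
          rw [h6]
          ring
        rcases mul_eq_zero.1 h5 with h | h
        · exact absurd h X_ne_zero
        · exact h
  have hzero : (fun i => A (v i)) = 0 := by
    refine hnb _ fun n i => ?_
    obtain ⟨y, hy1, -⟩ := hclaim n
    exact inO_of_series τ δ hτ hδ jE hinj hjE (y i) _ (hy1 i)
  intro i
  have h1 : A q * w i = 0 := by
    rw [← hv' i]
    exact congrFun hzero i
  rcases mul_eq_zero.1 h1 with h | h
  · exact absurd h (hA0 q hq0)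
  · exact h

end pkg

end MPadcDC
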