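import Pool.Agent.Lib.MP_adc574_ag_DC.LBase

/-!
# JOB LSer (DC): power series and rational functions

Write `A = algebraMap k[X] (RatFunc k)`, `B = algebraMap (RatFunc k) E`. `f = A r / A s` with `IsCoprime r s`, `s ≠ 0` (`RatFunc.num`, `RatFunc.denom`, `RatFunc.isCoprime_num_denom`, `RatFunc.num_div_denom`).
* `inO_of_series`: `B (A s) * B f = B (A r)`, so `jE (pl k τ s * y) = jE (pl k τ r)` and `pl k τ s * y = pl k τ r` (`hinj`). If `δ ∣ s` then `aeval τ s = 0` (`hδ`), so the constant coefficient of `pl k τ s` is `0` (`constantCoeff_pl`), so that of `pl k τ r` is `0`, `aeval τ r = 0`, `δ ∣ r` (`hτ`), so the coprime `r`, `s` are both divisible by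
  `δ`, so `δ` is a unit, hence `aeval τ δ ≠ 0`, contradiction to `hδ` (`δ ∣ 1`: `aeval τ 1 = aeval τ δ * .. = 0`). So `¬ δ ∣ s`, and `A s * f = A r`.
* `jE_deriv`: from `pl k τ s * y = pl k τ r`: differentiate (`pl_derivative`, `Derivation.leibniz`): `pl s' * y + pl s * y' = pl r'`; apply `jE`: `B (A s) * jE y' = B (A r') - B (A s') B f = B (DZ (A r) - DZ (A s) * f) = B (A s * DZ f)` (`DK_poly`, `DZ_apply`, Leibniz for `A s * f = A r`), cancel `B (A s) ≠ 0`.
-/

set_option autoImplicit false
set_option linter.unusedSectionVars false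

namespace MPadcDC

open TensorProduct MPadcLP MPadcHM

universe u

section pkg

variable {k : Type u} [Field k] [CharZero k] {ι : Type} [Fintype ι] [DecidableEq ι]

private theorem lser_den (f : RatFunc k) :
    algebraMap (Polynomial k) (RatFunc k) f.denom * f =
      algebraMap (Polynomial k) (RatFunc k) f.num := by
  have h1 : algebraMap (Polynomial k) (RatFunc k) f.denom ≠ 0 := by
    intro h5
    rw [map_eq_zero_iff _ (RatFunc.algebraMap_injective k)] at h5
    exact RatFunc.denom_ne_zero f h5
  have h2 := RatFunc.num_div_denom f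
  rw [div_eq_iff h1] at h2
  rw [h2, mul_comm]

open PowerSeries in
private theorem lser_eq {F E : Type u} [Field F] [Algebra k F] [Field E] [Algebra (RatFunc k) E]
    (τ : F) (jE : F⟦X⟧ →+* E) (hinj : Function.Injective jE)
    (hjE : ∀ p : Polynomial k, jE (pl k τ p) =
      algebraMap (RatFunc k) E (algebraMap (Polynomial k) (RatFunc k) p)) (y : F⟦X⟧) (f : RatFunc k)
    (h : jE y = algebraMap (RatFunc k) E f) (s r : Polynomial k)
    (hs : algebraMap (Polynomial k) (RatFunc k) s * f = algebraMap (Polynomial k) (RatFunc k) r) :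
    pl k τ s * y = pl k τ r := by
  refine hinj ?_
  rw [map_mul, hjE, hjE, h, ← map_mul, hs]

open PowerSeries in
/-- A rational function that is a power series at `τ` is regular. -/
theorem inO_of_series {F E : Type u} [Field F] [Algebra k F] [Field E] [Algebra (RatFunc k) E] (τ : F)
    (δ : Polynomial k) (hτ : ∀ q : Polynomial k, Polynomial.aeval τ q = 0 → δ ∣ q)
    (hδ : Polynomial.aeval τ δ = 0)
    (jE : F⟦X⟧ →+* E) (hinj : Function.Injective jE) (hjE : ∀ p : Polynomial k, jE (pl k τ p) =
      algebraMap (RatFunc k) E (algebraMap (Polynomial k) (RatFunc k) p)) (y : F⟦X⟧) (f : RatFunc k)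
    (h : jE y = algebraMap (RatFunc k) E f) : InO δ f := by
  obtain ⟨s, hs, hsf, hcop⟩ : ∃ s : Polynomial k, s ≠ 0 ∧
      algebraMap (Polynomial k) (RatFunc k) s * f =
        algebraMap (Polynomial k) (RatFunc k) f.num ∧ IsCoprime f.num s :=
    ⟨f.denom, RatFunc.denom_ne_zero f, lser_den f, RatFunc.isCoprime_num_denom f⟩
  refine ⟨s, f.num, ?_, hsf⟩
  intro hd
  have h1 : pl k τ s * y = pl k τ f.num := lser_eq τ jE hinj hjE y f h s f.num hsf
  have h2 := congrArg (PowerSeries.constantCoeff (R := F)) h1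
  rw [map_mul, constantCoeff_pl, constantCoeff_pl] at h2
  have h3 : Polynomial.aeval τ s = 0 := by
    obtain ⟨c, hc⟩ := hd
    rw [hc, map_mul, hδ, zero_mul]
  rw [h3, zero_mul] at h2
  have h4 : δ ∣ f.num := hτ _ h2.symm
  have h5 : IsUnit δ := hcop.isUnit_of_dvd' h4 hd
  obtain ⟨c, hc⟩ := isUnit_iff_dvd_one.1 h5
  have h6 : Polynomial.aeval τ (1 : Polynomial k) = 0 := by
    rw [hc, map_mul, hδ, zero_mul]
  rw [map_one] at h6
  exact one_ne_zero h6

open PowerSeries in
theorem jE_deriv {F E : Type u} [Field F] [Algebra k F] [Field E] [Algebra (RatFunc k) E] (τ : F)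
    (jE : F⟦X⟧ →+* E) (hinj : Function.Injective jE) (hjE : ∀ p : Polynomial k, jE (pl k τ p) =
      algebraMap (RatFunc k) E (algebraMap (Polynomial k) (RatFunc k) p)) (y : F⟦X⟧) (f : RatFunc k)
    (h : jE y = algebraMap (RatFunc k) E f) :
    jE (PowerSeries.derivative F y) = algebraMap (RatFunc k) E (DZ k f) := by
  have hs : f.denom ≠ 0 := RatFunc.denom_ne_zero f
  have hsf := lser_den f
  have h1 : pl k τ f.denom * y = pl k τ f.num := lser_eq τ jE hinj hjE y f h _ _ hsf
  have h2 := congrArg (fun z => jE (PowerSeries.derivative F z)) h1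
  simp only [Derivation.leibniz, smul_eq_mul, pl_derivative, map_add, map_mul, hjE, h] at h2
  have h3 := congrArg (fun z => algebraMap (RatFunc k) E (DZ k z)) hsf
  simp only [Derivation.leibniz, smul_eq_mul, DZ_apply, DK_poly, map_add, map_mul] at h3
  have h4 : algebraMap (RatFunc k) E (algebraMap (Polynomial k) (RatFunc k) f.denom) ≠ 0 := by
    intro h5
    rw [map_eq_zero_iff _ (algebraMap (RatFunc k) E).injective] at h5
    rw [map_eq_zero_iff _ (RatFunc.algebraMap_injective k)] at h5
    exact hs h5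
  refine mul_left_cancel₀ h4 ?_
  rw [DZ_apply]
  rw [← h3] at h2
  linear_combination h2

end pkg

end MPadcDC
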