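import Pool.Agent.Lib.MP_adc574_ag_DC.LStp1

/-!
# JOB LStp2 (DC): the exponent

`F := AdjoinRoot δ` is a field (`Fact (Irreducible δ)`), of characteristic `0` (algebra over `k`), `d := AdjoinRoot.mk δ δ' ≠ 0`: `δ` is separable (`Irreducible.separable`, `CharZero`), so `¬ δ ∣ δ'` (degree, or `IsCoprime δ δ'`), `AdjoinRoot.mk_eq_zero`. Put `α := mk δ p / d`.
If `∀ m : ℤ, α ≠ m` take `E, u, p, α`. Otherwise `α = n`, i.e. `mk δ p = n * d`. By induction on `n.natAbs` (generalizing `E u p`): `n = 0`: take `α = 0`. `n > 0`: `stp_up`: `mk (p - δ') = (n - 1) * d`. `n < 0`: `mk δ p = n * d ≠ 0` (`CharZero F`), so `¬ δ ∣ p`, `stp_down`: `mk (p + δ') = (n + 1) * d`.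
-/

set_option autoImplicit false
set_option linter.unusedSectionVars false

namespace MPadcDC

open TensorProduct MPadcLP MPadcHM

universe u

section step

variable {k : Type u} [Field k] [CharZero k] {H : Type u} [AddCommGroup H] [Module (RatFunc k) H]
  [Module (Polynomial k) H] [IsScalarTower (Polynomial k) (RatFunc k) H]

private theorem LStp2_int {nab : H →+ H} (hleib : ∀ (f : RatFunc k) x, nab (f • x) = DZ k f • x + f • nab x)
    {δ : Polynomial k} (hδ : Irreducible δ) (n : ℕ) : ∀ (z : ℤ), z.natAbs = n →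
    ∀ (E : Submodule (Polynomial k) H) (u : H) (p : Polynomial k), Stp nab δ E u p →
      AdjoinRoot.mk δ p = AdjoinRoot.mk δ ((z : Polynomial k) * Polynomial.derivative δ) →
      ∃ (E' : Submodule (Polynomial k) H) (u' : H) (p' : Polynomial k), Stp nab δ E' u' p' ∧
        AdjoinRoot.mk δ p' = 0 := by
  have hnd : ∀ z : ℤ, z ≠ 0 → ¬ δ ∣ (z : Polynomial k) * Polynomial.derivative δ := by
    intro z hz hdv
    have hsep : IsCoprime δ (Polynomial.derivative δ) := hδ.separable
    have h1 : δ ∣ (z : Polynomial k) := hsep.dvd_of_dvd_mul_right hdv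
    have h2 : (z : Polynomial k) = Polynomial.C (z : k) := by simp
    rw [h2] at h1
    have h3 : IsUnit (Polynomial.C (z : k)) := by
      rw [Polynomial.isUnit_C]
      exact isUnit_iff_ne_zero.mpr (by exact_mod_cast hz)
    exact hδ.not_isUnit (isUnit_of_dvd_unit h1 h3)
  induction n with
  | zero =>
    intro z hz E u p h hp
    have hz0 : z = 0 := Int.natAbs_eq_zero.mp hz
    refine ⟨E, u, p, h, ?_⟩
    rw [hp, hz0, Int.cast_zero, zero_mul, map_zero]
  | succ n ih =>
    intro z hz E u p h hp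
    rcases lt_or_ge z 0 with hneg | hpos
    · have hz0 : z ≠ 0 := by omega
      have hdp : ¬ δ ∣ p := by
        intro hdv
        rw [← AdjoinRoot.mk_eq_zero, hp, AdjoinRoot.mk_eq_zero] at hdv
        exact hnd z hz0 hdv
      obtain ⟨E', h'⟩ := stp_down hleib hδ h hdp
      refine ih (z + 1) (by omega) E' _ _ h' ?_
      rw [map_add, hp, ← map_add]
      congr 1
      push_cast
      ring
    · refine ih (z - 1) (by omega) _ _ _ (stp_up hleib h) ?_
      rw [map_sub, hp, ← map_sub]
      congr 1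
      push_cast
      ring

theorem stp_shift {nab : H →+ H} (hleib : ∀ (f : RatFunc k) x, nab (f • x) = DZ k f • x + f • nab x)
    {δ : Polynomial k} (hδ : Irreducible δ) {E : Submodule (Polynomial k) H} {u : H} {p : Polynomial k}
    (h : Stp nab δ E u p) : ∃ (E' : Submodule (Polynomial k) H) (u' : H) (p' : Polynomial k)
      (α : AdjoinRoot δ), Stp nab δ E' u' p' ∧
        AdjoinRoot.mk δ p' = α * AdjoinRoot.mk δ (Polynomial.derivative δ) ∧ (α = 0 ∨ ∀ m : ℤ, α ≠ m) := by
  have : Fact (Irreducible δ) := ⟨hδ⟩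
  have hsep : IsCoprime δ (Polynomial.derivative δ) := hδ.separable
  have hd : AdjoinRoot.mk δ (Polynomial.derivative δ) ≠ 0 := by
    intro h0
    rw [AdjoinRoot.mk_eq_zero] at h0
    exact hδ.not_isUnit (hsep.isUnit_of_dvd' dvd_rfl h0)
  by_cases hm : ∃ m : ℤ, AdjoinRoot.mk δ p = AdjoinRoot.mk δ ((m : Polynomial k) *
      Polynomial.derivative δ)
  · obtain ⟨m, hm⟩ := hm
    obtain ⟨E', u', p', h', hp'⟩ := LStp2_int hleib hδ m.natAbs m rfl E u p h hm
    refine ⟨E', u', p', 0, h', ?_, Or.inl rfl⟩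
    rw [hp', zero_mul]
  · refine ⟨E, u, p, AdjoinRoot.mk δ p * (AdjoinRoot.mk δ (Polynomial.derivative δ))⁻¹, h, ?_, ?_⟩
    · rw [mul_assoc, inv_mul_cancel₀ hd, mul_one]
    · right
      intro m hα
      apply hm
      refine ⟨m, ?_⟩
      rw [map_mul, map_intCast, ← hα, mul_assoc, inv_mul_cancel₀ hd, mul_one]

end step

end MPadcDC
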