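import Pool.Agent.Lib.MP_adc574_ag_DC.Defs

/-!
# JOB PAlg: algebraic dependence modulo large primes

`R` is generated by finitely many `r_i`; each is algebraic over `ℤ[X]` (`hx.isAlgebraic`): `P_i (r_i) = 0`, `P_i ≠ 0` over `Algebra.adjoin ℤ (range x)` or (as `x` is algebraically independent) over
`MvPolynomial X ℤ`; `P_i` has a coefficient `c_i ≠ 0`, `c_i` has a coefficient `N_i ≠ 0` in `ℤ`. Let `p > |N_i|` for all `i`: `p ∤ c_i`, so `φ (aeval x c_i) ≠ 0` by the hypothesis, so
`φ r_i` is algebraic over the subring `S = (φ ∘ aeval x).range` of `k`. The elements of `k` algebraic over `S` form a subalgebra (`IsAlgebraic.add`, `IsAlgebraic.mul`, `integralClosure`/`Subalgebra.algebraicClosure`;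
`S` is a domain), so `φ r` is algebraic for all `r ∈ R` (`Algebra.adjoin_induction`).
-/

set_option autoImplicit false

namespace MPadcDC

open MvPolynomial MPadcGP

universe u v w

/-- Every element satisfies a polynomial equation over `ℤ[X]` with a coefficient that has a coefficient
that is not zero. -/
private theorem PAlg_poly {R : Type u} [CommRing R] [IsDomain R] [CharZero R] {X : Type u}
    (x : X → R) (hx : IsTranscendenceBasis ℤ x) (r : R) :
    ∃ (P : Polynomial (MvPolynomial X ℤ)) (n : ℕ) (μ : X →₀ ℕ),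
      P.eval₂ (aeval x : MvPolynomial X ℤ →ₐ[ℤ] R).toRingHom r = 0 ∧
      coeff μ (P.coeff n) ≠ 0 := by
  obtain ⟨Q, hQ, hQr⟩ := (hx.isAlgebraic).isAlgebraic r
  obtain ⟨n, hn⟩ : ∃ n, Q.coeff n ≠ 0 := by
    by_contra h
    push Not at h
    exact hQ (Polynomial.ext h)
  have hc : hx.1.aevalEquiv.symm (Q.coeff n) ≠ 0 := by
    intro h
    apply hn
    have h1 := congrArg hx.1.aevalEquiv h
    rwa [AlgEquiv.apply_symm_apply, map_zero] at h1
  obtain ⟨μ, hμ⟩ := MvPolynomial.ne_zero_iff.1 hc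
  refine ⟨Q.map (hx.1.aevalEquiv.symm : Algebra.adjoin ℤ (Set.range x) ≃ₐ[ℤ] MvPolynomial X ℤ).toRingEquiv.toRingHom,
    n, μ, ?_, ?_⟩
  · rw [Polynomial.eval₂_map]
    have h1 : (aeval x : MvPolynomial X ℤ →ₐ[ℤ] R).toRingHom.comp
        (hx.1.aevalEquiv.symm : Algebra.adjoin ℤ (Set.range x) ≃ₐ[ℤ] MvPolynomial X ℤ).toRingEquiv.toRingHom =
        algebraMap (Algebra.adjoin ℤ (Set.range x)) R := by
      refine RingHom.ext fun a => ?_
      show aeval x (hx.1.aevalEquiv.symm a) = algebraMap (Algebra.adjoin ℤ (Set.range x)) R a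
      rw [← hx.1.algebraMap_aevalEquiv, AlgEquiv.apply_symm_apply]
    rw [h1]
    exact hQr
  · rw [Polynomial.coeff_map]
    exact hμ

theorem alg_mod {R : Type u} [CommRing R] [IsDomain R] [CharZero R] [Algebra.FiniteType ℤ R] {X : Type u} [Finite X]
    (x : X → R) (hx : IsTranscendenceBasis ℤ x) :
    ∃ p₀ : ℕ, ∀ p : ℕ, p.Prime → p₀ < p → ∀ (k : Type u) [Field k] (φ : R →+* k),
      (∀ P : MvPolynomial X ℤ, φ (aeval x P) = 0 → (C (p : ℤ) : MvPolynomial X ℤ) ∣ P) →
      ∀ r : R, IsAlgebraic ↥(φ.comp (aeval x : MvPolynomial X ℤ →ₐ[ℤ] R).toRingHom).range (φ r) := by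
  classical
  choose P n μ hP hμ using PAlg_poly x hx
  obtain ⟨S, hS⟩ := (Algebra.FiniteType.out : (⊤ : Subalgebra ℤ R).FG)
  refine ⟨∑ r ∈ S, (coeff (μ r) ((P r).coeff (n r))).natAbs, ?_⟩
  intro p hp hp0 k _ φ hφ
  have hdom : IsDomain ↥(φ.comp (aeval x : MvPolynomial X ℤ →ₐ[ℤ] R).toRingHom).range := inferInstance
  -- the generators
  have h1 : ∀ r ∈ S,
      IsAlgebraic ↥(φ.comp (aeval x : MvPolynomial X ℤ →ₐ[ℤ] R).toRingHom).range (φ r) := by
    intro r hr
    refine ⟨(P r).map (φ.comp (aeval x : MvPolynomial X ℤ →ₐ[ℤ] R).toRingHom).rangeRestrict,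
      ?_, ?_⟩
    · intro h0
      have h2 := congrArg (fun Q => Q.coeff (n r)) h0
      simp only [Polynomial.coeff_map, Polynomial.coeff_zero] at h2
      have h3 : φ (aeval x ((P r).coeff (n r))) = 0 := congrArg Subtype.val h2
      obtain ⟨Q, hQ⟩ := hφ _ h3
      have h4 : coeff (μ r) ((P r).coeff (n r)) = p * coeff (μ r) Q := by
        rw [hQ, coeff_C_mul]
      have h5 : (coeff (μ r) ((P r).coeff (n r))).natAbs ≤
          ∑ r ∈ S, (coeff (μ r) ((P r).coeff (n r))).natAbs :=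
        Finset.single_le_sum (f := fun r => (coeff (μ r) ((P r).coeff (n r))).natAbs)
          (fun _ _ => Nat.zero_le _) hr
      have h6 : (coeff (μ r) ((P r).coeff (n r))).natAbs < p := lt_of_le_of_lt h5 hp0
      have h7 : p ∣ (coeff (μ r) ((P r).coeff (n r))).natAbs := by
        rw [← Int.natCast_dvd]
        exact ⟨_, h4⟩
      have h8 : (coeff (μ r) ((P r).coeff (n r))).natAbs ≠ 0 := fun h => hμ r (Int.natAbs_eq_zero.1 h)
      exact absurd (Nat.le_of_dvd (Nat.pos_of_ne_zero h8) h7) (not_le.2 h6)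
    · rw [Polynomial.aeval_def, Polynomial.eval₂_map]
      have h2 : (algebraMap ↥(φ.comp (aeval x : MvPolynomial X ℤ →ₐ[ℤ] R).toRingHom).range k).comp
          (φ.comp (aeval x : MvPolynomial X ℤ →ₐ[ℤ] R).toRingHom).rangeRestrict =
          φ.comp (aeval x : MvPolynomial X ℤ →ₐ[ℤ] R).toRingHom := RingHom.ext fun a => rfl
      rw [h2, ← Polynomial.hom_eval₂, hP, map_zero]
  intro r
  have hr : r ∈ Algebra.adjoin ℤ (S : Set R) := by
    rw [hS]
    exact Algebra.mem_top
  induction hr using Algebra.adjoin_induction with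
  | mem r hr => exact h1 r hr
  | algebraMap a =>
    have h2 : φ (algebraMap ℤ R a) =
        algebraMap ↥(φ.comp (aeval x : MvPolynomial X ℤ →ₐ[ℤ] R).toRingHom).range k a := by
      rw [eq_intCast, map_intCast, map_intCast]
    rw [h2]
    exact isAlgebraic_algebraMap _
  | add r s _ _ h h' =>
    rw [map_add]
    exact h.add h'
  | mul r s _ _ h h' =>
    rw [map_mul]
    exact h.mul h'

end MPadcDC
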