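import Pool.Agent.Lib.MP_adc574_ag_DC.PHoA
import Pool.Agent.Lib.MP_adc574_ag_GP.GrD

/-!
# JOB PHom: weighted homogeneity of the cyclic cover
-/

set_option autoImplicit false

namespace MPadcDC

open MvPolynomial MPadcGP

universe u v w

variable {A : Type u} [CommRing A] {n e : ℕ}

private theorem PHom_weight (m : Fin n →₀ ℕ) :
    Finsupp.weight (wz n e) (m.mapDomain Fin.castSucc) = ((m.degree : ℕ) : ZMod e) := by
  rw [Finsupp.weight_apply, Finsupp.sum_mapDomain_index_inj (Fin.castSucc_injective n)]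
  have h1 : ∀ i : Fin n, wz n e i.castSucc = 1 := by
    intro i
    unfold wz
    rw [if_neg (Fin.castSucc_ne_last i)]
  rw [Finsupp.degree_apply, Nat.cast_sum, Finsupp.sum]
  refine Finset.sum_congr rfl fun i _ => ?_
  rw [h1, nsmul_eq_mul, mul_one]

private theorem PHom_rename {d : ℕ} {g : MvPolynomial (Fin n) A} (hg : g.IsHomogeneous d) :
    IsWeightedHomogeneous (wz n e) (rename Fin.castSucc g) ((d : ℕ) : ZMod e) := by
  intro m hm
  obtain ⟨u, rfl, hu⟩ := coeff_rename_ne_zero _ _ _ hm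
  rw [PHom_weight]
  congr 1
  have h1 := hg hu
  rw [← h1, Finsupp.degree_eq_weight_one]
  rfl

theorem isWHomog_cyc [NeZero e] {I : Ideal (MvPolynomial (Fin n) A)} (hI : IsHomog I) {F : MvPolynomial (Fin n) A}
    (hF : F.IsHomogeneous e) : IsWHomog (wz n e) (cyc I F e) := by

  intro f hf μ
  refine PHom_cyc (M := ZMod e) (wz n e) hI (fun d g hg => ⟨_, PHom_rename hg⟩) ⟨0, ?_⟩ hf μ
  have h1 : IsWeightedHomogeneous (wz n e) ((X (Fin.last n) : MvPolynomial (Fin (n + 1)) A) ^ e) 0 := by
    have h2 := (isWeightedHomogeneous_X A (wz n e) (Fin.last n)).pow e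
    have h3 : wz n e (Fin.last n) = 0 := by
      unfold wz
      rw [if_pos rfl]
    rw [h3, smul_zero] at h2
    exact h2
  have h4 : IsWeightedHomogeneous (wz n e) (rename Fin.castSucc F) 0 := by
    have h5 := PHom_rename (e := e) hF
    rw [ZMod.natCast_self] at h5
    exact h5
  exact h1.sub h4

theorem isWHomog_cycG [NeZero e] {I : Ideal (MvPolynomial (Fin n) A)} (hI : IsHomog I) :
    IsWHomog (wz n e) (cycG I e) :=
  isWHomog_cyc (hI.map _) (isHomogeneous_frm _)

end MPadcDC
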