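import Pool.Agent.Lib.MP_adc574_ag_DC.PDer
import Pool.Agent.Lib.MP_adc574_ag_DC.PHom
import Pool.Agent.Lib.MP_adc574_ag_GP.GlGenW

/-!
# JOB PDatB: the connection in coordinates

`nab_coord`: `glgenW_nab` (GP/GlGenW.lean) for `N = 1`, `α = 1`, `V''` from `exists_lft_map` (GP/Lifts.lean); or directly with the definition of `gaussManin` and `push`.
-/

set_option autoImplicit false

namespace MPadcDC

open MvPolynomial MPadcGP

universe u v w

variable {M : Type} [AddCommGroup M] [Fintype M] [DecidableEq M]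

section

variable {A : Type u} [CommRing A] {n : ℕ} {I : Ideal (MvPolynomial (Fin n) A)} {wt : Fin n → M} {hI : IsHomog I}
  {hw : IsWHomog wt I} {β : ℕ × M → Type} [∀ a, Fintype (β a)] [∀ a, DecidableEq (β a)] {lev : ∀ a, β a → ℕ}
  {z : ∀ a, β a → (prC I).Ch} {h : ℕ → ℕ → ℕ}

/-- The connection in coordinates. -/
theorem nab_coord (hD : DatW hI hw lev z h) {D : Derivation ℤ A A} (V : Lft (prC I) D) {G : ∀ a, β a → β a → A}
    (hG : ∀ a b, V.Gm (z a b) - ∑ b', G a b' b • z a b' ∈ (prC I).Bc a.1) {K : Type u} [Field K] (φ : A →+* K)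
    (D' : Derivation ℤ K K) (hD' : ∀ x, D' (φ x) = φ (D x)) {a : ℕ × M} {x : β a → K}
    {y : (prC (bI φ I)).HdR a.1} (hy : (prC (bI φ I)).gaussManin a.1 D' ((hD.ad K φ).crd a x) y) :
    y = (hD.ad K φ).crd a fun b' => D' (x b') + ∑ b, φ (G a b' b) * x b := by
  obtain ⟨V'', hV''⟩ := exists_lft_map hI φ (fun _ : Fin 1 => D) (fun _ => V) (fun _ => (1 : K)) D'
    (fun x => by rw [Fin.sum_univ_one, one_mul]; exact hD' x)
  have h1 := glgenW_nab (hD.ad K φ) (fun _ : Fin 1 => V) (G := fun a _ b' b => G a b' b)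
    (fun a _ b => hG a b) (fun a b => (hD.self.mem a b).1) (fun _ => (1 : K)) V'' hV'' hy
  rw [h1]
  congr 1
  funext b'
  rw [Fin.sum_univ_one, one_mul]

end

end MPadcDC
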