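import Pool.Agent.Lib.MP_adc574_ag_DC.PDer
import Pool.Agent.Lib.MP_adc574_ag_DC.PHom
import Pool.Agent.Lib.MP_adc574_ag_GP.ConW
import Pool.Agent.Lib.MP_adc574_ag_GP.FinL
import Pool.Agent.Lib.MP_adc574_ag_GP.GlGenW
import Pool.Agent.Lib.MP_adc574_ag_GP.GlRelW

/-!
# JOB PDatC: the conjugate filtration in coordinates

* `con_stab`: the subspace `(hD.ad L φ).con a i` of the coordinates of the conjugate filtration is stable under `δ + G`: this is `con_stabW` (GP/GlConW.lean) for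
  `N = 1`, `D = fun _ => D`, `S = ∅` (`exists_relW` gives `mu`, `Lg` with some `G'`; to have OUR `G` build the `LinRelW` by hand: `gm` is our hypothesis, `cup` from `exists_relW`
  and `Lg = fun _ _ => ∅`), and `LinW.IsStab` unfolded (GP/G2Lin.lean). Or repeat its proof.
* `finrank_con`: `conj_dimW` (GP/ConW.lean) with `p • μ = μ`, `dat_sum` (GP/Fin.lean), `hD.hodge`; compare `dimCW_of` and the lines around 150 - 175 of GP/GlConW.lean.
-/

set_option autoImplicit false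

namespace MPadcDC

open MvPolynomial MPadcGP

universe u v w

variable {M : Type} [AddCommGroup M] [Fintype M] [DecidableEq M]

section

variable {A : Type u} [CommRing A] {n : ℕ} {I : Ideal (MvPolynomial (Fin n) A)} {wt : Fin n → M} {hI : IsHomog I}
  {hw : IsWHomog wt I} {β : ℕ × M → Type} [∀ a, Fintype (β a)] [∀ a, DecidableEq (β a)] {lev : ∀ a, β a → ℕ}
  {z : ∀ a, β a → (prC I).Ch} {h : ℕ → ℕ → ℕ}

/-- The conjugate filtration is stable. -/
theorem con_stab (hD : DatW hI hw lev z h) {D : Derivation ℤ A A} (V : Lft (prC I) D) {G : ∀ a, β a → β a → A}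
    (hG : ∀ a b, V.Gm (z a b) - ∑ b', G a b' b • z a b' ∈ (prC I).Bc a.1) {K : Type u} [Field K] (φ : A →+* K)
    (D' : Derivation ℤ K K) (hD' : ∀ x, D' (φ x) = φ (D x)) (a : ℕ × M) (i : ℕ) {x : β a → K}
    (hx : x ∈ (hD.ad K φ).con a i) :
    (fun b' => D' (x b') + ∑ b, φ (G a b' b) * x b) ∈ (hD.ad K φ).con a i := by
  have had := hD.ad K φ
  obtain ⟨V'', hV''⟩ := exists_lft_map hI φ (fun _ : Fin 1 => D) (fun _ => V) (fun _ => (1 : K)) D'
    (fun x => by rw [Fin.sum_univ_one, one_mul]; exact hD' x)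
  obtain ⟨c, hc, hcx⟩ := CovD.mem_Con.1 hx
  refine CovD.mem_Con.2 ⟨⟨V''.Gm c, V''.Gm_mem_Zc c.2⟩, V''.Gm_mem_Ni hc, ?_⟩
  have h1 : (prC (bI φ I)).gaussManin a.1 D' ((hD.ad K φ).crd a x)
      ((prC (bI φ I)).cl a.1 ⟨V''.Gm c, V''.Gm_mem_Zc c.2⟩) := ⟨V'', c, _, rfl, hcx, rfl⟩
  have h2 := glgenW_nab (hD.ad K φ) (fun _ : Fin 1 => V) (G := fun a _ b' b => G a b' b)
    (fun a _ b => hG a b) (fun a b => (hD.self.mem a b).1) (fun _ => (1 : K)) V'' hV'' h1
  rw [h2]
  congr 1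
  funext b'
  rw [Fin.sum_univ_one, one_mul]

/-- The dimension of the conjugate filtration in coordinates, if `p μ = μ`. -/
theorem finrank_con [IsDomain A] [CharZero A] [Algebra.FiniteType ℤ A] (hD : DatW hI hw lev z h)
    (hs : IsSmoothProj I) {p : ℕ} [Fact p.Prime] (hp : ∀ μ : M, p • μ = μ) {K : Type u} [Field K] [CharP K p]
    (φ : A →+* K) {Λ : Type} [Fintype Λ] {bb : Λ → K} (hbb : PBas p bb) (a : ℕ × M) (i : ℕ) :
    Module.finrank K ↥((hD.ad K φ).con a i) + Fintype.card {b : β a // ¬ lev a b < i + 1} = Fintype.card (β a) := by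
  have had := hD.ad K φ
  have hfin : ∀ q m, FiniteDimensional K (HH (prC (bI φ I)).Dt ((prC (bI φ I)).Fi (q + 1)) ((prC (bI φ I)).Fi q) m) :=
    fun q m => (hD.hodge K φ q m).1
  have h1 := conj_dimW hbb (hI.map φ) (hs.map hI φ) (hw.map φ) (fun μ ν h => by
    change p • μ = p • ν at h
    rwa [hp, hp] at h) hfin (dat_sum hI hs hD.total φ) a.1 i a.2
  rw [hp, had.finrank_Fil, had.finrank] at h1
  rw [← h1]
  congr 1
  have h2 : (prC (bI φ I)).Con a.1 i ⊓ (grP (hI.map φ) (hw.map φ)).HW a.1 a.2 = (had.con a i).map (had.crd a) := by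
    ext x
    constructor
    · rintro ⟨hx, hx'⟩
      obtain ⟨c, rfl⟩ := had.exists_crd hx'
      exact ⟨c, hx, rfl⟩
    · rintro ⟨c, hc, rfl⟩
      exact ⟨hc, had.crd_mem a c⟩
  rw [h2]
  exact (Submodule.equivMapOfInjective (had.crd a) (had.crd_injective a) _).finrank_eq

end

end MPadcDC
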