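import Pool.Agent.Lib.MP_adc574_ag_DC.PDatA
import Pool.Agent.Lib.MP_adc574_ag_DC.PDatB
import Pool.Agent.Lib.MP_adc574_ag_DC.PDatC
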