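import Pool.Agent.Lib.MP_adc574_ag_DC.PDer
import Pool.Agent.Lib.MP_adc574_ag_DC.PHom
import Pool.Agent.Lib.MP_adc574_ag_GP.DatW
import Pool.Agent.Lib.MP_adc574_ag_GP.Fin3a
import Pool.Agent.Lib.MP_adc574_ag_GP.GlRelW

/-!
# JOB PDatA: adapted bases over a localization, matrices of the connection

* `exists_datB`: GP `exists_aff` (GP/Fin3a.lean: gives `a ≠ 0`, smoothness and `Dat` after inverting `a`), `exists_datW_of` (GP/DatW.lean) for the weights; take `g` = product of
  the two elements, `φ = algebraMap B (Localization.Away g)`.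
* `exists_G`: `exists_lft` (GP/Lifts.lean) + `GrX.exists_isGr` (GP/GrB.lean); the matrix by `IsAdW.exists_coord`, exactly as in the first lines of the proof of
  `exists_relW` (GP/GlRelW.lean).
-/

set_option autoImplicit false

namespace MPadcDC

open MvPolynomial MPadcGP

universe u v w

variable {M : Type} [AddCommGroup M] [Fintype M] [DecidableEq M]

theorem exists_datB {B : Type u} [CommRing B] [IsDomain B] [CharZero B] [Algebra.FiniteType ℤ B] {n : ℕ}
    {I : Ideal (MvPolynomial (Fin n) B)} (hI : IsHomog I) {wt : Fin n → M} (hw : IsWHomog wt I) {E : Type u}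
    [Field E] (j : B →+* E) (hj : Function.Injective j) (hs : IsSmoothProj (bI j I)) :
    ∃ g : B, g ≠ 0 ∧ IsSmoothProj (bI (algebraMap B (Localization.Away g)) I) ∧
      ∃ (β : ℕ × M → Type) (_ : ∀ a, Fintype (β a)) (_ : ∀ a, DecidableEq (β a)) (lev : ∀ a, β a → ℕ)
        (z : ∀ a, β a → (prC (bI (algebraMap B (Localization.Away g)) I)).Ch) (h : ℕ → ℕ → ℕ),
        DatW (hI.map (algebraMap B (Localization.Away g))) (hw.map (algebraMap B (Localization.Away g))) lev z h := by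
  obtain ⟨a₁, ha₁, hsm, hdat⟩ := exists_aff hI j hj hs
  obtain ⟨a₂, ha₂, hdW⟩ := exists_datW_of hI hw ⟨a₁, ha₁, fun A' _ φ hφ => hdat A' φ hφ⟩
  have hu : IsUnit (algebraMap B (Localization.Away (a₁ * a₂)) (a₁ * a₂)) :=
    IsLocalization.Away.algebraMap_isUnit _
  rw [map_mul] at hu
  exact ⟨a₁ * a₂, mul_ne_zero ha₁ ha₂, hsm _ _ (isUnit_of_mul_isUnit_left hu),
    hdW _ _ (isUnit_of_mul_isUnit_right hu)⟩

section

variable {A : Type u} [CommRing A] {n : ℕ} {I : Ideal (MvPolynomial (Fin n) A)} {wt : Fin n → M} {hI : IsHomog I}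
  {hw : IsWHomog wt I} {β : ℕ × M → Type} [∀ a, Fintype (β a)] [∀ a, DecidableEq (β a)] {lev : ∀ a, β a → ℕ}
  {z : ∀ a, β a → (prC I).Ch} {h : ℕ → ℕ → ℕ}

theorem exists_G (hD : DatW hI hw lev z h) (hs : IsSmoothProj I) (D : Derivation ℤ A A) :
    ∃ (V : Lft (prC I) D) (G : ∀ a, β a → β a → A), (grP hI hw).IsGr V ∧
      ∀ a b, V.Gm (z a b) - ∑ b', G a b' b • z a b' ∈ (prC I).Bc a.1 := by
  obtain ⟨V, hV⟩ := (grP hI hw).exists_isGr (exists_lft hI hs D).some
  have h1 : ∀ a b, ∃ c : β a → A, V.Gm (z a b) - ∑ b', c b' • z a b' ∈ (prC I).Bc a.1 := by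
    intro a b
    refine hD.self.exists_coord a (Lft.Gm_mem_Zc V (hD.self.mem_Zc a b)) ?_
    rw [(grP hI hw).mem_Wt, (grP hI hw).P_Gm hV a.2 (hD.self.mem a b).1.1, (grP hI hw).mem_Wt.1 (hD.self.wt a b)]
  choose G hG using h1
  exact ⟨V, fun a b' b => G a b b', hV, hG⟩

end

end MPadcDC
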