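import Pool.Agent.Lib.MP_adc574_ag_DC.DefsL
import Pool.Agent.Lib.MP_adc574_ag_GP.Lifts

/-!
# JOB PDer: derivations on localizations

* `dR A γ`: the derivation `∂/∂a_γ` of `A[a]` over `ℤ`.
* `exists_derLoc`: `MPadcGP.exists_lift_der` (GP/Lifts.lean; a localization is formally smooth: `Algebra.FormallySmooth.of_isLocalization`, or formally
  etale). Check that the `ℤ`-algebra structures agree (`Derivation ℤ`: everything is a `ℤ`-algebra in one way, `Ring.toIntAlgebra`).
* `exists_derFrac`: the same for the fraction field. (State everything for an abstract `S` with `IsLocalization.Away g S`: the `ℤ`-algebra structure of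
  `Localization.Away g` is a different instance.)
* `der_loc_ext`: `MPadcGP.der_unique` applied to `W = D₁ - D₂` (a localization is formally unramified).
* `exists_derMv`: `exists_derFrac` for `dR`.
-/

set_option autoImplicit false

namespace MPadcDC

open MvPolynomial MPadcGP

universe u v w

/-- `∂/∂a_γ`. -/
noncomputable def dR (A : Type u) [CommRing A] {n e : ℕ} (γ : Mon n e) : Derivation ℤ (Ra A n e) (Ra A n e) :=
  (pderiv γ : Derivation A (Ra A n e) (Ra A n e)).restrictScalars ℤ

theorem dR_apply (A : Type u) [CommRing A] {n e : ℕ} (γ : Mon n e) (P : Ra A n e) : dR A γ P = pderiv γ P := rfl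

theorem exists_derLoc {R : Type u} [CommRing R] (g : R) (S : Type u) [CommRing S] [Algebra R S]
    [IsLocalization.Away g S] (D : Derivation ℤ R R) :
    ∃ D' : Derivation ℤ S S, ∀ x, D' (algebraMap R S x) = algebraMap R S (D x) := by

  have : Algebra.FormallySmooth R S := Algebra.FormallySmooth.of_isLocalization (Submonoid.powers g)
  exact exists_lift_der D

theorem exists_derFrac {R : Type u} [CommRing R] {K : Type v} [Field K] [Algebra R K] [IsFractionRing R K]
    (D : Derivation ℤ R R) : ∃ D' : Derivation ℤ K K, ∀ x, D' (algebraMap R K x) = algebraMap R K (D x) := by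

  have : Algebra.FormallySmooth R K := Algebra.FormallySmooth.of_isLocalization (nonZeroDivisors R)
  exact exists_lift_der D

/-- Two derivations along a ring homomorphism from a localization which agree on the ring are equal. -/
theorem der_loc_ext {R : Type u} {S : Type v} {T : Type w} [CommRing R] [CommRing S] [CommRing T] [Algebra R S]
    (M : Submonoid R) [IsLocalization M S] (f : S →+* T) (D₁ D₂ : S → T) (ha₁ : ∀ x y, D₁ (x + y) = D₁ x + D₁ y)
    (ha₂ : ∀ x y, D₂ (x + y) = D₂ x + D₂ y) (hm₁ : ∀ x y, D₁ (x * y) = f x * D₁ y + f y * D₁ x)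
    (hm₂ : ∀ x y, D₂ (x * y) = f x * D₂ y + f y * D₂ x) (h : ∀ r, D₁ (algebraMap R S r) = D₂ (algebraMap R S r))
    (x : S) : D₁ x = D₂ x := by

  have : Algebra.FormallyUnramified R S := Algebra.FormallyUnramified.of_isLocalization M
  have h01 : D₁ 0 = 0 := by
    have h1 := ha₁ 0 0
    rw [add_zero] at h1
    exact left_eq_add.1 h1
  have h02 : D₂ 0 = 0 := by
    have h1 := ha₂ 0 0
    rw [add_zero] at h1
    exact left_eq_add.1 h1
  let W : S →+ T :=
    { toFun := fun y => D₁ y - D₂ y
      map_zero' := by rw [h01, h02, sub_zero]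
      map_add' := fun y z => by rw [ha₁, ha₂]; ring }
  have h1 : W x = 0 := der_unique (R := R) f W
    (fun y z => by
      show D₁ (y * z) - D₂ (y * z) = f y * (D₁ z - D₂ z) + f z * (D₁ y - D₂ y)
      rw [hm₁, hm₂]
      ring)
    (fun r => by
      show D₁ (algebraMap R S r) - D₂ (algebraMap R S r) = 0
      rw [h r, sub_self]) x
  exact sub_eq_zero.1 h1

/-- Two derivations along a ring homomorphism from `κ[a]` which agree on the constants and the variables are equal. -/
theorem der_mv_ext {A : Type u} {T : Type w} [CommRing A] [CommRing T] {σ : Type} (f : MvPolynomial σ A →+* T)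
    (D₁ D₂ : MvPolynomial σ A → T) (ha₁ : ∀ x y, D₁ (x + y) = D₁ x + D₁ y)
    (ha₂ : ∀ x y, D₂ (x + y) = D₂ x + D₂ y) (hm₁ : ∀ x y, D₁ (x * y) = f x * D₁ y + f y * D₁ x)
    (hm₂ : ∀ x y, D₂ (x * y) = f x * D₂ y + f y * D₂ x) (h : ∀ r, D₁ (C r) = D₂ (C r)) (h' : ∀ s, D₁ (X s) = D₂ (X s))
    (x : MvPolynomial σ A) : D₁ x = D₂ x := by

  induction x using MvPolynomial.induction_on with
  | C a => exact h a
  | add p q hp hq => rw [ha₁, ha₂, hp, hq]
  | mul_X p s hp => rw [hm₁, hm₂, hp, h' s]

/-- The derivations `∂/∂a_γ` of the rational function field. -/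
theorem exists_derMv {κ : Type u} [Field κ] {n e : ℕ} (K : Type u) [Field K] [Algebra (Ra κ n e) K]
    [IsFractionRing (Ra κ n e) K] : ∃ DK : Mon n e → Derivation ℤ K K,
      ∀ γ P, DK γ (algebraMap (Ra κ n e) K P) = algebraMap (Ra κ n e) K (pderiv γ P) := by
  choose DK hDK using fun γ : Mon n e => exists_derFrac (K := K) (dR κ γ)
  exact ⟨DK, hDK⟩

/-- The homomorphism from the localization of `R₀[a]` to the rational function field over `κ`, and its derivations. -/
theorem exists_phi {R₀ : Type u} [CommRing R₀] {κ : Type u} [Field κ] {n e : ℕ} (ψ : R₀ →+* κ) (g : Ra R₀ n e)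
    (hg : (MvPolynomial.map ψ g : Ra κ n e) ≠ 0) (S : Type u) [CommRing S] [Algebra (Ra R₀ n e) S]
    [IsLocalization.Away g S] (L : Type u) [Field L] [Algebra (Ra κ n e) L] [IsFractionRing (Ra κ n e) L] :
    ∃ φ : S →+* L,
      (∀ x : Ra R₀ n e, φ (algebraMap (Ra R₀ n e) S x) = algebraMap (Ra κ n e) L (MvPolynomial.map ψ x)) ∧
      ∀ (D : Mon n e → Derivation ℤ S S),
        (∀ γ x, D γ (algebraMap (Ra R₀ n e) S x) = algebraMap (Ra R₀ n e) S (dR R₀ γ x)) →
        ∀ (DL : Mon n e → Derivation ℤ L L), (∀ γ P, DL γ (algebraMap (Ra κ n e) L P) =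
          algebraMap (Ra κ n e) L (pderiv γ P)) → ∀ γ x, DL γ (φ x) = φ (D γ x) := by

  have hu : IsUnit (((algebraMap (Ra κ n e) L).comp (MvPolynomial.map ψ)) g) := by
    rw [RingHom.comp_apply]
    refine isUnit_iff_ne_zero.2 fun h0 => hg ?_
    exact (IsFractionRing.injective (Ra κ n e) L) (by rw [h0, map_zero])
  refine ⟨IsLocalization.Away.lift g hu, fun x => IsLocalization.Away.lift_eq g hu x, ?_⟩
  intro D hD DL hDL γ x
  have hφ : ∀ x : Ra R₀ n e, (IsLocalization.Away.lift g hu : S →+* L) (algebraMap (Ra R₀ n e) S x) =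
      algebraMap (Ra κ n e) L (MvPolynomial.map ψ x) := fun x => IsLocalization.Away.lift_eq g hu x
  generalize (IsLocalization.Away.lift g hu : S →+* L) = φ at hφ ⊢
  refine der_loc_ext (R := Ra R₀ n e) (Submonoid.powers g) φ (fun x => DL γ (φ x)) (fun x => φ (D γ x))
    (fun x y => ?_) (fun x y => ?_) (fun x y => ?_) (fun x y => ?_) (fun r => ?_) x
  · show DL γ (φ (x + y)) = DL γ (φ x) + DL γ (φ y)
    rw [map_add, map_add]
  · show φ (D γ (x + y)) = φ (D γ x) + φ (D γ y)
    rw [map_add, map_add]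
  · show DL γ (φ (x * y)) = φ x * DL γ (φ y) + φ y * DL γ (φ x)
    rw [map_mul, (DL γ).leibniz, smul_eq_mul, smul_eq_mul]
  · show φ (D γ (x * y)) = φ x * φ (D γ y) + φ y * φ (D γ x)
    rw [(D γ).leibniz, smul_eq_mul, smul_eq_mul, map_add, map_mul, map_mul]
  · show DL γ (φ (algebraMap (Ra R₀ n e) S r)) = φ (D γ (algebraMap (Ra R₀ n e) S r))
    rw [hφ, hD, hφ, hDL, dR_apply, pderiv_map]

end MPadcDC
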