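import Pool.Agent.Lib.MP_adc574_ag_DC.Defs
import Pool.Agent.Lib.MP_adc574_ag_HM.RegA

/-!
# JOB PDom: prime ideals and field extensions

`isPrime_bI`: let `F = Frac R₀`, `Fb` = algebraic closure of `F` in `k` (`algebraicClosure F k`, algebraically closed since `k` is), `θ : Fb → κ` over `R₀` (`IsAlgClosed.lift`,
`Fb` algebraic over `F`, `κ` an `F`-algebra through `ψ`). `bI (R₀ → Fb) I` is prime: it is the comap of `bI j I` along `Fb[x] → k[x]` (faithfully flat; by hand: `k[x] = k ⊗ Fb[x]`, an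
`Fb`-basis of `k` containing `1`) . `bI ψ I = bI θ (bI (R₀ → Fb) I)`, and `κ[x]/bI θ I' ≅ κ ⊗[Fb] (Fb[x]/I')` is a domain by
`MPadcHM.tensor_isDomain_of_isAlgClosed` (HM/RegA.lean). (Isomorphisms: `MvPolynomial.algebraTensorAlgEquiv`, `Ideal.map` under it; or directly: `κ[x]/I'κ[x]`; GP/Mod.lean or Mod3/BC
may have the base change of `MvPolynomial/I`; grep for `TensorProduct` and `bI`.)
`x_notMem`: if `X l ∈ bI ψ I` then `X l ∈ bI (R₀ → F) I` (comap along a field extension) so `r X l ∈ I`, `r ≠ 0`, so `X l ∈ bI j I`.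
-/

set_option autoImplicit false

namespace MPadcDC

open MvPolynomial MPadcGP

universe u v w

open scoped TensorProduct in
/-- The extension of an ideal to an extension field contracts to the ideal. -/
theorem comap_bI {F K : Type u} [Field F] [Field K] (θ : F →+* K) {n : ℕ} (I : Ideal (MvPolynomial (Fin n) F)) :
    (bI θ I).comap (MvPolynomial.map θ) = I := by
  let : Algebra F K := θ.toAlgebra
  refine le_antisymm ?_ Ideal.le_comap_map
  let φ : MvPolynomial (Fin n) K →ₐ[K] K ⊗[F] (MvPolynomial (Fin n) F ⧸ I) :=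
    (Algebra.TensorProduct.map (AlgHom.id K K) (Ideal.Quotient.mkₐ F I)).comp
      (algebraTensorAlgEquiv F K).symm.toAlgHom
  have hφ : ∀ g : MvPolynomial (Fin n) F, φ (MvPolynomial.map θ g) = 1 ⊗ₜ[F] (Ideal.Quotient.mk I g) := by
    intro g
    have h1 : (algebraTensorAlgEquiv (σ := Fin n) F K).symm (MvPolynomial.map θ g) = 1 ⊗ₜ[F] g :=
      algebraTensorAlgEquiv_symm_map F K g
    change Algebra.TensorProduct.map (AlgHom.id K K) (Ideal.Quotient.mkₐ F I)
      ((algebraTensorAlgEquiv F K).symm (MvPolynomial.map θ g)) = _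
    rw [h1]
    rfl
  have hle : bI θ I ≤ RingHom.ker φ := by
    refine Ideal.map_le_iff_le_comap.2 fun g hg => ?_
    rw [Ideal.mem_comap, RingHom.mem_ker, hφ, Ideal.Quotient.eq_zero_iff_mem.2 hg, TensorProduct.tmul_zero]
  intro f hf
  have h2 : φ (MvPolynomial.map θ f) = 0 := RingHom.mem_ker.1 (hle hf)
  rw [hφ] at h2
  have h3 : Function.Injective (TensorProduct.mk F K (MvPolynomial (Fin n) F ⧸ I) 1) :=
    Module.FaithfullyFlat.tensorProduct_mk_injective _
  have h4 : Ideal.Quotient.mk I f = 0 := by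
    apply h3
    rw [map_zero]
    exact h2
  exact Ideal.Quotient.eq_zero_iff_mem.1 h4

open scoped TensorProduct in
theorem isPrime_bI_closed {F K : Type u} [Field F] [IsAlgClosed F] [Field K] (θ : F →+* K) {n : ℕ}
    {I : Ideal (MvPolynomial (Fin n) F)} (h : I.IsPrime) : (bI θ I).IsPrime := by
  let : Algebra F K := θ.toAlgebra
  have hd : IsDomain (K ⊗[F] (MvPolynomial (Fin n) F ⧸ I)) := MPadcHM.tensor_isDomain_of_isAlgClosed
  let P : Ideal (K ⊗[F] MvPolynomial (Fin n) F) :=
    I.map (Algebra.TensorProduct.includeRight (A := K) (R := F) : MvPolynomial (Fin n) F →ₐ[F] _)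
  have hP : P.IsPrime := by
    have e := Algebra.TensorProduct.tensorQuotientEquiv (R := F) F (MvPolynomial (Fin n) F) K I
    have h2 : IsDomain ((K ⊗[F] MvPolynomial (Fin n) F) ⧸ P) := e.symm.toMulEquiv.isDomain _
    exact (Ideal.Quotient.isDomain_iff_prime P).1 h2
  have h3 : bI θ I = P.map (algebraTensorAlgEquiv (σ := Fin n) F K).toRingEquiv := by
    have h4 : ∀ g : MvPolynomial (Fin n) F, MvPolynomial.map θ g = algebraTensorAlgEquiv F K (1 ⊗ₜ g) := by
      intro g
      rw [algebraTensorAlgEquiv_tmul, one_smul]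
      rfl
    apply le_antisymm
    · refine Ideal.map_le_iff_le_comap.2 fun g hg => ?_
      rw [Ideal.mem_comap, h4]
      exact Ideal.mem_map_of_mem _ (Ideal.mem_map_of_mem _ hg)
    · refine Ideal.map_le_iff_le_comap.2 (Ideal.map_le_iff_le_comap.2 fun g hg => ?_)
      have h5 : MvPolynomial.map θ g ∈ bI θ I := Ideal.mem_map_of_mem _ hg
      rw [h4] at h5
      exact h5
  rw [h3]
  exact Ideal.map_isPrime_of_equiv _

theorem isPrime_bI {R₀ : Type u} [CommRing R₀] [IsDomain R₀] {n : ℕ} {I : Ideal (MvPolynomial (Fin n) R₀)}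
    {k : Type u} [Field k] [IsAlgClosed k] (j : R₀ →+* k) (hj : Function.Injective j) (h : (bI j I).IsPrime)
    {κ : Type u} [Field κ] [IsAlgClosed κ] (ψ : R₀ →+* κ) (hψ : Function.Injective ψ) : (bI ψ I).IsPrime := by
  let F := FractionRing R₀
  let jF : F →+* k := IsFractionRing.lift hj
  let ψF : F →+* κ := IsFractionRing.lift hψ
  let : Algebra F k := jF.toAlgebra
  let : Algebra F κ := ψF.toAlgebra
  have hjF : jF.comp (algebraMap R₀ F) = j := RingHom.ext fun a => IsFractionRing.lift_algebraMap hj a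
  have hψF : ψF.comp (algebraMap R₀ F) = ψ := RingHom.ext fun a => IsFractionRing.lift_algebraMap hψ a
  have hcl : IsAlgClosed (algebraicClosure F k) := (algebraicClosure.isAlgClosure F k).isAlgClosed
  let θ : algebraicClosure F k →ₐ[F] κ := IsAlgClosed.lift
  have h1 : bI j I = bI (algebraMap (algebraicClosure F k) k)
      (bI (algebraMap F (algebraicClosure F k)) (bI (algebraMap R₀ F) I)) := by
    rw [bI_bI, bI_bI]
    congr 1
    rw [← hjF]
    rfl
  have h2 : bI ψ I = bI θ.toRingHom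
      (bI (algebraMap F (algebraicClosure F k)) (bI (algebraMap R₀ F) I)) := by
    rw [bI_bI, bI_bI]
    congr 1
    refine RingHom.ext fun a => ?_
    rw [← hψF]
    exact (θ.commutes (algebraMap R₀ F a)).symm
  rw [h2]
  refine isPrime_bI_closed _ ?_
  rw [← comap_bI (algebraMap (algebraicClosure F k) k)
    (bI (algebraMap F (algebraicClosure F k)) (bI (algebraMap R₀ F) I)), ← h1]
  exact h.comap _

theorem x_notMem {R₀ : Type u} [CommRing R₀] [IsDomain R₀] {n : ℕ} {I : Ideal (MvPolynomial (Fin n) R₀)}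
    {k : Type u} [Field k] (j : R₀ →+* k) (hj : Function.Injective j) {l : Fin n}
    (h : (X l : MvPolynomial (Fin n) k) ∉ bI j I) {κ : Type u} [Field κ] (ψ : R₀ →+* κ)
    (hψ : Function.Injective ψ) : (X l : MvPolynomial (Fin n) κ) ∉ bI ψ I := by
  let F := FractionRing R₀
  let jF : F →+* k := IsFractionRing.lift hj
  let ψF : F →+* κ := IsFractionRing.lift hψ
  have hjF : jF.comp (algebraMap R₀ F) = j := RingHom.ext fun a => IsFractionRing.lift_algebraMap hj a
  have hψF : ψF.comp (algebraMap R₀ F) = ψ := RingHom.ext fun a => IsFractionRing.lift_algebraMap hψ a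
  intro hx
  apply h
  have h1 : (X l : MvPolynomial (Fin n) F) ∈ bI (algebraMap R₀ F) I := by
    rw [← comap_bI ψF (bI (algebraMap R₀ F) I), bI_bI, hψF, Ideal.mem_comap, MvPolynomial.map_X]
    exact hx
  have h2 := Ideal.mem_map_of_mem (MvPolynomial.map jF) h1
  rw [MvPolynomial.map_X] at h2
  have h3 : bI jF (bI (algebraMap R₀ F) I) = bI j I := by rw [bI_bI, hjF]
  rw [← h3]
  exact h2

/-- Smoothness over one field (containing the domain `R₀`) gives smoothness over all. -/
theorem smooth_bI {R₀ : Type u} [CommRing R₀] [IsDomain R₀] [CharZero R₀] [Algebra.FiniteType ℤ R₀] {n : ℕ}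
    {I : Ideal (MvPolynomial (Fin n) R₀)} (hI : IsHomog I) {k : Type u} [Field k] (j : R₀ →+* k)
    (hj : Function.Injective j) (h : IsSmoothProj (bI j I)) {κ : Type u} [Field κ] (ψ : R₀ →+* κ)
    (hψ : Function.Injective ψ) : IsSmoothProj (bI ψ I) := by
  obtain ⟨a, ha, h1, -⟩ := exists_aff hI j hj h
  exact h1 κ ψ (IsUnit.mk0 _ ((map_ne_zero_iff ψ hψ).2 ha))

end MPadcDC
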