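import Pool.Agent.Lib.MP_adc574_ag_DC.PMp
import Pool.Agent.Lib.MP_adc574_ag_DC.PAlg

/-!
# JOB PInd: `a` stays algebraically independent over `R₀` modulo large primes

Choose a transcendence basis `t : T → R₀` of `R₀` over `ℤ`. The family `Sum.elim a (ι ∘ t)` is algebraically
independent over `ℤ` (`AlgebraicIndependent.sumElim_comp`). Extend it to a transcendence basis `x` of `A`.
Let `p` be large, `𝔓 ∈ Min(pA)`, `k = FractionRing (A ⧸ 𝔓)`, `φ : A → k` with kernel `𝔓` (`frac_ker`).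
(i) `exists_mod_p`: for `P ∈ ℤ[σ ⊕ T]`, `P(a, t) ∈ 𝔓` implies `p ∣ P`.
(ii) `alg_mod` for `R₀`, `t`, `φ ∘ ι`: every `φ (ι r)` is algebraic over the image `S` of `ℤ[T]` in `k`.
(iii) `φ ∘ a` is algebraically independent over `S`, so over the image of `R₀` (`extendScalars`).
-/

set_option autoImplicit false

namespace MPadcDC

open MvPolynomial MPadcGP

universe u v w

theorem PInd_dvd_rename {X Y : Type*} (j : X → Y) (hj : Function.Injective j) (c : ℤ) (P : MvPolynomial X ℤ)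
    (h : (C c : MvPolynomial Y ℤ) ∣ rename j P) : (C c : MvPolynomial X ℤ) ∣ P := by
  rw [C_dvd_iff_dvd_coeff] at h ⊢
  intro m
  have h1 := h (m.mapDomain j)
  rwa [coeff_rename_mapDomain j hj] at h1

theorem PInd_indep_range {σ T : Type*} {k : Type*} [Field k] (ψ : MvPolynomial T ℤ →+* k) (b : σ → k) (p : ℤ)
    (hp : ψ (C p) = 0)
    (h : ∀ P : MvPolynomial (σ ⊕ T) ℤ, eval₂Hom ψ b (sumRingEquiv ℤ σ T P) = 0 →
      (C p : MvPolynomial (σ ⊕ T) ℤ) ∣ P) :
    AlgebraicIndependent ψ.range b := by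
  rw [algebraicIndependent_iff]
  intro Q hQ
  obtain ⟨Q', rfl⟩ := MvPolynomial.map_surjective ψ.rangeRestrict ψ.rangeRestrict_surjective Q
  obtain ⟨P, rfl⟩ := (sumRingEquiv ℤ σ T).surjective Q'
  have h1 : eval₂Hom ψ b (sumRingEquiv ℤ σ T P) = 0 := by
    rw [← hQ, aeval_def, MvPolynomial.eval₂_map]
    rfl
  obtain ⟨P', rfl⟩ := h P h1
  rw [map_mul, map_mul]
  have h2 : MvPolynomial.map ψ.rangeRestrict (sumRingEquiv ℤ σ T (C p)) = 0 := by
    have h3 : sumRingEquiv ℤ σ T (C p) = C (C p) := sumRingEquiv_C ℤ σ T p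
    rw [h3, map_C]
    have h4 : ψ.rangeRestrict (C p) = 0 := Subtype.ext hp
    rw [h4, C_0]
  rw [h2, zero_mul]

theorem exists_indep {R₀ A : Type u} [CommRing R₀] [IsDomain R₀] [CharZero R₀] [Algebra.FiniteType ℤ R₀] [CommRing A]
    [IsDomain A] [CharZero A] [Algebra.FiniteType ℤ A] (ι : R₀ →+* A) (hι : Function.Injective ι) {σ : Type}
    [Finite σ] (a : σ → A) (ha : Function.Injective (eval₂Hom ι a)) :
    ∃ p₀ : ℕ, ∀ p : ℕ, p.Prime → p₀ < p → ∀ 𝔓 ∈ (Ideal.span {(p : A)}).minimalPrimes,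
      ∀ P : MvPolynomial σ R₀, eval₂Hom ι a P ∈ 𝔓 → ∀ m, ι (P.coeff m) ∈ 𝔓 := by
  classical
  let algA : Algebra R₀ A := ι.toAlgebra
  have : IsScalarTower ℤ R₀ A := IsScalarTower.of_algebraMap_eq' (Subsingleton.elim _ _)
  have hfaith : FaithfulSMul ℤ R₀ := inferInstance
  obtain ⟨T, hT⟩ := exists_isTranscendenceBasis ℤ R₀
  have hTfin : Finite T := by
    rw [← Cardinal.lt_aleph0_iff_finite, hT.cardinalMk_eq_trdeg]
    exact trdeg_lt_aleph0_of_finiteType
  have haR : AlgebraicIndependent R₀ a := ha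
  let y : σ ⊕ T → A := Sum.elim a (algebraMap R₀ A ∘ ((↑) : T → R₀))
  have hsum : AlgebraicIndependent ℤ y := hT.1.sumElim_comp haR
  obtain ⟨Y, hYs, hY⟩ := exists_isTranscendenceBasis_superset hsum.coe_range
  have hYfin : Finite Y := by
    rw [← Cardinal.lt_aleph0_iff_finite, hY.cardinalMk_eq_trdeg]
    exact trdeg_lt_aleph0_of_finiteType
  let j : σ ⊕ T → Y := fun i => ⟨y i, hYs ⟨i, rfl⟩⟩
  have hj : Function.Injective j := by
    intro i i' h
    exact hsum.injective (congrArg Subtype.val h)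
  obtain ⟨p₁, hp₁⟩ := exists_mod_p ((↑) : Y → A) hY
  obtain ⟨p₂, hp₂⟩ := alg_mod ((↑) : T → R₀) hT
  refine ⟨max p₁ p₂, fun p hp hpl 𝔓 h𝔓 P hP m => ?_⟩
  have hpr : 𝔓.IsPrime := h𝔓.1.1
  let k := FractionRing (A ⧸ 𝔓)
  let φ : A →+* k := (algebraMap (A ⧸ 𝔓) k).comp (Ideal.Quotient.mk 𝔓)
  have hker : RingHom.ker φ = 𝔓 := frac_ker 𝔓
  have hzero : ∀ x : A, φ x = 0 ↔ x ∈ 𝔓 := fun x => by
    rw [← RingHom.mem_ker, hker]
  have hpP : (p : A) ∈ 𝔓 := h𝔓.1.2 (Ideal.subset_span rfl)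
  -- (i)
  have h1 : ∀ Q : MvPolynomial (σ ⊕ T) ℤ, φ (aeval y Q) = 0 → (C (p : ℤ) : MvPolynomial (σ ⊕ T) ℤ) ∣ Q := by
    intro Q hQ
    refine PInd_dvd_rename j hj _ Q ?_
    refine hp₁ p hp (lt_of_le_of_lt (le_max_left _ _) hpl) 𝔓 h𝔓 _ ?_
    rw [aeval_rename]
    exact (hzero _).1 hQ
  -- (ii)
  have h2 : ∀ Q : MvPolynomial T ℤ, (φ.comp ι) (aeval ((↑) : T → R₀) Q) = 0 →
      (C (p : ℤ) : MvPolynomial T ℤ) ∣ Q := by
    intro Q hQ
    refine PInd_dvd_rename (Sum.inr : T → σ ⊕ T) Sum.inr_injective _ Q ?_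
    refine h1 _ ?_
    rw [aeval_rename]
    have h3 : aeval (y ∘ Sum.inr) Q = ι (aeval ((↑) : T → R₀) Q) := by
      have h4 := aeval_algebraMap_apply A ((↑) : T → R₀) Q
      exact h4
    rw [h3]
    exact hQ
  have h3 := hp₂ p hp (lt_of_le_of_lt (le_max_right _ _) hpl) k (φ.comp ι) h2
  -- (iii)
  let ψ : MvPolynomial T ℤ →+* k :=
    (φ.comp ι).comp (aeval ((↑) : T → R₀) : MvPolynomial T ℤ →ₐ[ℤ] R₀).toRingHom
  have h4 : AlgebraicIndependent ψ.range (fun i => φ (a i)) := by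
    refine PInd_indep_range ψ _ (p : ℤ) ?_ ?_
    · have h5 : ψ (C (p : ℤ)) = φ (p : A) := by
        change φ (ι (aeval _ (C (p : ℤ)))) = _
        rw [aeval_C]
        simp
      rw [h5]
      exact (hzero _).2 hpP
    · intro Q hQ
      refine h1 Q ?_
      rw [← hQ]
      have h5 : φ.comp (aeval y : MvPolynomial (σ ⊕ T) ℤ →ₐ[ℤ] A).toRingHom =
          (eval₂Hom ψ fun i => φ (a i)).comp (sumRingEquiv ℤ σ T).toRingHom := by
        refine MvPolynomial.ringHom_ext ?_ ?_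
        · intro c
          simp
        · intro i
          rcases i with i | i
          · have h6 : sumRingEquiv ℤ σ T (X (Sum.inl i)) = X i := sumRingEquiv_X_inl ℤ σ T i
            change φ (aeval y (X (Sum.inl i))) = eval₂Hom ψ (fun i => φ (a i)) (sumRingEquiv ℤ σ T (X (Sum.inl i)))
            rw [h6, aeval_X, eval₂Hom_X']
            rfl
          · have h6 : sumRingEquiv ℤ σ T (X (Sum.inr i)) = C (X i) := sumRingEquiv_X_inr ℤ σ T i
            change φ (aeval y (X (Sum.inr i))) = eval₂Hom ψ (fun i => φ (a i)) (sumRingEquiv ℤ σ T (X (Sum.inr i)))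
            rw [h6, aeval_X, eval₂Hom_C]
            change _ = φ (ι (aeval _ (X i)))
            rw [aeval_X]
            rfl
      exact congrArg (fun f : MvPolynomial (σ ⊕ T) ℤ →+* k => f Q) h5
  -- (iv)
  have hle : ψ.range ≤ (φ.comp ι).range := by
    rintro _ ⟨Q, rfl⟩
    exact ⟨_, rfl⟩
  let algS : Algebra ψ.range (φ.comp ι).range := (Subring.inclusion hle).toAlgebra
  have : IsScalarTower ψ.range (φ.comp ι).range k := IsScalarTower.of_algebraMap_eq fun x => rfl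
  have : Algebra.IsAlgebraic ψ.range (φ.comp ι).range := by
    refine ⟨fun x => ?_⟩
    obtain ⟨x, r, rfl⟩ := x
    rw [← isAlgebraic_algHom_iff (IsScalarTower.toAlgHom ψ.range (φ.comp ι).range k) Subtype.val_injective]
    exact h3 r
  have h5 : AlgebraicIndependent (φ.comp ι).range (fun i => φ (a i)) := h4.extendScalars _
  have h6 : MvPolynomial.map (φ.comp ι).rangeRestrict P = 0 := by
    refine (algebraicIndependent_iff.1 h5) _ ?_
    rw [aeval_def, MvPolynomial.eval₂_map]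
    have h7 := (hzero _).2 hP
    rw [← h7, coe_eval₂Hom, MvPolynomial.hom_eval₂]
    rfl
  have h7 := congrArg (fun q => MvPolynomial.coeff m q) h6
  simp only [coeff_map, coeff_zero] at h7
  exact (hzero _).1 (congrArg Subtype.val h7)

end MPadcDC
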