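import Pool.Agent.Lib.MP_adc574_ag_DC.PWg1

/-!
# JOB PWg2: the weights `μ ≠ 0` are opposite for large `p`

`exists_datB` for the domain `Ra R₀ n e` gives `g`, the data over `B = Localization.Away g` (`away_isDomain`, `away_charZero`, `away_finiteType'`, GP/Fin3a.lean; take care of the `ℤ`-algebra structure:
`weight_large_one` wants `@Algebra.FiniteType ℤ B _ _ (Ring.toIntAlgebra B)`). There are `M₀`, `i₀` such that there is no bad class for `m ≥ M₀` or `i ≥ i₀`, for all `p`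
(`DatW.bound'`: `β (m, μ)` is empty for `m ≥ M₀`; for `i + 1 >` all levels `lev (m, μ) b`, `m < M₀`: a class in `Fil m (i + 1) ∩ HW m μ` is `crd x'` with `x' = 0` by `crd_mem_Fil`; here one needs `φ : B → L`:
`exists_phi`, so `p > N r`, `r` a nonzero coefficient of `g`; transport by `noBad_congr`).
Take the maximum of the bounds of `weight_large_one` over the finitely many remaining `(m, i, μ)` (`Finset.sum` / `choose`).
-/

set_option autoImplicit false

namespace MPadcDC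

open MvPolynomial MPadcGP MPadcGM

universe u v w

theorem weights_large {R₀ : Type u} [CommRing R₀] [IsDomain R₀] [CharZero R₀] [Algebra.FiniteType ℤ R₀] {n e : ℕ}
    [NeZero e] {I₀ : Ideal (MvPolynomial (Fin n) R₀)} (hI₀ : IsHomog I₀)
    (hkey : ∀ (κ₀ : Type u) [Field κ₀] [IsAlgClosed κ₀] [CharZero κ₀] (ψ₀ : R₀ →+* κ₀), Function.Injective ψ₀ →
      KeyPos e (hI₀.map ψ₀))
    {E : Type u} [Field E] (j : Ra R₀ n e →+* E) (hj : Function.Injective j) (hs : IsSmoothProj (bI j (cycG I₀ e)))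
    (N : R₀ → ℕ) :
    ∃ p₀ : ℕ, ∀ p : ℕ, p₀ ≤ p → p.Prime → (p : ZMod e) = 1 → ∀ (κ : Type u) [Field κ] [IsAlgClosed κ] [CharP κ p]
      (ψ : R₀ →+* κ), (∀ r : R₀, r ≠ 0 → N r < p → ψ r ≠ 0) → ∀ (L : Type u) [Field L] [Algebra (Ra κ n e) L]
      [IsFractionRing (Ra κ n e) L] (m i : ℕ) (μ : ZMod e), μ ≠ 0 → NoBad
        ((isHomog_cycG hI₀).map ((algebraMap (Ra κ n e) L).comp (MvPolynomial.map ψ)))
        ((isWHomog_cycG hI₀).map ((algebraMap (Ra κ n e) L).comp (MvPolynomial.map ψ))) m i μ := by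
  classical
  have hft := finiteType_Ra (R₀ := R₀) n e
  obtain ⟨g, hg, hsm, β, i1, i2, lev, z, h, hDat⟩ := exists_datB (isHomog_cycG (e := e) hI₀)
    (isWHomog_cycG (e := e) hI₀) j hj hs
  have hd' : IsDomain (Localization.Away g) := away_isDomain hg
  have hft' := away_finiteType' g
  have hcz : CharZero (Localization.Away g) := away_charZero hg
  obtain ⟨γ₀, hγ₀⟩ : ∃ γ₀, MvPolynomial.coeff γ₀ g ≠ 0 := by
    by_contra hne
    push Not at hne
    exact hg (MvPolynomial.ext _ _ fun m => by rw [hne m, MvPolynomial.coeff_zero])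
  obtain ⟨r, hr⟩ : ∃ r, r = MvPolynomial.coeff γ₀ g := ⟨_, rfl⟩
  have hr0 : r ≠ 0 := hr ▸ hγ₀
  obtain ⟨M₀, hM₀⟩ := hDat.bound
  choose p₀ hp₀ using fun (m i : ℕ) (μ : ZMod e) (hμ : μ ≠ 0) =>
    weight_large_one hI₀ hkey g hg (Localization.Away g) hsm hDat N m i μ hμ
  -- the levels are bounded
  obtain ⟨i₀, hi₀⟩ : ∃ i₀ : ℕ, ∀ (m : ℕ) (μ : ZMod e) (b : β (m, μ)), m < M₀ → lev (m, μ) b < i₀ := by
    refine ⟨∑ m ∈ Finset.range M₀, ∑ μ : ZMod e, ∑ b : β (m, μ), (lev (m, μ) b + 1), fun m μ b hm => ?_⟩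
    have h1 : lev (m, μ) b + 1 ≤ ∑ b : β (m, μ), (lev (m, μ) b + 1) :=
      Finset.single_le_sum (f := fun b : β (m, μ) => lev (m, μ) b + 1) (fun _ _ => Nat.zero_le _) (Finset.mem_univ b)
    have h2 : ∑ b : β (m, μ), (lev (m, μ) b + 1) ≤ ∑ μ : ZMod e, ∑ b : β (m, μ), (lev (m, μ) b + 1) :=
      Finset.single_le_sum (f := fun μ : ZMod e => ∑ b : β (m, μ), (lev (m, μ) b + 1)) (fun _ _ => Nat.zero_le _)
        (Finset.mem_univ μ)
    have h3 : ∑ μ : ZMod e, ∑ b : β (m, μ), (lev (m, μ) b + 1) ≤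
        ∑ m ∈ Finset.range M₀, ∑ μ : ZMod e, ∑ b : β (m, μ), (lev (m, μ) b + 1) :=
      Finset.single_le_sum (f := fun m => ∑ μ : ZMod e, ∑ b : β (m, μ), (lev (m, μ) b + 1))
        (fun _ _ => Nat.zero_le _) (Finset.mem_range.2 hm)
    omega
  refine ⟨N r + 1 + ∑ m ∈ Finset.range M₀, ∑ i ∈ Finset.range i₀, ∑ μ : ZMod e,
    (if hμ : μ ≠ 0 then p₀ m i μ hμ else 0), fun p hp hpr hpe κ _ _ _ ψ hψ L _ _ _ m i μ hμ => ?_⟩
  by_cases hmi : m < M₀ ∧ i < i₀
  · refine hp₀ m i μ hμ p (le_trans ?_ hp) hpr hpe κ ψ hψ L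
    have h1 : p₀ m i μ hμ ≤ ∑ μ : ZMod e, (if hμ : μ ≠ 0 then p₀ m i μ hμ else 0) := by
      have h2 := Finset.single_le_sum (f := fun μ : ZMod e => if hμ : μ ≠ 0 then p₀ m i μ hμ else 0)
        (fun _ _ => Nat.zero_le _) (Finset.mem_univ μ)
      rw [dif_pos hμ] at h2
      exact h2
    have h2 : ∑ μ : ZMod e, (if hμ : μ ≠ 0 then p₀ m i μ hμ else 0) ≤
        ∑ i ∈ Finset.range i₀, ∑ μ : ZMod e, (if hμ : μ ≠ 0 then p₀ m i μ hμ else 0) :=
      Finset.single_le_sum (f := fun i => ∑ μ : ZMod e, (if hμ : μ ≠ 0 then p₀ m i μ hμ else 0))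
        (fun _ _ => Nat.zero_le _) (Finset.mem_range.2 hmi.2)
    have h3 : ∑ i ∈ Finset.range i₀, ∑ μ : ZMod e, (if hμ : μ ≠ 0 then p₀ m i μ hμ else 0) ≤
        ∑ m ∈ Finset.range M₀, ∑ i ∈ Finset.range i₀, ∑ μ : ZMod e, (if hμ : μ ≠ 0 then p₀ m i μ hμ else 0) :=
      Finset.single_le_sum (f := fun m => ∑ i ∈ Finset.range i₀, ∑ μ : ZMod e,
        (if hμ : μ ≠ 0 then p₀ m i μ hμ else 0)) (fun _ _ => Nat.zero_le _) (Finset.mem_range.2 hmi.1)
    omega
  · have hmap : (MvPolynomial.map ψ g : Ra κ n e) ≠ 0 := by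
      intro h
      have h1 := congrArg (MvPolynomial.coeff γ₀) h
      rw [coeff_map, MvPolynomial.coeff_zero, ← hr] at h1
      exact hψ r hr0 (by omega) h1
    obtain ⟨φ, hφ, -⟩ := exists_phi ψ g hmap (Localization.Away g) L
    have hideal : bI ((algebraMap (Ra κ n e) L).comp (MvPolynomial.map ψ)) (cycG I₀ e) =
        bI φ (bI (algebraMap (Ra R₀ n e) (Localization.Away g)) (cycG I₀ e)) := by
      rw [bI_bI]
      congr 1
      exact (RingHom.ext hφ).symm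
    refine noBad_congr hideal.symm (((isHomog_cycG hI₀).map (algebraMap (Ra R₀ n e) (Localization.Away g))).map φ)
      (((isWHomog_cycG hI₀).map (algebraMap (Ra R₀ n e) (Localization.Away g))).map φ) _ _ m i μ ?_
    intro y hy1 hy2 hy3
    have had := hDat.ad L φ
    obtain ⟨x, hx⟩ := had.exists_crd (a := (m, μ)) (x := y) hy3
    rw [← hx] at hy2 ⊢
    have h3 := (had.crd_mem_Fil (a := (m, μ)) (i := i + 1) (c := x)).1 hy2
    have h4 : x = 0 := by
      funext b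
      refine h3 b ?_
      by_cases hm : m < M₀
      · have h5 : ¬ i < i₀ := fun h => hmi ⟨hm, h⟩
        have h6 := hi₀ m μ b hm
        omega
      · exact ((hM₀ (m, μ) (not_lt.1 hm)).false b).elim
    rw [h4, map_zero]

end MPadcDC
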