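import Pool.Agent.Lib.MP_adc574_ag_DC.POpp
import Pool.Agent.Lib.MP_adc574_ag_DC.PInd
import Pool.Agent.Lib.MP_adc574_ag_DC.PWg2

/-!
# JOB PFin: the theorem at the generic points of `Spec (A / p)`

`dc_core` (compare `rel_core`, `rel_open` in GP/Fin3.lean, GP/Fin4.lean): `c` from `exists_hasDat` (GP/Fin3.lean, `I₀ = I = bI ι I₀`) over `A`, `g` from `exists_hasDat`
for `cycG I₀ e` over `Ra R₀ n e` (`finiteType_Ra`; `CharZero`, `IsDomain` by instances), `g'` from `exists_datB` (weights), `p₀` from `weights_large` with `N r := BA (ι r)`, `BA` from `exists_resB A` (GP/R3Res.lean), `p₁` from `exists_indep`.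
For `p ≥` the sum of `p₀`, `p₁`, `BA 0`, `BA c`, `BA (ev g)`, `BA (ev g')` and `1` (`ev = eval₂Hom ι a` injective, so `ev g ≠ 0`), `(p : ZMod e) = 1`: `exists_resB` gives `CharP K p`, `φ x ≠ 0` for `x ≠ 0` with `BA x < p`,
and the `p`-basis of `K`. Then `opp_cyc` (`hbad` from `weights_large`: `ψ = (algebraMap K κ).comp (φ.comp ι)`, `ψ r ≠ 0` for `N r < p`; `CharP κ p` from `K → κ`; `hind` from `exists_indep`: `φ x = 0` iff `x ∈ 𝔓`).
Smoothness of the cover along `j ∘ ev : Ra R₀ n e → A → k` (injective): `bI (j.comp ev) (cycG I₀ e) = bI j (cyc (bI ι I₀) (frm a) e)` by `bI_cycG`, `bI_cyc`, `bI_frm`, `bI_bI`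
(`ev (C r) = ι r`, `ev (X g) = a g`).
-/

set_option autoImplicit false

namespace MPadcDC

open MvPolynomial MPadcGP

universe u v w

theorem dc_core {R₀ A : Type u} [CommRing R₀] [IsDomain R₀] [CharZero R₀] [Algebra.FiniteType ℤ R₀] [CommRing A]
    [IsDomain A] [CharZero A] [Algebra.FiniteType ℤ A] (ι : R₀ →+* A) (hι : Function.Injective ι) {n e : ℕ} [NeZero e]
    {I₀ : Ideal (MvPolynomial (Fin n) R₀)} (hI₀ : IsHomog I₀) (a : Mon n e → A)
    (ha : Function.Injective (eval₂Hom ι a))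
    {k : Type u} [Field k] (j : A →+* k) (hj : Function.Injective j)
    (hsY : IsSmoothProj (bI j (bI ι I₀))) (hsX : IsSmoothProj (bI j (cyc (bI ι I₀) (frm a) e)))
    (hkey : ∀ (κ₀ : Type u) [Field κ₀] [IsAlgClosed κ₀] [CharZero κ₀] (ψ₀ : R₀ →+* κ₀), Function.Injective ψ₀ →
      KeyPos e (hI₀.map ψ₀)) :
    ∃ p₀ : ℕ, ∀ p : ℕ, p₀ ≤ p → p.Prime → (p : ZMod e) = 1 → ∀ 𝔓 ∈ (Ideal.span {(p : A)}).minimalPrimes,
      ∀ (K : Type u) [Field K] (φ : A →+* K), RingHom.ker φ = 𝔓 → (∀ x : K, ∃ a b : A, φ b ≠ 0 ∧ x = φ a / φ b) →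
        IsOppC (prC (bI φ (bI ι I₀))) → IsOppC (prC (bI φ (cyc (bI ι I₀) (frm a) e))) := by
  classical
  have hft := finiteType_Ra (R₀ := R₀) n e
  have hinj : Function.Injective (j.comp (eval₂Hom ι a)) := hj.comp ha
  have hsX' : IsSmoothProj (bI (j.comp (eval₂Hom ι a)) (cycG I₀ e)) := by
    rw [popp_ideal]
    exact hsX
  obtain ⟨c, hc, -, hdY⟩ := exists_hasDat (hI₀.map ι) (hI₀.map ι) j hj hsY hsY
  obtain ⟨g, hg, -, hdX⟩ := exists_hasDat (isHomog_cycG (e := e) hI₀) (isHomog_cycG (e := e) hI₀)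
    (j.comp (eval₂Hom ι a)) hinj hsX' hsX'
  obtain ⟨g', hg', -, β, i1, i2, lev, z, h, hD⟩ := exists_datB (isHomog_cycG (e := e) hI₀)
    (isWHomog_cycG (e := e) hI₀) (j.comp (eval₂Hom ι a)) hinj hsX'
  obtain ⟨BA, hBA⟩ := exists_resB A
  obtain ⟨p₀, hp₀⟩ := weights_large hI₀ hkey (j.comp (eval₂Hom ι a)) hinj hsX' (fun r => BA (ι r))
  obtain ⟨p₁, hp₁⟩ := exists_indep ι hι a ha
  refine ⟨p₀ + p₁ + BA 0 + BA c + BA (eval₂Hom ι a g) + BA (eval₂Hom ι a g') + 1,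
    fun p hp hpr hpe 𝔓 h𝔓 K _ φ hk hfr hopp => ?_⟩
  have hfact : Fact p.Prime := ⟨hpr⟩
  obtain ⟨hcK, -, hne, Λ, iΛ, bb, hbb⟩ := hBA p hpr (by omega) 𝔓 h𝔓 K φ hk hfr
  refine opp_cyc ι hI₀ a hpe hc hdY hg hdX hD φ hbb (hne c hc (by omega))
    (hne _ ((map_ne_zero_iff _ ha).2 hg) (by omega)) (hne _ ((map_ne_zero_iff _ ha).2 hg') (by omega)) ?_ ?_ hopp
  · intro P hP m
    have h1 : eval₂Hom ι a P ∈ 𝔓 := by
      rw [← hk]
      exact hP
    have h2 := hp₁ p hpr (by omega) 𝔓 h𝔓 P h1 m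
    rw [← hk] at h2
    exact h2
  · intro κ _ _ _ L _ _ _ m i μ hμ
    have hcκ : CharP κ p := charP_of_injective_algebraMap (algebraMap K κ).injective p
    refine hp₀ p (by omega) hpr hpe κ ((algebraMap K κ).comp (φ.comp ι)) (fun r hr hlt => ?_) L m i μ hμ
    rw [RingHom.comp_apply, RingHom.comp_apply]
    exact (map_ne_zero_iff _ (algebraMap K κ).injective).2 (hne _ ((map_ne_zero_iff _ hι).2 hr) hlt)

end MPadcDC
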