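import Mathlib

/-!
# JOB PLin: functionals which define a stable subspace (linear algebra)

`exists_functionals`: let `Q = {l : β → L | ∀ x ∈ P, ∑ b, l b * x b = 0}` (the annihilator of `P`), `finrank Q = card β - finrank P = card {b // S b}`
(`Submodule.dualAnnihilator`, `Subspace.finrank_add_finrank_dualAnnihilator_eq` transported with `Pi.basisFun ... dualBasis`, or by hand with `LinearMap.BilinForm` / `dotProduct`).
Let `c` be a basis of `Q` indexed by `{b // S b}`. `l ∈ Q` implies `δ γ ∘ l - l G ∈ Q`: for `x ∈ P`, `∑_b (δ(l b) - ∑_b' l b' G b' b) x b = δ (∑ l b x b) - ∑ l b (δ (x b) + ∑_b'' G b b'' x b'') = 0 - 0`.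
So `δ γ (c v b) - ∑_b' c v b' G b' b = ∑_v' ν v v' c v' b`. The determinant: `∑_u x u c v u = 0` for all `v` and `x ≠ 0` is supported on `S` (`Matrix.exists_mulVec_eq_zero_iff`).
`exists_minor`: a linearly independent family has a nonzero minor (`Matrix.rank`, or `exists_minor` in CM/KeyB if it is there: grep; it was used in GP/Key.lean).
-/

set_option autoImplicit false

namespace MPadcDC

universe u v w

theorem plin_apply {L : Type u} [Field L] {β : Type} [Fintype β] [DecidableEq β] (f : Module.Dual L (β → L))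
    (x : β → L) : f x = ∑ b, f (Pi.single b 1) * x b := by
  have h1 : x = ∑ b, x b • (Pi.single b (1 : L) : β → L) := by
    funext b
    rw [Finset.sum_apply, Finset.sum_eq_single b]
    · rw [Pi.smul_apply, Pi.single_eq_same, smul_eq_mul, mul_one]
    · intro b' _ hb'
      rw [Pi.smul_apply, Pi.single_eq_of_ne hb'.symm, smul_zero]
    · intro h
      exact absurd (Finset.mem_univ b) h
  conv_lhs => rw [h1]
  rw [map_sum]
  refine Finset.sum_congr rfl fun b _ => ?_
  rw [map_smul, smul_eq_mul, mul_comm]

theorem plin_finrank {L : Type u} [Field L] {β : Type} [Fintype β] [DecidableEq β] (P : Submodule L (β → L))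
    (Q : Submodule L (β → L)) (hQ : ∀ l, l ∈ Q ↔ ∀ y ∈ P, ∑ b, l b * y b = 0) :
    Module.finrank L ↥P + Module.finrank L ↥Q = Fintype.card β := by
  let Ψ : (β → L) →ₗ[L] (↥P →ₗ[L] L) :=
    { toFun := fun l =>
        { toFun := fun y => ∑ b, l b * (y : β → L) b
          map_add' := fun y y' => by
            rw [← Finset.sum_add_distrib]
            exact Finset.sum_congr rfl fun b _ => mul_add _ _ _
          map_smul' := fun r y => by
            rw [RingHom.id_apply, smul_eq_mul, Finset.mul_sum]
            exact Finset.sum_congr rfl fun b _ => mul_left_comm _ _ _ }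
      map_add' := fun l l' => by
        refine LinearMap.ext fun y => ?_
        change ∑ b, (l b + l' b) * (y : β → L) b = ∑ b, l b * (y : β → L) b + ∑ b, l' b * (y : β → L) b
        rw [← Finset.sum_add_distrib]
        exact Finset.sum_congr rfl fun b _ => add_mul _ _ _
      map_smul' := fun r l => by
        refine LinearMap.ext fun y => ?_
        change ∑ b, (r * l b) * (y : β → L) b = r * ∑ b, l b * (y : β → L) b
        rw [Finset.mul_sum]
        exact Finset.sum_congr rfl fun b _ => mul_assoc _ _ _ }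
  have hΨ : ∀ l y, Ψ l y = ∑ b, l b * (y : β → L) b := fun _ _ => rfl
  have hker : LinearMap.ker Ψ = Q := by
    ext l
    rw [LinearMap.mem_ker, hQ]
    constructor
    · intro h y hy
      have h1 := LinearMap.congr_fun h ⟨y, hy⟩
      rw [hΨ] at h1
      exact h1
    · intro h
      refine LinearMap.ext fun y => ?_
      rw [hΨ]
      exact h _ y.2
  have hsurj : LinearMap.range Ψ = ⊤ := by
    rw [LinearMap.range_eq_top]
    intro f
    obtain ⟨f', hf'⟩ := LinearMap.exists_extend f
    refine ⟨fun b => f' (Pi.single b 1), LinearMap.ext fun y => ?_⟩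
    rw [hΨ, ← hf']
    exact (plin_apply f' _).symm
  have h1 := Ψ.finrank_range_add_finrank_ker
  rw [hker, hsurj, finrank_top, Module.finrank_fintype_fun_eq_card] at h1
  have h2 : Module.finrank L (↥P →ₗ[L] L) = Module.finrank L ↥P := Subspace.dual_finrank_eq
  rw [h2] at h1
  exact h1

theorem plin_basis {L : Type u} [Field L] {β : Type} [Fintype β] [DecidableEq β] {S : β → Prop}
    [DecidablePred S] (P : Submodule L (β → L))
    (hdim : Module.finrank L ↥P + Fintype.card {b // S b} = Fintype.card β) :
    ∃ c : {b // S b} → β → L, (∀ v, ∀ y ∈ P, ∑ b, c v b * y b = 0) ∧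
      (∀ l : β → L, (∀ y ∈ P, ∑ b, l b * y b = 0) → ∃ ν : {b // S b} → L, ∀ b, l b = ∑ v, ν v * c v b) ∧
      LinearIndependent L c := by
  obtain ⟨Q, hQ⟩ : ∃ Q : Submodule L (β → L), ∀ l, l ∈ Q ↔ ∀ y ∈ P, ∑ b, l b * y b = 0 :=
    ⟨{ carrier := {l | ∀ y ∈ P, ∑ b, l b * y b = 0}
       add_mem' := fun {l l'} hl hl' y hy => by
        have h1 : ∑ b, (l + l') b * y b = ∑ b, l b * y b + ∑ b, l' b * y b := by
          rw [← Finset.sum_add_distrib]
          exact Finset.sum_congr rfl fun b _ => add_mul _ _ _
        rw [h1, hl y hy, hl' y hy, add_zero]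
       zero_mem' := fun y _ => Finset.sum_eq_zero fun b _ => zero_mul _
       smul_mem' := fun r l hl y hy => by
        have h1 : ∑ b, (r • l) b * y b = r * ∑ b, l b * y b := by
          rw [Finset.mul_sum]
          exact Finset.sum_congr rfl fun b _ => mul_assoc _ _ _
        rw [h1, hl y hy, mul_zero] }, fun l => Iff.rfl⟩
  have hfr : Module.finrank L ↥Q = Fintype.card {b // S b} := by
    have h1 := plin_finrank P Q hQ
    omega
  let B₀ := Module.finBasisOfFinrankEq L ↥Q hfr
  let B : Module.Basis {b // S b} L ↥Q := B₀.reindex (Fintype.equivFin {b // S b}).symm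
  refine ⟨fun v => (B v : β → L), fun v y hy => (hQ _).1 (B v).2 y hy, fun l hl => ?_, ?_⟩
  · refine ⟨fun v => B.repr ⟨l, (hQ l).2 hl⟩ v, fun b => ?_⟩
    have h1 := congrArg (fun g : ↥Q => (g : β → L) b) (B.sum_repr ⟨l, (hQ l).2 hl⟩)
    simp only [Submodule.coe_sum, Submodule.coe_smul, Finset.sum_apply, Pi.smul_apply, smul_eq_mul] at h1
    exact h1.symm
  · exact B.linearIndependent.map' Q.subtype (Submodule.ker_subtype Q)

theorem exists_functionals {L : Type u} [Field L] {β : Type} [Fintype β] [DecidableEq β] (S : β → Prop)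
    [DecidablePred S] {σ : Type} (δ : σ → Derivation ℤ L L) (G : σ → β → β → L) (P : Submodule L (β → L))
    (hstab : ∀ γ, ∀ x ∈ P, (fun b' => δ γ (x b') + ∑ b, G γ b' b * x b) ∈ P)
    (hdim : Module.finrank L ↥P + Fintype.card {b // S b} = Fintype.card β) (x : β → L) (hx : x ∈ P) (hx0 : x ≠ 0)
    (hxS : ∀ b, ¬ S b → x b = 0) :
    ∃ (c : {b // S b} → β → L) (ν : σ → Matrix {b // S b} {b // S b} L), LinearIndependent L c ∧
      (∀ γ v b, δ γ (c v b) = ∑ b', c v b' * G γ b' b + ∑ v', ν γ v v' * c v' b) ∧
      (Matrix.of fun v u : {b // S b} => c v u.1).det = 0 := by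
  obtain ⟨c, hcx, hex, hli⟩ := plin_basis P hdim
  have hst : ∀ γ v, ∀ y ∈ P, ∑ b, (δ γ (c v b) - ∑ b', c v b' * G γ b' b) * y b = 0 := by
    intro γ v y hy
    have h1 := hcx v _ (hstab γ y hy)
    have h2 : δ γ (∑ b, c v b * y b) = 0 := by rw [hcx v y hy, map_zero]
    rw [map_sum] at h2
    simp only [Derivation.leibniz, smul_eq_mul, mul_add, Finset.sum_add_distrib] at h1 h2
    simp only [sub_mul, Finset.sum_sub_distrib]
    have h3 : ∑ b, (∑ b', c v b' * G γ b' b) * y b = ∑ b', c v b' * ∑ b, G γ b' b * y b := by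
      simp only [Finset.sum_mul, Finset.mul_sum]
      rw [Finset.sum_comm]
      exact Finset.sum_congr rfl fun b _ => Finset.sum_congr rfl fun b' _ => by ring
    have h4 : ∑ b, δ γ (c v b) * y b = ∑ b, y b * δ γ (c v b) := Finset.sum_congr rfl fun b _ => mul_comm _ _
    rw [h3, h4]
    linear_combination h2 - h1
  choose ν hν using fun γ v => hex _ (hst γ v)
  refine ⟨c, fun γ => Matrix.of fun v v' => ν γ v v', hli, fun γ v b => ?_, ?_⟩
  · have h1 := hν γ v b
    rw [sub_eq_iff_eq_add] at h1
    rw [h1, add_comm]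
    rfl
  · rw [← Matrix.exists_mulVec_eq_zero_iff]
    refine ⟨fun u => x u.1, ?_, ?_⟩
    · intro h
      apply hx0
      funext b
      by_cases hb : S b
      · exact congrFun h ⟨b, hb⟩
      · exact hxS b hb
    · funext v
      change ∑ u : {b // S b}, c v u.1 * x u.1 = 0
      rw [← hcx v x hx, ← Finset.sum_subtype (Finset.univ.filter S) (fun b => by
        rw [Finset.mem_filter]
        exact ⟨fun h => h.2, fun h => ⟨Finset.mem_univ _, h⟩⟩) fun b => c v b * x b]
      refine Finset.sum_filter_of_ne fun b _ hb => ?_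
      by_contra hS
      exact hb (by rw [hxS b hS, mul_zero])

theorem exists_minor_ne {L : Type u} [Field L] {β g : Type} [Fintype β] [DecidableEq β] [Fintype g] [DecidableEq g]
    (c : g → β → L) (hc : LinearIndependent L c) : ∃ s : g → β, (Matrix.of fun v u : g => c v (s u)).det ≠ 0 := by
  classical
  set B : Matrix g β L := Matrix.of c with hB
  have hr : B.rank = Fintype.card g := by
    have h1 : LinearIndependent L B.row := hc
    rw [h1.rank_matrix]
  rw [Matrix.rank_eq_finrank_span_cols] at hr
  obtain ⟨κ, a, ha, hs, hl⟩ := exists_linearIndependent' L B.col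
  have : Finite κ := Finite.of_injective a ha
  let : Fintype κ := Fintype.ofFinite κ
  have hcd : Fintype.card g = Fintype.card κ := by
    have h2 := finrank_span_eq_card hl
    rw [hs, hr] at h2
    exact h2
  obtain ⟨e⟩ := Fintype.card_eq.1 hcd
  refine ⟨fun u => a (e u), ?_⟩
  have h3 : LinearIndependent L (Matrix.of fun v u => c v (a (e u))).col := by
    have h4 : (Matrix.of fun v u => c v (a (e u))).col = (B.col ∘ a) ∘ e := by
      funext u v
      rfl
    rw [h4]
    exact hl.comp e e.injective
  rw [Matrix.linearIndependent_cols_iff_isUnit, Matrix.isUnit_iff_isUnit_det] at h3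
  exact h3.ne_zero

theorem indep_of_minor {L : Type u} [Field L] {β g : Type} [Fintype β] [DecidableEq β] [Fintype g] [DecidableEq g]
    (c : g → β → L) (s : g → β) (h : (Matrix.of fun v u : g => c v (s u)).det ≠ 0) :
    ∀ lam : g → L, (∀ b, ∑ v, lam v * c v b = 0) → lam = 0 := by
  intro lam hlam
  have h1 : Matrix.vecMul lam (Matrix.of fun v u : g => c v (s u)) = 0 := by
    funext u
    exact hlam (s u)
  exact Matrix.eq_zero_of_vecMul_eq_zero h h1

end MPadcDC
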