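import Pool.Agent.Lib.MP_adc574_ag_DC.PDat
import Pool.Agent.Lib.MP_adc574_ag_DC.PLin

/-!
# DC, Part P: the functionals of a bad weight
-/

set_option autoImplicit false

namespace MPadcDC

open MvPolynomial MPadcGP

universe u v w

variable {M : Type} [AddCommGroup M] [Fintype M] [DecidableEq M]
  {A : Type u} [CommRing A] {n : ℕ} {I : Ideal (MvPolynomial (Fin n) A)} {wt : Fin n → M} {hI : IsHomog I}
  {hw : IsWHomog wt I} {β : ℕ × M → Type} [∀ a, Fintype (β a)] [∀ a, DecidableEq (β a)] {lev : ∀ a, β a → ℕ}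
  {z : ∀ a, β a → (prC I).Ch} {h : ℕ → ℕ → ℕ}

theorem exists_fun [IsDomain A] [CharZero A] [Algebra.FiniteType ℤ A] (hD : DatW hI hw lev z h)
    (hs : IsSmoothProj I) {σ : Type} {D : σ → Derivation ℤ A A} (V : ∀ γ, Lft (prC I) (D γ))
    {G : σ → ∀ a, β a → β a → A}
    (hG : ∀ γ a b, (V γ).Gm (z a b) - ∑ b', G γ a b' b • z a b' ∈ (prC I).Bc a.1)
    {p : ℕ} [Fact p.Prime] (hp : ∀ μ : M, p • μ = μ) {L : Type u} [Field L] [CharP L p] (φ : A →+* L)
    {Λ : Type} [Fintype Λ] {bb : Λ → L} (hbb : PBas p bb) (DL : σ → Derivation ℤ L L)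
    (hDL : ∀ γ x, DL γ (φ x) = φ (D γ x)) (a : ℕ × M) (i : ℕ)
    {x : β a → L} (hx : x ∈ (hD.ad L φ).con a i) (hx0 : x ≠ 0) (hxS : ∀ b, lev a b < i + 1 → x b = 0) :
    ∃ (c : {b : β a // ¬ lev a b < i + 1} → β a → L)
      (ν : σ → Matrix {b : β a // ¬ lev a b < i + 1} {b : β a // ¬ lev a b < i + 1} L), LinearIndependent L c ∧
      (∀ γ v b, DL γ (c v b) = ∑ b', c v b' * φ (G γ a b' b) + ∑ v', ν γ v v' * c v' b) ∧
      (Matrix.of fun v u : {b : β a // ¬ lev a b < i + 1} => c v u.1).det = 0 :=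
  exists_functionals (fun b => ¬ lev a b < i + 1) DL (fun γ b' b => φ (G γ a b' b)) ((hD.ad L φ).con a i)
    (fun γ _ hx => con_stab hD (V γ) (hG γ) φ (DL γ) (hDL γ) a i hx) (finrank_con hD hs hp φ hbb a i) x hx hx0
    fun b hb => hxS b (not_not.1 hb)

end MPadcDC
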