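import Pool.Agent.Lib.MP_adc574_ag_DC.DefsL

/-!
# JOB PHom: homogeneity of the cyclic cover

* `isHomogeneous_frm`: every term `monomial g (a g)` has degree `∑ g = e` (`Finset.mem_finsuppAntidiag`).
* `isHomog_cyc`: `MPadcGP.IsHomog` = contains the homogeneous components. The set of the `f` all of whose homogeneous components lie in `cyc I F e`
  contains the generators: for `rename castSucc f`, `f ∈ I`: `homogeneousComponent d (rename f) = rename (homogeneousComponent d f)` (or use
  `IsHomog`-lemmas of GP/Mod.lean; an ideal generated by homogeneous elements: `Ideal.homogeneous_span` for `homogeneousSubmodule`-grading, or direct: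
  for `f` homogeneous of degree `d'` and `g` arbitrary, `homogeneousComponent d (g f) = homogeneousComponent (d - d') g * f`).
  Write `cyc I F e = Ideal.span (S)`, `S` = images of the homogeneous elements of `I` and `z ^ e - F` (all homogeneous).
* `isWHomog_cyc`: the same for the weights `wz n e` with values in `ZMod e`: `rename castSucc f`, `f` homogeneous of degree `d`, is weighted homogeneous
  of weight `(d : ZMod e)`; `z ^ e - F`: weight `0` (`e • 0 = 0` and `(e : ZMod e) = 0`).
  General lemma for both: an ideal spanned by weighted homogeneous elements contains the weighted homogeneous components of its elements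
  (`weightedHomogeneousComponent w μ (g f) = weightedHomogeneousComponent w (μ - μ') g * f` in a group).
-/

set_option autoImplicit false

namespace MPadcDC

open MvPolynomial MPadcGP

universe u v w

variable {A : Type u} [CommRing A] {n e : ℕ}

theorem PHom_mul {σ : Type*} {M : Type*} [AddCommMonoid M] (w : σ → M)
    {J : Ideal (MvPolynomial σ A)} {s : MvPolynomial σ A} {ν : M} (hs : s ∈ J)
    (h : IsWeightedHomogeneous w s ν) (q : MvPolynomial σ A) (μ : M) :
    weightedHomogeneousComponent w μ (q * s) ∈ J := by
  classical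
  induction q using MvPolynomial.induction_on' with
  | monomial m a =>
    have h1 : IsWeightedHomogeneous w (monomial m a * s) (Finsupp.weight w m + ν) :=
      (isWeightedHomogeneous_monomial w m a rfl).mul h
    by_cases hμ : Finsupp.weight w m + ν = μ
    · rw [← hμ, h1.weightedHomogeneousComponent_same]
      exact J.mul_mem_left _ hs
    · rw [h1.weightedHomogeneousComponent_ne μ (Ne.symm hμ)]
      exact J.zero_mem
  | add p q hp hq =>
    rw [add_mul, map_add]
    exact J.add_mem hp hq

theorem PHom_span {σ : Type*} {M : Type*} [AddCommMonoid M] (w : σ → M)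
    {J : Ideal (MvPolynomial σ A)} {T : Set (MvPolynomial σ A)}
    (hT : ∀ t ∈ T, ∀ (q : MvPolynomial σ A) (μ : M), weightedHomogeneousComponent w μ (q * t) ∈ J)
    {f : MvPolynomial σ A} (hf : f ∈ Ideal.span T) (μ : M) :
    weightedHomogeneousComponent w μ f ∈ J := by
  have key : ∀ (q : MvPolynomial σ A) (μ : M), weightedHomogeneousComponent w μ (q * f) ∈ J := by
    induction hf using Submodule.span_induction with
    | mem x hx => exact hT x hx
    | zero =>
      intro q μ
      rw [mul_zero, map_zero]
      exact J.zero_mem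
    | add x y _ _ hx hy =>
      intro q μ
      rw [mul_add, map_add]
      exact J.add_mem (hx q μ) (hy q μ)
    | smul a x _ hx =>
      intro q μ
      rw [smul_eq_mul, ← mul_assoc]
      exact hx (q * a) μ
  have h1 := key 1 μ
  rwa [one_mul] at h1

theorem PHom_cyc {M : Type*} [AddCommMonoid M] (w : Fin (n + 1) → M)
    {I : Ideal (MvPolynomial (Fin n) A)} (hI : IsHomog I) {F : MvPolynomial (Fin n) A}
    (h1 : ∀ (d : ℕ) (g : MvPolynomial (Fin n) A), g.IsHomogeneous d →
      ∃ ν : M, IsWeightedHomogeneous w (rename Fin.castSucc g) ν)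
    (h2 : ∃ ν : M, IsWeightedHomogeneous w (X (Fin.last n) ^ e - rename Fin.castSucc F) ν)
    {f : MvPolynomial (Fin (n + 1)) A} (hf : f ∈ cyc I F e) (μ : M) :
    weightedHomogeneousComponent w μ f ∈ cyc I F e := by
  obtain ⟨a, ha, b, hb, rfl⟩ := Submodule.mem_sup.1 hf
  rw [map_add]
  refine (cyc I F e).add_mem ?_ ?_
  · refine PHom_span w (T := (rename Fin.castSucc : MvPolynomial (Fin n) A →ₐ[A]
      MvPolynomial (Fin (n + 1)) A).toRingHom '' (I : Set (MvPolynomial (Fin n) A))) ?_ ha μ
    rintro t ⟨g, hg, rfl⟩ q μ
    have e1 : (rename Fin.castSucc : MvPolynomial (Fin n) A →ₐ[A]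
        MvPolynomial (Fin (n + 1)) A).toRingHom g =
        ∑ i ∈ Finset.range (g.totalDegree + 1), rename Fin.castSucc (homogeneousComponent i g) := by
      rw [← map_sum, sum_homogeneousComponent]
      rfl
    rw [e1, Finset.mul_sum, map_sum]
    refine Ideal.sum_mem _ fun i _ => ?_
    obtain ⟨ν, hν⟩ := h1 i _ (homogeneousComponent_isHomogeneous i g)
    exact PHom_mul w (le_sup_left (a := I.map (rename Fin.castSucc : MvPolynomial (Fin n) A →ₐ[A]
      MvPolynomial (Fin (n + 1)) A).toRingHom) (Ideal.mem_map_of_mem _ (hI g hg i))) hν q μ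
  · refine PHom_span w ?_ hb μ
    rintro t ht q μ
    rw [Set.mem_singleton_iff] at ht
    subst ht
    obtain ⟨ν, hν⟩ := h2
    exact PHom_mul w (Submodule.mem_sup_right (Ideal.mem_span_singleton_self _)) hν q μ

theorem isHomogeneous_frm (a : Mon n e → A) : (frm a).IsHomogeneous e := by

  unfold frm
  refine IsHomogeneous.sum _ _ _ fun g _ => ?_
  refine isHomogeneous_monomial _ ?_
  have h1 := (Finset.mem_finsuppAntidiag.1 g.2).1
  rw [Finsupp.degree_eq_sum]
  exact h1

theorem isHomog_cyc {I : Ideal (MvPolynomial (Fin n) A)} (hI : IsHomog I) {F : MvPolynomial (Fin n) A}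
    (hF : F.IsHomogeneous e) : IsHomog (cyc I F e) := by

  intro f hf d
  have h2 : (X (Fin.last n) ^ e - rename Fin.castSucc F :
      MvPolynomial (Fin (n + 1)) A).IsHomogeneous e :=
    (isHomogeneous_X_pow (Fin.last n) e).sub hF.rename_isHomogeneous
  exact PHom_cyc (M := ℕ) 1 hI (fun d g hg => ⟨d, hg.rename_isHomogeneous⟩) ⟨e, h2⟩ hf d

theorem isHomog_cycG {I : Ideal (MvPolynomial (Fin n) A)} (hI : IsHomog I) : IsHomog (cycG I e) :=
  isHomog_cyc (hI.map _) (isHomogeneous_frm _)

/-- The form of degree `e` with given coefficients. -/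
theorem frm_coeff {F : MvPolynomial (Fin n) A} (hF : F.IsHomogeneous e) : frm (fun g : Mon n e => F.coeff g.1) = F := by

  classical
  ext m
  unfold frm
  rw [coeff_sum]
  simp only [coeff_monomial]
  by_cases hm : m ∈ (Finset.univ : Finset (Fin n)).finsuppAntidiag e
  · rw [Finset.sum_eq_single (⟨m, hm⟩ : Mon n e)]
    · rw [if_pos rfl]
    · intro g _ hg
      rw [if_neg]
      intro h
      exact hg (Subtype.ext h)
    · intro h
      exact absurd (Finset.mem_univ _) h
  · rw [Finset.sum_eq_zero]
    · by_contra h0
      apply hm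
      rw [Finset.mem_finsuppAntidiag]
      refine ⟨?_, Finset.subset_univ _⟩
      have h1 := hF (Ne.symm h0)
      rw [← Finsupp.degree_eq_sum, Finsupp.degree_eq_weight_one]
      exact h1
    · intro g _
      rw [if_neg]
      rintro rfl
      exact hm g.2

end MPadcDC
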