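import Pool.Agent.Lib.MP_adc574_ag_DC.PHom
import Pool.Agent.Lib.MP_adc574_ag_GP.WHom

/-!
# JOB PMoA: models over finitely generated rings, equality

`exists_eq_model`: two ideals over `A ≤ k` f.g. with the same extension to `k` become equal over a f.g. `A' ≥ A` (compare `exists_wHomog`, GP/Main*.lean: every generator of one is a combination of the generators
of the other with coefficients in `k`; add these coefficients to `A`. `MvPolynomial (Fin n) A` is noetherian: finitely many generators).
`exists_modelY`: `I` is generated by finitely many homogeneous polynomials (the homogeneous components of a finite set of generators); add their coefficients to `A`, `IA` := span of the same polynomials.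
`span_isHomog`: an ideal generated by homogeneous polynomials is `IsHomog` (compare PHom; grep GP/Mod.lean).
-/

set_option autoImplicit false

namespace MPadcDC

open MvPolynomial MPadcGP

universe u v w

/-- One inclusion descends. -/
theorem pmoA_le {k : Type u} [Field k] (A : Subalgebra ℤ k) (hA : A.FG) {n : ℕ}
    (I I' : Ideal (MvPolynomial (Fin n) A)) (h : bI (algebraMap A k) I ≤ bI (algebraMap A k) I') :
    ∃ T : Finset k, ∀ (A' : Subalgebra ℤ k) (hle : A ≤ A'), (T : Set k) ⊆ A' →
      bI (Subalgebra.inclusion hle).toRingHom I ≤ bI (Subalgebra.inclusion hle).toRingHom I' := by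
  classical
  have hft : Algebra.FiniteType ℤ A := (Subalgebra.fg_iff_finiteType A).1 hA
  have hn : IsNoetherianRing A := Algebra.FiniteType.isNoetherianRing ℤ A
  obtain ⟨F, hF⟩ := (isNoetherianRing_iff_ideal_fg (MvPolynomial (Fin n) A)).1 inferInstance I
  have hFI : ∀ f : F, (f : MvPolynomial (Fin n) A) ∈ I := fun f => by
    rw [← hF]
    exact Submodule.subset_span f.2
  choose t ht using fun f : F => exists_descent_ideal A I' _ (h (Ideal.mem_map_of_mem _ (hFI f)))
  refine ⟨Finset.univ.biUnion t, fun A' hle hT => ?_⟩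
  have hinj : Function.Injective (MvPolynomial.map (σ := Fin n) (algebraMap A' k)) :=
    MvPolynomial.map_injective _ Subtype.val_injective
  unfold bI
  rw [← hF, Ideal.map_span, Ideal.span_le]
  rintro _ ⟨f, hf, rfl⟩
  obtain ⟨y', hy', hyy⟩ := ht ⟨f, hf⟩ A' hle fun x hx => hT (Finset.mem_coe.2
    (Finset.mem_biUnion.2 ⟨⟨f, hf⟩, Finset.mem_univ _, Finset.mem_coe.1 hx⟩))
  have h3 : MvPolynomial.map (Subalgebra.inclusion hle).toRingHom f = y' := by
    apply hinj
    rw [hyy, MvPolynomial.map_map]
    rfl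
  rw [h3]
  exact hy'

theorem exists_eq_model {k : Type u} [Field k] (A : Subalgebra ℤ k) (hA : A.FG) {n : ℕ}
    (I I' : Ideal (MvPolynomial (Fin n) A)) (h : bI (algebraMap A k) I = bI (algebraMap A k) I') :
    ∃ (A' : Subalgebra ℤ k) (hle : A ≤ A'), A'.FG ∧
      bI (Subalgebra.inclusion hle).toRingHom I = bI (Subalgebra.inclusion hle).toRingHom I' := by
  classical
  obtain ⟨T, hT⟩ := pmoA_le A hA I I' h.le
  obtain ⟨T', hT'⟩ := pmoA_le A hA I' I h.ge
  let A' : Subalgebra ℤ k := A ⊔ Algebra.adjoin ℤ ((T ∪ T' : Finset k) : Set k)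
  have hle : A ≤ A' := le_sup_left
  have hTT : ((T ∪ T' : Finset k) : Set k) ⊆ A' := fun x hx =>
    (le_sup_right : Algebra.adjoin ℤ ((T ∪ T' : Finset k) : Set k) ≤ A') (Algebra.subset_adjoin hx)
  rw [Finset.coe_union, Set.union_subset_iff] at hTT
  exact ⟨A', hle, hA.sup ⟨T ∪ T', rfl⟩, le_antisymm (hT A' hle hTT.1) (hT' A' hle hTT.2)⟩

theorem exists_modelY {k : Type u} [Field k] {n : ℕ} {I : Ideal (MvPolynomial (Fin n) k)} (hI : IsHomog I)
    (A : Subalgebra ℤ k) (hA : A.FG) :
    ∃ (A' : Subalgebra ℤ k) (_ : A ≤ A') (_ : A'.FG) (IA : Ideal (MvPolynomial (Fin n) A')), IsHomog IA ∧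
      bI (algebraMap A' k) IA = I := by
  classical
  obtain ⟨F, hF⟩ := (isNoetherianRing_iff_ideal_fg (MvPolynomial (Fin n) k)).1 inferInstance I
  let T : Finset k := F.biUnion fun f => f.coeffs
  let A' : Subalgebra ℤ k := A ⊔ Algebra.adjoin ℤ (T : Set k)
  have hle : A ≤ A' := le_sup_left
  have hT : (T : Set k) ⊆ A' := fun x hx =>
    (le_sup_right : Algebra.adjoin ℤ (T : Set k) ≤ A') (Algebra.subset_adjoin hx)
  refine ⟨A', hle, hA.sup ⟨T, rfl⟩, I.comap (MvPolynomial.map (algebraMap A' k)), fun f hf d => ?_, ?_⟩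
  · rw [Ideal.mem_comap, ← homogeneousComponent_map]
    exact hI _ hf d
  · refine le_antisymm Ideal.map_comap_le ?_
    conv_lhs => rw [← hF]
    rw [Ideal.span_le]
    intro f hf
    have h1 : f ∈ Set.range (MvPolynomial.map (algebraMap A' k)) := by
      rw [mem_range_map_iff_coeffs_subset]
      intro x hx
      exact ⟨⟨x, hT (Finset.mem_coe.2 (Finset.mem_biUnion.2 ⟨f, hf, hx⟩))⟩, rfl⟩
    obtain ⟨f', rfl⟩ := h1
    refine Ideal.mem_map_of_mem _ ?_
    rw [Ideal.mem_comap, ← hF]
    exact Ideal.subset_span hf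

end MPadcDC
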