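import Pool.Agent.Lib.MP_adc574_ag_DC.PMoA

/-!
# JOB PMod: models over finitely generated rings

`exists_modelY` for `J` over `κ` (`A = ⊥`) gives `R₀`, `I₀`.
`A'` generated by `A`, the image of `R₀` and the `a g`; enlarge it twice by `exists_eq_model` (monotonicity: an equality over `A'` persists over `A'' ≥ A'` by `bI_bI`).
`ι : R₀ → A'`, `r ↦ ⟨(r : κ) : k, _⟩`; `a' g = ⟨a g, _⟩`. Injectivity of `eval₂Hom ι a'`: compose with `A' → k`: it is `R₀[X] → κ[X] → k`, `aeval a` is injective by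
`AlgebraicIndependent`, `MvPolynomial.map` is injective.
-/

set_option autoImplicit false

namespace MPadcDC

open MvPolynomial MPadcGP

universe u v w

theorem exists_model {k : Type u} [Field k] [CharZero k] (κ : Subfield k) {n e : ℕ} {J : Ideal (MvPolynomial (Fin n) κ)}
    (hJ : IsHomog J) (a : Mon n e → k) (ha : AlgebraicIndependent κ a) (A : Subalgebra ℤ k) (hA : A.FG)
    (IY : Ideal (MvPolynomial (Fin n) A)) (hYk : bI (algebraMap A k) IY = bI (algebraMap κ k) J)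
    (IX : Ideal (MvPolynomial (Fin (n + 1)) A))
    (hXk : bI (algebraMap A k) IX = cyc (bI (algebraMap κ k) J) (frm a) e) :
    ∃ (A' : Subalgebra ℤ k) (hle : A ≤ A') (_ : A'.FG) (R₀ : Subalgebra ℤ κ) (_ : R₀.FG)
      (I₀ : Ideal (MvPolynomial (Fin n) R₀)) (_ : IsHomog I₀) (ι : R₀ →+* A') (a' : Mon n e → A'),
      (∀ r : R₀, (ι r : k) = ((r : κ) : k)) ∧ bI (algebraMap R₀ κ) I₀ = J ∧ (∀ g, (a' g : k) = a g) ∧
      Function.Injective (eval₂Hom ι a') ∧
      bI (Subalgebra.inclusion hle).toRingHom IY = bI ι I₀ ∧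
      bI (Subalgebra.inclusion hle).toRingHom IX = cyc (bI ι I₀) (frm a') e := by
  classical
  -- the model of `J`
  obtain ⟨R₀, -, hR₀, I₀, hI₀, hI₀J⟩ := exists_modelY hJ (⊥ : Subalgebra ℤ κ) (Subalgebra.fg_bot)
  obtain ⟨S, hS⟩ := id hR₀
  -- the first ring
  let T : Finset k := (S.image fun r : κ => (r : k)) ∪ (Finset.univ.image a)
  let A₁ : Subalgebra ℤ k := A ⊔ Algebra.adjoin ℤ (T : Set k)
  have hle₁ : A ≤ A₁ := le_sup_left
  have hA₁ : A₁.FG := hA.sup ⟨T, rfl⟩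
  have hT : (T : Set k) ⊆ A₁ := fun x hx =>
    (le_sup_right : Algebra.adjoin ℤ (T : Set k) ≤ A₁) (Algebra.subset_adjoin hx)
  have hRA : ∀ r : κ, r ∈ R₀ → (r : k) ∈ A₁ := by
    intro r hr
    rw [← hS] at hr
    induction hr using Algebra.adjoin_induction with
    | mem x hx => exact hT (Finset.mem_coe.2 (Finset.mem_union_left _ (Finset.mem_image_of_mem _ hx)))
    | algebraMap x =>
      have h1 : ((algebraMap ℤ κ x : κ) : k) = algebraMap ℤ k x := by
        rw [eq_intCast, eq_intCast]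
        rfl
      rw [h1]
      exact A₁.algebraMap_mem x
    | add x y _ _ hx hy => exact A₁.add_mem hx hy
    | mul x y _ _ hx hy => exact A₁.mul_mem hx hy
  have haA : ∀ g, a g ∈ A₁ := fun g =>
    hT (Finset.mem_coe.2 (Finset.mem_union_right _ (Finset.mem_image_of_mem _ (Finset.mem_univ g))))
  obtain ⟨ι₁, hι₁⟩ : ∃ ι₁ : R₀ →+* A₁, ∀ r : R₀, (ι₁ r : k) = ((r : κ) : k) :=
    ⟨{ toFun := fun r => ⟨((r : κ) : k), hRA r r.2⟩
       map_one' := rfl
       map_mul' := fun _ _ => rfl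
       map_zero' := rfl
       map_add' := fun _ _ => rfl }, fun _ => rfl⟩
  obtain ⟨a₁, ha₁⟩ : ∃ a₁ : Mon n e → A₁, ∀ g, (a₁ g : k) = a g := ⟨fun g => ⟨a g, haA g⟩, fun _ => rfl⟩
  have hcomp : ∀ (B : Subalgebra ℤ k) (h : A₁ ≤ B),
      (algebraMap B k).comp ((Subalgebra.inclusion h).toRingHom.comp ι₁) =
        (algebraMap κ k).comp (algebraMap R₀ κ) := fun B h => RingHom.ext fun r => hι₁ r
  have hYJ : bI (algebraMap A₁ k) (bI ι₁ I₀) = bI (algebraMap κ k) J := by
    rw [bI_bI, ← hI₀J, bI_bI]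
    congr 1
    exact RingHom.ext fun r => hι₁ r
  have hXJ : bI (algebraMap A₁ k) (cyc (bI ι₁ I₀) (frm a₁) e) = cyc (bI (algebraMap κ k) J) (frm a) e := by
    rw [bI_cyc, hYJ, bI_frm]
    congr 2
    funext g
    exact ha₁ g
  -- the equality of the models
  have hincl : (algebraMap A₁ k).comp (Subalgebra.inclusion hle₁).toRingHom = algebraMap A k := rfl
  obtain ⟨A₂, hle₂, hA₂, heq₂⟩ := exists_eq_model A₁ hA₁ (bI (Subalgebra.inclusion hle₁).toRingHom IY) (bI ι₁ I₀)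
    (by rw [bI_bI, hincl, hYk, hYJ])
  obtain ⟨A₃, hle₃, hA₃, heq₃⟩ := exists_eq_model A₂ hA₂
    (bI (Subalgebra.inclusion hle₂).toRingHom (bI (Subalgebra.inclusion hle₁).toRingHom IX))
    (bI (Subalgebra.inclusion hle₂).toRingHom (cyc (bI ι₁ I₀) (frm a₁) e)) (by
      have h1 : (algebraMap A₂ k).comp (Subalgebra.inclusion hle₂).toRingHom = algebraMap A₁ k := rfl
      rw [bI_bI, bI_bI, bI_bI, h1, hXJ, hincl, hXk])
  have hle : A ≤ A₃ := (hle₁.trans hle₂).trans hle₃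
  have hle₁₃ : A₁ ≤ A₃ := hle₂.trans hle₃
  have hi1 : (Subalgebra.inclusion hle₃).toRingHom.comp ((Subalgebra.inclusion hle₂).toRingHom.comp
      (Subalgebra.inclusion hle₁).toRingHom) = (Subalgebra.inclusion hle).toRingHom := rfl
  have hi2 : (Subalgebra.inclusion hle₃).toRingHom.comp (Subalgebra.inclusion hle₂).toRingHom =
      (Subalgebra.inclusion hle₁₃).toRingHom := rfl
  refine ⟨A₃, hle, hA₃, R₀, hR₀, I₀, hI₀, (Subalgebra.inclusion hle₁₃).toRingHom.comp ι₁,
    fun g => Subalgebra.inclusion hle₁₃ (a₁ g), fun r => hι₁ r, hI₀J, fun g => ha₁ g, ?_, ?_, ?_⟩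
  · have h1 : ∀ P : MvPolynomial (Mon n e) R₀, ((eval₂Hom ((Subalgebra.inclusion hle₁₃).toRingHom.comp ι₁)
        (fun g => Subalgebra.inclusion hle₁₃ (a₁ g)) P : A₃) : k) =
          aeval a (MvPolynomial.map (algebraMap R₀ κ) P) := by
      intro P
      have h2 : ((algebraMap A₃ k).comp (eval₂Hom ((Subalgebra.inclusion hle₁₃).toRingHom.comp ι₁)
          (fun g => Subalgebra.inclusion hle₁₃ (a₁ g)))) =
            ((aeval a : MvPolynomial (Mon n e) κ →ₐ[κ] k).toRingHom).comp (MvPolynomial.map (algebraMap R₀ κ)) := by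
        refine MvPolynomial.ringHom_ext (fun r => ?_) fun g => ?_
        · change ((eval₂Hom ((Subalgebra.inclusion hle₁₃).toRingHom.comp ι₁)
            (fun g => Subalgebra.inclusion hle₁₃ (a₁ g)) (C r) : A₃) : k) = aeval a (MvPolynomial.map _ (C r))
          rw [coe_eval₂Hom, eval₂_C, map_C, aeval_C]
          exact hι₁ r
        · change ((eval₂Hom ((Subalgebra.inclusion hle₁₃).toRingHom.comp ι₁)
            (fun g => Subalgebra.inclusion hle₁₃ (a₁ g)) (X g) : A₃) : k) = aeval a (MvPolynomial.map _ (X g))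
          rw [coe_eval₂Hom, eval₂_X, map_X, aeval_X]
          exact ha₁ g
      exact RingHom.congr_fun h2 P
    intro P Q hPQ
    have h3 := congrArg (fun x : A₃ => (x : k)) hPQ
    simp only [h1] at h3
    exact MvPolynomial.map_injective _ Subtype.val_injective (ha h3)
  · rw [← hi1, ← hi2, ← bI_bI, ← bI_bI, heq₂, bI_bI, bI_bI]
  · rw [← hi1, ← bI_bI, ← bI_bI, heq₃, bI_bI, hi2, bI_cyc, bI_bI, bI_frm]
    rfl

end MPadcDC
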