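import Pool.Agent.Lib.MP_adc574_ag_DC.Defs

/-!
# JOB PMp: algebraically independent elements stay algebraically independent modulo large primes

`exists_etaleX`: `exists_etale` of GP/R3Res.lean for a GIVEN transcendence basis `x : X → A` over `ℤ` (same proof: there `X ⊆ A` is the basis of
`exists_isTranscendenceBasis ℤ A`; replace the coercion by `x`).
`exists_mod_p`: for large `p` and `𝔓 ∈ Min(pA)`: `aeval x P ∈ 𝔓` implies `p ∣ P` (as `hcomap` in `exists_resB`, GP/R3Res.lean: `comap_of_minimal` with `f ∉ 𝔓`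
by `exists_bound`).
-/

set_option autoImplicit false

namespace MPadcDC

open MvPolynomial MPadcGP

universe u v w

theorem exists_mod_p {A : Type u} [CommRing A] [IsDomain A] [CharZero A] [Algebra.FiniteType ℤ A] {X : Type u}
    [Finite X] (x : X → A) (hx : IsTranscendenceBasis ℤ x) :
    ∃ p₀ : ℕ, ∀ p : ℕ, p.Prime → p₀ < p → ∀ 𝔓 ∈ (Ideal.span {(p : A)}).minimalPrimes,
      ∀ P : MvPolynomial X ℤ, aeval x P ∈ 𝔓 → (C (p : ℤ) : MvPolynomial X ℤ) ∣ P := by
  classical
  have hnoeth : IsNoetherianRing A := Algebra.FiniteType.isNoetherianRing ℤ A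
  let R := MvPolynomial X ℤ
  let θ : R →ₐ[ℤ] A := MvPolynomial.aeval x
  have hθ : Function.Injective θ.toRingHom := hx.1
  let al : Algebra R A := θ.toRingHom.toAlgebra
  have hmap : (algebraMap R A) = θ.toRingHom := rfl
  have hfaithR : FaithfulSMul R A := (faithfulSMul_iff_algebraMap_injective R A).2 hθ
  have htower : IsScalarTower ℤ R A := IsScalarTower.of_algebraMap_eq' (Subsingleton.elim _ _)
  have hftR : Algebra.FiniteType R A := Algebra.FiniteType.of_restrictScalars_finiteType ℤ R A
  have halg : Algebra.IsAlgebraic R A := by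
    have h1 := hx.isAlgebraic
    have hran : Algebra.adjoin ℤ (Set.range x) = θ.range :=
      Algebra.adjoin_range_eq_range_aeval ℤ x
    constructor
    intro a
    obtain ⟨P, hP, hPa⟩ := h1.isAlgebraic a
    let f : R →+* Algebra.adjoin ℤ (Set.range x) :=
      RingHom.codRestrict θ.toRingHom (Algebra.adjoin ℤ (Set.range x)) (fun y => by
        rw [hran]
        exact ⟨y, rfl⟩)
    have hsur : Function.Surjective f := by
      intro y
      have h2 : (y : A) ∈ θ.range := by
        rw [← hran]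
        exact y.2
      obtain ⟨z, hz⟩ := h2
      exact ⟨z, Subtype.ext hz⟩
    obtain ⟨P', rfl⟩ := Polynomial.map_surjective f hsur P
    refine ⟨P', fun h => hP (by rw [h, Polynomial.map_zero]), ?_⟩
    rw [← hPa, Polynomial.aeval_def, Polynomial.aeval_def, Polynomial.eval₂_map]
    rfl
  have hpres : Algebra.FinitePresentation R A := Algebra.FinitePresentation.of_finiteType.1 hftR
  have het : Algebra.IsEtaleAt R (⊥ : Ideal A) := isEtaleAt_bot
  obtain ⟨f, hf, hfe⟩ := Algebra.exists_etale_of_isEtaleAt (R := R) (⊥ : Ideal A)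
  have hf0 : f ≠ 0 := fun h => hf (by rw [h]; exact Ideal.zero_mem _)
  obtain ⟨N, hN⟩ := exists_bound A f hf0
  refine ⟨N, fun p hp hB 𝔓 h𝔓 P hP => ?_⟩
  have hfP : f ∉ 𝔓 := hN p hp hB 𝔓 h𝔓
  have h2 : ((p : ℕ) : R) = MvPolynomial.C ((p : ℕ) : ℤ) := by simp [R]
  have hprime : (Ideal.span {((p : ℕ) : R)}).IsPrime := by
    have h1 : Prime ((MvPolynomial.C ((p : ℕ) : ℤ)) : MvPolynomial X ℤ) :=
      (MvPolynomial.prime_C_iff X).2 (Nat.prime_iff_prime_int.1 hp)
    rw [h2]
    exact (Ideal.span_singleton_prime h1.ne_zero).2 h1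
  have hmap' : (Ideal.span {((p : ℕ) : R)}).map (algebraMap R A) = Ideal.span {(p : A)} := by
    rw [Ideal.map_span, Set.image_singleton, map_natCast]
  have hcomap : 𝔓.comap (algebraMap R A) = Ideal.span {((p : ℕ) : R)} := by
    have hflat : Module.Flat R (Localization.Away f) := inferInstance
    exact comap_of_minimal f (Ideal.span {((p : ℕ) : R)}) 𝔓 (by rw [hmap']; exact h𝔓) hfP
  have h3 : P ∈ 𝔓.comap (algebraMap R A) := hP
  rw [hcomap, Ideal.mem_span_singleton, h2] at h3
  exact h3

end MPadcDC
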