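import Pool.Agent.Lib.MP_adc574_ag_DC.PLin
import Pool.Agent.Lib.MP_adc574_ag_GM.Ultra

/-!
# JOB PUlf: the ultraproduct of the functionals (linear algebra)

Let `S = {b : β // lev ≥ i + 1}` (finite), `c t : S → β → L t` linearly independent, `j : K → Ult L`.
`cU v b := ultMk (fun t => c t v b)`.
* `exists_minor_ult`: for every `t` a minor `s_t : S → β` with nonzero determinant (`exists_minor_ne`); `S → β` is finite, so one `s` serves for almost all `t`
  (`Ultrafilter`: `Ultrafilter.eventually_exists_iff`-type lemma or: `(U.map s_·)` is principal on a finite type: `Ultrafilter.eq_pure_of_finite`).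
  `det (cU v (s u)) = ultMk (fun t => det (c t v (s u)))` (`RingHom.map_det` for `ultMk U L` and for `Pi.evalRingHom`).
* `det_ult`: the same computation of the determinant.
-/

set_option autoImplicit false

namespace MPadcDC

open MvPolynomial MPadcGM

universe u v w

theorem det_ult {ι : Type} (U : Ultrafilter ι) (L : ι → Type u) [∀ t, Field (L t)] {g : Type} [Fintype g]
    [DecidableEq g] (c : ∀ t, Matrix g g (L t)) :
    (Matrix.of fun v u => ultMk U L fun t => c t v u).det = ultMk U L fun t => (c t).det := by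
  have h1 : (Matrix.of fun v u => ultMk U L fun t => c t v u) =
      (ultMk U L).mapMatrix (Matrix.of fun v u => fun t => c t v u) := rfl
  rw [h1, ← RingHom.map_det]
  congr 1
  funext t
  have h2 : c t = (Pi.evalRingHom L t).mapMatrix (Matrix.of fun v u => fun t => c t v u) := rfl
  rw [h2, ← RingHom.map_det]
  rfl

theorem exists_minor_ult {ι : Type} (U : Ultrafilter ι) (L : ι → Type u) [∀ t, Field (L t)] {β g : Type} [Fintype β]
    [DecidableEq β] [Fintype g] [DecidableEq g] (c : ∀ t, g → β → L t) (hc : ∀ t, LinearIndependent (L t) (c t)) :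
    ∃ s : g → β, (Matrix.of fun v u : g => ultMk U L fun t => c t v (s u)).det ≠ 0 := by
  choose s hs using fun t => exists_minor_ne (c t) (hc t)
  obtain ⟨s₀, hs₀⟩ : ∃ s₀ : g → β, ∀ᶠ t in (U : Filter ι), s t = s₀ := by
    by_contra hne
    have h1 : ∀ s₀ : g → β, ∀ᶠ t in (U : Filter ι), s t ≠ s₀ := fun s₀ =>
      Ultrafilter.eventually_not.2 fun h => hne ⟨s₀, h⟩
    have h2 : ∀ᶠ t in (U : Filter ι), ∀ s₀ : g → β, s t ≠ s₀ := Filter.eventually_all.2 h1
    obtain ⟨t, ht⟩ := h2.exists
    exact ht (s t) rfl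
  refine ⟨s₀, ?_⟩
  have h1 := det_ult U L fun t => (Matrix.of fun v u : g => c t v (s₀ u))
  have h2 : (Matrix.of fun v u : g => ultMk U L fun t => c t v (s₀ u)) =
      (Matrix.of fun v u => ultMk U L fun t => (Matrix.of fun v u : g => c t v (s₀ u)) v u) := rfl
  rw [h2, h1]
  intro h3
  rw [ultMk_eq_zero] at h3
  obtain ⟨t, ht1, ht2⟩ := (hs₀.and h3).exists
  apply hs t
  rw [ht1]
  exact ht2

end MPadcDC
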