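import Pool.Agent.Lib.MP_adc574_ag_DC.PUlt
import Pool.Agent.Lib.MP_adc574_ag_DC.PDer
import Pool.Agent.Lib.MP_adc574_ag_GM.UPer

/-!
# JOB PUls: the ultraproduct of the fields `L t = κ_t(a)` and the field `K = κ₀(a)`, `κ₀ = Ult κ_t`

`κ₀ := Ult U κ` (algebraically closed: `ult_isAlgClosed'`; `CharZero`: if `(N : κ₀) = 0`, `N ≠ 0`, then `(N : κ t) = 0` for almost all `t`, so `p t ∣ N`, `p t ≤ N`),
`ψ₀ := MPadcGM.uphi U κ ψ` (GM/UPer.lean; `uphi_apply`; injective by `hψ`, `ultMk_eq_zero`), `K := FractionRing (Ra κ₀ n e)`, `j` from `exists_ultMv`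
(`σ = Mon n e`), `DU γ` from `MPadcGM.exists_ultD`, `DK` from `exists_derMv`, `φK` from `exists_phi ψ₀ g` (`map ψ₀ g ≠ 0` since `ψ₀` is injective: `MvPolynomial.map_injective`).
* `DU γ (j x) = j (DK γ x)`: `der_loc_ext` (`R = Ra κ₀ n e`, `S = K`, `f = j`) and then `der_mv_ext`: on `C (ultMk x)`: both sides `0` (`pderiv_C`, `map_zero`; `DL t γ (algebraMap (C (x t)))`
  `= algebraMap (pderiv γ (C (x t))) = 0`); on `X s`: `pderiv_X` (`Pi.single`), both sides `0` or `1`.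
* `j (φK x) = ultMk (fun t => φ t x)`: `IsLocalization.ringHom_ext (Submonoid.powers g)` and `MvPolynomial.ringHom_ext` for the two ring homomorphisms
  `j.comp φK` and `(ultMk U L).comp (RingHom.pi φ)`.
-/

set_option autoImplicit false

namespace MPadcDC

open MvPolynomial MPadcGM

universe u v w

theorem puls_der {n e : ℕ} (U : Ultrafilter ℕ) (κ : ℕ → Type u) [∀ t, Field (κ t)] (L : ℕ → Type u)
    [∀ t, Field (L t)] [∀ t, Algebra (Ra (κ t) n e) (L t)] (DL : ∀ t, Mon n e → Derivation ℤ (L t) (L t))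
    (hDL : ∀ t γ P, DL t γ (algebraMap (Ra (κ t) n e) (L t) P) = algebraMap (Ra (κ t) n e) (L t) (pderiv γ P))
    (K : Type u) [Field K] [Algebra (Ra (Ult U κ) n e) K] [IsFractionRing (Ra (Ult U κ) n e) K]
    (DK : Mon n e → Derivation ℤ K K)
    (hDK : ∀ γ P, DK γ (algebraMap (Ra (Ult U κ) n e) K P) = algebraMap (Ra (Ult U κ) n e) K (pderiv γ P))
    (j : K →+* Ult U L)
    (hjC : ∀ x : ∀ i, κ i, j (algebraMap (Ra (Ult U κ) n e) K (C (ultMk U κ x))) =
        ultMk U L fun i => algebraMap (Ra (κ i) n e) (L i) (C (x i)))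
    (hjX : ∀ s, j (algebraMap (Ra (Ult U κ) n e) K (X s)) =
        ultMk U L fun i => algebraMap (Ra (κ i) n e) (L i) (X s))
    (DU : Mon n e → Derivation ℤ (Ult U L) (Ult U L))
    (hDU : ∀ γ (x : ∀ t, L t), DU γ (ultMk U L x) = ultMk U L fun t => DL t γ (x t)) (γ : Mon n e) (x : K) :
    DU γ (j x) = j (DK γ x) := by
  refine der_loc_ext (nonZeroDivisors (Ra (Ult U κ) n e)) j (fun x => DU γ (j x)) (fun x => j (DK γ x))
    (fun x y => by rw [map_add, map_add]) (fun x y => by rw [map_add, map_add])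
    (fun x y => by rw [map_mul, Derivation.leibniz, smul_eq_mul, smul_eq_mul])
    (fun x y => by rw [Derivation.leibniz, smul_eq_mul, smul_eq_mul, map_add, map_mul, map_mul]) ?_ x
  intro r
  have hl : ∀ P Q : Ra (Ult U κ) n e, pderiv γ (P * Q) = P * pderiv γ Q + Q * pderiv γ P := fun P Q => by
    rw [Derivation.leibniz, smul_eq_mul, smul_eq_mul]
  refine der_mv_ext (j.comp (algebraMap (Ra (Ult U κ) n e) K))
    (fun P => DU γ (j (algebraMap _ _ P))) (fun P => j (DK γ (algebraMap _ _ P)))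
    (fun x y => by rw [map_add, map_add, map_add]) (fun x y => by rw [map_add, map_add, map_add])
    (fun x y => by
      rw [map_mul, map_mul, Derivation.leibniz, smul_eq_mul, smul_eq_mul]
      rfl)
    (fun x y => by
      rw [map_mul, Derivation.leibniz, smul_eq_mul, smul_eq_mul, map_add, map_mul, map_mul]
      rfl) ?_ ?_ r
  · intro c
    obtain ⟨c, rfl⟩ := ultMk_surjective U κ c
    change DU γ (j (algebraMap _ _ (C (ultMk U κ c)))) = j (DK γ (algebraMap _ _ (C (ultMk U κ c))))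
    rw [hjC, hDU, hDK, pderiv_C, map_zero, map_zero]
    rw [ultMk_eq_zero]
    refine Filter.Eventually.of_forall fun t => ?_
    change DL t γ (algebraMap _ _ (C (c t))) = 0
    rw [hDL, pderiv_C, map_zero]
  · intro s
    change DU γ (j (algebraMap _ _ (X s))) = j (DK γ (algebraMap _ _ (X s)))
    rw [hjX, hDU, hDK]
    by_cases hs : s = γ
    · rw [hs, pderiv_X_self, map_one, map_one, ← map_one (ultMk U L)]
      congr 1
      funext t
      rw [hDL, pderiv_X_self, map_one]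
      rfl
    · rw [pderiv_X_of_ne hs, map_zero, map_zero, ultMk_eq_zero]
      refine Filter.Eventually.of_forall fun t => ?_
      change DL t γ (algebraMap _ _ (X s)) = 0
      rw [hDL, pderiv_X_of_ne hs, map_zero]

theorem exists_ult_setup {R₀ : Type u} [CommRing R₀] [IsDomain R₀] {n e : ℕ} (U : Ultrafilter ℕ)
    (κ : ℕ → Type u) [∀ t, Field (κ t)] (hac : ∀ t, IsAlgClosed (κ t)) (p : ℕ → ℕ) (hcp : ∀ t, CharP (κ t) (p t))
    (hpr : ∀ t, (p t).Prime) (hp : ∀ N : ℕ, ∀ᶠ t in (U : Filter ℕ), N < p t) (ψ : ∀ t, R₀ →+* κ t)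
    (hψ : ∀ r : R₀, r ≠ 0 → ∀ᶠ t in (U : Filter ℕ), ψ t r ≠ 0) (g : Ra R₀ n e) (hg : g ≠ 0)
    (B : Type u) [CommRing B] [Algebra (Ra R₀ n e) B] [IsLocalization.Away g B]
    (L : ℕ → Type u) [∀ t, Field (L t)] [∀ t, Algebra (Ra (κ t) n e) (L t)]
    [∀ t, IsFractionRing (Ra (κ t) n e) (L t)] (φ : ∀ t, B →+* L t)
    (hφ : ∀ t x, φ t (algebraMap (Ra R₀ n e) B x) =
      algebraMap (Ra (κ t) n e) (L t) (MvPolynomial.map (ψ t) x))
    (DL : ∀ t, Mon n e → Derivation ℤ (L t) (L t))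
    (hDL : ∀ t γ P, DL t γ (algebraMap (Ra (κ t) n e) (L t) P) = algebraMap (Ra (κ t) n e) (L t) (pderiv γ P))
    (D : Mon n e → Derivation ℤ B B)
    (hD : ∀ γ x, D γ (algebraMap (Ra R₀ n e) B x) =
      algebraMap (Ra R₀ n e) B (dR R₀ γ x)) :
    ∃ (κ₀ : Type u) (_ : Field κ₀) (_ : IsAlgClosed κ₀) (_ : CharZero κ₀) (ψ₀ : R₀ →+* κ₀)
      (_ : Function.Injective ψ₀) (K : Type u) (_ : Field K) (_ : Algebra (Ra κ₀ n e) K)
      (_ : IsFractionRing (Ra κ₀ n e) K) (DK : Mon n e → Derivation ℤ K K)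
      (_ : ∀ γ P, DK γ (algebraMap (Ra κ₀ n e) K P) = algebraMap (Ra κ₀ n e) K (pderiv γ P))
      (j : K →+* Ult U L) (_ : ∀ (y : Ult U L) (P : Polynomial K), P ≠ 0 → P.eval₂ j y = 0 → y ∈ j.range)
      (DU : Mon n e → Derivation ℤ (Ult U L) (Ult U L)) (_ : ∀ γ x, DU γ (j x) = j (DK γ x))
      (_ : ∀ γ (x : ∀ t, L t), DU γ (ultMk U L x) = ultMk U L fun t => DL t γ (x t))
      (φK : B →+* K)
      (_ : ∀ x, φK (algebraMap (Ra R₀ n e) B x) =
        algebraMap (Ra κ₀ n e) K (MvPolynomial.map ψ₀ x))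
      (_ : ∀ γ x, DK γ (φK x) = φK (D γ x)), ∀ x, j (φK x) = ultMk U L fun t => φ t x := by
  classical
  have hac0 : IsAlgClosed (Ult U κ) := ult_isAlgClosed' U κ hac
  have hcz : CharZero (Ult U κ) := by
    refine charZero_of_inj_zero fun N hN => ?_
    rw [← map_natCast (ultMk U κ), ultMk_eq_zero] at hN
    obtain ⟨t, ht1, ht2⟩ := (hN.and (hp N)).exists
    have hc := hcp t
    have h1 : (N : κ t) = 0 := ht1
    have h2 : p t ∣ N := (CharP.cast_eq_zero_iff (κ t) (p t) N).1 h1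
    by_contra h0
    exact absurd (Nat.le_of_dvd (Nat.pos_of_ne_zero h0) h2) (not_le.2 ht2)
  obtain ⟨ψ₀, hψ₀⟩ : ∃ ψ₀ : R₀ →+* Ult U κ, ∀ r, ψ₀ r = ultMk U κ fun t => ψ t r :=
    ⟨(ultMk U κ).comp (RingHom.pi ψ), fun _ => rfl⟩
  have hinj : Function.Injective ψ₀ := by
    rw [injective_iff_map_eq_zero]
    intro r hr
    by_contra h0
    rw [hψ₀, ultMk_eq_zero] at hr
    obtain ⟨t, ht1, ht2⟩ := (hr.and (hψ r h0)).exists
    exact ht2 ht1
  have hmap : (MvPolynomial.map ψ₀ g : Ra (Ult U κ) n e) ≠ 0 := by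
    intro h
    apply hg
    refine MvPolynomial.map_injective ψ₀ hinj ?_
    rw [h, map_zero]
  obtain ⟨DK, hDK⟩ := exists_derMv (κ := Ult U κ) (n := n) (e := e) (FractionRing (Ra (Ult U κ) n e))
  obtain ⟨j, hjC, hjX, hjalg⟩ := exists_ultMv U (Mon n e) κ L (FractionRing (Ra (Ult U κ) n e))
  choose DU hDU using fun γ : Mon n e => exists_ultD U L (fun t => DL t γ)
  obtain ⟨φK, hφK, hφD⟩ := exists_phi ψ₀ g hmap B (FractionRing (Ra (Ult U κ) n e))
  refine ⟨Ult U κ, inferInstance, hac0, hcz, ψ₀, hinj, FractionRing (Ra (Ult U κ) n e), inferInstance, inferInstance,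
    inferInstance, DK, hDK, j, hjalg, DU, ?_, hDU, φK, hφK, hφD D hD DK hDK, ?_⟩
  · exact puls_der U κ L DL hDL _ DK hDK j hjC hjX DU hDU
  · intro x
    have h1 : j.comp φK = (ultMk U L).comp (RingHom.pi φ) := by
      refine IsLocalization.ringHom_ext (Submonoid.powers g) (MvPolynomial.ringHom_ext (fun r => ?_) fun s => ?_)
      · change j (φK (algebraMap _ _ (C r))) = ultMk U L fun t => φ t (algebraMap _ _ (C r))
        rw [hφK, map_C, hψ₀, hjC]
        congr 1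
        funext t
        rw [hφ, map_C]
      · change j (φK (algebraMap _ _ (X s))) = ultMk U L fun t => φ t (algebraMap _ _ (X s))
        rw [hφK, map_X, hjX]
        congr 1
        funext t
        rw [hφ, map_X]
    exact RingHom.congr_fun h1 x

end MPadcDC
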