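import Pool.Agent.Lib.MP_adc574_ag_DC.PDatB
import Pool.Agent.Lib.MP_adc574_ag_DC.PDefs
import Pool.Agent.Lib.MP_adc574_ag_DC.PUlf
import Pool.Agent.Lib.MP_adc574_ag_DC.PUls

/-!
# JOB PNof: there is no family of functionals with determinant zero

`pos_congr`: the conclusion of `KeyPos` for the ideal `Q = bI (algebraMap (Ra κ₀ n e) K) (cycG J e)` transported along an equality of ideals (`subst`).
`no_family`: `exists_ult_setup`; `J := bI ψ₀ I₀`; `bI φK (bI (algebraMap (Ra R₀ n e) A) (cycG I₀ e)) = bI (algebraMap (Ra κ₀ n e) K) (cycG J e)` (`bI_bI`, `bI_cycG_map`).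
`HW` of this ideal is `(hD.ad K φK).eqv a : (β a → K) ≃ ↥(HW a.1 a.2)` (GP/Parts2.lean), `a = (m, μ)`.
`cU v b := ultMk (fun t => c t v b)`, `c' v : ↥(HW) →ₗ[K] Ult U L`, `c' v x = ∑ b, j ((eqv.symm x) b) * cU v b` (`Algebra K (Ult U L) := j.toAlgebra`).
* if `∑ v, lam v * c' v x = 0` for all `x` then `lam = 0`: `x = eqv (Pi.single b 1)`, `exists_minor_ult`, `indep_of_minor`;
* the relation: for `gaussManin m (DK γ) x y`: `nab_coord` (with `φ = φK`, `D' = DK γ`) gives `y = eqv (DK γ (x' b') + ∑ b, φK (G γ a b' b) * x' b)`, `x = eqv x'`;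
  `DU γ (∑ b, j (x' b) * cU v b) = ∑ b, (j (DK γ (x' b)) * cU v b + j (x' b) * DU γ (cU v b))` and `DU γ (cU v b) = ∑ b', cU v b' * j (φK (G γ a b' b)) + ∑ v', ν v v' * cU v' b`
  from `hrel` for all `t`;
* `f u := eqv (Pi.single u.1 1)` is linearly independent, `det (c' v (f u)) = det (cU v u.1) = 0` (`det_ult`), contradiction to `KeyPos`.
-/

set_option autoImplicit false

namespace MPadcDC

open MvPolynomial MPadcGP MPadcGM

universe u v w

/-- The conclusion of the position theorem for an ideal. -/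
def PosAt {K : Type u} [Field K] {N : ℕ} {M : Type} [AddCommGroup M] [Fintype M] [DecidableEq M] {wt : Fin N → M}
    {Q : Ideal (MvPolynomial (Fin N) K)} (hQ : IsHomog Q) (hw : IsWHomog wt Q) {σ : Type}
    (DK : σ → Derivation ℤ K K) (L : Type u) [Field L] [Algebra K L] (DL : σ → Derivation ℤ L L) (m : ℕ) (μ : M) :
    Prop :=
  ∀ (g : Type) [Fintype g] [DecidableEq g]
      (c : g → (↥((grP hQ hw).HW m μ) →ₗ[K] L)), (∀ lam : g → L, (∀ x, ∑ v, lam v * c v x = 0) → lam = 0) →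
      ∀ (ν : σ → Matrix g g L),
        (∀ (γ : σ) (v : g) (x y : ↥((grP hQ hw).HW m μ)),
          (prC Q).gaussManin m (DK γ) x y → DL γ (c v x) = c v y + ∑ v', ν γ v v' * c v' x) →
        ∀ f : g → ↥((grP hQ hw).HW m μ), LinearIndependent K f → (Matrix.of fun v u => c v (f u)).det ≠ 0

theorem pos_congr {K : Type u} [Field K] {N : ℕ} {M : Type} [AddCommGroup M] [Fintype M] [DecidableEq M]
    {wt : Fin N → M} {Q Q' : Ideal (MvPolynomial (Fin N) K)} (h : Q = Q') (hQ : IsHomog Q) (hw : IsWHomog wt Q)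
    (hQ' : IsHomog Q') (hw' : IsWHomog wt Q') {σ : Type}
    (DK : σ → Derivation ℤ K K) (L : Type u) [Field L] [Algebra K L] (DL : σ → Derivation ℤ L L) (m : ℕ) (μ : M)
    (hp : PosAt hQ hw DK L DL m μ) : PosAt hQ' hw' DK L DL m μ := by
  subst h
  exact hp

theorem no_family {R₀ : Type u} [CommRing R₀] [IsDomain R₀] {n e : ℕ} [NeZero e] {I₀ : Ideal (MvPolynomial (Fin n) R₀)}
    (hI₀ : IsHomog I₀)
    (hkey : ∀ (κ₀ : Type u) [Field κ₀] [IsAlgClosed κ₀] [CharZero κ₀] (ψ₀ : R₀ →+* κ₀), Function.Injective ψ₀ →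
      KeyPos e (hI₀.map ψ₀))
    (g : Ra R₀ n e) (hg : g ≠ 0) (B : Type u) [CommRing B] [Algebra (Ra R₀ n e) B] [IsLocalization.Away g B] {β : ℕ × ZMod e → Type} [∀ a, Fintype (β a)] [∀ a, DecidableEq (β a)]
    {lev : ∀ a, β a → ℕ} {z : ∀ a, β a → (prC (bI (algebraMap (Ra R₀ n e) B) (cycG I₀ e))).Ch}
    {h : ℕ → ℕ → ℕ}
    (hDat : DatW ((isHomog_cycG hI₀).map (algebraMap (Ra R₀ n e) B))
      ((isWHomog_cycG hI₀).map (algebraMap (Ra R₀ n e) B)) lev z h)
    (D : Mon n e → Derivation ℤ B B)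
    (hD : ∀ γ x, D γ (algebraMap (Ra R₀ n e) B x) =
      algebraMap (Ra R₀ n e) B (dR R₀ γ x))
    (V : ∀ γ, Lft (prC (bI (algebraMap (Ra R₀ n e) B) (cycG I₀ e))) (D γ))
    {G : Mon n e → ∀ a, β a → β a → B}
    (hG : ∀ γ a b, (V γ).Gm (z a b) - ∑ b', G γ a b' b • z a b' ∈
      (prC (bI (algebraMap (Ra R₀ n e) B) (cycG I₀ e))).Bc a.1)
    (m i : ℕ) (μ : ZMod e) (hμ : μ ≠ 0)
    (U : Ultrafilter ℕ) (κ : ℕ → Type u) [∀ t, Field (κ t)] (hac : ∀ t, IsAlgClosed (κ t)) (p : ℕ → ℕ)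
    (hcp : ∀ t, CharP (κ t) (p t))
    (hpr : ∀ t, (p t).Prime) (hp : ∀ N : ℕ, ∀ᶠ t in (U : Filter ℕ), N < p t) (ψ : ∀ t, R₀ →+* κ t)
    (hψ : ∀ r : R₀, r ≠ 0 → ∀ᶠ t in (U : Filter ℕ), ψ t r ≠ 0)
    (L : ℕ → Type u) [∀ t, Field (L t)] [∀ t, Algebra (Ra (κ t) n e) (L t)]
    [∀ t, IsFractionRing (Ra (κ t) n e) (L t)] (φ : ∀ t, B →+* L t)
    (hφ : ∀ t x, φ t (algebraMap (Ra R₀ n e) B x) =
      algebraMap (Ra (κ t) n e) (L t) (MvPolynomial.map (ψ t) x))
    (DL : ∀ t, Mon n e → Derivation ℤ (L t) (L t))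
    (hDL : ∀ t γ P, DL t γ (algebraMap (Ra (κ t) n e) (L t) P) = algebraMap (Ra (κ t) n e) (L t) (pderiv γ P))
    (c : ∀ t, {b : β (m, μ) // ¬ lev (m, μ) b < i + 1} → β (m, μ) → L t)
    (hc : ∀ t, LinearIndependent (L t) (c t))
    (ν : ∀ t, Mon n e → Matrix {b : β (m, μ) // ¬ lev (m, μ) b < i + 1} {b : β (m, μ) // ¬ lev (m, μ) b < i + 1} (L t))
    (hrel : ∀ t γ v b, DL t γ (c t v b) = ∑ b', c t v b' * φ t (G γ (m, μ) b' b) + ∑ v', ν t γ v v' * c t v' b)
    (hdet : ∀ t, (Matrix.of fun v u : {b : β (m, μ) // ¬ lev (m, μ) b < i + 1} => c t v u.1).det = 0) : False := by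
  classical
  obtain ⟨κ₀, i1, i2, i3, ψ₀, hψ₀, K, i4, i5, i6, DK, hDK, j, halg, DU, hDU, hDUm, φK, hφK, hDφ, hjφ⟩ :=
    exists_ult_setup U κ hac p hcp hpr hp ψ hψ g hg B L φ hφ DL hDL D hD
  let alg : Algebra K (Ult U L) := j.toAlgebra
  have hsm : ∀ (x : K) (y : Ult U L), x • y = j x * y := fun x y => Algebra.smul_def x y
  have hideal : bI (algebraMap (Ra κ₀ n e) K) (cycG (bI ψ₀ I₀) e) =
      bI φK (bI (algebraMap (Ra R₀ n e) B) (cycG I₀ e)) := by
    rw [← bI_cycG_map, bI_bI, bI_bI]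
    congr 1
    exact (RingHom.ext hφK).symm
  have hpos : PosAt ((isHomog_cycG (e := e) hI₀).map (algebraMap (Ra R₀ n e) B) |>.map φK)
      ((isWHomog_cycG (e := e) hI₀).map (algebraMap (Ra R₀ n e) B) |>.map φK) DK (Ult U L) DU m μ := by
    refine pos_congr hideal ((isHomog_cycG (e := e) (hI₀.map ψ₀)).map (algebraMap (Ra κ₀ n e) K))
      ((isWHomog_cycG (e := e) (hI₀.map ψ₀)).map (algebraMap (Ra κ₀ n e) K)) _ _ DK (Ult U L) DU m μ ?_
    intro g' _ _ c' hc' ν' hν' f' hf'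
    exact hkey κ₀ ψ₀ hψ₀ K DK hDK (Ult U L) (fun x hx => by
      obtain ⟨P, hP, hx0⟩ := hx
      exact halg x P hP hx0) DU hDU m μ hμ g' c' hc' ν' hν' f' hf'
  have had := hDat.ad K φK
  let S := {b : β (m, μ) // ¬ lev (m, μ) b < i + 1}
  let cU : S → β (m, μ) → Ult U L := fun v b => ultMk U L fun t => c t v b
  let fn : S → ((β (m, μ) → K) →ₗ[K] Ult U L) := fun v =>
    { toFun := fun x => ∑ b, j (x b) * cU v b
      map_add' := fun x y => by
        rw [← Finset.sum_add_distrib]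
        refine Finset.sum_congr rfl fun b _ => ?_
        rw [Pi.add_apply, map_add, add_mul]
      map_smul' := fun r x => by
        rw [RingHom.id_apply, hsm, Finset.mul_sum]
        refine Finset.sum_congr rfl fun b _ => ?_
        rw [Pi.smul_apply, smul_eq_mul, map_mul, mul_assoc] }
  have hfn : ∀ v x, fn v x = ∑ b, j (x b) * cU v b := fun _ _ => rfl
  have hfs : ∀ v b, fn v (Pi.single b 1) = cU v b := by
    intro v b
    rw [hfn, Finset.sum_eq_single b]
    · rw [Pi.single_eq_same, map_one, one_mul]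
    · intro b' _ hb'
      rw [Pi.single_eq_of_ne hb', map_zero, zero_mul]
    · intro h
      exact absurd (Finset.mem_univ b) h
  obtain ⟨E, hE⟩ : ∃ E, E = had.eqv (m, μ) := ⟨_, rfl⟩
  have hEc : ∀ x : β (m, μ) → K, ((E x : _) : (prC (bI φK (bI (algebraMap (Ra R₀ n e) B) (cycG I₀ e)))).HdR m) =
      had.crd (m, μ) x := fun x => by rw [hE]; rfl
  obtain ⟨s₀, hs₀⟩ := exists_minor_ult U L c hc
  have hind := indep_of_minor cU s₀ hs₀
  obtain ⟨νU, hνU⟩ : ∃ νU : Mon n e → Matrix S S (Ult U L), ∀ γ v v', νU γ v v' = ultMk U L fun t => ν t γ v v' :=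
    ⟨fun γ => Matrix.of fun v v' => ultMk U L fun t => ν t γ v v', fun _ _ _ => rfl⟩
  have hrelU : ∀ γ v b, DU γ (cU v b) = ∑ b', cU v b' * j (φK (G γ (m, μ) b' b)) + ∑ v', νU γ v v' * cU v' b := by
    intro γ v b
    rw [hDUm]
    have h1 : (fun t => DL t γ (c t v b)) = (∑ b', (fun t => c t v b') * (fun t => φ t (G γ (m, μ) b' b))) +
        ∑ v', (fun t => ν t γ v v') * (fun t => c t v' b) := by
      funext t
      rw [Pi.add_apply, Finset.sum_apply, Finset.sum_apply]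
      exact hrel t γ v b
    rw [h1, map_add, map_sum, map_sum]
    congr 1
    · refine Finset.sum_congr rfl fun b' _ => ?_
      rw [map_mul, hjφ]
    · refine Finset.sum_congr rfl fun v' _ => ?_
      rw [map_mul, hνU]
  refine hpos S (fun v => (fn v).comp E.symm.toLinearMap) ?_ νU ?_ (fun u => E (Pi.single u.1 1)) ?_ ?_
  · intro lam hlam
    refine hind lam fun b => ?_
    have h1 := hlam (E (Pi.single b 1))
    rw [← h1]
    refine Finset.sum_congr rfl fun v _ => ?_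
    change _ = lam v * fn v (E.symm (E (Pi.single b 1)))
    rw [LinearEquiv.symm_apply_apply, hfs]
  · intro γ v x y hxy
    obtain ⟨x', rfl⟩ := E.surjective x
    have h1 := nab_coord hDat (V γ) (hG γ) φK (DK γ) (hDφ γ) (a := (m, μ)) (x := x')
      (y := ((y : _) : (prC (bI φK (bI (algebraMap (Ra R₀ n e) B) (cycG I₀ e)))).HdR m)) (by
        rw [← hEc]
        exact hxy)
    have h2 : y = E fun b' => DK γ (x' b') + ∑ b, φK (G γ (m, μ) b' b) * x' b := by
      apply Subtype.ext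
      rw [hEc]
      exact h1
    rw [h2]
    change DU γ (fn v (E.symm (E x'))) = fn v (E.symm (E _)) + ∑ v', νU γ v v' * fn v' (E.symm (E x'))
    rw [LinearEquiv.symm_apply_apply, LinearEquiv.symm_apply_apply]
    simp only [hfn]
    rw [map_sum]
    have e1 : ∀ b, DU γ (j (x' b) * cU v b) = j (DK γ (x' b)) * cU v b +
        ((∑ b', j (x' b) * (cU v b' * j (φK (G γ (m, μ) b' b)))) + ∑ v', νU γ v v' * (j (x' b) * cU v' b)) := by
      intro b
      rw [Derivation.leibniz, smul_eq_mul, smul_eq_mul, hDU, hrelU, mul_add, Finset.mul_sum, Finset.mul_sum,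
        add_comm (_ + _), mul_comm (cU v b)]
      congr 2
      exact Finset.sum_congr rfl fun v' _ => by ring
    rw [Finset.sum_congr rfl fun b _ => e1 b, Finset.sum_add_distrib, Finset.sum_add_distrib]
    have e2 : ∑ b', j (DK γ (x' b') + ∑ b, φK (G γ (m, μ) b' b) * x' b) * cU v b' =
        ∑ b, j (DK γ (x' b)) * cU v b + ∑ b, ∑ b', j (x' b) * (cU v b' * j (φK (G γ (m, μ) b' b))) := by
      rw [Finset.sum_comm, ← Finset.sum_add_distrib]
      refine Finset.sum_congr rfl fun b' _ => ?_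
      rw [map_add, add_mul, map_sum, Finset.sum_mul]
      congr 1
      refine Finset.sum_congr rfl fun b _ => ?_
      rw [map_mul]
      ring
    have e3 : ∑ v', νU γ v v' * ∑ b, j (x' b) * cU v' b = ∑ b, ∑ v', νU γ v v' * (j (x' b) * cU v' b) := by
      simp only [Finset.mul_sum]
      exact Finset.sum_comm
    rw [e2, e3, add_assoc]
  · have h1 : LinearIndependent K fun u : S => (Pi.single u.1 (1 : K) : β (m, μ) → K) :=
      (Pi.linearIndependent_single_one (β (m, μ)) K).comp (fun u : S => u.1) Subtype.val_injective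
    exact h1.map' E.toLinearMap (LinearEquiv.ker E)
  · have h1 := det_ult U L fun t => (Matrix.of fun v u : S => c t v u.1)
    have h2 : (Matrix.of fun v u : S => ((fn v).comp E.symm.toLinearMap) (E (Pi.single u.1 1))) =
        Matrix.of fun v u => ultMk U L fun t => (Matrix.of fun v u : S => c t v u.1) v u := by
      ext v u
      change fn v (E.symm (E (Pi.single u.1 1))) = _
      rw [LinearEquiv.symm_apply_apply, hfs]
      rfl
    rw [h2, h1, ultMk_eq_zero]
    exact Filter.Eventually.of_forall fun t => hdet t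

end MPadcDC
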