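import Pool.Agent.Lib.MP_adc574_ag_DC.PWgA
import Pool.Agent.Lib.MP_adc574_ag_GP.Fin2L

/-!
# JOB POpA: no bad classes in any weight implies opposite

`oppC_of_weights` (GP/Fin2.lean) with `hD.ad L φ`: a coordinate vector `c` in `con a i` which vanishes on the levels `< i + 1`
gives the class `crd c`, in `Con` by definition of `con` (GP/Parts2.lean), in `Fil` by `crd_mem_Fil`, in `HW` by `crd_mem`; so `crd c = 0` and `c = 0` by `crd_injective`.
-/

set_option autoImplicit false

namespace MPadcDC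

open MvPolynomial MPadcGP

universe u v w

theorem noBad_opp {A : Type u} [CommRing A] {n : ℕ} {I : Ideal (MvPolynomial (Fin n) A)} {M : Type} [AddCommGroup M]
    [Fintype M] [DecidableEq M] {wt : Fin n → M} {hI : IsHomog I}
    {hw : IsWHomog wt I} {β : ℕ × M → Type} [∀ a, Fintype (β a)] [∀ a, DecidableEq (β a)] {lev : ∀ a, β a → ℕ}
    {z : ∀ a, β a → (prC I).Ch} {h : ℕ → ℕ → ℕ} (hD : DatW hI hw lev z h) {L : Type u} [Field L] (φ : A →+* L)
    (hb : ∀ m i μ, NoBad (hI.map φ) (hw.map φ) m i μ) : IsOppC (prC (bI φ I)) := by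
  have had := hD.ad L φ
  refine oppC_of_weights had fun a i c hc hl => ?_
  have h1 : had.crd a c = 0 := hb a.1 i a.2 _ hc (had.crd_mem_Fil.2 hl) (had.crd_mem a c)
  exact had.crd_injective a (h1.trans (map_zero _).symm)

end MPadcDC
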