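import Pool.Agent.Lib.MP_adc574_ag_DC.Defs
import Pool.Agent.Lib.MP_adc574_ag_GP.PBas

/-!
# JOB PPB: the finite `p`-basis of a rational function field over a perfect field

`L = Frac κ[X_s, s ∈ σ]`, `σ` finite, `κ` perfect (algebraically closed). As `exists_pbas_of_gen` in GP/PBas.lean: let `F = (frobenius L p).fieldRange = L ^ p`.
`F` contains `κ` (every element of `κ` is a `p`-th power), `L` is generated over `F` by the finitely many `X_s` (integral over `F`: `X_s ^ p ∈ F`), so it is
finite over `F` (`IntermediateField.finiteDimensional_adjoin`, `IntermediateField.adjoin F (range X) = ⊤` since every element is `P/Q`, `P, Q ∈ κ[X]`),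
and `exists_pbas_of_finite` gives the `p`-basis.
`CharP L p`: `charP_of_injective_algebraMap` twice.
-/

set_option autoImplicit false

namespace MPadcDC

open MvPolynomial MPadcGP

universe u v w

theorem charP_ratfun {κ : Type u} [Field κ] {σ : Type} (p : ℕ) [CharP κ p] (L : Type u) [Field L]
    [Algebra (MvPolynomial σ κ) L] [IsFractionRing (MvPolynomial σ κ) L] : CharP L p := by
  haveI : CharP (MvPolynomial σ κ) p := inferInstance
  exact charP_of_injective_algebraMap (IsFractionRing.injective (MvPolynomial σ κ) L) p

theorem exists_pbas_ratfun {κ : Type u} [Field κ] [IsAlgClosed κ] {σ : Type} [Finite σ] {p : ℕ} [Fact p.Prime]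
    (L : Type u) [Field L] [Algebra (MvPolynomial σ κ) L] [IsFractionRing (MvPolynomial σ κ) L] [CharP L p] :
    ∃ (Λ : Type) (_ : Fintype Λ) (b : Λ → L), PBas p b := by
  let F := (frobenius L p).fieldRange
  let S : Set L := Set.range fun s : σ => algebraMap (MvPolynomial σ κ) L (X s)
  have hint : ∀ x : L, IsIntegral F x := by
    intro x
    have h1 : IsIntegral F (x ^ p) := by
      have h2 : x ^ p = algebraMap F L ⟨x ^ p, x, rfl⟩ := rfl
      rw [h2]
      exact isIntegral_algebraMap
    exact h1.of_pow (Fact.out : p.Prime).pos
  haveI : Finite S := Set.finite_range _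
  have hfin : Module.Finite F (IntermediateField.adjoin F S) :=
    IntermediateField.finiteDimensional_adjoin fun x _ => hint x
  have htop : IntermediateField.adjoin F S = ⊤ := by
    rw [eq_top_iff]
    intro x _
    have hA : ∀ a : MvPolynomial σ κ, algebraMap (MvPolynomial σ κ) L a ∈ IntermediateField.adjoin F S := by
      intro a
      induction a using MvPolynomial.induction_on with
      | C c =>
        obtain ⟨d, hd⟩ := IsAlgClosed.exists_pow_nat_eq c (Fact.out : p.Prime).pos
        have h3 : algebraMap (MvPolynomial σ κ) L (C c) = (algebraMap (MvPolynomial σ κ) L (C d)) ^ p := by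
          rw [← map_pow, ← C_pow, hd]
        rw [h3]
        exact IntermediateField.algebraMap_mem (IntermediateField.adjoin F S)
          (⟨(algebraMap (MvPolynomial σ κ) L (C d)) ^ p, algebraMap (MvPolynomial σ κ) L (C d), rfl⟩ : F)
      | add f g hf hg =>
        rw [map_add]
        exact add_mem hf hg
      | mul_X f s hf =>
        rw [map_mul]
        exact mul_mem hf (IntermediateField.subset_adjoin F S ⟨s, rfl⟩)
    obtain ⟨a, b, hb, rfl⟩ := IsFractionRing.div_surjective (A := MvPolynomial σ κ) x
    exact div_mem (hA a) (hA b)
  rw [htop] at hfin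
  have hfin' : Module.Finite F L := Module.Finite.equiv (IntermediateField.topEquiv (F := F) (E := L)).toLinearEquiv
  exact exists_pbas_of_finite

end MPadcDC
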