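import Pool.Agent.Lib.MP_adc574_ag_DC.W1B

/-!
# Weight `0` of the cyclic cover
-/

set_option autoImplicit false

namespace MPadcDC

open MvPolynomial MPadcGP

universe u v w

theorem weight_zero {L : Type u} [Field L] {p : ℕ} [Fact p.Prime] [CharP L p] {Λ : Type} [Fintype Λ] {bb : Λ → L}
    (_ : PBas p bb) {n e : ℕ} [NeZero e] (hpe : ¬ p ∣ e) {J : Ideal (MvPolynomial (Fin n) L)} (hJ : IsHomog J)
    {F : MvPolynomial (Fin n) L} (hF : F.IsHomogeneous e) (_ : IsSmoothProj J) (_ : IsSmoothProj (cyc J F e))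
    (hopp : IsOppC (prC J)) (m i : ℕ) : NoBad (isHomog_cyc hJ hF) (isWHomog_cyc hJ hF) m i 0 :=
  W1_zero (fun h => hpe ((CharP.cast_eq_zero_iff L p e).1 h)) hJ hF hopp m i

end MPadcDC
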