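import Pool.Agent.Lib.MP_adc574_ag_DC.POpA
import Pool.Agent.Lib.MP_adc574_ag_DC.PPB
import Pool.Agent.Lib.MP_adc574_ag_DC.PW1

/-!
# JOB POpp: from `Y` over `K = Frac (A / 𝔓)` to the cyclic cover over `K`

`κ := AlgebraicClosure K`, `ψ : R₀ → κ`, `L := FractionRing (Ra κ n e)`, `Φ := (algebraMap (Ra κ n e) L).comp (map ψ) : Ra R₀ n e →+* L`.
`opp_cyc`:
(1) `Y` over `L`: `opp_up` (GP/Fin3b.lean) over `A` with `ρ : K → κ → L` (`ρ = (algebraMap (Ra κ n e) L).comp (C.comp (algebraMap K κ))`), `p`-basis of `L` from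
`exists_pbas_ratfun`, `CharP L p` from `charP_ratfun`, `CharP κ p` (`charP_of_injective_algebraMap`): gives `IsOppC (prC (bI (Φ.comp C) I₀))`
(`bI (ρ.comp φ) (bI ι I₀) = bI ((ρ.comp φ).comp ι) I₀`, `(ρ.comp φ).comp ι = Φ.comp C` by `RingHom.ext`).
(2) weight `0`: `weight_zero` (PW1) for `J = bI (Φ.comp C) I₀`, `F = frm (Φ (X g))`; `bI Φ (cycG I₀ e) = cyc J F e` (`bI_cycG`), `noBad_congr`;
smoothness over `L` from `HasDat` (`IsSmoothProj.of_away`); `p ∤ e` from `(p : ZMod e) = 1`.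
(3) weights `≠ 0`: hypothesis `hbad`. So `IsOppC (prC (bI Φ (cycG I₀ e)))` by `noBad_opp`, with the lift `φ' : B → L` of `Φ`, `B = Localization.Away g`
(`Φ g ≠ 0` since `φ (ev g) ≠ 0` and `ker Φ ≤ ker (φ ∘ ev)`).
(4) `q := ker Φ = ker (φ ∘ ev)`, `ev := eval₂Hom ι a`: `Φ P = 0` iff `map ψ P = 0` iff all coefficients are in the kernel of `φ ∘ ι` (`hind` for one direction; the other: `ev P = ∑ ι (coeff) * ..`).
`E := FractionRing (Ra R₀ n e ⧸ q)`, `exists_hom_frac` (GP/Fin3d.lean) for `Φ` and for `φ ∘ ev`: `ρ_L`, `ρ_K`. `isOppC_of_ext` (GP/R3Ext.lean) for `ρ_L`: `IsOppC` over `E`.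
(5) `opp_up` over `Ra R₀ n e` (`finiteType_Ra`) with `HasDat (cycG I₀ e) g`, the `p`-basis of `E` (`exists_pbas_of_gen` GP/PBas.lean, `E` is generated by the images of finitely many elements), the `p`-basis of `K`,
`ρ_K`: `IsOppC (prC (bI (φ.comp ev) (cycG I₀ e)))`; `bI (φ.comp ev) (cycG I₀ e) = bI φ (bI ev (cycG I₀ e)) = bI φ (cyc (bI ι I₀) (frm a) e)`.
-/

set_option autoImplicit false

namespace MPadcDC

open MvPolynomial MPadcGP

universe u v w

theorem popp_ideal {R₀ A : Type u} [CommRing R₀] [CommRing A] (ι : R₀ →+* A) {n e : ℕ}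
    (I₀ : Ideal (MvPolynomial (Fin n) R₀)) (a : Mon n e → A) {K : Type u} [CommRing K] (φ : A →+* K) :
    bI (φ.comp (eval₂Hom ι a)) (cycG I₀ e) = bI φ (cyc (bI ι I₀) (frm a) e) := by
  rw [bI_cycG, bI_cyc, bI_bI, bI_frm]
  have h1 : (φ.comp (eval₂Hom ι a)).comp C = φ.comp ι := RingHom.ext fun r => by
    rw [RingHom.comp_apply, RingHom.comp_apply, RingHom.comp_apply, coe_eval₂Hom, eval₂_C]
  have h2 : (fun g : Mon n e => (φ.comp (eval₂Hom ι a)) (X g)) = fun g => φ (a g) := funext fun g => by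
    rw [RingHom.comp_apply, coe_eval₂Hom, eval₂_X]
  rw [h1, h2]

theorem popp_ker {R₀ A : Type u} [CommRing R₀] [CommRing A] (ι : R₀ →+* A) {σ : Type} (a : σ → A) {K : Type u}
    [CommRing K] (φ : A →+* K)
    (hind : ∀ P : MvPolynomial σ R₀, φ (eval₂Hom ι a P) = 0 → ∀ m, φ (ι (P.coeff m)) = 0) {κ L : Type u} [Field κ]
    [CommRing L] (θ : K →+* κ) (hθ : Function.Injective θ) (j : MvPolynomial σ κ →+* L) (hj : Function.Injective j)
    (P : MvPolynomial σ R₀) :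
    (j.comp (MvPolynomial.map (θ.comp (φ.comp ι)))) P = 0 ↔ φ (eval₂Hom ι a P) = 0 := by
  rw [RingHom.comp_apply, map_eq_zero_iff j hj]
  constructor
  · intro h
    have h1 : MvPolynomial.map (φ.comp ι) P = 0 := by
      refine MvPolynomial.ext _ _ fun m => ?_
      have h2 := congrArg (MvPolynomial.coeff m) h
      rw [coeff_map, MvPolynomial.coeff_zero, RingHom.comp_apply, map_eq_zero_iff θ hθ] at h2
      rw [coeff_map, MvPolynomial.coeff_zero]
      exact h2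
    have h3 : φ (eval₂Hom ι a P) = eval₂ (RingHom.id K) (fun s => φ (a s)) (MvPolynomial.map (φ.comp ι) P) := by
      rw [eval₂_map, RingHom.id_comp, coe_eval₂Hom]
      exact MvPolynomial.eval₂_comp_left φ ι a P
    rw [h3, h1, eval₂_zero]
  · intro h
    refine MvPolynomial.ext _ _ fun m => ?_
    rw [coeff_map, MvPolynomial.coeff_zero, RingHom.comp_apply, map_eq_zero_iff θ hθ]
    exact hind P h m

theorem opp_cyc {R₀ A : Type u} [CommRing R₀] [IsDomain R₀] [CharZero R₀] [Algebra.FiniteType ℤ R₀] [CommRing A]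
    [IsDomain A] [CharZero A] [Algebra.FiniteType ℤ A] (ι : R₀ →+* A) {n e : ℕ} [NeZero e]
    {I₀ : Ideal (MvPolynomial (Fin n) R₀)} (hI₀ : IsHomog I₀) (a : Mon n e → A) {p : ℕ} [Fact p.Prime]
    (he : (p : ZMod e) = 1) {c : A} (hc : c ≠ 0) (hdY : HasDat (bI ι I₀) c)
    {g : Ra R₀ n e} (hg : g ≠ 0) (hdX : HasDat (cycG I₀ e) g)
    {g' : Ra R₀ n e} {β : ℕ × ZMod e → Type} [∀ a, Fintype (β a)] [∀ a, DecidableEq (β a)]
    {lev : ∀ a, β a → ℕ}
    {z : ∀ a, β a → (prC (bI (algebraMap (Ra R₀ n e) (Localization.Away g')) (cycG I₀ e))).Ch} {h : ℕ → ℕ → ℕ}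
    (hD : DatW ((isHomog_cycG hI₀).map (algebraMap (Ra R₀ n e) (Localization.Away g')))
      ((isWHomog_cycG hI₀).map (algebraMap (Ra R₀ n e) (Localization.Away g'))) lev z h)
    {K : Type u} [Field K] [CharP K p] (φ : A →+* K) {Λ : Type} [Fintype Λ] {bb : Λ → K} (hbb : PBas p bb)
    (hcφ : φ c ≠ 0) (hgφ : φ (eval₂Hom ι a g) ≠ 0) (hgφ' : φ (eval₂Hom ι a g') ≠ 0)
    (hind : ∀ P : Ra R₀ n e, φ (eval₂Hom ι a P) = 0 → ∀ m, φ (ι (P.coeff m)) = 0)
    (hbad : ∀ (κ : Type u) [Field κ] [IsAlgClosed κ] [Algebra K κ] (L : Type u) [Field L] [Algebra (Ra κ n e) L]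
      [IsFractionRing (Ra κ n e) L] (m i : ℕ) (μ : ZMod e), μ ≠ 0 → NoBad
        ((isHomog_cycG hI₀).map ((algebraMap (Ra κ n e) L).comp (MvPolynomial.map ((algebraMap K κ).comp (φ.comp ι)))))
        ((isWHomog_cycG hI₀).map ((algebraMap (Ra κ n e) L).comp
          (MvPolynomial.map ((algebraMap K κ).comp (φ.comp ι))))) m i μ)
    (hopp : IsOppC (prC (bI φ (bI ι I₀)))) :
    IsOppC (prC (bI φ (cyc (bI ι I₀) (frm a) e))) := by
  classical
  obtain ⟨hsY, βY, iY1, iY2, levY, zY, hhY, hDY⟩ := hdY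
  obtain ⟨hsX, βX, iX1, iX2, levX, zX, hhX, hDX⟩ := hdX
  have hft := finiteType_Ra (R₀ := R₀) n e
  have hcκ : CharP (AlgebraicClosure K) p :=
    charP_of_injective_algebraMap (algebraMap K (AlgebraicClosure K)).injective p
  obtain ⟨ψ, hψ⟩ : ∃ ψ : R₀ →+* AlgebraicClosure K, ψ = (algebraMap K (AlgebraicClosure K)).comp (φ.comp ι) := ⟨_, rfl⟩
  have hcL : CharP (FractionRing (Ra (AlgebraicClosure K) n e)) p :=
    charP_ratfun (κ := AlgebraicClosure K) (σ := Mon n e) p _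
  obtain ⟨ΛL, iΛL, bbL, hbbL⟩ := exists_pbas_ratfun (κ := AlgebraicClosure K) (σ := Mon n e) (p := p)
    (FractionRing (Ra (AlgebraicClosure K) n e))
  obtain ⟨jL, hjL⟩ : ∃ jL : Ra (AlgebraicClosure K) n e →+* FractionRing (Ra (AlgebraicClosure K) n e),
    jL = algebraMap _ _ := ⟨_, rfl⟩
  have hjLi : Function.Injective jL := hjL ▸ IsFractionRing.injective _ _
  obtain ⟨Φ, hΦ⟩ : ∃ Φ : Ra R₀ n e →+* FractionRing (Ra (AlgebraicClosure K) n e),
    Φ = jL.comp (MvPolynomial.map ψ) := ⟨_, rfl⟩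
  have hker : ∀ P, Φ P = 0 ↔ φ (eval₂Hom ι a P) = 0 := fun P => by
    rw [hΦ, hψ]
    exact popp_ker ι a φ hind (algebraMap K (AlgebraicClosure K)) (algebraMap K (AlgebraicClosure K)).injective jL hjLi P
  have hΦg : Φ g ≠ 0 := fun h => hgφ ((hker g).1 h)
  have hΦg' : Φ g' ≠ 0 := fun h => hgφ' ((hker g').1 h)
  -- step 1
  obtain ⟨ρ, hρ⟩ : ∃ ρ : K →+* FractionRing (Ra (AlgebraicClosure K) n e),
    ρ = jL.comp (C.comp (algebraMap K (AlgebraicClosure K))) := ⟨_, rfl⟩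
  have hρC : (ρ.comp φ).comp ι = Φ.comp C := RingHom.ext fun r => by
    rw [hρ, hΦ, hψ]
    simp only [RingHom.comp_apply, map_C]
  have hY := opp_up (hI₀.map ι) hc hsY hDY φ hbb hcφ ρ hbbL hopp
  have hsYL : IsSmoothProj (bI (ρ.comp φ) (bI ι I₀)) := IsSmoothProj.of_away (hI₀.map ι) hsY (ρ.comp φ)
    (IsUnit.mk0 _ (by rw [RingHom.comp_apply]; exact (map_ne_zero_iff ρ ρ.injective).2 hcφ))
  rw [bI_bI, hρC] at hY hsYL
  -- step 2
  have hsXL : IsSmoothProj (bI Φ (cycG I₀ e)) := IsSmoothProj.of_away (isHomog_cycG hI₀) hsX Φ (IsUnit.mk0 _ hΦg)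
  have hXL : bI Φ (cycG I₀ e) = cyc (bI (Φ.comp C) I₀) (frm fun g => Φ (X g)) e := bI_cycG Φ I₀
  have hpe : ¬ p ∣ e := by
    intro hdvd
    have hp1 : 1 < p := (Fact.out : p.Prime).one_lt
    have h1 : ((p : ℕ) : ZMod e) = ((1 : ℕ) : ZMod e) := by rw [he, Nat.cast_one]
    have h2 := ((ZMod.natCast_eq_natCast_iff _ _ _).1 h1).of_dvd hdvd
    have h3 : p ≡ 0 [MOD p] := (Nat.modEq_zero_iff_dvd.2 dvd_rfl)
    have h4 := h2.symm.trans h3
    exact absurd ((Nat.modEq_zero_iff_dvd.1 h4)) (Nat.not_dvd_of_pos_of_lt one_pos hp1)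
  have hW0 : ∀ m i, NoBad ((isHomog_cycG (e := e) hI₀).map Φ) ((isWHomog_cycG (e := e) hI₀).map Φ) m i 0 := by
    intro m i
    refine noBad_congr hXL.symm (isHomog_cyc (hI₀.map _) (isHomogeneous_frm _))
      (isWHomog_cyc (hI₀.map _) (isHomogeneous_frm _)) _ _ m i 0 ?_
    exact weight_zero hbbL hpe (hI₀.map _) (isHomogeneous_frm _) hsYL (hXL ▸ hsXL) hY m i
  -- step 3
  have hWμ : ∀ m i μ, NoBad ((isHomog_cycG (e := e) hI₀).map Φ) ((isWHomog_cycG (e := e) hI₀).map Φ) m i μ := by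
    intro m i μ
    by_cases hμ : μ = 0
    · rw [hμ]
      exact hW0 m i
    · have h1 := hbad (AlgebraicClosure K) (FractionRing (Ra (AlgebraicClosure K) n e)) m i μ hμ
      rw [← hψ, ← hjL] at h1
      have h2 : Φ = jL.comp (MvPolynomial.map ψ) := hΦ
      subst h2
      exact h1
  obtain ⟨φ', hφ'⟩ : ∃ φ' : Localization.Away g' →+* FractionRing (Ra (AlgebraicClosure K) n e),
    φ'.comp (algebraMap (Ra R₀ n e) (Localization.Away g')) = Φ :=
    ⟨IsLocalization.Away.lift g' (IsUnit.mk0 _ hΦg'), IsLocalization.Away.lift_comp g' _⟩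
  have hideal : bI Φ (cycG I₀ e) = bI φ' (bI (algebraMap (Ra R₀ n e) (Localization.Away g')) (cycG I₀ e)) := by
    rw [bI_bI, hφ']
  have hoppL : IsOppC (prC (bI Φ (cycG I₀ e))) := by
    have h1 := noBad_opp hD φ' fun m i μ => noBad_congr hideal ((isHomog_cycG (e := e) hI₀).map Φ)
      ((isWHomog_cycG (e := e) hI₀).map Φ) _ _ m i μ (hWμ m i μ)
    rw [← hideal] at h1
    exact h1
  -- step 4
  obtain ⟨q, hq⟩ : ∃ q : Ideal (Ra R₀ n e), q = RingHom.ker Φ := ⟨_, rfl⟩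
  have hqp : q.IsPrime := hq ▸ RingHom.ker_isPrime Φ
  have hq' : RingHom.ker (φ.comp (eval₂Hom ι a)) = q := by
    rw [hq]
    ext P
    rw [RingHom.mem_ker, RingHom.mem_ker, hker]
    rfl
  obtain ⟨ρL, hρL⟩ := exists_hom_frac q Φ hq.symm
  obtain ⟨ρK, hρK⟩ := exists_hom_frac q (φ.comp (eval₂Hom ι a)) hq'
  have hkerE := frac_ker q
  have hfrE := frac_surj q
  generalize (algebraMap (Ra R₀ n e ⧸ q) (FractionRing (Ra R₀ n e ⧸ q))).comp (Ideal.Quotient.mk q) = φE at *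
  have hoppE : IsOppC (prC (bI φE (cycG I₀ e))) := by
    refine isOppC_of_ext ((isHomog_cycG hI₀).map φE) ρL ?_
    rw [bI_bI, hρL]
    exact hoppL
  -- step 5
  have hcE : CharP (FractionRing (Ra R₀ n e ⧸ q)) p := by
    refine charP_of_cast_zero (Fact.out : p.Prime) (ρL.injective ?_)
    rw [map_natCast, map_zero]
    exact CharP.cast_eq_zero _ p
  obtain ⟨ΛE, iΛE, bbE, hbbE⟩ := exists_pbas_of_gen (p := p) φE hfrE
  have hgE : φE g ≠ 0 := by
    intro h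
    apply hΦg
    rw [← hρL, RingHom.comp_apply, h, map_zero]
  have hfin := opp_up (isHomog_cycG hI₀) hg hsX hDX φE hbbE hgE ρK hbb hoppE
  rw [hρK, popp_ideal] at hfin
  exact hfin

end MPadcDC
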