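import Pool.Agent.Lib.MP_adc574_ag_DC.Defs
import Pool.Agent.Lib.MP_adc574_ag_GP.Fin3g

/-!
# JOB PUpd: opposite at the generic points, change of the ring

`exists_hom_fr`: `K` is a fraction field of `A ⧸ ker φ` (`IsFractionRing`; `IsLocalization.lift`), or define `ρ` on `φ.range` and extend by `IsFractionRing.lift`
(`IsFractionRing φ.range K` from `hφ`).
`opp_down`: `K' = FractionRing (A' ⧸ 𝔓')`, `φ'` with kernel `𝔓'` (`frac_ker`, `frac_surj`, GP/Fin3b.lean), `ρ : K → K'` from `exists_hom_fr`; `isOppC_of_ext` (GP/R3Ext.lean), `bI_bI`.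
`opp_upd`: `a` from `exists_aff` (GP/Fin3a.lean), `opp_up` (GP/Fin3b.lean) with the `p`-bases of `exists_resB A`, `exists_resB A'` (GP/R3Res.lean), `ρ` from `exists_hom_fr`.
`open_iff_opp`: `←` `open_of_opp` (GP/Fin4.lean) with `K = FractionRing (A ⧸ 𝔓)`; `→` `IsOpenOrd → IsDenseOrd` by `exists_max_not_mem` (GP/Fin4.lean), then `opp_of_dense` (GP/Fin3a.lean). Bounds from `exists_resB A`.
`opp_of_point`: `opp_generic` (GP/Fin3b.lean).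
-/

set_option autoImplicit false

namespace MPadcDC

open MvPolynomial MPadcGP

universe u v w

/-- Homomorphisms from a field of fractions. -/
theorem exists_hom_fr {A : Type u} [CommRing A] {K : Type u} [Field K] {K' : Type u} [Field K'] (φ : A →+* K)
    (hφ : ∀ x : K, ∃ a b : A, φ b ≠ 0 ∧ x = φ a / φ b) (φ' : A →+* K') (h : ∀ x, φ x = 0 ↔ φ' x = 0) :
    ∃ ρ : K →+* K', ρ.comp φ = φ' := by
  obtain ⟨Q, hQ⟩ : ∃ Q : Ideal A, Q = RingHom.ker φ := ⟨_, rfl⟩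
  have hQp : Q.IsPrime := hQ ▸ RingHom.ker_isPrime φ
  have hQ' : RingHom.ker φ' = Q := by
    rw [hQ]
    ext x
    rw [RingHom.mem_ker, RingHom.mem_ker, h]
  obtain ⟨ρ₁, hρ₁⟩ := exists_hom_frac Q φ hQ.symm
  obtain ⟨ρ₂, hρ₂⟩ := exists_hom_frac Q φ' hQ'
  have hb : Function.Bijective ρ₁ := by
    refine ⟨ρ₁.injective, fun x => ?_⟩
    obtain ⟨a, b, -, rfl⟩ := hφ x
    refine ⟨((algebraMap (A ⧸ Q) (FractionRing (A ⧸ Q))).comp (Ideal.Quotient.mk Q)) a /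
      ((algebraMap (A ⧸ Q) (FractionRing (A ⧸ Q))).comp (Ideal.Quotient.mk Q)) b, ?_⟩
    rw [map_div₀, ← RingHom.comp_apply, ← RingHom.comp_apply, hρ₁]
  refine ⟨ρ₂.comp (RingEquiv.ofBijective ρ₁ hb).symm.toRingHom, RingHom.ext fun x => ?_⟩
  have h1 : (RingEquiv.ofBijective ρ₁ hb).symm (φ x) =
      ((algebraMap (A ⧸ Q) (FractionRing (A ⧸ Q))).comp (Ideal.Quotient.mk Q)) x := by
    rw [RingEquiv.symm_apply_eq, ← hρ₁]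
    rfl
  change ρ₂ ((RingEquiv.ofBijective ρ₁ hb).symm (φ x)) = φ' x
  rw [h1, ← RingHom.comp_apply, hρ₂]

/-- The ideal is opposite at the generic point of `V(𝔓)`. -/
def OppAt {A : Type u} [CommRing A] {n : ℕ} (I : Ideal (MvPolynomial (Fin n) A)) (𝔓 : Ideal A) : Prop :=
  ∀ (K : Type u) [Field K] (φ : A →+* K), RingHom.ker φ = 𝔓 → (∀ x : K, ∃ a b : A, φ b ≠ 0 ∧ x = φ a / φ b) →
    IsOppC (prC (bI φ I))

theorem opp_down {A A' : Type u} [CommRing A] [CommRing A'] (ι : A →+* A') {n : ℕ}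
    {I : Ideal (MvPolynomial (Fin n) A)} (hI : IsHomog I) {𝔓' : Ideal A'} [𝔓'.IsPrime]
    (h : OppAt (bI ι I) 𝔓') : OppAt I (𝔓'.comap ι) := by
  intro K _ φ hk hfr
  obtain ⟨φ', hφ'⟩ : ∃ φ', φ' = (algebraMap (A' ⧸ 𝔓') (FractionRing (A' ⧸ 𝔓'))).comp (Ideal.Quotient.mk 𝔓') :=
    ⟨_, rfl⟩
  have hk' : RingHom.ker φ' = 𝔓' := hφ' ▸ frac_ker 𝔓'
  have h1 := h _ φ' hk' (hφ' ▸ frac_surj 𝔓')
  obtain ⟨ρ, hρ⟩ := exists_hom_fr φ hfr (φ'.comp ι) fun x => by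
    rw [← RingHom.mem_ker, hk, RingHom.comp_apply, ← RingHom.mem_ker, hk', Ideal.mem_comap]
  refine isOppC_of_ext (hI.map φ) ρ ?_
  rw [bI_bI, hρ, ← bI_bI]
  exact h1

theorem opp_upd {A A' : Type u} [CommRing A] [IsDomain A] [CharZero A] [Algebra.FiniteType ℤ A] [CommRing A']
    [IsDomain A'] [CharZero A'] [Algebra.FiniteType ℤ A'] (ι : A →+* A') {n : ℕ}
    {I : Ideal (MvPolynomial (Fin n) A)} (hI : IsHomog I) {k : Type u} [Field k] (j : A →+* k)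
    (hj : Function.Injective j) (hs : IsSmoothProj (bI j I)) :
    ∃ p₀ : ℕ, ∀ p : ℕ, p.Prime → p₀ < p → ∀ 𝔓 ∈ (Ideal.span {(p : A)}).minimalPrimes,
      ∀ 𝔓' ∈ (Ideal.span {(p : A')}).minimalPrimes, 𝔓'.comap ι = 𝔓 → OppAt I 𝔓 → OppAt (bI ι I) 𝔓' := by
  obtain ⟨a, ha, -, hsa, β, i1, i2, lev, z, h, hD⟩ := exists_hasDat hI hI j hj hs hs
  obtain ⟨BA, hBA⟩ := exists_resB A
  obtain ⟨BA', hBA'⟩ := exists_resB A'
  refine ⟨BA 0 + BA a + BA' 0, fun p hpr hp 𝔓 h𝔓 𝔓' h𝔓' hc hopp K' _ φ' hk' hfr' => ?_⟩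
  have hfact : Fact p.Prime := ⟨hpr⟩
  have hpr𝔓 : 𝔓.IsPrime := h𝔓.1.1
  obtain ⟨φ, hφ⟩ : ∃ φ, φ = (algebraMap (A ⧸ 𝔓) (FractionRing (A ⧸ 𝔓))).comp (Ideal.Quotient.mk 𝔓) := ⟨_, rfl⟩
  have hk : RingHom.ker φ = 𝔓 := hφ ▸ frac_ker 𝔓
  have hfr : ∀ x : FractionRing (A ⧸ 𝔓), ∃ a b : A, φ b ≠ 0 ∧ x = φ a / φ b := hφ ▸ frac_surj 𝔓
  obtain ⟨hcK, -, hne, Λ, iΛ, bb, hbb⟩ := hBA p hpr (by omega) 𝔓 h𝔓 _ φ hk hfr
  obtain ⟨hcK', -, -, Λ', iΛ', bb', hbb'⟩ := hBA' p hpr (by omega) 𝔓' h𝔓' K' φ' hk' hfr'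
  obtain ⟨ρ, hρ⟩ := exists_hom_fr φ hfr (φ'.comp ι) fun x => by
    rw [← RingHom.mem_ker, hk, RingHom.comp_apply, ← RingHom.mem_ker, hk', ← Ideal.mem_comap, hc]
  have h1 := opp_up hI ha hsa hD φ hbb (hne a ha (by omega)) ρ hbb' (hopp _ φ hk hfr)
  rw [hρ, ← bI_bI] at h1
  exact h1

/-- The open form and the form at the generic points. -/
theorem open_iff_opp {A : Type u} [CommRing A] [IsDomain A] [CharZero A] [Algebra.FiniteType ℤ A] {n : ℕ}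
    {I : Ideal (MvPolynomial (Fin n) A)} (hI : IsHomog I) {k : Type u} [Field k] (j : A →+* k)
    (hj : Function.Injective j) (hs : IsSmoothProj (bI j I)) :
    ∃ p₀ : ℕ, ∀ p : ℕ, p.Prime → p₀ < p → ∀ 𝔓 ∈ (Ideal.span {(p : A)}).minimalPrimes,
      (IsOpenOrd I 𝔓 ↔ OppAt I 𝔓) := by
  obtain ⟨a, ha, -, hd⟩ := exists_hasDat hI hI j hj hs hs
  obtain ⟨BA, hBA⟩ := exists_resB A
  refine ⟨BA 0 + BA a, fun p hpr hp 𝔓 h𝔓 => ⟨fun hop K _ φ hk hfr => ?_, fun hopp => ?_⟩⟩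
  · have hfact : Fact p.Prime := ⟨hpr⟩
    have hpr𝔓 : 𝔓.IsPrime := h𝔓.1.1
    obtain ⟨hcK, -, hne, Λ, iΛ, bb, hbb⟩ := hBA p hpr (by omega) 𝔓 h𝔓 _ φ hk hfr
    obtain ⟨hsa, β, i1, i2, lev, z, h, hD⟩ := hd
    have hdense : IsDenseOrd I 𝔓 := by
      intro b hb
      obtain ⟨f, hf, hop'⟩ := hop
      obtain ⟨𝔪, h𝔪, hle, hfm⟩ := exists_max_not_mem (p := p) 𝔓 (h𝔓.1.2 (Ideal.mem_span_singleton_self _)) (f * b)
        (fun h => (hpr𝔓.mem_or_mem h).elim hf hb)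
      obtain ⟨h1, h2⟩ := hop' 𝔪 h𝔪 hle fun h => hfm (Ideal.mul_mem_right _ _ h)
      exact ⟨𝔪, h𝔪, hle, fun h => hfm (Ideal.mul_mem_left _ _ h), h1, h2⟩
    exact opp_of_dense hI ha hsa hD hdense φ hk hfr (hne a ha (by omega))
  · have hfact : Fact p.Prime := ⟨hpr⟩
    have hpr𝔓 : 𝔓.IsPrime := h𝔓.1.1
    obtain ⟨φ, hφ⟩ : ∃ φ, φ = (algebraMap (A ⧸ 𝔓) (FractionRing (A ⧸ 𝔓))).comp (Ideal.Quotient.mk 𝔓) := ⟨_, rfl⟩
    have hk : RingHom.ker φ = 𝔓 := hφ ▸ frac_ker 𝔓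
    have hfr : ∀ x : FractionRing (A ⧸ 𝔓), ∃ a b : A, φ b ≠ 0 ∧ x = φ a / φ b := hφ ▸ frac_surj 𝔓
    obtain ⟨hcK, -, hne, Λ, iΛ, bb, hbb⟩ := hBA p hpr (by omega) 𝔓 h𝔓 _ φ hk hfr
    exact open_of_opp (p := p) hI ha hd φ hk hfr hbb (hne a ha (by omega)) (hopp _ φ hk hfr)

/-- From one closed point to the generic point. -/
theorem opp_of_point {A : Type u} [CommRing A] [IsDomain A] [CharZero A] [Algebra.FiniteType ℤ A] {n : ℕ}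
    {I : Ideal (MvPolynomial (Fin n) A)} (hI : IsHomog I) {k : Type u} [Field k] (j : A →+* k)
    (hj : Function.Injective j) (hs : IsSmoothProj (bI j I)) :
    ∃ b : A, b ≠ 0 ∧ ∃ p₀ : ℕ, ∀ p : ℕ, p.Prime → p₀ < p → ∀ 𝔓 ∈ (Ideal.span {(p : A)}).minimalPrimes,
      ∀ 𝔪 : Ideal A, 𝔪.IsMaximal → b ∉ 𝔪 → 𝔓 ≤ 𝔪 → (prC (bI (Ideal.Quotient.mk 𝔪) I)).IsBlochKatoOrdinary →
        OppAt I 𝔓 := by
  obtain ⟨a, ha, -, hsa, β, i1, i2, lev, z, h, hD⟩ := exists_hasDat hI hI j hj hs hs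
  obtain ⟨BA, hBA⟩ := exists_resB A
  refine ⟨a, ha, BA 0 + BA a, fun p hpr hp 𝔓 h𝔓 𝔪 h𝔪 ha𝔪 hle hbk K _ φ hk hfr => ?_⟩
  have hfact : Fact p.Prime := ⟨hpr⟩
  obtain ⟨hcK, -, hne, Λ, iΛ, bb, hbb⟩ := hBA p hpr (by omega) 𝔓 h𝔓 _ φ hk hfr
  exact opp_generic (p := p) hI ha hsa hD φ hfr (hne a ha (by omega)) h𝔪 ha𝔪 (fun x hx => hle (by
    rw [← hk]
    exact hx)) hbk

end MPadcDC
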