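import Pool.Agent.Lib.MP_adc574_ag_GP.R3Ov
import Pool.Agent.Lib.MP_adc574_ag_DC.PMoA
import Pool.Agent.Lib.MP_adc574_ag_DC.PUpd

/-!
# JOB PRed0: the relation between two schemes at the generic points of `V(p)`, for all models

`OppRel Y X E`: for every model over a f.g. ring, for all large `p = 1 mod E` and all minimal primes of `p`: if `Y` is opposite there then `X` is opposite there.
`Subalgebra.fg_iff_finiteType`, `CharZero` of a subalgebra of `k`: as `ft`, `cz` in GP/Fin5.lean.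
`OppRel.refl`: two models `IY`, `IX` of the same ideal become equal over a f.g. `A' ≥ A` (`exists_eq_model`); `𝔓' ∈ Min(pA')` over `𝔓` (`exists_over`, GP/R3Ov.lean); `opp_upd`, `opp_down`.
`OppRel.trans`: `A₁ ≥ A` with a homogeneous model `I₁` of `X₁` (`exists_modelY`); `𝔓₁ ∈ Min(pA₁)` over `𝔓` (`exists_over`); `opp_upd` for `IY`, the two relations over `A₁` (for `bI incl IY`, `I₁`, `bI incl IX`), `opp_down` for `IX`.
`OppRel.mono`: `(p : ZMod E') = 1` implies `(p : ZMod E) = 1` for `E ∣ E'` (`ZMod.castHom`).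
`OppRel.point`: `opp_of_point` for `IY` (gives `b`), the relation, `open_iff_opp` for `IX`.
-/

set_option autoImplicit false

namespace MPadcDC

open MvPolynomial MPadcGP

universe u v w

/-- If `Y` is opposite at a generic point of `V(p)` then `X` is opposite there, for all large primes `p = 1 mod E`. -/
def OppRel {k : Type u} [Field k] {n m : ℕ} (Y : Ideal (MvPolynomial (Fin n) k)) (X : Ideal (MvPolynomial (Fin m) k))
    (E : ℕ) : Prop :=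
  ∀ A : Subalgebra ℤ k, A.FG → ∀ (IY : Ideal (MvPolynomial (Fin n) A)) (IX : Ideal (MvPolynomial (Fin m) A)),
    IsHomog IY → IsHomog IX → bI (algebraMap A k) IY = Y → bI (algebraMap A k) IX = X →
    ∃ p₀ : ℕ, ∀ p : ℕ, p₀ ≤ p → p.Prime → (p : ZMod E) = 1 →
      ∀ 𝔓 ∈ (Ideal.span {(p : A)}).minimalPrimes, OppAt IY 𝔓 → OppAt IX 𝔓

section

variable {k : Type u} [Field k] [CharZero k] {n m l : ℕ}

theorem pred_ft {A : Subalgebra ℤ k} (h : A.FG) : Algebra.FiniteType ℤ A := (Subalgebra.fg_iff_finiteType A).1 h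

theorem pred_cz (A : Subalgebra ℤ k) : CharZero A :=
  ⟨fun a b h => by
    have h1 := congrArg (algebraMap A k) h
    rw [map_natCast, map_natCast] at h1
    exact Nat.cast_injective h1⟩

omit [CharZero k] in
theorem pred_zmod {p E E' : ℕ} (h : E ∣ E') (hp : (p : ZMod E') = 1) : (p : ZMod E) = 1 := by
  have h1 := congrArg (ZMod.castHom h (ZMod E)) hp
  rw [map_natCast, map_one] at h1
  exact h1

theorem OppRel.refl {Y : Ideal (MvPolynomial (Fin n) k)} (hs : IsSmoothProj Y) (E : ℕ) : OppRel Y Y E := by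
  intro A hA IY IX hIY hIX hYk hXk
  have hfA := pred_ft hA
  have hcA := pred_cz A
  obtain ⟨A', hle, hA', heq⟩ := exists_eq_model A hA IY IX (hYk.trans hXk.symm)
  have hfA' := pred_ft hA'
  have hcA' := pred_cz A'
  obtain ⟨p₁, h₁⟩ := exists_over A A' (Subalgebra.inclusion hle).toRingHom (Subalgebra.inclusion_injective hle)
  obtain ⟨p₂, h₂⟩ := opp_upd (Subalgebra.inclusion hle).toRingHom hIY (algebraMap A k) Subtype.val_injective
    (hYk.symm ▸ hs)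
  refine ⟨p₁ + p₂ + 1, fun p hp hpr _ 𝔓 h𝔓 hopp => ?_⟩
  obtain ⟨𝔓', h𝔓', hc⟩ := h₁ p hpr (by omega) 𝔓 h𝔓
  have h3 := h₂ p hpr (by omega) 𝔓 h𝔓 𝔓' h𝔓' hc hopp
  rw [heq] at h3
  have hpr' : 𝔓'.IsPrime := h𝔓'.1.1
  rw [← hc]
  exact opp_down _ hIX h3

theorem OppRel.trans {Y : Ideal (MvPolynomial (Fin n) k)} {X₁ : Ideal (MvPolynomial (Fin m) k)}
    {X : Ideal (MvPolynomial (Fin l) k)} (hs : IsSmoothProj Y) (h₁ : IsHomog X₁) {E E' E'' : ℕ} (hE : E ∣ E'')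
    (hE' : E' ∣ E'') (h : OppRel Y X₁ E) (h' : OppRel X₁ X E') : OppRel Y X E'' := by
  intro A hA IY IX hIY hIX hYk hXk
  have hfA := pred_ft hA
  have hcA := pred_cz A
  obtain ⟨A', hle, hA', I₁, hI₁, h1k⟩ := exists_modelY h₁ A hA
  have hfA' := pred_ft hA'
  have hcA' := pred_cz A'
  have hcomp : (algebraMap A' k).comp (Subalgebra.inclusion hle).toRingHom = algebraMap A k := rfl
  obtain ⟨p₁, h₁'⟩ := exists_over A A' (Subalgebra.inclusion hle).toRingHom (Subalgebra.inclusion_injective hle)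
  obtain ⟨p₂, h₂⟩ := opp_upd (Subalgebra.inclusion hle).toRingHom hIY (algebraMap A k) Subtype.val_injective
    (hYk.symm ▸ hs)
  obtain ⟨p₃, h₃⟩ := h A' hA' (bI (Subalgebra.inclusion hle).toRingHom IY) I₁ (hIY.map _) hI₁
    (by rw [bI_bI, hcomp, hYk]) h1k
  obtain ⟨p₄, h₄⟩ := h' A' hA' I₁ (bI (Subalgebra.inclusion hle).toRingHom IX) hI₁ (hIX.map _) h1k
    (by rw [bI_bI, hcomp, hXk])
  refine ⟨p₁ + p₂ + p₃ + p₄ + 1, fun p hp hpr hpE 𝔓 h𝔓 hopp => ?_⟩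
  obtain ⟨𝔓', h𝔓', hc⟩ := h₁' p hpr (by omega) 𝔓 h𝔓
  have hpr' : 𝔓'.IsPrime := h𝔓'.1.1
  rw [← hc]
  exact opp_down _ hIX (h₄ p (by omega) hpr (pred_zmod hE' hpE) 𝔓' h𝔓' (h₃ p (by omega) hpr (pred_zmod hE hpE) 𝔓' h𝔓'
    (h₂ p hpr (by omega) 𝔓 h𝔓 𝔓' h𝔓' hc hopp)))

theorem OppRel.mono {Y : Ideal (MvPolynomial (Fin n) k)} {X : Ideal (MvPolynomial (Fin m) k)} {E E' : ℕ}
    (hE : E ∣ E') (h : OppRel Y X E) : OppRel Y X E' := by
  intro A hA IY IX hIY hIX hYk hXk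
  obtain ⟨p₀, hp₀⟩ := h A hA IY IX hIY hIX hYk hXk
  exact ⟨p₀, fun p hp hpr hpE 𝔓 h𝔓 => hp₀ p hp hpr (pred_zmod hE hpE) 𝔓 h𝔓⟩

theorem OppRel.point {Y : Ideal (MvPolynomial (Fin n) k)} {X : Ideal (MvPolynomial (Fin m) k)} {E : ℕ}
    (hs : IsSmoothProj Y) (hs' : IsSmoothProj X) (h : OppRel Y X E) (A : Subalgebra ℤ k) (hA : A.FG)
    (IY : Ideal (MvPolynomial (Fin n) A)) (hIY : IsHomog IY) (hYk : bI (algebraMap A k) IY = Y)
    (IX : Ideal (MvPolynomial (Fin m) A)) (hIX : IsHomog IX) (hXk : bI (algebraMap A k) IX = X) :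
    ∃ b : A, b ≠ 0 ∧ ∃ p₀ : ℕ, ∀ p : ℕ, p₀ ≤ p → p.Prime → (p : ZMod E) = 1 →
      ∀ 𝔪 : Ideal A, 𝔪.IsMaximal → b ∉ 𝔪 → ((∀ 𝔓 ∈ (Ideal.span {(p : A)}).minimalPrimes, OppAt IY 𝔓) ∨
        (prC (bI (Ideal.Quotient.mk 𝔪) IY)).IsBlochKatoOrdinary) →
        ∀ 𝔓 ∈ (Ideal.span {(p : A)}).minimalPrimes, 𝔓 ≤ 𝔪 → IsOpenOrd IX 𝔓 := by
  have hfA := pred_ft hA
  have hcA := pred_cz A
  obtain ⟨b, hb, p₁, h₁⟩ := opp_of_point hIY (algebraMap A k) Subtype.val_injective (hYk.symm ▸ hs)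
  obtain ⟨p₂, h₂⟩ := h A hA IY IX hIY hIX hYk hXk
  obtain ⟨p₃, h₃⟩ := open_iff_opp hIX (algebraMap A k) Subtype.val_injective (hXk.symm ▸ hs')
  refine ⟨b, hb, p₁ + p₂ + p₃ + 1, fun p hp hpr hpE 𝔪 h𝔪 hb𝔪 hor 𝔓 h𝔓 hle => ?_⟩
  refine (h₃ p hpr (by omega) 𝔓 h𝔓).2 (h₂ p (by omega) hpr hpE 𝔓 h𝔓 ?_)
  rcases hor with hor | hor
  · exact hor 𝔓 h𝔓
  · exact h₁ p hpr (by omega) 𝔓 h𝔓 𝔪 h𝔪 hb𝔪 hle hor

end

end MPadcDC
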