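import Pool.Agent.Lib.MP_adc574_ag_DC.PFin
import Pool.Agent.Lib.MP_adc574_ag_DC.PMod
import Pool.Agent.Lib.MP_adc574_ag_DC.PRed0

/-!
# JOB PRed1: the cyclic cover, any model

For a model `(A, IY, IX)`: `exists_model` gives `A' ≥ A`, `R₀`, `I₀`, `ι`, `a'`. `dc_core` over `A'` (`j = algebraMap A' k`; `bI j (bI ι I₀) = bI (algebraMap κ k) J` since `j ∘ ι = (κ → k) ∘ (R₀ → κ)`;
smoothness of `bI (κ → k) J` is `hsJ.map`; of the cover: `hsX`, `bI j (cyc (bI ι I₀) (frm a') e) = cyc (bI (κ → k) J) (frm a) e` by `bI_cyc`, `bI_frm`). For `𝔓 ∈ Min(pA)` with `OppAt IY 𝔓`: `𝔓' ∈ Min(pA')` over `𝔓`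
(`exists_over`, GP/R3Ov.lean), `opp_upd`, `dc_core`, `opp_down`. `dc_core` asks for the `KeyPos` of `hI₀.map ψ₀`: `hkey R₀ I₀`.
-/

set_option autoImplicit false

namespace MPadcDC

open MvPolynomial MPadcGP

universe u v w

theorem oppRel_cyc' {k : Type u} [Field k] [CharZero k] (κ : Subfield k) {n e : ℕ} [NeZero e]
    {J : Ideal (MvPolynomial (Fin n) κ)} (hJ : IsHomog J) (hsJ : IsSmoothProj J)
    (hkey : ∀ (R₀ : Subalgebra ℤ κ) (I₀ : Ideal (MvPolynomial (Fin n) R₀)) (hI₀ : IsHomog I₀), R₀.FG →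
      bI (algebraMap R₀ κ) I₀ = J → ∀ (κ₀ : Type u) [Field κ₀] [IsAlgClosed κ₀] [CharZero κ₀] (ψ₀ : R₀ →+* κ₀),
      Function.Injective ψ₀ → KeyPos e (hI₀.map ψ₀))
    (a : Mon n e → k) (ha : AlgebraicIndependent κ a)
    (hsX : IsSmoothProj (cyc (bI (algebraMap κ k) J) (frm a) e)) :
    OppRel (bI (algebraMap κ k) J) (cyc (bI (algebraMap κ k) J) (frm a) e) e := by
  intro A hA IY IX hIY hIX hYk hXk
  have hfA := pred_ft hA
  have hcA := pred_cz A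
  obtain ⟨A', hle, hA', R₀, hR₀, I₀, hI₀, ι, a', hιk, hIJ, ha'k, hinj, hYe, hXe⟩ :=
    exists_model κ hJ a ha A hA IY hYk IX hXk
  have hfA' := pred_ft hA'
  have hcA' := pred_cz A'
  have hcκ : CharZero κ := charZero_of_injective_algebraMap (algebraMap κ k).injective |> fun h => by
    exact ⟨fun x y hxy => by
      have h1 := congrArg (algebraMap κ k) hxy
      rw [map_natCast, map_natCast] at h1
      exact Nat.cast_injective h1⟩
  have hfR := pred_ft (k := κ) hR₀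
  have hcR := pred_cz (k := κ) R₀
  have hιi : Function.Injective ι := by
    intro x y hxy
    have h1 : ((x : κ) : k) = ((y : κ) : k) := by rw [← hιk, ← hιk, hxy]
    exact Subtype.ext (Subtype.ext h1)
  have hcomp : (algebraMap A' k).comp ι = (algebraMap κ k).comp (algebraMap R₀ κ) := RingHom.ext fun r => hιk r
  have hYk' : bI (algebraMap A' k) (bI ι I₀) = bI (algebraMap κ k) J := by
    rw [bI_bI, hcomp, ← bI_bI, hIJ]
  have hXk' : bI (algebraMap A' k) (cyc (bI ι I₀) (frm a') e) = cyc (bI (algebraMap κ k) J) (frm a) e := by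
    rw [bI_cyc, hYk', bI_frm]
    congr 2
    funext g
    exact ha'k g
  have hsY : IsSmoothProj (bI (algebraMap κ k) J) := hsJ.map hJ _
  obtain ⟨p₁, h₁⟩ := exists_over A A' (Subalgebra.inclusion hle).toRingHom (Subalgebra.inclusion_injective hle)
  obtain ⟨p₂, h₂⟩ := opp_upd (Subalgebra.inclusion hle).toRingHom hIY (algebraMap A k) Subtype.val_injective
    (hYk.symm ▸ hsY)
  obtain ⟨p₃, h₃⟩ := dc_core ι hιi hI₀ a' hinj (algebraMap A' k) Subtype.val_injective (hYk'.symm ▸ hsY)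
    (hXk'.symm ▸ hsX) fun κ₀ _ _ _ ψ₀ hψ₀ => hkey R₀ I₀ hI₀ hR₀ hIJ κ₀ ψ₀ hψ₀
  refine ⟨p₁ + p₂ + p₃ + 1, fun p hp hpr hpE 𝔓 h𝔓 hopp => ?_⟩
  obtain ⟨𝔓', h𝔓', hc⟩ := h₁ p hpr (by omega) 𝔓 h𝔓
  have hpr' : 𝔓'.IsPrime := h𝔓'.1.1
  have h4 := h₂ p hpr (by omega) 𝔓 h𝔓 𝔓' h𝔓' hc hopp
  rw [hYe] at h4
  rw [← hc]
  refine opp_down _ hIX ?_
  rw [hXe]
  intro K _ φ hk hfr
  exact h₃ p (by omega) hpr hpE 𝔓' h𝔓' K φ hk hfr (h4 K φ hk hfr)

end MPadcDC
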