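import Pool.Agent.Lib.MP_adc574_ag_DC.CKey
import Pool.Agent.Lib.MP_adc574_ag_DC.PDom
import Pool.Agent.Lib.MP_adc574_ag_DC.PRed1

/-!
# JOB PTop: the final theorem of Part P

`hkey_of`: for `R₀ ≤ κ` f.g., `I₀` with `bI I₀ = J`, `ψ₀ : R₀ → κ₀` injective: `bI ψ₀ I₀` is prime (`isPrime_bI` for `j : R₀ → κ → k`), smooth (`smooth_bI`), contains not all `X l` (`x_notMem`), so `keypos_cyc`.
`oppRel_cyc`: `oppRel_cyc'` with `hkey_of`, `cyc_smoothP` (`J` is prime: `comap_bI`; `NeZero e` from `2 ≤ e`).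
-/

set_option autoImplicit false

namespace MPadcDC

open MvPolynomial MPadcGP

universe u v w

theorem oppRel_cyc {k : Type u} [Field k] [IsAlgClosed k] [CharZero k] (κ : Subfield k) {n e : ℕ} (he2 : 2 ≤ e)
    {J : Ideal (MvPolynomial (Fin n) κ)} (hJ : IsHomog J) (hsJ : IsSmoothProj J)
    (hpr : (bI (algebraMap κ k) J).IsPrime) (hX : ∃ l, (X l : MvPolynomial (Fin n) k) ∉ bI (algebraMap κ k) J)
    (a : Mon n e → k) (ha : AlgebraicIndependent κ a) :
    OppRel (bI (algebraMap κ k) J) (cyc (bI (algebraMap κ k) J) (frm a) e) e := by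
  have hne : NeZero e := ⟨by omega⟩
  have hcκ : CharZero κ := ⟨fun x y hxy => by
      have h1 := congrArg (algebraMap κ k) hxy
      rw [map_natCast, map_natCast] at h1
      exact Nat.cast_injective h1⟩
  have hJp : J.IsPrime := by
    rw [← comap_bI (algebraMap κ k) J]
    exact Ideal.IsPrime.comap _
  obtain ⟨l, hl⟩ := hX
  have hlJ : (X l : MvPolynomial (Fin n) κ) ∉ J := by
    intro h
    apply hl
    have h1 := Ideal.mem_map_of_mem (MvPolynomial.map (algebraMap κ k)) h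
    rw [map_X] at h1
    exact h1
  refine oppRel_cyc' κ hJ hsJ ?_ a ha (cyc_smoothP he2 hJ hJp hsJ ⟨l, hlJ⟩ a ha)
  intro R₀ I₀ hI₀ hR₀ hIJ κ₀ _ _ _ ψ₀ hψ₀
  have hfR := pred_ft (k := κ) hR₀
  have hcR := pred_cz (k := κ) R₀
  have hji : Function.Injective ((algebraMap κ k).comp (algebraMap R₀ κ)) :=
    (algebraMap κ k).injective.comp Subtype.val_injective
  have hIk : bI ((algebraMap κ k).comp (algebraMap R₀ κ)) I₀ = bI (algebraMap κ k) J := by
    rw [← bI_bI, hIJ]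
  exact keypos_cyc he2 (hI₀.map ψ₀) (isPrime_bI _ hji (hIk.symm ▸ hpr) ψ₀ hψ₀)
    (smooth_bI hI₀ _ hji (hIk.symm ▸ hsJ.map hJ _) ψ₀ hψ₀) ⟨l, x_notMem _ hji (hIk.symm ▸ hl) ψ₀ hψ₀⟩

end MPadcDC
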