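import Pool.Agent.Lib.MP_adc574_ag_GM.Ultra

/-!
# JOB PUlt: `κ(X_s)` is algebraically closed in the ultraproduct of the `κ_i(X_s)`, `κ = Ult κ_i`

This is HM/UltAlg.lean (complete, one variable, `exists_ultRat`: copy its structure) for finitely many variables `σ`.
`c : Ult U κ → Ult U (Frac κ_i[X])` induced by the inclusions, `ev = eval₂Hom c (fun s => ultMk (fun _ => X s))`. A polynomial over `Ult U κ` of total degree
`≤ N` is `∑_{m ∈ support} C (ultMk (a m)) X ^ m`; `ev` of it is `ultMk (∑ a m i X ^ m)`. Injective: if the class of the family `∑_{m ∈ T} a_m,i X ^ m` (`T` a fixed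
finite set of exponents) is `0` then for almost all `i` all `a_m,i = 0`.
Algebraically closed: clear denominators (as in UltAlg): it is enough that `z` integral over `(Ult U κ)[X_s]` is in the range of `ev`. Let `z = ultMk (z_i)`,
`z ^ m + ∑_{s<m} q_s z ^ s = 0`, the `q_s` of total degree `≤ N` with exponents in the finite set `T_N` of all exponents of degree `≤ N`
(`Finset` of `σ →₀ ℕ`: `Finsupp` with sum `≤ N`; e.g. the image of `Fintype.piFinset (fun _ => range (N+1))`). For almost all `i`: `z_i` is integral over `κ_i[X_s]`, so a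
polynomial (`IsIntegrallyClosed`: `MvPolynomial` over a field is a UFD), of total degree `≤ N` (`MvPolynomial.totalDegree_mul_of_isDomain`, `totalDegree_pow`:
otherwise `z_i ^ m` has larger total degree than all other terms). So `z_i = ∑_{m ∈ T_N} z_m,i X ^ m`.
-/

set_option autoImplicit false

namespace MPadcDC

open MPadcGM

universe u

section

open MvPolynomial

variable {ι : Type} (U : Ultrafilter ι) (σ : Type) (κ : ι → Type u) [∀ i, Field (κ i)]
  (L : ι → Type u) [∀ i, Field (L i)] [∀ i, Algebra (MvPolynomial σ (κ i)) (L i)]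

/-- The homomorphism from the ultraproduct of the `κ_i`. -/
private noncomputable def PUlt_c : Ult U κ →+* Ult U L :=
  Ideal.Quotient.lift (ultI U κ)
    ((ultMk U L).comp
      (RingHom.pi fun i => ((algebraMap (MvPolynomial σ (κ i)) (L i)).comp C).comp (Pi.evalRingHom κ i)))
    (by
      intro a ha
      have ha' : ∀ᶠ i in (U : Filter ι), a i = 0 := ha
      rw [RingHom.comp_apply, ultMk_eq_zero]
      filter_upwards [ha'] with i hi
      change algebraMap (MvPolynomial σ (κ i)) (L i) (C (a i)) = 0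
      rw [hi, map_zero, map_zero])

private theorem PUlt_c_mk (x : ∀ i, κ i) : PUlt_c U σ κ L (ultMk U κ x) =
    ultMk U L fun i => algebraMap (MvPolynomial σ (κ i)) (L i) (C (x i)) := rfl

/-- Families of polynomials. -/
private noncomputable def PUlt_F : (∀ i, MvPolynomial σ (κ i)) →+* Ult U L :=
  (ultMk U L).comp (RingHom.pi fun i => (algebraMap (MvPolynomial σ (κ i)) (L i)).comp
    (Pi.evalRingHom (fun i => MvPolynomial σ (κ i)) i))

private theorem PUlt_F_apply (p : ∀ i, MvPolynomial σ (κ i)) :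
    PUlt_F U σ κ L p = ultMk U L fun i => algebraMap (MvPolynomial σ (κ i)) (L i) (p i) := rfl

/-- The evaluation. -/
private noncomputable def PUlt_ev : MvPolynomial σ (Ult U κ) →+* Ult U L :=
  eval₂Hom (PUlt_c U σ κ L) fun s => ultMk U L fun i => algebraMap (MvPolynomial σ (κ i)) (L i) (X s)

private theorem PUlt_ev_sum (T : Finset (σ →₀ ℕ)) (a : (σ →₀ ℕ) → ∀ i, κ i) :
    PUlt_ev U σ κ L (∑ m ∈ T, monomial m (ultMk U κ (a m))) =
      PUlt_F U σ κ L (fun i => ∑ m ∈ T, monomial m (a m i)) := by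
  have h1 : (fun i => ∑ m ∈ T, monomial m (a m i) : ∀ i, MvPolynomial σ (κ i)) =
      ∑ m ∈ T, (fun i => C (a m i)) * m.prod fun s e => (fun _ => X s) ^ e := by
    funext i
    rw [Finset.sum_apply]
    refine Finset.sum_congr rfl fun m _ => ?_
    rw [monomial_eq, Pi.mul_apply, Finsupp.prod, Finsupp.prod, Finset.prod_apply]
    rfl
  rw [h1, map_sum, map_sum]
  refine Finset.sum_congr rfl fun m _ => ?_
  have h2 : PUlt_ev U σ κ L (monomial m (ultMk U κ (a m))) = PUlt_c U σ κ L (ultMk U κ (a m)) *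
      m.prod fun s e => (ultMk U L fun i => algebraMap (MvPolynomial σ (κ i)) (L i) (X s)) ^ e :=
    eval₂_monomial _ _
  rw [h2, map_mul, PUlt_c_mk, PUlt_F_apply, Finsupp.prod, Finsupp.prod, map_prod]
  congr 1
  refine Finset.prod_congr rfl fun s _ => ?_
  rw [map_pow, PUlt_F_apply]

private theorem PUlt_rep (P : MvPolynomial σ (Ult U κ)) (T : Finset (σ →₀ ℕ)) (hT : P.support ⊆ T) :
    ∃ a : (σ →₀ ℕ) → ∀ i, κ i, P = ∑ m ∈ T, monomial m (ultMk U κ (a m)) := by
  refine ⟨fun m => Function.surjInv (ultMk_surjective U κ) (coeff m P), ?_⟩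
  have h1 : ∀ m, ultMk U κ (Function.surjInv (ultMk_surjective U κ) (coeff m P)) = coeff m P :=
    fun m => Function.surjInv_eq (ultMk_surjective U κ) _
  have h2 : ∑ m ∈ T, monomial m (ultMk U κ (Function.surjInv (ultMk_surjective U κ) (coeff m P))) =
      ∑ m ∈ P.support, monomial m (coeff m P) := by
    rw [Finset.sum_congr rfl fun m _ => congrArg (monomial m) (h1 m)]
    symm
    refine Finset.sum_subset hT fun m _ hm => ?_
    rw [notMem_support_iff.1 hm, map_zero]
  rw [h2]
  exact P.as_sum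

variable [∀ i, IsFractionRing (MvPolynomial σ (κ i)) (L i)]

private theorem PUlt_F_eq_zero (p : ∀ i, MvPolynomial σ (κ i)) :
    PUlt_F U σ κ L p = 0 ↔ ∀ᶠ i in (U : Filter ι), p i = 0 := by
  rw [PUlt_F_apply, ultMk_eq_zero]
  constructor
  · intro h
    filter_upwards [h] with i hi
    exact (map_eq_zero_iff _ (IsFractionRing.injective (MvPolynomial σ (κ i)) (L i))).1 hi
  · intro h
    filter_upwards [h] with i hi
    rw [hi, map_zero]

private theorem PUlt_ev_inj : Function.Injective (PUlt_ev U σ κ L) := by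
  classical
  rw [injective_iff_map_eq_zero]
  intro P hP
  obtain ⟨a, hPa⟩ := PUlt_rep U σ κ P P.support (Finset.Subset.refl _)
  obtain ⟨T, hT⟩ : ∃ T, T = P.support := ⟨_, rfl⟩
  rw [← hT] at hPa
  rw [hPa, PUlt_ev_sum, PUlt_F_eq_zero] at hP
  rw [hPa]
  refine Finset.sum_eq_zero fun m hm => ?_
  have h0 : ultMk U κ (a m) = 0 := by
    rw [ultMk_eq_zero]
    filter_upwards [hP] with i hi
    have h1 := congrArg (coeff m) hi
    rw [coeff_sum, coeff_zero, Finset.sum_eq_single m] at h1
    · rw [coeff_monomial, if_pos rfl] at h1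
      exact h1
    · intro b _ hb
      rw [coeff_monomial, if_neg hb]
    · intro h
      exact absurd hm h
  rw [h0, map_zero]

private theorem PUlt_deg {k : Type u} [Field k] (N m : ℕ) (q : ℕ → MvPolynomial σ k)
    (hq : ∀ s, (q s).totalDegree ≤ N) (p : MvPolynomial σ k)
    (h : p ^ m + ∑ s ∈ Finset.range m, q s * p ^ s = 0) : p.totalDegree ≤ N := by
  by_contra hp
  push Not at hp
  have hm : m ≠ 0 := by
    rintro rfl
    simp at h
  have h1 : p ^ m = -∑ s ∈ Finset.range m, q s * p ^ s := eq_neg_of_add_eq_zero_left h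
  have hp0 : p ≠ 0 := by
    rintro rfl
    simp at hp
  have hpow : ∀ n : ℕ, (p ^ n).totalDegree = n * p.totalDegree := by
    intro n
    induction n with
    | zero => simp
    | succ n ih =>
      rw [pow_succ, totalDegree_mul_of_isDomain (pow_ne_zero n hp0) hp0, ih]
      ring
  have h2 : (p ^ m).totalDegree ≤ N + (m - 1) * p.totalDegree := by
    rw [h1, totalDegree_neg]
    refine totalDegree_finsetSum_le fun s hs => ?_
    have hs' : s ≤ m - 1 := by
      have := Finset.mem_range.1 hs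
      omega
    refine (totalDegree_mul _ _).trans ?_
    rw [hpow]
    exact Nat.add_le_add (hq s) (Nat.mul_le_mul_right _ hs')
  rw [hpow] at h2
  obtain ⟨n, rfl⟩ : ∃ n, m = n + 1 := ⟨m - 1, by omega⟩
  rw [Nat.add_sub_cancel, add_mul, one_mul] at h2
  omega

private theorem PUlt_T [Finite σ] (N : ℕ) : ∃ T : Finset (σ →₀ ℕ), (∀ (R : Type u) [CommRing R]
    (p : MvPolynomial σ R), p.totalDegree ≤ N → p.support ⊆ T) := by
  classical
  refine ⟨Finset.Iic (Finsupp.equivFunOnFinite.symm fun _ => N), fun R _ p hp m hm => ?_⟩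
  rw [Finset.mem_Iic]
  intro s
  change m s ≤ N
  have h1 := le_totalDegree hm
  by_cases hs : m s = 0
  · omega
  · have h2 : m s ≤ m.sum fun _ e => e :=
      Finset.single_le_sum (f := fun s => m s) (fun _ _ => Nat.zero_le _) (Finsupp.mem_support_iff.2 hs)
    omega

private theorem PUlt_int [Finite σ] (Q : Polynomial (MvPolynomial σ (Ult U κ))) (hQ : Q.Monic)
    (z : Ult U L) (hz : Q.eval₂ (PUlt_ev U σ κ L) z = 0) : z ∈ (PUlt_ev U σ κ L).range := by
  classical
  obtain ⟨w, rfl⟩ := ultMk_surjective U L z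
  obtain ⟨T, hT⟩ : ∃ T : Finset (σ →₀ ℕ), ∀ s ∈ Finset.range Q.natDegree, (Q.coeff s).support ⊆ T :=
    ⟨(Finset.range Q.natDegree).biUnion fun s => (Q.coeff s).support,
      fun s hs => Finset.subset_biUnion_of_mem (fun s => (Q.coeff s).support) hs⟩
  obtain ⟨N, hN⟩ : ∃ N : ℕ, ∀ m ∈ T, (m.sum fun _ e => e) ≤ N :=
    ⟨T.sup fun m => m.sum fun _ e => e, fun m hm => Finset.le_sup (f := fun m : σ →₀ ℕ => m.sum fun _ e => e) hm⟩
  have hrep : ∀ s, ∃ a : (σ →₀ ℕ) → ∀ i, κ i, s ∈ Finset.range Q.natDegree →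
      PUlt_ev U σ κ L (Q.coeff s) = PUlt_F U σ κ L (fun i => ∑ m ∈ T, monomial m (a m i)) := by
    intro s
    by_cases hs : s ∈ Finset.range Q.natDegree
    · obtain ⟨a, ha⟩ := PUlt_rep U σ κ (Q.coeff s) T (hT s hs)
      refine ⟨a, fun _ => ?_⟩
      rw [← PUlt_ev_sum, ← ha]
    · exact ⟨fun _ _ => 0, fun h => absurd h hs⟩
  choose a ha using hrep
  let q : ℕ → ∀ i, MvPolynomial σ (κ i) := fun s i => ∑ m ∈ T, monomial m (a s m i)
  have hqdeg : ∀ s i, (q s i).totalDegree ≤ N := by
    intro s i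
    refine totalDegree_finsetSum_le fun m hm => ?_
    exact (totalDegree_monomial_le _ _).trans (hN m hm)
  have hmain : ultMk U L (fun i => w i ^ Q.natDegree +
      ∑ s ∈ Finset.range Q.natDegree, algebraMap (MvPolynomial σ (κ i)) (L i) (q s i) * w i ^ s) = 0 := by
    rw [Polynomial.eval₂_eq_sum_range, Finset.sum_range_succ, hQ.coeff_natDegree, map_one, one_mul,
      add_comm] at hz
    rw [← hz]
    have e : (fun i => w i ^ Q.natDegree +
        ∑ s ∈ Finset.range Q.natDegree, algebraMap (MvPolynomial σ (κ i)) (L i) (q s i) * w i ^ s) =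
        w ^ Q.natDegree + ∑ s ∈ Finset.range Q.natDegree,
          (fun i => algebraMap (MvPolynomial σ (κ i)) (L i) (q s i)) * w ^ s := by
      funext i
      rw [Pi.add_apply, Finset.sum_apply]
      rfl
    rw [e, map_add, map_pow, map_sum]
    congr 1
    refine Finset.sum_congr rfl fun s hs => ?_
    rw [map_mul, map_pow, ha s hs, PUlt_F_apply]
  rw [ultMk_eq_zero] at hmain
  have hex : ∀ᶠ i in (U : Filter ι), ∃ p : MvPolynomial σ (κ i),
      algebraMap (MvPolynomial σ (κ i)) (L i) p = w i ∧ p.totalDegree ≤ N := by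
    filter_upwards [hmain] with i hi
    have hint : IsIntegral (MvPolynomial σ (κ i)) (w i) := by
      refine ⟨Polynomial.X ^ Q.natDegree +
        ∑ s ∈ Finset.range Q.natDegree, Polynomial.C (q s i) * Polynomial.X ^ s, ?_, ?_⟩
      · apply Polynomial.monic_X_pow_add
        apply lt_of_le_of_lt (Polynomial.degree_sum_le _ _)
        rw [Finset.sup_lt_iff (WithBot.bot_lt_coe _)]
        intro s hs
        apply lt_of_le_of_lt (Polynomial.degree_C_mul_X_pow_le _ _)
        exact_mod_cast Finset.mem_range.1 hs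
      · rw [Polynomial.eval₂_add, Polynomial.eval₂_pow, Polynomial.eval₂_X, Polynomial.eval₂_finsetSum]
        simp only [Polynomial.eval₂_mul, Polynomial.eval₂_C, Polynomial.eval₂_pow, Polynomial.eval₂_X]
        exact hi
    obtain ⟨p, hp⟩ := IsIntegrallyClosed.algebraMap_eq_of_integral hint
    refine ⟨p, hp, ?_⟩
    refine PUlt_deg σ N Q.natDegree (fun s => q s i) (fun s => hqdeg s i) p ?_
    apply IsFractionRing.injective (MvPolynomial σ (κ i)) (L i)
    rw [map_zero, map_add, map_pow, map_sum, hp]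
    rw [← hi]
    congr 1
    refine Finset.sum_congr rfl fun s _ => ?_
    rw [map_mul, map_pow, hp]
  obtain ⟨T', hT'⟩ := PUlt_T.{u} σ N
  let p : ∀ i, MvPolynomial σ (κ i) := fun i =>
    if h : ∃ p : MvPolynomial σ (κ i), algebraMap (MvPolynomial σ (κ i)) (L i) p = w i ∧ p.totalDegree ≤ N
    then h.choose else 0
  refine ⟨∑ m ∈ T', monomial m (ultMk U κ (fun i => coeff m (p i))), ?_⟩
  rw [PUlt_ev_sum U σ κ L T' (fun m i => coeff m (p i)), PUlt_F_apply, ultMk_eq]
  filter_upwards [hex] with i hi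
  have hpi : p i = hi.choose := dif_pos hi
  obtain ⟨h1, h2⟩ := hi.choose_spec
  rw [← hpi] at h1 h2
  rw [← h1]
  congr 1
  have h3 : ∑ m ∈ (p i).support, monomial m (coeff m (p i)) = ∑ m ∈ T', monomial m (coeff m (p i)) := by
    refine Finset.sum_subset (hT' _ _ h2) fun m _ hm => ?_
    rw [notMem_support_iff.1 hm, map_zero]
  rw [← h3]
  exact (p i).as_sum.symm

end

theorem exists_ultMv {ι : Type} (U : Ultrafilter ι) (σ : Type) [Finite σ] (κ : ι → Type u) [∀ i, Field (κ i)]
    (L : ι → Type u) [∀ i, Field (L i)] [∀ i, Algebra (MvPolynomial σ (κ i)) (L i)]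
    [∀ i, IsFractionRing (MvPolynomial σ (κ i)) (L i)]
    (K : Type u) [Field K] [Algebra (MvPolynomial σ (Ult U κ)) K] [IsFractionRing (MvPolynomial σ (Ult U κ)) K] :
    ∃ j : K →+* Ult U L,
      (∀ x : ∀ i, κ i, j (algebraMap (MvPolynomial σ (Ult U κ)) K (MvPolynomial.C (ultMk U κ x))) =
        ultMk U L fun i => algebraMap (MvPolynomial σ (κ i)) (L i) (MvPolynomial.C (x i))) ∧
      (∀ s : σ, j (algebraMap (MvPolynomial σ (Ult U κ)) K (MvPolynomial.X s)) =
        ultMk U L fun i => algebraMap (MvPolynomial σ (κ i)) (L i) (MvPolynomial.X s)) ∧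
      ∀ (y : Ult U L) (P : Polynomial K), P ≠ 0 → P.eval₂ j y = 0 → y ∈ j.range := by
  let j : K →+* Ult U L := IsFractionRing.lift (PUlt_ev_inj U σ κ L)
  have hj : ∀ P : MvPolynomial σ (Ult U κ), j (algebraMap _ _ P) = PUlt_ev U σ κ L P :=
    fun P => IsFractionRing.lift_algebraMap (PUlt_ev_inj U σ κ L) P
  refine ⟨j, ?_, ?_, ?_⟩
  · intro x
    rw [hj]
    exact MvPolynomial.eval₂_C _ _ _
  · intro s
    rw [hj]
    exact MvPolynomial.eval₂_X _ _ _
  · intro y P hP hy
    let a1 : Algebra K (Ult U L) := j.toAlgebra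
    let a2 : Algebra (MvPolynomial σ (Ult U κ)) (Ult U L) := (PUlt_ev U σ κ L).toAlgebra
    have tw : @IsScalarTower (MvPolynomial σ (Ult U κ)) K (Ult U L) Algebra.toSMul a1.toSMul a2.toSMul :=
      IsScalarTower.of_algebraMap_eq fun x => (hj x).symm
    have h1 : IsAlgebraic K y := ⟨P, hP, hy⟩
    have h2 : IsAlgebraic (MvPolynomial σ (Ult U κ)) y :=
      (IsFractionRing.isAlgebraic_iff (MvPolynomial σ (Ult U κ)) K _).2 h1
    obtain ⟨b, hb, Q, hQ, hQz⟩ := h2.exists_integral_multiple
    obtain ⟨p, hp⟩ := PUlt_int U σ κ L Q hQ (b • y) hQz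
    have hb' : PUlt_ev U σ κ L b ≠ 0 := by
      intro h
      exact hb (PUlt_ev_inj U σ κ L (by rw [h, map_zero]))
    refine ⟨algebraMap _ _ p / algebraMap _ _ b, ?_⟩
    rw [map_div₀, hj, hj, hp, Algebra.smul_def]
    change PUlt_ev U σ κ L b * y / PUlt_ev U σ κ L b = y
    rw [mul_comm, mul_div_cancel_right₀ _ hb']

theorem ult_isAlgClosed' {ι : Type} (U : Ultrafilter ι) (κ : ι → Type u) [∀ i, Field (κ i)]
    (h : ∀ i, IsAlgClosed (κ i)) : IsAlgClosed (Ult U κ) := by
  refine IsAlgClosed.of_exists_root _ fun P hP hirr => ?_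
  have hn : P.natDegree ≠ 0 := (Polynomial.natDegree_pos_iff_degree_pos.2
    (Polynomial.degree_pos_of_irreducible hirr)).ne'
  obtain ⟨n, hn'⟩ : ∃ n, n = P.natDegree := ⟨_, rfl⟩
  rw [← hn'] at hn
  choose a ha using fun l => ultMk_surjective U κ (P.coeff l)
  have hroot : ∀ i, ∃ x : κ i, x ^ n + ∑ l ∈ Finset.range n, a l i * x ^ l = 0 := by
    intro i
    have hi := h i
    have hdeg : (∑ l ∈ Finset.range n, Polynomial.C (a l i) * Polynomial.X ^ l :
        Polynomial (κ i)).degree < n := by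
      rw [Polynomial.degree_lt_iff_coeff_zero]
      intro b hb
      rw [Polynomial.finsetSum_coeff]
      refine Finset.sum_eq_zero fun l hl => ?_
      rw [Polynomial.coeff_C_mul_X_pow, if_neg]
      have := Finset.mem_range.1 hl
      omega
    obtain ⟨x, hx⟩ := IsAlgClosed.exists_root (Polynomial.X ^ n +
      ∑ l ∈ Finset.range n, Polynomial.C (a l i) * Polynomial.X ^ l : Polynomial (κ i)) (by
        rw [Polynomial.degree_add_eq_left_of_degree_lt (by rw [Polynomial.degree_X_pow]; exact hdeg),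
          Polynomial.degree_X_pow]
        exact_mod_cast hn)
    refine ⟨x, ?_⟩
    have hx' : Polynomial.eval x (Polynomial.X ^ n +
      ∑ l ∈ Finset.range n, Polynomial.C (a l i) * Polynomial.X ^ l : Polynomial (κ i)) = 0 := hx
    rw [Polynomial.eval_add, Polynomial.eval_pow, Polynomial.eval_X, Polynomial.eval_finsetSum]
      at hx'
    rw [← hx']
    congr 1
    refine Finset.sum_congr rfl fun l _ => ?_
    rw [Polynomial.eval_mul, Polynomial.eval_C, Polynomial.eval_pow, Polynomial.eval_X]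
  choose x hx using hroot
  refine ⟨ultMk U κ x, ?_⟩
  have h1 := hP.as_sum
  rw [← hn'] at h1
  rw [h1, Polynomial.eval_add, Polynomial.eval_pow, Polynomial.eval_X, Polynomial.eval_finsetSum]
  have h2 : ∀ l, Polynomial.eval (ultMk U κ x) (Polynomial.C (P.coeff l) * Polynomial.X ^ l) =
      ultMk U κ (a l * x ^ l) := by
    intro l
    rw [Polynomial.eval_mul, Polynomial.eval_C, Polynomial.eval_pow, Polynomial.eval_X, map_mul,
      map_pow, ha]
  rw [Finset.sum_congr rfl fun l _ => h2 l, ← map_pow, ← map_sum, ← map_add, ultMk_eq_zero]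
  refine Filter.Eventually.of_forall fun i => ?_
  rw [Pi.add_apply, Pi.pow_apply, Finset.sum_apply]
  exact hx i

end MPadcDC
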