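import Pool.Agent.Lib.MP_adc574_ag_DC.DefsL
import Pool.Agent.Lib.MP_adc574_ag_GP.Parts2

/-!
# JOB PWgA (with PWg2): no bad classes

`finiteType_Ra`: `Algebra.FiniteType.trans` (`MvPolynomial` over `R₀`, `R₀` over `ℤ`); all `ℤ`-algebra structures agree (`Subsingleton.elim`), as in `away_finiteType'`
(GP/Fin3a.lean).
-/

set_option autoImplicit false

namespace MPadcDC

open MvPolynomial MPadcGP

universe u v w

theorem finiteType_Ra {R₀ : Type u} [CommRing R₀] [Algebra.FiniteType ℤ R₀] (n e : ℕ) :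
    @Algebra.FiniteType ℤ (Ra R₀ n e) _ _ (Ring.toIntAlgebra _) := by
  have h : Algebra.FiniteType R₀ (Ra R₀ n e) := inferInstance
  have h1 : Algebra.FiniteType ℤ (Ra R₀ n e) := Algebra.FiniteType.trans (S := R₀) inferInstance h
  have e : ∀ i j : Algebra ℤ (Ra R₀ n e), i = j := fun i j => Subsingleton.elim i j
  rw [e (Ring.toIntAlgebra _) _]
  exact h1

/-- No bad class of weight `μ`. -/
def NoBad {L : Type u} [Field L] {N : ℕ} {M : Type} [AddCommGroup M] [Fintype M] [DecidableEq M] {wt : Fin N → M}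
    {Q : Ideal (MvPolynomial (Fin N) L)} (hQ : IsHomog Q) (hw : IsWHomog wt Q) (m i : ℕ) (μ : M) : Prop :=
  ∀ x : (prC Q).HdR m, x ∈ (prC Q).Con m i → x ∈ (prC Q).Fil m (i + 1) → x ∈ (grP hQ hw).HW m μ → x = 0

theorem noBad_congr {L : Type u} [Field L] {N : ℕ} {M : Type} [AddCommGroup M] [Fintype M] [DecidableEq M]
    {wt : Fin N → M} {Q Q' : Ideal (MvPolynomial (Fin N) L)} (h : Q = Q') (hQ : IsHomog Q) (hw : IsWHomog wt Q)
    (hQ' : IsHomog Q') (hw' : IsWHomog wt Q') (m i : ℕ) (μ : M) (hb : NoBad hQ hw m i μ) : NoBad hQ' hw' m i μ := by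
  subst h
  exact hb

end MPadcDC
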