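import Pool.Agent.Lib.MP_adc574_ag_DC.PNof
import Pool.Agent.Lib.MP_adc574_ag_DC.PFun
import Pool.Agent.Lib.MP_adc574_ag_DC.PPB
import Pool.Agent.Lib.MP_adc574_ag_DC.PWgA

/-!
# JOB PWg1: one weight `μ ≠ 0` is opposite for large `p`

By contradiction, like the end of `abs_core` in GP/Fin5.lean: let `r = g.coeff γ₀ ≠ 0`. For every `t` take a counterexample `p t ≥ t + N r + 1`, `κ t`, `ψ t`, `L t`,
`x t ≠ 0` (`choose`). `map (ψ t) g ≠ 0` since `ψ t r ≠ 0`. `exists_phi (ψ t) g _ B (L t)` gives `φ t`, `exists_derMv` gives `DL t`, `CharP (L t) (p t)`: `charP_ratfun`,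
the `p`-basis of `L t`: `exists_pbas_ratfun`. `bI (φ t) (bI (algebraMap (Ra R₀ n e) B) (cycG I₀ e)) = bI ((algebraMap (Ra (κ t) n e) (L t)).comp (map (ψ t))) (cycG I₀ e)`
(`bI_bI`, first property of `φ t`): transport `x t` along the equality of ideals (`noBad_congr`). `x t = crd x'` (`IsAdW.exists_crd`, GP/Parts2.lean, for `hDat.ad (L t) (φ t)`), `x' ∈ con` (by definition, GP/Parts2.lean),
`x'` vanishes on the levels `< i + 1` (`crd_mem_Fil`), `x' ≠ 0`. `exists_fun` (`p • μ = μ`: `nsmul_eq_mul`, `(p : ZMod e) = 1`) gives `c t`, `ν t`. Then `no_family` with `U = Filter.hyperfilter ℕ`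
(`Filter.hyperfilter_le_cofinite`, `Nat.cofinite_eq_atTop`, `Filter.eventually_gt_atTop`).
`D γ` on `B`: `exists_derLoc g B (dR R₀ γ)`; `V γ`, `G γ`: `exists_G`.
-/

set_option autoImplicit false

namespace MPadcDC

open MvPolynomial MPadcGP MPadcGM

universe u v w

theorem weight_large_one {R₀ : Type u} [CommRing R₀] [IsDomain R₀] {n e : ℕ} [NeZero e]
    {I₀ : Ideal (MvPolynomial (Fin n) R₀)} (hI₀ : IsHomog I₀)
    (hkey : ∀ (κ₀ : Type u) [Field κ₀] [IsAlgClosed κ₀] [CharZero κ₀] (ψ₀ : R₀ →+* κ₀), Function.Injective ψ₀ →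
      KeyPos e (hI₀.map ψ₀))
    (g : Ra R₀ n e) (hg : g ≠ 0) (B : Type u) [CommRing B] [IsDomain B] [CharZero B] [Algebra.FiniteType ℤ B]
    [Algebra (Ra R₀ n e) B] [IsLocalization.Away g B]
    (hs : IsSmoothProj (bI (algebraMap (Ra R₀ n e) B) (cycG I₀ e)))
    {β : ℕ × ZMod e → Type} [∀ a, Fintype (β a)] [∀ a, DecidableEq (β a)]
    {lev : ∀ a, β a → ℕ} {z : ∀ a, β a → (prC (bI (algebraMap (Ra R₀ n e) B) (cycG I₀ e))).Ch}
    {h : ℕ → ℕ → ℕ}
    (hDat : DatW ((isHomog_cycG hI₀).map (algebraMap (Ra R₀ n e) B))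
      ((isWHomog_cycG hI₀).map (algebraMap (Ra R₀ n e) B)) lev z h)
    (N : R₀ → ℕ) (m i : ℕ) (μ : ZMod e) (hμ : μ ≠ 0) :
    ∃ p₀ : ℕ, ∀ p : ℕ, p₀ ≤ p → p.Prime → (p : ZMod e) = 1 → ∀ (κ : Type u) [Field κ] [IsAlgClosed κ] [CharP κ p]
      (ψ : R₀ →+* κ), (∀ r : R₀, r ≠ 0 → N r < p → ψ r ≠ 0) → ∀ (L : Type u) [Field L] [Algebra (Ra κ n e) L]
      [IsFractionRing (Ra κ n e) L], NoBad
        ((isHomog_cycG hI₀).map ((algebraMap (Ra κ n e) L).comp (MvPolynomial.map ψ)))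
        ((isWHomog_cycG hI₀).map ((algebraMap (Ra κ n e) L).comp (MvPolynomial.map ψ))) m i μ := by
  classical
  obtain ⟨γ₀, hγ₀⟩ : ∃ γ₀, MvPolynomial.coeff γ₀ g ≠ 0 := by
    by_contra hne
    push Not at hne
    exact hg (MvPolynomial.ext _ _ fun m => by rw [hne m, MvPolynomial.coeff_zero])
  obtain ⟨r, hr⟩ : ∃ r, r = MvPolynomial.coeff γ₀ g := ⟨_, rfl⟩
  have hr0 : r ≠ 0 := hr ▸ hγ₀
  by_contra hcon
  push Not at hcon
  choose p hple hpr hpe κ iF iA iC ψ hψ L iL iLa iLf hbad using fun t : ℕ => hcon (t + N r + 1)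
  -- the homomorphisms
  have hmap : ∀ t, (MvPolynomial.map (ψ t) g : Ra (κ t) n e) ≠ 0 := by
    intro t h
    have h1 := congrArg (MvPolynomial.coeff γ₀) h
    rw [coeff_map, MvPolynomial.coeff_zero, ← hr] at h1
    exact hψ t r hr0 (by have := hple t; omega) h1
  choose φ hφ hφD using fun t => exists_phi (ψ t) g (hmap t) B (L t)
  choose DL hDL using fun t => exists_derMv (κ := κ t) (n := n) (e := e) (L t)
  choose D hD using fun γ : Mon n e => exists_derLoc g B (dR R₀ γ)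
  choose V G hV hG using fun γ => exists_G hDat hs (D γ)
  have hcL : ∀ t, CharP (L t) (p t) := fun t => charP_ratfun (κ := κ t) (σ := Mon n e) (p t) (L t)
  have hideal : ∀ t, bI ((algebraMap (Ra (κ t) n e) (L t)).comp (MvPolynomial.map (ψ t))) (cycG I₀ e) =
      bI (φ t) (bI (algebraMap (Ra R₀ n e) B) (cycG I₀ e)) := by
    intro t
    rw [bI_bI]
    congr 1
    exact (RingHom.ext (hφ t)).symm
  have hex : ∀ t, ∃ x : β (m, μ) → L t, x ∈ (hDat.ad (L t) (φ t)).con (m, μ) i ∧ x ≠ 0 ∧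
      ∀ b, lev (m, μ) b < i + 1 → x b = 0 := by
    intro t
    by_contra hne
    push Not at hne
    refine hbad t (noBad_congr (hideal t).symm (((isHomog_cycG hI₀).map (algebraMap (Ra R₀ n e) B)).map (φ t))
      (((isWHomog_cycG hI₀).map (algebraMap (Ra R₀ n e) B)).map (φ t)) _ _ m i μ ?_)
    intro y hy1 hy2 hy3
    have had := hDat.ad (L t) (φ t)
    obtain ⟨x, hx⟩ := had.exists_crd (a := (m, μ)) (x := y) hy3
    by_contra hy0
    rw [← hx] at hy1 hy2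
    obtain ⟨b, hb1, hb2⟩ := hne x hy1 (fun h => hy0 (by rw [← hx, h, map_zero]))
    have h3 := (had.crd_mem_Fil (a := (m, μ)) (i := i + 1) (c := x)).1 hy2
    exact hb2 (h3 b hb1)
  choose x hx hx0 hxl using hex
  have hpμ : ∀ t, ∀ ν : ZMod e, p t • ν = ν := fun t ν => by rw [nsmul_eq_mul, hpe t, one_mul]
  have hfun : ∀ t, ∃ (c : {b : β (m, μ) // ¬ lev (m, μ) b < i + 1} → β (m, μ) → L t)
      (ν : Mon n e → Matrix {b : β (m, μ) // ¬ lev (m, μ) b < i + 1} {b : β (m, μ) // ¬ lev (m, μ) b < i + 1} (L t)),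
      LinearIndependent (L t) c ∧
      (∀ γ v b, DL t γ (c v b) = ∑ b', c v b' * φ t (G γ (m, μ) b' b) + ∑ v', ν γ v v' * c v' b) ∧
      (Matrix.of fun v u : {b : β (m, μ) // ¬ lev (m, μ) b < i + 1} => c v u.1).det = 0 := by
    intro t
    have hfp : Fact (p t).Prime := ⟨hpr t⟩
    have hcLt := hcL t
    obtain ⟨Λ, iΛ, bb, hbb⟩ := exists_pbas_ratfun (κ := κ t) (σ := Mon n e) (p := p t) (L t)
    exact exists_fun hDat hs V hG (hpμ t) (φ t) hbb (DL t) (hφD t D hD (DL t) (hDL t)) (m, μ) i (hx t) (hx0 t) (hxl t)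
  choose c ν hc hrel hdet using hfun
  have hU : ∀ N' : ℕ, ∀ᶠ t in ((Filter.hyperfilter ℕ : Ultrafilter ℕ) : Filter ℕ), N' < t := fun N' =>
    Filter.hyperfilter_le_cofinite (by
      rw [Nat.cofinite_eq_atTop]
      exact Filter.eventually_gt_atTop N')
  refine no_family hI₀ hkey g hg B hDat D hD V hG m i μ hμ (Filter.hyperfilter ℕ) κ iA p iC hpr ?_ ψ ?_ L φ hφ DL hDL
    c hc ν hrel hdet
  · intro N'
    filter_upwards [hU N'] with t ht
    have := hple t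
    omega
  · intro r' hr'
    filter_upwards [hU (N r')] with t ht
    refine hψ t r' hr' ?_
    have := hple t
    omega

end MPadcDC
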