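import Pool.Agent.Lib.MP_adc574_ag_DC.WTwB

/-!
# Towers of generic cyclic covers over smooth toric varieties: the unconditional form
-/

set_option autoImplicit false

namespace MPadcDC

open MvPolynomial MPadcGP

universe u v w

/-- A large prime is not invertible in a finitely generated ring of characteristic `0`. -/
theorem exists_minimal {k : Type u} [Field k] [CharZero k] (A : Subalgebra ℤ k) (hA : A.FG) :
    ∃ p₀ : ℕ, ∀ p : ℕ, p.Prime → p₀ < p → ∃ 𝔓, 𝔓 ∈ (Ideal.span {(p : A)}).minimalPrimes := by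
  have hfA := pred_ft hA
  have hcA := pred_cz A
  obtain ⟨B, hB⟩ : ∃ B : Subalgebra ℤ k, B = ⊥ := ⟨_, rfl⟩
  have hBg : B.FG := hB ▸ Subalgebra.fg_bot
  have hfB := pred_ft hBg
  have hcB := pred_cz B
  have hle : B ≤ A := hB ▸ bot_le
  obtain ⟨p₀, h₀⟩ := exists_over B A (Subalgebra.inclusion hle).toRingHom (Subalgebra.inclusion_injective hle)
  refine ⟨p₀, fun p hpr hp => ?_⟩
  have h1 : Ideal.span {(p : B)} ≠ ⊤ := by
    intro h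
    rw [Ideal.span_singleton_eq_top] at h
    obtain ⟨c, hc⟩ := h.exists_right_inv
    have h2 : (c : k) ∈ (⊥ : Subalgebra ℤ k) := hB ▸ c.2
    obtain ⟨m, hm⟩ := Algebra.mem_bot.1 h2
    have h3 : ((p : ℤ) * m : ℤ) = 1 := by
      have h4 : (((p : ℤ) * m : ℤ) : k) = ((1 : ℤ) : k) := by
        have h5 := congrArg (fun x : B => (x : k)) hc
        rw [Int.cast_mul, Int.cast_natCast, Int.cast_one]
        have h6 : (m : k) = (c : k) := hm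
        rw [h6]
        exact h5
      exact Int.cast_injective h4
    have h4 : IsUnit (p : ℤ) := IsUnit.of_mul_eq_one m h3
    exact (Nat.prime_iff_prime_int.1 hpr).not_unit h4
  obtain ⟨𝔓, h𝔓⟩ := Ideal.nonempty_minimalPrimes h1
  obtain ⟨𝔔, h𝔔, -⟩ := h₀ p hpr hp 𝔓 h𝔓
  exact ⟨𝔔, h𝔔⟩

/-- Towers over smooth toric varieties, internal form. -/
theorem tower_toric {k : Type u} [Field k] [IsAlgClosed k] [CharZero k] {n₀ : ℕ} (κ₀ : Subfield k)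
    {I₀ : Ideal (MvPolynomial (Fin n₀) κ₀)} (h₀ : IsHomog I₀) (hs₀ : IsSmoothProj (bI (algebraMap κ₀ k) I₀))
    (hp₀ : (bI (algebraMap κ₀ k) I₀).IsPrime)
    (hpt : ∃ l, ¬ Function.Surjective (algebraMap k (chart (bI (algebraMap κ₀ k) I₀) {l}))) (hb₀ : Binomial I₀)
    {E : ℕ} {κ : Subfield k} {n : ℕ} {I : Ideal (MvPolynomial (Fin n) k)}
    (hT : Tower κ₀ (bI (algebraMap κ₀ k) I₀) E κ n I) (A : Subalgebra ℤ k) (hA : A.FG)
    (X : Ideal (MvPolynomial (Fin n) A)) (hX : IsHomog X) (hXk : bI (algebraMap A k) X = I) :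
    ∃ p₀ : ℕ, ∀ p : ℕ, p₀ ≤ p → p.Prime → (p : ZMod E) = 1 →
      ∀ 𝔓 ∈ (Ideal.span {(p : A)}).minimalPrimes, IsOpenOrd X 𝔓 := by
  obtain ⟨l, hl⟩ := hpt
  have hg : Geo (bI (algebraMap κ₀ k) I₀) := ⟨h₀.map _, hp₀, hs₀, l, x_notMem_of_np hl, hl⟩
  have hti : TInv κ₀ (bI (algebraMap κ₀ k) I₀) := ⟨⟨I₀, h₀, rfl⟩, hg⟩
  have hI := tower_inv hti hT
  have hrel := tower_opp hti hT
  have hfA := pred_ft hA
  have hcA := pred_cz A
  obtain ⟨A', hle, hA', Y', hY', hYk'⟩ := exists_modelY (h₀.map (algebraMap κ₀ k)) A hA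
  have hfA' := pred_ft hA'
  have hcA' := pred_cz A'
  have hcomp : (algebraMap A' k).comp (Subalgebra.inclusion hle).toRingHom = algebraMap A k := rfl
  obtain ⟨p₁, h₁⟩ := exists_over A A' (Subalgebra.inclusion hle).toRingHom (Subalgebra.inclusion_injective hle)
  obtain ⟨p₂, h₂⟩ := binom_opp (hb₀.map (algebraMap κ₀ k)) (h₀.map _) hs₀ A' hA' Y' hY' hYk'
  obtain ⟨p₃, h₃⟩ := hrel A' hA' Y' (bI (Subalgebra.inclusion hle).toRingHom X) hY' (hX.map _) hYk'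
    (by rw [bI_bI, hcomp, hXk])
  obtain ⟨p₄, h₄⟩ := open_iff_opp hX (algebraMap A k) Subtype.val_injective (hXk.symm ▸ hI.geo.smooth)
  refine ⟨p₁ + p₂ + p₃ + p₄ + 1, fun p hp hpr hpE 𝔓 h𝔓 => ?_⟩
  obtain ⟨𝔓', h𝔓', hc⟩ := h₁ p hpr (by omega) 𝔓 h𝔓
  have hpr' : 𝔓'.IsPrime := h𝔓'.1.1
  refine (h₄ p hpr (by omega) 𝔓 h𝔓).2 ?_
  rw [← hc]
  exact opp_down _ hX (h₃ p (by omega) hpr hpE 𝔓' h𝔓' (h₂ p (by omega) hpr 𝔓' h𝔓'))

end MPadcDC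

namespace OrdRed

open MvPolynomial MPadcGP MPadcDC

universe u

/-- Towers over smooth toric varieties (projective spaces, products of projective spaces, …) have ordinary reduction
at the generic points of all large characteristics `p = 1 mod E`; so the closed points with ordinary fibre are dense. -/
theorem toric_final {k : Type u} [Field k] [IsAlgClosed k] [CharZero k] {n₀ : ℕ} (κ₀ : Subfield k)
    (I₀ : Ideal (MvPolynomial (Fin n₀) κ₀)) (h₀ : Homogeneous I₀) (hs₀ : SmoothProj (change I₀ (algebraMap κ₀ k)))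
    (hp₀ : (change I₀ (algebraMap κ₀ k)).IsPrime)
    (hpt : ∃ l, ¬ Function.Surjective (algebraMap k (Fun (change I₀ (algebraMap κ₀ k)) {l}))) (hb₀ : Binomial I₀)
    {E : ℕ} {κ : Subfield k} {n : ℕ} {I : Ideal (MvPolynomial (Fin n) k)}
    (hT : Tower κ₀ (change I₀ (algebraMap κ₀ k)) E κ n I)
    (A : Subalgebra ℤ k) (hA : A.FG) (X : Ideal (MvPolynomial (Fin n) A)) (hX : Homogeneous X)
    (hXk : change X (algebraMap A k) = I) (b : A) (hb : b ≠ 0) :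
    ∃ p₀ : ℕ, ∀ p : ℕ, p₀ ≤ p → p.Prime → (p : ZMod E) = 1 →
      HasOrdinaryFibre X b p ∧ ∀ 𝔓 ∈ (Ideal.span {(p : A)}).minimalPrimes, ∃ f ∉ 𝔓, ∀ 𝔫 : Ideal A, 𝔫.IsMaximal →
        𝔓 ≤ 𝔫 → f ∉ 𝔫 →
          SmoothProj (change X (Ideal.Quotient.mk 𝔫)) ∧ (proj (change X (Ideal.Quotient.mk 𝔫))).Ordinary := by
  have hfA := pred_ft hA
  have hcA := pred_cz A
  obtain ⟨p₁, h₁⟩ := tower_toric κ₀ h₀ hs₀ hp₀ hpt hb₀ hT A hA X hX hXk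
  obtain ⟨p₂, h₂⟩ := exists_minimal A hA
  obtain ⟨BA, hBA⟩ := exists_resB A
  refine ⟨p₁ + p₂ + BA 0 + BA b + 1, fun p hp hpr hpE => ?_⟩
  have hfact : Fact p.Prime := ⟨hpr⟩
  have h3 : ∀ 𝔓 ∈ (Ideal.span {(p : A)}).minimalPrimes, ∃ f ∉ 𝔓, ∀ 𝔫 : Ideal A, 𝔫.IsMaximal →
      𝔓 ≤ 𝔫 → f ∉ 𝔫 →
        SmoothProj (change X (Ideal.Quotient.mk 𝔫)) ∧ (proj (change X (Ideal.Quotient.mk 𝔫))).Ordinary := by
    intro 𝔓 h𝔓
    obtain ⟨f, hf, h4⟩ := h₁ p (by omega) hpr hpE 𝔓 h𝔓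
    refine ⟨f, hf, fun 𝔫 h𝔫 hle' hf' => ?_⟩
    obtain ⟨h5, h6⟩ := h4 𝔫 h𝔫 hle' hf'
    exact ⟨h5, (ordinary_proj_iff _).2 h6⟩
  refine ⟨?_, h3⟩
  obtain ⟨𝔓, h𝔓⟩ := h₂ p hpr (by omega)
  have hpr𝔓 : 𝔓.IsPrime := h𝔓.1.1
  obtain ⟨f, hf, h4⟩ := h3 𝔓 h𝔓
  have hb𝔓 : b ∉ 𝔓 := by
    obtain ⟨-, -, hne, -⟩ := hBA p hpr (by omega) 𝔓 h𝔓 _ _ (frac_ker 𝔓) (frac_surj 𝔓)
    intro h
    refine hne b hb (by omega) ?_
    rw [← RingHom.mem_ker, frac_ker 𝔓]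
    exact h
  have hp𝔓 : (p : A) ∈ 𝔓 := h𝔓.1.2 (Ideal.mem_span_singleton_self _)
  obtain ⟨𝔪, h𝔪, hle, hfm⟩ := exists_max_not_mem (p := p) 𝔓 hp𝔓 (f * b)
    (fun h => (hpr𝔓.mem_or_mem h).elim hf hb𝔓)
  obtain ⟨h5, h6⟩ := h4 𝔪 h𝔪 hle fun h => hfm (Ideal.mul_mem_right _ _ h)
  exact ⟨𝔪, h𝔪, fun h => hfm (Ideal.mul_mem_left _ _ h), hle hp𝔓, h5, h6⟩

end OrdRed
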