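import Mathlib

/-!
# Binomial ideals: definition
-/

set_option autoImplicit false

namespace MPadcDC

open MvPolynomial

universe u

/-- The ideal is generated by differences of monomials. -/
def Binomial {A : Type u} [CommRing A] {n : ℕ} (I : Ideal (MvPolynomial (Fin n) A)) : Prop :=
  ∃ S : Set ((Fin n →₀ ℕ) × (Fin n →₀ ℕ)), I = Ideal.span ((fun s => monomial s.1 (1 : A) - monomial s.2 1) '' S)

end MPadcDC
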