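import Pool.Agent.Lib.MP_adc574_ag_DC.WTwD
import Pool.Agent.Lib.MP_adc574_ag_DC.WBiD
import Pool.Agent.Lib.MP_adc574_ag_GP.Def

/-!
# Towers of generic cyclic covers: further definitions used in the statement

`SmoothVariety`, `DefinedOver`, `Model`, `fibre`. The towers are defined in the file WTwD (`Tower`; `cyc`, `frm`, `Mon` in
DefsL and `ver` in WVeD), `Homogeneous`, `SmoothProj`, `proj`, `Fun`, `change`, `Cover.Ordinary` in GP/Def.
-/

set_option autoImplicit false

namespace OrdRed

open MvPolynomial

universe u

/-- The projective scheme over the field `k` with the homogeneous ideal `I` is smooth and integral (`I` is prime), and it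
is not a point: on an affine open set `x_l ≠ 0` there are functions which are not constant. -/
structure SmoothVariety {k : Type u} [Field k] {n : ℕ} (I : Ideal (MvPolynomial (Fin n) k)) : Prop where
  homog : Homogeneous I
  prime : I.IsPrime
  smooth : SmoothProj I
  notPoint : ∃ l, ¬ Function.Surjective (algebraMap k (Fun I {l}))

/-- `I` is the base change of a homogeneous ideal over the subfield `κ`. -/
def DefinedOver {k : Type u} [Field k] (κ : Subfield k) {n : ℕ} (I : Ideal (MvPolynomial (Fin n) k)) : Prop :=
  ∃ J : Ideal (MvPolynomial (Fin n) κ), Homogeneous J ∧ change J (algebraMap κ k) = I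

/-- The projective scheme over the subring `A` with the ideal `X` is a model of the projective scheme with the ideal `I`. -/
def Model {k : Type u} [Field k] {A : Subalgebra ℤ k} {n : ℕ} (X : Ideal (MvPolynomial (Fin n) A))
    (I : Ideal (MvPolynomial (Fin n) k)) : Prop :=
  Homogeneous X ∧ change X (algebraMap A k) = I

/-- The fibre of `X` at the closed point `𝔪` of `Spec A`, a projective scheme over `A ⧸ 𝔪`. -/
noncomputable def fibre {A : Type u} [CommRing A] {n : ℕ} (X : Ideal (MvPolynomial (Fin n) A)) (𝔪 : Ideal A) :
    Ideal (MvPolynomial (Fin n) (A ⧸ 𝔪)) := change X (Ideal.Quotient.mk 𝔪)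

end OrdRed
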