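import Pool.Agent.Lib.MP_adc574_ag_GP.Lit

/-!
# The cochains supported on the sets containing `z` are acyclic

`W1Aff X z`: the open set `U_z` is affine and covered by the open sets `a_j ≠ 0`, `j ≠ z`.
-/

set_option autoImplicit false

namespace MPadcDC

open MPadcGP

universe u v w

variable {A : Type u} [CommRing A] {N : ℕ}

/-- `U_z` is affine and covered by the open sets `a_j ≠ 0`, `j ≠ z`. -/
structure W1Aff (X : CovD.{u, v} A N) (z : Fin N) where
  /-- the functions -/
  a : Fin N → X.R {z}
  surj : ∀ (K : Finset (Fin N)) (hz : z ∈ K) (j : Fin N) (q : ℕ) (y : X.E (insert j K)), y ∈ Fd A (X.R (insert j K)) q →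
    ∃ M : ℕ, ∃ y₀ ∈ Fd A (X.R K) q, X.rs (Finset.subset_insert j K) y₀ =
      fz A (X.ρ (Finset.singleton_subset_iff.2 (Finset.mem_insert_of_mem hz)) (a j)) ^ M * y
  ker : ∀ (K : Finset (Fin N)) (hz : z ∈ K) (j : Fin N) (y : X.E K), X.rs (Finset.subset_insert j K) y = 0 →
    ∃ M : ℕ, fz A (X.ρ (Finset.singleton_subset_iff.2 hz) (a j)) ^ M * y = 0
  one : ∀ M : Fin N → ℕ, ∃ u : Fin N → X.R {z}, ∑ j ∈ Finset.univ.erase z, u j * a j ^ M j = 1

section

variable {X : CovD.{u, v} A N} {z : Fin N}

/-- Multiplication with a function on `U_z`. -/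
noncomputable def W1m (X : CovD.{u, v} A N) (z : Fin N) (u : X.R {z}) (c : X.Ch) : X.Ch := fun K =>
  if hz : z ∈ K then fz A (X.ρ (Finset.singleton_subset_iff.2 hz) u) * c K else 0

theorem W1m_of (u : X.R {z}) (c : X.Ch) {K : Finset (Fin N)} (hz : z ∈ K) :
    W1m X z u c K = fz A (X.ρ (Finset.singleton_subset_iff.2 hz) u) * c K := dif_pos hz

theorem W1m_not (u : X.R {z}) (c : X.Ch) {K : Finset (Fin N)} (hz : z ∉ K) : W1m X z u c K = 0 := dif_neg hz

theorem W1_rs_rho {K L : Finset (Fin N)} (h : K ⊆ L) (hz : z ∈ K) (u : X.R {z}) :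
    X.rs h (fz A (X.ρ (Finset.singleton_subset_iff.2 hz) u)) = fz A (X.ρ (Finset.singleton_subset_iff.2 (h hz)) u) := by
  rw [CovD.rs_fz, X.ρ_comp]

theorem W1m_del (u : X.R {z}) {c : X.Ch} (hc : ∀ K, z ∉ K → c K = 0) : X.del (W1m X z u c) = W1m X z u (X.del c) := by
  funext K
  rw [CovD.del_apply]
  by_cases hz : z ∈ K
  · rw [W1m_of _ _ hz, CovD.del_apply, Finset.mul_sum]
    refine Finset.sum_congr rfl fun j _ => ?_
    rw [mul_smul_comm]
    congr 1
    by_cases hj : z ∈ K.erase j
    · rw [CovD.ev_of (Finset.erase_subset j K), CovD.ev_of (Finset.erase_subset j K), W1m_of _ _ hj, map_mul,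
        W1_rs_rho (Finset.erase_subset j K) hj]
    · rw [CovD.ev_eq_zero (W1m_not _ _ hj), CovD.ev_eq_zero (hc _ hj), mul_zero]
  · rw [W1m_not _ _ hz]
    refine Finset.sum_eq_zero fun j _ => ?_
    rw [CovD.ev_eq_zero (W1m_not _ _ fun h => hz (Finset.mem_of_mem_erase h)), smul_zero]

theorem W1_cast (c : X.Ch) {J K : Finset (Fin N)} (h : J ⊆ K) (e : J = K) : X.rs h (c J) = c K := by
  subst e
  exact CovD.rs_id _ _ _

/-- One index. -/
theorem W1_step (h : W1Aff X z) {j : Fin N} (hjz : j ≠ z) {q r : ℕ} {c : X.Ch} (hq : ∀ K, c K ∈ Fd A (X.R K) q)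
    (hr : ∀ K : Finset (Fin N), K.card ≠ r + 1 → c K = 0) (hz : ∀ K, z ∉ K → c K = 0) (hd : X.del c = 0) :
    ∃ (M : ℕ) (b : X.Ch), (∀ K, b K ∈ Fd A (X.R K) q) ∧ (∀ K : Finset (Fin N), K.card ≠ r → b K = 0) ∧
      (∀ K, z ∉ K → b K = 0) ∧ X.del b = W1m X z (h.a j ^ M) c := by
  classical
  -- the lifts
  have h1 : ∀ K : Finset (Fin N), ∃ M : ℕ, ∀ hzK : z ∈ K, ∃ y₀ ∈ Fd A (X.R K) q,
      X.rs (Finset.subset_insert j K) y₀ =
        fz A (X.ρ (Finset.singleton_subset_iff.2 (Finset.mem_insert_of_mem hzK)) (h.a j)) ^ M * c (insert j K) := by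
    intro K
    by_cases hzK : z ∈ K
    · obtain ⟨M, hM⟩ := h.surj K hzK j q _ (hq (insert j K))
      exact ⟨M, fun _ => hM⟩
    · exact ⟨0, fun h2 => absurd h2 hzK⟩
  choose M1 hM1 using h1
  obtain ⟨M, hM⟩ : ∃ M, ∀ K, M1 K ≤ M := ⟨∑ K, M1 K, fun K =>
    Finset.single_le_sum (f := M1) (fun _ _ => Nat.zero_le _) (Finset.mem_univ K)⟩
  have h2 : ∀ (K : Finset (Fin N)) (hzK : z ∈ K), ∃ y₀ ∈ Fd A (X.R K) q,
      X.rs (Finset.subset_insert j K) y₀ =
        fz A (X.ρ (Finset.singleton_subset_iff.2 (Finset.mem_insert_of_mem hzK)) (h.a j)) ^ M * c (insert j K) := by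
    intro K hzK
    obtain ⟨y, hy1, hy2⟩ := hM1 K hzK
    refine ⟨fz A (X.ρ (Finset.singleton_subset_iff.2 hzK) (h.a j) ^ (M - M1 K)) * y, fz_mul_mem _ hy1, ?_⟩
    rw [map_mul, map_pow, map_pow, W1_rs_rho (Finset.subset_insert j K) hzK, hy2, ← mul_assoc, ← pow_add,
      Nat.sub_add_cancel (hM K)]
  choose y hy1 hy2 using h2
  set b1 : X.Ch := fun K => if hK : z ∈ K ∧ j ∉ K ∧ K.card = r then sg j (insert j K) • y K hK.1 else 0 with hb1
  have b1of : ∀ {K : Finset (Fin N)} (hK : z ∈ K ∧ j ∉ K ∧ K.card = r), b1 K = sg j (insert j K) • y K hK.1 := by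
    intro K hK
    rw [hb1]
    simp only [dif_pos hK]
  have b1not : ∀ {K : Finset (Fin N)}, ¬ (z ∈ K ∧ j ∉ K ∧ K.card = r) → b1 K = 0 := by
    intro K hK
    rw [hb1]
    simp only [dif_neg hK]
  clear_value b1
  -- the identity after restriction
  have hA : ∀ K : Finset (Fin N), z ∈ K →
      X.rs (Finset.subset_insert j K) (X.del b1 K - W1m X z (h.a j ^ M) c K) = 0 := by
    intro K hzK
    by_cases hK : K.card = r + 1
    · by_cases hj : j ∈ K
      · have hs : (K.erase j).card = r := by
          have := Finset.card_erase_add_one hj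
          omega
        have hze : z ∈ K.erase j := Finset.mem_erase.2 ⟨Ne.symm hjz, hzK⟩
        have hh : z ∈ K.erase j ∧ j ∉ K.erase j ∧ (K.erase j).card = r := ⟨hze, Finset.notMem_erase j K, hs⟩
        have h3 : X.del b1 K = W1m X z (h.a j ^ M) c K := by
          rw [CovD.del_apply, Finset.sum_eq_single j]
          · have hi : insert j (K.erase j) ⊆ K := by rw [Finset.insert_erase hj]
            have hsg : sg j (insert j (K.erase j)) = sg j K := by rw [Finset.insert_erase hj]
            rw [CovD.ev_of (Finset.erase_subset j K), b1of hh, map_zsmul, smul_smul, hsg, sg_sq, one_smul,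
              W1m_of _ _ hzK]
            have h4 := congrArg (X.rs hi) (hy2 (K.erase j) hze)
            rw [CovD.rs_rs, map_mul, map_pow, W1_rs_rho hi (Finset.mem_insert_of_mem hze),
              W1_cast c hi (Finset.insert_erase hj)] at h4
            rw [map_pow, map_pow]
            exact h4
          · intro l hl hlj
            rw [CovD.ev_eq_zero (b1not fun h5 => h5.2.1 (Finset.mem_erase.2 ⟨Ne.symm hlj, hj⟩)), smul_zero]
          · intro h5
            exact absurd hj h5
        rw [h3, sub_self, map_zero]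
      · -- `j ∉ K`
        have hKe : (insert j K).erase j = K := Finset.erase_insert hj
        have hjD : j ∈ insert j K := Finset.mem_insert_self j K
        have hzD : z ∈ insert j K := Finset.mem_insert_of_mem hzK
        obtain ⟨α, hα⟩ : ∃ α, α = fz A (X.ρ (Finset.singleton_subset_iff.2 hzD) (h.a j)) ^ M := ⟨_, rfl⟩
        have h3 : ∀ l ∈ K, X.ev b1 (K.erase l) (insert j K) =
            sg j ((insert j K).erase l) • (α * X.ev c ((insert j K).erase l) (insert j K)) := by
          intro l hl
          have hlj : l ≠ j := fun h4 => hj (h4 ▸ hl)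
          have he : (insert j K).erase l = insert j (K.erase l) := Finset.erase_insert_of_ne (Ne.symm hlj)
          have hsub : K.erase l ⊆ insert j K := (Finset.erase_subset l K).trans (Finset.subset_insert j K)
          have hsub2 : insert j (K.erase l) ⊆ insert j K := Finset.insert_subset_insert j (Finset.erase_subset l K)
          rw [he]
          by_cases hlz : z ∈ K.erase l
          · have hh : z ∈ K.erase l ∧ j ∉ K.erase l ∧ (K.erase l).card = r := by
              refine ⟨hlz, fun h5 => hj (Finset.mem_of_mem_erase h5), ?_⟩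
              have := Finset.card_erase_add_one hl
              omega
            rw [CovD.ev_of hsub, b1of hh, map_zsmul, CovD.ev_of hsub2]
            have h4 := congrArg (X.rs hsub2) (hy2 (K.erase l) hlz)
            rw [CovD.rs_rs, map_mul, map_pow, W1_rs_rho hsub2 (Finset.mem_insert_of_mem hlz)] at h4
            rw [h4, hα]
          · have hn : z ∉ insert j (K.erase l) := fun h5 => (Finset.mem_insert.1 h5).elim (fun h6 => hjz h6.symm) hlz
            rw [CovD.ev_eq_zero (b1not fun h5 => hlz h5.1), CovD.ev_eq_zero (hz _ hn), mul_zero, smul_zero]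
        have h4 : X.rs (Finset.subset_insert j K) (X.del b1 K) =
            ∑ l ∈ K, sg l K • (sg j ((insert j K).erase l) • (α * X.ev c ((insert j K).erase l) (insert j K))) := by
          rw [← CovD.ev_of (Finset.subset_insert j K), CovD.ev_del (Finset.subset_insert j K)]
          exact Finset.sum_congr rfl fun l hl => by rw [h3 l hl]
        have h5 : ∀ l ∈ K, sg l K • (sg j ((insert j K).erase l) •
            (α * X.ev c ((insert j K).erase l) (insert j K))) =
            (-sg j (insert j K)) • (α * (sg l (insert j K) • X.ev c ((insert j K).erase l) (insert j K))) := by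
          intro l hl
          have hlj : l ≠ j := fun h4 => hj (h4 ▸ hl)
          rw [mul_smul_comm, smul_smul, smul_smul]
          congr 1
          have h6 := sg_sg (Finset.mem_insert_of_mem hl) hjD hlj
          rw [hKe] at h6
          have h7 := sg_sq j ((insert j K).erase l)
          have h8 := sg_sq j (insert j K)
          have h9 : sg j (insert j K) * sg l K = -(sg l (insert j K) * sg j ((insert j K).erase l)) := by
            linarith
          calc sg l K * sg j ((insert j K).erase l) =
              (sg j (insert j K) * sg j (insert j K)) * (sg l K * sg j ((insert j K).erase l)) := by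
                rw [h8, one_mul]
            _ = sg j (insert j K) * (sg j (insert j K) * sg l K) * sg j ((insert j K).erase l) := by ring
            _ = -sg j (insert j K) * sg l (insert j K) *
                (sg j ((insert j K).erase l) * sg j ((insert j K).erase l)) := by
                rw [h9]
                ring
            _ = -sg j (insert j K) * sg l (insert j K) := by rw [h7, mul_one]
        have h6 : X.del c (insert j K) = 0 := by rw [hd]; rfl
        rw [CovD.del_apply, Finset.sum_insert hj, hKe] at h6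
        have h7 : ∑ l ∈ K, sg l (insert j K) • X.ev c ((insert j K).erase l) (insert j K) =
            -(sg j (insert j K) • X.ev c K (insert j K)) := (neg_eq_of_add_eq_zero_right h6).symm
        rw [map_sub, h4, Finset.sum_congr rfl h5, ← Finset.smul_sum, ← Finset.mul_sum, h7, mul_neg, smul_neg, neg_smul,
          neg_neg, mul_smul_comm, smul_smul, sg_sq, one_smul, CovD.ev_of (Finset.subset_insert j K), W1m_of _ _ hzK,
          map_mul, map_pow, map_pow, map_pow, W1_rs_rho (Finset.subset_insert j K) hzK, ← hα, sub_self]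
    · have h3 : X.del b1 K = 0 := by
        rw [CovD.del_apply]
        refine Finset.sum_eq_zero fun l hl => ?_
        have := Finset.card_erase_add_one hl
        rw [CovD.ev_eq_zero (b1not fun h5 => hK (by omega)), smul_zero]
      rw [h3, W1m_of _ _ hzK, hr K hK, mul_zero, sub_zero, map_zero]
  -- the second power
  have h3 : ∀ K : Finset (Fin N), ∃ M' : ℕ, ∀ hzK : z ∈ K,
      fz A (X.ρ (Finset.singleton_subset_iff.2 hzK) (h.a j)) ^ M' * (X.del b1 K - W1m X z (h.a j ^ M) c K) = 0 := by
    intro K
    by_cases hzK : z ∈ K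
    · obtain ⟨M', hM'⟩ := h.ker K hzK j _ (hA K hzK)
      exact ⟨M', fun _ => hM'⟩
    · exact ⟨0, fun h2 => absurd h2 hzK⟩
  choose M2 hM2 using h3
  obtain ⟨M', hM'⟩ : ∃ M', ∀ K, M2 K ≤ M' := ⟨∑ K, M2 K, fun K =>
    Finset.single_le_sum (f := M2) (fun _ _ => Nat.zero_le _) (Finset.mem_univ K)⟩
  have hb1z : ∀ K, z ∉ K → b1 K = 0 := fun K hzK => b1not fun h5 => hzK h5.1
  refine ⟨M' + M, W1m X z (h.a j ^ M') b1, fun K => ?_, fun K hK => ?_, fun K hK => W1m_not _ _ hK, ?_⟩
  · by_cases hzK : z ∈ K
    · rw [W1m_of _ _ hzK]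
      refine fz_mul_mem _ ?_
      by_cases hK : z ∈ K ∧ j ∉ K ∧ K.card = r
      · rw [b1of hK]
        exact zsmul_mem (hy1 K hK.1) _
      · rw [b1not hK]
        exact Submodule.zero_mem _
    · rw [W1m_not _ _ hzK]
      exact Submodule.zero_mem _
  · by_cases hzK : z ∈ K
    · rw [W1m_of _ _ hzK, b1not fun h5 => hK h5.2.2, mul_zero]
    · exact W1m_not _ _ hzK
  · rw [W1m_del _ hb1z]
    funext K
    by_cases hzK : z ∈ K
    · have h4 := hM2 K hzK
      have h5 : fz A (X.ρ (Finset.singleton_subset_iff.2 hzK) (h.a j)) ^ M' *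
          (X.del b1 K - W1m X z (h.a j ^ M) c K) = 0 := by
        rw [← Nat.sub_add_cancel (hM' K), pow_add, mul_assoc, h4, mul_zero]
      rw [mul_sub, sub_eq_zero] at h5
      rw [W1m_of _ _ hzK, map_pow, map_pow, h5, W1m_of _ _ hzK, W1m_of _ _ hzK, ← mul_assoc, map_pow, map_pow, ← pow_add,
        map_pow, map_pow]
    · rw [W1m_not _ _ hzK, W1m_not _ _ hzK]

/-- The augmented Čech complex of `U_z` is exact. -/
theorem W1_exact (h : W1Aff X z) {q r : ℕ} {c : X.Ch} (hq : ∀ K, c K ∈ Fd A (X.R K) q)
    (hr : ∀ K : Finset (Fin N), K.card ≠ r + 1 → c K = 0) (hz : ∀ K, z ∉ K → c K = 0) (hd : X.del c = 0) :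
    ∃ b : X.Ch, (∀ K, b K ∈ Fd A (X.R K) q) ∧ (∀ K : Finset (Fin N), K.card ≠ r → b K = 0) ∧
      (∀ K, z ∉ K → b K = 0) ∧ X.del b = c := by
  classical
  choose M b hb1 hb2 hb3 hb4 using fun j : {j : Fin N // j ≠ z} => W1_step h j.2 hq hr hz hd
  obtain ⟨u, hu⟩ := h.one fun j => if hj : j ≠ z then M ⟨j, hj⟩ else 0
  set b' : Fin N → X.Ch := fun j => if hj : j ≠ z then b ⟨j, hj⟩ else 0 with hb'
  have hb'of : ∀ {j : Fin N} (hj : j ≠ z), b' j = b ⟨j, hj⟩ := fun hj => dif_pos hj
  have hb'1 : ∀ j K, b' j K ∈ Fd A (X.R K) q := by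
    intro j K
    by_cases hj : j ≠ z
    · rw [hb'of hj]
      exact hb1 _ K
    · rw [hb']
      simp only [dif_neg hj]
      exact Submodule.zero_mem _
  have hb'2 : ∀ j (K : Finset (Fin N)), K.card ≠ r → b' j K = 0 := by
    intro j K hK
    by_cases hj : j ≠ z
    · rw [hb'of hj]
      exact hb2 _ K hK
    · rw [hb']
      simp only [dif_neg hj]
      rfl
  have hb'3 : ∀ j (K : Finset (Fin N)), z ∉ K → b' j K = 0 := by
    intro j K hK
    by_cases hj : j ≠ z
    · rw [hb'of hj]
      exact hb3 _ K hK
    · rw [hb']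
      simp only [dif_neg hj]
      rfl
  refine ⟨∑ j ∈ Finset.univ.erase z, W1m X z (u j) (b' j), fun K => ?_, fun K hK => ?_, fun K hK => ?_, ?_⟩
  · rw [Finset.sum_apply]
    refine Submodule.sum_mem _ fun j _ => ?_
    by_cases hzK : z ∈ K
    · rw [W1m_of _ _ hzK]
      exact fz_mul_mem _ (hb'1 j K)
    · rw [W1m_not _ _ hzK]
      exact Submodule.zero_mem _
  · rw [Finset.sum_apply]
    refine Finset.sum_eq_zero fun j _ => ?_
    by_cases hzK : z ∈ K
    · rw [W1m_of _ _ hzK, hb'2 j K hK, mul_zero]
    · exact W1m_not _ _ hzK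
  · rw [Finset.sum_apply]
    exact Finset.sum_eq_zero fun j _ => W1m_not _ _ hK
  · rw [map_sum]
    funext K
    rw [Finset.sum_apply]
    by_cases hzK : z ∈ K
    · have h1 : ∀ j ∈ Finset.univ.erase z, X.del (W1m X z (u j) (b' j)) K =
          fz A (X.ρ (Finset.singleton_subset_iff.2 hzK)
            (u j * h.a j ^ (if hj : j ≠ z then M ⟨j, hj⟩ else 0))) * c K := by
        intro j hj
        have hjz : j ≠ z := (Finset.mem_erase.1 hj).1
        rw [W1m_del _ (hb'3 j), W1m_of _ _ hzK, hb'of hjz, hb4, W1m_of _ _ hzK, dif_pos hjz, ← mul_assoc, ← map_mul,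
          ← map_mul]
      rw [Finset.sum_congr rfl h1, ← Finset.sum_mul, ← map_sum, ← map_sum, hu, map_one, map_one, one_mul]
    · rw [hz K hzK]
      refine Finset.sum_eq_zero fun j _ => ?_
      rw [W1m_del _ (hb'3 j), W1m_not _ _ hzK]

/-- The cochains supported on the sets containing `z` are acyclic. -/
theorem W1_acyc (h : W1Aff X z) {m : ℕ} {c : X.Ch} (hc : c ∈ X.Tt m) (hz : ∀ K, z ∉ K → c K = 0) (hd : X.Dt c = 0) :
    c ∈ X.Bc m := by
  classical
  have key : ∀ (t : ℕ) (c : X.Ch), c ∈ X.Tt m → (∀ K, z ∉ K → c K = 0) → X.Dt c = 0 →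
      (∀ K : Finset (Fin N), t < K.card → c K = 0) → c ∈ X.Bc m := by
    intro t
    induction t with
    | zero =>
      intro c hc hz hd ht
      have h1 : c = 0 := by
        funext K
        rcases K.eq_empty_or_nonempty with hK | hK
        · subst hK
          exact hc.1
        · exact ht K (Finset.card_pos.2 hK)
      rw [h1]
      exact Submodule.zero_mem _
    | succ t ih =>
      intro c hc hz hd ht
      rcases Nat.lt_or_ge m t with hm | hm
      · refine ih c hc hz hd fun K hK => ?_
        rcases Nat.lt_or_ge (t + 1) K.card with h1 | h1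
        · exact ht K h1
        · exact (hc.2 K).2 (by omega)
      obtain ⟨q, hq⟩ : ∃ q, q + t = m := ⟨m - t, by omega⟩
      set c1 : X.Ch := fun K => if K.card = t + 1 then c K else 0 with hc1
      have c1of : ∀ {K : Finset (Fin N)}, K.card = t + 1 → c1 K = c K := fun hK => if_pos hK
      have c1not : ∀ {K : Finset (Fin N)}, K.card ≠ t + 1 → c1 K = 0 := fun hK => if_neg hK
      have hc1q : ∀ K, c1 K ∈ Fd A (X.R K) q := by
        intro K
        by_cases hK : K.card = t + 1
        · rw [c1of hK]
          exact (hc.2 K).1 q (by omega)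
        · rw [c1not hK]
          exact Submodule.zero_mem _
      have hc1z : ∀ K, z ∉ K → c1 K = 0 := by
        intro K hK
        by_cases hK' : K.card = t + 1
        · rw [c1of hK', hz K hK]
        · exact c1not hK'
      have hc1d : X.del c1 = 0 := by
        have h1 : X.del (X.ic c1) = 0 := by
          funext K
          by_cases hK : K.card = t + 2
          · have h2 : X.Dt c K = 0 := by rw [hd]; rfl
            rw [CovD.Dt_apply, Pi.add_apply, CovD.dc_apply, ht K (by omega), map_zero, zero_add, CovD.del_apply] at h2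
            rw [CovD.del_apply, Pi.zero_apply, ← h2]
            refine Finset.sum_congr rfl fun l hl => ?_
            have := Finset.card_erase_add_one hl
            rw [CovD.ev_of (Finset.erase_subset l K), CovD.ev_of (Finset.erase_subset l K), CovD.ic_apply, CovD.ic_apply,
              c1of (by omega)]
          · rw [CovD.del_apply]
            refine Finset.sum_eq_zero fun l hl => ?_
            have := Finset.card_erase_add_one hl
            rw [CovD.ev_ic, CovD.ev_eq_zero (c1not (by omega)), map_zero, smul_zero]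
        rw [CovD.del_ic] at h1
        have h2 := congrArg X.ic h1
        rw [CovD.ic_ic, map_zero] at h2
        exact h2
      obtain ⟨b, hb1, hb2, hb3, hb4⟩ := W1_exact h hc1q (fun K hK => c1not hK) hc1z hc1d
      rcases Nat.eq_zero_or_pos t with ht0 | ht0
      · -- `b = 0`
        subst ht0
        have h1 : b = 0 := by
          funext K
          rcases K.eq_empty_or_nonempty with hK | hK
          · subst hK
            exact hb3 _ (Finset.notMem_empty z)
          · exact hb2 K (Finset.card_pos.2 hK).ne'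
        rw [h1, map_zero] at hb4
        refine ih c hc hz hd fun K hK => ?_
        by_cases hK' : K.card = 0 + 1
        · rw [← c1of hK', ← hb4]
          rfl
        · exact ht K (by omega)
      · obtain ⟨m', rfl⟩ : ∃ m', m = m' + 1 := ⟨m - 1, by omega⟩
        have hbT : X.ic b ∈ X.Tt m' := by
          refine ⟨?_, fun K => ⟨fun q' hq' => ?_, fun hK => ?_⟩⟩
          · rw [CovD.ic_apply, hb3 _ (Finset.notMem_empty z), map_zero]
          · rw [CovD.ic_apply]
            by_cases hK : K.card = t
            · have : q' = q := by omega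
              subst this
              exact inv_mem' (hb1 K)
            · rw [hb2 K hK, map_zero]
              exact Submodule.zero_mem _
          · rw [CovD.ic_apply, hb2 K (by omega), map_zero]
        have hDb : ∀ K, X.Dt (X.ic b) K = dd A (MPadcGP.inv A (b K)) + c1 K := by
          intro K
          rw [CovD.Dt_apply, CovD.ic_ic, hb4, Pi.add_apply, CovD.dc_apply, CovD.ic_apply]
        have h1 : c - X.Dt (X.ic b) ∈ X.Bc (m' + 1) := by
          refine ih _ (Submodule.sub_mem _ hc (CovD.Dt_mem hbT)) (fun K hK => ?_) ?_ fun K hK => ?_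
          · rw [Pi.sub_apply, hDb, hz K hK, hb3 K hK, map_zero, map_zero, hc1z K hK, add_zero, sub_zero]
          · rw [map_sub, hd, CovD.Dt_Dt, sub_zero]
          · rw [Pi.sub_apply, hDb, hb2 K (by omega), map_zero, map_zero, zero_add]
            by_cases hK' : K.card = t + 1
            · rw [c1of hK', sub_self]
            · rw [c1not hK', sub_zero]
              exact ht K (by omega)
        have h2 : X.Dt (X.ic b) ∈ X.Bc (m' + 1) := Submodule.mem_map.2 ⟨_, hbT, rfl⟩
        have h3 := Submodule.add_mem _ h1 h2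
        rwa [sub_add_cancel] at h3
  refine key N c hc hz hd fun K hK => ?_
  have := Finset.card_le_univ K
  rw [Fintype.card_fin] at this
  omega

end

end MPadcDC
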