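import Pool.Agent.Lib.MP_adc574_ag_DC.DefsL

/-!
# The charts of the cyclic cover without the last coordinate: the maps
-/

set_option autoImplicit false

namespace MPadcDC

open MPadcGP MvPolynomial

universe u v w

section

variable {A : Type u} [CommRing A] {n e : ℕ} (J : Ideal (MvPolynomial (Fin n) A)) (F : MvPolynomial (Fin n) A) (e : ℕ)

theorem W1_mem {f : MvPolynomial (Fin n) A} (hf : f ∈ J) : rename Fin.castSucc f ∈ cyc J F e :=
  Ideal.mem_sup_left (Ideal.mem_map_of_mem
    (rename Fin.castSucc : MvPolynomial (Fin n) A →ₐ[A] MvPolynomial (Fin (n + 1)) A).toRingHom hf)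

theorem W1_mem' : (X (Fin.last n) ^ e - rename Fin.castSucc F : MvPolynomial (Fin (n + 1)) A) ∈ cyc J F e :=
  Ideal.mem_sup_right (Ideal.mem_span_singleton_self _)

private theorem W1l_exists (K : Finset (Fin n)) :
    ∃ g : LR J K →+* LR (cyc J F e) (K.map Fin.castSuccEmb), (∀ a, g (algebraMap A _ a) = algebraMap A _ a) ∧
      ∀ l, g (lx J K l) = lx (cyc J F e) (K.map Fin.castSuccEmb) (Fin.castSucc l) := by
  let g0 : CR J →+* LR (cyc J F e) (K.map Fin.castSuccEmb) := Ideal.Quotient.lift J
    ((algebraMap (CR (cyc J F e)) (LR (cyc J F e) (K.map Fin.castSuccEmb))).comp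
      ((Ideal.Quotient.mk (cyc J F e)).comp
        (rename Fin.castSucc : MvPolynomial (Fin n) A →ₐ[A] MvPolynomial (Fin (n + 1)) A).toRingHom)) fun f hf => by
      have h1 : (Ideal.Quotient.mk (cyc J F e)) (rename Fin.castSucc f) = 0 :=
        Ideal.Quotient.eq_zero_iff_mem.2 (W1_mem J F e hf)
      rw [RingHom.comp_apply, RingHom.comp_apply]
      exact (congrArg _ h1).trans (map_zero _)
  have hg0 : ∀ f, g0 (Ideal.Quotient.mk J f) =
      algebraMap (CR (cyc J F e)) (LR (cyc J F e) (K.map Fin.castSuccEmb))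
        (Ideal.Quotient.mk (cyc J F e) (rename Fin.castSucc f)) := fun f => rfl
  have hu : IsUnit (g0 (Ideal.Quotient.mk J (∏ j ∈ K, X j))) := by
    have h9 : rename Fin.castSucc (∏ j ∈ K, X j : MvPolynomial (Fin n) A) = ∏ j ∈ K.map Fin.castSuccEmb, X j := by
      rw [map_prod, Finset.prod_map]
      exact Finset.prod_congr rfl fun j _ => rename_X _ _
    rw [hg0, h9]
    exact IsLocalization.Away.algebraMap_isUnit _
  refine ⟨IsLocalization.Away.lift (Ideal.Quotient.mk J (∏ j ∈ K, X j)) hu, fun a => ?_, fun l => ?_⟩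
  · have h1 : algebraMap A (LR J K) a = algebraMap (CR J) (LR J K) (Ideal.Quotient.mk J (C a)) := by
      rw [IsScalarTower.algebraMap_apply A (CR J) (LR J K)]
      rfl
    have h2 : algebraMap A (LR (cyc J F e) (K.map Fin.castSuccEmb)) a =
        algebraMap (CR (cyc J F e)) (LR (cyc J F e) (K.map Fin.castSuccEmb))
          (Ideal.Quotient.mk (cyc J F e) (C a)) := by
      rw [IsScalarTower.algebraMap_apply A (CR (cyc J F e)) (LR (cyc J F e) (K.map Fin.castSuccEmb))]
      rfl
    rw [h1, h2, IsLocalization.Away.lift_eq, hg0, rename_C]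
  · rw [lx, lx, IsLocalization.Away.lift_eq, hg0, rename_X]

/-- The map of localizations. -/
noncomputable def W1l (K : Finset (Fin n)) : LR J K →+* LR (cyc J F e) (K.map Fin.castSuccEmb) :=
  (W1l_exists J F e K).choose

theorem W1l_base (K : Finset (Fin n)) (a : A) : W1l J F e K (algebraMap A _ a) = algebraMap A _ a :=
  (W1l_exists J F e K).choose_spec.1 a

theorem W1l_lx (K : Finset (Fin n)) (l : Fin n) :
    W1l J F e K (lx J K l) = lx (cyc J F e) (K.map Fin.castSuccEmb) (Fin.castSucc l) :=
  (W1l_exists J F e K).choose_spec.2 l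

theorem W1l_cq {K : Finset (Fin n)} (l : Fin n) {j : Fin n} (hj : j ∈ K)
    (hj' : Fin.castSucc j ∈ K.map Fin.castSuccEmb) :
    W1l J F e K (cq J K l hj : LR J K) =
      (cq (cyc J F e) (K.map Fin.castSuccEmb) (Fin.castSucc l) hj' : LR (cyc J F e) (K.map Fin.castSuccEmb)) := by
  apply (lx_isUnit (cyc J F e) (K.map Fin.castSuccEmb) hj').mul_right_cancel
  rw [cq_mul_lx, ← W1l_lx J F e K j, ← map_mul, cq_mul_lx, W1l_lx]

/-- The map of charts. -/
noncomputable def W1c (K : Finset (Fin n)) : chart J K →ₐ[A] chart (cyc J F e) (K.map Fin.castSuccEmb) :=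
  { ((W1l J F e K).comp (chart J K).val.toRingHom).codRestrict (chart (cyc J F e) (K.map Fin.castSuccEmb)) fun x => by
      induction x using chart_ind with
      | h1 a =>
        have h1 : ((W1l J F e K).comp (chart J K).val.toRingHom) (algebraMap A (chart J K) a) =
          algebraMap A _ a := W1l_base J F e K a
        rw [h1]
        exact (chart (cyc J F e) (K.map Fin.castSuccEmb)).algebraMap_mem a
      | h2 l m hm =>
        have h1 : ((W1l J F e K).comp (chart J K).val.toRingHom) (cq J K l hm) =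
          (cq (cyc J F e) (K.map Fin.castSuccEmb) (Fin.castSucc l) (Finset.mem_map_of_mem Fin.castSuccEmb hm) :
            LR (cyc J F e) (K.map Fin.castSuccEmb)) := W1l_cq J F e l hm _
        rw [h1]
        exact (cq (cyc J F e) (K.map Fin.castSuccEmb) (Fin.castSucc l) (Finset.mem_map_of_mem Fin.castSuccEmb hm)).2
      | h3 x y hx hy => rw [map_add]; exact (chart (cyc J F e) (K.map Fin.castSuccEmb)).add_mem hx hy
      | h4 x y hx hy => rw [map_mul]; exact (chart (cyc J F e) (K.map Fin.castSuccEmb)).mul_mem hx hy with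
    commutes' := fun a => Subtype.ext (W1l_base J F e K a) }

theorem W1c_cq {K : Finset (Fin n)} (l : Fin n) {j : Fin n} (hj : j ∈ K)
    (hj' : Fin.castSucc j ∈ K.map Fin.castSuccEmb) :
    W1c J F e K (cq J K l hj) = cq (cyc J F e) (K.map Fin.castSuccEmb) (Fin.castSucc l) hj' :=
  Subtype.ext (W1l_cq J F e l hj hj')

theorem W1c_tr {K K' : Finset (Fin n)} (h : K ⊆ K') (x : chart J K) :
    W1c J F e K' (tr J h x) = tr (cyc J F e) (Finset.map_subset_map.2 h) (W1c J F e K x) := by
  induction x using chart_ind with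
  | h1 a => rw [AlgHom.commutes, AlgHom.commutes, AlgHom.commutes, AlgHom.commutes]
  | h2 l m hm =>
    rw [tr_cq, W1c_cq J F e l hm (Finset.mem_map_of_mem Fin.castSuccEmb hm),
      W1c_cq J F e l (h hm) (Finset.mem_map_of_mem Fin.castSuccEmb (h hm)), tr_cq]
  | h3 x y hx hy => rw [map_add, map_add, map_add, map_add, hx, hy]
  | h4 x y hx hy => rw [map_mul, map_mul, map_mul, map_mul, hx, hy]

end

end MPadcDC
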