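import Pool.Agent.Lib.MP_adc574_ag_DC.PHoA
import Pool.Agent.Lib.MP_adc574_ag_DC.W1K

/-!
# The charts of the cyclic cover without the last coordinate: generators and kernel
-/

set_option autoImplicit false

namespace MPadcDC

open MPadcGP MvPolynomial

universe u v w

section

variable {A : Type u} [CommRing A] {n e : ℕ} {J : Ideal (MvPolynomial (Fin n) A)} (hJ : IsHomog J)
  {F : MvPolynomial (Fin n) A} (hF : F.IsHomogeneous e)

include hJ hF in
theorem W1_zeta {K : Finset (Fin n)} {j : Fin n} (hj : j ∈ K) (hj' : Fin.castSucc j ∈ K.map Fin.castSuccEmb) :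
    cq (cyc J F e) (K.map Fin.castSuccEmb) (Fin.last n) hj' ^ e =
      W1c J F e K (eval₂ (algebraMap A (chart J K)) (fun l => cq J K l hj) F) := by
  have h1 := eval₂_cq (isHomog_cyc hJ hF) hj' (W1_mem' J F e)
  rw [eval₂_sub, eval₂_pow, eval₂_X, eval₂_rename, sub_eq_zero] at h1
  rw [h1]
  have h2 := hom_eval₂ F (algebraMap A (chart J K))
    (W1c J F e K : chart J K →+* chart (cyc J F e) (K.map Fin.castSuccEmb)) (fun l => cq J K l hj)
  refine Eq.trans ?_ h2.symm
  have h3 : (W1c J F e K : chart J K →+* chart (cyc J F e) (K.map Fin.castSuccEmb)).comp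
      (algebraMap A (chart J K)) = algebraMap A _ := RingHom.ext fun a => AlgHom.commutes (W1c J F e K) a
  rw [h3]
  refine congrArg (fun g => eval₂ (algebraMap A _) g F) (funext fun l => ?_)
  exact (W1c_cq J F e l hj hj').symm

theorem W1_surj {K : Finset (Fin n)} {j : Fin n} (hj' : Fin.castSucc j ∈ K.map Fin.castSuccEmb)
    (b : chart (cyc J F e) (K.map Fin.castSuccEmb)) :
    ∃ p : Polynomial (chart J K), Polynomial.eval₂ (W1c J F e K : chart J K →+* _)
      (cq (cyc J F e) (K.map Fin.castSuccEmb) (Fin.last n) hj') p = b := by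
  induction b using chart_ind with
  | h1 a =>
    refine ⟨Polynomial.C (algebraMap A _ a), ?_⟩
    rw [Polynomial.eval₂_C]
    exact AlgHom.commutes (W1c J F e K) a
  | h2 l m hm =>
    obtain ⟨m0, hm0, rfl⟩ := Finset.mem_map.1 hm
    induction l using Fin.lastCases with
    | last =>
      refine ⟨Polynomial.C (cq J K j hm0) * Polynomial.X, ?_⟩
      rw [Polynomial.eval₂_mul, Polynomial.eval₂_C, Polynomial.eval₂_X]
      have h1 : (W1c J F e K : chart J K →+* _) (cq J K j hm0) = cq (cyc J F e) (K.map Fin.castSuccEmb)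
        (Fin.castSucc j) hm := W1c_cq J F e j hm0 hm
      rw [h1, mul_comm, cq_mul]
    | cast l =>
      refine ⟨Polynomial.C (cq J K l hm0), ?_⟩
      rw [Polynomial.eval₂_C]
      exact W1c_cq J F e l hm0 hm
  | h3 x y hx hy =>
    obtain ⟨p, rfl⟩ := hx
    obtain ⟨q, rfl⟩ := hy
    exact ⟨p + q, Polynomial.eval₂_add _ _⟩
  | h4 x y hx hy =>
    obtain ⟨p, rfl⟩ := hx
    obtain ⟨q, rfl⟩ := hy
    exact ⟨p * q, Polynomial.eval₂_mul _ _⟩

include hJ in
theorem W1_ker {K : Finset (Fin n)} {j : Fin n} (hj : j ∈ K) (hj' : Fin.castSucc j ∈ K.map Fin.castSuccEmb)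
    (p : Polynomial (chart J K)) (hp : Polynomial.eval₂ (W1c J F e K : chart J K →+* _)
      (cq (cyc J F e) (K.map Fin.castSuccEmb) (Fin.last n) hj') p = 0) :
    ∃ h, p = (Polynomial.X ^ e - Polynomial.C (eval₂ (algebraMap A (chart J K)) (fun l => cq J K l hj) F)) * h := by
  set f := eval₂ (algebraMap A (chart J K)) (fun l => cq J K l hj) F with hf
  set g : Polynomial (chart J K) := Polynomial.X ^ e - Polynomial.C f with hg
  let T := AdjoinRoot g
  let φ : A →+* T := (AdjoinRoot.of g).comp (algebraMap A (chart J K))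
  let z : Fin (n + 1) → T := Fin.lastCases (AdjoinRoot.root g) fun l => AdjoinRoot.of g (cq J K l hj)
  have hz1 : ∀ l, z (Fin.castSucc l) = AdjoinRoot.of g (cq J K l hj) := fun l => Fin.lastCases_castSucc _
  have hz2 : z (Fin.last n) = AdjoinRoot.root g := Fin.lastCases_last
  have hroot : AdjoinRoot.root g ^ e = AdjoinRoot.of g f := by
    have h1 := AdjoinRoot.eval₂_root g
    rw [hg, Polynomial.eval₂_sub, Polynomial.eval₂_pow, Polynomial.eval₂_X, Polynomial.eval₂_C, sub_eq_zero, ← hg] at h1
    exact h1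
  have hev : ∀ q : MvPolynomial (Fin n) A, eval₂ φ z (rename Fin.castSucc q) =
      AdjoinRoot.of g (eval₂ (algebraMap A (chart J K)) (fun l => cq J K l hj) q) := by
    intro q
    rw [eval₂_rename, hom_eval₂]
    exact congrArg (fun y => eval₂ φ y q) (funext hz1)
  obtain ⟨ρ, hρ0, hρ⟩ := exists_chart_lift (cyc J F e) (K.map Fin.castSuccEmb) φ hj' z
    (by rw [hz1, cq_self, map_one])
    (by
      intro m hm
      obtain ⟨m0, hm0, rfl⟩ := Finset.mem_map.1 hm
      have h1 := hz1 m0
      change IsUnit (z (Fin.castSucc m0))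
      rw [h1]
      exact (cq_isUnit J K hm0 hj).map _)
    (by
      intro q hq
      have h1 : cyc J F e ≤ RingHom.ker (eval₂Hom φ z) := by
        refine sup_le ?_ ?_
        · rw [Ideal.map_le_iff_le_comap]
          intro q hq
          change eval₂ φ z (rename Fin.castSucc q) = 0
          rw [hev, eval₂_cq hJ hj hq, map_zero]
        · rw [Ideal.span_singleton_le_iff_mem]
          change eval₂ φ z (X (Fin.last n) ^ e - rename Fin.castSucc F) = 0
          rw [eval₂_sub, eval₂_pow, eval₂_X, hev, hz2, hroot, sub_self]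
      exact h1 hq)
  have hA : ∀ a : chart J K, ρ (W1c J F e K a) = AdjoinRoot.of g a := by
    intro a
    have h1 : ρ.comp (W1c J F e K : chart J K →+* _) = AdjoinRoot.of g := by
      refine chart_hom_ext' J K hj (fun a => ?_) fun l => ?_
      · rw [RingHom.comp_apply]
        refine Eq.trans (congrArg ρ (AlgHom.commutes (W1c J F e K) a)) (hρ0 a)
      · rw [RingHom.comp_apply]
        refine Eq.trans (congrArg ρ (W1c_cq J F e l hj hj')) ((hρ _).trans (hz1 l))
    exact DFunLike.congr_fun h1 a
  have hB : ρ.comp (Polynomial.eval₂RingHom (W1c J F e K : chart J K →+* _)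
      (cq (cyc J F e) (K.map Fin.castSuccEmb) (Fin.last n) hj')) = AdjoinRoot.mk g := by
    refine Polynomial.ringHom_ext (fun a => ?_) ?_
    · rw [RingHom.comp_apply, Polynomial.coe_eval₂RingHom, Polynomial.eval₂_C]
      exact hA a
    · rw [RingHom.comp_apply, Polynomial.coe_eval₂RingHom, Polynomial.eval₂_X, hρ, hz2]
      rfl
  have hC : AdjoinRoot.mk g p = 0 := by
    have h1 := DFunLike.congr_fun hB p
    rw [RingHom.comp_apply, Polynomial.coe_eval₂RingHom, hp, map_zero] at h1
    exact h1.symm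
  exact AdjoinRoot.mk_eq_zero.1 hC

end

end MPadcDC
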