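import Pool.Agent.Lib.MP_adc574_ag_DC.W1P
import Pool.Agent.Lib.MP_adc574_ag_GP.GrA

/-!
# Forms of `B = R[ζ]`, `ζ ^ e = f`: the part of weight `0`

`W1_retr`: the forms of `R` are the forms of weight `0` of `B` (`e` invertible).
-/

set_option autoImplicit false

namespace MPadcDC

open MPadcGP Polynomial

universe u v w

section red

variable {A : Type u} {R : Type v} [CommRing A] [CommRing R] [Algebra A R]

/-- The sum of the coefficients of the indices `i` with `e ∣ i + s`; `X ^ e` is replaced by `f`. -/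
noncomputable def W1r (A : Type u) {R : Type v} [CommRing A] [CommRing R] [Algebra A R] (e : ℕ) (f : R) (s : ℕ) :
    (Fm A R)[X] →+ Fm A R where
  toFun p := p.sum fun i a => if e ∣ i + s then fz A f ^ ((i + s) / e - s) * a else 0
  map_zero' := Polynomial.sum_zero_index _
  map_add' p q := by
    refine Polynomial.sum_add_index p q _ (fun i => ?_) fun i a b => ?_
    · split_ifs
      · rw [mul_zero]
      · rfl
    · split_ifs
      · rw [mul_add]
      · rw [add_zero]

theorem W1r_monomial (e : ℕ) (f : R) (s i : ℕ) (a : Fm A R) :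
    W1r A e f s (monomial i a) = if e ∣ i + s then fz A f ^ ((i + s) / e - s) * a else 0 := by
  change (monomial i a : (Fm A R)[X]).sum
    (fun i a => if e ∣ i + s then fz A f ^ ((i + s) / e - s) * a else 0) = _
  rw [Polynomial.sum_monomial_index]
  split_ifs
  · rw [mul_zero]
  · rfl

theorem W1r_C (e : ℕ) (f : R) (a : Fm A R) : W1r A e f 0 (C a) = a := by
  rw [← monomial_zero_left, W1r_monomial, Nat.zero_add, if_pos (dvd_zero e), Nat.zero_div, pow_zero, one_mul]

theorem W1r_Cmul (e : ℕ) (f : R) (s : ℕ) (a : Fm A R) (p : (Fm A R)[X]) :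
    W1r A e f s (C a * p) = a * W1r A e f s p := by
  induction p using Polynomial.induction_on' with
  | add p q hp hq => rw [mul_add, map_add, map_add, mul_add, hp, hq]
  | monomial i b =>
    rw [C_mul_monomial, W1r_monomial, W1r_monomial]
    split_ifs
    · rw [← map_pow, ← mul_assoc, fz_comm, mul_assoc]
    · rw [mul_zero]

theorem W1r_Xe {e : ℕ} (he : 0 < e) (f : R) {s : ℕ} (hs : s ≤ 1) (p : (Fm A R)[X]) :
    W1r A e f s (X ^ e * p) = fz A f * W1r A e f s p := by
  induction p using Polynomial.induction_on' with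
  | add p q hp hq => rw [mul_add, map_add, map_add, mul_add, hp, hq]
  | monomial i b =>
    rw [X_pow_mul, monomial_mul_X_pow, W1r_monomial, W1r_monomial]
    by_cases h : e ∣ i + s
    · have h1 : e ∣ i + e + s := by
        obtain ⟨k, hk⟩ := h
        exact ⟨k + 1, by rw [mul_add, ← hk]; omega⟩
      rw [if_pos h, if_pos h1, ← mul_assoc, ← pow_succ']
      congr 2
      obtain ⟨k, hk⟩ := h
      have h2 : i + e + s = e * (k + 1) := by rw [mul_add, ← hk]; omega
      rw [h2, hk, Nat.mul_div_cancel_left _ he, Nat.mul_div_cancel_left _ he]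
      have h3 : s ≤ k := by
        rcases Nat.eq_zero_or_pos k with h4 | h4
        · subst h4
          omega
        · omega
      omega
    · rw [if_neg h, if_neg, mul_zero]
      rintro ⟨k, hk⟩
      refine h ⟨k - 1, ?_⟩
      rw [Nat.mul_sub, ← hk]
      omega

theorem W1r_shift {e : ℕ} (he : 0 < e) (f : R) (p : (Fm A R)[X]) :
    W1r A e f 1 (X ^ (e - 1) * p) = W1r A e f 0 p := by
  induction p using Polynomial.induction_on' with
  | add p q hp hq => rw [mul_add, map_add, map_add, hp, hq]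
  | monomial i b =>
    rw [X_pow_mul, monomial_mul_X_pow, W1r_monomial, W1r_monomial]
    have h1 : i + (e - 1) + 1 = i + e := by omega
    rw [h1, Nat.add_zero, Nat.add_div_right _ he]
    by_cases h : e ∣ i
    · rw [if_pos h, if_pos (dvd_add h (dvd_refl e))]
      rfl
    · rw [if_neg h, if_neg]
      exact fun h2 => h ((Nat.dvd_add_left (dvd_refl e)).1 h2)

end red

section ev

variable {A : Type u} {R : Type v} {B : Type w} [CommRing A] [CommRing R] [CommRing B] [Algebra A R] [Algebra A B]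

/-- The evaluation at `ζ`. -/
noncomputable def W1e (ψ : R →ₐ[A] B) (ζ : B) : (Fm A R)[X] →+* Fm A B :=
  eval₂RingHom' (mp (ψ : R →+* B) (CC.of_algHom ψ)) (fz A ζ) fun _ => (fz_comm _ _).symm

theorem W1e_monomial (ψ : R →ₐ[A] B) (ζ : B) (i : ℕ) (a : Fm A R) :
    W1e ψ ζ (monomial i a) = mp (ψ : R →+* B) (CC.of_algHom ψ) a * fz A ζ ^ i := by
  change eval₂ _ _ _ = _
  rw [eval₂_monomial]

theorem W1e_C (ψ : R →ₐ[A] B) (ζ : B) (a : Fm A R) :
    W1e ψ ζ (C a) = mp (ψ : R →+* B) (CC.of_algHom ψ) a := by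
  rw [← monomial_zero_left, W1e_monomial, pow_zero, mul_one]

theorem W1e_t (ψ : R →ₐ[A] B) (ζ : B) (p : (Fm A R)[X]) : W1e ψ ζ (W1t A R p) = MPadcGP.inv A (W1e ψ ζ p) := by
  induction p using Polynomial.induction_on' with
  | add p q hp hq => rw [map_add, map_add, map_add, map_add, hp, hq]
  | monomial i a => rw [W1t_monomial, W1e_monomial, W1e_monomial, map_mul, mp_inv, map_pow, inv_fz]

theorem W1e_f (ψ : R →ₐ[A] B) (ζ : B) (p : R[X]) : W1e ψ ζ (W1f A R p) = fz A (eval₂ (ψ : R →+* B) ζ p) := by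
  induction p using Polynomial.induction_on' with
  | add p q hp hq => rw [map_add, map_add, hp, hq, eval₂_add, map_add]
  | monomial i a => rw [W1f_monomial, W1e_monomial, mp_fz, eval₂_monomial, map_mul, map_pow]

theorem W1H_aux (ζ : B) (a b c d : Fm A B) :
    a * c + df A ζ * (b * c + MPadcGP.inv A a * d) = (a + df A ζ * b) * (c + df A ζ * d) := by
  have h1 : ∀ c : Fm A B, c * df A ζ = df A ζ * MPadcGP.inv A c := by
    intro c
    rw [df_comm, MPadcGP.inv_inv]
  have h2 : df A ζ * b * (df A ζ * d) = 0 := by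
    rw [mul_assoc, ← mul_assoc b, h1, ← mul_assoc, ← mul_assoc, df_sq, zero_mul, zero_mul]
  rw [add_mul, mul_add, mul_add, mul_add, h2, add_zero, ← mul_assoc a (df A ζ), h1, mul_assoc, mul_assoc]
  abel

/-- The ring homomorphism `(x, y) ↦ x + dζ y`. -/
noncomputable def W1H (ψ : R →ₐ[A] B) (ζ : B) : Tw (Fm A R)[X] (W1t A R) →+* Fm A B where
  toFun x := W1e ψ ζ x.1 + df A ζ * W1e ψ ζ x.2
  map_one' := by
    rw [tw_one_fst, tw_one_snd, map_one, map_zero, mul_zero, add_zero]
  map_mul' x y := by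
    rw [tw_mul_fst, tw_mul_snd, map_add, map_mul, map_mul, map_mul, W1e_t]
    exact W1H_aux ζ _ _ _ _
  map_zero' := by
    rw [tw_zero_fst, tw_zero_snd, map_zero, mul_zero, add_zero]
  map_add' x y := by
    rw [tw_add_fst, tw_add_snd, map_add, map_add, mul_add]
    abel

theorem W1H_apply (ψ : R →ₐ[A] B) (ζ : B) (x : Tw (Fm A R)[X] (W1t A R)) :
    W1H ψ ζ x = W1e ψ ζ x.1 + df A ζ * W1e ψ ζ x.2 := rfl

/-- The algebra homomorphism `R[X] → B`. -/
noncomputable def W1v (ψ : R →ₐ[A] B) (ζ : B) : R[X] →ₐ[A] B := eval₂AlgHom ψ ζ fun _ => Commute.all _ _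

theorem W1v_apply (ψ : R →ₐ[A] B) (ζ : B) (p : R[X]) : W1v ψ ζ p = eval₂ (ψ : R →+* B) ζ p := rfl

theorem W1_HG (ψ : R →ₐ[A] B) (ζ : B) {G : Fm A R[X] →+* Tw (Fm A R)[X] (W1t A R)}
    (hG1 : ∀ p, G (fz A p) = tw _ (W1f A R p) 0)
    (hG2 : ∀ p, G (df A p) = tw _ (W1d A R p) (W1f A R (derivative p))) (x : Fm A R[X]) :
    W1H ψ ζ (G x) = mp (W1v ψ ζ : R[X] →+* B) (CC.of_algHom (W1v ψ ζ)) x := by
  have h0 : ∀ p, W1H ψ ζ (G (fz A p)) = fz A (W1v ψ ζ p) := by
    intro p
    rw [hG1, W1H_apply]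
    change W1e ψ ζ (W1f A R p) + df A ζ * W1e ψ ζ 0 = _
    rw [map_zero, mul_zero, add_zero, W1e_f, W1v_apply]
  have h1 : (W1H ψ ζ).comp G = mp (W1v ψ ζ : R[X] →+* B) (CC.of_algHom (W1v ψ ζ)) := by
    refine hom_ext' (fun p => ?_) fun p => ?_
    · rw [RingHom.comp_apply, h0, mp_fz]
      rfl
    · rw [RingHom.comp_apply, mp_df]
      change _ = df A (W1v ψ ζ p)
      induction p using Polynomial.induction_on with
      | C a =>
        rw [hG2, W1H_apply]
        change W1e ψ ζ (W1d A R (C a)) + df A ζ * W1e ψ ζ (W1f A R (derivative (C a))) = _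
        rw [derivative_C, map_zero, map_zero, mul_zero, add_zero, ← monomial_zero_left, W1d_monomial,
          monomial_zero_left, W1e_C, mp_df, W1v_apply, monomial_zero_left, eval₂_C]
      | add p q hp hq => rw [df_add, map_add, map_add, hp, hq, map_add, df_add]
      | monomial i a h =>
        have hX : W1H ψ ζ (G (df A (X : R[X]))) = df A ζ := by
          rw [hG2, W1H_apply]
          change W1e ψ ζ (W1d A R X) + df A ζ * W1e ψ ζ (W1f A R (derivative X)) = _
          rw [derivative_X, map_one, map_one, mul_one, ← monomial_one_one_eq_X, W1d_monomial, df_one, map_zero, map_zero,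
            zero_add]
        have hvX : W1v ψ ζ (X : R[X]) = ζ := by rw [W1v_apply, eval₂_X]
        rw [pow_succ, ← mul_assoc, df_mul, map_add G, map_mul G, map_mul G, map_add (W1H ψ ζ), map_mul (W1H ψ ζ),
          map_mul (W1H ψ ζ), h0, h0, h, hX, hvX, map_mul (W1v ψ ζ) _ X, df_mul, hvX]
  exact DFunLike.congr_fun h1 x

end ev

section main

variable {A : Type u} {R : Type v} {B : Type w} [CommRing A] [CommRing R] [CommRing B] [Algebra A R] [Algebra A B]

theorem W1_retr (ψ : R →ₐ[A] B) (ζ : B) (f : R) {e : ℕ} (he : 0 < e) (ε : A) (hε : ε * (e : A) = 1)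
    (hζ : ζ ^ e = ψ f) (hs : ∀ b : B, ∃ p : R[X], eval₂ (ψ : R →+* B) ζ p = b)
    (hk : ∀ p : R[X], eval₂ (ψ : R →+* B) ζ p = 0 → ∃ h, p = (X ^ e - C f) * h)
    {M : Type} [AddCommGroup M] [Fintype M] [DecidableEq M] (Gd : Grd A B M) (w : M)
    (hw : ∀ i : ℕ, i • w = 0 ↔ e ∣ i) (hψ : ∀ μ r, Gd.c μ (ψ r) = if μ = 0 then ψ r else 0)
    (hζw : ∀ μ, Gd.c μ ζ = if μ = w then ζ else 0) :
    ∃ ρ : Fm A B →+ Fm A R, (∀ x, ρ (mp (ψ : R →+* B) (CC.of_algHom ψ) x) = x) ∧
      ∀ y, mp (ψ : R →+* B) (CC.of_algHom ψ) (ρ y) = wp Gd 0 y := by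
  classical
  obtain ⟨G, hG1, hG2⟩ := W1_exG (A := A) (R := R)
  let r : Tw (Fm A R)[X] (W1t A R) →+ Fm A R :=
    { toFun := fun x => W1r A e f 0 x.1 + fz A (algebraMap A R ε) * df A f * W1r A e f 1 x.2
      map_zero' := by
        rw [tw_zero_fst, tw_zero_snd, map_zero, map_zero, mul_zero, add_zero]
      map_add' := fun x y => by
        rw [tw_add_fst, tw_add_snd, map_add, map_add, mul_add]
        abel }
  have hr : ∀ a b, r (tw _ a b) = W1r A e f 0 a + fz A (algebraMap A R ε) * df A f * W1r A e f 1 b := fun a b => rfl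
  have hm : ∀ a b a' b' : (Fm A R)[X], tw (W1t A R) a b * tw (W1t A R) a' b' =
      tw _ (a * a') (b * a' + W1t A R a * b') := fun _ _ _ _ => rfl
  have hgf : W1f A R (X ^ e - C f) = X ^ e - C (fz A f) := by
    rw [map_sub, map_pow, ← monomial_one_one_eq_X, W1f_monomial, ← monomial_zero_left, W1f_monomial, map_one,
      monomial_zero_left, monomial_one_one_eq_X]
  have hgd : W1d A R (X ^ e - C f) = -C (df A f) := by
    rw [map_sub, X_pow_eq_monomial, W1d_monomial, df_one, map_zero, ← monomial_zero_left, W1d_monomial,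
      monomial_zero_left, zero_sub]
  have hgp : W1f A R (derivative (X ^ e - C f)) = C (fz A (e : R)) * X ^ (e - 1) := by
    rw [derivative_sub, derivative_C, sub_zero, derivative_X_pow, map_mul, map_pow, ← monomial_zero_left, W1f_monomial,
      ← monomial_one_one_eq_X, W1f_monomial, map_one, monomial_zero_left, monomial_one_one_eq_X]
  have hεe : fz A (algebraMap A R ε) * fz A (e : R) = 1 := by
    rw [← map_mul, ← map_natCast (algebraMap A R) e, ← map_mul, hε, map_one, map_one]
  have h1 : ∀ ω, r (G (fz A (X ^ e - C f) * ω)) = 0 := by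
    intro ω
    have e1 : G ω = tw _ (G ω).1 (G ω).2 := rfl
    rw [map_mul, hG1, e1, hm, hr, zero_mul, zero_add, W1t_f, hgf, sub_mul, sub_mul, map_sub, map_sub,
      W1r_Xe he f (Nat.zero_le 1), W1r_Xe he f le_rfl, W1r_Cmul, W1r_Cmul, sub_self, sub_self, mul_zero, add_zero]
  have h2 : ∀ ω, r (G (df A (X ^ e - C f) * ω)) = 0 := by
    intro ω
    have e1 : G ω = tw _ (G ω).1 (G ω).2 := rfl
    have hA : ∀ a b : (Fm A R)[X], W1r A e f 1 (C (fz A (e : R)) * X ^ (e - 1) * a + C (df A f) * b) =
        fz A (e : R) * W1r A e f 0 a + df A f * W1r A e f 1 b := by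
      intro a b
      rw [map_add, mul_assoc, W1r_Cmul, W1r_shift he, W1r_Cmul]
    rw [map_mul, hG2, e1, hm, hr, W1t_d, hgd, hgp, neg_neg, neg_mul, map_neg, W1r_Cmul, hA]
    have e2 : fz A (algebraMap A R ε) * df A f * (fz A (e : R) * W1r A e f 0 (G ω).1 + df A f * W1r A e f 1 (G ω).2) =
        (fz A (algebraMap A R ε) * fz A (e : R)) * (df A f * W1r A e f 0 (G ω).1) +
          fz A (algebraMap A R ε) * (df A f * df A f) * W1r A e f 1 (G ω).2 := by
      rw [mul_add, mul_assoc (fz A (algebraMap A R ε)) (df A f), ← mul_assoc (df A f) (fz A (e : R)), ← fz_comm (e : R) (df A f)]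
      simp only [mul_assoc]
    rw [e2, hεe, df_sq, mul_zero, zero_mul, one_mul, add_zero, neg_add_cancel]
  obtain ⟨ρ, hρ⟩ := W1_desc (W1v ψ ζ) hs (X ^ e - C f) hk (r.comp G.toAddMonoidHom) h1 h2
  have hρ' : ∀ ω, ρ (mp (W1v ψ ζ : R[X] →+* B) (CC.of_algHom (W1v ψ ζ)) ω) = r (G ω) := hρ
  refine ⟨ρ, fun x => ?_, fun y => ?_⟩
  · have e1 : mp (ψ : R →+* B) (CC.of_algHom ψ) x = mp (W1v ψ ζ : R[X] →+* B) (CC.of_algHom (W1v ψ ζ))
        (mp ((CAlgHom : R →ₐ[A] R[X]) : R →+* R[X]) (CC.of_algHom _) x) := by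
      rw [← mp_comp _ _ ((CC.of_algHom (CAlgHom : R →ₐ[A] R[X])).comp (CC.of_algHom (W1v ψ ζ)))]
      refine mp_congr _ _ ?_ x
      refine RingHom.ext fun t => ?_
      change ψ t = eval₂ (ψ : R →+* B) ζ (C t)
      rw [eval₂_C]
      rfl
    have e2 : ∀ x, G (mp ((CAlgHom : R →ₐ[A] R[X]) : R →+* R[X]) (CC.of_algHom _) x) = tw _ (C x) 0 := by
      intro x
      induction x using fm_ind with
      | h1 t =>
        rw [mp_fz, hG1]
        change tw _ (W1f A R (C t)) 0 = _
        rw [← monomial_zero_left, W1f_monomial, monomial_zero_left]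
      | h2 t =>
        rw [mp_df, hG2]
        change tw _ (W1d A R (C t)) (W1f A R (derivative (C t))) = _
        rw [derivative_C, map_zero, ← monomial_zero_left, W1d_monomial, monomial_zero_left]
      | h3 a b ha hb =>
        rw [map_mul, map_mul, ha, hb, hm, zero_mul, mul_zero, add_zero, map_mul]
      | h4 a b ha hb =>
        rw [map_add, map_add, ha, hb, map_add]
        exact tw_ext rfl (add_zero _)
    rw [e1, hρ', e2, hr, W1r_C, map_zero, mul_zero, add_zero]
  · have hsurj : ∀ y : Fm A B, ∃ ω, mp (W1v ψ ζ : R[X] →+* B) (CC.of_algHom (W1v ψ ζ)) ω = y := by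
      intro y
      induction y using fm_ind with
      | h1 b =>
        obtain ⟨p, hp⟩ := hs b
        exact ⟨fz A p, by rw [mp_fz]; exact congrArg _ hp⟩
      | h2 b =>
        obtain ⟨p, hp⟩ := hs b
        exact ⟨df A p, by rw [mp_df]; exact congrArg _ hp⟩
      | h3 a b ha hb =>
        obtain ⟨a', rfl⟩ := ha
        obtain ⟨b', rfl⟩ := hb
        exact ⟨a' * b', map_mul _ _ _⟩
      | h4 a b ha hb =>
        obtain ⟨a', rfl⟩ := ha
        obtain ⟨b', rfl⟩ := hb
        exact ⟨a' + b', map_add _ _ _⟩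
    obtain ⟨ω, rfl⟩ := hsurj y
    rw [hρ', ← W1_HG ψ ζ hG1 hG2]
    generalize G ω = x
    -- weights
    have hmul : ∀ (κ : M) (u v : Fm A B), (∀ ν, wp Gd ν u = if ν = κ then u else 0) → ∀ μ,
        wp Gd μ (u * v) = u * wp Gd (μ - κ) v := by
      intro κ u v hu μ
      rw [wp_mul, Finset.sum_eq_single κ]
      · rw [hu, if_pos rfl]
      · intro ν _ hν
        rw [hu, if_neg hν, zero_mul]
      · intro h
        exact absurd (Finset.mem_univ _) h
    have hψ0 : ∀ (α : Fm A R) (ν : M), wp Gd ν (mp (ψ : R →+* B) (CC.of_algHom ψ) α) =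
        if ν = 0 then mp (ψ : R →+* B) (CC.of_algHom ψ) α else 0 := by
      intro α
      induction α using fm_ind with
      | h1 t =>
        intro ν
        rw [mp_fz, wp_fz]
        change fz A (Gd.c ν (ψ t)) = _
        rw [hψ]
        split_ifs
        · rfl
        · rw [map_zero]
      | h2 t =>
        intro ν
        rw [mp_df, wp_df]
        change df A (Gd.c ν (ψ t)) = _
        rw [hψ]
        split_ifs
        · rfl
        · rw [df_zero]
      | h3 a b ha hb =>
        intro ν
        rw [map_mul, hmul 0 _ _ ha, sub_zero, hb]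
        split_ifs
        · rfl
        · rw [mul_zero]
      | h4 a b ha hb =>
        intro ν
        rw [map_add, wp_add, ha, hb]
        split_ifs
        · rfl
        · rw [add_zero]
    have hζ1 : ∀ ν, wp Gd ν (fz A ζ) = if ν = w then fz A ζ else 0 := by
      intro ν
      rw [wp_fz, hζw]
      split_ifs
      · rfl
      · rw [map_zero]
    have hζ2 : ∀ ν, wp Gd ν (df A ζ) = if ν = w then df A ζ else 0 := by
      intro ν
      rw [wp_df, hζw]
      split_ifs
      · rfl
      · rw [df_zero]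
    have hζi : ∀ (i : ℕ) (ν : M), wp Gd ν (fz A ζ ^ i) = if ν = i • w then fz A ζ ^ i else 0 := by
      intro i
      induction i with
      | zero =>
        intro ν
        have h3 := hψ0 1 ν
        rw [map_one] at h3
        rw [pow_zero, zero_smul, h3]
      | succ i ih =>
        intro ν
        rw [pow_succ', hmul w _ _ hζ1, ih, succ_nsmul]
        by_cases h : ν = i • w + w
        · rw [if_pos h, if_pos (by rw [h, add_sub_cancel_right])]
        · rw [if_neg h, if_neg (fun h3 => h (by rw [← h3, sub_add_cancel])), mul_zero]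
    have hfz : fz A ζ ^ e = mp (ψ : R →+* B) (CC.of_algHom ψ) (fz A f) := by
      rw [mp_fz, ← map_pow, hζ]
      rfl
    have hdp : ∀ m : ℕ, df A (ζ ^ (m + 1)) = fz A ((m + 1 : ℕ) : B) * (df A ζ * fz A ζ ^ m) := by
      intro m
      induction m with
      | zero =>
        rw [zero_add, pow_one, pow_zero, mul_one, Nat.cast_one, map_one, one_mul]
      | succ m ih =>
        have e3 : fz A ζ * (df A ζ * fz A ζ ^ m) = df A ζ * fz A ζ ^ (m + 1) := by
          rw [← mul_assoc, fz_comm ζ, mul_assoc, ← pow_succ']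
        have e4 : fz A ζ * (fz A ((m + 1 : ℕ) : B) * (df A ζ * fz A ζ ^ m)) =
            fz A ((m + 1 : ℕ) : B) * (df A ζ * fz A ζ ^ (m + 1)) := by
          rw [← mul_assoc, ← map_mul, mul_comm ζ, map_mul, mul_assoc, e3]
        rw [pow_succ' ζ (m + 1), df_mul, ih, e4, Nat.cast_succ (m + 1), map_add, map_one, add_mul, one_mul, map_pow,
          ← map_pow, fz_comm (ζ ^ (m + 1)) (df A ζ), map_pow]
    have hdf : df A ζ * fz A ζ ^ (e - 1) = mp (ψ : R →+* B) (CC.of_algHom ψ) (fz A (algebraMap A R ε) * df A f) := by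
      rw [map_mul, mp_fz, mp_df]
      have e3 : df A ((ψ : R →+* B) f) = df A (ζ ^ e) := by rw [hζ]; rfl
      have e4 : e = (e - 1) + 1 := by omega
      rw [e3]
      conv_rhs => rw [e4]
      rw [hdp, ← e4, ← mul_assoc, ← map_mul]
      have e5 : (ψ : R →+* B) (algebraMap A R ε) * (e : B) = 1 := by
        change ψ (algebraMap A R ε) * (e : B) = 1
        rw [AlgHom.commutes, ← map_natCast (algebraMap A B) e, ← map_mul, hε, map_one]
      rw [e5, map_one, one_mul]
    have L0 : ∀ a : (Fm A R)[X], mp (ψ : R →+* B) (CC.of_algHom ψ) (W1r A e f 0 a) = wp Gd 0 (W1e ψ ζ a) := by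
      intro a
      induction a using Polynomial.induction_on' with
      | add p q hp hq => rw [map_add, map_add, hp, hq, map_add, wp_add]
      | monomial i α =>
        rw [W1r_monomial, W1e_monomial, hmul 0 _ _ (hψ0 α), sub_zero, hζi, Nat.add_zero, Nat.sub_zero]
        by_cases h : e ∣ i
        · rw [if_pos h, if_pos ((hw i).2 h).symm, map_mul, map_pow, ← hfz, ← pow_mul]
          rw [Nat.mul_div_cancel' h, ← map_pow, fz_comm]
        · rw [if_neg h, if_neg (fun h3 => h ((hw i).1 h3.symm)), map_zero, mul_zero]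
    have L1 : ∀ b : (Fm A R)[X], mp (ψ : R →+* B) (CC.of_algHom ψ)
        (fz A (algebraMap A R ε) * df A f * W1r A e f 1 b) = wp Gd 0 (df A ζ * W1e ψ ζ b) := by
      intro b
      induction b using Polynomial.induction_on' with
      | add p q hp hq => rw [map_add, mul_add, map_add, hp, hq, map_add, mul_add, wp_add]
      | monomial i β =>
        rw [W1r_monomial, W1e_monomial, hmul w _ _ hζ2, hmul 0 _ _ (hψ0 β), hζi, zero_sub, sub_zero]
        by_cases h : e ∣ i + 1
        · have e3 : -w = i • w := by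
            have := (hw (i + 1)).2 h
            rw [succ_nsmul] at this
            exact (eq_neg_of_add_eq_zero_left this).symm
          rw [if_pos h, if_pos e3, map_mul, ← hdf, map_mul, map_pow, ← hfz, ← pow_mul]
          obtain ⟨k, hk1⟩ := h
          have hk2 : 0 < k := by
            rcases Nat.eq_zero_or_pos k with h4 | h4
            · subst h4
              omega
            · exact h4
          have e4 : (e - 1) + e * ((i + 1) / e - 1) = i := by
            rw [hk1, Nat.mul_div_cancel_left _ he, Nat.mul_sub, ← hk1, mul_one]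
            have : e ≤ i + 1 := by
              rw [hk1]
              exact Nat.le_mul_of_pos_right e hk2
            omega
          rw [mul_assoc, ← mul_assoc (fz A ζ ^ (e - 1)), ← pow_add, e4, ← map_pow, fz_comm]
        · have e3 : ¬ -w = i • w := by
            intro h3
            refine h ((hw (i + 1)).1 ?_)
            rw [succ_nsmul, ← h3, neg_add_cancel]
          rw [if_neg h, if_neg e3, mul_zero, map_zero, mul_zero, mul_zero]
    have e6 : x = tw _ x.1 x.2 := rfl
    rw [e6, hr, map_add, L0, L1, ← wp_add]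
    rfl

end main

end MPadcDC
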