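import Pool.Agent.Lib.MP_adc574_ag_DC.PHom
import Pool.Agent.Lib.MP_adc574_ag_DC.W1G
import Pool.Agent.Lib.MP_adc574_ag_DC.W1R

/-!
# The charts of the cyclic cover without the last coordinate
-/

set_option autoImplicit false

namespace MPadcDC

open MPadcGP MvPolynomial

universe u v w

section

variable {A : Type u} [CommRing A] {n e : ℕ} {J : Ideal (MvPolynomial (Fin n) A)} (hJ : IsHomog J)
  {F : MvPolynomial (Fin n) A} (hF : F.IsHomogeneous e)

private theorem W1C_cq {M : Type*} [AddCommGroup M] [DecidableEq M] [Fintype M] {N : ℕ} {wt : Fin N → M}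
    {I : Ideal (MvPolynomial (Fin N) A)} (hI : IsHomog I) (hw : IsWHomog wt I) {K : Finset (Fin N)} (l : Fin N)
    {j : Fin N} (hj : j ∈ K) (μ : M) :
    (grC hI hw K).c μ (cq I K l hj) = if wt l - wt j = μ then cq I K l hj else 0 := by
  change (gc hI hw K (cq I K l hj)).coeff μ = _
  rw [gc_cq, coeff_single']

theorem W1_retC [NeZero e] {ε : A} (hε : ε * (e : A) = 1) {K : Finset (Fin n)} (hK : K.Nonempty) :
    ∃ ρ : Fm A (chart (cyc J F e) (K.map Fin.castSuccEmb)) →+ Fm A (chart J K),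
      (∀ x, ρ (mp (W1c J F e K : chart J K →+* _) (CC.of_algHom _) x) = x) ∧
      ∀ y, mp (W1c J F e K : chart J K →+* _) (CC.of_algHom _) (ρ y) =
        wp (grC (isHomog_cyc hJ hF) (isWHomog_cyc hJ hF) (K.map Fin.castSuccEmb)) 0 y := by
  obtain ⟨j, hj⟩ := hK
  have hj' : Fin.castSucc j ∈ K.map Fin.castSuccEmb := Finset.mem_map_of_mem Fin.castSuccEmb hj
  have hl : wz n e (Fin.last n) = 0 := if_pos rfl
  have hc : ∀ l : Fin n, wz n e (Fin.castSucc l) = 1 := fun l => if_neg (Fin.castSucc_ne_last l)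
  refine W1_retr (W1c J F e K) (cq (cyc J F e) (K.map Fin.castSuccEmb) (Fin.last n) hj')
    (eval₂ (algebraMap A (chart J K)) (fun l => cq J K l hj) F) (Nat.pos_of_ne_zero (NeZero.ne e)) ε hε
    (W1_zeta hJ hF hj hj') (W1_surj hj') (W1_ker hJ hj hj') _ (-1 : ZMod e) ?_ ?_ ?_
  · intro i
    rw [smul_neg, neg_eq_zero, nsmul_one, ZMod.natCast_eq_zero_iff]
  · intro μ r
    induction r using chart_ind generalizing μ with
    | h1 a =>
      rw [AlgHom.commutes, Grd.c_base]
    | h2 l m hm =>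
      rw [W1c_cq J F e l hm (Finset.mem_map_of_mem Fin.castSuccEmb hm), W1C_cq, hc, hc, sub_self]
      by_cases h : μ = 0
      · rw [if_pos h, if_pos h.symm]
      · rw [if_neg h, if_neg (Ne.symm h)]
    | h3 x y hx hy =>
      rw [map_add, Grd.c_add, hx, hy]
      split_ifs
      · rfl
      · rw [add_zero]
    | h4 x y hx hy =>
      rw [map_mul, Grd.c_mul, Finset.sum_eq_single 0]
      · rw [hx, if_pos rfl, sub_zero, hy]
        split_ifs
        · rfl
        · rw [mul_zero]
      · intro ν _ hν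
        rw [hx, if_neg hν, zero_mul]
      · intro h
        exact absurd (Finset.mem_univ _) h
  · intro μ
    rw [W1C_cq, hl, hc, zero_sub]
    by_cases h : μ = -1
    · rw [if_pos h, if_pos h.symm]
    · rw [if_neg h, if_neg (Ne.symm h)]

end

end MPadcDC
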