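import Pool.Agent.Lib.MP_adc574_ag_GP.DRm

/-!
# An injective map of forms reflects the degree
-/

set_option autoImplicit false

namespace MPadcDC

open MPadcGP

universe u v w x

section

variable {A : Type u} {R : Type v} {B : Type w} {S : Type x} [CommRing A] [CommRing R] [CommRing B] [CommRing S]
  [Algebra A R] [Algebra B S]

theorem W1_dec (φ : R →+* S) (h : CC A B φ) (q : ℕ) (y : Fm A R) :
    mp φ h (DirectSum.decompose (fun i : ℕ => ⋀[R]^i (Ω[R⁄A])) y q : Fm A R) =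
      (DirectSum.decompose (fun i : ℕ => ⋀[S]^i (Ω[S⁄B])) (mp φ h y) q : Fm B S) := by
  classical
  induction y using DirectSum.Decomposition.inductionOn (fun i : ℕ => ⋀[R]^i (Ω[R⁄A])) with
  | zero =>
    rw [map_zero (mp φ h), DirectSum.decompose_zero, DirectSum.decompose_zero]
    exact map_zero (mp φ h)
  | @homogeneous i m =>
    have h1 : mp φ h (m : Fm A R) ∈ (fun i : ℕ => ⋀[S]^i (Ω[S⁄B])) i := mp_mem (A := A) h m.2
    by_cases hi : i = q
    · subst hi
      rw [DirectSum.decompose_of_mem_same (fun i : ℕ => ⋀[R]^i (Ω[R⁄A])) m.2,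
        DirectSum.decompose_of_mem_same (fun i : ℕ => ⋀[S]^i (Ω[S⁄B])) h1]
    · rw [DirectSum.decompose_of_mem_ne (fun i : ℕ => ⋀[R]^i (Ω[R⁄A])) m.2 hi,
        DirectSum.decompose_of_mem_ne (fun i : ℕ => ⋀[S]^i (Ω[S⁄B])) h1 hi, map_zero]
  | add a b ha hb =>
    rw [map_add (mp φ h), DirectSum.decompose_add, DirectSum.decompose_add, DirectSum.add_apply, DirectSum.add_apply,
      Submodule.coe_add, Submodule.coe_add, map_add (mp φ h), ha, hb]

theorem W1_reflect {φ : R →+* S} {h : CC A B φ} (hi : Function.Injective (mp φ h)) {q : ℕ} {y : Fm A R}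
    (hy : mp φ h y ∈ Fd B S q) : y ∈ Fd A R q := by
  classical
  have h1 := W1_dec φ h q y
  have h2 : mp φ h y ∈ (fun i : ℕ => ⋀[S]^i (Ω[S⁄B])) q := hy
  rw [DirectSum.decompose_of_mem_same (fun i : ℕ => ⋀[S]^i (Ω[S⁄B])) h2] at h1
  have h3 := hi h1
  rw [← h3]
  exact (DirectSum.decompose (fun i : ℕ => ⋀[R]^i (Ω[R⁄A])) y q).2

end

end MPadcDC
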