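import Pool.Agent.Lib.MP_adc574_ag_GP.Cov

/-!
# Sets without the last index
-/

set_option autoImplicit false

namespace MPadcDC

open MPadcGP

universe u v w

variable {n : ℕ}

theorem W1_sg (j : Fin n) (K : Finset (Fin n)) : sg (Fin.castSucc j) (K.map Fin.castSuccEmb) = sg j K := by
  unfold sg
  congr 1
  have h1 : (K.map Fin.castSuccEmb).filter (· < Fin.castSucc j) = (K.filter (· < j)).map Fin.castSuccEmb := by
    rw [Finset.filter_map]
    congr 1
  rw [h1, Finset.card_map]

theorem W1_exK {K' : Finset (Fin (n + 1))} (hK : Fin.last n ∉ K') :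
    ∃ K : Finset (Fin n), K.map Fin.castSuccEmb = K' := by
  classical
  refine ⟨Finset.univ.filter fun j => Fin.castSucc j ∈ K', ?_⟩
  ext l
  rw [Finset.mem_map]
  constructor
  · rintro ⟨j, hj, rfl⟩
    exact (Finset.mem_filter.1 hj).2
  · intro hl
    induction l using Fin.lastCases with
    | last => exact absurd hl hK
    | cast j => exact ⟨j, Finset.mem_filter.2 ⟨Finset.mem_univ _, hl⟩, rfl⟩

theorem W1_last_notMem (K : Finset (Fin n)) : Fin.last n ∉ K.map Fin.castSuccEmb := by
  intro h
  obtain ⟨j, -, hj⟩ := Finset.mem_map.1 h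
  exact Fin.castSucc_ne_last j hj

end MPadcDC
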