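import Pool.Agent.Lib.MP_adc574_ag_DC.W1K
import Pool.Agent.Lib.MP_adc574_ag_DC.W1L
import Pool.Agent.Lib.MP_adc574_ag_DC.W1D
import Pool.Agent.Lib.MP_adc574_ag_GP.Hom
import Pool.Agent.Lib.MP_adc574_ag_GP.Mod4

/-!
# The cover of the cyclic cover without the last coordinate
-/

set_option autoImplicit false

namespace MPadcDC

open MPadcGP MvPolynomial

universe u v w

section res

variable {A : Type u} [CommRing A] {n : ℕ}

/-- The cover by the coordinates without the last one. -/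
noncomputable def W1X (Q : Ideal (MvPolynomial (Fin (n + 1)) A)) : CovD.{u, u} A n where
  R K := chart Q (K.map Fin.castSuccEmb)
  ρ h := tr Q (Finset.map_subset_map.2 h)
  ρ_id K x := by
    have h1 := tr_id Q (K.map Fin.castSuccEmb)
    exact DFunLike.congr_fun h1 x
  ρ_comp h h' x := tr_tr Q _ _ x

variable (Q : Ideal (MvPolynomial (Fin (n + 1)) A))

/-- The restriction to the sets without the last coordinate. -/
noncomputable def W1res (c : (prC Q).Ch) : (W1X Q).Ch := fun K => c (K.map Fin.castSuccEmb)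

theorem W1res_ev (c : (prC Q).Ch) {K L : Finset (Fin n)} (h : K ⊆ L) :
    (W1X Q).ev (W1res Q c) K L = (prC Q).ev c (K.map Fin.castSuccEmb) (L.map Fin.castSuccEmb) := by
  rw [CovD.ev_of h, CovD.ev_of (Finset.map_subset_map.2 h)]
  rfl

theorem W1res_Dt (c : (prC Q).Ch) : (W1X Q).Dt (W1res Q c) = W1res Q ((prC Q).Dt c) := by
  funext K
  rw [CovD.Dt_apply, Pi.add_apply]
  change _ = (prC Q).Dt c (K.map Fin.castSuccEmb)
  rw [CovD.Dt_apply, Pi.add_apply, CovD.dc_apply, CovD.dc_apply, CovD.del_apply, CovD.del_apply, Finset.sum_map]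
  have h1 : ∀ j ∈ K, sg j K • (W1X Q).ev ((W1X Q).ic (W1res Q c)) (K.erase j) K =
      sg (Fin.castSuccEmb j) (K.map Fin.castSuccEmb) •
        (prC Q).ev ((prC Q).ic c) ((K.map Fin.castSuccEmb).erase (Fin.castSuccEmb j)) (K.map Fin.castSuccEmb) := by
    intro j hj
    have h2 : (K.map Fin.castSuccEmb).erase (Fin.castSuccEmb j) = (K.erase j).map Fin.castSuccEmb :=
      (Finset.map_erase _ _ _).symm
    rw [h2, CovD.ev_ic, CovD.ev_ic, W1res_ev Q c (Finset.erase_subset j K)]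
    have h3 : sg (Fin.castSuccEmb j) (K.map Fin.castSuccEmb) = sg j K := W1_sg j K
    rw [h3]
    rfl
  rw [Finset.sum_congr rfl h1]
  rfl

/-- Cochains extend. -/
theorem W1_ext (c : (W1X Q).Ch) : ∃ c' : (prC Q).Ch, W1res Q c' = c ∧ ∀ K', Fin.last n ∈ K' → c' K' = 0 := by
  classical
  have h1 : ∀ K' : Finset (Fin (n + 1)), ∃ y : (prC Q).E K', (Fin.last n ∈ K' → y = 0) ∧
      ∀ (K : Finset (Fin n)) (e : K.map Fin.castSuccEmb = K'), y = (prC Q).rs (by rw [e]) (c K : (prC Q).E (K.map Fin.castSuccEmb)) := by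
    intro K'
    by_cases hK : Fin.last n ∈ K'
    · exact ⟨0, fun _ => rfl, fun K e => absurd (e ▸ hK) (W1_last_notMem K)⟩
    · obtain ⟨K, hK2⟩ := W1_exK hK
      subst hK2
      refine ⟨c K, fun h => absurd h hK, fun K2 e => ?_⟩
      have h2 : K2 = K := Finset.map_injective _ e
      subst h2
      exact (CovD.rs_id (X := prC Q) _ _ _).symm
  choose c' hc1 hc2 using h1
  refine ⟨c', ?_, hc1⟩
  funext K
  change c' (K.map Fin.castSuccEmb) = c K
  rw [hc2 _ K rfl]
  exact CovD.rs_id (X := prC Q) _ _ _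

theorem W1_ext_mem {c : (W1X Q).Ch} {m : ℕ} (hc : c ∈ (W1X Q).Tt m) {c' : (prC Q).Ch} (h1 : W1res Q c' = c)
    (h2 : ∀ K', Fin.last n ∈ K' → c' K' = 0) : c' ∈ (prC Q).Tt m := by
  have h3 : ∀ K : Finset (Fin n), c' (K.map Fin.castSuccEmb) = c K := fun K => congrFun h1 K
  refine ⟨?_, fun K' => ?_⟩
  · exact (h3 ∅).trans hc.1
  · by_cases hK : Fin.last n ∈ K'
    · rw [h2 K' hK]
      exact ⟨fun _ _ => Submodule.zero_mem _, fun _ => rfl⟩
    · obtain ⟨K, rfl⟩ := W1_exK hK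
      rw [Finset.card_map, h3 K]
      exact hc.2 K

end res

section main

variable {A : Type u} [CommRing A] {n e : ℕ} (J : Ideal (MvPolynomial (Fin n) A)) (F : MvPolynomial (Fin n) A) (e)

/-- The projection of the cover. -/
noncomputable def W1F : CovD.Hm (RingHom.id A) (prC J) (W1X (cyc J F e)) where
  h K := (W1c J F e K : chart J K →+* chart (cyc J F e) (K.map Fin.castSuccEmb))
  base K a := AlgHom.commutes (W1c J F e K) a
  comm h x := W1c_tr J F e h x

theorem W1F_Dt (c : (prC J).Ch) : (W1F J F e).push ((prC J).Dt c) = (W1X (cyc J F e)).Dt ((W1F J F e).push c) :=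
  CovD.Hm.push_Dt c

end main

section inj

variable {A : Type u} [CommRing A] {n e : ℕ} {J : Ideal (MvPolynomial (Fin n) A)} {F : MvPolynomial (Fin n) A}
  (hinj : ∀ K : Finset (Fin n), K.Nonempty → Function.Injective ((W1F J F e).e K))

include hinj

theorem W1_push_inj {c : (prC J).Ch} (h0 : c ∅ = 0) (h : (W1F J F e).push c = 0) : c = 0 := by
  funext K
  rcases K.eq_empty_or_nonempty with hK | hK
  · subst hK
    exact h0
  · refine hinj K hK ?_
    rw [← CovD.Hm.push_apply, h, Pi.zero_apply, Pi.zero_apply, map_zero]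

theorem W1_push_Tt {c : (prC J).Ch} (h0 : c ∅ = 0) {m : ℕ} (h : (W1F J F e).push c ∈ (W1X (cyc J F e)).Tt m) :
    c ∈ (prC J).Tt m := by
  refine ⟨h0, fun K => ⟨fun q hq => ?_, fun hK => ?_⟩⟩
  · rcases K.eq_empty_or_nonempty with hK | hK
    · subst hK
      rw [h0]
      exact Submodule.zero_mem _
    · exact W1_reflect (hinj K hK) ((h.2 K).1 q hq)
  · have hK' : K.Nonempty := Finset.card_pos.1 (by omega)
    refine hinj K hK' ?_
    rw [← CovD.Hm.push_apply, (h.2 K).2 hK, map_zero]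

theorem W1_push_Fi {c : (prC J).Ch} (h0 : c ∅ = 0) {i m : ℕ} (h : (W1F J F e).push c ∈ (W1X (cyc J F e)).Fi i m) :
    c ∈ (prC J).Fi i m := by
  refine ⟨W1_push_Tt hinj h0 h.1, fun K hK => ?_⟩
  rcases K.eq_empty_or_nonempty with hK' | hK'
  · subst hK'
    exact h0
  · refine hinj K hK' ?_
    rw [← CovD.Hm.push_apply, h.2 K hK, map_zero]

theorem W1_push_Ni {c : (prC J).Ch} (h0 : c ∅ = 0) {i m : ℕ} (h : (W1F J F e).push c ∈ (W1X (cyc J F e)).Ni i m) :
    c ∈ (prC J).Ni i m := by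
  refine ⟨W1_push_Tt hinj h0 h.1, fun K => ?_⟩
  rcases K.eq_empty_or_nonempty with hK' | hK'
  · subst hK'
    rw [h0]
    exact ⟨fun _ => rfl, fun _ => map_zero _⟩
  · refine ⟨fun hK => hinj K hK' ?_, fun hK => hinj K hK' ?_⟩
    · rw [← CovD.Hm.push_apply, (h.2 K).1 hK, map_zero]
    · rw [CovD.Hm.e_dd, ← CovD.Hm.push_apply, (h.2 K).2 hK, map_zero]

end inj

theorem W1_res_Tt {A : Type u} [CommRing A] {n : ℕ} {Q : Ideal (MvPolynomial (Fin (n + 1)) A)} {c : (prC Q).Ch} {m : ℕ}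
    (h : c ∈ (prC Q).Tt m) : W1res Q c ∈ (W1X Q).Tt m := by
  refine ⟨h.1, fun K => ?_⟩
  have h1 := h.2 (K.map Fin.castSuccEmb)
  rw [Finset.card_map] at h1
  exact h1

theorem W1_res_Fi {A : Type u} [CommRing A] {n : ℕ} {Q : Ideal (MvPolynomial (Fin (n + 1)) A)} {c : (prC Q).Ch} {i m : ℕ}
    (h : c ∈ (prC Q).Fi i m) : W1res Q c ∈ (W1X Q).Fi i m := by
  refine ⟨W1_res_Tt h.1, fun K => ?_⟩
  have h1 := h.2 (K.map Fin.castSuccEmb)
  rw [Finset.card_map] at h1
  exact h1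

theorem W1_res_Ni {A : Type u} [CommRing A] {n : ℕ} {Q : Ideal (MvPolynomial (Fin (n + 1)) A)} {c : (prC Q).Ch} {i m : ℕ}
    (h : c ∈ (prC Q).Ni i m) : W1res Q c ∈ (W1X Q).Ni i m := by
  refine ⟨W1_res_Tt h.1, fun K => ?_⟩
  have h1 := h.2 (K.map Fin.castSuccEmb)
  rw [Finset.card_map] at h1
  exact h1

end MPadcDC
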