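import Pool.Agent.Lib.MP_adc574_ag_DC.W1E
import Pool.Agent.Lib.MP_adc574_ag_DC.W1C
import Pool.Agent.Lib.MP_adc574_ag_DC.W1M
import Pool.Agent.Lib.MP_adc574_ag_DC.PWgA

/-!
# Weight `0` of the cyclic cover: the assembly
-/

set_option autoImplicit false

namespace MPadcDC

open MPadcGP MvPolynomial

universe u v w

/-- Weight `0` of the cyclic cover: no smoothness is needed. -/
theorem W1_zero {L : Type u} [Field L] {n e : ℕ} [NeZero e] (he : (e : L) ≠ 0) {J : Ideal (MvPolynomial (Fin n) L)}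
    (hJ : IsHomog J) {F : MvPolynomial (Fin n) L} (hF : F.IsHomogeneous e) (hopp : IsOppC (prC J)) (m i : ℕ) :
    NoBad (isHomog_cyc hJ hF) (isWHomog_cyc hJ hF) m i 0 := by
  classical
  choose ρ hρ1 hρ2 using fun (K : Finset (Fin n)) (hK : K.Nonempty) =>
    W1_retC hJ hF (ε := (e : L)⁻¹) (inv_mul_cancel₀ he) hK
  have hinj : ∀ K : Finset (Fin n), K.Nonempty → Function.Injective ((W1F J F e).e K) := fun K hK a b hab => by
    have h1 := congrArg (ρ K hK) hab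
    exact (hρ1 K hK a).symm.trans (h1.trans (hρ1 K hK b))
  set W := grP (isHomog_cyc hJ hF) (isWHomog_cyc hJ hF) with hW
  -- lifts
  have hlift : ∀ c : (prC (cyc J F e)).Ch, c ∅ = 0 → W.P 0 c = c →
      ∃ c0 : (prC J).Ch, c0 ∅ = 0 ∧ (W1F J F e).push c0 = W1res (cyc J F e) c := by
    intro c h0 hc
    refine ⟨fun K => if hK : K.Nonempty then ρ K hK (c (K.map Fin.castSuccEmb)) else 0,
      dif_neg Finset.not_nonempty_empty, ?_⟩
    funext K
    rw [CovD.Hm.push_apply]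
    rcases K.eq_empty_or_nonempty with hK | hK
    · subst hK
      have h1 : W1res (cyc J F e) c ∅ = 0 := h0
      rw [h1, dif_neg Finset.not_nonempty_empty, map_zero]
    · have h1 := hρ2 K hK (c (K.map Fin.castSuccEmb))
      rw [dif_pos hK]
      refine Eq.trans h1 ?_
      exact congrFun hc (K.map Fin.castSuccEmb)
  intro x hx1 hx2 hx3
  obtain ⟨c, hc, hcx⟩ := CovD.mem_Con.1 hx1
  obtain ⟨c', hc', hcx'⟩ := CovD.mem_Fil.1 hx2
  obtain ⟨c'', hc'', hcx''⟩ := GrX.mem_HW _ |>.1 hx3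
  have hPc : W.P 0 c ∈ (prC (cyc J F e)).Zc m := W.P_mem_Zc c.2 0
  have hPc' : W.P 0 c' ∈ (prC (cyc J F e)).Zc m := W.P_mem_Zc c'.2 0
  have hx : x = (prC (cyc J F e)).cl m ⟨W.P 0 c, hPc⟩ := by
    rw [← hcx'', CovD.cl_eq]
    change (c'' : (prC (cyc J F e)).Ch) - W.P 0 c ∈ _
    have h1 : W.P 0 (c'' : (prC (cyc J F e)).Ch) = c'' := hc''
    rw [← h1, ← map_sub]
    exact W.P_mem_Bc (CovD.cl_eq.1 (hcx''.trans hcx.symm)) 0
  have hPP : ∀ b : (prC (cyc J F e)).Ch, W.P 0 (W.P 0 b) = W.P 0 b := fun b => by rw [W.P_P, if_pos rfl]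
  have hcc : W.P 0 c - W.P 0 c' ∈ (prC (cyc J F e)).Bc m := by
    rw [← map_sub]
    exact W.P_mem_Bc (CovD.cl_eq.1 (hcx.trans hcx'.symm)) 0
  obtain ⟨c1, h10, h1⟩ := hlift (W.P 0 c) hPc.1.1 (hPP _)
  obtain ⟨c2, h20, h2⟩ := hlift (W.P 0 c') hPc'.1.1 (hPP _)
  have hD0 : ∀ b : (prC J).Ch, b ∅ = 0 → (prC J).Dt b ∅ = 0 := by
    intro b hb
    rw [CovD.Dt_apply, Pi.add_apply, CovD.dc_apply, hb, map_zero, CovD.del_apply, Finset.sum_empty, add_zero]
  have hZ1 : (prC J).Dt c1 = 0 := by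
    refine W1_push_inj hinj (hD0 c1 h10) ?_
    rw [W1F_Dt, h1, W1res_Dt]
    have h3 : (prC (cyc J F e)).Dt (W.P 0 c) = 0 := hPc.2
    rw [h3]
    rfl
  have hZ2 : (prC J).Dt c2 = 0 := by
    refine W1_push_inj hinj (hD0 c2 h20) ?_
    rw [W1F_Dt, h2, W1res_Dt]
    have h3 : (prC (cyc J F e)).Dt (W.P 0 c') = 0 := hPc'.2
    rw [h3]
    rfl
  have hN : c1 ∈ (prC J).Ni i m := W1_push_Ni hinj h10 (by rw [h1]; exact W1_res_Ni (W.P_mem_Ni hc 0))
  have hFi : c2 ∈ (prC J).Fi (i + 1) m := W1_push_Fi hinj h20 (by rw [h2]; exact W1_res_Fi (W.P_mem_Fi hc' 0))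
  have hB : c1 - c2 ∈ (prC J).Bc m := by
    cases m with
    | zero =>
      have h3 : c1 - c2 = 0 := by
        refine W1_push_inj hinj (by rw [Pi.sub_apply, h10, h20, sub_zero]) ?_
        rw [map_sub, h1, h2]
        have h4 : W.P 0 (c : (prC (cyc J F e)).Ch) - W.P 0 c' = 0 := hcc
        change W1res (cyc J F e) (W.P 0 (c : (prC (cyc J F e)).Ch) - W.P 0 c') = 0
        rw [h4]
        rfl
      rw [h3]
      exact Submodule.zero_mem _
    | succ m' =>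
      obtain ⟨b, hb, hb2⟩ := Submodule.mem_map.1 hcc
      obtain ⟨b0, hb0, hb1⟩ := hlift (W.P 0 b) (W.P_mem_Tt hb 0).1 (hPP _)
      have hbT : b0 ∈ (prC J).Tt m' := W1_push_Tt hinj hb0 (by rw [hb1]; exact W1_res_Tt (W.P_mem_Tt hb 0))
      refine Submodule.mem_map.2 ⟨b0, hbT, ?_⟩
      have h3 : (prC J).Dt b0 - (c1 - c2) = 0 := by
        refine W1_push_inj hinj (by rw [Pi.sub_apply, Pi.sub_apply, hD0 b0 hb0, h10, h20, sub_zero, sub_zero]) ?_
        rw [map_sub, map_sub, W1F_Dt, h1, h2, hb1, W1res_Dt, ← W.P_Dt, hb2, map_sub, hPP, hPP]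
        exact sub_self _
      exact sub_eq_zero.1 h3
  -- the class on the base
  have hcB : c1 ∈ (prC J).Bc m := by
    have h3 : (prC J).cl m ⟨c1, hN.1, hZ1⟩ ∈ (prC J).Con m i ⊓ (prC J).Fil m (i + 1) := by
      refine ⟨CovD.mem_Con.2 ⟨_, hN, rfl⟩, CovD.mem_Fil.2 ⟨⟨c2, hFi.1, hZ2⟩, hFi, ?_⟩⟩
      rw [CovD.cl_eq]
      change c2 - c1 ∈ _
      rw [← neg_sub]
      exact Submodule.neg_mem _ hB
    rw [hopp m i, Submodule.mem_bot, CovD.cl_eq_zero] at h3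
    exact h3
  rw [hx, CovD.cl_eq_zero]
  change W.P 0 (c : (prC (cyc J F e)).Ch) ∈ _
  cases m with
  | zero =>
    have h3 : c1 = 0 := hcB
    refine W1_acyc (W1aff hJ hF) hPc.1 (fun K' hK' => ?_) hPc.2
    obtain ⟨K, rfl⟩ := W1_exK hK'
    rw [h3, map_zero] at h1
    exact (congrFun h1 K).symm
  | succ m' =>
    obtain ⟨a, ha, hac⟩ := Submodule.mem_map.1 hcB
    obtain ⟨a', ha1, ha2⟩ := W1_ext (cyc J F e) ((W1F J F e).push a)
    have haT := W1_ext_mem (cyc J F e) (CovD.Hm.push_mem_Tt ha) ha1 ha2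
    have h3 : W.P 0 (c : (prC (cyc J F e)).Ch) - (prC (cyc J F e)).Dt a' ∈ (prC (cyc J F e)).Bc (m' + 1) := by
      refine W1_acyc (W1aff hJ hF) (Submodule.sub_mem _ hPc.1 (CovD.Dt_mem haT)) (fun K' hK' => ?_) ?_
      · obtain ⟨K, rfl⟩ := W1_exK hK'
        have h4 : W1res (cyc J F e) (W.P 0 (c : (prC (cyc J F e)).Ch)) K =
            W1res (cyc J F e) ((prC (cyc J F e)).Dt a') K := by
          rw [← W1res_Dt, ha1, ← W1F_Dt, hac, h1]
        exact sub_eq_zero.2 h4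
      · have h4 : (prC (cyc J F e)).Dt (W.P 0 (c : (prC (cyc J F e)).Ch)) = 0 := hPc.2
        rw [map_sub, h4, CovD.Dt_Dt, sub_zero]
    have h4 : (prC (cyc J F e)).Dt a' ∈ (prC (cyc J F e)).Bc (m' + 1) := Submodule.mem_map.2 ⟨a', haT, rfl⟩
    have h5 := Submodule.add_mem _ h3 h4
    rwa [sub_add_cancel] at h5

end MPadcDC
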