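import Pool.Agent.Lib.MP_adc574_ag_GP.FmLoc
import Pool.Agent.Lib.MP_adc574_ag_GP.Mod2

/-!
# Forms on the intersection with the open set `x_j ≠ 0`
-/

set_option autoImplicit false

namespace MPadcDC

open MPadcGP MvPolynomial

universe u v w

section

variable {A : Type u} [CommRing A] {N : ℕ} {Q : Ideal (MvPolynomial (Fin N) A)} (hQ : IsHomog Q)

theorem W1_prod {K : Finset (Fin N)} {z : Fin N} (hz : z ∈ K) (j : Fin N) :
    ∃ v w : chart Q K, v * w = 1 ∧ ∏ l ∈ insert j K, cq Q K l hz = cq Q K j hz * v := by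
  classical
  have hu : ∀ K' : Finset (Fin N), K' ⊆ K → IsUnit (∏ l ∈ K', cq Q K l hz) := by
    intro K' hK'
    exact Finset.prod_induction _ _ (fun _ _ h1 h2 => h1.mul h2) isUnit_one fun l hl => cq_isUnit Q K (hK' hl) hz
  by_cases hj : j ∈ K
  · obtain ⟨s, hs⟩ := hu (insert j K) (by rw [Finset.insert_eq_of_mem hj])
    obtain ⟨t, ht⟩ := cq_isUnit Q K hj hz
    refine ⟨(t⁻¹ * s : (chart Q K)ˣ), ((t⁻¹ * s)⁻¹ : (chart Q K)ˣ), Units.mul_inv _, ?_⟩
    rw [← hs, ← ht, Units.val_mul, ← mul_assoc, Units.mul_inv, one_mul]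
  · obtain ⟨s, hs⟩ := hu K (Finset.Subset.refl K)
    refine ⟨s, (s⁻¹ : (chart Q K)ˣ), Units.mul_inv _, ?_⟩
    rw [Finset.prod_insert hj, hs]

include hQ in
theorem W1_surjE {K : Finset (Fin N)} {z : Fin N} (hz : z ∈ K) (j : Fin N) (q : ℕ)
    (y : Fm A (chart Q (insert j K))) (hy : y ∈ Fd A (chart Q (insert j K)) q) :
    ∃ M : ℕ, ∃ y₀ ∈ Fd A (chart Q K) q,
      mp (tr Q (Finset.subset_insert j K) : chart Q K →+* chart Q (insert j K)) (CC.of_algHom _) y₀ =
      fz A (cq Q (insert j K) j (Finset.mem_insert_of_mem hz)) ^ M * y := by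
  let := (tr Q (Finset.subset_insert j K)).toRingHom.toAlgebra
  have hloc : IsLocalization.Away (∏ l ∈ insert j K, cq Q K l hz) (chart Q (insert j K)) :=
    tr_isLocalization hQ (Finset.subset_insert j K) hz
  have hcc : CC A A (algebraMap (chart Q K) (chart Q (insert j K))) := fun a =>
    ⟨a, (tr Q (Finset.subset_insert j K)).commutes a⟩
  obtain ⟨m, ⟨M, rfl⟩, e₀, he₀, h1⟩ := mp_surj (Submonoid.powers (∏ l ∈ insert j K, cq Q K l hz)) hcc hy
  obtain ⟨v, w, hvw, hg⟩ := W1_prod (Q := Q) hz j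
  refine ⟨M, fz A (w ^ M) * e₀, fz_mul_mem _ he₀, ?_⟩
  have h2 : mp (tr Q (Finset.subset_insert j K) : chart Q K →+* chart Q (insert j K)) (CC.of_algHom _) e₀ =
    mp (algebraMap (chart Q K) (chart Q (insert j K))) hcc e₀ := rfl
  have h3 : ∀ x, algebraMap (chart Q K) (chart Q (insert j K)) x = tr Q (Finset.subset_insert j K) x := fun _ => rfl
  have h4 : mp (tr Q (Finset.subset_insert j K) : chart Q K →+* chart Q (insert j K)) (CC.of_algHom _) (fz A (w ^ M)) =
      fz A (tr Q (Finset.subset_insert j K) w ^ M) := by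
    rw [mp_fz]
    change fz A (tr Q (Finset.subset_insert j K) (w ^ M)) = _
    rw [map_pow]
  rw [map_mul, h4, h2, ← h1, h3, hg]
  change fz A (tr Q (Finset.subset_insert j K) w ^ M) * (fz A (tr Q (Finset.subset_insert j K) ((cq Q K j hz * v) ^ M)) * y)
    = _
  have h5 : tr Q (Finset.subset_insert j K) w * tr Q (Finset.subset_insert j K) (cq Q K j hz * v) =
      cq Q (insert j K) j (Finset.mem_insert_of_mem hz) := by
    rw [← map_mul, mul_comm w, mul_assoc, hvw, mul_one, tr_cq]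
  rw [← h5, ← mul_assoc, ← map_mul (fz A), map_pow (tr Q (Finset.subset_insert j K)), ← mul_pow, map_pow (fz A)]

include hQ in
theorem W1_kerE {K : Finset (Fin N)} {z : Fin N} (hz : z ∈ K) (j : Fin N) (y : Fm A (chart Q K))
    (hy : mp (tr Q (Finset.subset_insert j K) : chart Q K →+* chart Q (insert j K)) (CC.of_algHom _) y = 0) :
    ∃ M : ℕ, fz A (cq Q K j hz) ^ M * y = 0 := by
  let := (tr Q (Finset.subset_insert j K)).toRingHom.toAlgebra
  have hst : IsScalarTower A (chart Q K) (chart Q (insert j K)) := IsScalarTower.of_algebraMap_eq fun a =>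
    ((tr Q (Finset.subset_insert j K)).commutes a).symm
  have hloc : IsLocalization.Away (∏ l ∈ insert j K, cq Q K l hz) (chart Q (insert j K)) :=
    tr_isLocalization hQ (Finset.subset_insert j K) hz
  have hcc : CC A A (algebraMap (chart Q K) (chart Q (insert j K))) := fun a =>
    ⟨a, (tr Q (Finset.subset_insert j K)).commutes a⟩
  have hy' : mp (algebraMap (chart Q K) (chart Q (insert j K))) hcc y = 0 := hy
  obtain ⟨m, ⟨M, rfl⟩, h1⟩ := mp_ker (Submonoid.powers (∏ l ∈ insert j K, cq Q K l hz)) hcc hy'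
  obtain ⟨v, w, hvw, hg⟩ := W1_prod (Q := Q) hz j
  refine ⟨M, ?_⟩
  change fz A ((∏ l ∈ insert j K, cq Q K l hz) ^ M) * y = 0 at h1
  rw [hg, mul_pow] at h1
  have h2 := congrArg (fun x => fz A (w ^ M) * x) h1
  simp only [mul_zero] at h2
  rw [← mul_assoc, ← map_mul, mul_comm (w ^ M), mul_assoc, ← mul_pow, hvw, one_pow, mul_one, map_pow] at h2
  exact h2

end

end MPadcDC
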