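import Pool.Agent.Lib.MP_adc574_ag_DC.PHoA
import Pool.Agent.Lib.MP_adc574_ag_DC.W1K
import Pool.Agent.Lib.MP_adc574_ag_DC.W1A
import Pool.Agent.Lib.MP_adc574_ag_DC.W1S

/-!
# The open set `z ≠ 0` of the cyclic cover is covered by the open sets `x_j ≠ 0`
-/

set_option autoImplicit false

namespace MPadcDC

open MPadcGP MvPolynomial

universe u v w

section

variable {A : Type u} [CommRing A] {n e : ℕ} [NeZero e] {J : Ideal (MvPolynomial (Fin n) A)} (hJ : IsHomog J)
  {F : MvPolynomial (Fin n) A} (hF : F.IsHomogeneous e)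

include hJ hF in
theorem W1_span : Ideal.span (Set.range fun i : Fin n =>
    cq (cyc J F e) {Fin.last n} (Fin.castSucc i) (Finset.mem_singleton_self (Fin.last n))) = ⊤ := by
  have h1 := eval₂_cq (isHomog_cyc hJ hF) (Finset.mem_singleton_self (Fin.last n)) (W1_mem' J F e)
  rw [eval₂_sub, eval₂_pow, eval₂_X, cq_self, one_pow, sub_eq_zero] at h1
  rw [Ideal.eq_top_iff_one, h1, eval₂_rename]
  have h2 : F ∈ Ideal.span (X '' (Set.univ : Set (Fin n))) := by
    rw [mem_ideal_span_X_image]
    intro m hm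
    by_contra hne
    push Not at hne
    have h3 : m = 0 := Finsupp.ext fun i => hne i (Set.mem_univ i)
    have h4 := hF (mem_support_iff.1 hm)
    rw [h3, map_zero] at h4
    exact NeZero.ne e h4.symm
  have h3 : Ideal.span (X '' (Set.univ : Set (Fin n))) ≤ (Ideal.span (Set.range fun i : Fin n =>
      cq (cyc J F e) {Fin.last n} (Fin.castSucc i) (Finset.mem_singleton_self (Fin.last n)))).comap
      (eval₂Hom (algebraMap A (chart (cyc J F e) {Fin.last n}))
        ((fun l => cq (cyc J F e) {Fin.last n} l (Finset.mem_singleton_self (Fin.last n))) ∘ Fin.castSucc)) := by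
    rw [Ideal.span_le]
    rintro _ ⟨i, -, rfl⟩
    change eval₂Hom _ _ (X i) ∈ Ideal.span _
    rw [eval₂Hom_X']
    exact Ideal.subset_span ⟨i, rfl⟩
  exact h3 h2

/-- The open set `z ≠ 0`. -/
noncomputable def W1aff : W1Aff (prC (cyc J F e)) (Fin.last n) where
  a j := cq (cyc J F e) {Fin.last n} j (Finset.mem_singleton_self (Fin.last n))
  surj K hz j q y hy := by
    obtain ⟨M, y₀, h1, h2⟩ := W1_surjE (isHomog_cyc hJ hF) hz j q y hy
    refine ⟨M, y₀, h1, ?_⟩
    have h3 : tr (cyc J F e) (Finset.singleton_subset_iff.2 (Finset.mem_insert_of_mem hz))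
        (cq (cyc J F e) {Fin.last n} j (Finset.mem_singleton_self (Fin.last n))) =
        cq (cyc J F e) (insert j K) j (Finset.mem_insert_of_mem hz) := tr_cq _ _ _ _
    rw [← h3] at h2
    exact h2
  ker K hz j y hy := by
    obtain ⟨M, h1⟩ := W1_kerE (isHomog_cyc hJ hF) hz j y hy
    refine ⟨M, ?_⟩
    have h3 : tr (cyc J F e) (Finset.singleton_subset_iff.2 hz)
        (cq (cyc J F e) {Fin.last n} j (Finset.mem_singleton_self (Fin.last n))) =
        cq (cyc J F e) K j hz := tr_cq _ _ _ _
    rw [← h3] at h1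
    exact h1
  one M := by
    classical
    obtain ⟨T, hT⟩ : ∃ T, ∀ j, M j ≤ T := ⟨∑ j, M j, fun j =>
      Finset.single_le_sum (f := M) (fun _ _ => Nat.zero_le _) (Finset.mem_univ j)⟩
    have h1 := Ideal.span_pow_eq_top _ (W1_span hJ hF) T
    rw [← Set.range_comp, Ideal.eq_top_iff_one, Ideal.mem_span_range_iff_exists_fun] at h1
    obtain ⟨c, hc⟩ := h1
    let u : Fin (n + 1) → chart (cyc J F e) {Fin.last n} := Fin.lastCases 0 fun i =>
      c i * cq (cyc J F e) {Fin.last n} (Fin.castSucc i) (Finset.mem_singleton_self (Fin.last n)) ^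
        (T - M (Fin.castSucc i))
    refine ⟨u, ?_⟩
    have h2 : ∑ j ∈ Finset.univ.erase (Fin.last n), u j * cq (cyc J F e) {Fin.last n} j
        (Finset.mem_singleton_self (Fin.last n)) ^ M j = ∑ j, u j * cq (cyc J F e) {Fin.last n} j
        (Finset.mem_singleton_self (Fin.last n)) ^ M j := by
      refine Finset.sum_subset (Finset.subset_univ _) fun j _ hj => ?_
      have h3 : j = Fin.last n := by
        by_contra h4
        exact hj (Finset.mem_erase.2 ⟨h4, Finset.mem_univ j⟩)
      subst h3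
      have h4 : u (Fin.last n) = 0 := Fin.lastCases_last
      rw [h4, zero_mul]
    refine h2.trans ?_
    rw [Fin.sum_univ_castSucc]
    have h4 : u (Fin.last n) = 0 := Fin.lastCases_last
    rw [h4, zero_mul, add_zero]
    refine Eq.trans (Finset.sum_congr rfl fun i _ => ?_) hc
    have h5 : u (Fin.castSucc i) = c i * cq (cyc J F e) {Fin.last n} (Fin.castSucc i)
      (Finset.mem_singleton_self (Fin.last n)) ^ (T - M (Fin.castSucc i)) := Fin.lastCases_castSucc _
    rw [h5, mul_assoc, ← pow_add, Nat.sub_add_cancel (hT _)]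
    rfl

end

end MPadcDC
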