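import Pool.Agent.Lib.MP_adc574_ag_DC.W1Q

/-!
# Forms of a polynomial ring in one variable

`W1G`: the ring homomorphism from the forms of `R[X]` to the pairs `(x, y)` (`x + dX y`) with `x, y` polynomials with
coefficients in the forms of `R`.
-/

set_option autoImplicit false

namespace MPadcDC

open MPadcGP Polynomial

universe u v w

section

variable (A : Type u) (R : Type v) [CommRing A] [CommRing R] [Algebra A R]

/-- The grade involution on the coefficients. -/
noncomputable def W1t : (Fm A R)[X] →+* (Fm A R)[X] := mapRingHom (MPadcGP.inv A)

/-- Polynomials as forms. -/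
noncomputable def W1f : R[X] →+* (Fm A R)[X] := mapRingHom (fz A)

/-- The derivative of the coefficients. -/
noncomputable def W1d : R[X] →+ (Fm A R)[X] where
  toFun p := p.sum fun i a => monomial i (df A a)
  map_zero' := Polynomial.sum_zero_index _
  map_add' p q := by
    refine Polynomial.sum_add_index p q _ (fun i => ?_) fun i a b => ?_
    · rw [df_zero, map_zero]
    · rw [df_add, map_add]

variable {A R}

theorem W1d_monomial (i : ℕ) (a : R) : W1d A R (monomial i a) = monomial i (df A a) := by
  change (monomial i a : R[X]).sum (fun i a => (monomial i (df A a) : (Fm A R)[X])) = _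
  rw [Polynomial.sum_monomial_index]
  rw [df_zero, map_zero]

theorem W1f_monomial (i : ℕ) (a : R) : W1f A R (monomial i a) = monomial i (fz A a) := by
  unfold W1f
  rw [coe_mapRingHom, map_monomial]

theorem W1t_monomial (i : ℕ) (a : Fm A R) : W1t A R (monomial i a) = monomial i (MPadcGP.inv A a) := by
  unfold W1t
  rw [coe_mapRingHom, map_monomial]

theorem W1f_comm (p : R[X]) (x : (Fm A R)[X]) : W1f A R p * x = x * W1f A R p := by
  induction p using Polynomial.induction_on' with
  | add p q hp hq => rw [map_add, add_mul, mul_add, hp, hq]
  | monomial i a =>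
    induction x using Polynomial.induction_on' with
    | add x y hx hy => rw [add_mul, mul_add, hx, hy]
    | monomial j b => rw [W1f_monomial, monomial_mul_monomial, monomial_mul_monomial, fz_comm, add_comm]

theorem W1t_f (p : R[X]) : W1t A R (W1f A R p) = W1f A R p := by
  induction p using Polynomial.induction_on' with
  | add p q hp hq => rw [map_add, map_add, hp, hq]
  | monomial i a => rw [W1f_monomial, W1t_monomial, inv_fz]

theorem W1t_d (p : R[X]) : W1t A R (W1d A R p) = -W1d A R p := by
  induction p using Polynomial.induction_on' with
  | add p q hp hq => rw [map_add, map_add, hp, hq, neg_add]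
  | monomial i a => rw [W1d_monomial, W1t_monomial, inv_df, map_neg]

theorem W1d_mul (p q : R[X]) : W1d A R (p * q) = W1f A R p * W1d A R q + W1f A R q * W1d A R p := by
  induction p using Polynomial.induction_on' with
  | add p p' hp hp' =>
    rw [add_mul, map_add, hp, hp', map_add, map_add, add_mul, mul_add]
    abel
  | monomial i a =>
    induction q using Polynomial.induction_on' with
    | add q q' hq hq' =>
      rw [mul_add, map_add, hq, hq', map_add, map_add, add_mul, mul_add]
      abel
    | monomial j b =>
      rw [monomial_mul_monomial, W1d_monomial, W1d_monomial, W1d_monomial, W1f_monomial, W1f_monomial,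
        monomial_mul_monomial, monomial_mul_monomial, df_mul, map_add, add_comm j i]

theorem W1d_anti (p q : R[X]) : W1d A R p * W1d A R q + W1d A R q * W1d A R p = 0 := by
  induction p using Polynomial.induction_on' with
  | add p p' hp hp' =>
    have e : W1d A R (p + p') * W1d A R q + W1d A R q * W1d A R (p + p') =
        (W1d A R p * W1d A R q + W1d A R q * W1d A R p) + (W1d A R p' * W1d A R q + W1d A R q * W1d A R p') := by
      rw [map_add, add_mul, mul_add]
      abel
    rw [e, hp, hp', add_zero]
  | monomial i a =>
    induction q using Polynomial.induction_on' with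
    | add q q' hq hq' =>
      have e : W1d A R (monomial i a) * W1d A R (q + q') + W1d A R (q + q') * W1d A R (monomial i a) =
          (W1d A R (monomial i a) * W1d A R q + W1d A R q * W1d A R (monomial i a)) +
            (W1d A R (monomial i a) * W1d A R q' + W1d A R q' * W1d A R (monomial i a)) := by
        rw [map_add, add_mul, mul_add]
        abel
      rw [e, hq, hq', add_zero]
    | monomial j b =>
      rw [W1d_monomial, W1d_monomial, monomial_mul_monomial, monomial_mul_monomial, add_comm j i, ← map_add,
        df_swap, neg_add_cancel, map_zero]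

theorem W1d_sq (p : R[X]) : W1d A R p * W1d A R p = 0 := by
  induction p using Polynomial.induction_on' with
  | add p q hp hq =>
    have e : W1d A R (p + q) * W1d A R (p + q) = W1d A R p * W1d A R p + W1d A R q * W1d A R q +
        (W1d A R p * W1d A R q + W1d A R q * W1d A R p) := by
      rw [map_add, add_mul, mul_add, mul_add]
      abel
    rw [e, hp, hq, W1d_anti, add_zero, add_zero]
  | monomial i a => rw [W1d_monomial, monomial_mul_monomial, df_sq, map_zero]

theorem W1_exG : ∃ G : Fm A R[X] →+* Tw (Fm A R)[X] (W1t A R), (∀ p, G (fz A p) = tw _ (W1f A R p) 0) ∧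
    ∀ p, G (df A p) = tw _ (W1d A R p) (W1f A R (derivative p)) := by
  refine exists_hom (A := A) (E := Tw (Fm A R)[X] (W1t A R))
    { toFun := fun p => tw _ (W1f A R p) 0
      map_one' := tw_ext (map_one _) rfl
      map_mul' := fun p q => tw_ext (map_mul _ _ _) (by
        change (0 : (Fm A R)[X]) = 0 * W1f A R q + W1t A R (W1f A R p) * 0
        rw [zero_mul, mul_zero, add_zero])
      map_zero' := tw_ext (map_zero _) rfl
      map_add' := fun p q => tw_ext (map_add _ _ _) (add_zero _).symm }
    (fun p x => tw_ext (W1f_comm p x.1) (by
      change 0 * x.1 + W1t A R (W1f A R p) * x.2 = x.2 * W1f A R p + W1t A R x.1 * 0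
      rw [zero_mul, zero_add, mul_zero, add_zero, W1t_f, W1f_comm]))
    { toFun := fun p => tw _ (W1d A R p) (W1f A R (derivative p))
      map_zero' := tw_ext (map_zero _) (by
        change W1f A R (derivative 0) = 0
        rw [derivative_zero, map_zero])
      map_add' := fun p q => tw_ext (map_add _ _ _) (by
        change W1f A R (derivative (p + q)) = W1f A R (derivative p) + W1f A R (derivative q)
        rw [derivative_add, map_add]) } ?_ ?_ ?_ ?_
  · intro p q
    refine tw_ext (W1d_mul p q) ?_
    change W1f A R (derivative (p * q)) = (0 * W1d A R q + W1t A R (W1f A R p) * W1f A R (derivative q)) +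
      (0 * W1d A R p + W1t A R (W1f A R q) * W1f A R (derivative p))
    rw [derivative_mul, zero_mul, zero_mul, zero_add, zero_add, W1t_f, W1t_f, map_add, map_mul, map_mul, add_comm,
      W1f_comm (derivative p)]
  · intro a
    refine tw_ext ?_ ?_
    · change W1d A R (C (algebraMap A R a)) = 0
      rw [← monomial_zero_left, W1d_monomial, df_base, map_zero]
    · change W1f A R (derivative (C (algebraMap A R a))) = 0
      rw [derivative_C, map_zero]
  · intro p q
    refine tw_ext (W1d_anti p q) ?_
    change (W1f A R (derivative p) * W1d A R q + W1t A R (W1d A R p) * W1f A R (derivative q)) +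
      (W1f A R (derivative q) * W1d A R p + W1t A R (W1d A R q) * W1f A R (derivative p)) = 0
    rw [W1t_d, W1t_d, W1f_comm, W1f_comm (derivative q), neg_mul, neg_mul]
    abel
  · intro p
    refine tw_ext (W1d_sq p) ?_
    change W1f A R (derivative p) * W1d A R p + W1t A R (W1d A R p) * W1f A R (derivative p) = 0
    rw [W1t_d, W1f_comm, neg_mul, add_neg_cancel]

end

end MPadcDC
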