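import Pool.Agent.Lib.MP_adc574_ag_GP.DRm

/-!
# Forms of a quotient by one equation

`π : P → B` surjective with kernel generated by `g`: an additive map on the forms of `P` which kills the multiples of `g` and `dg`
factors through the forms of `B`.
-/

set_option autoImplicit false

namespace MPadcDC

open MPadcGP

universe u v w

theorem W1_desc {A : Type u} {P : Type v} {B : Type w} {Z : Type*} [CommRing A] [CommRing P] [CommRing B] [Algebra A P]
    [Algebra A B] [AddCommGroup Z] (π : P →ₐ[A] B) (hs : Function.Surjective π) (g : P)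
    (hk : ∀ x, π x = 0 → ∃ h, x = g * h) (R : Fm A P →+ Z) (h1 : ∀ ω, R (fz A g * ω) = 0)
    (h2 : ∀ ω, R (df A g * ω) = 0) :
    ∃ R' : Fm A B →+ Z, ∀ ω, R' (mp (π : P →+* B) (CC.of_algHom π) ω) = R ω := by
  have hc : ∀ c : Fm A P, c * df A g = df A g * inv A c := by
    intro c
    rw [df_comm, MPadcGP.inv_inv]
  let I : Ideal (Fm A P) :=
    { carrier := {x | ∃ a b, x = fz A g * a + df A g * b}
      zero_mem' := ⟨0, 0, by rw [mul_zero, mul_zero, add_zero]⟩
      add_mem' := by
        rintro x y ⟨a, b, rfl⟩ ⟨a', b', rfl⟩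
        exact ⟨a + a', b + b', by rw [mul_add, mul_add]; abel⟩
      smul_mem' := by
        rintro c x ⟨a, b, rfl⟩
        refine ⟨c * a, inv A c * b, ?_⟩
        rw [smul_eq_mul, mul_add, ← mul_assoc, ← fz_comm, mul_assoc, ← mul_assoc c, hc, mul_assoc] }
  have hI : ∀ x, x ∈ I ↔ ∃ a b, x = fz A g * a + df A g * b := fun x => Iff.rfl
  have hI2 : I.IsTwoSided := ⟨by
    rintro x y ⟨a, b, rfl⟩
    exact ⟨a * y, b * y, by rw [add_mul, mul_assoc, mul_assoc]⟩⟩
  have hf : ∀ h, fz A (g * h) ∈ I := fun h => ⟨fz A h, 0, by rw [map_mul, mul_zero, add_zero]⟩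
  have hd : ∀ h, df A (g * h) ∈ I := fun h => ⟨df A h, fz A h, by rw [df_mul, fz_comm h (df A g)]⟩
  let φ : B →+* Fm A P ⧸ I := (π : P →+* B).liftOfRightInverse (Function.surjInv hs) (Function.rightInverse_surjInv hs)
    ⟨(Ideal.Quotient.mk I).comp (fz A), fun x hx => by
      obtain ⟨h, rfl⟩ := hk x hx
      rw [RingHom.mem_ker, RingHom.comp_apply]
      exact Ideal.Quotient.eq_zero_iff_mem.2 (hf h)⟩
  have hφ : ∀ x, φ (π x) = Ideal.Quotient.mk I (fz A x) := fun x => RingHom.liftOfRightInverse_comp_apply _ _ _ _ x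
  let d0 : P →+ Fm A P ⧸ I :=
    { toFun := fun t => Ideal.Quotient.mk I (df A t)
      map_zero' := by rw [df_zero, map_zero]
      map_add' := fun s t => by rw [df_add, map_add] }
  let d : B →+ Fm A P ⧸ I := (π : P →+ B).liftOfRightInverse (Function.surjInv hs) (Function.rightInverse_surjInv hs)
    ⟨d0, fun x hx => by
      obtain ⟨h, rfl⟩ := hk x hx
      exact Ideal.Quotient.eq_zero_iff_mem.2 (hd h)⟩
  have hdd : ∀ x, d (π x) = Ideal.Quotient.mk I (df A x) := fun x => AddMonoidHom.liftOfRightInverse_comp_apply _ _ _ _ x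
  obtain ⟨F, hF1, hF2⟩ := exists_hom (A := A) φ
    (by
      intro r x
      obtain ⟨r, rfl⟩ := hs r
      obtain ⟨x, rfl⟩ := Ideal.Quotient.mk_surjective x
      rw [hφ, ← map_mul, ← map_mul, fz_comm])
    d
    (by
      intro r t
      obtain ⟨r, rfl⟩ := hs r
      obtain ⟨t, rfl⟩ := hs t
      rw [← map_mul, hdd, hdd, hdd, hφ, hφ, df_mul, map_add, map_mul, map_mul])
    (by
      intro a
      rw [← AlgHom.commutes π a, hdd, df_base, map_zero])
    (by
      intro s t
      obtain ⟨s, rfl⟩ := hs s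
      obtain ⟨t, rfl⟩ := hs t
      rw [hdd, hdd, ← map_mul, ← map_mul, ← map_add, df_swap, neg_add_cancel, map_zero])
    (by
      intro s
      obtain ⟨s, rfl⟩ := hs s
      rw [hdd, ← map_mul, df_sq, map_zero])
  have hF : ∀ ω, F (mp (π : P →+* B) (CC.of_algHom π) ω) = Ideal.Quotient.mk I ω := by
    intro ω
    have e1 : F.comp (mp (π : P →+* B) (CC.of_algHom π)) = Ideal.Quotient.mk I := by
      refine hom_ext' (fun r => ?_) fun t => ?_
      · rw [RingHom.comp_apply, mp_fz, hF1]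
        exact hφ r
      · rw [RingHom.comp_apply, mp_df, hF2]
        exact hdd t
    exact DFunLike.congr_fun e1 ω
  have hR : ∀ x ∈ I, R x = 0 := by
    rintro x ⟨a, b, rfl⟩
    rw [map_add, h1, h2, add_zero]
  let R1 : (Fm A P ⧸ I) →+ Z := QuotientAddGroup.lift I.toAddSubgroup R hR
  refine ⟨R1.comp F.toAddMonoidHom, fun ω => ?_⟩
  have e2 : (R1.comp F.toAddMonoidHom) (mp (π : P →+* B) (CC.of_algHom π) ω) =
      R1 (F (mp (π : P →+* B) (CC.of_algHom π) ω)) := rfl
  rw [e2, hF]
  rfl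

end MPadcDC
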