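import Pool.Agent.Lib.MP_adc574_ag_DC.PHom
import Pool.Agent.Lib.MP_adc574_ag_DC.WBiD

/-!
# JOB WFrA [Binomial.map span_homog binom_deg]: binomial ideals, the Frobenius lift on the differentials of a chart

* `Binomial.map`: `Ideal.map_span`, `map_monomial`, `map_one`.
* `binom_deg`: `I` vanishes at the point `(1, …, 1)` (`aeval 1`, every generator does), so no monomial is in `I`; if `∑ α ≠ ∑ β` then the component of degree `∑ α` of `x ^ α - x ^ β` is `x ^ α ∈ I` (`homogeneousComponent_monomial..`, by coefficients).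
* `span_homog`: the set of the `f` all of whose components are in `span T` is an ideal (see `IsHomog.map` in GP/Mod3.lean, the same proof with `Submodule.span_induction`), `T` homogeneous elements.
* `exists_dlt`: let `R = chart I K`, `T = TrivSqZeroExt R Ω[R⁄κ]` (`Mathlib/Algebra/TrivSqZeroExt`; the right action is `Module Rᵐᵒᵖ`, `Module.compHom`/`MulOpposite`; if the instances are awkward define the commutative ring by hand, or use `AlgHom`-free the quotient
  of the symmetric algebra; or use `DualNumber`-like ring `T` := the subring of `Fm κ R × ..`; EASIEST: `GP/Tw.lean` or `GP/GM*.lean` may have such a ring, grep TrivSqZeroExt). `m r = (r ^ p, r ^ (p - 1) dr)` is multiplicative.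
  `exists_chart_lift` (GP/Mod.lean) with `φ c = (c ^ p, 0)` (ring homomorphism: `CharP κ p`), base point `i ∈ K`, `z l = m (cq l i)` (`z i = m 1 = 1`; units: the first component is a unit, `TrivSqZeroExt.isUnit_iff_isUnit_fst`). Relations: `I = span {x ^ α - x ^ β}` and `eval₂ φ z` is a ring
  homomorphism (`Submodule.span_induction` / `Ideal.span_le` with `RingHom.ker`): `eval₂ φ z (x ^ α) = m (∏ cq ^ α)` and `∏ cq ^ α = ∏ cq ^ β` by `eval₂_cq`. So `ρ : R → T`, `ρ r = (r ^ p, δ' r)` (first component: `chart_hom_ext'` with the Frobenius of `R`;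
  `(x + y) ^ p = x ^ p + y ^ p` since `p = 0` in `R`: `add_pow_char`/`frobenius` need `CharP R p`, which holds if `R ≠ 0`; if `R = 0` everything is trivial). `δ = ι ∘ δ'`. For `cq l j`, `j` arbitrary: `cq l j = cq l i * (cq j i)⁻¹` and `m` is multiplicative
  (`δ' (x⁻¹)` is determined by `ρ x⁻¹ = (ρ x)⁻¹`).
-/

set_option autoImplicit false

namespace MPadcDC

open MvPolynomial MPadcGP

universe u v w

section

variable {A : Type u} [CommRing A] {n : ℕ}

theorem Binomial.map {B : Type v} [CommRing B] (φ : A →+* B) {I : Ideal (MvPolynomial (Fin n) A)} (h : Binomial I) :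
    Binomial (bI φ I) := by
  obtain ⟨S, hS⟩ := h
  refine ⟨S, ?_⟩
  rw [hS, bI, Ideal.map_span, Set.image_image]
  refine congrArg Ideal.span (Set.image_congr fun s _ => ?_)
  rw [map_sub, map_monomial, map_monomial, map_one]

theorem span_homog {T : Set (MvPolynomial (Fin n) A)} (h : ∀ f ∈ T, ∃ d, f.IsHomogeneous d) : IsHomog (Ideal.span T) := by
  intro f hf d
  let _ := MvPolynomial.gradedAlgebra (σ := Fin n) (R := A)
  exact homogeneousComponent_mem_of_mem
    (Ideal.homogeneous_span (homogeneousSubmodule (Fin n) A) T fun x hx => h x hx) hf d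

theorem binom_deg [Nontrivial A] {I : Ideal (MvPolynomial (Fin n) A)} (hI : IsHomog I)
    {S : Set ((Fin n →₀ ℕ) × (Fin n →₀ ℕ))}
    (hS : I = Ideal.span ((fun s => monomial s.1 (1 : A) - monomial s.2 1) '' S)) :
    ∀ s ∈ S, ∑ l, s.1 l = ∑ l, s.2 l := by
  intro s hs
  by_contra hne
  have hker : I ≤ RingHom.ker (eval (fun _ : Fin n => (1 : A))) := by
    rw [hS, Ideal.span_le]
    rintro f ⟨t, _, rfl⟩
    rw [SetLike.mem_coe, RingHom.mem_ker]
    simp only [map_sub, eval_monomial, one_mul, one_pow, Finsupp.prod, Finset.prod_const_one, sub_self]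
  have hmem : monomial s.1 (1 : A) - monomial s.2 1 ∈ I := by
    rw [hS]
    exact Ideal.subset_span ⟨s, hs, rfl⟩
  have h1 := hI _ hmem (∑ l, s.1 l)
  have h2 : homogeneousComponent (∑ l, s.1 l) (monomial s.1 (1 : A)) = monomial s.1 1 :=
    homogeneousComponent_eq_self (isHomogeneous_monomial _ (Finsupp.degree_eq_sum s.1))
  have h3 : homogeneousComponent (∑ l, s.1 l) (monomial s.2 (1 : A)) = 0 :=
    (homogeneousComponent_of_mem (isHomogeneous_monomial _ (Finsupp.degree_eq_sum s.2))).trans (if_neg hne)
  rw [map_sub, h2, h3, sub_zero] at h1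
  have h4 := hker h1
  rw [RingHom.mem_ker] at h4
  simp only [eval_monomial, one_mul, one_pow, Finsupp.prod, Finset.prod_const_one] at h4
  exact one_ne_zero h4

end

end MPadcDC
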