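import Pool.Agent.Lib.MP_adc574_ag_DC.PHom
import Pool.Agent.Lib.MP_adc574_ag_GP.Lit
import Pool.Agent.Lib.MP_adc574_ag_GP.CarGl
import Pool.Agent.Lib.MP_adc574_ag_GP.Cw

/-!
# The Frobenius lift on the forms: definitions
-/

set_option autoImplicit false

namespace MPadcDC

open MvPolynomial MPadcGP

universe u v w

/-- A lift of the Frobenius to the forms on the charts (additive maps with `Φ ω` in the class of the inverse Cartier map). -/
structure FroD {κ : Type u} [Field κ] (p : ℕ) [Fact p.Prime] [CharP κ p] {n : ℕ} (X : CovD.{u, u} κ n) where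
  /-- The maps. -/
  Φ : ∀ J : Finset (Fin n), X.E J →+ X.E J
  rep : ∀ J : Finset (Fin n), J.Nonempty → ∀ x, Rep p x (Φ J x)
  mem : ∀ J : Finset (Fin n), J.Nonempty → ∀ q, ∀ x ∈ Fd κ (X.R J) q, Φ J x ∈ Fd κ (X.R J) q
  rs : ∀ {J K : Finset (Fin n)} (h : J ⊆ K), J.Nonempty → ∀ x, X.rs h (Φ J x) = Φ K (X.rs h x)

section

variable {κ : Type u} [Field κ] {p : ℕ} [Fact p.Prime] [CharP κ p] {n : ℕ}

variable {X : CovD.{u, u} κ n} (F : FroD p X)

open Classical in
/-- The action on cochains. -/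
noncomputable def FroD.Fc (c : X.Ch) : X.Ch := fun J => if J.Nonempty then F.Φ J (c J) else 0

theorem Fc_of (c : X.Ch) {J : Finset (Fin n)} (hJ : J.Nonempty) : F.Fc c J = F.Φ J (c J) := if_pos hJ

theorem Fc_empty (c : X.Ch) : F.Fc c ∅ = 0 := if_neg Finset.not_nonempty_empty

theorem Fc_add (b c : X.Ch) : F.Fc (b + c) = F.Fc b + F.Fc c := by
  funext J
  by_cases hJ : J.Nonempty
  · rw [Pi.add_apply, Fc_of F _ hJ, Fc_of F _ hJ, Fc_of F _ hJ, Pi.add_apply, map_add]
  · rw [Finset.not_nonempty_iff_eq_empty] at hJ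
    subst hJ
    rw [Pi.add_apply, Fc_empty, Fc_empty, Fc_empty, add_zero]

theorem Fc_zero : F.Fc (0 : X.Ch) = 0 := by
  have h1 := Fc_add F (0 : X.Ch) 0
  rw [add_zero] at h1
  exact left_eq_add.1 h1

end

end MPadcDC
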