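import Pool.Agent.Lib.MP_adc574_ag_GP.DIa
import Pool.Agent.Lib.MP_adc574_ag_GP.DRm

/-!
# WFrY: lifts of the Frobenius to the forms, abstract version
-/

set_option autoImplicit false
set_option linter.unusedSectionVars false

namespace MPadcDC

open MPadcGP

universe u v w

variable {κ : Type u} [Field κ] {R S : Type u} [CommRing R] [Algebra κ R] [CommRing S] [Algebra κ S] {p : ℕ}

theorem fro_deg {F : Fm κ R →+* Fm κ R} (h1 : ∀ r, F (fz κ r) = fz κ (r ^ p)) (h3 : ∀ r, F (df κ r) ∈ Fd κ R 1)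
    (q : ℕ) (x : Fm κ R) (hx : x ∈ Fd κ R q) : F x ∈ Fd κ R q := by
  have hwd : ∀ (q : ℕ) (t : Fin q → R), F (wd κ t) ∈ Fd κ R q := by
    intro q
    induction q with
    | zero =>
      intro t
      rw [wd_zero, map_one, ← map_one (fz κ)]
      exact fz_mem 1
    | succ q ih =>
      intro t
      have h3 : F (df κ (t 0)) * F (wd κ (Fin.tail t)) ∈ Fd κ R (1 + q) := fd_mul (h3 _) (ih _)
      have h4 : 1 + q = q + 1 := add_comm 1 q
      rw [h4] at h3
      rw [wd_succ, map_mul]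
      exact h3
  refine fd_ind (P := fun x => F x ∈ Fd κ R q) ?_ ?_ ?_ hx
  · rw [map_zero]
    exact Submodule.zero_mem _
  · intro r t
    rw [map_mul, h1]
    exact fz_mul_mem _ (hwd q t)
  · intro a b ha hb
    rw [map_add]
    exact Submodule.add_mem _ ha hb

variable {F : Fm κ R →+* Fm κ R} {G : Fm κ S →+* Fm κ S} {φ : R →ₐ[κ] S}

theorem fro_add {x y : R} (hx : mp (φ : R →+* S) (CC.of_algHom _) (F (df κ x)) = G (df κ (φ x)))
    (hy : mp (φ : R →+* S) (CC.of_algHom _) (F (df κ y)) = G (df κ (φ y))) :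
    mp (φ : R →+* S) (CC.of_algHom _) (F (df κ (x + y))) = G (df κ (φ (x + y))) := by
  rw [df_add, map_add, map_add, hx, hy, map_add, df_add, map_add]

theorem fro_mul (hF : ∀ r s, F (df κ (r * s)) = fz κ (r ^ p) * F (df κ s) + fz κ (s ^ p) * F (df κ r))
    (hG : ∀ r s, G (df κ (r * s)) = fz κ (r ^ p) * G (df κ s) + fz κ (s ^ p) * G (df κ r))
    {x y : R} (hx : mp (φ : R →+* S) (CC.of_algHom _) (F (df κ x)) = G (df κ (φ x)))
    (hy : mp (φ : R →+* S) (CC.of_algHom _) (F (df κ y)) = G (df κ (φ y))) :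
    mp (φ : R →+* S) (CC.of_algHom _) (F (df κ (x * y))) = G (df κ (φ (x * y))) := by
  have e : ∀ z : R, (φ : R →+* S) (z ^ p) = (φ z) ^ p := fun z => map_pow (φ : R →+* S) z p
  rw [hF, map_add, map_mul, map_mul, hx, hy, mp_fz, mp_fz, e, e, map_mul φ, hG]

theorem fro_base (a : κ) : mp (φ : R →+* S) (CC.of_algHom _) (F (df κ (algebraMap κ R a))) =
    G (df κ (φ (algebraMap κ R a))) := by
  rw [df_base, map_zero, map_zero, AlgHom.commutes, df_base, map_zero]

theorem fro_cq {c : R} {d : S} (hcd : φ c = d) {p : ℕ} (hF : F (df κ c) = fz κ (c ^ (p - 1)) * df κ c)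
    (hG : G (df κ d) = fz κ (d ^ (p - 1)) * df κ d) :
    mp (φ : R →+* S) (CC.of_algHom _) (F (df κ c)) = G (df κ (φ c)) := by
  have e : ∀ z : R, (φ : R →+* S) (z ^ (p - 1)) = (φ z) ^ (p - 1) := fun z => map_pow (φ : R →+* S) z _
  have e' : (φ : R →+* S) c = d := hcd
  rw [hF, hcd, hG, map_mul, mp_fz, mp_df, e, hcd, e']

theorem fro_all (hF : ∀ r, F (fz κ r) = fz κ (r ^ p)) (hG : ∀ r, G (fz κ r) = fz κ (r ^ p))
    (h : ∀ x, mp (φ : R →+* S) (CC.of_algHom _) (F (df κ x)) = G (df κ (φ x))) (x : Fm κ R) :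
    mp (φ : R →+* S) (CC.of_algHom _) (F x) = G (mp (φ : R →+* S) (CC.of_algHom _) x) := by
  induction x using fm_ind with
  | h1 r => rw [hF, mp_fz, mp_fz, hG, map_pow]
  | h2 t =>
    rw [h, mp_df]
    rfl
  | h3 a b ha hb' => rw [map_mul, map_mul, map_mul, map_mul, ha, hb']
  | h4 a b ha hb' => rw [map_add, map_add, map_add, map_add, ha, hb']

end MPadcDC
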