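import Pool.Agent.Lib.MP_adc574_ag_DC.WFrX
import Pool.Agent.Lib.MP_adc574_ag_DC.WFrY
import Pool.Agent.Lib.MP_adc574_ag_DC.WFrD

/-!
# JOB WFrB [exists_fro]: the Frobenius lift on the forms; the action on cochains
-/

set_option autoImplicit false

namespace MPadcDC

open MvPolynomial MPadcGP

universe u v w

section

/-- Two forms of degree one anticommute. -/
theorem wfrb_swap {κ : Type u} [Field κ] {R : Type u} [CommRing R] [Algebra κ R] {x y : Fm κ R}
    (hx : x ∈ Fd κ R 1) (hy : y ∈ Fd κ R 1) : x * y + y * x = 0 := by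
  have h1 : ∀ z ∈ Fd κ R 1, ∃ a, ExteriorAlgebra.ι R a = z := by
    intro z hz
    have hz' : z ∈ ⋀[R]^1 (Ω[R⁄κ]) := hz
    rw [show ⋀[R]^1 (Ω[R⁄κ]) = LinearMap.range (ExteriorAlgebra.ι R (M := Ω[R⁄κ])) from pow_one _] at hz'
    exact hz'
  obtain ⟨a, rfl⟩ := h1 x hx
  obtain ⟨b, rfl⟩ := h1 y hy
  exact ExteriorAlgebra.ι_add_mul_swap a b

/-- The square of a form of degree one is zero. -/
theorem wfrb_sq {κ : Type u} [Field κ] {R : Type u} [CommRing R] [Algebra κ R] {x : Fm κ R}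
    (hx : x ∈ Fd κ R 1) : x * x = 0 := by
  have hz' : x ∈ ⋀[R]^1 (Ω[R⁄κ]) := hx
  rw [show ⋀[R]^1 (Ω[R⁄κ]) = LinearMap.range (ExteriorAlgebra.ι R (M := Ω[R⁄κ])) from pow_one _] at hz'
  obtain ⟨a, rfl⟩ := hz'
  exact ExteriorAlgebra.ι_sq_zero a

variable {κ : Type u} [Field κ] {p : ℕ} [Fact p.Prime] [CharP κ p] {n : ℕ}

/-- The lift of the Frobenius to the forms of one chart, with its properties. -/
theorem wfrb_one {I : Ideal (MvPolynomial (Fin n) κ)} (hI : IsHomog I) (hb : Binomial I)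
    {K : Finset (Fin n)} (hK : K.Nonempty) :
    ∃ F : Fm κ (chart I K) →+* Fm κ (chart I K), (∀ r, F (fz κ r) = fz κ (r ^ p)) ∧
      (∀ r s, F (df κ (r * s)) = fz κ (r ^ p) * F (df κ s) + fz κ (s ^ p) * F (df κ r)) ∧
      (∀ r, F (df κ r) ∈ Fd κ (chart I K) 1) ∧
      ∀ (l j : Fin n) (hj : j ∈ K), F (df κ (cq I K l hj)) =
        fz κ (cq I K l hj ^ (p - 1)) * df κ (cq I K l hj) := by
  obtain ⟨δ, h1, h2, h3, h4⟩ := exists_dlt (p := p) hI hb hK
  have hp0 : p ≠ 0 := (Fact.out : p.Prime).ne_zero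
  let φ : chart I K →+* Fm κ (chart I K) :=
    { toFun := fun r => fz κ (r ^ p)
      map_one' := by rw [one_pow, map_one]
      map_mul' := fun a b => by rw [mul_pow, map_mul]
      map_zero' := by rw [zero_pow hp0, map_zero]
      map_add' := fun a b => by rw [add_pow_p p κ (chart I K), map_add] }
  have hφ : ∀ r, φ r = fz κ (r ^ p) := fun r => rfl
  obtain ⟨F, hF1, hF2⟩ := exists_hom (A := κ) φ (fun r x => fz_comm _ _) δ h1 h2
    (fun s t => wfrb_swap (h3 s) (h3 t)) (fun s => wfrb_sq (h3 s))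
  refine ⟨F, hF1, fun r s => ?_, fun r => ?_, fun l j hj => ?_⟩
  · rw [hF2, hF2, hF2]
    exact h1 r s
  · rw [hF2]
    exact h3 r
  · rw [hF2]
    exact h4 l j hj

open Classical in
/-- The chosen lift. -/
noncomputable def wfrb_F {I : Ideal (MvPolynomial (Fin n) κ)} (hI : IsHomog I) (hb : Binomial I)
    {K : Finset (Fin n)} (hK : K.Nonempty) : Fm κ (chart I K) →+* Fm κ (chart I K) :=
  (wfrb_one (p := p) hI hb hK).choose

section

variable {I : Ideal (MvPolynomial (Fin n) κ)} (hI : IsHomog I) (hb : Binomial I)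
    {K : Finset (Fin n)} (hK : K.Nonempty)

theorem wfrb_F_fz (r : chart I K) : wfrb_F (p := p) hI hb hK (fz κ r) = fz κ (r ^ p) :=
  (wfrb_one (p := p) hI hb hK).choose_spec.1 r

theorem wfrb_F_mul (r s : chart I K) : wfrb_F (p := p) hI hb hK (df κ (r * s)) =
    fz κ (r ^ p) * wfrb_F (p := p) hI hb hK (df κ s) + fz κ (s ^ p) * wfrb_F (p := p) hI hb hK (df κ r) :=
  (wfrb_one (p := p) hI hb hK).choose_spec.2.1 r s

theorem wfrb_F_mem (r : chart I K) : wfrb_F (p := p) hI hb hK (df κ r) ∈ Fd κ (chart I K) 1 :=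
  (wfrb_one (p := p) hI hb hK).choose_spec.2.2.1 r

theorem wfrb_F_cq (l j : Fin n) (hj : j ∈ K) : wfrb_F (p := p) hI hb hK (df κ (cq I K l hj)) =
    fz κ (cq I K l hj ^ (p - 1)) * df κ (cq I K l hj) :=
  (wfrb_one (p := p) hI hb hK).choose_spec.2.2.2 l j hj

theorem wfrb_F_rep_df (t : chart I K) : Rep p (df κ t) (wfrb_F (p := p) hI hb hK (df κ t)) := by
  induction t using chart_ind with
  | h1 a =>
    rw [df_base, map_zero]
    exact Rep.zero
  | h2 l m hm =>
    rw [wfrb_F_cq]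
    exact Rep.df _
  | h3 x y hx hy =>
    rw [df_add, map_add]
    exact hx.add hy
  | h4 x y hx hy =>
    rw [wfrb_F_mul, df_mul]
    exact ((Rep.fz x).mul hy).add ((Rep.fz y).mul hx)

theorem wfrb_F_rep (x : Fm κ (chart I K)) : Rep p x (wfrb_F (p := p) hI hb hK x) := by
  induction x using fm_ind with
  | h1 r =>
    rw [wfrb_F_fz]
    exact Rep.fz r
  | h2 t => exact wfrb_F_rep_df hI hb hK t
  | h3 a b ha hb' =>
    rw [map_mul]
    exact ha.mul hb'
  | h4 a b ha hb' =>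
    rw [map_add]
    exact ha.add hb'

theorem wfrb_F_deg (q : ℕ) (x : Fm κ (chart I K)) (hx : x ∈ Fd κ (chart I K) q) :
    wfrb_F (p := p) hI hb hK x ∈ Fd κ (chart I K) q :=
  fro_deg (wfrb_F_fz hI hb hK) (wfrb_F_mem hI hb hK) q x hx

end

section

variable {I : Ideal (MvPolynomial (Fin n) κ)} (hI : IsHomog I) (hb : Binomial I)
    {J K : Finset (Fin n)} (h : J ⊆ K) (hJ : J.Nonempty) (hK : K.Nonempty)

theorem wfrb_rs_df (t : chart I J) : mp (tr I h : chart I J →+* chart I K) (CC.of_algHom _)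
      (wfrb_F (p := p) hI hb hJ (df κ t)) =
    wfrb_F (p := p) hI hb hK (df κ (tr I h t)) := by
  obtain ⟨F, hF⟩ : ∃ F, F = wfrb_F (p := p) hI hb hJ := ⟨_, rfl⟩
  obtain ⟨G, hG⟩ : ∃ G, G = wfrb_F (p := p) hI hb hK := ⟨_, rfl⟩
  have hF1 := wfrb_F_mul (p := p) hI hb hJ
  have hG1 := wfrb_F_mul (p := p) hI hb hK
  have hF2 := wfrb_F_cq (p := p) hI hb hJ
  have hG2 := wfrb_F_cq (p := p) hI hb hK
  rw [← hF] at hF1 hF2 ⊢
  rw [← hG] at hG1 hG2 ⊢
  induction t using chart_ind with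
  | h1 a => exact fro_base (φ := tr I h) a
  | h2 l m hm => exact fro_cq (φ := tr I h) (tr_cq I h l hm) (hF2 l m hm) (hG2 l m (h hm))
  | h3 x y hx hy => exact fro_add (φ := tr I h) hx hy
  | h4 x y hx hy => exact fro_mul (φ := tr I h) hF1 hG1 hx hy

theorem wfrb_rs (x : Fm κ (chart I J)) : mp (tr I h : chart I J →+* chart I K) (CC.of_algHom _)
      (wfrb_F (p := p) hI hb hJ x) =
    wfrb_F (p := p) hI hb hK (mp (tr I h : chart I J →+* chart I K) (CC.of_algHom _) x) :=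
  fro_all (φ := tr I h) (wfrb_F_fz hI hb hJ) (wfrb_F_fz hI hb hK) (wfrb_rs_df hI hb h hJ hK) x

end

open Classical in
theorem exists_fro {I : Ideal (MvPolynomial (Fin n) κ)} (hI : IsHomog I) (hb : Binomial I) :
    Nonempty (FroD p (prC I)) := by
  have hof : ∀ {J : Finset (Fin n)} (hJ : J.Nonempty) (x : Fm κ (chart I J)),
      (if hJ : J.Nonempty then ((wfrb_F (p := p) hI hb hJ : Fm κ (chart I J) →+* Fm κ (chart I J)) :
        Fm κ (chart I J) →+ Fm κ (chart I J)) else 0) x = wfrb_F (p := p) hI hb hJ x := by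
    intro J hJ x
    rw [dif_pos hJ]
    rfl
  exact ⟨{
    Φ := fun J => if hJ : J.Nonempty then ((wfrb_F (p := p) hI hb hJ : Fm κ (chart I J) →+* Fm κ (chart I J)) :
        Fm κ (chart I J) →+ Fm κ (chart I J)) else 0
    rep := fun J hJ x => by
      have h1 := wfrb_F_rep (p := p) hI hb hJ x
      rw [← hof hJ] at h1
      exact h1
    mem := fun J hJ q x hx => by
      have h1 := wfrb_F_deg (p := p) hI hb hJ q x hx
      rw [← hof hJ] at h1
      exact h1
    rs := fun {J K} h hJ x => by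
      have hK : K.Nonempty := hJ.mono h
      have h1 := wfrb_rs (p := p) hI hb h hJ hK x
      rw [← hof hJ, ← hof hK] at h1
      exact h1 }⟩

end

end MPadcDC
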