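import Pool.Agent.Lib.MP_adc574_ag_DC.WFrD

/-!
# JOB WFrC [fro_exact fro_closed Fc_mem Fc_del]: the Frobenius lift on the forms; the action on cochains

* `exists_fro`: for `K ≠ ∅` take `δ` from `exists_dlt` and `exists_hom` (GP/DR.lean) with `φ r = fz (r ^ p)`, `g = δ` (`δ s * δ t + δ t * δ s = 0`, `δ s * δ s = 0`: forms of degree `1`, grep `mul_comm`/`sq` lemmas for `Fd .. 1` in GP/DR*.lean): a ring
  endomorphism `F`. `rep`: as in `CarP.lift` (GP/CarP.lean); `Rep p (df t) (δ t)` for all `t ∈ R` by `chart_ind` (constants: `Rep.zero`; `cq`: `Rep.df`; sums: `Rep.add`; products: `df_mul`, `Rep.add`, `Rep.mul`, `Rep.fz`). `mem`: as `hdeg` in `CarP.lift`.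
  `rs`: `fm_ind`; the two maps `rs ∘ δ_J`, `δ_K ∘ tr` agree: `chart_ind` (`tr_cq`, `rs_df`, `rs_fz`, product rule). For `J = ∅`: `Φ = 0`.
* `fro_exact`: `CarP.inj` (GP/CarP.lean; `Unit`-indexed sums as in `CarP.lift`). `fro_closed`: `CarP.surj`, `Rep.exact_sub`, `mem_exq_of_exact`, as in `CarP.lift`.
* `Fc_del`: `del` at `J`: the terms with `J.erase j = ∅` vanish on both sides (`c ∅ = 0`).
-/

set_option autoImplicit false

namespace MPadcDC

open MvPolynomial MPadcGP

universe u v w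

section

variable {κ : Type u} [Field κ] {p : ℕ} [Fact p.Prime] [CharP κ p] {n : ℕ}

variable {X : CovD.{u, u} κ n} (F : FroD p X)

theorem fro_exact {J : Finset (Fin n)} (hJ : J.Nonempty) (hC : CarP p (fun _ : Unit => (1 : κ)) (X.R J)) {x : X.E J}
    (h : ∃ g, dd κ g = F.Φ J x) : x = 0 := by
  obtain ⟨g, hg⟩ := h
  refine hC.inj (fun _ => x) (fun _ => F.Φ J x) (fun _ => F.rep J hJ x) ⟨g, ?_⟩ ()
  rw [Finset.univ_unique, Finset.sum_singleton, one_smul]
  exact hg

theorem fro_closed {J : Finset (Fin n)} (hJ : J.Nonempty) (hC : CarP p (fun _ : Unit => (1 : κ)) (X.R J)) {q : ℕ}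
    {ω : X.E J} (hω : ω ∈ Fd κ (X.R J) q) (h : dd κ ω = 0) :
    ∃ x ∈ Fd κ (X.R J) q, ω - F.Φ J x ∈ exq κ (X.R J) q := by
  obtain ⟨x, z, hx, hz, hxz, hex⟩ := hC.surj q ω hω h
  rw [Finset.univ_unique, Finset.sum_singleton, one_smul] at hex
  refine ⟨x default, hx _, ?_⟩
  have h3 := (hxz default).exact_sub (F.rep J hJ (x default))
  have h4 : z default - F.Φ J (x default) ∈ exq κ (X.R J) q :=
    mem_exq_of_exact (Submodule.sub_mem _ (hz _) (F.mem J hJ q _ (hx _))) h3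
  have e : ω - F.Φ J (x default) = (ω - z default) + (z default - F.Φ J (x default)) := by abel
  rw [e]
  exact add_mem hex h4

theorem Fc_mem {c : X.Ch} {q j : ℕ} (hc : c ∈ X.Cq q j) : F.Fc c ∈ X.Cq q j := by
  obtain ⟨hc0, hc'⟩ := hc
  refine ⟨Fc_empty F c, fun J => ?_⟩
  by_cases hJ : J.Nonempty
  · rw [Fc_of F c hJ]
    refine ⟨fun h => F.mem J hJ q _ ((hc' J).1 h), fun h => ?_⟩
    rw [(hc' J).2 h, map_zero]
  · rw [Finset.not_nonempty_iff_eq_empty] at hJ
    subst hJ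
    rw [Fc_empty]
    exact ⟨fun _ => Submodule.zero_mem _, fun _ => rfl⟩

theorem Fc_del {c : X.Ch} (hc : c ∅ = 0) : X.del (F.Fc c) = F.Fc (X.del c) := by
  funext J
  by_cases hJ : J.Nonempty
  · rw [Fc_of F _ hJ, CovD.del_apply, CovD.del_apply, map_sum]
    refine Finset.sum_congr rfl fun j _ => ?_
    rw [map_zsmul]
    congr 1
    by_cases hK : (J.erase j).Nonempty
    · rw [CovD.ev_of (Finset.erase_subset j J), CovD.ev_of (Finset.erase_subset j J), Fc_of F c hK,
        F.rs (Finset.erase_subset j J) hK]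
    · rw [Finset.not_nonempty_iff_eq_empty] at hK
      rw [hK, CovD.ev_eq_zero (Fc_empty F c), CovD.ev_eq_zero hc, map_zero]
  · rw [Finset.not_nonempty_iff_eq_empty] at hJ
    subst hJ
    rw [Fc_empty, CovD.del_apply, Finset.sum_empty]

end

end MPadcDC
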