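import Pool.Agent.Lib.MP_adc574_ag_DC.WFrC

/-!
# JOB WFrF [fro_split]: a Frobenius lift and a finite field of constants give the vanishing of the cohomology of the exact forms

Notation: `Cʲ(Ω^q) = X.Cq q j`, `Φ = F.Fc`, `B` = the exact forms. `ExV q j`: `H ^ (j - 1) (BΩ ^ q) = 0` (cochains on the sets with `j + 1` elements).
* `fro_split`: `y ∈ Cʲ(Ω^q)`, `d δ y = 0`. If `j = 0` then `y = 0`. If `j = j' + 1`: `dy` is a cocycle with `j` elements of exact forms of degree `q + 1` (`del_dc`), so `dy = δ b'`, `b'` exact forms, `b' = dc w` (choose primitives in degree `q`: `mem_exq_succ`; `w ∈ C^(j')(Ω^q)`).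
  `y' = y - δ w` is closed, `δ y' = δ y` (`del_del`). `fro_closed` on every `K`, `#K = j`: `y' = Φ e + b`.
* `fro_inj`: `Φ x = δ y`: `dc (δ y) = 0` (`Rep.closed`), `fro_split`: `Φ (x - δ e) = δ b` which is exact on every `K` (`rs` of exact forms, `mp_exq`), so `x = δ e` (`fro_exact`; at `K = ∅` both vanish).
* `fro_surj`: let `V = Z / B`, `Z = Cq q (j + 1) ⊓ ker del`, `B = map del (Cq q j)`. `FGq Z B` and `κ` finite: `V` is a finite set (a finitely generated module over a finite ring: `Module.finite_of_finite`, or `Set.Finite` of the span of a finite set). `Φ` induces an additive map `V → V`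
  (`Φ (δ b) = δ (Φ b)`), injective by `fro_inj`, so surjective (`Finite.injective_iff_surjective`).
* `exV_all`: strong induction on `j`. `c ∈ Z` exact on every `K`. `fro_surj`: `c = Φ x + δ y`. `dc (δ y) = dc c - dc (Φ x) = 0`. `fro_split`: `δ y = Φ (δ e) + δ b` (`Fc_del`), so `Φ (x + δ e) = c - δ b` is exact on every `K`, `x + δ e = 0` (`fro_exact`), `c = δ b`.
* `bk_of_fro`: `IsBlochKatoOrdinary` (GP/Lit.lean) for `q` is `ExV (q + 1) j` (`mem_exq_succ`, `exactForms`: `Submodule.mem_map`); `pbas_finite` (GP/Fin.lean) gives a `p`-basis of the finite field; for the family `fun _ : Unit => 1` use that `κ` is perfect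
  (`frobenius` bijective: `PBas`), `carP_of_smooth` (GP/CarGl.lean), `IsSmoothProj.smooth`; `prC_fg_Cq` (GP/Cgr.lean).
-/

set_option autoImplicit false

namespace MPadcDC

open MvPolynomial MPadcGP

universe u v w

section

variable {κ : Type u} [Field κ] {n : ℕ} (X : CovD.{u, u} κ n)

/-- The cohomology of the exact forms of degree `q` vanishes (cochains on sets with `j + 1` elements). -/
def ExV (q j : ℕ) : Prop := ∀ c ∈ X.Cq q (j + 1), X.del c = 0 → (∀ K, c K ∈ exq κ (X.R K) q) →
  ∃ b ∈ X.Cq q j, (∀ K, b K ∈ exq κ (X.R K) q) ∧ X.del b = c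

private theorem WFrF_del {κ : Type u} [Field κ] {n : ℕ} {X : CovD.{u, u} κ n} {q j : ℕ} {w : X.Ch}
    (hw : w ∈ X.Cq q j) : X.del w ∈ X.Cq q (j + 1) := by
  refine ⟨?_, fun K => ⟨fun _ => ?_, fun hK => ?_⟩⟩
  · rw [CovD.del_apply, Finset.sum_empty]
  · rw [CovD.del_apply]
    refine Submodule.sum_mem _ fun i _ => ?_
    refine zsmul_mem ?_ _
    refine CovD.ev_mem ?_ K
    by_cases h1 : (K.erase i).card = j
    · exact (hw.2 _).1 h1
    · rw [(hw.2 _).2 h1]
      exact Submodule.zero_mem _
  · rw [CovD.del_apply]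
    refine Finset.sum_eq_zero fun i hi => ?_
    rw [CovD.ev_eq_zero ((hw.2 _).2 _), smul_zero]
    intro h1
    rw [Finset.card_erase_of_mem hi] at h1
    have h2 : 0 < K.card := Finset.card_pos.2 ⟨i, hi⟩
    omega

variable {X} {p : ℕ} [Fact p.Prime] [CharP κ p] (F : FroD p X)
  (hC : ∀ K : Finset (Fin n), K.Nonempty → CarP p (fun _ : Unit => (1 : κ)) (X.R K))

include hC in
theorem fro_split {q j : ℕ} (h : ∀ j' q', j' + 1 = j → ExV X q' j') {y : X.Ch} (hy : y ∈ X.Cq q j)
    (hd : X.dc (X.del y) = 0) :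
    ∃ e ∈ X.Cq q j, ∃ b ∈ X.Cq q j, (∀ K, b K ∈ exq κ (X.R K) q) ∧ X.del y = X.del (F.Fc e) + X.del b := by
  classical
  have hyF : ∀ K, y K ∈ Fd κ (X.R K) q := by
    intro K
    by_cases hK : K.card = j
    · exact (hy.2 K).1 hK
    · rw [(hy.2 K).2 hK]
      exact Submodule.zero_mem _
  cases j with
  | zero =>
    have hy0 : y = 0 := by
      funext K
      by_cases hK : K.card = 0
      · rw [Finset.card_eq_zero] at hK
        subst hK
        exact hy.1
      · exact (hy.2 K).2 hK
    refine ⟨0, Submodule.zero_mem _, 0, Submodule.zero_mem _, fun K => ?_, ?_⟩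
    · rw [Pi.zero_apply]
      exact zero_mem _
    · rw [hy0, Fc_zero, map_zero, add_zero]
  | succ j =>
    obtain ⟨b', hb', hbe, hbd⟩ := h j (q + 1) rfl (X.dc y)
      ⟨by rw [CovD.dc_apply, hy.1, map_zero], fun K => ⟨fun hK => by
        rw [CovD.dc_apply]
        exact dd_mem (hyF K), fun hK => by
        rw [CovD.dc_apply, (hy.2 K).2 hK, map_zero]⟩⟩
      (by rw [CovD.del_dc, hd])
      (fun K => mem_exq_succ.mpr ⟨y K, hyF K, rfl⟩)
    choose w0 hw0 hw1 using fun K => mem_exq_succ.mp (hbe K)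
    let w : X.Ch := fun K => if K.Nonempty ∧ K.card = j then w0 K else 0
    have hwF : w ∈ X.Cq q j := by
      refine ⟨if_neg (fun h => Finset.not_nonempty_empty h.1), fun K => ⟨fun hK => ?_, fun hK => ?_⟩⟩
      · change (if K.Nonempty ∧ K.card = j then w0 K else 0) ∈ _
        split_ifs
        · exact hw0 K
        · exact Submodule.zero_mem _
      · exact if_neg (fun h => hK h.2)
    have hdw : X.dc w = b' := by
      funext K
      rw [CovD.dc_apply]
      by_cases hK : K.Nonempty ∧ K.card = j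
      · have h1 : w K = w0 K := if_pos hK
        rw [h1, hw1]
      · have h1 : w K = 0 := if_neg hK
        rw [h1, map_zero]
        by_cases hK1 : K.Nonempty
        · exact ((hb'.2 K).2 (fun h => hK ⟨hK1, h⟩)).symm
        · rw [Finset.not_nonempty_iff_eq_empty] at hK1
          subst hK1
          exact hb'.1.symm
    have hdelw : X.del w ∈ X.Cq q (j + 1) := WFrF_del hwF
    have hy' : y - X.del w ∈ X.Cq q (j + 1) := Submodule.sub_mem _ hy hdelw
    have hcl : ∀ K, dd κ ((y - X.del w) K) = 0 := by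
      intro K
      rw [← CovD.dc_apply, map_sub, ← CovD.del_dc, hdw, hbd, sub_self]
      rfl
    have hex : ∀ K : Finset (Fin n), ∃ x ∈ Fd κ (X.R K) q, (K.Nonempty → (y - X.del w) K - F.Φ K x ∈ exq κ (X.R K) q) := by
      intro K
      by_cases hK : K.card = j + 1
      · have hne : K.Nonempty := Finset.card_pos.1 (by omega)
        obtain ⟨x, hx, hx1⟩ := fro_closed F hne (hC K hne) ((hy'.2 K).1 hK) (hcl K)
        exact ⟨x, hx, fun _ => hx1⟩
      · refine ⟨0, Submodule.zero_mem _, fun _ => ?_⟩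
        rw [(hy'.2 K).2 hK, map_zero, sub_zero]
        exact zero_mem _
    choose e0 he0 he1 using hex
    let e : X.Ch := fun K => if K.card = j + 1 then e0 K else 0
    have heq : ∀ K : Finset (Fin n), K.card = j + 1 → e K = e0 K := fun K hK => if_pos hK
    have heq0 : ∀ K : Finset (Fin n), K.card ≠ j + 1 → e K = 0 := fun K hK => if_neg hK
    have hem : e ∈ X.Cq q (j + 1) := by
      refine ⟨heq0 ∅ (by rw [Finset.card_empty]; omega), fun K => ⟨fun hK => ?_, heq0 K⟩⟩
      rw [heq K hK]
      exact he0 K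
    have hFe : F.Fc e ∈ X.Cq q (j + 1) := Fc_mem F hem
    have hb : ∀ K, (y - X.del w - F.Fc e) K ∈ exq κ (X.R K) q := by
      intro K
      by_cases hK : K.card = j + 1
      · have hne : K.Nonempty := Finset.card_pos.1 (by omega)
        rw [Pi.sub_apply, Fc_of F _ hne, heq K hK]
        exact he1 K hne
      · rw [Pi.sub_apply, (hy'.2 K).2 hK, (hFe.2 K).2 hK, sub_zero]
        exact zero_mem _
    refine ⟨e, hem, y - X.del w - F.Fc e, Submodule.sub_mem _ hy' hFe, hb, ?_⟩
    rw [← map_add, add_sub_cancel, map_sub, CovD.del_del, sub_zero]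

end

end MPadcDC
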