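import Pool.Agent.Lib.MP_adc574_ag_DC.WFrF
import Pool.Agent.Lib.MP_adc574_ag_GP.Conj
import Pool.Agent.Lib.MP_adc574_ag_GP.Cu
import Pool.Agent.Lib.MP_adc574_ag_GP.Ca

/-!
# JOB WFrG [fro_inj fro_surj]: a Frobenius lift and a finite field of constants give the vanishing of the cohomology of the exact forms

Notation: `Cʲ(Ω^q) = X.Cq q j`, `Φ = F.Fc`, `B` = the exact forms. `ExV q j`: `H ^ (j - 1) (BΩ ^ q) = 0` (cochains on the sets with `j + 1` elements).
* `fro_split`: `y ∈ Cʲ(Ω^q)`, `d δ y = 0`. If `j = 0` then `y = 0`. If `j = j' + 1`: `dy` is a cocycle with `j` elements of exact forms of degree `q + 1` (`del_dc`), so `dy = δ b'`, `b'` exact forms, `b' = dc w` (choose primitives in degree `q`: `mem_exq_succ`; `w ∈ C^(j')(Ω^q)`).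
  `y' = y - δ w` is closed, `δ y' = δ y` (`del_del`). `fro_closed` on every `K`, `#K = j`: `y' = Φ e + b`.
* `fro_inj`: `Φ x = δ y`: `dc (δ y) = 0` (`Rep.closed`), `fro_split`: `Φ (x - δ e) = δ b` which is exact on every `K` (`rs` of exact forms, `mp_exq`), so `x = δ e` (`fro_exact`; at `K = ∅` both vanish).
* `fro_surj`: let `V = Z / B`, `Z = Cq q (j + 1) ⊓ ker del`, `B = map del (Cq q j)`. `FGq Z B` and `κ` finite: `V` is a finite set (a finitely generated module over a finite ring: `Module.finite_of_finite`, or `Set.Finite` of the span of a finite set). `Φ` induces an additive map `V → V`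
  (`Φ (δ b) = δ (Φ b)`), injective by `fro_inj`, so surjective (`Finite.injective_iff_surjective`).
* `exV_all`: strong induction on `j`. `c ∈ Z` exact on every `K`. `fro_surj`: `c = Φ x + δ y`. `dc (δ y) = dc c - dc (Φ x) = 0`. `fro_split`: `δ y = Φ (δ e) + δ b` (`Fc_del`), so `Φ (x + δ e) = c - δ b` is exact on every `K`, `x + δ e = 0` (`fro_exact`), `c = δ b`.
* `bk_of_fro`: `IsBlochKatoOrdinary` (GP/Lit.lean) for `q` is `ExV (q + 1) j` (`mem_exq_succ`, `exactForms`: `Submodule.mem_map`); `pbas_finite` (GP/Fin.lean) gives a `p`-basis of the finite field; for the family `fun _ : Unit => 1` use that `κ` is perfect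
  (`frobenius` bijective: `PBas`), `carP_of_smooth` (GP/CarGl.lean), `IsSmoothProj.smooth`; `prC_fg_Cq` (GP/Cgr.lean).
-/

set_option autoImplicit false

namespace MPadcDC

open MvPolynomial MPadcGP

universe u v w

section

variable {κ : Type u} [Field κ] {n : ℕ} {X : CovD.{u, u} κ n} {p : ℕ} [Fact p.Prime] [CharP κ p] (F : FroD p X)
  (hC : ∀ K : Finset (Fin n), K.Nonempty → CarP p (fun _ : Unit => (1 : κ)) (X.R K))

private theorem WFrG_del_empty (c : X.Ch) : X.del c ∅ = 0 := by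
  rw [CovD.del_apply, Finset.sum_empty]

private theorem WFrG_dc_Fc (x : X.Ch) : X.dc (F.Fc x) = 0 := by
  funext K
  rw [CovD.dc_apply]
  by_cases hK : K.Nonempty
  · rw [Fc_of F _ hK]
    exact (F.rep K hK (x K)).closed
  · rw [Finset.not_nonempty_iff_eq_empty] at hK
    subst hK
    rw [Fc_empty, map_zero]
    rfl

private theorem WFrG_del_exq {q : ℕ} {b : X.Ch} (hb : ∀ K, b K ∈ exq κ (X.R K) q) (K : Finset (Fin n)) :
    X.del b K ∈ exq κ (X.R K) q := by
  rw [CovD.del_apply]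
  exact sum_mem fun j _ => zsmul_mem (CovD.ev_exq (hb _) K) _

include hC in
theorem fro_inj {q j : ℕ} (h : ∀ j' q', j' + 1 = j → ExV X q' j') {x y : X.Ch} (hx : x ∈ X.Cq q (j + 1))
    (hy : y ∈ X.Cq q j) (hxy : F.Fc x = X.del y) : ∃ e ∈ X.Cq q j, X.del e = x := by
  obtain ⟨e, he, b, hb, hbe, h1⟩ := fro_split F hC h hy (by rw [← hxy]; exact WFrG_dc_Fc F x)
  refine ⟨e, he, ?_⟩
  obtain ⟨w, hw⟩ : ∃ w : X.Ch, w = x - X.del e := ⟨_, rfl⟩
  have h2 : x = w + X.del e := by rw [hw, sub_add_cancel]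
  have h3 : F.Fc w = X.del b := by
    have h4 : F.Fc x = F.Fc w + F.Fc (X.del e) := by
      conv_lhs => rw [h2]
      exact Fc_add F w (X.del e)
    rw [hxy, h1, Fc_del F he.1, add_comm (F.Fc w)] at h4
    exact (add_left_cancel h4).symm
  have h5 : w = 0 := by
    funext K
    by_cases hK : K.Nonempty
    · have h6 : F.Φ K (w K) = X.del b K := by
        rw [← h3, Fc_of F _ hK]
      refine fro_exact F hK (hC K hK) ?_
      rw [h6]
      exact exq_exact (WFrG_del_exq hbe K)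
    · rw [Finset.not_nonempty_iff_eq_empty] at hK
      subst hK
      rw [hw, Pi.sub_apply, hx.1, WFrG_del_empty, sub_zero]
      rfl
  rw [h2, h5, zero_add]

include hC in
theorem fro_surj [Finite κ] {q j : ℕ} (h : ∀ j' q', j' + 1 = j → ExV X q' j')
    (hfg : FGq (X.Cq q (j + 1) ⊓ LinearMap.ker X.del) ((X.Cq q j).map X.del)) {c : X.Ch}
    (hc : c ∈ X.Cq q (j + 1)) (hd : X.del c = 0) :
    ∃ x ∈ X.Cq q (j + 1), X.del x = 0 ∧ ∃ y ∈ X.Cq q j, c = F.Fc x + X.del y := by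
  obtain ⟨Z, hZ⟩ : ∃ Z : Submodule κ X.Ch, Z = X.Cq q (j + 1) ⊓ LinearMap.ker X.del := ⟨_, rfl⟩
  obtain ⟨B, hB⟩ : ∃ B : Submodule κ X.Ch, B = (X.Cq q j).map X.del := ⟨_, rfl⟩
  rw [← hZ, ← hB] at hfg
  have hZ1 : ∀ z, z ∈ Z ↔ z ∈ X.Cq q (j + 1) ∧ X.del z = 0 := fun z => by
    rw [hZ, Submodule.mem_inf, LinearMap.mem_ker]
  have hFZ : ∀ z : Z, F.Fc (z : X.Ch) ∈ Z := fun z => by
    have h1 := (hZ1 z).1 z.2
    refine (hZ1 _).2 ⟨Fc_mem F h1.1, ?_⟩
    rw [Fc_del F h1.1.1, h1.2, Fc_zero]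
  have hfin : Module.Finite κ (↥Z ⧸ B.submoduleOf Z) := hfg.finite
  have hfin' : Finite (↥Z ⧸ B.submoduleOf Z) := Module.finite_of_finite κ
  have key : ∀ a b : Z, (B.submoduleOf Z).mkQ a = (B.submoduleOf Z).mkQ b ↔
      ∃ y ∈ X.Cq q j, X.del y = (a : X.Ch) - (b : X.Ch) := by
    intro a b
    rw [Submodule.mkQ_apply, Submodule.mkQ_apply, Submodule.Quotient.eq]
    have h1 : a - b ∈ B.submoduleOf Z ↔ (a : X.Ch) - (b : X.Ch) ∈ B := Iff.rfl
    rw [h1, hB]
    exact Iff.rfl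
  choose r hr using Submodule.mkQ_surjective (B.submoduleOf Z)
  have hinj : Function.Injective (fun v : ↥Z ⧸ B.submoduleOf Z =>
      (B.submoduleOf Z).mkQ (⟨F.Fc (r v : X.Ch), hFZ (r v)⟩ : Z)) := by
    intro v v' hv
    obtain ⟨y, hy, h1⟩ := (key _ _).1 hv
    change X.del y = F.Fc (r v : X.Ch) - F.Fc (r v' : X.Ch) at h1
    have h2 : F.Fc ((r v : X.Ch) - (r v' : X.Ch)) = X.del y := by
      have h3 := Fc_add F ((r v : X.Ch) - (r v' : X.Ch)) (r v' : X.Ch)
      rw [sub_add_cancel] at h3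
      rw [h1, h3, add_sub_cancel_right]
    obtain ⟨e, he, h4⟩ := fro_inj F hC h
      ((X.Cq q (j + 1)).sub_mem ((hZ1 _).1 (r v).2).1 ((hZ1 _).1 (r v').2).1) hy h2
    have h5 : (B.submoduleOf Z).mkQ (r v) = (B.submoduleOf Z).mkQ (r v') := (key _ _).2 ⟨e, he, h4⟩
    rw [hr, hr] at h5
    exact h5
  obtain ⟨v, hv⟩ := Finite.surjective_of_injective hinj ((B.submoduleOf Z).mkQ ⟨c, (hZ1 c).2 ⟨hc, hd⟩⟩)
  obtain ⟨y, hy, h1⟩ := (key _ _).1 hv.symm
  change X.del y = c - F.Fc (r v : X.Ch) at h1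
  refine ⟨r v, ((hZ1 _).1 (r v).2).1, ((hZ1 _).1 (r v).2).2, y, hy, ?_⟩
  rw [h1, add_sub_cancel]

end

end MPadcDC
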