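import Pool.Agent.Lib.MP_adc574_ag_DC.WFrG

/-!
# JOB WFrH [exV_all]: a Frobenius lift and a finite field of constants give the vanishing of the cohomology of the exact forms

Notation: `Cʲ(Ω^q) = X.Cq q j`, `Φ = F.Fc`, `B` = the exact forms. `ExV q j`: `H ^ (j - 1) (BΩ ^ q) = 0` (cochains on the sets with `j + 1` elements).
* `fro_split`: `y ∈ Cʲ(Ω^q)`, `d δ y = 0`. If `j = 0` then `y = 0`. If `j = j' + 1`: `dy` is a cocycle with `j` elements of exact forms of degree `q + 1` (`del_dc`), so `dy = δ b'`, `b'` exact forms, `b' = dc w` (choose primitives in degree `q`: `mem_exq_succ`; `w ∈ C^(j')(Ω^q)`).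
  `y' = y - δ w` is closed, `δ y' = δ y` (`del_del`). `fro_closed` on every `K`, `#K = j`: `y' = Φ e + b`.
* `fro_inj`: `Φ x = δ y`: `dc (δ y) = 0` (`Rep.closed`), `fro_split`: `Φ (x - δ e) = δ b` which is exact on every `K` (`rs` of exact forms, `mp_exq`), so `x = δ e` (`fro_exact`; at `K = ∅` both vanish).
* `fro_surj`: let `V = Z / B`, `Z = Cq q (j + 1) ⊓ ker del`, `B = map del (Cq q j)`. `FGq Z B` and `κ` finite: `V` is a finite set (a finitely generated module over a finite ring: `Module.finite_of_finite`, or `Set.Finite` of the span of a finite set). `Φ` induces an additive map `V → V`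
  (`Φ (δ b) = δ (Φ b)`), injective by `fro_inj`, so surjective (`Finite.injective_iff_surjective`).
* `exV_all`: strong induction on `j`. `c ∈ Z` exact on every `K`. `fro_surj`: `c = Φ x + δ y`. `dc (δ y) = dc c - dc (Φ x) = 0`. `fro_split`: `δ y = Φ (δ e) + δ b` (`Fc_del`), so `Φ (x + δ e) = c - δ b` is exact on every `K`, `x + δ e = 0` (`fro_exact`), `c = δ b`.
* `bk_of_fro`: `IsBlochKatoOrdinary` (GP/Lit.lean) for `q` is `ExV (q + 1) j` (`mem_exq_succ`, `exactForms`: `Submodule.mem_map`); `pbas_finite` (GP/Fin.lean) gives a `p`-basis of the finite field; for the family `fun _ : Unit => 1` use that `κ` is perfect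
  (`frobenius` bijective: `PBas`), `carP_of_smooth` (GP/CarGl.lean), `IsSmoothProj.smooth`; `prC_fg_Cq` (GP/Cgr.lean).
-/

set_option autoImplicit false

namespace MPadcDC

open MvPolynomial MPadcGP

universe u v w

section

variable {κ : Type u} [Field κ] {n : ℕ} {X : CovD.{u, u} κ n} {p : ℕ} [Fact p.Prime] [CharP κ p] (F : FroD p X)
  (hC : ∀ K : Finset (Fin n), K.Nonempty → CarP p (fun _ : Unit => (1 : κ)) (X.R K))

private theorem WFrH_ev {q : ℕ} {b : X.Ch} (hb : ∀ K, b K ∈ exq κ (X.R K) q) (K J : Finset (Fin n)) :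
    X.ev b K J ∈ exq κ (X.R J) q := by
  by_cases h : K ⊆ J
  · rw [CovD.ev_of h]
    exact mp_exq _ (hb K)
  · have h1 : X.ev b K J = 0 := dif_neg h
    rw [h1]
    exact zero_mem _

private theorem WFrH_del {q : ℕ} {b : X.Ch} (hb : ∀ K, b K ∈ exq κ (X.R K) q) (K : Finset (Fin n)) :
    X.del b K ∈ exq κ (X.R K) q := by
  rw [CovD.del_apply]
  exact sum_mem fun j _ => zsmul_mem (WFrH_ev hb _ _) _

include F hC in
theorem exV_all [Finite κ]
    (hfg : ∀ q j, FGq (X.Cq q (j + 1) ⊓ LinearMap.ker X.del) ((X.Cq q j).map X.del)) (q j : ℕ) : ExV X q j := by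
  induction j using Nat.strong_induction_on generalizing q with
  | _ j ih =>
  have h : ∀ j' q', j' + 1 = j → ExV X q' j' := fun j' q' hj => ih j' (by omega) q'
  intro c hc hd hex
  obtain ⟨x, hx, hdx, y, hy, hcxy⟩ := fro_surj F hC h (hfg q j) hc hd
  have h1 : X.dc (X.del y) = 0 := by
    have h2 : X.del y = c - F.Fc x := by rw [hcxy, add_sub_cancel_left]
    rw [h2, map_sub]
    funext K
    rw [Pi.sub_apply, Pi.zero_apply, CovD.dc_apply, CovD.dc_apply, exq_closed (hex K), zero_sub,
      neg_eq_zero]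
    by_cases hK : K.Nonempty
    · rw [Fc_of F _ hK]
      exact (F.rep K hK (x K)).closed
    · rw [Finset.not_nonempty_iff_eq_empty] at hK
      subst hK
      rw [Fc_empty, map_zero]
  obtain ⟨e, he, b, hb, hbex, hyeb⟩ := fro_split F hC h hy h1
  have h3 : c - X.del b = F.Fc (x + X.del e) := by
    rw [Fc_add, ← Fc_del F he.1, hcxy, hyeb]
    abel
  have h4 : x + X.del e = 0 := by
    funext K
    by_cases hK : K.Nonempty
    · refine fro_exact F hK (hC K hK) ?_
      have h5 : F.Φ K ((x + X.del e) K) = c K - X.del b K := by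
        rw [← Fc_of F _ hK, ← h3, Pi.sub_apply]
      rw [h5]
      exact exq_exact (sub_mem (hex K) (WFrH_del hbex K))
    · rw [Finset.not_nonempty_iff_eq_empty] at hK
      subst hK
      rw [Pi.add_apply, hx.1, CovD.del_apply, Finset.sum_empty, add_zero]
      rfl
  refine ⟨b, hb, hbex, ?_⟩
  rw [h4, Fc_zero] at h3
  exact (sub_eq_zero.1 h3).symm


end

end MPadcDC
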