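import Pool.Agent.Lib.MP_adc574_ag_DC.WFrH
import Pool.Agent.Lib.MP_adc574_ag_GP.Fin
import Pool.Agent.Lib.MP_adc574_ag_GP.Cgr

/-!
# A Frobenius lift and a finite field of constants give the vanishing of the cohomology of the exact forms
-/

set_option autoImplicit false

namespace MPadcDC

open MvPolynomial MPadcGP

universe u v w

theorem WFrI_mem {κ : Type u} [Field κ] {R : Type v} [CommRing R] [Algebra κ R] {q : ℕ} {e : Fm κ R} :
    e ∈ exactForms κ R q ↔ e ∈ exq κ R (q + 1) := by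
  rw [mem_exq_succ]
  unfold exactForms
  rw [Submodule.mem_map]
  exact Iff.rfl

theorem bk_of_fro {κ : Type u} [Field κ] [Finite κ] {p : ℕ} [Fact p.Prime] [CharP κ p] {n : ℕ}
    {J : Ideal (MvPolynomial (Fin n) κ)} (hJ : IsHomog J) (hs : IsSmoothProj J) (F : FroD p (prC J)) :
    (prC J).IsBlochKatoOrdinary := by
  have hC : ∀ K : Finset (Fin n), K.Nonempty → CarP p (fun _ : Unit => (1 : κ)) ((prC J).R K) := by
    intro K hK
    have : Algebra.Smooth κ ((prC J).R K) := IsSmoothProj.smooth hJ hs hK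
    exact carP_of_smooth pbas_finite
  intro q j c hc hd
  obtain ⟨h0, h1⟩ := hc
  have hcC : c ∈ (prC J).Cq (q + 1) (j + 1) := by
    rw [CovD.mem_Cq]
    exact ⟨h0, fun K => ⟨fun _ => exq_le (WFrI_mem.1 (h1 K).1), (h1 K).2⟩⟩
  obtain ⟨b, hb, hbe, hbd⟩ := exV_all F hC (fun q j => prC_fg_Cq hJ q j) (q + 1) j c hcC hd
    (fun K => WFrI_mem.1 (h1 K).1)
  rw [CovD.mem_Cq] at hb
  exact ⟨b, fun K => ⟨WFrI_mem.2 (hbe K), (hb.2 K).2⟩, hb.1, hbd⟩

end MPadcDC
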