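import Pool.Agent.Lib.MP_adc574_ag_DC.WFrI
import Pool.Agent.Lib.MP_adc574_ag_DC.WFrB
import Pool.Agent.Lib.MP_adc574_ag_DC.PRed0

/-!
# JOB WFrJ [binom_open]: smooth toric varieties are opposite at all generic points for large `p`

`A₀ = ⊥ : Subalgebra ℤ k` (f.g., a domain, `CharZero`: `pred_ft`, `pred_cz`). `IZ` := the ideal over `A₀` generated by the same binomials; homogeneous (`binom_deg`, `span_homog`), `bI (A₀ → k) IZ = I₀`.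
* `binom_open`: `a ≠ 0` from `IsSmoothProj.exists_away` (GP/Mod5.lean). For `𝔓 ∈ Min(p A₀)`, `p` large (`a ∉ 𝔓`: `exists_resB`, GP/R3Res.lean, or directly: `A₀ ≅ ℤ`), `f = a`: `𝔫` maximal, `𝔓 ≤ 𝔫`, `a ∉ 𝔫`: `κ = A₀ ⧸ 𝔫` is finite of characteristic `p` (`finite_quot`, GP/Fin3b.lean), smooth by
  `IsSmoothProj.of_away`, `bk_of_fro`, `exists_fro`, `Binomial.map`. So `IsOpenOrd IZ 𝔓`.
* `binom_opp`: `open_iff_opp` for `A₀`: `OppAt IZ 𝔓₀`, `𝔓₀ ∈ Min(pA₀)`. `A' ≥ A` f.g. with `bI incl IY = bI incl' IZ` (`exists_eq_model` applied to `IY` and `bI (A₀ → A) IZ`, `A₀ ≤ A`: `bot_le`). For `𝔓 ∈ Min(pA)` take `𝔓' ∈ Min(pA')` over `𝔓` (`exists_over`, GP/R3Ov.lean); `𝔓' ∩ A₀ ∈ Min(pA₀)` for large `p`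
  (`A₀ ≅ ℤ`: a prime of `A₀` which contains `p` is `(p)`, and it is not everything; so it is minimal over `(p)`). `opp_upd` (for `A₀ → A'`), `opp_down` (for `A → A'`).
-/

set_option autoImplicit false

namespace MPadcDC

open MvPolynomial MPadcGP

universe u v w

private theorem WFrJ_bot {k : Type u} [Field k] (a : (⊥ : Subalgebra ℤ k)) : ∃ z : ℤ, a = (z : (⊥ : Subalgebra ℤ k)) := by
  obtain ⟨z, hz⟩ := Algebra.mem_bot.1 a.2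
  refine ⟨z, Subtype.ext ?_⟩
  rw [← hz]
  simp

/-- a nonzero element of `⊥` is in no prime ideal containing a large prime number -/
private theorem WFrJ_large {k : Type u} [Field k] {a : (⊥ : Subalgebra ℤ k)} (ha : a ≠ 0) :
    ∃ p₀ : ℕ, ∀ p : ℕ, p₀ ≤ p → p.Prime → ∀ 𝔓 : Ideal (⊥ : Subalgebra ℤ k), 𝔓.IsPrime →
      (p : (⊥ : Subalgebra ℤ k)) ∈ 𝔓 → a ∉ 𝔓 := by
  obtain ⟨z, rfl⟩ := WFrJ_bot a
  have hz : z ≠ 0 := by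
    rintro rfl
    exact ha Int.cast_zero
  refine ⟨z.natAbs + 1, fun p hp hpr 𝔓 h𝔓 hp𝔓 hz𝔓 => ?_⟩
  have hpz : ¬ (p : ℤ) ∣ z := by
    intro h
    have h1 : p ∣ z.natAbs := Int.natCast_dvd.1 h
    have h2 := Nat.le_of_dvd (Int.natAbs_pos.2 hz) h1
    omega
  have hcop : IsCoprime (p : ℤ) z := (Nat.prime_iff_prime_int.1 hpr).coprime_iff_not_dvd.2 hpz
  obtain ⟨u, v, huv⟩ := hcop
  apply h𝔓.ne_top
  rw [Ideal.eq_top_iff_one]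
  have h3 : (1 : (⊥ : Subalgebra ℤ k)) = (u : (⊥ : Subalgebra ℤ k)) * (p : (⊥ : Subalgebra ℤ k)) +
      (v : (⊥ : Subalgebra ℤ k)) * (z : (⊥ : Subalgebra ℤ k)) := by
    have h4 := congrArg (fun x : ℤ => (x : (⊥ : Subalgebra ℤ k))) huv
    push_cast at h4
    exact h4.symm
  rw [h3]
  exact 𝔓.add_mem (𝔓.mul_mem_left _ hp𝔓) (𝔓.mul_mem_left _ hz𝔓)

theorem binom_open {k : Type u} [Field k] [CharZero k] {n : ℕ}
    {IZ : Ideal (MvPolynomial (Fin n) (⊥ : Subalgebra ℤ k))} (hI : IsHomog IZ) (hb : Binomial IZ)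
    (hs : IsSmoothProj (bI (algebraMap (⊥ : Subalgebra ℤ k) k) IZ)) :
    ∃ p₀ : ℕ, ∀ p : ℕ, p₀ ≤ p → p.Prime →
      ∀ 𝔓 ∈ (Ideal.span {(p : (⊥ : Subalgebra ℤ k))}).minimalPrimes, IsOpenOrd IZ 𝔓 := by
  have hft : Algebra.FiniteType ℤ (⊥ : Subalgebra ℤ k) := pred_ft Subalgebra.fg_bot
  have hcz := pred_cz (⊥ : Subalgebra ℤ k)
  have hn : IsNoetherianRing (⊥ : Subalgebra ℤ k) := Algebra.FiniteType.isNoetherianRing ℤ _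
  obtain ⟨a, ha, hsa⟩ := IsSmoothProj.exists_away hI (algebraMap (⊥ : Subalgebra ℤ k) k) Subtype.val_injective hs
  obtain ⟨p₀, hp₀⟩ := WFrJ_large ha
  refine ⟨p₀, fun p hp hpr 𝔓 h𝔓 => ?_⟩
  have hpp : Fact p.Prime := ⟨hpr⟩
  have h𝔓p : 𝔓.IsPrime := h𝔓.1.1
  have hp𝔓 : (p : (⊥ : Subalgebra ℤ k)) ∈ 𝔓 := h𝔓.1.2 (Ideal.subset_span rfl)
  refine ⟨a, hp₀ p hp hpr 𝔓 h𝔓p hp𝔓, fun 𝔪 h𝔪 hle ha𝔪 => ?_⟩
  let _ : Field ((⊥ : Subalgebra ℤ k) ⧸ 𝔪) := Ideal.Quotient.field 𝔪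
  have hcp : CharP ((⊥ : Subalgebra ℤ k) ⧸ 𝔪) p := by
    have h1 : ((p : ℕ) : (⊥ : Subalgebra ℤ k) ⧸ 𝔪) = 0 := by
      rw [← map_natCast (Ideal.Quotient.mk 𝔪) p, Ideal.Quotient.eq_zero_iff_mem]
      exact hle hp𝔓
    exact charP_of_cast_zero hpr h1
  have hfin : Finite ((⊥ : Subalgebra ℤ k) ⧸ 𝔪) := finite_quot (p := p) 𝔪
  have hsm : IsSmoothProj (bI (Ideal.Quotient.mk 𝔪) IZ) :=
    IsSmoothProj.of_away hI hsa (Ideal.Quotient.mk 𝔪)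
      (IsUnit.mk0 _ fun h => ha𝔪 (Ideal.Quotient.eq_zero_iff_mem.1 h))
  refine ⟨hsm, ?_⟩
  obtain ⟨F⟩ := exists_fro (p := p) (hI.map (Ideal.Quotient.mk 𝔪)) (Binomial.map (Ideal.Quotient.mk 𝔪) hb)
  exact bk_of_fro (hI.map (Ideal.Quotient.mk 𝔪)) hsm F

end MPadcDC
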