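import Pool.Agent.Lib.MP_adc574_ag_DC.WFrJ

/-!
# WFrK [binom_opp]: smooth toric varieties are opposite at all generic points for large `p`

`A₀ = ⊥ : Subalgebra ℤ k`, `IZ` := the ideal over `A₀` generated by the same binomials; `binom_open`, `open_iff_opp` for `A₀`; a common
model over `A' ≥ A`; a prime of `A'` over `𝔓`, whose trace on `A₀` is minimal over `(p)` since `A₀` is a quotient of `ℤ`; `opp_upd`
for `A₀ → A'`, `opp_down` for `A → A'`.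
-/

set_option autoImplicit false

namespace MPadcDC

open MvPolynomial MPadcGP

universe u v w

/-- The trace on the image of `ℤ` of a prime over `p` is minimal over `(p)`. -/
private theorem WFrK_min {k : Type u} [Field k] {A' : Type u} [CommRing A'] (ι : (⊥ : Subalgebra ℤ k) →+* A') {p : ℕ}
    (hp : p.Prime) (𝔓' : Ideal A') [𝔓'.IsPrime] (h : (p : A') ∈ 𝔓') :
    𝔓'.comap ι ∈ (Ideal.span {(p : (⊥ : Subalgebra ℤ k))}).minimalPrimes := by
  have hmem : (p : (⊥ : Subalgebra ℤ k)) ∈ 𝔓'.comap ι := by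
    rw [Ideal.mem_comap, map_natCast]
    exact h
  refine ⟨⟨Ideal.IsPrime.comap ι, (Ideal.span_singleton_le_iff_mem _).2 hmem⟩, ?_⟩
  rintro 𝔮 ⟨-, h𝔮⟩ hle x hx
  obtain ⟨x, hx1⟩ := x
  obtain ⟨z, hz⟩ := Algebra.mem_bot.1 hx1
  have hxz : (⟨x, hx1⟩ : (⊥ : Subalgebra ℤ k)) = (z : (⊥ : Subalgebra ℤ k)) := by
    apply Subtype.ext
    rw [SubringClass.coe_intCast]
    exact hz.symm
  rw [hxz] at hx ⊢
  have hpz : (p : ℤ) ∣ z := by
    by_contra hcon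
    have hcop : IsCoprime (p : ℤ) z := (Nat.prime_iff_prime_int.1 hp).coprime_iff_not_dvd.2 hcon
    obtain ⟨a, b, hab⟩ := hcop
    have h1 := congrArg (fun t : ℤ => (t : A')) hab
    simp only [Int.cast_add, Int.cast_mul, Int.cast_natCast, Int.cast_one] at h1
    rw [Ideal.mem_comap, map_intCast] at hx
    refine (Ideal.IsPrime.ne_top (I := 𝔓') inferInstance) ((Ideal.eq_top_iff_one _).2 ?_)
    rw [← h1]
    exact 𝔓'.add_mem (𝔓'.mul_mem_left _ h) (𝔓'.mul_mem_left _ hx)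
  obtain ⟨y, rfl⟩ := hpz
  rw [Int.cast_mul, Int.cast_natCast]
  exact 𝔮.mul_mem_right _ (h𝔮 (Ideal.mem_span_singleton_self _))

theorem binom_opp {k : Type u} [Field k] [CharZero k] {n : ℕ} {I₀ : Ideal (MvPolynomial (Fin n) k)}
    (hb : Binomial I₀) (hI : IsHomog I₀) (hs : IsSmoothProj I₀) (A : Subalgebra ℤ k) (hA : A.FG)
    (IY : Ideal (MvPolynomial (Fin n) A)) (hIY : IsHomog IY) (hYk : bI (algebraMap A k) IY = I₀) :
    ∃ p₀ : ℕ, ∀ p : ℕ, p₀ ≤ p → p.Prime → ∀ 𝔓 ∈ (Ideal.span {(p : A)}).minimalPrimes, OppAt IY 𝔓 := by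
  obtain ⟨S, hS⟩ := hb
  have hdeg := binom_deg hI hS
  obtain ⟨IZ, hIZ⟩ : ∃ IZ : Ideal (MvPolynomial (Fin n) (⊥ : Subalgebra ℤ k)),
    IZ = Ideal.span ((fun s => monomial s.1 (1 : (⊥ : Subalgebra ℤ k)) - monomial s.2 1) '' S) := ⟨_, rfl⟩
  have hbZ : Binomial IZ := ⟨S, hIZ⟩
  have hhZ : IsHomog IZ := by
    rw [hIZ]
    refine span_homog ?_
    rintro _ ⟨s, hs1, rfl⟩
    refine ⟨∑ l, s.1 l, ?_⟩
    refine (isHomogeneous_monomial (R := (⊥ : Subalgebra ℤ k)) 1 ?_).sub (isHomogeneous_monomial (R := (⊥ : Subalgebra ℤ k)) 1 ?_)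
    · rw [Finsupp.degree_eq_sum]
    · rw [Finsupp.degree_eq_sum, hdeg s hs1]
  have hZk : bI (algebraMap (⊥ : Subalgebra ℤ k) k) IZ = I₀ := by
    rw [hIZ, hS]
    unfold bI
    rw [Ideal.map_span, ← Set.image_comp]
    refine congrArg _ (Set.image_congr fun s _ => ?_)
    change MvPolynomial.map _ (monomial s.1 (1 : (⊥ : Subalgebra ℤ k)) - monomial s.2 1) = _
    rw [map_sub, map_monomial, map_monomial, map_one]
  have hft0 := pred_ft (k := k) (A := ⊥) Subalgebra.fg_bot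
  have hcz0 := pred_cz (⊥ : Subalgebra ℤ k)
  have hfA := pred_ft hA
  have hcA := pred_cz A
  obtain ⟨p₁, h₁⟩ := binom_open hhZ hbZ (hZk.symm ▸ hs)
  obtain ⟨p₂, h₂⟩ := open_iff_opp hhZ (algebraMap (⊥ : Subalgebra ℤ k) k) Subtype.val_injective (hZk.symm ▸ hs)
  have hcomp0 : (algebraMap A k).comp (Subalgebra.inclusion (bot_le : (⊥ : Subalgebra ℤ k) ≤ A)).toRingHom =
    algebraMap (⊥ : Subalgebra ℤ k) k := rfl
  obtain ⟨A', hle, hA', heq⟩ := exists_eq_model A hA IY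
    (bI (Subalgebra.inclusion (bot_le : (⊥ : Subalgebra ℤ k) ≤ A)).toRingHom IZ) (by rw [hYk, bI_bI, hcomp0, hZk])
  have hfA' := pred_ft hA'
  have hcA' := pred_cz A'
  obtain ⟨ι, hι⟩ : ∃ ι : (⊥ : Subalgebra ℤ k) →+* A', ι = (Subalgebra.inclusion hle).toRingHom.comp
    (Subalgebra.inclusion (bot_le : (⊥ : Subalgebra ℤ k) ≤ A)).toRingHom := ⟨_, rfl⟩
  rw [bI_bI, ← hι] at heq
  obtain ⟨p₃, h₃⟩ := exists_over A A' (Subalgebra.inclusion hle).toRingHom (Subalgebra.inclusion_injective hle)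
  obtain ⟨p₄, h₄⟩ := opp_upd ι hhZ (algebraMap (⊥ : Subalgebra ℤ k) k) Subtype.val_injective (hZk.symm ▸ hs)
  refine ⟨p₁ + p₂ + p₃ + p₄ + 1, fun p hp hpr 𝔓 h𝔓 => ?_⟩
  obtain ⟨𝔓', h𝔓', hc⟩ := h₃ p hpr (by omega) 𝔓 h𝔓
  have hpr' : 𝔓'.IsPrime := h𝔓'.1.1
  have hmin := WFrK_min ι hpr 𝔓' (h𝔓'.1.2 (Ideal.mem_span_singleton_self _))
  have h5 := (h₂ p hpr (by omega) _ hmin).1 (h₁ p (by omega) hpr _ hmin)
  have h6 := h₄ p hpr (by omega) _ hmin 𝔓' h𝔓' rfl h5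
  rw [← heq] at h6
  rw [← hc]
  exact opp_down _ hIY h6

end MPadcDC
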