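import Pool.Agent.Lib.MP_adc574_ag_DC.WFrA
import Pool.Agent.Lib.MP_adc574_ag_GP.DRm
import Pool.Agent.Lib.MP_adc574_ag_GP.DIa

/-!
# JOB WFrX [exists_dlt]: binomial ideals, the Frobenius lift on the differentials of a chart

* `Binomial.map`: `Ideal.map_span`, `map_monomial`, `map_one`.
* `binom_deg`: `I` vanishes at the point `(1, …, 1)` (`aeval 1`, every generator does), so no monomial is in `I`; if `∑ α ≠ ∑ β` then the component of degree `∑ α` of `x ^ α - x ^ β` is `x ^ α ∈ I` (`homogeneousComponent_monomial..`, by coefficients).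
* `span_homog`: the set of the `f` all of whose components are in `span T` is an ideal (see `IsHomog.map` in GP/Mod3.lean, the same proof with `Submodule.span_induction`), `T` homogeneous elements.
* `exists_dlt`: let `R = chart I K`, `T = TrivSqZeroExt R Ω[R⁄κ]` (`Mathlib/Algebra/TrivSqZeroExt`; the right action is `Module Rᵐᵒᵖ`, `Module.compHom`/`MulOpposite`; if the instances are awkward define the commutative ring by hand, or use `AlgHom`-free the quotient
  of the symmetric algebra; or use `DualNumber`-like ring `T` := the subring of `Fm κ R × ..`; EASIEST: `GP/Tw.lean` or `GP/GM*.lean` may have such a ring, grep TrivSqZeroExt). `m r = (r ^ p, r ^ (p - 1) dr)` is multiplicative.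
  `exists_chart_lift` (GP/Mod.lean) with `φ c = (c ^ p, 0)` (ring homomorphism: `CharP κ p`), base point `i ∈ K`, `z l = m (cq l i)` (`z i = m 1 = 1`; units: the first component is a unit, `TrivSqZeroExt.isUnit_iff_isUnit_fst`). Relations: `I = span {x ^ α - x ^ β}` and `eval₂ φ z` is a ring
  homomorphism (`Submodule.span_induction` / `Ideal.span_le` with `RingHom.ker`): `eval₂ φ z (x ^ α) = m (∏ cq ^ α)` and `∏ cq ^ α = ∏ cq ^ β` by `eval₂_cq`. So `ρ : R → T`, `ρ r = (r ^ p, δ' r)` (first component: `chart_hom_ext'` with the Frobenius of `R`;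
  `(x + y) ^ p = x ^ p + y ^ p` since `p = 0` in `R`: `add_pow_char`/`frobenius` need `CharP R p`, which holds if `R ≠ 0`; if `R = 0` everything is trivial). `δ = ι ∘ δ'`. For `cq l j`, `j` arbitrary: `cq l j = cq l i * (cq j i)⁻¹` and `m` is multiplicative
  (`δ' (x⁻¹)` is determined by `ρ x⁻¹ = (ρ x)⁻¹`).
-/

set_option autoImplicit false

namespace MPadcDC

open MvPolynomial MPadcGP

universe u v w

private theorem frX_m_mul {R : Type v} [CommRing R] {M : Type w} [AddCommGroup M] [Module R M] [Module Rᵐᵒᵖ M]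
    [IsCentralScalar R M] {p : ℕ}
    (D : R → M) (hD : ∀ r s, D (r * s) = r • D s + s • D r) (hp0 : 0 < p) (r s : R) :
    (TrivSqZeroExt.inl ((r * s) ^ p) + TrivSqZeroExt.inr ((r * s) ^ (p - 1) • D (r * s)) : TrivSqZeroExt R M) =
      (TrivSqZeroExt.inl (r ^ p) + TrivSqZeroExt.inr (r ^ (p - 1) • D r)) *
        (TrivSqZeroExt.inl (s ^ p) + TrivSqZeroExt.inr (s ^ (p - 1) • D s)) := by
  have e1 : r ^ p = r ^ (p - 1) * r := by rw [← pow_succ, Nat.sub_add_cancel hp0]
  have e2 : s ^ p = s ^ (p - 1) * s := by rw [← pow_succ, Nat.sub_add_cancel hp0]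
  refine TrivSqZeroExt.ext ?_ ?_
  · simp only [TrivSqZeroExt.fst_add, TrivSqZeroExt.fst_inl, TrivSqZeroExt.fst_inr, add_zero,
      TrivSqZeroExt.fst_mul, mul_pow]
  · simp only [TrivSqZeroExt.snd_add, TrivSqZeroExt.snd_inl, TrivSqZeroExt.snd_inr, zero_add,
      TrivSqZeroExt.snd_mul, TrivSqZeroExt.fst_add, TrivSqZeroExt.fst_inl, TrivSqZeroExt.fst_inr, add_zero,
      op_smul_eq_smul]
    rw [hD, smul_add, smul_smul, smul_smul, smul_smul, smul_smul, mul_pow, e1, e2]
    congr 2 <;> ring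

/-- The ring of the pairs `(r, ω)`, `ω ^ 2 = 0`, and the multiplicative map `r ↦ (r ^ p, r ^ (p - 1) dr)`. -/
private theorem frX_ring (κ : Type u) (R : Type v) [Field κ] [CommRing R] [Algebra κ R] {p : ℕ} (hp0 : 0 < p) :
    ∃ (T : Type v) (_ : CommRing T) (inl : R →+* T) (fst : T →+* R) (snd : T →+ Ω[R⁄κ]) (m : R →* T),
      (∀ r, fst (inl r) = r) ∧ (∀ r, snd (inl r) = 0) ∧
      (∀ x y, snd (x * y) = fst x • snd y + fst y • snd x) ∧ (∀ r, fst (m r) = r ^ p) ∧
      (∀ r, snd (m r) = r ^ (p - 1) • KaehlerDifferential.D κ R r) := by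
  let mop : Module Rᵐᵒᵖ (Ω[R⁄κ]) := Module.compHom _ ((RingHom.id R).fromOpposite mul_comm)
  have hcs : IsCentralScalar R (Ω[R⁄κ]) := ⟨fun _ _ => rfl⟩
  let D := KaehlerDifferential.D κ R
  let m : R →* TrivSqZeroExt R (Ω[R⁄κ]) :=
    { toFun := fun r => TrivSqZeroExt.inl (r ^ p) + TrivSqZeroExt.inr (r ^ (p - 1) • D r)
      map_one' := by
        rw [one_pow, one_pow, Derivation.map_one_eq_zero, one_smul, TrivSqZeroExt.inr_zero, add_zero,
          TrivSqZeroExt.inl_one]
      map_mul' := fun r s => frX_m_mul (fun r => D r) (fun r s => D.leibniz r s) hp0 r s }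
  refine ⟨TrivSqZeroExt R (Ω[R⁄κ]), inferInstance, TrivSqZeroExt.inlHom R (Ω[R⁄κ]),
    (TrivSqZeroExt.fstHom R R (Ω[R⁄κ]) : TrivSqZeroExt R (Ω[R⁄κ]) →+* R),
    { toFun := fun x => x.snd
      map_zero' := TrivSqZeroExt.snd_zero
      map_add' := fun x y => TrivSqZeroExt.snd_add x y }, m, ?_, ?_, ?_, ?_, ?_⟩
  · intro r
    exact TrivSqZeroExt.fst_inl (Ω[R⁄κ]) r
  · intro r
    exact TrivSqZeroExt.snd_inl (Ω[R⁄κ]) r
  · intro x y
    exact TrivSqZeroExt.snd_mul x y
  · intro r
    change (TrivSqZeroExt.inl (r ^ p) + TrivSqZeroExt.inr (r ^ (p - 1) • D r) : TrivSqZeroExt R (Ω[R⁄κ])).fst = _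
    rw [TrivSqZeroExt.fst_add, TrivSqZeroExt.fst_inl, TrivSqZeroExt.fst_inr, add_zero]
  · intro r
    change (TrivSqZeroExt.inl (r ^ p) + TrivSqZeroExt.inr (r ^ (p - 1) • D r) : TrivSqZeroExt R (Ω[R⁄κ])).snd = _
    rw [TrivSqZeroExt.snd_add, TrivSqZeroExt.snd_inl, TrivSqZeroExt.snd_inr, zero_add]


theorem exists_dlt {κ : Type u} [Field κ] {p : ℕ} [Fact p.Prime] [CharP κ p] {n : ℕ}
    {I : Ideal (MvPolynomial (Fin n) κ)} (hI : IsHomog I) (hb : Binomial I) {K : Finset (Fin n)} (hK : K.Nonempty) :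
    ∃ δ : chart I K →+ Fm κ (chart I K),
      (∀ r s, δ (r * s) = fz κ (r ^ p) * δ s + fz κ (s ^ p) * δ r) ∧
      (∀ c : κ, δ (algebraMap κ (chart I K) c) = 0) ∧ (∀ r, δ r ∈ Fd κ (chart I K) 1) ∧
      ∀ (l j : Fin n) (hj : j ∈ K), δ (cq I K l hj) = fz κ (cq I K l hj ^ (p - 1)) * df κ (cq I K l hj) := by
  obtain ⟨i, hi⟩ := hK
  rcases subsingleton_or_nontrivial (chart I K) with hR | hR
  · have : Subsingleton (Fm κ (chart I K)) := Module.subsingleton (chart I K) _
    exact ⟨0, fun r s => Subsingleton.elim _ _, fun c => Subsingleton.elim _ _,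
      fun r => by rw [AddMonoidHom.zero_apply]; exact Submodule.zero_mem _, fun l j hj => Subsingleton.elim _ _⟩
  have hp : p.Prime := Fact.out
  have hp0 : 0 < p := hp.pos
  have hch : CharP (chart I K) p := charP_of_injective_algebraMap (algebraMap κ (chart I K)).injective p
  obtain ⟨T, hT, inl, fst, snd, m, h1, h2, h3, h4, h5⟩ := frX_ring κ (chart I K) hp0
  let φ : κ →+* T := (inl.comp (algebraMap κ (chart I K))).comp (frobenius κ p)
  have hφ : ∀ c, φ c = inl (algebraMap κ (chart I K) (c ^ p)) := fun c => rfl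
  have hφ1 : φ 1 = 1 := map_one φ
  have hmon : ∀ α : Fin n →₀ ℕ, eval₂ φ (fun l => m (cq I K l hi)) (monomial α (1 : κ)) =
      m (∏ l, cq I K l hi ^ α l) := by
    intro α
    rw [eval₂_monomial, hφ1, one_mul, Finsupp.prod_fintype _ _ (fun l => pow_zero _)]
    exact ((map_prod m _ _).trans (Finset.prod_congr rfl fun l _ => map_pow m _ _)).symm
  have hmon' : ∀ α : Fin n →₀ ℕ, eval₂ (algebraMap κ (chart I K)) (fun l => cq I K l hi) (monomial α (1 : κ)) =
      ∏ l, cq I K l hi ^ α l := by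
    intro α
    rw [eval₂_monomial, map_one, one_mul, Finsupp.prod_fintype _ _ (fun l => pow_zero _)]
  have hrel : ∀ f ∈ I, eval₂ φ (fun l => m (cq I K l hi)) f = 0 := by
    obtain ⟨S, hS⟩ := hb
    have h6 : I ≤ RingHom.ker (eval₂Hom φ (fun l => m (cq I K l hi))) := by
      rw [show I ≤ RingHom.ker (eval₂Hom φ (fun l => m (cq I K l hi))) ↔
        Ideal.span ((fun s : (Fin n →₀ ℕ) × (Fin n →₀ ℕ) => monomial s.1 (1 : κ) - monomial s.2 1) '' S) ≤
          RingHom.ker (eval₂Hom φ (fun l => m (cq I K l hi))) from by rw [← hS], Ideal.span_le]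
      rintro _ ⟨s, hs, rfl⟩
      have h7 : monomial s.1 (1 : κ) - monomial s.2 1 ∈ I := by
        rw [hS]; exact Ideal.subset_span ⟨s, hs, rfl⟩
      have h8 := eval₂_cq hI hi h7
      rw [eval₂_sub, hmon', hmon', sub_eq_zero] at h8
      change eval₂ φ (fun l => m (cq I K l hi)) (monomial s.1 (1 : κ) - monomial s.2 1) = 0
      rw [eval₂_sub, hmon, hmon, h8, sub_self]
    exact fun f hf => h6 hf
  obtain ⟨ρ, hρ0, hρ⟩ := exists_chart_lift I K φ hi (fun l => m (cq I K l hi)) (by rw [cq_self, map_one])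
    (fun j hj => (cq_isUnit I K hj hi).map m) hrel
  have hfst : ∀ r, fst (ρ r) = r ^ p := by
    have h6 : fst.comp ρ = frobenius (chart I K) p := by
      refine chart_hom_ext' I K hi (fun a => ?_) fun l => ?_
      · rw [RingHom.comp_apply, hρ0, hφ, h1, frobenius_def, map_pow]
      · rw [RingHom.comp_apply, hρ, h4, frobenius_def]
    exact fun r => congrArg (fun q : chart I K →+* chart I K => q r) h6
  refine ⟨{ toFun := fun r => ExteriorAlgebra.ι (chart I K) (snd (ρ r))
            map_zero' := by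
              have h6 : snd (ρ 0) = 0 := by rw [RingHom.map_zero, AddMonoidHom.map_zero]
              exact (congrArg (ExteriorAlgebra.ι (chart I K)) h6).trans (LinearMap.map_zero _)
            map_add' := fun r s => by
              have h6 : snd (ρ (r + s)) = snd (ρ r) + snd (ρ s) := by rw [RingHom.map_add, AddMonoidHom.map_add]
              exact (congrArg (ExteriorAlgebra.ι (chart I K)) h6).trans (LinearMap.map_add _ _ _) }, ?_, ?_, ?_, ?_⟩
  · intro r s
    change ExteriorAlgebra.ι (chart I K) (snd (ρ (r * s))) = fz κ (r ^ p) * ExteriorAlgebra.ι (chart I K) (snd (ρ s)) +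
      fz κ (s ^ p) * ExteriorAlgebra.ι (chart I K) (snd (ρ r))
    have h6 : snd (ρ (r * s)) = r ^ p • snd (ρ s) + s ^ p • snd (ρ r) := by
      have h7 : ρ (r * s) = ρ r * ρ s := RingHom.map_mul ρ r s
      rw [h7, h3, hfst, hfst]
    refine (congrArg (ExteriorAlgebra.ι (chart I K)) h6).trans ?_
    refine (LinearMap.map_add (ExteriorAlgebra.ι (chart I K)) (r ^ p • snd (ρ s)) (s ^ p • snd (ρ r))).trans ?_
    exact congrArg₂ (fun x y : Fm κ (chart I K) => x + y)
      ((LinearMap.map_smul (ExteriorAlgebra.ι (chart I K)) (r ^ p) (snd (ρ s))).trans (fz_smul (A := κ) _ _))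
      ((LinearMap.map_smul (ExteriorAlgebra.ι (chart I K)) (s ^ p) (snd (ρ r))).trans (fz_smul (A := κ) _ _))
  · intro c
    change ExteriorAlgebra.ι (chart I K) (snd (ρ (algebraMap κ (chart I K) c))) = 0
    have h6 : snd (ρ (algebraMap κ (chart I K) c)) = 0 := by
      have h7 : ρ (algebraMap κ (chart I K) c) = inl (algebraMap κ (chart I K) (c ^ p)) := hρ0 c
      rw [h7]
      exact h2 _
    exact (congrArg (ExteriorAlgebra.ι (chart I K)) h6).trans (LinearMap.map_zero _)
  · intro r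
    change ExteriorAlgebra.ι (chart I K) (snd (ρ r)) ∈ Fd κ (chart I K) 1
    exact mem_one_iff.2 ⟨snd (ρ r), rfl⟩
  · intro l j hj
    have hu : IsUnit (m (cq I K j hi)) := (cq_isUnit I K hj hi).map m
    have h6 : ρ (cq I K l hj) = m (cq I K l hj) := by
      refine hu.mul_right_cancel ?_
      calc ρ (cq I K l hj) * m (cq I K j hi) = ρ (cq I K l hj) * ρ (cq I K j hi) := by rw [hρ]
        _ = ρ (cq I K l hi) := by rw [← map_mul, cq_mul]
        _ = m (cq I K l hj * cq I K j hi) := by rw [hρ, cq_mul]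
        _ = m (cq I K l hj) * m (cq I K j hi) := map_mul m _ _
    change ExteriorAlgebra.ι (chart I K) (snd (ρ (cq I K l hj))) = _
    have h7 : snd (ρ (cq I K l hj)) = cq I K l hj ^ (p - 1) • KaehlerDifferential.D κ (chart I K) (cq I K l hj) := by
      rw [h6]
      exact h5 _
    refine (congrArg (ExteriorAlgebra.ι (chart I K)) h7).trans ?_
    exact (LinearMap.map_smul (ExteriorAlgebra.ι (chart I K)) (cq I K l hj ^ (p - 1))
      (KaehlerDifferential.D κ (chart I K) (cq I K l hj))).trans (fz_smul (A := κ) _ _)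

end MPadcDC
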