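import Pool.Agent.Lib.MP_adc574_ag_DC.WGeD
import Pool.Agent.Lib.MP_adc574_ag_DC.GBaseA
import Pool.Agent.Lib.MP_adc574_ag_DC.GDom

/-!
# JOB WGeA [geo_good]: smooth integral projective schemes of dimension `≥ 1`

* `geo_good`: `exists_good` gives `m`; if `m = 0`: for `l` with `X l ∉ J`, `C = chart J {l}` is a domain (`chart_domain`, GDom.lean), `Ω[C⁄κ]` is projective of rank `0`, so `0` (`Module.finrank` of a projective module over a domain, or: torsion-free and
  `finrank = 0`), `C` is etale over `κ` (`Algebra.FormallyUnramified` from `Subsingleton Ω`, smooth), finite over `κ` (`Algebra.FormallyUnramified.finite_of_free` / etale over a field is a finite product of finite separable extensions), a finite domain over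
  the algebraically closed `κ` is `κ`: `algebraMap` is surjective (`IsAlgClosed.algebraMap_surjective_of_isIntegral`). The hypothesis `np` is for one `l` with `X l ∉ J`: contradiction.
* `geo_ver`: `ver_homog`, `ver_prime`, `ver_smooth`; `np`: for `l` as in `np` of `J` let `i` be the index of `single l d` (`exists_mono`); `X i ∉ ver J d` (`X l ^ d ∉ J`), `vc : chart (ver J d) {i} ≃ₐ chart J (sp n d {i})` and `sp n d {i} = {l}`.
* `geo_cyc`: `geo_good`, `bI_prime`, `cyc_smooth`, `cyc_prime` (Part G); `np`: `l` as in `np` of `J`. `X (castSucc l) ∉ cyc ..`: `exists_pc` for `K' = {castSucc l}` or set `z = 0`.. (`cyc_good` has `ne` for some coordinate; if all `X (castSucc l)` were in the prime ideal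
  then `X last ^ e` too.) If `X (castSucc l) ∈ Q` then `1 = 0` in the chart `{castSucc l}`, which contradicts `IsRoot.ind` (`isRoot_chart`, `chart (bI J) {l} ≠ 0`). `¬ Surjective (K → chart Q {castSucc l})`: if `ψ` is surjective, `pc x = algebraMap c = pc (algebraMap c)`, `pc` is injective by `IsRoot.ind`,
  so `K → chart (bI J) {l}` is surjective, and so is `κ → chart J {l}` (`bce` (GP/Mod3.lean), `K ⊗ C` of dimension one over `K`: `Module.finrank`/`rank_baseChange`, or faithful flatness).
* `geo_desc` (descent along an extension of fields `κ → K`): `IsHomog` is assumed; prime: `comap_bI` (PDom.lean); smooth: `Algebra.Smooth.of_smooth_tensorProduct_of_faithfullyFlat` (Mathlib/RingTheory/Smooth/..), `bce`; `np`: `X l ∉ J` clear; if `κ → chart J {l}` is surjective, so is `K → K ⊗ chart = chart (bI J) {l}`.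
* `geo_bI` (`κ` algebraically closed): `bI_prime`, `IsSmoothProj.map`, `X_mem_bI` (GBaseB.lean), the surjectivity as in `geo_cyc`.
-/

set_option autoImplicit false

namespace MPadcDC

open MvPolynomial MPadcGP

universe u v w

section

variable {κ : Type u} [Field κ] {n : ℕ} {J : Ideal (MvPolynomial (Fin n) κ)}

private theorem WGeA_surj {k : Type u} {C : Type v} [Field k] [IsAlgClosed k] [CommRing C] [IsDomain C]
    [Algebra k C] [Algebra.Smooth k C] (h : Module.finrank C (Ω[C⁄k]) = 0) :
    Function.Surjective (algebraMap k C) := by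
  have h1 : Subsingleton (Ω[C⁄k]) := Module.finrank_zero_iff.1 h
  have h2 : Algebra.FormallyUnramified k C := ⟨h1⟩
  have h3 : Module.Finite k C := Algebra.FormallyUnramified.finite_of_free k C
  exact IsAlgClosed.algebraMap_bijective_of_isIntegral.2

theorem geo_good [IsAlgClosed κ] [CharZero κ] (h : Geo J) : ∃ m, Good J (m + 1) := by
  obtain ⟨l, hl, hs⟩ := h.np
  obtain ⟨m, hm⟩ := exists_good h.homog h.prime h.smooth ⟨l, hl⟩
  cases m with
  | succ m => exact ⟨m, hm⟩
  | zero =>
    exfalso
    have h1 : IsDomain (chart J {l}) := chart_domain h.prime hl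
    have h2 : Algebra.Smooth κ (chart J {l}) := h.smooth l
    exact hs (WGeA_surj (hm.rank l hl))

end

end MPadcDC
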