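import Pool.Agent.Lib.MP_adc574_ag_DC.WVfB

/-!
# JOB WVgA [ver_smooth]: the Veronese embedding preserves smoothness and ordinarity

* `ver_smooth`: `IsSmoothProj.smooth` (GP/Mod3.lean) for `sp n d {i}` (`sp_nonempty`), `Algebra.Smooth.of_equiv (vc ..).symm`.
* `ver_bk`: `bk_iff_ac`; `ASy.ac_cover` for `M = exS (prC I) q`, `s i = (mono n d i).support` (nonempty since `d ≥ 1`, `mono_deg`), `a l` := the index of `single l d` (`exists_mono`; its support is `{l}`), gives `Ac` for `M.pb s`, i.e. for the exact
  forms on `chart I (sp n d Γ)` (`Γ.biUnion s = sp n d Γ` by `rfl`). `ASy.ac_congr` with the isomorphism `mp (vc ..)` (inverse `mp (vc ..).symm`; `mp_comp`, `mp_id` GP/DRm.lean; exact forms: `mp_dd`, `mp_mem`), compatible with the restrictions by `vc_tr`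
  (`hom_ext'`/`mp_comp`: compare `rs_rs` in GP/Cov.lean).
* `ver_open`: the same `f`; `bI_ver`.
-/

set_option autoImplicit false

namespace MPadcDC

open MvPolynomial MPadcGP

universe u v w

section

variable {A : Type u} [CommRing A] {n : ℕ} {I : Ideal (MvPolynomial (Fin n) A)}

theorem ver_smooth (hI : IsHomog I) {d : ℕ} (hd : 1 ≤ d) (hs : IsSmoothProj I) : IsSmoothProj (ver I d) := by
  intro i
  have h1 : Algebra.Smooth A (chart I (sp n d {i})) :=
    IsSmoothProj.smooth hI hs (sp_nonempty hd (Finset.singleton_nonempty i))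
  exact Algebra.Smooth.of_equiv (vc hI hd (Finset.singleton_nonempty i)).symm

end

end MPadcDC
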