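import Pool.Agent.Lib.MP_adc574_ag_DC.WGeD
import Pool.Agent.Lib.MP_adc574_ag_DC.GAC
import Pool.Agent.Lib.MP_adc574_ag_DC.GBaseB
import Pool.Agent.Lib.MP_adc574_ag_DC.PDom

/-!
# JOB WGeC [geo_desc geo_bI]: smooth integral projective schemes of dimension `≥ 1`

* `geo_good`: `exists_good` gives `m`; if `m = 0`: for `l` with `X l ∉ J`, `C = chart J {l}` is a domain (`chart_domain`, GDom.lean), `Ω[C⁄κ]` is projective of rank `0`, so `0` (`Module.finrank` of a projective module over a domain, or: torsion-free and
  `finrank = 0`), `C` is etale over `κ` (`Algebra.FormallyUnramified` from `Subsingleton Ω`, smooth), finite over `κ` (`Algebra.FormallyUnramified.finite_of_free` / etale over a field is a finite product of finite separable extensions), a finite domain over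
  the algebraically closed `κ` is `κ`: `algebraMap` is surjective (`IsAlgClosed.algebraMap_surjective_of_isIntegral`). The hypothesis `np` is for one `l` with `X l ∉ J`: contradiction.
* `geo_ver`: `ver_homog`, `ver_prime`, `ver_smooth`; `np`: for `l` as in `np` of `J` let `i` be the index of `single l d` (`exists_mono`); `X i ∉ ver J d` (`X l ^ d ∉ J`), `vc : chart (ver J d) {i} ≃ₐ chart J (sp n d {i})` and `sp n d {i} = {l}`.
* `geo_cyc`: `geo_good`, `bI_prime`, `cyc_smooth`, `cyc_prime` (Part G); `np`: `l` as in `np` of `J`. `X (castSucc l) ∉ cyc ..`: `exists_pc` for `K' = {castSucc l}` or set `z = 0`.. (`cyc_good` has `ne` for some coordinate; if all `X (castSucc l)` were in the prime ideal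
  then `X last ^ e` too.) If `X (castSucc l) ∈ Q` then `1 = 0` in the chart `{castSucc l}`, which contradicts `IsRoot.ind` (`isRoot_chart`, `chart (bI J) {l} ≠ 0`). `¬ Surjective (K → chart Q {castSucc l})`: if `ψ` is surjective, `pc x = algebraMap c = pc (algebraMap c)`, `pc` is injective by `IsRoot.ind`,
  so `K → chart (bI J) {l}` is surjective, and so is `κ → chart J {l}` (`bce` (GP/Mod3.lean), `K ⊗ C` of dimension one over `K`: `Module.finrank`/`rank_baseChange`, or faithful flatness).
* `geo_desc` (descent along an extension of fields `κ → K`): `IsHomog` is assumed; prime: `comap_bI` (PDom.lean); smooth: `Algebra.Smooth.of_smooth_tensorProduct_of_faithfullyFlat` (Mathlib/RingTheory/Smooth/..), `bce`; `np`: `X l ∉ J` clear; if `κ → chart J {l}` is surjective, so is `K → K ⊗ chart = chart (bI J) {l}`.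
* `geo_bI` (`κ` algebraically closed): `bI_prime`, `IsSmoothProj.map`, `X_mem_bI` (GBaseB.lean), the surjectivity as in `geo_cyc`.
-/

set_option autoImplicit false

namespace MPadcDC

open MvPolynomial MPadcGP

universe u v w

section

variable {κ : Type u} [Field κ] {n : ℕ} {J : Ideal (MvPolynomial (Fin n) κ)}

private theorem WGeC_X {K : Type u} [Field K] [Algebra κ K] (l : Fin n) :
    (X l : MvPolynomial (Fin n) K) ∈ bI (algebraMap κ K) J ↔ (X l : MvPolynomial (Fin n) κ) ∈ J := by
  have h1 := comap_bI (algebraMap κ K) J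
  have h2 : (X l : MvPolynomial (Fin n) κ) ∈ (bI (algebraMap κ K) J).comap (MvPolynomial.map (algebraMap κ K)) ↔
      (X l : MvPolynomial (Fin n) κ) ∈ J := by rw [h1]
  rw [Ideal.mem_comap, map_X] at h2
  exact h2

private theorem WGeC_surj (hJ : IsHomog J) {K : Type u} [Field K] [Algebra κ K] (l : Fin n) :
    Function.Surjective (algebraMap K (chart (bI (algebraMap κ K) J) {l})) ↔
      Function.Surjective (algebraMap κ (chart J {l})) := by
  let E := bce (B := K) hJ (Finset.singleton_nonempty l)
  constructor
  · intro H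
    have H1 : Function.Surjective (algebraMap K (TensorProduct κ K (chart J {l}))) := by
      intro t
      obtain ⟨c, hc⟩ := H (E t)
      refine ⟨c, E.injective ?_⟩
      rw [E.commutes]
      exact hc
    exact Module.FaithfullyFlat.surjective_of_tensorProduct H1
  · intro H y
    have H1 : ∀ t : TensorProduct κ K (chart J {l}), ∃ c : K, algebraMap K (TensorProduct κ K (chart J {l})) c = t := by
      intro t
      induction t using TensorProduct.induction_on with
      | zero => exact ⟨0, map_zero _⟩
      | tmul k r =>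
        obtain ⟨a, rfl⟩ := H r
        refine ⟨a • k, ?_⟩
        rw [Algebra.TensorProduct.algebraMap_apply, Algebra.algebraMap_eq_smul_one (R := κ) (A := chart J {l}) a,
          ← TensorProduct.smul_tmul]
        rfl
      | add s t hs ht =>
        obtain ⟨c, rfl⟩ := hs
        obtain ⟨d, rfl⟩ := ht
        exact ⟨c + d, map_add _ _ _⟩
    obtain ⟨c, hc⟩ := H1 (E.symm y)
    refine ⟨c, ?_⟩
    rw [← E.commutes c, hc, AlgEquiv.apply_symm_apply]

theorem geo_desc (hJ : IsHomog J) {K : Type u} [Field K] [Algebra κ K] (h : Geo (bI (algebraMap κ K) J)) : Geo J := by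
  refine ⟨hJ, ?_, fun i => ?_, ?_⟩
  · have h1 := h.prime
    have h2 : ((bI (algebraMap κ K) J).comap (MvPolynomial.map (algebraMap κ K))).IsPrime :=
      Ideal.comap_isPrime _ _
    rw [comap_bI] at h2
    exact h2
  · have h1 := h.smooth i
    have h2 : Algebra.Smooth K (TensorProduct κ K (chart J {i})) :=
      Algebra.Smooth.of_equiv (bce (B := K) hJ (Finset.singleton_nonempty i)).symm
    exact Algebra.Smooth.of_smooth_tensorProduct_of_faithfullyFlat K
  · obtain ⟨l, hl, hs⟩ := h.np
    exact ⟨l, fun h1 => hl ((WGeC_X l).2 h1), fun h1 => hs ((WGeC_surj hJ l).2 h1)⟩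

theorem geo_bI [IsAlgClosed κ] (h : Geo J) (K : Type u) [Field K] [Algebra κ K] : Geo (bI (algebraMap κ K) J) := by
  refine ⟨h.homog.map _, bI_prime h.prime K, h.smooth.map h.homog _, ?_⟩
  obtain ⟨l, hl, hs⟩ := h.np
  exact ⟨l, fun h1 => hl ((WGeC_X l).1 h1), fun h1 => hs ((WGeC_surj h.homog l).1 h1)⟩

end

end MPadcDC
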