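import Pool.Agent.Lib.MP_adc574_ag_DC.Defs

/-!
# Smooth integral projective schemes of positive dimension: definition
-/

set_option autoImplicit false

namespace MPadcDC

open MvPolynomial MPadcGP

universe u v w

/-- `Proj` is smooth, integral, of positive dimension (over an algebraically closed field). -/
structure Geo {κ : Type u} [Field κ] {n : ℕ} (J : Ideal (MvPolynomial (Fin n) κ)) : Prop where
  homog : IsHomog J
  prime : J.IsPrime
  smooth : IsSmoothProj J
  np : ∃ l, (X l : MvPolynomial (Fin n) κ) ∉ J ∧ ¬ Function.Surjective (algebraMap κ (chart J {l}))

end MPadcDC
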