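import Pool.Agent.Lib.MP_adc574_ag_DC.WPcA
import Pool.Agent.Lib.MP_adc574_ag_DC.GCycB

/-!
# JOB WPcB [isRoot_chart]: the projection of the cyclic cover on the charts

`Q = cyc I F e`, `K'` a set of coordinates of the cover, `res K'` the coordinates `x_j` in `K'` (without `z`).

* `exists_pc`: choose `i ∈ res K'`, `exists_chart_lift` (GP/Mod.lean) for `chart I (res K')`, `φ = algebraMap A _`, `z l = cq Q K' (castSucc l) _` (`cq_self`, `cq_isUnit`);
  the relations: `f ∈ I`: `eval₂ _ z f = eval₂ _ (cq ..) (rename castSucc f)` (`eval₂_rename`), `rename castSucc f ∈ Q`, `eval₂_cq` (GP/Mod.lean) with `isHomog_cyc`.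
  `cq I _ l hj` for another `j`: `cq l j * cq j i = cq l i` (`cq_mul`), `cq j i` is a unit (compare `chart_hom_ext'`).
* `pc_tr`: `chart_ind` (GP/Mod.lean) or `chart_hom_ext'`.
* `isRoot_chart`: `Φ : chart Q K' → AdjoinRoot (X ^ e - C f)` (over `R = chart I (res K')`, `f = fq`) by `exists_chart_lift` with base point `castSucc j`, `castSucc l ↦ of (cq I _ l hj)`,
  `last ↦ root` (`Fin.lastCases`); relations: `f' ∈ Q = span (rename '' I ∪ {z ^ e - rename F})` (`Submodule.span_induction` or `Ideal.map_le_iff_le_comap`, `sup_le`).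
  The units: `l' ∈ K'`, `l' ≠ last`. `gen`: the set of the sums `∑_{i<e} pc (r i) ζ ^ i` is closed under `+`, `*` (`ζ ^ e = pc f`; or: `Polynomial.modByMonic` / write it as `∑_{i<N}` first),
  contains `A` and the `cq` (`chart_ind`; `cq last j' = ζ * cq j j'`). `ind`: apply `Φ`: `∑ of (r i) root ^ i = 0` in `AdjoinRoot` of a monic polynomial of degree `e`:
  `AdjoinRoot.powerBasis'` or `AdjoinRoot.mk_eq_zero` and degrees (`Polynomial.monic_X_pow_sub_C`, `Monic.not_dvd_of_degree_lt`).
SHORT WAY (GCycB.lean, GCyc.lean: `exists_adj`, `cs`, `exists_cs`): `K = cs C`, `res (cs C) = C`, `Ψ : AdjoinRoot (X ^ e - C f) ≃ chart`, `dh I C hj F = fq I F C hj` (see GV0.lean: `dh`), `Ψ ∘ of = pc` by `chart_hom_ext`, `ζ = Ψ root`; `gen`, `ind` from `AdjoinRoot.powerBasis'` of the monic polynomial of degree `e`.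
-/

set_option autoImplicit false
set_option linter.unusedSectionVars false

namespace MPadcDC

open MvPolynomial MPadcGP

universe u v w

/-- `S` is the algebra `R[ζ] / (ζ ^ e - f)`: a free `R`-module with the basis `1, ζ, …, ζ ^ (e - 1)`. -/
structure IsRoot {A : Type u} {R : Type v} {S : Type w} [CommRing A] [CommRing R] [CommRing S] [Algebra A R]
    [Algebra A S] (φ : R →ₐ[A] S) (ζ : S) (f : R) (e : ℕ) : Prop where
  pos : 1 ≤ e
  pow : ζ ^ e = φ f
  gen : ∀ x : S, ∃ r : Fin e → R, x = ∑ i, φ (r i) * ζ ^ (i : ℕ)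
  ind : ∀ r : Fin e → R, ∑ i, φ (r i) * ζ ^ (i : ℕ) = 0 → r = 0

private theorem WPcB_adj {R : Type u} [CommRing R] (f : R) {e : ℕ} (he : 1 ≤ e) :
    AdjoinRoot.root (Polynomial.X ^ e - Polynomial.C f : Polynomial R) ^ e = AdjoinRoot.of _ f ∧
    (∀ x : AdE R f e, ∃ r : Fin e → R, x = ∑ i, AdjoinRoot.of _ (r i) * AdjoinRoot.root _ ^ (i : ℕ)) ∧
    ∀ r : Fin e → R, ∑ i, AdjoinRoot.of (Polynomial.X ^ e - Polynomial.C f : Polynomial R) (r i) *
      AdjoinRoot.root _ ^ (i : ℕ) = 0 → r = 0 := by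
  have hroot : AdjoinRoot.root (Polynomial.X ^ e - Polynomial.C f : Polynomial R) ^ e =
      AdjoinRoot.of _ f := by
    have h1 := AdjoinRoot.mk_self (f := (Polynomial.X ^ e - Polynomial.C f : Polynomial R))
    rw [map_sub, map_pow, AdjoinRoot.mk_X, AdjoinRoot.mk_C] at h1
    exact sub_eq_zero.1 h1
  have hmk : ∀ r : Fin e → R, AdjoinRoot.mk (Polynomial.X ^ e - Polynomial.C f : Polynomial R)
      (∑ i, Polynomial.C (r i) * Polynomial.X ^ (i : ℕ)) =
      ∑ i, AdjoinRoot.of _ (r i) * AdjoinRoot.root _ ^ (i : ℕ) := by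
    intro r
    rw [map_sum]
    refine Finset.sum_congr rfl fun i _ => ?_
    rw [map_mul, map_pow, AdjoinRoot.mk_X, AdjoinRoot.mk_C]
  refine ⟨hroot, ?_, ?_⟩
  · intro x
    rcases subsingleton_or_nontrivial R with hs | hs
    · have h1 : (1 : AdE R f e) = 0 := by
        have h2 : AdjoinRoot.of (Polynomial.X ^ e - Polynomial.C f : Polynomial R) 1 =
            AdjoinRoot.of _ 0 := by rw [Subsingleton.elim (1 : R) 0]
        rwa [map_one, map_zero] at h2
      have h2 : ∀ y : AdE R f e, y = 0 := fun y => by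
        rw [← mul_one y, h1, mul_zero]
      exact ⟨fun _ => 0, (h2 _).trans (h2 _).symm⟩
    · have hmon : (Polynomial.X ^ e - Polynomial.C f : Polynomial R).Monic :=
        Polynomial.monic_X_pow_sub_C f (by omega)
      obtain ⟨p, rfl⟩ := AdjoinRoot.mk_surjective x
      have h1 : AdjoinRoot.mk (Polynomial.X ^ e - Polynomial.C f : Polynomial R) p =
          AdjoinRoot.mk _ (p %ₘ (Polynomial.X ^ e - Polynomial.C f)) := by
        have h2 := Polynomial.modByMonic_add_div p (Polynomial.X ^ e - Polynomial.C f : Polynomial R)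
        have h3 := congrArg (AdjoinRoot.mk (Polynomial.X ^ e - Polynomial.C f : Polynomial R)) h2
        rw [map_add, map_mul, AdjoinRoot.mk_self, zero_mul, add_zero] at h3
        exact h3.symm
      have hdeg : (p %ₘ (Polynomial.X ^ e - Polynomial.C f : Polynomial R)).natDegree < e := by
        have h2 := Polynomial.natDegree_modByMonic_lt p hmon (by
          intro h
          have h3 := congrArg Polynomial.natDegree h
          rw [Polynomial.natDegree_X_pow_sub_C, Polynomial.natDegree_one] at h3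
          omega)
        rwa [Polynomial.natDegree_X_pow_sub_C] at h2
      refine ⟨fun i => (p %ₘ (Polynomial.X ^ e - Polynomial.C f : Polynomial R)).coeff i, ?_⟩
      rw [h1, ← hmk]
      congr 1
      rw [Fin.sum_univ_eq_sum_range (fun i => Polynomial.C
        ((p %ₘ (Polynomial.X ^ e - Polynomial.C f : Polynomial R)).coeff i) * Polynomial.X ^ i) e]
      exact Polynomial.as_sum_range_C_mul_X_pow' _ hdeg
  · intro r hr
    rcases subsingleton_or_nontrivial R with hs | hs
    · exact Subsingleton.elim _ _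
    · have hmon : (Polynomial.X ^ e - Polynomial.C f : Polynomial R).Monic :=
        Polynomial.monic_X_pow_sub_C f (by omega)
      rw [← hmk, AdjoinRoot.mk_eq_zero] at hr
      have hP : (∑ i : Fin e, Polynomial.C (r i) * Polynomial.X ^ (i : ℕ) : Polynomial R) = 0 := by
        by_contra hne
        refine hmon.not_dvd_of_degree_lt hne ?_ hr
        rw [Polynomial.degree_X_pow_sub_C (by omega)]
        refine lt_of_le_of_lt (Polynomial.degree_sum_le _ _) ?_
        refine (Finset.sup_lt_iff (WithBot.bot_lt_coe e)).2 fun i _ => ?_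
        exact lt_of_le_of_lt (Polynomial.degree_C_mul_X_pow_le _ _) (WithBot.coe_lt_coe.2 i.2)
      funext j
      have h1 := congrArg (fun q : Polynomial R => q.coeff (j : ℕ)) hP
      simp only [Polynomial.finsetSum_coeff, Polynomial.coeff_C_mul_X_pow, Polynomial.coeff_zero] at h1
      rw [Finset.sum_eq_single j] at h1
      · rw [if_pos rfl] at h1
        exact h1
      · intro i _ hij
        rw [if_neg]
        intro h
        exact hij (Fin.ext h.symm)
      · intro h
        exact absurd (Finset.mem_univ _) h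

private theorem WPcB_tr {R : Type u} {S : Type v} {T : Type w} [CommRing R] [CommRing S] [CommRing T]
    (Ψ : S ≃+* T) (o : R →+* S) (ρ : S) {e : ℕ} (f : R) (h3 : ρ ^ e = o f)
    (h4 : ∀ x : S, ∃ r : Fin e → R, x = ∑ i, o (r i) * ρ ^ (i : ℕ))
    (h5 : ∀ r : Fin e → R, ∑ i, o (r i) * ρ ^ (i : ℕ) = 0 → r = 0)
    (p : R → T) (h6 : ∀ x, p x = Ψ (o x)) (ζ : T) (h2 : Ψ ρ = ζ) :
    ζ ^ e = p f ∧ (∀ x : T, ∃ r : Fin e → R, x = ∑ i, p (r i) * ζ ^ (i : ℕ)) ∧
    ∀ r : Fin e → R, ∑ i, p (r i) * ζ ^ (i : ℕ) = 0 → r = 0 := by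
  refine ⟨?_, ?_, ?_⟩
  · rw [← h2, ← map_pow, h3, h6]
  · intro x
    obtain ⟨r, hr⟩ := h4 (Ψ.symm x)
    refine ⟨r, ?_⟩
    have h8 := congrArg Ψ hr
    rw [RingEquiv.apply_symm_apply, map_sum] at h8
    rw [h8]
    refine Finset.sum_congr rfl fun i _ => ?_
    rw [map_mul, map_pow, h2, h6]
  · intro r hr
    apply h5
    apply Ψ.injective
    rw [map_zero, ← hr, map_sum]
    refine Finset.sum_congr rfl fun i _ => ?_
    rw [map_mul, map_pow, h2, h6]

private theorem WPcB_cs {n : ℕ} {K' : Finset (Fin (n + 1))} (hl : Fin.last n ∉ K') :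
    K' = cs (res K') := by
  ext i
  induction i using Fin.lastCases with
  | last =>
    refine ⟨fun h => absurd h hl, fun h => ?_⟩
    unfold cs at h
    rw [Finset.mem_map] at h
    obtain ⟨a, _, ha⟩ := h
    exact absurd ha (Fin.castSucc_ne_last a)
  | cast j => rw [mem_cs, mem_res]

section

variable {A : Type u} [CommRing A] {n e : ℕ} {I : Ideal (MvPolynomial (Fin n) A)} {F : MvPolynomial (Fin n) A}

private theorem WPcB_ex (hI : IsHomog I) (hF : F.IsHomogeneous e) (C : Finset (Fin n)) {j : Fin n}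
    (hj : j ∈ C) (K' : Finset (Fin (n + 1))) (hK : K' = cs C) (hj' : j.castSucc ∈ K') :
    ∃ Ψ : AdE (chart I C) (dh I C hj F) e ≃ₐ[A] chart (cyc I F e) K',
      (∀ l, Ψ (AdjoinRoot.of _ (cq I C l hj)) = cq (cyc I F e) K' l.castSucc hj') ∧
      Ψ (AdjoinRoot.root _) = cq (cyc I F e) K' (Fin.last n) hj' := by
  subst hK
  exact exists_adj hI hF C hj

theorem isRoot_chart (hI : IsHomog I) (hF : F.IsHomogeneous e) (he : 1 ≤ e) {K' : Finset (Fin (n + 1))}
    (hl : Fin.last n ∉ K') (hK : (res K').Nonempty) {j : Fin n} (hj : Fin.castSucc j ∈ K') :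
    IsRoot (pc hI hF hK) (cq (cyc I F e) K' (Fin.last n) hj) (fq I F (res K') (mem_res.2 hj)) e := by
  obtain ⟨Ψ, h1, h2⟩ := WPcB_ex (I := I) (F := F) (e := e) hI hF (res K') (mem_res.2 hj) K' (WPcB_cs hl) hj
  obtain ⟨h3, h4, h5⟩ := WPcB_adj (dh I (res K') (mem_res.2 hj) F) he
  have h6 : ∀ x, pc hI hF hK x = Ψ (AdjoinRoot.of _ x) := by
    have h7 : (pc hI hF hK : chart I (res K') →+* chart (cyc I F e) K') =
        Ψ.toAlgHom.toRingHom.comp (AdjoinRoot.of _) := by
      refine chart_hom_ext' I (res K') (mem_res.2 hj) (fun a => ?_) (fun l => ?_)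
      · refine (AlgHom.commutes _ a).trans ?_
        exact (Ψ.commutes a).symm
      · exact (pc_cq hI hF hK l j hj).trans (h1 l).symm
    intro x
    exact congrArg (fun φ : chart I (res K') →+* chart (cyc I F e) K' => φ x) h7
  obtain ⟨h7, h8, h9⟩ := WPcB_tr Ψ.toRingEquiv (AdjoinRoot.of _) (AdjoinRoot.root _) _ h3 h4 h5 (pc hI hF hK) h6 _ h2
  exact ⟨he, h7, h8, h9⟩

end

end MPadcDC
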