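import Pool.Agent.Lib.MP_adc574_ag_DC.WGeA
import Pool.Agent.Lib.MP_adc574_ag_DC.WGeC
import Pool.Agent.Lib.MP_adc574_ag_DC.WPcB
import Pool.Agent.Lib.MP_adc574_ag_DC.GRk
import Pool.Agent.Lib.MP_adc574_ag_DC.GSm

/-!
# JOB WGeE [geo_cyc]: smooth integral projective schemes of dimension `≥ 1`

* `geo_good`: `exists_good` gives `m`; if `m = 0`: for `l` with `X l ∉ J`, `C = chart J {l}` is a domain (`chart_domain`, GDom.lean), `Ω[C⁄κ]` is projective of rank `0`, so `0` (`Module.finrank` of a projective module over a domain, or: torsion-free and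
  `finrank = 0`), `C` is etale over `κ` (`Algebra.FormallyUnramified` from `Subsingleton Ω`, smooth), finite over `κ` (`Algebra.FormallyUnramified.finite_of_free` / etale over a field is a finite product of finite separable extensions), a finite domain over
  the algebraically closed `κ` is `κ`: `algebraMap` is surjective (`IsAlgClosed.algebraMap_surjective_of_isIntegral`). The hypothesis `np` is for one `l` with `X l ∉ J`: contradiction.
* `geo_ver`: `ver_homog`, `ver_prime`, `ver_smooth`; `np`: for `l` as in `np` of `J` let `i` be the index of `single l d` (`exists_mono`); `X i ∉ ver J d` (`X l ^ d ∉ J`), `vc : chart (ver J d) {i} ≃ₐ chart J (sp n d {i})` and `sp n d {i} = {l}`.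
* `geo_cyc`: `geo_good`, `bI_prime`, `cyc_smooth`, `cyc_prime` (Part G); `np`: `l` as in `np` of `J`. `X (castSucc l) ∉ cyc ..`: `exists_pc` for `K' = {castSucc l}` or set `z = 0`.. (`cyc_good` has `ne` for some coordinate; if all `X (castSucc l)` were in the prime ideal
  then `X last ^ e` too.) If `X (castSucc l) ∈ Q` then `1 = 0` in the chart `{castSucc l}`, which contradicts `IsRoot.ind` (`isRoot_chart`, `chart (bI J) {l} ≠ 0`). `¬ Surjective (K → chart Q {castSucc l})`: if `ψ` is surjective, `pc x = algebraMap c = pc (algebraMap c)`, `pc` is injective by `IsRoot.ind`,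
  so `K → chart (bI J) {l}` is surjective, and so is `κ → chart J {l}` (`bce` (GP/Mod3.lean), `K ⊗ C` of dimension one over `K`: `Module.finrank`/`rank_baseChange`, or faithful flatness).
* `geo_desc` (descent along an extension of fields `κ → K`): `IsHomog` is assumed; prime: `comap_bI` (PDom.lean); smooth: `Algebra.Smooth.of_smooth_tensorProduct_of_faithfullyFlat` (Mathlib/RingTheory/Smooth/..), `bce`; `np`: `X l ∉ J` clear; if `κ → chart J {l}` is surjective, so is `K → K ⊗ chart = chart (bI J) {l}`.
* `geo_bI` (`κ` algebraically closed): `bI_prime`, `IsSmoothProj.map`, `X_mem_bI` (GBaseB.lean), the surjectivity as in `geo_cyc`.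
-/

set_option autoImplicit false

namespace MPadcDC

open MvPolynomial MPadcGP

universe u v w

section

variable {κ : Type u} [Field κ] {n : ℕ} {J : Ideal (MvPolynomial (Fin n) κ)}

theorem geo_cyc [IsAlgClosed κ] [CharZero κ] (h : Geo J) {K : Type u} [Field K] [Algebra κ K] [IsAlgClosed K] {e : ℕ}
    (he : 1 ≤ e) {a : Mon n e → K} (ha : AlgebraicIndependent κ a) : Geo (cyc (bI (algebraMap κ K) J) (frm a) e) := by
  obtain ⟨m, hm⟩ := geo_good h
  have hb := geo_bI h K
  have hg := cyc_good hm he inferInstance ha hb.prime
  obtain ⟨l, hl⟩ := hg.ne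
  refine ⟨hg.homog, hg.prime, hg.smooth, l, hl, fun hs => ?_⟩
  have h1 := hg.rank l hl
  have : IsDomain (chart (cyc (bI (algebraMap κ K) J) (frm a) e) {l}) := chart_domain hg.prime hl
  have : Subsingleton (KaehlerDifferential K (chart (cyc (bI (algebraMap κ K) J) (frm a) e) {l})) :=
    KaehlerDifferential.subsingleton_of_surjective K _ hs
  rw [Module.finrank_zero_of_subsingleton] at h1
  exact absurd h1 (by omega)

end

end MPadcDC
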