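import Pool.Agent.Lib.MP_adc574_ag_DC.PHom

/-!
# JOB WPcA [exists_pc pc_tr]: the projection of the cyclic cover on the charts

`Q = cyc I F e`, `K'` a set of coordinates of the cover, `res K'` the coordinates `x_j` in `K'` (without `z`).

* `exists_pc`: choose `i ∈ res K'`, `exists_chart_lift` (GP/Mod.lean) for `chart I (res K')`, `φ = algebraMap A _`, `z l = cq Q K' (castSucc l) _` (`cq_self`, `cq_isUnit`);
  the relations: `f ∈ I`: `eval₂ _ z f = eval₂ _ (cq ..) (rename castSucc f)` (`eval₂_rename`), `rename castSucc f ∈ Q`, `eval₂_cq` (GP/Mod.lean) with `isHomog_cyc`.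
  `cq I _ l hj` for another `j`: `cq l j * cq j i = cq l i` (`cq_mul`), `cq j i` is a unit (compare `chart_hom_ext'`).
* `pc_tr`: `chart_ind` (GP/Mod.lean) or `chart_hom_ext'`.
* `isRoot_chart`: `Φ : chart Q K' → AdjoinRoot (X ^ e - C f)` (over `R = chart I (res K')`, `f = fq`) by `exists_chart_lift` with base point `castSucc j`, `castSucc l ↦ of (cq I _ l hj)`,
  `last ↦ root` (`Fin.lastCases`); relations: `f' ∈ Q = span (rename '' I ∪ {z ^ e - rename F})` (`Submodule.span_induction` or `Ideal.map_le_iff_le_comap`, `sup_le`).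
  The units: `l' ∈ K'`, `l' ≠ last`. `gen`: the set of the sums `∑_{i<e} pc (r i) ζ ^ i` is closed under `+`, `*` (`ζ ^ e = pc f`; or: `Polynomial.modByMonic` / write it as `∑_{i<N}` first),
  contains `A` and the `cq` (`chart_ind`; `cq last j' = ζ * cq j j'`). `ind`: apply `Φ`: `∑ of (r i) root ^ i = 0` in `AdjoinRoot` of a monic polynomial of degree `e`:
  `AdjoinRoot.powerBasis'` or `AdjoinRoot.mk_eq_zero` and degrees (`Polynomial.monic_X_pow_sub_C`, `Monic.not_dvd_of_degree_lt`).
-/

set_option autoImplicit false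

namespace MPadcDC

open MvPolynomial MPadcGP

universe u v w

/-- The coordinates of the base in a set of coordinates of the cover. -/
def res {n : ℕ} (K' : Finset (Fin (n + 1))) : Finset (Fin n) := Finset.univ.filter fun j => Fin.castSucc j ∈ K'

theorem mem_res {n : ℕ} {K' : Finset (Fin (n + 1))} {j : Fin n} : j ∈ res K' ↔ Fin.castSucc j ∈ K' := by
  unfold res
  rw [Finset.mem_filter]
  exact and_iff_right (Finset.mem_univ j)

theorem res_mono {n : ℕ} {K' L' : Finset (Fin (n + 1))} (h : K' ⊆ L') : res K' ⊆ res L' := fun _ hj =>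
  mem_res.2 (h (mem_res.1 hj))

section

variable {A : Type u} [CommRing A] {n e : ℕ} {I : Ideal (MvPolynomial (Fin n) A)} {F : MvPolynomial (Fin n) A}

theorem exists_pc (hI : IsHomog I) (hF : F.IsHomogeneous e) {K' : Finset (Fin (n + 1))} (hK : (res K').Nonempty) :
    ∃ g : chart I (res K') →ₐ[A] chart (cyc I F e) K', ∀ (l j : Fin n) (hj : Fin.castSucc j ∈ K'),
      g (cq I (res K') l (mem_res.2 hj)) = cq (cyc I F e) K' (Fin.castSucc l) hj := by
  obtain ⟨i, hi⟩ := hK
  have hi' : Fin.castSucc i ∈ K' := mem_res.1 hi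
  obtain ⟨ρ, h1, h2⟩ := exists_chart_lift I (res K') (algebraMap A (chart (cyc I F e) K')) hi
    (fun l => cq (cyc I F e) K' (Fin.castSucc l) hi') (cq_self _ _ hi')
    (fun j hj => cq_isUnit _ _ (mem_res.1 hj) hi')
    (fun f hf => by
      have h3 : rename Fin.castSucc f ∈ cyc I F e :=
        Ideal.mem_sup_left (Ideal.mem_map_of_mem
          (rename Fin.castSucc : MvPolynomial (Fin n) A →ₐ[A] MvPolynomial (Fin (n + 1)) A).toRingHom hf)
      have h4 := eval₂_cq (isHomog_cyc hI hF) hi' h3
      rw [eval₂_rename] at h4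
      exact h4)
  refine ⟨{ ρ with commutes' := h1 }, fun l j hj => ?_⟩
  have h5 : ρ (cq I (res K') l (mem_res.2 hj)) * ρ (cq I (res K') j hi) = ρ (cq I (res K') l hi) := by
    rw [← map_mul, cq_mul]
  rw [h2, h2] at h5
  have h6 : cq (cyc I F e) K' (Fin.castSucc l) hj * cq (cyc I F e) K' (Fin.castSucc j) hi' =
      cq (cyc I F e) K' (Fin.castSucc l) hi' := cq_mul _ _ hj hi'
  exact (cq_isUnit _ _ hj hi').mul_right_cancel (h5.trans h6.symm)

/-- The projection of the cover on the charts. -/
noncomputable def pc (hI : IsHomog I) (hF : F.IsHomogeneous e) {K' : Finset (Fin (n + 1))} (hK : (res K').Nonempty) :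
    chart I (res K') →ₐ[A] chart (cyc I F e) K' := (exists_pc hI hF hK).choose

theorem pc_cq (hI : IsHomog I) (hF : F.IsHomogeneous e) {K' : Finset (Fin (n + 1))} (hK : (res K').Nonempty)
    (l j : Fin n) (hj : Fin.castSucc j ∈ K') :
    pc hI hF hK (cq I (res K') l (mem_res.2 hj)) = cq (cyc I F e) K' (Fin.castSucc l) hj :=
  (exists_pc hI hF hK).choose_spec l j hj

theorem pc_tr (hI : IsHomog I) (hF : F.IsHomogeneous e) {K' L' : Finset (Fin (n + 1))} (h : K' ⊆ L')
    (hK : (res K').Nonempty) (hL : (res L').Nonempty) (x : chart I (res K')) :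
    tr (cyc I F e) h (pc hI hF hK x) = pc hI hF hL (tr I (res_mono h) x) := by
  induction x using chart_ind with
  | h1 a => rw [AlgHom.commutes, AlgHom.commutes, AlgHom.commutes, AlgHom.commutes]
  | h2 l m hm =>
    have hm' : Fin.castSucc m ∈ K' := mem_res.1 hm
    have e1 : pc hI hF hK (cq I (res K') l hm) = cq (cyc I F e) K' (Fin.castSucc l) hm' := pc_cq hI hF hK l m hm'
    have e2 : pc hI hF hL (cq I (res L') l (res_mono h hm)) = cq (cyc I F e) L' (Fin.castSucc l) (h hm') :=
      pc_cq hI hF hL l m (h hm')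
    rw [e1, tr_cq, tr_cq, e2]
  | h3 x y hx hy => rw [map_add, map_add, map_add, map_add, hx, hy]
  | h4 x y hx hy => rw [map_mul, map_mul, map_mul, map_mul, hx, hy]

/-- The function `F (x / x_j)`. -/
noncomputable def fq (I : Ideal (MvPolynomial (Fin n) A)) (F : MvPolynomial (Fin n) A) (K : Finset (Fin n)) {j : Fin n}
    (hj : j ∈ K) : chart I K := eval₂ (algebraMap A (chart I K)) (fun l => cq I K l hj) F

end

end MPadcDC
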