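import Pool.Agent.Lib.MP_adc574_ag_DC.WSgD

/-!
# JOB WSgA [ac_core]: Čech complexes with signs; adding an open set which is contained in another one

`Sgn ι`: signs `s i Γ` with the two identities behind `δ δ = 0`. `ASy ι`: a functor on the finite subsets of `ι`. `M.del S`: the Čech differential. `M.Ac S T`: the Čech complex of the
cochains on the nonempty subsets of `T` is acyclic (in all degrees `≥ 0`).

`ac_core`: contraction with `a`: for `Γ ∋ i`, `Γ ⊆ insert i T`, `a ∉ Γ`: `h Γ` := the preimage of `s a (insert a Γ) • c (insert a Γ)` under the bijection `ρ : N Γ → N (insert a Γ)`; `h Γ = 0` otherwise.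
`del h Γ = c Γ`: `Γ ∌ i`: both `0`. `Γ ∋ i, a`: only the term `k = a`: `s a Γ * s a Γ = 1` (`insert a (Γ.erase a) = Γ`; in `N` the equality of sets must be transported: use `ρ` along the inclusions and `ρ_comp`, `ρ_id`).
`Γ ∋ i`, `a ∉ Γ`: apply the injective `ρ` to `insert a Γ` and use `del c (insert a Γ) = 0` and `anti` at `insert a Γ`.
`ac_insert`: (→) for a cocycle `c` on `insert i T` restrict to `T`, get `b`; `c - del b` (`b` extended by `0`) is supported on `Γ ∋ i`: `ac_core`. (←) for a cocycle `c` on `T`: `del c` (extended by `0`) restricted to `Γ ∋ i` is a cocycle: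
`ac_core` gives `g` supported on `Γ ∋ i` with `del g = -del c`; `c + g = del b`, restrict `b` to `T`. (`del_del = 0` from `anti`, as `CovD.del_del` in GP/Cov.lean.)
-/

set_option autoImplicit false

namespace MPadcDC

universe u v w

variable {ι : Type} [DecidableEq ι]

/-- Restrictions out of equal sets. -/
private theorem WSgA_congr (M : ASy.{u} ι) {Δ Δ' Γ : Finset ι} (e : Δ = Δ') (h : Δ ⊆ Γ) (h' : Δ' ⊆ Γ)
    (c : ∀ Γ, M.N Γ) : M.ρ h (c Δ) = M.ρ h' (c Δ') := by
  subst e
  rfl

theorem ASy.ac_core (M : ASy.{u} ι) (S : Sgn ι) {T : Finset ι} {i a : ι} (hi : i ∉ T) (ha : a ∈ T)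
    (hb : ∀ Γ : Finset ι, i ∈ Γ → Function.Bijective (M.ρ (Finset.subset_insert a Γ))) {j : ℕ} {c : ∀ Γ, M.N Γ}
    (hc : ∀ Γ, (i ∉ Γ ∨ ¬ Γ ⊆ insert i T ∨ Γ.card ≠ j + 1) → c Γ = 0)
    (hd : ∀ Γ, Γ ⊆ insert i T → i ∈ Γ → M.del S c Γ = 0) :
    ∃ h : ∀ Γ, M.N Γ, (∀ Γ, (i ∉ Γ ∨ ¬ Γ ⊆ insert i T ∨ Γ.card ≠ j) → h Γ = 0) ∧
      ∀ Γ, Γ ⊆ insert i T → M.del S h Γ = c Γ := by
  classical
  have hia : i ≠ a := fun e => hi (e ▸ ha)
  -- the contraction
  have hex : ∀ Γ : Finset ι, ∃ y : M.N Γ,
      ((i ∉ Γ ∨ ¬ Γ ⊆ insert i T ∨ a ∈ Γ) → y = 0) ∧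
      ((i ∈ Γ ∧ Γ ⊆ insert i T ∧ a ∉ Γ) →
        M.ρ (Finset.subset_insert a Γ) y = S.s a (insert a Γ) • c (insert a Γ)) := by
    intro Γ
    by_cases h : i ∈ Γ ∧ Γ ⊆ insert i T ∧ a ∉ Γ
    · obtain ⟨y, hy⟩ := (hb Γ h.1).2 (S.s a (insert a Γ) • c (insert a Γ))
      refine ⟨y, fun h' => ?_, fun _ => hy⟩
      rcases h' with h' | h' | h'
      · exact absurd h.1 h'
      · exact absurd h.2.1 h'
      · exact absurd h' h.2.2
    · exact ⟨0, fun _ => rfl, fun h' => absurd h' h⟩
  choose h h0 h1 using hex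
  have hins : ∀ Γ : Finset ι, Γ ⊆ insert i T → insert a Γ ⊆ insert i T := fun Γ hΓ =>
    Finset.insert_subset (Finset.mem_insert_of_mem ha) hΓ
  -- the defining property, transported
  have h2 : ∀ (Δ Γ : Finset ι) (hs : Δ ⊆ Γ) (e : insert a Δ = Γ), i ∈ Δ → Δ ⊆ insert i T → a ∉ Δ →
      M.ρ hs (h Δ) = S.s a Γ • c Γ := by
    intro Δ Γ hs e hiΔ hΔ haΔ
    subst e
    exact h1 Δ ⟨hiΔ, hΔ, haΔ⟩
  refine ⟨h, ?_, ?_⟩
  · intro Γ hΓ
    rcases hΓ with hΓ | hΓ | hΓ
    · exact h0 Γ (Or.inl hΓ)
    · exact h0 Γ (Or.inr (Or.inl hΓ))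
    · by_cases hg : i ∈ Γ ∧ Γ ⊆ insert i T ∧ a ∉ Γ
      · have hz : c (insert a Γ) = 0 := by
          refine hc _ (Or.inr (Or.inr ?_))
          rw [Finset.card_insert_of_notMem hg.2.2]
          omega
        have := h1 Γ hg
        rw [hz, smul_zero] at this
        exact (hb Γ hg.1).1 (by rw [this, map_zero])
      · refine h0 Γ ?_
        by_contra hcon
        push Not at hcon
        exact hg hcon
  · intro Γ hΓ
    by_cases hiΓ : i ∈ Γ
    · by_cases haΓ : a ∈ Γ
      · -- only the term `a`
        unfold ASy.del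
        rw [Finset.sum_eq_single_of_mem a haΓ]
        · rw [h2 (Γ.erase a) Γ (Finset.erase_subset a Γ) (Finset.insert_erase haΓ)
            (Finset.mem_erase.2 ⟨hia, hiΓ⟩) ((Finset.erase_subset a Γ).trans hΓ)
            (Finset.notMem_erase a Γ), smul_smul, S.sq, one_smul]
        · intro k _ hka
          have : h (Γ.erase k) = 0 := h0 _ (Or.inr (Or.inr (Finset.mem_erase.2 ⟨hka.symm, haΓ⟩)))
          rw [this, map_zero, smul_zero]
      · -- apply the injective restriction
        apply (hb Γ hiΓ).1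
        have hΓ' : insert a Γ ⊆ insert i T := hins Γ hΓ
        have hd' := hd (insert a Γ) hΓ' (Finset.mem_insert_of_mem hiΓ)
        unfold ASy.del at hd'
        rw [Finset.sum_insert haΓ] at hd'
        have hera : (insert a Γ).erase a = Γ := Finset.erase_insert haΓ
        have e0 : M.ρ (Finset.erase_subset a (insert a Γ)) (c ((insert a Γ).erase a)) =
            M.ρ (Finset.subset_insert a Γ) (c Γ) := WSgA_congr M hera _ _ c
        rw [e0] at hd'
        unfold ASy.del
        rw [map_sum]
        have e1 : ∀ k ∈ Γ, M.ρ (Finset.subset_insert a Γ)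
            (S.s k Γ • M.ρ (Finset.erase_subset k Γ) (h (Γ.erase k))) =
            -(S.s a (insert a Γ) • (S.s k (insert a Γ) •
              M.ρ (Finset.erase_subset k (insert a Γ)) (c ((insert a Γ).erase k)))) := by
          intro k hk
          have hka : k ≠ a := fun e => haΓ (e ▸ hk)
          have hke : insert a (Γ.erase k) = (insert a Γ).erase k :=
            (Finset.erase_insert_of_ne hka.symm).symm
          have hsub : Γ.erase k ⊆ (insert a Γ).erase k :=
            Finset.erase_subset_erase k (Finset.subset_insert a Γ)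
          have e2 : M.ρ (Finset.subset_insert a Γ) (M.ρ (Finset.erase_subset k Γ) (h (Γ.erase k))) =
              S.s a ((insert a Γ).erase k) •
                M.ρ (Finset.erase_subset k (insert a Γ)) (c ((insert a Γ).erase k)) := by
            rw [M.ρ_comp]
            by_cases hki : k = i
            · have z1 : h (Γ.erase k) = 0 := h0 _ (Or.inl (by rw [hki]; exact Finset.notMem_erase i Γ))
              have z2 : c ((insert a Γ).erase k) = 0 :=
                hc _ (Or.inl (by rw [hki]; exact Finset.notMem_erase i _))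
              rw [z1, z2, map_zero, map_zero, smul_zero]
            · have e3 := h2 (Γ.erase k) ((insert a Γ).erase k) hsub hke
                (Finset.mem_erase.2 ⟨fun e => hki e.symm, hiΓ⟩) ((Finset.erase_subset k Γ).trans hΓ)
                (fun hm => haΓ (Finset.mem_of_mem_erase hm))
              rw [← map_zsmul, ← e3, M.ρ_comp]
          rw [map_zsmul, e2, smul_smul, smul_smul, ← neg_smul]
          congr 1
          have an := S.anti (i := k) (j := a) (Γ := insert a Γ) (Finset.mem_insert_of_mem hk)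
            (Finset.mem_insert_self a Γ) hka
          rw [hera] at an
          have q1 := S.sq a (insert a Γ)
          have q2 := S.sq a ((insert a Γ).erase k)
          generalize S.s a (insert a Γ) = x at *
          generalize S.s a ((insert a Γ).erase k) = y at *
          generalize S.s k (insert a Γ) = z at *
          generalize S.s k Γ = w at *
          linear_combination (x * y) * an - (w * y) * q1 - (x * z) * q2
        rw [Finset.sum_congr rfl e1, Finset.sum_neg_distrib, ← Finset.smul_sum]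
        have e4 : ∑ k ∈ Γ, S.s k (insert a Γ) •
            M.ρ (Finset.erase_subset k (insert a Γ)) (c ((insert a Γ).erase k)) =
            -(S.s a (insert a Γ) • M.ρ (Finset.subset_insert a Γ) (c Γ)) := by
          rw [eq_neg_iff_add_eq_zero, add_comm]
          exact hd'
        rw [e4, smul_neg, neg_neg, smul_smul, S.sq, one_smul]
    · have hz : c Γ = 0 := hc Γ (Or.inl hiΓ)
      rw [hz]
      unfold ASy.del
      refine Finset.sum_eq_zero fun k _ => ?_
      have : h (Γ.erase k) = 0 := h0 _ (Or.inl (fun hm => hiΓ (Finset.mem_of_mem_erase hm)))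
      rw [this, map_zero, smul_zero]

end MPadcDC
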