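import Pool.Agent.Lib.MP_adc574_ag_DC.WSgA

/-!
# JOB WSgB [ac_insert]: Čech complexes with signs; adding an open set which is contained in another one

`Sgn ι`: signs `s i Γ` with the two identities behind `δ δ = 0`. `ASy ι`: a functor on the finite subsets of `ι`. `M.del S`: the Čech differential. `M.Ac S T`: the Čech complex of the
cochains on the nonempty subsets of `T` is acyclic (in all degrees `≥ 0`).

`ac_core`: contraction with `a`: for `Γ ∋ i`, `Γ ⊆ insert i T`, `a ∉ Γ`: `h Γ` := the preimage of `s a (insert a Γ) • c (insert a Γ)` under the bijection `ρ : N Γ → N (insert a Γ)`; `h Γ = 0` otherwise.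
`del h Γ = c Γ`: `Γ ∌ i`: both `0`. `Γ ∋ i, a`: only the term `k = a`: `s a Γ * s a Γ = 1` (`insert a (Γ.erase a) = Γ`; in `N` the equality of sets must be transported: use `ρ` along the inclusions and `ρ_comp`, `ρ_id`).
`Γ ∋ i`, `a ∉ Γ`: apply the injective `ρ` to `insert a Γ` and use `del c (insert a Γ) = 0` and `anti` at `insert a Γ`.
`ac_insert`: (→) for a cocycle `c` on `insert i T` restrict to `T`, get `b`; `c - del b` (`b` extended by `0`) is supported on `Γ ∋ i`: `ac_core`. (←) for a cocycle `c` on `T`: `del c` (extended by `0`) restricted to `Γ ∋ i` is a cocycle: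
`ac_core` gives `g` supported on `Γ ∋ i` with `del g = -del c`; `c + g = del b`, restrict `b` to `T`. (`del_del = 0` from `anti`, as `CovD.del_del` in GP/Cov.lean.)
-/

set_option autoImplicit false

namespace MPadcDC

universe u v w

variable {ι : Type} [DecidableEq ι]

private theorem sgB_congr (M : ASy.{u} ι) (S : Sgn ι) {c c' : ∀ Γ, M.N Γ} {Γ : Finset ι}
    (h : ∀ k ∈ Γ, c (Γ.erase k) = c' (Γ.erase k)) : M.del S c Γ = M.del S c' Γ := by
  unfold ASy.del
  exact Finset.sum_congr rfl fun k hk => by rw [h k hk]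

private theorem sgB_zero (M : ASy.{u} ι) (S : Sgn ι) {c : ∀ Γ, M.N Γ} {Γ : Finset ι}
    (h : ∀ k ∈ Γ, c (Γ.erase k) = 0) : M.del S c Γ = 0 := by
  unfold ASy.del
  exact Finset.sum_eq_zero fun k hk => by rw [h k hk, map_zero, smul_zero]

private theorem sgB_add (M : ASy.{u} ι) (S : Sgn ι) (c c' : ∀ Γ, M.N Γ) (Γ : Finset ι) :
    M.del S (fun Δ => c Δ + c' Δ) Γ = M.del S c Γ + M.del S c' Γ := by
  unfold ASy.del
  rw [← Finset.sum_add_distrib]
  exact Finset.sum_congr rfl fun k _ => by rw [map_add, smul_add]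

private theorem sgB_sub (M : ASy.{u} ι) (S : Sgn ι) (c c' : ∀ Γ, M.N Γ) (Γ : Finset ι) :
    M.del S (fun Δ => c Δ - c' Δ) Γ = M.del S c Γ - M.del S c' Γ := by
  unfold ASy.del
  rw [← Finset.sum_sub_distrib]
  exact Finset.sum_congr rfl fun k _ => by rw [map_sub, smul_sub]

private def sgB_ev (M : ASy.{u} ι) (c : ∀ Γ, M.N Γ) (K J : Finset ι) : M.N J :=
  if h : K ⊆ J then M.ρ h (c K) else 0

private theorem sgB_del_del (M : ASy.{u} ι) (S : Sgn ι) (c : ∀ Γ, M.N Γ) (Γ : Finset ι) :
    M.del S (fun Δ => M.del S c Δ) Γ = 0 := by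
  have h0 : M.del S (fun Δ => M.del S c Δ) Γ =
      ∑ i ∈ Γ, S.s i Γ • M.ρ (Finset.erase_subset i Γ) (M.del S c (Γ.erase i)) := rfl
  have h1 : ∀ i ∈ Γ, S.s i Γ • M.ρ (Finset.erase_subset i Γ) (M.del S c (Γ.erase i)) =
      ∑ j ∈ Γ.erase i, (S.s i Γ * S.s j (Γ.erase i)) • sgB_ev M c ((Γ.erase i).erase j) Γ := by
    intro i _
    unfold ASy.del
    rw [map_sum, Finset.smul_sum]
    refine Finset.sum_congr rfl fun j _ => ?_
    have h2 : (Γ.erase i).erase j ⊆ Γ := (Finset.erase_subset _ _).trans (Finset.erase_subset _ _)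
    rw [map_zsmul, M.ρ_comp, smul_smul, sgB_ev, dif_pos h2]
  rw [h0, Finset.sum_congr rfl h1, Finset.sum_sigma']
  refine Finset.sum_involution (fun p _ => (⟨p.2, p.1⟩ : Σ _ : ι, ι)) ?_ ?_ ?_ ?_
  · rintro ⟨i, j⟩ h
    rw [Finset.mem_sigma, Finset.mem_erase] at h
    obtain ⟨hi, hij, hj⟩ := h
    change (S.s i Γ * S.s j (Γ.erase i)) • sgB_ev M c ((Γ.erase i).erase j) Γ +
      (S.s j Γ * S.s i (Γ.erase j)) • sgB_ev M c ((Γ.erase j).erase i) Γ = 0
    rw [Finset.erase_right_comm (a := j) (b := i), ← add_smul, S.anti hi hj (Ne.symm hij), zero_smul]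
  · rintro ⟨i, j⟩ h _ he
    rw [Finset.mem_sigma, Finset.mem_erase] at h
    have h1 : (⟨j, i⟩ : Σ _ : ι, ι) = ⟨i, j⟩ := he
    have h2 : j = i := congrArg (fun p : (Σ _ : ι, ι) => p.1) h1
    exact h.2.1 h2
  · rintro ⟨i, j⟩ h
    rw [Finset.mem_sigma, Finset.mem_erase] at h ⊢
    exact ⟨h.2.2, Ne.symm h.2.1, h.1⟩
  · rintro ⟨i, j⟩ _
    rfl


theorem ASy.ac_insert (M : ASy.{u} ι) (S : Sgn ι) {T : Finset ι} {i a : ι} (hi : i ∉ T) (ha : a ∈ T)
    (hb : ∀ Γ : Finset ι, i ∈ Γ → Function.Bijective (M.ρ (Finset.subset_insert a Γ))) :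
    M.Ac S T ↔ M.Ac S (insert i T) := by
  classical
  have hT : T ⊆ insert i T := Finset.subset_insert i T
  constructor
  · intro hA j c hc0 hc hd
    obtain ⟨b, hb0, hbs, hbd⟩ := hA j (fun Γ => if Γ ⊆ T then c Γ else 0) (by simp [hc0])
      (by
        intro Γ h
        by_cases hΓ : Γ ⊆ T
        · rw [if_pos hΓ]
          exact hc Γ (Or.inr (h.resolve_left (fun h' => h' hΓ)))
        · rw [if_neg hΓ])
      (by
        intro Γ hΓ
        rw [← hd Γ (hΓ.trans hT)]
        refine sgB_congr M S fun k _ => ?_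
        rw [if_pos ((Finset.erase_subset k Γ).trans hΓ)])
    have hbd' : ∀ Γ, Γ ⊆ T → M.del S b Γ = c Γ := fun Γ hΓ => by rw [hbd Γ hΓ, if_pos hΓ]
    set e : ∀ Γ, M.N Γ := fun Γ => if Γ ⊆ insert i T then c Γ - M.del S b Γ else 0 with he
    obtain ⟨h, hs, hh⟩ := M.ac_core S hi ha hb (j := j) (c := e)
      (by
        intro Γ h
        by_cases hΓ : Γ ⊆ insert i T
        · rw [he]; simp only [if_pos hΓ]
          by_cases hiΓ : i ∈ Γ
          · have hcard : Γ.card ≠ j + 1 := by
              rcases h with h | h | h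
              · exact absurd hiΓ h
              · exact absurd hΓ h
              · exact h
            rw [hc Γ (Or.inr hcard), sgB_zero M S, sub_zero]
            intro k hk
            refine hbs _ (Or.inr ?_)
            rw [Finset.card_erase_of_mem hk]
            have := Finset.card_pos.2 ⟨k, hk⟩
            omega
          · have hΓT : Γ ⊆ T := by
              intro x hx
              rcases Finset.mem_insert.1 (hΓ hx) with h1 | h1
              · exact absurd (h1 ▸ hx) hiΓ
              · exact h1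
            rw [hbd' Γ hΓT, sub_self]
        · rw [he]; simp only [if_neg hΓ])
      (by
        intro Γ hΓ _
        have h1 : M.del S e Γ = M.del S (fun Δ => c Δ - M.del S b Δ) Γ := by
          refine sgB_congr M S fun k _ => ?_
          rw [he]; simp only [if_pos ((Finset.erase_subset k Γ).trans hΓ)]
        rw [h1, sgB_sub M S c (fun Δ => M.del S b Δ), hd Γ hΓ, sgB_del_del, sub_zero])
    refine ⟨fun Γ => b Γ + h Γ, ?_, ?_, ?_⟩
    · change b ∅ + h ∅ = 0
      rw [hb0, hs ∅ (Or.inl (Finset.notMem_empty i)), add_zero]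
    · intro Γ hΓ
      change b Γ + h Γ = 0
      rcases hΓ with hΓ | hΓ
      · rw [hbs Γ (Or.inl fun h' => hΓ (h'.trans hT)), hs Γ (Or.inr (Or.inl hΓ)), add_zero]
      · rw [hbs Γ (Or.inr hΓ), hs Γ (Or.inr (Or.inr hΓ)), add_zero]
    · intro Γ hΓ
      rw [sgB_add, hh Γ hΓ, he]
      simp only [if_pos hΓ]
      rw [add_sub_cancel]
  · intro hA j c hc0 hc hd
    set e : ∀ Γ, M.N Γ := fun Γ => if Γ ⊆ insert i T then M.del S c Γ else 0 with he
    have hcT : ∀ Γ, ¬ Γ ⊆ T → c Γ = 0 := fun Γ hΓ => hc Γ (Or.inl hΓ)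
    obtain ⟨h, hs, hh⟩ := M.ac_core S hi ha hb (j := j + 1) (c := e)
      (by
        intro Γ h
        by_cases hΓ : Γ ⊆ insert i T
        · rw [he]; simp only [if_pos hΓ]
          by_cases hiΓ : i ∈ Γ
          · have hcard : Γ.card ≠ j + 1 + 1 := by
              rcases h with h | h | h
              · exact absurd hiΓ h
              · exact absurd hΓ h
              · exact h
            refine sgB_zero M S fun k hk => ?_
            refine hc _ (Or.inr ?_)
            rw [Finset.card_erase_of_mem hk]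
            have := Finset.card_pos.2 ⟨k, hk⟩
            omega
          · have hΓT : Γ ⊆ T := by
              intro x hx
              rcases Finset.mem_insert.1 (hΓ hx) with h1 | h1
              · exact absurd (h1 ▸ hx) hiΓ
              · exact h1
            exact hd Γ hΓT
        · rw [he]; simp only [if_neg hΓ])
      (by
        intro Γ hΓ _
        have h1 : M.del S e Γ = M.del S (fun Δ => M.del S c Δ) Γ := by
          refine sgB_congr M S fun k _ => ?_
          rw [he]; simp only [if_pos ((Finset.erase_subset k Γ).trans hΓ)]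
        rw [h1, sgB_del_del])
    have hh' : ∀ Γ, Γ ⊆ insert i T → M.del S h Γ = M.del S c Γ := by
      intro Γ hΓ
      rw [hh Γ hΓ, he]; simp only [if_pos hΓ]
    obtain ⟨b, hb0, hbs, hbd⟩ := hA j (fun Γ => c Γ - h Γ)
      (by
        change c ∅ - h ∅ = 0
        rw [hc0, hs ∅ (Or.inl (Finset.notMem_empty i)), sub_zero])
      (by
        intro Γ hΓ
        change c Γ - h Γ = 0
        rcases hΓ with hΓ | hΓ
        · rw [hcT Γ fun h' => hΓ (h'.trans hT), hs Γ (Or.inr (Or.inl hΓ)), sub_zero]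
        · rw [hc Γ (Or.inr hΓ), hs Γ (Or.inr (Or.inr hΓ)), sub_zero])
      (by
        intro Γ hΓ
        rw [sgB_sub, hh' Γ hΓ, sub_self])
    refine ⟨fun Γ => if Γ ⊆ T then b Γ else 0, by simp [hb0], ?_, ?_⟩
    · intro Γ hΓ
      by_cases hΓT : Γ ⊆ T
      · simp only [if_pos hΓT]
        exact hbs Γ (Or.inr (hΓ.resolve_left (fun h' => h' hΓT)))
      · simp only [if_neg hΓT]
    · intro Γ hΓ
      have h1 : M.del S (fun Γ => if Γ ⊆ T then b Γ else 0) Γ = M.del S b Γ := by
        refine sgB_congr M S fun k _ => ?_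
        simp only [if_pos ((Finset.erase_subset k Γ).trans hΓ)]
      rw [h1, hbd Γ (hΓ.trans hT), hs Γ (Or.inl fun h' => hi (hΓ h')), sub_zero]

end MPadcDC
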