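import Mathlib

/-!
# Čech complexes with signs: definitions

`Sgn ι`: signs `s i Γ` with the two identities behind `δ δ = 0`. `ASy ι`: a functor on the finite subsets of `ι`. `M.del S`: the Čech differential. `M.Ac S T`: the Čech complex of the
cochains on the nonempty subsets of `T` is acyclic (in all degrees `≥ 0`).
-/

set_option autoImplicit false

namespace MPadcDC

universe u v w

/-- Signs. -/
structure Sgn (ι : Type) [DecidableEq ι] where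
  /-- The sign of `i` in `Γ`. -/
  s : ι → Finset ι → ℤ
  sq : ∀ i Γ, s i Γ * s i Γ = 1
  anti : ∀ {i j : ι} {Γ : Finset ι}, i ∈ Γ → j ∈ Γ → i ≠ j → s i Γ * s j (Γ.erase i) + s j Γ * s i (Γ.erase j) = 0

/-- A system of abelian groups with restrictions. -/
structure ASy (ι : Type) where
  /-- The groups. -/
  N : Finset ι → Type u
  [ag : ∀ Γ, AddCommGroup (N Γ)]
  /-- The restriction. -/
  ρ : ∀ {Γ Δ : Finset ι}, Γ ⊆ Δ → (N Γ →+ N Δ)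
  ρ_id : ∀ (Γ : Finset ι) (x : N Γ), ρ (Finset.Subset.refl Γ) x = x
  ρ_comp : ∀ {Γ Δ Θ : Finset ι} (h : Γ ⊆ Δ) (h' : Δ ⊆ Θ) (x : N Γ), ρ h' (ρ h x) = ρ (h.trans h') x

attribute [instance] ASy.ag

variable {ι : Type} [DecidableEq ι]

/-- The Čech differential. -/
def ASy.del (M : ASy.{u} ι) (S : Sgn ι) (c : ∀ Γ, M.N Γ) (Γ : Finset ι) : M.N Γ :=
  ∑ i ∈ Γ, S.s i Γ • M.ρ (Finset.erase_subset i Γ) (c (Γ.erase i))

/-- The Čech complex of the subsets of `T` is acyclic. -/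
def ASy.Ac (M : ASy.{u} ι) (S : Sgn ι) (T : Finset ι) : Prop :=
  ∀ (j : ℕ) (c : ∀ Γ, M.N Γ), c ∅ = 0 → (∀ Γ, (¬ Γ ⊆ T ∨ Γ.card ≠ j + 1) → c Γ = 0) →
    (∀ Γ, Γ ⊆ T → M.del S c Γ = 0) →
    ∃ b : ∀ Γ, M.N Γ, b ∅ = 0 ∧ (∀ Γ, (¬ Γ ⊆ T ∨ Γ.card ≠ j) → b Γ = 0) ∧ ∀ Γ, Γ ⊆ T → M.del S b Γ = c Γ

/-- A restriction between equal sets is bijective. -/
theorem ASy.ρ_bij (M : ASy.{u} ι) {Γ Δ : Finset ι} (h : Γ ⊆ Δ) (e : Γ = Δ) : Function.Bijective (M.ρ h) := by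
  subst e
  exact ⟨fun x y hxy => by rwa [M.ρ_id, M.ρ_id] at hxy, fun y => ⟨y, M.ρ_id _ y⟩⟩

end MPadcDC
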