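import Pool.Agent.Lib.MP_adc574_ag_DC.WSgB

/-!
# WShA [ac_ext]: independence of the covering

Induction on `T' \ T` with `ac_insert`.
-/

set_option autoImplicit false

namespace MPadcDC

universe u v w

variable {ι : Type} [DecidableEq ι]

theorem ASy.ac_ext (M : ASy.{u} ι) (S : Sgn ι) {T T' : Finset ι} (hT : T ⊆ T')
    (h : ∀ i ∈ T', i ∉ T → ∃ a ∈ T, ∀ Γ : Finset ι, i ∈ Γ → Function.Bijective (M.ρ (Finset.subset_insert a Γ))) :
    M.Ac S T ↔ M.Ac S T' := by
  have key : ∀ D : Finset ι, D ⊆ T' \ T → (M.Ac S T ↔ M.Ac S (T ∪ D)) := by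
    intro D
    induction D using Finset.induction_on with
    | empty =>
      intro _
      rw [Finset.union_empty]
    | insert i D hi ih =>
      intro hD
      have h1 := Finset.mem_sdiff.1 (hD (Finset.mem_insert_self i D))
      obtain ⟨a, ha, hb⟩ := h i h1.1 h1.2
      have h2 : i ∉ T ∪ D := fun h3 => (Finset.mem_union.1 h3).elim h1.2 hi
      rw [ih ((Finset.subset_insert i D).trans hD), Finset.union_insert]
      exact ASy.ac_insert M S h2 (Finset.mem_union_left D ha) hb
  have h1 := key (T' \ T) (Finset.Subset.refl _)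
  rwa [Finset.union_sdiff_of_subset hT] at h1

end MPadcDC
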