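import Pool.Agent.Lib.MP_adc574_ag_DC.WSgD

/-!
# WShB: independence of the signs

* `exists_eps`: `r i Γ = S.s i Γ * S'.s i Γ` satisfies `r i Γ * r j (Γ.erase i) = r j Γ * r i (Γ.erase j)` (`anti` for both); `ε` by
  strong recursion: `ε Γ = r m Γ * ε (Γ.erase m)` with a chosen `m ∈ Γ`; then `ε Γ = r i Γ * ε (Γ.erase i)` for every `i ∈ Γ`.
* `ac_sgn`: `c ↦ ε • c` maps cocycles for `S` to cocycles for `S'`.
-/

set_option autoImplicit false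

namespace MPadcDC

universe u v w

variable {ι : Type} [DecidableEq ι]

theorem WShB_r (S S' : Sgn ι) {i j : ι} {Γ : Finset ι} (hi : i ∈ Γ) (hj : j ∈ Γ) (hij : i ≠ j) :
    (S.s i Γ * S'.s i Γ) * (S.s j (Γ.erase i) * S'.s j (Γ.erase i)) =
      (S.s j Γ * S'.s j Γ) * (S.s i (Γ.erase j) * S'.s i (Γ.erase j)) := by
  have h1 := S.anti hi hj hij
  have h2 := S'.anti hi hj hij
  have h3 : S.s i Γ * S.s j (Γ.erase i) = -(S.s j Γ * S.s i (Γ.erase j)) := by linarith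
  have h4 : S'.s i Γ * S'.s j (Γ.erase i) = -(S'.s j Γ * S'.s i (Γ.erase j)) := by linarith
  calc (S.s i Γ * S'.s i Γ) * (S.s j (Γ.erase i) * S'.s j (Γ.erase i))
      = (S.s i Γ * S.s j (Γ.erase i)) * (S'.s i Γ * S'.s j (Γ.erase i)) := by ring
    _ = (S.s j Γ * S'.s j Γ) * (S.s i (Γ.erase j) * S'.s i (Γ.erase j)) := by
        rw [h3, h4]
        ring

open Classical in
/-- The signs. -/
noncomputable def WShB_e (S S' : Sgn ι) : Finset ι → ℤ := fun Γ =>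
  Finset.strongInduction (p := fun _ => ℤ) (fun Γ ih => if h : Γ.Nonempty then
    (S.s h.choose Γ * S'.s h.choose Γ) * ih (Γ.erase h.choose) (Finset.erase_ssubset h.choose_spec) else 1) Γ

theorem WShB_e_eq (S S' : Sgn ι) {Γ : Finset ι} (h : Γ.Nonempty) :
    WShB_e S S' Γ = (S.s h.choose Γ * S'.s h.choose Γ) * WShB_e S S' (Γ.erase h.choose) := by
  unfold WShB_e
  rw [Finset.strongInduction_eq, dif_pos h]

theorem WShB_e_empty (S S' : Sgn ι) {Γ : Finset ι} (h : ¬ Γ.Nonempty) : WShB_e S S' Γ = 1 := by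
  unfold WShB_e
  rw [Finset.strongInduction_eq, dif_neg h]

theorem WShB_e_sq (S S' : Sgn ι) (Γ : Finset ι) : WShB_e S S' Γ * WShB_e S S' Γ = 1 := by
  induction Γ using Finset.strongInduction with
  | H Γ ih =>
    by_cases h : Γ.Nonempty
    · have h1 := ih _ (Finset.erase_ssubset h.choose_spec)
      have h2 := S.sq h.choose Γ
      have h3 := S'.sq h.choose Γ
      rw [WShB_e_eq S S' h]
      calc _ = (S.s h.choose Γ * S.s h.choose Γ) * (S'.s h.choose Γ * S'.s h.choose Γ) *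
            (WShB_e S S' (Γ.erase h.choose) * WShB_e S S' (Γ.erase h.choose)) := by ring
        _ = 1 := by rw [h1, h2, h3]; rfl
    · rw [WShB_e_empty S S' h, mul_one]

theorem WShB_e_all (S S' : Sgn ι) (Γ : Finset ι) :
    ∀ i ∈ Γ, WShB_e S S' Γ = (S.s i Γ * S'.s i Γ) * WShB_e S S' (Γ.erase i) := by
  induction Γ using Finset.strongInduction with
  | H Γ ih =>
    intro i hi
    have h : Γ.Nonempty := ⟨i, hi⟩
    obtain ⟨m, hm⟩ : ∃ m, m = h.choose := ⟨_, rfl⟩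
    have hmΓ : m ∈ Γ := hm ▸ h.choose_spec
    have h0 := WShB_e_eq S S' h
    rw [← hm] at h0
    by_cases him : i = m
    · rw [him]
      exact h0
    · have h1 := ih _ (Finset.erase_ssubset hmΓ) i (Finset.mem_erase.2 ⟨him, hi⟩)
      have h2 := ih _ (Finset.erase_ssubset hi) m (Finset.mem_erase.2 ⟨Ne.symm him, hmΓ⟩)
      rw [h0, h1, h2, Finset.erase_right_comm, ← mul_assoc, WShB_r S S' hmΓ hi (Ne.symm him), mul_assoc]

theorem exists_eps (S S' : Sgn ι) : ∃ ε : Finset ι → ℤ, (∀ Γ, ε Γ * ε Γ = 1) ∧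
    ∀ Γ, ∀ i ∈ Γ, ε Γ * ε (Γ.erase i) = S.s i Γ * S'.s i Γ := by
  refine ⟨WShB_e S S', WShB_e_sq S S', fun Γ i hi => ?_⟩
  rw [WShB_e_all S S' Γ i hi, mul_assoc, WShB_e_sq, mul_one]

theorem WShB_del (M : ASy.{u} ι) (S S' : Sgn ι) (ε : Finset ι → ℤ)
    (h : ∀ Γ, ∀ i ∈ Γ, S.s i Γ * ε (Γ.erase i) = ε Γ * S'.s i Γ) (c : ∀ Γ, M.N Γ) (Γ : Finset ι) :
    M.del S (fun Δ => ε Δ • c Δ) Γ = ε Γ • M.del S' c Γ := by
  unfold ASy.del
  rw [Finset.smul_sum]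
  refine Finset.sum_congr rfl fun i hi => ?_
  rw [map_zsmul, smul_smul, h Γ i hi, ← smul_smul]

theorem ASy.ac_sgn (M : ASy.{u} ι) (S S' : Sgn ι) {T : Finset ι} (h : M.Ac S T) : M.Ac S' T := by
  obtain ⟨ε, h1, h2⟩ := exists_eps S S'
  have e1 : ∀ Γ, ∀ i ∈ Γ, S.s i Γ * ε (Γ.erase i) = ε Γ * S'.s i Γ := fun Γ i hi => by
    have h3 := h2 Γ i hi
    have h4 := S.sq i Γ
    have h5 := h1 Γ
    calc S.s i Γ * ε (Γ.erase i) = (ε Γ * ε Γ) * (S.s i Γ * ε (Γ.erase i)) := by rw [h5, one_mul]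
      _ = ε Γ * S.s i Γ * (ε Γ * ε (Γ.erase i)) := by ring
      _ = ε Γ * (S.s i Γ * S.s i Γ) * S'.s i Γ := by rw [h3]; ring
      _ = ε Γ * S'.s i Γ := by rw [h4, mul_one]
  have e2 : ∀ Γ, ∀ i ∈ Γ, S'.s i Γ * ε (Γ.erase i) = ε Γ * S.s i Γ := fun Γ i hi => by
    have h3 := h2 Γ i hi
    have h4 := S'.sq i Γ
    have h5 := h1 Γ
    calc S'.s i Γ * ε (Γ.erase i) = (ε Γ * ε Γ) * (S'.s i Γ * ε (Γ.erase i)) := by rw [h5, one_mul]
      _ = ε Γ * S'.s i Γ * (ε Γ * ε (Γ.erase i)) := by ring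
      _ = ε Γ * (S'.s i Γ * S'.s i Γ) * S.s i Γ := by rw [h3]; ring
      _ = ε Γ * S.s i Γ := by rw [h4, mul_one]
  intro j c hc0 hcs hcd
  obtain ⟨b, hb0, hbs, hbd⟩ := h j (fun Γ => ε Γ • c Γ)
    (by rw [hc0, smul_zero])
    (fun Γ hΓ => by rw [hcs Γ hΓ, smul_zero])
    (fun Γ hΓ => by rw [WShB_del M S S' ε e1, hcd Γ hΓ, smul_zero])
  refine ⟨fun Γ => ε Γ • b Γ, by change ε ∅ • b ∅ = 0; rw [hb0, smul_zero],
    fun Γ hΓ => by change ε Γ • b Γ = 0; rw [hbs Γ hΓ, smul_zero], fun Γ hΓ => ?_⟩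
  rw [WShB_del M S' S ε e2, hbd Γ hΓ]
  rw [smul_smul, h1, one_smul]

end MPadcDC
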