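import Pool.Agent.Lib.MP_adc574_ag_DC.WSiD
import Pool.Agent.Lib.MP_adc574_ag_GP.Cov

/-!
# WShC [exists_sgn ac_congr]: existence of signs, isomorphic systems

* `exists_sgn`: the signs of `Fin n`, transported along `Finite.equivFin`.
* `ac_congr`: transport: `c Γ := (f Γ _).symm (c' Γ)` for nonempty `Γ`, `0` for `Γ = ∅`.
-/

set_option autoImplicit false

namespace MPadcDC

universe u v w

variable {ι : Type} [DecidableEq ι]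

theorem exists_sgn (ι : Type) [DecidableEq ι] [Finite ι] : Nonempty (Sgn ι) :=
  ⟨Sgn.comap ⟨fun i Γ => MPadcGP.sg i Γ, fun i Γ => MPadcGP.sg_sq i Γ, fun hi hj h => MPadcGP.sg_sg hi hj h⟩
    (Finite.equivFin ι).toEmbedding⟩

theorem WShC_zero (M : ASy.{u} ι) {c : ∀ Γ, M.N Γ} (hc : c ∅ = 0) {Γ : Finset ι} (h : ¬ Γ.Nonempty) : c Γ = 0 := by
  have h1 := Finset.not_nonempty_iff_eq_empty.1 h
  subst h1
  exact hc

theorem WShC_del (M : ASy.{u} ι) (M' : ASy.{v} ι) (f : ∀ Γ : Finset ι, Γ.Nonempty → (M.N Γ ≃+ M'.N Γ))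
    (hf : ∀ {Γ Δ : Finset ι} (h : Γ ⊆ Δ) (hΓ : Γ.Nonempty) (hΔ : Δ.Nonempty) (x : M.N Γ),
      f Δ hΔ (M.ρ h x) = M'.ρ h (f Γ hΓ x)) (S : Sgn ι) {c : ∀ Γ, M.N Γ} {c' : ∀ Γ, M'.N Γ} (hc : c ∅ = 0)
    (hc' : c' ∅ = 0) (h : ∀ Γ hΓ, f Γ hΓ (c Γ) = c' Γ) (Γ : Finset ι) (hΓ : Γ.Nonempty) :
    f Γ hΓ (M.del S c Γ) = M'.del S c' Γ := by
  unfold ASy.del
  rw [map_sum]
  refine Finset.sum_congr rfl fun i _ => ?_
  rw [map_zsmul]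
  by_cases h1 : (Γ.erase i).Nonempty
  · rw [hf _ h1 hΓ, h _ h1]
  · rw [WShC_zero M hc h1, WShC_zero M' hc' h1, map_zero, map_zero, map_zero]

theorem ASy.ac_congr (M : ASy.{u} ι) (M' : ASy.{v} ι) (f : ∀ Γ : Finset ι, Γ.Nonempty → (M.N Γ ≃+ M'.N Γ))
    (hf : ∀ {Γ Δ : Finset ι} (h : Γ ⊆ Δ) (hΓ : Γ.Nonempty) (hΔ : Δ.Nonempty) (x : M.N Γ),
      f Δ hΔ (M.ρ h x) = M'.ρ h (f Γ hΓ x)) (S : Sgn ι) {T : Finset ι}
    (h : M.Ac S T) : M'.Ac S T := by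
  classical
  intro j c' hc0 hcs hcd
  obtain ⟨c, hc⟩ : ∃ c : ∀ Γ, M.N Γ, ∀ Γ, c Γ = if hΓ : Γ.Nonempty then (f Γ hΓ).symm (c' Γ) else 0 :=
    ⟨fun Γ => if hΓ : Γ.Nonempty then (f Γ hΓ).symm (c' Γ) else 0, fun Γ => rfl⟩
  have h1 : ∀ Γ hΓ, f Γ hΓ (c Γ) = c' Γ := fun Γ hΓ => by
    rw [hc, dif_pos hΓ, AddEquiv.apply_symm_apply]
  have h2 : c ∅ = 0 := by
    rw [hc, dif_neg Finset.not_nonempty_empty]
  obtain ⟨b, hb0, hbs, hbd⟩ := h j c h2 (fun Γ hΓ => by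
    rw [hc]
    split_ifs with h3
    · rw [hcs Γ hΓ, map_zero]
    · rfl) (fun Γ hΓ => by
    by_cases h3 : Γ.Nonempty
    · refine (f Γ h3).injective ?_
      rw [WShC_del M M' f hf S h2 hc0 h1 Γ h3, hcd Γ hΓ, map_zero]
    · have h4 := Finset.not_nonempty_iff_eq_empty.1 h3
      subst h4
      rfl)
  obtain ⟨b', hb'⟩ : ∃ b' : ∀ Γ, M'.N Γ, ∀ Γ, b' Γ = if hΓ : Γ.Nonempty then f Γ hΓ (b Γ) else 0 :=
    ⟨fun Γ => if hΓ : Γ.Nonempty then f Γ hΓ (b Γ) else 0, fun Γ => rfl⟩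
  have h5 : b' ∅ = 0 := by
    rw [hb', dif_neg Finset.not_nonempty_empty]
  refine ⟨b', h5, fun Γ hΓ => ?_, fun Γ hΓ => ?_⟩
  · rw [hb']
    split_ifs with h3
    · rw [hbs Γ hΓ, map_zero]
    · rfl
  · by_cases h3 : Γ.Nonempty
    · rw [← WShC_del M M' f hf S hb0 h5 (fun Γ hΓ => by rw [hb', dif_pos hΓ]) Γ h3, hbd Γ hΓ, h1]
    · have h4 := Finset.not_nonempty_iff_eq_empty.1 h3
      subst h4
      rw [hc0]
      rfl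

end MPadcDC
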