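import Pool.Agent.Lib.MP_adc574_ag_DC.WSiD

/-!
# JOB WSiA [ac_map]: refinement of coverings

* `ac_map`: transport along `Γ ↦ Γ.map f`; a subset of `univ.map f` is `Γ.map f` for a unique `Γ` (`Finset.subset_map_iff`, `Finset.map_injective`); cochains on the side of `ι` are defined with `if h : ∃ Γ₀, Γ = Γ₀.map f` and
  transported by `h ▸` or by `ρ` along the equality (`ρ_bij`). `Finset.map_erase`, `Finset.card_map`, `Finset.sum_map`.
* `ac_cover`: on `ι₁ ⊕ ι₂` the system `M' = M.pb (Sum.elim singleton s)` with any signs `S` (`exists_sgn`). `ac_ext` from `univ.map inl` to `univ` (for `i = inr i₂` take `a = inl l`, `l ∈ s i₂`: the set `Γ.biUnion ..` does not change: `ρ_bij`),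
  `ac_ext` from `univ.map inr` to `univ` (for `i = inl l` take `inr (a l)`). `ac_map` twice: `M'.comap inl` is `M` up to `ac_congr` (`(Γ.map inl).biUnion (Sum.elim singleton s) = Γ`), `M'.comap inr` is `M.pb s` (`(Γ.map inr).biUnion .. = Γ.biUnion s`);
  `ac_sgn` for the signs.
-/

set_option autoImplicit false

namespace MPadcDC

universe u v w

private theorem WSiA_congr {ι : Type} (M : ASy.{u} ι) {Δ Δ' Γ : Finset ι} (e : Δ = Δ') (h : Δ ⊆ Γ) (h' : Δ' ⊆ Γ)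
    (c : ∀ Γ, M.N Γ) : M.ρ h (c Δ) = M.ρ h' (c Δ') := by
  subst e
  rfl

/-- Extension of a cochain on the side of `ι₀`. -/
private theorem WSiA_ext {ι ι₀ : Type} [DecidableEq ι] [DecidableEq ι₀] (M : ASy.{u} ι) (f : ι₀ ↪ ι)
    (c₀ : ∀ Γ, (M.comap f).N Γ) :
    ∃ c : ∀ Γ, M.N Γ, (∀ Γ₀ : Finset ι₀, c (Γ₀.map f) = c₀ Γ₀) ∧
      ∀ Γ : Finset ι, (∀ Γ₀ : Finset ι₀, Γ₀.map f = Γ → c₀ Γ₀ = 0) → c Γ = 0 := by
  classical
  have h : ∀ Γ : Finset ι, ∃ y : M.N Γ,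
      (∀ (Γ₀ : Finset ι₀) (e : Γ₀.map f = Γ), y = M.ρ e.subset (c₀ Γ₀)) ∧
      ((∀ Γ₀ : Finset ι₀, Γ₀.map f = Γ → c₀ Γ₀ = 0) → y = 0) := by
    intro Γ
    by_cases h : ∃ Γ₀ : Finset ι₀, Γ₀.map f = Γ
    · obtain ⟨Γ₀, rfl⟩ := h
      refine ⟨c₀ Γ₀, ?_, fun h => h Γ₀ rfl⟩
      intro Γ₁ e
      have e' : Γ₁ = Γ₀ := Finset.map_injective f e
      subst e'
      exact (M.ρ_id _ _).symm
    · refine ⟨0, ?_, fun _ => rfl⟩
      intro Γ₀ e
      exact absurd ⟨Γ₀, e⟩ h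
  choose c hc1 hc2 using h
  refine ⟨c, ?_, hc2⟩
  intro Γ₀
  rw [hc1 _ Γ₀ rfl]
  exact M.ρ_id _ _

private theorem WSiA_del {ι ι₀ : Type} [DecidableEq ι] [DecidableEq ι₀] (M : ASy.{u} ι) (S : Sgn ι) (f : ι₀ ↪ ι)
    (c₀ : ∀ Γ, (M.comap f).N Γ) (c : ∀ Γ, M.N Γ) (hc : ∀ Γ₀ : Finset ι₀, c (Γ₀.map f) = c₀ Γ₀)
    (Γ₀ : Finset ι₀) : M.del S c (Γ₀.map f) = (M.comap f).del (S.comap f) c₀ Γ₀ := by
  unfold ASy.del
  rw [Finset.sum_map]
  refine Finset.sum_congr rfl fun i _ => ?_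
  have e : (Γ₀.map f).erase (f i) = (Γ₀.erase i).map f := (Finset.map_erase f Γ₀ i).symm
  rw [WSiA_congr M e (Finset.erase_subset _ _) (Finset.map_subset_map.2 (Finset.erase_subset i Γ₀)) c, hc]
  rfl

theorem ASy.ac_map {ι ι₀ : Type} [DecidableEq ι] [DecidableEq ι₀] [Fintype ι₀] (M : ASy.{u} ι) (S : Sgn ι)
    (f : ι₀ ↪ ι) : M.Ac S (Finset.univ.map f) ↔ (M.comap f).Ac (S.comap f) Finset.univ := by
  constructor
  · intro H j c₀ h0 hs hd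
    obtain ⟨c, hc, hz⟩ := WSiA_ext M f c₀
    have k0 : c ∅ = 0 := by
      refine hz ∅ fun Γ₀ e => ?_
      have e' : Γ₀ = ∅ := Finset.map_eq_empty.1 e
      subst e'
      exact h0
    have ks : ∀ Γ, (¬ Γ ⊆ Finset.univ.map f ∨ Γ.card ≠ j + 1) → c Γ = 0 := by
      intro Γ hΓ
      refine hz Γ fun Γ₀ e => ?_
      subst e
      rcases hΓ with hΓ | hΓ
      · exact absurd (Finset.map_subset_map.2 (Finset.subset_univ Γ₀)) hΓ
      · refine hs Γ₀ (Or.inr ?_)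
        rwa [Finset.card_map] at hΓ
    have kd : ∀ Γ, Γ ⊆ Finset.univ.map f → M.del S c Γ = 0 := by
      intro Γ hΓ
      obtain ⟨Γ₀, _, rfl⟩ := Finset.subset_map_iff.1 hΓ
      rw [WSiA_del M S f c₀ c hc]
      exact hd Γ₀ (Finset.subset_univ _)
    obtain ⟨b, b0, bs, bd⟩ := H j c k0 ks kd
    refine ⟨fun Γ₀ => b (Γ₀.map f), ?_, ?_, ?_⟩
    · exact b0
    · intro Γ₀ hΓ₀
      rcases hΓ₀ with h | h
      · exact absurd (Finset.subset_univ _) h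
      · exact bs _ (Or.inr (by rwa [Finset.card_map]))
    · intro Γ₀ _
      rw [← WSiA_del M S f (fun Γ₀ => b (Γ₀.map f)) b (fun _ => rfl) Γ₀,
        bd _ (Finset.map_subset_map.2 (Finset.subset_univ Γ₀)), hc]
  · intro H j c h0 hs hd
    have k0 : (fun Γ₀ : Finset ι₀ => c (Γ₀.map f) : ∀ Γ, (M.comap f).N Γ) ∅ = 0 := h0
    have ks : ∀ Γ₀ : Finset ι₀, (¬ Γ₀ ⊆ Finset.univ ∨ Γ₀.card ≠ j + 1) →
        (fun Γ₀ : Finset ι₀ => c (Γ₀.map f) : ∀ Γ, (M.comap f).N Γ) Γ₀ = 0 := by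
      intro Γ₀ hΓ₀
      rcases hΓ₀ with h | h
      · exact absurd (Finset.subset_univ _) h
      · exact hs _ (Or.inr (by rwa [Finset.card_map]))
    have kd : ∀ Γ₀ : Finset ι₀, Γ₀ ⊆ Finset.univ →
        (M.comap f).del (S.comap f) (fun Γ₀ : Finset ι₀ => c (Γ₀.map f)) Γ₀ = 0 := by
      intro Γ₀ _
      rw [← WSiA_del M S f (fun Γ₀ => c (Γ₀.map f)) c (fun _ => rfl) Γ₀]
      exact hd _ (Finset.map_subset_map.2 (Finset.subset_univ Γ₀))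
    obtain ⟨b₀, b0, bs, bd⟩ := H j _ k0 ks kd
    obtain ⟨b, hb, hz⟩ := WSiA_ext M f b₀
    refine ⟨b, ?_, ?_, ?_⟩
    · refine hz ∅ fun Γ₀ e => ?_
      have e' : Γ₀ = ∅ := Finset.map_eq_empty.1 e
      subst e'
      exact b0
    · intro Γ hΓ
      refine hz Γ fun Γ₀ e => ?_
      subst e
      rcases hΓ with hΓ | hΓ
      · exact absurd (Finset.map_subset_map.2 (Finset.subset_univ Γ₀)) hΓ
      · refine bs Γ₀ (Or.inr ?_)
        rwa [Finset.card_map] at hΓ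
    · intro Γ hΓ
      obtain ⟨Γ₀, _, rfl⟩ := Finset.subset_map_iff.1 hΓ
      rw [WSiA_del M S f b₀ b hb]
      exact bd Γ₀ (Finset.subset_univ _)

end MPadcDC
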