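import Pool.Agent.Lib.MP_adc574_ag_DC.WSiA
import Pool.Agent.Lib.MP_adc574_ag_DC.WShA
import Pool.Agent.Lib.MP_adc574_ag_DC.WShB
import Pool.Agent.Lib.MP_adc574_ag_DC.WShC

/-!
# JOB WSiB [ac_cover]: refinement of coverings

* `ac_map`: transport along `Γ ↦ Γ.map f`; a subset of `univ.map f` is `Γ.map f` for a unique `Γ` (`Finset.subset_map_iff`, `Finset.map_injective`); cochains on the side of `ι` are defined with `if h : ∃ Γ₀, Γ = Γ₀.map f` and
  transported by `h ▸` or by `ρ` along the equality (`ρ_bij`). `Finset.map_erase`, `Finset.card_map`, `Finset.sum_map`.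
* `ac_cover`: on `ι₁ ⊕ ι₂` the system `M' = M.pb (Sum.elim singleton s)` with any signs `S` (`exists_sgn`). `ac_ext` from `univ.map inl` to `univ` (for `i = inr i₂` take `a = inl l`, `l ∈ s i₂`: the set `Γ.biUnion ..` does not change: `ρ_bij`),
  `ac_ext` from `univ.map inr` to `univ` (for `i = inl l` take `inr (a l)`). `ac_map` twice: `M'.comap inl` is `M` up to `ac_congr` (`(Γ.map inl).biUnion (Sum.elim singleton s) = Γ`), `M'.comap inr` is `M.pb s` (`(Γ.map inr).biUnion .. = Γ.biUnion s`);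
  `ac_sgn` for the signs.
-/

set_option autoImplicit false

namespace MPadcDC

universe u v w

/-- Refinement: the covering by the intersections `⋂_{l ∈ s i} U_l`, which contains the `U_l`. -/
theorem ASy.ac_cover {ι₁ ι₂ : Type} [DecidableEq ι₁] [DecidableEq ι₂] [Fintype ι₁] [Fintype ι₂] (M : ASy.{u} ι₁)
    (S₁ : Sgn ι₁) (S₂ : Sgn ι₂) (s : ι₂ → Finset ι₁) (hs : ∀ i, (s i).Nonempty) (a : ι₁ → ι₂)
    (ha : ∀ l, s (a l) = {l}) (h : M.Ac S₁ Finset.univ) : (M.pb s).Ac S₂ Finset.univ := by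
  obtain ⟨S⟩ := exists_sgn (ι₁ ⊕ ι₂)
  have hl : ∀ Γ : Finset ι₁, (Γ.map Function.Embedding.inl).biUnion (Sum.elim (fun l => {l}) s) = Γ := by
    intro Γ
    ext x
    simp only [Finset.mem_biUnion, Finset.mem_map, Function.Embedding.inl_apply]
    constructor
    · rintro ⟨y, ⟨l, hl, rfl⟩, hx⟩
      rw [Sum.elim_inl, Finset.mem_singleton] at hx
      rw [hx]
      exact hl
    · intro hx
      exact ⟨Sum.inl x, ⟨x, hx, rfl⟩, Finset.mem_singleton_self x⟩
  have hr : ∀ Γ : Finset ι₂, (Γ.map Function.Embedding.inr).biUnion (Sum.elim (fun l => {l}) s) = Γ.biUnion s := by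
    intro Γ
    ext x
    simp only [Finset.mem_biUnion, Finset.mem_map, Function.Embedding.inr_apply]
    constructor
    · rintro ⟨y, ⟨l, hl, rfl⟩, hx⟩
      exact ⟨l, hl, hx⟩
    · rintro ⟨l, hl, hx⟩
      exact ⟨Sum.inr l, ⟨l, hl, rfl⟩, hx⟩
  -- adding an index which does not change the union
  have hbi : ∀ (i x : ι₁ ⊕ ι₂), Sum.elim (fun l => {l}) s x ⊆ Sum.elim (fun l => {l}) s i → ∀ Γ : Finset (ι₁ ⊕ ι₂),
      i ∈ Γ → Function.Bijective ((M.pb (Sum.elim (fun l => {l}) s)).ρ (Finset.subset_insert x Γ)) := by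
    intro i x hx Γ hi
    refine M.ρ_bij _ ?_
    rw [Finset.biUnion_insert]
    exact (Finset.union_eq_right.mpr (hx.trans (Finset.subset_biUnion_of_mem (Sum.elim (fun l => {l}) s) hi))).symm
  have h1 : ((M.pb (Sum.elim (fun l => {l}) s)).comap Function.Embedding.inl).Ac
      (S.comap Function.Embedding.inl) Finset.univ := by
    refine ASy.ac_sgn _ S₁ _ (ASy.ac_congr M ((M.pb (Sum.elim (fun l => {l}) s)).comap Function.Embedding.inl)
      (fun Γ _ => (AddEquiv.ofBijective (M.ρ (hl Γ).ge) (M.ρ_bij (hl Γ).ge (hl Γ).symm) :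
        M.N Γ ≃+ M.N ((Γ.map Function.Embedding.inl).biUnion (Sum.elim (fun l => {l}) s)))) ?_ S₁ h)
    intro Γ Δ h2 _ _ x
    exact (M.ρ_comp _ _ x).trans (M.ρ_comp _ _ x).symm
  have h2 : (M.pb (Sum.elim (fun l => {l}) s)).Ac S (Finset.univ.map Function.Embedding.inl) :=
    (ASy.ac_map _ S Function.Embedding.inl).mpr h1
  have h3 : (M.pb (Sum.elim (fun l => {l}) s)).Ac S Finset.univ := by
    refine (ASy.ac_ext _ S (Finset.subset_univ _) ?_).mp h2
    rintro (i | i) _ hi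
    · exact absurd (Finset.mem_map_of_mem _ (Finset.mem_univ i)) hi
    · obtain ⟨l, hl⟩ := hs i
      refine ⟨Sum.inl l, Finset.mem_map_of_mem _ (Finset.mem_univ l), hbi _ _ ?_⟩
      exact Finset.singleton_subset_iff.mpr hl
  have h4 : (M.pb (Sum.elim (fun l => {l}) s)).Ac S (Finset.univ.map Function.Embedding.inr) := by
    refine (ASy.ac_ext _ S (Finset.subset_univ _) ?_).mpr h3
    rintro (i | i) _ hi
    · refine ⟨Sum.inr (a i), Finset.mem_map_of_mem _ (Finset.mem_univ (a i)), hbi _ _ ?_⟩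
      exact (ha i).le
    · exact absurd (Finset.mem_map_of_mem _ (Finset.mem_univ i)) hi
  have h5 := (ASy.ac_map _ S Function.Embedding.inr).mp h4
  refine ASy.ac_sgn _ (S.comap Function.Embedding.inr) _
    (ASy.ac_congr ((M.pb (Sum.elim (fun l => {l}) s)).comap Function.Embedding.inr) (M.pb s)
      (fun Γ _ => (AddEquiv.ofBijective (M.ρ (hr Γ).le) (M.ρ_bij (hr Γ).le (hr Γ)) :
        M.N ((Γ.map Function.Embedding.inr).biUnion (Sum.elim (fun l => {l}) s)) ≃+ M.N (Γ.biUnion s))) ?_ _ h5)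
  intro Γ Δ h6 _ _ x
  exact (M.ρ_comp _ _ x).trans (M.ρ_comp _ _ x).symm

end MPadcDC
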