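import Pool.Agent.Lib.MP_adc574_ag_DC.WSgD

/-!
# Pull-backs of systems: definitions
-/

set_option autoImplicit false

namespace MPadcDC

universe u v w

/-- The signs pulled back along an injection. -/
def Sgn.comap {ι ι₀ : Type} [DecidableEq ι] [DecidableEq ι₀] (S : Sgn ι) (f : ι₀ ↪ ι) : Sgn ι₀ where
  s i Γ := S.s (f i) (Γ.map f)
  sq i Γ := S.sq _ _
  anti {i j Γ} hi hj hij := by
    rw [Finset.map_erase, Finset.map_erase]
    exact S.anti (Finset.mem_map_of_mem f hi) (Finset.mem_map_of_mem f hj) (f.injective.ne hij)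

/-- The system pulled back along an injection. -/
def ASy.comap {ι ι₀ : Type} (M : ASy.{u} ι) (f : ι₀ ↪ ι) : ASy.{u} ι₀ where
  N Γ := M.N (Γ.map f)
  ρ h := M.ρ (Finset.map_subset_map.2 h)
  ρ_id Γ x := M.ρ_id _ x
  ρ_comp _ _ x := M.ρ_comp _ _ x

/-- The system of the intersections: `Γ ↦ ⋃ s i`, `i ∈ Γ`. -/
def ASy.pb {ι₁ ι₂ : Type} [DecidableEq ι₁] (M : ASy.{u} ι₁) (s : ι₂ → Finset ι₁) : ASy.{u} ι₂ where
  N Γ := M.N (Γ.biUnion s)
  ρ h := M.ρ (Finset.biUnion_subset_biUnion_of_subset_left s h)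
  ρ_id Γ x := M.ρ_id _ x
  ρ_comp _ _ x := M.ρ_comp _ _ x

end MPadcDC
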