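import Pool.Agent.Lib.MP_adc574_ag_DC.WSgD
import Pool.Agent.Lib.MP_adc574_ag_GP.Lit

/-!
# JOB WVd [rs_exact bk_iff_ac]: the exact forms as a system of groups

* `rs_exact`: `ω = dd η`, `rs_dd`, `rs_mem` (`mem_exactForms`, GP/ClD.lean; here by unfolding: `Submodule.mem_map`).
* `bk_iff_ac`: unfold; `del` of `exS` is `X.del` in `X.E J` (`exv_inj`, `map_sum`, `exv_ρ`, `ev_of`); the component at `∅` of `del` is `0` (empty sum).
-/

set_option autoImplicit false

namespace MPadcDC

open MvPolynomial MPadcGP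

universe u v w

/-- The signs `sg`. -/
def sgF (n : ℕ) : Sgn (Fin n) where
  s := sg
  sq := sg_sq
  anti := sg_sg

section

variable {A : Type u} [CommRing A] {n : ℕ} (X : CovD.{u, v} A n)

theorem rs_exact {q : ℕ} {J K : Finset (Fin n)} (h : J ⊆ K) {ω : X.E J} (hω : ω ∈ exactForms A (X.R J) q) :
    X.rs h ω ∈ exactForms A (X.R K) q := by
  have h1 : ∃ f ∈ Fd A (X.R J) q, dd A f = ω := hω
  obtain ⟨f, hf, rfl⟩ := h1
  have h2 : ∃ g ∈ Fd A (X.R K) q, dd A g = X.rs h (dd A f) := ⟨X.rs h f, CovD.rs_mem h hf, (CovD.rs_dd h f).symm⟩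
  exact h2

/-- The exact forms of degree `q + 1`. -/
noncomputable def exS (q : ℕ) : ASy.{v} (Fin n) where
  N J := ↥(exactForms A (X.R J) q)
  ρ h :=
    { toFun := fun x => ⟨X.rs h x.1, rs_exact X h x.2⟩
      map_zero' := Subtype.ext (map_zero (X.rs h))
      map_add' := fun x y => Subtype.ext (map_add (X.rs h) x.1 y.1) }
  ρ_id J x := Subtype.ext (CovD.rs_id J _ x.1)
  ρ_comp h h' x := Subtype.ext (CovD.rs_rs h h' x.1)

/-- The underlying form. -/
noncomputable def exv {q : ℕ} {J : Finset (Fin n)} : (exS X q).N J →+ X.E J :=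
  (exactForms A (X.R J) q).subtype.toAddMonoidHom

theorem exv_ρ {q : ℕ} {J K : Finset (Fin n)} (h : J ⊆ K) (x : (exS X q).N J) :
    exv X ((exS X q).ρ h x) = X.rs h (exv X x) := rfl

theorem exv_inj {q : ℕ} {J : Finset (Fin n)} {x y : (exS X q).N J} (h : exv X x = exv X y) : x = y := Subtype.ext h

theorem exv_mem {q : ℕ} {J : Finset (Fin n)} (x : (exS X q).N J) : exv X x ∈ exactForms A (X.R J) q := x.2

theorem exists_exv {q : ℕ} {J : Finset (Fin n)} {ω : X.E J} (h : ω ∈ exactForms A (X.R J) q) :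
    ∃ x : (exS X q).N J, exv X x = ω := ⟨⟨ω, h⟩, rfl⟩

private theorem WVd_del {q : ℕ} (c : ∀ J, (exS X q).N J) (J : Finset (Fin n)) :
    exv X ((exS X q).del (sgF n) c J) = X.del (fun J => exv X (c J)) J := by
  rw [CovD.del_apply]
  unfold ASy.del
  rw [map_sum]
  refine Finset.sum_congr rfl fun i _ => ?_
  rw [map_zsmul, exv_ρ, CovD.ev_of (Finset.erase_subset i J)]
  rfl

theorem bk_iff_ac : X.IsBlochKatoOrdinary ↔ ∀ q, (exS X q).Ac (sgF n) Finset.univ := by
  constructor
  · intro h q j c h0 h1 h2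
    obtain ⟨b, hb, hb0, hbd⟩ := h q j (fun J => exv X (c J))
      ⟨by
        beta_reduce
        rw [h0, map_zero], fun J => ⟨exv_mem X (c J), fun hJ => by
        beta_reduce
        rw [h1 J (Or.inr hJ), map_zero]⟩⟩
      (by
        funext J
        rw [← WVd_del, h2 J (Finset.subset_univ J), map_zero]
        rfl)
    choose b' hb' using fun J => exists_exv X (hb J).1
    refine ⟨b', ?_, fun J hJ => ?_, fun J _ => ?_⟩
    · apply exv_inj
      rw [hb', hb0, map_zero]
    · rcases hJ with hJ | hJ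
      · exact absurd (Finset.subset_univ J) hJ
      · apply exv_inj
        rw [hb', (hb J).2 hJ, map_zero]
    · apply exv_inj
      have h3 : (fun J => exv X (b' J)) = b := funext hb'
      rw [WVd_del, h3, hbd]
  · intro h q j c hc hd
    choose c' hc' using fun J => exists_exv X (hc.2 J).1
    have h3 : (fun J => exv X (c' J)) = c := funext hc'
    obtain ⟨b, hb0, hb, hbd⟩ := h q j c'
      (by
        apply exv_inj
        rw [hc', hc.1, map_zero])
      (fun J hJ => by
        rcases hJ with hJ | hJ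
        · exact absurd (Finset.subset_univ J) hJ
        · apply exv_inj
          rw [hc', (hc.2 J).2 hJ, map_zero])
      (fun J _ => by
        apply exv_inj
        rw [WVd_del, h3, hd, map_zero]
        rfl)
    refine ⟨fun J => exv X (b J), fun J => ⟨exv_mem X (b J), fun hJ => ?_⟩, ?_, ?_⟩
    · beta_reduce
      rw [hb J (Or.inr hJ), map_zero]
    · beta_reduce
      rw [hb0, map_zero]
    · funext J
      rw [← WVd_del, hbd J (Finset.subset_univ J), hc']

end

end MPadcDC
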