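import Pool.Agent.Lib.MP_adc574_ag_DC.WVeB

/-!
# JOB WVeC [bI_ver] (uses WVeA, WVeB): the ideal of the Veronese embedding

`ver I d = I.comap vm`, `vm : y_i ↦ x ^ (mono n d i)`.
* `vm_homog`: `vm` maps forms of degree `D` to forms of degree `d D` (`IsHomogeneous.aeval` / `IsHomogeneous.prod`, or by monomials); so `vm (homogeneousComponent D G) = homogeneousComponent (d D) (vm G)` for `1 ≤ d`.
* `vm_surj`: every form of degree `d D` is in the range of `vm` on the forms of degree `D` (a monomial of degree `d D` is a product of `D` monomials of degree `d`: induction on `D`, `exists_mono`; for a monomial of degree `≥ d` there is a divisor of degree `d`).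
* `vm_ker`: (for `bI_ver`) if `vm G = 0` over `B`, then `G` is a `B`-combination of differences `y ^ α - y ^ β` with `vm (y ^ α) = vm (y ^ β)`: group the monomials of `G` by their image; so `G ∈ bI φ (ver I d)`: `y ^ α - y ^ β ∈ ver I d`.
* `bI_ver`: `≤`: `vm` commutes with `MvPolynomial.map φ`. `≥`: let `G` be homogeneous of degree `D` (`IsHomog` of both sides) with `vm G ∈ bI φ I`, a form of degree `d D`. `bI φ I` is spanned over `B` by the `map φ f`, `f ∈ I`; taking the homogeneous components
  (`hI`), `vm G = ∑ b_t • map φ f_t` with `f_t ∈ I` forms of degree `d D`; `f_t = vm G_t` (`vm_surj` over `A`), `G_t ∈ ver I d`; `G - ∑ b_t • map φ G_t` is in the kernel of `vm`: `vm_ker`.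
-/

set_option autoImplicit false

namespace MPadcDC

open MvPolynomial MPadcGP

universe u v w

section

variable {A : Type u} [CommRing A] {n : ℕ}

theorem wvec_vm_map {B : Type v} [CommRing B] (φ : A →+* B) (d : ℕ) (G : MvPolynomial (Fin (Fintype.card (Mon n d))) A) :
    vm B n d (MvPolynomial.map φ G) = MvPolynomial.map φ (vm A n d G) := by
  induction G using MvPolynomial.induction_on with
  | C a =>
    rw [map_C]
    unfold vm
    rw [aeval_C, aeval_C, MvPolynomial.algebraMap_eq, MvPolynomial.algebraMap_eq, map_C]
  | add p q hp hq => rw [map_add, map_add, hp, hq, map_add, map_add]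
  | mul_X p i hp =>
    rw [map_mul, map_mul, hp, map_X, map_mul, map_mul, vm_X, vm_X, map_monomial, map_one φ]

theorem wvec_vm_monomial (d : ℕ) (α : Fin (Fintype.card (Mon n d)) →₀ ℕ) :
    vm A n d (monomial α 1) = monomial (∑ i, α i • mono n d i) 1 := by
  unfold vm
  rw [aeval_monomial, map_one, one_mul, Finsupp.prod_fintype _ _ fun i => pow_zero _, monomial_sum_one]
  refine Finset.prod_congr rfl fun i _ => ?_
  rw [monomial_pow, one_pow]

/-- The components of the elements of `bI φ I`. -/
theorem wvec_span {B : Type v} [CommRing B] (φ : A →+* B) {I : Ideal (MvPolynomial (Fin n) A)} (hI : IsHomog I)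
    {f : MvPolynomial (Fin n) B} (hf : f ∈ bI φ I) (E : ℕ) :
    homogeneousComponent E f ∈ Submodule.span B {g | ∃ f₀ ∈ I, f₀.IsHomogeneous E ∧ g = MvPolynomial.map φ f₀} := by
  have h1 : f ∈ Submodule.span B {g : MvPolynomial (Fin n) B | ∃ f₀ ∈ I, g = MvPolynomial.map φ f₀} := by
    have hmul : ∀ (p x : MvPolynomial (Fin n) B),
        x ∈ Submodule.span B {g : MvPolynomial (Fin n) B | ∃ f₀ ∈ I, g = MvPolynomial.map φ f₀} →
        p * x ∈ Submodule.span B {g : MvPolynomial (Fin n) B | ∃ f₀ ∈ I, g = MvPolynomial.map φ f₀} := by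
      intro p x hx
      induction p using MvPolynomial.induction_on generalizing x with
      | C b =>
        rw [← smul_eq_C_mul]
        exact Submodule.smul_mem _ b hx
      | add p q hp hq =>
        rw [add_mul]
        exact Submodule.add_mem _ (hp x hx) (hq x hx)
      | mul_X p i hp =>
        rw [mul_assoc]
        refine hp _ ?_
        clear hp
        induction hx using Submodule.span_induction with
        | mem x hx =>
          obtain ⟨f₀, h0, rfl⟩ := hx
          refine Submodule.subset_span ⟨X i * f₀, Ideal.mul_mem_left _ _ h0, ?_⟩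
          rw [map_mul, map_X]
        | zero =>
          rw [mul_zero]
          exact Submodule.zero_mem _
        | add x y _ _ hx hy =>
          rw [mul_add]
          exact Submodule.add_mem _ hx hy
        | smul c x _ hx =>
          rw [mul_smul_comm]
          exact Submodule.smul_mem _ c hx
    induction hf using Submodule.span_induction with
    | mem x hx =>
      obtain ⟨g, hg, rfl⟩ := hx
      exact Submodule.subset_span ⟨g, hg, rfl⟩
    | zero => exact Submodule.zero_mem _
    | add x y _ _ hx hy => exact Submodule.add_mem _ hx hy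
    | smul a x _ hx =>
      rw [smul_eq_mul]
      exact hmul a x hx
  clear hf
  induction h1 using Submodule.span_induction with
  | mem x hx =>
    obtain ⟨g, hg, rfl⟩ := hx
    rw [homogeneousComponent_map]
    exact Submodule.subset_span ⟨_, hI g hg E, homogeneousComponent_isHomogeneous E g, rfl⟩
  | zero =>
    rw [map_zero]
    exact Submodule.zero_mem _
  | add x y _ _ hx hy =>
    rw [map_add]
    exact Submodule.add_mem _ hx hy
  | smul c x _ hx =>
    rw [map_smul]
    exact Submodule.smul_mem _ c hx

theorem bI_ver {B : Type v} [CommRing B] (φ : A →+* B) {I : Ideal (MvPolynomial (Fin n) A)} (hI : IsHomog I)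
    {d : ℕ} (hd : 1 ≤ d) : bI φ (ver I d) = ver (bI φ I) d := by
  refine le_antisymm ?_ ?_
  · refine Ideal.map_le_iff_le_comap.2 fun G hG => ?_
    rw [Ideal.mem_comap, mem_ver, wvec_vm_map]
    exact bI_mem φ I _ (mem_ver.1 hG)
  · -- the homogeneous case
    have hhom : ∀ (D : ℕ) (G : MvPolynomial (Fin (Fintype.card (Mon n d))) B), G.IsHomogeneous D →
        G ∈ ver (bI φ I) d → G ∈ bI φ (ver I d) := by
      intro D G hGD hG
      rw [mem_ver] at hG
      have h1 := wvec_span φ hI hG (d * D)
      have h2 : homogeneousComponent (d * D) (vm B n d G) = vm B n d G :=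
        (homogeneousComponent_of_mem (vm_homog hGD)).trans (if_pos rfl)
      rw [h2] at h1
      have h3 : ∃ G' ∈ bI φ (ver I d), vm B n d G' = vm B n d G := by
        refine Submodule.span_induction (p := fun f _ => ∃ G' ∈ bI φ (ver I d), vm B n d G' = f)
          ?_ ?_ ?_ ?_ h1
        · rintro x ⟨f₀, hf₀, hd₀, rfl⟩
          obtain ⟨G₀, -, hG₀⟩ := vm_surj hd₀
          refine ⟨MvPolynomial.map φ G₀, bI_mem φ _ _ ?_, ?_⟩
          · rw [mem_ver, hG₀]
            exact hf₀
          · rw [wvec_vm_map, hG₀]
        · exact ⟨0, Ideal.zero_mem _, map_zero _⟩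
        · rintro x y _ _ ⟨G₁, h4, h5⟩ ⟨G₂, h6, h7⟩
          exact ⟨G₁ + G₂, Ideal.add_mem _ h4 h6, by rw [map_add, h5, h7]⟩
        · rintro c x _ ⟨G₁, h4, h5⟩
          refine ⟨C c * G₁, Ideal.mul_mem_left _ _ h4, ?_⟩
          rw [← smul_eq_C_mul, map_smul, h5]
      obtain ⟨G', hG', h4⟩ := h3
      have h5 : vm B n d (G - G') = 0 := by rw [map_sub, h4, sub_self]
      have h6 : G - G' ∈ bI φ (ver I d) := by
        refine Submodule.span_induction (p := fun f _ => f ∈ bI φ (ver I d)) ?_ ?_ ?_ ?_ (vm_ker h5)
        · rintro x ⟨α, β, hαβ, rfl⟩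
          have h7 : (monomial α (1 : B) - monomial β 1) =
              MvPolynomial.map φ (monomial α (1 : A) - monomial β 1) := by
            rw [map_sub, map_monomial, map_monomial, map_one φ]
          rw [h7]
          refine bI_mem φ _ _ ?_
          have h8 : (∑ i, α i • mono n d i) = ∑ i, β i • mono n d i := by
            ext l
            rw [Finsupp.finsetSum_apply, Finsupp.finsetSum_apply]
            exact hαβ l
          rw [mem_ver, map_sub, wvec_vm_monomial, wvec_vm_monomial, h8, sub_self]
          exact Ideal.zero_mem _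
        · exact Ideal.zero_mem _
        · intro x y _ _ hx hy
          exact Ideal.add_mem _ hx hy
        · intro c x _ hx
          rw [smul_eq_C_mul]
          exact Ideal.mul_mem_left _ _ hx
      have h7 := Ideal.add_mem _ h6 hG'
      rw [sub_add_cancel] at h7
      exact h7
    intro G hG
    rw [← sum_homogeneousComponent G]
    refine Ideal.sum_mem _ fun D _ => ?_
    exact hhom D _ (homogeneousComponent_isHomogeneous D G) (ver_homog (hI.map φ) hd G hG D)

end

end MPadcDC
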