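import Pool.Agent.Lib.MP_adc574_ag_DC.WVfB

/-!
# JOB WVfC [vc_tr]: the charts of the Veronese embedding

`mq K hl γ = ∏ (x_m / x_l) ^ γ_m = x ^ γ / x_l ^ |γ|`. `exists_vc`: `chart (ver I d) Γ ≅ chart I (sp Γ)`, `y_i / y_j ↦ x ^ (mono i) / x ^ (mono j)`.
* `mq_isUnit`: `cq_isUnit`, `IsUnit.pow`, product (`γ m = 0` or `m ∈ K`). `mq_change`: `cq m l' = cq m l * cq l l'` (`cq_mul`), `∏ a ^ γ_m = a ^ |γ|`. `mq_tr`: `tr_cq`.
* `exists_vc`: `g` by `exists_chart_lift` (base point `i₀ ∈ Γ`, `l₀` in the support of `mono i₀`; `d ≥ 1`), `z i = mq l₀ (mono i) * (mq l₀ (mono i₀))⁻¹`; relations: for `G ∈ ver I d` take the homogeneous components (`ver_homog`): `eval₂ _ z G = u ^ (-D) eval₂ _ (mq l₀ (mono ·)) G`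
  and `eval₂ _ (mq l₀ (mono ·)) G = eval₂ _ (cq · l₀) (vm G) = 0` (`eval₂_cq`). (Or: multiply `z` by the unit `u`; `eval₂ φ (u • z) G = u ^ D * eval₂ φ z G` for `G` homogeneous of degree `D`.)
  The inverse: `h : chart I (sp Γ) → chart (ver I d) Γ`, base point `l₀`, `x_m ↦ y_{γ₀ - e_{l₀} + e_m} / y_{i₀}` (`γ₀ = mono i₀`, `exists_mono`); relations: for `f ∈ I` homogeneous of degree `D`, `x ^ {D(γ₀ - e_{l₀})} f = vm G` with
  `G = f (y_{γ₀ - e_{l₀} + e_m})`, so `G ∈ ver I d` and `eval₂_cq`. Units: for `j ∈ sp Γ`, `j` in the support of `mono i`, `i ∈ Γ`: `(y_{γ₀ - e_{l₀} + e_j} / y_{i₀}) * (y_{γ_i - e_j + e_{l₀}} / y_{i₀}) = y_i / y_{i₀}` is a unit (a relation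
  `y_α y_β - y_γ y_δ ∈ ver I d` for `α + β = γ + δ`: `mem_ver`, `vm_X`, `monomial_mul`). Both compositions are the identity on the generators: `chart_hom_ext`.
* `exists_vc_tr`: `chart_hom_ext` for `tr ∘ vc` and `vc ∘ tr`, `vc_cq`, `mq_change`, `mq_tr`.
-/

set_option autoImplicit false

namespace MPadcDC

open MvPolynomial MPadcGP

universe u v w

section

variable {A : Type u} [CommRing A] {n : ℕ} {I : Ideal (MvPolynomial (Fin n) A)}

theorem vc_tr (hI : IsHomog I) {d : ℕ} (hd : 1 ≤ d) {Γ Δ : Finset (Fin (Fintype.card (Mon n d)))}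
    (h : Γ ⊆ Δ) (hΓ : Γ.Nonempty) (hΔ : Δ.Nonempty) (x : chart (ver I d) Γ) :
    vc hI hd hΔ (tr (ver I d) h x) = tr I (sp_mono h) (vc hI hd hΓ x) := by
  obtain ⟨l, hl⟩ := sp_nonempty hd hΓ
  obtain ⟨j, hj⟩ := id hΓ
  have hsup : (mono n d j).support ⊆ sp n d Δ :=
    (Finset.subset_biUnion_of_mem (fun i => (mono n d i).support) hj).trans (sp_mono h)
  have hl' : l ∈ sp n d Δ := sp_mono h hl
  have key : ((vc hI hd hΔ : chart (ver I d) Δ →ₐ[A] chart I (sp n d Δ)).comp (tr (ver I d) h)) =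
      (tr I (sp_mono h)).comp (vc hI hd hΓ : chart (ver I d) Γ →ₐ[A] chart I (sp n d Γ)) := by
    refine chart_hom_ext (ver I d) Γ hj fun i => ?_
    refine (mq_isUnit I hl' hsup).mul_right_cancel ?_
    have h1 : ((vc hI hd hΔ : chart (ver I d) Δ →ₐ[A] chart I (sp n d Δ)).comp (tr (ver I d) h))
        (cq (ver I d) Γ i hj) = vc hI hd hΔ (cq (ver I d) Δ i (h hj)) := by
      have h2 : ((vc hI hd hΔ : chart (ver I d) Δ →ₐ[A] chart I (sp n d Δ)).comp (tr (ver I d) h))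
        (cq (ver I d) Γ i hj) = vc hI hd hΔ (tr (ver I d) h (cq (ver I d) Γ i hj)) := rfl
      rw [h2, tr_cq]
    have h3 : ((tr I (sp_mono h)).comp (vc hI hd hΓ : chart (ver I d) Γ →ₐ[A] chart I (sp n d Γ)))
        (cq (ver I d) Γ i hj) = tr I (sp_mono h) (vc hI hd hΓ (cq (ver I d) Γ i hj)) := rfl
    have h4 := congrArg (tr I (sp_mono (d := d) h)) (vc_cq hI hd hΓ i j hj l hl)
    rw [map_mul, mq_tr, mq_tr] at h4
    rw [h1, vc_cq hI hd hΔ i j (h hj) l hl', h3]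
    exact h4.symm
  exact DFunLike.congr_fun key x

end

end MPadcDC
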