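import Pool.Agent.Lib.MP_adc574_ag_DC.WSiB
import Pool.Agent.Lib.MP_adc574_ag_DC.WVd
import Pool.Agent.Lib.MP_adc574_ag_DC.WVeC
import Pool.Agent.Lib.MP_adc574_ag_DC.WVfC
import Pool.Agent.Lib.MP_adc574_ag_DC.WVgA

/-!
# JOB WVgB [ver_bk ver_open]: the Veronese embedding preserves smoothness and ordinarity

* `ver_smooth`: `IsSmoothProj.smooth` (GP/Mod3.lean) for `sp n d {i}` (`sp_nonempty`), `Algebra.Smooth.of_equiv (vc ..).symm`.
* `ver_bk`: `bk_iff_ac`; `ASy.ac_cover` for `M = exS (prC I) q`, `s i = (mono n d i).support` (nonempty since `d ≥ 1`, `mono_deg`), `a l` := the index of `single l d` (`exists_mono`; its support is `{l}`), gives `Ac` for `M.pb s`, i.e. for the exact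
  forms on `chart I (sp n d Γ)` (`Γ.biUnion s = sp n d Γ` by `rfl`). `ASy.ac_congr` with the isomorphism `mp (vc ..)` (inverse `mp (vc ..).symm`; `mp_comp`, `mp_id` GP/DRm.lean; exact forms: `mp_dd`, `mp_mem`), compatible with the restrictions by `vc_tr`
  (`hom_ext'`/`mp_comp`: compare `rs_rs` in GP/Cov.lean).
* `ver_open`: the same `f`; `bI_ver`.
-/

set_option autoImplicit false

namespace MPadcDC

open MvPolynomial MPadcGP

universe u v w

section equiv

variable {A : Type u} [CommRing A] {R : Type v} [CommRing R] [Algebra A R] {S : Type w} [CommRing S] [Algebra A S]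

/-- the map of forms of an isomorphism -/
private noncomputable def WVgB_m (g : R ≃ₐ[A] S) : Fm A R →+* Fm A S :=
  mp ((g : R →ₐ[A] S) : R →+* S) (CC.of_algHom _)

private theorem WVgB_fz (g : R ≃ₐ[A] S) (r : R) : WVgB_m g (fz A r) = fz A (g r) := mp_fz _ _

private theorem WVgB_df (g : R ≃ₐ[A] S) (r : R) : WVgB_m g (df A r) = df A (g r) := mp_df _ _

private theorem WVgB_symm (g : R ≃ₐ[A] S) (e : Fm A R) : WVgB_m g.symm (WVgB_m g e) = e := by
  have h1 : (WVgB_m g.symm).comp (WVgB_m g) = RingHom.id (Fm A R) := hom_ext' (fun r => by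
    rw [RingHom.comp_apply, WVgB_fz, WVgB_fz, AlgEquiv.symm_apply_apply, RingHom.id_apply]) (fun t => by
    rw [RingHom.comp_apply, WVgB_df, WVgB_df, AlgEquiv.symm_apply_apply, RingHom.id_apply])
  rw [← RingHom.comp_apply, h1, RingHom.id_apply]

private theorem WVgB_symm' (g : R ≃ₐ[A] S) (e : Fm A S) : WVgB_m g (WVgB_m g.symm e) = e := by
  have h1 : (WVgB_m g).comp (WVgB_m g.symm) = RingHom.id (Fm A S) := hom_ext' (fun r => by
    rw [RingHom.comp_apply, WVgB_fz, WVgB_fz, AlgEquiv.apply_symm_apply, RingHom.id_apply]) (fun t => by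
    rw [RingHom.comp_apply, WVgB_df, WVgB_df, AlgEquiv.apply_symm_apply, RingHom.id_apply])
  rw [← RingHom.comp_apply, h1, RingHom.id_apply]

private theorem WVgB_exact (g : R ≃ₐ[A] S) {q : ℕ} {e : Fm A R} (he : e ∈ exactForms A R q) :
    WVgB_m g e ∈ exactForms A S q := by
  obtain ⟨f, hf, rfl⟩ := Submodule.mem_map.1 he
  refine Submodule.mem_map.2 ⟨WVgB_m g f, ?_, ?_⟩
  · exact mp_mem _ hf
  · rw [ddl_apply, ddl_apply]
    exact (mp_dd _ _).symm

private theorem WVgB_sq {R' : Type v} [CommRing R'] [Algebra A R'] {S' : Type w} [CommRing S'] [Algebra A S']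
    (g : R ≃ₐ[A] S) (g' : R' ≃ₐ[A] S') (φ : R →ₐ[A] R') (ψ : S →ₐ[A] S') (h : ∀ r, g' (φ r) = ψ (g r)) (e : Fm A R) :
    WVgB_m g' (mp (φ : R →+* R') (CC.of_algHom _) e) = mp (ψ : S →+* S') (CC.of_algHom _) (WVgB_m g e) := by
  have h1 : (WVgB_m g').comp (mp (φ : R →+* R') (CC.of_algHom _)) =
      (mp (ψ : S →+* S') (CC.of_algHom _)).comp (WVgB_m g) := hom_ext' (fun r => by
    rw [RingHom.comp_apply, RingHom.comp_apply, mp_fz, WVgB_fz, WVgB_fz, mp_fz]
    exact congrArg _ (h r)) (fun r => by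
    rw [RingHom.comp_apply, RingHom.comp_apply, mp_df, WVgB_df, WVgB_df, mp_df]
    exact congrArg _ (h r))
  exact RingHom.congr_fun h1 e

/-- the isomorphism of the exact forms -/
private noncomputable def WVgB_e (g : R ≃ₐ[A] S) (q : ℕ) : exactForms A R q ≃+ exactForms A S q where
  toFun x := ⟨WVgB_m g x.1, WVgB_exact g x.2⟩
  invFun x := ⟨WVgB_m g.symm x.1, WVgB_exact g.symm x.2⟩
  left_inv x := Subtype.ext (WVgB_symm g x.1)
  right_inv x := Subtype.ext (WVgB_symm' g x.1)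
  map_add' x y := Subtype.ext (map_add (WVgB_m g) x.1 y.1)

end equiv

section

variable {A : Type u} [CommRing A] {n : ℕ} {I : Ideal (MvPolynomial (Fin n) A)}

/-- the isomorphisms commute with the restrictions -/
private theorem WVgB_rs (hI : IsHomog I) {d : ℕ} (hd : 1 ≤ d) {Γ Δ : Finset (Fin (Fintype.card (Mon n d)))}
    (h : Γ ⊆ Δ) (hΓ : Γ.Nonempty) (hΔ : Δ.Nonempty) (e : Fm A (chart I (sp n d Γ))) :
    WVgB_m (vc hI hd hΔ).symm ((prC I).rs (sp_mono h) e) =
      (prC (ver I d)).rs h (WVgB_m (vc hI hd hΓ).symm e) := by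
  have h0 : ∀ r : chart I (sp n d Γ), (vc hI hd hΔ).symm (tr I (sp_mono h) r) =
      tr (ver I d) h ((vc hI hd hΓ).symm r) := by
    intro r
    rw [AlgEquiv.symm_apply_eq, vc_tr hI hd h hΓ hΔ, AlgEquiv.apply_symm_apply]
  exact WVgB_sq (vc hI hd hΓ).symm (vc hI hd hΔ).symm (tr I (sp_mono h)) (tr (ver I d) h) h0 e

theorem ver_bk (hI : IsHomog I) {d : ℕ} (hd : 1 ≤ d) (h : (prC I).IsBlochKatoOrdinary) :
    (prC (ver I d)).IsBlochKatoOrdinary := by
  rw [bk_iff_ac] at h ⊢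
  intro q
  have hs : ∀ i : Fin (Fintype.card (Mon n d)), ((mono n d i).support).Nonempty := by
    intro i
    rw [Finset.nonempty_iff_ne_empty]
    intro h0
    have h1 := mono_deg n d i
    rw [Finsupp.support_eq_empty.1 h0] at h1
    simp at h1
    omega
  have ha : ∀ l : Fin n, ∃ i : Fin (Fintype.card (Mon n d)), mono n d i = Finsupp.single l d := by
    intro l
    refine exists_mono _ ?_
    rw [Finset.sum_eq_single l]
    · exact Finsupp.single_eq_same
    · intro b _ hb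
      exact Finsupp.single_eq_of_ne hb
    · intro h0
      exact absurd (Finset.mem_univ _) h0
  choose a ha using ha
  have ha' : ∀ l : Fin n, (mono n d (a l)).support = {l} := by
    intro l
    rw [ha l]
    exact Finsupp.support_single _ (by omega)
  have h2 := ASy.ac_cover (exS (prC I) q) (sgF n) (sgF (Fintype.card (Mon n d))) (fun i => (mono n d i).support) hs a ha'
    (h q)
  refine ASy.ac_congr _ (exS (prC (ver I d)) q) (fun Γ hΓ => WVgB_e (vc hI hd hΓ).symm q) ?_ _ h2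
  intro Γ Δ hΓΔ hΓ hΔ x
  exact Subtype.ext (WVgB_rs hI hd hΓΔ hΓ hΔ x.1)

theorem ver_open (hI : IsHomog I) {d : ℕ} (hd : 1 ≤ d) {𝔓 : Ideal A} (h : IsOpenOrd I 𝔓) : IsOpenOrd (ver I d) 𝔓 := by
  obtain ⟨f, hf, hall⟩ := h
  refine ⟨f, hf, fun 𝔪 h𝔪 hle hf𝔪 => ?_⟩
  obtain ⟨h1, h2⟩ := hall 𝔪 h𝔪 hle hf𝔪
  rw [bI_ver (Ideal.Quotient.mk 𝔪) hI hd]
  exact ⟨ver_smooth (hI.map _) hd h1, ver_bk (hI.map _) hd h2⟩

end

end MPadcDC
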