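import Pool.Agent.Lib.MP_adc574_ag_DC.WTwD
import Pool.Agent.Lib.MP_adc574_ag_DC.WVgB
import Pool.Agent.Lib.MP_adc574_ag_DC.WGeB
import Pool.Agent.Lib.MP_adc574_ag_DC.WGeE
import Pool.Agent.Lib.MP_adc574_ag_DC.PTop

/-!
# Towers: the relation between the tower and its base
-/

set_option autoImplicit false

namespace MPadcDC

open MvPolynomial MPadcGP

universe u v w

/-- Veronese re-embedding. -/
theorem oppRel_ver {k : Type u} [Field k] [CharZero k] {n : ℕ} {Y : Ideal (MvPolynomial (Fin n) k)} (hY : IsHomog Y)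
    (hs : IsSmoothProj Y) {d : ℕ} (hd : 1 ≤ d) : OppRel Y (ver Y d) 1 := by
  intro A hA IY IX hIY hIX hYk hXk
  have hfA := pred_ft hA
  have hcA := pred_cz A
  have hVk : bI (algebraMap A k) (ver IY d) = ver Y d := by rw [bI_ver _ hIY hd, hYk]
  obtain ⟨A', hle, hA', heq⟩ := exists_eq_model A hA IX (ver IY d) (hXk.trans hVk.symm)
  have hfA' := pred_ft hA'
  have hcA' := pred_cz A'
  obtain ⟨p₁, h₁⟩ := open_iff_opp hIY (algebraMap A k) Subtype.val_injective (hYk.symm ▸ hs)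
  obtain ⟨p₂, h₂⟩ := open_iff_opp (ver_homog hIY hd) (algebraMap A k) Subtype.val_injective
    (hVk.symm ▸ ver_smooth hY hd hs)
  obtain ⟨p₃, h₃⟩ := opp_upd (Subalgebra.inclusion hle).toRingHom (ver_homog hIY hd) (algebraMap A k)
    Subtype.val_injective (hVk.symm ▸ ver_smooth hY hd hs)
  obtain ⟨p₄, h₄⟩ := exists_over A A' (Subalgebra.inclusion hle).toRingHom (Subalgebra.inclusion_injective hle)
  refine ⟨p₁ + p₂ + p₃ + p₄ + 1, fun p hp hpr _ 𝔓 h𝔓 hopp => ?_⟩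
  obtain ⟨𝔓', h𝔓', hc⟩ := h₄ p hpr (by omega) 𝔓 h𝔓
  have h5 := (h₂ p hpr (by omega) 𝔓 h𝔓).1 (ver_open hIY hd ((h₁ p hpr (by omega) 𝔓 h𝔓).2 hopp))
  have h6 := h₃ p hpr (by omega) 𝔓 h𝔓 𝔓' h𝔓' hc h5
  rw [← heq] at h6
  have hpr' : 𝔓'.IsPrime := h𝔓'.1.1
  rw [← hc]
  exact opp_down _ hIX h6

/-- The invariants. -/
structure TInv {k : Type u} [Field k] (κ : Subfield k) {n : ℕ} (I : Ideal (MvPolynomial (Fin n) k)) : Prop where
  desc : ∃ J : Ideal (MvPolynomial (Fin n) κ), IsHomog J ∧ bI (algebraMap κ k) J = I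
  geo : Geo I

/-- One cyclic cover. -/
theorem tinv_cyc {k : Type u} [Field k] [IsAlgClosed k] [CharZero k] {κ : Subfield k} {n : ℕ}
    {I : Ideal (MvPolynomial (Fin n) k)} (h : TInv κ I) {e : ℕ} (he : 1 ≤ e) {a : Mon n e → k}
    (ha : AlgebraicIndependent κ a) {κ' : Subfield k} (hle : κ ≤ κ') (hκ' : ∀ g, a g ∈ κ') :
    TInv κ' (cyc I (frm a) e) := by
  obtain ⟨J, hJ, rfl⟩ := h.desc
  constructor
  · refine ⟨cyc (bI (Subfield.inclusion hle) J) (frm fun g => (⟨a g, hκ' g⟩ : κ')) e,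
      isHomog_cyc (hJ.map _) (isHomogeneous_frm _), ?_⟩
    rw [bI_cyc, bI_frm, bI_bI]
    rfl
  · obtain ⟨κb, hκb⟩ : ∃ κb, κb = algebraicClosure κ k := ⟨_, rfl⟩
    have h1 : IsAlgClosed κb := by
      rw [hκb]
      exact (algebraicClosure.isAlgClosure κ k).isAlgClosed
    have h2 : AlgebraicIndependent κb a := by
      rw [hκb]
      exact ha.algebraicClosure
    have h3 : CharZero κb := charZero_of_injective_algebraMap (algebraMap κb k).injective |> fun _ => by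
      exact ⟨fun x y hxy => by
        have h4 := congrArg (algebraMap κb k) hxy
        rw [map_natCast, map_natCast] at h4
        exact Nat.cast_injective h4⟩
    have h4 : bI (algebraMap κb k) (bI (algebraMap κ κb) J) = bI (algebraMap κ k) J := by
      rw [bI_bI, ← IsScalarTower.algebraMap_eq]
    have h5 : Geo (bI (algebraMap κ κb) J) := geo_desc (hJ.map _) (h4.symm ▸ h.geo)
    have h6 := geo_cyc h5 (K := k) he h2
    rw [h4] at h6
    exact h6

theorem tower_inv {k : Type u} [Field k] [IsAlgClosed k] [CharZero k] {n₀ : ℕ} {κ₀ : Subfield k}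
    {I₀ : Ideal (MvPolynomial (Fin n₀) k)} (h₀ : TInv κ₀ I₀) {E : ℕ} {κ : Subfield k} {n : ℕ}
    {I : Ideal (MvPolynomial (Fin n) k)} (h : Tower κ₀ I₀ E κ n I) : TInv κ I := by
  induction h with
  | base => exact h₀
  | veronese d _ hd ih =>
    refine ⟨?_, geo_ver ih.geo hd⟩
    obtain ⟨J, hJ, hJI⟩ := ih.desc
    exact ⟨ver J d, ver_homog hJ hd, by rw [bI_ver _ hJ hd, hJI]⟩
  | cover e a κ' _ he ha hle hκ' ih => exact tinv_cyc ih (by omega) ha hle hκ'

theorem tower_opp {k : Type u} [Field k] [IsAlgClosed k] [CharZero k] {n₀ : ℕ} {κ₀ : Subfield k}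
    {I₀ : Ideal (MvPolynomial (Fin n₀) k)} (h₀ : TInv κ₀ I₀) {E : ℕ} {κ : Subfield k} {n : ℕ}
    {I : Ideal (MvPolynomial (Fin n) k)} (h : Tower κ₀ I₀ E κ n I) : OppRel I₀ I E := by
  induction h with
  | base => exact OppRel.refl h₀.geo.smooth 1
  | veronese d ht hd ih =>
    have h1 := tower_inv h₀ ht
    exact OppRel.trans h₀.geo.smooth h1.geo.homog (dvd_refl _) (one_dvd _) ih
      (oppRel_ver h1.geo.homog h1.geo.smooth hd)
  | @cover E κ n I e a κ' ht he ha hle hκ' ih =>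
    have h1 := tower_inv h₀ ht
    obtain ⟨J, hJ, hJI⟩ := h1.desc
    subst hJI
    have h2 : Geo J := geo_desc hJ h1.geo
    obtain ⟨l, hl, -⟩ := h1.geo.np
    exact OppRel.trans h₀.geo.smooth h1.geo.homog (dvd_mul_right E e) (dvd_mul_left e E) ih
      (oppRel_cyc κ he hJ h2.smooth h1.geo.prime ⟨l, hl⟩ a ha)

end MPadcDC
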