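import Pool.Agent.Lib.MP_adc574_ag_DC.WTwA
import Pool.Agent.Lib.MP_adc574_ag_DC.WFrK
import Pool.Agent.Lib.MP_adc574_ag_GP.BrL

/-!
# Towers of generic cyclic covers: the final theorem
-/

set_option autoImplicit false

namespace MPadcDC

open MvPolynomial MPadcGP

universe u v w

/-- If the functions on `U_l` are not the constants then `x_l` does not vanish. -/
theorem x_notMem_of_np {κ : Type u} [Field κ] {n : ℕ} {J : Ideal (MvPolynomial (Fin n) κ)} {l : Fin n}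
    (h : ¬ Function.Surjective (algebraMap κ (chart J {l}))) : (X l : MvPolynomial (Fin n) κ) ∉ J := by
  intro hl
  apply h
  have h1 : lx J {l} l = 0 := by
    rw [lx, Ideal.Quotient.eq_zero_iff_mem.2 hl, map_zero]
  have h2 : IsUnit (lx J {l} l) := lx_isUnit J {l} (Finset.mem_singleton_self l)
  rw [h1, isUnit_zero_iff] at h2
  intro x
  refine ⟨0, ?_⟩
  have h3 : ∀ y : LR J {l}, y = 0 := fun y => by rw [← one_mul y, ← h2, zero_mul]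
  exact Subtype.ext ((h3 _).trans (h3 _).symm)

/-- The final theorem, internal form. -/
theorem tower_open {k : Type u} [Field k] [IsAlgClosed k] [CharZero k] {n₀ : ℕ} (κ₀ : Subfield k)
    {I₀ : Ideal (MvPolynomial (Fin n₀) κ₀)} (h₀ : IsHomog I₀) (hs₀ : IsSmoothProj (bI (algebraMap κ₀ k) I₀))
    (hp₀ : (bI (algebraMap κ₀ k) I₀).IsPrime)
    (hpt : ∃ l, ¬ Function.Surjective (algebraMap k (chart (bI (algebraMap κ₀ k) I₀) {l})))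
    {E : ℕ} {κ : Subfield k} {n : ℕ} {I : Ideal (MvPolynomial (Fin n) k)}
    (hT : Tower κ₀ (bI (algebraMap κ₀ k) I₀) E κ n I) (A : Subalgebra ℤ k) (hA : A.FG)
    (Y : Ideal (MvPolynomial (Fin n₀) A)) (hY : IsHomog Y) (hYk : bI (algebraMap A k) Y = bI (algebraMap κ₀ k) I₀)
    (X : Ideal (MvPolynomial (Fin n) A)) (hX : IsHomog X) (hXk : bI (algebraMap A k) X = I) :
    IsSmoothProj I ∧ I.IsPrime ∧ ∃ b : A, b ≠ 0 ∧ ∃ p₀ : ℕ, ∀ p : ℕ, p₀ ≤ p → p.Prime → (p : ZMod E) = 1 →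
      ∀ 𝔪 : Ideal A, 𝔪.IsMaximal → b ∉ 𝔪 → (Binomial I₀ ∨ (prC (bI (Ideal.Quotient.mk 𝔪) Y)).IsBlochKatoOrdinary) →
        ∀ 𝔓 ∈ (Ideal.span {(p : A)}).minimalPrimes, 𝔓 ≤ 𝔪 → IsOpenOrd X 𝔓 := by
  obtain ⟨l, hl⟩ := hpt
  have hg : Geo (bI (algebraMap κ₀ k) I₀) := ⟨h₀.map _, hp₀, hs₀, l, x_notMem_of_np hl, hl⟩
  have hti : TInv κ₀ (bI (algebraMap κ₀ k) I₀) := ⟨⟨I₀, h₀, rfl⟩, hg⟩
  have hI := tower_inv hti hT
  have hrel := tower_opp hti hT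
  obtain ⟨b, hb, p₁, h₁⟩ := OppRel.point hs₀ hI.geo.smooth hrel A hA Y hY hYk X hX hXk
  refine ⟨hI.geo.smooth, hI.geo.prime, b, hb, ?_⟩
  by_cases hbin : Binomial I₀
  · obtain ⟨p₂, h₂⟩ := binom_opp (hbin.map (algebraMap κ₀ k)) (h₀.map _) hs₀ A hA Y hY hYk
    exact ⟨p₁ + p₂, fun p hp hpr hpE 𝔪 h𝔪 hb𝔪 _ => h₁ p (by omega) hpr hpE 𝔪 h𝔪 hb𝔪
      (Or.inl fun 𝔓 h𝔓 => h₂ p (by omega) hpr 𝔓 h𝔓)⟩
  · exact ⟨p₁, fun p hp hpr hpE 𝔪 h𝔪 hb𝔪 hor => h₁ p hp hpr hpE 𝔪 h𝔪 hb𝔪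
      (Or.inr (hor.resolve_left hbin))⟩

end MPadcDC

namespace OrdRed

open MvPolynomial MPadcGP MPadcDC

universe u

/-- The final theorem. -/
theorem tower_final {k : Type u} [Field k] [IsAlgClosed k] [CharZero k] {n₀ : ℕ} (κ₀ : Subfield k)
    (I₀ : Ideal (MvPolynomial (Fin n₀) κ₀)) (h₀ : Homogeneous I₀) (hs₀ : SmoothProj (change I₀ (algebraMap κ₀ k)))
    (hp₀ : (change I₀ (algebraMap κ₀ k)).IsPrime)
    (hpt : ∃ l, ¬ Function.Surjective (algebraMap k (Fun (change I₀ (algebraMap κ₀ k)) {l})))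
    {E : ℕ} {κ : Subfield k} {n : ℕ} {I : Ideal (MvPolynomial (Fin n) k)}
    (hT : Tower κ₀ (change I₀ (algebraMap κ₀ k)) E κ n I)
    (A : Subalgebra ℤ k) (hA : A.FG)
    (Y : Ideal (MvPolynomial (Fin n₀) A)) (hY : Homogeneous Y)
    (hYk : change Y (algebraMap A k) = change I₀ (algebraMap κ₀ k))
    (X : Ideal (MvPolynomial (Fin n) A)) (hX : Homogeneous X) (hXk : change X (algebraMap A k) = I) :
    SmoothProj I ∧ I.IsPrime ∧ ∃ b : A, b ≠ 0 ∧ ∃ p₀ : ℕ, ∀ p : ℕ, p₀ ≤ p → p.Prime → (p : ZMod E) = 1 →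
      ∀ 𝔪 : Ideal A, 𝔪.IsMaximal → b ∉ 𝔪 → (Binomial I₀ ∨ (proj (change Y (Ideal.Quotient.mk 𝔪))).Ordinary) →
        ∀ 𝔓 ∈ (Ideal.span {(p : A)}).minimalPrimes, 𝔓 ≤ 𝔪 → ∃ f ∉ 𝔓, ∀ 𝔫 : Ideal A, 𝔫.IsMaximal → 𝔓 ≤ 𝔫 → f ∉ 𝔫 →
          SmoothProj (change X (Ideal.Quotient.mk 𝔫)) ∧ (proj (change X (Ideal.Quotient.mk 𝔫))).Ordinary := by
  obtain ⟨h1, h2, b, hb, p₀, h3⟩ := tower_open κ₀ h₀ hs₀ hp₀ hpt hT A hA Y hY hYk X hX hXk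
  refine ⟨h1, h2, b, hb, p₀, fun p hp hpr hpE 𝔪 h𝔪 hb𝔪 hor 𝔓 h𝔓 hle => ?_⟩
  obtain ⟨f, hf, h4⟩ := h3 p hp hpr hpE 𝔪 h𝔪 hb𝔪 (hor.imp id fun h => (ordinary_proj_iff _).1 h) 𝔓 h𝔓 hle
  refine ⟨f, hf, fun 𝔫 h𝔫 hle' hf' => ?_⟩
  obtain ⟨h5, h6⟩ := h4 𝔫 h𝔫 hle' hf'
  exact ⟨h5, (ordinary_proj_iff _).2 h6⟩

end OrdRed
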