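import Pool.Agent.Lib.MP_adc574_ag_DC.WVeD

/-!
# Towers of generic cyclic covers: definition
-/

set_option autoImplicit false

namespace MPadcDC

open MvPolynomial MPadcGP

universe u v w

/-- Towers of generic cyclic covers over the projective scheme `Y` with the ideal `I₀`, which is defined over the
subfield `κ₀` of `k`. `Tower κ₀ I₀ E κ n I`: the projective scheme with the ideal `I` is such a tower, `I` is defined over
`κ` (a subfield of `k`), and `E` is the product of the degrees of the covers. -/
inductive Tower {k : Type u} [Field k] {n₀ : ℕ} (κ₀ : Subfield k) (I₀ : Ideal (MvPolynomial (Fin n₀) k)) :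
    ℕ → Subfield k → ∀ n : ℕ, Ideal (MvPolynomial (Fin n) k) → Prop
  | base : Tower κ₀ I₀ 1 κ₀ n₀ I₀
  /-- Veronese re-embedding. -/
  | veronese {E : ℕ} {κ : Subfield k} {n : ℕ} {I : Ideal (MvPolynomial (Fin n) k)} (d : ℕ) :
      Tower κ₀ I₀ E κ n I → 1 ≤ d → Tower κ₀ I₀ E κ _ (ver I d)
  /-- The cyclic cover `z ^ e = F` of degree `e` of the tower, where the coefficients `a_γ` of the form `F` are
  algebraically independent over `κ`. It is defined over every field `κ'` which contains `κ` and the `a_γ`. -/
  | cover {E : ℕ} {κ : Subfield k} {n : ℕ} {I : Ideal (MvPolynomial (Fin n) k)} (e : ℕ) (a : Mon n e → k)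
      (κ' : Subfield k) : Tower κ₀ I₀ E κ n I → 2 ≤ e → AlgebraicIndependent κ a → κ ≤ κ' → (∀ g, a g ∈ κ') →
      Tower κ₀ I₀ (E * e) κ' (n + 1) (cyc I (frm a) e)

end MPadcDC
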