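import Pool.Agent.Lib.MP_adc574_ag_DC.WVeD

/-!
# JOB WVeA [mono_deg exists_mono mono_inj vm_homog vm_comp ver_homog ver_prime ver_ne]: the ideal of the Veronese embedding

`ver I d = I.comap vm`, `vm : y_i ↦ x ^ (mono n d i)`.
* `vm_homog`: `vm` maps forms of degree `D` to forms of degree `d D` (`IsHomogeneous.aeval` / `IsHomogeneous.prod`, or by monomials); so `vm (homogeneousComponent D G) = homogeneousComponent (d D) (vm G)` for `1 ≤ d`.
* `vm_surj`: every form of degree `d D` is in the range of `vm` on the forms of degree `D` (a monomial of degree `d D` is a product of `D` monomials of degree `d`: induction on `D`, `exists_mono`; for a monomial of degree `≥ d` there is a divisor of degree `d`).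
* `vm_ker`: (for `bI_ver`) if `vm G = 0` over `B`, then `G` is a `B`-combination of differences `y ^ α - y ^ β` with `vm (y ^ α) = vm (y ^ β)`: group the monomials of `G` by their image; so `G ∈ bI φ (ver I d)`: `y ^ α - y ^ β ∈ ver I d`.
* `bI_ver`: `≤`: `vm` commutes with `MvPolynomial.map φ`. `≥`: let `G` be homogeneous of degree `D` (`IsHomog` of both sides) with `vm G ∈ bI φ I`, a form of degree `d D`. `bI φ I` is spanned over `B` by the `map φ f`, `f ∈ I`; taking the homogeneous components
  (`hI`), `vm G = ∑ b_t • map φ f_t` with `f_t ∈ I` forms of degree `d D`; `f_t = vm G_t` (`vm_surj` over `A`), `G_t ∈ ver I d`; `G - ∑ b_t • map φ G_t` is in the kernel of `vm`: `vm_ker`.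
* `mono_deg`, `exists_mono`: `Finset.mem_finsuppAntidiag`. `ver_prime`: `Ideal.IsPrime.comap`. `ver_ne`: the index of `single l d`, `X l ^ d ∉ I` (`vm_X`, `X_pow_eq_monomial`; for `d = 0` the index of `0`, `1 ∉ I`).
-/

set_option autoImplicit false

namespace MPadcDC

open MvPolynomial MPadcGP

universe u v w

section

variable {A : Type u} [CommRing A] {n : ℕ}

theorem mono_deg (n d : ℕ) (i : Fin (Fintype.card (Mon n d))) : ∑ l, mono n d i l = d := by
  have h := ((Fintype.equivFin (Mon n d)).symm i).2
  rw [Finset.mem_finsuppAntidiag] at h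
  exact h.1

theorem exists_mono {n d : ℕ} (g : Fin n →₀ ℕ) (hg : ∑ l, g l = d) : ∃ i, mono n d i = g := by
  refine ⟨Fintype.equivFin (Mon n d) ⟨g, Finset.mem_finsuppAntidiag.2 ⟨hg, Finset.subset_univ _⟩⟩, ?_⟩
  rw [mono, Equiv.symm_apply_apply]

theorem mono_inj {n d : ℕ} {i j : Fin (Fintype.card (Mon n d))} (h : mono n d i = mono n d j) : i = j := by
  exact (Fintype.equivFin (Mon n d)).symm.injective (Subtype.ext h)

theorem vm_homog {d D : ℕ} {G : MvPolynomial (Fin (Fintype.card (Mon n d))) A} (hG : G.IsHomogeneous D) :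
    (vm A n d G).IsHomogeneous (d * D) := by
  exact hG.aeval _ fun i => isHomogeneous_monomial _ ((Finsupp.degree_eq_sum _).trans (mono_deg n d i))

theorem vm_comp {d : ℕ} (hd : 1 ≤ d) (G : MvPolynomial (Fin (Fintype.card (Mon n d))) A) (D : ℕ) :
    vm A n d (homogeneousComponent D G) = homogeneousComponent (d * D) (vm A n d G) := by
  have h1 : ∀ e, homogeneousComponent (d * D) (vm A n d (homogeneousComponent e G)) =
      if D = e then vm A n d (homogeneousComponent e G) else 0 := by
    intro e
    refine (homogeneousComponent_of_mem (vm_homog (homogeneousComponent_isHomogeneous e G))).trans ?_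
    have h2 : d * D = d * e ↔ D = e := Nat.mul_right_inj (by omega)
    simp only [h2]
  conv_rhs => rw [← sum_homogeneousComponent G, map_sum, map_sum]
  rw [Finset.sum_congr rfl fun e _ => h1 e, Finset.sum_ite_eq]
  split_ifs with h
  · rfl
  · have h5 : homogeneousComponent D G = 0 := by
      refine homogeneousComponent_eq_zero D G ?_
      rw [Finset.mem_range] at h
      omega
    rw [h5, map_zero]

theorem ver_homog {I : Ideal (MvPolynomial (Fin n) A)} (hI : IsHomog I) {d : ℕ} (hd : 1 ≤ d) :
    IsHomog (ver I d) := by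
  intro f hf D
  rw [mem_ver] at hf ⊢
  rw [vm_comp hd]
  exact hI _ hf _

theorem ver_prime {I : Ideal (MvPolynomial (Fin n) A)} (h : I.IsPrime) (d : ℕ) : (ver I d).IsPrime := by
  exact Ideal.comap_isPrime _ _

theorem ver_ne {I : Ideal (MvPolynomial (Fin n) A)} (h : I.IsPrime) (d : ℕ) (hl : ∃ l, (X l : MvPolynomial (Fin n) A) ∉ I) :
    ∃ i, (X i : MvPolynomial (Fin (Fintype.card (Mon n d))) A) ∉ ver I d := by
  obtain ⟨l, hl⟩ := hl
  obtain ⟨i, hi⟩ := exists_mono (d := d) (Finsupp.single l d)
    (by rw [← Finsupp.degree_eq_sum, Finsupp.degree_single])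
  refine ⟨i, fun h1 => hl ?_⟩
  rw [mem_ver, vm_X, hi, ← X_pow_eq_monomial] at h1
  exact h.mem_of_pow_mem _ h1

end

end MPadcDC
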