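import Pool.Agent.Lib.MP_adc574_ag_DC.WVeA

/-!
# JOB WVeB [vm_surj vm_ker]: the ideal of the Veronese embedding

`ver I d = I.comap vm`, `vm : y_i ↦ x ^ (mono n d i)`.
* `vm_homog`: `vm` maps forms of degree `D` to forms of degree `d D` (`IsHomogeneous.aeval` / `IsHomogeneous.prod`, or by monomials); so `vm (homogeneousComponent D G) = homogeneousComponent (d D) (vm G)` for `1 ≤ d`.
* `vm_surj`: every form of degree `d D` is in the range of `vm` on the forms of degree `D` (a monomial of degree `d D` is a product of `D` monomials of degree `d`: induction on `D`, `exists_mono`; for a monomial of degree `≥ d` there is a divisor of degree `d`).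
* `vm_ker`: (for `bI_ver`) if `vm G = 0` over `B`, then `G` is a `B`-combination of differences `y ^ α - y ^ β` with `vm (y ^ α) = vm (y ^ β)`: group the monomials of `G` by their image; so `G ∈ bI φ (ver I d)`: `y ^ α - y ^ β ∈ ver I d`.
* `bI_ver`: `≤`: `vm` commutes with `MvPolynomial.map φ`. `≥`: let `G` be homogeneous of degree `D` (`IsHomog` of both sides) with `vm G ∈ bI φ I`, a form of degree `d D`. `bI φ I` is spanned over `B` by the `map φ f`, `f ∈ I`; taking the homogeneous components
  (`hI`), `vm G = ∑ b_t • map φ f_t` with `f_t ∈ I` forms of degree `d D`; `f_t = vm G_t` (`vm_surj` over `A`), `G_t ∈ ver I d`; `G - ∑ b_t • map φ G_t` is in the kernel of `vm`: `vm_ker`.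
-/

set_option autoImplicit false

namespace MPadcDC

open MvPolynomial MPadcGP

universe u v w

section

variable {A : Type u} [CommRing A] {n : ℕ}

private theorem WVeB_mon {d : ℕ} (α : Fin (Fintype.card (Mon n d)) →₀ ℕ) (a : A) :
    vm A n d (monomial α a) = monomial (∑ i, α i • mono n d i) a := by
  unfold vm
  rw [aeval_monomial, Finsupp.prod_fintype _ _ fun i => pow_zero _]
  have h1 : ∀ i, (monomial (mono n d i) (1 : A)) ^ α i = monomial (α i • mono n d i) 1 := fun i => by
    rw [monomial_pow, one_pow]
  rw [Finset.prod_congr rfl fun i _ => h1 i, ← monomial_sum_one, algebraMap_eq, C_mul_monomial, mul_one]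

/-- A divisor of degree `d`. -/
private theorem WVeB_le (s : Fin n →₀ ℕ) : ∀ d : ℕ, d ≤ ∑ l, s l → ∃ g ≤ s, ∑ l, g l = d := by
  intro d
  induction d with
  | zero => exact fun _ => ⟨0, zero_le, by simp⟩
  | succ d ih =>
    intro h
    obtain ⟨g, hg, hd⟩ := ih (by omega)
    obtain ⟨l, hl⟩ : ∃ l, g l < s l := by
      by_contra hcon
      push Not at hcon
      have h1 : ∑ l, s l ≤ ∑ l, g l := Finset.sum_le_sum fun l _ => hcon l
      omega
    refine ⟨g + Finsupp.single l 1, ?_, ?_⟩
    · intro k
      rw [Finsupp.add_apply, Finsupp.single_apply]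
      split_ifs with hk
      · subst hk
        exact hl
      · rw [add_zero]
        exact hg k
    · simp only [Finsupp.add_apply, Finset.sum_add_distrib, Finsupp.single_apply, Finset.sum_ite_eq, Finset.mem_univ,
        if_true]
      omega

/-- A monomial of degree `d D` is a product of `D` monomials of degree `d`. -/
private theorem WVeB_split (d : ℕ) : ∀ (D : ℕ) (s : Fin n →₀ ℕ), ∑ l, s l = d * D →
    ∃ α : Fin (Fintype.card (Mon n d)) →₀ ℕ, ∑ i, α i = D ∧ ∑ i, α i • mono n d i = s := by
  intro D
  induction D with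
  | zero =>
    intro s hs
    have h1 : s = 0 := by
      ext l
      have h2 := Finset.sum_eq_zero_iff.mp (hs.trans (Nat.mul_zero d)) l (Finset.mem_univ l)
      exact h2
    exact ⟨0, by simp, by simp [h1]⟩
  | succ D ih =>
    intro s hs
    obtain ⟨g, hg, hd⟩ := WVeB_le s d (by rw [hs, Nat.mul_succ]; omega)
    obtain ⟨i, hi⟩ := exists_mono g hd
    have h1 : ∑ l, (s - g) l = d * D := by
      have h2 : ∑ l, (s - g) l + ∑ l, g l = ∑ l, s l := by
        rw [← Finset.sum_add_distrib]
        refine Finset.sum_congr rfl fun l _ => ?_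
        rw [Finsupp.tsub_apply]
        exact Nat.sub_add_cancel (hg l)
      rw [hd, hs, Nat.mul_succ] at h2
      omega
    obtain ⟨α, h2, h3⟩ := ih (s - g) h1
    refine ⟨α + Finsupp.single i 1, ?_, ?_⟩
    · simp only [Finsupp.add_apply, Finset.sum_add_distrib, Finsupp.single_apply, Finset.sum_ite_eq, Finset.mem_univ,
        if_true, h2]
    · simp only [Finsupp.add_apply, add_smul, Finset.sum_add_distrib, Finsupp.single_apply, ite_smul, zero_smul, one_smul,
        Finset.sum_ite_eq, Finset.mem_univ, if_true, h3, hi]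
      exact tsub_add_cancel_of_le hg

/-- Every form of degree `d D` is the image of a form of degree `D`. -/
theorem vm_surj {d D : ℕ} {f : MvPolynomial (Fin n) A} (hf : f.IsHomogeneous (d * D)) :
    ∃ G : MvPolynomial (Fin (Fintype.card (Mon n d))) A, G.IsHomogeneous D ∧ vm A n d G = f := by
  classical
  have h1 : ∀ s : Fin n →₀ ℕ, ∃ α : Fin (Fintype.card (Mon n d)) →₀ ℕ, coeff s f ≠ 0 →
      ∑ i, α i = D ∧ ∑ i, α i • mono n d i = s := by
    intro s
    by_cases hs : coeff s f = 0
    · exact ⟨0, fun h => absurd hs h⟩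
    · have h2 : s.degree = d * D := by
        have h3 := hf hs
        have h4 : (Finsupp.degree : (Fin n →₀ ℕ) →+ ℕ) = Finsupp.weight 1 := Finsupp.degree_eq_weight_one
        rw [h4]
        exact h3
      obtain ⟨α, hα⟩ := WVeB_split d D s (by rw [← h2, Finsupp.degree_eq_sum])
      exact ⟨α, fun _ => hα⟩
  choose α hα using h1
  refine ⟨∑ s ∈ f.support, monomial (α s) (coeff s f), ?_, ?_⟩
  · refine IsHomogeneous.sum _ _ _ fun s hs => ?_
    refine isHomogeneous_monomial _ ?_
    rw [Finsupp.degree_eq_sum]
    exact (hα s (mem_support_iff.mp hs)).1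
  · rw [map_sum]
    conv_rhs => rw [← support_sum_monomial_coeff f]
    refine Finset.sum_congr rfl fun s hs => ?_
    rw [WVeB_mon, (hα s (mem_support_iff.mp hs)).2]

/-- The kernel of `vm` is spanned by differences of monomials with the same image. -/
theorem vm_ker {d : ℕ} {G : MvPolynomial (Fin (Fintype.card (Mon n d))) A} (hG : vm A n d G = 0) :
    G ∈ Submodule.span A {h : MvPolynomial (Fin (Fintype.card (Mon n d))) A | ∃ α β : Fin (Fintype.card (Mon n d)) →₀ ℕ,
      (∀ l, ∑ i, α i * mono n d i l = ∑ i, β i * mono n d i l) ∧ h = monomial α 1 - monomial β 1} := by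
  classical
  -- representatives
  have h1 : ∀ s : Fin n →₀ ℕ, ∃ ρ : Fin (Fintype.card (Mon n d)) →₀ ℕ,
      (∃ α : Fin (Fintype.card (Mon n d)) →₀ ℕ, ∑ i, α i • mono n d i = s) → ∑ i, ρ i • mono n d i = s := by
    intro s
    by_cases hs : ∃ α : Fin (Fintype.card (Mon n d)) →₀ ℕ, ∑ i, α i • mono n d i = s
    · obtain ⟨α, hα⟩ := hs
      exact ⟨α, fun _ => hα⟩
    · exact ⟨0, fun h => absurd h hs⟩
  choose ρ hρ using h1
  let L : MvPolynomial (Fin n) A →ₗ[A] MvPolynomial (Fin (Fintype.card (Mon n d))) A :=
    (basisMonomials (Fin n) A).constr A fun s => monomial (ρ s) (1 : A)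
  have hL : ∀ s : Fin n →₀ ℕ, L (monomial s 1) = monomial (ρ s) 1 := by
    intro s
    have h2 := (basisMonomials (Fin n) A).constr_basis A (fun s => monomial (ρ s) (1 : A)) s
    rw [coe_basisMonomials] at h2
    exact h2
  have key : ∀ G : MvPolynomial (Fin (Fintype.card (Mon n d))) A, G - L (vm A n d G) ∈
      Submodule.span A {h : MvPolynomial (Fin (Fintype.card (Mon n d))) A | ∃ α β : Fin (Fintype.card (Mon n d)) →₀ ℕ,
      (∀ l, ∑ i, α i * mono n d i l = ∑ i, β i * mono n d i l) ∧ h = monomial α 1 - monomial β 1} := by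
    intro G
    induction G using MvPolynomial.induction_on' with
    | monomial α a =>
      have h3 : (monomial α a : MvPolynomial (Fin (Fintype.card (Mon n d))) A) = a • monomial α 1 := by
        rw [smul_monomial, smul_eq_mul, mul_one]
      rw [h3, map_smul, map_smul, ← smul_sub, WVeB_mon, hL]
      refine Submodule.smul_mem _ _ (Submodule.subset_span ⟨α, _, fun l => ?_, rfl⟩)
      have h4 := hρ (∑ i, α i • mono n d i) ⟨α, rfl⟩
      have h5 := DFunLike.congr_fun h4 l
      rw [Finsupp.finsetSum_apply, Finsupp.finsetSum_apply] at h5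
      exact h5.symm
    | add p q hp hq =>
      rw [map_add, map_add, add_sub_add_comm]
      exact Submodule.add_mem _ hp hq
  have h6 := key G
  rw [hG, map_zero, sub_zero] at h6
  exact h6

end

end MPadcDC
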