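import Pool.Agent.Lib.MP_adc574_ag_DC.Defs

/-!
# The Veronese embedding: definitions
-/

set_option autoImplicit false

namespace MPadcDC

open MvPolynomial MPadcGP

universe u v w

/-- The monomials of degree `d` in `x_1, …, x_n`, numbered. -/
noncomputable def mono (n d : ℕ) (i : Fin (Fintype.card (Mon n d))) : Fin n →₀ ℕ :=
  ((Fintype.equivFin (Mon n d)).symm i).1

section

variable {A : Type u} [CommRing A] {n : ℕ}

variable (A n) in
/-- The homomorphism `y_i ↦ x ^ (mono n d i)`. -/
noncomputable def vm (d : ℕ) : MvPolynomial (Fin (Fintype.card (Mon n d))) A →ₐ[A] MvPolynomial (Fin n) A :=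
  aeval fun i => monomial (mono n d i) (1 : A)

/-- The ideal of the image under the Veronese embedding of degree `d` of the projective scheme with the ideal `I`: the
polynomials `G(y)` with `G(x ^ γ) ∈ I`, where `x ^ γ` are the monomials of degree `d`. -/
noncomputable def ver (I : Ideal (MvPolynomial (Fin n) A)) (d : ℕ) :
    Ideal (MvPolynomial (Fin (Fintype.card (Mon n d))) A) := I.comap (vm A n d).toRingHom

theorem mem_ver {I : Ideal (MvPolynomial (Fin n) A)} {d : ℕ} {G : MvPolynomial (Fin (Fintype.card (Mon n d))) A} :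
    G ∈ ver I d ↔ vm A n d G ∈ I := Iff.rfl

theorem vm_X (d : ℕ) (i : Fin (Fintype.card (Mon n d))) : vm A n d (X i) = monomial (mono n d i) 1 := aeval_X _ _

end

end MPadcDC
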