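import Pool.Agent.Lib.MP_adc574_ag_DC.WVeA

/-!
# JOB WVfA [sp_nonempty mq_isUnit mq_change mq_tr]: the charts of the Veronese embedding

`mq K hl γ = ∏ (x_m / x_l) ^ γ_m = x ^ γ / x_l ^ |γ|`. `exists_vc`: `chart (ver I d) Γ ≅ chart I (sp Γ)`, `y_i / y_j ↦ x ^ (mono i) / x ^ (mono j)`.
* `mq_isUnit`: `cq_isUnit`, `IsUnit.pow`, product (`γ m = 0` or `m ∈ K`). `mq_change`: `cq m l' = cq m l * cq l l'` (`cq_mul`), `∏ a ^ γ_m = a ^ |γ|`. `mq_tr`: `tr_cq`.
* `exists_vc`: `g` by `exists_chart_lift` (base point `i₀ ∈ Γ`, `l₀` in the support of `mono i₀`; `d ≥ 1`), `z i = mq l₀ (mono i) * (mq l₀ (mono i₀))⁻¹`; relations: for `G ∈ ver I d` take the homogeneous components (`ver_homog`): `eval₂ _ z G = u ^ (-D) eval₂ _ (mq l₀ (mono ·)) G`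
  and `eval₂ _ (mq l₀ (mono ·)) G = eval₂ _ (cq · l₀) (vm G) = 0` (`eval₂_cq`). (Or: multiply `z` by the unit `u`; `eval₂ φ (u • z) G = u ^ D * eval₂ φ z G` for `G` homogeneous of degree `D`.)
  The inverse: `h : chart I (sp Γ) → chart (ver I d) Γ`, base point `l₀`, `x_m ↦ y_{γ₀ - e_{l₀} + e_m} / y_{i₀}` (`γ₀ = mono i₀`, `exists_mono`); relations: for `f ∈ I` homogeneous of degree `D`, `x ^ {D(γ₀ - e_{l₀})} f = vm G` with
  `G = f (y_{γ₀ - e_{l₀} + e_m})`, so `G ∈ ver I d` and `eval₂_cq`. Units: for `j ∈ sp Γ`, `j` in the support of `mono i`, `i ∈ Γ`: `(y_{γ₀ - e_{l₀} + e_j} / y_{i₀}) * (y_{γ_i - e_j + e_{l₀}} / y_{i₀}) = y_i / y_{i₀}` is a unit (a relation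
  `y_α y_β - y_γ y_δ ∈ ver I d` for `α + β = γ + δ`: `mem_ver`, `vm_X`, `monomial_mul`). Both compositions are the identity on the generators: `chart_hom_ext`.
* `exists_vc_tr`: `chart_hom_ext` for `tr ∘ vc` and `vc ∘ tr`, `vc_cq`, `mq_change`, `mq_tr`.
-/

set_option autoImplicit false

namespace MPadcDC

open MvPolynomial MPadcGP

universe u v w

/-- The coordinates which occur in the monomials `x ^ (mono i)`, `i ∈ Γ`. -/
noncomputable def sp (n d : ℕ) (Γ : Finset (Fin (Fintype.card (Mon n d)))) : Finset (Fin n) :=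
  Γ.biUnion fun i => (mono n d i).support

theorem sp_mono {n d : ℕ} {Γ Δ : Finset (Fin (Fintype.card (Mon n d)))} (h : Γ ⊆ Δ) : sp n d Γ ⊆ sp n d Δ :=
  Finset.biUnion_subset_biUnion_of_subset_left _ h

theorem sp_nonempty {n d : ℕ} (hd : 1 ≤ d) {Γ : Finset (Fin (Fintype.card (Mon n d)))} (h : Γ.Nonempty) :
    (sp n d Γ).Nonempty := by
  obtain ⟨i, hi⟩ := h
  have h1 := mono_deg n d i
  have h2 : (mono n d i).support.Nonempty := by
    rw [Finset.nonempty_iff_ne_empty]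
    intro h3
    rw [Finsupp.support_eq_empty] at h3
    rw [h3] at h1
    simp only [Finsupp.coe_zero, Pi.zero_apply, Finset.sum_const_zero] at h1
    omega
  obtain ⟨l, hl⟩ := h2
  exact ⟨l, Finset.mem_biUnion.2 ⟨i, hi, hl⟩⟩

section

variable {A : Type u} [CommRing A] {n : ℕ} (I : Ideal (MvPolynomial (Fin n) A))

/-- The function `x ^ γ / x_l ^ |γ|`. -/
noncomputable def mq (K : Finset (Fin n)) {l : Fin n} (hl : l ∈ K) (γ : Fin n →₀ ℕ) : chart I K :=
  ∏ m, cq I K m hl ^ γ m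

theorem mq_isUnit {K : Finset (Fin n)} {l : Fin n} (hl : l ∈ K) {γ : Fin n →₀ ℕ} (h : γ.support ⊆ K) :
    IsUnit (mq I K hl γ) := by
  unfold mq
  refine Finset.prod_induction _ IsUnit (fun _ _ ha hb => ha.mul hb) isUnit_one fun m _ => ?_
  by_cases hm : γ m = 0
  · rw [hm, pow_zero]
    exact isUnit_one
  · exact (cq_isUnit I K (h (Finsupp.mem_support_iff.2 hm)) hl).pow _

theorem mq_change {K : Finset (Fin n)} {l l' : Fin n} (hl : l ∈ K) (hl' : l' ∈ K) (γ : Fin n →₀ ℕ) :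
    mq I K hl' γ = mq I K hl γ * cq I K l hl' ^ (∑ m, γ m) := by
  unfold mq
  rw [← Finset.prod_pow_eq_pow_sum, ← Finset.prod_mul_distrib]
  refine Finset.prod_congr rfl fun m _ => ?_
  rw [← mul_pow, cq_mul]

theorem mq_tr {K L : Finset (Fin n)} (h : K ⊆ L) {l : Fin n} (hl : l ∈ K) (γ : Fin n →₀ ℕ) :
    tr I h (mq I K hl γ) = mq I L (h hl) γ := by
  unfold mq
  refine (map_prod (tr I h) _ _).trans ?_
  refine Finset.prod_congr rfl fun m _ => ?_
  rw [map_pow, tr_cq]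

end

end MPadcDC
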