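import Pool.Agent.Lib.MP_adc574_ag_DC.WVfA

/-!
# JOB WVfB [exists_vc]: the charts of the Veronese embedding

`mq K hl γ = ∏ (x_m / x_l) ^ γ_m = x ^ γ / x_l ^ |γ|`. `exists_vc`: `chart (ver I d) Γ ≅ chart I (sp Γ)`, `y_i / y_j ↦ x ^ (mono i) / x ^ (mono j)`.
* `mq_isUnit`: `cq_isUnit`, `IsUnit.pow`, product (`γ m = 0` or `m ∈ K`). `mq_change`: `cq m l' = cq m l * cq l l'` (`cq_mul`), `∏ a ^ γ_m = a ^ |γ|`. `mq_tr`: `tr_cq`.
* `exists_vc`: `g` by `exists_chart_lift` (base point `i₀ ∈ Γ`, `l₀` in the support of `mono i₀`; `d ≥ 1`), `z i = mq l₀ (mono i) * (mq l₀ (mono i₀))⁻¹`; relations: for `G ∈ ver I d` take the homogeneous components (`ver_homog`): `eval₂ _ z G = u ^ (-D) eval₂ _ (mq l₀ (mono ·)) G`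
  and `eval₂ _ (mq l₀ (mono ·)) G = eval₂ _ (cq · l₀) (vm G) = 0` (`eval₂_cq`). (Or: multiply `z` by the unit `u`; `eval₂ φ (u • z) G = u ^ D * eval₂ φ z G` for `G` homogeneous of degree `D`.)
  The inverse: `h : chart I (sp Γ) → chart (ver I d) Γ`, base point `l₀`, `x_m ↦ y_{γ₀ - e_{l₀} + e_m} / y_{i₀}` (`γ₀ = mono i₀`, `exists_mono`); relations: for `f ∈ I` homogeneous of degree `D`, `x ^ {D(γ₀ - e_{l₀})} f = vm G` with
  `G = f (y_{γ₀ - e_{l₀} + e_m})`, so `G ∈ ver I d` and `eval₂_cq`. Units: for `j ∈ sp Γ`, `j` in the support of `mono i`, `i ∈ Γ`: `(y_{γ₀ - e_{l₀} + e_j} / y_{i₀}) * (y_{γ_i - e_j + e_{l₀}} / y_{i₀}) = y_i / y_{i₀}` is a unit (a relation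
  `y_α y_β - y_γ y_δ ∈ ver I d` for `α + β = γ + δ`: `mem_ver`, `vm_X`, `monomial_mul`). Both compositions are the identity on the generators: `chart_hom_ext`.
* `exists_vc_tr`: `chart_hom_ext` for `tr ∘ vc` and `vc ∘ tr`, `vc_cq`, `mq_change`, `mq_tr`.
-/

set_option autoImplicit false

namespace MPadcDC

open MvPolynomial MPadcGP

universe u v w


private theorem vfB_smul {A : Type u} [CommRing A] {σ : Type w} [Fintype σ] {R : Type v} [CommRing R] (φ : A →+* R)
    (u : R) (z : σ → R) {D : ℕ} {G : MvPolynomial σ A} (hG : G.IsHomogeneous D) :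
    eval₂ φ (fun i => u * z i) G = u ^ D * eval₂ φ z G := by
  rw [eval₂_eq', eval₂_eq', Finset.mul_sum]
  refine Finset.sum_congr rfl fun s hs => ?_
  have h1 : ∑ i, s i = D := by
    have h2 := hG (mem_support_iff.1 hs)
    rw [Finsupp.weight_apply, Finsupp.sum_fintype _ _ (fun _ => by simp)] at h2
    simpa using h2
  simp only [mul_pow]
  rw [Finset.prod_mul_distrib, Finset.prod_pow_eq_pow_sum, h1]
  ring

private theorem vfB_van {A : Type u} [CommRing A] {σ : Type w} {R : Type v} [CommRing R] (φ : A →+* R) (z : σ → R)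
    {J : Ideal (MvPolynomial σ A)} (hJ : ∀ f ∈ J, ∀ d, homogeneousComponent d f ∈ J)
    (h : ∀ (D : ℕ) (G : MvPolynomial σ A), G ∈ J → G.IsHomogeneous D → eval₂ φ z G = 0) :
    ∀ G ∈ J, eval₂ φ z G = 0 := by
  intro G hG
  rw [← sum_homogeneousComponent G, ← coe_eval₂Hom, map_sum]
  exact Finset.sum_eq_zero fun D _ => h D _ (hJ G hG D) (homogeneousComponent_isHomogeneous D G)

private theorem vfB_vm {A : Type u} [CommRing A] {n : ℕ} {R : Type v} [CommRing R] [Algebra A R] (f : Fin n → R)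
    {d : ℕ} (G : MvPolynomial (Fin (Fintype.card (Mon n d))) A) :
    eval₂ (algebraMap A R) f (vm A n d G) = eval₂ (algebraMap A R) (fun i => ∏ m, f m ^ mono n d i m) G := by
  have h1 : (aeval f).comp (vm A n d) = aeval (R := A) (fun i => ∏ m, f m ^ mono n d i m) := by
    refine algHom_ext fun i => ?_
    rw [AlgHom.comp_apply, vm_X, aeval_X, aeval_monomial, map_one, one_mul,
      Finsupp.prod_fintype _ _ (fun l => pow_zero _)]
  exact congrArg (fun q : MvPolynomial (Fin (Fintype.card (Mon n d))) A →ₐ[A] R => q G) h1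

private theorem vfB_mono {A : Type u} [CommRing A] {n : ℕ} (γ : Fin n →₀ ℕ) :
    (∏ m, (X m : MvPolynomial (Fin n) A) ^ γ m) = monomial γ 1 := by
  rw [monomial_eq, C_1, one_mul, Finsupp.prod_fintype _ _ (fun l => pow_zero _)]

section

variable {A : Type u} [CommRing A] {n : ℕ} {I : Ideal (MvPolynomial (Fin n) A)}

private theorem vfB_add {K : Finset (Fin n)} {l : Fin n} (hl : l ∈ K) (γ δ : Fin n →₀ ℕ) :
    mq I K hl (γ + δ) = mq I K hl γ * mq I K hl δ := by
  unfold mq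
  exact (Finset.prod_congr rfl fun m _ => by rw [Finsupp.add_apply, pow_add]).trans Finset.prod_mul_distrib

private theorem vfB_single {K : Finset (Fin n)} {l : Fin n} (hl : l ∈ K) (m : Fin n) :
    mq I K hl (Finsupp.single m 1) = cq I K m hl := by
  unfold mq
  refine (Finset.prod_eq_single m (fun b _ hb => ?_) fun h => absurd (Finset.mem_univ m) h).trans ?_
  · rw [Finsupp.single_eq_of_ne hb, pow_zero]
  · rw [Finsupp.single_eq_same, pow_one]

private theorem vfB_rel (hI : IsHomog I) {d : ℕ} (hd : 1 ≤ d) {Γ : Finset (Fin (Fintype.card (Mon n d)))}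
    {i₀ : Fin (Fintype.card (Mon n d))} (hi₀ : i₀ ∈ Γ) {P Q : MvPolynomial (Fin (Fintype.card (Mon n d))) A}
    (h : vm A n d P = vm A n d Q) :
    eval₂ (algebraMap A (chart (ver I d) Γ)) (fun i => cq (ver I d) Γ i hi₀) P =
      eval₂ (algebraMap A (chart (ver I d) Γ)) (fun i => cq (ver I d) Γ i hi₀) Q := by
  have h1 : P - Q ∈ ver I d := by
    rw [mem_ver, map_sub, h, sub_self]
    exact I.zero_mem
  have h2 := eval₂_cq (ver_homog hI hd) hi₀ h1
  rw [eval₂_sub] at h2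
  exact sub_eq_zero.1 h2

/-- The map of the charts. -/
private theorem vfB_g (hI : IsHomog I) {d : ℕ} (hd : 1 ≤ d) {Γ : Finset (Fin (Fintype.card (Mon n d)))}
    {i₀ : Fin (Fintype.card (Mon n d))} (hi₀ : i₀ ∈ Γ) {l₀ : Fin n} (hl₀ : l₀ ∈ sp n d Γ) :
    ∃ g : chart (ver I d) Γ →ₐ[A] chart I (sp n d Γ), ∀ i,
      g (cq (ver I d) Γ i hi₀) * mq I (sp n d Γ) hl₀ (mono n d i₀) = mq I (sp n d Γ) hl₀ (mono n d i) := by
  have hsub : ∀ i ∈ Γ, (mono n d i).support ⊆ sp n d Γ := fun i hi => Finset.subset_biUnion_of_mem (fun i => (mono n d i).support) hi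
  have hu : ∀ i ∈ Γ, IsUnit (mq I (sp n d Γ) hl₀ (mono n d i)) := fun i hi => mq_isUnit I hl₀ (hsub i hi)
  obtain ⟨w, hw⟩ := (hu i₀ hi₀).exists_right_inv
  have hwu : IsUnit w := IsUnit.of_mul_eq_one (mq I (sp n d Γ) hl₀ (mono n d i₀)) (by rw [mul_comm, hw])
  have hrel : ∀ G ∈ ver I d, eval₂ (algebraMap A (chart I (sp n d Γ)))
      (fun i => w * mq I (sp n d Γ) hl₀ (mono n d i)) G = 0 := by
    refine vfB_van _ _ (ver_homog hI hd) fun D G hG hD => ?_
    rw [vfB_smul _ _ _ hD]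
    have h1 := vfB_vm (A := A) (fun l => cq I (sp n d Γ) l hl₀) G
    have h2 := eval₂_cq hI hl₀ (mem_ver.1 hG)
    have h3 : eval₂ (algebraMap A (chart I (sp n d Γ))) (fun i => mq I (sp n d Γ) hl₀ (mono n d i)) G = 0 :=
      h1.symm.trans h2
    rw [h3, mul_zero]
  obtain ⟨ρ, hρ0, hρ⟩ := exists_chart_lift (ver I d) Γ (algebraMap A (chart I (sp n d Γ))) hi₀
    (fun i => w * mq I (sp n d Γ) hl₀ (mono n d i)) (by rw [mul_comm, hw]) (fun j hj => hwu.mul (hu j hj)) hrel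
  refine ⟨{ ρ with commutes' := hρ0 }, fun i => ?_⟩
  have h1 : ρ (cq (ver I d) Γ i hi₀) * mq I (sp n d Γ) hl₀ (mono n d i₀) =
      mq I (sp n d Γ) hl₀ (mono n d i) := by
    rw [hρ, mul_comm w, mul_assoc, mul_comm w, hw, mul_one]
  exact h1

/-- The inverse map. -/
private theorem vfB_h (hI : IsHomog I) {d : ℕ} (hd : 1 ≤ d) {Γ : Finset (Fin (Fintype.card (Mon n d)))}
    {i₀ : Fin (Fintype.card (Mon n d))} (hi₀ : i₀ ∈ Γ) {l₀ : Fin n} (hl₀ : l₀ ∈ sp n d Γ)
    {δ : Fin n →₀ ℕ} (hδ : δ + Finsupp.single l₀ 1 = mono n d i₀) (idx : Fin n → Fin (Fintype.card (Mon n d)))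
    (hidx : ∀ m, mono n d (idx m) = δ + Finsupp.single m 1) :
    ∃ h : chart I (sp n d Γ) →ₐ[A] chart (ver I d) Γ, ∀ m,
      h (cq I (sp n d Γ) m hl₀) = cq (ver I d) Γ (idx m) hi₀ := by
  have hmX : ∀ m, (monomial (mono n d (idx m)) (1 : A)) = monomial δ 1 * X m := by
    intro m
    rw [hidx, X, monomial_mul, mul_one]
  have hrel : ∀ f ∈ I, eval₂ (algebraMap A (chart (ver I d) Γ)) (fun m => cq (ver I d) Γ (idx m) hi₀) f = 0 := by
    refine vfB_van _ _ hI fun D f hf hD => ?_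
    have h1 : vm A n d (rename idx f) = monomial δ 1 ^ D * f := by
      unfold vm
      rw [aeval_rename]
      have h2 : ((fun i => monomial (mono n d i) (1 : A)) ∘ idx) = fun m => monomial δ 1 * X m :=
        funext fun m => hmX m
      rw [h2, aeval_def, vfB_smul _ _ _ hD, ← aeval_def, aeval_X_left_apply]
    have h3 : rename idx f ∈ ver I d := by
      rw [mem_ver, h1]
      exact I.mul_mem_left _ hf
    have h4 := eval₂_cq (ver_homog hI hd) hi₀ h3
    rw [eval₂_rename] at h4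
    exact h4
  have h1 : idx l₀ = i₀ := mono_inj (by rw [hidx, hδ])
  have hunit : ∀ j ∈ sp n d Γ, IsUnit (cq (ver I d) Γ (idx j) hi₀) := by
    intro j hj
    obtain ⟨i, hi, hji⟩ := Finset.mem_biUnion.1 hj
    have h2 : Finsupp.single j 1 ≤ mono n d i := by
      rw [Finsupp.single_le_iff]
      exact Nat.one_le_iff_ne_zero.2 (Finsupp.mem_support_iff.1 hji)
    have h3 : mono n d i - Finsupp.single j 1 + Finsupp.single j 1 = mono n d i := tsub_add_cancel_of_le h2
    have h4 : ∑ l, (mono n d i - Finsupp.single j 1 + Finsupp.single l₀ 1 : Fin n →₀ ℕ) l = d := by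
      have h5 : ∑ l, (mono n d i - Finsupp.single j 1 + Finsupp.single j 1 : Fin n →₀ ℕ) l = d := by
        rw [h3]; exact mono_deg n d i
      simp only [Finsupp.add_apply, Finset.sum_add_distrib] at h5 ⊢
      have h6 : ∀ a : Fin n, ∑ l, (Finsupp.single a 1 : Fin n →₀ ℕ) l = 1 := by
        intro a
        rw [Finset.sum_eq_single a (fun b _ hb => Finsupp.single_eq_of_ne hb)
          (fun h => absurd (Finset.mem_univ a) h), Finsupp.single_eq_same]
      rw [h6] at h5 ⊢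
      exact h5
    obtain ⟨i', hi'⟩ := exists_mono _ h4
    have h8 : mono n d (idx j) + mono n d i' = mono n d i + mono n d i₀ := by
      rw [hidx, hi']
      calc (δ + Finsupp.single j 1) + ((mono n d i - Finsupp.single j 1) + Finsupp.single l₀ 1) =
          ((mono n d i - Finsupp.single j 1) + Finsupp.single j 1) + (δ + Finsupp.single l₀ 1) := by
            generalize mono n d i - Finsupp.single j 1 = ε
            rw [add_comm δ (Finsupp.single j 1), add_comm δ (Finsupp.single l₀ 1), add_add_add_comm,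
              add_comm (Finsupp.single j 1) ε, add_comm δ (Finsupp.single l₀ 1)]
        _ = mono n d i + mono n d i₀ := by rw [h3, hδ]
    have h7 := vfB_rel (A := A) hI hd hi₀ (P := X (idx j) * X i') (Q := X i * X i₀) (by
      rw [map_mul, map_mul, vm_X, vm_X, vm_X, vm_X, monomial_mul, monomial_mul, h8])
    rw [eval₂_mul, eval₂_mul, eval₂_X, eval₂_X, eval₂_X, eval₂_X, cq_self, mul_one] at h7
    refine isUnit_of_mul_isUnit_left (y := cq (ver I d) Γ i' hi₀) ?_
    rw [h7]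
    exact cq_isUnit _ _ hi hi₀
  obtain ⟨ρ, hρ0, hρ⟩ := exists_chart_lift I (sp n d Γ) (algebraMap A (chart (ver I d) Γ)) hl₀
    (fun m => cq (ver I d) Γ (idx m) hi₀) (by rw [h1, cq_self]) hunit hrel
  exact ⟨{ ρ with commutes' := hρ0 }, fun m => hρ m⟩


theorem exists_vc (hI : IsHomog I) {d : ℕ} (hd : 1 ≤ d) {Γ : Finset (Fin (Fintype.card (Mon n d)))}
    (hΓ : Γ.Nonempty) : ∃ g : chart (ver I d) Γ ≃ₐ[A] chart I (sp n d Γ), ∀ (i j : Fin (Fintype.card (Mon n d)))
      (hj : j ∈ Γ) (l : Fin n) (hl : l ∈ sp n d Γ),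
      g (cq (ver I d) Γ i hj) * mq I (sp n d Γ) hl (mono n d j) = mq I (sp n d Γ) hl (mono n d i) := by
  obtain ⟨i₀, hi₀⟩ := hΓ
  have hsupp : (mono n d i₀).support.Nonempty := by
    rw [Finset.nonempty_iff_ne_empty]
    intro h
    have h1 := mono_deg n d i₀
    rw [Finsupp.support_eq_empty.1 h] at h1
    simp at h1
    omega
  obtain ⟨l₀, hl₀'⟩ := hsupp
  have hl₀ : l₀ ∈ sp n d Γ := Finset.mem_biUnion.2 ⟨i₀, hi₀, hl₀'⟩
  have hδ : mono n d i₀ - Finsupp.single l₀ 1 + Finsupp.single l₀ 1 = mono n d i₀ := by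
    refine tsub_add_cancel_of_le ?_
    rw [Finsupp.single_le_iff]
    exact Nat.one_le_iff_ne_zero.2 (Finsupp.mem_support_iff.1 hl₀')
  have h6 : ∀ a : Fin n, ∑ l, (Finsupp.single a 1 : Fin n →₀ ℕ) l = 1 := by
    intro a
    rw [Finset.sum_eq_single a (fun b _ hb => Finsupp.single_eq_of_ne hb)
      (fun h => absurd (Finset.mem_univ a) h), Finsupp.single_eq_same]
  have hsum : ∀ m, ∑ l, (mono n d i₀ - Finsupp.single l₀ 1 + Finsupp.single m 1 : Fin n →₀ ℕ) l = d := by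
    intro m
    have h5 : ∑ l, (mono n d i₀ - Finsupp.single l₀ 1 + Finsupp.single l₀ 1 : Fin n →₀ ℕ) l = d := by
      rw [hδ]; exact mono_deg n d i₀
    simp only [Finsupp.add_apply, Finset.sum_add_distrib] at h5 ⊢
    rw [h6] at h5 ⊢
    exact h5
  choose idx hidx using fun m => exists_mono _ (hsum m)
  obtain ⟨g, hg⟩ := vfB_g (A := A) hI hd hi₀ hl₀
  obtain ⟨h, hh⟩ := vfB_h (A := A) hI hd hi₀ hl₀ hδ idx hidx
  have hsub : ∀ i ∈ Γ, (mono n d i).support ⊆ sp n d Γ := fun i hi =>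
    Finset.subset_biUnion_of_mem (fun i => (mono n d i).support) hi
  have hu : ∀ i ∈ Γ, IsUnit (mq I (sp n d Γ) hl₀ (mono n d i)) := fun i hi => mq_isUnit I hl₀ (hsub i hi)
  have hM : ∀ m, mq I (sp n d Γ) hl₀ (mono n d (idx m)) =
      cq I (sp n d Γ) m hl₀ * mq I (sp n d Γ) hl₀ (mono n d i₀) := by
    intro m
    rw [hidx, vfB_add, vfB_single, ← hδ, vfB_add, vfB_single, cq_self, mul_one, hδ, mul_comm]
  have hgh : g.comp h = AlgHom.id A _ := by
    refine chart_hom_ext I (sp n d Γ) hl₀ fun m => ?_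
    rw [AlgHom.comp_apply, hh, AlgHom.id_apply]
    refine (hu i₀ hi₀).mul_right_cancel ?_
    rw [hg, hM]
  have hhM : ∀ i, h (mq I (sp n d Γ) hl₀ (mono n d i)) = ∏ m, cq (ver I d) Γ (idx m) hi₀ ^ mono n d i m := by
    intro i
    unfold mq
    refine (map_prod h _ _).trans (Finset.prod_congr rfl fun m _ => ?_)
    rw [map_pow, hh]
  have hmX : ∀ m, (monomial (mono n d (idx m)) (1 : A)) = monomial (mono n d i₀ - Finsupp.single l₀ 1) 1 * X m := by
    intro m
    rw [hidx, X, monomial_mul, mul_one]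
  have hvm : ∀ i, vm A n d (∏ m, X (idx m) ^ mono n d i m) =
      monomial (mono n d i₀ - Finsupp.single l₀ 1) 1 ^ d * monomial (mono n d i) 1 := by
    intro i
    rw [map_prod]
    have h7 : ∀ m, vm A n d (X (idx m) ^ mono n d i m) =
        monomial (mono n d i₀ - Finsupp.single l₀ 1) 1 ^ mono n d i m * X m ^ mono n d i m := by
      intro m
      rw [map_pow, vm_X, hmX, mul_pow]
    rw [Finset.prod_congr rfl fun m _ => h7 m, Finset.prod_mul_distrib, Finset.prod_pow_eq_pow_sum, mono_deg, vfB_mono]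
  have hhg : h.comp g = AlgHom.id A _ := by
    refine chart_hom_ext (ver I d) Γ hi₀ fun i => ?_
    rw [AlgHom.comp_apply, AlgHom.id_apply]
    refine ((hu i₀ hi₀).map h).mul_right_cancel ?_
    rw [← map_mul, hg, hhM, hhM]
    have h7 := vfB_rel (A := A) hI hd hi₀ (P := (∏ m, X (idx m) ^ mono n d i m) * X i₀)
      (Q := X i * ∏ m, X (idx m) ^ mono n d i₀ m) (by
      rw [map_mul, map_mul, hvm, hvm, vm_X, vm_X]
      ring)
    rw [eval₂_mul, eval₂_mul, eval₂_X, eval₂_X, cq_self, mul_one, eval₂_prod, eval₂_prod] at h7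
    simp only [eval₂_pow, eval₂_X] at h7
    exact h7
  refine ⟨AlgEquiv.ofAlgHom g h hgh hhg, fun i j hj l hl => ?_⟩
  change g (cq (ver I d) Γ i hj) * mq I (sp n d Γ) hl (mono n d j) = mq I (sp n d Γ) hl (mono n d i)
  rw [mq_change I hl₀ hl (mono n d j), mq_change I hl₀ hl (mono n d i), mono_deg, mono_deg, ← mul_assoc]
  have h7 : g (cq (ver I d) Γ i hj) * mq I (sp n d Γ) hl₀ (mono n d j) = mq I (sp n d Γ) hl₀ (mono n d i) := by
    rw [← hg j, ← mul_assoc, ← map_mul, cq_mul, hg]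
  rw [h7]

/-- The isomorphism of the charts. -/
noncomputable def vc (hI : IsHomog I) {d : ℕ} (hd : 1 ≤ d) {Γ : Finset (Fin (Fintype.card (Mon n d)))}
    (hΓ : Γ.Nonempty) : chart (ver I d) Γ ≃ₐ[A] chart I (sp n d Γ) := (exists_vc hI hd hΓ).choose

theorem vc_cq (hI : IsHomog I) {d : ℕ} (hd : 1 ≤ d) {Γ : Finset (Fin (Fintype.card (Mon n d)))}
    (hΓ : Γ.Nonempty) (i j : Fin (Fintype.card (Mon n d))) (hj : j ∈ Γ) (l : Fin n) (hl : l ∈ sp n d Γ) :
    vc hI hd hΓ (cq (ver I d) Γ i hj) * mq I (sp n d Γ) hl (mono n d j) = mq I (sp n d Γ) hl (mono n d i) :=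
  (exists_vc hI hd hΓ).choose_spec i j hj l hl

end

end MPadcDC
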